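import Mathlib

set_option autoImplicit false

namespace Pool.Agent.H24.Alpha

variable {V : Type}

def inner (adj : V → V → Bool) (f : List V → Bool) : List V → Bool
  | [] => true
  | v :: l => f (l.filter fun w => !(adj v w)) && inner adj f l

/-- `noInd adj k l = true` certifies that no `k` vertices of `l` are pairwise non-adjacent. -/
def noInd (adj : V → V → Bool) : ℕ → List V → Bool
  | 0 => fun _ => false
  | k + 1 => inner adj (noInd adj k)

theorem noInd_spec [DecidableEq V] (adj : V → V → Bool) (k : ℕ) : ∀ (l : List V),
    noInd adj k l = true → l.Nodup →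
    ∀ s : Finset V, (∀ x ∈ s, x ∈ l) → (∀ x ∈ s, ∀ y ∈ s, x ≠ y → adj x y = false) →
      s.card < k := by
  induction k with
  | zero => intro l h; simp [noInd] at h
  | succ k ih =>
    intro l
    induction l with
    | nil =>
      intro _ _ s hs _
      have : s = ∅ := Finset.eq_empty_of_forall_notMem fun x hx => by simpa using hs x hx
      simp [this]
    | cons v l ihl =>
      intro h hn s hs hi
      simp only [noInd, inner, Bool.and_eq_true] at h
      rw [List.nodup_cons] at hn
      by_cases hv : v ∈ s
      · have := ih _ h.1 (hn.2.filter _) (s.erase v) (fun x hx => by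
          rw [Finset.mem_erase] at hx
          rw [List.mem_filter]
          refine ⟨?_, by simp [hi v hv x hx.2 hx.1.symm]⟩
          rcases List.mem_cons.1 (hs x hx.2) with h | h
          · exact absurd h hx.1
          · exact h) (fun x hx y hy => hi x (Finset.mem_of_mem_erase hx) y (Finset.mem_of_mem_erase hy))
        rw [Finset.card_erase_of_mem hv] at this
        omega
      · refine ihl h.2 hn.2 s (fun x hx => ?_) hi
        rcases List.mem_cons.1 (hs x hx) with h | h
        · exact absurd (h ▸ hx) hv
        · exact h

theorem indep_lt [DecidableEq V] (G : SimpleGraph V) (adj : V → V → Bool)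
    (hadj : ∀ x y, adj x y = true → G.Adj x y) (k : ℕ) (l : List V)
    (h : noInd adj k l = true) (hn : l.Nodup) (s : Finset V) (hs : ∀ x ∈ s, x ∈ l)
    (hi : G.IsIndepSet (s : Set V)) : s.card < k :=
  noInd_spec adj k l h hn s hs fun x hx y hy hxy => by
    by_contra hc
    exact hi hx hy hxy (hadj x y (by simpa using hc))

theorem indepNum_lt {n : ℕ} (G : SimpleGraph (Fin n)) (adj : Fin n → Fin n → Bool)
    (hadj : ∀ x y, adj x y = true → G.Adj x y) (k : ℕ)
    (h : noInd adj k (List.finRange n) = true) : G.indepNum < k := by
  obtain ⟨s, hs⟩ := G.exists_isNIndepSet_indepNum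
  rw [← hs.card_eq]
  exact indep_lt G adj hadj k _ h (List.nodup_finRange n) s (fun x _ => List.mem_finRange x)
    hs.isIndepSet

theorem le_indepNum [Fintype V] (G : SimpleGraph V) (s : Finset V)
    (h : ∀ x ∈ s, ∀ y ∈ s, ¬ G.Adj x y) : s.card ≤ G.indepNum :=
  SimpleGraph.IsIndepSet.card_le_indepNum (fun x hx y hy _ => h x hx y hy)

end Pool.Agent.H24.Alpha
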