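import Mathlib

/-! Antistrong digraphs: definitions, trails from the bipartite representation, hub model. -/

namespace Pool.Agent.H24.Anti

/-- The `i`-th arc of an antidirected walk `w`: forward for even `i`, backward for odd `i`. -/
def arc {V : Type} (w : ℕ → V) (i : ℕ) : V × V := if i % 2 = 0 then (w i, w (i + 1)) else (w (i + 1), w i)

/-- At least three vertices, and a forward antidirected trail between any two distinct ones. -/
def Antistrong {V : Type} (D : V → V → Prop) : Prop :=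
  3 ≤ Nat.card V ∧ ∀ x y, x ≠ y → ∃ (k : ℕ) (w : ℕ → V), w 0 = x ∧ w (2 * k + 1) = y ∧
    (∀ i ≤ 2 * k, D (arc w i).1 (arc w i).2) ∧
    ∀ i ≤ 2 * k, ∀ j ≤ 2 * k, arc w i = arc w j → i = j

/-- Strongly connected. -/
def Strong {V : Type} (D : V → V → Prop) : Prop := ∀ x y, Relation.ReflTransGen D x y

variable {V : Type}

def bip (D : V → V → Prop) : SimpleGraph (V ⊕ V) :=
  SimpleGraph.fromRel fun a b => ∃ u v, a = .inl u ∧ b = .inr v ∧ D u v

lemma bip_adj {D : V → V → Prop} {u v : V} (h : D u v) : (bip D).Adj (.inl u) (.inr v) := by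
  simp only [bip, SimpleGraph.fromRel_adj]
  exact ⟨by simp, Or.inl ⟨u, v, rfl, rfl, h⟩⟩

lemma trail_of_reach {D : V → V → Prop} {x y : V} (h : (bip D).Reachable (.inl x) (.inr y)) :
    ∃ (k : ℕ) (w : ℕ → V), w 0 = x ∧ w (2 * k + 1) = y ∧
      (∀ i ≤ 2 * k, D (arc w i).1 (arc w i).2) ∧
      ∀ i ≤ 2 * k, ∀ j ≤ 2 * k, arc w i = arc w j → i = j := by
  obtain ⟨p, hp⟩ := h.exists_isPath
  let w : ℕ → V := fun i => (p.getVert i).elim id id
  have step : ∀ i < p.length, (∃ u v, p.getVert i = .inl u ∧ p.getVert (i + 1) = .inr v ∧ D u v) ∨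
      ∃ u v, p.getVert (i + 1) = .inl u ∧ p.getVert i = .inr v ∧ D u v := by
    intro i hi
    have := p.adj_getVert_succ hi
    simp only [bip, SimpleGraph.fromRel_adj] at this
    exact this.2
  have par : ∀ i ≤ p.length, p.getVert i = if i % 2 = 0 then .inl (w i) else .inr (w i) := by
    intro i
    induction i with
    | zero => simp [w]
    | succ i ih =>
      intro hi
      have k := ih (by omega)
      rcases step i (by omega) with ⟨u, v, a, b, -⟩ | ⟨u, v, a, b, -⟩
      · have : i % 2 = 0 := by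
          by_contra m
          rw [if_neg m, a] at k
          simp at k
        rw [if_neg (by omega)]
        simp [w, b]
      · have : ¬ i % 2 = 0 := by
          intro m
          rw [if_pos m, b] at k
          simp at k
        rw [if_pos (by omega)]
        simp [w, a]
  have hodd : p.length % 2 = 1 := by
    have := par p.length le_rfl
    by_contra m
    rw [if_pos (by omega)] at this
    simp at this
  have hl : 2 * (p.length / 2) + 1 = p.length := by omega
  have inj : ∀ i ≤ p.length, ∀ j ≤ p.length, i % 2 = j % 2 → w i = w j → i = j := by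
    intro i hi j hj m1 m2
    apply hp.getVert_injOn hi hj
    rw [par i hi, par j hj, m1, m2]
  refine ⟨p.length / 2, w, by simp [w], by rw [hl]; simp [w], fun i hi => ?_, fun i hi j hj k => ?_⟩
  · have k := par i (by omega)
    unfold arc
    rcases step i (by omega) with ⟨u, v, a, b, c⟩ | ⟨u, v, a, b, c⟩
    · split_ifs with m
      · simpa [w, a, b] using c
      · rw [if_neg m, a] at k
        simp at k
    · split_ifs with m
      · rw [if_pos m, b] at k
        simp at k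
      · simpa [w, a, b] using c
  · unfold arc at k
    split_ifs at k with m1 m2 m2 <;> simp only [Prod.mk.injEq] at k
    · exact inj i (by omega) j (by omega) (by omega) k.1
    · have := inj i (by omega) (j + 1) (by omega) (by omega) k.1
      have := inj (i + 1) (by omega) j (by omega) (by omega) k.2
      omega
    · have := inj (i + 1) (by omega) j (by omega) (by omega) k.1
      have := inj i (by omega) (j + 1) (by omega) (by omega) k.2
      omega
    · exact inj i (by omega) j (by omega) (by omega) k.2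

lemma Antistrong.last {D : V → V → Prop} (h : Antistrong D) {x y : V} (hxy : x ≠ y) :
    D x y ∨ ∃ p w, D p y ∧ D p w ∧ w ≠ y := by
  obtain ⟨k, w, h0, h1, h2, h3⟩ := h.2 x y hxy
  have a := h2 (2 * k) le_rfl
  have e1 : arc w (2 * k) = (w (2 * k), y) := by simp [arc, h1]
  rw [e1] at a
  rcases k with _ | k
  · exact Or.inl (h0 ▸ a)
  · have b := h2 (2 * k + 1) (by omega)
    have e2 : arc w (2 * k + 1) = (w (2 * (k + 1)), w (2 * k + 1)) := by
      simp [arc, Nat.add_mod, Nat.mul_add]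
    rw [e2] at b
    refine Or.inr ⟨_, _, a, b, fun m => ?_⟩
    have := h3 (2 * k + 1) (by omega) (2 * (k + 1)) le_rfl (by rw [e1, e2]; exact Prod.ext rfl m)
    omega

lemma Antistrong.first {D : V → V → Prop} (h : Antistrong D) {x y : V} (hxy : x ≠ y) :
    ∃ w, D x w := by
  obtain ⟨k, w, h0, -, h2, -⟩ := h.2 x y hxy
  exact ⟨w 1, by simpa [arc, h0] using h2 0 (by omega)⟩

def Split (D : V → V → Prop) : Prop :=
  ∃ D₁ D₂ : V → V → Prop, (∀ u v, D₁ u v → D u v) ∧ (∀ u v, D₂ u v → D u v) ∧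
    (∀ u v, D₁ u v → ¬ D₂ u v) ∧ Antistrong D₁ ∧ Strong D₂

section hub
variable {D : V → V → Prop} {z₁ z₂ α γ τ : V} {o : V → Bool → V} {F : V → Prop}

def Hub (D : V → V → Prop) (z₁ z₂ α γ : V) (o : V → Bool → V) (F : V → Prop) : Prop :=
  ∀ u v, D u v ↔ (u = z₁ ∧ v ≠ z₁) ∨ (u = z₂ ∧ (v = z₁ ∨ v = α ∨ v = γ ∨ F v)) ∨
    (u ≠ z₁ ∧ u ≠ z₂ ∧ ∃ b, o u b = v)

theorem hub_no (h : Hub D z₁ z₂ α γ o F) (hs : Split D) : ∃ c : V → Bool,
    (∀ v, v ≠ z₁ → v ≠ α → v ≠ γ → ¬ F v → ∃ u, u ≠ z₁ ∧ u ≠ z₂ ∧ o u (c u) = v) ∧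
    ∀ u v, u ≠ z₁ → u ≠ z₂ → v ≠ z₁ → v ≠ z₂ → o u (c u) = v → o v (c v) ≠ u := by
  obtain ⟨A, B, hA, hB, hd, ha, hb⟩ := hs
  have ho : ∀ u v, u ≠ z₁ → u ≠ z₂ → D u v → ∃ b, o u b = v := by
    intro u v k1 k2 k
    have := (h u v).mp k
    tauto
  have hc : ∀ u, ∃ c, u ≠ z₁ → u ≠ z₂ → (∀ v, B u v → v = o u c) ∧ ∀ v, A u v → v = o u (!c) := by
    intro u
    by_cases k : u ≠ z₁ ∧ u ≠ z₂
    · obtain ⟨w, hw⟩ := ha.first k.1
      obtain ⟨b, rfl⟩ := ho u w k.1 k.2 (hA _ _ hw)
      obtain e | ⟨x, hx, -⟩ := (hb u z₁).cases_head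
      · exact absurd e k.1
      obtain ⟨c, rfl⟩ := ho u x k.1 k.2 (hB _ _ hx)
      have hbc : b ≠ c := by rintro rfl; exact hd _ _ hw hx
      refine ⟨c, fun _ _ => ⟨fun v hv => ?_, fun v hv => ?_⟩⟩
      · obtain ⟨d, rfl⟩ := ho u v k.1 k.2 (hB _ _ hv)
        have : d ≠ b := by rintro rfl; exact hd _ _ hw hv
        congr 1
        revert hbc this
        cases b <;> cases c <;> cases d <;> simp
      · obtain ⟨d, rfl⟩ := ho u v k.1 k.2 (hA _ _ hv)
        have : d ≠ c := by rintro rfl; exact hd _ _ hv hx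
        congr 1
        revert this
        cases c <;> cases d <;> simp
    · exact ⟨false, fun k1 k2 => absurd ⟨k1, k2⟩ k⟩
  choose c hc using hc
  refine ⟨c, fun v k1 k2 k3 k4 => ?_, fun u v u1 u2 v1 v2 k1 k2 => ?_⟩
  · have nz : ∀ p, D p v → p ≠ z₁ → p ≠ z₂ := by
      rintro p k m rfl
      have := (h _ v).mp k
      tauto
    have hz : A z₁ v := by
      rcases ha.last k1.symm with k | ⟨p, w, p1, p2, p3⟩
      · exact k
      · by_cases m : p = z₁
        · exact m ▸ p1
        · have := (hc p m (nz p (hA _ _ p1) m)).2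
          exact absurd ((this _ p2).trans (this _ p1).symm) p3
    obtain e | ⟨p, -, hp⟩ := (hb z₁ v).cases_tail
    · exact absurd e k1
    have m : p ≠ z₁ := by rintro rfl; exact hd _ _ hz hp
    have m2 := nz p (hB _ _ hp) m
    exact ⟨p, m, m2, ((hc p m m2).1 v hp).symm⟩
  · have : ∀ x, Relation.ReflTransGen B u x → x = u ∨ x = v := by
      intro x hx
      induction hx with
      | refl => exact Or.inl rfl
      | tail _ k ih =>
        rcases ih with rfl | rfl
        · exact Or.inr (((hc _ u1 u2).1 _ k).trans k1)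
        · exact Or.inl (((hc _ v1 v2).1 _ k).trans k2)
    rcases this z₁ (hb u z₁) with e | e
    · exact u1 e.symm
    · exact v1 e.symm

theorem hub_yes [Finite V] (h : Hub D z₁ z₂ α γ o F) (h12 : z₁ ≠ z₂) (a1 : α ≠ z₁) (a2 : α ≠ z₂)
    (g1 : γ ≠ z₁) (g2 : γ ≠ α) (f1 : ¬ F z₁) (f2 : ¬ F α) (f3 : ¬ F γ) (t1 : F τ) (t2 : τ ≠ z₂)
    (ho : ∀ u, u ≠ z₁ → u ≠ z₂ → o u false ≠ o u true) (c : V → Bool) (r : V → ℕ)
    (ht : o τ (c τ) = z₁) (hr : ∀ u, u ≠ z₁ → u ≠ z₂ → r (o u (c u)) < r u)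
    (g3 : γ ≠ z₂) (ha : o α (c α) = γ) (hg : o γ (c γ) = z₂)
    (hc : ∀ v, v ≠ z₁ → v ≠ z₂ → v ≠ α → ¬ F v → ∃ u, u ≠ z₁ ∧ u ≠ z₂ ∧ o u (c u) = v) : Split D := by
  let B : V → V → Prop := fun u v => (u = z₁ ∧ v = α) ∨ (u = z₂ ∧ F v) ∨
    (u ≠ z₁ ∧ u ≠ z₂ ∧ o u (c u) = v)
  refine ⟨fun u v => D u v ∧ ¬ B u v, B, fun _ _ k => k.1, fun u v k => ?_, fun _ _ k => k.2,
    ⟨?_, fun x y _ => trail_of_reach (D := fun u v => D u v ∧ ¬ B u v) ?_⟩, ?_⟩
  · rw [h]
    rcases k with ⟨rfl, rfl⟩ | k | k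
    · exact Or.inl ⟨rfl, a1⟩
    · tauto
    · exact Or.inr (Or.inr ⟨k.1, k.2.1, _, k.2.2⟩)
  · have := Fintype.ofFinite V
    rw [Nat.card_eq_fintype_card]
    exact Fintype.two_lt_card_iff.mpr ⟨z₁, z₂, α, h12, a1.symm, a2.symm⟩
  · have k1 : ∀ v, v ≠ z₁ → v ≠ α → (bip fun u v => D u v ∧ ¬ B u v).Adj (.inl z₁) (.inr v) :=
      fun v m1 m2 => bip_adj ⟨(h _ _).mpr (Or.inl ⟨rfl, m1⟩), by simp [B, m2, h12]⟩
    have k2 : ∀ v, (v = z₁ ∨ v = α ∨ v = γ) →
        (bip fun u v => D u v ∧ ¬ B u v).Adj (.inl z₂) (.inr v) := fun v m =>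
      bip_adj ⟨(h _ _).mpr (by tauto), by
        simp only [B, h12.symm, false_and, true_and, ne_eq, not_true_eq_false, and_false, or_false,
          false_or]
        rcases m with rfl | rfl | rfl <;> assumption⟩
    have k3 := (k1 γ g1 g2).reachable.trans (k2 γ (by tauto)).reachable.symm
    have k4 : ∀ v, (bip fun u v => D u v ∧ ¬ B u v).Reachable (.inl z₁) (.inr v) := by
      intro v
      by_cases m : v = z₁ ∨ v = α
      · exact k3.trans (k2 v (by tauto)).reachable
      · exact (k1 v (by tauto) (by tauto)).reachable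
    refine SimpleGraph.Reachable.trans (SimpleGraph.Reachable.symm ?_) (k4 y)
    by_cases m1 : x = z₁
    · rw [m1]
    by_cases m2 : x = z₂
    · rw [m2]; exact k3
    refine (k4 (o x (!c x))).trans (bip_adj ⟨(h _ _).mpr (Or.inr (Or.inr ⟨m1, m2, _, rfl⟩)), ?_⟩).reachable.symm
    simp only [B, m1, m2, false_and, false_or, ne_eq, not_false_eq_true, true_and]
    have := ho x m1 m2
    cases c x
    · exact this
    · exact this.symm
  · have tz : τ ≠ z₁ := by rintro rfl; exact f1 t1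
    have k1 : ∀ n u, r u ≤ n → Relation.ReflTransGen B u z₁ := by
      intro n
      induction n using Nat.strong_induction_on with
      | _ n ih =>
        intro u hu
        by_cases m1 : u = z₁
        · rw [m1]
        by_cases m2 : u = z₂
        · rw [m2]
          exact .head (Or.inr (Or.inl ⟨rfl, t1⟩)) (.single (Or.inr (Or.inr ⟨tz, t2, ht⟩)))
        exact .head (Or.inr (Or.inr ⟨m1, m2, rfl⟩)) (ih _ (lt_of_lt_of_le (hr u m1 m2) hu) _ le_rfl)
    obtain ⟨R, hR⟩ := (Set.finite_range r).bddAbove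
    have k0 : Relation.ReflTransGen B z₁ α := .single (Or.inl ⟨rfl, rfl⟩)
    have k2 : Relation.ReflTransGen B z₁ z₂ :=
      (k0.tail (Or.inr (Or.inr ⟨a1, a2, ha⟩))).tail (Or.inr (Or.inr ⟨g1, g3, hg⟩))
    have k3 : ∀ n v, R - r v ≤ n → Relation.ReflTransGen B z₁ v := by
      intro n
      induction n using Nat.strong_induction_on with
      | _ n ih =>
        intro v hv
        by_cases m1 : v = z₁
        · rw [m1]
        by_cases m2 : v = z₂
        · rw [m2]; exact k2
        by_cases m3 : v = α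
        · rw [m3]; exact k0
        by_cases m4 : F v
        · exact k2.tail (Or.inr (Or.inl ⟨rfl, m4⟩))
        obtain ⟨u, u1, u2, u3⟩ := hc v m1 m2 m3 m4
        have q1 := hr u u1 u2
        have q2 : r u ≤ R := hR ⟨u, rfl⟩
        rw [u3] at q1
        exact (ih (R - r u) (by omega) u le_rfl).tail (Or.inr (Or.inr ⟨u1, u2, u3⟩))
    exact fun x y => (k1 _ x le_rfl).trans (k3 _ y le_rfl)

end hub

end Pool.Agent.H24.Anti
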