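import Pool.Agent.H24.Anti1
import Pool.Agent.H36.Gr

/-! Reduction from 3SAT to the antistrong plus strong splitting problem. -/

namespace Pool.Agent.H24.Anti

open Pool.Agent.H38.NP Pool.Agent.H36.Gr

abbrev C := ℕ × ℕ × ℕ

def ok (m : ℕ) (c : C) : Bool :=
  decide ((c.1 = 0 ∧ c.2.1 < 5 ∧ c.2.2 = 0) ∨ (c.1 = 1 ∧ c.2.1 < m ∧ c.2.2 = 0) ∨
    (c.1 = 2 ∧ c.2.1 < 3 * m ∧ c.2.2 = 0) ∨ (3 ≤ c.1 ∧ c.1 ≤ 5 ∧ c.2.1 < 3 * m ∧ c.2.2 < 3 * m))

def vs (m : ℕ) : List C :=
  ((List.range 6).product ((List.range (3 * m + 5)).product (List.range (3 * m + 5)))).filter (ok m)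

def out (φ : F3) (c : C) (b : Bool) : C :=
  if c.1 = 0 then cond b (0, 0, 0) (if c.2.1 = 2 then (0, 3, 0) else (0, 1, 0))
  else if c.1 = 1 then cond b (0, 0, 0) (0, 1, 0)
  else if c.1 = 2 then cond b (1, c.2.1 / 3, 0) (3, c.2.1, 0)
  else if c.1 = 3 then cond b (0, 0, 0) (4, c.2.1, c.2.2)
  else if c.1 = 4 then
    cond b (if c.2.2 + 1 < 3 * φ.length then (3, c.2.1, c.2.2 + 1) else (0, 0, 0)) (3, c.2.1, c.2.2)
  else if conf φ c.2.1 c.2.2 = true then
    (if c.2.1 < c.2.2 then cond b (4, c.2.2, c.2.1) (4, c.2.1, c.2.2) else cond b (0, 0, 0) (0, 1, 0))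
  else cond b (0, 0, 0) (4, c.2.1, c.2.2)

def Fr (c : C) : Prop := c.1 = 2 ∨ c.1 = 5 ∨ c = (0, 4, 0)

def adj (φ : F3) (a b : C) : Bool :=
  decide ((a = (0, 0, 0) ∧ b ≠ (0, 0, 0)) ∨
    (a = (0, 1, 0) ∧ (b = (0, 0, 0) ∨ b = (0, 2, 0) ∨ b = (0, 3, 0) ∨
      (b.1 = 2 ∨ b.1 = 5 ∨ b = (0, 4, 0)))) ∨
    (a ≠ (0, 0, 0) ∧ a ≠ (0, 1, 0) ∧ (out φ a false = b ∨ out φ a true = b)))

def red (φ : F3) : ℕ × List (ℕ × ℕ) := mkG (vs φ.length) (adj φ)

theorem pt_red : PT red :=
  pt_mkG (by unfold vs ok; fun_prop) (by unfold adj out; fun_prop)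

lemma nd (m : ℕ) : (vs m).Nodup :=
  (List.nodup_range.product (List.nodup_range.product List.nodup_range)).filter _

lemma mem_vs {m : ℕ} {c : C} : c ∈ vs m ↔
    (c.1 = 0 ∧ c.2.1 < 5 ∧ c.2.2 = 0) ∨ (c.1 = 1 ∧ c.2.1 < m ∧ c.2.2 = 0) ∨
    (c.1 = 2 ∧ c.2.1 < 3 * m ∧ c.2.2 = 0) ∨ (3 ≤ c.1 ∧ c.1 ≤ 5 ∧ c.2.1 < 3 * m ∧ c.2.2 < 3 * m) := by
  obtain ⟨t, u, v⟩ := c
  simp only [vs, ok, List.mem_filter, List.pair_mem_product, List.mem_range, decide_eq_true_eq]
  omega

lemma out_mem {φ : F3} {c : C} (h : c ∈ vs φ.length) (b : Bool) : out φ c b ∈ vs φ.length := by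
  rw [mem_vs] at h ⊢
  unfold out
  cases b <;> split_ifs <;> simp <;> omega

lemma out_ne {φ : F3} {c : C} (h : c ∈ vs φ.length) (h1 : c ≠ (0, 0, 0)) (h2 : c ≠ (0, 1, 0)) :
    out φ c false ≠ c ∧ out φ c true ≠ c ∧ out φ c false ≠ out φ c true := by
  obtain ⟨t, u, v⟩ := c
  rw [mem_vs] at h
  simp only [ne_eq, Prod.mk.injEq] at h h1 h2
  unfold out
  split_ifs <;> simp only [cond_true, cond_false, ne_eq, Prod.mk.injEq] at * <;> omega

/-- The digraph given by a list of arcs. -/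
def dig (n : ℕ) (A : List (ℕ × ℕ)) : Fin n → Fin n → Prop := fun u v => u ≠ v ∧ (u.1, v.1) ∈ A

variable (φ : F3)

noncomputable def sp (i : Fin 5) : Fin (vs φ.length).length :=
  ix (nd _) (0, i.1, 0) (mem_vs.mpr (Or.inl ⟨rfl, i.2, rfl⟩))

noncomputable def oo (u : Fin (vs φ.length).length) (b : Bool) : Fin (vs φ.length).length :=
  ix (nd _) (out φ (code _ u) b) (out_mem (code_mem _ u) b)

variable {φ}

lemma eq_sp {u : Fin (vs φ.length).length} {i : Fin 5} : u = sp φ i ↔ code _ u = (0, i.1, 0) := by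
  rw [← (code_inj (nd _)).eq_iff, sp, code_ix]

lemma oo_eq {u v : Fin (vs φ.length).length} {b} : oo φ u b = v ↔ out φ (code _ u) b = code _ v := by
  rw [← (code_inj (nd _)).eq_iff, oo, code_ix]

lemma hub : Hub (dig (vs φ.length).length (red φ).2) (sp φ 0) (sp φ 1) (sp φ 2) (sp φ 3) (oo φ)
    (fun v => Fr (code _ v)) := by
  intro u v
  have e : (u.1, v.1) ∈ (red φ).2 ↔ adj φ (code _ u) (code _ v) = true := by
    simp only [red, mkG, mem_edgesOf, u.2, v.2, true_and]
    rfl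
  simp only [dig, e, adj, decide_eq_true_eq, ne_eq, eq_sp, oo_eq, Bool.exists_bool, Fr]
  refine and_iff_right_of_imp fun k m => ?_
  subst m
  rcases k with k | ⟨k1, k⟩ | ⟨k1, k2, k⟩
  · exact k.2 k.1
  · simp [k1] at k
  · have := out_ne (code_mem _ u) k1 k2
    tauto

theorem yes (h : Sat3 φ) : Split (dig (vs φ.length).length (red φ).2) := by
  obtain ⟨s, s1, s2⟩ := (sat3_iff_sel φ).mp h
  let sel : ℕ → Bool := fun u => decide (s (u / 3) = u)
  let ch : C → Bool := fun c =>
    if c.1 = 0 then decide (c.2.1 = 4) else if c.1 = 1 then true else if c.1 = 4 then !sel c.2.1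
    else if c.1 = 5 then conf φ c.2.1 c.2.2 && !(decide (c.2.1 < c.2.2) && sel c.2.1) else sel c.2.1
  let r : C → ℕ := fun c =>
    if c.1 = 0 then (if c.2.1 < 2 then 0 else if c.2.1 = 2 then 2 else 1) else if c.1 = 1 then 1
    else if c.1 = 3 then (if sel c.2.1 then 1 else 2 * (3 * φ.length - c.2.2) + 1)
    else if c.1 = 4 then (if sel c.2.1 then 2 else 2 * (3 * φ.length - c.2.2))
    else 6 * φ.length + 5
  have cs : ∀ i, code _ (sp φ i) = (0, i.1, 0) := fun i => eq_sp.mp rfl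
  have cov : ∀ {v : Fin (vs φ.length).length} (c : C), c ∈ vs φ.length → c.1 ≠ 0 →
      out φ c (ch c) = code _ v →
      ∃ u, u ≠ sp φ 0 ∧ u ≠ sp φ 1 ∧ oo φ u (ch (code _ u)) = v := by
    intro v c h1 h2 h3
    obtain ⟨u, rfl⟩ := code_surj h1
    exact ⟨u, fun k => h2 (by rw [eq_sp.mp k]), fun k => h2 (by rw [eq_sp.mp k]), oo_eq.mpr h3⟩
  refine hub_yes (τ := sp φ 4) hub (by simp [eq_sp, cs]) (by simp [eq_sp, cs]) (by simp [eq_sp, cs])
    (by simp [eq_sp, cs]) (by simp [eq_sp, cs]) (by simp [Fr, cs]) (by simp [Fr, cs])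
    (by simp [Fr, cs]) (by simp [Fr, cs]) (by simp [eq_sp, cs]) (fun u k1 k2 k => ?_)
    (fun u => ch (code _ u)) (fun u => r (code _ u)) (by simp [oo_eq, cs, ch, out])
    (fun u k1 k2 => ?_) (by simp [eq_sp, cs]) (by simp [oo_eq, cs, ch, out])
    (by simp [oo_eq, cs, ch, out]) (fun v k1 k2 k3 k4 => ?_)
  · simp only [ne_eq, eq_sp] at k1 k2
    rw [oo_eq, oo, code_ix] at k
    exact (out_ne (code_mem _ u) k1 k2).2.2 k
  · simp only [ne_eq, eq_sp] at k1 k2
    have hm := mem_vs.mp (code_mem _ u)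
    simp only [oo, code_ix]
    generalize code _ u = c at *
    obtain ⟨t, a, b⟩ := c
    simp only [Prod.mk.injEq] at k1 k2 hm
    rcases hm with ⟨rfl, m, rfl⟩ | ⟨rfl, m, rfl⟩ | ⟨rfl, m, rfl⟩ | ⟨m1, m2, m3, m4⟩
    · obtain rfl | rfl | rfl : a = 2 ∨ a = 3 ∨ a = 4 := by omega
      all_goals simp [r, ch, out]
    · simp [r, ch, out]
    · cases e : sel a <;> simp [r, ch, out, e]
      omega
    · interval_cases t
      · cases e : sel a <;> simp [r, ch, out, e]
      · cases e : sel a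
        · by_cases e2 : b + 1 < 3 * φ.length <;> simp [r, ch, out, e, e2] <;> omega
        · simp [r, ch, out, e]
      · cases e : sel a <;> cases e1 : sel b <;> cases e2 : conf φ a b <;>
          by_cases e3 : a < b <;> simp [r, ch, out, e, e1, e2, e3] <;> omega
  · simp only [ne_eq, eq_sp, Fr] at k1 k2 k3 k4
    have hm := mem_vs.mp (code_mem _ v)
    rcases e : code _ v with ⟨t, a, b⟩
    rw [e] at k1 k2 k3 k4 hm
    simp only [Prod.mk.injEq] at k1 k2 k3 k4 hm
    rcases hm with ⟨rfl, m, rfl⟩ | ⟨rfl, m, rfl⟩ | ⟨rfl, m, rfl⟩ | ⟨m1, m2, m3, m4⟩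
    · obtain rfl : a = 3 := by omega
      exact ⟨sp φ 2, by simp [eq_sp, cs], by simp [eq_sp, cs], by simp [oo_eq, cs, ch, out, e]⟩
    · have := s1 a m
      exact cov (2, s a, 0) (by simp [mem_vs]; omega) (by simp) (by simp [ch, out, e, sel, this])
    · omega
    · obtain rfl | rfl : t = 3 ∨ t = 4 := by omega
      · cases e1 : sel a
        · rcases b with _ | b
          · exact cov (2, a, 0) (by simp [mem_vs]; omega) (by simp) (by simp [ch, out, e, e1])
          · exact cov (4, a, b) (by simp [mem_vs]; omega) (by simp) (by simp [ch, out, e, e1, m4])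
        · exact cov (4, a, b) (by simp [mem_vs]; omega) (by simp) (by simp [ch, out, e, e1])
      · cases e1 : sel a
        · exact cov (3, a, b) (by simp [mem_vs]; omega) (by simp) (by simp [ch, out, e, e1])
        · cases e2 : conf φ a b
          · exact cov (5, a, b) (by simp [mem_vs]; omega) (by simp) (by simp [ch, out, e, e2])
          · rcases lt_trichotomy a b with l | l | l
            · exact cov (5, a, b) (by simp [mem_vs]; omega) (by simp)
                (by simp [ch, out, e, e1, e2, l])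
            · simp [l] at e2
            · have e3 : sel b = false := by
                by_contra k
                simp only [sel, decide_eq_true_eq, Bool.not_eq_false] at e1 k
                have := s2 (a / 3) (by omega) (b / 3) (by omega)
                rw [e1, k, e2] at this
                simp at this
              rw [conf_symm] at e2
              exact cov (5, b, a) (by simp [mem_vs]; omega) (by simp)
                (by simp [ch, out, e, e3, e2, l])

theorem no (h : Split (dig (vs φ.length).length (red φ).2)) : Sat3 φ := by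
  obtain ⟨c, c1, c2⟩ := hub_no hub h
  obtain ⟨ch, hch⟩ : ∃ ch : C → Bool, ∀ u, ch (code _ u) = c u := by
    classical
    exact ⟨fun x => if h : x ∈ vs φ.length then c (ix (nd _) x h) else false,
      fun u => by simp [code_mem]⟩
  have cov : ∀ x ∈ vs φ.length, x.1 = 1 ∨ x.1 = 3 ∨ x.1 = 4 →
      ∃ y ∈ vs φ.length, out φ y (ch y) = x := by
    intro x hx k
    obtain ⟨v, rfl⟩ := code_surj hx
    obtain ⟨u, -, -, m⟩ := c1 v (fun m => by simp [eq_sp.mp m] at k)
      (fun m => by simp [eq_sp.mp m] at k) (fun m => by simp [eq_sp.mp m] at k)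
      (by unfold Fr; rintro (m | m | m) <;> simp [m] at k)
    exact ⟨_, code_mem _ u, by rw [hch]; exact oo_eq.mp m⟩
  have cyc : ∀ a < 3 * φ.length, ∀ b < 3 * φ.length, ch (4, a, b) = false → ch (3, a, b) = true := by
    intro a ha b hb k
    by_contra k2
    rw [Bool.not_eq_true] at k2
    obtain ⟨u, hu⟩ := code_surj (mem_vs.mpr (by simp [ha, hb]) : (3, a, b) ∈ vs φ.length)
    obtain ⟨v, hv⟩ := code_surj (mem_vs.mpr (by simp [ha, hb]) : (4, a, b) ∈ vs φ.length)
    refine c2 u v (by simp [eq_sp, hu]) (by simp [eq_sp, hu]) (by simp [eq_sp, hv])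
      (by simp [eq_sp, hv]) ?_ ?_
    · rw [oo_eq, ← hch, hu, hv, k2]; simp [out]
    · rw [oo_eq, ← hch, hu, hv, k]; simp [out]
  have hs : ∀ k < φ.length, ∃ u, u / 3 = k ∧ ch (2, u, 0) = true := by
    intro k hk
    obtain ⟨⟨t, a, b⟩, y1, y2⟩ := cov (1, k, 0) (by simp [mem_vs, hk]) (by simp)
    rw [mem_vs] at y1
    unfold out at y2
    cases e : ch (t, a, b) <;> rw [e] at y2 <;> split_ifs at y2 <;>
      simp only [cond_true, cond_false, Prod.mk.injEq] at * <;> try omega
    obtain rfl : t = 2 := by omega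
    obtain rfl : b = 0 := by omega
    exact ⟨a, by omega, e⟩
  have chain : ∀ a < 3 * φ.length, ch (2, a, 0) = true → ∀ b < 3 * φ.length, ch (4, a, b) = false := by
    intro a ha k b
    induction b with
    | zero =>
      intro hb
      obtain ⟨⟨t, x, y⟩, y1, y2⟩ := cov (3, a, 0) (by simp [mem_vs, ha, hb]) (by simp)
      rw [mem_vs] at y1
      unfold out at y2
      cases e : ch (t, x, y) <;> rw [e] at y2 <;> split_ifs at y2 <;>
        simp only [cond_true, cond_false, Prod.mk.injEq] at * <;> try omega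
      · obtain rfl : t = 2 := by omega
        obtain rfl : y = 0 := by omega
        simp_all
      · simp_all
    | succ b ih =>
      intro hb
      have := ih (by omega)
      obtain ⟨⟨t, x, y⟩, y1, y2⟩ := cov (3, a, b + 1) (by simp [mem_vs, ha, hb]) (by simp)
      unfold out at y2
      cases e : ch (t, x, y) <;> rw [e] at y2 <;> split_ifs at y2 <;>
        simp only [cond_true, cond_false, Prod.mk.injEq] at * <;> try omega
      all_goals grind
  have fin : ∀ a < 3 * φ.length, ∀ b < 3 * φ.length, ch (2, a, 0) = true → conf φ a b = true →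
      (a < b ∧ ch (5, a, b) = false) ∨ (b < a ∧ ch (5, b, a) = true) := by
    intro a ha b hb k1 k2
    have k3 := cyc a ha b hb (chain a ha k1 b hb)
    obtain ⟨⟨t, x, y⟩, y1, y2⟩ := cov (4, a, b) (by simp [mem_vs, ha, hb]) (by simp)
    rw [mem_vs] at y1
    unfold out at y2
    cases e : ch (t, x, y) <;> rw [e] at y2 <;> split_ifs at y2 <;>
      simp only [cond_true, cond_false, Prod.mk.injEq] at * <;> try omega
    · simp_all
    · obtain rfl : t = 5 := by omega
      simp_all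
    · simp_all
    · obtain rfl : t = 5 := by omega
      simp_all
  choose! s s1 s2 using hs
  refine (sat3_iff_sel φ).mpr ⟨s, s1, fun a ha b hb => ?_⟩
  by_contra k
  rw [Bool.not_eq_false] at k
  have q1 := s1 a ha
  have q2 := s1 b hb
  have p1 := fin (s a) (by omega) (s b) (by omega) (s2 a ha) k
  have p2 := fin (s b) (by omega) (s a) (by omega) (s2 b hb) (conf_symm φ _ _ ▸ k)
  grind

theorem hard : NPH (fun _ : ℕ × List (ℕ × ℕ) => True) fun p => Split (dig p.1 p.2) :=
  sat3_nph.reduce red pt_red fun _ _ => ⟨trivial, yes, no⟩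

end Pool.Agent.H24.Anti
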