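import Pool.Agent.H38.NP.Api

/-! Bipartite matching in polynomial time: `bm m A` decides whether the left vertices `0..m-1`
can be matched injectively along the pairs listed in `A`. -/

namespace Pool.Agent.H24.BM

open Pool.Agent.H38.NP

def Mat (m : ℕ) (A : List (ℕ × ℕ)) : Prop :=
  ∃ g : ℕ → ℕ, (∀ i < m, (i, g i) ∈ A) ∧ ∀ i < m, ∀ j < m, g i = g j → i = j

def upd (k : ℕ) (M : List ℕ) (x r : ℕ) : List ℕ :=
  (List.range k).map fun i => if i = x then r else M.getD i 0

def next (A : List (ℕ × ℕ)) (k : ℕ) (Q : List (ℕ × List ℕ)) : Option ((ℕ × List ℕ) × ℕ) :=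
  (Q.flatMap fun p => (List.range k).map fun y => (p, y)).find? fun z =>
    !(Q.any fun p => p.1 == z.2) && decide ((z.1.1, z.1.2.getD z.2 0) ∈ A)

def grow (A : List (ℕ × ℕ)) (k : ℕ) (Q : List (ℕ × List ℕ)) : List (ℕ × List ℕ) :=
  ((next A k Q).toList.map fun z => (z.2, upd k z.1.2 z.1.1 (z.1.2.getD z.2 0))) ++ Q

def close (A : List (ℕ × ℕ)) (k : ℕ) (M : List ℕ) : List (ℕ × List ℕ) :=
  (grow A (k + 1))^[k + 1] [(k, M)]

def aug (A : List (ℕ × ℕ)) (k : ℕ) (M : List ℕ) : Option (List ℕ) :=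
  (((close A k M).flatMap fun p => A.map fun e => (p, e)).find? fun z =>
    decide (z.2.1 = z.1.1) && (List.range k).all fun i => M.getD i 0 != z.2.2).map
      fun z => upd (k + 1) z.1.2 z.1.1 z.2.2

def run (A : List (ℕ × ℕ)) (l : List ℕ) : Option (List ℕ) :=
  l.foldl (fun o k => o.bind (aug A k)) (some [])

def bm (m : ℕ) (A : List (ℕ × ℕ)) : Bool := (run A (List.range m)).isSome

lemma upd_get {k M x r i} (h : i < k) :
    (upd k M x r).getD i 0 = if i = x then r else M.getD i 0 := by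
  simp [upd, List.getD_eq_getElem?_getD, h]

lemma next_some {A k Q z} (h : next A k Q = some z) :
    z.1 ∈ Q ∧ z.2 < k ∧ z.2 ∉ Q.map Prod.fst ∧ (z.1.1, z.1.2.getD z.2 0) ∈ A := by
  have h1 := List.mem_of_find?_eq_some h
  have h2 := List.find?_some h
  simp only [List.mem_flatMap, List.mem_map, List.mem_range] at h1
  obtain ⟨p, hp, y, hy, rfl⟩ := h1
  simp only [Bool.and_eq_true, Bool.not_eq_true', List.any_eq_false, beq_iff_eq,
    decide_eq_true_eq] at h2
  refine ⟨hp, hy, fun k => ?_, h2.2⟩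
  obtain ⟨q, hq, k⟩ := List.mem_map.mp k
  exact h2.1 q hq k

lemma next_none {A k Q} (h : next A k Q = none) {p} (hp : p ∈ Q) {y} (hy : y < k)
    (hA : (p.1, p.2.getD y 0) ∈ A) : y ∈ Q.map Prod.fst := by
  have h1 := List.find?_eq_none.mp h (p, y) (by
    simp only [List.mem_flatMap, List.mem_map, List.mem_range]
    exact ⟨p, hp, y, hy, rfl⟩)
  simp only [hA, decide_true, Bool.and_true, Bool.not_eq_true', Bool.not_eq_false,
    List.any_eq_true, beq_iff_eq] at h1
  obtain ⟨q, hq, k⟩ := h1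
  exact List.mem_map.mpr ⟨q, hq, k⟩

def IsM (A : List (ℕ × ℕ)) (k : ℕ) (M : List ℕ) : Prop :=
  (∀ i < k, (i, M.getD i 0) ∈ A) ∧ ∀ i < k, ∀ j < k, M.getD i 0 = M.getD j 0 → i = j

def Item (A : List (ℕ × ℕ)) (k : ℕ) (b : ℕ → ℕ) (K : List ℕ) (x : ℕ) (N : ℕ → ℕ) : Prop :=
  x ≤ k ∧ (∀ i ≤ k, i ≠ x → (i, N i) ∈ A) ∧ (∀ i ≤ k, ∀ j ≤ k, i ≠ x → j ≠ x → N i = N j → i = j) ∧
    (∀ i ≤ k, i ≠ x → ∃ j < k, N i = b j) ∧ (∀ j < k, ∃ i ≤ k, i ≠ x ∧ N i = b j) ∧
    ∀ i ≤ k, i ∉ K → N i = b i

def Inv (A : List (ℕ × ℕ)) (k : ℕ) (M : List ℕ) (Q : List (ℕ × List ℕ)) : Prop :=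
  k ∈ Q.map Prod.fst ∧ (Q.map Prod.fst).Nodup ∧
    ∀ p ∈ Q, Item A k (fun i => M.getD i 0) (Q.map Prod.fst) p.1 (fun i => p.2.getD i 0)

lemma inv_grow {A k M Q} (h : Inv A k M Q) : Inv A k M (grow A (k + 1) Q) := by
  unfold grow
  rcases e : next A (k + 1) Q with _ | z
  · simpa using h
  · obtain ⟨z1, z2, z3, z4⟩ := next_some e
    obtain ⟨h1, h2, h3⟩ := h
    simp only [Option.toList_some, List.map_cons, List.map_nil, List.cons_append, List.nil_append]
    refine ⟨by simp only [List.map_cons]; exact List.mem_cons_of_mem _ h1,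
      by simp only [List.map_cons]; exact List.nodup_cons.mpr ⟨z3, h2⟩, fun p hp => ?_⟩
    rcases List.mem_cons.mp hp with rfl | hp
    · obtain ⟨a1, a2, a3, a4, a5, a6⟩ := h3 _ z1
      have hx : z.1.1 ∈ Q.map Prod.fst := List.mem_map_of_mem z1
      have hne : z.2 ≠ z.1.1 := fun k => z3 (k ▸ hx)
      have hu : ∀ i ≤ k, (upd (k + 1) z.1.2 z.1.1 (z.1.2.getD z.2 0)).getD i 0 =
          if i = z.1.1 then z.1.2.getD z.2 0 else z.1.2.getD i 0 := fun i hi => upd_get (by omega)
      simp only [List.map_cons] at *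
      refine ⟨by omega, fun i hi k1 => ?_, fun i hi j hj k1 k2 k3 => ?_, fun i hi k1 => ?_,
        fun j hj => ?_, fun i hi k1 => ?_⟩
      · beta_reduce
        rw [hu i hi]
        split_ifs with k2
        · rw [k2]; exact z4
        · exact a2 i hi k2
      · beta_reduce at k3
        rw [hu i hi, hu j hj] at k3
        split_ifs at k3 with m1 m2 m2
        · rw [m1, m2]
        · exact absurd (a3 _ (by omega) j hj hne m2 k3).symm k2
        · exact absurd (a3 i hi _ (by omega) m1 hne k3) k1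
        · exact a3 i hi j hj m1 m2 k3
      · beta_reduce
        rw [hu i hi]
        split_ifs with k2
        · exact a4 _ (by omega) hne
        · exact a4 i hi k2
      · obtain ⟨i, i1, i2, i3⟩ := a5 j hj
        by_cases k1 : i = z.2
        · refine ⟨z.1.1, a1, hne.symm, ?_⟩
          beta_reduce
          rw [hu _ a1, if_pos rfl, ← k1]
          exact i3
        · refine ⟨i, i1, k1, ?_⟩
          beta_reduce
          rw [hu _ i1, if_neg i2]
          exact i3
      · beta_reduce
        rw [List.mem_cons, not_or] at k1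
        rw [hu i hi, if_neg (fun (m : i = z.1.1) => k1.2 (m ▸ hx))]
        exact a6 i hi k1.2
    · obtain ⟨a1, a2, a3, a4, a5, a6⟩ := h3 _ hp
      exact ⟨a1, a2, a3, a4, a5, fun i hi k1 => a6 i hi (fun m => k1 (by
        simp only [List.map_cons]; exact List.mem_cons_of_mem _ m))⟩

lemma inv_iter {A k M} (h : IsM A k M) (n : ℕ) : Inv A k M ((grow A (k + 1))^[n] [(k, M)]) := by
  induction n with
  | zero =>
    refine ⟨by simp, by simp, fun p hp => ?_⟩
    simp only [Function.iterate_zero, id, List.mem_singleton] at hp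
    subst hp
    exact ⟨le_rfl, fun i hi k1 => h.1 i (by omega),
      fun i hi j hj k1 k2 => h.2 i (by omega) j (by omega), fun i hi k1 => ⟨i, by omega, rfl⟩,
      fun j hj => ⟨j, by omega, by omega, rfl⟩, fun _ _ _ => rfl⟩
  | succ n ih => rw [Function.iterate_succ_apply']; exact inv_grow ih

lemma len_iter (A k) (Q : List (ℕ × List ℕ)) (n : ℕ) : next A k ((grow A k)^[n] Q) = none ∨
    ((grow A k)^[n] Q).length = Q.length + n := by
  induction n with
  | zero => simp
  | succ n ih =>
    rw [Function.iterate_succ_apply']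
    generalize (grow A k)^[n] Q = R at ih
    rcases e : next A k R with _ | z
    · left
      simp [grow, e]
    · right
      simp only [e, reduceCtorEq, false_or] at ih
      simp [grow, e, ih]
      omega

lemma close_none {A k M} (h : IsM A k M) : next A (k + 1) (close A k M) = none := by
  rcases len_iter A (k + 1) [(k, M)] (k + 1) with e | e
  · exact e
  · obtain ⟨-, h2, h3⟩ := inv_iter h (k + 1)
    generalize (grow A (k + 1))^[k + 1] [(k, M)] = R at *
    have k1 : (R.map Prod.fst).toFinset ⊆ Finset.range (k + 1) := by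
      intro x hx
      obtain ⟨p, hp, rfl⟩ := List.mem_map.mp (List.mem_toFinset.mp hx)
      have := (h3 p hp).1
      simp only [Finset.mem_range]
      omega
    have k2 := Finset.card_le_card k1
    rw [List.toFinset_card_of_nodup h2] at k2
    simp at k2 e
    omega

lemma aug_some {A k M M'} (h : IsM A k M) (e : aug A k M = some M') : IsM A (k + 1) M' := by
  obtain ⟨z, hz, rfl⟩ := Option.map_eq_some_iff.mp e
  have h1 := List.mem_of_find?_eq_some hz
  have h2 := List.find?_some hz
  simp only [List.mem_flatMap, List.mem_map] at h1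
  obtain ⟨p, hp, y, hy, rfl⟩ := h1
  simp only [Bool.and_eq_true, decide_eq_true_eq, List.all_eq_true, List.mem_range, bne_iff_ne,
    ne_eq] at h2
  obtain ⟨a1, a2, a3, a4, -, -⟩ := (inv_iter h (k + 1)).2.2 p hp
  refine ⟨fun i hi => ?_, fun i hi j hj k3 => ?_⟩
  · rw [upd_get hi]
    split_ifs with k2
    · rw [k2, ← h2.1]; exact hy
    · exact a2 i (by omega) k2
  · rw [upd_get hi, upd_get hj] at k3
    split_ifs at k3 with m1 m2 m2
    · rw [m1, m2]
    · obtain ⟨l, l1, l2⟩ := a4 j (by omega) m2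
      exact absurd (l2.symm.trans k3.symm) (h2.2 l l1)
    · obtain ⟨l, l1, l2⟩ := a4 i (by omega) m1
      exact absurd (l2.symm.trans k3) (h2.2 l l1)
    · exact a3 i (by omega) j (by omega) m1 m2 k3

lemma aug_none {A k M} (h : IsM A k M) (e : aug A k M = none) : ¬ Mat (k + 1) A := by
  rintro ⟨g, g1, g2⟩
  have e1 := List.find?_eq_none.mp (Option.map_eq_none_iff.mp e)
  have hc := close_none h
  obtain ⟨h1, -, h3⟩ : Inv A k M (close A k M) := inv_iter h (k + 1)
  generalize close A k M = R at *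
  have hle : ∀ x ∈ (R.map Prod.fst).toFinset, x < k + 1 := by
    intro x hx
    obtain ⟨p, hp, rfl⟩ := List.mem_map.mp (List.mem_toFinset.mp hx)
    exact Nat.lt_succ_of_le (h3 p hp).1
  have k1 : ((R.map Prod.fst).toFinset).card ≤
      (((R.map Prod.fst).toFinset.erase k).image fun i => M.getD i 0).card := by
    refine Finset.card_le_card_of_injOn g (fun x hx => ?_)
      (fun x hx y hy => g2 x (hle x hx) y (hle y hy))
    have hx2 := hle x hx
    obtain ⟨p, hp, rfl⟩ := List.mem_map.mp (List.mem_toFinset.mp hx)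
    have k2 := e1 (p, (p.1, g p.1)) (by
      simp only [List.mem_flatMap, List.mem_map]
      exact ⟨p, hp, _, g1 _ hx2, rfl⟩)
    simp only [decide_true, Bool.true_and, List.all_eq_true, List.mem_range, bne_iff_ne, ne_eq,
      not_forall, not_not] at k2
    obtain ⟨j, j1, j2⟩ := k2
    obtain ⟨a1, a2, a3, a4, a5, a6⟩ := h3 p hp
    obtain ⟨y, y1, y2, y3⟩ := a5 j j1
    have k3 : y ∈ R.map Prod.fst := next_none hc hp (by omega) (by
      rw [show p.2.getD y 0 = g p.1 from y3.trans j2]; exact g1 _ hx2)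
    refine Finset.mem_coe.mpr (Finset.mem_image.mpr ⟨j, Finset.mem_erase.mpr ⟨by omega, ?_⟩, j2⟩)
    rw [List.mem_toFinset]
    by_contra k4
    have k5 : j ≠ p.1 := fun m => k4 (m ▸ List.mem_map_of_mem hp)
    have := a3 j (by omega) y y1 k5 y2 ((a6 j (by omega) k4).trans y3.symm)
    exact k4 (this ▸ k3)
  have k2 := k1.trans Finset.card_image_le
  have k3 := List.mem_toFinset.mpr h1
  rw [Finset.card_erase_of_mem k3] at k2
  have := Finset.card_pos.mpr ⟨k, k3⟩
  omega

lemma run_spec (A : List (ℕ × ℕ)) (m : ℕ) :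
    (∃ M, run A (List.range m) = some M ∧ IsM A m M) ∨ (run A (List.range m) = none ∧ ¬ Mat m A) := by
  induction m with
  | zero => exact Or.inl ⟨[], rfl, by simp [IsM]⟩
  | succ m ih =>
    have e : run A (List.range (m + 1)) = (run A (List.range m)).bind (aug A m) := by
      simp [run, List.range_succ]
    rw [e]
    rcases ih with ⟨M, h1, h2⟩ | ⟨h1, h2⟩
    · rw [h1, Option.bind_some]
      rcases k : aug A m M with _ | M'
      · exact Or.inr ⟨rfl, aug_none h2 k⟩
      · exact Or.inl ⟨M', rfl, aug_some h2 k⟩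
    · rw [h1]
      refine Or.inr ⟨rfl, fun ⟨g, g1, g2⟩ => h2 ⟨g, fun i hi => g1 i (by omega),
        fun i hi j hj => g2 i (by omega) j (by omega)⟩⟩

theorem bm_iff (m : ℕ) (A : List (ℕ × ℕ)) : bm m A = true ↔ Mat m A := by
  unfold bm
  rcases run_spec A m with ⟨M, h1, h2⟩ | ⟨h1, h2⟩
  · simp only [h1, Option.isSome_some, true_iff]
    exact ⟨_, h2.1, h2.2⟩
  · simp [h1, h2]

/-! Sizes. -/

lemma getD_le {M : List ℕ} {B : ℕ} (h : ∀ x ∈ M, x ≤ B) (i : ℕ) : M.getD i 0 ≤ B := by
  rw [List.getD_eq_getElem?_getD]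
  rcases e : M[i]? with _ | x
  · simp
  · exact h x (List.mem_of_getElem? e)

lemma upd_le {k M x r B} (h : ∀ x ∈ M, x ≤ B) (hr : r ≤ B) : ∀ y ∈ upd k M x r, y ≤ B := by
  intro y hy
  obtain ⟨i, -, rfl⟩ := List.mem_map.mp hy
  split_ifs
  · exact hr
  · exact getD_le h i

lemma iter_bd (A k) {x C B} {M : List ℕ} (hx : x ≤ C) (hk : k ≤ C) (hl : M.length ≤ C)
    (h : ∀ x ∈ M, x ≤ B) (n : ℕ) : ((grow A k)^[n] [(x, M)]).length ≤ n + 1 ∧
      ∀ p ∈ (grow A k)^[n] [(x, M)], p.1 ≤ C ∧ p.2.length ≤ C ∧ ∀ y ∈ p.2, y ≤ B := by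
  induction n with
  | zero => simpa using ⟨hx, hl, h⟩
  | succ n ih =>
    rw [Function.iterate_succ_apply']
    generalize (grow A k)^[n] [(x, M)] = R at ih
    unfold grow
    rcases e : next A k R with _ | z
    · exact ⟨by simpa using ih.1.trans (Nat.le_succ _), by simpa using ih.2⟩
    · obtain ⟨z1, z2, -, -⟩ := next_some e
      refine ⟨by simpa using ih.1, fun p hp => ?_⟩
      simp only [Option.toList_some, List.map_cons, List.map_nil, List.cons_append,
        List.nil_append, List.mem_cons] at hp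
      rcases hp with rfl | hp
      · exact ⟨by omega, by simpa [upd] using hk,
          upd_le (ih.2 _ z1).2.2 (getD_le (ih.2 _ z1).2.2 _)⟩
      · exact ih.2 p hp

lemma sz_nats {M : List ℕ} {C B : ℕ} (hl : M.length ≤ C) (h : ∀ x ∈ M, x ≤ B) :
    sz M ≤ C * (2 * B + 1) :=
  (sz_le_of_forall (B := B) (by simpa using h)).trans (Nat.mul_le_mul_right _ hl)

variable {α : Type} [Enc α]

@[fun_prop] theorem pt_upd {k x r : α → ℕ} {M : α → List ℕ} (hk : PT k) (hM : PT M) (hx : PT x)
    (hr : PT r) : PT fun a => upd (k a) (M a) (x a) (r a) := by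
  unfold upd; fun_prop

@[fun_prop] theorem pt_grow {A : α → List (ℕ × ℕ)} {k : α → ℕ} {Q : α → List (ℕ × List ℕ)}
    (hA : PT A) (hk : PT k) (hQ : PT Q) : PT fun a => grow (A a) (k a) (Q a) := by
  unfold grow next; fun_prop

@[fun_prop] theorem pt_close {A : α → List (ℕ × ℕ)} {k : α → ℕ} {M : α → List ℕ}
    (hA : PT A) (hk : PT k) (hM : PT M) : PT fun a => close (A a) (k a) (M a) := by
  have hC : PB fun a => k a + 1 + sz (M a) := (hk.nat_pb.add (PB.const 1)).add hM.pb
  have h1 : PB fun a => 2 * (k a + 1 + sz (M a)) + 1 := ((PB.const 2).mul hC).add (PB.const 1)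
  refine PT.iterate (step := fun a => grow (A a) (k a + 1)) (by fun_prop) (by fun_prop)
    (by fun_prop) ((hC.add (PB.const 1)).mul
      (((PB.const 2).mul (h1.add (hC.mul h1))).add (PB.const 1))) fun a i hi => ?_
  obtain ⟨b1, b2⟩ := iter_bd (A a) (k a + 1) (x := k a) (C := k a + 1 + sz (M a))
    (B := k a + 1 + sz (M a)) (M := M a) (by omega) (by omega)
    ((length_le_sz _).trans (by omega))
    (fun x hx => le_trans (by simpa using sz_le_of_mem hx) (Nat.le_add_left _ _)) i
  refine (sz_le_of_forall (fun p hp => ?_)).trans (Nat.mul_le_mul_right _ (by omega))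
  obtain ⟨c1, c2, c3⟩ := b2 p hp
  have := sz_nats c2 c3
  rw [sz_prod, sz_nat]
  omega

@[fun_prop] theorem pt_aug {A : α → List (ℕ × ℕ)} {k : α → ℕ} {M : α → List ℕ}
    (hA : PT A) (hk : PT k) (hM : PT M) : PT fun a => aug (A a) (k a) (M a) := by
  unfold aug; fun_prop

lemma aug_bd {A k M M' B} (hA : ∀ e ∈ A, e.2 ≤ B) (h : ∀ x ∈ M, x ≤ B) (e : aug A k M = some M') :
    M'.length = k + 1 ∧ ∀ x ∈ M', x ≤ B := by
  obtain ⟨z, hz, rfl⟩ := Option.map_eq_some_iff.mp e
  have h1 := List.mem_of_find?_eq_some hz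
  simp only [List.mem_flatMap, List.mem_map] at h1
  obtain ⟨p, hp, y, hy, rfl⟩ := h1
  exact ⟨by simp [upd], upd_le ((iter_bd A (k + 1) (x := k) (C := k + 1 + M.length) (by omega)
    (by omega) (by omega) h (k + 1)).2 p hp).2.2 (hA y hy)⟩

@[fun_prop] theorem pt_bm {m : α → ℕ} {A : α → List (ℕ × ℕ)} (hm : PT m) (hA : PT A) :
    PT fun a => bm (m a) (A a) := by
  have h1 : PB fun a => m a * (2 * sz (A a) + 1) :=
    hm.nat_pb.mul (((PB.const 2).mul hA.pb).add (PB.const 1))
  have := PT.foldl (f := fun a (o : Option (List ℕ)) (k : ℕ) => o.bind (aug (A a) k)) (by fun_prop)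
    (l := fun a => List.range (m a)) (by fun_prop) (init := fun _ => some []) (by fun_prop)
    (((PB.const 2).mul h1).add (PB.const 1)) fun a k => by
      have hl : ∀ x ∈ (List.range (m a)).take k, x < m a :=
        fun x hx => List.mem_range.mp (List.mem_of_mem_take hx)
      generalize (List.range (m a)).take k = L at hl
      have key : ∀ o : Option (List ℕ), (∀ M ∈ o, M.length ≤ m a ∧ ∀ x ∈ M, x ≤ sz (A a)) →
          ∀ M ∈ L.foldl (fun o k => o.bind (aug (A a) k)) o,
            M.length ≤ m a ∧ ∀ x ∈ M, x ≤ sz (A a) := by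
        induction L with
        | nil => exact fun o h => h
        | cons i L ih =>
          intro o h
          refine ih (fun x hx => hl x (List.mem_cons_of_mem _ hx)) _ (fun M' hM' => ?_)
          obtain ⟨M, m1, m2⟩ := Option.bind_eq_some_iff.mp hM'
          have := aug_bd (B := sz (A a)) (fun e he => by
            have := sz_le_of_mem he
            rw [sz_prod, sz_nat, sz_nat] at this
            omega) (h M m1).2 m2
          have := hl i List.mem_cons_self
          exact ⟨by omega, by tauto⟩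
      have := key (some []) (by simp)
      rcases e : L.foldl (fun o k => o.bind (aug (A a) k)) (some []) with _ | M
      · rw [e]; simp [sz]
      · obtain ⟨c1, c2⟩ := this M e
        have := sz_nats c1 c2
        have e2 : sz (some M) = sz [M] := rfl
        rw [e, e2, sz_cons, sz_nil]
        omega
  unfold bm run
  fun_prop

end Pool.Agent.H24.BM
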