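import Mathlib

namespace Pool.Agent.H24.BallDefs

/-- The vertices at graph distance at most `r` from `v`. -/
def cball {V : Type} (G : SimpleGraph V) (v : V) (r : ℕ) : Set V := {w | G.edist v w ≤ r}

theorem root_mem {V : Type} (G : SimpleGraph V) (v : V) (r : ℕ) : v ∈ cball G v r := by
  simp [cball]

/-- The rooted ball `B_H(v,r)` is isomorphic to the rooted ball `B_G(o,r)`: the induced
subgraphs are isomorphic by an isomorphism sending root to root. -/
def BallIso {W V : Type} (H : SimpleGraph W) (v : W) (G : SimpleGraph V) (o : V) (r : ℕ) : Prop :=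
  ∃ f : G.induce (cball G o r) ≃g H.induce (cball H v r),
    f ⟨o, root_mem G o r⟩ = ⟨v, root_mem H v r⟩

/-- The pair `(B_G(o,r), r)` is realizable: the ball is finite, and some finite connected graph
has all its `r`-balls isomorphic to it. -/
def Realizable {V : Type} (G : SimpleGraph V) (o : V) (r : ℕ) : Prop :=
  (cball G o r).Finite ∧
    ∃ (W : Type) (_ : Finite W) (H : SimpleGraph W), H.Connected ∧ ∀ v, BallIso H v G o r

/-- The degree of the root in the rooted graph `B_G(o,r)`. -/
noncomputable def rootDegree {V : Type} (G : SimpleGraph V) (o : V) (r : ℕ) : ℕ :=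
  ((G.induce (cball G o r)).neighborSet ⟨o, root_mem G o r⟩).ncard

/-- `D(B,r)` for `B = B_G(o,r)`: the least diameter of a connected graph all of whose `r`-balls
are isomorphic to `B`. -/
noncomputable def minDiam {V : Type} (G : SimpleGraph V) (o : V) (r : ℕ) : ℕ∞ :=
  ⨅ (W : Type) (H : SimpleGraph W) (_ : H.Connected ∧ ∀ v, BallIso H v G o r), H.ediam

end Pool.Agent.H24.BallDefs
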