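import Mathlib
import Pool.Agent.H24.BallDefs

namespace Pool.Agent.H24.BallA

open Pool.Agent.H24.BallDefs SimpleGraph

theorem edist_adj {V : Type} {G : SimpleGraph V} {o x y : V} {k : ℕ} (hx : G.edist o x ≤ k)
    (hxy : G.Adj x y) : G.edist o y ≤ (k + 1 : ℕ) := by
  have h1 : G.edist x y = 1 := edist_eq_one_iff_adj.2 hxy
  calc G.edist o y ≤ G.edist o x + G.edist x y := G.edist_triangle
    _ ≤ k + 1 := by rw [h1]; gcongr
    _ = (k + 1 : ℕ) := by push_cast; rfl

theorem mem_of_adj {V : Type} {G : SimpleGraph V} {o x y : V} {k r : ℕ} (hx : G.edist o x ≤ k)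
    (hk : k < r) (hxy : G.Adj x y) : y ∈ cball G o r := by
  have := edist_adj hx hxy
  exact this.trans (by exact_mod_cast hk)

/-- number of common neighbours -/
noncomputable def cn {V : Type} (G : SimpleGraph V) (x y : V) : ℕ := (G.commonNeighbors x y).ncard

theorem cn_transfer {V W : Type} {G : SimpleGraph V} {H : SimpleGraph W} {o : V} {v : W} {r : ℕ}
    (f : G.induce (cball G o r) ≃g H.induce (cball H v r)) (x y : cball G o r) {k : ℕ} (hk : k < r)
    (hx : G.edist o x ≤ k) (hfx : H.edist v (f x) ≤ k) :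
    cn H (f x) (f y) = cn G x y := by
  unfold cn
  have e1 : H.commonNeighbors (f x) (f y) =
      (fun z : cball G o r => (f z : W)) '' {z | (z : V) ∈ G.commonNeighbors x y} := by
    ext w
    constructor
    · intro hw
      have hw' : w ∈ cball H v r := mem_of_adj hfx hk hw.1
      refine ⟨f.symm ⟨w, hw'⟩, ⟨?_, ?_⟩, by simp⟩
      · have : (G.induce (cball G o r)).Adj x (f.symm ⟨w, hw'⟩) := by
          rw [← f.map_rel_iff]
          simpa using hw.1
        exact this
      · have : (G.induce (cball G o r)).Adj y (f.symm ⟨w, hw'⟩) := by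
          rw [← f.map_rel_iff]
          simpa using hw.2
        exact this
    · rintro ⟨z, hz, rfl⟩
      have h1 : (H.induce (cball H v r)).Adj (f x) (f z) := f.map_rel_iff.2 hz.1
      have h2 : (H.induce (cball H v r)).Adj (f y) (f z) := f.map_rel_iff.2 hz.2
      exact ⟨h1, h2⟩
  have e2 : G.commonNeighbors x y =
      (fun z : cball G o r => (z : V)) '' {z | (z : V) ∈ G.commonNeighbors x y} := by
    ext w
    constructor
    · intro hw
      exact ⟨⟨w, mem_of_adj hx hk hw.1⟩, hw, rfl⟩
    · rintro ⟨z, hz, rfl⟩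
      exact hz
  have hi : Function.Injective fun z : cball G o r => (f z : W) :=
    Subtype.val_injective.comp f.injective
  rw [e1, Set.ncard_image_of_injective _ hi]
  conv_rhs => rw [e2, Set.ncard_image_of_injective _ Subtype.val_injective]

theorem ball_card {W : Type} (H : SimpleGraph W) (d : ℕ) (hfin : ∀ u, (H.neighborSet u).Finite)
    (hd : ∀ u, (H.neighborSet u).ncard ≤ d) (v : W) (k : ℕ) :
    ∃ s : Finset W, s.card ≤ (d + 1) ^ k ∧ ∀ w, H.edist v w ≤ k → w ∈ s := by
  classical
  induction k with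
  | zero =>
    refine ⟨{v}, by simp, fun w hw => ?_⟩
    have : H.edist v w = 0 := by simpa using hw
    simp [edist_eq_zero_iff.1 this]
  | succ k ih =>
    obtain ⟨s, hs, hw⟩ := ih
    refine ⟨s.biUnion fun u => insert u (hfin u).toFinset, ?_, ?_⟩
    · refine (Finset.card_biUnion_le_card_mul _ _ (d + 1) ?_).trans ?_
      · intro u _
        refine (Finset.card_insert_le _ _).trans ?_
        have := hd u
        rw [Set.ncard_eq_toFinset_card _ (hfin u)] at this
        omega
      · rw [pow_succ]; gcongr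
    · intro w hvw
      have hne : H.edist v w ≠ ⊤ := by
        intro h
        rw [h] at hvw
        exact absurd hvw (by simp)
      obtain ⟨p, hp⟩ := exists_walk_of_edist_ne_top hne
      rw [← hp] at hvw
      have hl : p.length ≤ k + 1 := by exact_mod_cast hvw
      cases hq : p.reverse with
      | nil =>
        refine Finset.mem_biUnion.2 ⟨v, hw v (by simp), by simp⟩
      | @cons _ u _ h q =>
        have hql : q.length ≤ k := by
          have := congrArg Walk.length hq
          simp at this
          omega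
        refine Finset.mem_biUnion.2 ⟨u, hw u ?_, ?_⟩
        · have := edist_le q.reverse
          rw [Walk.length_reverse] at this
          exact this.trans (by exact_mod_cast hql)
        · simp [h.symm]

structure Data (ι Γ : Type) [Group Γ] where
  gen : ι → Γ
  sq : ∀ t, gen t * gen t = 1
  ne : ∀ t, gen t ≠ 1
  inj : Function.Injective gen

variable {ι Γ : Type} [Group Γ]

def Data.graph (D : Data ι Γ) : SimpleGraph Γ where
  Adj x y := ∃ t, y = x * D.gen t
  symm := ⟨by
    rintro x y ⟨t, rfl⟩
    exact ⟨t, by rw [mul_assoc, D.sq, mul_one]⟩⟩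
  loopless := ⟨by
    rintro x ⟨t, h⟩
    exact D.ne t (left_eq_mul.1 h)⟩

noncomputable def Data.cnt (D : Data ι Γ) (t : ι) : ℕ := {p : ι | ∃ q, D.gen p = D.gen t * D.gen q}.ncard

theorem Data.cn_eq (D : Data ι Γ) (x : Γ) (t : ι) : cn D.graph x (x * D.gen t) = D.cnt t := by
  unfold cn Data.cnt
  have : D.graph.commonNeighbors x (x * D.gen t) =
      (fun p => x * D.gen p) '' {p : ι | ∃ q, D.gen p = D.gen t * D.gen q} := by
    ext w
    constructor
    · rintro ⟨⟨p, rfl⟩, ⟨q, hq⟩⟩
      refine ⟨p, ⟨q, ?_⟩, rfl⟩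
      rw [mul_assoc] at hq
      exact mul_left_cancel hq
    · rintro ⟨p, ⟨q, hq⟩, rfl⟩
      exact ⟨⟨p, rfl⟩, ⟨q, by simp only [hq, mul_assoc]⟩⟩
  rw [this, Set.ncard_image_of_injective]
  intro p q h
  exact D.inj (mul_left_cancel h)

def Data.shift (D : Data ι Γ) (g : Γ) : D.graph ≃g D.graph where
  toEquiv := Equiv.mulLeft g
  map_rel_iff' := by
    intro x y
    constructor
    · rintro ⟨t, h⟩
      refine ⟨t, ?_⟩
      simp only [Equiv.coe_mulLeft, mul_assoc] at h
      exact mul_left_cancel h
    · rintro ⟨t, rfl⟩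
      exact ⟨t, by simp [mul_assoc]⟩

theorem edist_iso_le {V W : Type} {G : SimpleGraph V} {H : SimpleGraph W} (f : G ≃g H) (x y : V) :
    H.edist (f x) (f y) ≤ G.edist x y := by
  by_cases h : G.edist x y = ⊤
  · simp [h]
  · obtain ⟨p, hp⟩ := exists_walk_of_edist_ne_top h
    rw [← hp]
    have := edist_le (p.map f.toHom)
    simpa using this

theorem edist_iso {V W : Type} {G : SimpleGraph V} {H : SimpleGraph W} (f : G ≃g H) (x y : V) :
    H.edist (f x) (f y) = G.edist x y := by
  apply le_antisymm (edist_iso_le f x y)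
  have := edist_iso_le f.symm (f x) (f y)
  simpa using this

theorem ballIso_of_iso {V W : Type} {G : SimpleGraph V} {H : SimpleGraph W} (f : G ≃g H) (o : V)
    (r : ℕ) : BallIso H (f o) G o r := by
  refine ⟨⟨f.toEquiv.subtypeEquiv fun x => ?_, ?_⟩, ?_⟩
  · show G.edist o x ≤ r ↔ H.edist (f o) (f x) ≤ r
    rw [edist_iso]
  · intro x y
    exact f.map_rel_iff
  · rfl

theorem Data.ballIso (D : Data ι Γ) (g : Γ) (r : ℕ) : BallIso D.graph g D.graph 1 r := by
  have := ballIso_of_iso (D.shift g) 1 r
  have e : D.shift g 1 = g := by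
    show g * 1 = g
    simp
  rwa [e] at this

theorem Data.connected (D : Data ι Γ) (h : Subgroup.closure (Set.range D.gen) = ⊤) :
    D.graph.Connected := by
  have key : ∀ g : Γ, g ∈ Subgroup.closure (Set.range D.gen) → D.graph.Reachable 1 g := by
    intro g hg
    induction hg using Subgroup.closure_induction_right with
    | one => exact Reachable.refl _
    | mul_right x _ y hy ih =>
      obtain ⟨t, rfl⟩ := hy
      exact ih.trans (Adj.reachable ⟨t, rfl⟩)
    | mul_inv_cancel x _ y hy ih =>
      obtain ⟨t, rfl⟩ := hy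
      refine ih.trans (Adj.reachable ⟨t, ?_⟩)
      rw [inv_eq_of_mul_eq_one_right (D.sq t)]
  have : Nonempty Γ := ⟨1⟩
  exact ⟨fun x y => (key x (h ▸ Subgroup.mem_top x)).symm.trans (key y (h ▸ Subgroup.mem_top y))⟩

theorem Data.rootDegree_eq [Fintype ι] (D : Data ι Γ) {r : ℕ} (hr : 0 < r) :
    rootDegree D.graph 1 r = Fintype.card ι := by
  unfold rootDegree
  have hm : ∀ t, D.gen t ∈ cball D.graph 1 r := fun t =>
    mem_of_adj (x := 1) (k := 0) (by simp) hr ⟨t, by simp⟩
  have : (D.graph.induce (cball D.graph 1 r)).neighborSet ⟨1, root_mem D.graph 1 r⟩ =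
      (fun t => (⟨D.gen t, hm t⟩ : cball D.graph 1 r)) '' Set.univ := by
    ext z
    constructor
    · rintro ⟨t, ht⟩
      refine ⟨t, trivial, Subtype.ext ?_⟩
      simpa using ht.symm
    · rintro ⟨t, _, rfl⟩
      exact ⟨t, by simp⟩
  rw [this, Set.ncard_image_of_injective, Set.ncard_univ, Nat.card_eq_fintype_card]
  intro p q h
  exact D.inj (congrArg Subtype.val h)

end Pool.Agent.H24.BallA
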