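import Mathlib

namespace Pool.Agent.H24.SymHom

open Equiv

variable {α : Type} [DecidableEq α] {G : Type} [Group G]

theorem exists_fun (t : α → α → G) (h0 : ∀ i, t i i = 1) (hs : ∀ i j, t i j = t j i)
    (hc : ∀ i j k l, t i j * t k l * t i j = t (swap i j k) (swap i j l)) (s : Finset α) :
    ∃ φ : Perm α → G, φ 1 = 1 ∧ ∀ i ∈ s, ∀ j ∈ s, ∀ σ : Perm α, (∀ x, x ∉ s → σ x = x) →
      φ (swap i j * σ) = t i j * φ σ := by
  have h2 : ∀ i j, t i j * t i j = 1 := by
    intro i j
    have := hc i j i i
    rw [h0, h0, mul_one] at this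
    exact this
  have hr : (Equiv.refl α : Perm α) = 1 := rfl
  induction s using Finset.induction_on with
  | empty => exact ⟨fun _ => 1, rfl, by simp⟩
  | insert a s ha ih =>
    obtain ⟨φ, φ1, hφ⟩ := ih
    refine ⟨fun σ => t a (σ a) * φ (swap a (σ a) * σ), by simp [h0, φ1, hr], ?_⟩
    have hsupp : ∀ σ : Perm α, (∀ x, x ∉ insert a s → σ x = x) →
        (∀ x, x ∉ s → (swap a (σ a) * σ) x = x) := by
      intro σ hσ x hx
      by_cases hxa : x = a
      · subst hxa; simp
      · have h1 : σ x = x := hσ x (by simp [hxa, hx])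
        have h3 : x ≠ σ a := by
          intro h
          apply hxa
          apply σ.injective
          rw [h1, h]
        simp [h1, swap_apply_of_ne_of_ne hxa h3]
    have hmem : ∀ σ : Perm α, (∀ x, x ∉ insert a s → σ x = x) → σ a ≠ a → σ a ∈ s := by
      intro σ hσ hne
      by_contra hn
      have := hσ (σ a) (by simp [hne, hn])
      exact hne (σ.injective this)
    have key : ∀ j ∈ s, ∀ σ : Perm α, (∀ x, x ∉ insert a s → σ x = x) →
        t a ((swap a j * σ) a) * φ (swap a ((swap a j * σ) a) * (swap a j * σ)) =
          t a j * (t a (σ a) * φ (swap a (σ a) * σ)) := by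
      intro j hj σ hσ
      have hja : j ≠ a := fun h => ha (h ▸ hj)
      by_cases hp : σ a = a
      · simp [hp, h0, hr]
      · by_cases hq : σ a = j
        · simp [hq, h0, ← mul_assoc, h2, hr]
        · have e1 : (swap a j * σ) a = σ a := by
            simp [swap_apply_of_ne_of_ne hp hq]
          rw [e1]
          have e2 : swap a (σ a) * (swap a j * σ) = swap (σ a) j * (swap a (σ a) * σ) := by
            rw [← mul_assoc, ← mul_assoc]
            congr 1
            have := swap_mul_swap_mul_swap (x := j) (y := a) (z := σ a) hja (Ne.symm hq)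
            rw [swap_comm j a] at this
            rw [← this, mul_assoc, mul_assoc, swap_mul_self, mul_one]
          rw [e2, hφ _ (hmem σ hσ hp) j hj _ (hsupp σ hσ), ← mul_assoc, ← mul_assoc]
          congr 1
          have := hc a (σ a) a j
          rw [swap_apply_left, swap_apply_of_ne_of_ne hja (Ne.symm hq)] at this
          rw [← this, ← mul_assoc, ← mul_assoc, h2, one_mul]
    intro i hi j hj σ hσ
    rcases Finset.mem_insert.1 hi with rfl | hi'
    · rcases Finset.mem_insert.1 hj with rfl | hj'
      · simp [h0, hr]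
      · exact key j hj' σ hσ
    · rcases Finset.mem_insert.1 hj with rfl | hj'
      · rw [swap_comm, hs i j]; exact key i hi' σ hσ
      · have hia : a ≠ i := fun h => ha (h ▸ hi')
        have hja : a ≠ j := fun h => ha (h ▸ hj')
        have e0 : swap i j a = a := swap_apply_of_ne_of_ne hia hja
        have e2 : swap a ((swap i j * σ) a) * (swap i j * σ) =
            swap i j * (swap a (σ a) * σ) := by
          rw [← mul_assoc, ← mul_assoc]
          congr 1
          have := swap_apply_apply (swap i j) a (σ a)
          rw [e0] at this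
          simp only [Perm.mul_apply]
          rw [this]
          simp [mul_assoc]
        show t a ((swap i j * σ) a) * φ (swap a ((swap i j * σ) a) * (swap i j * σ)) =
          t i j * (t a (σ a) * φ (swap a (σ a) * σ))
        rw [e2, hφ i hi' j hj' _ (hsupp σ hσ), ← mul_assoc, ← mul_assoc]
        congr 1
        have := hc i j a (σ a)
        rw [e0] at this
        simp only [Perm.mul_apply]
        rw [← this, mul_assoc, mul_assoc, h2, mul_one]

theorem exists_hom [Fintype α] (t : α → α → G) (h0 : ∀ i, t i i = 1) (hs : ∀ i j, t i j = t j i)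
    (hc : ∀ i j k l, t i j * t k l * t i j = t (swap i j k) (swap i j l)) :
    ∃ φ : Perm α →* G, ∀ i j, φ (swap i j) = t i j := by
  obtain ⟨φ, φ1, hφ⟩ := exists_fun t h0 hs hc Finset.univ
  have h : ∀ i j σ, φ (swap i j * σ) = t i j * φ σ := fun i j σ =>
    hφ i (Finset.mem_univ _) j (Finset.mem_univ _) σ (by simp)
  have hm : ∀ σ τ : Perm α, φ (σ * τ) = φ σ * φ τ := by
    intro σ τ
    induction σ using Perm.swap_induction_on with
    | one => simp [φ1]
    | swap_mul f x y _ ih => rw [mul_assoc, h, h, ih, mul_assoc]
  refine ⟨MonoidHom.mk' φ hm, fun i j => ?_⟩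
  have := h i j 1
  simpa [φ1] using this

theorem bochert [Fintype α] (K : Subgroup (Perm α))
    (h3 : ∀ a b c : α, a ≠ b → a ≠ c → b ≠ c → swap a c * swap a b ∉ K) :
    ∃ Δ : Finset α, 2 * Δ.card ≤ Fintype.card α ∧ ∀ g ∈ K, (∀ x ∈ Δ, g x = x) → g = 1 := by
  classical
  obtain ⟨Δ, hΔ, hmin⟩ := Finset.exists_min_image
    ((Finset.univ : Finset (Finset α)).filter fun Δ => ∀ g ∈ K, (∀ x ∈ Δ, g x = x) → g = 1)
    Finset.card ⟨Finset.univ, by
      simp only [Finset.mem_filter, Finset.mem_univ, true_and]
      intro g _ hg
      ext x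
      simpa using hg x trivial⟩
  simp only [Finset.mem_filter, Finset.mem_univ, true_and] at hΔ hmin
  refine ⟨Δ, ?_, hΔ⟩
  by_contra hlt
  have h1 : ¬ ∀ g ∈ K, (∀ x ∈ Δᶜ, g x = x) → g = 1 := by
    intro h
    have := hmin _ h
    rw [Finset.card_compl] at this
    omega
  push Not at h1
  obtain ⟨g, hg, hgfix, hg1⟩ := h1
  obtain ⟨a, hga⟩ : ∃ a, g a ≠ a := by
    by_contra h
    push Not at h
    exact hg1 (Equiv.ext h)
  have haΔ : a ∈ Δ := by
    by_contra h
    exact hga (hgfix a (Finset.mem_compl.2 h))
  have h2 : ¬ ∀ g ∈ K, (∀ x ∈ Δ.erase a, g x = x) → g = 1 := by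
    intro h
    have := hmin _ h
    rw [Finset.card_erase_of_mem haΔ] at this
    have := Finset.card_pos.2 ⟨a, haΔ⟩
    omega
  push Not at h2
  obtain ⟨h, hh, hhfix, hh1⟩ := h2
  have hha : h a ≠ a := by
    intro e
    apply hh1
    apply hΔ h hh
    intro x hx
    by_cases hxa : x = a
    · rw [hxa, e]
    · exact hhfix x (Finset.mem_erase.2 ⟨hxa, hx⟩)
  have dis : ∀ x, x ≠ a → g x = x ∨ h x = x := by
    intro x hx
    by_cases hxΔ : x ∈ Δ
    · exact Or.inr (hhfix x (Finset.mem_erase.2 ⟨hx, hxΔ⟩))
    · exact Or.inl (hgfix x (Finset.mem_compl.2 hxΔ))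
  have hb : h (g a) = g a := by
    rcases dis (g a) hga with e | e
    · exact absurd (g.injective e) hga
    · exact e
  have hcc : g (h a) = h a := by
    rcases dis (h a) hha with e | e
    · exact e
    · exact absurd (h.injective e) hha
  have hbc : g a ≠ h a := by
    intro e
    rw [← e] at hcc
    exact hga (g.injective hcc)
  apply h3 a (g a) (h a) (Ne.symm hga) (Ne.symm hha) hbc
  have : swap a (h a) * swap a (g a) = g * h * g⁻¹ * h⁻¹ := by
    rw [eq_mul_inv_iff_mul_eq, eq_mul_inv_iff_mul_eq]
    ext x
    simp only [Perm.mul_apply]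
    by_cases hxa : x = a
    · subst hxa
      rw [hb, hcc, swap_apply_right, swap_apply_left]
    · rcases dis x hxa with e | e
      · rw [e]
        by_cases e1 : h x = a
        · rw [e1, swap_apply_left, swap_apply_of_ne_of_ne hga hbc]
        · have e2 : h x ≠ h a := fun h' => hxa (h.injective h')
          have e3 : h x ≠ g a := by
            intro h'
            have : x = g a := h.injective (by rw [h', hb])
            rw [this] at e
            exact hga (g.injective e)
          rw [swap_apply_of_ne_of_ne e1 e3, swap_apply_of_ne_of_ne e1 e2]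
          rcases dis (h x) e1 with e4 | e4
          · exact e4.symm
          · have : h x = x := h.injective e4
            rw [this, e]
      · rw [e]
        by_cases e1 : g x = a
        · rw [e1, swap_apply_of_ne_of_ne hha (Ne.symm hbc), swap_apply_right]
        · have e5 : h (g x) = g x := by
            rcases dis (g x) e1 with e4 | e4
            · have : g x = x := g.injective e4
              rw [this, e]
            · exact e4
          have e2 : g x ≠ g a := fun h' => hxa (g.injective h')
          have e3 : g x ≠ h a := by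
            intro h'
            have : x = h a := g.injective (by rw [h', hcc])
            rw [this] at e
            exact hha (h.injective e)
          rw [e5, swap_apply_of_ne_of_ne e1 e2, swap_apply_of_ne_of_ne e1 e3]
  rw [this]
  exact K.mul_mem (K.mul_mem (K.mul_mem hg hh) (K.inv_mem hg)) (K.inv_mem hh)

end Pool.Agent.H24.SymHom
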