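import Mathlib
import Pool.Agent.H24.BallA
import Pool.Agent.H24.SymHom

namespace Pool.Agent.H24.BallB

open Pool.Agent.H24.BallDefs Pool.Agent.H24.BallA SimpleGraph Equiv

variable {ι Γ κ W : Type} [Group Γ]

theorem nbr (D : Data ι Γ) {H : SimpleGraph W} {r : ℕ} (hr : 0 < r) {u : W}
    (f : D.graph.induce (cball D.graph 1 r) ≃g H.induce (cball H u r))
    (hf : f ⟨1, root_mem _ _ _⟩ = ⟨u, root_mem _ _ _⟩) {w : W} (hw : H.Adj u w) :
    ∃ (t : ι) (h : D.gen t ∈ cball D.graph 1 r), (f ⟨D.gen t, h⟩ : W) = w ∧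
      cn H u w = D.cnt t := by
  have hw' : w ∈ cball H u r := mem_of_adj (x := u) (k := 0) (by simp) hr hw
  have h1 : (D.graph.induce (cball D.graph 1 r)).Adj ⟨1, root_mem _ _ _⟩ (f.symm ⟨w, hw'⟩) := by
    rw [← f.map_rel_iff, hf]
    simpa using hw
  obtain ⟨t, ht⟩ := h1
  have ht' : ((f.symm ⟨w, hw'⟩ : cball D.graph 1 r) : Γ) = D.gen t := by simpa using ht
  have hm : D.gen t ∈ cball D.graph 1 r := ht' ▸ (f.symm ⟨w, hw'⟩).2
  have e : f.symm ⟨w, hw'⟩ = ⟨D.gen t, hm⟩ := Subtype.ext ht'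
  have e2 : (f ⟨D.gen t, hm⟩ : W) = w := by rw [← e]; simp
  refine ⟨t, hm, e2, ?_⟩
  have := cn_transfer f ⟨1, root_mem _ _ _⟩ ⟨D.gen t, hm⟩ (k := 0) hr (by simp) (by simp [hf])
  rw [hf, e2] at this
  rw [← D.cn_eq 1 t, one_mul]
  exact this

open Classical in
noncomputable def step (D : Data ι Γ) (H : SimpleGraph W) (t : ι) (u : W) : W :=
  if h : ∃ w, H.Adj u w ∧ cn H u w = D.cnt t then h.choose else u

theorem step_eq (D : Data ι Γ) {H : SimpleGraph W} {r : ℕ} (hr : 0 < r)
    (hH : ∀ v, BallIso H v D.graph 1 r) {s : ι} (hs : ∀ t, D.cnt t = D.cnt s → t = s)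
    {u w : W} (hw : H.Adj u w) (hc : cn H u w = D.cnt s) : step D H s u = w := by
  have h : ∃ w, H.Adj u w ∧ cn H u w = D.cnt s := ⟨w, hw, hc⟩
  unfold step
  rw [dif_pos h]
  obtain ⟨f, hf⟩ := hH u
  obtain ⟨t, ht, e1, e2⟩ := nbr D hr f hf hw
  obtain ⟨t', ht', e1', e2'⟩ := nbr D hr f hf h.choose_spec.1
  have a1 : t = s := hs t (by rw [← e2, hc])
  have a2 : t' = s := hs t' (by rw [← e2', h.choose_spec.2])
  subst a1
  subst a2
  rw [← e1, ← e1']

noncomputable def act (D : Data ι Γ) (H : SimpleGraph W) (key : κ → ι) (w : List κ) (u : W) : W :=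
  w.foldl (fun u s => step D H (key s) u) u

def ev (D : Data ι Γ) (key : κ → ι) (w : List κ) : Γ := (w.map fun s => D.gen (key s)).prod

theorem act_append (D : Data ι Γ) (H : SimpleGraph W) (key : κ → ι) (w w' : List κ) (u : W) :
    act D H key (w ++ w') u = act D H key w' (act D H key w u) := by
  simp [act]

theorem ev_append (D : Data ι Γ) (key : κ → ι) (w w' : List κ) :
    ev D key (w ++ w') = ev D key w * ev D key w' := by
  simp [ev]

theorem word (D : Data ι Γ) {H : SimpleGraph W} {r : ℕ} (hr : 0 < r)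
    (hH : ∀ v, BallIso H v D.graph 1 r) {key : κ → ι}
    (hs : ∀ s t, D.cnt t = D.cnt (key s) → t = key s) {v : W}
    (f : D.graph.induce (cball D.graph 1 r) ≃g H.induce (cball H v r))
    (hf : f ⟨1, root_mem _ _ _⟩ = ⟨v, root_mem _ _ _⟩) (w : List κ) (hw : w.length ≤ r) :
    ∃ h : ev D key w ∈ cball D.graph 1 r, D.graph.edist 1 (ev D key w) ≤ w.length ∧
      H.edist v (f ⟨ev D key w, h⟩) ≤ w.length ∧ (f ⟨ev D key w, h⟩ : W) = act D H key w v := by
  induction w using List.reverseRecOn with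
  | nil =>
    refine ⟨root_mem _ _ _, by simp [ev], ?_, ?_⟩
    · show H.edist v (f ⟨1, root_mem _ _ _⟩) ≤ _
      simp [hf]
    · show (f ⟨1, root_mem _ _ _⟩ : W) = v
      simp [hf]
  | append_singleton w s ih =>
    have hl : w.length < r := by simpa using hw
    obtain ⟨h, h1, h2, h3⟩ := ih hl.le
    have e : ev D key (w ++ [s]) = ev D key w * D.gen (key s) := by simp [ev]
    have hadj : D.graph.Adj (ev D key w) (ev D key (w ++ [s])) := ⟨key s, e⟩
    have hm : ev D key (w ++ [s]) ∈ cball D.graph 1 r := mem_of_adj h1 hl hadj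
    have hadj' : H.Adj (f ⟨ev D key w, h⟩) (f ⟨ev D key (w ++ [s]), hm⟩) := by
      have : (H.induce (cball H v r)).Adj (f ⟨ev D key w, h⟩) (f ⟨ev D key (w ++ [s]), hm⟩) :=
        f.map_rel_iff.2 hadj
      exact this
    refine ⟨hm, ?_, ?_, ?_⟩
    · simpa using edist_adj h1 hadj
    · simpa using edist_adj h2 hadj'
    · rw [act_append, ← h3]
      show _ = step D H (key s) _
      symm
      apply step_eq D hr hH (hs s) hadj'
      rw [cn_transfer f _ _ hl h1 h2]
      show cn D.graph (ev D key w) (ev D key (w ++ [s])) = _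
      rw [e, D.cn_eq]

theorem act_eq_iff (D : Data ι Γ) {H : SimpleGraph W} {r : ℕ} (hr : 0 < r)
    (hH : ∀ v, BallIso H v D.graph 1 r) {key : κ → ι}
    (hs : ∀ s t, D.cnt t = D.cnt (key s) → t = key s) (v : W) (w w' : List κ)
    (hw : w.length ≤ r) (hw' : w'.length ≤ r) :
    act D H key w v = act D H key w' v ↔ ev D key w = ev D key w' := by
  obtain ⟨f, hf⟩ := hH v
  obtain ⟨h, -, -, e⟩ := word D hr hH hs f hf w hw
  obtain ⟨h', -, -, e'⟩ := word D hr hH hs f hf w' hw'
  rw [← e, ← e']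
  constructor
  · intro h1
    have := f.injective (Subtype.ext h1)
    exact congrArg Subtype.val this
  · intro h1
    have : (⟨ev D key w, h⟩ : cball D.graph 1 r) = ⟨ev D key w', h'⟩ := Subtype.ext h1
    rw [this]

theorem nbr_bound [Fintype ι] (D : Data ι Γ) {H : SimpleGraph W} {r : ℕ} (hr : 0 < r)
    (hH : ∀ v, BallIso H v D.graph 1 r) (u : W) :
    (H.neighborSet u).Finite ∧ (H.neighborSet u).ncard ≤ Fintype.card ι := by
  obtain ⟨f, hf⟩ := hH u
  have hm : ∀ t, D.gen t ∈ cball D.graph 1 r := fun t =>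
    mem_of_adj (x := 1) (k := 0) (by simp) hr ⟨t, by simp⟩
  have hsub : H.neighborSet u ⊆ (fun t => (f ⟨D.gen t, hm t⟩ : W)) '' Set.univ := by
    intro w hw
    obtain ⟨t, ht, e, -⟩ := nbr D hr f hf hw
    exact ⟨t, trivial, e⟩
  have hfin : ((fun t => (f ⟨D.gen t, hm t⟩ : W)) '' Set.univ).Finite :=
    Set.finite_univ.image _
  refine ⟨hfin.subset hsub, (Set.ncard_le_ncard hsub hfin).trans ?_⟩
  refine (Set.ncard_image_le Set.finite_univ).trans ?_
  rw [Set.ncard_univ, Nat.card_eq_fintype_card]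

theorem main [Fintype ι] (D : Data ι Γ) {H : SimpleGraph W} {r : ℕ} (hr : 0 < r)
    (hH : ∀ v, BallIso H v D.graph 1 r) {key : κ → ι}
    (hs : ∀ s t, D.cnt t = D.cnt (key s) → t = key s)
    {α : Type} [Fintype α] [DecidableEq α] (τ : α → α → Γ) (K : ℕ) (hK : 3 * K ≤ r)
    (hwd : ∀ i j, ∃ w : List κ, w.length ≤ K ∧ ev D key w = τ i j)
    (h0 : ∀ i, τ i i = 1) (hsym : ∀ i j, τ i j = τ j i)
    (hc : ∀ i j k l, τ i j * τ k l * τ i j = τ (swap i j k) (swap i j l))
    (hne : ∀ a b c, a ≠ b → a ≠ c → b ≠ c → τ a b * τ a c ≠ 1)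
    (v : W) (k : ℕ) (hk : H.ediam ≤ k) :
    ∃ m, Fintype.card α ≤ 2 * m ∧ m.factorial ≤ (Fintype.card ι + 1) ^ k := by
  choose wd hlen hev using hwd
  have h2 : ∀ i j, τ i j * τ i j = 1 := by
    intro i j
    have := hc i j i i
    rw [h0, h0, mul_one] at this
    exact this
  have hinv : ∀ i j, Function.Involutive (act D H key (wd i j)) := by
    intro i j u
    rw [← act_append]
    refine (act_eq_iff D hr hH hs u _ [] ?_ (by simp)).2 ?_
    · have := hlen i j
      rw [List.length_append]; omega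
    · rw [ev_append, hev, h2]; rfl
  let T : α → α → Perm W := fun i j => (hinv i j).toPerm
  have hT : ∀ i j u, T i j u = act D H key (wd i j) u := fun i j u => rfl
  have hl : ∀ i j, (wd i j).length ≤ r := fun i j => by have := hlen i j; omega
  obtain ⟨φ, hφ⟩ := SymHom.exists_hom T (by
      intro i
      ext u
      rw [hT]
      exact (act_eq_iff D hr hH hs u _ [] (hl i i) (by simp)).2 (by rw [hev, h0]; rfl))
    (by
      intro i j
      ext u
      rw [hT, hT]
      exact (act_eq_iff D hr hH hs u _ _ (hl i j) (hl j i)).2 (by rw [hev, hev, hsym]))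
    (by
      intro i j k l
      ext u
      simp only [Perm.mul_apply, hT]
      rw [← act_append, ← act_append]
      refine (act_eq_iff D hr hH hs u _ _ ?_ (hl _ _)).2 ?_
      · have := hlen i j
        have := hlen k l
        simp only [List.length_append]; omega
      · rw [ev_append, ev_append, hev, hev, hev, ← hc, mul_assoc])
  obtain ⟨Δ, hΔ, hbase⟩ := SymHom.bochert ((MulAction.stabilizer (Perm W) v).comap φ) (by
    intro a b c hab hac hbc hmem
    have h1 : φ (swap a c * swap a b) v = v := hmem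
    rw [map_mul, hφ, hφ, Perm.mul_apply, hT, hT, ← act_append] at h1
    have := (act_eq_iff D hr hH hs v _ [] ?_ (by simp)).1 h1
    · rw [ev_append, hev, hev] at this
      exact hne a b c hab hac hbc this
    · have := hlen a b
      have := hlen a c
      rw [List.length_append]; omega)
  obtain ⟨s, hs1, hs2⟩ := ball_card H (Fintype.card ι) (fun u => (nbr_bound D hr hH u).1)
    (fun u => (nbr_bound D hr hH u).2) v k
  refine ⟨Fintype.card {x // x ∉ Δ}, ?_, ?_⟩
  · have : Fintype.card {x // x ∉ Δ} = Fintype.card α - Δ.card := by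
      rw [Fintype.card_subtype_compl, Fintype.card_coe]
    omega
  · rw [← Fintype.card_perm]
    refine le_trans ?_ hs1
    rw [← Finset.card_univ]
    apply Finset.card_le_card_of_injOn (fun σ : Perm {x // x ∉ Δ} => φ (Perm.ofSubtype σ) v)
    · intro σ _
      exact hs2 _ (edist_le_ediam.trans hk)
    · intro σ _ σ' _ h
      have h' : φ (Perm.ofSubtype σ) v = φ (Perm.ofSubtype σ') v := h
      have hm : Perm.ofSubtype (σ'⁻¹ * σ) ∈ (MulAction.stabilizer (Perm W) v).comap φ := by
        show φ (Perm.ofSubtype (σ'⁻¹ * σ)) v = v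
        rw [map_mul, map_mul, Perm.mul_apply, h', map_inv, map_inv]
        simp
      have := hbase _ hm (fun x hx => Perm.ofSubtype_apply_of_not_mem _ (by simpa using hx))
      have h3 : σ'⁻¹ * σ = 1 := Perm.ofSubtype_injective (by rw [this, map_one])
      exact (inv_mul_eq_one.1 h3).symm

end Pool.Agent.H24.BallB
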