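import Mathlib
import Pool.Agent.H24.BallB

namespace Pool.Agent.H24.BallC

open Pool.Agent.H24.BallDefs Pool.Agent.H24.BallA Pool.Agent.H24.BallB SimpleGraph Equiv

section lift
variable {ι Γ κ : Type} [Group Γ]

def lift (D : Data ι Γ) : Data ι (Subgroup.closure (Set.range D.gen)) where
  gen t := ⟨D.gen t, Subgroup.subset_closure ⟨t, rfl⟩⟩
  sq t := Subtype.ext (D.sq t)
  ne t h := D.ne t (congrArg Subtype.val h)
  inj _ _ h := D.inj (congrArg Subtype.val h)

theorem lift_cnt (D : Data ι Γ) (t : ι) : (lift D).cnt t = D.cnt t := by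
  unfold Data.cnt
  congr 1
  ext p
  simp only [Set.mem_ofPred_eq]
  constructor
  · rintro ⟨q, h⟩
    exact ⟨q, congrArg Subtype.val h⟩
  · rintro ⟨q, h⟩
    exact ⟨q, Subtype.ext h⟩

theorem lift_ev (D : Data ι Γ) (key : κ → ι) (w : List κ) :
    ((ev (lift D) key w : Subgroup.closure (Set.range D.gen)) : Γ) = ev D key w := by
  induction w with
  | nil => rfl
  | cons s w ih =>
    have e1 : ev (lift D) key (s :: w) = (lift D).gen (key s) * ev (lift D) key w := by simp [ev]
    have e2 : ev D key (s :: w) = D.gen (key s) * ev D key w := by simp [ev]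
    rw [e1, e2, Subgroup.coe_mul, ih]
    rfl

theorem lift_top (D : Data ι Γ) : Subgroup.closure (Set.range (lift D).gen) = ⊤ := by
  have : Set.range (lift D).gen =
      ((↑) : Subgroup.closure (Set.range D.gen) → Γ) ⁻¹' Set.range D.gen := by
    ext x
    constructor
    · rintro ⟨t, rfl⟩
      exact ⟨t, rfl⟩
    · rintro ⟨t, h⟩
      exact ⟨t, Subtype.ext h⟩
  rw [this]
  exact Subgroup.closure_closure_coe_preimage

theorem main_lift {W : Type} [Fintype ι] (D : Data ι Γ) {H : SimpleGraph W} {r : ℕ} (hr : 0 < r)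
    (hH : ∀ v, BallIso H v (lift D).graph 1 r) {key : κ → ι}
    (hs : ∀ s t, D.cnt t = D.cnt (key s) → t = key s)
    {α : Type} [Fintype α] [DecidableEq α] (τ : α → α → Γ) (K : ℕ) (hK : 3 * K ≤ r)
    (hwd : ∀ i j, ∃ w : List κ, w.length ≤ K ∧ ev D key w = τ i j)
    (h0 : ∀ i, τ i i = 1) (hsym : ∀ i j, τ i j = τ j i)
    (hc : ∀ i j k l, τ i j * τ k l * τ i j = τ (swap i j k) (swap i j l))
    (hne : ∀ a b c, a ≠ b → a ≠ c → b ≠ c → τ a b * τ a c ≠ 1)
    (v : W) (k : ℕ) (hk : H.ediam ≤ k) :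
    ∃ m, Fintype.card α ≤ 2 * m ∧ m.factorial ≤ (Fintype.card ι + 1) ^ k := by
  choose wd hlen hev using hwd
  have e : ∀ i j, ((ev (lift D) key (wd i j) : Subgroup.closure (Set.range D.gen)) : Γ) = τ i j :=
    fun i j => by rw [lift_ev, hev]
  refine main (lift D) hr hH (key := key) (fun s t h => hs s t (by rwa [lift_cnt, lift_cnt] at h))
    (fun i j => ev (lift D) key (wd i j)) K hK (fun i j => ⟨wd i j, hlen i j, rfl⟩)
    (fun i => Subtype.ext (by rw [e, h0]; rfl)) (fun i j => Subtype.ext (by rw [e, e, hsym]))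
    (fun i j k l => Subtype.ext (by simp only [Subgroup.coe_mul, e, hc]))
    (fun a b c hab hac hbc h => hne a b c hab hac hbc ?_) v k hk
  have := congrArg Subtype.val h
  simpa only [Subgroup.coe_mul, e, Subgroup.coe_one] using this

end lift

def cls : Fin 13 → Fin 4 := ![0, 0, 0, 0, 0, 1, 2, 2, 2, 3, 3, 3, 3]

def vec : Fin 13 → Fin 8 → ZMod 2 :=
  ![![1, 0, 0, 0, 0, 0, 0, 0], ![0, 1, 0, 0, 0, 0, 0, 0], ![0, 0, 1, 0, 0, 0, 0, 0],
    ![0, 0, 0, 1, 0, 0, 0, 0], ![0, 0, 0, 0, 1, 0, 0, 0], ![0, 0, 0, 0, 0, 1, 0, 0],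
    ![0, 0, 0, 0, 0, 0, 1, 0], ![1, 0, 0, 0, 0, 0, 1, 0], ![0, 1, 0, 0, 0, 0, 1, 0],
    ![0, 0, 0, 0, 0, 0, 0, 1], ![0, 0, 1, 0, 0, 0, 0, 1], ![0, 0, 0, 1, 0, 0, 0, 1],
    ![0, 0, 0, 0, 1, 0, 0, 1]]

def key : Fin 3 → Fin 13 := ![5, 6, 9]

theorem vec_tri : ∀ p t q : Fin 13, vec p = vec t + vec q →
    (cls t = 0 ∧ cls p = cls q) ∨ (cls q = 0 ∧ cls p = cls t) ∨ (cls p = 0 ∧ cls t = cls q) := by
  decide +kernel

theorem vec_ne : ∀ t : Fin 13, vec t ≠ 0 := by decide +kernel

theorem vec_inj : ∀ s t : Fin 13, vec s = vec t → s = t := by decide +kernel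

theorem vec_sq : ∀ t : Fin 13, vec t + vec t = 0 := by decide +kernel

theorem vec_cnt : ∀ (s : Fin 3) (t : Fin 13),
    (Finset.univ.filter fun p => ∃ q, vec p = vec t + vec q).card =
      (Finset.univ.filter fun p => ∃ q, vec p = vec (key s) + vec q).card → t = key s := by
  decide +kernel

def base (n : ℕ) : Fin 4 → Perm (ZMod n) := ![1, swap 0 1, Equiv.neg _, Equiv.subLeft 1]

theorem base_sq (n : ℕ) (c : Fin 4) : base n c * base n c = 1 := by
  fin_cases c
  · simp [base]
  · simp [base]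
  · ext x; simp [base]
  · ext x; simp [base]

abbrev Grp (n : ℕ) := Perm (ZMod n) × Multiplicative (Fin 8 → ZMod 2)

def data (n : ℕ) : Data (Fin 13) (Grp n) where
  gen t := (base n (cls t), Multiplicative.ofAdd (vec t))
  sq t := by
    refine Prod.ext (base_sq n _) ?_
    show Multiplicative.ofAdd (vec t + vec t) = 1
    rw [vec_sq]; rfl
  ne t h := vec_ne t (congrArg (fun g : Grp n => Multiplicative.toAdd g.2) h)
  inj s t h := vec_inj s t (congrArg (fun g : Grp n => Multiplicative.toAdd g.2) h)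

theorem gen_tri (n : ℕ) (p t q : Fin 13) :
    (data n).gen p = (data n).gen t * (data n).gen q ↔ vec p = vec t + vec q := by
  constructor
  · intro h
    exact congrArg (fun g : Grp n => Multiplicative.toAdd g.2) h
  · intro h
    refine Prod.ext ?_ (congrArg Multiplicative.ofAdd h)
    show base n (cls p) = base n (cls t) * base n (cls q)
    have b0 : base n 0 = 1 := rfl
    rcases vec_tri p t q h with ⟨h1, h2⟩ | ⟨h1, h2⟩ | ⟨h1, h2⟩
    · rw [h1, h2, b0, one_mul]
    · rw [h1, h2, b0, mul_one]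
    · rw [h1, h2, b0, base_sq]

theorem data_cnt (n : ℕ) (s : Fin 3) (t : Fin 13)
    (h : (data n).cnt t = (data n).cnt (key s)) : t = key s := by
  have e : ∀ t, (data n).cnt t =
      (Finset.univ.filter fun p => ∃ q, vec p = vec t + vec q).card := by
    intro t
    unfold Data.cnt
    rw [← Set.ncard_coe_finset]
    congr 1
    ext p
    simp [gen_tri]
  rw [e, e] at h
  exact vec_cnt s t h

def fa : Multiplicative (Fin 8 → ZMod 2) := Multiplicative.ofAdd (vec 5)

theorem fa_sq : fa * fa = 1 := by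
  show Multiplicative.ofAdd (vec 5 + vec 5) = 1
  rw [vec_sq]; rfl

theorem conj (n : ℕ) (g : Grp n) (i j : ZMod n) :
    g * (swap i j, fa) * g⁻¹ = (swap (g.1 i) (g.1 j), fa) := by
  refine Prod.ext ?_ ?_
  · exact (swap_apply_apply g.1 i j).symm
  · show g.2 * fa * g.2⁻¹ = fa
    rw [mul_comm g.2, mul_assoc, mul_inv_cancel, mul_one]

theorem word0 (n k : ℕ) (hk : k + 1 < n) :
    ∃ w : List (Fin 3), w.length ≤ 6 * k + 1 ∧
      ev (data n) key w = (swap 0 ((k + 1 : ℕ) : ZMod n), fa) := by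
  induction k with
  | zero => exact ⟨[0], by simp, by simp [ev, data, key, cls, base, fa]⟩
  | succ k ih =>
    obtain ⟨w, hw, e⟩ := ih (by omega)
    refine ⟨[0, 2, 1] ++ w ++ [1, 2, 0], by simp; omega, ?_⟩
    rw [ev_append, ev_append, e]
    have e1 : ev (data n) key [1, 2, 0] = (ev (data n) key [0, 2, 1])⁻¹ := by
      symm
      apply inv_eq_of_mul_eq_one_right
      simp only [ev, List.map, List.prod_cons, List.prod_nil, mul_one]
      rw [mul_assoc, mul_assoc, ← mul_assoc ((data n).gen (key 1)), (data n).sq, one_mul,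
        ← mul_assoc ((data n).gen (key 2)), (data n).sq, one_mul, (data n).sq]
    rw [e1, conj]
    have e2 : ∀ x, (ev (data n) key [0, 2, 1]).1 x = swap (0 : ZMod n) 1 (x + 1) := by
      intro x
      simp [ev, data, key, cls, base, add_comm]
    rw [e2, e2]
    have h1 : ((k + 1 : ℕ) : ZMod n) + 1 = ((k + 1 + 1 : ℕ) : ZMod n) := by push_cast; ring
    have h2 : ((k + 1 + 1 : ℕ) : ZMod n) ≠ 0 := by
      rw [Ne, ZMod.natCast_eq_zero_iff]
      intro h
      have := Nat.le_of_dvd (by omega) h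
      omega
    have h3 : ((k + 1 + 1 : ℕ) : ZMod n) ≠ 1 := by
      rw [← h1]
      intro h
      have : ((k + 1 : ℕ) : ZMod n) = 0 := by simpa using h
      rw [ZMod.natCast_eq_zero_iff] at this
      have := Nat.le_of_dvd (by omega) this
      omega
    rw [h1, swap_apply_of_ne_of_ne h2 h3, zero_add, swap_apply_right]

theorem word1 (n : ℕ) [NeZero n] (j : ZMod n) (hj : j ≠ 0) :
    ∃ w : List (Fin 3), w.length ≤ 6 * n ∧ ev (data n) key w = (swap 0 j, fa) := by
  have h1 : j.val ≠ 0 := by simpa using hj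
  have h2 := ZMod.val_lt j
  obtain ⟨w, hw, e⟩ := word0 n (j.val - 1) (by omega)
  refine ⟨w, by omega, ?_⟩
  rw [e, Nat.sub_add_cancel (by omega), ZMod.natCast_zmod_val]

def tau (n : ℕ) (i j : ZMod n) : Grp n := if i = j then 1 else (swap i j, fa)

theorem pair_inv (n : ℕ) (i j : ZMod n) : ((swap i j, fa) : Grp n)⁻¹ = (swap i j, fa) :=
  inv_eq_of_mul_eq_one_right (Prod.ext (swap_mul_self i j) fa_sq)

theorem word2 (n : ℕ) [NeZero n] (i j : ZMod n) :
    ∃ w : List (Fin 3), w.length ≤ 18 * n ∧ ev (data n) key w = tau n i j := by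
  unfold tau
  split_ifs with h
  · exact ⟨[], by simp, rfl⟩
  · by_cases hi : i = 0
    · subst hi
      obtain ⟨w, hw, e⟩ := word1 n j (Ne.symm h)
      exact ⟨w, by omega, e⟩
    · obtain ⟨w, hw, e⟩ := word1 n i hi
      by_cases hj : j = 0
      · subst hj
        exact ⟨w, by omega, by rw [e, swap_comm]⟩
      · obtain ⟨w', hw', e'⟩ := word1 n j hj
        refine ⟨w ++ w' ++ w, by simp; omega, ?_⟩
        rw [ev_append, ev_append, e, e']
        have := conj n (swap 0 i, fa) 0 j
        rw [pair_inv] at this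
        rw [this]
        simp [swap_apply_of_ne_of_ne hj (Ne.symm h)]

theorem tau_conj (n : ℕ) (i j k l : ZMod n) :
    tau n i j * tau n k l * tau n i j = tau n (swap i j k) (swap i j l) := by
  by_cases h : i = j
  · subst h
    simp [tau]
  · have e : tau n i j = (swap i j, fa) := if_neg h
    by_cases h' : k = l
    · subst h'
      have e' : ∀ x, tau n x x = 1 := fun x => if_pos rfl
      rw [e', e', mul_one, e]
      exact Prod.ext (swap_mul_self i j) fa_sq
    · have e' : tau n k l = (swap k l, fa) := if_neg h'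
      have e'' : tau n (swap i j k) (swap i j l) = (swap (swap i j k) (swap i j l), fa) :=
        if_neg fun h => h' ((swap i j).injective h)
      have := conj n (swap i j, fa) k l
      rw [pair_inv] at this
      rw [e, e', e'', this]

theorem tau_ne (n : ℕ) (a b c : ZMod n) (hab : a ≠ b) (hac : a ≠ c) (hbc : b ≠ c) :
    tau n a b * tau n a c ≠ 1 := by
  intro h
  have e : tau n a b = (swap a b, fa) := if_neg hab
  have e' : tau n a c = (swap a c, fa) := if_neg hac
  rw [e, e'] at h
  have h1 : (swap a b * swap a c) a = a := by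
    have := congrArg (fun g : Grp n => g.1 a) h
    simpa using this
  rw [Perm.mul_apply, swap_apply_left, swap_apply_of_ne_of_ne (Ne.symm hac) (Ne.symm hbc)] at h1
  exact hac h1.symm

theorem final (C : ℕ) : ∃ R : ℕ, 1 ≤ R ∧ ∀ r ≥ R, ∃ (V : Type) (G : SimpleGraph V) (o : V),
    Realizable G o r ∧ rootDegree G o r = 13 ∧ ((C * r : ℕ) : ℕ∞) < minDiam G o r := by
  obtain ⟨M, hM⟩ := Filter.eventually_atTop.1
    (Nat.eventually_mul_pow_lt_factorial_sub (14 ^ (54 * C)) (14 ^ (108 * C)) 0)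
  refine ⟨54 * (2 * M + 2), by omega, fun r hr => ?_⟩
  have hr0 : 0 < r := by omega
  have : NeZero (r / 54) := ⟨by omega⟩
  refine ⟨_, (lift (data (r / 54))).graph, 1, ⟨Set.toFinite _, _, inferInstance, _,
    (lift (data (r / 54))).connected (lift_top _), fun v => Data.ballIso _ v r⟩, ?_, ?_⟩
  · rw [Data.rootDegree_eq _ hr0, Fintype.card_fin]
  · have : ((C * r + 1 : ℕ) : ℕ∞) ≤ minDiam (lift (data (r / 54))).graph 1 r := by
      unfold minDiam
      refine le_iInf fun W => le_iInf fun H => le_iInf fun hH => ?_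
      by_contra hlt
      have hk : H.ediam ≤ (C * r : ℕ) := by
        rw [not_le] at hlt
        push_cast at hlt ⊢
        exact Order.le_of_lt_add_one hlt
      obtain ⟨v⟩ := hH.1.nonempty
      obtain ⟨m, hm1, hm2⟩ := main_lift (data (r / 54)) hr0 hH.2 (key := key) (data_cnt _)
        (tau (r / 54)) (18 * (r / 54)) (by omega) (word2 _) (fun i => if_pos rfl)
        (fun i j => by
          unfold tau
          by_cases h : i = j
          · simp [h]
          · rw [if_neg h, if_neg (Ne.symm h), swap_comm])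
        (tau_conj _) (tau_ne _) v _ hk
      rw [ZMod.card] at hm1
      rw [Fintype.card_fin] at hm2
      have h1 := hM m (by omega)
      rw [Nat.sub_zero, ← pow_mul, ← pow_add] at h1
      have h2 : C * r ≤ 54 * C + 108 * C * m := by
        have : r ≤ 54 + 108 * m := by omega
        nlinarith
      have h3 : (13 + 1) ^ (C * r) ≤ 14 ^ (54 * C + 108 * C * m) :=
        Nat.pow_le_pow_right (by norm_num) h2
      omega
    exact lt_of_lt_of_le (by exact_mod_cast Nat.lt_succ_self _) this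

end Pool.Agent.H24.BallC
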