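import Mathlib

namespace Pool.Agent.H24.Cof

open Finset Polynomial

theorem diag (r B l0 : ℕ) (ν : ℕ → ℝ) (hl : l0 ≤ r)
    (h : ∀ e < B, ∑ c ∈ range (r + 1), (r.choose c : ℝ) * ν (e + c) = 0)
    (h1 : ∀ l < l0, ν l = 0) (h2 : ∀ l, l0 + B ≤ l → l < B + r → ν l = 0) :
    ∀ l < B + r, ν l = 0 := by
  classical
  rcases Nat.eq_zero_or_pos r with rfl | hr
  · intro l hl'
    simpa using h l (by omega)
  set p : ℝ[X] := Lagrange.interpolate (range r) (fun i : ℕ => (i : ℝ))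
    (fun l => (-1) ^ l * ν l) with hp
  have hinj : ∀ s : Finset ℕ, Set.InjOn (fun i : ℕ => (i : ℝ)) s := fun s a _ b _ hab =>
    Nat.cast_injective hab
  have hdeg : p.degree < r := by
    have := Lagrange.degree_interpolate_lt (s := range r) (v := fun i : ℕ => (i : ℝ))
      (fun l => (-1) ^ l * ν l) (hinj _)
    rwa [card_range] at this
  have hnd : p.natDegree < r := by
    by_cases h0 : p = 0
    · rw [h0]; simpa using hr
    · exact (natDegree_lt_iff_degree_lt h0).2 hdeg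
  have hfd : ∀ e : ℕ, ∑ c ∈ range (r + 1),
      (-1 : ℝ) ^ (r - c) * (r.choose c : ℝ) * p.eval ((e + c : ℕ) : ℝ) = 0 := by
    intro e
    have h3 := congrFun (Polynomial.fwdDiff_iter_eq_zero_of_degree_lt hnd) (e : ℝ)
    rw [fwdDiff_iter_eq_sum_shift] at h3
    simpa using h3
  have hev : ∀ l, l < B + r → p.eval (l : ℝ) = (-1) ^ l * ν l := by
    intro l
    induction l using Nat.strong_induction_on with
    | _ l ih =>
      intro hlt
      by_cases hlr : l < r
      · exact Lagrange.eval_interpolate_at_node (s := range r) (v := fun i : ℕ => (i : ℝ))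
          (fun l => (-1) ^ l * ν l) (hinj _) (mem_range.2 hlr)
      obtain ⟨e, rfl⟩ : ∃ e, l = e + r := ⟨l - r, by omega⟩
      have a1 := h e (by omega)
      have a2 := hfd e
      rw [sum_range_succ] at a1 a2
      have a3 : ∑ c ∈ range r, (-1 : ℝ) ^ (r - c) * (r.choose c : ℝ) * p.eval ((e + c : ℕ) : ℝ)
          = (-1) ^ (e + r) * ∑ c ∈ range r, (r.choose c : ℝ) * ν (e + c) := by
        rw [mul_sum]
        refine sum_congr rfl fun c hc => ?_
        have hc' := mem_range.1 hc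
        rw [ih (e + c) (by omega) (by omega)]
        have : (-1 : ℝ) ^ (r - c) * (-1) ^ (e + c) = (-1) ^ (e + r) := by
          rw [← pow_add]; congr 1; omega
        rw [← this]; ring
      rw [a3] at a2
      simp only [Nat.choose_self, Nat.cast_one, one_mul, Nat.sub_self, pow_zero] at a1 a2
      have : ∑ c ∈ range r, (r.choose c : ℝ) * ν (e + c) = - ν (e + r) := by linarith
      rw [this] at a2
      linarith
  have hz : p = 0 := by
    refine eq_zero_of_degree_lt_of_eval_index_eq_zero (range l0 ∪ Ico (l0 + B) (B + r))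
      (v := fun i : ℕ => (i : ℝ)) (hinj _) ?_ ?_
    · rw [card_union_of_disjoint]
      · simp only [card_range, Nat.card_Ico]
        have : l0 + (B + r - (l0 + B)) = r := by omega
        rw [this]; exact hdeg
      · rw [disjoint_left]
        intro a ha hb
        simp only [mem_range, mem_Ico] at ha hb
        omega
    · intro i hi
      simp only [mem_union, mem_range, mem_Ico] at hi
      rcases hi with hi | hi
      · rw [hev i (by omega), h1 i hi, mul_zero]
      · rw [hev i hi.2, h2 i hi.1 hi.2, mul_zero]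
  intro l hl'
  have := hev l hl'
  rw [hz, eval_zero] at this
  exact (mul_eq_zero.1 this.symm).resolve_left (pow_ne_zero _ (by norm_num))

theorem bound {E F : Type} [NormedAddCommGroup E] [NormedSpace ℝ E] [FiniteDimensional ℝ E]
    [NormedAddCommGroup F] [NormedSpace ℝ F] (U : Submodule ℝ E) (f : E →ₗ[ℝ] F)
    (h : ∀ x ∈ U, f x = 0 → x = 0) : ∃ K : ℝ, 0 ≤ K ∧ ∀ x ∈ U, ‖x‖ ≤ K * ‖f x‖ := by
  have hk : LinearMap.ker (f.domRestrict U) = ⊥ := by
    rw [LinearMap.ker_eq_bot']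
    intro x hx
    exact Subtype.ext (h x.1 x.2 hx)
  obtain ⟨K, -, hK⟩ := LinearMap.exists_antilipschitzWith _ hk
  refine ⟨K, K.2, fun x hx => ?_⟩
  have := hK.le_mul_dist ⟨x, hx⟩ 0
  simpa using this

theorem peel {ι κ : Type} [Fintype ι] [Fintype κ] (w : ι → ℕ) (L : (ι → ℝ) →ₗ[ℝ] (κ → ℝ))
    (S : ι → Prop) (W : ℕ) (U : Submodule ℝ (ι → ℝ))
    (hS : ∀ v, S v → W ≤ w v)
    (hU : ∀ μ ∈ U, ∀ u, ¬ S u → W ≤ w u → μ u = 0)
    (hinj : ∀ μ ∈ U, (∀ v, S v → μ v = 0) → μ = 0)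
    (hD : ∀ ν : ι → ℝ, (∀ u, ¬ S u → ν u = 0) → L ν = 0 → ν = 0) :
    ∃ T : ℝ, 0 < T ∧ ∀ μ ∈ U, L (fun u => T ^ w u * μ u) = 0 → μ = 0 := by
  classical
  let P : (ι → ℝ) →ₗ[ℝ] (ι → ℝ) :=
    { toFun := fun μ u => if S u then μ u else 0
      map_add' := by intro a b; funext u; by_cases h : S u <;> simp [h]
      map_smul' := by intro a b; funext u; by_cases h : S u <;> simp [h] }
  have hP : ∀ μ u, P μ u = if S u then μ u else 0 := fun _ _ => rfl
  obtain ⟨K1, k1, hK1⟩ := bound U P (fun μ hμ h0 => hinj μ hμ fun v hv => by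
    have := congrFun h0 v
    rwa [hP, if_pos hv] at this)
  obtain ⟨K2, k2, hK2⟩ := bound (LinearMap.range P) L (by
    rintro _ ⟨x, rfl⟩ h0
    exact hD _ (fun u hu => by rw [hP, if_neg hu]) h0)
  set K3 := ‖LinearMap.toContinuousLinearMap L‖ with hK3
  have k3 : 0 ≤ K3 := norm_nonneg _
  have hL : ∀ x, ‖L x‖ ≤ K3 * ‖x‖ := fun x => (LinearMap.toContinuousLinearMap L).le_opNorm x
  have kk : 0 ≤ K1 * K2 * K3 := by positivity
  refine ⟨K1 * K2 * K3 + 1, by linarith, fun μ hμ h0 => ?_⟩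
  set T := K1 * K2 * K3 + 1 with hT
  have T1 : 1 ≤ T := by linarith
  have T0 : 0 < T := by linarith
  set z : ι → ℝ := fun u => T ^ w u * μ u with hz
  have TW : 0 < T ^ W := pow_pos T0 _
  have e1 : ‖P μ‖ ≤ ‖P z‖ / T ^ W := by
    refine (pi_norm_le_iff_of_nonneg (by positivity)).2 fun u => ?_
    rw [le_div_iff₀ TW]
    refine le_trans ?_ (norm_le_pi_norm (P z) u)
    simp only [hP]
    split_ifs with h
    · simp only [hz, norm_mul, norm_pow, Real.norm_eq_abs, abs_of_pos T0]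
      rw [mul_comm]
      exact mul_le_mul_of_nonneg_right (pow_le_pow_right₀ T1 (hS u h)) (abs_nonneg _)
    · simp
  have e2 : ‖P z - z‖ ≤ T ^ W * ‖μ‖ / T := by
    refine (pi_norm_le_iff_of_nonneg (by positivity)).2 fun u => ?_
    rw [le_div_iff₀ T0]
    simp only [Pi.sub_apply, hP]
    split_ifs with h
    · simp only [sub_self, norm_zero, zero_mul]; positivity
    · by_cases hw : W ≤ w u
      · simp only [hz, hU μ hμ u h hw, mul_zero, sub_self, norm_zero, zero_mul]; positivity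
      · simp only [hz, zero_sub, norm_neg, norm_mul, norm_pow, Real.norm_eq_abs, abs_of_pos T0]
        have b1 : T ^ w u * T ≤ T ^ W := by
          rw [← pow_succ]; exact pow_le_pow_right₀ T1 (by omega)
        have b2 : |μ u| ≤ ‖μ‖ := norm_le_pi_norm μ u
        calc T ^ w u * |μ u| * T = (T ^ w u * T) * |μ u| := by ring
          _ ≤ T ^ W * ‖μ‖ := mul_le_mul b1 b2 (abs_nonneg _) TW.le
  have e3 : ‖P z‖ ≤ K2 * (K3 * ‖P z - z‖) := by
    refine (hK2 _ ⟨z, rfl⟩).trans (mul_le_mul_of_nonneg_left ?_ k2)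
    have : L (P z) = L (P z - z) := by rw [map_sub, h0, sub_zero]
    rw [this]; exact hL _
  have e4 := hK1 μ hμ
  have e5 : T ^ W * ‖μ‖ ≤ K1 * ‖P z‖ := by
    rw [le_div_iff₀ TW] at e1
    calc T ^ W * ‖μ‖ ≤ T ^ W * (K1 * ‖P μ‖) := mul_le_mul_of_nonneg_left e4 TW.le
      _ = K1 * (‖P μ‖ * T ^ W) := by ring
      _ ≤ K1 * ‖P z‖ := mul_le_mul_of_nonneg_left e1 k1
  have e6 : ‖P z‖ * T ≤ K1 * K2 * K3 * ‖P z‖ := by
    rw [le_div_iff₀ T0] at e2
    calc ‖P z‖ * T ≤ K2 * (K3 * ‖P z - z‖) * T := mul_le_mul_of_nonneg_right e3 T0.le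
      _ = K2 * K3 * (‖P z - z‖ * T) := by ring
      _ ≤ K2 * K3 * (K1 * ‖P z‖) := mul_le_mul_of_nonneg_left (e2.trans e5) (by positivity)
      _ = K1 * K2 * K3 * ‖P z‖ := by ring
  have e7 : ‖P z‖ ≤ 0 := by rw [hT] at e6; nlinarith
  have e8 : T ^ W * ‖μ‖ ≤ 0 := e5.trans (mul_nonpos_of_nonneg_of_nonpos k1 e7)
  have e9 : ‖μ‖ ≤ 0 := by
    by_contra hc
    push Not at hc
    exact absurd e8 (not_le.2 (mul_pos TW hc))
  exact norm_le_zero_iff.1 e9

end Pool.Agent.H24.Cof
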