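import Mathlib
import Pool.Agent.H24.Cof1

namespace Pool.Agent.H24.Cof

open Finset

def st (b : ℕ) : ℕ → ℕ
  | 0 => 0
  | r + 1 => st b r + b + r

theorem st_succ (b r : ℕ) : st b (r + 1) = st b r + b + r := rfl

theorem st_mono (b : ℕ) : Monotone (st b) :=
  monotone_nat_of_le_succ fun r => by rw [st_succ]; omega

theorem st_ge (b r : ℕ) (hb : 0 < b) : r ≤ st b r := by
  induction r with
  | zero => simp
  | succ r ih => rw [st_succ]; omega

theorem seg (s b k : ℕ) (hb : 0 < b) (g : ℕ → ℕ → ℝ)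
    (hg : ∀ r l, ¬ (r ≤ s ∧ l < b + r ∧ k * b ≤ st b r + l ∧ st b r + l < (k + 1) * b) → g r l = 0)
    (he : ∀ e < b, ∑ r ∈ range (s + 1), ∑ c ∈ range (r + 1), (r.choose c : ℝ) * g r (e + c) = 0) :
    ∀ r l, g r l = 0 := by
  classical
  have hex : ∃ r, k * b < st b (r + 1) := ⟨k * b, st_ge b _ hb⟩
  obtain ⟨r0, h1, h0⟩ : ∃ r0, k * b < st b (r0 + 1) ∧ st b r0 ≤ k * b := by
    refine ⟨Nat.find hex, Nat.find_spec hex, ?_⟩
    rcases h : Nat.find hex with _ | j
    · simp [st]
    · have := Nat.find_min hex (m := j) (by omega)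
      omega
  have kb : (k + 1) * b = k * b + b := by ring
  rw [kb] at hg
  generalize k * b = K at *
  rw [st_succ] at h1
  have hout : ∀ r, r ≠ r0 → r ≠ r0 + 1 → ∀ l, g r l = 0 := by
    intro r a1 a2 l
    refine hg r l fun h => ?_
    rcases Nat.lt_or_gt_of_ne a1 with h' | h'
    · have := st_mono b (show r + 1 ≤ r0 from h')
      rw [st_succ] at this
      omega
    · have := st_mono b (show r0 + 1 + 1 ≤ r by omega)
      rw [st_succ, st_succ] at this
      omega
  have hE : ∀ e < b, ∑ c ∈ range (r0 + 1), (r0.choose c : ℝ) * g r0 (e + c) +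
      ∑ c ∈ range (r0 + 1 + 1), ((r0 + 1).choose c : ℝ) * g (r0 + 1) (e + c) = 0 := by
    intro e h
    rw [← he e h]
    symm
    refine sum_eq_add r0 (r0 + 1) (by omega) ?_ ?_ ?_
    · intro c _ hc
      exact sum_eq_zero fun x _ => by rw [hout c hc.1 hc.2, mul_zero]
    · intro hc
      exact sum_eq_zero fun x _ => by
        rw [hg _ _ (fun h => hc (mem_range.2 (by omega))), mul_zero]
    · intro hc
      exact sum_eq_zero fun x _ => by
        rw [hg _ _ (fun h => hc (mem_range.2 (by omega))), mul_zero]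
  obtain ⟨l0, hl0⟩ : ∃ l0, K = st b r0 + l0 := ⟨K - st b r0, by omega⟩
  obtain ⟨q, hq⟩ : ∃ q, q = l0 - r0 := ⟨_, rfl⟩
  have hhi : ∀ l, q ≤ l → g (r0 + 1) l = 0 := by
    intro l hl
    refine hg _ _ fun h => ?_
    rw [st_succ] at h
    omega
  have hA : ∀ l, g r0 l = 0 := by
    have := diag r0 (b - q) (l0 - q) (fun x => g r0 (q + x)) (by omega) (by
      intro e h
      have h2 := hE (q + e) (by omega)
      rw [sum_eq_zero (s := range (r0 + 1 + 1)) fun x _ => by
        rw [hhi _ (by omega), mul_zero], add_zero] at h2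
      simpa [add_assoc] using h2)
      (fun l hl => hg _ _ fun h => by omega) (fun l a1 a2 => hg _ _ fun h => by omega)
    intro l
    by_cases h1 : q ≤ l ∧ l < b + r0
    · have h3 := this (l - q) (by omega)
      rwa [show q + (l - q) = l by omega] at h3
    · exact hg _ _ fun h => by omega
  have hB : ∀ l, g (r0 + 1) l = 0 := by
    have := diag (r0 + 1) q 0 (fun x => g (r0 + 1) x) (by omega) (by
      intro e h
      have h2 := hE e (by omega)
      rwa [sum_eq_zero (s := range (r0 + 1)) fun x _ => by rw [hA, mul_zero], zero_add] at h2)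
      (fun l hl => absurd hl (by omega)) (fun l a1 _ => hhi l (by omega))
    intro l
    by_cases h1 : q ≤ l
    · exact hhi l h1
    · exact this l (by omega)
  intro r l
  by_cases a1 : r = r0
  · rw [a1]; exact hA l
  by_cases a2 : r = r0 + 1
  · rw [a2]; exact hB l
  exact hout r a1 a2 l

noncomputable def ex (s b r l : ℕ) : (Fin (s + 1) × Fin (s + b) → ℝ) →ₗ[ℝ] ℝ :=
  if h : r < s + 1 ∧ l < s + b then LinearMap.proj (⟨r, h.1⟩, ⟨l, h.2⟩) else 0

theorem ex_fin (s b : ℕ) (μ : Fin (s + 1) × Fin (s + b) → ℝ) (u : Fin (s + 1) × Fin (s + b)) :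
    ex s b u.1 u.2 μ = μ u := by
  unfold ex
  rw [dif_pos ⟨u.1.2, u.2.2⟩]
  rfl

theorem ex_mk (s b r l : ℕ) (g : ℕ → ℕ → ℝ) (hg : ¬ (r < s + 1 ∧ l < s + b) → g r l = 0) :
    ex s b r l (fun u => g u.1 u.2) = g r l := by
  unfold ex
  split_ifs with h
  · rfl
  · rw [hg h]; rfl

theorem ex_zero (s b r l : ℕ) (μ : Fin (s + 1) × Fin (s + b) → ℝ) (P : ℕ → ℕ → Prop)
    (h : ∀ u : Fin (s + 1) × Fin (s + b), ¬ P u.1 u.2 → μ u = 0) (hP : ¬ P r l) :
    ex s b r l μ = 0 := by
  unfold ex
  split_ifs with h'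
  · exact h _ hP
  · rfl

theorem ex_scale (s b r l : ℕ) (F : ℕ → ℕ → ℝ) (μ : Fin (s + 1) × Fin (s + b) → ℝ) :
    ex s b r l (fun u => F u.1 u.2 * μ u) = F r l * ex s b r l μ := by
  unfold ex
  split_ifs with h
  · rfl
  · simp

noncomputable def eqn (s b : ℕ) (α β : ℝ) (e : ℕ) : (Fin (s + 1) × Fin (s + b) → ℝ) →ₗ[ℝ] ℝ :=
  ∑ r ∈ range (s + 1), ∑ c ∈ range (r + 1),
    ((r.choose c : ℝ) * α ^ (r - c) * β ^ c) • ex s b r (e + c)

theorem eqn_apply (s b : ℕ) (α β : ℝ) (e : ℕ) (μ : Fin (s + 1) × Fin (s + b) → ℝ) :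
    eqn s b α β e μ = ∑ r ∈ range (s + 1), ∑ c ∈ range (r + 1),
      (r.choose c : ℝ) * α ^ (r - c) * β ^ c * ex s b r (e + c) μ := by
  simp [eqn, LinearMap.sum_apply]

theorem birk0 (s b : ℕ) (hb : 0 < b) (k : ℕ) : ∃ α β : ℕ → ℝ, (∀ i, β i ≠ 0) ∧
    ∀ μ : Fin (s + 1) × Fin (s + b) → ℝ,
      (∀ u : Fin (s + 1) × Fin (s + b), ¬ ((u.2 : ℕ) < b + u.1 ∧ st b u.1 + u.2 < k * b) → μ u = 0) →
      (∀ i < k, ∀ e < b, eqn s b (α i) (β i) e μ = 0) → μ = 0 := by
  classical
  induction k with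
  | zero => exact ⟨fun _ => 0, fun _ => 1, fun _ => one_ne_zero, fun μ h _ =>
      funext fun u => h u (by omega)⟩
  | succ k ih =>
    obtain ⟨α, β, hβ, H⟩ := ih
    let U : Submodule ℝ (Fin (s + 1) × Fin (s + b) → ℝ) :=
      { carrier := {μ | (∀ u : Fin (s + 1) × Fin (s + b),
            ¬ ((u.2 : ℕ) < b + u.1 ∧ st b u.1 + u.2 < (k + 1) * b) → μ u = 0) ∧
          ∀ i < k, ∀ e < b, eqn s b (α i) (β i) e μ = 0}
        add_mem' := by
          rintro x y ⟨x1, x2⟩ ⟨y1, y2⟩
          exact ⟨fun u hu => by simp [x1 u hu, y1 u hu],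
            fun i hi e he => by rw [map_add, x2 i hi e he, y2 i hi e he, add_zero]⟩
        zero_mem' := ⟨fun _ _ => rfl, fun _ _ _ _ => map_zero _⟩
        smul_mem' := by
          rintro c x ⟨x1, x2⟩
          exact ⟨fun u hu => by simp [x1 u hu],
            fun i hi e he => by rw [map_smul, x2 i hi e he, smul_zero]⟩ }
    let w : Fin (s + 1) × Fin (s + b) → ℕ := fun u => (s + b) * u.1 + u.2
    let L : (Fin (s + 1) × Fin (s + b) → ℝ) →ₗ[ℝ] (Fin b → ℝ) :=
      LinearMap.pi fun e => eqn s b 1 1 e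
    let Lo := univ.filter fun u : Fin (s + 1) × Fin (s + b) =>
      (u.2 : ℕ) < b + u.1 ∧ st b u.1 + u.2 < k * b
    obtain ⟨T, T0, hT⟩ := peel w L
      (fun u => (u.2 : ℕ) < b + u.1 ∧ k * b ≤ st b u.1 + u.2 ∧ st b u.1 + u.2 < (k + 1) * b)
      (Lo.sup fun u => w u + 1) U (by
        intro v hv
        refine Finset.sup_le fun u hu => ?_
        simp only [Lo, mem_filter, mem_univ, true_and] at hu
        have hu2 := u.2.2
        have hv2 := v.2.2
        show (s + b) * u.1 + u.2 + 1 ≤ (s + b) * v.1 + v.2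
        rcases lt_trichotomy (u.1 : ℕ) v.1 with h | h | h
        · have := Nat.mul_le_mul_left (s + b) (show (u.1 : ℕ) + 1 ≤ v.1 from h)
          rw [mul_add, mul_one] at this
          omega
        · rw [h] at hu ⊢; omega
        · have := st_mono b (show (v.1 : ℕ) + 1 ≤ u.1 from h)
          rw [st_succ] at this
          omega) (by
        intro μ hμ u h1 h2
        refine hμ.1 u fun h3 => ?_
        have h4 : u ∈ Lo := by
          simp only [Lo, mem_filter, mem_univ, true_and]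
          omega
        have := Finset.le_sup (f := fun u => w u + 1) h4
        omega) (by
        intro μ hμ h
        refine H μ (fun u hu => ?_) hμ.2
        by_cases h1 : (u.2 : ℕ) < b + u.1 ∧ st b u.1 + u.2 < (k + 1) * b
        · exact h u (by omega)
        · exact hμ.1 u h1) (by
        intro ν h1 h2
        have := seg s b k hb (fun r l => ex s b r l ν) (fun r l h => by
          by_cases hr : r ≤ s
          · exact ex_zero s b r l ν
              (fun r l => l < b + r ∧ k * b ≤ st b r + l ∧ st b r + l < (k + 1) * b) h1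
              (fun h' => h ⟨hr, h'⟩)
          · unfold ex
            rw [dif_neg (by omega)]; rfl) (fun e he => by
          have h3 := congrFun h2 ⟨e, he⟩
          simp only [L, LinearMap.pi_apply, eqn_apply, one_pow, mul_one, Pi.zero_apply] at h3
          exact h3)
        funext u
        rw [← ex_fin s b ν u]
        exact this _ _)
    refine ⟨fun i => if i = k then T ^ (s + b) else α i,
      fun i => if i = k then T ^ (s + b + 1) else β i, fun i => ?_, fun μ h1 h2 => ?_⟩
    · by_cases h : i = k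
      · simp only [if_pos h]; positivity
      · simp only [if_neg h]; exact hβ i
    refine hT μ ⟨h1, fun i hi e he => ?_⟩ ?_
    · have := h2 i (by omega) e he
      simpa only [if_neg (show i ≠ k by omega)] using this
    · funext e
      have h3 := h2 k (by omega) e e.2
      simp only [if_true, eqn_apply] at h3
      simp only [L, LinearMap.pi_apply, eqn_apply, one_pow, mul_one, Pi.zero_apply, w]
      have h4 := congrArg (fun x => T ^ (e : ℕ) * x) h3
      simp only [mul_zero, mul_sum] at h4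
      rw [← h4]
      refine sum_congr rfl fun r _ => sum_congr rfl fun c hc => ?_
      rw [ex_scale s b r (e + c) (fun r l => T ^ ((s + b) * r + l))]
      have hc' : c ≤ r := Nat.lt_succ_iff.1 (mem_range.1 hc)
      obtain ⟨d, rfl⟩ := Nat.exists_eq_add_of_le hc'
      rw [Nat.add_sub_cancel_left]
      ring

theorem birk (s b : ℕ) (hb : 0 < b) (k : ℕ) (hk : st b (s + 1) ≤ k * b) :
    ∃ α β : ℕ → ℝ, (∀ i, β i ≠ 0) ∧
    ∀ g : ℕ → ℕ → ℝ, (∀ i < k, ∀ e < b, ∑ r ∈ range (s + 1), ∑ c ∈ range (r + 1),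
      (r.choose c : ℝ) * α i ^ (r - c) * β i ^ c * g r (e + c) = 0) →
      ∀ r ≤ s, ∀ l < b + r, g r l = 0 := by
  classical
  obtain ⟨α, β, hβ, H⟩ := birk0 s b hb k
  refine ⟨α, β, hβ, fun g hg r hr l hl => ?_⟩
  have := H (fun u => (fun r l => if r ≤ s ∧ l < b + r then g r l else 0) u.1 u.2) (by
    intro u hu
    refine if_neg fun h => hu ⟨h.2, ?_⟩
    have := st_mono b (show (u.1 : ℕ) + 1 ≤ s + 1 by omega)
    rw [st_succ] at this
    omega) (by
    intro i hi e he
    rw [eqn_apply]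
    refine Eq.trans (sum_congr rfl fun r hr => sum_congr rfl fun c hc => ?_) (hg i hi e he)
    rw [ex_mk s b r (e + c) (fun r l => if r ≤ s ∧ l < b + r then g r l else 0)
      (fun h => if_neg (by omega))]
    have := mem_range.1 hr
    have := mem_range.1 hc
    rw [if_pos (by omega)])
  have h2 := congrFun this (⟨r, by omega⟩, ⟨l, by omega⟩)
  simpa [hr, hl] using h2

end Pool.Agent.H24.Cof
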