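import Mathlib
import Pool.Agent.H24.Cof2

namespace Pool.Agent.H24.Cof

open Finset Polynomial Module

variable {V : Type} [Fintype V] [DecidableEq V]

open Classical in
noncomputable def cm (s : ℕ) (G : SimpleGraph V) (x y : V → ℝ) :
    Matrix (V × V) (V × Fin (s + 1)) ℝ :=
  Matrix.of fun (e : V × V) (c : V × Fin (s + 1)) =>
    if G.Adj e.1 e.2 then
      (if c.1 = e.1 then (x e.1 - x e.2) ^ (s - (c.2 : ℕ)) * (y e.1 - y e.2) ^ (c.2 : ℕ)
       else if c.1 = e.2 then
          -((x e.1 - x e.2) ^ (s - (c.2 : ℕ)) * (y e.1 - y e.2) ^ (c.2 : ℕ))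
       else 0)
    else (0 : ℝ)

noncomputable def pz {s : ℕ} (z : V × Fin (s + 1) → ℝ) (v : V) : ℝ[X] :=
  ∑ k : Fin (s + 1), C (z (v, k)) * X ^ (k : ℕ)

omit [Fintype V] [DecidableEq V] in
theorem pz_deg {s : ℕ} (z : V × Fin (s + 1) → ℝ) (v : V) : (pz z v).natDegree ≤ s :=
  natDegree_sum_le_of_forall_le _ _ fun k _ =>
    (natDegree_C_mul_X_pow_le _ _).trans (Nat.lt_succ_iff.1 k.2)

omit [Fintype V] [DecidableEq V] in
theorem pz_coeff {s : ℕ} (z : V × Fin (s + 1) → ℝ) (v : V) (k : Fin (s + 1)) :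
    (pz z v).coeff k = z (v, k) := by
  simp only [pz, finsetSum_coeff, coeff_C_mul_X_pow]
  rw [sum_eq_single k]
  · simp
  · intro j _ hj
    exact if_neg fun h => hj (Fin.ext h.symm)
  · simp

omit [Fintype V] [DecidableEq V] in
theorem pz_eval {s : ℕ} (z : V × Fin (s + 1) → ℝ) (v : V) (t : ℝ) :
    (pz z v).eval t = ∑ k : Fin (s + 1), z (v, k) * t ^ (k : ℕ) := by
  simp [pz, eval_finsetSum]

omit [Fintype V] [DecidableEq V] in
theorem pz_zero {s : ℕ} (z : V × Fin (s + 1) → ℝ) (h : ∀ v, pz z v = 0) : z = 0 := by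
  funext c
  have := pz_coeff z c.1 c.2
  rw [h, coeff_zero] at this
  exact this.symm

theorem row_eq {s : ℕ} (G : SimpleGraph V) (x y : V → ℝ) (z : V × Fin (s + 1) → ℝ) {u v : V}
    (h : G.Adj u v) (hx : x u ≠ x v) :
    (cm s G x y).mulVec z (u, v) = (x u - x v) ^ s *
      ((pz z u).eval ((y u - y v) / (x u - x v)) - (pz z v).eval ((y u - y v) / (x u - x v))) := by
  have hd : x u - x v ≠ 0 := sub_ne_zero.2 hx
  simp only [Matrix.mulVec, dotProduct, cm, Matrix.of_apply, if_pos h, Fintype.sum_prod_type]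
  rw [sum_eq_add u v h.ne (fun w _ hw => by simp [hw.1, hw.2]) (by simp) (by simp)]
  simp only [if_true, if_neg h.ne.symm, pz_eval]
  rw [← sum_add_distrib, ← sum_sub_distrib, mul_sum]
  have key : ∀ k : Fin (s + 1), (x u - x v) ^ (s - (k : ℕ)) * (y u - y v) ^ (k : ℕ) =
      (x u - x v) ^ s * ((y u - y v) / (x u - x v)) ^ (k : ℕ) := by
    intro k
    obtain ⟨d, hd'⟩ := Nat.exists_eq_add_of_le (Nat.lt_succ_iff.1 k.2)
    generalize (k : ℕ) = j at *
    subst hd'
    rw [Nat.add_sub_cancel_left, div_pow, pow_add]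
    field_simp
  refine sum_congr rfl fun k _ => ?_
  rw [key]; ring

theorem ker_iff {s : ℕ} (G : SimpleGraph V) (x y : V → ℝ) (hx : ∀ u v, G.Adj u v → x u ≠ x v)
    (z : V × Fin (s + 1) → ℝ) :
    z ∈ LinearMap.ker (cm s G x y).mulVecLin ↔ ∀ u v, G.Adj u v →
      (pz z u).eval ((y u - y v) / (x u - x v)) = (pz z v).eval ((y u - y v) / (x u - x v)) := by
  rw [LinearMap.mem_ker, Matrix.mulVecLin_apply]
  constructor
  · intro h u v huv
    have := congrFun h (u, v)
    rw [row_eq G x y z huv (hx u v huv)] at this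
    exact sub_eq_zero.1 ((mul_eq_zero.1 this).resolve_left
      (pow_ne_zero _ (sub_ne_zero.2 (hx u v huv))))
  · intro h
    funext ⟨u, v⟩
    by_cases huv : G.Adj u v
    · rw [row_eq G x y z huv (hx u v huv), h u v huv]; simp
    · simp [Matrix.mulVec, dotProduct, cm, huv]

theorem rank_ker {s : ℕ} (G : SimpleGraph V) (x y : V → ℝ) :
    (cm s G x y).rank + finrank ℝ (LinearMap.ker (cm s G x y).mulVecLin) =
      Fintype.card V * (s + 1) := by
  have := LinearMap.finrank_range_add_finrank_ker (cm s G x y).mulVecLin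
  simpa [Matrix.rank] using this

abbrev Tri (s : ℕ) := Σ r : Fin (s + 1), Fin (s + 1 - r)

theorem card_tri (s : ℕ) : Fintype.card (Tri s) = (s + 2).choose 2 := by
  simp only [Fintype.card_sigma, Fintype.card_fin]
  rw [Fin.sum_univ_eq_sum_range (fun r => s + 1 - r)]
  induction s with
  | zero => simp
  | succ s ih =>
    rw [sum_range_succ', Nat.choose_succ_succ' (s + 2) 1, ← ih]
    simp only [Nat.add_sub_add_right, Nat.sub_zero, Nat.choose_one_right]
    omega

theorem tri_ext {s : ℕ} (t t' : Tri s) (h1 : (t.1 : ℕ) = t'.1) (h2 : (t.2 : ℕ) = t'.2) : t = t' := by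
  obtain ⟨a, b⟩ := t
  obtain ⟨a', b'⟩ := t'
  obtain rfl : a = a' := Fin.ext h1
  obtain rfl : b = b' := Fin.ext h2
  rfl

theorem ker_le {E : Type} [AddCommGroup E] [Module ℝ E] {s : ℕ} (K : Submodule ℝ E)
    (φ : Tri s → E →ₗ[ℝ] ℝ) (h : ∀ z ∈ K, (∀ t, φ t z = 0) → z = 0) :
    finrank ℝ K ≤ (s + 2).choose 2 := by
  have := LinearMap.finrank_le_finrank_of_injective (f := (LinearMap.pi φ).domRestrict K) (by
    rw [← LinearMap.ker_eq_bot, LinearMap.ker_eq_bot']
    intro z hz
    exact Subtype.ext (h z.1 z.2 fun t => congrFun hz t))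
  rwa [finrank_fintype_fun_eq_card, card_tri] at this

theorem complete_le (s N : ℕ) (e : V ≃ Fin N) (hN : s + 1 ≤ N) :
    finrank ℝ (LinearMap.ker (cm s (⊤ : SimpleGraph V) (fun v => ((e v : ℕ) : ℝ))
      (fun v => ((e v : ℕ) : ℝ) ^ 2)).mulVecLin) ≤ (s + 2).choose 2 := by
  have hx : ∀ u v : V, (⊤ : SimpleGraph V).Adj u v → ((e u : ℕ) : ℝ) ≠ ((e v : ℕ) : ℝ) :=
    fun u v h h' => h.ne (e.injective (Fin.ext (Nat.cast_injective h')))
  refine ker_le _ (fun t => ∑ k : Fin (s + 1), (-1 - ((t.2 : ℕ) : ℝ)) ^ (k : ℕ) •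
    LinearMap.proj (e.symm ⟨t.1, by have := t.1.2; omega⟩, k)) fun z hz h => ?_
  rw [ker_iff _ _ _ hx] at hz
  have key : ∀ i : ℕ, ∀ v, (e v : ℕ) = i → pz z v = 0 := by
    intro i
    induction i using Nat.strong_induction_on with
    | _ i ih =>
      intro v hv
      refine eq_zero_of_natDegree_lt_card_of_eval_eq_zero _
        (f := fun t : Fin (s + 1) => if (t : ℕ) < i then (i : ℝ) + (t : ℕ)
          else -1 - (((t : ℕ) - i : ℕ) : ℝ)) ?_ ?_ (by simpa using Nat.lt_succ_of_le (pz_deg z v))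
      · intro a b hab
        simp only at hab
        have n1 : (0 : ℝ) ≤ (i : ℝ) := Nat.cast_nonneg _
        have n2 : (0 : ℝ) ≤ ((a : ℕ) : ℝ) := Nat.cast_nonneg _
        have n3 : (0 : ℝ) ≤ ((b : ℕ) : ℝ) := Nat.cast_nonneg _
        have n4 : (0 : ℝ) ≤ (((a : ℕ) - i : ℕ) : ℝ) := Nat.cast_nonneg _
        have n5 : (0 : ℝ) ≤ (((b : ℕ) - i : ℕ) : ℝ) := Nat.cast_nonneg _
        split_ifs at hab with h1 h2 h2
        · exact Fin.ext (Nat.cast_injective (R := ℝ) (by linarith))
        · linarith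
        · linarith
        · have : (a : ℕ) - i = (b : ℕ) - i := Nat.cast_injective (R := ℝ) (by linarith)
          exact Fin.ext (by omega)
      · intro t
        by_cases ht : (t : ℕ) < i
        · rw [if_pos ht]
          have hN' := (e v).2
          set u := e.symm ⟨t, by omega⟩ with hu
          have eu : (e u : ℕ) = t := by simp [hu]
          have huv : (⊤ : SimpleGraph V).Adj v u := by
            intro h; rw [h] at hv; omega
          have h1 := hz v u huv
          rw [ih t ht u eu, eval_zero, hv, eu] at h1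
          have h2 := hx v u huv
          rw [hv, eu] at h2
          have h3 : ((i : ℝ) ^ 2 - ((t : ℕ) : ℝ) ^ 2) / ((i : ℝ) - (t : ℕ)) = i + (t : ℕ) := by
            rw [div_eq_iff (sub_ne_zero.2 h2)]; ring
          rwa [h3] at h1
        · rw [if_neg ht]
          have ht2 := t.2
          have h1 := h ⟨⟨i, by omega⟩, ⟨t - i, by simp only; omega⟩⟩
          have h2 : e.symm ⟨i, by omega⟩ = v := by
            rw [Equiv.symm_apply_eq]; exact Fin.ext hv.symm
          simp only [LinearMap.sum_apply, LinearMap.smul_apply, LinearMap.proj_apply, smul_eq_mul,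
            h2] at h1
          rw [pz_eval, ← h1]
          exact sum_congr rfl fun k _ => mul_comm _ _
  exact pz_zero z fun v => key _ v rfl

theorem complete_ge (s : ℕ) (x y : V → ℝ) (hx : Function.Injective x)
    (hN : s + 1 ≤ Fintype.card V) :
    (s + 2).choose 2 ≤ finrank ℝ (LinearMap.ker (cm s (⊤ : SimpleGraph V) x y).mulVecLin) := by
  let Q : (Tri s → ℝ) → V → ℝ[X] := fun c v =>
    ∑ t : Tri s, C (c t) * X ^ (t.2 : ℕ) * (C (x v) * X - C (y v)) ^ (t.1 : ℕ)
  have hQ : ∀ c v, (Q c v).natDegree ≤ s := by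
    intro c v
    refine natDegree_sum_le_of_forall_le _ _ fun t _ => natDegree_mul_le.trans ?_
    have h1 := natDegree_C_mul_X_pow_le (c t) (t.2 : ℕ)
    have h2 : (C (x v) * X - C (y v)).natDegree ≤ 1 := by compute_degree
    have h3 := natDegree_pow_le_of_le (t.1 : ℕ) h2
    have h4 := t.2.2
    omega
  let Θ : (Tri s → ℝ) →ₗ[ℝ] (V × Fin (s + 1) → ℝ) :=
    { toFun := fun c p => (Q c p.1).coeff p.2
      map_add' := by
        intro a b; funext p
        simp [Q, add_mul, sum_add_distrib]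
      map_smul' := by
        intro a b; funext p
        simp [Q, mul_assoc, mul_sum] }
  have hp : ∀ c v, pz (Θ c) v = Q c v := by
    intro c v
    rw [(Q c v).as_sum_range_C_mul_X_pow' (Nat.lt_succ_of_le (hQ c v)),
      ← Fin.sum_univ_eq_sum_range (fun i => C ((Q c v).coeff i) * X ^ i)]
    rfl
  have hmem : ∀ c, Θ c ∈ LinearMap.ker (cm s (⊤ : SimpleGraph V) x y).mulVecLin := by
    intro c
    rw [ker_iff _ _ _ fun u v h h' => h.ne (hx h')]
    intro u v huv
    have hd : x u - x v ≠ 0 := sub_ne_zero.2 fun h' => huv.ne (hx h')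
    have : x u * ((y u - y v) / (x u - x v)) - y u = x v * ((y u - y v) / (x u - x v)) - y v := by
      field_simp; ring
    simp [hp, Q, eval_finsetSum, this]
  have := LinearMap.finrank_le_finrank_of_injective (f := Θ.codRestrict _ hmem) (by
    rw [← LinearMap.ker_eq_bot, LinearMap.ker_eq_bot']
    intro c hc
    have h0 : Θ c = 0 := congrArg Subtype.val hc
    have h1 : ∀ v, Q c v = 0 := fun v => by rw [← hp, h0]; simp [pz]
    let Ψ : ℝ[X][X] := ∑ t : Tri s, C (C (c t) * X ^ (t.2 : ℕ)) * X ^ (t.1 : ℕ)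
    have h2 : Ψ = 0 := by
      refine eq_zero_of_natDegree_lt_card_of_eval_eq_zero _
        (f := fun v : V => C (x v) * X - C (y v)) ?_ ?_ ?_
      · intro a b hab
        have := congrArg (fun p => p.coeff 1) hab
        simp only [coeff_sub, coeff_C_mul, coeff_X_one, mul_one, coeff_C, one_ne_zero,
          if_false, sub_zero] at this
        exact hx this
      · intro v
        rw [← h1 v]
        simp only [Ψ, Q, eval_finsetSum, eval_mul, eval_C, eval_pow, eval_X]
      · refine lt_of_le_of_lt (natDegree_sum_le_of_forall_le _ _ fun t _ =>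
          (natDegree_C_mul_X_pow_le _ _).trans (Nat.lt_succ_iff.1 t.1.2)) hN
    funext t
    have h3 := congrArg (fun p : ℝ[X][X] => (p.coeff t.1).coeff t.2) h2
    simp only [Ψ, finsetSum_coeff, coeff_C_mul_X_pow, coeff_zero] at h3
    rw [sum_eq_single t] at h3
    · simpa [coeff_C_mul_X_pow] using h3
    · intro t' _ ht
      split_ifs with a1
      · rw [coeff_C_mul_X_pow]
        exact if_neg fun a2 => ht (tri_ext _ _ a1 a2).symm
      · simp
    · simp)
  rwa [finrank_fintype_fun_eq_card, card_tri] at this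

end Pool.Agent.H24.Cof
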