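import Mathlib
import Pool.Agent.H24.Cof3

namespace Pool.Agent.H24.Cof

open Finset Polynomial Module Topology

theorem lsc {ι κ : Type} [Fintype ι] [Fintype κ] (A : ℝ → Matrix ι κ ℝ)
    (hA : ∀ i j, Continuous fun t => A t i j) : ∀ᶠ t in 𝓝 (0 : ℝ), (A 0).rank ≤ (A t).rank := by
  obtain ⟨μ, a, ha, hsp, hli⟩ := exists_linearIndependent' ℝ (A 0).col
  have : Finite μ := Finite.of_injective a ha
  have := Fintype.ofFinite μ
  have hc : Continuous fun t => (A t).col ∘ a :=
    continuous_pi fun k => continuous_pi fun i => hA i (a k)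
  filter_upwards [(hc.tendsto 0).eventually hli.eventually] with t ht
  rw [Matrix.rank_eq_finrank_span_cols, Matrix.rank_eq_finrank_span_cols, ← hsp,
    finrank_span_eq_card hli, ← finrank_span_eq_card ht]
  exact Submodule.finrank_mono (Submodule.span_mono (Set.range_comp_subset_range _ _))

theorem top_le {V : Type} [Fintype V] [DecidableEq V] (s : ℕ) (x y : V → ℝ)
    (hN : s + 1 ≤ Fintype.card V) :
    (cm s (⊤ : SimpleGraph V) x y).rank + (s + 2).choose 2 ≤ Fintype.card V * (s + 1) := by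
  classical
  let e := Fintype.equivFin V
  let d : V → ℝ := fun v => ((e v : ℕ) : ℝ)
  have hd : Function.Injective d := fun u v h => e.injective (Fin.ext (Nat.cast_injective h))
  have h1 := lsc (fun t => cm s (⊤ : SimpleGraph V) (fun v => x v + t * d v) y) (by
    intro i j
    simp only [cm, Matrix.of_apply]
    split_ifs <;> fun_prop)
  have h2 : Dense (Set.range fun p : V × V => (x p.2 - x p.1) / (d p.1 - d p.2))ᶜ :=
    (Set.finite_range _).countable.dense_compl ℝ
  obtain ⟨t, ht, ht'⟩ := h2.inter_nhds_nonempty h1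
  have h3 : Function.Injective fun v => x v + t * d v := by
    intro u v h
    by_contra huv
    refine ht ⟨(u, v), ?_⟩
    have : d u - d v ≠ 0 := sub_ne_zero.2 fun h' => huv (hd h')
    simp only at h ⊢
    rw [div_eq_iff this]
    linarith
  have h4 := complete_ge s _ y h3 hN
  have h5 := rank_ker (s := s) (⊤ : SimpleGraph V) (fun v => x v + t * d v) y
  simp only [Set.mem_ofPred_eq, zero_mul, add_zero] at ht'
  have h6 : (cm s (⊤ : SimpleGraph V) x y).rank ≤ _ := ht'
  omega

theorem bip_le (s m n : ℕ) (x y : Fin m ⊕ Fin n → ℝ) :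
    (cm s (completeBipartiteGraph (Fin m) (Fin n)) x y).rank ≤ m * n := by
  set A := cm s (completeBipartiteGraph (Fin m) (Fin n)) x y with hA
  rw [Matrix.rank_eq_finrank_span_row]
  have h1 := finrank_range_le_card (R := ℝ)
    (fun p : Fin m × Fin n => A.row (Sum.inl p.1, Sum.inr p.2))
  simp only [Fintype.card_prod, Fintype.card_fin] at h1
  refine le_trans (Submodule.finrank_mono (Submodule.span_le.2 ?_)) h1
  rintro _ ⟨⟨u, v⟩, rfl⟩
  rcases u with u | u <;> rcases v with v | v
  · have : A.row (Sum.inl u, Sum.inl v) = 0 := by funext c; simp [hA, cm, Matrix.row]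
    rw [this]; exact Submodule.zero_mem _
  · exact Submodule.subset_span ⟨(u, v), rfl⟩
  · have : A.row (Sum.inr u, Sum.inl v) = (-(-1 : ℝ) ^ s) • A.row (Sum.inl v, Sum.inr u) := by
      funext c
      have key : ∀ a b : ℝ, a ^ (s - (c.2 : ℕ)) * b ^ (c.2 : ℕ) =
          (-1) ^ s * ((-a) ^ (s - (c.2 : ℕ)) * (-b) ^ (c.2 : ℕ)) := by
        intro a b
        obtain ⟨d, hd'⟩ := Nat.exists_eq_add_of_le (Nat.lt_succ_iff.1 c.2.2)
        generalize (c.2 : ℕ) = j at *
        subst hd'
        rw [Nat.add_sub_cancel_left, neg_pow a, neg_pow b, pow_add]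
        have e1 : ((-1 : ℝ) ^ j) * (-1) ^ j = 1 := by rw [← mul_pow]; simp
        have e2 : ((-1 : ℝ) ^ d) * (-1) ^ d = 1 := by rw [← mul_pow]; simp
        linear_combination (-(a ^ d * b ^ j) * ((-1) ^ d * (-1) ^ d)) * e1 - a ^ d * b ^ j * e2
      have k2 := key (x (Sum.inr u) - x (Sum.inl v)) (y (Sum.inr u) - y (Sum.inl v))
      rw [neg_sub, neg_sub] at k2
      simp only [hA, cm, Matrix.row, Matrix.of_apply, Pi.smul_apply, smul_eq_mul,
        completeBipartiteGraph_adj, Sum.isLeft_inl, Sum.isRight_inr, Sum.isLeft_inr,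
        Sum.isRight_inl, and_self, or_true, true_or, if_true]
      by_cases a1 : c.1 = Sum.inr u
      · simp [a1, k2]
      · by_cases a2 : c.1 = Sum.inl v
        · simp [a2, k2]
        · simp [a1, a2]
    rw [this]
    exact Submodule.smul_mem _ _ (Submodule.subset_span ⟨(v, u), rfl⟩)
  · have : A.row (Sum.inr u, Sum.inr v) = 0 := by funext c; simp [hA, cm, Matrix.row]
    rw [this]; exact Submodule.zero_mem _

theorem vand (n D : ℕ) (a : Fin n → ℝ) (h : ∀ l < D, ∑ j : Fin n, ((j : ℕ) : ℝ) ^ l * a j = 0)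
    (h0 : ∀ j : Fin n, (j : ℕ) + D < n → a j = 0) : ∀ j, a j = 0 := by
  classical
  intro j0
  by_cases hj : (j0 : ℕ) + D < n
  · exact h0 j0 hj
  set S := (univ.filter fun j : Fin n => ¬ (j : ℕ) + D < n).erase j0 with hS
  set q : ℝ[X] := ∏ j ∈ S, (X - C ((j : ℕ) : ℝ)) with hq
  have hc : (univ.filter fun j : Fin n => ¬ (j : ℕ) + D < n).card ≤ D := by
    have := card_le_card_of_injOn (s := univ.filter fun j : Fin n => ¬ (j : ℕ) + D < n)
      (t := range D) (fun j => j + D - n) (by
        intro j hj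
        have := j.2
        simp only [coe_filter, mem_univ, true_and, Set.mem_ofPred_eq, coe_range,
          Set.mem_Iio] at hj ⊢
        omega) (by
        intro i hi j hj hij
        simp only [coe_filter, mem_univ, true_and, Set.mem_ofPred_eq] at hi hj hij
        exact Fin.ext (by omega))
    simpa using this
  have hmem : j0 ∈ univ.filter fun j : Fin n => ¬ (j : ℕ) + D < n := by simpa using hj
  have hdeg : q.natDegree < D := by
    rw [hq, natDegree_finsetProd_X_sub_C_eq_card, hS, card_erase_of_mem hmem]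
    have := card_pos.2 ⟨_, hmem⟩
    omega
  have h1 : ∑ j : Fin n, q.eval ((j : ℕ) : ℝ) * a j = 0 := by
    simp only [eval_eq_sum_range' hdeg, sum_mul]
    rw [sum_comm]
    refine sum_eq_zero fun l hl => ?_
    simp only [mul_assoc, ← mul_sum]
    rw [h l (mem_range.1 hl), mul_zero]
  rw [sum_eq_single j0] at h1
  · refine (mul_eq_zero.1 h1).resolve_left ?_
    rw [hq, eval_prod]
    refine prod_ne_zero_iff.2 fun j hj' => ?_
    simp only [eval_sub, eval_X, eval_C]
    exact sub_ne_zero.2 fun h' => (mem_erase.1 hj').1 (Fin.ext (Nat.cast_injective h'.symm))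
  · intro j _ hj'
    by_cases h2 : (j : ℕ) + D < n
    · rw [h0 j h2, mul_zero]
    · rw [hq, eval_prod, prod_eq_zero (i := j) (by simp [hS, hj']; omega) (by simp), zero_mul]
  · simp

theorem bip_ker (s m b : ℕ) (hb : 0 < b) (hm : st b (s + 1) ≤ m * b) :
    ∃ x y : Fin m ⊕ Fin (s + 1 + b) → ℝ, finrank ℝ (LinearMap.ker
      (cm s (completeBipartiteGraph (Fin m) (Fin (s + 1 + b))) x y).mulVecLin) ≤
        (s + 2).choose 2 := by
  classical
  obtain ⟨α, β, hβ, H⟩ := birk s b hb m hm
  refine ⟨Sum.elim (fun i => 1 / β i) (fun _ => 0),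
    Sum.elim (fun i => α i / β i) (fun j => -((j : ℕ) : ℝ)), ?_⟩
  refine ker_le _ (fun t => LinearMap.proj
    (Sum.inr ⟨t.2, by have := t.2.2; omega⟩, t.1)) fun z hz h => ?_
  rw [ker_iff _ _ _ (by
    rintro (u | u) (v | v) huv
    · simp at huv
    · simpa using hβ u
    · simpa [eq_comm] using hβ v
    · simp at huv)] at hz
  have hz' : ∀ (i : Fin m) (j : Fin (s + 1 + b)),
      (pz z (Sum.inl i)).eval (α i + β i * (j : ℕ)) =
        (pz z (Sum.inr j)).eval (α i + β i * (j : ℕ)) := by
    intro i j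
    have h1 := hz (Sum.inl i) (Sum.inr j) (by simp)
    have h2 : (α i / β i - -((j : ℕ) : ℝ)) / (1 / β i - 0) = α i + β i * (j : ℕ) := by
      have := hβ i
      field_simp; ring
    simp only [Sum.elim_inl, Sum.elim_inr] at h1
    rwa [h2] at h1
  let P : Fin (s + 1 + b) → ℝ := fun j => ∏ k ∈ univ.erase j, (((j : ℕ) : ℝ) - ((k : ℕ) : ℝ))
  have hP : ∀ j, P j ≠ 0 := fun j => prod_ne_zero_iff.2 fun k hk =>
    sub_ne_zero.2 fun h' => (mem_erase.1 hk).1 (Fin.ext (Nat.cast_injective h'.symm))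
  have hw : ∀ p : ℝ[X], p.natDegree < s + b →
      ∑ j : Fin (s + 1 + b), p.eval ((j : ℕ) : ℝ) / P j = 0 := by
    intro p hp
    have := Lagrange.coeff_eq_sum (s := (univ : Finset (Fin (s + 1 + b))))
      (v := fun j => ((j : ℕ) : ℝ)) (fun a _ c _ h' => Fin.ext (Nat.cast_injective h')) (P := p)
      (lt_of_le_of_lt degree_le_natDegree (by
        simp only [card_univ, Fintype.card_fin]; exact_mod_cast (by omega)))
    rw [coeff_eq_zero_of_natDegree_lt (by simp only [card_univ, Fintype.card_fin]; omega)] at this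
    exact this.symm
  have hg := H (fun r l => ∑ j : Fin (s + 1 + b),
      ((j : ℕ) : ℝ) ^ l * ((pz z (Sum.inr j)).coeff r / P j)) (by
    intro i hi e he
    rw [← hw (X ^ e * (pz z (Sum.inl ⟨i, hi⟩)).comp (C (α i) + C (β i) * X)) (by
      refine lt_of_le_of_lt natDegree_mul_le ?_
      have h1 : (C (α i) + C (β i) * X).natDegree ≤ 1 := by compute_degree
      have h2 := (natDegree_comp_le (p := pz z (Sum.inl ⟨i, hi⟩))
        (q := C (α i) + C (β i) * X)).trans (Nat.mul_le_mul (pz_deg z _) h1)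
      rw [natDegree_X_pow]
      omega)]
    simp only [mul_sum]
    simp_rw [sum_comm (t := (univ : Finset (Fin (s + 1 + b))))]
    refine sum_congr rfl fun j _ => ?_
    simp only [eval_mul, eval_pow, eval_X, eval_comp, eval_add, eval_C]
    rw [hz' ⟨i, hi⟩ j, eval_eq_sum_range' (Nat.lt_succ_of_le (pz_deg z _)), mul_sum, sum_div]
    refine sum_congr rfl fun r _ => ?_
    rw [add_comm (α i), add_pow, mul_sum, mul_sum, sum_div]
    exact sum_congr rfl fun c _ => by ring)
  have hr : ∀ j, pz z (Sum.inr j) = 0 := by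
    intro j
    have : ∀ r : Fin (s + 1), z (Sum.inr j, r) = 0 := by
      intro r
      have hr2 := r.2
      have h1 := vand (s + 1 + b) (b + r) (fun j => (pz z (Sum.inr j)).coeff r / P j)
        (fun l hl => hg r (by omega) l hl) (fun k hk => by
          have h2 := h ⟨r, ⟨k, by omega⟩⟩
          simp only [LinearMap.proj_apply, Fin.eta] at h2
          rw [pz_coeff, h2, zero_div]) j
      rw [pz_coeff] at h1
      exact (div_eq_zero_iff.1 h1).resolve_right (hP j)
    simp [pz, this]
  refine pz_zero z ?_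
  rintro (i | j)
  · refine eq_zero_of_natDegree_lt_card_of_eval_eq_zero _
      (f := fun j : Fin (s + 1 + b) => α i + β i * (j : ℕ)) ?_ (fun j => by rw [hz', hr, eval_zero])
      (by have := pz_deg z (Sum.inl i); simp only [Fintype.card_fin]; omega)
    intro a c hac
    exact Fin.ext (Nat.cast_injective (mul_left_cancel₀ (hβ i) (add_left_cancel hac)))
  · exact hr j

theorem st_eq (b r : ℕ) : 2 * st b r + r = 2 * r * b + r * r := by
  induction r with
  | zero => simp [st]
  | succ r ih => rw [st_succ]; nlinarith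

theorem main (s m n : ℕ) (hs : 1 ≤ s) (hmn : s + 2 ≤ m + n) :
    (∃ x y : (Fin m ⊕ Fin n) → ℝ, ∀ x' y' : (Fin m ⊕ Fin n) → ℝ,
      (cm s ⊤ x' y').rank ≤ (cm s (completeBipartiteGraph (Fin m) (Fin n)) x y).rank) ↔
      (((s : ℤ) + 1) * ((m : ℤ) + (n : ℤ)) - (((s + 2).choose 2 : ℕ) : ℤ) ≤ (m : ℤ) * (n : ℤ)) := by
  have hc : Fintype.card (Fin m ⊕ Fin n) = m + n := by simp
  constructor
  · rintro ⟨x, y, h⟩
    have h1 := complete_le s (m + n) finSumFinEquiv (by omega)
    have h2 := rank_ker (s := s) (⊤ : SimpleGraph (Fin m ⊕ Fin n))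
      (fun v => ((finSumFinEquiv v : ℕ) : ℝ)) (fun v => ((finSumFinEquiv v : ℕ) : ℝ) ^ 2)
    have h3 := (h (fun v => ((finSumFinEquiv v : ℕ) : ℝ))
      (fun v => ((finSumFinEquiv v : ℕ) : ℝ) ^ 2)).trans (bip_le s m n x y)
    rw [hc] at h2
    have h4 : (m + n) * (s + 1) ≤ m * n + (s + 2).choose 2 := by omega
    zify at h4
    linarith
  · intro h
    have h2 : 2 * (s + 2).choose 2 = (s + 2) * (s + 1) := by
      rw [Nat.choose_two_right]
      exact Nat.mul_div_cancel' (Nat.even_mul_pred_self (s + 2)).two_dvd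
    zify at h2 hs hmn
    have hn : s + 1 < n := by
      by_contra hn
      have hn' : (n : ℤ) ≤ s + 1 := by exact_mod_cast not_lt.1 hn
      rcases le_total (m : ℤ) (s + 1) with hm | hm
      · nlinarith [mul_nonneg (sub_nonneg.2 hm) (sub_nonneg.2 hn'), sq_nonneg ((m : ℤ) - n),
          mul_nonneg (sub_nonneg.2 hmn) (add_nonneg (sub_nonneg.2 hm) (sub_nonneg.2 hn'))]
      · nlinarith [mul_nonneg (sub_nonneg.2 hm) (sub_nonneg.2 hn')]
    obtain ⟨b, rfl⟩ : ∃ b, n = s + 1 + b := ⟨n - (s + 1), by omega⟩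
    obtain ⟨x, y, hxy⟩ := bip_ker s m b (by omega) (by
      have h3 := st_eq b (s + 1)
      zify at h3 ⊢
      push_cast at h
      nlinarith)
    refine ⟨x, y, fun x' y' => ?_⟩
    have h4 := top_le s x' y' (by rw [hc]; omega)
    have h5 := rank_ker (s := s) (completeBipartiteGraph (Fin m) (Fin (s + 1 + b))) x y
    omega

end Pool.Agent.H24.Cof
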