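import Mathlib

/-! Cops and robbers with explicit strategies. -/

namespace Pool.Agent.H24.Cops

variable {V : Type}

/-- Positions of the `k` cops after `t` cop turns. `c₀` is the initial placement and the
strategy `σ` maps the list `[r 0, …, r t]` of robber positions seen so far to the positions
after cop turn number `t + 1`. -/
def copPos {k : ℕ} (c₀ : Fin k → V) (σ : List V → Fin k → V) (r : ℕ → V) : ℕ → Fin k → V
  | 0 => c₀
  | t + 1 => σ ((List.range (t + 1)).map r)

/-- `k` cops have a winning strategy in the game where a single move from `a` to `b` is allowed
exactly when `M a b`. The cops are placed, the robber picks `r 0`, and then the cops and the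
robber move alternately, cops first; `r t` is the robber's vertex after `t` robber turns.
The strategy must make legal moves, and against every legal robber play some cop is at some moment
on the robber's vertex (after a robber move or placement, or after a cop move). -/
def CopsWin (M : V → V → Prop) (k : ℕ) : Prop :=
  ∃ (c₀ : Fin k → V) (σ : List V → Fin k → V), ∀ r : ℕ → V, (∀ t, M (r t) (r (t + 1))) →
    (∀ t i, M (copPos c₀ σ r t i) (copPos c₀ σ r (t + 1) i)) ∧
    ∃ t i, copPos c₀ σ r t i = r t ∨ copPos c₀ σ r (t + 1) i = r t

/-- The usual cop number: every player moves along an edge or stays. -/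
noncomputable def copNumber (G : SimpleGraph V) : ℕ :=
  sInf {k : ℕ | CopsWin (fun a b => a = b ∨ G.Adj a b) k}

/-- The fully active cop number: every player must move along an edge. -/
noncomputable def activeCopNumber (G : SimpleGraph V) : ℕ :=
  sInf {k : ℕ | CopsWin G.Adj k}

end Pool.Agent.H24.Cops
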