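import Mathlib
import Pool.Agent.H24.CopsDefs

namespace Pool.Agent.H24.Cops

variable {V : Type}

/-- positions obtained from a memoryless move rule, on the reversed history -/
def run {k : ℕ} (c₀ : Fin k → V) (mv : (Fin k → V) → V → Fin k → V) (l : List V) : Fin k → V :=
  l.foldl mv c₀

theorem copPos_run {k : ℕ} (c₀ : Fin k → V) (mv : (Fin k → V) → V → Fin k → V) (r : ℕ → V)
    (t : ℕ) : copPos c₀ (run c₀ mv) r (t + 1) = mv (copPos c₀ (run c₀ mv) r t) (r t) := by
  cases t with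
  | zero => simp [copPos, run]
  | succ t =>
    simp only [copPos, run]
    rw [List.range_succ (n := t + 1), List.map_append, List.foldl_append]
    simp

theorem win_of_rank {M : V → V → Prop} {k : ℕ} (c₀ : Fin k → V)
    (mv : (Fin k → V) → V → Fin k → V) (Good : (Fin k → V) → V → Prop)
    (rank : (Fin k → V) → V → ℕ) (hlegal : ∀ c r i, M (c i) (mv c r i))
    (h0 : ∀ r, Good c₀ r)
    (hstep : ∀ c r, Good c r → (∃ i, c i = r ∨ mv c r i = r) ∨
      ∀ r', M r r' → Good (mv c r) r' ∧ rank (mv c r) r' < rank c r) : CopsWin M k := by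
  refine ⟨c₀, run c₀ mv, fun r hr => ⟨fun t i => ?_, ?_⟩⟩
  · rw [copPos_run]; exact hlegal _ _ _
  · by_contra hno
    push Not at hno
    have key : ∀ t, Good (copPos c₀ (run c₀ mv) r t) (r t) ∧
        rank (copPos c₀ (run c₀ mv) r t) (r t) + t ≤ rank c₀ (r 0) := by
      intro t
      induction t with
      | zero => exact ⟨h0 _, by simp [copPos]⟩
      | succ t ih =>
        rcases hstep _ _ ih.1 with ⟨i, h⟩ | h
        · rw [← copPos_run c₀ mv r t] at h
          rcases h with h | h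
          · exact absurd h (hno t i).1
          · exact absurd h (hno t i).2
        · obtain ⟨h1, h2⟩ := h _ (hr t)
          rw [← copPos_run c₀ mv r t] at h1 h2
          exact ⟨h1, by omega⟩
    have := (key (rank c₀ (r 0) + 1)).2
    omega

/-- the robber's history (oldest first) and the cops' positions -/
noncomputable def play {k : ℕ} (c₀ : Fin k → V) (σ : List V → Fin k → V) (r₀ : V)
    (nx : (Fin k → V) → V → (Fin k → V) → V) : ℕ → List V × V × (Fin k → V)
  | 0 => ([r₀], r₀, c₀)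
  | t + 1 =>
    let s := play c₀ σ r₀ nx t
    (s.1 ++ [nx s.2.2 s.2.1 (σ s.1)], nx s.2.2 s.2.1 (σ s.1), σ s.1)

theorem play_hist {k : ℕ} (c₀ : Fin k → V) (σ : List V → Fin k → V) (r₀ : V)
    (nx : (Fin k → V) → V → (Fin k → V) → V) (t : ℕ) :
    (play c₀ σ r₀ nx t).1 = (List.range (t + 1)).map (fun t => (play c₀ σ r₀ nx t).2.1) := by
  induction t with
  | zero => simp [play]
  | succ t ih =>
    rw [List.range_succ (n := t + 1), List.map_append, ← ih]
    simp [play]

theorem play_cop {k : ℕ} (c₀ : Fin k → V) (σ : List V → Fin k → V) (r₀ : V)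
    (nx : (Fin k → V) → V → (Fin k → V) → V) (t : ℕ) :
    copPos c₀ σ (fun t => (play c₀ σ r₀ nx t).2.1) t = (play c₀ σ r₀ nx t).2.2 := by
  cases t with
  | zero => simp [play, copPos]
  | succ t => simp only [copPos]; rw [← play_hist]; simp [play]

theorem copPos_congr {k : ℕ} (c₀ : Fin k → V) (σ : List V → Fin k → V) (r r' : ℕ → V) (t : ℕ)
    (h : ∀ s < t, r s = r' s) : copPos c₀ σ r t = copPos c₀ σ r' t := by
  cases t with
  | zero => rfl
  | succ t =>
    simp only [copPos]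
    congr 1
    apply List.map_congr_left
    intro s hs
    exact h s (List.mem_range.1 hs)

theorem not_win_of_safe {M : V → V → Prop} {k : ℕ} (hM : ∀ a, ∃ b, M a b)
    (Safe : (Fin k → V) → V → Prop) (h0 : ∀ c, ∃ r, Safe c r)
    (hs : ∀ c r, Safe c r → ∀ i, c i ≠ r)
    (hstep : ∀ c r c', Safe c r → (∀ i, M (c i) (c' i)) →
      (∀ i, c' i ≠ r) ∧ ∃ r', M r r' ∧ Safe c' r') : ¬ CopsWin M k := by
  classical
  rintro ⟨c₀, σ, h⟩
  obtain ⟨r₀, hr₀⟩ := h0 c₀
  have hnx : ∀ (c : Fin k → V) (r : V) (c' : Fin k → V), ∃ r', M r r' ∧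
      (Safe c r → (∀ i, M (c i) (c' i)) → Safe c' r') := by
    intro c r c'
    by_cases hc : Safe c r ∧ ∀ i, M (c i) (c' i)
    · obtain ⟨r', h1, h2⟩ := (hstep c r c' hc.1 hc.2).2
      exact ⟨r', h1, fun _ _ => h2⟩
    · obtain ⟨b, hb⟩ := hM r
      exact ⟨b, hb, fun h1 h2 => absurd ⟨h1, h2⟩ hc⟩
  choose nx hnx1 hnx2 using hnx
  set r : ℕ → V := fun t => (play c₀ σ r₀ nx t).2.1 with hr
  have hleg : ∀ t, M (r t) (r (t + 1)) := fun t => by
    simp only [hr, play]
    exact hnx1 _ _ _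
  obtain ⟨hc, t, i, hcap⟩ := h r hleg
  have hsafe : ∀ t, Safe (copPos c₀ σ r t) (r t) := by
    intro t
    induction t with
    | zero => simpa [hr, play, copPos] using hr₀
    | succ t ih =>
      have e1 : r (t + 1) = nx (copPos c₀ σ r t) (r t) (copPos c₀ σ r (t + 1)) := by
        rw [hr, play_cop, play_cop]
        simp [play]
      rw [e1]
      exact hnx2 _ _ _ ih (hc t)
  rcases hcap with hcap | hcap
  · exact hs _ _ (hsafe t) i hcap
  · exact (hstep _ _ _ (hsafe t) (hc t)).1 i hcap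

theorem win_mono {M : V → V → Prop} {k l : ℕ} (hM : ∀ a, ∃ b, M a b) (v : V)
    (hkl : k ≤ l) (h : CopsWin M k) : CopsWin M l := by
  classical
  choose f hf using hM
  obtain ⟨c₀, σ, h⟩ := h
  refine ⟨fun i => if hi : i.val < k then c₀ ⟨i, hi⟩ else v,
    fun L i => if hi : i.val < k then σ L ⟨i, hi⟩ else f^[L.length] v, fun r hr => ?_⟩
  obtain ⟨h1, t, i, h2⟩ := h r hr
  have e : ∀ t (i : Fin l), copPos (fun i : Fin l => if hi : i.val < k then c₀ ⟨i, hi⟩ else v)
      (fun L i => if hi : i.val < k then σ L ⟨i, hi⟩ else f^[L.length] v) r t i =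
      if hi : i.val < k then copPos c₀ σ r t ⟨i, hi⟩ else f^[t] v := by
    intro t i
    cases t <;> simp [copPos]
  refine ⟨fun t i => ?_, t, ⟨i, lt_of_lt_of_le i.2 hkl⟩, ?_⟩
  · rw [e, e]
    split_ifs with hi
    · exact h1 t _
    · rw [Function.iterate_succ_apply']; exact hf _
  · rw [e, e]
    simpa using h2

theorem win_card {n : ℕ} {M : Fin n → Fin n → Prop} (hM : ∀ a, ∃ b, M a b) : CopsWin M n := by
  classical
  choose f hf using hM
  exact win_of_rank id (fun c _ i => f (c i)) (fun c _ => c = id) (fun _ _ => 0)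
    (fun c r i => hf _) (fun _ => rfl) (fun c r h => Or.inl ⟨r, Or.inl (by simp [h])⟩)

theorem lt_sInf {n : ℕ} {M : Fin n → Fin n → Prop} (hM : ∀ a, ∃ b, M a b) (v : Fin n) {k : ℕ}
    (h : ¬ CopsWin M k) : k < sInf {k : ℕ | CopsWin M k} := by
  by_contra hk
  have hmem : sInf {k : ℕ | CopsWin M k} ∈ {k : ℕ | CopsWin M k} :=
    Nat.sInf_mem ⟨n, win_card hM⟩
  exact h (win_mono hM v (not_lt.1 hk) hmem)

end Pool.Agent.H24.Cops
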