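import Mathlib

set_option autoImplicit false

namespace Pool.Agent.H24.Crit

open Finset Classical

variable {V : Type} [Fintype V] [DecidableEq V] (G : SimpleGraph V) (k : ℕ)

noncomputable def N (A : Finset V) : Finset V := univ.filter (fun v => v ∉ A ∧ ∃ a ∈ A, G.Adj a v)

noncomputable def B (A : Finset V) : Finset V := univ.filter (fun v => v ∉ A ∧ v ∉ N G A)

def Conn : Prop := ∀ A : Finset V, A.Nonempty → (B G A).Nonempty → k ≤ (N G A).card

def Frag (A : Finset V) : Prop := A.Nonempty ∧ (B G A).Nonempty ∧ (N G A).card = k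

variable {G k}

theorem mem_N {A : Finset V} {v : V} : v ∈ N G A ↔ v ∉ A ∧ ∃ a ∈ A, G.Adj a v := by simp [N]

theorem mem_B {A : Finset V} {v : V} : v ∈ B G A ↔ v ∉ A ∧ v ∉ N G A := by simp [B]

theorem N_of_sub {A C : Finset V} (h : A ⊆ C) {v : V} (hv : v ∈ N G A) (hv' : v ∉ C) :
    v ∈ N G C := by
  obtain ⟨_, a, ha, hav⟩ := mem_N.1 hv
  exact mem_N.2 ⟨hv', a, h ha, hav⟩

theorem N_sub {A C : Finset V} (h : A ⊆ C) : N G A ⊆ C ∪ N G C := by
  intro v hv
  by_cases hv' : v ∈ C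
  · exact mem_union_left _ hv'
  · exact mem_union_right _ (N_of_sub h hv hv')

theorem B_anti {A C : Finset V} (h : A ⊆ C) : B G C ⊆ B G A := by
  intro v hv
  obtain ⟨h1, h2⟩ := mem_B.1 hv
  exact mem_B.2 ⟨fun h3 => h1 (h h3), fun h3 => h2 (N_of_sub h h3 h1)⟩

theorem N_union {A C : Finset V} {v : V} :
    v ∈ N G (A ∪ C) ↔ (v ∈ N G A ∨ v ∈ N G C) ∧ v ∉ A ∧ v ∉ C := by
  simp only [mem_N, mem_union]
  constructor
  · rintro ⟨h, a, ha | ha, hv⟩
    · exact ⟨Or.inl ⟨fun h' => h (Or.inl h'), a, ha, hv⟩, not_or.1 h⟩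
    · exact ⟨Or.inr ⟨fun h' => h (Or.inr h'), a, ha, hv⟩, not_or.1 h⟩
  · rintro ⟨⟨_, a, ha, hv⟩ | ⟨_, a, ha, hv⟩, h⟩
    · exact ⟨not_or.2 h, a, Or.inl ha, hv⟩
    · exact ⟨not_or.2 h, a, Or.inr ha, hv⟩

theorem sub_B_symm {A C : Finset V} (h : A ⊆ B G C) : C ⊆ B G A := by
  intro v hv
  refine mem_B.2 ⟨fun h1 => (mem_B.1 (h h1)).1 hv, fun h1 => ?_⟩
  obtain ⟨_, a, ha, hav⟩ := mem_N.1 h1
  obtain ⟨h2, h3⟩ := mem_B.1 (h ha)
  exact h3 (mem_N.2 ⟨h2, v, hv, hav.symm⟩)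

theorem card_three (A : Finset V) : Fintype.card V = A.card + (N G A).card + (B G A).card := by
  rw [← card_union_of_disjoint, ← card_union_of_disjoint, ← card_univ]
  · congr 1
    ext v
    simp only [mem_univ, mem_union, mem_B]
    tauto
  · rw [disjoint_right]
    intro v hv
    simpa [mem_B] using hv
  · rw [disjoint_right]
    intro v hv
    exact (mem_N.1 hv).1

theorem Frag.bar (hc : Conn G k) {A : Finset V} (h : Frag G k A) :
    Frag G k (B G A) ∧ N G (B G A) = N G A ∧ B G (B G A) = A := by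
  have h1 : A ⊆ B G (B G A) := sub_B_symm subset_rfl
  have h2 : N G (B G A) ⊆ N G A := by
    intro v hv
    by_contra h3
    by_cases h4 : v ∈ A
    · exact (mem_B.1 (h1 h4)).2 hv
    · exact (mem_N.1 hv).1 (mem_B.2 ⟨h4, h3⟩)
  have h3 := hc _ h.2.1 (h.1.mono h1)
  have h4 : N G (B G A) = N G A := eq_of_subset_of_card_le h2 (h.2.2 ▸ h3)
  refine ⟨⟨h.2.1, h.1.mono h1, h4 ▸ h.2.2⟩, h4, ?_⟩
  ext v
  rw [mem_B, h4, mem_B]
  have : v ∈ N G A → v ∉ A := fun h => (mem_N.1 h).1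
  tauto

theorem corner (hc : Conn G k) {A C : Finset V} (hA : Frag G k A) (hC : Frag G k C)
    (h1 : (A ∩ C).Nonempty) (h2 : (B G A ∩ B G C).Nonempty) :
    Frag G k (A ∪ C) ∧ Frag G k (A ∩ C) ∧ ∀ v, v ∈ N G (A ∩ C) ↔
      (v ∈ A ∧ v ∈ N G C) ∨ (v ∈ N G A ∧ v ∈ N G C) ∨ (v ∈ N G A ∧ v ∈ C) := by
  let X := univ.filter (fun v => (v ∈ A ∧ v ∈ N G C) ∨ (v ∈ N G A ∧ v ∈ N G C) ∨ (v ∈ N G A ∧ v ∈ C))
  have e1 : N G (A ∩ C) ⊆ X := by
    intro v hv
    have a1 := mem_union.1 (N_sub (inter_subset_left (s₂ := C)) hv)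
    have a2 := mem_union.1 (N_sub (inter_subset_right (s₁ := A)) hv)
    have a3 := (mem_N.1 hv).1
    simp only [X, mem_filter, mem_univ, true_and, mem_inter] at a3 ⊢
    tauto
  have nA : ∀ v, v ∈ N G A → v ∉ A := fun v h => (mem_N.1 h).1
  have nC : ∀ v, v ∈ N G C → v ∉ C := fun v h => (mem_N.1 h).1
  have e2 : X ∪ N G (A ∪ C) = N G A ∪ N G C := by
    ext v
    simp only [X, mem_filter, mem_univ, true_and, mem_union, N_union]
    have := nA v
    have := nC v
    tauto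
  have e3 : X ∩ N G (A ∪ C) = N G A ∩ N G C := by
    ext v
    simp only [X, mem_filter, mem_univ, true_and, mem_inter, N_union]
    have := nA v
    have := nC v
    tauto
  have e4 := card_union_add_card_inter X (N G (A ∪ C))
  have e5 := card_union_add_card_inter (N G A) (N G C)
  rw [e2, e3, e5, hA.2.2, hC.2.2] at e4
  have b1 : (B G (A ∪ C)).Nonempty := by
    obtain ⟨v, hv⟩ := h2
    simp only [mem_inter, mem_B] at hv
    refine ⟨v, mem_B.2 ?_⟩
    simp only [mem_union, N_union]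
    tauto
  have b2 : (B G (A ∩ C)).Nonempty := hA.2.1.mono (B_anti inter_subset_left)
  have c1 := hc _ (hA.1.mono subset_union_left) b1
  have c2 := hc _ h1 b2
  have c3 := card_le_card e1
  have c4 : N G (A ∩ C) = X := eq_of_subset_of_card_le e1 (by omega)
  refine ⟨⟨hA.1.mono subset_union_left, b1, by omega⟩, ⟨h1, b2, by omega⟩, fun v => ?_⟩
  rw [c4]
  simp [X]

theorem top_gen (p : Finset V → Prop) (hp : ∀ C C', p C → p C' → p (C ∪ C')) (h : ∃ C, p C) :
    ∃ C0, p C0 ∧ ∀ C, p C → C ⊆ C0 := by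
  obtain ⟨C0, h0, h1⟩ := (univ.filter p).exists_max_image card (by
    obtain ⟨C, hC⟩ := h; exact ⟨C, by simpa using hC⟩)
  have h0' : p C0 := by simpa using h0
  refine ⟨C0, h0', fun C hC => ?_⟩
  have := h1 (C ∪ C0) (by simpa using hp C C0 hC h0')
  have e := eq_of_subset_of_card_le (subset_union_right (s₁ := C)) this
  rw [e]
  exact subset_union_left

theorem bar_meet {A C : Finset V} (hA : Frag G k A) (hC : Frag G k C)
    (h : (A ∪ C).card + 2 * k < Fintype.card V) : (B G A ∩ B G C).Nonempty := by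
  obtain ⟨v, _, hv⟩ := exists_mem_notMem_of_card_lt_card (s := (A ∪ C) ∪ (N G A ∪ N G C))
    (t := univ) (by
      have := card_union_le (A ∪ C) (N G A ∪ N G C)
      have := card_union_le (N G A) (N G C)
      have := hA.2.2
      have := hC.2.2
      rw [card_univ]
      omega)
  refine ⟨v, ?_⟩
  simp only [mem_union, mem_inter, mem_B] at hv ⊢
  tauto

theorem top (hc : Conn G k) (Y : Finset V) (b : V) (hY : Y.card + 2 * k < Fintype.card V) :
    ∃ W : Finset V, W.card ≤ k ∧ ∀ C, Frag G k C → b ∈ C → C ⊆ Y → N G C ⊆ Y ∪ W := by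
  by_cases h : ∃ C, Frag G k C ∧ b ∈ C ∧ C ⊆ Y
  · obtain ⟨C0, h0, h1⟩ := top_gen _ (by
      rintro C C' ⟨h1, h2, h3⟩ ⟨h4, h5, h6⟩
      have := card_le_card (union_subset h3 h6)
      exact ⟨(corner hc h1 h4 ⟨b, mem_inter.2 ⟨h2, h5⟩⟩ (bar_meet h1 h4 (by omega))).1,
        mem_union_left _ h2, union_subset h3 h6⟩) h
    exact ⟨N G C0, h0.1.2.2.le, fun C a1 a2 a3 =>
      (N_sub (h1 C ⟨a1, a2, a3⟩)).trans (union_subset_union_left h0.2.2)⟩
  · exact ⟨∅, by simp, fun C a1 a2 a3 => absurd ⟨C, a1, a2, a3⟩ h⟩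

theorem sub_union (hc : Conn G k) {F A C : Finset V} (hF : Frag G k F) (hA : Frag G k A)
    (hC : Frag G k C) (h1 : A ⊆ F) (h2 : C ⊆ F) (h : (A ∩ C).Nonempty) : Frag G k (A ∪ C) :=
  (corner hc hA hC h (hF.2.1.mono (subset_inter (B_anti h1) (B_anti h2)))).1

variable (G k) in
structure Split (F D D' : Finset V) : Prop where
  f1 : Frag G k D
  f2 : Frag G k D'
  s1 : D ⊆ F
  s2 : D' ⊆ F
  sep : D' ⊆ B G D
  p1 : F \ (D ∪ D') ⊆ N G D
  p2 : F \ (D ∪ D') ⊆ N G D'
  cov : N G F ⊆ N G D ∪ N G D'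

theorem Split.symm {F D D' : Finset V} (h : Split G k F D D') : Split G k F D' D :=
  ⟨h.f2, h.f1, h.s2, h.s1, sub_B_symm h.sep, union_comm D D' ▸ h.p2, union_comm D D' ▸ h.p1,
    union_comm (N G D) (N G D') ▸ h.cov⟩

theorem Split.disj {F D D' : Finset V} (h : Split G k F D D') {v : V} (h1 : v ∈ D) (h2 : v ∈ D') :
    False := (mem_B.1 (h.sep h2)).1 h1

theorem Split.card_le {F D D' : Finset V} (h : Split G k F D D') : (F \ (D ∪ D')).card ≤ k :=
  h.f1.2.2 ▸ card_le_card h.p1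

theorem Split.big {F D D' : Finset V} (h : Split G k F D D') : F.card ≤ D.card + D'.card + k := by
  have := h.card_le
  have := card_union_le D D'
  have := le_card_sdiff (D ∪ D') F
  omega

theorem cross (hc : Conn G k) {F C : Finset V} (hF : Frag G k F) (hC : Frag G k C)
    (h1 : (F ∩ C).Nonempty) (h2 : (B G F ∩ B G C).Nonempty) (h3 : (F ∩ B G C).Nonempty)
    (h4 : (B G F ∩ C).Nonempty) : Split G k F (F ∩ C) (F ∩ B G C) := by
  obtain ⟨b1, b2, b3⟩ := hC.bar hc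
  obtain ⟨_, a1, a2⟩ := corner hc hF hC h1 h2
  obtain ⟨_, a3, a4⟩ := corner hc hF b1 h3 (by rw [b3]; exact h4)
  rw [b2] at a4
  refine ⟨a1, a3, inter_subset_left, inter_subset_left,
    inter_subset_right.trans (B_anti inter_subset_right), ?_, ?_, ?_⟩
  · intro v hv
    rw [a2]
    simp only [mem_sdiff, mem_union, mem_inter, mem_B] at hv
    tauto
  · intro v hv
    rw [a4]
    simp only [mem_sdiff, mem_union, mem_inter, mem_B] at hv
    tauto
  · intro v hv
    rw [mem_union, a2, a4, mem_B]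
    tauto

theorem Split.eq_of {F D D' A : Finset V} (h : Split G k F D D') (hF : Frag G k F)
    (hA : Frag G k A) (h1 : A ⊆ F) (h2 : D ⊆ A) (h3 : D' ⊆ A) : A = F := by
  refine Subset.antisymm h1 (fun x hx => ?_)
  by_contra hxA
  have e1 : insert x (N G F) ⊆ N G A := by
    intro v hv
    rcases mem_insert.1 hv with rfl | hv
    · refine N_of_sub h2 (h.p1 (mem_sdiff.2 ⟨hx, fun h4 => ?_⟩)) hxA
      exact hxA (union_subset h2 h3 h4)
    · have : v ∉ A := fun h4 => (mem_N.1 hv).1 (h1 h4)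
      rcases mem_union.1 (h.cov hv) with h4 | h4
      · exact N_of_sub h2 h4 this
      · exact N_of_sub h3 h4 this
  have e2 := card_le_card e1
  rw [card_insert_of_notMem (fun h4 => (mem_N.1 h4).1 hx), hF.2.2, hA.2.2] at e2
  omega

theorem Split.sub_of (hc : Conn G k) {F D D' C : Finset V} (h : Split G k F D D') (hF : Frag G k F)
    (hC : Frag G k C) (h1 : C ⊆ F) (h2 : (D ∩ C).Nonempty) (h3 : (D' ∩ C).Nonempty) :
    F \ (D ∪ D') ⊆ C := by
  have a1 := sub_union hc hF h.f1 hC h.s1 h1 h2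
  have a2 := sub_union hc hF h.f2 a1 h.s2 (union_subset h.s1 h1)
    (h3.mono (inter_subset_inter_left subset_union_right))
  have a3 := h.eq_of hF a2 (union_subset h.s2 (union_subset h.s1 h1))
    (subset_union_left.trans subset_union_right) subset_union_left
  intro v hv
  obtain ⟨b1, b2⟩ := mem_sdiff.1 hv
  rw [← a3] at b1
  simp only [mem_union] at b1 b2
  tauto

end Pool.Agent.H24.Crit
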