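import Pool.Agent.H24.Crit1

set_option autoImplicit false

namespace Pool.Agent.H24.Crit

open Finset Classical

variable {V : Type} [Fintype V] [DecidableEq V] {G : SimpleGraph V} {k : ℕ}

theorem room {F Y : Finset V} (hF : Frag G k F) (hB : k < (B G F).card) (hY : Y ⊆ F) :
    Y.card + 2 * k < Fintype.card V := by
  have := card_three (G := G) F
  have := card_le_card hY
  have := hF.2.2
  omega

theorem fat_half (hc : Conn G k) {F D D' : Finset V} (hF : Frag G k F) (hB : k < (B G F).card)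
    (h : Split G k F D D') {x : V} (hx : x ∈ F \ (D ∪ D')) :
    ∃ W : Finset V, W.card ≤ k ∧ ∀ E E', Split G k F E E' → x ∈ F \ (E ∪ E') → k < E.card →
      k < E'.card → ∀ z ∈ F \ (E ∪ E'), z ∈ D → z ∈ W := by
  obtain ⟨b, hb⟩ := h.f2.1
  obtain ⟨W, w1, w2⟩ := top hc (F \ D) b (room hF hB sdiff_subset)
  refine ⟨W, w1, ?_⟩
  have key : ∀ E E', Split G k F E E' → k < E.card → ¬ (E ∩ D).Nonempty →
      ∀ z ∈ F \ (E ∪ E'), z ∈ D → z ∈ W := by
    intro E E' hE h1 h2 z hz hzD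
    have a1 : E ⊆ F \ D := fun v hv => mem_sdiff.2 ⟨hE.s1 hv, fun h3 => h2 ⟨v, mem_inter.2 ⟨hv, h3⟩⟩⟩
    obtain ⟨v, hv, hv'⟩ := exists_mem_notMem_of_card_lt_card (s := F \ (D ∪ D')) (t := E)
      (lt_of_le_of_lt h.card_le h1)
    have a2 : v ∈ D' := by
      have := mem_sdiff.1 (a1 hv)
      simp only [mem_sdiff, mem_union] at hv'
      tauto
    have a3 := sub_union hc hF hE.f1 h.f2 hE.s1 h.s2 ⟨v, mem_inter.2 ⟨hv, a2⟩⟩
    have a4 := w2 _ a3 (mem_union_right _ hb) (union_subset a1 (fun v hv =>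
      mem_sdiff.2 ⟨h.s2 hv, fun h3 => h.disj h3 hv⟩))
    have a5 : z ∈ N G (E ∪ D') := N_union.2 ⟨Or.inl (hE.p1 hz),
      fun h3 => (mem_sdiff.1 hz).2 (mem_union_left _ h3), fun h3 => h.disj hzD h3⟩
    exact (mem_union.1 (a4 a5)).resolve_left (fun h3 => (mem_sdiff.1 h3).2 hzD)
  intro E E' hE h1 h2 h3 z hz hzD
  by_cases a1 : (E ∩ D).Nonempty
  · by_cases a2 : (E' ∩ D).Nonempty
    · exact absurd (hE.sub_of hc hF h.f1 h.s1 a1 a2 h1)
        (fun h4 => (mem_sdiff.1 hx).2 (mem_union_left _ h4))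
    · exact key E' E hE.symm h3 a2 z (union_comm E E' ▸ hz) hzD
  · exact key E E' hE h2 a1 z hz hzD

theorem fat (hc : Conn G k) {F : Finset V} (hF : Frag G k F) (hB : k < (B G F).card) (x : V) :
    ∃ Z : Finset V, Z.card ≤ 3 * k ∧ ∀ E E', Split G k F E E' → x ∈ F \ (E ∪ E') → k < E.card →
      k < E'.card → F \ (E ∪ E') ⊆ Z := by
  by_cases h : ∃ D D', Split G k F D D' ∧ x ∈ F \ (D ∪ D')
  · obtain ⟨D, D', h, hx⟩ := h
    obtain ⟨W, w1, w2⟩ := fat_half hc hF hB h hx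
    obtain ⟨W', w1', w2'⟩ := fat_half hc hF hB h.symm (union_comm D D' ▸ hx)
    refine ⟨(F \ (D ∪ D')) ∪ (W ∪ W'), ?_, ?_⟩
    · have := card_union_le (F \ (D ∪ D')) (W ∪ W')
      have := card_union_le W W'
      have := h.card_le
      omega
    · intro E E' hE h1 h2 h3 z hz
      have a1 := w2 E E' hE h1 h2 h3 z hz
      have a2 := w2' E E' hE h1 h2 h3 z hz
      have a3 := (mem_sdiff.1 hz).1
      simp only [mem_union, mem_sdiff]
      tauto
  · exact ⟨∅, by simp, fun E E' h1 h2 => absurd ⟨E, E', h1, h2⟩ h⟩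

theorem thin (hc : Conn G k) {F : Finset V} (hF : Frag G k F) (hB : k < (B G F).card)
    (hF4 : 4 * k < F.card) (b : V) :
    ∃ Z : Finset V, Z.card ≤ 3 * k ∧ ∀ D D', Split G k F D D' → (F \ (D ∪ D')).Nonempty →
      D'.card ≤ k → b ∈ D' → F \ (D ∪ D') ⊆ Z := by
  let p : Finset V × Finset V → Prop := fun q =>
    Split G k F q.1 q.2 ∧ (F \ (q.1 ∪ q.2)).Nonempty ∧ q.2.card ≤ k ∧ b ∈ q.2
  rcases (univ.filter p).eq_empty_or_nonempty with h | h
  · refine ⟨∅, by simp, fun D D' h1 h2 h3 h4 => ?_⟩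
    have : (D, D') ∈ univ.filter p := mem_filter.2 ⟨mem_univ _, h1, h2, h3, h4⟩
    simp [h] at this
  obtain ⟨⟨E, E'⟩, h0, hmax⟩ := exists_max_image _ (fun q : Finset V × Finset V => q.2.card) h
  obtain ⟨e1, e2, e3, e4⟩ := (mem_filter.1 h0).2
  simp only at e1 e2 e3 e4 hmax
  obtain ⟨W, w1, w2⟩ := top hc (F \ E) b (room hF hB sdiff_subset)
  refine ⟨(F \ E) ∪ W, ?_, ?_⟩
  · have a1 : F \ E ⊆ (F \ (E ∪ E')) ∪ E' := by
      intro v hv
      simp only [mem_sdiff, mem_union] at hv ⊢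
      tauto
    have := (card_le_card a1).trans (card_union_le _ _)
    have := card_union_le (F \ E) W
    have := e1.card_le
    omega
  intro D D' d1 d2 d3 d4
  refine d1.p2.trans (w2 D' d1.f2 d4 ?_)
  intro v hv
  refine mem_sdiff.2 ⟨d1.s2 hv, fun hvE => ?_⟩
  have a1 : (D ∩ E).Nonempty := by
    rw [← card_pos]
    have := card_union_add_card_inter D E
    have := card_le_card (union_subset d1.s1 e1.s1)
    have := d1.big
    have := e1.big
    omega
  have a2 := d1.sub_of hc hF e1.f1 e1.s1 a1 ⟨v, mem_inter.2 ⟨hv, hvE⟩⟩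
  have a3 : ¬ (D ∩ E').Nonempty := by
    intro h
    obtain ⟨u, hu⟩ := d2
    exact e1.disj (a2 hu) (d1.sub_of hc hF e1.f2 e1.s2 h ⟨b, mem_inter.2 ⟨d4, e4⟩⟩ hu)
  have a4 := e1.sub_of hc hF d1.f2 d1.s2 ⟨v, mem_inter.2 ⟨hvE, hv⟩⟩ ⟨b, mem_inter.2 ⟨e4, d4⟩⟩
  obtain ⟨u, hu⟩ := e2
  have a5 : insert u E' ⊆ D' := by
    refine insert_subset (a4 hu) (fun w hw => ?_)
    by_contra h
    refine e1.disj (a2 (mem_sdiff.2 ⟨e1.s2 hw, fun h1 => ?_⟩)) hw
    exact (mem_union.1 h1).elim (fun h2 => a3 ⟨w, mem_inter.2 ⟨h2, hw⟩⟩) h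
  have a6 := card_le_card a5
  rw [card_insert_of_notMem (fun h => (mem_sdiff.1 hu).2 (mem_union_right _ h))] at a6
  have := hmax (D, D') (mem_filter.2 ⟨mem_univ _, d1, d2, d3, d4⟩)
  simp only at this
  omega

theorem ends (hc : Conn G k) {F : Finset V} (hF : Frag G k F) (hF4 : 4 * k < F.card) :
    ∃ S : Finset V, S.card ≤ k ∧ ∀ D D', Split G k F D D' → (F \ (D ∪ D')).Nonempty →
      D'.card ≤ k → (∃ b ∈ S, b ∈ D') ∨ F \ (D ∪ D') ⊆ S := by
  let M := univ.filter (fun A : Finset V => Frag G k A ∧ A ⊆ F ∧ F.card ≤ A.card + 2 * k ∧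
    A ≠ F ∧ ∀ C, Frag G k C → C ⊆ F → A ⊆ C → C = A ∨ C = F)
  refine ⟨M.biUnion (fun A => N G A ∩ F), ?_, ?_⟩
  · refine card_biUnion_le.trans ?_
    have e1 : ∀ A ∈ M, (N G A ∩ F).card ≤ (N G F \ N G A).card := by
      intro A hA
      obtain ⟨a1, a2, _⟩ := (mem_filter.1 hA).2
      have b1 : N G A ∩ F ∪ N G F ∩ N G A ⊆ N G A := union_subset inter_subset_left inter_subset_right
      have b2 := card_le_card b1
      rw [card_union_of_disjoint (disjoint_left.2 (fun v h1 h2 =>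
        (mem_N.1 (mem_inter.1 h2).1).1 (mem_inter.1 h1).2))] at b2
      have b3 := card_sdiff_add_card_inter (N G F) (N G A)
      have := a1.2.2
      have := hF.2.2
      omega
    refine (sum_le_sum e1).trans ?_
    rw [← card_biUnion, ← hF.2.2]
    · exact card_le_card (biUnion_subset.2 (fun _ _ => sdiff_subset))
    · intro A hA C hC hAC
      obtain ⟨a1, a2, a3, a4, a5⟩ := (mem_filter.1 hA).2
      obtain ⟨c1, c2, c3, c4, c5⟩ := (mem_filter.1 hC).2
      have b1 : (A ∩ C).Nonempty := by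
        rw [← card_pos]
        have := card_union_add_card_inter A C
        have := card_le_card (union_subset a2 c2)
        omega
      have b2 : A ∪ C = F := by
        rcases a5 _ (sub_union hc hF a1 c1 a2 c2 b1) (union_subset a2 c2) subset_union_left with h | h
        · rcases c5 A a1 a2 (h ▸ subset_union_right) with h' | h'
          · exact absurd h' hAC
          · exact absurd h' a4
        · exact h
      refine disjoint_left.2 (fun v h1 h2 => ?_)
      obtain ⟨h3, h4⟩ := mem_sdiff.1 h1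
      rw [← b2, N_union] at h3
      exact h3.1.elim h4 (mem_sdiff.1 h2).2
  intro D D' d1 d2 d3
  obtain ⟨A, hA, hmax⟩ := exists_max_image
    (univ.filter (fun A : Finset V => Frag G k A ∧ A ⊆ F ∧ D ⊆ A ∧ A ≠ F)) card ⟨D, by
      refine mem_filter.2 ⟨mem_univ _, d1.f1, d1.s1, subset_rfl, ?_⟩
      obtain ⟨u, hu⟩ := d1.f2.1
      intro h
      exact d1.disj (h ▸ d1.s2 hu) hu⟩
  obtain ⟨a1, a2, a3, a4⟩ := (mem_filter.1 hA).2
  have a5 : ∀ C, Frag G k C → C ⊆ F → A ⊆ C → C = A ∨ C = F := by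
    intro C c1 c2 c3
    by_cases h : C = F
    · exact Or.inr h
    · exact Or.inl (eq_of_subset_of_card_le c3
        (hmax C (mem_filter.2 ⟨mem_univ _, c1, c2, a3.trans c3, h⟩))).symm
  have hM : A ∈ M := mem_filter.2 ⟨mem_univ _, a1, a2, by
    have := d1.big
    have := card_le_card a3
    omega, a4, a5⟩
  by_cases h1 : ∃ b ∈ D', b ∈ N G A
  · obtain ⟨b, h1, h2⟩ := h1
    exact Or.inl ⟨b, mem_biUnion.2 ⟨A, hM, mem_inter.2 ⟨h2, d1.s2 h1⟩⟩, h1⟩
  push Not at h1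
  by_cases h2 : (A ∩ D').Nonempty
  · exfalso
    have b1 : A ∪ D' = F := by
      rcases a5 _ (sub_union hc hF a1 d1.f2 a2 d1.s2 h2) (union_subset a2 d1.s2) subset_union_left
        with h | h
      · exact absurd (d1.eq_of hF a1 a2 a3 (h ▸ subset_union_right)) a4
      · exact h
    have b2 : F \ A ⊆ D' := by
      intro v hv
      obtain ⟨h3, h4⟩ := mem_sdiff.1 hv
      rw [← b1] at h3
      exact (mem_union.1 h3).resolve_left h4
    have b3 : N G (F \ A) ⊆ N G F := by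
      intro v hv
      refine N_of_sub sdiff_subset hv (fun h3 => ?_)
      obtain ⟨h4, a, ha, hav⟩ := mem_N.1 hv
      have h5 : v ∈ A := by
        by_contra h5
        exact h4 (mem_sdiff.2 ⟨h3, h5⟩)
      exact h1 a (b2 ha) (mem_N.2 ⟨(mem_sdiff.1 ha).2, v, h5, hav.symm⟩)
    have b4 := hc (F \ A) (sdiff_nonempty.2 (fun h => a4 (Subset.antisymm a2 h)))
      (hF.2.1.mono (B_anti sdiff_subset))
    have b5 := eq_of_subset_of_card_le b3 (hF.2.2 ▸ b4)
    obtain ⟨x, hx⟩ := d2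
    have b6 : insert x (N G F) ⊆ N G D' := by
      refine insert_subset (d1.p2 hx) (fun v hv => ?_)
      exact N_of_sub b2 (b5 ▸ hv) (fun h => (mem_N.1 hv).1 (d1.s2 h))
    have b7 := card_le_card b6
    rw [card_insert_of_notMem (fun h => (mem_N.1 h).1 (mem_sdiff.1 hx).1), hF.2.2, d1.f2.2.2] at b7
    omega
  · refine Or.inr (fun x hx => mem_biUnion.2 ⟨A, hM, mem_inter.2 ⟨N_of_sub a3 (d1.p1 hx) ?_,
      (mem_sdiff.1 hx).1⟩⟩)
    intro hxA
    obtain ⟨_, a, ha, hav⟩ := mem_N.1 (d1.p2 hx)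
    exact h1 a ha (mem_N.2 ⟨fun h => h2 ⟨a, mem_inter.2 ⟨h, ha⟩⟩, x, hxA, hav.symm⟩)

variable (G k) in
def Crit3 : Prop := ∀ x y z : V, ∃ A, Frag G k A ∧ x ∈ N G A ∧ y ∈ N G A ∧ z ∈ N G A

theorem card_sq_biUnion (S : Finset V) (Z : V → Finset V) (s m : ℕ) (hS : S.card ≤ s)
    (hZ : ∀ b, (Z b).card ≤ m) : (S.biUnion (fun b => Z b ×ˢ Z b)).card ≤ s * (m * m) := by
  refine card_biUnion_le.trans ((sum_le_card_nsmul _ _ (m * m) ?_).trans (Nat.mul_le_mul_right _ hS))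
  intro b _
  rw [card_product]
  exact Nat.mul_le_mul (hZ b) (hZ b)

theorem balanced (hc : Conn G k) (hx : Crit3 G k) {F : Finset V} (hF : Frag G k F)
    (hF4 : 4 * k < F.card) (hB : 2 * k < (B G F).card) :
    F.card * F.card ≤ 10 * (k * (k * k)) + k * k + 4 * (k * F.card) := by
  have n3 := card_three (G := G) F
  have nF := hF.2.2
  obtain ⟨f1, f2, f3⟩ := hF.bar hc
  obtain ⟨b0, hb0⟩ := hF.1
  obtain ⟨b1, hb1⟩ := hF.2.1
  obtain ⟨W1, w1, w1'⟩ := top hc (F ∪ N G F) b0 (by have := card_union_le F (N G F); omega)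
  obtain ⟨W2, w2, w2'⟩ := top hc (B G F ∪ N G F) b1 (by have := card_union_le (B G F) (N G F); omega)
  choose W3 w3 w3' using fun e => top hc (N G F) e (by omega)
  choose Z1 z1 z1' using fat hc hF (by omega)
  choose Z2 z2 z2' using thin hc hF (by omega) hF4
  obtain ⟨S, s1, s2⟩ := ends hc hF hF4
  obtain ⟨y, hy, hy'⟩ := exists_mem_notMem_of_card_lt_card (s := W1) (t := B G F) (by omega)
  let R := (N G F).biUnion (fun e => W3 e ×ˢ W3 e) ∪ W2 ×ˢ F ∪ F.biUnion (fun x => {x} ×ˢ Z1 x) ∪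
    S ×ˢ S ∪ S.biUnion (fun b => Z2 b ×ˢ Z2 b)
  have hT : ∀ x ∈ F, x ∉ N G F := fun x hx h => (mem_N.1 h).1 hx
  have small : ∀ C, Frag G k C → ¬ (F ∩ C).Nonempty → ¬ (B G F ∩ C).Nonempty →
      ∀ x ∈ F, ∀ z ∈ F, x ∈ N G C → z ∈ N G C → (x, z) ∈ R := by
    intro C c1 c2 c3 x hx z hz h1 h2
    obtain ⟨e, he⟩ := c1.1
    have c4 : C ⊆ N G F := by
      intro v hv
      by_contra h
      by_cases h' : v ∈ F
      · exact c2 ⟨v, mem_inter.2 ⟨h', hv⟩⟩
      · exact c3 ⟨v, mem_inter.2 ⟨mem_B.2 ⟨h', h⟩, hv⟩⟩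
    have := w3' e C c1 he c4
    simp only [R, mem_union]
    refine Or.inl (Or.inl (Or.inl (Or.inl (mem_biUnion.2 ⟨e, c4 he, mem_product.2 ⟨?_, ?_⟩⟩))))
    · exact (mem_union.1 (this h1)).resolve_left (hT x hx)
    · exact (mem_union.1 (this h2)).resolve_left (hT z hz)
  have lop : ∀ D D', Split G k F D D' → D'.card ≤ k → ∀ x ∈ F \ (D ∪ D'), ∀ z ∈ F \ (D ∪ D'),
      (x, z) ∈ R := by
    intro D D' d1 d2 x hx z hz
    simp only [R, mem_union]
    rcases s2 D D' d1 ⟨x, hx⟩ d2 with ⟨b, h1, h2⟩ | h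
    · have := z2' b D D' d1 ⟨x, hx⟩ d2 h2
      exact Or.inr (mem_biUnion.2 ⟨b, h1, mem_product.2 ⟨this hx, this hz⟩⟩)
    · exact Or.inl (Or.inr (mem_product.2 ⟨h hx, h hz⟩))
  have diag : ∀ C, Frag G k C → (F ∩ C).Nonempty → (B G F ∩ B G C).Nonempty → y ∈ N G C →
      ∀ x ∈ F, ∀ z ∈ F, x ∈ N G C → z ∈ N G C → (x, z) ∈ R := by
    intro C c1 c2 c3 c4 x hx z hz h1 h2
    obtain ⟨g1, g2, g3⟩ := c1.bar hc
    by_cases c5 : (B G F ∩ C).Nonempty
    · by_cases c6 : (F ∩ B G C).Nonempty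
      · have d := cross hc hF c1 c2 c3 c6 c5
        have m : ∀ v ∈ F, v ∈ N G C → v ∈ F \ (F ∩ C ∪ F ∩ B G C) := by
          intro v hv hv'
          have := (mem_N.1 hv').1
          simp only [mem_sdiff, mem_union, mem_inter, mem_B]
          tauto
        by_cases d1 : (F ∩ B G C).card ≤ k
        · exact lop _ _ d d1 x (m x hx h1) z (m z hz h2)
        by_cases d2 : (F ∩ C).card ≤ k
        · exact lop _ _ d.symm d2 x (union_comm (F ∩ C) _ ▸ m x hx h1) z
            (union_comm (F ∩ C) _ ▸ m z hz h2)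
        simp only [R, mem_union]
        exact Or.inl (Or.inl (Or.inr (mem_biUnion.2 ⟨x, hx, mem_product.2 ⟨mem_singleton_self _,
          z1' x _ _ d (m x hx h1) (by omega) (by omega) (m z hz h2)⟩⟩)))
      · have d := (corner hc f1 g1 c3 (by rw [f3, g3]; exact c2)).1
        have d1 := w2' _ d (mem_union_left _ hb1) (by
          refine union_subset subset_union_left (fun v hv => ?_)
          by_cases h : v ∈ N G F
          · exact mem_union_right _ h
          · exact mem_union_left _ (mem_B.2 ⟨fun h' => c6 ⟨v, mem_inter.2 ⟨h', hv⟩⟩, h⟩))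
        have d2 : x ∈ N G (B G F ∪ B G C) := N_union.2 ⟨Or.inr (g2 ▸ h1),
          fun h => (mem_B.1 h).1 hx, fun h => (mem_B.1 h).2 h1⟩
        have d3 : x ∈ W2 := (mem_union.1 (d1 d2)).resolve_left (fun h =>
          (mem_union.1 h).elim (fun h => (mem_B.1 h).1 hx) (hT x hx))
        simp only [R, mem_union]
        exact Or.inl (Or.inl (Or.inl (Or.inr (mem_product.2 ⟨d3, hz⟩))))
    · exfalso
      have d := (corner hc hF c1 c2 c3).1
      have d1 := w1' _ d (mem_union_left _ hb0) (by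
        refine union_subset subset_union_left (fun v hv => ?_)
        by_contra h
        rw [mem_union, not_or] at h
        exact c5 ⟨v, mem_inter.2 ⟨mem_B.2 h, hv⟩⟩)
      have d2 : y ∈ N G (F ∪ C) := N_union.2 ⟨Or.inr c4, (mem_B.1 hy).1, (mem_N.1 c4).1⟩
      exact hy' ((mem_union.1 (d1 d2)).resolve_left (fun h =>
        (mem_union.1 h).elim (mem_B.1 hy).1 (mem_B.1 hy).2))
  have nosub : ∀ C, Frag G k C → ∀ A : Finset V, k < A.card →
      (A ∩ C).Nonempty ∨ (A ∩ B G C).Nonempty := by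
    intro C c1 A hA
    obtain ⟨v, hv, hv'⟩ := exists_mem_notMem_of_card_lt_card (s := N G C) (t := A) (c1.2.2 ▸ hA)
    by_cases h : v ∈ C
    · exact Or.inl ⟨v, mem_inter.2 ⟨hv, h⟩⟩
    · exact Or.inr ⟨v, mem_inter.2 ⟨hv, mem_B.2 ⟨h, hv'⟩⟩⟩
  have main : F ×ˢ F ⊆ R := by
    rintro ⟨x, z⟩ h
    obtain ⟨h1, h2⟩ := mem_product.1 h
    obtain ⟨C, c1, c2, c3, c4⟩ := hx x y z
    obtain ⟨g1, g2, g3⟩ := c1.bar hc
    have k1 := small C c1
    have k2 := small _ g1
    have k3 := diag C c1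
    have k4 := diag _ g1
    rw [g2] at k2 k4
    rw [g3] at k4
    have k5 := nosub C c1 F (by omega)
    have k6 := nosub C c1 (B G F) (by omega)
    by_cases a : (F ∩ C).Nonempty <;> by_cases b : (F ∩ B G C).Nonempty <;>
      by_cases c : (B G F ∩ C).Nonempty <;> by_cases d : (B G F ∩ B G C).Nonempty <;>
      first
        | exact k1 a c x h1 z h2 c2 c4
        | exact k2 b d x h1 z h2 c2 c4
        | exact k3 a d c3 x h1 z h2 c2 c4
        | exact k4 b c c3 x h1 z h2 c2 c4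
        | exact absurd k5 (not_or.2 ⟨a, b⟩)
        | exact absurd k6 (not_or.2 ⟨c, d⟩)
  have r1 := card_sq_biUnion (N G F) W3 k k nF.le w3
  have r2 : (W2 ×ˢ F).card ≤ k * F.card := by
    rw [card_product]; exact Nat.mul_le_mul_right _ w2
  have r3 : (F.biUnion (fun x => {x} ×ˢ Z1 x)).card ≤ F.card * (3 * k) := by
    refine card_biUnion_le.trans (sum_le_card_nsmul _ _ (3 * k) ?_)
    intro x _
    rw [card_product, card_singleton, one_mul]
    exact z1 x
  have r4 : (S ×ˢ S).card ≤ k * k := by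
    rw [card_product]; exact Nat.mul_le_mul s1 s1
  have r5 := card_sq_biUnion S Z2 k (3 * k) s1 z2
  have r6 := card_le_card main
  rw [card_product] at r6
  have u1 := card_union_le ((N G F).biUnion (fun e => W3 e ×ˢ W3 e)) (W2 ×ˢ F)
  have u2 := card_union_le ((N G F).biUnion (fun e => W3 e ×ˢ W3 e) ∪ W2 ×ˢ F)
    (F.biUnion (fun x => {x} ×ˢ Z1 x))
  have u3 := card_union_le ((N G F).biUnion (fun e => W3 e ×ˢ W3 e) ∪ W2 ×ˢ F ∪
    F.biUnion (fun x => {x} ×ˢ Z1 x)) (S ×ˢ S)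
  have u4 := card_union_le ((N G F).biUnion (fun e => W3 e ×ˢ W3 e) ∪ W2 ×ˢ F ∪
    F.biUnion (fun x => {x} ×ˢ Z1 x) ∪ S ×ˢ S) (S.biUnion (fun b => Z2 b ×ˢ Z2 b))
  have e1 : k * (3 * k * (3 * k)) = 9 * (k * (k * k)) := by ring
  have e2 : F.card * (3 * k) = 3 * (k * F.card) := by ring
  simp only [R] at r6
  omega

theorem order_bound (hc : Conn G k) (hx : Crit3 G k) (hk : 1 ≤ k) :
    Fintype.card V ^ 2 ≤ 231 * k ^ 3 := by
  have k23 : k * k ≤ k * (k * k) := Nat.le_mul_of_pos_left _ hk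
  by_cases h : ∃ F, Frag G k F ∧ 4 * k < F.card ∧ 4 * k < (B G F).card
  · obtain ⟨F, hF, h1, h2⟩ := h
    obtain ⟨f1, f2, f3⟩ := hF.bar hc
    have a1 := balanced hc hx hF h1 (by omega)
    have a2 := balanced hc hx f1 h2 (by rw [f3]; omega)
    rw [card_three (G := G) F, hF.2.2]
    generalize F.card = a at *
    generalize (B G F).card = b at *
    zify at *
    nlinarith [sq_nonneg ((a : ℤ) - 4 * k), sq_nonneg ((b : ℤ) - 4 * k), sq_nonneg ((a : ℤ) - b),
      sq_nonneg ((a : ℤ) - k), sq_nonneg ((b : ℤ) - k)]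
  by_cases hn : Fintype.card V ≤ 13 * k
  · have := Nat.pow_le_pow_left hn 2
    nlinarith
  push Not at h hn
  have key : ∀ b : V, ∃ Z : Finset V, Z.card ≤ 5 * k ∧
      ∀ C, Frag G k C → b ∈ C → C.card ≤ 4 * k → N G C ⊆ Z := by
    intro b
    by_cases h1 : ∃ C, Frag G k C ∧ b ∈ C ∧ C.card ≤ 4 * k
    · obtain ⟨C0, h0, h1⟩ := top_gen _ (by
        rintro C C' ⟨h1, h2, h3⟩ ⟨h4, h5, h6⟩
        have e := card_union_le C C'
        have f := (corner hc h1 h4 ⟨b, mem_inter.2 ⟨h2, h5⟩⟩ (bar_meet h1 h4 (by omega))).1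
        refine ⟨f, mem_union_left _ h2, ?_⟩
        by_contra h7
        have := h _ f (by omega)
        have := card_three (G := G) (C ∪ C')
        have := f.2.2
        omega) h1
      refine ⟨C0 ∪ N G C0, ?_, fun C a1 a2 a3 => N_sub (h1 C ⟨a1, a2, a3⟩)⟩
      have := card_union_le C0 (N G C0)
      have := h0.1.2.2
      have := h0.2.2
      omega
    · exact ⟨∅, by simp, fun C a1 a2 a3 => absurd ⟨C, a1, a2, a3⟩ h1⟩
  choose Z z1 z2 using key
  have main : (univ : Finset (V × V × V)) ⊆ univ.biUnion (fun b => Z b ×ˢ Z b ×ˢ Z b) := by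
    rintro ⟨x, y, z⟩ _
    obtain ⟨C, c1, c2, c3, c4⟩ := hx x y z
    obtain ⟨g1, g2, _⟩ := c1.bar hc
    by_cases h1 : C.card ≤ 4 * k
    · obtain ⟨b, hb⟩ := c1.1
      have := z2 b C c1 hb h1
      exact mem_biUnion.2 ⟨b, mem_univ _, mem_product.2 ⟨this c2, mem_product.2 ⟨this c3, this c4⟩⟩⟩
    · obtain ⟨b, hb⟩ := g1.1
      have := z2 b _ g1 hb (h C c1 (by omega))
      rw [g2] at this
      exact mem_biUnion.2 ⟨b, mem_univ _, mem_product.2 ⟨this c2, mem_product.2 ⟨this c3, this c4⟩⟩⟩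
  have e := (card_le_card main).trans (card_biUnion_le.trans (sum_le_card_nsmul _ _
    (5 * k * (5 * k * (5 * k))) (fun b _ => by
      rw [card_product, card_product]
      exact Nat.mul_le_mul (z1 b) (Nat.mul_le_mul (z1 b) (z1 b)))))
  simp only [card_univ, Fintype.card_prod, smul_eq_mul] at e
  have := Nat.le_of_mul_le_mul_left e (by omega)
  nlinarith

end Pool.Agent.H24.Crit
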