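import Pool.Agent.H24.Crit2

set_option autoImplicit false

namespace Pool.Agent.H24.Crit

open Finset Classical

variable {V : Type} [Fintype V] [DecidableEq V] {G : SimpleGraph V} {k : ℕ}

theorem conn_of (hc : ∀ S : Finset V, S.card < k → (G.induce ((S : Set V)ᶜ)).Connected) :
    Conn G k := by
  rintro A ⟨a, ha⟩ ⟨w, hw⟩
  by_contra h
  have h1 := (hc (N G A) (not_le.1 h)).preconnected
    ⟨a, fun h => (mem_N.1 h).1 ha⟩ ⟨w, (mem_B.1 hw).2⟩
  obtain ⟨p⟩ := h1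
  have key : ∀ (u v : ((N G A : Set V)ᶜ : Set V)) (_ : (G.induce ((N G A : Set V)ᶜ)).Walk u v),
      u.1 ∈ A → v.1 ∈ A := by
    intro u v p
    induction p with
    | nil => exact id
    | @cons u' v' _ hadj _ ih =>
      intro hu
      apply ih
      by_contra hv
      exact v'.2 (mem_N.2 ⟨hv, u'.1, hu, hadj⟩)
  exact (mem_B.1 hw).1 (key _ _ p ha)

theorem frag_of (hc : Conn G k) (S : Finset V) (hS : S.card ≤ k) (hn : k < Fintype.card V)
    (h : ¬ (G.induce ((S : Set V)ᶜ)).Connected) : ∃ A, Frag G k A ∧ N G A = S := by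
  have hne : Nonempty ((S : Set V)ᶜ : Set V) := by
    obtain ⟨v, _, hv⟩ := exists_mem_notMem_of_card_lt_card (s := S) (t := univ)
      (by rw [card_univ]; omega)
    exact ⟨⟨v, hv⟩⟩
  have h1 : ¬ (G.induce ((S : Set V)ᶜ)).Preconnected := fun h1 => h ⟨h1⟩
  obtain ⟨u, v, huv⟩ : ∃ u v, ¬ (G.induce ((S : Set V)ᶜ)).Reachable u v := by
    by_contra h2
    push Not at h2
    exact h1 h2
  let A := univ.filter (fun w => ∃ hw : w ∈ ((S : Set V)ᶜ : Set V),
    (G.induce ((S : Set V)ᶜ)).Reachable u ⟨w, hw⟩)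
  have a1 : N G A ⊆ S := by
    intro w hw
    obtain ⟨h2, a, ha, haw⟩ := mem_N.1 hw
    by_contra h3
    obtain ⟨h4, h5⟩ := (mem_filter.1 ha).2
    exact h2 (mem_filter.2 ⟨mem_univ _, h3, h5.trans (SimpleGraph.Adj.reachable haw)⟩)
  have a2 : A.Nonempty := ⟨u.1, mem_filter.2 ⟨mem_univ _, u.2, SimpleGraph.Reachable.refl _⟩⟩
  have a3 : (B G A).Nonempty :=
    ⟨v.1, mem_B.2 ⟨fun h2 => huv (mem_filter.1 h2).2.2, fun h2 => v.2 (a1 h2)⟩⟩
  have a4 := hc A a2 a3
  have a5 := card_le_card a1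
  exact ⟨A, ⟨a2, a3, by omega⟩, eq_of_subset_of_card_le a1 (by omega)⟩

theorem mader (hn : k < Fintype.card V) (h3 : ∀ X : Finset V, X.card ≤ 3 → X.card ≤ k)
    (hc : ∀ S : Finset V, S.card < k → (G.induce ((S : Set V)ᶜ)).Connected)
    (hx : k + 1 < Fintype.card V → ∀ X : Finset V, X.card ≤ 3 → ∃ S : Finset V, Disjoint S X ∧
      S.card < k - X.card + 1 ∧ ¬ (G.induce (((X ∪ S : Finset V) : Set V)ᶜ)).Connected) :
    (Fintype.card V : ℝ) ≤ 16 * (k : ℝ) ^ ((3 : ℝ) / 2) := by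
  have hk : 1 ≤ k := by
    obtain ⟨v⟩ := Fintype.card_pos_iff.1 (by omega : 0 < Fintype.card V)
    simpa using h3 {v} (by simp)
  have key : Fintype.card V ^ 2 ≤ 231 * k ^ 3 := by
    by_cases h : k + 1 < Fintype.card V
    · have c := conn_of hc
      refine order_bound c ?_ hk
      intro x y z
      have hX : ({x, y, z} : Finset V).card ≤ 3 := card_le_three
      obtain ⟨S, s1, s2, s3⟩ := hx h _ hX
      have := h3 _ hX
      obtain ⟨A, a1, a2⟩ := frag_of c _ ((card_union_le _ _).trans (by omega)) hn s3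
      exact ⟨A, a1, by simp [a2], by simp [a2], by simp [a2]⟩
    · have h1 : Fintype.card V ≤ 2 * k := by omega
      have h2 := Nat.pow_le_pow_left h1 2
      have k23 : k * k ≤ k * (k * k) := Nat.le_mul_of_pos_left _ hk
      nlinarith
  have e : ((k : ℝ) ^ ((3 : ℝ) / 2)) ^ 2 = (k : ℝ) ^ 3 := by
    rw [← Real.rpow_natCast, ← Real.rpow_mul (by positivity)]
    norm_num
  refine le_of_sq_le_sq ?_ (by positivity)
  rw [mul_pow, e]
  have : ((Fintype.card V : ℝ)) ^ 2 ≤ 231 * (k : ℝ) ^ 3 := by exact_mod_cast key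
  have : (0 : ℝ) ≤ (k : ℝ) ^ 3 := by positivity
  linarith

end Pool.Agent.H24.Crit
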