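import Mathlib

namespace Pool.Agent.H24.Dj1
open Finset

def c (m l : ℕ) : ℕ := ∑ j ∈ range m, (j - l)

theorem c_eq (m l : ℕ) : 2 * c m l = (m - l) * (m - l - 1) := by
  induction m with
  | zero => simp [c]
  | succ m ih =>
    have : c (m + 1) l = c m l + (m - l) := by simp [c, sum_range_succ]
    rw [this, mul_add, ih]
    rcases le_or_gt l m with h | h
    · obtain ⟨k, rfl⟩ := Nat.exists_eq_add_of_le h
      have e1 : l + k - l = k := by omega
      have e2 : l + k + 1 - l = k + 1 := by omega
      rw [e1, e2]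
      cases k with
      | zero => simp
      | succ k => simp; ring
    · have e1 : m - l = 0 := by omega
      have e2 : m + 1 - l = 0 := by omega
      rw [e1, e2]

theorem two_choose (m : ℕ) : 2 * m.choose 2 = m * (m - 1) := by
  rw [Nat.choose_two_right, Nat.mul_div_cancel' (Nat.even_mul_pred_self m).two_dvd]

theorem edge_ineq (m x y : ℕ) : m.choose 2 ≤ x * y + c m x + c m y := by
  have h1 := c_eq m x
  have h2 := c_eq m y
  have h3 := two_choose m
  have key : ∀ a b x' y' : ℕ, a + x' = m → b + y' = m →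
      m * (m - 1) ≤ 2 * (x' * y') + a * (a - 1) + b * (b - 1) := by
    intro a b x' y' ha hb
    have z : ∀ t : ℕ, ((t * (t - 1) : ℕ) : ℤ) = t * (t - 1) := by
      intro t; cases t <;> simp
    have hs : (0 : ℤ) ≤ ((x' : ℤ) + y' - m) * ((x' : ℤ) + y' - m + 1) := by
      rcases le_or_gt 0 ((x' : ℤ) + y' - m) with h | h
      · positivity
      · exact mul_nonneg_of_nonpos_of_nonpos (by omega) (by omega)
    have ea : (a : ℤ) = m - x' := by omega
    have eb : (b : ℤ) = m - y' := by omega
    have : ((m * (m - 1) : ℕ) : ℤ) ≤ ((2 * (x' * y') + a * (a - 1) + b * (b - 1) : ℕ) : ℤ) := by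
      rw [Nat.cast_add, Nat.cast_add, z, z, z, ea, eb]
      push_cast
      nlinarith
    exact_mod_cast this
  have h4 := key (m - x) (m - y) (min x m) (min y m) (by omega) (by omega)
  have h5 : min x m * min y m ≤ x * y := Nat.mul_le_mul (min_le_left _ _) (min_le_left _ _)
  omega

theorem sum_choose (m : ℕ) : ∑ j ∈ range m, (j + 1).choose 2 = (m + 1).choose 3 := by
  induction m with
  | zero => rfl
  | succ m ih => rw [sum_range_succ, ih, Nat.choose_succ_succ' (m + 1) 2, add_comm]

variable {V : Type} [DecidableEq V]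

theorem tour (W : Finset V) (T : V → V → Prop) [DecidableRel T]
    (hT : ∀ a ∈ W, ∀ b ∈ W, a ≠ b → T a b ∨ T b a) (j : ℕ) :
    ∑ y ∈ W, (j - (W.filter (T y)).card) ≤ (j + 1).choose 2 := by
  set U := W.filter (fun y => (W.filter (T y)).card < j) with hU
  have h1 : ∑ y ∈ W, (j - (W.filter (T y)).card) = ∑ y ∈ U, (j - (W.filter (T y)).card) := by
    rw [hU, sum_filter]
    exact sum_congr rfl fun y _ => by split_ifs <;> omega
  have h2 : ∑ y ∈ U, (j - (W.filter (T y)).card) + ∑ y ∈ U, (W.filter (T y)).card = U.card * j := by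
    rw [← sum_add_distrib, ← smul_eq_mul, ← sum_const]
    exact sum_congr rfl fun y hy => by have := (mem_filter.1 hy).2; omega
  have h3 : ∑ y ∈ U, (U.filter (T y)).card ≤ ∑ y ∈ U, (W.filter (T y)).card :=
    sum_le_sum fun y _ => card_le_card (filter_subset_filter _ (filter_subset _ _))
  have h4 : U.card * U.card ≤ 2 * ∑ y ∈ U, (U.filter (T y)).card + U.card := by
    have e1 : ∑ y ∈ U, (U.filter (T y)).card = ∑ y ∈ U, ∑ a ∈ U, if T y a then 1 else 0 :=
      sum_congr rfl fun y _ => card_filter _ _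
    have e2 : ∑ y ∈ U, (U.filter (T y)).card = ∑ y ∈ U, ∑ a ∈ U, if T a y then 1 else 0 := by
      rw [e1, sum_comm]
    have e3 : U.card = ∑ y ∈ U, ∑ a ∈ U, if y = a then 1 else 0 := by
      rw [card_eq_sum_ones]
      exact sum_congr rfl fun y hy => by simp [hy]
    calc U.card * U.card = ∑ _y ∈ U, ∑ _a ∈ U, 1 := by simp
      _ ≤ ∑ y ∈ U, ∑ a ∈ U, ((if T y a then 1 else 0) + (if T a y then 1 else 0) +
          (if y = a then 1 else 0)) := by
        refine sum_le_sum fun y hy => sum_le_sum fun a ha => ?_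
        by_cases h : y = a
        · simp [h]
        · rcases hT y (mem_filter.1 hy).1 a (mem_filter.1 ha).1 h with h' | h' <;> simp [h'] <;> omega
      _ = _ := by
        simp only [sum_add_distrib]
        rw [← e1, ← e2, ← e3]
        ring
  have h5 := two_choose (j + 1)
  simp only [add_tsub_cancel_right] at h5
  have hs : (0 : ℤ) ≤ ((U.card : ℤ) - j) * ((U.card : ℤ) - j - 1) := by
    rcases le_or_gt ((U.card : ℤ) - j) 0 with h | h
    · exact mul_nonneg_of_nonpos_of_nonpos h (by omega)
    · exact mul_nonneg h.le (by omega)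
  rw [h1]
  zify at *
  nlinarith

theorem tour2 (W : Finset V) (T : V → V → Prop) [DecidableRel T]
    (hT : ∀ a ∈ W, ∀ b ∈ W, a ≠ b → T a b ∨ T b a) (m : ℕ) :
    ∑ y ∈ W, c m (W.filter (T y)).card ≤ (m + 1).choose 3 := by
  simp only [c]
  rw [sum_comm, ← sum_choose]
  exact sum_le_sum fun j _ => tour W T hT j

theorem count [Fintype V] (G : SimpleGraph V) [DecidableRel G.Adj] (T : V → V → V → Prop)
    [∀ x, DecidableRel (T x)]
    (hT : ∀ x a b, G.Adj x a → G.Adj x b → a ≠ b → T x a b ∨ T x b a) (m : ℕ) :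
    2 * G.edgeFinset.card * m.choose 2 ≤
      ∑ x, ∑ y ∈ G.neighborFinset x, ((G.neighborFinset x).filter (T x y)).card *
        ((G.neighborFinset y).filter (T y x)).card + 2 * (Fintype.card V * (m + 1).choose 3) := by
  have h1 : ∑ x, ∑ y ∈ G.neighborFinset x, c m ((G.neighborFinset x).filter (T x y)).card ≤
      Fintype.card V * (m + 1).choose 3 := by
    rw [← card_univ, ← smul_eq_mul, ← sum_const]
    exact sum_le_sum fun x _ => tour2 _ _ (fun a ha b hb => hT x a b (by simpa using ha)
      (by simpa using hb)) m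
  have h2 : ∑ x, ∑ y ∈ G.neighborFinset x, c m ((G.neighborFinset y).filter (T y x)).card =
      ∑ x, ∑ y ∈ G.neighborFinset x, c m ((G.neighborFinset x).filter (T x y)).card := by
    rw [sum_comm' (t' := univ) (s' := fun y => G.neighborFinset y)]
    intro x y
    simp [G.adj_comm]
  have h3 : 2 * G.edgeFinset.card * m.choose 2 = ∑ x, ∑ _y ∈ G.neighborFinset x, m.choose 2 := by
    rw [← G.sum_degrees_eq_twice_card_edges, sum_mul]
    exact sum_congr rfl fun x _ => by simp
  have h4 : ∑ x, ∑ _y ∈ G.neighborFinset x, m.choose 2 ≤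
      ∑ x, ∑ y ∈ G.neighborFinset x, (((G.neighborFinset x).filter (T x y)).card *
        ((G.neighborFinset y).filter (T y x)).card +
        c m ((G.neighborFinset x).filter (T x y)).card +
        c m ((G.neighborFinset y).filter (T y x)).card) :=
    sum_le_sum fun x _ => sum_le_sum fun y _ => edge_ineq _ _ _
  simp only [sum_add_distrib] at h4
  omega

end Pool.Agent.H24.Dj1
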