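import Mathlib

namespace Pool.Agent.H24.DjDefs

/-- The unordered pairs of disjoint edges of the geometric graph with vertex positions `p`:
pairs `{xa, yb}` of edges whose closed segments have no common point. -/
def DJ {V : Type} (G : SimpleGraph V) (p : V → EuclideanSpace ℝ (Fin 2)) :
    Set (Sym2 (Sym2 V)) :=
  {z | ∃ x a y b, G.Adj x a ∧ G.Adj y b ∧
    Disjoint (segment ℝ (p x) (p a)) (segment ℝ (p y) (p b)) ∧ z = s(s(x, a), s(y, b))}

end Pool.Agent.H24.DjDefs
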