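import Mathlib
import Pool.Agent.H24.Dj1
import Pool.Agent.H24.DjDefs

namespace Pool.Agent.H24.Dj2
open Finset Pool.Agent.H24.Dj1 Pool.Agent.H24.DjDefs

def o (x y z : EuclideanSpace ℝ (Fin 2)) : ℝ :=
  (y 0 - x 0) * (z 1 - x 1) - (y 1 - x 1) * (z 0 - x 0)

theorem col {x y z : EuclideanSpace ℝ (Fin 2)} (hxy : x ≠ y) (h : o x y z = 0) :
    Collinear ℝ {x, y, z} := by
  rw [collinear_iff_of_mem (p₀ := x) (by simp)]
  refine ⟨y - x, ?_⟩
  intro q hq
  simp only [Set.mem_insert_iff, Set.mem_singleton_iff] at hq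
  rcases hq with rfl | rfl | rfl
  · exact ⟨0, by simp⟩
  · exact ⟨1, by simp⟩
  · unfold o at h
    by_cases h0 : y 0 - x 0 = 0
    · have h1 : y 1 - x 1 ≠ 0 := by
        intro h1
        apply hxy
        ext i
        fin_cases i
        · simp; linarith
        · simp; linarith
      refine ⟨(q 1 - x 1) / (y 1 - x 1), ?_⟩
      have h2 : q 0 - x 0 = 0 := by
        rw [h0, zero_mul, zero_sub, neg_eq_zero] at h
        exact (mul_eq_zero.1 h).resolve_left h1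
      ext i
      fin_cases i
      · simp [h0]; linarith
      · simp; field_simp; ring
    · refine ⟨(q 0 - x 0) / (y 0 - x 0), ?_⟩
      ext i
      fin_cases i
      · simp; field_simp; ring
      · simp; field_simp; linarith

theorem disj {x y a b : EuclideanSpace ℝ (Fin 2)} (hxy : x ≠ y) (h1 : 0 < o x y a)
    (h2 : 0 < o y x b) : Disjoint (segment ℝ x a) (segment ℝ y b) := by
  rw [Set.disjoint_left]
  rintro q ⟨s, t, hs, ht, hst, rfl⟩ ⟨u, v, hu, hv, huv, e⟩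
  have e0 := congrArg (fun w : EuclideanSpace ℝ (Fin 2) => w 0) e
  have e1 := congrArg (fun w : EuclideanSpace ℝ (Fin 2) => w 1) e
  simp only [PiLp.add_apply, PiLp.smul_apply, smul_eq_mul] at e0 e1
  have hs' : s = 1 - t := by linarith
  have hu' : u = 1 - v := by linarith
  subst hs' hu'
  have key : t * o x y a + v * o y x b = 0 := by
    unfold o
    linear_combination (y 1 - x 1) * e0 - (y 0 - x 0) * e1
  have ht0 : t = 0 := by nlinarith [mul_nonneg ht h1.le, mul_nonneg hv h2.le]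
  have hv0 : v = 0 := by nlinarith [mul_nonneg ht h1.le, mul_nonneg hv h2.le]
  subst ht0 hv0
  apply hxy
  simpa using e.symm

theorem inj {V : Type} (p : V → EuclideanSpace ℝ (Fin 2)) {x y a b x' y' a' b' : V}
    (h1 : 0 < o (p x) (p y) (p a)) (h2 : 0 < o (p y) (p x) (p b))
    (h3 : 0 < o (p x') (p y') (p a')) (h4 : 0 < o (p y') (p x') (p b'))
    (e1 : s(x', a') = s(x, a)) (e2 : s(y', b') = s(y, b)) :
    x' = x ∧ y' = y ∧ a' = a ∧ b' = b := by
  rcases Sym2.eq_iff.1 e1 with ⟨rfl, rfl⟩ | ⟨rfl, rfl⟩ <;>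
    rcases Sym2.eq_iff.1 e2 with ⟨rfl, rfl⟩ | ⟨rfl, rfl⟩
  · simp
  all_goals
    exfalso
    unfold o at *
    nlinarith

theorem main {V : Type} [Fintype V] [DecidableEq V] (G : SimpleGraph V) [DecidableRel G.Adj]
    (p : V → EuclideanSpace ℝ (Fin 2)) (hinj : Function.Injective p)
    (hgen : ∀ x y z, x ≠ y → y ≠ z → x ≠ z → ¬ Collinear ℝ {p x, p y, p z}) (m : ℕ) :
    G.edgeFinset.card * m.choose 2 ≤ (DJ G p).ncard + Fintype.card V * (m + 1).choose 3 := by
  classical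
  have h1 := count G (fun x y a => 0 < o (p x) (p y) (p a)) (by
    intro x a b ha hb hab
    have h0 : o (p x) (p a) (p b) ≠ 0 := fun h =>
      hgen x a b ha.ne hab hb.ne (col (hinj.ne ha.ne) h)
    have : o (p x) (p b) (p a) = - o (p x) (p a) (p b) := by unfold o; ring
    rcases lt_or_gt_of_ne h0 with h | h
    · right; linarith
    · left; exact h) m
  let Q : Finset (Σ _ : V, Σ _ : V, V × V) := univ.sigma fun x => (G.neighborFinset x).sigma
    fun y => ((G.neighborFinset x).filter (fun a => 0 < o (p x) (p y) (p a))) ×ˢ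
      ((G.neighborFinset y).filter (fun b => 0 < o (p y) (p x) (p b)))
  have hQ : Q.card = ∑ x, ∑ y ∈ G.neighborFinset x,
      ((G.neighborFinset x).filter (fun a => 0 < o (p x) (p y) (p a))).card *
      ((G.neighborFinset y).filter (fun b => 0 < o (p y) (p x) (p b))).card := by
    simp only [Q, card_sigma, card_product]
  have hmem : ∀ x y a b, (⟨x, y, a, b⟩ : Σ _ : V, Σ _ : V, V × V) ∈ Q ↔ G.Adj x y ∧
      (G.Adj x a ∧ 0 < o (p x) (p y) (p a)) ∧ G.Adj y b ∧ 0 < o (p y) (p x) (p b) := by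
    intro x y a b
    simp [Q]
  have h2 : Q.card ≤ 2 * (Set.toFinite (DJ G p)).toFinset.card := by
    apply card_le_mul_card_image_of_maps_to
      (f := fun q : (Σ _ : V, Σ _ : V, V × V) => s(s(q.1, q.2.2.1), s(q.2.1, q.2.2.2)))
    · rintro ⟨x, y, a, b⟩ hq
      obtain ⟨k1, ⟨k2, k3⟩, k4, k5⟩ := (hmem x y a b).1 hq
      rw [Set.Finite.mem_toFinset]
      exact ⟨x, a, y, b, k2, k4, disj (hinj.ne k1.ne) k3 k5, rfl⟩
    · intro z _
      rcases (Q.filter (fun q => s(s(q.1, q.2.2.1), s(q.2.1, q.2.2.2)) = z)).eq_empty_or_nonempty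
        with h | ⟨⟨x, y, a, b⟩, hq⟩
      · rw [h]; simp
      · obtain ⟨hq1, hq2⟩ := mem_filter.1 hq
        obtain ⟨k1, ⟨k2, k3⟩, k4, k5⟩ := (hmem x y a b).1 hq1
        refine (card_le_card (t := {⟨x, y, a, b⟩, ⟨y, x, b, a⟩}) ?_).trans card_le_two
        rintro ⟨x', y', a', b'⟩ hq'
        obtain ⟨hq3, hq4⟩ := mem_filter.1 hq'
        obtain ⟨l1, ⟨l2, l3⟩, l4, l5⟩ := (hmem x' y' a' b').1 hq3
        rw [← hq2] at hq4
        rcases Sym2.eq_iff.1 hq4 with ⟨e1, e2⟩ | ⟨e1, e2⟩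
        · obtain ⟨rfl, rfl, rfl, rfl⟩ := inj p k3 k5 l3 l5 e1 e2
          simp
        · obtain ⟨rfl, rfl, rfl, rfl⟩ := inj p k5 k3 l3 l5 e1 e2
          simp
  rw [← Set.ncard_eq_toFinset_card, hQ] at h2
  rw [mul_assoc] at h1
  omega

theorem real_form (n e D : ℕ) (h : ∀ m : ℕ, e * m.choose 2 ≤ D + n * (m + 1).choose 3)
    (hne : n ≤ 2 * e) : (n : ℝ) / 2 * ((2 * e / n : ℝ) * (2 * e / n - 1) * (2 * e / n - 2) / 6) ≤
      D := by
  rcases Nat.eq_zero_or_pos n with rfl | hn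
  · simp
  have hn' : (0 : ℝ) < n := by exact_mod_cast hn
  set d : ℝ := 2 * e / n with hd
  have he : (e : ℝ) = n * d / 2 := by rw [hd]; field_simp
  have hd1 : 1 ≤ d := by
    rw [hd, le_div_iff₀ hn', one_mul]
    exact_mod_cast hne
  have h1 : ((⌊d⌋₊ : ℕ) : ℝ) ≤ d := Nat.floor_le (by linarith)
  have h2 : d < (⌊d⌋₊ : ℕ) + 1 := Nat.lt_floor_add_one d
  have h3 : (1 : ℝ) ≤ (⌊d⌋₊ : ℕ) := by exact_mod_cast Nat.le_floor (by simpa using hd1)
  have h4 := h ⌊d⌋₊
  generalize ⌊d⌋₊ = m at *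
  have h5 : (e : ℝ) * (m.choose 2 : ℕ) ≤ D + n * ((m + 1).choose 3 : ℕ) := by exact_mod_cast h4
  have c2 : ((m.choose 2 : ℕ) : ℝ) = m * (m - 1) / 2 := Nat.cast_choose_two ℝ m
  have c3 : ∀ k : ℕ, (((k + 1).choose 3 : ℕ) : ℝ) = (k + 1) * k * (k - 1) / 6 := by
    intro k
    induction k with
    | zero => simp
    | succ k ih =>
      rw [Nat.choose_succ_succ' (k + 1) 2, Nat.cast_add, ih, Nat.cast_choose_two]
      push_cast
      ring
  rw [c2, c3, he] at h5
  have h6 : 0 ≤ (n : ℝ) * ((d - m) * (m + 1 - d) * (d + 2 * m - 2)) := by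
    apply mul_nonneg hn'.le
    apply mul_nonneg (mul_nonneg _ _) <;> linarith
  nlinarith

end Pool.Agent.H24.Dj2
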