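import Pool.Agent.H24.EolDefs

namespace Pool.Agent.H24.Eol
open Relation

inductive Cat {V W : Type} (R : V → List W → Prop) : List V → List W → Prop
  | nil : Cat R [] []
  | cons {X u x v} : R X u → Cat R x v → Cat R (X :: x) (u ++ v)

section
variable {V W : Type} {R R' : V → List W → Prop}

theorem cat_nil {v : List W} : Cat R [] v ↔ v = [] :=
  ⟨fun h => by cases h; rfl, fun h => h ▸ Cat.nil⟩

theorem cat_cons {X : V} {x : List V} {w : List W} :
    Cat R (X :: x) w ↔ ∃ u v, w = u ++ v ∧ R X u ∧ Cat R x v :=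
  ⟨fun h => by cases h with | cons h1 h2 => exact ⟨_, _, rfl, h1, h2⟩,
   fun ⟨_, _, e, h1, h2⟩ => e ▸ Cat.cons h1 h2⟩

theorem cat_single {X : V} {w : List W} : Cat R [X] w ↔ R X w := by
  rw [cat_cons]
  constructor
  · rintro ⟨u, v, rfl, h1, h2⟩
    rw [cat_nil.1 h2]; simpa using h1
  · intro h; exact ⟨w, [], by simp, h, Cat.nil⟩

theorem Cat.append {x y : List V} {v w : List W} (h : Cat R x v) (h' : Cat R y w) :
    Cat R (x ++ y) (v ++ w) := by
  induction h with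
  | nil => simpa using h'
  | cons h1 _ ih => rw [List.cons_append, List.append_assoc]; exact Cat.cons h1 ih

theorem cat_append {x y : List V} {w : List W} :
    Cat R (x ++ y) w ↔ ∃ u v, w = u ++ v ∧ Cat R x u ∧ Cat R y v := by
  constructor
  · induction x generalizing w with
    | nil => intro h; exact ⟨[], w, rfl, Cat.nil, h⟩
    | cons X x ih =>
      intro h
      rw [List.cons_append, cat_cons] at h
      obtain ⟨u, v, rfl, h1, h2⟩ := h
      obtain ⟨a, b, rfl, h3, h4⟩ := ih h2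
      exact ⟨u ++ a, b, by simp, Cat.cons h1 h3, h4⟩
  · rintro ⟨u, v, rfl, h1, h2⟩; exact h1.append h2

theorem cat_mid {α β : List V} {Z : V} {w : List W} :
    Cat R (α ++ Z :: β) w ↔ ∃ l u r, w = l ++ u ++ r ∧ Cat R α l ∧ R Z u ∧ Cat R β r := by
  rw [cat_append]
  constructor
  · rintro ⟨l, v, rfl, h1, h2⟩
    obtain ⟨u, r, rfl, h3, h4⟩ := cat_cons.1 h2
    exact ⟨l, u, r, by simp, h1, h3, h4⟩
  · rintro ⟨l, u, r, rfl, h1, h2, h3⟩
    exact ⟨l, u ++ r, by simp, h1, Cat.cons h2 h3⟩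

theorem Cat.mid {α β : List V} {Z : V} {l u r : List W} (h1 : Cat R α l) (h2 : R Z u)
    (h3 : Cat R β r) : Cat R (α ++ Z :: β) (l ++ u ++ r) :=
  cat_mid.2 ⟨l, u, r, rfl, h1, h2, h3⟩

theorem Cat.mono {x : List V} {v : List W} (h : Cat R x v)
    (hR : ∀ X ∈ x, ∀ u, R X u → R' X u) : Cat R' x v := by
  induction h with
  | nil => exact Cat.nil
  | cons h1 _ ih =>
    exact Cat.cons (hR _ (by simp) _ h1) (ih fun X hX => hR X (by simp [hX]))

theorem cat_exists {x : List V} (h : ∀ X ∈ x, ∃ u, R X u) : ∃ v, Cat R x v := by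
  induction x with
  | nil => exact ⟨[], Cat.nil⟩
  | cons X x ih =>
    obtain ⟨u, hu⟩ := h X (by simp)
    obtain ⟨v, hv⟩ := ih fun Z hZ => h Z (by simp [hZ])
    exact ⟨_, Cat.cons hu hv⟩

theorem Cat.all {x : List V} {v : List W} (h : Cat R x v) : ∀ X ∈ x, ∃ u, R X u := by
  induction h with
  | nil => simp
  | cons h1 _ ih =>
    intro Z hZ
    rcases List.mem_cons.1 hZ with rfl | hZ
    · exact ⟨_, h1⟩
    · exact ih Z hZ

theorem Cat.pick {x : List V} {v : List W} (h : Cat R x v) {a : W} (ha : a ∈ v) :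
    ∃ α Z β l u r, x = α ++ Z :: β ∧ v = l ++ u ++ r ∧ Cat R α l ∧ R Z u ∧ Cat R β r ∧
      a ∈ u := by
  induction h with
  | nil => simp at ha
  | @cons X u x v h1 h2 ih =>
    rcases List.mem_append.1 ha with ha | ha
    · exact ⟨[], X, x, [], u, v, rfl, by simp, Cat.nil, h1, h2, ha⟩
    · obtain ⟨α, Z, β, l, u', r, rfl, rfl, h3, h4, h5, h6⟩ := ih ha
      exact ⟨X :: α, Z, β, u ++ l, u', r, rfl, by simp, Cat.cons h1 h3, h4, h5, h6⟩

theorem Cat.big {x : List V} {v : List W} (h : Cat R x v) (q : W → Bool) (M : ℕ)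
    (hb : x.length * M < v.countP q) :
    ∃ α Z β l u r, x = α ++ Z :: β ∧ v = l ++ u ++ r ∧ Cat R α l ∧ R Z u ∧ Cat R β r ∧
      M < u.countP q := by
  induction h with
  | nil => simp at hb
  | @cons X u x v h1 h2 ih =>
    by_cases hu : M < u.countP q
    · exact ⟨[], X, x, [], u, v, rfl, by simp, Cat.nil, h1, h2, hu⟩
    · have : x.length * M < v.countP q := by
        rw [List.countP_append, List.length_cons, Nat.succ_mul] at hb; omega
      obtain ⟨α, Z, β, l, u', r, rfl, rfl, h3, h4, h5, h6⟩ := ih this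
      exact ⟨X :: α, Z, β, u ++ l, u', r, rfl, by simp, Cat.cons h1 h3, h4, h5, h6⟩

theorem Cat.forall_mem {x : List V} {v : List W} (h : Cat R x v) (Q : W → Prop)
    (hQ : ∀ X ∈ x, ∀ u, R X u → ∀ a ∈ u, Q a) : ∀ a ∈ v, Q a := by
  intro a ha
  obtain ⟨α, Z, β, l, u, r, rfl, -, -, h2, -, h3⟩ := h.pick ha
  exact hQ Z (by simp) u h2 a h3

theorem Cat.len {x : List V} {v : List W} (h : Cat R x v) (M : ℕ)
    (hM : ∀ X ∈ x, ∀ u, R X u → u.length ≤ M) : v.length ≤ x.length * M := by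
  by_contra hc
  obtain ⟨α, Z, β, l, u, r, rfl, -, -, h2, -, h3⟩ := h.big (fun _ => true) M (by simpa using hc)
  have := hM Z (by simp) u h2
  simp at h3; omega

theorem Cat.bind {U : Type} {Q : V → List U → Prop} {S : U → List W → Prop} {x : List V}
    {y : List U} {v : List W} (h : Cat Q x y) (h' : Cat S y v) :
    Cat (fun X u => ∃ α, Q X α ∧ Cat S α u) x v := by
  induction h generalizing v with
  | nil => rw [cat_nil.1 h']; exact Cat.nil
  | cons h1 _ ih =>
    obtain ⟨a, b, rfl, h3, h4⟩ := cat_append.1 h'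
    exact Cat.cons ⟨_, h1, h3⟩ (ih h4)

theorem Cat.unbind {U : Type} {Q : V → List U → Prop} {S : U → List W → Prop} {x : List V}
    {v : List W} (h : Cat (fun X u => ∃ α, Q X α ∧ Cat S α u) x v) :
    ∃ y, Cat Q x y ∧ Cat S y v := by
  induction h with
  | nil => exact ⟨[], Cat.nil, Cat.nil⟩
  | cons h1 _ ih =>
    obtain ⟨α, h3, h4⟩ := h1
    obtain ⟨y, h5, h6⟩ := ih
    exact ⟨_, Cat.cons h3 h5, h4.append h6⟩

theorem cat_iff_forall₂ {x : List V} {y : List W} :
    Cat R x y ↔ ∃ ys, List.Forall₂ R x ys ∧ y = ys.flatten := by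
  constructor
  · intro h
    induction h with
    | nil => exact ⟨[], List.Forall₂.nil, rfl⟩
    | cons h1 _ ih =>
      obtain ⟨ys, h3, rfl⟩ := ih
      exact ⟨_ :: ys, List.Forall₂.cons h1 h3, by simp⟩
  · rintro ⟨ys, h, rfl⟩
    induction h with
    | nil => exact Cat.nil
    | cons h1 _ ih => rw [List.flatten_cons]; exact Cat.cons h1 ih

theorem cat_self {T : V → Prop} {v : List V} (h : ∀ a ∈ v, T a) :
    Cat (fun X u => T X ∧ u = [X]) v v := by
  induction v with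
  | nil => exact Cat.nil
  | cons a v ih =>
    exact Cat.cons (u := [a]) ⟨h a (by simp), rfl⟩ (ih fun b hb => h b (by simp [hb]))

theorem cat_self' {T : V → Prop} {x v : List V} (h : Cat (fun X u => T X ∧ u = [X]) x v) :
    v = x := by
  induction h with
  | nil => rfl
  | cons h1 _ ih => rw [h1.2, ih]; rfl

end

section
variable {V : Type} (P : V → List V → Prop) (T : V → Prop)

/-- context-free derivation trees of height at most `n` -/
def D : ℕ → V → List V → Prop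
  | 0, X, v => T X ∧ v = [X]
  | n + 1, X, v => (T X ∧ v = [X]) ∨ ∃ α, P X α ∧ Cat (D n) α v

/-- parallel derivations of length exactly `n` -/
def Y : ℕ → V → List V → Prop
  | 0, X, v => T X ∧ v = [X]
  | n + 1, X, v => ∃ α, P X α ∧ Cat (Y n) α v

def Dv (X : V) (v : List V) : Prop := ∃ n, D P T n X v

variable {P T}

theorem D.succ : ∀ {n : ℕ} {X : V} {v : List V}, D P T n X v → D P T (n + 1) X v
  | 0, _, _, h => Or.inl h
  | _ + 1, _, _, h => h.imp id fun ⟨α, h1, h2⟩ => ⟨α, h1, h2.mono fun _ _ _ h => D.succ h⟩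

theorem D.le {n m : ℕ} (hnm : n ≤ m) {X : V} {v : List V} (h : D P T n X v) : D P T m X v := by
  induction hnm with
  | refl => exact h
  | step _ ih => exact ih.succ

theorem cat_Dv {x v : List V} (h : Cat (Dv P T) x v) : ∃ n, Cat (D P T n) x v := by
  induction h with
  | nil => exact ⟨0, Cat.nil⟩
  | cons h1 _ ih =>
    obtain ⟨n, hn⟩ := h1
    obtain ⟨m, hm⟩ := ih
    exact ⟨max n m, Cat.cons (hn.le (le_max_left _ _))
      (hm.mono fun _ _ _ h => h.le (le_max_right _ _))⟩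

theorem Dv.step {X : V} {α v : List V} (h : P X α) (h' : Cat (Dv P T) α v) : Dv P T X v := by
  obtain ⟨n, hn⟩ := cat_Dv h'
  exact ⟨n + 1, Or.inr ⟨α, h, hn⟩⟩

theorem Dv.term {X : V} (h : T X) : Dv P T X [X] := ⟨0, h, rfl⟩

theorem D.cat {n : ℕ} {x v : List V} (h : Cat (D P T n) x v) : Cat (Dv P T) x v :=
  h.mono fun _ _ _ h => ⟨n, h⟩

theorem D.tm : ∀ {n : ℕ} {X : V} {v : List V}, D P T n X v → ∀ a ∈ v, T a
  | 0, _, _, h => by rw [h.2]; simpa using h.1
  | _ + 1, _, _, h => by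
    rcases h with h | ⟨α, -, h⟩
    · rw [h.2]; simpa using h.1
    · exact h.forall_mem T fun _ _ _ h => D.tm h

theorem Y.tm : ∀ {n : ℕ} {X : V} {v : List V}, Y P T n X v → ∀ a ∈ v, T a
  | 0, _, _, h => by rw [h.2]; simpa using h.1
  | _ + 1, _, _, ⟨_, _, h⟩ => h.forall_mem T fun _ _ _ h => Y.tm h

theorem Y.len {ρ : ℕ} (hρ : ∀ X α, P X α → α.length ≤ ρ) :
    ∀ {n : ℕ} {X : V} {v : List V}, Y P T n X v → v.length ≤ ρ ^ n
  | 0, _, _, h => by rw [h.2]; simp
  | n + 1, X, _, ⟨α, h1, h⟩ => by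
    have := h.len (ρ ^ n) fun _ _ _ h => Y.len hρ h
    calc _ ≤ _ := this
      _ ≤ ρ * ρ ^ n := Nat.mul_le_mul_right _ (hρ X α h1)
      _ = _ := by ring

end

def Gr.pr (G : Gr) (X : G.V) (α : List G.V) : Prop := (X, α) ∈ G.P
def Gr.tm (G : Gr) (X : G.V) : Prop := G.lab X ≠ none

theorem Gr.rho (G : Gr) : ∃ ρ, 1 ≤ ρ ∧ ∀ X α, G.pr X α → α.length ≤ ρ := by
  obtain ⟨ρ, hρ⟩ := (G.Pfin.image fun p => p.2.length).bddAbove
  exact ⟨ρ + 1, by omega, fun X α h => (hρ ⟨_, h, rfl⟩).trans (by simp)⟩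

theorem tm_of_map {G : Gr} {v : List G.V} {w : List ℕ} (h : v.map G.lab = w.map some) :
    ∀ a ∈ v, G.tm a := by
  intro a ha e
  have : G.lab a ∈ w.map some := h ▸ List.mem_map_of_mem ha
  simp [e] at this

theorem seq_ctx {G : Gr} (l r : List G.V) {x y : List G.V} (h : ReflTransGen (seqStep G) x y) :
    ReflTransGen (seqStep G) (l ++ x ++ r) (l ++ y ++ r) := by
  induction h with
  | refl => exact ReflTransGen.refl
  | tail _ h2 ih =>
    obtain ⟨l', A, r', α, hp, rfl, rfl⟩ := h2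
    exact ih.tail ⟨l ++ l', A, r' ++ r, α, hp, by simp, by simp⟩

theorem seq_of_cat {G : Gr} {x v : List G.V}
    (h : Cat (fun X u => ReflTransGen (seqStep G) [X] u) x v) : ReflTransGen (seqStep G) x v := by
  induction h with
  | nil => exact ReflTransGen.refl
  | @cons X u x v h1 _ ih =>
    have a := seq_ctx [] x h1
    have b := seq_ctx u [] ih
    simp only [List.nil_append, List.append_nil] at a b
    exact a.trans b

theorem seq_of_D {G : Gr} : ∀ {n : ℕ} {X : G.V} {v : List G.V}, D G.pr G.tm n X v →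
    ReflTransGen (seqStep G) [X] v
  | 0, _, _, h => by rw [h.2]
  | _ + 1, X, _, h => by
    rcases h with h | ⟨α, h1, h⟩
    · rw [h.2]
    · exact ReflTransGen.head ⟨[], X, [], α, h1, rfl, by simp⟩
        (seq_of_cat (h.mono fun _ _ _ h => seq_of_D h))

theorem mem_cfLang {G : Gr} {w : List ℕ} :
    w ∈ cfLang G ↔ ∃ v, Dv G.pr G.tm G.S v ∧ v.map G.lab = w.map some := by
  constructor
  · rintro ⟨v, h, e⟩
    refine ⟨v, cat_single.1 ?_, e⟩
    have ht := tm_of_map e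
    clear e
    generalize [G.S] = x at h
    induction h using ReflTransGen.head_induction_on with
    | refl => exact (cat_self ht).mono fun X _ u h => h.2 ▸ Dv.term h.1
    | head h1 _ ih =>
      obtain ⟨l, A, r, α, hp, rfl, rfl⟩ := h1
      obtain ⟨a, c, rfl, h3, h4⟩ := cat_append.1 ih
      obtain ⟨a, b, rfl, h3, h5⟩ := cat_append.1 h3
      exact h3.mid (Dv.step hp h5) h4
  · rintro ⟨v, ⟨n, h⟩, e⟩
    exact ⟨v, seq_of_D h, e⟩

theorem mem_eolLang {G : Gr} {w : List ℕ} :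
    w ∈ eolLang G ↔ ∃ τ v, Y G.pr G.tm τ G.S v ∧ v.map G.lab = w.map some := by
  constructor
  · rintro ⟨v, h, e⟩
    suffices ∃ τ, Cat (Y G.pr G.tm τ) [G.S] v by
      obtain ⟨τ, h⟩ := this
      exact ⟨τ, v, cat_single.1 h, e⟩
    have ht := tm_of_map e
    clear e
    generalize [G.S] = x at h
    induction h using ReflTransGen.head_induction_on with
    | refl => exact ⟨0, cat_self ht⟩
    | head h1 _ ih =>
      obtain ⟨τ, h⟩ := ih
      exact ⟨τ + 1, (cat_iff_forall₂.2 h1).bind h⟩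
  · rintro ⟨τ, v, h, e⟩
    refine ⟨v, ?_, e⟩
    clear e
    have h' := cat_single.2 h
    clear h
    generalize [G.S] = x at h'
    induction τ generalizing x with
    | zero => rw [cat_self' h']
    | succ τ ih =>
      obtain ⟨y, h1, h2⟩ := Cat.unbind h'
      exact ReflTransGen.head (cat_iff_forall₂.1 h1) (ih y h2)

theorem Interp.trans {G₁ G₂ G₃ : Gr} (h : Interp G₁ G₂) (h' : Interp G₂ G₃) : Interp G₁ G₃ := by
  obtain ⟨μ, a1, a2, a3, a4⟩ := h
  obtain ⟨ν, b1, b2, b3, b4⟩ := h'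
  refine ⟨fun X => {Z | ∃ Y ∈ ν X, Z ∈ μ Y}, ?_, ?_, ?_, ⟨_, b4, a4⟩⟩
  · rintro X Z ⟨Y, h1, h2⟩
    exact (a1 Y Z h2).trans (b1 X Y h1)
  · intro X X' hX
    rw [Set.disjoint_left]
    rintro Z ⟨Y, h1, h2⟩ ⟨Y', h3, h4⟩
    by_cases e : Y = Y'
    · subst e; exact Set.disjoint_left.1 (b2 X X' hX) h1 h3
    · exact Set.disjoint_left.1 (a2 Y Y' e) h2 h4
  · intro p hp
    obtain ⟨q, hq, h1, h2⟩ := a3 p hp
    obtain ⟨r, hr, h3, h4⟩ := b3 q hq
    refine ⟨r, hr, ⟨_, h3, h1⟩, ?_⟩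
    generalize p.2 = x at h2
    generalize q.2 = y at h2 h4
    generalize r.2 = z at h4
    induction h2 generalizing z with
    | nil => cases h4; exact List.Forall₂.nil
    | cons h5 _ ih =>
      cases h4 with
      | cons h6 h7 => exact List.Forall₂.cons ⟨_, h6, h5⟩ (ih _ h7)

/-- the grammar of labelled copies -/
noncomputable def copy (G : Gr) (Λ : Type) [Finite Λ] (ok : G.V × Λ → List (G.V × Λ) → Prop)
    (s : Λ) (enc : G.V × Λ → ℕ) (he : Function.Injective enc) : Gr where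
  V := G.V × Λ
  fin := by have := G.fin; infer_instance
  lab := fun x => (G.lab x.1).map fun _ => enc x
  inj := by
    intro X Y n h1 h2
    simp only [Option.map_eq_some_iff] at h1 h2
    obtain ⟨_, _, h1⟩ := h1
    obtain ⟨_, _, h2⟩ := h2
    exact he (h1.trans h2.symm)
  P := {p | G.pr p.1.1 (p.2.map Prod.fst) ∧ ok p.1 p.2}
  Pfin := by
    have := G.fin
    obtain ⟨ρ, -, hρ⟩ := G.rho
    refine ((Set.finite_univ (α := G.V × Λ)).prod (List.finite_length_le (G.V × Λ) ρ)).subset ?_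
    rintro ⟨x, α⟩ h
    have := hρ _ _ h.1
    simpa using this
  S := (G.S, s)

theorem copy_interp (G : Gr) (Λ : Type) [Finite Λ] (ok) (s : Λ) (enc he) :
    Interp (copy G Λ ok s enc he) G := by
  refine ⟨fun X => {Z | Z.1 = X}, ?_, ?_, ?_, rfl⟩
  · rintro X Z rfl
    simp [copy]
  · intro X X' h
    rw [Set.disjoint_left]
    rintro Z rfl h2
    exact h h2
  · rintro ⟨x, α⟩ h
    refine ⟨(x.1, α.map Prod.fst), h.1, rfl, ?_⟩
    simp only [List.forall₂_map_right_iff]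
    exact List.forall₂_same.2 fun _ _ => rfl

def cpP (G : Gr) {Λ : Type} (ok : G.V × Λ → List (G.V × Λ) → Prop) (x : G.V × Λ)
    (α : List (G.V × Λ)) : Prop := G.pr x.1 (α.map Prod.fst) ∧ ok x α

theorem copy_map (G : Gr) {Λ : Type} (enc : G.V × Λ → ℕ) {v : List (G.V × Λ)}
    {w : List ℕ} : List.map (fun x : G.V × Λ => (G.lab x.1).map fun _ => enc x) v = w.map some ↔
      (∀ a ∈ v, G.tm a.1) ∧ w = v.map enc := by
  induction v generalizing w with
  | nil => simp
  | cons a v ih =>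
    cases w with
    | nil => simp
    | cons b w =>
      simp only [List.map_cons, List.cons.injEq, List.mem_cons, forall_eq_or_imp]
      rw [ih]
      have : (G.lab a.1).map (fun _ => enc a) = some b ↔ G.tm a.1 ∧ b = enc a := by
        simp only [Gr.tm]
        cases G.lab a.1 <;> simp [eq_comm]
      rw [this]; tauto

theorem copy_tm (G : Gr) (Λ : Type) [Finite Λ] (ok) (s : Λ) (enc he) :
    (copy G Λ ok s enc he).tm = fun x : G.V × Λ => G.tm x.1 := by
  funext x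
  simp [copy, Gr.tm]

theorem mem_cf_copy (G : Gr) (Λ : Type) [Finite Λ] (ok) (s : Λ) (enc he) {w : List ℕ} :
    w ∈ cfLang (copy G Λ ok s enc he) ↔ ∃ v : List (G.V × Λ),
      Dv (cpP G ok) (fun x => G.tm x.1) (G.S, s) v ∧ w = v.map enc := by
  rw [mem_cfLang, copy_tm]
  constructor
  · rintro ⟨v, h, e⟩
    exact ⟨v, h, ((copy_map G enc).1 e).2⟩
  · rintro ⟨v, ⟨n, h⟩, e⟩
    exact ⟨v, ⟨n, h⟩, (copy_map G enc).2 ⟨h.tm, e⟩⟩

theorem mem_eol_copy (G : Gr) (Λ : Type) [Finite Λ] (ok) (s : Λ) (enc he) {w : List ℕ} :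
    w ∈ eolLang (copy G Λ ok s enc he) ↔ ∃ τ, ∃ v : List (G.V × Λ),
      Y (cpP G ok) (fun x => G.tm x.1) τ (G.S, s) v ∧ w = v.map enc := by
  rw [mem_eolLang, copy_tm]
  constructor
  · rintro ⟨τ, v, h, e⟩
    exact ⟨τ, v, h, ((copy_map G enc).1 e).2⟩
  · rintro ⟨τ, v, h, e⟩
    exact ⟨τ, v, h, (copy_map G enc).2 ⟨h.tm, e⟩⟩

theorem copy_cf (G : Gr) (hG : IsCF G) (Λ : Type) [Finite Λ] (ok) (s : Λ) (enc he) :
    IsCF (copy G Λ ok s enc he) := by
  refine ⟨by simp [copy, hG.1], ?_⟩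
  rintro ⟨x, α⟩ h
  have := hG.2 _ h.1
  simp only at this
  simp [copy, this]

end Pool.Agent.H24.Eol
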