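import Pool.Agent.H24.Eol1

namespace Pool.Agent.H24.Eol

section
variable {V : Type} {P : V → List V → Prop} {T : V → Prop}

def Emb (P : V → List V → Prop) (T : V → Prop) (A : V) (x y : List V) (B : V) : Prop :=
  ∀ u, Dv P T B u → Dv P T A (x ++ u ++ y)

theorem Emb.trans {A B C : V} {x y x' y' : List V} (h : Emb P T A x y B) (h' : Emb P T B x' y' C) :
    Emb P T A (x ++ x') (y' ++ y) C := fun u hu => by
  have := h _ (h' u hu)
  simpa using this

theorem Emb.edge {A B : V} {α β l r : List V} (h : P A (α ++ B :: β)) (h1 : Cat (Dv P T) α l)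
    (h2 : Cat (Dv P T) β r) : Emb P T A l r B := fun _ hu => Dv.step h (h1.mid hu h2)

def rep (i : ℕ) (b : List V) : List V := (List.replicate i b).flatten

theorem rep_succ (i : ℕ) (b : List V) : rep (i + 1) b = b ++ rep i b := by
  simp [rep, List.replicate_succ]

theorem rep_succ' (i : ℕ) (b : List V) : rep (i + 1) b = rep i b ++ b := by
  simp [rep, List.replicate_succ']

theorem Emb.pow {A : V} {x y : List V} (h : Emb P T A x y A) (i : ℕ) :
    Emb P T A (rep i x) (rep i y) A := by
  induction i with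
  | zero => intro u hu; simpa [rep] using hu
  | succ i ih => rw [rep_succ, rep_succ']; exact h.trans ih

def Pump (P : V → List V → Prop) (T : V → Prop) (S : V) (q : V → Bool) (w : List V) : Prop :=
  ∃ a b c d e, w = a ++ b ++ c ++ d ++ e ∧ 0 < (b ++ d).countP q ∧
    ∀ i, Dv P T S (a ++ rep i b ++ c ++ rep i d ++ e)

theorem pump_aux [Fintype V] {ρ : ℕ} (h1 : 1 ≤ ρ) (hρ : ∀ X α, P X α → α.length ≤ ρ) (S : V)
    (q : V → Bool) : ∀ (n : ℕ) (X : V) (v : List V) (U : Finset V) (l r : List V),
    Emb P T S l r X → D P T n X v →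
    (∀ Z ∈ U, ∃ l' x y r', l = l' ++ x ∧ r = y ++ r' ∧ Emb P T S l' r' Z ∧ Emb P T Z x y X ∧
      0 < (x ++ y).countP q) →
    ρ ^ (Fintype.card V - U.card) < v.countP q → Pump P T S q (l ++ v ++ r) := by
  classical
  have base : ∀ (X : V) (k : ℕ), ¬ ρ ^ k < [X].countP q := by
    intro X k h
    have a : [X].countP q ≤ 1 := List.countP_le_length
    have b : 1 ≤ ρ ^ k := Nat.one_le_pow _ _ h1
    omega
  intro n
  induction n with
  | zero =>
    intro X v U l r _ h _ hc
    rw [h.2] at hc
    exact absurd hc (base _ _)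
  | succ n ih =>
    intro X v U l r he h hU hc
    by_cases hX : X ∈ U
    · obtain ⟨l', x, y, r', rfl, rfl, e1, e2, hp⟩ := hU X hX
      refine ⟨l', x, v, y, r', by simp, hp, fun i => ?_⟩
      have := e1 _ (e2.pow i v ⟨_, h⟩)
      simpa using this
    rcases h with h | ⟨α, hp, h⟩
    · rw [h.2] at hc
      exact absurd hc (base _ _)
    have hk : U.card + 1 ≤ Fintype.card V := by
      rw [← Finset.card_insert_of_notMem hX]; exact Finset.card_le_univ _
    obtain ⟨k, hk'⟩ : ∃ k, Fintype.card V - U.card = k + 1 := ⟨Fintype.card V - U.card - 1, by omega⟩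
    rw [hk'] at hc
    have hb : α.length * ρ ^ k < v.countP q := by
      refine lt_of_le_of_lt ?_ hc
      rw [pow_succ']
      exact Nat.mul_le_mul_right _ (hρ _ _ hp)
    obtain ⟨α₁, Z, β, l₁, u, r₁, rfl, rfl, c1, c2, c3, hu⟩ := h.big q _ hb
    have e3 : Emb P T X l₁ r₁ Z := Emb.edge hp (D.cat c1) (D.cat c3)
    have hU' : ∀ Z' ∈ U, ∃ l' x y r', l ++ l₁ = l' ++ x ∧ r₁ ++ r = y ++ r' ∧ Emb P T S l' r' Z' ∧
        Emb P T Z' x y Z ∧ 0 < (x ++ y).countP q := by
      intro Z' hZ'
      obtain ⟨l', x, y, r', rfl, rfl, e1, e2, hp⟩ := hU Z' hZ'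
      refine ⟨l', x ++ l₁, r₁ ++ y, r', by simp, by simp, e1, e2.trans e3, ?_⟩
      simp only [List.countP_append] at hp ⊢; omega
    have goal : Pump P T S q (l ++ l₁ ++ u ++ (r₁ ++ r)) := by
      by_cases h0 : 0 < (l₁ ++ r₁).countP q
      · refine ih Z u (insert X U) _ _ (he.trans e3) c2 ?_ ?_
        · intro Z' hZ'
          rcases Finset.mem_insert.1 hZ' with rfl | hZ'
          · exact ⟨l, l₁, r₁, r, rfl, rfl, he, e3, h0⟩
          · exact hU' Z' hZ'
        · rw [Finset.card_insert_of_notMem hX]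
          have : Fintype.card V - (U.card + 1) = k := by omega
          rwa [this]
      · refine ih Z u U _ _ (he.trans e3) c2 hU' ?_
        rw [hk']
        simp only [List.countP_append] at h0 hc; omega
    simpa using goal

theorem pumping [Finite V] {ρ : ℕ} (h1 : 1 ≤ ρ) (hρ : ∀ X α, P X α → α.length ≤ ρ) (S : V)
    (q : V → Bool) : ∃ K, ∀ v, Dv P T S v → K < v.countP q → Pump P T S q v := by
  have := Fintype.ofFinite V
  refine ⟨ρ ^ Fintype.card V, fun v ⟨n, h⟩ hc => ?_⟩
  have := pump_aux h1 hρ S q n S v ∅ [] [] (fun u hu => by simpa using hu) h (by simp)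
    (by simpa using hc)
  simpa using this

end

theorem map_rep {V W : Type} (f : V → W) (i : ℕ) (b : List V) :
    (rep i b).map f = rep i (b.map f) := by
  induction i with
  | zero => simp [rep]
  | succ i ih => simp [rep_succ, ih]

theorem countP_rep {V : Type} (q : V → Bool) (i : ℕ) (b : List V) :
    (rep i b).countP q = i * b.countP q := by
  induction i with
  | zero => simp [rep]
  | succ i ih => simp [rep_succ, ih]; ring

/-- Pumping with marked letters for context-free languages. -/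
theorem cf_pump (G : Gr) (q : ℕ → Bool) : ∃ K, ∀ w ∈ cfLang G, K < w.countP q →
    ∃ a b c d e, w = a ++ b ++ c ++ d ++ e ∧ 0 < (b ++ d).countP q ∧
      ∀ i, a ++ rep i b ++ c ++ rep i d ++ e ∈ cfLang G := by
  have := G.fin
  obtain ⟨ρ, h1, hρ⟩ := G.rho
  let f : G.V → ℕ := fun X => (G.lab X).getD 0
  have key : ∀ v : List G.V, (∀ a ∈ v, G.tm a) → v.map G.lab = (v.map f).map some := by
    intro v hv
    rw [List.map_map]
    refine List.map_congr_left fun a ha => ?_
    have := hv a ha
    simp only [Gr.tm] at this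
    simp only [f, Function.comp]
    cases h : G.lab a <;> simp_all
  obtain ⟨K, hK⟩ := pumping (T := G.tm) h1 hρ G.S (fun X => q (f X))
  refine ⟨K, fun w hw hc => ?_⟩
  obtain ⟨v, hv, e⟩ := mem_cfLang.1 hw
  have e' : w = v.map f := by
    rw [key v (tm_of_map e)] at e
    exact (List.map_injective_iff.2 (Option.some_injective _) e).symm
  subst e'
  clear e
  obtain ⟨a, b, c, d, e, rfl, hp, hi⟩ := hK v hv (by rwa [List.countP_map] at hc)
  refine ⟨a.map f, b.map f, c.map f, d.map f, e.map f, by simp, ?_, fun i => ?_⟩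
  · rw [← List.map_append, List.countP_map]; exact hp
  · obtain ⟨n, hn⟩ := hi i
    refine mem_cfLang.2 ⟨_, ⟨n, hn⟩, ?_⟩
    rw [key _ hn.tm]
    simp [map_rep]

end Pool.Agent.H24.Eol
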