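import Pool.Agent.H24.Eol2

namespace Pool.Agent.H24.Eol

section
variable {V : Type}

def lq (x : List V) (L : Set (List V)) : Set (List V) := {w | x ++ w ∈ L}
def rq (L : Set (List V)) (y : List V) : Set (List V) := {w | w ++ y ∈ L}
def FL (L : Set (List V)) : Prop := (Set.range fun x => lq x L).Finite
def FR (L : Set (List V)) : Prop := (Set.range fun y => rq L y).Finite

theorem FL.fr {L : Set (List V)} (h : FL L) : FR L := by
  refine (h.finite_subsets.image fun s => {x | lq x L ∈ s}).subset ?_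
  rintro _ ⟨y, rfl⟩
  refine ⟨{Q | Q ∈ Set.range (fun x => lq x L) ∧ y ∈ Q}, fun _ h => h.1, ?_⟩
  ext x
  simp only [Set.mem_ofPred_eq, rq]
  exact ⟨fun h => h.2, fun h => ⟨⟨x, rfl⟩, h⟩⟩

theorem FR.fl {L : Set (List V)} (h : FR L) : FL L := by
  refine (h.finite_subsets.image fun s => {y | rq L y ∈ s}).subset ?_
  rintro _ ⟨x, rfl⟩
  refine ⟨{Q | Q ∈ Set.range (fun y => rq L y) ∧ x ∈ Q}, fun _ h => h.1, ?_⟩
  ext y
  simp only [Set.mem_ofPred_eq, lq]
  exact ⟨fun h => h.2, fun h => ⟨⟨y, rfl⟩, h⟩⟩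

def PeelL (F : Set (Set (List V))) (K : Set (List V)) (w : List V) : Prop :=
  ∃ a w', ∃ K' ∈ F, w = a :: w' ∧ w' ∈ K' ∧ ∀ z ∈ K', a :: z ∈ K
def PeelR (F : Set (Set (List V))) (K : Set (List V)) (w : List V) : Prop :=
  ∃ a w', ∃ K' ∈ F, w = w' ++ [a] ∧ w' ∈ K' ∧ ∀ z ∈ K', z ++ [a] ∈ K
def Pl (bl br : Prop) (F : Set (Set (List V))) (K : Set (List V)) (w : List V) : Prop :=
  (bl ∧ PeelL F K w) ∨ (br ∧ PeelR F K w)
def Peelable (bl br : Prop) (F : Set (Set (List V))) : Prop :=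
  ∀ K ∈ F, ∀ w ∈ K, w ≠ [] → Pl bl br F K w

theorem Pl.mono {bl br : Prop} {F : Set (Set (List V))} {K K' : Set (List V)} {w : List V}
    (h : Pl bl br F K w) (hK : K ⊆ K') : Pl bl br F K' w := by
  rcases h with ⟨b, a, w', K1, h1, h2, h3, h4⟩ | ⟨b, a, w', K1, h1, h2, h3, h4⟩
  · exact Or.inl ⟨b, a, w', K1, h1, h2, h3, fun z hz => hK (h4 z hz)⟩
  · exact Or.inr ⟨b, a, w', K1, h1, h2, h3, fun z hz => hK (h4 z hz)⟩

theorem fl_of_peel {F : Set (Set (List V))} (hF : F.Finite) (hp : Peelable True False F)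
    {K : Set (List V)} (hK : K ∈ F) : FL K := by
  have key : ∀ (x : List V), ∀ K ∈ F, ∀ w, x ++ w ∈ K →
      ∃ K' ∈ F, w ∈ K' ∧ ∀ z ∈ K', x ++ z ∈ K := by
    intro x
    induction x with
    | nil => intro K hK w hw; exact ⟨K, hK, hw, fun z hz => hz⟩
    | cons a x ih =>
      intro K hK w hw
      rcases hp K hK _ hw (by simp) with ⟨-, b, w', K1, h1, h2, h3, h4⟩ | ⟨h, -⟩
      · obtain ⟨rfl, rfl⟩ := List.cons.inj h2
        obtain ⟨K', a1, a2, a3⟩ := ih K1 h1 w h3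
        exact ⟨K', a1, a2, fun z hz => h4 _ (a3 z hz)⟩
      · exact h.elim
  refine (hF.finite_subsets.image fun s => Set.sUnion s).subset ?_
  rintro _ ⟨x, rfl⟩
  refine ⟨{K' | K' ∈ F ∧ ∀ z ∈ K', x ++ z ∈ K}, fun _ h => h.1, ?_⟩
  ext w
  constructor
  · rintro ⟨K', h1, h2⟩; exact h1.2 w h2
  · intro h
    obtain ⟨K', a1, a2, a3⟩ := key x K hK w h
    exact ⟨K', ⟨a1, a3⟩, a2⟩

theorem fr_of_peel {F : Set (Set (List V))} (hF : F.Finite) (hp : Peelable False True F)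
    {K : Set (List V)} (hK : K ∈ F) : FR K := by
  have key : ∀ (x : List V), ∀ K ∈ F, ∀ w, w ++ x ∈ K →
      ∃ K' ∈ F, w ∈ K' ∧ ∀ z ∈ K', z ++ x ∈ K := by
    intro x
    induction x using List.reverseRecOn with
    | nil => intro K hK w hw; exact ⟨K, hK, by simpa using hw, fun z hz => by simpa using hz⟩
    | append_singleton x a ih =>
      intro K hK w hw
      rcases hp K hK _ hw (by simp) with ⟨h, -⟩ | ⟨-, b, w', K1, h1, h2, h3, h4⟩
      · exact h.elim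
      · rw [← List.append_assoc] at h2
        obtain ⟨rfl, e⟩ := List.append_inj' h2 rfl
        obtain rfl : a = b := by simpa using e
        obtain ⟨K', a1, a2, a3⟩ := ih K1 h1 w h3
        exact ⟨K', a1, a2, fun z hz => by
          rw [← List.append_assoc]; exact h4 _ (a3 z hz)⟩
  refine (hF.finite_subsets.image fun s => Set.sUnion s).subset ?_
  rintro _ ⟨x, rfl⟩
  refine ⟨{K' | K' ∈ F ∧ ∀ z ∈ K', z ++ x ∈ K}, fun _ h => h.1, ?_⟩
  ext w
  constructor
  · rintro ⟨K', h1, h2⟩; exact h1.2 w h2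
  · intro h
    obtain ⟨K', a1, a2, a3⟩ := key x K hK w h
    exact ⟨K', ⟨a1, a3⟩, a2⟩

theorem fl_single (s : List V) : FL {s} := by
  refine fl_of_peel (F := (fun t => {t}) '' {t | t ∈ s.tails}) ((List.finite_toSet _).image _)
    ?_ ⟨s, by simp, rfl⟩
  rintro _ ⟨t, ht, rfl⟩ w rfl hw
  obtain ⟨a, w', rfl⟩ := List.exists_cons_of_ne_nil hw
  refine Or.inl ⟨trivial, a, w', {w'}, ⟨w', ?_, rfl⟩, rfl, rfl, by simp⟩
  simp only [Set.mem_ofPred_eq, List.mem_tails] at ht ⊢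
  exact (List.suffix_cons a w').trans ht

def tri (A B C : Set (List V)) : Set (List V) :=
  {w | ∃ x ∈ A, ∃ u ∈ B, ∃ y ∈ C, w = x ++ u ++ y}

theorem lq_lq (x y : List V) (L : Set (List V)) : lq y (lq x L) = lq (x ++ y) L := by
  ext w; simp [lq]

theorem rq_rq (x y : List V) (L : Set (List V)) : rq (rq L x) y = rq L (y ++ x) := by
  ext w; simp [rq]

theorem FL.cat {A B : Set (List V)} (hA : FL A) (hB : FL B) : FL (tri A B {[]}) := by
  refine fl_of_peel (F := (fun Q => tri Q B {[]}) '' (Set.range fun x => lq x A) ∪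
    Set.range fun x => lq x B) ((hA.image _).union hB) ?_ (Or.inl ⟨A, ⟨[], rfl⟩, rfl⟩)
  rintro _ (⟨_, ⟨x, rfl⟩, rfl⟩ | ⟨x, rfl⟩) w hw hne
  · obtain ⟨q, hq, u, hu, _, rfl, rfl⟩ := hw
    cases q with
    | nil =>
      obtain ⟨a, w', e⟩ := List.exists_cons_of_ne_nil hne
      simp only [List.nil_append, List.append_nil] at e
      subst e
      exact Or.inl ⟨trivial, a, w', lq [a] B, Or.inr ⟨[a], rfl⟩, by simp, hu,
        fun z hz => ⟨[], hq, a :: z, hz, [], rfl, by simp⟩⟩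
    | cons a q =>
      refine Or.inl ⟨trivial, a, q ++ u ++ [], tri (lq [a] (lq x A)) B {[]},
        Or.inl ⟨_, ⟨x ++ [a], (lq_lq _ _ _).symm⟩, rfl⟩, by simp, ⟨q, hq, u, hu, [], rfl, rfl⟩, ?_⟩
      rintro _ ⟨q', hq', u', hu', _, rfl, rfl⟩
      exact ⟨a :: q', hq', u', hu', [], rfl, by simp⟩
  · obtain ⟨a, w', rfl⟩ := List.exists_cons_of_ne_nil hne
    exact Or.inl ⟨trivial, a, w', lq [a] (lq x B), Or.inr ⟨x ++ [a], (lq_lq _ _ _).symm⟩, rfl, hw,
      fun z hz => hz⟩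

theorem fl_cat {U : Type} {R : U → List V → Prop} {γ : List U} (h : ∀ X ∈ γ, FL {u | R X u}) :
    FL {v | Cat R γ v} := by
  induction γ with
  | nil => simpa [cat_nil] using fl_single ([] : List V)
  | cons X γ ih =>
    have := (h X (by simp)).cat (ih fun Z hZ => h Z (by simp [hZ]))
    convert this using 1
    ext w
    simp only [Set.mem_ofPred_eq, cat_cons, tri]
    constructor
    · rintro ⟨u, v, rfl, h1, h2⟩; exact ⟨u, h1, v, h2, [], rfl, by simp⟩
    · rintro ⟨u, h1, v, h2, _, rfl, rfl⟩; exact ⟨u, v, by simp, h1, h2⟩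

variable {P : V → List V → Prop} {T : V → Prop}

theorem three [Finite V] (bl br : Prop) (hb : bl ∨ br) (C : Set V) (RR : Set (Set (List V)))
    (hR : RR.Finite) (hR' : ∀ R ∈ RR, FL R)
    (hdec : ∀ A ∈ C, ∀ n u, D P T n A u → (∃ R ∈ RR, u ∈ R ∧ R ⊆ {u | Dv P T A u}) ∨
      ∃ m < n, ∃ A' ∈ C, ∃ R1 R2, (R1 ∈ RR ∧ bl ∨ R1 = {[]}) ∧ (R2 ∈ RR ∧ br ∨ R2 = {[]}) ∧
        ∃ x ∈ R1, ∃ y ∈ R2, ∃ u', u = x ++ u' ++ y ∧ D P T m A' u' ∧
          ∀ x ∈ R1, ∀ y ∈ R2, Emb P T A x y A') :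
    ∃ F : Set (Set (List V)), F.Finite ∧ Peelable bl br F ∧ ∀ A ∈ C, {u | Dv P T A u} ∈ F := by
  let LL : Set (Set (List V)) := {Q | Q = {[]} ∨ bl ∧ ∃ R ∈ RR, ∃ x, Q = lq x R}
  let RL : Set (Set (List V)) := {Q | Q = {[]} ∨ br ∧ ∃ R ∈ RR, ∃ x, Q = rq R x}
  let MM : Set (Set (List V)) := {Q | Q = {[]} ∨ ∃ A ∈ C, Q = {u | Dv P T A u}}
  have fL : LL.Finite := by
    refine ((hR.biUnion fun R h => hR' R h).insert {[]}).subset ?_
    rintro Q (rfl | ⟨-, R, h, x, rfl⟩)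
    · simp
    · exact Or.inr (Set.mem_biUnion h ⟨x, rfl⟩)
  have fR : RL.Finite := by
    refine ((hR.biUnion fun R h => (hR' R h).fr).insert {[]}).subset ?_
    rintro Q (rfl | ⟨-, R, h, x, rfl⟩)
    · simp
    · exact Or.inr (Set.mem_biUnion h ⟨x, rfl⟩)
  have fM : MM.Finite := by
    refine ((Set.finite_range fun A => {u | Dv P T A u}).insert {[]}).subset ?_
    rintro Q (rfl | ⟨A, -, rfl⟩)
    · simp
    · exact Or.inr ⟨A, rfl⟩
  let F : Set (Set (List V)) := (fun t : _ × _ × _ => tri t.1 t.2.1 t.2.2) '' LL ×ˢ MM ×ˢ RL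
  have mem : ∀ {A B C}, A ∈ LL → B ∈ MM → C ∈ RL → tri A B C ∈ F :=
    fun h1 h2 h3 => ⟨(_, _, _), ⟨h1, h2, h3⟩, rfl⟩
  have side : ∀ {A B C}, A ∈ LL → B ∈ MM → C ∈ RL → ∀ x ∈ A, ∀ u ∈ B, ∀ y ∈ C,
      (x ≠ [] ∨ y ≠ []) → Pl bl br F (tri A B C) (x ++ u ++ y) := by
    intro A B C h1 h2 h3 x hx u hu y hy hne
    rcases hne with hne | hne
    · obtain ⟨a, x, rfl⟩ := List.exists_cons_of_ne_nil hne
      rcases h1 with rfl | ⟨b, R, h, z, rfl⟩
      · simp at hx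
      refine Or.inl ⟨b, a, x ++ u ++ y, tri (lq [a] (lq z R)) B C,
        mem (Or.inr ⟨b, R, h, _, lq_lq _ _ _⟩) h2 h3, by simp, ⟨x, hx, u, hu, y, hy, rfl⟩, ?_⟩
      rintro _ ⟨x', hx', u', hu', y', hy', rfl⟩
      exact ⟨a :: x', hx', u', hu', y', hy', by simp⟩
    · obtain ⟨y, a, rfl⟩ := (List.eq_nil_or_concat' y).resolve_left hne
      rcases h3 with rfl | ⟨b, R, h, z, rfl⟩
      · simp at hy
      refine Or.inr ⟨b, a, x ++ u ++ y, tri A B (rq (rq R z) [a]),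
        mem h1 h2 (Or.inr ⟨b, R, h, _, rq_rq _ _ _⟩), by simp, ⟨x, hx, u, hu, y, hy, rfl⟩, ?_⟩
      rintro _ ⟨x', hx', u', hu', y', hy', rfl⟩
      exact ⟨x', hx', u', hu', y' ++ [a], hy', by simp⟩
  have inner : ∀ n, ∀ A ∈ C, ∀ u, D P T n A u → u ≠ [] → Pl bl br F {u | Dv P T A u} u := by
    intro n
    induction n using Nat.strong_induction_on with
    | _ n ih =>
      intro A hA u hu hne
      rcases hdec A hA n u hu with ⟨R, h1, h2, h3⟩ |
        ⟨m, hm, A', hA', R1, R2, h1, h2, x, hx, y, hy, u', rfl, h3, h4⟩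
      · rcases hb with b | b
        · have := side (A := R) (Or.inr ⟨b, R, h1, [], rfl⟩) (Or.inl rfl) (Or.inl rfl) u h2 [] rfl
            [] rfl (Or.inl hne)
          simp only [List.append_nil] at this
          refine this.mono ?_
          rintro _ ⟨x, hx, _, rfl, _, rfl, rfl⟩
          simpa using h3 hx
        · have := side (C := R) (Or.inl rfl) (Or.inl rfl)
            (Or.inr ⟨b, R, h1, [], by ext; simp [rq]⟩) [] rfl [] rfl u h2 (Or.inr hne)
          simp only [List.nil_append] at this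
          refine this.mono ?_
          rintro _ ⟨_, rfl, _, rfl, x, hx, rfl⟩
          simpa using h3 hx
      · by_cases hxy : x ≠ [] ∨ y ≠ []
        · have g1 : R1 ∈ LL := by
            rcases h1 with ⟨h, b⟩ | h
            · exact Or.inr ⟨b, R1, h, [], rfl⟩
            · exact Or.inl h
          have g2 : R2 ∈ RL := by
            rcases h2 with ⟨h, b⟩ | h
            · exact Or.inr ⟨b, R2, h, [], by ext; simp [rq]⟩
            · exact Or.inl h
          refine (side g1 (Or.inr ⟨A', hA', rfl⟩) g2 x hx u' ⟨m, h3⟩ y hy hxy).mono ?_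
          rintro _ ⟨x', hx', u', hu', y', hy', rfl⟩
          exact h4 x' hx' y' hy' u' hu'
        · push Not at hxy
          obtain ⟨rfl, rfl⟩ := hxy
          simp only [List.nil_append, List.append_nil] at hne ⊢
          refine (ih m hm A' hA' u' h3 hne).mono fun z hz => ?_
          simpa using h4 [] hx [] hy z hz
  refine ⟨F, (fL.prod (fM.prod fR)).image _, ?_, fun A hA => ?_⟩
  · rintro _ ⟨⟨A, B, C⟩, ⟨h1, h2, h3⟩, rfl⟩ _ ⟨x, hx, u, hu, y, hy, rfl⟩ hne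
    by_cases hxy : x ≠ [] ∨ y ≠ []
    · exact side h1 h2 h3 x hx u hu y hy hxy
    · push Not at hxy
      obtain ⟨rfl, rfl⟩ := hxy
      simp only [List.nil_append, List.append_nil] at hne ⊢
      rcases h2 with rfl | ⟨A', hA', rfl⟩
      · exact absurd hu hne
      · obtain ⟨n, hn⟩ := hu
        exact (inner n A' hA' u hn hne).mono fun z hz => ⟨[], hx, z, hz, [], hy, by simp⟩
  · convert mem (Or.inl rfl) (Or.inr ⟨A, hA, rfl⟩) (Or.inl rfl) using 1
    ext w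
    constructor
    · intro h; exact ⟨[], rfl, w, h, [], rfl, by simp⟩
    · rintro ⟨_, rfl, u, h, _, rfl, rfl⟩; simpa using h

end

/-- the linear grammar of a peelable family -/
def linP (G : Gr) (F : Set (Set (List G.V))) (X : F ⊕ G.V) (α : List (F ⊕ G.V)) : Prop :=
  ∃ K : F, X = Sum.inl K ∧ ((α = [] ∧ [] ∈ K.1) ∨ ∃ a, ∃ K' : F, G.tm a ∧
    ((α = [Sum.inr a, Sum.inl K'] ∧ ∀ z ∈ K'.1, a :: z ∈ K.1) ∨
     (α = [Sum.inl K', Sum.inr a] ∧ ∀ z ∈ K'.1, z ++ [a] ∈ K.1)))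

def linL (G : Gr) (F : Set (Set (List G.V))) : F ⊕ G.V → Option ℕ := Sum.elim (fun _ => none) G.lab

def linG (G : Gr) (F : Set (Set (List G.V))) (hF : F.Finite) (K : F) : Gr where
  V := F ⊕ G.V
  fin := by have := G.fin; have := hF.to_subtype; infer_instance
  lab := linL G F
  inj := by
    rintro (X | X) (Y | Y) n h1 h2 <;> simp [linL] at h1 h2
    rw [G.inj X Y n h1 h2]
  P := {p | linP G F p.1 p.2}
  Pfin := by
    have := G.fin; have := hF.to_subtype
    refine ((Set.finite_univ (α := F ⊕ G.V)).prod (List.finite_length_le (F ⊕ G.V) 2)).subset ?_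
    rintro ⟨x, α⟩ ⟨K, -, ⟨h, -⟩ | ⟨a, K', -, ⟨h, -⟩ | ⟨h, -⟩⟩⟩ <;> simp only at h <;> simp [h]
  S := Sum.inl K

theorem lin_of_peel (G : Gr) (F : Set (Set (List G.V))) (hF : F.Finite)
    (hp : Peelable True True F) (hK : {u | Dv G.pr G.tm G.S u} ∈ F) : cfLang G ∈ LIN := by
  have term : ∀ (n : ℕ) (a : G.V) (u : List (F ⊕ G.V)),
      D (linP G F) (fun X => linL G F X ≠ none) n (Sum.inr a) u → u = [Sum.inr a] := by
    intro n a u h
    cases n with
    | zero => exact h.2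
    | succ n =>
      rcases h with h | ⟨α, ⟨K, h, -⟩, -⟩
      · exact h.2
      · simp at h
  have sound : ∀ (n : ℕ) (K : F) (v : List (F ⊕ G.V)),
      D (linP G F) (fun X => linL G F X ≠ none) n (Sum.inl K) v → ∃ w ∈ K.1, v = w.map Sum.inr := by
    intro n
    induction n with
    | zero => intro K v h; exact absurd rfl h.1
    | succ n ih =>
      intro K v h
      rcases h with h | ⟨α, ⟨K0, e, h⟩, hc⟩
      · exact absurd rfl h.1
      obtain rfl : K = K0 := by simpa using e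
      rcases h with ⟨rfl, h⟩ | ⟨a, K', -, ⟨rfl, h⟩ | ⟨rfl, h⟩⟩
      · exact ⟨[], h, by rw [cat_nil.1 hc]; rfl⟩
      · obtain ⟨u, v, rfl, h1, h2⟩ := cat_cons.1 hc
        obtain ⟨w, hw, rfl⟩ := ih K' v (cat_single.1 h2)
        rw [term n a u h1]
        exact ⟨a :: w, h w hw, rfl⟩
      · obtain ⟨u, v, rfl, h1, h2⟩ := cat_cons.1 hc
        obtain ⟨w, hw, rfl⟩ := ih K' u h1
        rw [term n a v (cat_single.1 h2)]
        exact ⟨w ++ [a], h w hw, by simp⟩
  have compl : ∀ (n : ℕ) (w : List G.V), w.length = n → (∀ a ∈ w, G.tm a) → ∀ K : F, w ∈ K.1 →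
      Dv (linP G F) (fun X => linL G F X ≠ none) (Sum.inl K) (w.map Sum.inr) := by
    intro n
    induction n with
    | zero =>
      intro w hw _ K h
      obtain rfl := List.length_eq_zero_iff.1 hw
      exact Dv.step ⟨K, rfl, Or.inl ⟨rfl, h⟩⟩ Cat.nil
    | succ n ih =>
      intro w hw ht K h
      rcases hp K.1 K.2 w h (by rintro rfl; simp at hw) with
        ⟨-, a, w', K', h1, rfl, h3, h4⟩ | ⟨-, a, w', K', h1, rfl, h3, h4⟩
      · have ha := ht a (by simp)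
        refine Dv.step ⟨K, rfl, Or.inr ⟨a, ⟨K', h1⟩, ha, Or.inl ⟨rfl, h4⟩⟩⟩ ?_
        exact Cat.cons (u := [Sum.inr a]) (Dv.term ha) (cat_single.2
          (ih w' (by simpa using hw) (fun b hb => ht b (by simp [hb])) ⟨K', h1⟩ h3))
      · have ha := ht a (by simp)
        refine Dv.step ⟨K, rfl, Or.inr ⟨a, ⟨K', h1⟩, ha, Or.inr ⟨rfl, h4⟩⟩⟩ ?_
        rw [List.map_append]
        exact Cat.cons (ih w' (by simpa using hw) (fun b hb => ht b (by simp [hb])) ⟨K', h1⟩ h3)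
          (cat_single.2 (Dv.term ha))
  refine ⟨linG G F hF ⟨_, hK⟩, ⟨⟨rfl, ?_⟩, ?_⟩, ?_⟩
  · rintro ⟨x, α⟩ ⟨K, h, -⟩
    simp only at h
    subst h; rfl
  · rintro ⟨x, α⟩ ⟨K, -, ⟨h, -⟩ | ⟨a, K', ha, ⟨h, -⟩ | ⟨h, -⟩⟩⟩ <;> simp only at h <;> subst h
    · exact Nat.zero_le _
    · have : (G.lab a).isNone = false := by
        cases e : G.lab a with
        | none => exact absurd e ha
        | some _ => rfl
      change List.countP (fun X => (linL G F X).isNone) [Sum.inr a, Sum.inl K'] ≤ 1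
      simp [linL, this]
    · have : (G.lab a).isNone = false := by
        cases e : G.lab a with
        | none => exact absurd e ha
        | some _ => rfl
      change List.countP (fun X => (linL G F X).isNone) [Sum.inl K', Sum.inr a] ≤ 1
      simp [linL, this]
  · ext w
    rw [mem_cfLang, mem_cfLang]
    constructor
    · rintro ⟨v, ⟨n, h⟩, e⟩
      refine ⟨v.map Sum.inr, compl _ v rfl h.tm ⟨_, hK⟩ ⟨n, h⟩, ?_⟩
      change List.map (linL G F) (v.map Sum.inr) = _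
      rw [List.map_map, ← e]; rfl
    · rintro ⟨v, ⟨n, h⟩, e⟩
      obtain ⟨u, hu, rfl⟩ := sound n _ v h
      refine ⟨u, hu, ?_⟩
      change List.map (linL G F) (u.map Sum.inr) = _ at e
      rw [List.map_map] at e
      rw [← e]; rfl

end Pool.Agent.H24.Eol
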