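import Pool.Agent.H24.Eol3

namespace Pool.Agent.H24.Eol
open Relation

theorem exists_first {V : Type} (p : V → Prop) {γ : List V} (h : ∃ X ∈ γ, p X) :
    ∃ α Z β, γ = α ++ Z :: β ∧ p Z ∧ ∀ X ∈ α, ¬ p X := by
  induction γ with
  | nil => simp at h
  | cons a γ ih =>
    by_cases ha : p a
    · exact ⟨[], a, γ, rfl, ha, by simp⟩
    · obtain ⟨α, Z, β, rfl, h1, h2⟩ := ih (by simpa [ha] using h)
      exact ⟨a :: α, Z, β, rfl, h1, by simpa [ha] using h2⟩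

theorem exists_last {V : Type} (p : V → Prop) {γ : List V} (h : ∃ X ∈ γ, p X) :
    ∃ α Z β, γ = α ++ Z :: β ∧ p Z ∧ ∀ X ∈ β, ¬ p X := by
  obtain ⟨α, Z, β, e, h1, h2⟩ := exists_first p (γ := γ.reverse) (by simpa using h)
  refine ⟨β.reverse, Z, α.reverse, ?_, h1, by simpa using h2⟩
  rw [← List.reverse_reverse γ, e]; simp

section
variable {V : Type} (P : V → List V → Prop) (T : V → Prop)

def Pr (X : V) : Prop := ∃ v, Dv P T X v
def Eg (A : V) (α : List V) (B : V) (β : List V) : Prop :=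
  P A (α ++ B :: β) ∧ (∀ X ∈ α, Pr P T X) ∧ Pr P T B ∧ ∀ X ∈ β, Pr P T X
def E (A B : V) : Prop := ∃ α β, Eg P T A α B β
def EL (A B : V) : Prop := ∃ α β, Eg P T A α B β ∧ ∃ l, l ≠ [] ∧ Cat (Dv P T) α l
def ER (A B : V) : Prop := ∃ α β, Eg P T A α B β ∧ ∃ l, l ≠ [] ∧ Cat (Dv P T) β l
def Rc : V → V → Prop := ReflTransGen (E P T)
def CycL (A : V) : Prop := ∃ z z', Rc P T A z ∧ EL P T z z' ∧ Rc P T z' A
def CycR (A : V) : Prop := ∃ z z', Rc P T A z ∧ ER P T z z' ∧ Rc P T z' A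
def bb (B : V) : Prop := ∃ A, Rc P T B A ∧ CycL P T A ∧ CycR P T A
def Pat (S : V) : Prop := ∃ C α B1 β B2 γ, Rc P T S C ∧ P C (α ++ B1 :: (β ++ B2 :: γ)) ∧
  (∀ X ∈ α ++ B1 :: (β ++ B2 :: γ), Pr P T X) ∧ bb P T B1 ∧ bb P T B2

variable {P T}

theorem eg_of_cat {A Z : V} {α β u : List V} {n : ℕ} (h : P A (α ++ Z :: β))
    (hc : Cat (D P T n) (α ++ Z :: β) u) : Eg P T A α Z β := by
  have := (D.cat hc).all
  exact ⟨h, fun X hX => this X (by simp [hX]), this Z (by simp), fun X hX => this X (by simp [hX])⟩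

theorem e_of_cat {A Z : V} {γ u : List V} {n : ℕ} (h : P A γ)
    (hc : Cat (D P T n) γ u) (hZ : Z ∈ γ) : E P T A Z := by
  obtain ⟨α, β, rfl⟩ := List.append_of_mem hZ
  exact ⟨α, β, eg_of_cat h hc⟩

def RRs (P : V → List V → Prop) (T : V → Prop) (ρ : ℕ) : Set (Set (List V)) :=
  {R | FL R ∧ ((∃ γ : List V, γ.length ≤ ρ ∧ R = {v | Cat (Dv P T) γ v}) ∨ ∃ A : V, R = {[A]})}

theorem RRs_fin [Finite V] (ρ : ℕ) : (RRs P T ρ).Finite := by
  refine (((List.finite_length_le V ρ).image fun γ => {v | Cat (Dv P T) γ v}).union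
    (Set.finite_range fun A : V => ({[A]} : Set (List V)))).subset ?_
  rintro R ⟨-, ⟨γ, h, rfl⟩ | ⟨A, rfl⟩⟩
  · exact Or.inl ⟨γ, h, rfl⟩
  · exact Or.inr ⟨A, rfl⟩

theorem dec_aux {ρ : ℕ} (hρ : ∀ X α, P X α → α.length ≤ ρ) (bl br : Prop) (C : Set V)
    (hh : ∀ A ∈ C, ∀ n γ u, P A γ → Cat (D P T n) γ u → (∀ X ∈ γ, FL {v | Dv P T X v}) ∨
      ∃ α A' β, γ = α ++ A' :: β ∧ A' ∈ C ∧
        (bl ∧ (∀ X ∈ α, FL {v | Dv P T X v}) ∨ ∀ l, Cat (Dv P T) α l → l = []) ∧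
        (br ∧ (∀ X ∈ β, FL {v | Dv P T X v}) ∨ ∀ l, Cat (Dv P T) β l → l = [])) :
    ∀ A ∈ C, ∀ n u, D P T n A u → (∃ R ∈ RRs P T ρ, u ∈ R ∧ R ⊆ {u | Dv P T A u}) ∨
      ∃ m < n, ∃ A' ∈ C, ∃ R1 R2, (R1 ∈ RRs P T ρ ∧ bl ∨ R1 = {[]}) ∧
        (R2 ∈ RRs P T ρ ∧ br ∨ R2 = {[]}) ∧
        ∃ x ∈ R1, ∃ y ∈ R2, ∃ u', u = x ++ u' ++ y ∧ D P T m A' u' ∧
          ∀ x ∈ R1, ∀ y ∈ R2, Emb P T A x y A' := by
  intro A hA n u hu
  have base : T A ∧ u = [A] → ∃ R ∈ RRs P T ρ, u ∈ R ∧ R ⊆ {u | Dv P T A u} := by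
    rintro ⟨h1, rfl⟩
    exact ⟨{[A]}, ⟨fl_single _, Or.inr ⟨A, rfl⟩⟩, rfl, by rintro _ rfl; exact Dv.term h1⟩
  cases n with
  | zero => exact Or.inl (base hu)
  | succ n =>
    rcases hu with hu | ⟨γ, hp, hc⟩
    · exact Or.inl (base hu)
    rcases hh A hA n γ u hp hc with h | ⟨α, A', β, rfl, hA', h1, h2⟩
    · exact Or.inl ⟨_, ⟨fl_cat h, Or.inl ⟨γ, hρ _ _ hp, rfl⟩⟩, D.cat hc,
        fun v hv => Dv.step hp hv⟩
    obtain ⟨x, u', y, rfl, c1, c2, c3⟩ := cat_mid.1 hc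
    have hl := hρ _ _ hp
    simp only [List.length_append, List.length_cons] at hl
    refine Or.inr ⟨n, by omega, A', hA', {v | Cat (Dv P T) α v}, {v | Cat (Dv P T) β v}, ?_, ?_,
      x, D.cat c1, y, D.cat c3, u', rfl, c2, fun x hx y hy => Emb.edge hp hx hy⟩
    · refine h1.imp (fun h => ⟨⟨fl_cat h.2, Or.inl ⟨α, by omega, rfl⟩⟩, h.1⟩) fun h => ?_
      ext l
      exact ⟨h l, by rintro rfl; exact h x (D.cat c1) ▸ D.cat c1⟩
    · refine h2.imp (fun h => ⟨⟨fl_cat h.2, Or.inl ⟨β, by omega, rfl⟩⟩, h.1⟩) fun h => ?_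
      ext l
      exact ⟨h l, by rintro rfl; exact h y (D.cat c3) ▸ D.cat c3⟩

theorem step1 [Finite V] {ρ : ℕ} (hρ : ∀ X α, P X α → α.length ≤ ρ) :
    ∀ (k : ℕ) (B : V), {Z | Rc P T B Z}.ncard ≤ k → ¬ bb P T B → FL {v | Dv P T B v} := by
  intro k
  induction k with
  | zero =>
    intro B h
    have : ({Z | Rc P T B Z}).Nonempty := ⟨B, ReflTransGen.refl⟩
    have := (Set.ncard_pos (Set.toFinite _)).2 this
    omega
  | succ k ih =>
    intro B hk hB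
    let C : Set V := {A | Rc P T B A ∧ Rc P T A B}
    have out : ∀ A ∈ C, ∀ Z, E P T A Z → Z ∉ C → FL {v | Dv P T Z v} := by
      intro A hA Z he hZ
      have hBZ : Rc P T B Z := hA.1.tail he
      refine ih Z ?_ fun ⟨W, h1, h2⟩ => hB ⟨W, hBZ.trans h1, h2⟩
      have : {W | Rc P T Z W} ⊂ {W | Rc P T B W} :=
        ⟨fun W hW => hBZ.trans hW, fun h => hZ ⟨hBZ, h ReflTransGen.refl⟩⟩
      have := Set.ncard_lt_ncard this (Set.toFinite _)
      omega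
    have hBC : B ∈ C := ⟨ReflTransGen.refl, ReflTransGen.refl⟩
    by_cases hL : CycL P T B
    · have hRn : ¬ CycR P T B := fun h => hB ⟨B, ReflTransGen.refl, hL, h⟩
      obtain ⟨F, f1, f2, f3⟩ := three True False (Or.inl trivial) C _ (RRs_fin ρ) (fun R h => h.1)
        (dec_aux hρ True False C (by
          intro A hA n γ u hp hc
          by_cases hg : ∃ X ∈ γ, X ∈ C
          · obtain ⟨α, Z, β, rfl, h1, h2⟩ := exists_first _ hg
            refine Or.inr ⟨α, Z, β, rfl, h1, Or.inl ⟨trivial, fun X hX =>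
              out A hA X (e_of_cat hp hc (by simp [hX])) (h2 X hX)⟩, Or.inr fun l hl => ?_⟩
            by_contra hne
            exact hRn ⟨A, Z, hA.1, ⟨α, β, eg_of_cat hp hc, l, hne, hl⟩, h1.2⟩
          · push Not at hg
            exact Or.inl fun X hX => out A hA X (e_of_cat hp hc hX) (hg X hX)))
      exact fl_of_peel f1 f2 (f3 B hBC)
    · obtain ⟨F, f1, f2, f3⟩ := three False True (Or.inr trivial) C _ (RRs_fin ρ) (fun R h => h.1)
        (dec_aux hρ False True C (by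
          intro A hA n γ u hp hc
          by_cases hg : ∃ X ∈ γ, X ∈ C
          · obtain ⟨α, Z, β, rfl, h1, h2⟩ := exists_last _ hg
            refine Or.inr ⟨α, Z, β, rfl, h1, Or.inr fun l hl => ?_, Or.inl ⟨trivial, fun X hX =>
              out A hA X (e_of_cat hp hc (by simp [hX])) (h2 X hX)⟩⟩
            by_contra hne
            exact hL ⟨A, Z, hA.1, ⟨α, β, eg_of_cat hp hc, l, hne, hl⟩, h1.2⟩
          · push Not at hg
            exact Or.inl fun X hX => out A hA X (e_of_cat hp hc hX) (hg X hX)))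
      exact (fr_of_peel f1 f2 (f3 B hBC)).fl

end

theorem lin_of_nopat (G : Gr) (h : ¬ Pat G.pr G.tm G.S) : cfLang G ∈ LIN := by
  have := G.fin
  obtain ⟨ρ, -, hρ⟩ := G.rho
  have s1 : ∀ B, ¬ bb G.pr G.tm B → FL {v | Dv G.pr G.tm B v} :=
    fun B hB => step1 hρ _ B le_rfl hB
  obtain ⟨F, f1, f2, f3⟩ := three True True (Or.inr trivial) {A | Rc G.pr G.tm G.S A} _
    (RRs_fin ρ) (fun R h => h.1) (dec_aux hρ True True _ (by
      intro A hA n γ u hp hc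
      by_cases hg : ∃ X ∈ γ, bb G.pr G.tm X
      · obtain ⟨α, Z, β, rfl, h1, h2⟩ := exists_first _ hg
        refine Or.inr ⟨α, Z, β, rfl, ReflTransGen.tail hA (e_of_cat hp hc (by simp)),
          Or.inl ⟨trivial, fun X hX => s1 X (h2 X hX)⟩,
          Or.inl ⟨trivial, fun X hX => s1 X fun hb => ?_⟩⟩
        obtain ⟨β, γ, rfl⟩ := List.append_of_mem hX
        exact h ⟨A, α, Z, β, X, γ, hA, hp, (D.cat hc).all, h1, hb⟩
      · push Not at hg
        exact Or.inl fun X hX => s1 X (hg X hX)))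
  exact lin_of_peel G F f1 f2 (f3 G.S ReflTransGen.refl)

end Pool.Agent.H24.Eol
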