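import Pool.Agent.H24.Eol4

namespace Pool.Agent.H24.Eol
open Relation

def OK (w : List (Fin 4)) : Prop :=
  w.Pairwise (· ≤ ·) ∧ w.count 0 = w.count 1 ∧ w.count 2 = w.count 3

abbrev Lb := Fin 4 ⊕ (Bool × Bool) ⊕ Bool
abbrev one (c : Fin 4) : Lb := Sum.inl c
abbrev sp (i d : Bool) : Lb := Sum.inr (Sum.inl (i, d))
abbrev nt : Lb := Sum.inr (Sum.inr false)
abbrev top : Lb := Sum.inr (Sum.inr true)
def lo (i : Bool) : Fin 4 := if i then 2 else 0
def hi (i : Bool) : Fin 4 := if i then 3 else 1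

def Inv : Lb → List (Fin 4) → Prop
  | Sum.inl c, w => w = [c]
  | Sum.inr (Sum.inl (i, d)), w => w.Pairwise (· ≤ ·) ∧ (∀ c ∈ w, c = lo i ∨ c = hi i) ∧
      w.count (lo i) = w.count (hi i) + if d then 1 else 0
  | Sum.inr (Sum.inr false), w => w = []
  | Sum.inr (Sum.inr true), w => OK w

def col : Lb → Option (Fin 4)
  | Sum.inl c => some c
  | Sum.inr (Sum.inl (i, d)) => if d then some (lo i) else none
  | Sum.inr (Sum.inr _) => none

theorem inv_col (l : Lb) : Inv l (col l).toList := by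
  rcases l with c | ⟨i, d⟩ | b
  · rfl
  · cases i <;> cases d <;> simp [Inv, col, lo, hi]
  · cases b <;> simp [Inv, col, OK]

theorem Cat.filterMap {V W U : Type} {R : V → List W → Prop} {R' : V → List U → Prop}
    (f : W → Option U) {x : List V} {v : List W} (h : Cat R x v)
    (hR : ∀ X ∈ x, ∀ u, R X u → R' X (u.filterMap f)) : Cat R' x (v.filterMap f) := by
  induction h with
  | nil => exact Cat.nil
  | cons h1 _ ih =>
    rw [List.filterMap_append]
    exact Cat.cons (hR _ (by simp) _ h1) (ih fun X hX => hR X (by simp [hX]))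

section
variable (G : Gr)

def okL (x : G.V × Lb) (α : List (G.V × Lb)) : Prop :=
  ∀ w, Cat (fun y u => Inv y.2 u) α w → Inv x.2 w

def cw (v : List (G.V × Lb)) : List (Fin 4) := v.filterMap fun x => col x.2

abbrev DL := Dv (cpP G (okL G)) fun x => G.tm x.1

def Lf (X : G.V) (l : Lb) (w : List (Fin 4)) : Prop := ∃ v, DL G (X, l) v ∧ cw G v = w

def Side (α : List G.V) (s : List (Fin 4)) : Prop :=
  ∃ α' v, List.map Prod.fst α' = α ∧ Cat (DL G) α' v ∧ cw G v = s ∧
    ∀ w, Cat (fun y u => Inv y.2 u) α' w → w = s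

variable {G}

theorem soundL : ∀ {n : ℕ} {x : G.V × Lb} {v : List (G.V × Lb)},
    D (cpP G (okL G)) (fun x => G.tm x.1) n x v → Inv x.2 (cw G v) := by
  have base : ∀ x : G.V × Lb, Inv x.2 (cw G [x]) := by
    intro x
    have := inv_col x.2
    unfold cw
    cases h : col x.2 <;> simp_all
  intro n
  induction n with
  | zero => intro x v h; rw [h.2]; exact base x
  | succ n ih =>
    intro x v h
    rcases h with h | ⟨α, hp, hc⟩
    · rw [h.2]; exact base x
    · exact hp.2 _ (hc.filterMap _ fun X _ u h => ih h)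

theorem cw_append (u v : List (G.V × Lb)) : cw G (u ++ v) = cw G u ++ cw G v :=
  List.filterMap_append

theorem Side.nil : Side G [] [] := ⟨[], [], rfl, Cat.nil, rfl, fun _ h => cat_nil.1 h⟩

theorem Side.append {α β : List G.V} {s t : List (Fin 4)} (h : Side G α s) (h' : Side G β t) :
    Side G (α ++ β) (s ++ t) := by
  obtain ⟨α', v, rfl, a1, rfl, a2⟩ := h
  obtain ⟨β', u, rfl, b1, rfl, b2⟩ := h'
  refine ⟨α' ++ β', v ++ u, by simp, a1.append b1, cw_append _ _, fun w hw => ?_⟩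
  obtain ⟨x, y, rfl, h1, h2⟩ := cat_append.1 hw
  rw [a2 x h1, b2 y h2]

theorem Side.single {X : G.V} {l : Lb} {s : List (Fin 4)} (h : Lf G X l s)
    (hl : ∀ w, Inv l w → w = s) : Side G [X] s := by
  obtain ⟨v, h1, h2⟩ := h
  exact ⟨[(X, l)], v, rfl, cat_single.2 h1, h2, fun w hw => by
    rw [cat_single] at hw; exact hl w hw⟩

theorem Lf.step {A : G.V} {α : List G.V} {s : List (Fin 4)} {l : Lb} (hp : G.pr A α)
    (h : Side G α s) (hl : Inv l s) : Lf G A l s := by
  obtain ⟨α', v, rfl, a1, rfl, a2⟩ := h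
  exact ⟨v, Dv.step ⟨hp, fun w hw => a2 w hw ▸ hl⟩ a1, rfl⟩

theorem side_all {α : List G.V} (h : ∀ X ∈ α, Lf G X nt []) : Side G α [] := by
  induction α with
  | nil => exact Side.nil
  | cons X α ih =>
    exact (Side.single (h X (by simp)) fun w hw => hw).append (ih fun Z hZ => h Z (by simp [hZ]))

theorem lift0 : ∀ {n : ℕ} {X : G.V} {v : List G.V}, D G.pr G.tm n X v →
    ∀ l, Inv l [] → col l = none → Lf G X l [] := by
  intro n
  induction n with
  | zero => intro X v h l _ h2; exact ⟨[(X, l)], Dv.term h.1, by simp [cw, h2]⟩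
  | succ n ih =>
    intro X v h l h1 h2
    rcases h with h | ⟨α, hp, hc⟩
    · exact ⟨[(X, l)], Dv.term h.1, by simp [cw, h2]⟩
    · refine Lf.step hp (side_all fun Z hZ => ?_) h1
      obtain ⟨u, hu⟩ := hc.all Z hZ
      exact ih hu nt rfl rfl

theorem sideN {α : List G.V} (h : ∀ X ∈ α, Pr G.pr G.tm X) : Side G α [] :=
  side_all fun X hX => by
    obtain ⟨v, n, hv⟩ := h X hX
    exact lift0 hv nt rfl rfl

theorem side_pick {α v : List G.V} {c : Fin 4} {R : G.V → List G.V → Prop} (hc : Cat R α v)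
    (hne : v ≠ []) (h0 : ∀ X u, R X u → Pr G.pr G.tm X)
    (h1 : ∀ X u, R X u → u ≠ [] → Lf G X (one c) [c]) : Side G α [c] := by
  obtain ⟨a, ha⟩ := List.exists_mem_of_ne_nil v hne
  obtain ⟨α, Z, β, l, u, r, rfl, rfl, c1, c2, c3, hu⟩ := hc.pick ha
  have s1 : Side G α [] := sideN fun X hX => let ⟨u, hu⟩ := c1.all X hX; h0 X u hu
  have s3 : Side G β [] := sideN fun X hX => let ⟨u, hu⟩ := c3.all X hX; h0 X u hu
  have := s1.append ((Side.single (h1 Z u c2 (List.ne_nil_of_mem hu)) fun w hw => hw).append s3)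
  simpa using this

theorem lift1 (c : Fin 4) : ∀ {n : ℕ} {X : G.V} {v : List G.V}, D G.pr G.tm n X v → v ≠ [] →
    Lf G X (one c) [c] := by
  intro n
  induction n with
  | zero => intro X v h _; exact ⟨[(X, one c)], Dv.term h.1, by simp [cw, col]⟩
  | succ n ih =>
    intro X v h hne
    rcases h with h | ⟨α, hp, hc⟩
    · exact ⟨[(X, one c)], Dv.term h.1, by simp [cw, col]⟩
    · exact Lf.step hp (side_pick hc hne (fun X u h => ⟨u, n, h⟩) fun X u h => ih h) rfl

theorem side1 (c : Fin 4) {α l : List G.V} (hne : l ≠ []) (h : Cat (Dv G.pr G.tm) α l) :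
    Side G α [c] :=
  side_pick h hne (fun _ u h => ⟨u, h⟩) fun _ _ ⟨_, h⟩ => lift1 c h

theorem Lf.edge {A B : G.V} {α β : List G.V} {s t w : List (Fin 4)} {l l' : Lb}
    (hp : G.pr A (α ++ B :: β)) (h1 : Side G α s) (h2 : Side G β t)
    (hl : ∀ w, Inv l' w → Inv l (s ++ w ++ t)) (h : Lf G B l' w) : Lf G A l (s ++ w ++ t) := by
  obtain ⟨α', v, rfl, a1, rfl, a2⟩ := h1
  obtain ⟨β', u, rfl, b1, rfl, b2⟩ := h2
  obtain ⟨z, c1, rfl⟩ := h
  refine ⟨v ++ z ++ u, Dv.step (α := α' ++ (B, l') :: β') ⟨by simpa using hp, fun w hw => ?_⟩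
    (a1.mid c1 b1), by simp [cw_append]⟩
  obtain ⟨x, y, z, rfl, h1, h2, h3⟩ := cat_mid.1 hw
  rw [a2 x h1, b2 z h3]
  exact hl y h2

theorem Lf.rc {A B : G.V} {w : List (Fin 4)} {l : Lb} (h : Rc G.pr G.tm A B) (h' : Lf G B l w) :
    Lf G A l w := by
  induction h using ReflTransGen.head_induction_on with
  | refl => exact h'
  | head h1 _ ih =>
    obtain ⟨α, β, a1, a2, -, a3⟩ := h1
    simpa using Lf.edge a1 (sideN a2) (sideN a3) (fun w hw => by simpa using hw) ih

theorem lf_big {B : G.V} (h : bb G.pr G.tm B) (i : Bool) (n : ℕ) :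
    ∃ w, Lf G B (sp i false) w ∧ n ≤ w.count (lo i) := by
  obtain ⟨A, h0, ⟨z, z', h1, ⟨α, β, ⟨a1, a2, a3, a4⟩, l, a5, a6⟩, h2⟩,
    ⟨y, y', h3, ⟨γ, δ, ⟨b1, b2, -, b4⟩, r, b5, b6⟩, h4⟩⟩ := h
  suffices ∃ w, Lf G A (sp i false) w ∧ n ≤ w.count (lo i) by
    obtain ⟨w, h, hn⟩ := this
    exact ⟨w, h.rc h0, hn⟩
  induction n with
  | zero =>
    have : Pr G.pr G.tm A := by
      rcases (ReflTransGen.cases_tail h2) with rfl | ⟨c, -, _, _, -, -, h, -⟩
      · exact a3
      · exact h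
    obtain ⟨v, n, hv⟩ := this
    exact ⟨[], lift0 hv _ (by simp [Inv]) rfl, by simp⟩
  | succ n ih =>
    obtain ⟨w, h, hn⟩ := ih
    have k1 := (Lf.edge (l := sp i true) a1 (side1 (lo i) a5 a6) (sideN a4) (by
      rintro w ⟨c1, c2, c3⟩
      refine ⟨?_, ?_, ?_⟩
      · simp only [List.append_nil, List.singleton_append, List.pairwise_cons]
        refine ⟨fun c hc => ?_, c1⟩
        rcases c2 c hc with rfl | rfl <;> cases i <;> decide
      · simpa using c2
      · cases i <;> simp_all [lo, hi]) (h.rc h2)).rc h1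
    have k2 := (Lf.edge (l := sp i false) b1 (sideN b2) (side1 (hi i) b5 b6) (by
      rintro w ⟨c1, c2, c3⟩
      refine ⟨?_, ?_, ?_⟩
      · simp only [List.nil_append, List.pairwise_append, List.pairwise_singleton,
          List.mem_singleton, forall_eq, true_and]
        refine ⟨c1, fun c hc => ?_⟩
        rcases c2 c hc with rfl | rfl <;> cases i <;> decide
      · intro c hc
        simp only [List.nil_append, List.mem_append, List.mem_singleton] at hc
        rcases hc with hc | hc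
        · exact c2 c hc
        · exact Or.inr hc
      · cases i <;> simp_all [lo, hi]) (k1.rc h4)).rc h3
    refine ⟨_, k2, ?_⟩
    simp only [List.count_append, List.count_cons_self, List.count_nil]
    omega

theorem lf_top (h : Pat G.pr G.tm G.S) (n : ℕ) :
    ∃ w, Lf G G.S top w ∧ n ≤ w.count 0 ∧ n ≤ w.count 2 := by
  obtain ⟨C, α, B1, β, B2, γ, h0, hp, ha, h1, h2⟩ := h
  obtain ⟨w1, ⟨v1, a1, rfl⟩, n1⟩ := lf_big h1 false n
  obtain ⟨w2, ⟨v2, a2, rfl⟩, n2⟩ := lf_big h2 true n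
  obtain ⟨α', x, rfl, b1, b2, b3⟩ := sideN (α := α) fun X hX => ha X (by simp [hX])
  obtain ⟨β', y, rfl, c1, c2, c3⟩ := sideN (α := β) fun X hX => ha X (by simp [hX])
  obtain ⟨γ', z, rfl, d1, d2, d3⟩ := sideN (α := γ) fun X hX => ha X (by simp [hX])
  refine ⟨cw G v1 ++ cw G v2, Lf.rc h0 ⟨x ++ v1 ++ (y ++ v2 ++ z), Dv.step
    (α := α' ++ (B1, sp false false) :: (β' ++ (B2, sp true false) :: γ'))
    ⟨by simpa using hp, fun w hw => ?_⟩ (b1.mid a1 (c1.mid a2 d1)), by
      simp [cw_append, b2, c2, d2]⟩, ?_, ?_⟩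
  · obtain ⟨x, u, r, rfl, e1, ⟨e2, e3, e4⟩, e5⟩ := cat_mid.1 hw
    obtain ⟨y, u', z, rfl, e6, ⟨e7, e8, e9⟩, e10⟩ := cat_mid.1 e5
    rw [b3 x e1, c3 y e6, d3 z e10]
    simp only [lo, hi, Bool.false_eq_true, if_false, if_true, add_zero] at e3 e4 e8 e9
    have z1 : ∀ c : Fin 4, c ≠ 0 → c ≠ 1 → u.count c = 0 := fun c h1 h2 =>
      List.count_eq_zero.2 fun h => (e3 c h).elim h1 h2
    have z2 : ∀ c : Fin 4, c ≠ 2 → c ≠ 3 → u'.count c = 0 := fun c h1 h2 =>
      List.count_eq_zero.2 fun h => (e8 c h).elim h1 h2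
    refine ⟨?_, ?_, ?_⟩
    · simp only [List.nil_append, List.append_nil, List.pairwise_append]
      refine ⟨e2, e7, fun a ha b hb => ?_⟩
      rcases e3 a ha with rfl | rfl <;> rcases e8 b hb with rfl | rfl <;> decide
    · simp [List.count_append, e4, z2 0 (by decide) (by decide), z2 1 (by decide) (by decide)]
    · simp [List.count_append, e9, z1 2 (by decide) (by decide), z1 3 (by decide) (by decide)]
  · simp only [List.count_append]; simp only [lo] at n1; simp at n1; omega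
  · simp only [List.count_append]; simp only [lo] at n2; simp at n2; omega

end

theorem partI (G : Gr) (hG : IsCF G) (h : cfLang G ∉ LIN) : ∃ G', IsCF G' ∧ Interp G' G ∧
    ∃ κ : ℕ → Option (Fin 4), (∀ w ∈ cfLang G', OK (w.filterMap κ)) ∧
      ∀ n, ∃ w ∈ cfLang G', n ≤ (w.filterMap κ).count 0 ∧ n ≤ (w.filterMap κ).count 2 := by
  have := G.fin
  have hp : Pat G.pr G.tm G.S := by
    by_contra hc; exact h (lin_of_nopat G hc)
  obtain ⟨enc, he⟩ := Countable.exists_injective_nat (G.V × Lb)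
  have key : ∀ v : List (G.V × Lb), (v.map enc).filterMap
      (fun n => (Function.partialInv enc n).bind fun x => col x.2) = cw G v := by
    intro v
    rw [List.filterMap_map]
    refine List.filterMap_congr fun x _ => ?_
    simp [Function.partialInv_left he]
  refine ⟨copy G Lb (okL G) top enc he, copy_cf G hG _ _ _ _ _, copy_interp _ _ _ _ _ _,
    fun n => (Function.partialInv enc n).bind fun x => col x.2, ?_, fun n => ?_⟩
  · intro w hw
    obtain ⟨v, ⟨n, hv⟩, rfl⟩ := (mem_cf_copy _ _ _ _ _ _).1 hw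
    rw [key]
    exact soundL hv
  · obtain ⟨w, ⟨v, hv, rfl⟩, h1⟩ := lf_top hp n
    exact ⟨_, (mem_cf_copy _ _ _ _ _ _).2 ⟨v, hv, rfl⟩, by rwa [key]⟩

end Pool.Agent.H24.Eol
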