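import Pool.Agent.H24.Eol5

namespace Pool.Agent.H24.Eol
open Relation

def pr (i : Bool) (c : Fin 4) : Prop := c = lo i ∨ c = hi i
instance (i : Bool) (c : Fin 4) : Decidable (pr i c) := by unfold pr; infer_instance

theorem OK.eq {w : List (Fin 4)} (h : OK w) (i : Bool) : w.count (lo i) = w.count (hi i) := by
  cases i
  · exact h.2.1
  · exact h.2.2

theorem countP_pr (i : Bool) (w : List (Fin 4)) :
    w.countP (fun c => decide (pr i c)) = w.count (lo i) + w.count (hi i) := by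
  induction w with
  | nil => simp
  | cons c w ih =>
    simp only [List.countP_cons, List.count_cons, ih]
    have : ∀ (i : Bool) (c : Fin 4), (if decide (pr i c) = true then 1 else 0) =
        (if (c == lo i) = true then 1 else 0) + (if (c == hi i) = true then 1 else 0) := by decide
    rw [this]; omega

section
variable {V : Type} (κ : V → Option (Fin 4))

def cv (v : List V) : List (Fin 4) := v.filterMap κ
def cs (v : List V) : Finset (Fin 4) := (cv κ v).toFinset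
def qq (i : Bool) (X : V) : Bool := (κ X).any fun c => decide (pr i c)
def cnt (i : Bool) (v : List V) : ℕ := v.countP (qq κ i)

variable {κ}

@[simp] theorem cv_append (u v : List V) : cv κ (u ++ v) = cv κ u ++ cv κ v :=
  List.filterMap_append
@[simp] theorem cv_nil : cv κ [] = [] := rfl
@[simp] theorem cs_append (u v : List V) : cs κ (u ++ v) = cs κ u ∪ cs κ v := by simp [cs]
@[simp] theorem cs_nil : cs κ [] = ∅ := rfl
@[simp] theorem cnt_append (i : Bool) (u v : List V) :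
    cnt κ i (u ++ v) = cnt κ i u + cnt κ i v := List.countP_append
@[simp] theorem cnt_nil (i : Bool) : cnt κ i [] = 0 := rfl
theorem mem_cs {v : List V} {c : Fin 4} : c ∈ cs κ v ↔ c ∈ cv κ v := by simp [cs]

theorem cnt_eq (i : Bool) (v : List V) :
    cnt κ i v = (cv κ v).count (lo i) + (cv κ v).count (hi i) := by
  rw [← countP_pr, cnt, cv, List.countP_filterMap]
  congr 1
  funext X
  unfold qq
  cases κ X <;> simp

theorem cnt_pos {i : Bool} {v : List V} : 0 < cnt κ i v ↔ ∃ c ∈ cs κ v, pr i c := by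
  rw [cnt_eq, ← countP_pr, List.countP_pos_iff]
  simp [mem_cs]

variable (κ) (P : V → List V → Prop) (T : V → Prop)

def Psi (τ : ℕ) (X : V) : Set (Finset (Fin 4)) := {s | ∃ v, Y P T τ X v ∧ cs κ v = s}

variable {κ P T}

theorem transfer {τ τ' : ℕ} (h : Psi κ P T τ = Psi κ P T τ') {α l : List V}
    (hl : Cat (Y P T τ) α l) : ∃ l', Cat (Y P T τ') α l' ∧ cs κ l' = cs κ l := by
  induction hl with
  | nil => exact ⟨[], Cat.nil, rfl⟩
  | @cons X u x v h1 _ ih =>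
    obtain ⟨l', a1, a2⟩ := ih
    have : cs κ u ∈ Psi κ P T τ' X := h ▸ ⟨u, h1, rfl⟩
    obtain ⟨u', b1, b2⟩ := this
    exact ⟨u' ++ l', Cat.cons b1 a1, by simp [a2, b2]⟩

theorem psi_succ {τ τ' : ℕ} (h : Psi κ P T τ = Psi κ P T τ') :
    Psi κ P T (τ + 1) = Psi κ P T (τ' + 1) := by
  funext X
  ext s
  constructor
  · rintro ⟨v, ⟨α, h1, h2⟩, rfl⟩
    obtain ⟨l', a1, a2⟩ := transfer h h2
    exact ⟨l', ⟨α, h1, a1⟩, a2⟩
  · rintro ⟨v, ⟨α, h1, h2⟩, rfl⟩
    obtain ⟨l', a1, a2⟩ := transfer h.symm h2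
    exact ⟨l', ⟨α, h1, a1⟩, a2⟩

theorem exists_period [Finite V] : ∃ t0 p, 0 < p ∧ ∀ τ τ' : ℕ, t0 ≤ τ → t0 ≤ τ' →
    (τ : ZMod p) = τ' → Psi κ P T τ = Psi κ P T τ' := by
  obtain ⟨a, b, hab, h⟩ : ∃ a b, a < b ∧ Psi κ P T a = Psi κ P T b := by
    obtain ⟨a, b, h1, h2⟩ := Finite.exists_ne_map_eq_of_infinite (Psi κ P T)
    rcases lt_or_gt_of_ne h1 with h | h
    · exact ⟨a, b, h, h2⟩
    · exact ⟨b, a, h, h2.symm⟩
  have h1 : ∀ j, Psi κ P T (a + j) = Psi κ P T (b + j) := by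
    intro j
    induction j with
    | zero => exact h
    | succ j ih => exact psi_succ ih
  have h2 : ∀ k τ, a ≤ τ → Psi κ P T (τ + k * (b - a)) = Psi κ P T τ := by
    intro k τ hτ
    induction k with
    | zero => simp
    | succ k ih =>
      have := h1 (τ + k * (b - a) - a)
      rw [← ih]
      convert this.symm using 2
      · rw [Nat.succ_mul]; omega
      · omega
  have h3 : ∀ τ τ' : ℕ, a ≤ τ → τ ≤ τ' → (τ : ZMod (b - a)) = τ' → Psi κ P T τ = Psi κ P T τ' := by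
    intro τ τ' c1 c2 c3
    rw [ZMod.natCast_eq_natCast_iff, Nat.modEq_iff_dvd' c2] at c3
    obtain ⟨k, hk⟩ := c3
    rw [← h2 k τ c1]
    congr 1
    rw [mul_comm]; omega
  refine ⟨a, b - a, by omega, fun τ τ' c1 c2 c3 => ?_⟩
  rcases le_total τ τ' with c | c
  · exact h3 τ τ' c1 c c3
  · exact (h3 τ' τ c2 c c3.symm).symm

end

/-- the data of an EOL system with a colouring and a period -/
structure Sys (V : Type) where
  κ : V → Option (Fin 4)
  P : V → List V → Prop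
  T : V → Prop
  t0 : ℕ
  p : ℕ
  ρ : ℕ
  hp : 0 < p
  per : ∀ τ τ' : ℕ, t0 ≤ τ → t0 ≤ τ' → (τ : ZMod p) = τ' → Psi κ P T τ = Psi κ P T τ'
  h1 : 1 ≤ ρ
  hρ : ∀ X α, P X α → α.length ≤ ρ

namespace Sys
variable {V : Type} (s : Sys V)

instance : NeZero s.p := ⟨s.hp.ne'⟩

abbrev N := V × ZMod s.p
abbrev Yl := Y s.P s.T
def FinR (x : s.N) : Prop := ∀ τ : ℕ, s.t0 ≤ τ → (τ : ZMod s.p) = x.2 → ∃ v, s.Yl τ x.1 v
def Good (i : Bool) (x : s.N) : Prop :=
  ∀ τ : ℕ, s.t0 ≤ τ → (τ : ZMod s.p) = x.2 → ∀ v, s.Yl τ x.1 v → 0 < cnt s.κ i v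
def Eg (x : s.N) (α : List V) (z : s.N) (β : List V) : Prop :=
  x.2 = z.2 + 1 ∧ s.P x.1 (α ++ z.1 :: β) ∧ s.FinR z ∧ ∀ X ∈ α ++ β, s.FinR (X, z.2)
def E (x z : s.N) : Prop := ∃ α β, s.Eg x α z β
def EG (i : Bool) (x z : s.N) : Prop := ∃ α β, s.Eg x α z β ∧ ∃ G ∈ α ++ β, s.Good i (G, z.2)
def Rc : s.N → s.N → Prop := ReflTransGen s.E
def Via (i : Bool) (x y : s.N) : Prop := ∃ z z', s.Rc x z ∧ s.EG i z z' ∧ s.Rc z' y
def aa (i : Bool) (x : s.N) : Prop := ∃ y, s.Rc x y ∧ s.Via i y y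
def Two (x : s.N) : Prop := ∃ y, s.Rc x y ∧ ∃ α Z1 β Z2 γ r i, y.2 = r + 1 ∧
  s.P y.1 (α ++ Z1 :: (β ++ Z2 :: γ)) ∧ (∀ X ∈ α ++ Z1 :: (β ++ Z2 :: γ), s.FinR (X, r)) ∧
  s.aa i (Z1, r) ∧ s.aa (!i) (Z2, r)
def Ctx (τ : ℕ) (X : V) (l r : List V) : Prop := ∀ v, s.Yl τ X v → OK (cv s.κ (l ++ v ++ r))

def YR (Ω : s.N → Prop) : ℕ → V → List V → Prop
  | 0, X, v => s.Yl s.t0 X v
  | J + 1, X, v => Ω (X, (s.t0 + J + 1 : ℕ)) ∧ ∃ α, s.P X α ∧ Cat (YR Ω J) α v

variable {s}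

theorem age (r : ZMod s.p) (m : ℕ) : ∃ τ : ℕ, m ≤ τ ∧ (τ : ZMod s.p) = r :=
  ⟨r.val + m * s.p, by have := s.hp; nlinarith, by simp⟩

theorem shift {τ τ' : ℕ} (h : s.t0 ≤ τ) (h' : s.t0 ≤ τ') (e : (τ : ZMod s.p) = τ') {X : V}
    {v : List V} (hv : s.Yl τ X v) : ∃ v', s.Yl τ' X v' ∧ cs s.κ v' = cs s.κ v := by
  have : cs s.κ v ∈ Psi s.κ s.P s.T τ' X := s.per τ τ' h h' e ▸ ⟨v, hv, rfl⟩
  exact this

theorem finR_of {τ : ℕ} (h : s.t0 ≤ τ) {X : V} {v : List V} (hv : s.Yl τ X v) :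
    s.FinR (X, τ) := fun τ' h' e => by
  obtain ⟨v', a, -⟩ := shift h h' e.symm hv
  exact ⟨v', a⟩

theorem good_of {τ : ℕ} (h : s.t0 ≤ τ) {X : V} {i : Bool}
    (hv : ∀ v, s.Yl τ X v → 0 < cnt s.κ i v) : s.Good i (X, τ) := fun τ' h' e v hv' => by
  obtain ⟨v', a, b⟩ := shift h' h e hv'
  rw [cnt_pos, ← b, ← cnt_pos]
  exact hv v' a

theorem YR.y {Ω : s.N → Prop} : ∀ {J : ℕ} {X : V} {v : List V}, s.YR Ω J X v →
    s.Yl (s.t0 + J) X v
  | 0, _, _, h => h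
  | _ + 1, _, _, ⟨_, α, h1, h2⟩ => ⟨α, h1, h2.mono fun _ _ _ h => YR.y h⟩

theorem eg_of_cat {τ : ℕ} (h : s.t0 ≤ τ) {X Z : V} {α β v : List V} (hp : s.P X (α ++ Z :: β))
    (hc : Cat (s.Yl τ) (α ++ Z :: β) v) : s.Eg (X, (τ + 1 : ℕ)) α (Z, τ) β := by
  refine ⟨by simp, hp, ?_, fun W hW => ?_⟩
  · obtain ⟨u, hu⟩ := hc.all Z (by simp)
    exact finR_of h hu
  · obtain ⟨u, hu⟩ := hc.all W (by simp at hW ⊢; tauto)
    exact finR_of h hu

theorem e_of_cat {τ : ℕ} (h : s.t0 ≤ τ) {X Z : V} {γ v : List V} (hp : s.P X γ)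
    (hc : Cat (s.Yl τ) γ v) (hZ : Z ∈ γ) : s.E (X, (τ + 1 : ℕ)) (Z, τ) := by
  obtain ⟨α, β, rfl⟩ := List.append_of_mem hZ
  exact ⟨α, β, eg_of_cat h hp hc⟩

theorem Ctx.sib {τ : ℕ} {X G : V} {l r α β a b : List V} (h : s.Ctx (τ + 1) X l r)
    (hp : s.P X (α ++ G :: β)) (ha : Cat (s.Yl τ) α a) (hb : Cat (s.Yl τ) β b) :
    s.Ctx τ G (l ++ a) (b ++ r) := fun v hv => by
  have := h (a ++ v ++ b) ⟨_, hp, ha.mid hv hb⟩
  simpa using this

theorem sibcase {τ : ℕ} (hτ : s.t0 ≤ τ) {G : V} {l r g u : List V} {i : Bool}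
    (h : s.Ctx τ G l r) (hg : s.Yl τ G g) (hc : 0 < cnt s.κ i g)
    (hm : (cv s.κ g ++ cv s.κ u).Pairwise (· ≤ ·) ∨ (cv s.κ u ++ cv s.κ g).Pairwise (· ≤ ·)) :
    s.Good i (G, τ) ∨ ∃ d ∈ cs s.κ g, d ∉ cs s.κ u := by
  obtain ⟨c, hc1, hc2⟩ := cnt_pos.1 hc
  rw [mem_cs] at hc1
  by_cases hall : ∀ c' ∈ cv s.κ g, c' = c
  · refine Or.inl (good_of hτ fun g' hg' => ?_)
    have e1 := (h g hg).eq i
    have e2 := (h g' hg').eq i
    rw [cnt_eq]
    simp only [cv_append, List.count_append] at e1 e2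
    have p1 : 0 < (cv s.κ g).count c := List.count_pos_iff.2 hc1
    have p2 : ∀ c', c' ≠ c → (cv s.κ g).count c' = 0 := fun c' hc' =>
      List.count_eq_zero.2 fun h => hc' (hall c' h)
    have hne : lo i ≠ hi i := by cases i <;> decide
    rcases hc2 with rfl | rfl
    · have := p2 _ hne.symm; omega
    · have := p2 _ hne; omega
  · push Not at hall
    obtain ⟨c', h1, h2⟩ := hall
    right
    by_contra hn
    push Not at hn
    have a1 := mem_cs.1 (hn c (mem_cs.2 hc1))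
    have a2 := mem_cs.1 (hn c' (mem_cs.2 h1))
    rcases hm with hm | hm <;> rw [List.pairwise_append] at hm
    · exact h2 (le_antisymm (hm.2.2 _ h1 _ a1) (hm.2.2 _ hc1 _ a2))
    · exact h2 (le_antisymm (hm.2.2 _ a2 _ hc1) (hm.2.2 _ a1 _ h1))

theorem lemG [Fintype V] (i : Bool) : ∀ (J : ℕ) (X : V) (v : List V) (U : Finset s.N)
    (l r : List V), s.Ctx (s.t0 + J) X l r → s.YR (fun x => ¬ s.Via i x x) J X v →
    (∀ y ∈ U, s.Via i y (X, (s.t0 + J : ℕ))) →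
    cnt s.κ i v ≤ s.ρ ^ (Fintype.card s.N - U.card + (cs s.κ v).card) * s.ρ ^ s.t0 := by
  classical
  have mono : ∀ {a b : ℕ}, a ≤ b → s.ρ ^ a * s.ρ ^ s.t0 ≤ s.ρ ^ b * s.ρ ^ s.t0 :=
    fun h => Nat.mul_le_mul_right _ (Nat.pow_le_pow_right s.h1 h)
  intro J
  induction J with
  | zero =>
    intro X v U l r _ h _
    have a : cnt s.κ i v ≤ v.length := List.countP_le_length
    have b := Y.len s.hρ h
    have c := mono (Nat.zero_le (Fintype.card s.N - U.card + (cs s.κ v).card))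
    simp only [pow_zero, one_mul] at c
    omega
  | succ J ih =>
    intro X v U l r hctx ⟨hΩ, γ, hp, hc⟩ hU
    have hτ : s.t0 ≤ s.t0 + J := by omega
    have hX : (X, ((s.t0 + J + 1 : ℕ) : ZMod s.p)) ∉ U := fun h => hΩ (hU _ h)
    have hk : U.card + 1 ≤ Fintype.card s.N := by
      rw [← Finset.card_insert_of_notMem hX]; exact Finset.card_le_univ _
    obtain ⟨k, hk'⟩ : ∃ k, Fintype.card s.N - U.card = k + 1 :=
      ⟨Fintype.card s.N - U.card - 1, by omega⟩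
    rw [hk']
    by_contra hn
    have hb : γ.length * (s.ρ ^ (k + (cs s.κ v).card) * s.ρ ^ s.t0) < v.countP (qq s.κ i) := by
      refine lt_of_le_of_lt ?_ (not_le.1 hn)
      calc _ ≤ s.ρ * (s.ρ ^ (k + (cs s.κ v).card) * s.ρ ^ s.t0) :=
            Nat.mul_le_mul_right _ (s.hρ _ _ hp)
        _ = _ := by ring
    obtain ⟨α, Z, β, l₁, u, r₁, rfl, rfl, c1, c2, c3, hu⟩ := hc.big _ _ hb
    have c1' : Cat (s.Yl (s.t0 + J)) α l₁ := c1.mono fun _ _ _ h => h.y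
    have c3' : Cat (s.Yl (s.t0 + J)) β r₁ := c3.mono fun _ _ _ h => h.y
    have eg := eg_of_cat hτ hp (c1'.mid c2.y c3')
    have hU' : ∀ y ∈ U, s.Via i y (Z, (s.t0 + J : ℕ)) := fun y hy => by
      obtain ⟨z, z', a1, a2, a3⟩ := hU y hy
      exact ⟨z, z', a1, a2, a3.tail ⟨_, _, eg⟩⟩
    have hctx' := hctx.sib hp c1' c3'
    have hsub : cs s.κ u ⊆ cs s.κ (l₁ ++ u ++ r₁) := by
      intro c hc; simp [hc]
    have i1 := ih Z u U _ _ hctx' c2 hU'
    rw [hk'] at i1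
    change _ < cnt s.κ i u at hu
    have hpw : (cv s.κ l₁ ++ cv s.κ u ++ cv s.κ r₁).Pairwise (· ≤ ·) := by
      have := (hctx _ ⟨_, hp, c1'.mid c2.y c3'⟩).1
      simp only [cv_append] at this
      exact this.sublist ((List.sublist_append_right _ _).trans (List.sublist_append_left _ _))
    have fin : ∀ G ∈ α ++ β, ∀ g, cs s.κ g ⊆ cs s.κ (l₁ ++ u ++ r₁) →
        (s.Good i (G, (s.t0 + J : ℕ)) ∨ ∃ d ∈ cs s.κ g, d ∉ cs s.κ u) → False := by
      rintro G hG g hg (h | ⟨d, h1, h2⟩)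
      · have i2 := ih Z u (insert (X, ((s.t0 + J + 1 : ℕ) : ZMod s.p)) U) _ _ hctx' c2 (by
          intro y hy
          rcases Finset.mem_insert.1 hy with rfl | hy
          · exact ⟨_, _, ReflTransGen.refl, ⟨α, β, eg, G, hG, h⟩, ReflTransGen.refl⟩
          · exact hU' y hy)
        rw [Finset.card_insert_of_notMem hX] at i2
        have := mono (a := Fintype.card s.N - (U.card + 1) + (cs s.κ u).card)
          (b := k + (cs s.κ (l₁ ++ u ++ r₁)).card) (by have := Finset.card_le_card hsub; omega)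
        omega
      · have : (cs s.κ u).card < (cs s.κ (l₁ ++ u ++ r₁)).card :=
          Finset.card_lt_card ⟨hsub, fun h => h2 (h (hg h1))⟩
        have := mono (a := k + 1 + (cs s.κ u).card)
          (b := k + (cs s.κ (l₁ ++ u ++ r₁)).card) (by omega)
        omega
    by_cases h0 : 0 < cnt s.κ i l₁
    · obtain ⟨a, ha, hq⟩ := List.countP_pos_iff.1 h0
      obtain ⟨α1, G, α2, a1, g, a2, rfl, rfl, d1, d2, d3, hg⟩ := c1'.pick ha
      refine fin G (by simp) g (by intro c hc; simp [hc]) (sibcase hτ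
        (hctx.sib (α := α1) (β := α2 ++ Z :: β) (by simpa using hp) d1 (d3.mid c2.y c3')) d2
        (List.countP_pos_iff.2 ⟨a, hg, hq⟩) (Or.inl (hpw.sublist ?_)))
      simp only [cv_append]
      exact ((((List.sublist_append_right _ _).trans (List.sublist_append_left _ _)).append
        (List.Sublist.refl _))).trans (List.sublist_append_left _ _)
    by_cases h1 : 0 < cnt s.κ i r₁
    · obtain ⟨a, ha, hq⟩ := List.countP_pos_iff.1 h1
      obtain ⟨α1, G, α2, a1, g, a2, rfl, rfl, d1, d2, d3, hg⟩ := c3'.pick ha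
      refine fin G (by simp) g (by intro c hc; simp [hc]) (sibcase hτ
        (hctx.sib (α := α ++ Z :: α1) (β := α2) (by simpa using hp) (c1'.mid c2.y d1) d3) d2
        (List.countP_pos_iff.2 ⟨a, hg, hq⟩) (Or.inr (hpw.sublist ?_)))
      simp only [cv_append]
      exact (List.sublist_append_right _ _).append
        ((List.sublist_append_right _ _).trans (List.sublist_append_left _ _))
    have := mono (a := k + 1 + (cs s.κ u).card)
      (b := k + 1 + (cs s.κ (l₁ ++ u ++ r₁)).card) (by have := Finset.card_le_card hsub; omega)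
    simp only [cnt_append] at hn
    omega

theorem claim1 {i : Bool} : ∀ {J : ℕ} {X : V} {v : List V}, ¬ s.aa i (X, (s.t0 + J : ℕ)) →
    s.Yl (s.t0 + J) X v → s.YR (fun x => ¬ s.Via i x x) J X v
  | 0, _, _, _, h => h
  | J + 1, _, _, ha, ⟨α, h1, h2⟩ =>
    ⟨fun h => ha ⟨_, ReflTransGen.refl, h⟩, α, h1, h2.mono fun Z hZ _ h => claim1 (fun ⟨y, a, b⟩ =>
      ha ⟨y, ReflTransGen.head (e_of_cat (τ := s.t0 + J) (by omega) h1 h2 hZ) a, b⟩) h⟩

theorem others {x y : s.N} (h2 : ¬ s.Two x) (hr : s.Rc x y) {α β : List V} {z : s.N}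
    (eg : s.Eg y α z β) {i : Bool} (ha : s.aa i z) : ∀ W ∈ α ++ β, ¬ s.aa (!i) (W, z.2) := by
  obtain ⟨e1, e2, e3, e4⟩ := eg
  have all : ∀ X ∈ α ++ z.1 :: β, s.FinR (X, z.2) := by
    intro X hX
    simp only [List.mem_append, List.mem_cons] at hX
    rcases hX with h | rfl | h
    · exact e4 X (by simp [h])
    · exact e3
    · exact e4 X (by simp [h])
  intro W hW hb
  rcases List.mem_append.1 hW with hW | hW
  · obtain ⟨a, b, rfl⟩ := List.append_of_mem hW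
    exact h2 ⟨y, hr, a, W, b, z.1, β, z.2, !i, e1, by simpa using e2,
      by simpa only [List.append_assoc, List.cons_append] using all, hb, by simpa using ha⟩
  · obtain ⟨a, b, rfl⟩ := List.append_of_mem hW
    exact h2 ⟨y, hr, α, z.1, a, W, b, z.2, i, e1, e2, all, ha, hb⟩

theorem dich {x : s.N} (h2 : ¬ s.Two x) (hno : ∀ y i, s.Rc x y → s.Via i y y → ¬ s.aa (!i) y) :
    ∀ (J : ℕ) (X : V) (v : List V), s.Rc x (X, (s.t0 + J : ℕ)) → s.Yl (s.t0 + J) X v →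
      ∃ i, s.YR (fun x => ¬ s.Via i x x) J X v := by
  intro J
  induction J with
  | zero => intro X v _ h; exact ⟨true, h⟩
  | succ J ih =>
    intro X v hr h
    by_cases ha : ∃ i, ¬ s.aa i (X, (s.t0 + (J + 1) : ℕ))
    · obtain ⟨i, hi⟩ := ha
      exact ⟨i, claim1 hi h⟩
    push Not at ha
    have hΩ : ∀ i, ¬ s.Via i (X, (s.t0 + J + 1 : ℕ)) (X, (s.t0 + J + 1 : ℕ)) :=
      fun i h => hno _ i hr h (ha _)
    obtain ⟨γ, hp, hc⟩ := h
    by_cases hb : ∃ i, ∀ Z ∈ γ, ¬ s.aa i (Z, (s.t0 + J : ℕ))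
    · obtain ⟨i, hi⟩ := hb
      exact ⟨i, hΩ i, γ, hp, hc.mono fun Z hZ _ h => claim1 (hi Z hZ) h⟩
    push Not at hb
    obtain ⟨Z, hZ, hf⟩ := hb false
    obtain ⟨α, β, rfl⟩ := List.append_of_mem hZ
    have eg := eg_of_cat (τ := s.t0 + J) (by omega) hp hc
    have o1 := others h2 hr eg hf
    have ht : s.aa true (Z, (s.t0 + J : ℕ)) := by
      obtain ⟨W, hW, hw⟩ := hb true
      simp only [List.mem_append, List.mem_cons] at hW
      rcases hW with h | rfl | h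
      · exact absurd hw (o1 W (by simp [h]))
      · exact hw
      · exact absurd hw (o1 W (by simp [h]))
    have o2 := others h2 hr eg ht
    obtain ⟨l, u, r, rfl, c1, c2, c3⟩ := cat_mid.1 hc
    obtain ⟨i, hi⟩ := ih Z u (ReflTransGen.tail hr ⟨_, _, eg⟩) c2
    have o : ∀ W ∈ α ++ β, ¬ s.aa i (W, (s.t0 + J : ℕ)) := by
      cases i
      · exact o2
      · exact o1
    exact ⟨i, hΩ i, _, hp, Cat.mid (c1.mono fun W hW _ h => claim1 (o W (by simp [hW])) h) hi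
      (c3.mono fun W hW _ h => claim1 (o W (by simp [hW])) h)⟩

end Sys

end Pool.Agent.H24.Eol
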