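import Pool.Agent.H24.Eol6

namespace Pool.Agent.H24.Eol
open Relation

namespace Sys
variable {V : Type} {s : Sys V}

def Em (s : Sys V) (x z : s.N) (j : ℕ) (A B : Finset (Fin 4)) : Prop :=
  x.2 = z.2 + j ∧ ∀ τ : ℕ, s.t0 ≤ τ → (τ : ZMod s.p) = z.2 → ∃ l r, cs s.κ l = A ∧ cs s.κ r = B ∧
    ∀ v, s.Yl τ z.1 v → s.Yl (τ + j) x.1 (l ++ v ++ r)

theorem Em.refl (x : s.N) : s.Em x x 0 ∅ ∅ :=
  ⟨by simp, fun _ _ _ => ⟨[], [], rfl, rfl, fun v hv => by simpa using hv⟩⟩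

theorem Em.trans {x y z : s.N} {j j' : ℕ} {A B A' B' : Finset (Fin 4)} (h : s.Em x y j A B)
    (h' : s.Em y z j' A' B') : s.Em x z (j' + j) (A ∪ A') (B' ∪ B) := by
  refine ⟨by rw [h.1, h'.1]; push_cast; ring, fun τ h1 h2 => ?_⟩
  obtain ⟨l', r', rfl, rfl, a⟩ := h'.2 τ h1 h2
  obtain ⟨l, r, rfl, rfl, b⟩ := h.2 (τ + j') (by omega) (by rw [h'.1, ← h2]; push_cast; ring)
  refine ⟨l ++ l', r' ++ r, by simp, by simp, fun v hv => ?_⟩
  have := b _ (a v hv)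
  rw [← add_assoc]
  simpa using this

theorem canon {α : List V} {r : ZMod s.p} (h : ∀ X ∈ α, s.FinR (X, r)) : ∃ A, (∀ τ : ℕ, s.t0 ≤ τ →
    (τ : ZMod s.p) = r → ∃ l, Cat (s.Yl τ) α l ∧ cs s.κ l = A) ∧
    ∀ i, ∀ G ∈ α, s.Good i (G, r) → ∃ c ∈ A, pr i c := by
  obtain ⟨τ0, h1, h2⟩ := age r s.t0
  obtain ⟨l, hl⟩ := cat_exists (R := s.Yl τ0) fun X hX => h X hX τ0 h1 h2
  refine ⟨cs s.κ l, fun τ a b => transfer (s.per τ0 τ h1 a (h2.trans b.symm)) hl, ?_⟩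
  intro i G hG hg
  obtain ⟨α, β, rfl⟩ := List.append_of_mem hG
  obtain ⟨a, u, b, rfl, -, c, -⟩ := cat_mid.1 hl
  rw [← cnt_pos]
  have := hg τ0 h1 h2 u c
  simp only [cnt_append]; omega

theorem Eg.em {x z : s.N} {α β : List V} (h : s.Eg x α z β) : ∃ A B, s.Em x z 1 A B ∧
    ∀ i, ∀ G ∈ α ++ β, s.Good i (G, z.2) → ∃ c ∈ A ∪ B, pr i c := by
  obtain ⟨e1, e2, -, e4⟩ := h
  obtain ⟨A, a1, a2⟩ := canon (α := α) fun X hX => e4 X (by simp [hX])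
  obtain ⟨B, b1, b2⟩ := canon (α := β) fun X hX => e4 X (by simp [hX])
  refine ⟨A, B, ⟨by simpa using e1, fun τ h1 h2 => ?_⟩, fun i G hG hg => ?_⟩
  · obtain ⟨l, c1, rfl⟩ := a1 τ h1 h2
    obtain ⟨r, c2, rfl⟩ := b1 τ h1 h2
    exact ⟨l, r, rfl, rfl, fun v hv => ⟨_, e2, c1.mid hv c2⟩⟩
  · rcases List.mem_append.1 hG with hG | hG
    · obtain ⟨c, h1, h2⟩ := a2 i G hG hg
      exact ⟨c, by simp [h1], h2⟩
    · obtain ⟨c, h1, h2⟩ := b2 i G hG hg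
      exact ⟨c, by simp [h1], h2⟩

theorem Rc.em {x z : s.N} (h : s.Rc x z) : ∃ j A B, s.Em x z j A B := by
  induction h with
  | refl => exact ⟨_, _, _, Em.refl x⟩
  | tail _ h2 ih =>
    obtain ⟨j, A, B, h⟩ := ih
    obtain ⟨α, β, e⟩ := h2
    obtain ⟨A', B', h', -⟩ := e.em
    exact ⟨_, _, _, h.trans h'⟩

theorem Via.em {i : Bool} {x y : s.N} (h : s.Via i x y) :
    s.FinR y ∧ ∃ j A B, s.Em x y j A B ∧ ∃ c ∈ A ∪ B, pr i c := by
  obtain ⟨z, z', h1, ⟨α, β, e, G, hG, hg⟩, h2⟩ := h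
  constructor
  · rcases ReflTransGen.cases_tail h2 with rfl | ⟨c, -, _, _, -, -, h, -⟩
    · exact e.2.2.1
    · exact h
  obtain ⟨j, A, B, a⟩ := h1.em
  obtain ⟨j', A', B', a'⟩ := h2.em
  obtain ⟨A'', B'', a'', b⟩ := e.em
  obtain ⟨c, c1, c2⟩ := b i G hG hg
  refine ⟨_, _, _, (a.trans a'').trans a', c, ?_, c2⟩
  simp only [Finset.mem_union] at c1 ⊢
  tauto

theorem aa.yield {i : Bool} {x : s.N} (h : s.aa i x) {τ : ℕ} (h1 : s.t0 ≤ τ)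
    (h2 : (τ : ZMod s.p) = x.2) : ∃ v, s.Yl τ x.1 v ∧ ∃ c ∈ cs s.κ v, pr i c := by
  obtain ⟨y, a, b⟩ := h
  obtain ⟨j, A, B, e⟩ := a.em
  obtain ⟨f, j', A', B', e', c, c1, c2⟩ := b.em
  have e2 := e.trans e'
  obtain ⟨τ0, t1, t2⟩ := age y.2 s.t0
  obtain ⟨u, hu⟩ := f τ0 t1 t2
  obtain ⟨l, r, g1, g2, g3⟩ := e2.2 τ0 t1 t2
  obtain ⟨v, v1, v2⟩ := shift (τ' := τ) (by omega) h1 (by rw [h2, e2.1, ← t2]; push_cast; ring)
    (g3 u hu)
  refine ⟨v, v1, c, ?_, c2⟩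
  rw [v2]
  simp only [cs_append, g1, g2, Finset.mem_union] at c1 ⊢
  tauto

theorem bound1 [Fintype V] {i : Bool} {τ : ℕ} (hτ : s.t0 ≤ τ) {γ v : List V}
    (hc : Cat (s.Yl τ) γ v) : ∀ l r : List V,
    (∀ v, Cat (s.Yl τ) γ v → OK (cv s.κ (l ++ v ++ r))) → (∀ X ∈ γ, ¬ s.aa i (X, τ)) →
    cnt s.κ i v ≤ γ.length * (s.ρ ^ (Fintype.card s.N + 4) * s.ρ ^ s.t0) := by
  obtain ⟨J, rfl⟩ := Nat.exists_eq_add_of_le hτ
  induction hc with
  | nil => simp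
  | @cons X u x v h1 h2 ih =>
    intro l r hctx ha
    have a := ih (l ++ u) r (fun v hv => by simpa using hctx _ (Cat.cons h1 hv))
      fun Z hZ => ha Z (by simp [hZ])
    have b := lemG i J X u ∅ l (v ++ r) (fun u hu => by simpa using hctx _ (Cat.cons hu h2))
      (claim1 (ha X (by simp)) h1) (by simp)
    have c : s.ρ ^ (Fintype.card s.N - (∅ : Finset s.N).card + (cs s.κ u).card) * s.ρ ^ s.t0 ≤
        s.ρ ^ (Fintype.card s.N + 4) * s.ρ ^ s.t0 := by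
      refine Nat.mul_le_mul_right _ (Nat.pow_le_pow_right s.h1 ?_)
      have : (cs s.κ u).card ≤ 4 := by simpa using Finset.card_le_univ (cs s.κ u)
      simp; omega
    rw [cnt_append, List.length_cons, Nat.succ_mul]
    omega

theorem toplem [Fintype V] {i : Bool} {x y : s.N} (h2 : ¬ s.Two x) (h : s.Rc x y)
    (ha : s.aa (!i) y) : ∃ j M : ℕ, ∀ τ : ℕ, s.t0 ≤ τ → (τ : ZMod s.p) = y.2 →
      ∀ l r, s.Ctx (τ + j) x.1 l r →
        ∃ l' r', s.Ctx τ y.1 (l ++ l') (r' ++ r) ∧ cnt s.κ i (l' ++ r') ≤ M := by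
  induction h with
  | refl => exact ⟨0, 0, fun τ _ _ l r h => ⟨[], [], by simpa using h, by simp⟩⟩
  | @tail y' y h1 he ih =>
    obtain ⟨j, M, hM⟩ := ih (by
      obtain ⟨z, a, b⟩ := ha
      exact ⟨z, ReflTransGen.head he a, b⟩)
    obtain ⟨α, β, eg⟩ := he
    have o := others h2 h1 eg ha
    rw [Bool.not_not] at o
    obtain ⟨e1, e2, e3, e4⟩ := eg
    refine ⟨1 + j, M + (α.length + β.length) * (s.ρ ^ (Fintype.card s.N + 4) * s.ρ ^ s.t0),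
      fun τ t1 t2 l r hc => ?_⟩
    obtain ⟨l', r', c1, c2⟩ := hM (τ + 1) (by omega) (by rw [e1, ← t2]; push_cast; ring) l r
      (by rwa [add_assoc])
    obtain ⟨a, ha⟩ := cat_exists (R := s.Yl τ) (x := α) fun X hX => e4 X (by simp [hX]) τ t1 t2
    obtain ⟨b, hb⟩ := cat_exists (R := s.Yl τ) (x := β) fun X hX => e4 X (by simp [hX]) τ t1 t2
    obtain ⟨u, hu⟩ := e3 τ t1 t2
    have b1 := bound1 (i := i) t1 ha (l ++ l') (u ++ b ++ (r' ++ r))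
      (fun v hv => by simpa using c1 _ ⟨_, e2, hv.mid hu hb⟩)
      (fun X hX => t2 ▸ o X (by simp [hX]))
    have b2 := bound1 (i := i) t1 hb (l ++ l' ++ a ++ u) (r' ++ r)
      (fun v hv => by simpa using c1 _ ⟨_, e2, ha.mid hu hv⟩)
      (fun X hX => t2 ▸ o X (by simp [hX]))
    refine ⟨l' ++ a, b ++ r', by simpa using c1.sib e2 ha hb, ?_⟩
    simp only [cnt_append] at c2 ⊢
    rw [add_mul]; omega

theorem noseq [Fintype V] {x : s.N} (hx : ∀ τ, s.Ctx τ x.1 [] []) (h2 : ¬ s.Two x) (y : s.N)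
    (i : Bool) (h : s.Rc x y) (hv : s.Via i y y) : ¬ s.aa (!i) y := by
  intro ha
  obtain ⟨j, M, hM⟩ := toplem h2 h ha
  have ctx : ∀ τ : ℕ, s.t0 ≤ τ → (τ : ZMod s.p) = y.2 →
      ∃ l r, s.Ctx τ y.1 l r ∧ cnt s.κ i (l ++ r) ≤ M := by
    intro τ t1 t2
    obtain ⟨l, r, c1, c2⟩ := hM τ t1 t2 [] [] (hx _)
    exact ⟨l, r, by simpa using c1, c2⟩
  obtain ⟨-, m, A, B, ⟨e1, e2⟩, c, c1, c2⟩ := hv.em
  have hm : (m : ZMod s.p) = 0 := by simpa using e1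
  obtain ⟨τ0, t1, t2⟩ := age y.2 s.t0
  obtain ⟨v0, hv0, c0, d1, d2⟩ := ha.yield t1 t2
  have tk : ∀ k : ℕ, ((τ0 + k * m : ℕ) : ZMod s.p) = y.2 := by
    intro k; push_cast; rw [hm, t2]; simp
  have pump : ∀ k : ℕ, ∃ l r, s.Yl (τ0 + k * m) y.1 (l ++ v0 ++ r) ∧ cs s.κ (l ++ r) ⊆ A ∪ B ∧
      k ≤ (cv s.κ (l ++ r)).count c := by
    intro k
    induction k with
    | zero => exact ⟨[], [], by simpa using hv0, by simp, by simp⟩
    | succ k ih =>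
      obtain ⟨l, r, a1, a2, a3⟩ := ih
      obtain ⟨l', r', rfl, rfl, b⟩ := e2 _ (by omega) (tk k)
      refine ⟨l' ++ l, r ++ r', ?_, ?_, ?_⟩
      · have := b _ a1
        rw [Nat.succ_mul, ← add_assoc]
        simpa using this
      · intro d hd
        have := @a2 d
        simp only [cs_append, Finset.mem_union] at hd this ⊢
        tauto
      · have : 0 < (cv s.κ (l' ++ r')).count c := by
          rw [List.count_pos_iff, ← mem_cs]; simpa using c1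
        simp only [cv_append, List.count_append] at a3 this ⊢
        omega
  have notboth : ¬ (lo i ∈ A ∪ B ∧ hi i ∈ A ∪ B) := by
    rintro ⟨g1, g2⟩
    obtain ⟨l1, r1, a1, a2, a3⟩ := e2 τ0 t1 t2
    obtain ⟨l2, r2, b1, b2, b3⟩ := e2 (τ0 + m) (by omega) (by simpa using tk 1)
    obtain ⟨l, r, c, -⟩ := ctx (τ0 + m + m) (by omega) (by
      have := tk 2; rw [← this]; congr 1; ring)
    have pw := (c _ (b3 _ (a3 _ hv0))).1
    simp only [cv_append, List.pairwise_append, List.mem_append] at pw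
    obtain ⟨⟨-, ⟨⟨-, ⟨⟨-, -, p1⟩, -, p2⟩, p3⟩, -, p4⟩, -⟩, -, -⟩ := pw
    have mA1 : ∀ d ∈ A, d ∈ cv s.κ l1 := fun d hd => mem_cs.1 (a1 ▸ hd)
    have mA2 : ∀ d ∈ A, d ∈ cv s.κ l2 := fun d hd => mem_cs.1 (b1 ▸ hd)
    have mB1 : ∀ d ∈ B, d ∈ cv s.κ r1 := fun d hd => mem_cs.1 (a2 ▸ hd)
    have mB2 : ∀ d ∈ B, d ∈ cv s.κ r2 := fun d hd => mem_cs.1 (b2 ▸ hd)
    have m0 := mem_cs.1 d1
    have lt : ¬ hi i ≤ lo i := by cases i <;> decide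
    have k1 : ∀ (i : Bool) (c : Fin 4), pr (!i) c → lo i ≤ c → ¬ c ≤ hi i := by decide
    rcases Finset.mem_union.1 g1 with g1 | g1 <;> rcases Finset.mem_union.1 g2 with g2 | g2
    · exact lt (p3 _ (mA2 _ g2) _ (Or.inl (Or.inl (mA1 _ g1))))
    · exact k1 i c0 d2 (p1 _ (mA1 _ g1) _ m0) (p2 _ (Or.inr m0) _ (mB1 _ g2))
    · exact lt (p2 _ (Or.inl (mA1 _ g2)) _ (mB1 _ g1))
    · exact lt (p4 _ (Or.inr (Or.inr (mB1 _ g2))) _ (mB2 _ g1))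
  obtain ⟨l', r', a1, a2, a3⟩ := pump (M + v0.length + 1)
  obtain ⟨l, r, b1, b2⟩ := ctx _ (by omega) (tk (M + v0.length + 1))
  have e := (b1 _ a1).eq i
  rw [cnt_eq] at b2
  have z : ∀ d, d ∉ A ∪ B → (cv s.κ (l' ++ r')).count d = 0 := fun d hd =>
    List.count_eq_zero.2 fun h => hd (a2 (mem_cs.2 h))
  have lv : ∀ d, (cv s.κ v0).count d ≤ v0.length := fun d =>
    List.count_le_length.trans (List.length_filterMap_le _ _)
  have l1 := lv (lo i)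
  have l2 := lv (hi i)
  rcases c2 with rfl | rfl
  · have := z (hi i) fun h => notboth ⟨c1, h⟩
    simp only [cv_append, List.count_append] at *
    omega
  · have := z (lo i) fun h => notboth ⟨h, c1⟩
    simp only [cv_append, List.count_append] at *
    omega

theorem two_of_big [Finite V] (S : V) (hS : ∀ τ v, s.Yl τ S v → OK (cv s.κ v))
    (hb : ∀ n, ∃ τ v, s.Yl τ S v ∧ ∀ i, n ≤ cnt s.κ i v) : ∃ r, s.Two (S, r) := by
  have := Fintype.ofFinite V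
  have hx : ∀ τ, s.Ctx τ S [] [] := fun τ v hv => by simpa using hS τ v hv
  obtain ⟨τ, v, hv, hn⟩ := hb (s.ρ ^ (Fintype.card s.N + 4) * s.ρ ^ s.t0 + 1)
  have hτ : s.t0 ≤ τ := by
    by_contra hc
    have a := Y.len s.hρ hv
    have b : cnt s.κ true v ≤ v.length := List.countP_le_length
    have c : s.ρ ^ τ ≤ s.ρ ^ s.t0 := Nat.pow_le_pow_right s.h1 (by omega)
    have d : s.ρ ^ s.t0 ≤ s.ρ ^ (Fintype.card s.N + 4) * s.ρ ^ s.t0 :=
      Nat.le_mul_of_pos_left _ (Nat.pow_pos s.h1)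
    have := hn true
    omega
  obtain ⟨J, rfl⟩ := Nat.exists_eq_add_of_le hτ
  refine ⟨(s.t0 + J : ℕ), ?_⟩
  by_contra h2
  obtain ⟨i, hi⟩ := dich h2 (noseq hx h2) J S v ReflTransGen.refl hv
  have b := lemG i J S v ∅ [] [] (hx _) hi (by simp)
  have c : s.ρ ^ (Fintype.card s.N - (∅ : Finset s.N).card + (cs s.κ v).card) * s.ρ ^ s.t0 ≤
      s.ρ ^ (Fintype.card s.N + 4) * s.ρ ^ s.t0 := by
    refine Nat.mul_le_mul_right _ (Nat.pow_le_pow_right s.h1 ?_)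
    have : (cs s.κ v).card ≤ 4 := by simpa using Finset.card_le_univ (cs s.κ v)
    simp; omega
  have := hn i
  omega

end Sys

end Pool.Agent.H24.Eol
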