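import Pool.Agent.H24.Eol7

namespace Pool.Agent.H24.Eol
open Relation

namespace Sys
variable {V : Type} (s : Sys V) (n : ℕ)

abbrev Lm := ZMod s.p × (Bool → Option (Fin (n + 1)))

def okM (x : V × s.Lm n) (α : List (V × s.Lm n)) : Prop :=
  (∀ y ∈ α, x.2.1 = y.2.1 + 1) ∧ ∀ i, ∀ y ∈ α, ∀ c', y.2.2 i = some c' → ∃ c, x.2.2 i = some c ∧
    (c'.val = c.val + 1 ∨ ∃ G ∈ α, G.2.2 i = none ∧ s.Good i (G.1, G.2.1))

def PM (x : V × s.Lm n) (α : List (V × s.Lm n)) : Prop :=
  s.P x.1 (α.map Prod.fst) ∧ s.okM n x α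

abbrev YM := Y (s.PM n) fun x => s.T x.1

def tag (i : Bool) (y : V × s.Lm n) : Prop := y.2.1 = 0 ∧ y.2.2 i ≠ none

def un (r : ZMod s.p) (α : List V) : List (V × s.Lm n) := α.map fun X => (X, (r, fun _ => none))

def Lv (m : Bool → Prop) (τ : ℕ) (X : V) (c : ℕ) : Prop :=
  ∀ o : Bool → Option (Fin (n + 1)), (∀ i, m i → (o i).map Fin.val = some c) →
    ∃ v, s.YM n τ (X, ((τ : ZMod s.p), o)) v ∧ ∀ i, m i → ∃ y ∈ v, s.tag n i y

def Rn : ℕ → s.N → s.N → Prop
  | 0, x, y => x = y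
  | d + 1, x, y => ∃ z, s.E x z ∧ Rn d z y

variable {s n}

theorem un_fst (r : ZMod s.p) (α : List V) : (s.un n r α).map Prod.fst = α := by
  simp [un, List.map_map, Function.comp_def]

theorem mem_un {r : ZMod s.p} {α : List V} {y : V × s.Lm n} (h : y ∈ s.un n r α) :
    y.2.1 = r ∧ ∀ i, y.2.2 i = none := by
  obtain ⟨X, -, rfl⟩ := List.mem_map.1 h
  exact ⟨rfl, fun _ => rfl⟩

theorem pm_un {X : V} {α : List V} (h : s.P X α) (lam : s.Lm n) :
    s.PM n (X, lam) (s.un n (lam.1 - 1) α) :=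
  ⟨by rwa [un_fst], fun y hy => by simp [(mem_un hy).1], fun i y hy c' hc => by
    simp [(mem_un hy).2] at hc⟩

theorem cat_un {R : V → List V → Prop} {R' : V × s.Lm n → List (V × s.Lm n) → Prop}
    {r : ZMod s.p} {α l : List V} (h : Cat R α l)
    (hR : ∀ X u, R X u → ∀ lam, ∃ u', R' (X, lam) u') : ∃ l', Cat R' (s.un n r α) l' := by
  refine cat_exists fun y hy => ?_
  obtain ⟨X, hX, rfl⟩ := List.mem_map.1 hy
  obtain ⟨u, hu⟩ := h.all X hX
  exact hR X u hu _

theorem free : ∀ {τ : ℕ} {X : V} {v : List V}, s.Yl τ X v → ∀ lam : s.Lm n,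
    ∃ v', s.YM n τ (X, lam) v'
  | 0, X, _, h, lam => ⟨[(X, lam)], h.1, rfl⟩
  | _ + 1, _, _, ⟨_, h1, h2⟩, lam => by
    obtain ⟨l', hl⟩ := cat_un (n := n) (r := lam.1 - 1) h2 fun X u h => free h
    exact ⟨l', _, pm_un h1 lam, hl⟩

theorem cat_proj {R : V → List V → Prop} {R' : V × s.Lm n → List (V × s.Lm n) → Prop}
    {α l : List (V × s.Lm n)} (h : Cat R' α l)
    (hR : ∀ x u, R' x u → R x.1 (u.map Prod.fst)) : Cat R (α.map Prod.fst) (l.map Prod.fst) := by
  induction h with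
  | nil => exact Cat.nil
  | cons h1 _ ih => rw [List.map_cons, List.map_append]; exact Cat.cons (hR _ _ h1) ih

theorem proj : ∀ {τ : ℕ} {x : V × s.Lm n} {v : List (V × s.Lm n)}, s.YM n τ x v →
    s.Yl τ x.1 (v.map Prod.fst)
  | 0, _, _, h => ⟨h.1, by rw [h.2]; rfl⟩
  | _ + 1, _, _, ⟨_, h1, h2⟩ => ⟨_, h1.1, cat_proj h2 fun _ _ h => proj h⟩

theorem lower (i : Bool) : ∀ (τ : ℕ) (x : V × s.Lm n) (v : List (V × s.Lm n)), s.YM n τ x v →
    (∃ y ∈ v, s.tag n i y) → x.2.1 = τ ∧ ∃ c, x.2.2 i = some c ∧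
      τ + c.val ≤ s.t0 + (n + 1) * (cnt s.κ i (v.map Prod.fst) + 1) := by
  intro τ
  induction τ with
  | zero =>
    rintro x v ⟨-, rfl⟩ ⟨y, hy, h1, h2⟩
    obtain rfl : y = x := by simpa using hy
    obtain ⟨c, hc⟩ := Option.ne_none_iff_exists'.1 h2
    refine ⟨by simpa using h1, c, hc, ?_⟩
    have := c.2
    nlinarith
  | succ τ ih =>
    rintro x v ⟨α, ⟨-, h1, h2⟩, hc⟩ ⟨y, hy, ht⟩
    obtain ⟨α, z, β, l, u, r, rfl, rfl, c1, c2, c3, hu⟩ := hc.pick hy
    obtain ⟨a1, c', a2, a3⟩ := ih z u c2 ⟨y, hu, ht⟩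
    have e := h1 z (by simp)
    refine ⟨by rw [e, a1]; simp, ?_⟩
    obtain ⟨c, b1, b2⟩ := h2 i z (by simp) c' a2
    refine ⟨c, b1, ?_⟩
    simp only [List.map_append, cnt_append]
    rcases b2 with b2 | ⟨G, hG, g1, g2⟩
    · nlinarith [Nat.zero_le (cnt s.κ i (l.map Prod.fst)), Nat.zero_le (cnt s.κ i (r.map Prod.fst))]
    have hc2 := c.2
    by_cases ht0 : s.t0 ≤ τ
    · have eG : ((τ : ℕ) : ZMod s.p) = G.2.1 := by
        have := h1 G hG
        rw [e, a1] at this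
        exact add_right_cancel this
      have pos : ∀ {γ w : List (V × s.Lm n)}, Cat (s.YM n τ) γ w → G ∈ γ →
          0 < cnt s.κ i (w.map Prod.fst) := by
        intro γ w hw hg
        obtain ⟨γ1, γ2, rfl⟩ := List.append_of_mem hg
        obtain ⟨a, g, b, rfl, -, h, -⟩ := cat_mid.1 hw
        have := g2 τ ht0 eG _ (proj h)
        simp only [List.map_append, cnt_append]; omega
      have : 0 < cnt s.κ i (l.map Prod.fst) + cnt s.κ i (r.map Prod.fst) := by
        simp only [List.mem_append, List.mem_cons] at hG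
        rcases hG with h | rfl | h
        · have := pos c1 h; omega
        · rw [g1] at a2; simp at a2
        · have := pos c3 h; omega
      nlinarith
    · nlinarith [Nat.zero_le (cnt s.κ i (l.map Prod.fst)), Nat.zero_le (cnt s.κ i (r.map Prod.fst)),
        Nat.zero_le (cnt s.κ i (u.map Prod.fst))]

theorem lv_step {m : Bool → Prop} {τ c c' : ℕ} {X Z : V} {α β l r : List V}
    (hp : s.P X (α ++ Z :: β)) (hl : Cat (s.Yl τ) α l) (hr : Cat (s.Yl τ) β r) (hc' : c' ≤ n)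
    (hc : c' = c + 1 ∨ ∀ i, m i → ∃ G ∈ α ++ β, s.Good i (G, τ)) (h : s.Lv n m τ Z c') :
    s.Lv n m (τ + 1) X c := by
  classical
  intro o ho
  obtain ⟨u, h1, h2⟩ := h (fun i => if m i then some ⟨c', by omega⟩ else none)
    (fun i hi => by simp [hi])
  obtain ⟨l', hl'⟩ := cat_un (n := n) (r := (τ : ZMod s.p)) hl fun X u h => free h
  obtain ⟨r', hr'⟩ := cat_un (n := n) (r := (τ : ZMod s.p)) hr fun X u h => free h
  refine ⟨_, ⟨_, ⟨by simpa [un_fst] using hp, ?_, ?_⟩, hl'.mid h1 hr'⟩, fun i hi => ?_⟩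
  · intro y hy
    simp only [List.mem_append, List.mem_cons] at hy
    rcases hy with hy | rfl | hy
    · simp [(mem_un hy).1]
    · simp
    · simp [(mem_un hy).1]
  · intro i y hy d hd
    simp only [List.mem_append, List.mem_cons] at hy
    rcases hy with hy | rfl | hy
    · simp [(mem_un hy).2] at hd
    · by_cases hi : m i
      · simp only [hi, if_true, Option.some.injEq] at hd
        subst hd
        obtain ⟨e, he1, he2⟩ := Option.map_eq_some_iff.1 (ho i hi)
        refine ⟨e, he1, hc.imp (fun h => by simp [h, he2]) fun h => ?_⟩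
        obtain ⟨G, hG, hg⟩ := h i hi
        refine ⟨(G, ((τ : ZMod s.p), fun _ => none)), ?_, rfl, hg⟩
        simp only [List.mem_append, List.mem_cons, un, List.mem_map] at hG ⊢
        rcases hG with h | h
        · exact Or.inl ⟨G, h, rfl⟩
        · exact Or.inr (Or.inr ⟨G, h, rfl⟩)
      · simp [hi] at hd
    · simp [(mem_un hy).2] at hd
  · obtain ⟨y, hy, ht⟩ := h2 i hi
    exact ⟨y, by simp [hy], ht⟩

theorem lv_ne (m : Bool → Prop) : ∀ (τ : ℕ) (X : V) (v : List V) (c : ℕ), s.Yl τ X v → v ≠ [] →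
    c + τ ≤ n → s.Lv n m τ X c := by
  intro τ
  induction τ with
  | zero =>
    intro X v c h _ _ o ho
    refine ⟨_, ⟨h.1, rfl⟩, fun i hi => ⟨_, List.mem_singleton_self _, by simp, fun e => ?_⟩⟩
    have := ho i hi
    simp only at e
    simp [e] at this
  | succ τ ih =>
    rintro X v c ⟨γ, hp, hc⟩ hne hn
    obtain ⟨a, ha⟩ := List.exists_mem_of_ne_nil v hne
    obtain ⟨α, Z, β, l, u, r, rfl, rfl, c1, c2, c3, hu⟩ := hc.pick ha
    exact lv_step hp c1 c3 (by omega) (Or.inl rfl)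
      (ih Z u (c + 1) c2 (List.ne_nil_of_mem hu) (by omega))

theorem Rc.rn {x y : s.N} (h : s.Rc x y) : ∃ d, s.Rn d x y := by
  induction h using ReflTransGen.head_induction_on with
  | refl => exact ⟨0, rfl⟩
  | head h1 _ ih => obtain ⟨d, hd⟩ := ih; exact ⟨d + 1, _, h1, hd⟩

theorem Rn.snd : ∀ {d : ℕ} {x y : s.N}, s.Rn d x y → x.2 = y.2 + d
  | 0, _, _, h => by rw [h]; simp
  | d + 1, _, _, ⟨_, ⟨_, _, h1⟩, h2⟩ => by rw [h1.1, Rn.snd h2]; push_cast; ring

theorem Eg.yields {x z : s.N} {α β : List V} (h : s.Eg x α z β) {τ : ℕ} (h1 : s.t0 ≤ τ)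
    (h2 : (τ : ZMod s.p) = z.2) : (∃ l, Cat (s.Yl τ) α l) ∧ ∃ r, Cat (s.Yl τ) β r :=
  ⟨cat_exists fun X hX => h.2.2.2 X (by simp [hX]) τ h1 h2,
   cat_exists fun X hX => h.2.2.2 X (by simp [hX]) τ h1 h2⟩

theorem lv_rn (m : Bool → Prop) {τ : ℕ} (h1 : s.t0 ≤ τ) : ∀ (d : ℕ) (x y : s.N) (c : ℕ),
    s.Rn d x y → (τ : ZMod s.p) = y.2 → c + d ≤ n → s.Lv n m τ y.1 (c + d) →
    s.Lv n m (τ + d) x.1 c := by
  intro d
  induction d with
  | zero => rintro x y c rfl _ _ h; exact h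
  | succ d ih =>
    rintro x y c ⟨z, ⟨α, β, eg⟩, h2⟩ e hn h
    obtain ⟨⟨l, hl⟩, r, hr⟩ := eg.yields (τ := τ + d) (by omega) (by rw [h2.snd, ← e]; simp)
    exact lv_step eg.2.1 hl hr (by omega) (Or.inl rfl)
      (ih z y (c + 1) h2 e (by omega) (by rwa [add_right_comm]))

theorem exists_D [Finite V] : ∃ D, ∀ i x, s.aa i x →
    ∃ d ≤ D, ∃ z z', s.Rn d x z ∧ s.EG i z z' ∧ s.aa i z' := by
  have : ∀ q : Bool × s.N, ∃ d, s.aa q.1 q.2 →
      ∃ z z', s.Rn d q.2 z ∧ s.EG q.1 z z' ∧ s.aa q.1 z' := by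
    rintro ⟨i, x⟩
    by_cases h : s.aa i x
    · obtain ⟨y, h1, z, z', h2, h3, h4⟩ := h
      obtain ⟨d, hd⟩ := Rc.rn (h1.trans h2)
      exact ⟨d, fun _ => ⟨z, z', hd, h3, y, h4, z, z', h2, h3, h4⟩⟩
    · exact ⟨0, fun h' => absurd h' h⟩
  choose f hf using this
  obtain ⟨D, hD⟩ := (Set.finite_range f).bddAbove
  exact ⟨D, fun i x h => ⟨f (i, x), hD ⟨_, rfl⟩, hf (i, x) h⟩⟩

theorem lv_aa {D c0 : ℕ} (hD : ∀ i x, s.aa i x →
    ∃ d ≤ D, ∃ z z', s.Rn d x z ∧ s.EG i z z' ∧ s.aa i z') (hn : c0 + s.t0 + D + 1 ≤ n) (i : Bool) :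
    ∀ τ : ℕ, s.t0 ≤ τ → ∀ x : s.N, s.aa i x → (τ : ZMod s.p) = x.2 → ∀ c ≤ c0,
      s.Lv n (fun j => j = i) τ x.1 c := by
  intro τ
  induction τ using Nat.strong_induction_on with
  | _ τ ih =>
    intro h1 x ha e c hc
    by_cases hs : τ ≤ s.t0 + D + 1
    · obtain ⟨v, hv, d, hd, -⟩ := ha.yield h1 e
      exact lv_ne _ τ x.1 v c hv (by rintro rfl; simp at hd) (by omega)
    obtain ⟨d, hd, z, z', a1, ⟨α, β, eg, G, hG, hg⟩, a3⟩ := hD i x ha
    obtain ⟨τ', rfl⟩ : ∃ τ', τ = τ' + 1 + d := ⟨τ - 1 - d, by omega⟩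
    have e' : (τ' : ZMod s.p) = z'.2 := by
      rw [a1.snd, eg.1] at e
      push_cast at e
      exact add_right_cancel (add_right_cancel e)
    obtain ⟨⟨l, hl⟩, r, hr⟩ := eg.yields (τ := τ') (by omega) e'
    refine lv_rn _ (by omega) d x z c a1 (by rw [eg.1, ← e']; simp) (by omega)
      (lv_step (c' := 0) eg.2.1 hl hr (by omega) (Or.inr ?_)
        (ih τ' (by omega) (by omega) z' a3 e' 0 (by omega)))
    rintro j rfl
    exact ⟨G, hG, e' ▸ hg⟩

theorem both [Finite V] {x : s.N} (h : s.Two x) : ∃ n, ∀ m, ∃ τ, m ≤ τ ∧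
    ∃ v, s.YM n τ (x.1, (x.2, fun _ => some 0)) v ∧ ∀ i, ∃ y ∈ v, s.tag n i y := by
  obtain ⟨y, h0, α, Z1, β, Z2, γ, r, i, e1, hp, hf, a1, a2⟩ := h
  obtain ⟨d, hd⟩ := h0.rn
  obtain ⟨D, hD⟩ := exists_D (s := s)
  refine ⟨d + 1 + s.t0 + D + 1, fun m => ?_⟩
  generalize hn : d + 1 + s.t0 + D + 1 = n
  obtain ⟨τ, t1, t2⟩ := age r (s.t0 + m)
  have key : s.Lv n (fun _ => True) (τ + 1) y.1 (0 + d) := by
    intro o ho
    let c : Fin (n + 1) := ⟨d + 1, by omega⟩
    obtain ⟨u1, b1, b2⟩ := lv_aa hD hn.le i τ (by omega) _ a1 t2 (d + 1) le_rfl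
      (fun j => if j = i then some c else none) (fun j hj => by simp [hj, c])
    obtain ⟨u2, b3, b4⟩ := lv_aa hD hn.le (!i) τ (by omega) _ a2 t2 (d + 1) le_rfl
      (fun j => if j = !i then some c else none) (fun j hj => by simp [hj, c])
    have yl : ∀ δ : List V, (∀ X ∈ δ, X ∈ α ++ Z1 :: (β ++ Z2 :: γ)) →
        ∃ l, Cat (s.YM n τ) (s.un n τ δ) l := by
      intro δ hδ
      obtain ⟨l, hl⟩ := cat_exists (R := s.Yl τ) (x := δ) fun X hX =>
        hf X (hδ X hX) τ (by omega) t2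
      exact cat_un hl fun X u h => free h
    obtain ⟨l1, c1⟩ := yl α fun X hX => by simp [hX]
    obtain ⟨l2, c2⟩ := yl β fun X hX => by simp [hX]
    obtain ⟨l3, c3⟩ := yl γ fun X hX => by simp [hX]
    refine ⟨_, ⟨_, ⟨by simpa [un_fst] using hp, ?_, ?_⟩, c1.mid b1 (c2.mid b3 c3)⟩, fun j _ => ?_⟩
    · intro y hy
      simp only [List.mem_append, List.mem_cons] at hy
      rcases hy with hy | rfl | hy | rfl | hy
      · simp [(mem_un hy).1]
      · simp
      · simp [(mem_un hy).1]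
      · simp
      · simp [(mem_un hy).1]
    · intro j y hy e he
      obtain ⟨f, f1, f2⟩ := Option.map_eq_some_iff.1 (ho j trivial)
      refine ⟨f, f1, Or.inl ?_⟩
      simp only [List.mem_append, List.mem_cons] at hy
      rcases hy with hy | rfl | hy | rfl | hy
      · simp [(mem_un hy).2] at he
      · simp only [Option.ite_none_right_eq_some, Option.some.injEq] at he
        rw [← he.2, f2]; simp [c]
      · simp [(mem_un hy).2] at he
      · simp only [Option.ite_none_right_eq_some, Option.some.injEq] at he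
        rw [← he.2, f2]; simp [c]
      · simp [(mem_un hy).2] at he
    · by_cases hj : j = i
      · obtain ⟨y, hy, ht⟩ := b2 j hj
        exact ⟨y, by simp [hy], ht⟩
      · obtain ⟨y, hy, ht⟩ := b4 j (by cases i <;> cases j <;> simp_all)
        exact ⟨y, by simp [hy], ht⟩
  have e2 : ((τ + 1 : ℕ) : ZMod s.p) = y.2 := by rw [e1, ← t2]; simp
  obtain ⟨v, h1, h2⟩ := lv_rn (fun _ => True) (τ := τ + 1) (by omega) d x y 0 hd e2 (by omega) key
    (fun _ => some 0) (fun _ _ => rfl)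
  refine ⟨τ + 1 + d, by omega, v, ?_, fun i => h2 i trivial⟩
  have : x.2 = ((τ + 1 + d : ℕ) : ZMod s.p) := by rw [hd.snd, ← e2]; simp
  rw [this]; exact h1

end Sys

theorem pump_col {A B C D E : List (Fin 4)} (h1 : OK (A ++ rep 1 B ++ C ++ rep 1 D ++ E))
    (h2 : OK (A ++ rep 2 B ++ C ++ rep 2 D ++ E)) :
    ∃ j, (B ++ D).count (lo j) + (B ++ D).count (hi j) = 0 := by
  have e : ∀ j, (B ++ D).count (lo j) = (B ++ D).count (hi j) := by
    intro j
    have a := h1.eq j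
    have b := h2.eq j
    simp only [rep, List.replicate, List.flatten_cons, List.flatten_nil, List.count_append,
      List.count_nil] at a b ⊢
    omega
  have pw := h2.1
  simp only [rep, List.replicate, List.flatten_cons, List.flatten_nil, List.append_nil,
    List.pairwise_append] at pw
  have mB : ∀ a ∈ B, ∀ b ∈ B, a = b := fun a ha b hb =>
    le_antisymm (pw.1.1.1.2.1.2.2 a ha b hb) (pw.1.1.1.2.1.2.2 b hb a ha)
  have mD : ∀ a ∈ D, ∀ b ∈ D, a = b := fun a ha b hb =>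
    le_antisymm (pw.1.2.1.2.2 a ha b hb) (pw.1.2.1.2.2 b hb a ha)
  by_contra hc
  push Not at hc
  have m0 : (0 : Fin 4) ∈ B ++ D := List.count_pos_iff.1 (by
    have a : (B ++ D).count 0 + (B ++ D).count 1 ≠ 0 := hc false
    have b : (B ++ D).count 0 = (B ++ D).count 1 := e false
    omega)
  have m1 : (1 : Fin 4) ∈ B ++ D := List.count_pos_iff.1 (by
    have a : (B ++ D).count 0 + (B ++ D).count 1 ≠ 0 := hc false
    have b : (B ++ D).count 0 = (B ++ D).count 1 := e false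
    omega)
  have m2 : (2 : Fin 4) ∈ B ++ D := List.count_pos_iff.1 (by
    have a : (B ++ D).count 2 + (B ++ D).count 3 ≠ 0 := hc true
    have b : (B ++ D).count 2 = (B ++ D).count 3 := e true
    omega)
  rw [List.mem_append] at m0 m1 m2
  rcases m0 with a | a <;> rcases m1 with b | b <;> rcases m2 with c | c
  all_goals first
    | exact absurd (mB _ a _ b) (by decide)
    | exact absurd (mB _ a _ c) (by decide)
    | exact absurd (mB _ b _ c) (by decide)
    | exact absurd (mD _ a _ b) (by decide)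
    | exact absurd (mD _ a _ c) (by decide)
    | exact absurd (mD _ b _ c) (by decide)

theorem filterMap_rep {V W : Type} (f : V → Option W) (i : ℕ) (b : List V) :
    (rep i b).filterMap f = rep i (b.filterMap f) := by
  induction i with
  | zero => simp [rep]
  | succ i ih => simp [rep_succ, ih]

theorem partII (F : Gr) (hF : IsEOL F) (κ : ℕ → Option (Fin 4))
    (hok : ∀ w ∈ eolLang F, OK (w.filterMap κ))
    (hbig : ∀ n, ∃ w ∈ eolLang F, n ≤ (w.filterMap κ).count 0 ∧ n ≤ (w.filterMap κ).count 2) :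
    ∃ F', IsEOL F' ∧ Interp F' F ∧ ∀ G : Gr, eolLang F' \ {[]} ≠ cfLang G \ {[]} := by
  have := F.fin
  obtain ⟨ρ, h1, hρ⟩ := F.rho
  let κ' : F.V → Option (Fin 4) := fun X => (F.lab X).bind κ
  have ek : ∀ (v : List F.V) (w : List ℕ), v.map F.lab = w.map some → cv κ' v = w.filterMap κ := by
    intro v w e
    have : cv κ' v = (v.map F.lab).filterMap fun o => o.bind κ := by
      rw [List.filterMap_map]; rfl
    rw [this, e, List.filterMap_map]; rfl
  obtain ⟨t0, p, hp, per⟩ := exists_period (κ := κ') (P := F.pr) (T := F.tm)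
  let s : Sys F.V := ⟨κ', F.pr, F.tm, t0, p, ρ, hp, per, h1, hρ⟩
  have hS : ∀ τ v, s.Yl τ F.S v → OK (cv s.κ v) := by
    intro τ v hv
    have e : v.map F.lab = (v.map fun X => (F.lab X).getD 0).map some := by
      rw [List.map_map]
      refine List.map_congr_left fun a ha => ?_
      have := hv.tm a ha
      simp only [s, Gr.tm] at this
      simp only [Function.comp]
      cases h : F.lab a <;> simp_all
    rw [show s.κ = κ' from rfl, ek v _ e]
    exact hok _ (mem_eolLang.2 ⟨τ, v, hv, e⟩)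
  obtain ⟨r, h2⟩ := Sys.two_of_big (s := s) F.S hS (by
    intro n
    obtain ⟨w, hw, a, b⟩ := hbig n
    obtain ⟨τ, v, hv, e⟩ := mem_eolLang.1 hw
    refine ⟨τ, v, hv, fun i => ?_⟩
    rw [cnt_eq, show s.κ = κ' from rfl, ek v w e]
    cases i <;> simp only [lo] <;> simp <;> omega)
  obtain ⟨n, hn⟩ := Sys.both h2
  have : NeZero s.p := ⟨hp.ne'⟩
  have : Finite (s.Lm n) := by unfold Sys.Lm; infer_instance
  obtain ⟨enc, he⟩ := Countable.exists_injective_nat (F.V × s.Lm n)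
  refine ⟨copy F (s.Lm n) (s.okM n) (r, fun _ => some 0) enc he, ?_, copy_interp _ _ _ _ _ _,
    fun G hG => ?_⟩
  · rintro ⟨X, lam⟩
    obtain ⟨α, hα⟩ := hF X
    exact ⟨_, Sys.pm_un (s := s) hα lam⟩
  let κ'' : ℕ → Option (Fin 4) := fun k => (Function.partialInv enc k).bind fun x => κ' x.1
  have ek2 : ∀ v : List (F.V × s.Lm n), (v.map enc).filterMap κ'' = cv κ' (v.map Prod.fst) := by
    intro v
    rw [cv, List.filterMap_map, List.filterMap_map]
    refine List.filterMap_congr fun x _ => ?_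
    simp [κ'', Function.partialInv_left he]
  have iff : ∀ w, w ≠ [] → (w ∈ cfLang G ↔ ∃ τ, ∃ v : List (F.V × s.Lm n),
      s.YM n τ (F.S, (r, fun _ => some 0)) v ∧ w = v.map enc) := by
    intro w hw
    have := Set.ext_iff.1 hG w
    simp only [Set.mem_sdiff, Set.mem_singleton_iff, hw, not_false_eq_true, and_true] at this
    rw [← this]
    exact mem_eol_copy _ _ _ _ _ _
  obtain ⟨K, hK⟩ := cf_pump G fun k => (κ'' k).isSome
  obtain ⟨τ, hτ, v, hv, ht⟩ := hn (t0 + (n + 1) * (K + 1) + 1)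
  have hne : v.map enc ≠ [] := by
    obtain ⟨y, hy, -⟩ := ht true
    simpa using List.ne_nil_of_mem hy
  obtain ⟨a, b, c, d, e, hw, hpos, hi⟩ := hK _ ((iff _ hne).2 ⟨τ, v, hv, rfl⟩) (by
    obtain ⟨-, c, -, h⟩ := Sys.lower true τ _ v hv (ht true)
    have a : K < cnt κ' true (v.map Prod.fst) := by
      change τ + c.val ≤ t0 + (n + 1) * (cnt κ' true (v.map Prod.fst) + 1) at h
      by_contra hc
      have : (n + 1) * (cnt κ' true (v.map Prod.fst) + 1) ≤ (n + 1) * (K + 1) :=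
        Nat.mul_le_mul_left _ (by omega)
      omega
    rw [cnt_eq, ← countP_pr, ← ek2] at a
    refine a.trans_le (List.countP_le_length.trans ?_)
    rw [List.length_filterMap_eq_countP])
  have hlen : 0 < b.length + d.length := by
    have : (b ++ d).countP (fun k => (κ'' k).isSome) ≤ (b ++ d).length := List.countP_le_length
    simp only [List.length_append] at this; omega
  have lrep : ∀ (i : ℕ) (b : List ℕ), (rep i b).length = i * b.length := by
    intro i b
    simpa using countP_rep (fun _ => true) i b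
  have hi' : ∀ i, ∃ τ, ∃ v : List (F.V × s.Lm n), s.YM n τ (F.S, (r, fun _ => some 0)) v ∧
      a ++ rep (i + 1) b ++ c ++ rep (i + 1) d ++ e = v.map enc := by
    intro i
    refine (iff _ fun h => ?_).1 (hi (i + 1))
    have := congrArg List.length h
    simp only [List.length_append, lrep, List.length_nil] at this
    nlinarith
  have ok : ∀ i, OK (a.filterMap κ'' ++ rep (i + 1) (b.filterMap κ'') ++ c.filterMap κ'' ++
      rep (i + 1) (d.filterMap κ'') ++ e.filterMap κ'') := by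
    intro i
    obtain ⟨τ, v, h1, h2⟩ := hi' i
    have := hS τ _ (Sys.proj h1)
    rw [show s.κ = κ' from rfl, ← ek2, ← h2] at this
    simpa only [List.filterMap_append, filterMap_rep] using this
  obtain ⟨j, hj⟩ := pump_col (ok 0) (ok 1)
  obtain ⟨τ', v', g1, g2⟩ := hi' (ρ ^ (t0 + (n + 1) * (cnt κ' j (v.map Prod.fst) + 1)))
  generalize hM : ρ ^ (t0 + (n + 1) * (cnt κ' j (v.map Prod.fst) + 1)) = M at g2
  obtain ⟨-, c', -, h⟩ := Sys.lower j τ' _ v' g1 (by
    obtain ⟨y, hy, h⟩ := ht j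
    refine ⟨y, ?_, h⟩
    have : enc y ∈ v'.map enc := by
      have h3 : enc y ∈ v.map enc := List.mem_map_of_mem hy
      rw [hw] at h3
      rw [← g2, rep_succ, rep_succ]
      simp only [List.mem_append] at h3 ⊢
      tauto
    exact (List.mem_map_of_injective he).1 this)
  have ec : cnt κ' j (v'.map Prod.fst) = cnt κ' j (v.map Prod.fst) := by
    rw [cnt_eq, cnt_eq, ← ek2, ← ek2, ← g2, hw]
    simp only [List.filterMap_append, filterMap_rep, List.count_append] at hj ⊢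
    have z : ∀ (x : Fin 4) (l : List (Fin 4)), l.count x = 0 → (rep (M + 1) l).count x = 0 := by
      intro x l h
      have := countP_rep (· == x) (M + 1) l
      simp only [List.count] at h ⊢
      rw [this, h]; rfl
    rw [z _ (b.filterMap κ'') (by omega), z _ (b.filterMap κ'') (by omega),
      z _ (d.filterMap κ'') (by omega), z _ (d.filterMap κ'') (by omega)]
    omega
  change τ' + c'.val ≤ t0 + (n + 1) * (cnt κ' j (v'.map Prod.fst) + 1) at h
  rw [ec] at h
  have l1 := Y.len hρ (Sys.proj g1)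
  have l2 : ρ ^ τ' ≤ M := hM ▸ Nat.pow_le_pow_right h1 (by omega)
  have l3 := congrArg List.length g2
  simp only [List.length_append, lrep, List.length_map] at l1 l3
  nlinarith

theorem main (G F : Gr) (hF : FamEq (famEOL F) (famCF G)) : Sub (famCF G) LIN := by
  rintro L ⟨G', hG', hi, rfl⟩
  by_contra hc
  obtain ⟨G'', a1, a2, κ, a3, a4⟩ := partI G' hG' fun h => hc ⟨_, h, rfl⟩
  obtain ⟨_, ⟨F', b1, b2, rfl⟩, e⟩ := hF.2 _ ⟨G'', a1, a2.trans hi, rfl⟩
  have iff : ∀ w, w ≠ [] → (w ∈ cfLang G'' ↔ w ∈ eolLang F') := by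
    intro w hw
    simpa [hw] using Set.ext_iff.1 e w
  obtain ⟨F'', c1, c2, c3⟩ := partII F' b1 κ (by
    intro w hw
    by_cases h : w = []
    · subst h; simp [OK]
    · exact a3 w ((iff w h).2 hw)) (by
    intro n
    obtain ⟨w, hw, h1, h2⟩ := a4 (n + 1)
    exact ⟨w, (iff w (by rintro rfl; simp at h1)).1 hw, by omega, by omega⟩)
  obtain ⟨_, ⟨G3, -, -, rfl⟩, e'⟩ := hF.1 _ ⟨F'', c1, c2.trans b2, rfl⟩
  exact c3 G3 e'

end Pool.Agent.H24.Eol
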