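import Mathlib

/-! Grammars, context-free grammar forms, EOL forms and s-interpretations. -/

namespace Pool.Agent.H24.Eol

/-- A grammar `(V, Σ, P, S)`: a finite alphabet `V`; the terminals are the symbols with
`lab X = some n` (the terminal alphabet is identified with a finite set of natural numbers,
so that languages over different alphabets can be compared), the nonterminals those with
`lab X = none`; a finite set `P` of productions `X → α`; a start symbol `S`. -/
structure Gr where
  V : Type
  fin : Finite V
  lab : V → Option ℕ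
  inj : ∀ X Y n, lab X = some n → lab Y = some n → X = Y
  P : Set (V × List V)
  Pfin : P.Finite
  S : V

/-- Context-free grammar: the start symbol and all left sides are nonterminals. -/
def IsCF (G : Gr) : Prop := G.lab G.S = none ∧ ∀ p ∈ G.P, G.lab p.1 = none

/-- Linear grammar: context-free, and every right side has at most one nonterminal. -/
def IsLin (G : Gr) : Prop :=
  IsCF G ∧ ∀ p ∈ G.P, p.2.countP (fun X => (G.lab X).isNone) ≤ 1

/-- EOL grammar: every symbol (terminals included) has a production. -/
def IsEOL (G : Gr) : Prop := ∀ X, ∃ α, (X, α) ∈ G.P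

/-- Sequential derivation step: one occurrence is rewritten. -/
def seqStep (G : Gr) (x y : List G.V) : Prop :=
  ∃ l A r α, (A, α) ∈ G.P ∧ x = l ++ A :: r ∧ y = l ++ α ++ r

/-- Parallel derivation step: every occurrence is rewritten. -/
def parStep (G : Gr) (x y : List G.V) : Prop :=
  ∃ ys, List.Forall₂ (fun X α => (X, α) ∈ G.P) x ys ∧ y = ys.flatten

/-- The terminal words derivable from the start symbol. -/
def lang (G : Gr) (step : List G.V → List G.V → Prop) : Set (List ℕ) :=
  {w | ∃ v, Relation.ReflTransGen step [G.S] v ∧ v.map G.lab = w.map some}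

/-- The language of a context-free grammar. -/
def cfLang (G : Gr) : Set (List ℕ) := lang G (seqStep G)

/-- The language of an EOL grammar. -/
def eolLang (G : Gr) : Set (List ℕ) := lang G (parStep G)

/-- `G₁` is an s-interpretation of `G₂`. -/
def Interp (G₁ G₂ : Gr) : Prop :=
  ∃ μ : G₂.V → Set G₁.V,
    (∀ X, ∀ Y ∈ μ X, (G₁.lab Y = none ↔ G₂.lab X = none)) ∧
    (∀ X X', X ≠ X' → Disjoint (μ X) (μ X')) ∧
    (∀ p ∈ G₁.P, ∃ q ∈ G₂.P, p.1 ∈ μ q.1 ∧ List.Forall₂ (fun Y X => Y ∈ μ X) p.2 q.2) ∧
    G₁.S ∈ μ G₂.S

/-- The s-grammatical family of a context-free grammar form. -/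
def famCF (G : Gr) : Set (Set (List ℕ)) :=
  {L | ∃ G', IsCF G' ∧ Interp G' G ∧ L = cfLang G'}

/-- The family of an EOL form. -/
def famEOL (F : Gr) : Set (Set (List ℕ)) :=
  {L | ∃ F', IsEOL F' ∧ Interp F' F ∧ L = eolLang F'}

/-- The linear context-free languages. -/
def LIN : Set (Set (List ℕ)) := {L | ∃ G, IsLin G ∧ L = cfLang G}

/-- Containment of families, languages being identified up to the empty word. -/
def Sub (A B : Set (Set (List ℕ))) : Prop := ∀ L ∈ A, ∃ K ∈ B, L \ {[]} = K \ {[]}

/-- Equality of families, languages being identified up to the empty word. -/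
def FamEq (A B : Set (Set (List ℕ))) : Prop := Sub A B ∧ Sub B A

end Pool.Agent.H24.Eol
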