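import Pool.Agent.H24.EvilDefs

namespace Pool.Agent.H24.Evil

abbrev V := ℕ × ℕ × ℕ × ℕ × ℕ

def Mv (p : Bool) (v w : V) : Prop :=
  ∃ s i j k m, (v = (s + 1, i, j, k, m) ∧ w = (s, i, j, k, m)) ∨
    (v = (s, i + 1, j, k, m) ∧ (w = (s, i, j, k, m) ∨ p = false ∧ w = (s + 1, i, j, k, m))) ∨
    (v = (s, i, j + 1, k, m) ∧ (w = (s, i, j, k, m) ∨ p = true ∧ w = (s + 1, i, j, k, m))) ∨
    (v = (s, i, j, k + 1, m) ∧ (w = (s, i, j, k, m) ∨ w = (s + 1, i, j, k, m))) ∨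
    (v = (s, i, j, k, m + 1) ∧ (w = (s, i, j, k, m) ∨ p = true ∧ w = (s, i, j, k + 1, m) ∨
      p = false ∧ (w = (s, i + 1, j, k, m) ∨ w = (s, i, j + 1, k, m))))

theorem ex_mv (p : Bool) (s i j k m : ℕ) (Q : V → Prop) : (∃ w, Mv p (s, i, j, k, m) w ∧ Q w) ↔
    (0 < s ∧ Q (s - 1, i, j, k, m)) ∨
    (0 < i ∧ (Q (s, i - 1, j, k, m) ∨ p = false ∧ Q (s + 1, i - 1, j, k, m))) ∨
    (0 < j ∧ (Q (s, i, j - 1, k, m) ∨ p = true ∧ Q (s + 1, i, j - 1, k, m))) ∨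
    (0 < k ∧ (Q (s, i, j, k - 1, m) ∨ Q (s + 1, i, j, k - 1, m))) ∨
    (0 < m ∧ (Q (s, i, j, k, m - 1) ∨ p = true ∧ Q (s, i, j, k + 1, m - 1) ∨
      p = false ∧ (Q (s, i + 1, j, k, m - 1) ∨ Q (s, i, j + 1, k, m - 1)))) := by
  constructor
  · rintro ⟨w, ⟨s, i, j, k, m, h⟩, hq⟩
    simp only [Prod.mk.injEq] at h
    rcases h with ⟨⟨rfl, rfl, rfl, rfl, rfl⟩, rfl⟩ | ⟨⟨rfl, rfl, rfl, rfl, rfl⟩, rfl | ⟨h, rfl⟩⟩ |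
      ⟨⟨rfl, rfl, rfl, rfl, rfl⟩, rfl | ⟨h, rfl⟩⟩ | ⟨⟨rfl, rfl, rfl, rfl, rfl⟩, rfl | rfl⟩ |
      ⟨⟨rfl, rfl, rfl, rfl, rfl⟩, rfl | ⟨h, rfl⟩ | ⟨h, rfl | rfl⟩⟩ <;> simp [*]
  · rintro (⟨h, q⟩ | ⟨h, q⟩ | ⟨h, q⟩ | ⟨h, q⟩ | ⟨h, q⟩) <;>
      obtain ⟨n, rfl⟩ := Nat.exists_eq_add_one.2 h <;> simp only [Nat.add_sub_cancel] at q
    · exact ⟨_, ⟨n, i, j, k, m, by simp⟩, q⟩
    · rcases q with q | ⟨h, q⟩ <;> exact ⟨_, ⟨s, n, j, k, m, by simp [*]⟩, q⟩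
    · rcases q with q | ⟨h, q⟩ <;> exact ⟨_, ⟨s, i, n, k, m, by simp [*]⟩, q⟩
    · rcases q with q | q <;> exact ⟨_, ⟨s, i, j, n, m, by simp [*]⟩, q⟩
    · rcases q with q | ⟨h, q⟩ | ⟨h, q | q⟩ <;> exact ⟨_, ⟨s, i, j, k, n, by simp [*]⟩, q⟩

def F0 (p : Bool) (s i j k m : ℕ) : Prop :=
  if p then i + m + 1 ≤ j ∨ (i + m = j ∧ (s % 2 = 1 ∨ k % 2 = 1 ∨ 1 ≤ m)) ∨
    (i + m = j + 1 ∧ s % 2 = 0 ∧ (k % 2 = 0 ∨ 1 ≤ m))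
  else j + 1 ≤ i + m ∨ (i + m = j ∧ (s % 2 = 1 ∨ (m = 0 ∧ k % 2 = 1) ∨ (m = 1 ∧ k % 2 = 0))) ∨
    (i + m + 1 = j ∧ s % 2 = 0 ∧ m = 0 ∧ k % 2 = 0)

def F (mis p : Bool) (v : V) : Prop :=
  F0 p (v.1 + if mis = true ∧ v.2.2.2.1 = 0 ∧ v.2.2.2.2 ≤ 1 then 1 else 0)
    v.2.1 v.2.2.1 v.2.2.2.1 v.2.2.2.2

theorem F_of (mis p : Bool) (v w : V) (h : Mv p v w) (h' : ¬ F mis (!p) w) : F mis p v := by
  obtain ⟨s, i, j, k, m, h⟩ := h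
  rcases h with ⟨rfl, rfl⟩ | ⟨rfl, rfl | ⟨h, rfl⟩⟩ | ⟨rfl, rfl | ⟨h, rfl⟩⟩ | ⟨rfl, rfl | rfl⟩ |
      ⟨rfl, rfl | ⟨h, rfl⟩ | ⟨h, rfl | rfl⟩⟩ <;> cases p <;> cases mis <;>
    simp only [F, F0, Bool.not_true, Bool.not_false, if_true, Bool.false_eq_true, if_false,
      Bool.true_eq_false, true_and, false_and] at * <;> (try split_ifs at *) <;>
    first | omega | simp_all

set_option maxHeartbeats 4000000 in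
theorem F_to (mis p : Bool) (s i j k m : ℕ) (h : F mis p (s, i, j, k, m))
    (h0 : ¬ (s = 0 ∧ i = 0 ∧ j = 0 ∧ k = 0 ∧ m = 0 ∧ mis = true)) :
    ∃ w, Mv p (s, i, j, k, m) w ∧ ¬ F mis (!p) w := by
  rw [ex_mv]
  by_contra hc
  simp only [not_or, not_and, not_not] at hc
  obtain ⟨c1, c2, c3, c4, c5⟩ := hc
  rcases m with _ | _ | _ | m <;> rcases k with _ | _ | k <;> cases mis <;> cases p <;>
    simp [F, F0] at h h0 c1 c2 c3 c4 c5 <;>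
    rcases Nat.eq_zero_or_pos i with rfl | hi <;> rcases Nat.eq_zero_or_pos j with rfl | hj <;>
    first | (clear c1 c4 c5; omega) | (clear c1 c4; omega) | (clear c2 c3 c5; omega)

theorem F_rec (mis p : Bool) (v : V) :
    F mis p v ↔ (v = 0 ∧ mis = true) ∨ ∃ w, Mv p v w ∧ ¬ F mis (!p) w := by
  constructor
  · intro h
    obtain ⟨s, i, j, k, m⟩ := v
    by_cases h0 : s = 0 ∧ i = 0 ∧ j = 0 ∧ k = 0 ∧ m = 0 ∧ mis = true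
    · left; simpa [Prod.ext_iff, and_assoc] using h0
    · exact Or.inr (F_to mis p s i j k m h h0)
  · rintro (⟨rfl, rfl⟩ | ⟨w, a, b⟩)
    · cases p <;> simp [F, F0]
    · exact F_of mis p v w a b

theorem mv_addl {p : Bool} {v x : V} (h : Mv p v x) (v' : V) : Mv p (v + v') (x + v') := by
  obtain ⟨s', i', j', k', m'⟩ := v'
  obtain ⟨s, i, j, k, m, h⟩ := h
  refine ⟨s + s', i + i', j + j', k + k', m + m', ?_⟩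
  rcases h with ⟨rfl, rfl⟩ | ⟨rfl, rfl | ⟨h, rfl⟩⟩ | ⟨rfl, rfl | ⟨h, rfl⟩⟩ | ⟨rfl, rfl | rfl⟩ |
      ⟨rfl, rfl | ⟨h, rfl⟩ | ⟨h, rfl | rfl⟩⟩ <;> simp [*, Nat.add_right_comm]

theorem unit_split {v v' u e : V} (he : e.1 + e.2.1 + e.2.2.1 + e.2.2.2.1 + e.2.2.2.2 = 1)
    (h : v + v' = e + u) : (∃ x, v = e + x ∧ u = x + v') ∨ ∃ y, v' = e + y ∧ u = v + y := by
  obtain ⟨s, i, j, k, m⟩ := v
  obtain ⟨s', i', j', k', m'⟩ := v'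
  obtain ⟨a, b, c, d, f⟩ := u
  obtain ⟨a', b', c', d', f'⟩ := e
  simp only [Prod.mk_add_mk, Prod.mk.injEq] at h he
  by_cases hh : a' ≤ s ∧ b' ≤ i ∧ c' ≤ j ∧ d' ≤ k ∧ f' ≤ m
  · refine Or.inl ⟨(s - a', i - b', j - c', k - d', m - f'), ?_⟩
    simp only [Prod.mk_add_mk, Prod.mk.injEq]; omega
  · refine Or.inr ⟨(s' - a', i' - b', j' - c', k' - d', m' - f'), ?_⟩
    simp only [Prod.mk_add_mk, Prod.mk.injEq]; omega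

theorem mv_rule {p : Bool} {v w : V} (h : Mv p v w) : ∃ e a u : V,
    e.1 + e.2.1 + e.2.2.1 + e.2.2.2.1 + e.2.2.2.2 = 1 ∧ Mv p e a ∧ v = e + u ∧ w = a + u := by
  obtain ⟨s, i, j, k, m, h⟩ := h
  rcases h with ⟨rfl, rfl⟩ | ⟨rfl, rfl | ⟨h, rfl⟩⟩ | ⟨rfl, rfl | ⟨h, rfl⟩⟩ | ⟨rfl, rfl | rfl⟩ |
      ⟨rfl, rfl | ⟨h, rfl⟩ | ⟨h, rfl | rfl⟩⟩
  · exact ⟨(1, 0, 0, 0, 0), (0, 0, 0, 0, 0), (s, i, j, k, m), rfl, ⟨0, 0, 0, 0, 0, by simp⟩,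
      by simp [add_comm]⟩
  · exact ⟨(0, 1, 0, 0, 0), (0, 0, 0, 0, 0), (s, i, j, k, m), rfl, ⟨0, 0, 0, 0, 0, by simp⟩,
      by simp [add_comm]⟩
  · exact ⟨(0, 1, 0, 0, 0), (1, 0, 0, 0, 0), (s, i, j, k, m), rfl, ⟨0, 0, 0, 0, 0, by simp [h]⟩,
      by simp [add_comm]⟩
  · exact ⟨(0, 0, 1, 0, 0), (0, 0, 0, 0, 0), (s, i, j, k, m), rfl, ⟨0, 0, 0, 0, 0, by simp⟩,
      by simp [add_comm]⟩
  · exact ⟨(0, 0, 1, 0, 0), (1, 0, 0, 0, 0), (s, i, j, k, m), rfl, ⟨0, 0, 0, 0, 0, by simp [h]⟩,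
      by simp [add_comm]⟩
  · exact ⟨(0, 0, 0, 1, 0), (0, 0, 0, 0, 0), (s, i, j, k, m), rfl, ⟨0, 0, 0, 0, 0, by simp⟩,
      by simp [add_comm]⟩
  · exact ⟨(0, 0, 0, 1, 0), (1, 0, 0, 0, 0), (s, i, j, k, m), rfl, ⟨0, 0, 0, 0, 0, by simp⟩,
      by simp [add_comm]⟩
  · exact ⟨(0, 0, 0, 0, 1), (0, 0, 0, 0, 0), (s, i, j, k, m), rfl, ⟨0, 0, 0, 0, 0, by simp⟩,
      by simp [add_comm]⟩
  · exact ⟨(0, 0, 0, 0, 1), (0, 0, 0, 1, 0), (s, i, j, k, m), rfl, ⟨0, 0, 0, 0, 0, by simp [h]⟩,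
      by simp [add_comm]⟩
  · exact ⟨(0, 0, 0, 0, 1), (0, 1, 0, 0, 0), (s, i, j, k, m), rfl, ⟨0, 0, 0, 0, 0, by simp [h]⟩,
      by simp [add_comm]⟩
  · exact ⟨(0, 0, 0, 0, 1), (0, 0, 1, 0, 0), (s, i, j, k, m), rfl, ⟨0, 0, 0, 0, 0, by simp [h]⟩,
      by simp [add_comm]⟩

theorem mv_add {p : Bool} {v v' w : V} : Mv p (v + v') w ↔
    (∃ x, Mv p v x ∧ w = x + v') ∨ ∃ y, Mv p v' y ∧ w = v + y := by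
  constructor
  · intro h
    obtain ⟨e, a, u, h1, h2, h3, rfl⟩ := mv_rule h
    rcases unit_split h1 h3 with ⟨x, rfl, rfl⟩ | ⟨y, rfl, rfl⟩
    · exact Or.inl ⟨_, mv_addl h2 x, by abel⟩
    · exact Or.inr ⟨_, mv_addl h2 y, by abel⟩
  · rintro (⟨x, h, rfl⟩ | ⟨y, h, rfl⟩)
    · exact mv_addl h _
    · rw [add_comm v, add_comm v]; exact mv_addl h _

theorem mv_none {p : Bool} {v : V} : (∀ w, ¬ Mv p v w) ↔ v = 0 := by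
  obtain ⟨s, i, j, k, m⟩ := v
  have := ex_mv p s i j k m (fun _ => True)
  simp only [and_true] at this
  rw [← not_exists, this]
  simp [Prod.ext_iff]

end Pool.Agent.H24.Evil
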