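import Pool.Agent.H24.Evil1

namespace Pool.Agent.H24.Evil

open Gm Classical

def Rep (G : Gm) (v : V) : Prop :=
  ∀ p, (∀ x, x ∈ G.opts p → ∃ w, Mv p v w ∧ Rep x w) ∧
    ∀ w, Mv p v w → ∃ x, ∃ _ : x ∈ G.opts p, Rep x w
termination_by sizeOf G
decreasing_by all_goals exact opt_lt ‹_›

theorem opts_mk (L R : List Gm) : (mk L R).opts true = L ∧ (mk L R).opts false = R := by
  unfold mk
  induction L with
  | nil => induction R with
    | nil => simp [opts]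
    | cons a R ih => simpa [opts] using ih
  | cons a L ih => simpa [opts] using ih

theorem rep_iff {G : Gm} {v : V} : Rep G v ↔ ∀ p, (∀ x ∈ G.opts p, ∃ w, Mv p v w ∧ Rep x w) ∧
    ∀ w, Mv p v w → ∃ x ∈ G.opts p, Rep x w := by
  rw [Rep]; simp only [exists_prop]

theorem ident_iff {G H : Gm} : Ident G H ↔ ∀ p, (∀ x ∈ G.opts p, ∃ y ∈ H.opts p, Ident x y) ∧
    ∀ y ∈ H.opts p, ∃ x ∈ G.opts p, Ident x y := by
  rw [Ident]; simp only [exists_prop]

theorem wins_iff {mis p : Bool} {G : Gm} : wins mis G p ↔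
    (G.opts p = [] ∧ mis = true) ∨ ∃ x ∈ G.opts p, ¬ wins mis x (!p) := by
  rw [wins]; simp only [exists_prop]

theorem mem_add {G H x : Gm} {p : Bool} : x ∈ (add G H).opts p ↔
    (∃ y ∈ G.opts p, add y H = x) ∨ ∃ y ∈ H.opts p, add G y = x := by
  cases p <;> rw [add] <;> simp [opts_mk]

theorem Rep.add : ∀ {G H : Gm} {v w : V}, Rep G v → Rep H w → Rep (add G H) (v + w)
  | G, H, v, w, a, b => by
    have a' := rep_iff.1 a
    have b' := rep_iff.1 b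
    refine rep_iff.2 fun p => ⟨fun x hx => ?_, fun u hu => ?_⟩
    · rcases mem_add.1 hx with ⟨y, hy, rfl⟩ | ⟨y, hy, rfl⟩
      · obtain ⟨u, h1, h2⟩ := (a' p).1 y hy
        have := opt_lt hy
        exact ⟨_, mv_add.2 (Or.inl ⟨u, h1, rfl⟩), Rep.add h2 b⟩
      · obtain ⟨u, h1, h2⟩ := (b' p).1 y hy
        have := opt_lt hy
        exact ⟨_, mv_add.2 (Or.inr ⟨u, h1, rfl⟩), Rep.add a h2⟩
    · rcases mv_add.1 hu with ⟨y, hy, rfl⟩ | ⟨y, hy, rfl⟩
      · obtain ⟨x, h1, h2⟩ := (a' p).2 y hy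
        have := opt_lt h1
        exact ⟨_, mem_add.2 (Or.inl ⟨x, h1, rfl⟩), Rep.add h2 b⟩
      · obtain ⟨x, h1, h2⟩ := (b' p).2 y hy
        have := opt_lt h1
        exact ⟨_, mem_add.2 (Or.inr ⟨x, h1, rfl⟩), Rep.add a h2⟩
termination_by G H => sizeOf G + sizeOf H

theorem Rep.ident : ∀ {G H : Gm} {v : V}, Ident G H → Rep G v → Rep H v
  | G, H, v, a, b => by
    have a' := ident_iff.1 a
    have b' := rep_iff.1 b
    refine rep_iff.2 fun p => ⟨fun y hy => ?_, fun u hu => ?_⟩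
    · obtain ⟨x, h1, h2⟩ := (a' p).2 y hy
      obtain ⟨w, h3, h4⟩ := (b' p).1 x h1
      have := opt_lt h1
      exact ⟨w, h3, Rep.ident h2 h4⟩
    · obtain ⟨x, h1, h2⟩ := (b' p).2 u hu
      obtain ⟨y, h3, h4⟩ := (a' p).1 x h1
      have := opt_lt h1
      exact ⟨y, h3, Rep.ident h4 h2⟩
termination_by G => sizeOf G

theorem Rep.nil {G : Gm} {v : V} (h : Rep G v) (p : Bool) : G.opts p = [] ↔ v = 0 := by
  rw [← mv_none (p := p), List.eq_nil_iff_forall_not_mem]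
  have := rep_iff.1 h p
  exact ⟨fun a w hw => by obtain ⟨x, b, -⟩ := this.2 w hw; exact a x b,
    fun a x hx => by obtain ⟨w, b, -⟩ := this.1 x hx; exact a w b⟩

theorem Rep.wins : ∀ {G : Gm} {v : V} (mis p : Bool), Rep G v → (wins mis G p ↔ F mis p v)
  | G, v, mis, p, h => by
    have h' := rep_iff.1 h p
    rw [wins_iff, F_rec, h.nil]
    refine or_congr Iff.rfl ⟨?_, ?_⟩
    · rintro ⟨x, h1, h2⟩
      obtain ⟨w, h3, h4⟩ := h'.1 x h1
      have := opt_lt h1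
      exact ⟨w, h3, fun a => h2 ((Rep.wins mis _ h4).2 a)⟩
    · rintro ⟨w, h1, h2⟩
      obtain ⟨x, h3, h4⟩ := h'.2 w h1
      have := opt_lt h3
      exact ⟨x, h3, fun a => h2 ((Rep.wins mis _ h4).1 a)⟩
termination_by G => sizeOf G

theorem Rep.out {G : Gm} {v : V} (h : Rep G v) (mis : Bool) :
    out mis G = (F mis true v, F mis false v) := by
  simp [Gm.out, h.wins]

def AA : Set Gm := {G | ∃ v, Rep G v}

theorem AA_sub {G x : Gm} (h : G ∈ AA) (hx : Sub G x) : x ∈ AA := by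
  induction hx with
  | refl => exact h
  | tail _ h2 ih =>
    obtain ⟨v, hv⟩ := ih
    obtain ⟨p, hp⟩ := h2
    obtain ⟨w, -, a⟩ := (rep_iff.1 hv p).1 _ hp
    exact ⟨w, a⟩

theorem mk_rep {L R : List Gm} {s i j k m : ℕ} (LV RV : List V)
    (h1 : List.Forall₂ Rep L LV) (h2 : List.Forall₂ Rep R RV)
    (h3 : ∀ w, Mv true (s, i, j, k, m) w ↔ w ∈ LV) (h4 : ∀ w, Mv false (s, i, j, k, m) w ↔ w ∈ RV) :
    Rep (mk L R) (s, i, j, k, m) := by
  have k1 : ∀ {L : List Gm} {LV : List V}, List.Forall₂ Rep L LV →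
      (∀ x ∈ L, ∃ w ∈ LV, Rep x w) ∧ ∀ w ∈ LV, ∃ x ∈ L, Rep x w := by
    intro L LV h
    induction h with
    | nil => simp
    | cons a _ ih =>
      simp only [List.mem_cons, forall_eq_or_imp, exists_eq_or_imp]
      exact ⟨⟨Or.inl a, fun x hx => Or.inr (ih.1 x hx)⟩, Or.inl a, fun x hx => Or.inr (ih.2 x hx)⟩
  refine rep_iff.2 fun p => ?_
  cases p
  · simpa [opts_mk, h4] using k1 h2
  · simpa [opts_mk, h3] using k1 h1

theorem mv_eq (p : Bool) (s i j k m : ℕ) (w : V) :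
    Mv p (s, i, j, k, m) w ↔ ∃ x, Mv p (s, i, j, k, m) x ∧ w = x := by simp

def ga : Gm := mk [zero] [zero, star]
def gb : Gm := mk [zero, star] [zero]
def g2 : Gm := mk [zero, star] [zero, star]
def gg : Gm := mk [zero, g2] [zero, ga, gb]

theorem r0 : Rep zero (0, 0, 0, 0, 0) :=
  mk_rep [] [] .nil .nil (fun w => by rw [mv_eq, ex_mv]; simp) (fun w => by rw [mv_eq, ex_mv]; simp)

theorem r1 : Rep star (1, 0, 0, 0, 0) :=
  mk_rep _ _ (.cons r0 .nil) (.cons r0 .nil) (fun w => by rw [mv_eq, ex_mv]; simp)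
    (fun w => by rw [mv_eq, ex_mv]; simp)

theorem ra : Rep ga (0, 1, 0, 0, 0) :=
  mk_rep _ _ (.cons r0 .nil) (.cons r0 (.cons r1 .nil)) (fun w => by rw [mv_eq, ex_mv]; simp)
    (fun w => by rw [mv_eq, ex_mv]; simp)

theorem rb : Rep gb (0, 0, 1, 0, 0) :=
  mk_rep _ _ (.cons r0 (.cons r1 .nil)) (.cons r0 .nil) (fun w => by rw [mv_eq, ex_mv]; simp)
    (fun w => by rw [mv_eq, ex_mv]; simp)

theorem r2 : Rep g2 (0, 0, 0, 1, 0) :=
  mk_rep _ _ (.cons r0 (.cons r1 .nil)) (.cons r0 (.cons r1 .nil))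
    (fun w => by rw [mv_eq, ex_mv]; simp) (fun w => by rw [mv_eq, ex_mv]; simp)

theorem rg : Rep gg (0, 0, 0, 0, 1) :=
  mk_rep _ _ (.cons r0 (.cons r2 .nil)) (.cons r0 (.cons ra (.cons rb .nil)))
    (fun w => by rw [mv_eq, ex_mv]; simp) (fun w => by rw [mv_eq, ex_mv]; simp)

def KK : Set Gm := {G | ∃ v, Rep G v ∧ ¬ (v.2.2.2.1 = 0 ∧ v.2.2.2.2 ≤ 1)}

theorem KK_kernel : EvilKernel AA KK := by
  refine ⟨fun G ⟨v, h, _⟩ => ⟨v, h⟩, ?_⟩
  rintro G ⟨v, hv⟩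
  unfold twin
  split_ifs with h
  · obtain ⟨w, a, b⟩ := h
    simp [a.out, F, b]
  · have b : v.2.2.2.1 = 0 ∧ v.2.2.2.2 ≤ 1 := by
      by_contra b; exact h ⟨v, hv, b⟩
    obtain ⟨s, i, j, k, m⟩ := v
    have e : ∀ p, F0 p (s + 1 + 1) i j k m ↔ F0 p s i j k m := by
      intro p; simp only [F0, show (s + 1 + 1) % 2 = s % 2 by omega]
    simp only at b
    simp [hv.out, (hv.add r1).out, F, b] at e ⊢
    simp [b, e]

theorem not_normal {K : Set Gm} (h : EvilKernel AA K) : ¬ EvillyNormal AA K := by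
  intro hn
  have b : gb ∉ K := fun a => by
    have := (h.2 gb ⟨_, rb⟩).1
    simp [twin, a, rb.out, F, F0] at this
  have g : gg ∉ K := fun a => by
    have := (h.2 gg ⟨_, rg⟩).1
    simp [twin, a, rg.out, F, F0] at this
  have c := (hn gb ⟨_, rb⟩ gg ⟨_, rg⟩).2 ⟨b, g⟩
  have d := (hn _ ⟨_, rb.add rg⟩ gg ⟨_, rg⟩).2 ⟨c, g⟩
  have r := (rb.add rg).add rg
  have := (h.2 _ ⟨_, r⟩).1
  simp [twin, d, r.out, (r.add r1).out, F, F0] at this

end Pool.Agent.H24.Evil
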