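import Mathlib

/-! Short partizan games as finite game trees, outcomes, evil kernels. -/

namespace Pool.Agent.H24.Evil

/-- A short game: `zero = {|}`; `addL x G` is `G` with the extra Left option `x`; `addR x G` is
`G` with the extra Right option `x`. -/
inductive Gm : Type
  | zero : Gm
  | addL (x G : Gm) : Gm
  | addR (x G : Gm) : Gm

namespace Gm

/-- Options of Left (`true`) and of Right (`false`). -/
def opts : Gm → Bool → List Gm
  | zero, _ => []
  | addL x G, true => x :: opts G true
  | addL _ G, false => opts G false
  | addR _ G, true => opts G true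
  | addR x G, false => x :: opts G false

/-- The game `{L | R}`. -/
def mk (L R : List Gm) : Gm := L.foldr addL (R.foldr addR zero)

theorem opt_lt {G x : Gm} {p : Bool} (h : x ∈ G.opts p) : sizeOf x < sizeOf G := by
  induction G with
  | zero => simp [opts] at h
  | addL y G _ ih =>
    cases p <;> simp only [opts, List.mem_cons] at h
    · have := ih h; simp; omega
    · rcases h with rfl | h
      · simp; omega
      · have := ih h; simp; omega
  | addR y G _ ih =>
    cases p <;> simp only [opts, List.mem_cons] at h
    · rcases h with rfl | h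
      · simp; omega
      · have := ih h; simp; omega
    · have := ih h; simp; omega

/-- Disjunctive sum. -/
def add (G H : Gm) : Gm :=
  mk ((G.opts true).attach.map (fun x => add x.1 H) ++ (H.opts true).attach.map (fun y => add G y.1))
    ((G.opts false).attach.map (fun x => add x.1 H) ++ (H.opts false).attach.map (fun y => add G y.1))
termination_by sizeOf G + sizeOf H
decreasing_by all_goals (first | (have := opt_lt x.2; omega) | (have := opt_lt y.2; omega))

def star : Gm := mk [zero] [zero]

/-- `wins mis G p`: player `p` (Left = `true`), moving first in `G`, wins; a player unable to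
move wins iff `mis = true` (misere play), loses iff `mis = false` (normal play). -/
def wins (mis : Bool) (G : Gm) (p : Bool) : Prop :=
  (G.opts p = [] ∧ mis = true) ∨ ∃ x, ∃ _ : x ∈ G.opts p, ¬ wins mis x (!p)
termination_by sizeOf G
decreasing_by exact opt_lt ‹_›

/-- Outcome class: (Left wins moving first, Right wins moving first). -/
def out (mis : Bool) (G : Gm) : Prop × Prop := (wins mis G true, wins mis G false)

/-- Two trees are the same game (equal option sets, recursively). -/
def Ident (G H : Gm) : Prop :=
  ∀ p, (∀ x, x ∈ G.opts p → ∃ y ∈ H.opts p, Ident x y) ∧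
    ∀ y ∈ H.opts p, ∃ x, ∃ _ : x ∈ G.opts p, Ident x y
termination_by sizeOf G
decreasing_by all_goals exact opt_lt ‹_›

end Gm

open Gm Classical

/-- `x` is a subposition of `G`. -/
def Sub (G x : Gm) : Prop := Relation.ReflTransGen (fun a b => ∃ p, b ∈ a.opts p) G x

def Dicotic (G : Gm) : Prop := ∀ x, Sub G x → (x.opts true = [] ↔ x.opts false = [])

def Closed (A : Set Gm) : Prop :=
  (∀ G ∈ A, ∀ H ∈ A, add G H ∈ A) ∧ ∀ G ∈ A, ∀ x, Sub G x → x ∈ A

/-- The set does not distinguish trees representing the same game. -/
def Sat (A : Set Gm) : Prop := ∀ G H, Ident G H → G ∈ A → H ∈ A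

noncomputable def twin (K : Set Gm) (G : Gm) : Gm := if G ∈ K then G else add G star

def EvilKernel (A K : Set Gm) : Prop :=
  K ⊆ A ∧ ∀ G ∈ A, out false G = out true (twin K G) ∧ out true G = out false (twin K G)

def EvillyNormal (A K : Set Gm) : Prop := ∀ a ∈ A, ∀ b ∈ A, (add a b ∉ K ↔ a ∉ K ∧ b ∉ K)

end Pool.Agent.H24.Evil
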