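import Pool.Agent.H24.FlgDefs

namespace Pool.Agent.H24.Flg1
open Finset Polynomial Pool.Agent.H24.FlgDefs

lemma alg (K : Type*) [Field K] (m : ℕ) : ∃ a0 : ℕ, ∀ a, a0 ≤ a → ∃ f : K[X], f.Monic ∧
    f.natDegree = a ∧ ∀ i j : Fin m, i ≠ j →
      IsUnit ((AdjoinRoot.root f) ^ (i : ℕ) - (AdjoinRoot.root f) ^ (j : ℕ)) := by
  classical
  set g : K[X] := ∏ p ∈ (univ : Finset (Fin m × Fin m)).filter (fun p => p.2 < p.1),
    (X ^ (p.1 : ℕ) - X ^ (p.2 : ℕ)) with hg
  have hm : g.Monic := by
    refine monic_prod_of_monic _ _ fun p hp => ?_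
    have : (p.2 : ℕ) < p.1 := (mem_filter.1 hp).2
    refine (monic_X_pow _).sub_of_left ?_
    rw [degree_X_pow, degree_X_pow]
    exact_mod_cast this
  refine ⟨g.natDegree + 1, fun a ha => ?_⟩
  have hm2 : (X ^ (a - g.natDegree) * g).Monic := (monic_X_pow _).mul hm
  have hd : (X ^ (a - g.natDegree) * g : K[X]).natDegree = a := by
    rw [(monic_X_pow _).natDegree_mul hm, natDegree_X_pow]; omega
  have hlt : (1 : K[X]).degree < (X ^ (a - g.natDegree) * g : K[X]).degree := by
    rw [degree_one, degree_eq_natDegree hm2.ne_zero, hd]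
    exact_mod_cast (by omega : 0 < a)
  refine ⟨X ^ (a - g.natDegree) * g + 1, hm2.add_of_left hlt, ?_, ?_⟩
  · rw [natDegree_add_eq_left_of_degree_lt hlt, hd]
  · set f : K[X] := X ^ (a - g.natDegree) * g + 1 with hf
    have h0 : AdjoinRoot.mk f f = 0 := AdjoinRoot.mk_self
    have hu : IsUnit (AdjoinRoot.mk f g) := by
      have : AdjoinRoot.mk f g * (-(AdjoinRoot.mk f (X ^ (a - g.natDegree)))) = 1 := by
        have h1 : AdjoinRoot.mk f (X ^ (a - g.natDegree) * g + 1) = 0 := h0
        rw [map_add, map_mul, map_one] at h1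
        linear_combination (-1 : AdjoinRoot f) * h1
      exact IsUnit.of_mul_eq_one _ this
    have key : ∀ i j : Fin m, j < i →
        IsUnit ((AdjoinRoot.root f) ^ (i : ℕ) - (AdjoinRoot.root f) ^ (j : ℕ)) := by
      intro i j hij
      have hdvd : (X ^ (i : ℕ) - X ^ (j : ℕ) : K[X]) ∣ g :=
        dvd_prod_of_mem (fun p : Fin m × Fin m => (X ^ (p.1 : ℕ) - X ^ (p.2 : ℕ) : K[X]))
          (a := (i, j)) (mem_filter.2 ⟨mem_univ _, hij⟩)
      have := isUnit_of_dvd_unit (map_dvd (AdjoinRoot.mk f) hdvd) hu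
      simpa using this
    intro i j hij
    rcases lt_or_gt_of_ne hij with h | h
    · have := (key j i h).neg
      rwa [neg_sub] at this
    · exact key i j h

lemma core {K L : Type*} [Field K] [CommRing L] {m a b : ℕ} (t : Fin m → L)
    (ht : ∀ i j, i ≠ j → IsUnit (t i - t j)) (ι : (Fin b → K) → L) (hι0 : ι 0 = 0)
    (hι : ∀ w, ι w = 0 → w = 0) (β : L → (Fin a → K)) (hβ : β 0 = 0)
    (S : Finset (L × (Fin b → K) × L))
    (h1 : ∀ j (k : Fin a), ∃ v ∈ S, v.2.1 = 0 ∧ v.2.2 - t j * v.1 - t j ^ 2 * ι v.2.1 = 0 ∧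
      β v.1 k ≠ 0 ∧ ∀ k', k < k' → β v.1 k' = 0)
    (h2 : ∀ j (s : Fin b), ∃ v ∈ S, v.2.2 - t j * v.1 - t j ^ 2 * ι v.2.1 = 0 ∧
      v.2.1 s ≠ 0 ∧ ∀ s', s < s' → v.2.1 s' = 0) :
    m * a + b * ((m + 1) / 2) ≤ #S := by
  classical
  choose u hu1 hu2 hu3 hu4 hu5 using h1
  choose z hz1 hz2 hz3 hz4 using h2
  set C : Fin b → Finset (L × (Fin b → K) × L) := fun s =>
    S.filter fun v => v.2.1 s ≠ 0 ∧ ∀ s', s < s' → v.2.1 s' = 0 with hC
  have a1 : m * a ≤ #(S.filter fun v => v.2.1 = 0) := by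
    have : #(univ : Finset (Fin m × Fin a)) ≤ #(S.filter fun v => v.2.1 = 0) := by
      refine card_le_card_of_injOn (fun p => u p.1 p.2) ?_ ?_
      · intro p _
        exact mem_coe.2 (mem_filter.2 ⟨hu1 _ _, hu2 _ _⟩)
      · rintro ⟨i, k⟩ _ ⟨j, l⟩ _ h
        simp only at h
        have hkl : k = l := by
          rcases lt_trichotomy k l with c | c | c
          · exact absurd (h ▸ hu5 i k l c) (hu4 j l)
          · exact c
          · exact absurd (h ▸ hu5 j l k c) (hu4 i k)
        subst hkl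
        have hij : i = j := by
          by_contra hij
          have e1 := hu3 i k
          have e2 := hu3 j k
          rw [hu2 i k, hι0] at e1
          rw [hu2 j k, hι0, ← h] at e2
          have e3 : (t i - t j) * (u i k).1 = 0 := by linear_combination e2 - e1
          have e4 := (ht i j hij).mul_right_eq_zero.1 e3
          exact hu4 i k (by rw [e4, hβ]; rfl)
        rw [hij]
    simpa using this
  have a2 : ∀ s, (m + 1) / 2 ≤ #(C s) := by
    intro s
    have : #(univ : Finset (Fin m)) ≤ 2 * #(C s) := by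
      refine card_le_mul_card_image_of_maps_to (f := fun j => z j s) (fun j _ => ?_) 2 ?_
      · exact mem_filter.2 ⟨hz1 _ _, hz3 _ _, hz4 _ _⟩
      · intro v _
        by_contra hc
        obtain ⟨i, hi, j, hj, k, hk, hij, hik, hjk⟩ := two_lt_card.1 (not_le.1 hc)
        have fi := (mem_filter.1 hi).2
        have fj := (mem_filter.1 hj).2
        have fk := (mem_filter.1 hk).2
        have ei := hz2 i s
        have ej := hz2 j s
        have ek := hz2 k s
        rw [fi] at ei
        rw [fj] at ej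
        rw [fk] at ek
        have g1 : (t i - t j) * (v.1 + (t i + t j) * ι v.2.1) = 0 := by
          linear_combination ej - ei
        have g2 : (t i - t k) * (v.1 + (t i + t k) * ι v.2.1) = 0 := by
          linear_combination ek - ei
        have g3 := (ht i j hij).mul_right_eq_zero.1 g1
        have g4 := (ht i k hik).mul_right_eq_zero.1 g2
        have g5 : (t j - t k) * ι v.2.1 = 0 := by linear_combination g3 - g4
        have g6 := hι _ ((ht j k hjk).mul_right_eq_zero.1 g5)
        exact hz3 i s (by rw [fi, g6]; rfl)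
    rw [card_univ, Fintype.card_fin] at this
    omega
  have a3 : b * ((m + 1) / 2) ≤ #(S.filter fun v => ¬ v.2.1 = 0) := by
    have hd : #(univ.biUnion C) = ∑ s, #(C s) := by
      refine card_biUnion fun s _ s' _ hss => ?_
      rw [Function.onFun, disjoint_left]
      intro v h1 h2
      have p1 := (mem_filter.1 h1).2
      have p2 := (mem_filter.1 h2).2
      rcases lt_or_gt_of_ne hss with c | c
      · exact p2.1 (p1.2 _ c)
      · exact p1.1 (p2.2 _ c)
    calc b * ((m + 1) / 2) = ∑ _s : Fin b, (m + 1) / 2 := by simp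
      _ ≤ ∑ s, #(C s) := sum_le_sum fun s _ => a2 s
      _ = _ := hd.symm
      _ ≤ _ := by
          refine card_le_card fun v hv => ?_
          obtain ⟨s, -, hs⟩ := mem_biUnion.1 hv
          have p := mem_filter.1 hs
          exact mem_filter.2 ⟨p.1, fun h => p.2.1 (by rw [h]; rfl)⟩
  have := card_filter_add_card_filter_not (s := S) (fun v => v.2.1 = 0)
  omega

/-- the standard flag -/
noncomputable def stdF (K : Type*) [Field K] (d i : ℕ) : Submodule K (Fin d → K) :=
  Pi.spanSubset K {k : Fin d | (k : ℕ) < i}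

lemma mem_stdF {K : Type*} [Field K] {d i : ℕ} {v : Fin d → K} :
    v ∈ stdF K d i ↔ ∀ k : Fin d, i ≤ k → v k = 0 := by
  simp [stdF, Pi.mem_spanSubset_iff]

lemma finrank_stdF {K : Type*} [Field K] {d i : ℕ} (h : i ≤ d) :
    Module.finrank K (stdF K d i) = i := by
  have hli := (Pi.basisFun K (Fin d)).linearIndependent.comp _ (Fin.castLE_injective h)
  have := finrank_span_eq_card hli
  rw [Fintype.card_fin, Set.range_comp] at this
  have e : Set.range (Fin.castLE h) = {k : Fin d | (k : ℕ) < i} := by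
    ext k; simp [Fin.range_castLE]
  rw [e] at this
  exact this

lemma isFlag_comap {K : Type*} [Field K] {d : ℕ} (e : (Fin d → K) ≃ₗ[K] (Fin d → K)) :
    IsFlag fun i => (stdF K d i).comap (e : (Fin d → K) →ₗ[K] (Fin d → K)) := by
  refine ⟨fun i _ v hv => ?_, fun i hi => ?_⟩
  · rw [Submodule.mem_comap, mem_stdF] at hv ⊢
    exact fun k hk => hv k (by omega)
  · beta_reduce
    rw [Submodule.comap_equiv_eq_map_symm, LinearEquiv.finrank_map_eq, finrank_stdF hi]

lemma gen_vec {K : Type*} [Field K] {d : ℕ} (e : (Fin d → K) ≃ₗ[K] (Fin d → K))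
    (S : Finset (Fin d → K))
    (h : Generates S fun i => (stdF K d i).comap (e : (Fin d → K) →ₗ[K] (Fin d → K)))
    (k : Fin d) : ∃ v ∈ S, e v k ≠ 0 ∧ ∀ k' : Fin d, k < k' → e v k' = 0 := by
  obtain ⟨T, hT, hs⟩ := h (k + 1) k.2
  by_contra hc
  push Not at hc
  have hle : Submodule.span K (T : Set (Fin d → K)) ≤
      (stdF K d k).comap (e : (Fin d → K) →ₗ[K] (Fin d → K)) := by
    rw [Submodule.span_le]
    intro v hv
    have h1 : v ∈ (stdF K d (k + 1)).comap (e : (Fin d → K) →ₗ[K] (Fin d → K)) := by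
      have := Submodule.subset_span (R := K) hv
      rwa [hs] at this
    rw [Submodule.mem_comap, mem_stdF] at h1
    rw [SetLike.mem_coe, Submodule.mem_comap, mem_stdF]
    intro k' hk'
    rcases hk'.eq_or_lt with c | c
    · have : k = k' := Fin.ext c
      subst this
      by_contra hne
      obtain ⟨k', h2, h3⟩ := hc v (hT hv) hne
      exact h3 (h1 k' h2)
    · exact h1 k' c
  rw [hs] at hle
  have f1 := (isFlag_comap e).2 (k + 1) k.2
  have f2 := (isFlag_comap e).2 k k.2.le
  have := Submodule.finrank_mono hle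
  simp only at f1 f2 this
  omega

/-- concatenation of three coordinate blocks -/
def co (K : Type*) [Field K] (a b d : ℕ) :
    ((Fin a → K) × (Fin b → K) × (Fin a → K)) →ₗ[K] (Fin d → K) where
  toFun q k := if h : (k : ℕ) < a then q.1 ⟨k, h⟩ else if h2 : k - a < b then q.2.1 ⟨k - a, h2⟩
    else if h3 : k - a - b < a then q.2.2 ⟨k - a - b, h3⟩ else 0
  map_add' p q := by ext k; simp only [Pi.add_apply]; split_ifs <;> simp
  map_smul' c q := by ext k; simp only [Pi.smul_apply]; split_ifs <;> simp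

lemma co1 {K : Type*} [Field K] {a b d : ℕ} (q) (k : Fin a) (h : (k : ℕ) < d) :
    co K a b d q ⟨k, h⟩ = q.1 k := by
  simp [co]

lemma co2 {K : Type*} [Field K] {a b d : ℕ} (q) (k : Fin b) (h : a + (k : ℕ) < d) :
    co K a b d q ⟨a + k, h⟩ = q.2.1 k := by
  simp [co]

lemma co3 {K : Type*} [Field K] {a b d : ℕ} (q) (k : Fin a) (h : a + b + (k : ℕ) < d) :
    co K a b d q ⟨a + b + k, h⟩ = q.2.2 k := by
  have h1 : ¬ a + b + (k : ℕ) < a := by omega
  have h2 : ¬ a + b + (k : ℕ) - a < b := by omega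
  have h3 : a + b + (k : ℕ) - a - b = k := by omega
  simp [co, h1, h2, h3]

theorem lower (K : Type*) [Field K] (m : ℕ) : ∃ a0 : ℕ, ∀ a b d, a0 ≤ a → b ≤ a → d = a + b + a →
    ∃ U : Fin m → ℕ → Submodule K (Fin d → K), (∀ j, IsFlag (U j)) ∧
      ∀ S : Finset (Fin d → K), (∀ j, Generates S (U j)) → m * a + b * ((m + 1) / 2) ≤ #S := by
  classical
  obtain ⟨a0, ha0⟩ := alg K m
  refine ⟨a0, fun a b d ha hb hd => ?_⟩
  obtain ⟨f, hf, hfa, ht⟩ := ha0 a ha
  have := hf.finite_adjoinRoot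
  have hfr : Module.finrank K (AdjoinRoot f) = a := by
    rw [(AdjoinRoot.powerBasis' hf).finrank]; exact hfa
  set β : AdjoinRoot f ≃ₗ[K] (Fin a → K) := LinearEquiv.ofFinrankEq _ _ (by simp [hfr])
  set ι : (Fin b → K) →ₗ[K] AdjoinRoot f :=
    β.symm.toLinearMap ∘ₗ (co K b 0 a) ∘ₗ LinearMap.inl K _ _ with hιd
  have hι : ∀ w, ι w = 0 → w = 0 := by
    intro w hw
    have h1 : co K b 0 a (w, 0) = 0 := by simpa [hιd] using hw
    funext k
    have := co1 (b := 0) (d := a) (w, 0) k (by omega)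
    rw [h1] at this
    exact this.symm
  set t : Fin m → AdjoinRoot f := fun i => AdjoinRoot.root f ^ (i : ℕ)
  let ψ : Fin m → (AdjoinRoot f × (Fin b → K) × AdjoinRoot f) →ₗ[K] (Fin d → K) := fun j =>
    co K a b d ∘ₗ
      { toFun := fun v => (β v.1, v.2.1, β (v.2.2 - t j * v.1 - t j ^ 2 * ι v.2.1))
        map_add' := fun v w => by
          have : (v + w).2.2 - t j * (v + w).1 - t j ^ 2 * ι (v + w).2.1 =
              (v.2.2 - t j * v.1 - t j ^ 2 * ι v.2.1) +
                (w.2.2 - t j * w.1 - t j ^ 2 * ι w.2.1) := by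
            simp only [Prod.fst_add, Prod.snd_add, map_add]; ring
          rw [this]
          simp only [Prod.fst_add, Prod.snd_add, map_add, Prod.mk_add_mk]
        map_smul' := fun c v => by
          have : (c • v).2.2 - t j * (c • v).1 - t j ^ 2 * ι (c • v).2.1 =
              c • (v.2.2 - t j * v.1 - t j ^ 2 * ι v.2.1) := by
            simp only [Prod.smul_fst, Prod.smul_snd, map_smul, mul_smul_comm, smul_sub]
          rw [this]
          simp only [Prod.smul_fst, Prod.smul_snd, map_smul, Prod.smul_mk, RingHom.id_apply] }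
  have hψ : ∀ j v, ψ j v =
      co K a b d (β v.1, v.2.1, β (v.2.2 - t j * v.1 - t j ^ 2 * ι v.2.1)) := fun _ _ => rfl
  have hinj : ∀ j, Function.Injective (ψ j) := by
    intro j
    rw [injective_iff_map_eq_zero]
    intro v hv
    rw [hψ] at hv
    have e1 : β v.1 = 0 := by
      funext k
      have := congrFun hv ⟨k, by omega⟩
      rwa [co1] at this
    have e2 : v.2.1 = 0 := by
      funext k
      have := congrFun hv ⟨a + k, by omega⟩
      rwa [co2] at this
    have e3 : β (v.2.2 - t j * v.1 - t j ^ 2 * ι v.2.1) = 0 := by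
      funext k
      have := congrFun hv ⟨a + b + k, by omega⟩
      rwa [co3] at this
    rw [map_eq_zero_iff _ β.injective] at e1 e3
    rw [e1, e2] at e3
    exact Prod.ext e1 (Prod.ext e2 (by simpa using e3))
  have hdim : Module.finrank K (AdjoinRoot f × (Fin b → K) × AdjoinRoot f) =
      Module.finrank K (Fin d → K) := by
    simp [hfr, hd, add_assoc]
  set Φ : (AdjoinRoot f × (Fin b → K) × AdjoinRoot f) ≃ₗ[K] (Fin d → K) :=
    LinearEquiv.ofFinrankEq _ _ hdim
  set e : Fin m → (Fin d → K) ≃ₗ[K] (Fin d → K) := fun j =>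
    Φ.symm ≪≫ₗ (ψ j).linearEquivOfInjective (hinj j) hdim with he
  have hev : ∀ j v, e j v = ψ j (Φ.symm v) := fun _ _ => rfl
  refine ⟨fun j i => (stdF K d i).comap (e j : (Fin d → K) →ₗ[K] (Fin d → K)),
    fun j => isFlag_comap _, fun S hS => ?_⟩
  refine le_trans (core t ht ι (map_zero ι) hι β (map_zero β) (S.image Φ.symm) ?_ ?_) card_image_le
  · intro j k
    obtain ⟨v, hv, h1, h2⟩ := gen_vec (e j) S (hS j) ⟨k, by omega⟩
    simp only [hev, hψ] at h1 h2
    refine ⟨Φ.symm v, mem_image_of_mem _ hv, ?_, ?_, ?_, ?_⟩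
    · funext s
      have := h2 ⟨a + s, by omega⟩ (by simp only [Fin.mk_lt_mk]; omega)
      rwa [co2] at this
    · rw [← map_eq_zero_iff _ β.injective]
      funext s
      have := h2 ⟨a + b + s, by omega⟩ (by simp only [Fin.mk_lt_mk]; omega)
      rwa [co3] at this
    · rwa [co1] at h1
    · intro k' hk'
      have := h2 ⟨k', by omega⟩ hk'
      rwa [co1] at this
  · intro j k
    obtain ⟨v, hv, h1, h2⟩ := gen_vec (e j) S (hS j) ⟨a + k, by omega⟩
    simp only [hev, hψ] at h1 h2
    refine ⟨Φ.symm v, mem_image_of_mem _ hv, ?_, ?_, ?_⟩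
    · rw [← map_eq_zero_iff _ β.injective]
      funext s
      have := h2 ⟨a + b + s, by omega⟩ (by simp only [Fin.mk_lt_mk]; omega)
      rwa [co3] at this
    · rwa [co2] at h1
    · intro k' hk'
      have := h2 ⟨a + k', by omega⟩ (by simp only [Fin.mk_lt_mk]; omega)
      rwa [co2] at this

theorem main (K : Type*) [Field K] (m : ℕ) (hm : 1 ≤ m) : ∃ d0 : ℕ, ∀ d, d0 ≤ d →
    ∃ U : Fin m → ℕ → Submodule K (Fin d → K), (∀ j, IsFlag (U j)) ∧
      ∀ S : Finset (Fin d → K), (∀ j, Generates S (U j)) → mu m d ≤ #S := by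
  classical
  by_cases h1 : m = 1
  · refine ⟨0, fun d _ => ⟨fun _ i => (stdF K d i).comap
      ((LinearEquiv.refl K (Fin d → K) : (Fin d → K) ≃ₗ[K] (Fin d → K)) :
        (Fin d → K) →ₗ[K] (Fin d → K)), fun _ => isFlag_comap _, fun S hS => ?_⟩⟩
    obtain ⟨T, hT, hs⟩ := hS ⟨0, by omega⟩ d le_rfl
    have f1 := (isFlag_comap (LinearEquiv.refl K (Fin d → K))).2 d le_rfl
    have f2 := finrank_span_finset_le_card (R := K) T
    rw [Set.finrank, hs] at f2
    have := card_le_card hT
    simp only [mu, if_pos h1]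
    simp only at f1 f2
    omega
  obtain ⟨a0, h⟩ := lower K m
  refine ⟨3 * a0 + 4, fun d hd => ?_⟩
  obtain ⟨a, b, ha, hb, hab, h3⟩ : ∃ a b, a0 ≤ a ∧ b ≤ a ∧ d = a + b + a ∧ 2 * d / 3 = a + b := by
    rcases (by omega : d % 3 = 0 ∨ d % 3 = 1 ∨ d % 3 = 2) with c | c | c
    · exact ⟨d / 3, d / 3, by omega, by omega, by omega, by omega⟩
    · exact ⟨d / 3 + 1, d / 3 - 1, by omega, by omega, by omega, by omega⟩
    · exact ⟨d / 3 + 1, d / 3, by omega, by omega, by omega, by omega⟩
  obtain ⟨U, hU, hS⟩ := h a b d ha hb hab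
  refine ⟨U, hU, fun S hG => le_trans (le_of_eq ?_) (hS S hG)⟩
  simp only [mu, if_neg h1]
  split_ifs with he
  · obtain ⟨r, rfl⟩ := he
    rw [show (r + r) / 2 = r by omega, show (r + r + 1) / 2 = r by omega, hab]; ring
  · obtain ⟨r, rfl⟩ := Nat.not_even_iff_odd.1 he
    rw [h3, show (2 * r + 1 - 1) / 2 = r by omega, show (2 * r + 1 + 1) / 2 = r + 1 by omega, hab]
    ring

end Pool.Agent.H24.Flg1
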