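import Mathlib

namespace Pool.Agent.H24.FlgDefs

/-- `U 0 ≤ U 1 ≤ ... ≤ U d` is a complete flag in `K^d` -/
def IsFlag {K : Type*} [Field K] {d : ℕ} (U : ℕ → Submodule K (Fin d → K)) : Prop :=
  (∀ i, i < d → U i ≤ U (i + 1)) ∧ ∀ i, i ≤ d → Module.finrank K (U i) = i

/-- every member of the flag is spanned by a subset of `S` -/
def Generates {K : Type*} [Field K] {d : ℕ} (S : Finset (Fin d → K))
    (U : ℕ → Submodule K (Fin d → K)) : Prop :=
  ∀ i, i ≤ d → ∃ T : Finset (Fin d → K), T ⊆ S ∧ Submodule.span K (T : Set (Fin d → K)) = U i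

/-- the value of the real problem for `d ≥ 2` or `m = 1` -/
def mu (m d : ℕ) : ℕ :=
  if m = 1 then d else if Even m then m / 2 * d else (m - 1) / 2 * d + 2 * d / 3

end Pool.Agent.H24.FlgDefs
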