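import Mathlib

namespace Pool.Agent.H24.Flip1
open Finset

section
variable {V : Type} [Fintype V] [DecidableEq V]

def deg (c : V → V → ℕ) (v : V) (j : ℕ) : ℕ := ∑ w, if c v w = j then 1 else 0
def nb (c : V → V → ℕ) (v x : V) : ℕ := if x = v ∨ c v x ≠ 0 then 1 else 0
def ec (c : V → V → ℕ) (v : V) (j : ℕ) : ℕ :=
  ∑ x, ∑ y, nb c v x * nb c v y * (if c x y = j then 1 else 0)
end

def R (k D : ℕ) (a e : ℕ → ℕ) : Prop :=
  ∃ (V : Type) (_ : Fintype V) (_ : DecidableEq V) (_ : Nonempty V) (c : V → V → ℕ),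
    (∀ x y, c x y = c y x) ∧ (∀ x, c x x = 0) ∧ (∀ x y, c x y ≤ k) ∧
    (∀ v, ∑ x, nb c v x = D + 1) ∧ (∀ v j, 1 ≤ j → deg c v j = a j) ∧
    ∀ v j, 1 ≤ j → ec c v j = e j

theorem R.unit (k : ℕ) : R k 0 0 0 := by
  refine ⟨Unit, inferInstance, inferInstance, inferInstance, fun _ _ => 0, fun _ _ => rfl,
    fun _ => rfl, fun _ _ => Nat.zero_le _, fun v => by simp [nb], fun v j hj => ?_,
    fun v j hj => ?_⟩
  · simp [deg]; omega
  · simp [ec]; omega

theorem R.box {k D D' : ℕ} {a e a' e' : ℕ → ℕ} (h : R k D a e) (h' : R k D' a' e') :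
    R k (D + D') (a + a') (e + e') := by
  obtain ⟨V, _, _, _, c, c1, c2, c3, c4, c5, c6⟩ := h
  obtain ⟨W, _, _, _, d, d1, d2, d3, d4, d5, d6⟩ := h'
  let C : V × W → V × W → ℕ := fun p q =>
    if p.2 = q.2 then c p.1 q.1 else if p.1 = q.1 then d p.2 q.2 else 0
  refine ⟨V × W, inferInstance, inferInstance, inferInstance, C, ?_, ?_, ?_, ?_, ?_, ?_⟩
  · rintro ⟨x, u⟩ ⟨y, w⟩
    simp only [C, c1 x y, d1 u w, eq_comm (a := x), eq_comm (a := u)]
  · intro p
    simp [C, c2]
  · intro p q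
    simp only [C]
    split_ifs
    · exact c3 _ _
    · exact d3 _ _
    · exact Nat.zero_le _
  · rintro ⟨x0, u0⟩
    have key : ∀ x u, nb C (x0, u0) (x, u) + (if u = u0 then (if x = x0 then 1 else 0) else 0) =
        (if u = u0 then nb c x0 x else 0) + (if x = x0 then nb d u0 u else 0) := by
      intro x u
      by_cases h1 : u = u0 <;> by_cases h2 : x = x0 <;>
        simp [nb, C, h1, h2, eq_comm (a := u0), eq_comm (a := x0)]
    have h1 : ∑ x, ∑ u, (nb C (x0, u0) (x, u) + (if u = u0 then (if x = x0 then 1 else 0) else 0)) =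
        ∑ x, ∑ u, ((if u = u0 then nb c x0 x else 0) + (if x = x0 then nb d u0 u else 0)) :=
      sum_congr rfl fun x _ => sum_congr rfl fun u _ => key x u
    simp only [sum_add_distrib, sum_ite_eq', mem_univ, if_true, sum_ite_irrel, sum_const_zero,
      c4, d4] at h1
    rw [Fintype.sum_prod_type]
    omega
  · rintro ⟨x0, u0⟩ j hj
    have key : ∀ x u, (if C (x0, u0) (x, u) = j then 1 else 0) =
        (if u = u0 then (if c x0 x = j then 1 else 0) else 0) +
        (if x = x0 then (if d u0 u = j then 1 else 0) else 0) := by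
      intro x u
      have hj' : ¬ (0 = j) := by omega
      by_cases h1 : u = u0 <;> by_cases h2 : x = x0 <;>
        simp [C, h1, h2, eq_comm (a := u0), eq_comm (a := x0), c2, d2, hj']
    rw [Pi.add_apply, ← c5 x0 j hj, ← d5 u0 j hj]
    simp only [deg, Fintype.sum_prod_type, key, sum_add_distrib, sum_ite_eq', mem_univ, if_true,
      sum_ite_irrel, sum_const_zero]
  · rintro ⟨x0, u0⟩ j hj
    have key : ∀ x u y w, nb C (x0, u0) (x, u) * nb C (x0, u0) (y, w) *
        (if C (x, u) (y, w) = j then 1 else 0) =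
        (if u = u0 then (if w = u0 then nb c x0 x * nb c x0 y * (if c x y = j then 1 else 0)
          else 0) else 0) +
        (if x = x0 then (if y = x0 then nb d u0 u * nb d u0 w * (if d u w = j then 1 else 0)
          else 0) else 0) := by
      intro x u y w
      have hj' : ¬ (0 = j) := by omega
      by_cases h1 : u = u0 <;> by_cases h2 : x = x0 <;> by_cases h3 : w = u0 <;>
        by_cases h4 : y = x0 <;> by_cases h5 : u = w <;> by_cases h6 : x = y <;>
        simp_all [nb, C, eq_comm (a := u0), eq_comm (a := x0)]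
    rw [Pi.add_apply, ← c6 x0 j hj, ← d6 u0 j hj]
    simp only [ec, Fintype.sum_prod_type, key, sum_add_distrib, sum_ite_eq', mem_univ, if_true,
      sum_ite_irrel, sum_const_zero]

theorem R.lex {k D : ℕ} {a e : ℕ → ℕ} (h : R k D a e) (s j0 : ℕ) (h1 : 1 ≤ j0) (h2 : j0 ≤ k) :
    R k (s + (s + 1) * D) (fun j => (if j = j0 then s else 0) + (s + 1) * a j)
      (fun j => (if j = j0 then (D + 1) * ((s + 1) * s) else 0) + (s + 1) ^ 2 * e j) := by
  obtain ⟨W, _, _, _, d, d1, d2, d3, d4, d5, d6⟩ := h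
  let C : Fin (s + 1) × W → Fin (s + 1) × W → ℕ := fun p q =>
    if p.2 = q.2 then (if p.1 = q.1 then 0 else j0) else d p.2 q.2
  have hnb : ∀ x0 u0 x u, nb C (x0, u0) (x, u) = nb d u0 u := by
    intro x0 u0 x u
    have : j0 ≠ 0 := by omega
    by_cases h1 : u = u0 <;> by_cases h2 : x = x0 <;>
      simp [nb, C, h1, h2, eq_comm (a := u0), eq_comm (a := x0), this]
  have hs : ∀ x : Fin (s + 1), ∑ y, (if x = y then 0 else 1) = s := by
    intro x
    have : ∑ y, ((if x = y then 0 else 1) + (if x = y then 1 else 0)) = ∑ _y : Fin (s + 1), 1 :=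
      sum_congr rfl fun y _ => by split_ifs <;> rfl
    simp only [sum_add_distrib, sum_ite_eq, mem_univ, if_true, sum_const, card_univ,
      Fintype.card_fin, smul_eq_mul] at this
    omega
  have key : ∀ j, 1 ≤ j → ∀ x u y w, (if C (x, u) (y, w) = j then 1 else 0) =
      (if j = j0 then (if u = w then (if x = y then 0 else 1) else 0) else 0) +
      (if d u w = j then 1 else 0) := by
    intro j hj x u y w
    have hj' : ¬ (0 = j) := by omega
    by_cases h1 : u = w <;> by_cases h2 : x = y <;> by_cases h3 : j = j0 <;>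
      simp_all [C, eq_comm (a := j0)]
  refine ⟨Fin (s + 1) × W, inferInstance, inferInstance, inferInstance, C, ?_, ?_, ?_, ?_, ?_, ?_⟩
  · rintro ⟨x, u⟩ ⟨y, w⟩
    simp only [C, d1 u w, eq_comm (a := x), eq_comm (a := u)]
  · intro p
    simp [C]
  · intro p q
    simp only [C]
    split_ifs
    · exact Nat.zero_le _
    · exact h2
    · exact d3 _ _
  · rintro ⟨x0, u0⟩
    simp only [Fintype.sum_prod_type, hnb, d4, sum_const, card_univ, Fintype.card_fin, smul_eq_mul]
    ring
  · rintro ⟨x0, u0⟩ j hj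
    simp only [← d5 u0 j hj]
    simp only [deg, Fintype.sum_prod_type, key j hj, sum_add_distrib, sum_ite_eq, mem_univ, if_true,
      sum_ite_irrel, sum_const_zero, hs]
    congr 1
    exact (Fin.sum_const (s + 1) (∑ w, if d u0 w = j then 1 else 0)).trans (smul_eq_mul _ _)
  · rintro ⟨x0, u0⟩ j hj
    simp only [← d6 u0 j hj, ← d4 u0]
    simp only [ec, Fintype.sum_prod_type, key j hj, hnb, mul_add, sum_add_distrib]
    congr 1
    · by_cases h3 : j = j0
      · have h4 : ∀ u, nb d u0 u * nb d u0 u = nb d u0 u := fun u => by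
          unfold nb; split_ifs <;> rfl
        have h5 : ∀ (x : Fin (s + 1)) u, ∑ y : Fin (s + 1), ∑ w, nb d u0 u * nb d u0 w *
            (if u = w then (if x = y then 0 else 1) else 0) = nb d u0 u * s := by
          intro x u
          simp only [mul_ite (u = _), mul_zero, sum_ite_eq, mem_univ, if_true, h4, ← mul_sum, hs]
        simp only [h3, if_true, h5, ← sum_mul, sum_const, card_univ, Fintype.card_fin, smul_eq_mul]
        ring
      · simp [h3]
    · change (∑ _x : Fin (s + 1), ∑ u, ∑ _y : Fin (s + 1), ∑ w,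
        nb d u0 u * nb d u0 w * if d u w = j then 1 else 0) = _
      simp only [sum_const, card_univ, Fintype.card_fin, smul_eq_mul, ← mul_sum]
      ring

theorem R.congr {k D D' : ℕ} {a e a' e' : ℕ → ℕ} (h : R k D a e) (h1 : D = D') (h2 : a = a')
    (h3 : e = e') : R k D' a' e' := h1 ▸ h2 ▸ h3 ▸ h

theorem R.sum {ι : Type} [DecidableEq ι] {k : ℕ} (S : Finset ι) (D : ι → ℕ) (a e : ι → ℕ → ℕ)
    (h : ∀ i ∈ S, R k (D i) (a i) (e i)) :
    R k (∑ i ∈ S, D i) (fun j => ∑ i ∈ S, a i j) (fun j => ∑ i ∈ S, e i j) := by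
  induction S using Finset.induction_on with
  | empty => exact R.unit k
  | insert i S hi ih =>
    refine ((h i (mem_insert_self _ _)).box (ih fun j hj => h j (mem_insert_of_mem hj))).congr
      ?_ ?_ ?_
    · rw [sum_insert hi]
    · funext j; simp [sum_insert hi]
    · funext j; simp [sum_insert hi]

theorem R.clique (k s j0 : ℕ) (h1 : 1 ≤ j0) (h2 : j0 ≤ k) :
    R k s (fun j => if j = j0 then s else 0) (fun j => if j = j0 then (s + 1) * s else 0) :=
  ((R.unit k).lex s j0 h1 h2).congr (by simp) (by simp) (by simp)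

theorem R.cube (k b j0 : ℕ) (h1 : 1 ≤ j0) (h2 : j0 ≤ k) :
    R k b (fun j => if j = j0 then b else 0) (fun j => if j = j0 then 2 * b else 0) := by
  refine (R.sum (range b) _ _ _ fun _ _ => R.clique k 1 j0 h1 h2).congr (by simp) ?_ ?_
  · funext j; split_ifs <;> simp
  · funext j; split_ifs <;> simp [mul_comm]

theorem build (q r b : ℕ) : ∃ D a e, R (q + r) D a e ∧ ∀ j, 1 ≤ j → j ≤ q + r →
    a j = (if j ≤ q then q + r else q * ((q + r + 1) * b)) + (4 * j + 3 * (q + r - j)) ∧
    e j = (if j ≤ q then (r * b + 1) * ((q + r + 1) * (q + r)) else q * ((q + r + 1) ^ 2 * (2 * b))) +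
      (2 * (4 * j) + (3 * (q + r - j) + 1) * (3 * (q + r - j))) := by
  have hB := R.sum (k := q + r) (Ioc q (q + r)) _ _ _ fun l hl =>
    R.cube (q + r) b l (by have := (mem_Ioc.1 hl).1; omega) (mem_Ioc.1 hl).2
  have hG := R.sum (k := q + r) (Icc 1 q) _ _ _ fun l hl =>
    hB.lex (q + r) l (mem_Icc.1 hl).1 (by have := (mem_Icc.1 hl).2; omega)
  have hC := R.sum (k := q + r) (Icc 1 (q + r)) _ _ _ fun l hl =>
    (R.cube (q + r) (4 * l) l (mem_Icc.1 hl).1 (mem_Icc.1 hl).2).box
      (R.clique (q + r) (3 * (q + r - l)) l (mem_Icc.1 hl).1 (mem_Icc.1 hl).2)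
  refine ⟨_, _, _, hG.box hC, fun j h1 h2 => ?_⟩
  by_cases h3 : j ≤ q
  · have h4 : ¬ q < j := by omega
    simp [sum_add_distrib, h1, h2, h3, h4]
  · have h4 : q < j := by omega
    simp [sum_add_distrib, h1, h2, h3, h4]

end Pool.Agent.H24.Flip1
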