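import Mathlib

namespace Pool.Agent.H24.FlipDefs

/-- `e_j[v]`: the number of edges of colour `j` with both endpoints in `N[v]`. -/
noncomputable def ecl {V : Type} (G : SimpleGraph V) (f : Sym2 V → ℕ) (v : V) (j : ℕ) : ℕ :=
  {e | e ∈ G.edgeSet ∧ f e = j ∧ ∀ x ∈ e, x = v ∨ G.Adj v x}.ncard

/-- `(a 1, …, a k)` is a `k`-flip sequence. -/
def IsFlipSeq (k : ℕ) (a : ℕ → ℕ) : Prop :=
  0 < a 1 ∧ (∀ j, 1 ≤ j → j < k → a j < a (j + 1)) ∧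
  ∃ (V : Type) (_ : Finite V) (_ : Nonempty V) (G : SimpleGraph V) (f : Sym2 V → ℕ),
    (∀ e ∈ G.edgeSet, 1 ≤ f e ∧ f e ≤ k) ∧
    (∀ v j, 1 ≤ j → j ≤ k → {w | G.Adj v w ∧ f s(v, w) = j}.ncard = a j) ∧
    ∀ v j, 1 ≤ j → j < k → ecl G f v (j + 1) < ecl G f v j

/-- Position `q` is bounded. -/
def Bounded (k q : ℕ) : Prop :=
  ∃ h : ℕ, 0 < h ∧ ∀ N : ℕ, ∃ a, IsFlipSeq k a ∧ a q = h ∧ N < a k

end Pool.Agent.H24.FlipDefs
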