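import Mathlib
import Pool.Agent.H24.Flip1
import Pool.Agent.H24.FlipDefs

namespace Pool.Agent.H24.Flip2
open Finset Pool.Agent.H24.Flip1 Pool.Agent.H24.FlipDefs

section
variable {V : Type} [Fintype V] [DecidableEq V] {G : SimpleGraph V} {f : Sym2 V → ℕ}
  {c : V → V → ℕ}

theorem deg_eq (h1 : ∀ x y, G.Adj x y ↔ c x y ≠ 0) (h2 : ∀ x y, G.Adj x y → f s(x, y) = c x y)
    (v : V) (j : ℕ) (hj : 1 ≤ j) : {w | G.Adj v w ∧ f s(v, w) = j}.ncard = deg c v j := by
  classical
  rw [deg, ← card_filter, ← Set.ncard_coe_finset]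
  congr 1
  ext w
  simp only [Set.mem_setOf_eq, coe_filter, mem_univ, true_and]
  constructor
  · rintro ⟨a, b⟩
    rw [← h2 _ _ a, b]
  · intro h
    have : G.Adj v w := (h1 _ _).2 (by omega)
    exact ⟨this, by rw [h2 _ _ this, h]⟩

theorem ec_eq (h1 : ∀ x y, G.Adj x y ↔ c x y ≠ 0) (h2 : ∀ x y, G.Adj x y → f s(x, y) = c x y)
    (v : V) (j : ℕ) (hj : 1 ≤ j) : ec c v j = 2 * ecl G f v j := by
  classical
  let P : Finset (V × V) := univ.filter fun p =>
    (p.1 = v ∨ G.Adj v p.1) ∧ (p.2 = v ∨ G.Adj v p.2) ∧ c p.1 p.2 = j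
  have e1 : ec c v j = P.card := by
    rw [ec, card_filter, Fintype.sum_prod_type]
    refine sum_congr rfl fun x _ => sum_congr rfl fun y _ => ?_
    simp only [nb, h1]
    split_ifs <;> simp_all
  have hP : ∀ x y, (x, y) ∈ P ↔ s(x, y) ∈ G.edgeSet ∧ f s(x, y) = j ∧
      ∀ z ∈ s(x, y), z = v ∨ G.Adj v z := by
    intro x y
    simp only [P, mem_filter, mem_univ, true_and, SimpleGraph.mem_edgeSet, Sym2.mem_iff,
      forall_eq_or_imp, forall_eq]
    constructor
    · rintro ⟨a, b, h⟩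
      have : G.Adj x y := (h1 _ _).2 (by omega)
      exact ⟨this, by rw [h2 _ _ this, h], a, b⟩
    · rintro ⟨a, b, h⟩
      exact ⟨h.1, h.2, by rw [← h2 _ _ a, b]⟩
  rw [e1, ecl, Set.ncard_eq_toFinset_card', mul_comm, ← smul_eq_mul, ← sum_const]
  rw [card_eq_sum_card_fiberwise (f := fun p : V × V => s(p.1, p.2))
    (t := {e | e ∈ G.edgeSet ∧ f e = j ∧ ∀ x ∈ e, x = v ∨ G.Adj v x}.toFinset)
    (by
      rintro ⟨x, y⟩ hp
      simpa only [Set.coe_toFinset, Set.mem_setOf_eq] using (hP x y).1 hp)]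
  refine sum_congr rfl fun e he => ?_
  induction e using Sym2.ind with
  | _ x y =>
    rw [Set.mem_toFinset] at he
    have hne : x ≠ y := (G.mem_edgeSet.1 he.1).ne
    rw [← card_pair (a := (x, y)) (b := (y, x)) (by simp [hne])]
    congr 1
    ext ⟨a, b⟩
    simp only [mem_filter, mem_insert, mem_singleton, Prod.mk.injEq, Sym2.eq_iff]
    constructor
    · exact fun h => h.2
    · intro h
      refine ⟨(hP a b).2 ?_, h⟩
      rcases h with ⟨rfl, rfl⟩ | ⟨rfl, rfl⟩
      · exact he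
      · rw [Sym2.eq_swap]; exact he
end

theorem of_R {k D : ℕ} {a e : ℕ → ℕ} (h : R k D a e) (h0 : 0 < a 1)
    (h1 : ∀ j, 1 ≤ j → j < k → a j < a (j + 1)) (h2 : ∀ j, 1 ≤ j → j < k → e (j + 1) < e j) :
    IsFlipSeq k a := by
  obtain ⟨V, _, _, _, c, c1, c2, c3, -, c5, c6⟩ := h
  let G : SimpleGraph V :=
    { Adj := fun x y => c x y ≠ 0
      symm := ⟨fun x y h => by rwa [c1]⟩
      loopless := ⟨fun x h => h (c2 x)⟩ }
  let f : Sym2 V → ℕ := Sym2.lift ⟨c, c1⟩
  have g1 : ∀ x y, G.Adj x y ↔ c x y ≠ 0 := fun _ _ => Iff.rfl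
  have g2 : ∀ x y, G.Adj x y → f s(x, y) = c x y := fun _ _ _ => rfl
  refine ⟨h0, h1, V, inferInstance, inferInstance, G, f, ?_, ?_, ?_⟩
  · intro e he
    induction e using Sym2.ind with
    | _ x y => exact ⟨Nat.one_le_iff_ne_zero.2 he, c3 x y⟩
  · intro v j hj _
    rw [deg_eq g1 g2 v j hj, c5 v j hj]
  · intro v j hj hk
    have a1 := ec_eq g1 g2 v j hj
    have a2 := ec_eq g1 g2 v (j + 1) (by omega)
    rw [c6 v _ (by omega)] at a1 a2
    have := h2 j hj hk
    omega

theorem lower (k q : ℕ) (hq : 1 ≤ q) (hk : 3 * q < k) : Bounded k q := by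
  obtain ⟨r, rfl⟩ : ∃ r, k = q + r := ⟨k - q, by omega⟩
  refine ⟨q + r + (4 * q + 3 * (q + r - q)), by omega, fun N => ?_⟩
  obtain ⟨D, a, e, hR, h⟩ := build q r (N + 1)
  have b1 : q + r + (N + 1) ≤ q * ((q + r + 1) * (N + 1)) := by
    have : (q + r + 1) * (N + 1) ≤ q * ((q + r + 1) * (N + 1)) := Nat.le_mul_of_pos_left _ hq
    nlinarith
  have b2 : q * ((q + r + 1) ^ 2 * (2 * (N + 1))) ≤ (r * (N + 1) + 1) * ((q + r + 1) * (q + r)) := by
    have h1 : 2 * q * (q + r + 1) ≤ r * (q + r) := by nlinarith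
    have h2 := Nat.mul_le_mul_right ((N + 1) * (q + r + 1)) h1
    nlinarith
  refine ⟨a, of_R hR ?_ ?_ ?_, ?_, ?_⟩
  · rw [(h 1 le_rfl (by omega)).1]
    omega
  · intro j h1 h2
    rw [(h j h1 h2.le).1, (h (j + 1) (by omega) h2).1]
    split_ifs <;> omega
  · intro j h1 h2
    rw [(h j h1 h2.le).2, (h (j + 1) (by omega) h2).2]
    obtain ⟨t, ht⟩ : ∃ t, q + r - (j + 1) = t := ⟨_, rfl⟩
    have ht' : q + r - j = t + 1 := by omega
    rw [ht, ht']
    have : 2 * (4 * (j + 1)) + (3 * t + 1) * (3 * t) < 2 * (4 * j) + (3 * (t + 1) + 1) * (3 * (t + 1)) := by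
      nlinarith
    split_ifs <;> omega
  · rw [(h q hq (by omega)).1, if_pos le_rfl]
  · rw [(h (q + r) (by omega) le_rfl).1, if_neg (by omega)]
    omega

section
variable {V : Type} [Fintype V] [DecidableEq V]

theorem tri (s l : V → V → ℕ) (s1 : ∀ x y, s x y = s y x) (l1 : ∀ x y, l x y = l y x)
    (s0 : ∀ x y, s x y + l x y ≤ 1) (H : ℕ) (hH : ∀ v, ∑ x, s v x ≤ H) :
    ∃ X : ℕ, ∑ v, ∑ x, ∑ y, (s v x + l v x) * (s v y + l v y) * s x y ≤
      X + 2 * (Fintype.card V * H ^ 2) ∧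
      2 * X ≤ ∑ v, ∑ x, ∑ y, (s v x + l v x) * (s v y + l v y) * l x y := by
  refine ⟨∑ v, ∑ x, ∑ y, l v x * l v y * s x y, ?_, ?_⟩
  · have h1 : ∑ v, ∑ x, ∑ y, s v x * s x y ≤ Fintype.card V * H ^ 2 := by
      rw [← card_univ, ← smul_eq_mul, ← sum_const]
      refine sum_le_sum fun v _ => ?_
      calc ∑ x, ∑ y, s v x * s x y = ∑ x, s v x * ∑ y, s x y := by simp only [mul_sum]
        _ ≤ ∑ x, s v x * H := sum_le_sum fun x _ => Nat.mul_le_mul_left _ (hH x)
        _ ≤ H ^ 2 := by rw [← sum_mul, sq]; exact Nat.mul_le_mul_right _ (hH v)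
    have h2 : ∑ v, ∑ x, ∑ y, s v y * s x y = ∑ v, ∑ x, ∑ y, s v x * s x y :=
      sum_congr rfl fun v _ => by
        rw [sum_comm]
        exact sum_congr rfl fun x _ => sum_congr rfl fun y _ => by rw [s1 y x]
    have h3 : ∑ v, ∑ x, ∑ y, (s v x + l v x) * (s v y + l v y) * s x y ≤
        ∑ v, ∑ x, ∑ y, (l v x * l v y * s x y + s v x * s x y + s v y * s x y) := by
      refine sum_le_sum fun v _ => sum_le_sum fun x _ => sum_le_sum fun y _ => ?_
      rw [← add_mul, ← add_mul]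
      apply Nat.mul_le_mul_right
      have := s0 v x
      have := s0 v y
      nlinarith
    simp only [sum_add_distrib] at h3
    omega
  · have h1 : ∑ v, ∑ x, ∑ y, s v x * l v y * l x y = ∑ v, ∑ x, ∑ y, l v x * l v y * s x y := by
      rw [sum_congr rfl (fun v _ => sum_comm), sum_comm]
      refine sum_congr rfl fun y _ => sum_congr rfl fun v _ => sum_congr rfl fun x _ => ?_
      rw [l1 v y, l1 x y]
      ring
    have h2 : ∑ v, ∑ x, ∑ y, l v x * s v y * l x y = ∑ v, ∑ x, ∑ y, l v x * l v y * s x y := by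
      rw [sum_comm]
      refine sum_congr rfl fun y _ => sum_congr rfl fun v _ => sum_congr rfl fun x _ => ?_
      rw [l1 v y]
      ring
    have h3 : ∑ v, ∑ x, ∑ y, (s v x * l v y * l x y + l v x * s v y * l x y) ≤
        ∑ v, ∑ x, ∑ y, (s v x + l v x) * (s v y + l v y) * l x y := by
      refine sum_le_sum fun v _ => sum_le_sum fun x _ => sum_le_sum fun y _ => ?_
      rw [← add_mul]
      apply Nat.mul_le_mul_right
      nlinarith
    simp only [sum_add_distrib] at h3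
    omega
end

theorem upper (k q : ℕ) (hq : 1 ≤ q) (hqk : q < k) (hk : k ≤ 3 * q) (a : ℕ → ℕ)
    (h : IsFlipSeq k a) : a k ≤ 4 * (q * a q) + 4 * (q * a q) ^ 2 := by
  classical
  obtain ⟨-, hmono, V, _, _, G, f, hf, hd, he⟩ := h
  have := Fintype.ofFinite V
  let c : V → V → ℕ := fun x y => if G.Adj x y then f s(x, y) else 0
  have g1 : ∀ x y, G.Adj x y ↔ c x y ≠ 0 := by
    intro x y
    by_cases h : G.Adj x y
    · have := (hf s(x, y) h).1
      simp only [c, h, if_true, true_iff]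
      omega
    · simp [c, h]
  have g2 : ∀ x y, G.Adj x y → f s(x, y) = c x y := fun x y h => by simp [c, h]
  have c1 : ∀ x y, c x y = c y x := fun x y => by simp only [c, G.adj_comm x y, Sym2.eq_swap]
  have c2 : ∀ x, c x x = 0 := fun x => by simp [c]
  have c3 : ∀ x y, c x y ≤ k := by
    intro x y
    by_cases h : G.Adj x y
    · rw [← g2 x y h]; exact (hf s(x, y) h).2
    · simp [c, h]
  have hd' : ∀ v j, 1 ≤ j → j ≤ k → deg c v j = a j := fun v j h1 h2 => by
    rw [← deg_eq g1 g2 v j h1, hd v j h1 h2]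
  have he' : ∀ v i j, 1 ≤ i → i ≤ j → j ≤ k → ec c v j ≤ ec c v i := by
    intro v i j h1 h2
    induction j, h2 using Nat.le_induction with
    | base => exact fun _ => le_rfl
    | succ j h2 ih =>
      intro h3
      have := he v j (by omega) h3
      have := ih (by omega)
      rw [ec_eq g1 g2 v _ (by omega)] at *
      omega
  have ha' : ∀ i j, 1 ≤ i → i ≤ j → j ≤ k → a i ≤ a j := by
    intro i j h1 h2
    induction j, h2 using Nat.le_induction with
    | base => exact fun _ => le_rfl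
    | succ j h2 ih =>
      intro h3
      have := hmono j (by omega) h3
      have := ih (by omega)
      omega
  let s : V → V → ℕ := fun x y => if c x y ∈ Icc 1 q then 1 else 0
  let l : V → V → ℕ := fun x y => if c x y ∈ Ioc q k then 1 else 0
  have hs : ∀ x y, ∑ j ∈ Icc 1 q, (if c x y = j then 1 else 0) = s x y := fun x y => by
    simp only [s, sum_ite_eq]
  have hl : ∀ x y, ∑ j ∈ Ioc q k, (if c x y = j then 1 else 0) = l x y := fun x y => by
    simp only [l, sum_ite_eq]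
  have hnb : ∀ v x, nb c v x = (if x = v then 1 else 0) + (s v x + l v x) := by
    intro v x
    have := c3 v x
    by_cases h : x = v
    · simp [nb, s, l, h, c2]
    · simp only [nb, s, l, h, false_or, if_false, mem_Icc, mem_Ioc]
      split_ifs <;> omega
  have s0 : ∀ x y, s x y + l x y ≤ 1 := by
    intro x y
    simp only [s, l, mem_Icc, mem_Ioc]
    split_ifs <;> omega
  have s1 : ∀ x y, s x y = s y x := fun x y => by simp only [s, c1 x y]
  have l1 : ∀ x y, l x y = l y x := fun x y => by simp only [l, c1 x y]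
  have hH : ∀ v, ∑ x, s v x ≤ q * a q := by
    intro v
    simp only [← hs]
    rw [sum_comm]
    calc ∑ j ∈ Icc 1 q, ∑ x, (if c v x = j then 1 else 0) ≤ ∑ _j ∈ Icc 1 q, a q :=
          sum_le_sum fun j hj => by
            have h1 := mem_Icc.1 hj
            exact (hd' v j h1.1 (by omega)).le.trans (ha' j q h1.1 h1.2 hqk.le)
      _ = q * a q := by simp
  have hL : ∀ v, a k ≤ ∑ x, l v x := by
    intro v
    rw [← hd' v k (by omega) le_rfl]
    refine sum_le_sum fun x _ => ?_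
    simp only [l, mem_Ioc]
    split_ifs <;> omega
  have hexp : ∀ (t : V → V → ℕ) (J : Finset ℕ), (∀ x y, t x y = t y x) → (∀ x, t x x = 0) →
      (∀ x y, t x y * (s x y + l x y) = t x y) →
      (∀ x y, ∑ j ∈ J, (if c x y = j then 1 else 0) = t x y) → ∀ v, ∑ j ∈ J, ec c v j =
      2 * ∑ x, t v x + ∑ x, ∑ y, (s v x + l v x) * (s v y + l v y) * t x y := by
    intro t J t1 t2 e3 ht v
    have e1 : ∑ j ∈ J, ec c v j = ∑ x, ∑ y, nb c v x * nb c v y * t x y := by
      simp only [ec, ← ht, mul_sum]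
      rw [sum_comm]
      exact sum_congr rfl fun x _ => sum_comm
    have e2 : ∀ x y, nb c v x * nb c v y * t x y = (if x = v then t v y * (s v y + l v y) else 0) +
        (if y = v then t v x * (s v x + l v x) else 0) +
        (s v x + l v x) * (s v y + l v y) * t x y := by
      intro x y
      rw [hnb, hnb]
      by_cases h1 : x = v <;> by_cases h2 : y = v
      · simp [h1, h2, t2]
      · simp [h1, h2]; ring
      · simp [h1, h2, t1 x v]; ring
      · simp [h1, h2]
    rw [e1]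
    simp only [e2, e3, sum_add_distrib, sum_ite_irrel, sum_const_zero, sum_ite_eq', mem_univ,
      if_true]
    ring
  have hS := hexp s (Icc 1 q) s1 (fun x => by simp [s, c2]) (fun x y => by
    have := s0 x y
    rcases Nat.eq_zero_or_pos (s x y) with h | h
    · simp [h]
    · rw [show s x y + l x y = 1 by omega, mul_one]) hs
  have hL' := hexp l (Ioc q k) l1 (fun x => by simp [l, c2]) (fun x y => by
    have := s0 x y
    rcases Nat.eq_zero_or_pos (l x y) with h | h
    · simp [h]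
    · rw [show s x y + l x y = 1 by omega, mul_one]) hl
  have hcmp : ∀ v, ∑ j ∈ Ioc q k, ec c v j ≤ 2 * ∑ j ∈ Icc 1 q, ec c v j := by
    intro v
    have h1 : ∑ j ∈ Ioc q k, ec c v j ≤ ∑ _j ∈ Ioc q k, ec c v q :=
      sum_le_sum fun j hj => he' v q j hq (mem_Ioc.1 hj).1.le (mem_Ioc.1 hj).2
    have h2 : ∑ _j ∈ Icc 1 q, ec c v q ≤ ∑ j ∈ Icc 1 q, ec c v j :=
      sum_le_sum fun j hj => he' v j q (mem_Icc.1 hj).1 (mem_Icc.1 hj).2 hqk.le
    simp only [sum_const, Nat.card_Ioc, Nat.card_Icc, smul_eq_mul, add_tsub_cancel_right] at h1 h2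
    have h3 : (k - q) * ec c v q ≤ 2 * q * ec c v q := Nat.mul_le_mul_right _ (by omega)
    rw [mul_assoc] at h3
    omega
  obtain ⟨X, x1, x2⟩ := tri s l s1 l1 s0 _ hH
  have h1 : ∑ v, ∑ j ∈ Ioc q k, ec c v j ≤ ∑ v, 2 * ∑ j ∈ Icc 1 q, ec c v j :=
    sum_le_sum fun v _ => hcmp v
  have h2 : ∑ v, ∑ x, s v x ≤ ∑ _v : V, q * a q := sum_le_sum fun v _ => hH v
  have h3 : ∑ _v : V, a k ≤ ∑ v, ∑ x, l v x := sum_le_sum fun v _ => hL v
  simp only [hS, hL', sum_add_distrib, ← mul_sum] at h1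
  simp only [sum_const, card_univ, smul_eq_mul] at h2 h3
  have h4 : 0 < Fintype.card V := Fintype.card_pos
  apply Nat.le_of_mul_le_mul_left _ h4
  rw [mul_add, mul_left_comm, mul_left_comm _ 4]
  omega

theorem main (k q : ℕ) (hq : 1 ≤ q) (hqk : q < k) : Bounded k q ↔ 3 * q < k := by
  refine ⟨?_, lower k q hq⟩
  rintro ⟨h, -, hh⟩
  by_contra hk
  obtain ⟨a, h1, h2, h3⟩ := hh (4 * (q * h) + 4 * (q * h) ^ 2)
  have := upper k q hq hqk (by omega) a h1
  rw [h2] at this
  omega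

end Pool.Agent.H24.Flip2
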