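import Mathlib
import Pool.Agent.H34.TreeRoot

namespace Pool.Agent.H24.Frag1
open Finset

variable {V : Type} [DecidableEq V]

/-- abstract elimination structure on a vertex set `C` -/
structure Elim (G : SimpleGraph V) (C : Set V) (f : ℕ) (B : V → Set V) (D : V → ℕ)
    (R : V → V → Prop) : Prop where
  self : ∀ v ∈ C, v ∈ B v
  up : ∀ u ∈ C, ∀ v ∈ C, R u v → D u ≤ D v → u ∈ B v
  cl : ∀ v ∈ C, ∀ u w, u ∈ B v → w ∈ B v → R u w
  edge : ∀ u ∈ C, ∀ v ∈ C, G.Adj u v → R u v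
  small : ∀ v ∈ C, ∀ s : Finset V, (∀ x ∈ s, x ∈ B v) → G.IsIndepSet s → s.card ≤ f
  symm : ∀ u v, R u v → R v u

variable {G : SimpleGraph V} {C : Set V} {f : ℕ} {B : V → Set V} {D : V → ℕ} {R : V → V → Prop}

theorem greedy (h : Elim G C f B D R) (n : ℕ) : ∀ I : Finset V, I.card = n → (∀ a ∈ I, a ∈ C) →
    G.IsIndepSet I → ∃ I' ⊆ I, (∀ a ∈ I', ∀ b ∈ I', R a b → a = b) ∧ I.card ≤ f * I'.card := by
  classical
  induction n using Nat.strong_induction_on with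
  | _ n ih =>
    intro I hn hC hI
    rcases I.eq_empty_or_nonempty with rfl | hne
    · exact ⟨∅, by simp, by simp, by simp⟩
    obtain ⟨m, hm, hmax⟩ := I.exists_max_image D hne
    have hsm : (I.filter (· ∈ B m)).card ≤ f :=
      h.small m (hC m hm) _ (fun x hx => (mem_filter.1 hx).2)
        (hI.mono (by intro x hx; exact (mem_filter.1 hx).1))
    have hsplit := card_filter_add_card_filter_not (s := I) (· ∈ B m)
    have hpos : 0 < (I.filter (· ∈ B m)).card :=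
      card_pos.2 ⟨m, mem_filter.2 ⟨hm, h.self m (hC m hm)⟩⟩
    obtain ⟨I', hsub, hind, hcard⟩ := ih (I.filter (fun x => ¬ x ∈ B m)).card (by omega) _ rfl
      (fun a ha => hC a (mem_filter.1 ha).1)
      (hI.mono (by intro x hx; exact (mem_filter.1 hx).1))
    have hmI : m ∉ I' := fun hh => (mem_filter.1 (hsub hh)).2 (h.self m (hC m hm))
    have key : ∀ a ∈ I', ¬ R a m := fun a ha hr =>
      (mem_filter.1 (hsub ha)).2 (h.up a (hC a (mem_filter.1 (hsub ha)).1) m (hC m hm) hr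
        (hmax a (mem_filter.1 (hsub ha)).1))
    refine ⟨insert m I', ?_, ?_, ?_⟩
    · intro x hx
      rcases mem_insert.1 hx with rfl | hx
      · exact hm
      · exact (mem_filter.1 (hsub hx)).1
    · intro a ha b hb hr
      rcases mem_insert.1 ha with ha1 | ha1 <;> rcases mem_insert.1 hb with hb1 | hb1
      · rw [ha1, hb1]
      · rw [ha1] at hr; exact absurd (h.symm _ _ hr) (key b hb1)
      · rw [hb1] at hr; exact absurd hr (key a ha1)
      · exact hind a ha1 b hb1 hr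
    · rw [card_insert_of_notMem hmI, mul_add]
      omega

theorem expand (h : Elim G C f B D R) (I : Finset V) (hC : ∀ a ∈ I, a ∈ C)
    (hI : ∀ a ∈ I, ∀ b ∈ I, R a b → a = b) (N : V → Finset V) (k : ℕ)
    (hNC : ∀ a ∈ I, ∀ b ∈ N a, b ∈ C) (hNA : ∀ a ∈ I, ∀ b ∈ N a, G.Adj a b)
    (hNI : ∀ a ∈ I, G.IsIndepSet (N a)) (hk : ∀ a ∈ I, k ≤ (N a).card) :
    ∃ S : Finset V, (∀ b ∈ S, ∃ a ∈ I, b ∈ N a) ∧ G.IsIndepSet S ∧
      I.card * k ≤ S.card + 2 * f * I.card := by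
  classical
  set J : V → Finset V := fun a => (N a).filter (fun b => b ∉ B a) with hJ
  have hJc : ∀ a ∈ I, k ≤ (J a).card + f := by
    intro a ha
    have h1 := card_filter_add_card_filter_not (s := N a) (· ∈ B a)
    have h2 : ((N a).filter (· ∈ B a)).card ≤ f :=
      h.small a (hC a ha) _ (fun x hx => (mem_filter.1 hx).2)
        ((hNI a ha).mono (by intro x hx; exact (mem_filter.1 hx).1))
    have h3 := hk a ha
    have h4 : (J a).card = ((N a).filter (fun b => ¬ b ∈ B a)).card := rfl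
    omega
  have hJN : ∀ a, ∀ b ∈ J a, b ∈ N a := fun a b hb => (mem_filter.1 hb).1
  have hlt : ∀ a ∈ I, ∀ b ∈ J a, D a < D b := by
    intro a ha b hb
    by_contra hh
    exact (mem_filter.1 hb).2 (h.up b (hNC a ha b (hJN a b hb)) a (hC a ha)
      (h.symm _ _ (h.edge a (hC a ha) b (hNC a ha b (hJN a b hb)) (hNA a ha b (hJN a b hb))))
      (by omega))
  have hin : ∀ a ∈ I, ∀ b ∈ J a, a ∈ B b := fun a ha b hb =>
    h.up a (hC a ha) b (hNC a ha b (hJN a b hb))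
      (h.edge a (hC a ha) b (hNC a ha b (hJN a b hb)) (hNA a ha b (hJN a b hb))) (hlt a ha b hb).le
  have hA : ∀ a ∈ I, ∀ b ∈ J a, ∀ a' ∈ I, a' ≠ a → R b a' → b ∈ B a' ∧ D b < D a' := by
    intro a ha b hb a' ha' hne hr
    have hbC := hNC a ha b (hJN a b hb)
    have h1 : D b < D a' := by
      by_contra hh
      have := h.up a' (hC a' ha') b hbC (h.symm _ _ hr) (by omega)
      exact hne (hI a' ha' a ha (h.cl b hbC _ _ this (hin a ha b hb)))
    exact ⟨h.up b hbC a' (hC a' ha') hr h1.le, h1⟩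
  have hdisj : ∀ a ∈ I, ∀ a' ∈ I, ∀ b, b ∈ J a → b ∈ J a' → a = a' := fun a ha a' ha' b hb hb' =>
    hI a ha a' ha' (h.cl b (hNC a ha b (hJN a b hb)) _ _ (hin a ha b hb) (hin a' ha' b hb'))
  set U := I.biUnion J with hU
  have hUc : I.card * k ≤ U.card + f * I.card := by
    rw [hU, card_biUnion (fun a ha a' ha' hne => disjoint_left.2 fun b hb hb' =>
      hne (hdisj a ha a' ha' b hb hb'))]
    calc I.card * k = ∑ _a ∈ I, k := by simp
      _ ≤ ∑ a ∈ I, ((J a).card + f) := sum_le_sum hJc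
      _ = _ := by rw [sum_add_distrib]; simp [mul_comm]
  let bad : V → Prop := fun b => ∃ a' ∈ I, b ∉ J a' ∧ b ∈ B a'
  have hsplit := card_filter_add_card_filter_not (s := U) bad
  -- two vertices of different groups
  have hcross : ∀ a ∈ I, ∀ a' ∈ I, a ≠ a' → ∀ b ∈ J a, ∀ b' ∈ J a', R b b' → D b ≤ D b' →
      b ∉ J a' ∧ b ∈ B a' := by
    intro a ha a' ha' hne b hb b' hb' hr hd
    have hb'C := hNC a' ha' b' (hJN a' b' hb')
    have h1 := h.up b (hNC a ha b (hJN a b hb)) b' hb'C hr hd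
    have h2 := h.cl b' hb'C _ _ h1 (hin a' ha' b' hb')
    exact ⟨fun hh => hne (hdisj a ha a' ha' b hb hh), (hA a ha b hb a' ha' hne.symm h2).1⟩
  have hbad : (U.filter bad).card ≤ f * I.card := by
    have hex : ∀ b, bad b → ∃ a' ∈ I, (b ∉ J a' ∧ b ∈ B a') ∧
        ∀ a'' ∈ I, b ∉ J a'' → b ∈ B a'' → D a' ≤ D a'' := by
      intro b ⟨a0, h0, h1⟩
      obtain ⟨m, hm, hmin⟩ := (I.filter (fun a => b ∉ J a ∧ b ∈ B a)).exists_min_image D
        ⟨a0, mem_filter.2 ⟨h0, h1⟩⟩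
      exact ⟨m, (mem_filter.1 hm).1, (mem_filter.1 hm).2,
        fun a'' h2 h3 h4 => hmin a'' (mem_filter.2 ⟨h2, h3, h4⟩)⟩
    have hsub : U.filter bad ⊆ I.biUnion (fun a' => U.filter (fun b => (b ∉ J a' ∧ b ∈ B a') ∧
        ∀ a'' ∈ I, b ∉ J a'' → b ∈ B a'' → D a' ≤ D a'')) := by
      intro b hb
      obtain ⟨a', h1, h2⟩ := hex b (mem_filter.1 hb).2
      exact mem_biUnion.2 ⟨a', h1, mem_filter.2 ⟨(mem_filter.1 hb).1, h2⟩⟩
    refine (card_le_card hsub).trans (card_biUnion_le.trans ?_)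
    rw [mul_comm, ← smul_eq_mul, ← sum_const]
    refine sum_le_sum fun a' ha' => h.small a' (hC a' ha') _
      (fun x hx => (mem_filter.1 hx).2.1.2) ?_
    have key : ∀ b1 b2 a1 a2, a1 ∈ I → a2 ∈ I → b1 ∈ J a1 → b2 ∈ J a2 → a1 ≠ a2 →
        b1 ∈ B a' → b2 ∉ J a' → b2 ∈ B a' →
        (∀ a'' ∈ I, b1 ∉ J a'' → b1 ∈ B a'' → D a' ≤ D a'') → D b1 ≤ D b2 → False := by
      intro b1 b2 a1 a2 h1 h2 h3 h4 hne h5 h6 h7 h8 hd
      have c1 := hcross a1 h1 a2 h2 hne b1 h3 b2 h4 (h.cl a' (hC a' ha') _ _ h5 h7) hd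
      have c2 := h8 a2 h2 c1.1 c1.2
      have c3 := hlt a2 h2 b2 h4
      have c4 := (hA a2 h2 b2 h4 a' ha' (fun e => h6 (e ▸ h4))
        (h.cl a' (hC a' ha') _ _ h7 (h.self a' (hC a' ha')))).2
      omega
    intro b1 hb1 b2 hb2 hne hadj
    obtain ⟨hb1U, ⟨p1, p2⟩, p3⟩ := mem_filter.1 hb1
    obtain ⟨hb2U, ⟨q1, q2⟩, q3⟩ := mem_filter.1 hb2
    obtain ⟨a1, ha1, hj1⟩ := mem_biUnion.1 hb1U
    obtain ⟨a2, ha2, hj2⟩ := mem_biUnion.1 hb2U
    by_cases e : a1 = a2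
    · subst e
      exact hNI a1 ha1 (hJN _ _ hj1) (hJN _ _ hj2) hne hadj
    · rcases le_total (D b1) (D b2) with hd | hd
      · exact key b1 b2 a1 a2 ha1 ha2 hj1 hj2 e p2 q1 q2 p3 hd
      · exact key b2 b1 a2 a1 ha2 ha1 hj2 hj1 (Ne.symm e) q2 p1 p2 q3 hd
  refine ⟨U.filter (fun b => ¬ bad b), ?_, ?_, by rw [mul_assoc]; omega⟩
  · intro b hb
    obtain ⟨a, ha, hj⟩ := mem_biUnion.1 (mem_filter.1 hb).1
    exact ⟨a, ha, hJN a b hj⟩
  · intro b1 hb1 b2 hb2 hne hadj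
    obtain ⟨hb1U, p⟩ := mem_filter.1 hb1
    obtain ⟨hb2U, q⟩ := mem_filter.1 hb2
    obtain ⟨a1, ha1, hj1⟩ := mem_biUnion.1 hb1U
    obtain ⟨a2, ha2, hj2⟩ := mem_biUnion.1 hb2U
    by_cases e : a1 = a2
    · subst e
      exact hNI a1 ha1 (hJN _ _ hj1) (hJN _ _ hj2) hne hadj
    · have hr := h.edge b1 (hNC a1 ha1 b1 (hJN _ _ hj1)) b2 (hNC a2 ha2 b2 (hJN _ _ hj2)) hadj
      rcases le_total (D b1) (D b2) with hd | hd
      · exact p ⟨a2, ha2, hcross a1 ha1 a2 ha2 e b1 hj1 b2 hj2 hr hd⟩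
      · exact q ⟨a1, ha1, hcross a2 ha2 a1 ha1 (Ne.symm e) b2 hj2 b1 hj1 (h.symm _ _ hr) hd⟩

open Pool.Agent.H34.TreeAlphaDefs Pool.Agent.H34.TreeRoot in
theorem exists_elim [Finite V] (G : SimpleGraph V) (C : Set V) (f : ℕ)
    (hf : treeAlpha (G.induce C) ≤ f) : ∃ B D R, Elim G C f B D R := by
  classical
  have hne : {k : ℕ | ∃ (N : Type) (_ : Finite N) (T : SimpleGraph N) (X : N → Set C),
      IsTreeDecomp (G.induce C) T X ∧ ∀ t, ((G.induce C).induce (X t)).indepNum ≤ k}.Nonempty :=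
    ⟨_, Unit, inferInstance, ⊥, _, trivial_decomp _, fun _ => le_rfl⟩
  obtain ⟨N, _, T, X, h, hX⟩ := Nat.sInf_mem hne
  obtain ⟨r⟩ := h.tree.connected.nonempty
  have : ∀ v, ∃ t, v ∈ X t ∧ ∀ s, v ∈ X s → T.dist r t ≤ T.dist r s := by
    intro v
    obtain ⟨t, ht, hm⟩ := (measure (T.dist r)).wf.has_min {t | v ∈ X t} (h.cover v)
    exact ⟨t, ht, fun s hs => not_lt.1 (hm s hs)⟩
  choose top h1 h2 using this
  let tp : V → N := fun v => if hv : v ∈ C then top ⟨v, hv⟩ else r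
  have htp : ∀ v (hv : v ∈ C), tp v = top ⟨v, hv⟩ := fun v hv => dif_pos hv
  refine ⟨fun v => Subtype.val '' X (tp v), fun v => T.dist r (tp v),
    fun u v => ∃ t, u ∈ Subtype.val '' X t ∧ v ∈ Subtype.val '' X t, ?_, ?_, ?_, ?_, ?_, ?_⟩
  · intro v hv
    exact ⟨⟨v, hv⟩, by rw [htp v hv]; exact h1 _, rfl⟩
  · rintro u hu v hv ⟨t, ⟨u', hu', rfl⟩, ⟨v', hv', rfl⟩⟩ hd
    refine ⟨u', ?_, rfl⟩
    simp only [htp _ hu, htp _ hv] at hd ⊢
    exact top_mem (S1 := {t | v' ∈ X t}) (S2 := {t | u' ∈ X t}) h.tree r (h.conn v').preconnected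
      (h.conn u').preconnected (h1 v') (h1 u') (h2 v') (h2 u') hd hv' hu'
  · intro v _ u w hu hw
    exact ⟨_, hu, hw⟩
  · intro u hu v hv huv
    obtain ⟨t, a, b⟩ := h.edge ⟨u, hu⟩ ⟨v, hv⟩ huv
    exact ⟨t, ⟨_, a, rfl⟩, ⟨_, b, rfl⟩⟩
  · intro v _ s hs hi
    have h3 := (indepNum_induce_le_iff (G.induce C) (X (tp v)) f).1 ((hX _).trans hf)
      (s.subtype (· ∈ C)) (by
        intro x hx
        obtain ⟨y, hy, e⟩ := hs x.1 (by simpa using hx)
        rwa [← Subtype.ext e]) (by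
        intro a ha b hb hab
        simp only [Finset.mem_coe, Finset.mem_subtype] at ha hb
        exact hi ha hb fun e => hab (Subtype.ext e))
    rwa [Finset.card_subtype, Finset.filter_true_of_mem fun x hx => by
      obtain ⟨y, -, e⟩ := hs x hx
      exact e ▸ y.2] at h3
  · rintro u v ⟨t, a, b⟩
    exact ⟨t, b, a⟩

end Pool.Agent.H24.Frag1
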