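import Mathlib
import Pool.Agent.H34.TreeAlphaDefs

namespace Pool.Agent.H24.FragDefs
open Pool.Agent.H34.TreeAlphaDefs

/-- A `β`-general cover: a nonempty multiset `𝒞` of vertex sets such that every vertex lies in at
least `β |𝒞|` members (counted with multiplicity). -/
def IsGeneralCover {V : Type} (β : ℝ) (𝒞 : Multiset (Set V)) : Prop :=
  𝒞 ≠ 0 ∧ ∀ v : V, β * (Multiset.card 𝒞 : ℝ) ≤
    (Multiset.card (@Multiset.filter _ (fun C => v ∈ C) (Classical.decPred _) 𝒞) : ℝ)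

/-- `G` has a `β`-general cover of tree-`α`-width at most `w`. -/
def HasCover {V : Type} (G : SimpleGraph V) (β : ℝ) (w : ℕ) : Prop :=
  ∃ 𝒞 : Multiset (Set V), IsGeneralCover β 𝒞 ∧ ∀ C ∈ 𝒞, treeAlpha (G.induce C) ≤ w

/-- A class of finite graphs (graphs on `Fin n`) is fractionally tree-`α`-fragile. -/
def Fragile (𝒢 : Set (Σ n : ℕ, SimpleGraph (Fin n))) : Prop :=
  ∃ f : ℕ → ℕ, ∀ r : ℕ, 1 ≤ r → ∀ G ∈ 𝒢, HasCover G.2 (1 - 1 / (r : ℝ)) (f r)

/-- `ideg G ≤ k`: every nonnull induced subgraph `H = G[S]` has a vertex `v` with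
`α(H[N_H(v)]) ≤ k`. -/
def IdegLe {V : Type} (G : SimpleGraph V) (k : ℕ) : Prop :=
  ∀ S : Set V, S.Nonempty →
    ∃ v : S, ((G.induce S).induce ((G.induce S).neighborSet v)).indepNum ≤ k

end Pool.Agent.H24.FragDefs
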