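import Mathlib
import Pool.Agent.H24.Frag1
import Pool.Agent.H24.FragDefs

namespace Pool.Agent.H24.Frag2
open Finset Pool.Agent.H24.Frag1 Pool.Agent.H24.FragDefs

theorem swap {V : Type} (𝒞 : Multiset (Set V)) (s : Finset V) :
    (𝒞.map (fun C => (@Finset.filter _ (fun v => v ∉ C) (Classical.decPred _) s).card)).sum +
      ∑ v ∈ s, Multiset.card (@Multiset.filter _ (fun C => v ∈ C) (Classical.decPred _) 𝒞) =
      s.card * Multiset.card 𝒞 := by
  classical
  induction 𝒞 using Multiset.induction_on with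
  | empty => simp
  | cons C 𝒞 ih =>
    have h1 : ∀ v, Multiset.card (@Multiset.filter _ (fun C => v ∈ C) (Classical.decPred _)
        (C ::ₘ 𝒞)) = (if v ∈ C then 1 else 0) +
        Multiset.card (@Multiset.filter _ (fun C => v ∈ C) (Classical.decPred _) 𝒞) := by
      intro v
      by_cases hv : v ∈ C
      · rw [@Multiset.filter_cons_of_pos _ (fun C => v ∈ C) (Classical.decPred _) C 𝒞 hv, Multiset.card_cons, if_pos hv, add_comm]
      · rw [@Multiset.filter_cons_of_neg _ (fun C => v ∈ C) (Classical.decPred _) C 𝒞 hv, if_neg hv, zero_add]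
    simp only [h1, Multiset.map_cons, Multiset.sum_cons, sum_add_distrib, Multiset.card_cons,
      mul_add, mul_one]
    rw [← ih, ← card_filter]
    have h2 := card_filter_add_card_filter_not (s := s) (fun v => v ∈ C)
    have h3 : (@Finset.filter _ (fun v => v ∉ C) (Classical.decPred _) s).card =
        (s.filter (fun v => ¬ v ∈ C)).card := by congr
    omega

theorem miss {V : Type} {𝒞 : Multiset (Set V)} (h : IsGeneralCover (1 - 1 / ((4 : ℕ) : ℝ)) 𝒞)
    (s : Finset V) :
    4 * (𝒞.map (fun C => (@Finset.filter _ (fun v => v ∉ C) (Classical.decPred _) s).card)).sum ≤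
      s.card * Multiset.card 𝒞 := by
  have h1 := swap 𝒞 s
  have h2 : ∀ v ∈ s, 3 * Multiset.card 𝒞 ≤
      4 * Multiset.card (@Multiset.filter _ (fun C => v ∈ C) (Classical.decPred _) 𝒞) := by
    intro v _
    have := h.2 v
    have h3 : (3 : ℝ) * (Multiset.card 𝒞 : ℝ) ≤ 4 * (Multiset.card
      (@Multiset.filter _ (fun C => v ∈ C) (Classical.decPred _) 𝒞) : ℝ) := by
      push_cast at this; linarith
    exact_mod_cast h3
  have h3 := sum_le_sum h2
  rw [← mul_sum, ← mul_sum, sum_const, smul_eq_mul] at h3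
  omega

theorem sum_swap {V α : Type} (𝒞 : Multiset α) (I : Finset V) (g : α → V → ℕ) :
    (𝒞.map (fun C => ∑ a ∈ I, g C a)).sum = ∑ a ∈ I, (𝒞.map (fun C => g C a)).sum := by
  induction 𝒞 using Multiset.induction_on with
  | empty => simp
  | cons C 𝒞 ih => simp [ih, sum_add_distrib]

theorem main {V : Type} [Finite V] (G : SimpleGraph V) (w : ℕ)
    (h : HasCover G (1 - 1 / ((4 : ℕ) : ℝ)) w) : IdegLe G (12 * w) := by
  classical
  have := Fintype.ofFinite V
  obtain ⟨𝒞, hcov, hw⟩ := h
  intro S hS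
  by_contra hcon
  push Not at hcon
  have hN : ∀ v, ∃ s : Finset V, v ∈ S → (∀ b ∈ s, b ∈ S) ∧ (∀ b ∈ s, G.Adj v b) ∧
      G.IsIndepSet s ∧ s.card = 12 * w + 1 := by
    intro v
    by_cases hv : v ∈ S
    · have h1 := hcon ⟨v, hv⟩
      rw [← not_le, Pool.Agent.H34.TreeRoot.indepNum_induce_le_iff] at h1
      push Not at h1
      obtain ⟨s, h2, h3, h4⟩ := h1
      obtain ⟨t, ht, htc⟩ := exists_subset_card_eq (s := s) (n := 12 * w + 1) h4
      refine ⟨t.map (Function.Embedding.subtype _), fun _ => ⟨?_, ?_, ?_, by rw [card_map, htc]⟩⟩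
      · intro b hb
        obtain ⟨y, -, rfl⟩ := mem_map.1 hb
        exact y.2
      · intro b hb
        obtain ⟨y, hy, rfl⟩ := mem_map.1 hb
        exact h2 (ht hy)
      · intro a ha b hb hab
        obtain ⟨x, hx, rfl⟩ := mem_map.1 ha
        obtain ⟨y, hy, rfl⟩ := mem_map.1 hb
        exact h3 (ht hx) (ht hy) fun e => hab (by rw [e])
    · exact ⟨∅, fun h => absurd h hv⟩
  choose N hN using hN
  obtain ⟨v0, hv0⟩ := hS
  obtain ⟨I, hI, hmax⟩ := (univ.filter (fun I : Finset V => (∀ a ∈ I, a ∈ S) ∧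
    G.IsIndepSet I)).exists_max_image card ⟨∅, by simp⟩
  obtain ⟨hIS, hII⟩ := (mem_filter.1 hI).2
  have hIpos : 1 ≤ I.card := by
    have := hmax {v0} (by simp [hv0])
    simpa using this
  let good : Set V → Finset V := fun C => I.filter (fun a => a ∈ C ∧
    6 * w + 1 ≤ ((N a).filter (· ∈ C)).card)
  have hpt : ∀ C : Set V, (12 * w + 1) * (I.card - (good C).card) ≤
      (12 * w + 1) * (@Finset.filter _ (fun v => v ∉ C) (Classical.decPred _) I).card +
      2 * ∑ a ∈ I, (@Finset.filter _ (fun v => v ∉ C) (Classical.decPred _) (N a)).card := by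
    intro C
    have e1 : I.card - (good C).card = ∑ a ∈ I, if (a ∈ C ∧
        6 * w + 1 ≤ ((N a).filter (· ∈ C)).card) then 0 else 1 := by
      have h1 := card_filter_add_card_filter_not (s := I) (fun a => a ∈ C ∧
        6 * w + 1 ≤ ((N a).filter (· ∈ C)).card)
      have h2 : (∑ a ∈ I, if (a ∈ C ∧ 6 * w + 1 ≤ ((N a).filter (· ∈ C)).card) then 0 else 1) =
          (I.filter (fun a => ¬ (a ∈ C ∧ 6 * w + 1 ≤ ((N a).filter (· ∈ C)).card))).card := by
        rw [card_filter]
        exact sum_congr rfl fun a _ => by split_ifs <;> rfl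
      rw [h2]
      simp only [good]
      omega
    rw [e1, card_filter, mul_sum, mul_sum, mul_sum, ← sum_add_distrib]
    refine sum_le_sum fun a ha => ?_
    have h1 := card_filter_add_card_filter_not (s := N a) (fun v => v ∈ C)
    have h2 := (hN a (hIS a ha)).2.2.2
    have h3 : (@Finset.filter _ (fun v => v ∉ C) (Classical.decPred _) (N a)).card =
        ((N a).filter (fun v => ¬ v ∈ C)).card := by congr
    rw [h3]
    by_cases h4 : a ∈ C
    · by_cases h5 : 6 * w + 1 ≤ ((N a).filter (· ∈ C)).card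
      · simp [h4, h5]
      · simp only [h4, h5, and_false, if_false, not_true, mul_one, mul_zero]
        omega
    · simp [h4]
  have hex : ∃ C ∈ 𝒞, I.card ≤ 4 * (good C).card := by
    by_contra hh
    push Not at hh
    have a1 := miss hcov I
    have a2 : 4 * ∑ a ∈ I, (𝒞.map (fun C => (@Finset.filter _ (fun v => v ∉ C)
        (Classical.decPred _) (N a)).card)).sum ≤ I.card * ((12 * w + 1) * Multiset.card 𝒞) := by
      rw [mul_sum, ← smul_eq_mul, ← sum_const]
      refine sum_le_sum fun a ha => ?_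
      have := miss hcov (N a)
      rwa [(hN a (hIS a ha)).2.2.2] at this
    rw [← sum_swap] at a2
    have a3 := Multiset.sum_map_le_sum_map (s := 𝒞) _ _ (fun C _ => hpt C)
    rw [Multiset.sum_map_add, Multiset.sum_map_mul_left, Multiset.sum_map_mul_left,
      Multiset.sum_map_mul_left] at a3
    have a4 : (𝒞.map (fun _ => 3 * I.card + 1)).sum ≤
        (𝒞.map (fun C => 4 * (I.card - (good C).card))).sum :=
      Multiset.sum_map_le_sum_map _ _ fun C hC => by
        have := hh C hC
        omega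
    rw [Multiset.sum_map_mul_left, Multiset.map_const', Multiset.sum_replicate, smul_eq_mul] at a4
    have a5 : 1 ≤ Multiset.card 𝒞 := Multiset.card_pos.2 hcov.1
    nlinarith
  obtain ⟨C, hC, hgood⟩ := hex
  obtain ⟨B, D, R, hE⟩ := exists_elim G C w (hw C hC)
  obtain ⟨I', hsub, hind, hcard⟩ := greedy hE _ (good C) rfl
    (fun a ha => (mem_filter.1 ha).2.1) (hII.mono (by intro x hx; exact (mem_filter.1 hx).1))
  have hI'S : ∀ a ∈ I', a ∈ S := fun a ha => hIS a (mem_filter.1 (hsub ha)).1
  obtain ⟨T, hT1, hT2, hT3⟩ := expand hE I' (fun a ha => (mem_filter.1 (hsub ha)).2.1) hind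
    (fun a => (N a).filter (· ∈ C)) (6 * w + 1) (fun a _ b hb => (mem_filter.1 hb).2)
    (fun a ha b hb => (hN a (hI'S a ha)).2.1 b (mem_filter.1 hb).1)
    (fun a ha => (hN a (hI'S a ha)).2.2.1.mono (by intro x hx; exact (mem_filter.1 hx).1))
    (fun a ha => (mem_filter.1 (hsub ha)).2.2)
  have hT4 := hmax T (mem_filter.2 ⟨mem_univ _, fun b hb => by
    obtain ⟨a, ha, hb'⟩ := hT1 b hb
    exact (hN a (hI'S a ha)).1 b (mem_filter.1 hb').1, hT2⟩)
  have hpos : 1 ≤ I'.card := by
    by_contra hh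
    have : I'.card = 0 := by omega
    rw [this] at hcard
    omega
  nlinarith

end Pool.Agent.H24.Frag2
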