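import Pool.Agent.H24.IRDefs

set_option autoImplicit false

namespace Pool.Agent.H24.IR

theorem equiv_of {m n k : ℕ} (irr : Finset (Fin m) → Prop) (X : Fin (n + 1) → Finset (Fin m))
    (hinj : Function.Injective X) (hX : ∀ i, irr (X i) ∧ (X i).card = k)
    (hall : ∀ S, irr S → S.card ≤ k ∧ (S.card = k → ∃ i, S = X i)) :
    ∃ e : Fin (n + 1) ≃ {S : Finset (Fin m) // irr S ∧ ∀ T, irr T → T.card ≤ S.card},
      ∀ i, (e i).1 = X i := by
  let f : Fin (n + 1) → {S : Finset (Fin m) // irr S ∧ ∀ T, irr T → T.card ≤ S.card} :=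
    fun i => ⟨X i, (hX i).1, fun T hT => by rw [(hX i).2]; exact (hall T hT).1⟩
  have hb : Function.Bijective f := by
    constructor
    · intro i j h
      exact hinj (congrArg Subtype.val h)
    · rintro ⟨S, h1, h2⟩
      have h3 := h2 (X 0) (hX 0).1
      rw [(hX 0).2] at h3
      obtain ⟨i, hi⟩ := (hall S h1).2 (le_antisymm (hall S h1).1 h3)
      exact ⟨i, Subtype.ext hi.symm⟩
  exact ⟨Equiv.ofBijective f hb, fun i => rfl⟩

theorem all_nine (P : Finset (Fin 9) → Prop)
    (h : ∀ b0 b1 b2 b3 b4 b5 b6 b7 b8 : Bool,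
      P (Finset.univ.filter fun v => ![b0, b1, b2, b3, b4, b5, b6, b7, b8] v = true)) :
    ∀ S, P S := by
  intro S
  have := h (decide (0 ∈ S)) (decide (1 ∈ S)) (decide (2 ∈ S)) (decide (3 ∈ S)) (decide (4 ∈ S))
    (decide (5 ∈ S)) (decide (6 ∈ S)) (decide (7 ∈ S)) (decide (8 ∈ S))
  convert this using 1
  ext v
  fin_cases v <;> simp

theorem Irredundant.mono {V : Type} [DecidableEq V] {G : SimpleGraph V} {S T : Finset V}
    (h : Irredundant G S) (hT : T ⊆ S) : Irredundant G T := by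
  intro v hv
  obtain ⟨w, h1, h2⟩ := h v (hT hv)
  exact ⟨w, h1, fun u hu => h2 u (hT hu)⟩

theorem sorted_three {m : ℕ} (S : Finset (Fin m)) (h : S.card = 3) :
    ∃ a b c, a < b ∧ b < c ∧ S = {a, b, c} := by
  let e := S.orderEmbOfFin h
  refine ⟨e 0, e 1, e 2, e.strictMono (by decide), e.strictMono (by decide), ?_⟩
  ext x
  have hr : x ∈ S ↔ x ∈ Set.range e := by
    rw [Finset.range_orderEmbOfFin]; rfl
  rw [hr]
  simp only [Set.mem_range, Finset.mem_insert, Finset.mem_singleton, Fin.exists_fin_succ,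
    Fin.exists_fin_zero, or_false]
  constructor
  · rintro (h | h | h) <;> simp [← h]
  · rintro (h | h | h) <;> simp [h]

theorem sorted_four {m : ℕ} (S : Finset (Fin m)) (h : S.card = 4) :
    ∃ a b c d, a < b ∧ b < c ∧ c < d ∧ S = {a, b, c, d} := by
  let e := S.orderEmbOfFin h
  refine ⟨e 0, e 1, e 2, e 3, e.strictMono (by decide), e.strictMono (by decide),
    e.strictMono (by decide), ?_⟩
  ext x
  have hr : x ∈ S ↔ x ∈ Set.range e := by
    rw [Finset.range_orderEmbOfFin]; rfl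
  rw [hr]
  simp only [Set.mem_range, Finset.mem_insert, Finset.mem_singleton, Fin.exists_fin_succ,
    Fin.exists_fin_zero, or_false]
  constructor
  · rintro (h | h | h | h) <;> simp [← h]
  · rintro (h | h | h | h) <;> simp [h]

theorem hall_three {m n : ℕ} (G : SimpleGraph (Fin m)) (X : Fin n → Finset (Fin m))
    (h4 : ∀ a b, a < b → ∀ c, b < c → ∀ d, c < d → ¬ Irredundant G {a, b, c, d})
    (h3 : ∀ a b, a < b → ∀ c, b < c → Irredundant G {a, b, c} → ∃ i, {a, b, c} = X i) :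
    ∀ S, Irredundant G S → S.card ≤ 3 ∧ (S.card = 3 → ∃ i, S = X i) := by
  intro S hS
  constructor
  · by_contra hc
    obtain ⟨T, hT, hc⟩ := Finset.exists_subset_card_eq (show 4 ≤ S.card by omega)
    obtain ⟨a, b, c, d, h1, h2, h3, rfl⟩ := sorted_four T hc
    exact h4 a b h1 c h2 d h3 (hS.mono hT)
  · intro hc
    obtain ⟨a, b, c, h1, h2, rfl⟩ := sorted_three S hc
    exact h3 a b h1 c h2 hS

theorem hall_three' {m n : ℕ} (G : SimpleGraph (Fin m)) (X : Fin n → Finset (Fin m))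
    (nb : Fin m → ℕ) (hnb : ∀ a w, (nb a).testBit w.val = true ↔ (w = a ∨ G.Adj a w))
    (h4 : ∀ a b, a < b → ∀ c, b < c → ∀ d, c < d →
      (Nat.ldiff (nb a) (nb b ||| nb c ||| nb d) = 0 ∨ Nat.ldiff (nb b) (nb a ||| nb c ||| nb d) = 0 ∨
       Nat.ldiff (nb c) (nb a ||| nb b ||| nb d) = 0 ∨ Nat.ldiff (nb d) (nb a ||| nb b ||| nb c) = 0))
    (h3 : ∀ a b, a < b → ∀ c, b < c →
      (Nat.ldiff (nb a) (nb b ||| nb c) = 0 ∨ Nat.ldiff (nb b) (nb a ||| nb c) = 0 ∨
       Nat.ldiff (nb c) (nb a ||| nb b) = 0) ∨ ∃ i, {a, b, c} = X i) :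
    ∀ S, Irredundant G S → S.card ≤ 3 ∧ (S.card = 3 → ∃ i, S = X i) := by
  have key : ∀ (S : Finset (Fin m)), Irredundant G S → ∀ a ∈ S, ∀ k : ℕ,
      (∀ w : Fin m, k.testBit w.val = true → ∃ u ∈ S, u ≠ a ∧ (nb u).testBit w.val = true) →
      Nat.ldiff (nb a) k ≠ 0 := by
    intro S hS a ha k hk h0
    obtain ⟨w, h1, h2⟩ := hS a ha
    have h3 : (Nat.ldiff (nb a) k).testBit w.val = false := by rw [h0]; simp
    rw [Nat.testBit_ldiff, (hnb a w).2 h1] at h3
    obtain ⟨u, hu, hne, hb⟩ := hk w (by simpa using h3)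
    exact h2 u hu hne ((hnb u w).1 hb)
  apply hall_three
  · intro a b hab c hbc d hcd hS
    have hac := hab.trans hbc
    have hbd := hbc.trans hcd
    have had := hac.trans hcd
    rcases h4 a b hab c hbc d hcd with h | h | h | h
    · refine key _ hS a (by simp) _ (fun w hw => ?_) h
      simp only [Nat.testBit_or, Bool.or_eq_true] at hw
      rcases hw with (hw | hw) | hw
      exacts [⟨b, by simp, hab.ne', hw⟩, ⟨c, by simp, hac.ne', hw⟩, ⟨d, by simp, had.ne', hw⟩]
    · refine key _ hS b (by simp) _ (fun w hw => ?_) h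
      simp only [Nat.testBit_or, Bool.or_eq_true] at hw
      rcases hw with (hw | hw) | hw
      exacts [⟨a, by simp, hab.ne, hw⟩, ⟨c, by simp, hbc.ne', hw⟩, ⟨d, by simp, hbd.ne', hw⟩]
    · refine key _ hS c (by simp) _ (fun w hw => ?_) h
      simp only [Nat.testBit_or, Bool.or_eq_true] at hw
      rcases hw with (hw | hw) | hw
      exacts [⟨a, by simp, hac.ne, hw⟩, ⟨b, by simp, hbc.ne, hw⟩, ⟨d, by simp, hcd.ne', hw⟩]
    · refine key _ hS d (by simp) _ (fun w hw => ?_) h
      simp only [Nat.testBit_or, Bool.or_eq_true] at hw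
      rcases hw with (hw | hw) | hw
      exacts [⟨a, by simp, had.ne, hw⟩, ⟨b, by simp, hbd.ne, hw⟩, ⟨c, by simp, hcd.ne, hw⟩]
  · intro a b hab c hbc hS
    have hac := hab.trans hbc
    rcases h3 a b hab c hbc with (h | h | h) | h
    · exfalso
      refine key _ hS a (by simp) _ (fun w hw => ?_) h
      simp only [Nat.testBit_or, Bool.or_eq_true] at hw
      rcases hw with hw | hw
      exacts [⟨b, by simp, hab.ne', hw⟩, ⟨c, by simp, hac.ne', hw⟩]
    · exfalso
      refine key _ hS b (by simp) _ (fun w hw => ?_) h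
      simp only [Nat.testBit_or, Bool.or_eq_true] at hw
      rcases hw with hw | hw
      exacts [⟨a, by simp, hab.ne, hw⟩, ⟨c, by simp, hbc.ne', hw⟩]
    · exfalso
      refine key _ hS c (by simp) _ (fun w hw => ?_) h
      simp only [Nat.testBit_or, Bool.or_eq_true] at hw
      rcases hw with hw | hw
      exacts [⟨a, by simp, hac.ne, hw⟩, ⟨b, by simp, hbc.ne, hw⟩]
    · exact h

/-- graph from a Boolean adjacency table -/
def ofB {m : ℕ} (f : Fin m → Fin m → Bool) : SimpleGraph (Fin m) where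
  Adj a b := a ≠ b ∧ (f a b = true ∨ f b a = true)
  symm := ⟨fun _ _ h => ⟨h.1.symm, h.2.symm⟩⟩
  loopless := ⟨fun _ h => h.1 rfl⟩

instance {m : ℕ} (f : Fin m → Fin m → Bool) : DecidableRel (ofB f).Adj :=
  fun a b => inferInstanceAs (Decidable (a ≠ b ∧ (f a b = true ∨ f b a = true)))

instance {m : ℕ} (G : SimpleGraph (Fin m)) [DecidableRel G.Adj] (D : Finset (Fin m)) :
    Decidable (Irredundant G D) := by
  unfold Irredundant; infer_instance

end Pool.Agent.H24.IR
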