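import Mathlib

set_option autoImplicit false

namespace Pool.Agent.H24.IR

variable {V : Type} [DecidableEq V]

/-- `D` is irredundant: every `v ∈ D` has a private neighbour `w` (`w = v` or `w ~ v`, and `w` is
neither equal nor adjacent to any other vertex of `D`). -/
def Irredundant (G : SimpleGraph V) (D : Finset V) : Prop :=
  ∀ v ∈ D, ∃ w, (w = v ∨ G.Adj v w) ∧ ∀ u ∈ D, u ≠ v → ¬ (w = u ∨ G.Adj u w)

/-- An `IR(G)`-set: an irredundant set of maximum size. -/
def IsIRSet (G : SimpleGraph V) (D : Finset V) : Prop :=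
  Irredundant G D ∧ ∀ T : Finset V, Irredundant G T → T.card ≤ D.card

/-- The (slide) IR-graph: `D ~ D'` iff `D'` arises from `D` by exchanging one vertex `u` for a
neighbour `v` of `u` in `G`. -/
def IRGraph (G : SimpleGraph V) : SimpleGraph {D : Finset V // IsIRSet G D} where
  Adj D E := ∃ u v, D.1 \ E.1 = {u} ∧ E.1 \ D.1 = {v} ∧ G.Adj u v
  symm := ⟨fun _ _ ⟨u, v, h1, h2, h3⟩ => ⟨v, u, h2, h1, h3.symm⟩⟩
  loopless := ⟨fun D ⟨u, _, h1, _, _⟩ => by
    rw [sdiff_self] at h1
    exact Finset.singleton_ne_empty u h1.symm⟩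

end Pool.Agent.H24.IR
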