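import Pool.Agent.H24.IR

set_option autoImplicit false

namespace Pool.Agent.H24.IR

variable {n : ℕ}

def orL (nb : Fin n → ℕ) : List (Fin n) → ℕ
  | [] => 0
  | u :: l => nb u ||| orL nb l

theorem testBit_orL (nb : Fin n → ℕ) (i : ℕ) : ∀ l : List (Fin n),
    (orL nb l).testBit i = true ↔ ∃ u ∈ l, (nb u).testBit i = true
  | [] => by simp [orL]
  | u :: l => by simp [orL, testBit_orL nb i l]

def irrB (nb : Fin n → ℕ) (l : List (Fin n)) : Bool :=
  l.all fun v => (nb v &&& orL nb (l.filter fun u => u != v)) != nb v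

theorem and_ne_iff (x y : ℕ) : x &&& y ≠ x ↔ ∃ i, x.testBit i = true ∧ y.testBit i = false := by
  constructor
  · intro h
    by_contra hc
    apply h
    apply Nat.eq_of_testBit_eq
    intro i
    rw [Nat.testBit_and]
    cases hx : x.testBit i
    · rfl
    · cases hy : y.testBit i
      · exact absurd ⟨i, hx, hy⟩ hc
      · rfl
  · rintro ⟨i, hx, hy⟩ h
    have := congrArg (fun z => z.testBit i) h
    simp [hx, hy] at this

theorem irrB_iff (G : SimpleGraph (Fin n)) (nb : Fin n → ℕ)
    (hnb : ∀ a w, (nb a).testBit w.val = true ↔ (w = a ∨ G.Adj a w)) (hb : ∀ a, nb a < 2 ^ n)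
    (l : List (Fin n)) : irrB nb l = true ↔ Irredundant G l.toFinset := by
  unfold irrB Irredundant
  simp only [List.all_eq_true, bne_iff_ne, List.mem_toFinset, and_ne_iff]
  refine forall_congr' fun v => forall_congr' fun hv => ?_
  constructor
  · rintro ⟨i, h1, h2⟩
    have hi : i < n := by
      by_contra hc
      have : (nb v).testBit i = false :=
        Nat.testBit_lt_two_pow (lt_of_lt_of_le (hb v) (Nat.pow_le_pow_right (by norm_num) (by omega)))
      rw [this] at h1
      exact absurd h1 (by simp)
    refine ⟨⟨i, hi⟩, (hnb v ⟨i, hi⟩).1 h1, fun u hu hne hw => ?_⟩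
    have : (orL nb (l.filter fun u => u != v)).testBit i = true :=
      (testBit_orL nb i _).2 ⟨u, List.mem_filter.2 ⟨hu, by simpa using hne⟩, (hnb u ⟨i, hi⟩).2 hw⟩
    rw [this] at h2
    exact absurd h2 (by simp)
  · rintro ⟨w, h1, h2⟩
    refine ⟨w.val, (hnb v w).2 h1, ?_⟩
    by_contra hc
    obtain ⟨u, hu, hw⟩ := (testBit_orL nb w.val _).1 (by simpa using hc)
    rw [List.mem_filter] at hu
    exact h2 u hu.1 (by simpa using hu.2) ((hnb u w).1 hw)

def extB (nb : Fin n → ℕ) (cur : List (Fin n)) : Bool :=
  (List.finRange n).any fun z => !(cur.contains z) && irrB nb (z :: cur)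

def allSuf (f : Fin n → List (Fin n) → Bool) : List (Fin n) → Bool
  | [] => true
  | v :: l => f v l && allSuf f l

def chk (nb : Fin n → ℕ) : ℕ → List (Fin n) → List (Fin n) → Bool
  | 0, cur, _ => !(irrB nb cur) || extB nb cur
  | k + 1, cur, rest => !(irrB nb cur) ||
      (extB nb cur && allSuf (fun v l => chk nb k (v :: cur) l) rest)

theorem chk_spec (G : SimpleGraph (Fin n)) (nb : Fin n → ℕ)
    (hnb : ∀ a w, (nb a).testBit w.val = true ↔ (w = a ∨ G.Adj a w)) (hb : ∀ a, nb a < 2 ^ n)
    (k : ℕ) : ∀ (cur rest : List (Fin n)), chk nb k cur rest = true →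
    ∀ S : Finset (Fin n), Irredundant G S → cur.toFinset ⊆ S → (∀ x ∈ S, x ∈ cur ∨ x ∈ rest) →
      (S \ cur.toFinset).card ≤ k → ∃ z, z ∉ S ∧ Irredundant G (insert z S) := by
  have hext : ∀ cur, extB nb cur = true →
      ∃ z, z ∉ cur.toFinset ∧ Irredundant G (insert z cur.toFinset) := by
    intro cur h
    unfold extB at h
    simp only [List.any_eq_true, Bool.and_eq_true] at h
    obtain ⟨z, -, h1, h2⟩ := h
    rw [irrB_iff G nb hnb hb, List.toFinset_cons] at h2
    exact ⟨z, by simpa using h1, h2⟩
  induction k with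
  | zero =>
    intro cur rest h S hS h1 _ h3
    have : S = cur.toFinset := by
      apply Finset.Subset.antisymm _ h1
      rw [← Finset.sdiff_eq_empty_iff_subset, ← Finset.card_eq_zero]
      omega
    subst this
    simp only [chk, (irrB_iff G nb hnb hb cur).2 hS, Bool.not_true, Bool.false_or] at h
    exact hext cur h
  | succ k ih =>
    intro cur rest h S hS h1 h2 h3
    simp only [chk, (irrB_iff G nb hnb hb cur).2 (hS.mono h1), Bool.not_true, Bool.false_or,
      Bool.and_eq_true] at h
    obtain ⟨he, h⟩ := h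
    induction rest with
    | nil =>
      have : S = cur.toFinset := by
        apply Finset.Subset.antisymm _ h1
        intro x hx
        simpa using h2 x hx
      subst this
      exact hext cur he
    | cons v l ihl =>
      simp only [allSuf, Bool.and_eq_true] at h
      by_cases hv : v ∈ S ∧ v ∉ cur
      · refine ih (v :: cur) l h.1 S hS ?_ ?_ ?_
        · rw [List.toFinset_cons]
          exact Finset.insert_subset hv.1 h1
        · intro x hx
          rcases h2 x hx with h | h
          · exact Or.inl (List.mem_cons_of_mem _ h)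
          · rcases List.mem_cons.1 h with h | h
            · exact Or.inl (h ▸ List.mem_cons_self)
            · exact Or.inr h
        · rw [List.toFinset_cons, Finset.sdiff_insert,
            Finset.card_erase_of_mem (Finset.mem_sdiff.2 ⟨hv.1, by simpa using hv.2⟩)]
          omega
      · refine ihl (fun x hx => ?_) h.2
        rcases h2 x hx with h | h
        · exact Or.inl h
        · rcases List.mem_cons.1 h with h | h
          · subst h
            left
            by_contra hc
            exact hv ⟨hx, hc⟩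
          · exact Or.inr h

theorem lt_lower (G : SimpleGraph (Fin n)) (nb : Fin n → ℕ)
    (hnb : ∀ a w, (nb a).testBit w.val = true ↔ (w = a ∨ G.Adj a w)) (hb : ∀ a, nb a < 2 ^ n)
    (k : ℕ) (h : chk nb k [] (List.finRange n) = true) :
    k < sInf {j : ℕ | ∃ S : Finset (Fin n), Maximal (Irredundant G) S ∧ S.card = j} := by
  have hne : {j : ℕ | ∃ S : Finset (Fin n), Maximal (Irredundant G) S ∧ S.card = j}.Nonempty := by
    obtain ⟨S, hS⟩ := Finite.exists_le_maximal (p := Irredundant G) (a := ∅)
      (fun v hv => absurd hv (by simp))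
    exact ⟨S.card, S, hS.2, rfl⟩
  obtain ⟨S, hS, hc⟩ := Nat.sInf_mem hne
  rw [← hc]
  by_contra hlt
  obtain ⟨z, hz, hI⟩ := chk_spec G nb hnb hb k [] _ h S hS.1 (by simp)
    (fun x _ => Or.inr (List.mem_finRange x)) (by simpa using hlt)
  exact hz (hS.2 hI (Finset.subset_insert z S) (Finset.mem_insert_self z S))

theorem lower_le (G : SimpleGraph (Fin n)) (nb : Fin n → ℕ)
    (hnb : ∀ a w, (nb a).testBit w.val = true ↔ (w = a ∨ G.Adj a w)) (hb : ∀ a, nb a < 2 ^ n)
    (l : List (Fin n)) (h1 : irrB nb l = true) (h2 : extB nb l = false) :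
    sInf {j : ℕ | ∃ S : Finset (Fin n), Maximal (Irredundant G) S ∧ S.card = j} ≤ l.length := by
  refine le_trans (Nat.sInf_le ⟨l.toFinset, ⟨(irrB_iff G nb hnb hb l).1 h1, ?_⟩, rfl⟩)
    (List.toFinset_card_le l)
  intro T hT hle z hz
  by_contra hc
  have : extB nb l = true := by
    unfold extB
    simp only [List.any_eq_true, Bool.and_eq_true]
    refine ⟨z, List.mem_finRange z, by simpa using hc, ?_⟩
    rw [irrB_iff G nb hnb hb, List.toFinset_cons]
    exact hT.mono (Finset.insert_subset hz hle)
  rw [this] at h2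
  exact absurd h2 (by simp)

end Pool.Agent.H24.IR
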