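import Mathlib

namespace Pool.Agent.H24.Imm

/-- `G` contains an immersion of `K_d`: `d` distinct corners joined pairwise by paths that are
pairwise edge-disjoint. -/
def HasImmersion {V : Type} (G : SimpleGraph V) (d : ℕ) : Prop :=
  ∃ c : Fin d → V, Function.Injective c ∧
    ∃ P : ∀ i j : Fin d, i < j → G.Walk (c i) (c j), (∀ i j h, (P i j h).IsPath) ∧
      ∀ i j h k l h', (i, j) ≠ (k, l) → List.Disjoint (P i j h).edges (P k l h').edges

end Pool.Agent.H24.Imm
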