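import Mathlib
import Pool.Agent.H24.ImmDefs

namespace Pool.Agent.H24.Imm

open SimpleGraph

theorem symmetrize {V : Type} {G : SimpleGraph V} {d : ℕ} {c : Fin d → V}
    (P : ∀ i j : Fin d, i < j → G.Walk (c i) (c j)) (h1 : ∀ i j h, (P i j h).IsPath)
    (h2 : ∀ i j h k l h', (i, j) ≠ (k, l) → List.Disjoint (P i j h).edges (P k l h').edges) :
    ∃ Q : ∀ i j : Fin d, G.Walk (c i) (c j), (∀ i j, (Q i j).IsPath) ∧
      (∀ i j e, e ∈ (Q i j).edges → e ∈ (Q j i).edges) ∧
      ∀ i j k l e, e ∈ (Q i j).edges → e ∈ (Q k l).edges → s(i, j) = s(k, l) := by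
  let Q : ∀ i j : Fin d, G.Walk (c i) (c j) := fun i j =>
    if h : i < j then P i j h else if h' : j < i then (P j i h').reverse else
      Walk.nil.copy rfl (congrArg c (le_antisymm (not_lt.1 h') (not_lt.1 h)))
  have hQ : ∀ i j e, e ∈ (Q i j).edges ↔
      (∃ h : i < j, e ∈ (P i j h).edges) ∨ ∃ h : j < i, e ∈ (P j i h).edges := by
    intro i j e
    simp only [Q]
    split_ifs with h h'
    · simp [h, h.not_gt]
    · simp [h, h']
    · simp [h, h']
  refine ⟨Q, fun i j => ?_, fun i j e h => ?_, fun i j k l e ha hb => ?_⟩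
  · simp only [Q]
    split_ifs with h h'
    · exact h1 _ _ _
    · exact (h1 _ _ _).reverse
    · simp
  · rw [hQ] at h ⊢
    exact h.symm
  · rw [hQ] at ha hb
    by_contra hne
    rcases ha with ⟨h, ha⟩ | ⟨h, ha⟩ <;> rcases hb with ⟨h', hb⟩ | ⟨h', hb⟩ <;>
      refine h2 _ _ h _ _ h' ?_ ha hb <;> intro e <;> apply hne <;>
      obtain ⟨rfl, rfl⟩ := Prod.mk.inj e <;> simp

theorem contract {V W : Type} {G : SimpleGraph V} {H : SimpleGraph W} (f : V → W) (g : W → V)
    (h : ∀ a b, G.Adj a b → f a = f b ∨ (H.Adj (f a) (f b) ∧ g (f a) = a ∧ g (f b) = b))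
    {u v : V} (p : G.Walk u v) :
    ∃ q : H.Walk (f u) (f v), q.IsPath ∧ ∀ e ∈ q.edges, e.map g ∈ p.edges := by
  classical
  have : ∃ q : H.Walk (f u) (f v), ∀ e ∈ q.edges, e.map g ∈ p.edges := by
    induction p with
    | nil => exact ⟨Walk.nil, by simp⟩
    | @cons a b c hab p ih =>
      obtain ⟨q, hq⟩ := ih
      rcases h a b hab with e | ⟨e1, e2, e3⟩
      · exact ⟨q.copy e.symm rfl, fun x hx => List.mem_cons_of_mem _ (hq x (by simpa using hx))⟩
      · refine ⟨Walk.cons e1 q, fun x hx => ?_⟩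
        rw [Walk.edges_cons, List.mem_cons] at hx ⊢
        rcases hx with rfl | hx
        · left; simp [e2, e3]
        · exact Or.inr (hq x hx)
  obtain ⟨q, hq⟩ := this
  exact ⟨q.bypass, q.bypass_isPath, fun e he => hq e (q.edges_bypass_subset_edges he)⟩

theorem edge_at {V : Type} {G : SimpleGraph V} {u v x : V} (p : G.Walk u v) (huv : u ≠ v)
    (hx : x ∈ p.support) : ∃ y, s(x, y) ∈ p.edges := by
  classical
  by_cases h : x = v
  · subst h
    have hn : ¬ p.reverse.Nil := Walk.not_nil_of_ne huv.symm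
    exact ⟨_, by simpa using Walk.mk_start_snd_mem_edges hn⟩
  · have hn : ¬ (p.dropUntil x hx).Nil := Walk.not_nil_of_ne h
    exact ⟨_, p.edges_dropUntil_subset_edges hx (Walk.mk_start_snd_mem_edges hn)⟩

theorem two_step {V : Type} {G : SimpleGraph V} {u v w : V} (p : G.Walk u v) (hp : p.IsPath)
    (huv : u ≠ v) (hn : ¬ G.Adj u v) (hw : s(v, w) ∈ p.edges) (hne : p.snd ≠ w) :
    ∃ z, s(p.snd, z) ∈ p.edges ∧ z ≠ u ∧ z ≠ v := by
  cases p with
  | nil => exact absurd rfl huv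
  | @cons _ y _ h p =>
    cases p with
    | nil => exact absurd h hn
    | @cons _ z _ h' p =>
      refine ⟨z, by simp, ?_, ?_⟩
      · rintro rfl
        simp at hp
      · rintro rfl
        have : p = Walk.nil := (Walk.isPath_iff_nil.1 hp.of_cons.of_cons).eq_nil
        subst this
        have h1 := h'.ne
        simp only [Walk.snd_cons] at hne
        simp [huv.symm, h1.symm, hne.symm] at hw

/-- `K_{3,3,3,3}` -/
def K : SimpleGraph (Fin 12) where
  Adj a b := a.val / 3 ≠ b.val / 3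
  symm := ⟨fun _ _ h => h.symm⟩
  loopless := ⟨fun _ h => h rfl⟩

instance : DecidableRel K.Adj := fun a b => inferInstanceAs (Decidable (a.val / 3 ≠ b.val / 3))

theorem K_no : ¬ HasImmersion K 10 := by
  classical
  rintro ⟨c, hc, P, h1, h2⟩
  obtain ⟨Q, q1, q2, q3⟩ := symmetrize P h1 h2
  have nn : ∀ i j, i ≠ j → ¬ (Q i j).Nil := fun i j h => Walk.not_nil_of_ne (hc.ne h)
  have first : ∀ i j, i ≠ j → s(c i, (Q i j).snd) ∈ (Q i j).edges :=
    fun i j h => Walk.mk_start_snd_mem_edges (nn i j h)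
  have finj : ∀ i j k, i ≠ j → i ≠ k → (Q i j).snd = (Q i k).snd → j = k := by
    intro i j k h h' e
    have := q3 i j i k _ (first i j h) (e ▸ first i k h')
    simpa [h, h', h.symm] using this
  have sat : ∀ k y, K.Adj (c k) y → ∃ m, k ≠ m ∧ (Q k m).snd = y := by
    intro k y hy
    have hdeg : ∀ x : Fin 12, (Finset.univ.filter fun y => K.Adj x y).card = 9 := by decide
    have := Finset.surjOn_of_injOn_of_card_le (s := Finset.univ.erase k)
      (t := Finset.univ.filter fun y => K.Adj (c k) y) (fun m => (Q k m).snd)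
      (fun m hm => by
        simpa using (Q k m).adj_snd (nn k m (Finset.ne_of_mem_erase hm).symm))
      (fun a ha b hb e => finj k a b (Finset.ne_of_mem_erase ha).symm
        (Finset.ne_of_mem_erase hb).symm e) (by simp [hdeg])
    obtain ⟨m, hm, e⟩ := this (show y ∈ _ by simpa using hy)
    exact ⟨m, (Finset.ne_of_mem_erase hm).symm, e⟩
  have inner : ∀ i j k, i ≠ j → c k ∈ (Q i j).support → k = i ∨ k = j := by
    intro i j k h hk
    obtain ⟨y, hy⟩ := edge_at (Q i j) (hc.ne h) hk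
    obtain ⟨m, hm, e⟩ := sat k y ((Q i j).adj_of_mem_edges hy)
    have := q3 i j k m _ hy (e ▸ first k m hm)
    rcases Sym2.eq_iff.1 this with h | h
    · exact Or.inl h.1.symm
    · exact Or.inr h.2.symm
  obtain ⟨a, b, hab, hN⟩ : ∃ a b, a ≠ b ∧ (Finset.univ.image c)ᶜ = {a, b} := by
    rw [← Finset.card_eq_two, Finset.card_compl, Finset.card_image_of_injective _ hc]
    simp
  have hN' : ∀ x, (∃ k, c k = x) ∨ x = a ∨ x = b := by
    intro x
    by_contra hno
    push Not at hno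
    have : x ∈ (Finset.univ.image c)ᶜ := by simpa using hno.1
    rw [hN] at this
    simp [hno.2.1, hno.2.2] at this
  have peg : ∀ i j, i ≠ j → ¬ K.Adj (c i) (c j) → (Q i j).snd = a ∨ (Q i j).snd = b := by
    intro i j h hn
    have hadj := (Q i j).adj_snd (nn i j h)
    rcases hN' (Q i j).snd with ⟨k, hk⟩ | h'
    · rcases inner i j k h (hk ▸ (Q i j).snd_mem_support_of_mem_edges (first i j h)) with
        rfl | rfl
      · rw [← hk] at hadj; exact absurd hadj K.irrefl
      · rw [← hk] at hadj; exact absurd hadj hn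
    · exact h'
  have mid : ∀ i j, i ≠ j → ¬ K.Adj (c i) (c j) → (Q i j).snd ≠ (Q j i).snd →
      s(a, b) ∈ (Q i j).edges := by
    intro i j h hn hne
    obtain ⟨z, hz, z1, z2⟩ := two_step (Q i j) (q1 i j) (hc.ne h) hn
      (q2 _ _ _ (first j i h.symm)) hne
    have hadj := ((Q i j).adj_of_mem_edges hz).ne
    rcases hN' z with ⟨k, rfl⟩ | hz'
    · rcases inner i j k h ((Q i j).snd_mem_support_of_mem_edges hz) with rfl | rfl
      · exact absurd rfl z1
      · exact absurd rfl z2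
    · rcases peg i j h hn with e | e <;> rcases hz' with e' | e' <;> rw [e, e'] at hz hadj
      · exact absurd rfl hadj
      · exact hz
      · rwa [Sym2.eq_swap]
      · exact absurd rfl hadj
  have full : ∀ p : ℕ, p < 4 → a.val / 3 ≠ p → b.val / 3 ≠ p →
      ∃ i j, (c i).val / 3 = p ∧ (c j).val / 3 = p ∧ s(a, b) ∈ (Q i j).edges := by
    intro p hp ha hb
    have g : ∀ t : ℕ, (ht : t < 3) → ∃ k, (c k).val = 3 * p + t := by
      intro t ht
      rcases hN' ⟨3 * p + t, by omega⟩ with ⟨k, hk⟩ | h | h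
      · exact ⟨k, by rw [hk]⟩
      · rw [← h] at ha; simp only at ha; omega
      · rw [← h] at hb; simp only at hb; omega
    obtain ⟨i, hi⟩ := g 0 (by norm_num)
    obtain ⟨j, hj⟩ := g 1 (by norm_num)
    obtain ⟨k, hk⟩ := g 2 (by norm_num)
    have ij : i ≠ j := by rintro rfl; omega
    have ik : i ≠ k := by rintro rfl; omega
    have jk : j ≠ k := by rintro rfl; omega
    have na : ∀ x y, (c x).val / 3 = p → (c y).val / 3 = p → ¬ K.Adj (c x) (c y) :=
      fun x y h1 h2 h => h (h1.trans h2.symm)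
    have pi : (c i).val / 3 = p := by omega
    have pj : (c j).val / 3 = p := by omega
    have pk : (c k).val / 3 = p := by omega
    by_cases e1 : (Q i j).snd = (Q j i).snd
    swap
    · exact ⟨i, j, pi, pj, mid i j ij (na _ _ pi pj) e1⟩
    by_cases e2 : (Q i k).snd = (Q k i).snd
    swap
    · exact ⟨i, k, pi, pk, mid i k ik (na _ _ pi pk) e2⟩
    by_cases e3 : (Q j k).snd = (Q k j).snd
    swap
    · exact ⟨j, k, pj, pk, mid j k jk (na _ _ pj pk) e3⟩
    exfalso
    have n1 : (Q i j).snd ≠ (Q i k).snd := fun e => jk (finj i j k ij ik e)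
    have n2 : (Q j i).snd ≠ (Q j k).snd := fun e => ik (finj j i k ij.symm jk e)
    have n3 : (Q k i).snd ≠ (Q k j).snd := fun e => ij (finj k i j ik.symm jk.symm e)
    rw [← e1] at n2
    rw [← e2, ← e3] at n3
    rcases peg i j ij (na _ _ pi pj) with x | x <;> rcases peg i k ik (na _ _ pi pk) with y | y <;>
      rcases peg j k jk (na _ _ pj pk) with z | z <;> simp_all
  obtain ⟨p, p', hp, hp', hne, x1, x2, x3, x4⟩ : ∃ p p' : ℕ, p < 4 ∧ p' < 4 ∧ p ≠ p' ∧
      a.val / 3 ≠ p ∧ b.val / 3 ≠ p ∧ a.val / 3 ≠ p' ∧ b.val / 3 ≠ p' := by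
    have : ∀ a b : Fin 12, ∃ p p' : Fin 4, p ≠ p' ∧
      a.val / 3 ≠ p ∧ b.val / 3 ≠ p ∧ a.val / 3 ≠ p' ∧ b.val / 3 ≠ p' := by decide +kernel
    obtain ⟨p, p', h1, h2⟩ := this a b
    exact ⟨p, p', p.2, p'.2, Fin.val_ne_of_ne h1, h2⟩
  obtain ⟨i, j, hi, hj, h⟩ := full p hp x1 x2
  obtain ⟨k, l, hk, hl, h'⟩ := full p' hp' x3 x4
  rcases Sym2.eq_iff.1 (q3 i j k l _ h h') with ⟨rfl, -⟩ | ⟨rfl, -⟩ <;> omega

def adj (x y : Fin 9 × Fin 13) : Bool :=
  if x.2.val = 12 then (if y.2.val = 12 then x.1 != y.1 else x.1 == y.1 && y.2.val == 0)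
  else if y.2.val = 12 then x.1 == y.1 && x.2.val == 0
  else x.1 == y.1 && x.2.val / 3 != y.2.val / 3

def G0 : SimpleGraph (Fin 9 × Fin 13) where
  Adj x y := adj x y = true
  symm := ⟨by decide +kernel⟩
  loopless := ⟨by decide +kernel⟩

instance : DecidableRel G0.Adj := fun u v => inferInstanceAs (Decidable (adj u v = true))

theorem mindeg : G0.minDegree = 9 := by
  apply le_antisymm
  · exact (G0.minDegree_le_degree (0, 12)).trans (by decide +kernel)
  · exact G0.le_minDegree_of_forall_le_degree 9 (by decide +kernel)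

theorem chi : G0.chromaticNumber = 9 := by
  apply le_antisymm
  · refine Colorable.chromaticNumber_le (n := 9) ⟨Coloring.mk
      (fun x => if x.2.val = 12 then x.1 else x.1 + Fin.ofNat 9 (x.2.val / 3 + 1)) ?_⟩
    decide +kernel
  · exact le_chromaticNumber_of_pairwise_adj (n := 9) (ι := Fin 9) (by simp) (fun i => (i, 12))
      (by unfold Pairwise; decide +kernel)

theorem G0_no : ¬ HasImmersion G0 10 := by
  classical
  rintro ⟨c, hc, P, h1, h2⟩
  obtain ⟨Q, -, q2, q3⟩ := symmetrize P h1 h2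
  have br : ∀ (t : Fin 9) (x y : Fin 9 × Fin 13), (x.1 = t ∧ x.2 ≠ 12) → ¬ (y.1 = t ∧ y.2 ≠ 12) →
      G0.Adj x y → x = (t, 0) ∧ y = (t, 12) := by decide +kernel
  have cut : ∀ t i j, ((c i).1 = t ∧ (c i).2 ≠ 12) → ¬ ((c j).1 = t ∧ (c j).2 ≠ 12) →
      s((t, 0), (t, 12)) ∈ (Q i j).edges := by
    intro t i j hi hj
    obtain ⟨d, hd, d1, d2⟩ := (Q i j).exists_boundary_dart {x | x.1 = t ∧ x.2 ≠ 12} hi hj
    obtain ⟨e1, e2⟩ := br t _ _ d1 d2 d.adj
    rw [← e1, ← e2]
    exact List.mem_map_of_mem hd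
  by_cases hex : ∃ i, (c i).2 ≠ 12
  · obtain ⟨i, hi⟩ := hex
    have hall : ∀ j, (c j).1 = (c i).1 ∧ (c j).2 ≠ 12 := by
      intro j
      by_contra hj
      obtain ⟨k, k1, k2⟩ : ∃ k, k ≠ i ∧ k ≠ j := by
        have : ∀ i j : Fin 10, ∃ k, k ≠ i ∧ k ≠ j := by decide
        exact this i j
      have e := cut _ i j ⟨rfl, hi⟩ hj
      by_cases hk : (c k).1 = (c i).1 ∧ (c k).2 ≠ 12
      · rcases Sym2.eq_iff.1 (q3 _ _ _ _ _ e (cut _ k j hk hj)) with h | h
        · exact k1 h.1.symm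
        · exact k2 h.2.symm
      · rcases Sym2.eq_iff.1 (q3 _ _ _ _ _ e (cut _ i k ⟨rfl, hi⟩ hk)) with h | h
        · exact k2 h.2.symm
        · exact k1 h.1.symm
    generalize (c i).1 = t at hall
    let f : Fin 9 → Fin 9 × Fin 13 → Fin 12 := fun t x =>
      if x.1 = t ∧ x.2 ≠ 12 then Fin.ofNat 12 x.2.val else 0
    let g : Fin 9 → Fin 12 → Fin 9 × Fin 13 := fun t y => (t, y.castSucc)
    have k1 : ∀ t a b, G0.Adj a b → f t a = f t b ∨
        (K.Adj (f t a) (f t b) ∧ g t (f t a) = a ∧ g t (f t b) = b) := by decide +kernel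
    have k2 : ∀ t a, (a.1 = t ∧ a.2 ≠ 12) → g t (f t a) = a := by decide +kernel
    choose R r1 r2 using fun i j h => contract (f t) (g t) (k1 t) (P i j h)
    refine K_no ⟨fun i => f t (c i), fun i j h => hc ?_, R, r1, ?_⟩
    · rw [← k2 t _ (hall i), ← k2 t _ (hall j)]
      exact congrArg (g t) h
    · intro i j h k l h' hne e e1 e2
      exact h2 i j h k l h' hne (r2 _ _ _ e e1) (r2 _ _ _ e e2)
  · push Not at hex
    have : Function.Injective fun i => (c i).1 := fun i j h =>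
      hc (Prod.ext h ((hex i).trans (hex j).symm))
    simpa using Fintype.card_le_of_injective _ this

end Pool.Agent.H24.Imm
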