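import Mathlib

set_option autoImplicit false

namespace Pool.Agent.H24.IndepGF

open Finset

open Classical in
/-- The independent subsets of `U`. -/
noncomputable def indS {V : Type} (G : SimpleGraph V) (U : Finset V) : Finset (Finset V) :=
  U.powerset.filter (fun s : Finset V => G.IsIndepSet (s : Set V))

lemma mem_indS {V : Type} {G : SimpleGraph V} {U s : Finset V} :
    s ∈ indS G U ↔ s ⊆ U ∧ G.IsIndepSet (s : Set V) := by
  unfold indS
  simp only [mem_filter, mem_powerset]

/-- Weighted count of the independent subsets of `U`. -/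
noncomputable def z {V : Type} (G : SimpleGraph V) (T : ℕ) (U : Finset V) : ℕ :=
  ∑ s ∈ indS G U, T ^ s.card

set_option linter.unusedSectionVars false

variable {V : Type} [DecidableEq V] (G : SimpleGraph V) (T : ℕ)

lemma indep_union {s t : Finset V} (hs : G.IsIndepSet (s : Set V)) (ht : G.IsIndepSet (t : Set V))
    (h : ∀ u ∈ s, ∀ w ∈ t, ¬ G.Adj u w) : G.IsIndepSet ((s ∪ t : Finset V) : Set V) := by
  intro x hx y hy hxy
  simp only [coe_union, Set.mem_union, mem_coe] at hx hy
  rcases hx with hx | hx <;> rcases hy with hy | hy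
  · exact hs hx hy hxy
  · exact h x hx y hy
  · exact fun ha => h y hy x hx ha.symm
  · exact ht hx hy hxy

lemma indep_mono {s t : Finset V} (hst : s ⊆ t) (ht : G.IsIndepSet (t : Set V)) :
    G.IsIndepSet (s : Set V) := by
  intro x hx y hy hxy
  exact ht (hst hx) (hst hy) hxy

lemma z_union {U W : Finset V} (hd : Disjoint U W) (h : ∀ u ∈ U, ∀ w ∈ W, ¬ G.Adj u w) :
    z G T (U ∪ W) = z G T U * z G T W := by
  classical
  unfold z
  rw [sum_mul_sum, ← sum_product']
  symm
  apply Finset.sum_nbij' (fun p => p.1 ∪ p.2) (fun s => (s ∩ U, s ∩ W))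
  · rintro ⟨s, t⟩ hp
    simp only [mem_product, mem_indS] at hp ⊢
    refine ⟨union_subset_union hp.1.1 hp.2.1, indep_union G hp.1.2 hp.2.2 ?_⟩
    intro u hu w hw
    exact h u (hp.1.1 hu) w (hp.2.1 hw)
  · intro s hs
    simp only [mem_product, mem_indS] at hs ⊢
    exact ⟨⟨inter_subset_right, indep_mono G inter_subset_left hs.2⟩,
      ⟨inter_subset_right, indep_mono G inter_subset_left hs.2⟩⟩
  · rintro ⟨s, t⟩ hp
    simp only [mem_product, mem_indS] at hp
    have h1 := hp.1.1
    have h2 := hp.2.1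
    rw [Finset.disjoint_left] at hd
    ext x
    · simp only [mem_inter, mem_union]
      constructor
      · rintro ⟨hx | hx, hU⟩
        · exact hx
        · exact absurd (h2 hx) (hd hU)
      · intro hx; exact ⟨Or.inl hx, h1 hx⟩
    · simp only [mem_inter, mem_union]
      constructor
      · rintro ⟨hx | hx, hW⟩
        · exact absurd hW (hd (h1 hx))
        · exact hx
      · intro hx; exact ⟨Or.inr hx, h2 hx⟩
  · intro s hs
    simp only [mem_indS] at hs
    rw [← inter_union_distrib_left]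
    exact inter_eq_left.mpr hs.1
  · rintro ⟨s, t⟩ hp
    simp only [mem_product, mem_indS] at hp
    rw [card_union_of_disjoint (disjoint_of_subset_left hp.1.1 (disjoint_of_subset_right hp.2.1 hd)),
      pow_add]

lemma z_empty : z G T ∅ = 1 := by
  classical
  unfold z
  have : indS G ∅ = {∅} := by
    ext s
    simp only [mem_indS, subset_empty, mem_singleton, and_iff_left_iff_imp]
    rintro rfl
    simp
  rw [this]; simp

lemma z_biUnion {κ : Type} [DecidableEq κ] (S : Finset κ) (U : κ → Finset V)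
    (hd : ∀ i j, i ≠ j → Disjoint (U i) (U j))
    (h : ∀ i j, i ≠ j → ∀ u ∈ U i, ∀ w ∈ U j, ¬ G.Adj u w) :
    z G T (S.biUnion U) = ∏ i ∈ S, z G T (U i) := by
  induction S using Finset.induction_on with
  | empty => simp [z_empty]
  | insert a S ha ih =>
    rw [biUnion_insert, prod_insert ha, z_union, ih]
    · rw [disjoint_biUnion_right]
      intro j hj
      exact hd a j (fun e => ha (e ▸ hj))
    · intro u hu w hw
      obtain ⟨j, hj, hw⟩ := mem_biUnion.mp hw
      exact h a j (fun e => ha (e ▸ hj)) u hu w hw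

lemma z_indep {U : Finset V} (hU : G.IsIndepSet (U : Set V)) : z G T U = (1 + T) ^ U.card := by
  classical
  unfold z
  have h0 : indS G U = U.powerset := by
    ext s
    simp only [mem_indS, mem_powerset, and_iff_left_iff_imp]
    exact fun hs => indep_mono G hs hU
  rw [h0]
  have := Finset.prod_one_add (s := U) (f := fun _ => T)
  simpa using this.symm

lemma z_join (U X Y : Finset V) (h : ∀ x ∈ X, ∀ y ∈ Y, G.Adj x y) :
    z G T U + z G T ((U \ X) \ Y) = z G T (U \ X) + z G T (U \ Y) := by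
  classical
  unfold z
  rw [← sum_union_inter (s₁ := indS G (U \ X)) (s₂ := indS G (U \ Y))]
  congr 2
  · ext s
    simp only [mem_indS, mem_union]
    constructor
    · rintro ⟨hU, hs⟩
      by_cases hx : ∃ x ∈ s, x ∈ X
      · obtain ⟨x, hxs, hxX⟩ := hx
        right
        refine ⟨fun y hy => mem_sdiff.mpr ⟨hU hy, fun hyY => ?_⟩, hs⟩
        exact hs hxs hy (h x hxX y hyY).ne (h x hxX y hyY)
      · left
        exact ⟨fun y hy => mem_sdiff.mpr ⟨hU hy, fun hyX => hx ⟨y, hy, hyX⟩⟩, hs⟩
    · rintro (⟨hU, hs⟩ | ⟨hU, hs⟩)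
      · exact ⟨hU.trans sdiff_subset, hs⟩
      · exact ⟨hU.trans sdiff_subset, hs⟩
  · ext s
    simp only [mem_indS, mem_inter]
    constructor
    · rintro ⟨hU, hs⟩
      refine ⟨⟨hU.trans sdiff_subset, hs⟩, ⟨fun y hy => ?_, hs⟩⟩
      have := mem_sdiff.mp (hU hy)
      exact mem_sdiff.mpr ⟨(mem_sdiff.mp this.1).1, this.2⟩
    · rintro ⟨⟨h1, hs⟩, ⟨h2, -⟩⟩
      exact ⟨fun y hy => mem_sdiff.mpr ⟨h1 hy, (mem_sdiff.mp (h2 hy)).2⟩, hs⟩

lemma digit (T : ℕ) (k : ℕ) : ∀ (c : ℕ → ℕ) (N : ℕ), (∀ j, c j < T) → k < N →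
    (∑ j ∈ range N, c j * T ^ j) / T ^ k % T = c k := by
  induction k with
  | zero =>
    intro c N hc hN
    obtain ⟨N, rfl⟩ : ∃ M, N = M + 1 := ⟨N - 1, by omega⟩
    rw [sum_range_succ']
    have : ∑ j ∈ range N, c (j + 1) * T ^ (j + 1) = T * ∑ j ∈ range N, c (j + 1) * T ^ j := by
      rw [mul_sum]; apply sum_congr rfl; intro j _; ring
    rw [this]
    simp [Nat.mod_eq_of_lt (hc 0)]
  | succ k ih =>
    intro c N hc hN
    obtain ⟨N, rfl⟩ : ∃ M, N = M + 1 := ⟨N - 1, by omega⟩
    rw [sum_range_succ']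
    have : ∑ j ∈ range N, c (j + 1) * T ^ (j + 1) = T * ∑ j ∈ range N, c (j + 1) * T ^ j := by
      rw [mul_sum]; apply sum_congr rfl; intro j _; ring
    have hT : 0 < T := lt_of_le_of_lt (Nat.zero_le _) (hc 0)
    rw [this, pow_succ', ← Nat.div_div_eq_div_mul, pow_zero, mul_one, Nat.mul_add_div hT,
      Nat.div_eq_of_lt (hc 0), add_zero]
    exact ih (fun j => c (j + 1)) N (fun j => hc (j + 1)) (by omega)

/-- number of independent sets with `k` vertices -/
noncomputable def cnt {V : Type} (G : SimpleGraph V) (k : ℕ) : ℕ :=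
  {s : Finset V | G.IsIndepSet (s : Set V) ∧ s.card = k}.ncard

lemma cnt_eq_digit [Fintype V] (hT : 2 ^ Fintype.card V < T) (k : ℕ) (hk : k ≤ Fintype.card V) :
    cnt G k = z G T univ / T ^ k % T := by
  classical
  have h1 : ∀ j, cnt G j = ((indS G univ).filter (fun s : Finset V => s.card = j)).card := by
    intro j
    unfold cnt
    rw [← Set.ncard_coe_finset]
    congr 1
    ext s; simp [mem_indS]
  have h2 : z G T univ = ∑ j ∈ range (Fintype.card V + 1), cnt G j * T ^ j := by
    unfold z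
    rw [← sum_fiberwise_of_maps_to (g := fun s : Finset V => s.card)
      (t := range (Fintype.card V + 1))]
    · apply sum_congr rfl
      intro j _
      rw [h1, sum_congr rfl (g := fun _ => T ^ j)]
      · simp
      · intro s hs
        rw [(mem_filter.mp hs).2]
    · intro s _
      exact mem_range.mpr (Nat.lt_succ_of_le (card_le_univ s))
  rw [h2, digit T k (cnt G) _ _ (Nat.lt_succ_of_le hk)]
  intro j
  rw [h1]
  refine lt_of_le_of_lt ?_ hT
  refine (card_le_univ _).trans ?_
  simp

end Pool.Agent.H24.IndepGF
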