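import Mathlib

namespace Pool.Agent.H24.IrrA

open Finset

variable {k : ℕ} {V : Type} [Fintype V] [DecidableEq V]

open Classical in
noncomputable def Emb (F : SimpleGraph (Fin k)) (G : SimpleGraph V) : Finset (Fin k → V) :=
  univ.filter fun φ => Function.Injective φ ∧ ∀ a b, F.Adj a b → G.Adj (φ a) (φ b)

theorem mem_Emb {F : SimpleGraph (Fin k)} {G : SimpleGraph V} {φ : Fin k → V} :
    φ ∈ Emb F G ↔ Function.Injective φ ∧ ∀ a b, F.Adj a b → G.Adj (φ a) (φ b) := by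
  simp [Emb]

noncomputable def RS (F : SimpleGraph (Fin k)) (G : SimpleGraph V) (r : Fin k) (v : V) :
    Finset (Fin k → V) := (Emb F G).filter fun φ => φ r = v

theorem mem_RS {F : SimpleGraph (Fin k)} {G : SimpleGraph V} {r : Fin k} {v : V} {φ : Fin k → V} :
    φ ∈ RS F G r v ↔
      (Function.Injective φ ∧ ∀ a b, F.Adj a b → G.Adj (φ a) (φ b)) ∧ φ r = v := by
  simp [RS, mem_Emb]

def ES (k : ℕ) (Z : Finset V) (j : ℕ) : Finset (Fin k → V) :=
  univ.filter fun φ => j ≤ (univ.filter fun x => φ x ∈ Z).card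

theorem mem_ES {Z : Finset V} {j : ℕ} {φ : Fin k → V} (A : Finset (Fin k)) (hA : A.card = j)
    (h : ∀ x ∈ A, φ x ∈ Z) : φ ∈ ES k Z j := by
  simp only [ES, mem_filter, mem_univ, true_and]
  rw [← hA]
  exact card_le_card fun x hx => by simpa using h x hx

theorem mem_ES3 {Z : Finset V} {φ : Fin k → V} {a b c : Fin k} (hab : a ≠ b) (hac : a ≠ c)
    (hbc : b ≠ c) (ha : φ a ∈ Z) (hb : φ b ∈ Z) (hc : φ c ∈ Z) : φ ∈ ES k Z 3 := by
  refine mem_ES {a, b, c} (card_eq_three.2 ⟨a, b, c, hab, hac, hbc, rfl⟩) ?_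
  intro x hx
  simp only [mem_insert, mem_singleton] at hx
  rcases hx with rfl | rfl | rfl <;> assumption

theorem mem_ES4 {Z : Finset V} {φ : Fin k → V} {a b c d : Fin k} (hab : a ≠ b) (hac : a ≠ c)
    (hbc : b ≠ c) (hda : d ≠ a) (hdb : d ≠ b) (hdc : d ≠ c)
    (ha : φ a ∈ Z) (hb : φ b ∈ Z) (hc : φ c ∈ Z) (hd : φ d ∈ Z) : φ ∈ ES k Z 4 := by
  refine mem_ES (insert d {a, b, c}) ?_ ?_
  · rw [card_insert_of_notMem (by simp [hda, hdb, hdc]),
      card_eq_three.2 ⟨a, b, c, hab, hac, hbc, rfl⟩]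
  · intro x hx
    simp only [mem_insert, mem_singleton] at hx
    rcases hx with rfl | rfl | rfl | rfl <;> assumption

theorem ES_bound (Z : Finset V) (j K : ℕ) (hK : Z.card ≤ K) :
    (ES k Z j).card * Fintype.card V ^ j ≤ 2 ^ k * K ^ j * Fintype.card V ^ k := by
  have hsub : ES k Z j ⊆ (powersetCard j (univ : Finset (Fin k))).biUnion
      fun A => Fintype.piFinset fun x => if x ∈ A then Z else univ := by
    intro φ hφ
    simp only [ES, mem_filter, mem_univ, true_and] at hφ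
    obtain ⟨A, hA, hc⟩ := exists_subset_card_eq hφ
    refine mem_biUnion.2 ⟨A, mem_powersetCard.2 ⟨subset_univ _, hc⟩, ?_⟩
    rw [Fintype.mem_piFinset]
    intro x
    split_ifs with h
    · simpa using hA h
    · exact mem_univ _
  have h1 : ∀ A ∈ powersetCard j (univ : Finset (Fin k)),
      (Fintype.piFinset fun x => if x ∈ A then Z else univ).card * Fintype.card V ^ j ≤
        K ^ j * Fintype.card V ^ k := by
    intro A hA
    have hc : A.card = j := (mem_powersetCard.1 hA).2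
    have hj : j ≤ k := by
      rw [← hc]
      simpa using card_le_univ A
    rw [Fintype.card_piFinset]
    have : ∏ x : Fin k, (if x ∈ A then Z else univ).card =
        Z.card ^ j * Fintype.card V ^ (k - j) := by
      simp only [apply_ite Finset.card, card_univ]
      rw [prod_ite, prod_const, prod_const]
      congr 2
      · simpa using hc
      · rw [filter_not, card_sdiff_of_subset (filter_subset _ _)]
        simp [hc]
    rw [this, mul_assoc, ← pow_add, Nat.sub_add_cancel hj]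
    gcongr
  calc (ES k Z j).card * Fintype.card V ^ j
      ≤ (∑ A ∈ powersetCard j (univ : Finset (Fin k)),
          (Fintype.piFinset fun x => if x ∈ A then Z else univ).card) * Fintype.card V ^ j := by
        gcongr
        exact (card_le_card hsub).trans card_biUnion_le
    _ ≤ ∑ _A ∈ powersetCard j (univ : Finset (Fin k)), K ^ j * Fintype.card V ^ k := by
        rw [sum_mul]
        exact sum_le_sum h1
    _ ≤ 2 ^ k * K ^ j * Fintype.card V ^ k := by
        rw [sum_const, smul_eq_mul, mul_assoc]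
        gcongr
        rw [card_powersetCard]
        simpa using Nat.choose_le_two_pow k j

theorem gain (F : SimpleGraph (Fin k)) (G : SimpleGraph V) (A : Finset (Fin k)) (ψ : Fin k → V)
    (Q : Finset V) (hA : ∀ x ∈ A, ∀ y ∈ A, x ≠ y → G.Adj (ψ x) (ψ y))
    (hQ : ∀ p ∈ Q, ∀ q ∈ Q, p ≠ q → G.Adj p q) (hAQ : ∀ x ∈ A, ∀ q ∈ Q, G.Adj (ψ x) q) :
    ∃ Gn : Finset (Fin k → V), (Q.card + 1 - k) ^ (k - A.card) ≤ Gn.card ∧
      ∀ φ ∈ Gn, φ ∈ Emb F G ∧ (∀ x ∈ A, φ x = ψ x) ∧ ∀ x, x ∉ A → φ x ∈ Q := by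
  classical
  let ext : ({x // x ∉ A} ↪ Q) → Fin k → V := fun e x => if h : x ∈ A then ψ x else e ⟨x, h⟩
  have hinj : Function.Injective ext := by
    intro e e' h
    ext x
    have := congrFun h x.1
    simpa [ext, x.2] using this
  refine ⟨univ.image ext, ?_, ?_⟩
  · rw [card_image_of_injective _ hinj, card_univ, Fintype.card_embedding_eq]
    have hc : Fintype.card {x // x ∉ A} = k - A.card := by
      rw [Fintype.card_subtype_compl]; simp
    rw [hc, Fintype.card_coe]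
    refine le_trans ?_ (Nat.pow_sub_le_descFactorial _ _)
    gcongr
    omega
  · intro φ hφ
    obtain ⟨e, -, rfl⟩ := mem_image.1 hφ
    have hadj : ∀ x y, x ≠ y → G.Adj (ext e x) (ext e y) := by
      intro x y hxy
      by_cases hx : x ∈ A <;> by_cases hy : y ∈ A
      · simpa [ext, hx, hy] using hA x hx y hy hxy
      · simpa [ext, hx, hy] using hAQ x hx _ (e ⟨y, hy⟩).2
      · simpa [ext, hx, hy] using (hAQ y hy _ (e ⟨x, hx⟩).2).symm
      · simp only [ext, hx, hy, dite_false]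
        refine hQ _ (e ⟨x, hx⟩).2 _ (e ⟨y, hy⟩).2 fun h => hxy ?_
        have := e.injective (Subtype.ext h)
        exact congrArg Subtype.val this
    refine ⟨mem_Emb.2 ⟨fun x y h => ?_, fun a b h => hadj a b h.ne⟩, ?_, ?_⟩
    · by_contra hxy
      exact (hadj x y hxy).ne h
    · intro x hx
      simp [ext, hx]
    · intro x hx
      simp [ext, hx]

theorem gain2 (F : SimpleGraph (Fin k)) (G : SimpleGraph V) {r a : Fin k} (hra : r ≠ a) {u z : V}
    (huz : G.Adj u z) (Q : Finset V) (hQ : ∀ p ∈ Q, ∀ q ∈ Q, p ≠ q → G.Adj p q)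
    (hu : ∀ q ∈ Q, G.Adj u q) (hz : ∀ q ∈ Q, G.Adj z q) :
    ∃ Gn : Finset (Fin k → V), (Q.card + 1 - k) ^ (k - 2) ≤ Gn.card ∧
      ∀ φ ∈ Gn, φ ∈ RS F G r u ∧ φ a = z := by
  obtain ⟨Gn, h1, h2⟩ := gain F G {r, a} (fun x => if x = r then u else z) Q (by
      intro x hx y hy hxy
      simp only [mem_insert, mem_singleton] at hx hy
      rcases hx with rfl | rfl <;> rcases hy with rfl | rfl <;>
        simp_all [hra.symm, huz.symm]) hQ (by
      intro x _ q hq
      split_ifs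
      · exact hu q hq
      · exact hz q hq)
  rw [card_pair hra] at h1
  refine ⟨Gn, h1, fun φ hφ => ?_⟩
  obtain ⟨e1, e2, -⟩ := h2 φ hφ
  refine ⟨mem_filter.2 ⟨e1, by simpa using e2 r (by simp)⟩, ?_⟩
  simpa [hra.symm] using e2 a (by simp)

theorem gain3 (F : SimpleGraph (Fin k)) (G : SimpleGraph V) {r a b : Fin k} (hra : r ≠ a)
    (hrb : r ≠ b) (hab : a ≠ b) {u p q : V}
    (hup : G.Adj u p) (huq : G.Adj u q) (hpq : G.Adj p q) (Q : Finset V)
    (hQ : ∀ p ∈ Q, ∀ q ∈ Q, p ≠ q → G.Adj p q)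
    (hu : ∀ x ∈ Q, G.Adj u x) (hp : ∀ x ∈ Q, G.Adj p x) (hq : ∀ x ∈ Q, G.Adj q x) :
    ∃ Gn : Finset (Fin k → V), (Q.card + 1 - k) ^ (k - 3) ≤ Gn.card ∧
      ∀ φ ∈ Gn, φ ∈ RS F G r u ∧ φ a = p ∧ φ b = q ∧
        ∀ x, φ x = u ∨ φ x = p ∨ φ x = q ∨ φ x ∈ Q := by
  obtain ⟨Gn, h1, h2⟩ := gain F G {r, a, b}
    (fun x => if x = r then u else if x = a then p else q) Q (by
      intro x hx y hy hxy
      simp only [mem_insert, mem_singleton] at hx hy
      rcases hx with rfl | rfl | rfl <;> rcases hy with rfl | rfl | rfl <;>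
        simp_all [hra.symm, hrb.symm, hab.symm, hup.symm, huq.symm, hpq.symm]) hQ (by
      intro x _ y hy
      split_ifs
      · exact hu y hy
      · exact hp y hy
      · exact hq y hy)
  rw [card_eq_three.2 ⟨r, a, b, hra, hrb, hab, rfl⟩] at h1
  refine ⟨Gn, h1, fun φ hφ => ?_⟩
  obtain ⟨e1, e2, e3⟩ := h2 φ hφ
  have f1 : φ r = u := by simpa using e2 r (by simp)
  have f2 : φ a = p := by simpa [hra.symm] using e2 a (by simp)
  have f3 : φ b = q := by simpa [hrb.symm, hab.symm] using e2 b (by simp)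
  refine ⟨mem_filter.2 ⟨e1, f1⟩, f2, f3, fun x => ?_⟩
  by_cases hx : x ∈ ({r, a, b} : Finset (Fin k))
  · simp only [mem_insert, mem_singleton] at hx
    rcases hx with rfl | rfl | rfl <;> simp [f1, f2, f3]
  · exact Or.inr (Or.inr (Or.inr (e3 x hx)))

theorem inj_le {α : Type} [DecidableEq α] (A B Gn : Finset α) (T : α → α)
    (hinj : Set.InjOn T A) (hAB : ∀ φ ∈ A, T φ ∈ B) (hG : Gn ⊆ B) (hne : ∀ φ ∈ A, T φ ∉ Gn) :
    A.card + Gn.card ≤ B.card := by
  rw [← card_image_of_injOn hinj, ← card_union_of_disjoint]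
  · apply card_le_card
    intro x hx
    rcases mem_union.1 hx with h | h
    · obtain ⟨φ, hφ, rfl⟩ := mem_image.1 h
      exact hAB φ hφ
    · exact hG h
  · rw [disjoint_left]
    intro x hx
    obtain ⟨φ, hφ, rfl⟩ := mem_image.1 hx
    exact hne φ hφ

theorem second (F : SimpleGraph (Fin k)) (G : SimpleGraph V) (r : Fin k) {u v : V} (g : V → V)
    (hg : Function.Injective g) (hv : g v = u) (Z : Finset V) (hvZ : v ∈ Z)
    (hbad : ∀ p q, G.Adj p q → ¬ G.Adj (g p) (g q) → p ∈ Z ∧ q ∈ Z ∧ p ≠ v ∧ q ≠ v)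
    (Gn : Finset (Fin k → V)) (hG : Gn ⊆ RS F G r u) (hne : ∀ φ ∈ RS F G r v, g ∘ φ ∉ Gn) :
    (RS F G r v).card + Gn.card ≤ (RS F G r u).card + (ES k Z 3).card := by
  have h1 := inj_le (RS F G r v \ ES k Z 3) (RS F G r u) Gn (fun φ => g ∘ φ)
    (fun φ _ φ' _ h => funext fun x => hg (congrFun h x)) (by
      intro φ hφ
      obtain ⟨h1, h2⟩ := mem_sdiff.1 hφ
      obtain ⟨⟨hi, ha⟩, hr⟩ := mem_RS.1 h1
      refine mem_RS.2 ⟨⟨hg.comp hi, fun a b hab => ?_⟩, by simp [hr, hv]⟩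
      by_contra hn
      obtain ⟨b1, b2, b3, b4⟩ := hbad _ _ (ha a b hab) hn
      exact h2 (mem_ES3 (a := r) (b := a) (c := b) (fun h => b3 (h ▸ hr)) (fun h => b4 (h ▸ hr))
        hab.ne (hr ▸ hvZ) b1 b2)) hG (fun φ hφ => hne φ (mem_sdiff.1 hφ).1)
  have h2 := le_card_sdiff (ES k Z 3) (RS F G r v)
  omega

theorem numeric (Z : Finset V) (j t q : ℕ) (hZ : Z.card ≤ 19) (hj : j ≤ k) (hj3 : j ≤ 3)
    (hq : Fintype.card V ≤ 8 * q) (hN : t * 2 ^ k * 19 ^ 4 * 8 ^ k < Fintype.card V) :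
    t * (ES k Z (j + 1)).card < q ^ (k - j) := by
  have h1 := ES_bound (k := k) Z (j + 1) 19 hZ
  set N := Fintype.card V
  have hN0 : 0 < N := by omega
  have h2 : N ^ k ≤ q ^ (k - j) * 8 ^ k * N ^ j := by
    calc N ^ k = N ^ (k - j) * N ^ j := by rw [← pow_add, Nat.sub_add_cancel hj]
      _ ≤ (8 * q) ^ (k - j) * N ^ j := by gcongr
      _ = q ^ (k - j) * 8 ^ (k - j) * N ^ j := by rw [mul_pow]; ring
      _ ≤ q ^ (k - j) * 8 ^ k * N ^ j := by gcongr <;> omega
  have h3 : 19 ^ (j + 1) ≤ 19 ^ 4 := Nat.pow_le_pow_right (by norm_num) (by omega)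
  have h4 : t * (ES k Z (j + 1)).card * (8 ^ k * N ^ (j + 1)) <
      q ^ (k - j) * (8 ^ k * N ^ (j + 1)) := by
    calc t * (ES k Z (j + 1)).card * (8 ^ k * N ^ (j + 1))
        = t * 8 ^ k * ((ES k Z (j + 1)).card * N ^ (j + 1)) := by ring
      _ ≤ t * 8 ^ k * (2 ^ k * 19 ^ 4 * N ^ k) := by
          apply Nat.mul_le_mul_left
          exact h1.trans (by gcongr)
      _ = t * 2 ^ k * 19 ^ 4 * 8 ^ k * N ^ k := by ring
      _ < N * N ^ k := by gcongr
      _ ≤ N * (q ^ (k - j) * 8 ^ k * N ^ j) := by gcongr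
      _ = q ^ (k - j) * (8 ^ k * N ^ (j + 1)) := by ring
  exact lt_of_mul_lt_mul_right h4 (Nat.zero_le _)

end Pool.Agent.H24.IrrA
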