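import Mathlib
import Pool.Agent.H24.IrrA

namespace Pool.Agent.H24.IrrB

open Finset Pool.Agent.H24.IrrA

abbrev B := Bool × Fin 8

abbrev VV (m : ℕ) := Bool × (Fin 8 ⊕ Fin m)

def hb (c : Bool) (s t : Fin 8) : Bool :=
  Nat.testBit (if c then 8051272227476787424 else 8339211754339352704) (8 * s.val + t.val)

def adjB (p q : B) : Prop := p.1 = q.1 ∧ hb p.1 p.2 q.2 = true

instance : DecidableRel adjB := fun p q =>
  inferInstanceAs (Decidable (p.1 = q.1 ∧ hb p.1 p.2 q.2 = true))

theorem adjB_symm : ∀ p q : B, adjB p q → adjB q p := by decide +kernel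

theorem adjB_ne : ∀ p q : B, adjB p q → p ≠ q := by decide +kernel

variable {m : ℕ}

def lev (x : VV m) : ℕ :=
  match x.2 with
  | .inl _ => 0
  | .inr i => i.val + 1

def bl (p : B) : VV m := (p.1, .inl p.2)

def GG (m : ℕ) : SimpleGraph (VV m) where
  Adj x y := x ≠ y ∧ (x.1 = y.1 ∨ m + 1 ≤ lev x + lev y) ∧
    ∀ p q : B, x = bl p → y = bl q → adjB p q
  symm := ⟨fun x y h => ⟨h.1.symm, by
    rcases h.2.1 with h1 | h1
    · exact Or.inl h1.symm
    · exact Or.inr (by omega), fun p q hp hq => adjB_symm _ _ (h.2.2 q p hq hp)⟩⟩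
  loopless := ⟨fun x h => h.1 rfl⟩

theorem lev_le (x : VV m) : lev x ≤ m := by
  obtain ⟨c, t | i⟩ := x
  · simp [lev]
  · exact i.2

@[simp] theorem lev_bl (p : B) : lev (bl p : VV m) = 0 := rfl

@[simp] theorem bl_fst (p : B) : (bl p : VV m).1 = p.1 := rfl

theorem exists_bl {x : VV m} (h : lev x = 0) : ∃ p, x = bl p := by
  obtain ⟨c, t | i⟩ := x
  · exact ⟨(c, t), rfl⟩
  · simp [lev] at h

theorem bl_inj {p q : B} : (bl p : VV m) = bl q ↔ p = q := by
  constructor
  · intro h
    obtain ⟨c, t⟩ := p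
    obtain ⟨d, s⟩ := q
    simpa [bl] using h
  · rintro rfl; rfl

theorem adj_bl {p q : B} : (GG m).Adj (bl p) (bl q) ↔ adjB p q := by
  constructor
  · intro h
    exact h.2.2 p q rfl rfl
  · intro h
    refine ⟨fun e => adjB_ne p q h (bl_inj.1 e), Or.inl h.1, fun p' q' hp hq => ?_⟩
    rwa [← bl_inj.1 hp, ← bl_inj.1 hq]

theorem adj_of {x y : VV m} (hne : x ≠ y) (h : x.1 = y.1 ∨ m + 1 ≤ lev x + lev y)
    (h0 : lev x ≠ 0 ∨ lev y ≠ 0) : (GG m).Adj x y := by
  refine ⟨hne, h, ?_⟩
  rintro p q rfl rfl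
  simp at h0

theorem ext_lev {x y : VV m} (h1 : x.1 = y.1) (h2 : lev x = lev y) (h3 : lev x ≠ 0) : x = y := by
  obtain ⟨c, t | i⟩ := x
  · simp [lev] at h3
  · obtain ⟨d, s | j⟩ := y
    · simp [lev] at h2
    · simp only [lev, add_left_inj] at h2
      simp only at h1
      rw [h1, Fin.ext h2]

theorem exists_lev (b : Bool) {t : ℕ} (h1 : 1 ≤ t) (h2 : t ≤ m) :
    ∃ x : VV m, x.1 = b ∧ lev x = t :=
  ⟨(b, .inr ⟨t - 1, by omega⟩), rfl, by simp only [lev]; omega⟩

def fl (f : Bool) (x : VV m) : VV m := (xor x.1 f, x.2)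

@[simp] theorem lev_fl (f : Bool) (x : VV m) : lev (fl f x) = lev x := rfl

@[simp] theorem fl_fst (f : Bool) (x : VV m) : (fl f x).1 = xor x.1 f := rfl

@[simp] theorem fl_fl (f : Bool) (x : VV m) : fl f (fl f x) = x := by
  obtain ⟨c, t⟩ := x
  simp [fl]

theorem fl_inj (f : Bool) : Function.Injective (fl f : VV m → VV m) :=
  Function.LeftInverse.injective (fl_fl f)

theorem pres {x y x' y' : VV m} (f : Bool) (h : (GG m).Adj x y) (hx : lev x' = lev x)
    (hy : lev y' = lev y) (sx : x'.1 = xor x.1 f) (sy : y'.1 = xor y.1 f) (hne : x' ≠ y')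
    (h0 : lev x ≠ 0 ∨ lev y ≠ 0) : (GG m).Adj x' y' := by
  refine adj_of hne ?_ (by rwa [hx, hy])
  rcases h.2.1 with h1 | h1
  · left; rw [sx, sy, h1]
  · right; rwa [hx, hy]

def gext (β : B → B) (f : Bool) (x : VV m) : VV m :=
  match x.2 with
  | .inl t => bl (β (x.1, t))
  | .inr _ => fl f x

@[simp] theorem gext_bl (β : B → B) (f : Bool) (p : B) : gext β f (bl p : VV m) = bl (β p) := rfl

theorem gext_ch (β : B → B) (f : Bool) {x : VV m} (h : lev x ≠ 0) : gext β f x = fl f x := by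
  obtain ⟨c, t | i⟩ := x
  · simp [lev] at h
  · rfl

theorem gext_lev (β : B → B) (f : Bool) (x : VV m) : lev (gext β f x) = lev x := by
  by_cases h : lev x = 0
  · obtain ⟨p, rfl⟩ := exists_bl h
    simp
  · rw [gext_ch β f h, lev_fl]

theorem gext_fst {β : B → B} {f : Bool} (hβ : ∀ p, (β p).1 = xor p.1 f) (x : VV m) :
    (gext β f x).1 = xor x.1 f := by
  by_cases h : lev x = 0
  · obtain ⟨p, rfl⟩ := exists_bl h
    simp [hβ]
  · rw [gext_ch β f h, fl_fst]

theorem gext_inj {β : B → B} (f : Bool) (hβ : Function.Injective β) :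
    Function.Injective (gext β f : VV m → VV m) := by
  intro x y h
  have hl : lev x = lev y := by rw [← gext_lev β f x, h, gext_lev]
  by_cases h0 : lev x = 0
  · obtain ⟨p, rfl⟩ := exists_bl h0
    obtain ⟨q, rfl⟩ := exists_bl (hl ▸ h0)
    rw [gext_bl, gext_bl, bl_inj] at h
    rw [hβ h]
  · rw [gext_ch β f h0, gext_ch β f (hl ▸ h0)] at h
    exact fl_inj f h

theorem gext_adj {β : B → B} {f : Bool} (hβ : ∀ p, (β p).1 = xor p.1 f)
    (hi : Function.Injective β) {x y : VV m} (h : (GG m).Adj x y) (h0 : lev x ≠ 0 ∨ lev y ≠ 0) :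
    (GG m).Adj (gext β f x) (gext β f y) :=
  pres f h (gext_lev β f x) (gext_lev β f y) (gext_fst hβ x) (gext_fst hβ y)
    (fun e => h.ne (gext_inj f hi e)) h0

def QQ (m : ℕ) (b : Bool) (t : ℕ) : Finset (VV m) := univ.filter fun x => x.1 = b ∧ t < lev x

theorem mem_QQ {b : Bool} {t : ℕ} {x : VV m} : x ∈ QQ m b t ↔ x.1 = b ∧ t < lev x := by
  simp [QQ]

theorem QQ_card (b : Bool) (t : ℕ) : m - t ≤ (QQ m b t).card := by
  rw [← Nat.card_Ioc]
  apply card_le_card_of_surjOn lev
  intro n hn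
  simp only [coe_Ioc, Set.mem_Ioc] at hn
  obtain ⟨x, h1, h2⟩ := exists_lev (m := m) b (t := n) (by omega) hn.2
  exact ⟨x, by simp [mem_QQ, h1, h2, hn.1], h2⟩

theorem QQ_clique (b : Bool) (t : ℕ) :
    ∀ p ∈ QQ m b t, ∀ q ∈ QQ m b t, p ≠ q → (GG m).Adj p q := by
  intro p hp q hq hne
  rw [mem_QQ] at hp hq
  exact adj_of hne (Or.inl (hp.1.trans hq.1.symm)) (Or.inl (by omega))

theorem bl_adj_QQ (p : B) {x : VV m} (hx : x ∈ QQ m p.1 0) : (GG m).Adj (bl p) x := by
  rw [mem_QQ] at hx
  refine adj_of (fun e => ?_) (Or.inl hx.1.symm) (Or.inr (by omega))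
  rw [← e] at hx
  simp at hx

def blocks (m : ℕ) : Finset (VV m) := univ.image bl

theorem blocks_card : (blocks m).card ≤ 16 := card_image_le.trans (by simp)

theorem mem_blocks {x : VV m} (h : lev x = 0) : x ∈ blocks m := by
  obtain ⟨p, rfl⟩ := exists_bl h
  exact mem_image.2 ⟨p, mem_univ _, rfl⟩

theorem card_VV : Fintype.card (VV m) = 2 * (8 + m) := by simp

variable {k : ℕ} (F : SimpleGraph (Fin k)) (r : Fin k)

/-- the numeric hypothesis -/
def Big (k m : ℕ) : Prop :=
  ∀ (Z Q : Finset (VV m)) (j : ℕ), Z.card ≤ 19 → j ≤ 3 → m ≤ 2 * Q.card + 2 →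
    100 * (k * k + 1) * (ES k Z (j + 1)).card < (Q.card + 1 - k) ^ (k - j)

theorem big_of (hk : 3 ≤ k) (h1 : 4 * k + 20 ≤ m)
    (h2 : 100 * (k * k + 1) * 2 ^ k * 19 ^ 4 * 8 ^ k ≤ m) : Big k m := by
  intro Z Q j hZ hj hQ
  apply numeric Z j _ _ hZ (by omega) hj
  · rw [card_VV]; omega
  · rw [card_VV]; omega

theorem weak {v : VV m} (hv : lev v ≠ 0) :
    (RS F (GG m) r v).card ≤
      (RS F (GG m) r (fl true v)).card + (ES k (insert v (blocks m)) 3).card := by
  have := second F (GG m) r (fl true) (fl_inj true) rfl (insert v (blocks m))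
    (mem_insert_self _ _) (by
      intro p q h hn
      have h0 : lev p = 0 ∧ lev q = 0 := by
        by_contra hc
        exact hn (pres true h rfl rfl rfl rfl (fun e => h.ne (fl_inj true e)) (by omega))
      refine ⟨mem_insert_of_mem (mem_blocks h0.1), mem_insert_of_mem (mem_blocks h0.2), ?_, ?_⟩
      · rintro rfl; exact hv h0.1
      · rintro rfl; exact hv h0.2) ∅ (empty_subset _) (by simp)
  simpa using this

theorem step_same {a : Fin k} (hra : F.Adj r a) {u v : VV m} (hs : u.1 = v.1)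
    (hl : lev u = lev v + 1) :
    ∃ (Z Q : Finset (VV m)), Z.card ≤ 19 ∧ m ≤ 2 * Q.card + 2 ∧
      (RS F (GG m) r v).card + (Q.card + 1 - k) ^ (k - 2) ≤
        (RS F (GG m) r u).card + (ES k Z 3).card := by
  have hu := lev_le u
  obtain ⟨z, hz1, hz2⟩ := exists_lev (m := m) (!u.1) (t := m + 1 - lev u) (by omega) (by omega)
  have hzu : z.1 ≠ u.1 := by rw [hz1]; simp
  have huz : (GG m).Adj u z :=
    adj_of (fun e => hzu (by rw [e])) (Or.inr (by omega)) (Or.inl (by omega))
  have huv : u ≠ v := fun e => by rw [e] at hl; omega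
  obtain ⟨Q, hQ1, hQ2, hQ3, hQ4⟩ : ∃ Q : Finset (VV m), m ≤ 2 * Q.card + 2 ∧
      (∀ p ∈ Q, ∀ q ∈ Q, p ≠ q → (GG m).Adj p q) ∧ (∀ q ∈ Q, (GG m).Adj u q) ∧
      ∀ q ∈ Q, (GG m).Adj z q := by
    by_cases h : 2 * lev u ≤ m + 1
    · refine ⟨QQ m u.1 (lev u), ?_, QQ_clique _ _, fun q hq => ?_, fun q hq => ?_⟩
      · have := QQ_card (m := m) u.1 (lev u); omega
      · rw [mem_QQ] at hq
        exact adj_of (fun e => by rw [e] at hq; omega) (Or.inl hq.1.symm) (Or.inl (by omega))
      · rw [mem_QQ] at hq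
        exact adj_of (fun e => hzu (e ▸ hq.1)) (Or.inr (by omega)) (Or.inr (by omega))
    · refine ⟨QQ m z.1 (lev z), ?_, QQ_clique _ _, fun q hq => ?_, fun q hq => ?_⟩
      · have := QQ_card (m := m) z.1 (lev z); omega
      · rw [mem_QQ] at hq
        exact adj_of (fun e => hzu (e ▸ hq.1.symm)) (Or.inr (by omega)) (Or.inr (by omega))
      · rw [mem_QQ] at hq
        exact adj_of (fun e => by rw [e] at hq; omega) (Or.inl hq.1.symm) (Or.inr (by omega))
  obtain ⟨Gn, hG1, hG2⟩ := gain2 F (GG m) hra.ne huz Q hQ2 hQ3 hQ4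
  have hdom : ∀ q, (GG m).Adj v q → q ≠ u → (GG m).Adj u q := by
    intro q h hq
    refine adj_of (Ne.symm hq) ?_ (Or.inl (by omega))
    rcases h.2.1 with h1 | h1
    · exact Or.inl (hs.trans h1)
    · exact Or.inr (by omega)
  have hmiss : ∀ q, (GG m).Adj u q → q ≠ v → ¬ (GG m).Adj v q → q ∈ blocks m ∨ q = z := by
    intro q h hq hn
    by_cases h0 : lev q = 0
    · exact Or.inl (mem_blocks h0)
    · right
      have h2 : ¬ (v.1 = q.1 ∨ m + 1 ≤ lev v + lev q) := fun h' =>
        hn (adj_of (Ne.symm hq) h' (Or.inr h0))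
      have h3 : u.1 ≠ q.1 := fun e => h2 (Or.inl (hs ▸ e))
      have h4 : m + 1 ≤ lev u + lev q := h.2.1.resolve_left h3
      refine ext_lev ?_ (by omega) h0
      rw [hz1]
      revert h3
      cases u.1 <;> cases q.1 <;> simp
  refine ⟨insert v (insert u (insert z (blocks m))), Q, ?_, hQ1, ?_⟩
  · have := blocks_card (m := m)
    have h1 := card_insert_le v (insert u (insert z (blocks m)))
    have h2 := card_insert_le u (insert z (blocks m))
    have h3 := card_insert_le z (blocks m)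
    omega
  · refine le_trans (by gcongr) (second F (GG m) r (Equiv.swap u v) (Equiv.injective _)
      (Equiv.swap_apply_right u v) _ (mem_insert_self _ _) ?_ Gn (fun φ hφ => (hG2 φ hφ).1) ?_)
    · have key : ∀ p q, (GG m).Adj p q → ¬ (GG m).Adj (Equiv.swap u v p) (Equiv.swap u v q) →
          p ≠ v ∧ (p = u → q ∈ blocks m ∨ q = z) := by
        intro p q h hn
        constructor
        · rintro rfl
          rw [Equiv.swap_apply_right] at hn
          by_cases hq : q = u
          · subst hq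
            rw [Equiv.swap_apply_left] at hn
            exact hn h.symm
          · rw [Equiv.swap_apply_of_ne_of_ne hq h.ne'] at hn
            exact hn (hdom q h hq)
        · rintro rfl
          rw [Equiv.swap_apply_left] at hn
          by_cases hq : q = v
          · subst hq
            rw [Equiv.swap_apply_right] at hn
            exact absurd h.symm hn
          · rw [Equiv.swap_apply_of_ne_of_ne h.ne' hq] at hn
            exact hmiss q h hq hn
      intro p q h hn
      obtain ⟨k1, k2⟩ := key p q h hn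
      obtain ⟨k3, k4⟩ := key q p h.symm fun h' => hn h'.symm
      have : p = u ∨ q = u := by
        by_contra hc
        push Not at hc
        rw [Equiv.swap_apply_of_ne_of_ne hc.1 k1, Equiv.swap_apply_of_ne_of_ne hc.2 k3] at hn
        exact hn h
      rcases this with e | e
      · refine ⟨by simp [e], ?_, k1, k3⟩
        rcases k2 e with h' | h' <;> simp [h']
      · refine ⟨?_, by simp [e], k1, k3⟩
        rcases k4 e with h' | h' <;> simp [h']
    · intro φ hφ hmem
      obtain ⟨⟨hi, ha⟩, hr⟩ := mem_RS.1 hφ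
      have h1 := (hG2 _ hmem).2
      have h2 : φ a = z := by
        have : Equiv.swap u v z = z := Equiv.swap_apply_of_ne_of_ne huz.ne'
          (fun e => hzu (by rw [e, hs]))
        apply (Equiv.swap u v).injective
        rw [this]
        exact h1
      have h3 := ha r a hra
      rw [hr, h2] at h3
      rcases h3.2.1 with h4 | h4
      · exact hzu (by rw [← h4, hs])
      · omega

theorem Zcard (v : VV m) : (insert v (blocks m)).card ≤ 19 := by
  have := blocks_card (m := m)
  have h1 := card_insert_le v (blocks m)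
  omega

theorem step (hB : Big k m) {a : Fin k} (hra : F.Adj r a) {u v : VV m} (hl : lev u = lev v + 1) :
    (RS F (GG m) r v).card < (RS F (GG m) r u).card := by
  by_cases hs : u.1 = v.1
  · obtain ⟨Z, Q, h1, h2, h3⟩ := step_same F r hra hs hl
    have := hB Z Q 2 h1 (by norm_num) h2
    nlinarith
  · have hs' : (fl true u).1 = v.1 := by
      rw [fl_fst]
      revert hs
      cases u.1 <;> cases v.1 <;> simp
    obtain ⟨Z, Q, h1, h2, h3⟩ := step_same F r hra hs' hl
    have h4 := weak F r (v := fl true u) (by rw [lev_fl]; omega)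
    rw [fl_fl] at h4
    have h5 := hB Z Q 2 h1 (by norm_num) h2
    have h6 := hB _ Q 2 (Zcard (fl true u)) (by norm_num) h2
    nlinarith

theorem lev_lt (hB : Big k m) {a : Fin k} (hra : F.Adj r a) (d : ℕ) :
    ∀ u v : VV m, lev u = lev v + 1 + d → (RS F (GG m) r v).card < (RS F (GG m) r u).card := by
  induction d with
  | zero => exact fun u v h => step F r hB hra h
  | succ d ih =>
    intro u v h
    have hu := lev_le u
    obtain ⟨w, -, hw⟩ := exists_lev (m := m) true (t := lev u - 1) (by omega) (by omega)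
    exact (ih w v (by omega)).trans (step F r hB hra (by omega))

theorem block_lt (hB : Big k m) {a : Fin k} (hra : F.Adj r a) {u v z : B} {β : B → B} {f : Bool}
    (hβ : ∀ p, (β p).1 = xor p.1 f) (hi : Function.Injective β) (hv : β v = u)
    (hN : ∀ q, adjB v q → adjB u (β q)) (hz : adjB u z) (hz' : ∀ q, adjB v q → β q ≠ z) :
    (RS F (GG m) r (bl v)).card < (RS F (GG m) r (bl u)).card := by
  obtain ⟨Gn, hG1, hG2⟩ := gain2 F (GG m) hra.ne (adj_bl.2 hz) (QQ m u.1 0) (QQ_clique _ _)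
    (fun q hq => bl_adj_QQ u hq) (fun q hq => bl_adj_QQ z (hz.1 ▸ hq))
  have h1 := second F (GG m) r (u := bl u) (v := bl v) (gext β f) (gext_inj f hi)
    (by rw [gext_bl, hv]) (insert (bl v) (blocks m)) (mem_insert_self _ _) (by
      intro p q h hn
      have h0 : lev p = 0 ∧ lev q = 0 := by
        by_contra hc
        exact hn (gext_adj hβ hi h (by omega))
      refine ⟨mem_insert_of_mem (mem_blocks h0.1), mem_insert_of_mem (mem_blocks h0.2), ?_, ?_⟩
      · rintro rfl
        obtain ⟨q, rfl⟩ := exists_bl h0.2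
        rw [gext_bl, gext_bl, adj_bl, hv] at hn
        exact hn (hN q (adj_bl.1 h))
      · rintro rfl
        obtain ⟨p, rfl⟩ := exists_bl h0.1
        rw [gext_bl, gext_bl, adj_bl, hv] at hn
        exact hn (adjB_symm _ _ (hN p (adj_bl.1 h.symm)))) Gn (fun φ hφ => (hG2 φ hφ).1) (by
      intro φ hφ hmem
      obtain ⟨⟨-, ha⟩, hr⟩ := mem_RS.1 hφ
      have h1 : gext β f (φ a) = bl z := (hG2 _ hmem).2
      have h2 : lev (φ a) = 0 := by rw [← gext_lev β f, h1, lev_bl]
      obtain ⟨q, hq⟩ := exists_bl h2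
      have h3 := ha r a hra
      rw [hr, hq, adj_bl] at h3
      rw [hq, gext_bl, bl_inj] at h1
      exact hz' q h3 h1)
  have h2 := QQ_card (m := m) u.1 0
  have h3 := hB _ (QQ m u.1 0) 2 (Zcard (bl v)) (by norm_num) (by omega)
  nlinarith

end Pool.Agent.H24.IrrB
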