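import Mathlib
import Pool.Agent.H24.IrrB

namespace Pool.Agent.H24.IrrC

open Finset Pool.Agent.H24.IrrA Pool.Agent.H24.IrrB

variable {m k : ℕ} (F : SimpleGraph (Fin k)) (r : Fin k)

open Classical in
noncomputable def RStar (v : VV m) : Finset (Fin k → VV m) :=
  (RS F (GG m) r v).filter fun φ =>
    ¬ ∃ a b, F.Adj a b ∧ lev (φ a) = 0 ∧ lev (φ b) = 0 ∧ φ a ≠ v ∧ φ b ≠ v

open Classical in
noncomputable def fset (w : VV m) (p q : B) : Finset (Fin k → VV m) :=
  (RS F (GG m) r w).filter fun φ => (∃ a b, F.Adj a b ∧ φ a = bl p ∧ φ b = bl q) ∧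
    ∀ x, lev (φ x) = 0 → φ x = w ∨ φ x = bl p ∨ φ x = bl q

def BEall : Finset (B × B) := univ.filter fun e => adjB e.1 e.2 ∧ e.1.2 < e.2.2

def BE (w : VV m) : Finset (B × B) := BEall.filter fun e => bl e.1 ≠ w ∧ bl e.2 ≠ w

theorem mem_fset {w : VV m} {p q : B} {φ : Fin k → VV m} : φ ∈ fset F r w p q ↔
    φ ∈ RS F (GG m) r w ∧ (∃ a b, F.Adj a b ∧ φ a = bl p ∧ φ b = bl q) ∧
      ∀ x, lev (φ x) = 0 → φ x = w ∨ φ x = bl p ∨ φ x = bl q := by
  simp [fset]

theorem mem_RStar {v : VV m} {φ : Fin k → VV m} : φ ∈ RStar F r v ↔ φ ∈ RS F (GG m) r v ∧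
    ¬ ∃ a b, F.Adj a b ∧ lev (φ a) = 0 ∧ lev (φ b) = 0 ∧ φ a ≠ v ∧ φ b ≠ v := by
  simp only [RStar, mem_filter]

theorem mem_BE {w : VV m} {e : B × B} :
    e ∈ BE w ↔ (adjB e.1 e.2 ∧ e.1.2 < e.2.2) ∧ bl e.1 ≠ w ∧ bl e.2 ≠ w := by
  simp [BE, BEall]

theorem fset_symm (w : VV m) (p q : B) : fset F r w p q = fset F r w q p := by
  ext φ
  rw [mem_fset, mem_fset]
  constructor <;>
  · rintro ⟨h1, ⟨a, b, h2, h3, h4⟩, h5⟩
    exact ⟨h1, ⟨b, a, h2.symm, h4, h3⟩, fun x hx => by have := h5 x hx; tauto⟩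

theorem upper (v : VV m) : (RS F (GG m) r v).card ≤ (RStar F r v).card +
    ∑ e ∈ BE v, (fset F r v e.1 e.2).card + (ES k (insert v (blocks m)) 4).card := by
  have hsub : RS F (GG m) r v ⊆ (RStar F r v ∪ (BE v).biUnion fun e => fset F r v e.1 e.2) ∪
      ES k (insert v (blocks m)) 4 := by
    intro φ hφ
    by_cases h1 : φ ∈ RStar F r v
    · exact mem_union_left _ (mem_union_left _ h1)
    by_cases h2 : φ ∈ ES k (insert v (blocks m)) 4
    · exact mem_union_right _ h2
    refine mem_union_left _ (mem_union_right _ ?_)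
    rw [mem_RStar] at h1
    obtain ⟨a, b, hab, ha, hb, hav, hbv⟩ : ∃ a b, F.Adj a b ∧ lev (φ a) = 0 ∧ lev (φ b) = 0 ∧
        φ a ≠ v ∧ φ b ≠ v := by
      by_contra h
      exact h1 ⟨hφ, h⟩
    obtain ⟨⟨hi, hadj⟩, hr⟩ := mem_RS.1 hφ
    obtain ⟨p, hp⟩ := exists_bl ha
    obtain ⟨q, hq⟩ := exists_bl hb
    have hpq : adjB p q := by
      have := hadj a b hab
      rwa [hp, hq, adj_bl] at this
    have hf : φ ∈ fset F r v p q := by
      refine (mem_fset F r).2 ⟨hφ, ⟨a, b, hab, hp, hq⟩, fun x hx => ?_⟩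
      by_contra hc
      push Not at hc
      refine h2 (mem_ES4 (a := r) (b := a) (c := b) (d := x) (fun h => hav (h ▸ hr))
        (fun h => hbv (h ▸ hr)) hab.ne (fun h => hc.1 (h ▸ hr)) (fun h => hc.2.1 (h ▸ hp))
        (fun h => hc.2.2 (h ▸ hq)) (hr ▸ mem_insert_self _ _)
        (mem_insert_of_mem (mem_blocks ha)) (mem_insert_of_mem (mem_blocks hb))
        (mem_insert_of_mem (mem_blocks hx)))
    have hne : p.2 ≠ q.2 := fun h => adjB_ne p q hpq (Prod.ext hpq.1 h)
    rcases lt_or_gt_of_ne hne with h | h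
    · exact mem_biUnion.2 ⟨(p, q), mem_BE.2 ⟨⟨hpq, h⟩, hp ▸ hav, hq ▸ hbv⟩, hf⟩
    · exact mem_biUnion.2 ⟨(q, p), mem_BE.2 ⟨⟨adjB_symm _ _ hpq, h⟩, hq ▸ hbv, hp ▸ hav⟩,
        fset_symm F r v p q ▸ hf⟩
  refine (card_le_card hsub).trans ((card_union_le _ _).trans ?_)
  gcongr
  exact (card_union_le _ _).trans (by gcongr; exact card_biUnion_le)

theorem lower (u : VV m) : (RStar F r u).card + ∑ e ∈ BE u, (fset F r u e.1 e.2).card ≤
    (RS F (GG m) r u).card := by
  rw [← card_biUnion, ← card_union_of_disjoint]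
  · apply card_le_card
    intro φ hφ
    rcases mem_union.1 hφ with h | h
    · exact ((mem_RStar F r).1 h).1
    · obtain ⟨e, -, he⟩ := mem_biUnion.1 h
      exact ((mem_fset F r).1 he).1
  · rw [disjoint_left]
    intro φ h1 h2
    obtain ⟨e, he, hf⟩ := mem_biUnion.1 h2
    obtain ⟨-, ⟨a, b, hab, ha, hb⟩, -⟩ := (mem_fset F r).1 hf
    obtain ⟨-, e1, e2⟩ := mem_BE.1 he
    exact ((mem_RStar F r).1 h1).2 ⟨a, b, hab, by simp [ha], by simp [hb], ha ▸ e1, hb ▸ e2⟩
  · intro e he e' he' hne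
    rw [Function.onFun, disjoint_left]
    intro φ h1 h2
    apply hne
    obtain ⟨-, ⟨a, b, -, ha, hb⟩, -⟩ := (mem_fset F r).1 h2
    obtain ⟨-, -, h3⟩ := (mem_fset F r).1 h1
    obtain ⟨⟨f1, f2⟩, -, -⟩ := mem_BE.1 (mem_coe.1 he)
    obtain ⟨⟨-, f4⟩, e1, e2⟩ := mem_BE.1 (mem_coe.1 he')
    have ta := h3 a (by simp [ha])
    have tb := h3 b (by simp [hb])
    rw [ha] at ta
    rw [hb] at tb
    simp only [e1, e2, false_or, bl_inj] at ta tb
    rcases ta with ta | ta <;> rcases tb with tb | tb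
    · rw [ta, tb] at f4; exact absurd f4 (lt_irrefl _)
    · exact Prod.ext ta.symm tb.symm
    · rw [ta, tb] at f4; exact absurd (f2.trans f4) (lt_irrefl _)
    · rw [ta, tb] at f4; exact absurd f4 (lt_irrefl _)

theorem star_le {u v : VV m} {β : B → B} {f : Bool}
    (hβ : ∀ p, (β p).1 = xor p.1 f) (hi : Function.Injective β) (hv : gext β f v = u)
    (hN : ∀ p q, v = bl p → adjB p q → adjB (β p) (β q)) :
    (RStar F r v).card ≤ (RStar F r u).card := by
  have := inj_le (RStar F r v) (RStar F r u) ∅ (fun φ => gext β f ∘ φ)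
    (fun φ _ φ' _ h => funext fun x => gext_inj f hi (congrFun h x)) (by
      intro φ hφ
      obtain ⟨h1, h2⟩ := (mem_RStar F r).1 hφ
      obtain ⟨⟨hinj, hadj⟩, hr⟩ := mem_RS.1 h1
      refine (mem_RStar F r).2 ⟨mem_RS.2 ⟨⟨(gext_inj f hi).comp hinj, fun a b hab => ?_⟩,
        by simp [hr, hv]⟩, ?_⟩
      · by_cases h0 : lev (φ a) ≠ 0 ∨ lev (φ b) ≠ 0
        · exact gext_adj hβ hi (hadj a b hab) h0
        · push Not at h0
          obtain ⟨p, hp⟩ := exists_bl h0.1
          obtain ⟨q, hq⟩ := exists_bl h0.2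
          have h3 := hadj a b hab
          simp only [Function.comp]
          rw [hp, hq] at h3 ⊢
          rw [gext_bl, gext_bl, adj_bl]
          rw [adj_bl] at h3
          by_cases hav : φ a = v
          · exact hN p q (hav ▸ hp) h3
          · by_cases hbv : φ b = v
            · exact adjB_symm _ _ (hN q p (hbv ▸ hq) (adjB_symm _ _ h3))
            · exact absurd ⟨a, b, hab, h0.1, h0.2, hav, hbv⟩ h2
      · rintro ⟨a, b, hab, ha, hb, hav, hbv⟩
        simp only [Function.comp, gext_lev] at ha hb hav hbv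
        exact h2 ⟨a, b, hab, ha, hb, fun e => hav (e ▸ hv), fun e => hbv (e ▸ hv)⟩)
    (empty_subset _) (by simp)
  simpa using this

theorem transfer {w w' : VV m} {p q p' q' : B} (f : Bool)
    (hw : (lev w = 0 ∧ lev w' = 0) ∨ (lev w ≠ 0 ∧ w' = fl f w)) (hs : w'.1 = xor w.1 f)
    (hp : p'.1 = xor p.1 f) (hq : q'.1 = xor q.1 f)
    (n1 : w ≠ bl p) (n2 : w ≠ bl q) (n3 : p ≠ q) (n1' : w' ≠ bl p') (n2' : w' ≠ bl q')
    (hpq : adjB p' q') (a1 : lev w = 0 → (GG m).Adj w (bl p) → (GG m).Adj w' (bl p'))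
    (a2 : lev w = 0 → (GG m).Adj w (bl q) → (GG m).Adj w' (bl q'))
    (Gn : Finset (Fin k → VV m)) (hG : Gn ⊆ fset F r w' p' q')
    (hG' : ∀ φ ∈ Gn, ¬ (GG m).Adj w (bl q) ∧ ∃ a, F.Adj r a ∧ φ a = bl q') :
    (fset F r w p q).card + Gn.card ≤ (fset F r w' p' q').card := by
  let g : VV m → VV m := fun x =>
    if x = w then w' else if x = bl p then bl p' else if x = bl q then bl q' else fl f x
  have n3' : p' ≠ q' := adjB_ne _ _ hpq
  have gw : g w = w' := if_pos rfl
  have gp : g (bl p) = bl p' := by simp [g, n1.symm]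
  have gq : g (bl q) = bl q' := by simp [g, n2.symm, bl_inj, n3.symm]
  have gc : ∀ x, lev x ≠ 0 → g x = fl f x := by
    intro x hx
    by_cases h : x = w
    · subst h
      rw [gw]
      exact (hw.resolve_left fun h => hx h.1).2
    · have h1 : x ≠ bl p := fun e => hx (by simp [e])
      have h2 : x ≠ bl q := fun e => hx (by simp [e])
      simp [g, h, h1, h2]
  let S : VV m → Prop := fun x => lev x = 0 → x = w ∨ x = bl p ∨ x = bl q
  have glev : ∀ x, S x → lev (g x) = lev x := by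
    intro x hx
    by_cases h0 : lev x = 0
    · rcases hx h0 with rfl | rfl | rfl
      · rw [gw, h0]
        exact (hw.resolve_right fun h => h.1 h0).2
      · rw [gp]; rfl
      · rw [gq]; rfl
    · rw [gc x h0, lev_fl]
  have gfst : ∀ x, S x → (g x).1 = xor x.1 f := by
    intro x hx
    by_cases h0 : lev x = 0
    · rcases hx h0 with rfl | rfl | rfl
      · rw [gw, hs]
      · rw [gp]; exact hp
      · rw [gq]; exact hq
    · rw [gc x h0, fl_fst]
  have ginj : ∀ x y, S x → S y → g x = g y → x = y := by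
    intro x y hx hy h
    have hl : lev x = lev y := by rw [← glev x hx, h, glev y hy]
    by_cases h0 : lev x = 0
    · have b3 : (bl p' : VV m) ≠ bl q' := fun e => n3' (bl_inj.1 e)
      rcases hx h0 with e | e | e <;> rcases hy (hl ▸ h0) with e' | e' | e' <;>
        rw [e, e'] at h ⊢ <;> simp only [gw, gp, gq] at h <;>
        first | rfl | exact absurd h (by assumption) | exact absurd h.symm (by assumption)
    · rw [gc x h0, gc y (hl ▸ h0)] at h
      exact fl_inj f h
  have gadj : ∀ x y, S x → S y → (GG m).Adj x y → (GG m).Adj (g x) (g y) := by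
    intro x y hx hy h
    by_cases h0 : lev x ≠ 0 ∨ lev y ≠ 0
    · exact pres f h (glev x hx) (glev y hy) (gfst x hx) (gfst y hy)
        (fun e => h.ne (ginj x y hx hy e)) h0
    · push Not at h0
      rcases hx h0.1 with e | e | e <;> rcases hy h0.2 with e' | e' | e' <;>
        rw [e, e'] at h ⊢ <;> simp only [gw, gp, gq]
      · exact absurd rfl h.ne
      · exact a1 (e ▸ h0.1) h
      · exact a2 (e ▸ h0.1) h
      · exact (a1 (e' ▸ h0.2) h.symm).symm
      · exact absurd rfl h.ne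
      · exact adj_bl.2 hpq
      · exact (a2 (e' ▸ h0.2) h.symm).symm
      · exact (adj_bl.2 hpq).symm
      · exact absurd rfl h.ne
  refine inj_le (fset F r w p q) (fset F r w' p' q') Gn (fun φ => g ∘ φ) ?_ ?_ hG ?_
  · intro φ hφ φ' hφ' h
    funext x
    exact ginj _ _ (((mem_fset F r).1 hφ).2.2 x) (((mem_fset F r).1 hφ').2.2 x) (congrFun h x)
  · intro φ hφ
    obtain ⟨h1, ⟨a, b, hab, ha, hb⟩, h3⟩ := (mem_fset F r).1 hφ
    obtain ⟨⟨hinj, hadj⟩, hr⟩ := mem_RS.1 h1
    refine (mem_fset F r).2 ⟨mem_RS.2 ⟨⟨fun x y h => hinj (ginj _ _ (h3 x) (h3 y) h),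
      fun x y h => gadj _ _ (h3 x) (h3 y) (hadj x y h)⟩, by simp [hr, gw]⟩,
      ⟨a, b, hab, by simp [ha, gp], by simp [hb, gq]⟩, fun x hx => ?_⟩
    simp only [Function.comp] at hx ⊢
    rw [glev _ (h3 x)] at hx
    rcases h3 x hx with e | e | e <;> rw [e] <;> simp [gw, gp, gq]
  · intro φ hφ hmem
    obtain ⟨h1, -, h3⟩ := (mem_fset F r).1 hφ
    obtain ⟨⟨-, hadj⟩, hr⟩ := mem_RS.1 h1
    obtain ⟨hn, a, hra, ha⟩ := hG' _ hmem
    have : φ a = bl q := ginj _ _ (h3 a) (fun _ => Or.inr (Or.inr rfl)) (by rw [gq]; exact ha)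
    have h4 := hadj r a hra
    rw [hr, this] at h4
    exact hn h4

/-- forced edges -/
def Rel (F : SimpleGraph (Fin k)) (m : ℕ) (l : Fin k → ℕ) (x y : Fin k) : Prop :=
  F.Adj x y ∧ l x + l y ≤ m

theorem ferro {v v' : VV m} {p q : B} (hpq : adjB p q) (hs : v.1 ≠ p.1) (hs' : v'.1 = p.1)
    (hw : (lev v = 0 ∧ lev v' = 0) ∨ (lev v ≠ 0 ∧ v' = fl true v))
    (n1' : v' ≠ bl p) (n2' : v' ≠ bl q)
    (Gn : Finset (Fin k → VV m)) (hG : Gn ⊆ fset F r v' p q)
    (hG' : ∀ φ ∈ Gn, ∃ a, F.Adj r a ∧ φ a = bl p) :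
    (fset F r v p q).card + Gn.card ≤ (fset F r v' p q).card +
      k * k * (ES k (insert v (blocks m)) 4).card := by
  classical
  let Bad : Finset (Fin k → VV m) :=
    (fset F r v p q).filter fun φ => ∃ x y, lev (φ x) ≠ 0 ∧ φ x = fl true (φ y)
  have hBad : Bad.card ≤ k * k * (ES k (insert v (blocks m)) 4).card := by
    have hsub : Bad ⊆ (univ : Finset (Fin k × Fin k)).biUnion fun e =>
        (fset F r v p q).filter fun φ => e.1 ≠ r ∧ e.1 ≠ e.2 ∧ lev (φ e.1) ≠ 0 ∧
          φ e.1 = fl true (φ e.2) := by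
      intro φ hφ
      obtain ⟨h1, x, y, hx, hxy⟩ := mem_filter.1 hφ
      have hne : x ≠ y := by
        rintro rfl
        have := congrArg Prod.fst hxy
        simp at this
      by_cases hxr : x = r
      · refine mem_biUnion.2 ⟨(y, x), mem_univ _, mem_filter.2 ⟨h1, hxr ▸ hne.symm, hne.symm,
          ?_, ?_⟩⟩
        · rwa [hxy, lev_fl] at hx
        · simp [hxy]
      · exact mem_biUnion.2 ⟨(x, y), mem_univ _, mem_filter.2 ⟨h1, hxr, hne, hx, hxy⟩⟩
    refine (card_le_card hsub).trans ((card_biUnion_le_card_mul _ _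
      (ES k (insert v (blocks m)) 4).card ?_).trans (by simp))
    rintro ⟨x, y⟩ -
    apply card_le_card_of_injOn fun φ => Function.update φ x (bl p)
    · intro φ hφ
      obtain ⟨h1, hxr, -, hx, -⟩ := mem_filter.1 (mem_coe.1 hφ)
      obtain ⟨h2, ⟨a, b, hab, ha, hb⟩, -⟩ := (mem_fset F r).1 h1
      obtain ⟨-, hr⟩ := mem_RS.1 h2
      have hxa : x ≠ a := fun e => hx (by simp [e, ha])
      have hxb : x ≠ b := fun e => hx (by simp [e, hb])
      have hra : r ≠ a := fun e => hs (by rw [← hr, e, ha]; rfl)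
      have hrb : r ≠ b := fun e => hs (by rw [← hr, e, hb]; exact hpq.1.symm)
      refine mem_coe.2 (mem_ES4 (a := r) (b := a) (c := b) (d := x) hra hrb hab.ne hxr hxa hxb
        ?_ ?_ ?_ ?_)
      · simp [Function.update_of_ne (Ne.symm hxr), hr]
      · simp only
        rw [Function.update_of_ne hxa.symm, ha]
        exact mem_insert_of_mem (mem_blocks rfl)
      · simp only
        rw [Function.update_of_ne hxb.symm, hb]
        exact mem_insert_of_mem (mem_blocks rfl)
      · simp only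
        rw [Function.update_self]
        exact mem_insert_of_mem (mem_blocks rfl)
    · intro φ hφ φ' hφ' h
      obtain ⟨-, -, hxy, -, e⟩ := mem_filter.1 (mem_coe.1 hφ)
      obtain ⟨-, -, -, -, e'⟩ := mem_filter.1 (mem_coe.1 hφ')
      have key : ∀ t, t ≠ x → φ t = φ' t := by
        intro t ht
        have := congrFun h t
        simpa [Function.update_of_ne ht] using this
      funext t
      by_cases ht : t = x
      · subst ht
        simp only at e e' hxy
        rw [e, e', key y (Ne.symm hxy)]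
      · exact key t ht
  let C : (Fin k → VV m) → Fin k → Prop := fun φ x =>
    Relation.ReflTransGen (Rel F m fun t => lev (φ t)) r x
  let T : (Fin k → VV m) → Fin k → VV m := fun φ x =>
    if C φ x then (if x = r then v' else fl true (φ x)) else φ x
  have hv' : lev v' = lev v := by
    rcases hw with h | h
    · rw [h.1, h.2]
    · rw [h.2, lev_fl]
  have hv1 : v'.1 = xor v.1 true := by
    rw [hs']
    revert hs
    cases v.1 <;> cases p.1 <;> simp
  have Tlev : ∀ φ ∈ fset F r v p q, ∀ x, lev (T φ x) = lev (φ x) := by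
    intro φ hφ x
    obtain ⟨-, hr⟩ := mem_RS.1 ((mem_fset F r).1 hφ).1
    simp only [T]
    split_ifs with h1 h2
    · rw [h2, hr, hv']
    · rfl
    · rfl
  have Cside : ∀ φ ∈ fset F r v p q, ∀ x, C φ x → (φ x).1 = v.1 := by
    intro φ hφ x hx
    obtain ⟨⟨-, hadj⟩, hr⟩ := mem_RS.1 ((mem_fset F r).1 hφ).1
    induction hx with
    | refl => rw [hr]
    | tail _ h ih =>
      rcases (hadj _ _ h.1).2.1 with h1 | h1
      · rw [← h1, ih]
      · have := h.2
        simp only at this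
        omega
  have Cch : ∀ φ ∈ fset F r v p q, ∀ x, C φ x → x ≠ r → lev (φ x) ≠ 0 := by
    intro φ hφ x hx hxr h0
    obtain ⟨h1, -, h3⟩ := (mem_fset F r).1 hφ
    obtain ⟨⟨hinj, -⟩, hr⟩ := mem_RS.1 h1
    have := Cside φ hφ x hx
    rcases h3 x h0 with e | e | e
    · exact hxr (hinj (e.trans hr.symm))
    · rw [e] at this; exact hs this.symm
    · rw [e] at this; exact hs (this.symm.trans hpq.1.symm)
  have TC : ∀ φ ∈ fset F r v p q, ∀ x, C φ x → (T φ x).1 = p.1 := by
    intro φ hφ x hx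
    simp only [T, if_pos hx]
    split_ifs
    · exact hs'
    · rw [fl_fst, Cside φ hφ x hx, ← hv1, hs']
  have Tch : ∀ φ ∈ fset F r v p q, ∀ x, C φ x → lev (φ x) ≠ 0 → T φ x = fl true (φ x) := by
    intro φ hφ x hx h0
    obtain ⟨-, hr⟩ := mem_RS.1 ((mem_fset F r).1 hφ).1
    simp only [T, if_pos hx]
    split_ifs with h
    · rw [h, hr] at h0 ⊢
      exact (hw.resolve_left fun h => h0 h.1).2
    · rfl
  have Tn : ∀ φ x, ¬ C φ x → T φ x = φ x := fun φ x h => if_neg h
  have Tr : ∀ φ, T φ r = v' := fun φ => by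
    have : C φ r := Relation.ReflTransGen.refl
    simp [T, this]
  have nCp : ∀ φ ∈ fset F r v p q, ∀ x, (φ x).1 = p.1 → ¬ C φ x := fun φ hφ x h hx =>
    hs ((Cside φ hφ x hx).symm.trans h)
  have h1 := inj_le (fset F r v p q \ Bad) (fset F r v' p q) Gn T (by
      intro φ hφ φ' hφ' h
      have hφ := (mem_sdiff.1 (mem_coe.1 hφ)).1
      have hφ' := (mem_sdiff.1 (mem_coe.1 hφ')).1
      have hl : (fun t => lev (φ t)) = fun t => lev (φ' t) := by
        funext t
        rw [← Tlev φ hφ, h, Tlev φ' hφ']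
      have hC : C φ = C φ' := by simp only [C, hl]
      funext x
      have hx := congrFun h x
      by_cases hc : C φ x
      · by_cases hxr : x = r
        · rw [hxr, (mem_RS.1 ((mem_fset F r).1 hφ).1).2, (mem_RS.1 ((mem_fset F r).1 hφ').1).2]
        · rw [Tch φ hφ x hc (Cch φ hφ x hc hxr),
            Tch φ' hφ' x (hC ▸ hc) (Cch φ' hφ' x (hC ▸ hc) hxr)] at hx
          exact fl_inj true hx
      · rwa [Tn φ x hc, Tn φ' x (hC ▸ hc)] at hx) (by
      intro φ hφ
      obtain ⟨hφ, hnb⟩ := mem_sdiff.1 hφ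
      have hnb' : ∀ x y, lev (φ x) ≠ 0 → φ x ≠ fl true (φ y) := fun x y h1 h2 =>
        hnb (mem_filter.2 ⟨hφ, x, y, h1, h2⟩)
      obtain ⟨h1, ⟨a, b, hab, ha, hb⟩, h3⟩ := (mem_fset F r).1 hφ
      obtain ⟨⟨hinj, hadj⟩, hr⟩ := mem_RS.1 h1
      have mixed : ∀ x y, C φ x → ¬ C φ y → T φ x ≠ T φ y := by
        intro x y hx hy e
        rw [Tn φ y hy] at e
        by_cases h0 : lev (φ x) = 0
        · have hxr : x = r := by
            by_contra hxr
            exact Cch φ hφ x hx hxr h0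
          rw [hxr, Tr] at e
          rw [hxr, hr] at h0
          rcases h3 y (by rw [← e, hv', h0]) with e' | e' | e'
          · exact hs (by rw [← e', ← e, hs'])
          · exact n1' (e.trans e')
          · exact n2' (e.trans e')
        · rw [Tch φ hφ x hx h0] at e
          exact hnb' y x (by rwa [← e, lev_fl]) e.symm
      have Tinj : Function.Injective (T φ) := by
        intro x y e
        by_cases hx : C φ x <;> by_cases hy : C φ y
        · have hl : lev (φ x) = lev (φ y) := by rw [← Tlev φ hφ, e, Tlev φ hφ]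
          by_cases h0 : lev (φ x) = 0
          · have hxr : x = r := by
              by_contra hxr
              exact Cch φ hφ x hx hxr h0
            have hyr : y = r := by
              by_contra hyr
              exact Cch φ hφ y hy hyr (hl ▸ h0)
            rw [hxr, hyr]
          · rw [Tch φ hφ x hx h0, Tch φ hφ y hy (hl ▸ h0)] at e
            exact hinj (fl_inj true e)
        · exact absurd e (mixed x y hx hy)
        · exact absurd e.symm (mixed y x hy hx)
        · rw [Tn φ x hx, Tn φ y hy] at e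
          exact hinj e
      have cross : ∀ x y, F.Adj x y → C φ x → ¬ C φ y → (GG m).Adj (T φ x) (T φ y) := by
        intro x y hxy hx hy
        have : m + 1 ≤ lev (φ x) + lev (φ y) := by
          by_contra hc
          exact hy (hx.tail ⟨hxy, by simp only; omega⟩)
        have := lev_le (φ y)
        refine adj_of (mixed x y hx hy) (Or.inr ?_) (Or.inl ?_) <;> simp only [Tlev φ hφ] <;> omega
      refine (mem_fset F r).2 ⟨mem_RS.2 ⟨⟨Tinj, fun x y hxy => ?_⟩, Tr φ⟩,
        ⟨a, b, hab, ?_, ?_⟩, fun x hx => ?_⟩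
      · by_cases hx : C φ x <;> by_cases hy : C φ y
        · refine adj_of (fun e => hxy.ne (Tinj e))
            (Or.inl ((TC φ hφ x hx).trans (TC φ hφ y hy).symm)) ?_
          rw [Tlev φ hφ, Tlev φ hφ]
          by_cases hxr : x = r
          · exact Or.inr (Cch φ hφ y hy fun e => hxy.ne (hxr.trans e.symm))
          · exact Or.inl (Cch φ hφ x hx hxr)
        · exact cross x y hxy hx hy
        · exact (cross y x hxy.symm hy hx).symm
        · rw [Tn φ x hx, Tn φ y hy]
          exact hadj x y hxy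
      · rw [Tn φ a (nCp φ hφ a (by rw [ha]; rfl)), ha]
      · rw [Tn φ b (nCp φ hφ b (by rw [hb]; exact hpq.1.symm)), hb]
      · rw [Tlev φ hφ] at hx
        by_cases hc : C φ x
        · have hxr : x = r := by
            by_contra hxr
            exact Cch φ hφ x hc hxr hx
          left
          rw [hxr, Tr]
        · rw [Tn φ x hc]
          rcases h3 x hx with e | e | e
          · exact absurd (hinj (e.trans hr.symm) ▸ Relation.ReflTransGen.refl) hc
          · exact Or.inr (Or.inl e)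
          · exact Or.inr (Or.inr e)) hG (by
      intro φ hφ hmem
      have hφ := (mem_sdiff.1 hφ).1
      obtain ⟨a, hra, ha⟩ := hG' _ hmem
      have h0 : lev (φ a) = 0 := by rw [← Tlev φ hφ, ha, lev_bl]
      have hc : C φ a := by
        refine Relation.ReflTransGen.single ⟨hra, ?_⟩
        have := lev_le (φ r)
        simp only
        omega
      exact Cch φ hφ a hc hra.ne' h0)
  have h2 := le_card_sdiff Bad (fset F r v p q)
  omega

end Pool.Agent.H24.IrrC
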