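import Mathlib
import Pool.Agent.H24.IrrC

namespace Pool.Agent.H24.IrrD

open Finset Pool.Agent.H24.IrrA Pool.Agent.H24.IrrB Pool.Agent.H24.IrrC

def BEb (w : B) : Finset (B × B) := BEall.filter fun e => e.1 ≠ w ∧ e.2 ≠ w

def ty (w : B) (e : B × B) : Fin 4 :=
  if w.1 ≠ e.1.1 then 3 else if adjB w e.1 ∧ adjB w e.2 then 2
  else if adjB w e.1 ∨ adjB w e.2 then 1 else 0

def rep : Fin 4 → B × B × B :=
  ![((true, 0), (true, 2), (true, 3)), ((true, 0), (true, 5), (true, 2)),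
    ((true, 0), (true, 5), (true, 6)), ((false, 0), (true, 2), (true, 3))]

def cond (s t : B × B × B) : Prop :=
  t.2.1.1 = xor s.2.1.1 (xor s.1.1 t.1.1) ∧ t.2.2.1 = xor s.2.2.1 (xor s.1.1 t.1.1) ∧
    s.1 ≠ s.2.1 ∧ s.1 ≠ s.2.2 ∧ s.2.1 ≠ s.2.2 ∧ t.1 ≠ t.2.1 ∧ t.1 ≠ t.2.2 ∧ adjB t.2.1 t.2.2 ∧
    (adjB s.1 s.2.1 → adjB t.1 t.2.1) ∧ (adjB s.1 s.2.2 → adjB t.1 t.2.2)

instance : DecidableRel cond := fun s t => by unfold cond; infer_instance

theorem cond_rep : ∀ w p q : B, adjB p q → p ≠ w → q ≠ w →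
    (cond (w, p, q) (rep (ty w (p, q))) ∧ cond (rep (ty w (p, q))) (w, p, q)) ∨
    (cond (w, q, p) (rep (ty w (p, q))) ∧ cond (rep (ty w (p, q))) (w, q, p)) := by
  decide +kernel

def nnT (w : B) : Fin 4 → ℕ :=
  if w.1 then ![![4, 9, 3, 13], ![4, 10, 2, 13], ![2, 8, 5, 13], ![0, 6, 8, 13], ![1, 7, 6, 13],
    ![0, 3, 10, 13], ![0, 4, 9, 13], ![0, 5, 8, 13]] w.2
  else ![![8, 4, 0, 19], ![4, 6, 1, 19], ![6, 5, 0, 19], ![3, 6, 1, 19], ![0, 5, 4, 19],
    ![0, 6, 3, 19], ![0, 3, 5, 19], ![1, 3, 4, 19]] w.2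

theorem nn_eq : ∀ (w : B) (t : Fin 4), ((BEb w).filter fun e => ty w e = t).card = nnT w t := by
  decide +kernel

def rkB (w : B) : ℕ :=
  if w.1 then ![5, 4, 8, 12, 11, 15, 14, 13] w.2 else ![0, 2, 1, 3, 7, 6, 10, 9] w.2

theorem rkB_inj : ∀ u v : B, rkB u = rkB v → u = v := by decide +kernel

def ordL (w : B) : List (Fin 8) :=
  w.2 :: ((List.finRange 8).filter (fun t => hb w.1 w.2 t) ++
    (List.finRange 8).filter fun t => !hb w.1 w.2 t && t != w.2)

def bt (u v p : B) : B :=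
  if p.1 = v.1 then (u.1, (ordL u).getD ((ordL v).idxOf p.2) 0) else (!u.1, p.2)

set_option synthInstance.maxSize 4000 in
theorem table : ∀ u v : B, rkB v < rkB u →
    (∀ p, (bt u v p).1 = xor p.1 (xor u.1 v.1)) ∧ (∀ p q, bt u v p = bt u v q → p = q) ∧
    bt u v v = u ∧ (∀ q, adjB v q → adjB u (bt u v q)) ∧
    ((∃ z, adjB u z ∧ ∀ q, adjB v q → bt u v q ≠ z) ∨
      (nnT v 2 < nnT u 2 ∧ nnT v 2 + nnT v 1 ≤ nnT u 2 + nnT u 1 ∧
        nnT v 2 + nnT v 1 + nnT v 0 ≤ nnT u 2 + nnT u 1 + nnT u 0 ∧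
        nnT v 2 + nnT v 1 + nnT v 0 + nnT v 3 = nnT u 2 + nnT u 1 + nnT u 0 + nnT u 3 ∧
        nnT u 2 + nnT u 1 + nnT u 0 ≤ 32)) := by
  decide +kernel

theorem cardT : (BEall.filter fun e => e.1.1 = true).card = 19 := by decide +kernel

theorem cardF : (BEall.filter fun e => ¬ e.1.1 = true).card = 13 := by decide +kernel

variable {m k : ℕ} (F : SimpleGraph (Fin k)) (r : Fin k)

theorem T_block {s t : B × B × B} (h : cond s t) (Gn : Finset (Fin k → VV m))
    (hG : Gn ⊆ fset F r (bl t.1) t.2.1 t.2.2)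
    (hG' : ∀ φ ∈ Gn, ¬ adjB s.1 s.2.2 ∧ ∃ a, F.Adj r a ∧ φ a = bl t.2.2) :
    (fset F r (bl s.1 : VV m) s.2.1 s.2.2).card + Gn.card ≤
      (fset F r (bl t.1 : VV m) t.2.1 t.2.2).card := by
  obtain ⟨h1, h2, h3, h4, h5, h6, h7, h8, h9, h10⟩ := h
  refine transfer F r (xor s.1.1 t.1.1) (Or.inl ⟨rfl, rfl⟩) (by simp) h1 h2
    (by simpa [bl_inj] using h3) (by simpa [bl_inj] using h4) h5 (by simpa [bl_inj] using h6)
    (by simpa [bl_inj] using h7) h8 (fun _ h => adj_bl.2 (h9 (adj_bl.1 h)))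
    (fun _ h => adj_bl.2 (h10 (adj_bl.1 h))) Gn hG fun φ hφ => ?_
  rw [adj_bl]
  exact hG' φ hφ

theorem T_block' {s t : B × B × B} (h : cond s t) :
    (fset F r (bl s.1 : VV m) s.2.1 s.2.2).card ≤ (fset F r (bl t.1 : VV m) t.2.1 t.2.2).card := by
  simpa using T_block (m := m) F r h ∅ (empty_subset _) (by simp)

noncomputable def AA (m : ℕ) (t : Fin 4) : ℕ :=
  (fset F r (bl (rep t).1 : VV m) (rep t).2.1 (rep t).2.2).card

theorem sum_block (w : B) : ∑ e ∈ BE (bl w : VV m), (fset F r (bl w : VV m) e.1 e.2).card =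
    nnT w 0 * AA F r m 0 + nnT w 1 * AA F r m 1 + nnT w 2 * AA F r m 2 + nnT w 3 * AA F r m 3 := by
  have e1 : BE (bl w : VV m) = BEb w := by
    ext e
    simp [BE, BEb, bl_inj]
  have e2 : ∀ e ∈ BEb w, (fset F r (bl w : VV m) e.1 e.2).card = AA F r m (ty w e) := by
    rintro ⟨p, q⟩ he
    simp only [BEb, BEall, mem_filter, mem_univ, true_and] at he
    rcases cond_rep w p q he.1.1 he.2.1 he.2.2 with h | h
    · exact le_antisymm (T_block' F r h.1) (T_block' F r h.2)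
    · rw [fset_symm]
      exact le_antisymm (T_block' F r h.1) (T_block' F r h.2)
  rw [e1, sum_congr rfl e2, ← sum_fiberwise (BEb w) (ty w)]
  have e3 : ∀ t : Fin 4, ∑ e ∈ BEb w with ty w e = t, AA F r m (ty w e) = nnT w t * AA F r m t := by
    intro t
    rw [← nn_eq, sum_congr rfl (g := fun _ => AA F r m t) fun e he => by rw [(mem_filter.1 he).2],
      sum_const, smul_eq_mul]
  rw [Fin.sum_univ_four, e3, e3, e3, e3]

theorem gain_f {a b : Fin k} (hra : F.Adj r a) (hab : F.Adj a b) (hrb : r ≠ b) {u : VV m} {p q : B}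
    (hup : (GG m).Adj u (bl p)) (huq : (GG m).Adj u (bl q)) (hpq : adjB p q) :
    ∃ (Q : Finset (VV m)) (Gn : Finset (Fin k → VV m)), m ≤ Q.card + 1 ∧
      (Q.card + 1 - k) ^ (k - 3) ≤ Gn.card ∧ Gn ⊆ fset F r u p q ∧ ∀ φ ∈ Gn, φ a = bl p := by
  have hu : u.1 = p.1 := by
    rcases hup.2.1 with h | h
    · exact h
    · have := lev_le u
      simp at h
      omega
  obtain ⟨Gn, h1, h2⟩ := gain3 F (GG m) hra.ne hrb hab.ne hup huq (adj_bl.2 hpq)
    ((QQ m p.1 0).erase u)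
    (fun x hx y hy => QQ_clique _ _ x (mem_of_mem_erase hx) y (mem_of_mem_erase hy))
    (fun x hx => by
      have h := mem_QQ.1 (mem_of_mem_erase hx)
      exact adj_of (ne_of_mem_erase hx).symm (Or.inl (hu.trans h.1.symm)) (Or.inr (by omega)))
    (fun x hx => bl_adj_QQ p (mem_of_mem_erase hx))
    (fun x hx => bl_adj_QQ q (hpq.1 ▸ mem_of_mem_erase hx))
  refine ⟨_, Gn, ?_, h1, fun φ hφ => ?_, fun φ hφ => (h2 φ hφ).2.1⟩
  · have := QQ_card (m := m) p.1 0
    have := pred_card_le_card_erase (s := QQ m p.1 0) (a := u)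
    omega
  · obtain ⟨e1, e2, e3, e4⟩ := h2 φ hφ
    refine (mem_fset F r).2 ⟨e1, ⟨a, b, hab, e2, e3⟩, fun x hx => ?_⟩
    rcases e4 x with h | h | h | h
    · exact Or.inl h
    · exact Or.inr (Or.inl h)
    · exact Or.inr (Or.inr h)
    · have := (mem_QQ.1 (mem_of_mem_erase h)).2
      omega

theorem arith {u0 u1 u2 u3 v0 v1 v2 v3 A0 A1 A2 A3 g e : ℕ} (h1 : v2 < u2)
    (h2 : v2 + v1 ≤ u2 + u1) (h3 : v2 + v1 + v0 ≤ u2 + u1 + u0)
    (h4 : v2 + v1 + v0 + v3 = u2 + u1 + u0 + u3) (h5 : u2 + u1 + u0 ≤ 32)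
    (a1 : A0 ≤ A1) (a2 : A1 + g ≤ A2) (a3 : A3 ≤ A0 + e) :
    v0 * A0 + v1 * A1 + v2 * A2 + v3 * A3 + g ≤ u0 * A0 + u1 * A1 + u2 * A2 + u3 * A3 + 32 * e := by
  obtain ⟨x, rfl⟩ := Nat.exists_eq_add_of_le a1
  obtain ⟨y, rfl⟩ := Nat.exists_eq_add_of_le a2
  obtain ⟨d2, rfl⟩ := Nat.exists_eq_add_of_lt h1
  obtain ⟨d1, hd1⟩ := Nat.exists_eq_add_of_le h2
  obtain ⟨d0, hd0⟩ := Nat.exists_eq_add_of_le h3
  have e3 : v3 = u3 + d0 := by omega
  have hd : d0 ≤ 32 := by omega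
  subst e3
  zify at *
  have e1 : (u1 : ℤ) = v1 + d1 - d2 - 1 := by linarith
  have e0 : (u0 : ℤ) = v0 + d0 - d1 := by linarith
  rw [e1, e0]
  have p1 : (0 : ℤ) ≤ d0 * (A0 + e - A3) := mul_nonneg (by positivity) (by linarith)
  have p2 : (0 : ℤ) ≤ (32 - d0) * e := mul_nonneg (by linarith) (by positivity)
  have p3 : (0 : ℤ) ≤ d1 * x := by positivity
  have p4 : (0 : ℤ) ≤ d2 * (g + y) := by positivity
  have p5 : (0 : ℤ) ≤ y := by positivity
  nlinarith

theorem block_tie (hB : Big k m) {a b : Fin k} (hra : F.Adj r a) (hab : F.Adj a b) (hrb : r ≠ b)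
    {u v : B} (hstar : (RStar F r (bl v : VV m)).card ≤ (RStar F r (bl u : VV m)).card)
    (h : nnT v 2 < nnT u 2 ∧ nnT v 2 + nnT v 1 ≤ nnT u 2 + nnT u 1 ∧
        nnT v 2 + nnT v 1 + nnT v 0 ≤ nnT u 2 + nnT u 1 + nnT u 0 ∧
        nnT v 2 + nnT v 1 + nnT v 0 + nnT v 3 = nnT u 2 + nnT u 1 + nnT u 0 + nnT u 3 ∧
        nnT u 2 + nnT u 1 + nnT u 0 ≤ 32) :
    (RS F (GG m) r (bl v)).card < (RS F (GG m) r (bl u)).card := by
  have h1 := upper F r (bl v : VV m)
  have h2 := lower F r (bl u : VV m)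
  rw [sum_block] at h1 h2
  have a1 : AA F r m 0 ≤ AA F r m 1 := T_block' F r (by decide +kernel)
  obtain ⟨Q, Gn, q1, q2, q3, q4⟩ := gain_f (m := m) F r hra hab hrb (u := bl (true, 0))
    (p := (true, 6)) (q := (true, 5)) (adj_bl.2 (by decide +kernel))
    (adj_bl.2 (by decide +kernel)) (by decide +kernel)
  have a2 : AA F r m 1 + Gn.card ≤ AA F r m 2 := T_block F r (by decide +kernel) Gn
    (by rw [fset_symm]; exact q3) fun φ hφ => ⟨by decide +kernel, a, hra, q4 φ hφ⟩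
  have a3 : AA F r m 3 + (∅ : Finset (Fin k → VV m)).card ≤ AA F r m 0 +
      k * k * (ES k (insert (bl (false, 0)) (blocks m)) 4).card :=
    ferro F r (v := bl (false, 0)) (v' := bl (true, 0)) (p := (true, 2)) (q := (true, 3))
      (by decide +kernel) (by simp) rfl (Or.inl ⟨rfl, rfl⟩) (by simp [bl_inj])
      (by simp [bl_inj]) ∅ (empty_subset _) (by simp)
  have h3 := arith h.1 h.2.1 h.2.2.1 h.2.2.2.1 h.2.2.2.2 a1 a2 (by simpa using a3)
  have h4 := hB _ Q 3 (Zcard (bl v)) le_rfl (by omega)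
  have h5 := hB _ Q 3 (Zcard (bl (false, 0))) le_rfl (by omega)
  simp only [Nat.reduceAdd] at h4 h5
  nlinarith

def flB (p : B) : B := (!p.1, p.2)

theorem star_chain {v : VV m} (hv : lev v ≠ 0) :
    (RStar F r v).card ≤ (RStar F r (fl true v)).card :=
  star_le F r (β := flB) (f := true) (fun p => by simp [flB])
    (fun p q h => by
      simp only [flB, Prod.mk.injEq, Bool.not_inj_iff] at h
      exact Prod.ext h.1 h.2) (gext_ch _ _ hv)
    (fun p q h => absurd (by simp [h]) hv)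

theorem T_chain {w : VV m} (hw : lev w ≠ 0) (f : Bool) {p q p' q' : B} (hp : p'.1 = xor p.1 f)
    (hpq : adjB p q) (hpq' : adjB p' q') :
    (fset F r w p q).card ≤ (fset F r (fl f w) p' q').card := by
  have n : ∀ (x : VV m) (s : B), lev x ≠ 0 → x ≠ bl s := fun x s h e => h (by simp [e])
  simpa using transfer F r f (Or.inr ⟨hw, rfl⟩) rfl hp (by rw [← hpq.1, ← hpq'.1, hp])
    (n _ _ hw) (n _ _ hw) (adjB_ne _ _ hpq) (n _ _ hw) (n _ _ hw) hpq'
    (fun h => absurd h hw) (fun h => absurd h hw) ∅ (empty_subset _) (by simp)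

theorem fl_false (w : VV m) : fl false w = w := by simp [fl]

theorem sum_up (f : B × B → ℕ) (x y : ℕ) (h1 : ∀ e ∈ BEall, e.1.1 = true → f e ≤ x)
    (h2 : ∀ e ∈ BEall, ¬ e.1.1 = true → f e ≤ y) : ∑ e ∈ BEall, f e ≤ 19 * x + 13 * y := by
  rw [← sum_filter_add_sum_filter_not BEall fun e => e.1.1 = true]
  have a := sum_le_card_nsmul (BEall.filter fun e => e.1.1 = true) f x
    fun e he => h1 e (mem_filter.1 he).1 (mem_filter.1 he).2
  have b := sum_le_card_nsmul (BEall.filter fun e => ¬ e.1.1 = true) f y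
    fun e he => h2 e (mem_filter.1 he).1 (mem_filter.1 he).2
  rw [cardT, smul_eq_mul] at a
  rw [cardF, smul_eq_mul] at b
  exact Nat.add_le_add a b

theorem sum_lo (f : B × B → ℕ) (x y : ℕ) (h1 : ∀ e ∈ BEall, e.1.1 = true → x ≤ f e)
    (h2 : ∀ e ∈ BEall, ¬ e.1.1 = true → y ≤ f e) : 19 * x + 13 * y ≤ ∑ e ∈ BEall, f e := by
  rw [← sum_filter_add_sum_filter_not BEall fun e => e.1.1 = true]
  have a := card_nsmul_le_sum (BEall.filter fun e => e.1.1 = true) f x
    fun e he => h1 e (mem_filter.1 he).1 (mem_filter.1 he).2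
  have b := card_nsmul_le_sum (BEall.filter fun e => ¬ e.1.1 = true) f y
    fun e he => h2 e (mem_filter.1 he).1 (mem_filter.1 he).2
  rw [cardT, smul_eq_mul] at a
  rw [cardF, smul_eq_mul] at b
  exact Nat.add_le_add a b

theorem chain_tie (hB : Big k m) {a b : Fin k} (hra : F.Adj r a) (hab : F.Adj a b) (hrb : r ≠ b)
    {v : VV m} (hv : lev v ≠ 0) (hs : v.1 = false) :
    (RS F (GG m) r v).card < (RS F (GG m) r (fl true v)).card := by
  have hu : lev (fl true v) ≠ 0 := hv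
  have h1 := upper F r v
  have h2 := lower F r (fl true v)
  have h3 := star_chain F r hv
  have eB : ∀ w : VV m, lev w ≠ 0 → BE w = BEall := by
    intro w hw
    refine filter_true_of_mem fun e _ => ⟨fun h => hw ?_, fun h => hw ?_⟩ <;> simp [← h]
  rw [eB _ hv] at h1
  rw [eB _ hu] at h2
  have e0 : adjB (true, 2) (true, 3) := by decide +kernel
  have mB : ∀ e ∈ BEall, adjB e.1 e.2 := fun e he => by
    simp only [BEall, mem_filter] at he
    exact he.2.1
  set aS := (fset F r (fl true v) (true, 2) (true, 3)).card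
  set aD := (fset F r v (true, 2) (true, 3)).card
  have s1 : ∑ e ∈ BEall, (fset F r v e.1 e.2).card ≤ 19 * aD + 13 * aS := by
    apply sum_up
    · intro e he h
      have := T_chain F r hv false (p' := (true, 2)) (q' := (true, 3))
        (by simp [h]) (mB e he) e0
      rwa [fl_false] at this
    · intro e he h
      exact T_chain F r hv true (p' := (true, 2)) (q' := (true, 3))
        (by simpa using h) (mB e he) e0
  have s2 : 19 * aS + 13 * aD ≤ ∑ e ∈ BEall, (fset F r (fl true v) e.1 e.2).card := by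
    apply sum_lo
    · intro e he h
      have := T_chain F r hu false (p := (true, 2)) (q := (true, 3)) (p' := e.1) (q' := e.2)
        (by simp [h]) e0 (mB e he)
      rwa [fl_false] at this
    · intro e he h
      exact T_chain F r hv true (p := (true, 2)) (q := (true, 3)) (p' := e.1) (q' := e.2)
        (by simpa using h) e0 (mB e he)
  have hadj : ∀ t : Fin 8, (GG m).Adj (fl true v) (bl (true, t)) := fun t =>
    adj_of (fun e => hu (by simp [e])) (Or.inl (by simp [hs])) (Or.inl hu)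
  obtain ⟨Q, Gn, q1, q2, q3, q4⟩ := gain_f (m := m) F r hra hab hrb (hadj 2) (hadj 3) e0
  have a3 : aD + Gn.card ≤ aS + k * k * (ES k (insert v (blocks m)) 4).card :=
    ferro F r e0 (by simp [hs]) (by simp [hs]) (Or.inr ⟨hv, rfl⟩) (hadj 2).ne (hadj 3).ne Gn q3
      fun φ hφ => ⟨a, hra, q4 φ hφ⟩
  have h4 := hB _ Q 3 (Zcard v) le_rfl (by omega)
  simp only [Nat.reduceAdd] at h4
  generalize (ES k (insert v (blocks m)) 4).card = E at *
  generalize (∑ e ∈ BEall, (fset F r v e.1 e.2).card) = S1 at *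
  generalize (∑ e ∈ BEall, (fset F r (fl true v) e.1 e.2).card) = S2 at *
  have h5 : 100 * (k * k + 1) * E = 100 * (k * k * E) + 100 * E := by ring
  omega

theorem star_eq (hr : ∀ a b, F.Adj a b → a = r ∨ b = r) (v : VV m) :
    RStar F r v = RS F (GG m) r v := by
  ext φ
  rw [mem_RStar]
  refine ⟨fun h => h.1, fun h => ⟨h, ?_⟩⟩
  rintro ⟨a, b, hab, -, -, h1, h2⟩
  have := (mem_RS.1 h).2
  rcases hr a b hab with rfl | rfl
  · exact h1 this
  · exact h2 this

/-- The universal order on the vertices. -/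
def Above (u v : VV m) : Prop :=
  lev v < lev u ∨ (lev v ≠ 0 ∧ v.1 = false ∧ u = fl true v) ∨
    ∃ p q : B, u = bl p ∧ v = bl q ∧ rkB q < rkB p

theorem above_total {u v : VV m} (h : u ≠ v) : Above u v ∨ Above v u := by
  rcases lt_trichotomy (lev u) (lev v) with h1 | h1 | h1
  · exact Or.inr (Or.inl h1)
  · by_cases h0 : lev u = 0
    · obtain ⟨p, rfl⟩ := exists_bl h0
      obtain ⟨q, rfl⟩ := exists_bl (h1 ▸ h0)
      rcases lt_trichotomy (rkB p) (rkB q) with h2 | h2 | h2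
      · exact Or.inr (Or.inr (Or.inr ⟨q, p, rfl, rfl, h2⟩))
      · exact absurd (by rw [rkB_inj p q h2]) h
      · exact Or.inl (Or.inr (Or.inr ⟨p, q, rfl, rfl, h2⟩))
    · have hs : u.1 ≠ v.1 := fun e => h (ext_lev e h1 h0)
      cases hu : u.1
      · refine Or.inr (Or.inr (Or.inl ⟨h0, hu, ext_lev ?_ h1.symm (h1 ▸ h0)⟩))
        rw [hu] at hs
        simpa [hu] using hs
      · have hv : v.1 = false := by
          rw [hu] at hs
          simpa using hs
        exact Or.inl (Or.inr (Or.inl ⟨h1 ▸ h0, hv, ext_lev (by simp [hu, hv]) h1 h0⟩))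
  · exact Or.inl (Or.inl h1)

theorem above_lt (hB : Big k m) {a b : Fin k} (hra : F.Adj r a) (hab : F.Adj a b) (hrb : r ≠ b)
    {u v : VV m} (h : Above u v) : (RS F (GG m) r v).card < (RS F (GG m) r u).card := by
  rcases h with h | ⟨h1, h2, rfl⟩ | ⟨p, q, rfl, rfl, h⟩
  · exact lev_lt F r hB hra (lev u - lev v - 1) u v (by omega)
  · exact chain_tie F r hB hra hab hrb h1 h2
  · obtain ⟨t1, t2, t3, t4, ⟨z, t5, t6⟩ | t5⟩ := table p q h
    · exact block_lt F r hB hra t1 t2 t3 t4 t5 t6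
    · refine block_tie F r hB hra hab hrb (star_le F r t1 t2 (by rw [gext_bl, t3]) ?_) t5
      intro p' q' e h'
      rw [← bl_inj.1 e] at h' ⊢
      rw [t3]
      exact t4 q' h'

theorem above_le (hB : Big k m) {a : Fin k} (hra : F.Adj r a)
    (hr : ∀ a b, F.Adj a b → a = r ∨ b = r)
    {u v : VV m} (h : Above u v) : (RS F (GG m) r v).card ≤ (RS F (GG m) r u).card := by
  rcases h with h | ⟨h1, h2, rfl⟩ | ⟨p, q, rfl, rfl, h⟩
  · exact (lev_lt F r hB hra (lev u - lev v - 1) u v (by omega)).le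
  · rw [← star_eq F r hr, ← star_eq F r hr]
    exact star_chain F r h1
  · obtain ⟨t1, t2, t3, t4, -⟩ := table p q h
    rw [← star_eq F r hr, ← star_eq F r hr]
    refine star_le F r t1 t2 (by rw [gext_bl, t3]) ?_
    intro p' q' e h'
    rw [← bl_inj.1 e] at h' ⊢
    rw [t3]
    exact t4 q' h'

end Pool.Agent.H24.IrrD
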