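import Mathlib

namespace Pool.Agent.H24.IrrDefs

/-- The `F`-degree of `v` in `G`: the number of subgraphs of `G` isomorphic to `F` containing `v`. -/
noncomputable def fDeg {U V : Type} (F : SimpleGraph U) (G : SimpleGraph V) (v : V) : ℕ :=
  {H : G.Subgraph | Nonempty (H.coe ≃g F) ∧ v ∈ H.verts}.ncard

/-- The rooted degree: the number of subgraphs `H` of `G` such that some isomorphism from `F`
onto `H` sends the root `r` to `v`. -/
noncomputable def rootedDeg {U V : Type} (F : SimpleGraph U) (r : U) (G : SimpleGraph V) (v : V) :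
    ℕ :=
  {H : G.Subgraph | ∃ e : F ≃g H.coe, (e r : V) = v}.ncard

/-- `F` is a star with centre `r`: its edges are exactly the pairs containing `r`. -/
def IsStarCentre {U : Type} (F : SimpleGraph U) (r : U) : Prop :=
  ∀ a b, F.Adj a b ↔ a ≠ b ∧ (a = r ∨ b = r)

end Pool.Agent.H24.IrrDefs
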