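import Mathlib
import Pool.Agent.H24.IrrD
import Pool.Agent.H24.IrrDefs

namespace Pool.Agent.H24.IrrE

open Finset Pool.Agent.H24.IrrA Pool.Agent.H24.IrrB Pool.Agent.H24.IrrD Pool.Agent.H24.IrrDefs

variable {k : ℕ} {W : Type} [Fintype W] [DecidableEq W]

def Ph (F : SimpleGraph (Fin k)) (G : SimpleGraph W) (φ : Fin k → W) : G.Subgraph where
  verts := Set.range φ
  Adj p q := (∃ a b, F.Adj a b ∧ φ a = p ∧ φ b = q) ∧ G.Adj p q
  adj_sub h := h.2
  edge_vert := by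
    rintro p q ⟨⟨a, b, -, rfl, -⟩, -⟩
    exact ⟨a, rfl⟩
  symm := ⟨by
    rintro p q ⟨⟨a, b, h, rfl, rfl⟩, h'⟩
    exact ⟨⟨b, a, h.symm, rfl, rfl⟩, h'.symm⟩⟩

theorem Ph_adj {F : SimpleGraph (Fin k)} {G : SimpleGraph W} {φ : Fin k → W} (hφ : φ ∈ Emb F G)
    (a b : Fin k) : (Ph F G φ).Adj (φ a) (φ b) ↔ F.Adj a b := by
  obtain ⟨hi, ha⟩ := mem_Emb.1 hφ
  constructor
  · rintro ⟨⟨a', b', h, e1, e2⟩, -⟩
    rwa [← hi e1, ← hi e2]
  · intro h
    exact ⟨⟨a, b, h, rfl, rfl⟩, ha a b h⟩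

theorem of_iso {F : SimpleGraph (Fin k)} {G : SimpleGraph W} {H : G.Subgraph} (e : F ≃g H.coe) :
    (fun x => (e x : W)) ∈ Emb F G ∧ Ph F G (fun x => (e x : W)) = H := by
  refine ⟨mem_Emb.2 ⟨Subtype.val_injective.comp e.injective, fun a b h =>
    H.adj_sub (e.map_rel_iff.2 h)⟩, ?_⟩
  ext p q
  · constructor
    · rintro ⟨a, rfl⟩
      exact (e a).2
    · intro h
      exact ⟨e.symm ⟨p, h⟩, by simp⟩
  · constructor
    · rintro ⟨⟨a, b, h, rfl, rfl⟩, -⟩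
      exact e.map_rel_iff.2 h
    · intro h
      refine ⟨⟨e.symm ⟨p, H.edge_vert h⟩, e.symm ⟨q, H.edge_vert h.symm⟩, ?_, by simp, by simp⟩,
        H.adj_sub h⟩
      rw [← e.map_rel_iff]
      simpa using h

theorem to_iso {F : SimpleGraph (Fin k)} {G : SimpleGraph W} {φ : Fin k → W} (hφ : φ ∈ Emb F G) :
    ∃ e : F ≃g (Ph F G φ).coe, ∀ x, (e x : W) = φ x :=
  ⟨⟨Equiv.ofInjective φ (mem_Emb.1 hφ).1, fun {a b} => Ph_adj hφ a b⟩, fun _ => rfl⟩

open Classical in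
noncomputable def Aut (F : SimpleGraph (Fin k)) : Finset (Fin k → Fin k) :=
  univ.filter fun α => Function.Injective α ∧ ∀ a b, F.Adj (α a) (α b) ↔ F.Adj a b

theorem mem_Aut {F : SimpleGraph (Fin k)} {α : Fin k → Fin k} :
    α ∈ Aut F ↔ Function.Injective α ∧ ∀ a b, F.Adj (α a) (α b) ↔ F.Adj a b := by
  simp [Aut]

theorem fiber {F : SimpleGraph (Fin k)} {G : SimpleGraph W} {φ0 : Fin k → W}
    (h0 : φ0 ∈ Emb F G) (φ : Fin k → W) :
    (φ ∈ Emb F G ∧ Ph F G φ = Ph F G φ0) ↔ ∃ α ∈ Aut F, φ0 ∘ α = φ := by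
  constructor
  · rintro ⟨hφ, e⟩
    have : ∀ x, ∃ y, φ0 y = φ x := fun x => by
      have h : φ x ∈ (Ph F G φ).verts := ⟨x, rfl⟩
      rw [e] at h
      exact h
    choose α hα using this
    refine ⟨α, mem_Aut.2 ⟨fun x y h => (mem_Emb.1 hφ).1 (by rw [← hα, ← hα, h]), fun a b => ?_⟩,
      funext hα⟩
    rw [← Ph_adj h0, hα, hα, ← e, Ph_adj hφ]
  · rintro ⟨α, hα, rfl⟩
    obtain ⟨h1, h2⟩ := mem_Aut.1 hα
    have hs : Function.Surjective α := Finite.surjective_of_injective h1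
    obtain ⟨h3, h4⟩ := mem_Emb.1 h0
    refine ⟨mem_Emb.2 ⟨h3.comp h1, fun a b h => h4 _ _ ((h2 a b).2 h)⟩, ?_⟩
    ext p q
    · show p ∈ Set.range (φ0 ∘ α) ↔ p ∈ Set.range φ0
      rw [hs.range_comp]
    · constructor
      · rintro ⟨⟨a, b, h, e1, e2⟩, h'⟩
        exact ⟨⟨α a, α b, (h2 a b).2 h, e1, e2⟩, h'⟩
      · rintro ⟨⟨a, b, h, e1, e2⟩, h'⟩
        obtain ⟨a, rfl⟩ := hs a
        obtain ⟨b, rfl⟩ := hs b
        exact ⟨⟨a, b, (h2 a b).1 h, e1, e2⟩, h'⟩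

theorem count {F : SimpleGraph (Fin k)} {G : SimpleGraph W} (S : Finset (Fin k → W))
    (Γ : Finset (Fin k → Fin k)) (hS : S ⊆ Emb F G) (hΓ : Γ ⊆ Aut F)
    (h : ∀ φ0 ∈ S, ∀ α ∈ Aut F, φ0 ∘ α ∈ S ↔ α ∈ Γ) :
    S.card = (Ph F G '' S).ncard * Γ.card := by
  classical
  rw [← coe_image, Set.ncard_coe_finset, card_eq_sum_card_image (Ph F G) S, ← smul_eq_mul,
    ← sum_const]
  refine sum_congr rfl fun H hH => ?_
  obtain ⟨φ0, h0, rfl⟩ := mem_image.1 hH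
  have : S.filter (fun φ => Ph F G φ = Ph F G φ0) = Γ.image fun α => φ0 ∘ α := by
    ext φ
    rw [mem_filter, mem_image]
    constructor
    · rintro ⟨h1, h2⟩
      obtain ⟨α, hα, rfl⟩ := (fiber (hS h0) φ).1 ⟨hS h1, h2⟩
      exact ⟨α, (h φ0 h0 α hα).1 h1, rfl⟩
    · rintro ⟨α, hα, rfl⟩
      exact ⟨(h φ0 h0 α (hΓ hα)).2 hα, ((fiber (hS h0) _).2 ⟨α, hΓ hα, rfl⟩).2⟩
  rw [this, card_image_of_injective]
  intro α β e
  funext x
  exact (mem_Emb.1 (hS h0)).1 (congrFun e x)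

theorem rooted_count (F : SimpleGraph (Fin k)) (G : SimpleGraph W) (r : Fin k) (v : W) :
    (RS F G r v).card = rootedDeg F r G v * ((Aut F).filter fun α => α r = r).card := by
  rw [count (RS F G r v) ((Aut F).filter fun α => α r = r) (filter_subset _ _)
    (filter_subset _ _)]
  · congr 2
    ext H
    constructor
    · rintro ⟨φ, hφ, rfl⟩
      obtain ⟨h1, h2⟩ := mem_filter.1 (mem_coe.1 hφ)
      obtain ⟨e, he⟩ := to_iso h1
      exact ⟨e, (he r).trans h2⟩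
    · rintro ⟨e, he⟩
      exact ⟨_, mem_coe.2 (mem_filter.2 ⟨(of_iso e).1, he⟩), (of_iso e).2⟩
  · intro φ0 h0 α hα
    obtain ⟨h1, h2⟩ := mem_filter.1 h0
    constructor
    · intro h
      refine mem_filter.2 ⟨hα, (mem_Emb.1 h1).1 ?_⟩
      exact (mem_filter.1 h).2.trans h2.symm
    · intro h
      refine mem_filter.2 ⟨((fiber h1 _).2 ⟨α, hα, rfl⟩).1, ?_⟩
      rw [Function.comp, (mem_filter.1 h).2, h2]

theorem unrooted_count (F : SimpleGraph (Fin k)) (G : SimpleGraph W) (v : W) :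
    ∑ r, (RS F G r v).card = fDeg F G v * (Aut F).card := by
  have e1 : ∑ r, (RS F G r v).card = ((Emb F G).filter fun φ => ∃ x, φ x = v).card := by
    rw [← card_biUnion]
    · congr 1
      ext φ
      simp [RS]
    · intro r _ s _ hrs
      rw [Function.onFun, disjoint_left]
      intro φ h1 h2
      obtain ⟨⟨hi, -⟩, e1⟩ := mem_RS.1 h1
      exact hrs (hi (e1.trans (mem_RS.1 h2).2.symm))
  rw [e1, count _ (Aut F) (filter_subset _ _) subset_rfl]
  · congr 2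
    ext H
    constructor
    · rintro ⟨φ, hφ, rfl⟩
      obtain ⟨h1, h2⟩ := mem_filter.1 (mem_coe.1 hφ)
      obtain ⟨e, -⟩ := to_iso h1
      exact ⟨⟨e.symm⟩, h2⟩
    · rintro ⟨⟨e⟩, he⟩
      exact ⟨_, mem_coe.2 (mem_filter.2 ⟨(of_iso e.symm).1, e ⟨v, he⟩, by simp⟩),
        (of_iso e.symm).2⟩
  · intro φ0 h0 α hα
    obtain ⟨h1, x, h2⟩ := mem_filter.1 h0
    refine ⟨fun _ => hα, fun _ => mem_filter.2 ⟨((fiber h1 _).2 ⟨α, hα, rfl⟩).1, ?_⟩⟩
    obtain ⟨y, rfl⟩ := Finite.surjective_of_injective (mem_Aut.1 hα).1 x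
    exact ⟨y, h2⟩

theorem RS_comap {W' : Type} [Fintype W'] [DecidableEq W'] (F : SimpleGraph (Fin k))
    (G : SimpleGraph W) (e : W' ≃ W) (r : Fin k) (v : W') :
    (RS F (G.comap e) r v).card = (RS F G r (e v)).card := by
  apply card_nbij' (fun φ => e ∘ φ) (fun φ => e.symm ∘ φ)
  · intro φ hφ
    obtain ⟨⟨h1, h2⟩, h3⟩ := mem_RS.1 (mem_coe.1 hφ)
    exact mem_coe.2 (mem_RS.2 ⟨⟨e.injective.comp h1, h2⟩, by simp [h3]⟩)
  · intro φ hφ
    obtain ⟨⟨h1, h2⟩, h3⟩ := mem_RS.1 (mem_coe.1 hφ)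
    exact mem_coe.2 (mem_RS.2 ⟨⟨e.symm.injective.comp h1, by simpa using h2⟩, by simp [h3]⟩)
  · intro φ _
    funext x; simp
  · intro φ _
    funext x; simp

theorem root_cases {F : SimpleGraph (Fin k)} (hF : F.Connected) (r : Fin k) :
    (∃ a b, F.Adj r a ∧ F.Adj a b ∧ r ≠ b) ∨ IsStarCentre F r := by
  by_cases h : ∃ a b, F.Adj r a ∧ F.Adj a b ∧ r ≠ b
  · exact Or.inl h
  right
  push Not at h
  have key : ∀ x, x = r ∨ F.Adj r x := by
    intro x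
    have : Relation.ReflTransGen F.Adj r x := (SimpleGraph.reachable_iff_reflTransGen r x).1 (hF r x)
    induction this with
    | refl => exact Or.inl rfl
    | tail _ h2 ih =>
      rcases ih with rfl | ih
      · exact Or.inr h2
      · exact Or.inl (h _ _ ih h2).symm
  intro a b
  constructor
  · intro hab
    refine ⟨hab.ne, ?_⟩
    rcases key a with e | e
    · exact Or.inl e
    · exact Or.inr (h a b e hab).symm
  · rintro ⟨hab, rfl | rfl⟩
    · exact (key b).resolve_left hab.symm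
    · exact ((key a).resolve_left hab).symm

theorem two_others (hk : 3 ≤ k) (r : Fin k) : ∃ a b : Fin k, a ≠ r ∧ b ≠ r ∧ a ≠ b := by
  have : 1 < (univ.erase r).card := by
    rw [card_erase_of_mem (mem_univ _), card_univ, Fintype.card_fin]
    omega
  obtain ⟨a, ha, b, hb, hab⟩ := one_lt_card.1 this
  exact ⟨a, b, ne_of_mem_erase ha, ne_of_mem_erase hb, hab⟩

theorem exists_big (hk : 3 ≤ k) (N : ℕ) : ∃ m, N ≤ m ∧ Big k m :=
  ⟨N + (4 * k + 20) + 100 * (k * k + 1) * 2 ^ k * 19 ^ 4 * 8 ^ k, by omega,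
    big_of hk (by omega) (by omega)⟩

theorem rooted_main (F : SimpleGraph (Fin k)) (r : Fin k) (hk : 3 ≤ k) (hF : F.Connected)
    (hr : ¬ IsStarCentre F r) (N : ℕ) :
    ∃ (m : ℕ) (G : SimpleGraph (Fin m)), N ≤ m ∧ Function.Injective (rootedDeg F r G) := by
  obtain ⟨m, hm, hB⟩ := exists_big hk N
  obtain ⟨a, b, h1, h2, h3⟩ := (root_cases hF r).resolve_right hr
  let e : Fin (Fintype.card (VV m)) ≃ VV m := (Fintype.equivFin _).symm
  refine ⟨_, (GG m).comap e, by rw [card_VV]; omega, fun u v huv => ?_⟩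
  by_contra hne
  have h4 : (RS F (GG m) r (e u)).card = (RS F (GG m) r (e v)).card := by
    rw [← RS_comap, ← RS_comap, rooted_count, rooted_count, huv]
  rcases above_total (fun h => hne (e.injective h)) with h | h
  · exact (above_lt F r hB h1 h2 h3 h).ne' h4
  · exact (above_lt F r hB h1 h2 h3 h).ne h4

theorem sum_lt {m : ℕ} (F : SimpleGraph (Fin k)) (hk : 3 ≤ k) (hF : F.Connected) (hB : Big k m)
    {u v : VV m} (h : Above u v) :
    ∑ r, (RS F (GG m) r v).card < ∑ r, (RS F (GG m) r u).card := by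
  apply sum_lt_sum
  · intro r _
    rcases root_cases hF r with ⟨a, b, h1, h2, h3⟩ | hs
    · exact (above_lt F r hB h1 h2 h3 h).le
    · obtain ⟨a, -, ha, -, -⟩ := two_others hk r
      exact above_le F r hB ((hs r a).2 ⟨ha.symm, Or.inl rfl⟩) (fun a b h => ((hs a b).1 h).2) h
  · rcases root_cases hF ⟨0, by omega⟩ with ⟨a, b, h1, h2, h3⟩ | hs
    · exact ⟨_, mem_univ _, above_lt F _ hB h1 h2 h3 h⟩
    · obtain ⟨a, b, ha, hb, hab⟩ := two_others hk ⟨0, by omega⟩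
      exact ⟨a, mem_univ _, above_lt F a hB ((hs a _).2 ⟨ha, Or.inr rfl⟩)
        ((hs _ b).2 ⟨hb.symm, Or.inl rfl⟩) hab h⟩

theorem unrooted_main (F : SimpleGraph (Fin k)) (hk : 3 ≤ k) (hF : F.Connected) (N : ℕ) :
    ∃ (m : ℕ) (G : SimpleGraph (Fin m)), N ≤ m ∧ Function.Injective (fDeg F G) := by
  obtain ⟨m, hm, hB⟩ := exists_big hk N
  let e : Fin (Fintype.card (VV m)) ≃ VV m := (Fintype.equivFin _).symm
  refine ⟨_, (GG m).comap e, by rw [card_VV]; omega, fun u v huv => ?_⟩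
  by_contra hne
  have h4 : ∑ r, (RS F (GG m) r (e u)).card = ∑ r, (RS F (GG m) r (e v)).card := by
    simp only [← RS_comap]
    rw [unrooted_count, unrooted_count, huv]
  rcases above_total (fun h => hne (e.injective h)) with h | h
  · exact (sum_lt F hk hF hB h).ne' h4
  · exact (sum_lt F hk hF hB h).ne h4

end Pool.Agent.H24.IrrE
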