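import Pool.Agent.H24.JmpDefs

set_option autoImplicit false

namespace Pool.Agent.H24.Jmp

variable {k : ℕ}

lemma pump {ι : Type} [Fintype ι] (X : ι → Set (Fin k → ℕ)) (i : Fin k)
    (H : ∀ s, ∀ ε : Fin k → ℕ, (∀ j, ε j ≤ 1) → ∃ s', ∀ y, y ∈ X s' ↔ ε + 2 • y ∈ X s)
    (s : ι) (T : ℕ) (hT : ∀ x ∈ X s, x i < T) : ∀ x ∈ X s, x i < 2 ^ Fintype.card ι := by
  classical
  set β : ι → ℕ := fun s => sSup ((fun x => x i) '' X s) with hβ
  have key : ∀ b s, β s = b → BddAbove ((fun x => x i) '' X s) →
      b < 2 ^ (Finset.univ.filter fun s' => β s' < b).card := by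
    intro b
    induction b using Nat.strong_induction_on with
    | _ b ih =>
      intro s hb hs
      rcases Nat.eq_zero_or_pos b with rfl | h0
      · exact Nat.two_pow_pos _
      have hne : ((fun x => x i) '' X s).Nonempty := by
        by_contra h
        rw [Set.not_nonempty_iff_eq_empty] at h
        simp only [hβ, h] at hb
        simp at hb
        omega
      obtain ⟨x, hx, e⟩ := Nat.sSup_mem hne hs
      have e' : x i = b := e.trans hb
      obtain ⟨s', h'⟩ := H s (fun j => x j % 2) (fun j => by omega)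
      have hy : (fun j => x j / 2) ∈ X s' := (h' _).2 (by
        convert hx using 1
        ext j
        simp only [Pi.add_apply, Pi.smul_apply, smul_eq_mul]
        omega)
      have hub : ∀ v ∈ (fun x => x i) '' X s', v ≤ b / 2 := by
        rintro _ ⟨y, hy, rfl⟩
        have := le_csSup hs ⟨_, (h' y).1 hy, rfl⟩
        simp only [Pi.add_apply, Pi.smul_apply, smul_eq_mul] at this
        have h2 : sSup ((fun x => x i) '' X s) = b := hb
        show y i ≤ b / 2
        omega
      have h1 : β s' ≤ b / 2 := csSup_le ⟨_, _, hy, rfl⟩ hub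
      have h2 : x i / 2 ≤ β s' := le_csSup ⟨_, hub⟩ ⟨_, hy, rfl⟩
      have h3 := ih (β s') (by omega) s' rfl ⟨_, hub⟩
      have h4 : (Finset.univ.filter fun t => β t < β s').card <
          (Finset.univ.filter fun t => β t < b).card := by
        refine Finset.card_lt_card ⟨fun t ht => ?_, fun h => ?_⟩
        · simp only [Finset.mem_filter, Finset.mem_univ, true_and] at ht ⊢
          omega
        · have := h (show s' ∈ Finset.univ.filter fun t => β t < b by simp; omega)
          simp at this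
      have h5 := Nat.pow_le_pow_right (show 0 < 2 by omega) (Nat.succ_le_of_lt h4)
      rw [Nat.pow_succ] at h5
      omega
  intro x hx
  have hs : BddAbove ((fun x => x i) '' X s) := ⟨T, by rintro _ ⟨y, hy, rfl⟩; exact (hT y hy).le⟩
  have h1 := key _ s rfl hs
  have h2 : x i ≤ β s := le_csSup hs ⟨_, hx, rfl⟩
  have h3 := Nat.pow_le_pow_right (show 0 < 2 by omega)
    (Finset.card_le_univ (Finset.univ.filter fun s' => β s' < β s))
  omega

inductive Cl (G : (Fin k → ℕ) → Prop) : (Fin k → ℕ) → Prop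
  | zero : Cl G 0
  | add (c z : Fin k → ℕ) : G c → Cl G z → Cl G (c + z)

lemma Cl.plus {G : (Fin k → ℕ) → Prop} {y z : Fin k → ℕ} (h : Cl G y) (h' : Cl G z) :
    Cl G (y + z) := by
  induction h with
  | zero => simpa using h'
  | add c y a _ ih => rw [add_assoc]; exact Cl.add _ _ a ih

lemma Cl.sum {G : (Fin k → ℕ) → Prop} (R : Multiset (Fin k → ℕ)) (h : ∀ c ∈ R, G c) :
    Cl G R.sum := by
  induction R using Multiset.induction_on with
  | empty => exact Cl.zero
  | cons c R ih =>
    rw [Multiset.sum_cons]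
    exact Cl.add _ _ (h c (by simp)) (ih fun c hc => h c (by simp [hc]))

lemma Cl.half {G : (Fin k → ℕ) → Prop} {z : Fin k → ℕ} (h : Cl G z) :
    ∃ R : Finset (Fin k → ℕ), (∀ c ∈ R, G c) ∧ ∃ z', Cl G z' ∧ z = R.sum id + 2 • z' := by
  classical
  induction h with
  | zero => exact ⟨∅, by simp, 0, Cl.zero, by simp⟩
  | add c z a _ ih =>
    obtain ⟨R, b, z', d, rfl⟩ := ih
    by_cases hc : c ∈ R
    · refine ⟨R.erase c, fun x hx => b x (Finset.mem_of_mem_erase hx), c + z', Cl.add _ _ a d, ?_⟩
      rw [← Finset.add_sum_erase R id hc, smul_add, two_smul ℕ c]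
      simp only [id]
      abel
    · refine ⟨insert c R, by simpa using ⟨a, b⟩, z', d, ?_⟩
      rw [Finset.sum_insert hc]
      simp only [id]
      abel

lemma sum_le {p : ℕ} (R : Finset (Fin k → ℕ)) (h : ∀ c ∈ R, ∀ j, c j ≤ p) (j : Fin k) :
    R.sum id j ≤ p * (p + 1) ^ k := by
  classical
  have h1 : R.card ≤ (p + 1) ^ k := by
    have := Finset.card_le_card (s := R) (t := Fintype.piFinset fun _ : Fin k => Finset.range (p + 1))
      fun c hc => by simpa using fun j => Nat.lt_succ_of_le (h c hc j)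
    simpa using this
  rw [Finset.sum_apply]
  refine (Finset.sum_le_card_nsmul _ _ p fun c hc => h c hc j).trans ?_
  rw [smul_eq_mul, mul_comm]
  exact Nat.mul_le_mul_left _ h1

lemma Cl.axis {G : (Fin k → ℕ) → Prop} {p : ℕ} (hG : ∀ c, G c → ∀ j, c j ≤ p) (i : Fin k)
    {z : Fin k → ℕ} (h : Cl G z) : z i ≤ p * ∑ j ∈ Finset.univ.erase i, z j ∨
      Cl G (Pi.single i p.factorial) := by
  induction h with
  | zero => simp
  | add c z a _ ih =>
    rcases ih with ih | ih
    swap
    · exact Or.inr ih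
    by_cases h0 : ∑ j ∈ Finset.univ.erase i, c j = 0
    · by_cases h1 : c i = 0
      · left
        simp only [Pi.add_apply, Finset.sum_add_distrib, h0, h1]
        simpa using ih
      · right
        obtain ⟨t, ht⟩ := Nat.dvd_factorial (Nat.pos_of_ne_zero h1) (hG c a i)
        have := Cl.sum (G := G) (Multiset.replicate t c) fun x hx => by
          rwa [Multiset.eq_of_mem_replicate hx]
        convert this using 1
        ext j
        rw [Multiset.sum_replicate]
        by_cases hj : j = i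
        · subst hj
          simp [ht, mul_comm]
        · have := Finset.sum_eq_zero_iff.1 h0 j (by simp [hj])
          simp [hj, this]
    · left
      have := hG c a i
      have h2 := Nat.mul_le_mul_left p (Nat.pos_of_ne_zero h0)
      simp only [Pi.add_apply, Finset.sum_add_distrib, mul_add]
      omega

section lin
variable {Υ : Type} [Fintype Υ] (G : Υ → (Fin k → ℕ) → Prop) (D : ℕ)

def Un (P : Set (Υ × (Fin k → Fin (2 * D + 1)))) : Set (Fin k → ℕ) :=
  {y | ∃ s ∈ P, ∃ z, Cl (G s.1) z ∧ ∀ j, y j + D = (s.2 j).1 + z j}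

lemma resid {p : ℕ} (hG : ∀ U c, G U c → ∀ j, c j ≤ p) (hD : p * (p + 1) ^ k + 1 ≤ D)
    (P : Set (Υ × (Fin k → Fin (2 * D + 1)))) (ε : Fin k → ℕ) (hε : ∀ j, ε j ≤ 1) :
    ∃ P', ∀ y, y ∈ Un G D P' ↔ ε + 2 • y ∈ Un G D P := by
  refine ⟨{s' | ∃ s ∈ P, s.1 = s'.1 ∧ ∃ R : Finset (Fin k → ℕ), (∀ c ∈ R, G s.1 c) ∧
    ∀ j, 2 * (s'.2 j).1 + ε j = (s.2 j).1 + R.sum id j + D}, fun y => ⟨?_, ?_⟩⟩
  · rintro ⟨s', ⟨s, a, b, R, c, d⟩, z, e, f⟩
    rw [← b] at e
    refine ⟨s, a, R.sum id + (z + z), (Cl.sum (G := G s.1) (R.1.map id) (by simpa using c)).plus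
      (e.plus e), fun j => ?_⟩
    have := d j
    have := f j
    simp only [Pi.add_apply, Pi.smul_apply, smul_eq_mul]
    omega
  · rintro ⟨s, a, z, e, f⟩
    obtain ⟨R, c, z', g, rfl⟩ := e.half
    have h1 := sum_le R fun x hx => hG _ x (c x hx)
    simp only [Pi.add_apply, Pi.smul_apply, smul_eq_mul] at f
    refine ⟨(s.1, fun j => ⟨y j + D - z' j, ?_⟩), ⟨s, a, rfl, R, c, fun j => ?_⟩, z', g,
      fun j => ?_⟩
    all_goals
      have := f j
      have := h1 j
      have := hε j
      have := (s.2 j).2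
    · omega
    · show 2 * (y j + D - z' j) + ε j = _
      omega
    · show _ = (y j + D - z' j) + z' j
      omega

theorem thresh {p B : ℕ} (hG : ∀ U c, G U c → ∀ j, c j ≤ p)
    (base : Υ → (Fin k → ℕ) → Prop) (hB : ∀ U b, base U b → ∀ j, b j ≤ B)
    (hD : B + p.factorial + p * (p + 1) ^ k + 1 ≤ D) (S : (Fin k → ℕ) → Prop)
    (hS : ∀ x, S x ↔ ∃ U b z, base U b ∧ Cl (G U) z ∧ x = b + z) (i : Fin k) (T' M' : ℕ)
    (hM : 0 < M') (hR : ∀ x, T' ≤ x i → (S x ↔ S (x + Pi.single i M'))) :
    ∀ x, 2 ^ 4 ^ (Fintype.card Υ * (2 * D + 1) ^ k) ≤ x i →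
      (S x ↔ S (x + Pi.single i p.factorial)) := by
  classical
  have hR' : ∀ t x, T' ≤ x i → (S x ↔ S (x + Pi.single i (t * M'))) := by
    intro t
    induction t with
    | zero => simp
    | succ t ih =>
      intro x hx
      rw [ih x hx, hR _ (by simp; omega), add_assoc, ← Pi.single_add, Nat.succ_mul]
  have up : ∀ x, T' ≤ x i → S x → S (x + Pi.single i p.factorial) := by
    intro x hx h
    set t := B + p * ∑ j ∈ Finset.univ.erase i, x j + 1 with ht
    obtain ⟨U, b, z, a1, a2, a3⟩ := (hS _).1 ((hR' t x hx).1 h)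
    rcases a2.axis (hG U) i with h1 | h1
    · exfalso
      have h2 : ∑ j ∈ Finset.univ.erase i, z j ≤ ∑ j ∈ Finset.univ.erase i, x j := by
        refine Finset.sum_le_sum fun j hj => ?_
        have := congrFun a3 j
        simp only [Pi.add_apply, Pi.single_eq_of_ne (Finset.ne_of_mem_erase hj)] at this
        omega
      have h3 := Nat.mul_le_mul_left p h2
      have h4 := congrFun a3 i
      have h5 := hB U b a1 i
      have h6 := Nat.mul_le_mul_left t hM
      simp only [Pi.add_apply, Pi.single_eq_same] at h4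
      omega
    · rw [hR' t _ (by simp; omega), add_right_comm, a3, add_assoc]
      exact (hS _).2 ⟨U, b, _, a1, a2.plus h1, rfl⟩
  have ups : ∀ t x, T' ≤ x i → S x → S (x + Pi.single i (t * p.factorial)) := by
    intro t
    induction t with
    | zero => intro x _ h; simpa using h
    | succ t ih =>
      intro x hx h
      rw [Nat.succ_mul, Pi.single_add, ← add_assoc]
      exact up _ (by simp; omega) (ih x hx h)
  have both : ∀ x, T' ≤ x i → (S x ↔ S (x + Pi.single i p.factorial)) := by
    refine fun x hx => ⟨up x hx, fun h => ?_⟩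
    have := ups (M' - 1) _ (by simp; omega) h
    rw [add_assoc, ← Pi.single_add, show p.factorial + (M' - 1) * p.factorial =
      p.factorial * M' by
        obtain ⟨m, rfl⟩ := Nat.exists_eq_succ_of_ne_zero hM.ne'
        simp only [Nat.succ_sub_one, Nat.succ_eq_add_one]
        ring] at this
    exact (hR' _ x hx).2 this
  have un : ∀ v : Fin k → ℕ, (∀ j, v j ≤ p.factorial) → ∃ P, ∀ x, x ∈ Un G D P ↔ S (x + v) := by
    intro v hv
    refine ⟨{s | ∃ b, base s.1 b ∧ ∀ j, (s.2 j).1 + v j = b j + D}, fun x => ?_⟩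
    rw [hS]
    constructor
    · rintro ⟨s, ⟨b, a1, a2⟩, z, a3, a4⟩
      refine ⟨s.1, b, z, a1, a3, funext fun j => ?_⟩
      have := a2 j
      have := a4 j
      simp only [Pi.add_apply]
      omega
    · rintro ⟨U, b, z, a1, a2, a3⟩
      refine ⟨(U, fun j => ⟨b j + D - v j, ?_⟩), ⟨b, a1, fun j => ?_⟩, z, a2, fun j => ?_⟩
      all_goals
        have := hB U b a1 j
        have := hv j
        have := congrFun a3 j
        simp only [Pi.add_apply] at this
      · omega
      · show b j + D - v j + v j = _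
        omega
      · show _ = b j + D - v j + z j
        omega
  obtain ⟨P0, h0⟩ := un 0 (by simp)
  obtain ⟨P1, h1⟩ := un (Pi.single i p.factorial) (fun j => by
    by_cases hj : j = i
    · subst hj; simp
    · simp [hj])
  have := pump (ι := Set (Υ × (Fin k → Fin (2 * D + 1))) × Set (Υ × (Fin k → Fin (2 * D + 1))))
    (fun s => {x | ¬ (x ∈ Un G D s.1 ↔ x ∈ Un G D s.2)}) i (by
      rintro ⟨P, Q⟩ ε hε
      obtain ⟨P', a⟩ := resid G D hG (by omega) P ε hε
      obtain ⟨Q', b⟩ := resid G D hG (by omega) Q ε hε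
      exact ⟨(P', Q'), fun y => not_congr (iff_congr (a y) (b y))⟩) (P0, P1) T' (by
      intro x hx
      by_contra h
      exact hx (by rw [h0, h1, add_zero]; exact both x (by omega)))
  intro x hx
  by_contra h
  have h2 := this x (by show ¬ (_ ↔ _); rwa [h0, h1, add_zero])
  simp only [Fintype.card_prod, Fintype.card_set, Fintype.card_pi, Fintype.card_fin,
    Finset.prod_const, Finset.card_univ] at h2
  rw [← mul_pow] at h2
  exact absurd hx (not_le.2 h2)

end lin

end Pool.Agent.H24.Jmp
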