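import Pool.Agent.H24.Jmp1

set_option autoImplicit false

namespace Pool.Agent.H24.Jmp

variable {n k : ℕ} (A : NJFA n k)

def vec : Option (Fin k) → Fin k → ℕ
  | none => 0
  | some a => Pi.single a 1

inductive Wk : Fin n → Fin n → Finset (Fin n) → (Fin k → ℕ) → ℕ → Prop
  | nil (q : Fin n) : Wk q q {q} 0 0
  | cons (q p f : Fin n) (a : Option (Fin k)) (S : Finset (Fin n)) (e : Fin k → ℕ) (m : ℕ) :
      p ∈ A.δ q a → Wk p f S e m → Wk q f (insert q S) (vec a + e) (m + 1)

variable {A}

lemma Wk.cast {q f : Fin n} {S S' : Finset (Fin n)} {e e' : Fin k → ℕ} {m m' : ℕ}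
    (h : Wk A q f S e m) (h1 : S = S') (h2 : e = e') (h3 : m = m') : Wk A q f S' e' m' :=
  h1 ▸ h2 ▸ h3 ▸ h

lemma Wk.mem {q f : Fin n} {S : Finset (Fin n)} {e : Fin k → ℕ} {m : ℕ} (h : Wk A q f S e m) :
    q ∈ S := by
  cases h <;> simp

lemma Wk.le {q f : Fin n} {S : Finset (Fin n)} {e : Fin k → ℕ} {m : ℕ} (h : Wk A q f S e m)
    (j : Fin k) : e j ≤ m := by
  induction h with
  | nil q => simp
  | cons q p f a S e m _ _ ih =>
    have : vec a j ≤ 1 := by
      cases a with
      | none => simp [vec]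
      | some a => by_cases h : j = a <;> simp [vec, h]
    simp only [Pi.add_apply]
    omega

lemma Wk.app {q r f : Fin n} {S S' : Finset (Fin n)} {e e' : Fin k → ℕ} {m m' : ℕ}
    (h : Wk A q r S e m) (h' : Wk A r f S' e' m') : Wk A q f (S ∪ S') (e + e') (m + m') := by
  induction h with
  | nil q => exact h'.cast (by simp [Finset.insert_eq_of_mem h'.mem]) (by simp) (by simp)
  | cons q p r a S e m b _ ih =>
    exact (Wk.cons q p f a _ _ _ b (ih h')).cast (by simp) (by abel) (by omega)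

variable (A) in
def Pre (q h f : Fin n) (S : Finset (Fin n)) (e : Fin k → ℕ) (m B : ℕ) : Prop :=
  ∃ S1 e1 m1 S2 e2 m2, Wk A q h S1 e1 m1 ∧ Wk A h f S2 e2 m2 ∧ m1 ≤ B ∧ S = S1 ∪ S2 ∧
    e = e1 + e2 ∧ m = m1 + m2

variable (A) in
def Cut (q f : Fin n) (S : Finset (Fin n)) (e : Fin k → ℕ) (m B : ℕ) : Prop :=
  ∃ h S1 e1 m1 S2 e2 m2, Wk A q f S1 e1 m1 ∧ h ∈ S1 ∧ Wk A h h S2 e2 m2 ∧ 1 ≤ m2 ∧ m2 ≤ B ∧
    S = S1 ∪ S2 ∧ e = e1 + e2 ∧ m = m1 + m2

lemma Pre.zero {q f : Fin n} {S : Finset (Fin n)} {e : Fin k → ℕ} {m : ℕ} (h : Wk A q f S e m)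
    (B : ℕ) : Pre A q q f S e m B :=
  ⟨_, _, _, S, e, m, Wk.nil q, h, by omega, by simp [Finset.insert_eq_of_mem h.mem], by simp, by simp⟩

lemma Pre.cons {q p h f : Fin n} {a : Option (Fin k)} {S : Finset (Fin n)} {e : Fin k → ℕ}
    {m B : ℕ} (b : p ∈ A.δ q a) (c : Pre A p h f S e m B) :
    Pre A q h f (insert q S) (vec a + e) (m + 1) (B + 1) := by
  obtain ⟨S1, e1, m1, S2, e2, m2, c1, c2, c3, rfl, rfl, rfl⟩ := c
  exact ⟨_, _, _, S2, e2, m2, Wk.cons q p h a _ _ _ b c1, c2, by omega, by simp, by abel, by omega⟩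

lemma find {q f h : Fin n} {S : Finset (Fin n)} {e : Fin k → ℕ} {m : ℕ} (c : Wk A q f S e m)
    (hh : h ∈ S) : Pre A q h f S e m m := by
  induction c with
  | nil q =>
    obtain rfl : h = q := by simpa using hh
    exact Pre.zero (Wk.nil h) 0
  | cons q p f a S e m b c ih =>
    rcases Finset.mem_insert.1 hh with rfl | hh
    · exact Pre.zero (Wk.cons h p f a S e m b c) _
    · exact Pre.cons b (ih hh)

lemma rep {q f : Fin n} {S : Finset (Fin n)} {e : Fin k → ℕ} {m : ℕ} (c : Wk A q f S e m) :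
    ∀ U : Finset (Fin n), Uᶜ.card ≤ m →
      Cut A q f S e m Uᶜ.card ∨ ∃ h ∈ U, Pre A q h f S e m Uᶜ.card := by
  induction c with
  | nil q =>
    intro U hU
    have : Uᶜ = ∅ := Finset.card_eq_zero.1 (by omega)
    refine Or.inr ⟨q, ?_, Pre.zero (Wk.nil q) _⟩
    by_contra h
    have h2 := Finset.mem_compl.2 h
    simp [this] at h2
  | cons q p f a S e m b c ih =>
    intro U hU
    by_cases hq : q ∈ U
    · exact Or.inr ⟨q, hq, Pre.zero (Wk.cons q p f a S e m b c) _⟩
    have hc : Uᶜ.card = (insert q U)ᶜ.card + 1 := by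
      rw [Finset.compl_insert, Finset.card_erase_add_one (Finset.mem_compl.2 hq)]
    rw [hc] at hU ⊢
    rcases ih (insert q U) (by omega) with g | ⟨h, hh, g⟩
    · obtain ⟨h, S1, e1, m1, S2, e2, m2, c1, c2, c3, c4, c5, rfl, rfl, rfl⟩ := g
      exact Or.inl ⟨h, _, _, _, S2, e2, m2, Wk.cons q p f a _ _ _ b c1, by simp [c2], c3, c4,
        by omega, by simp, by abel, by omega⟩
    · rcases Finset.mem_insert.1 hh with rfl | hh
      · obtain ⟨S1, e1, m1, S2, e2, m2, c1, c2, c3, rfl, rfl, rfl⟩ := g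
        exact Or.inl ⟨h, S2, e2, m2, _, _, _, c2, c2.mem, Wk.cons h p h a _ _ _ b c1, by omega,
          by omega, by ext; simp; tauto, by abel, by omega⟩
      · exact Or.inr ⟨h, hh, Pre.cons b g⟩

lemma ins {q f h : Fin n} {S S' : Finset (Fin n)} {e e' : Fin k → ℕ} {m m' : ℕ}
    (c : Wk A q f S e m) (hh : h ∈ S) (c' : Wk A h h S' e' m') :
    Wk A q f (S ∪ S') (e + e') (m + m') := by
  obtain ⟨S1, e1, m1, S2, e2, m2, c1, c2, -, rfl, rfl, rfl⟩ := find c hh
  exact (c1.app (c'.app c2)).cast (by ext; simp; tauto) (by abel) (by omega)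

variable (A) in
def Gd (U : Finset (Fin n)) (c : Fin k → ℕ) : Prop := ∃ h ∈ U, ∃ S m, Wk A h h S c m ∧ m ≤ n

lemma Cl.mono {G G' : (Fin k → ℕ) → Prop} (H : ∀ c, G c → G' c) {z : Fin k → ℕ} (h : Cl G z) :
    Cl G' z := by
  induction h with
  | zero => exact Cl.zero
  | add c z a _ ih => exact Cl.add c z (H c a) ih

lemma insAll {q f : Fin n} {S : Finset (Fin n)} {e z : Fin k → ℕ} {m : ℕ} (c : Wk A q f S e m)
    (hz : Cl (Gd A S) z) : ∃ S' m', S ⊆ S' ∧ Wk A q f S' (e + z) m' := by
  induction hz with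
  | zero => exact ⟨S, m, le_rfl, by simpa using c⟩
  | add x z a _ ih =>
    obtain ⟨S', m', b, d⟩ := ih
    obtain ⟨h, hh, U, l, g, -⟩ := a
    exact ⟨_, _, b.trans Finset.subset_union_left, (ins d (b hh) g).cast rfl (by abel) rfl⟩

lemma parikh {q f : Fin n} : ∀ (m : ℕ) {S : Finset (Fin n)} {e : Fin k → ℕ}, Wk A q f S e m →
    ∃ b m0 z, Wk A q f S b m0 ∧ m0 ≤ n + S.card * n ∧ Cl (Gd A S) z ∧ e = b + z := by
  intro m
  induction m using Nat.strong_induction_on with
  | _ m ih =>
    intro S e h1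
    by_cases hn : n ≤ m
    · rcases rep h1 ∅ (by simpa using hn) with g | ⟨_, g, _⟩
      swap
      · simp at g
      obtain ⟨h, S1, e1, m1, S2, e2, m2, p, q', r, s, u, rfl, rfl, rfl⟩ := g
      simp only [Finset.compl_empty, Finset.card_univ, Fintype.card_fin] at u
      obtain ⟨b, m0, z, a, c, d, rfl⟩ := ih m1 (by omega) p
      have mono : Cl (Gd A (S1 ∪ S2)) z := d.mono fun x ⟨g, hg, y⟩ => ⟨g, by simp [hg], y⟩
      by_cases hU : S1 ∪ S2 = S1
      · exact ⟨b, m0, e2 + z, hU.symm ▸ a, hU.symm ▸ c,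
          Cl.add _ _ ⟨h, by simp [q'], S2, m2, r, u⟩ mono, by abel⟩
      · have : S1.card < (S1 ∪ S2).card :=
          Finset.card_lt_card (Finset.ssubset_iff_subset_ne.2
            ⟨Finset.subset_union_left, fun h => hU h.symm⟩)
        refine ⟨b + e2, m0 + m2, z, ins a q' r, ?_, mono, by abel⟩
        have := Nat.mul_le_mul_right n (Nat.succ_le_of_lt this)
        rw [Nat.succ_mul] at this
        omega
    · exact ⟨e, m, 0, h1, by omega, Cl.zero, by simp⟩

def cnt (w : List (Fin k)) : Fin k → ℕ := fun a => w.count a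

lemma cnt_app (u v : List (Fin k)) : cnt (u ++ v) = cnt u + cnt v := by
  ext a; simp [cnt]

lemma cnt_cons (a : Fin k) (v : List (Fin k)) : cnt (a :: v) = Pi.single a 1 + cnt v := by
  ext j
  by_cases h : j = a
  · subst h; simp [cnt, add_comm]
  · simp [cnt, h, List.count_cons_of_ne (Ne.symm h)]

lemma acc_iff (q : Fin n) (w : List (Fin k)) :
    Acc A q w ↔ ∃ f ∈ A.F, ∃ S m, Wk A q f S (cnt w) m := by
  constructor
  · intro h
    induction h with
    | fin q a => exact ⟨q, a, _, _, (Wk.nil q).cast rfl (by ext; simp [cnt]) rfl⟩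
    | eps q p w a _ ih =>
      obtain ⟨f, b, S, m, c⟩ := ih
      exact ⟨f, b, _, _, (Wk.cons q p f none _ _ _ a c).cast rfl (by simp [vec]) rfl⟩
    | jump q p x u v a _ ih =>
      obtain ⟨f, b, S, m, c⟩ := ih
      exact ⟨f, b, _, _, (Wk.cons q p f (some x) _ _ _ a c).cast rfl
        (by simp only [vec, cnt_app, cnt_cons]; abel) rfl⟩
  · rintro ⟨f, b, S, m, c⟩
    generalize he : cnt w = e at c
    induction c generalizing w with
    | nil q =>
      obtain rfl : w = [] := by
        cases w with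
        | nil => rfl
        | cons a w => simpa [cnt] using congrFun he a
      exact Acc.fin q b
    | cons q p f a S e m d _ ih =>
      cases a with
      | none => exact Acc.eps q p w d (ih w b (by simpa [vec] using he))
      | some a =>
        have : a ∈ w := by
          have := congrFun he a
          simp only [cnt, vec, Pi.add_apply, Pi.single_eq_same] at this
          exact List.count_pos_iff.1 (by omega)
        obtain ⟨u, v, rfl⟩ := List.append_of_mem this
        refine Acc.jump q p a u v d (ih _ b ?_)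
        rw [cnt_app, cnt_cons, vec, add_left_comm] at he
        rw [cnt_app]
        exact add_left_cancel he

lemma cnt_surj (x : Fin k → ℕ) : ∃ w, cnt w = x := by
  refine ⟨(∑ a, Multiset.replicate (x a) a).toList, funext fun j => ?_⟩
  rw [cnt, ← Multiset.coe_count, Multiset.coe_toList, Multiset.count_sum']
  simp [Multiset.count_replicate]

lemma cnt_rep (i : Fin k) (t : ℕ) : cnt (List.replicate t i) = Pi.single i t := by
  ext j
  by_cases h : j = i
  · subst h; simp [cnt]
  · simp [cnt, h, List.count_replicate, Ne.symm h]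

theorem main (A : NJFA n k) (h : A.lang.IsRegular) : ∃ (σ : Type) (_ : Fintype σ),
    Fintype.card σ ≤ bound n k ∧ ∃ M : DFA (Fin k) σ, M.accepts = A.lang := by
  classical
  set S : (Fin k → ℕ) → Prop := fun x => ∃ f ∈ A.F, ∃ U m, Wk A A.q0 f U x m with hS
  have hL : ∀ w, w ∈ A.lang ↔ S (cnt w) := acc_iff A.q0
  obtain ⟨σ, _, M0, hM0⟩ := h
  set T := 2 ^ 4 ^ (2 ^ n * (2 * (n * (n + 1) + n.factorial + n * (n + 1) ^ k + 1) + 1) ^ k)
    with hT
  have key : ∀ i x, T ≤ x i → (S x ↔ S (x + Pi.single i n.factorial)) := by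
    intro i
    obtain ⟨t1, t2, h1, h2⟩ : ∃ t1 t2 : ℕ, t1 < t2 ∧
        ∀ s, M0.evalFrom s (List.replicate t1 i) = M0.evalFrom s (List.replicate t2 i) := by
      obtain ⟨t1, t2, a, b⟩ := Finite.exists_ne_map_eq_of_infinite
        fun t : ℕ => fun s => M0.evalFrom s (List.replicate t i)
      rcases lt_or_gt_of_ne a with a | a
      · exact ⟨t1, t2, a, congrFun b⟩
      · exact ⟨t2, t1, a, congrFun b.symm⟩
    have := thresh (Gd A) (n * (n + 1) + n.factorial + n * (n + 1) ^ k + 1) (p := n)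
      (B := n * (n + 1)) (fun U c ⟨_, _, _, _, a, b⟩ j => (a.le j).trans b)
      (fun U b => ∃ f ∈ A.F, ∃ m ≤ n * (n + 1), Wk A A.q0 f U b m)
      (fun U c ⟨_, _, _, b, a⟩ j => (a.le j).trans b) le_rfl S (by
        intro x
        constructor
        · rintro ⟨f, a, U, m, b⟩
          obtain ⟨b', m0, z, c, d, e, g⟩ := parikh m b
          have h3 : U.card ≤ n := by simpa using Finset.card_le_univ U
          have h4 := Nat.mul_le_mul_right n h3
          exact ⟨U, b', z, ⟨f, a, m0, by rw [mul_add]; omega, c⟩, e, g⟩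
        · rintro ⟨U, b, z, ⟨f, a, m, -, c⟩, d, rfl⟩
          obtain ⟨S', m', -, e⟩ := insAll c d
          exact ⟨f, a, S', m', e⟩) i t1 (t2 - t1) (by omega) (by
        intro x hx
        obtain ⟨w, hw⟩ := cnt_surj (x - Pi.single i t1)
        have e1 : x = cnt (w ++ List.replicate t1 i) := by
          rw [cnt_app, cnt_rep, hw]
          ext j
          by_cases hj : j = i
          · subst hj; simp; omega
          · simp [hj]
        have e2 : x + Pi.single i (t2 - t1) = cnt (w ++ List.replicate t2 i) := by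
          rw [cnt_app, cnt_rep, hw]
          ext j
          by_cases hj : j = i
          · subst hj; simp; omega
          · simp [hj]
        rw [e2, e1, ← hL, ← hL, ← hM0, DFA.mem_accepts, DFA.mem_accepts]
        show M0.evalFrom _ _ ∈ _ ↔ M0.evalFrom _ _ ∈ _
        rw [DFA.evalFrom_of_append, DFA.evalFrom_of_append, h2])
    simpa only [Fintype.card_finset, Fintype.card_fin] using this
  have hf := n.factorial_pos
  refine ⟨Fin k → Fin (T + n.factorial), inferInstance, by simp [bound, hT], ?_⟩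
  clear_value T
  let M : DFA (Fin k) (Fin k → Fin (T + n.factorial)) :=
    ⟨fun s a => Function.update s a
      (if h : (s a).1 + 1 < T + n.factorial then ⟨_, h⟩ else ⟨T, by omega⟩),
      fun _ => ⟨0, by omega⟩, {s | S fun a => (s a).1}⟩
  have ev : ∀ w s, M.evalFrom s w ∈ M.accept ↔ S ((fun a => (s a).1) + cnt w) := by
    intro w
    induction w with
    | nil =>
      intro s
      rw [show cnt ([] : List (Fin k)) = 0 by ext; simp [cnt], add_zero]
      rfl
    | cons a w ih =>
      intro s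
      rw [show M.evalFrom s (a :: w) = M.evalFrom (M.step s a) w from rfl, ih, cnt_cons]
      by_cases h : (s a).1 + 1 < T + n.factorial
      · refine iff_of_eq (congrArg S (funext fun j => ?_))
        by_cases hj : j = a
        · subst hj; simp [M, h]; omega
        · simp [M, hj]
      · rw [key a _ (by simp [M, h])]
        refine iff_of_eq (congrArg S (funext fun j => ?_))
        have := (s a).2
        by_cases hj : j = a
        · subst hj; simp [M, h]; omega
        · simp [M, hj]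
  refine ⟨M, Language.ext fun w => ?_⟩
  rw [hL, DFA.mem_accepts]
  refine (ev w _).trans (iff_of_eq (congrArg S (funext fun j => ?_)))
  simp [M]

end Pool.Agent.H24.Jmp
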