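import Pool.Agent.H24.Jmp2

set_option autoImplicit false

namespace Pool.Agent.H24.Jmp

variable {m : ℕ}

abbrev St (m : ℕ) : Type := Fin 3 ⊕ Fin (m + 1) ⊕ Fin m × Fin 3

inductive Tr : St m → Option (Fin (m + 1)) → St m → Prop
  | s1 : Tr (.inl 0) none (.inr (.inl 0))
  | s2 : Tr (.inl 0) (some 0) (.inl 1)
  | s3 (i : Fin m) : Tr (.inl 0) none (.inr (.inr (i, 0)))
  | z1 : Tr (.inl 1) (some 0) (.inl 2)
  | z2 (a : Fin (m + 1)) : Tr (.inl 2) (some a) (.inl 2)
  | k1 (j a : Fin (m + 1)) : a ≠ j → Tr (.inr (.inl j)) (some a) (.inr (.inl j))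
  | a1 (i : Fin m) : Tr (.inr (.inr (i, 0))) (some i.castSucc) (.inr (.inr (i, 1)))
  | a2 (i : Fin m) : Tr (.inr (.inr (i, 0))) (some i.succ) (.inr (.inl i.castSucc))
  | b1 (i : Fin m) : Tr (.inr (.inr (i, 1))) (some i.succ) (.inr (.inr (i, 2)))
  | b2 (i : Fin m) : Tr (.inr (.inr (i, 1))) none (.inr (.inl i.succ))
  | c1 (i : Fin m) : Tr (.inr (.inr (i, 2))) (some i.succ) (.inr (.inr (i, 0)))
  | c2 (i : Fin m) : Tr (.inr (.inr (i, 2))) none (.inr (.inl i.succ))

def Fi : St m → Prop
  | .inl z => z = 2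
  | .inr (.inl _) => True
  | .inr (.inr _) => False

def sem : St m → (Fin (m + 1) → ℕ) → Prop
  | .inl z, x => if z = 0 then x 0 ≠ 1 ∨ ∃ i : Fin m, x i.succ ≠ 2 * x i.castSucc
      else if z = 1 then x 0 ≠ 0 else True
  | .inr (.inl j), x => x j = 0
  | .inr (.inr p), x => x p.1.succ ≠ 2 * x p.1.castSucc + (if p.2 = 0 then 0 else 3 - p.2.1)

noncomputable def ee (m : ℕ) : St m ≃ Fin (4 * (m + 1)) :=
  Fintype.equivFinOfCardEq (by simp; omega)

noncomputable def A0 (m : ℕ) : NJFA (4 * (m + 1)) (m + 1) :=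
  ⟨fun q a => {p | Tr ((ee m).symm q) a ((ee m).symm p)}, ee m (.inl 0), {q | Fi ((ee m).symm q)}⟩

lemma step_sound {s s' : St m} {a : Option (Fin (m + 1))} (h : Tr s a s') (x : Fin (m + 1) → ℕ)
    (hx : sem s' x) : sem s (vec a + x) := by
  cases h with
  | s1 => left; simp only [sem] at hx; simp [vec, hx]
  | s2 => left; simpa [sem, vec] using hx
  | s3 i => right; exact ⟨i, by simpa [sem, vec] using hx⟩
  | z1 => simp [sem, vec]
  | z2 a => simp [sem]
  | k1 j a h => simpa [sem, vec, h.symm] using hx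
  | a1 i => simp [sem, vec, (Fin.castSucc_lt_succ (i := i)).ne'] at hx ⊢; omega
  | a2 i => simp [sem, vec, (Fin.castSucc_lt_succ (i := i)).ne] at hx ⊢; omega
  | b1 i => simp [sem, vec, (Fin.castSucc_lt_succ (i := i)).ne] at hx ⊢; omega
  | b2 i => simp [sem, vec] at hx ⊢; omega
  | c1 i => simp [sem, vec, (Fin.castSucc_lt_succ (i := i)).ne] at hx ⊢; omega
  | c2 i => simp [sem, vec] at hx ⊢; omega

lemma sound {q : Fin (4 * (m + 1))} {w : List (Fin (m + 1))} (h : Acc (A0 m) q w) :
    sem ((ee m).symm q) (cnt w) := by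
  induction h with
  | fin q a =>
    have a' : Fi ((ee m).symm q) := a
    generalize (ee m).symm q = s at a'
    rcases s with z | j | p
    · obtain rfl : z = 2 := a'
      simp [sem]
    · simp [sem, cnt]
    · exact a'.elim
  | eps q p w a _ ih => simpa [vec] using step_sound a _ ih
  | jump q p x u v a _ ih =>
    have := step_sound a _ ih
    rw [cnt_app, vec, add_left_comm, ← cnt_cons, ← cnt_app] at this
    exact this

lemma go_eps {s s' : St m} {w : List (Fin (m + 1))} (h : Tr s none s')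
    (h' : Acc (A0 m) (ee m s') w) : Acc (A0 m) (ee m s) w :=
  Acc.eps _ _ w (by simpa [A0] using h) h'

lemma go {s s' : St m} {a : Fin (m + 1)} {w : List (Fin (m + 1))} (h : Tr s (some a) s')
    (ha : cnt w a ≠ 0) (h' : ∀ v, v.length < w.length → cnt w = Pi.single a 1 + cnt v →
      Acc (A0 m) (ee m s') v) : Acc (A0 m) (ee m s) w := by
  obtain ⟨u, v, rfl⟩ := List.append_of_mem (List.count_pos_iff.1 (Nat.pos_of_ne_zero ha))
  refine Acc.jump _ (ee m s') a u v (by simpa [A0] using h) (h' _ (by simp) ?_)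
  rw [cnt_app, cnt_app, cnt_cons, add_left_comm]

lemma compK (j : Fin (m + 1)) (w : List (Fin (m + 1))) (h : cnt w j = 0) :
    Acc (A0 m) (ee m (.inr (.inl j))) w := by
  induction w with
  | nil => exact Acc.fin _ (by simp [A0, Fi])
  | cons a w ih =>
    rw [cnt_cons] at h
    have ha : a ≠ j := by
      rintro rfl
      simp at h
    exact Acc.jump _ _ a [] w (by simpa [A0] using Tr.k1 j a ha)
      (ih (by simp only [Pi.add_apply] at h; omega))

lemma compZ (w : List (Fin (m + 1))) : Acc (A0 m) (ee m (.inl 2)) w := by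
  induction w with
  | nil => exact Acc.fin _ (by simp [A0, Fi])
  | cons a w ih => exact Acc.jump _ _ a [] w (by simpa [A0] using Tr.z2 a) ih

lemma compA (i : Fin m) : ∀ (l : ℕ) (w : List (Fin (m + 1))), w.length = l → ∀ z : Fin 3,
    sem (.inr (.inr (i, z))) (cnt w) → Acc (A0 m) (ee m (.inr (.inr (i, z)))) w := by
  intro l
  induction l using Nat.strong_induction_on with
  | _ l ih =>
    intro w hw z h
    have h1 := (Fin.castSucc_lt_succ (i := i)).ne
    have h2 := h1.symm
    obtain rfl | rfl | rfl : z = 0 ∨ z = 1 ∨ z = 2 := by omega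
    · by_cases h0 : cnt w i.castSucc = 0
      · refine go (Tr.a2 i) (by simpa [sem, h0] using h) fun v _ e => compK _ v ?_
        rw [e] at h0
        simpa [h1] using h0
      · refine go (Tr.a1 i) h0 fun v hv e => ih _ (by omega) v rfl 1 ?_
        rw [e] at h
        simp [sem, h2] at h ⊢
        omega
    · by_cases h0 : cnt w i.succ = 0
      · exact go_eps (Tr.b2 i) (compK _ w h0)
      · refine go (Tr.b1 i) h0 fun v hv e => ih _ (by omega) v rfl 2 ?_
        rw [e] at h
        simp [sem, h1] at h ⊢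
        omega
    · by_cases h0 : cnt w i.succ = 0
      · exact go_eps (Tr.c2 i) (compK _ w h0)
      · refine go (Tr.c1 i) h0 fun v hv e => ih _ (by omega) v rfl 0 ?_
        rw [e] at h
        simp [sem, h1] at h ⊢
        omega

lemma mem0 (w : List (Fin (m + 1))) : w ∈ (A0 m).lang ↔ cnt w ≠ fun i => 2 ^ i.1 := by
  have key : ∀ x : Fin (m + 1) → ℕ, (x ≠ fun i => 2 ^ i.1) ↔
      (x 0 ≠ 1 ∨ ∃ i : Fin m, x i.succ ≠ 2 * x i.castSucc) := by
    intro x
    rw [← not_iff_not]
    push Not
    constructor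
    · rintro rfl
      exact ⟨rfl, fun i => by simp [pow_succ, mul_comm]⟩
    · rintro ⟨h0, h1⟩
      funext i
      induction i using Fin.induction with
      | zero => exact h0
      | succ i ih => rw [h1, ih]; simp [pow_succ, mul_comm]
  rw [key]
  constructor
  · intro h
    simpa [A0, sem] using sound h
  · rintro (h | ⟨i, h⟩)
    · by_cases h0 : cnt w 0 = 0
      · exact go_eps Tr.s1 (compK _ w h0)
      · refine go Tr.s2 h0 fun v _ e => go Tr.z1 ?_ fun u _ _ => compZ u
        rw [e] at h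
        simpa using h
    · exact go_eps (Tr.s3 i) (compA i _ w rfl 0 (by simpa [sem] using h))

lemma reg0 : (A0 m).lang.IsRegular := by
  classical
  let M : DFA (Fin (m + 1)) (Fin (m + 1) → Fin (2 ^ (m + 1) + 1)) :=
    ⟨fun s a => Function.update s a ⟨min ((s a).1 + 1) (2 ^ (m + 1)), by omega⟩,
      fun _ => 0, {s | (fun a => (s a).1) ≠ fun i => 2 ^ i.1}⟩
  have ev : ∀ w s a, (M.evalFrom s w a).1 = min ((s a).1 + cnt w a) (2 ^ (m + 1)) := by
    intro w
    induction w with
    | nil =>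
      intro s a
      have := (s a).2
      simp [cnt]
      omega
    | cons b w ih =>
      intro s a
      rw [show M.evalFrom s (b :: w) = M.evalFrom (M.step s b) w from rfl, ih, cnt_cons]
      by_cases hj : a = b
      · subst hj; simp [M]; omega
      · simp [M, hj]
  refine ⟨_, inferInstance, M, Language.ext fun w => ?_⟩
  rw [mem0, DFA.mem_accepts]
  refine not_congr (funext_iff.trans (Iff.trans (forall_congr' fun a => ?_) funext_iff.symm))
  have h1 := ev w M.start a
  have h2 : 2 ^ a.1 < 2 ^ (m + 1) := Nat.pow_lt_pow_right (by omega) a.2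
  have h3 : (M.start a).1 = 0 := rfl
  show (M.evalFrom M.start w a).1 = _ ↔ _
  omega

theorem lower (k : ℕ) (hk : 1 ≤ k) : ∃ A : NJFA (4 * k) k, A.lang.IsRegular ∧
    ∀ (σ : Type) (_ : Fintype σ) (M : DFA (Fin k) σ), M.accepts = A.lang →
      2 ^ (k * (k - 1) / 2) ≤ Fintype.card σ := by
  obtain ⟨m, rfl⟩ : ∃ m, k = m + 1 := ⟨k - 1, by omega⟩
  refine ⟨A0 m, reg0, fun σ _ M hM => ?_⟩
  choose wd hwd using cnt_surj (k := m + 1)
  have inj : Function.Injective fun y : (i : Fin (m + 1)) → Fin (2 ^ i.1) =>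
      M.evalFrom M.start (wd fun i => (y i).1) := by
    intro y y' e
    have h1 : ∀ u v, cnt (u ++ v) ≠ (fun i => 2 ^ i.1) ↔
        M.evalFrom (M.evalFrom M.start u) v ∈ M.accept := by
      intro u v
      rw [← mem0, ← hM, DFA.mem_accepts, ← DFA.evalFrom_of_append]
      rfl
    have h2 := h1 (wd fun i => (y i).1) (wd fun i => 2 ^ i.1 - (y i).1)
    have h3 := h1 (wd fun i => (y' i).1) (wd fun i => 2 ^ i.1 - (y i).1)
    beta_reduce at e
    rw [← e, ← h2, cnt_app, cnt_app, hwd, hwd, hwd, not_iff_not] at h3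
    have h4 := h3.2 (funext fun i => by
      have := (y i).2
      simp only [Pi.add_apply]
      omega)
    funext i
    have := congrFun h4 i
    have := (y i).2
    simp only [Pi.add_apply] at *
    exact Fin.ext (by omega)
  have := Fintype.card_le_of_injective _ inj
  simp only [Fintype.card_pi, Fintype.card_fin] at this
  rwa [Finset.prod_pow_eq_pow_sum, Fin.sum_univ_eq_sum_range (fun i => i),
    Finset.sum_range_id] at this

end Pool.Agent.H24.Jmp
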