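import Mathlib

set_option autoImplicit false

namespace Pool.Agent.H24.Jmp

/-- A general finite automaton with `n` states over `k` letters; `none` is the empty word. -/
structure NJFA (n k : ℕ) where
  δ : Fin n → Option (Fin k) → Set (Fin n)
  q0 : Fin n
  F : Set (Fin n)

/-- `Acc A q w`: the configuration `q w` of the jumping automaton leads to a final state with
empty input. -/
inductive Acc {n k : ℕ} (A : NJFA n k) : Fin n → List (Fin k) → Prop
  | fin (q : Fin n) : q ∈ A.F → Acc A q []
  | eps (q p : Fin n) (w : List (Fin k)) : p ∈ A.δ q none → Acc A p w → Acc A q w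
  | jump (q p : Fin n) (a : Fin k) (u v : List (Fin k)) :
      p ∈ A.δ q (some a) → Acc A p (u ++ v) → Acc A q (u ++ a :: v)

/-- The language of the jumping automaton. -/
def NJFA.lang {n k : ℕ} (A : NJFA n k) : Language (Fin k) := {w | Acc A A.q0 w}

/-- The explicit bound. -/
def bound (n k : ℕ) : ℕ :=
  (2 ^ 4 ^ (2 ^ n * (2 * (n * (n + 1) + n.factorial + n * (n + 1) ^ k + 1) + 1) ^ k) +
    n.factorial) ^ k

end Pool.Agent.H24.Jmp
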