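import Mathlib

namespace Pool.Agent.H24.Lab
open Finset

lemma fix_card {X : Type} [Fintype X] [DecidableEq X] {q : ℕ} (Y : Finset (X × Fin q)) :
    #(univ.filter fun f : X → Fin q => ∀ w ∈ Y, f w.1 = w.2) * q ^ #Y ≤ q ^ Fintype.card X := by
  classical
  rcases (univ.filter fun f : X → Fin q => ∀ w ∈ Y, f w.1 = w.2).eq_empty_or_nonempty with
    h | ⟨f0, h0⟩
  · rw [h]; simp
  · have h0' : ∀ w ∈ Y, f0 w.1 = w.2 := (mem_filter.1 h0).2
    have hinj : Set.InjOn Prod.fst (Y : Set (X × Fin q)) := by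
      intro a ha b hb hab
      exact Prod.ext hab (by rw [← h0' a ha, ← h0' b hb, hab])
    have hZ : #(Y.image Prod.fst) = #Y := card_image_of_injOn hinj
    have hsub : (univ.filter fun f : X → Fin q => ∀ w ∈ Y, f w.1 = w.2) ⊆
        Fintype.piFinset (fun x => if x ∈ Y.image Prod.fst then ({f0 x} : Finset (Fin q))
          else univ) := by
      intro f hf
      have hf' := (mem_filter.1 hf).2
      rw [Fintype.mem_piFinset]
      intro x
      split_ifs with hx
      · obtain ⟨w, hw, rfl⟩ := mem_image.1 hx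
        rw [mem_singleton, hf' w hw, h0' w hw]
      · exact mem_univ _
    have hc : #(Fintype.piFinset (fun x => if x ∈ Y.image Prod.fst then ({f0 x} : Finset (Fin q))
          else univ)) * q ^ #(Y.image Prod.fst) = q ^ Fintype.card X := by
      rw [Fintype.card_piFinset]
      have h1 : q ^ #(Y.image Prod.fst) = ∏ x : X, (if x ∈ Y.image Prod.fst then q else 1) := by
        rw [prod_ite_mem, univ_inter, prod_const]
      rw [h1, ← prod_mul_distrib]
      rw [← card_univ, ← prod_const]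
      refine prod_congr rfl fun x _ => ?_
      split_ifs <;> simp
    rw [← hc, hZ]
    exact Nat.mul_le_mul_right _ (card_le_card hsub)

lemma many_card {X : Type} [Fintype X] [DecidableEq X] {q : ℕ} (W : Finset (X × Fin q)) (E : ℕ) :
    #(univ.filter fun f : X → Fin q => E ≤ #(W.filter fun w => f w.1 = w.2)) * q ^ E ≤
      (#W).choose E * q ^ Fintype.card X := by
  classical
  have hsub : (univ.filter fun f : X → Fin q => E ≤ #(W.filter fun w => f w.1 = w.2)) ⊆
      (W.powersetCard E).biUnion fun Y => univ.filter fun f : X → Fin q => ∀ w ∈ Y, f w.1 = w.2 := by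
    intro f hf
    obtain ⟨Y, hY, hc⟩ := exists_subset_card_eq (mem_filter.1 hf).2
    refine mem_biUnion.2 ⟨Y, mem_powersetCard.2 ⟨hY.trans (filter_subset _ _), hc⟩, ?_⟩
    exact mem_filter.2 ⟨mem_univ _, fun w hw => (mem_filter.1 (hY hw)).2⟩
  calc _ ≤ (∑ Y ∈ W.powersetCard E,
        #(univ.filter fun f : X → Fin q => ∀ w ∈ Y, f w.1 = w.2)) * q ^ E :=
        Nat.mul_le_mul_right _ ((card_le_card hsub).trans card_biUnion_le)
    _ = ∑ Y ∈ W.powersetCard E,
        #(univ.filter fun f : X → Fin q => ∀ w ∈ Y, f w.1 = w.2) * q ^ E := by rw [sum_mul]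
    _ ≤ ∑ _Y ∈ W.powersetCard E, q ^ Fintype.card X := by
        refine sum_le_sum fun Y hY => ?_
        have := fix_card Y
        rwa [(mem_powersetCard.1 hY).2] at this
    _ = _ := by rw [sum_const, card_powersetCard, smul_eq_mul]

lemma pow_le_fact {k E : ℕ} (h : 3 * k ≤ E) : k ^ E ≤ E.factorial := by
  have h1 := Real.pow_div_factorial_le_exp (E : ℝ) (Nat.cast_nonneg E) E
  have h2 : Real.exp (E : ℝ) ≤ 3 ^ E := by
    rw [← mul_one (E : ℝ), Real.exp_nat_mul]
    exact pow_le_pow_left₀ (Real.exp_pos 1).le (Real.exp_one_lt_d9.le.trans (by norm_num)) E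
  have hf : (0 : ℝ) < E.factorial := by exact_mod_cast E.factorial_pos
  rw [div_le_iff₀ hf] at h1
  have h3 : ((3 * k : ℕ) : ℝ) ^ E ≤ (E : ℝ) ^ E :=
    pow_le_pow_left₀ (Nat.cast_nonneg _) (by exact_mod_cast h) E
  have h4 : (3 : ℝ) ^ E * (k : ℝ) ^ E ≤ 3 ^ E * E.factorial := by
    calc (3 : ℝ) ^ E * (k : ℝ) ^ E = ((3 * k : ℕ) : ℝ) ^ E := by push_cast; rw [mul_pow]
      _ ≤ _ := h3
      _ ≤ _ := h1
      _ ≤ _ := mul_le_mul_of_nonneg_right h2 hf.le
  have h5 := le_of_mul_le_mul_left h4 (by positivity)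
  exact_mod_cast h5

lemma choose_le {N k E : ℕ} (hk : 1 ≤ k) (hN : N ≤ k * k) (h : 3 * k ≤ E) : N.choose E ≤ k ^ E := by
  have h1 : E.factorial * N.choose E ≤ N ^ E := by
    rw [← Nat.descFactorial_eq_factorial_mul_choose]; exact Nat.descFactorial_le_pow _ _
  have h2 : N ^ E ≤ k ^ E * k ^ E := by rw [← mul_pow]; exact Nat.pow_le_pow_left hN E
  have h3 : k ^ E * N.choose E ≤ k ^ E * k ^ E :=
    (Nat.mul_le_mul_right _ (pow_le_fact h)).trans (h1.trans h2)
  exact Nat.le_of_mul_le_mul_left h3 (by positivity)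

/-- slots of the host graph seen inside the range of `φ` -/
noncomputable def slots {L D : Type} [Fintype L] [Fintype D] {q k : ℕ} (f : L × D → Fin q)
    (φ : Fin k → L ⊕ (D × Fin q)) : Finset (L × D) := by
  classical
  exact univ.filter fun x => Sum.inl x.1 ∈ Set.range φ ∧ Sum.inr (x.2, f x) ∈ Set.range φ

lemma mem_slots {L D : Type} [Fintype L] [Fintype D] {q k : ℕ} {f : L × D → Fin q}
    {φ : Fin k → L ⊕ (D × Fin q)} {x : L × D} :
    x ∈ slots f φ ↔ Sum.inl x.1 ∈ Set.range φ ∧ Sum.inr (x.2, f x) ∈ Set.range φ := by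
  simp [slots]

lemma bad_one {L D : Type} [Fintype L] [Fintype D] [DecidableEq L] [DecidableEq D] {q k E : ℕ}
    (hk : 1 ≤ k) (hE : 3 * k ≤ E) (φ : Fin k → L ⊕ (D × Fin q)) :
    #(univ.filter fun f : L × D → Fin q => E ≤ #(slots f φ)) * q ^ E ≤
      k ^ E * q ^ Fintype.card (L × D) := by
  classical
  set W : Finset ((L × D) × Fin q) := univ.filter fun w =>
    Sum.inl w.1.1 ∈ Set.range φ ∧ Sum.inr (w.1.2, w.2) ∈ Set.range φ with hW
  have hWc : #W ≤ k * k := by
    have : #W ≤ #((univ.image φ) ×ˢ (univ.image φ)) := by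
      refine card_le_card_of_injOn (fun w => (Sum.inl w.1.1, Sum.inr (w.1.2, w.2))) ?_ ?_
      · intro w hw
        have := (mem_filter.1 (mem_coe.1 hw)).2
        simpa using this
      · intro a _ b _ hab
        simp only [Prod.mk.injEq, Sum.inl.injEq, Sum.inr.injEq] at hab
        exact Prod.ext (Prod.ext hab.1 hab.2.1) hab.2.2
    rw [card_product] at this
    have h2 : #(univ.image φ) ≤ k := card_image_le.trans (by simp)
    exact this.trans (Nat.mul_le_mul h2 h2)
  have hsub : (univ.filter fun f : L × D → Fin q => E ≤ #(slots f φ)) ⊆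
      univ.filter fun f : L × D → Fin q => E ≤ #(W.filter fun w => f w.1 = w.2) := by
    intro f hf
    refine mem_filter.2 ⟨mem_univ _, (mem_filter.1 hf).2.trans ?_⟩
    refine card_le_card_of_injOn (fun x => (x, f x)) ?_ ?_
    · intro x hx
      have := mem_slots.1 (mem_coe.1 hx)
      simp only [coe_filter, hW, mem_filter, mem_univ, true_and, Set.mem_setOf_eq, and_true]
      exact this
    · intro a _ b _ hab
      exact (Prod.mk.inj hab).1
  calc _ ≤ _ := Nat.mul_le_mul_right _ (card_le_card hsub)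
    _ ≤ _ := many_card W E
    _ ≤ _ := Nat.mul_le_mul_right _ (choose_le hk hWc hE)

lemma host {L D : Type} [Fintype L] [Fintype D] [DecidableEq L] [DecidableEq D] {q : ℕ}
    (hq : 1 ≤ q) (hV : Fintype.card (L ⊕ (D × Fin q)) ≤ q ^ 5) (E : ℕ → ℕ)
    (hE : ∀ k, 1 ≤ k → 2 * k ≤ q → 3 * k ≤ E k ∧ k ^ E k * q ^ (6 * k) ≤ q ^ E k) :
    ∃ f : L × D → Fin q, ∀ k, 1 ≤ k → 2 * k ≤ q → ∀ φ : Fin k → L ⊕ (D × Fin q),
      #(slots f φ) < E k := by
  classical
  set M := Fintype.card (L × D) with hM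
  set bad : ℕ → Finset (L × D → Fin q) := fun k =>
    (univ : Finset (Fin k → L ⊕ (D × Fin q))).biUnion fun φ =>
      univ.filter fun f : L × D → Fin q => E k ≤ #(slots f φ) with hbad
  have h1 : ∀ k, 1 ≤ k → 2 * k ≤ q → #(bad k) * q ≤ q ^ M := by
    intro k hk hkq
    obtain ⟨h3, h4⟩ := hE k hk hkq
    have a1 : #(bad k) * q ^ E k ≤ q ^ (5 * k) * (k ^ E k * q ^ M) := by
      calc _ ≤ (∑ φ : Fin k → L ⊕ (D × Fin q),
            #(univ.filter fun f : L × D → Fin q => E k ≤ #(slots f φ))) * q ^ E k :=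
            Nat.mul_le_mul_right _ card_biUnion_le
        _ = ∑ φ : Fin k → L ⊕ (D × Fin q),
            #(univ.filter fun f : L × D → Fin q => E k ≤ #(slots f φ)) * q ^ E k := by
            rw [sum_mul]
        _ ≤ ∑ _φ : Fin k → L ⊕ (D × Fin q), k ^ E k * q ^ M :=
            sum_le_sum fun φ _ => bad_one hk h3 φ
        _ = Fintype.card (L ⊕ (D × Fin q)) ^ k * (k ^ E k * q ^ M) := by
            rw [sum_const, card_univ, Fintype.card_fun, Fintype.card_fin, smul_eq_mul]
        _ ≤ _ := by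
            refine Nat.mul_le_mul_right _ ?_
            rw [pow_mul]; exact Nat.pow_le_pow_left hV k
    have a2 : (#(bad k) * q ^ k) * q ^ E k ≤ q ^ M * q ^ E k := by
      calc _ = (#(bad k) * q ^ E k) * q ^ k := by ring
        _ ≤ (q ^ (5 * k) * (k ^ E k * q ^ M)) * q ^ k := Nat.mul_le_mul_right _ a1
        _ = q ^ M * (k ^ E k * q ^ (6 * k)) := by ring
        _ ≤ _ := Nat.mul_le_mul_left _ h4
    have a3 := Nat.le_of_mul_le_mul_right a2 (by positivity)
    refine le_trans (Nat.mul_le_mul_left _ ?_) a3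
    exact Nat.le_self_pow (by omega) q
  have h2 : #((Icc 1 (q / 2)).biUnion bad) * q < q ^ M * q := by
    calc _ ≤ (∑ k ∈ Icc 1 (q / 2), #(bad k)) * q := Nat.mul_le_mul_right _ card_biUnion_le
      _ = ∑ k ∈ Icc 1 (q / 2), #(bad k) * q := by rw [sum_mul]
      _ ≤ ∑ _k ∈ Icc 1 (q / 2), q ^ M := by
          refine sum_le_sum fun k hk => ?_
          have := mem_Icc.1 hk
          exact h1 k this.1 (by omega)
      _ = q ^ M * (q / 2) := by simp [mul_comm]
      _ < _ := Nat.mul_lt_mul_of_pos_left (by omega) (by positivity)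
  have h3 : #((Icc 1 (q / 2)).biUnion bad) < #(univ : Finset (L × D → Fin q)) := by
    rw [card_univ, Fintype.card_fun, Fintype.card_fin]
    exact Nat.lt_of_mul_lt_mul_right h2
  obtain ⟨f, -, hf⟩ := exists_mem_notMem_of_card_lt_card h3
  refine ⟨f, fun k hk hkq φ => ?_⟩
  by_contra hc
  refine hf (mem_biUnion.2 ⟨k, mem_Icc.2 ⟨hk, by omega⟩, ?_⟩)
  exact mem_biUnion.2 ⟨φ, mem_univ _, mem_filter.2 ⟨mem_univ _, by omega⟩⟩

end Pool.Agent.H24.Lab
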