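import Pool.Agent.H24.Lab1

namespace Pool.Agent.H24.Lab
open Finset

/-- the subgraph of the host graph with slot set `B` -/
def gr {L D : Type} {q : ℕ} (f : L × D → Fin q) (B : Finset (L × D)) :
    SimpleGraph (L ⊕ (D × Fin q)) :=
  SimpleGraph.fromRel fun v w => ∃ x ∈ B, v = Sum.inl x.1 ∧ w = Sum.inr (x.2, f x)

lemma gr_adj {L D : Type} {q : ℕ} (f : L × D → Fin q) (B : Finset (L × D)) (x : L × D) :
    (gr f B).Adj (Sum.inl x.1) (Sum.inr (x.2, f x)) ↔ x ∈ B := by
  simp only [gr, SimpleGraph.fromRel_adj]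
  constructor
  · rintro ⟨-, ⟨y, hy, h1, h2⟩ | ⟨y, hy, h1, h2⟩⟩
    · have : x = y := Prod.ext (Sum.inl.inj h1) (Prod.mk.inj (Sum.inr.inj h2)).1
      rwa [this]
    · cases h1
  · intro hx
    exact ⟨by simp, Or.inl ⟨x, hx, rfl, rfl⟩⟩

lemma gr_inj {L D : Type} {q : ℕ} (f : L × D → Fin q) : Function.Injective (gr f) := by
  intro B C h
  ext x
  rw [← gr_adj f B, ← gr_adj f C, h]

lemma comap_slots {L D : Type} [Fintype L] [Fintype D] [DecidableEq L] [DecidableEq D] {q k : ℕ}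
    (f : L × D → Fin q) (B : Finset (L × D)) (φ : Fin k → L ⊕ (D × Fin q)) :
    (gr f B).comap φ = (gr f (B ∩ slots f φ)).comap φ := by
  ext a b
  simp only [SimpleGraph.comap_adj, gr, SimpleGraph.fromRel_adj, mem_inter, mem_slots]
  constructor
  · rintro ⟨h, ⟨y, hy, h1, h2⟩ | ⟨y, hy, h1, h2⟩⟩
    · exact ⟨h, Or.inl ⟨y, ⟨hy, ⟨a, h1⟩, ⟨b, h2⟩⟩, h1, h2⟩⟩
    · exact ⟨h, Or.inr ⟨y, ⟨hy, ⟨b, h1⟩, ⟨a, h2⟩⟩, h1, h2⟩⟩
  · rintro ⟨h, ⟨y, hy, h1, h2⟩ | ⟨y, hy, h1, h2⟩⟩
    · exact ⟨h, Or.inl ⟨y, hy.1, h1, h2⟩⟩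
    · exact ⟨h, Or.inr ⟨y, hy.1, h1, h2⟩⟩

/-- graphs described by a short list of ordered pairs -/
def lst {k E : ℕ} (g : Fin E → Fin k × Fin k) : SimpleGraph (Fin k) :=
  SimpleGraph.fromRel fun a b => ∃ i, g i = (a, b)

lemma small {L D : Type} [Fintype L] [Fintype D] [DecidableEq L] [DecidableEq D] {q k E : ℕ}
    (hk : 1 ≤ k) (f : L × D → Fin q) (B : Finset (L × D)) (φ : Fin k → L ⊕ (D × Fin q))
    (hφ : Function.Injective φ) (hE : #(slots f φ) ≤ E) :
    ∃ g : Fin E → Fin k × Fin k, (gr f B).comap φ = lst g := by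
  classical
  have : Nonempty (Fin k) := ⟨⟨0, hk⟩⟩
  set z : Fin k := ⟨0, hk⟩
  set l := (B ∩ slots f φ).toList with hl
  have hlen : l.length ≤ E := by
    rw [hl, length_toList]; exact (card_le_card inter_subset_right).trans hE
  set p : L × D → Fin k × Fin k := fun x =>
    (Function.invFun φ (Sum.inl x.1), Function.invFun φ (Sum.inr (x.2, f x))) with hp
  have key : ∀ a b, a ≠ b → ((∃ x ∈ B, φ a = Sum.inl x.1 ∧ φ b = Sum.inr (x.2, f x)) ↔
      ∃ i : Fin E, (l.map p).getD i (z, z) = (a, b)) := by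
    intro a b hab
    constructor
    · rintro ⟨x, hx, h1, h2⟩
      have hxl : x ∈ l := by
        rw [hl, mem_toList, mem_inter, mem_slots]; exact ⟨hx, ⟨a, h1⟩, ⟨b, h2⟩⟩
      obtain ⟨i, hi, hix⟩ := List.getElem_of_mem hxl
      refine ⟨⟨i, by omega⟩, ?_⟩
      rw [List.getD_eq_getElem _ _ (by simpa using hi), List.getElem_map, hix]
      simp only [hp, ← h1, ← h2, Function.leftInverse_invFun hφ _]
    · rintro ⟨i, hi⟩
      by_cases hil : (i : ℕ) < l.length
      · rw [List.getD_eq_getElem _ _ (by simpa using hil), List.getElem_map] at hi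
        have hxl : l[(i : ℕ)] ∈ l := List.getElem_mem hil
        generalize l[(i : ℕ)] = x at hi hxl
        rw [hl, mem_toList, mem_inter, mem_slots] at hxl
        obtain ⟨h1, h2, h3⟩ := hxl
        have e1 := (Prod.mk.inj hi).1
        have e2 := (Prod.mk.inj hi).2
        exact ⟨x, h1, by rw [← e1]; exact Function.invFun_eq h2,
          by rw [← e2]; exact Function.invFun_eq h3⟩
      · rw [List.getD_eq_default _ _ (by simpa using hil)] at hi
        exact absurd ((Prod.mk.inj hi).1.symm.trans (Prod.mk.inj hi).2) hab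
  refine ⟨fun i => (l.map p).getD i (z, z), ?_⟩
  ext a b
  simp only [SimpleGraph.comap_adj, gr, lst, SimpleGraph.fromRel_adj]
  constructor
  · rintro ⟨h, h2⟩
    have hab : a ≠ b := fun e => h (by rw [e])
    exact ⟨hab, by rw [← key a b hab, ← key b a hab.symm]; exact h2⟩
  · rintro ⟨h, h2⟩
    rw [← key a b h, ← key b a h.symm] at h2
    exact ⟨fun e => h (hφ e), h2⟩

/-- no decoder on a small label set handles a whole random family -/
lemma decoder {V β Λ : Type} [Fintype V] [Fintype β] [Fintype Λ] [DecidableEq V] [Nonempty Λ]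
    (G : β → SimpleGraph V) (hG : Function.Injective G)
    (h : 2 * Fintype.card Λ ^ Fintype.card V < Fintype.card β) :
    ∃ F : Λ × Λ → β, ∀ A : Λ → Λ → Bool, ∃ i, ¬ ∃ ℓ : V → Λ,
      ∀ v w, v ≠ w → ((G (F i)).Adj v w ↔ A (ℓ v) (ℓ w) = true) := by
  classical
  set R : (Λ × Λ → Bool) → Finset β := fun A => univ.filter fun b => ∃ ℓ : V → Λ,
      ∀ v w, v ≠ w → ((G b).Adj v w ↔ A (ℓ v, ℓ w) = true) with hR
  have h1 : ∀ A, #(R A) ≤ Fintype.card Λ ^ Fintype.card V := by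
    intro A
    have hch : ∀ b : β, ∃ ℓ : V → Λ, b ∈ R A →
        ∀ v w, v ≠ w → ((G b).Adj v w ↔ A (ℓ v, ℓ w) = true) := by
      intro b
      by_cases hb : b ∈ R A
      · obtain ⟨ℓ, hℓ⟩ := (mem_filter.1 hb).2
        exact ⟨ℓ, fun _ => hℓ⟩
      · exact ⟨fun _ => Classical.arbitrary Λ, fun hb' => absurd hb' hb⟩
    choose c hc using hch
    rw [← Fintype.card_fun, ← card_univ]
    refine card_le_card_of_injOn c (fun _ _ => mem_univ _) ?_
    intro a ha b hb hab
    apply hG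
    ext v w
    by_cases hvw : v = w
    · subst hvw; simp
    · rw [hc a ha v w hvw, hc b hb v w hvw, hab]
  set K := Fintype.card (Λ × Λ) with hK
  have hKpos : K ≠ 0 := Fintype.card_ne_zero
  have h2 : #((univ : Finset (Λ × Λ → Bool)).biUnion fun A =>
      Fintype.piFinset fun _ : Λ × Λ => R A) < #(univ : Finset (Λ × Λ → β)) := by
    calc _ ≤ ∑ A : Λ × Λ → Bool, #(Fintype.piFinset fun _ : Λ × Λ => R A) := card_biUnion_le
      _ ≤ ∑ _A : Λ × Λ → Bool, (Fintype.card Λ ^ Fintype.card V) ^ K := by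
          refine sum_le_sum fun A _ => ?_
          rw [Fintype.card_piFinset, prod_const, card_univ]
          exact Nat.pow_le_pow_left (h1 A) _
      _ = (2 * Fintype.card Λ ^ Fintype.card V) ^ K := by
          rw [sum_const, card_univ, Fintype.card_fun, Fintype.card_bool, smul_eq_mul, mul_pow]
      _ < Fintype.card β ^ K := Nat.pow_lt_pow_left h hKpos
      _ = _ := by rw [card_univ, Fintype.card_fun]
  obtain ⟨F, -, hF⟩ := exists_mem_notMem_of_card_lt_card h2
  refine ⟨F, fun A => ?_⟩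
  by_contra hc
  push Not at hc
  refine hF (mem_biUnion.2 ⟨fun x => A x.1 x.2, mem_univ _, ?_⟩)
  rw [Fintype.mem_piFinset]
  intro i
  exact mem_filter.2 ⟨mem_univ _, hc i⟩

lemma enc (b : ℕ) : ∃ (e : List Bool → (Fin b → Option Bool)) (d : (Fin b → Option Bool) → List Bool),
    ∀ l : List Bool, l.length ≤ b → d (e l) = l := by
  classical
  refine ⟨fun l i => l[(i : ℕ)]?, fun y =>
    if h : ∃ l : List Bool, l.length ≤ b ∧ (fun i : Fin b => l[(i : ℕ)]?) = y then h.choose else [],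
    fun l hl => ?_⟩
  have h : ∃ l' : List Bool, l'.length ≤ b ∧
      (fun i : Fin b => l'[(i : ℕ)]?) = fun i : Fin b => l[(i : ℕ)]? := ⟨l, hl, rfl⟩
  beta_reduce
  rw [dif_pos h]
  obtain ⟨h1, h2⟩ := h.choose_spec
  apply List.ext_getElem?
  intro i
  by_cases hi : i < b
  · exact congrFun h2 ⟨i, hi⟩
  · rw [List.getElem?_eq_none (by omega), List.getElem?_eq_none (by omega)]

end Pool.Agent.H24.Lab
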