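import Pool.Agent.H24.Lab2

namespace Pool.Agent.H24.Lab
open Finset

def qq (s : ℕ) : ℕ := 2 ^ (5 * s * (5 * s))
def mm (s : ℕ) : ℕ := 5 * s * qq s
abbrev VV (s : ℕ) : Type := Fin (mm s * mm s) ⊕ (Fin (5 * s * mm s) × Fin (qq s))
abbrev II (s : ℕ) : Type := (Fin (s * mm s) → Option Bool) × (Fin (s * mm s) → Option Bool)

lemma card_VV (s : ℕ) : Fintype.card (VV s) = 2 * (mm s * mm s) := by
  simp only [Fintype.card_sum, Fintype.card_prod, Fintype.card_fin]; unfold mm; ring

lemma qq_gt (s : ℕ) : 5 * s * (5 * s) < qq s := Nat.lt_two_pow_self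

lemma card_VV_le {s : ℕ} (hs : 1 ≤ s) : Fintype.card (VV s) ≤ qq s ^ 5 := by
  rw [card_VV]
  have h := qq_gt s
  have h2 : 2 ≤ qq s := by nlinarith
  calc 2 * (mm s * mm s) = 2 * (5 * s * (5 * s)) * qq s ^ 2 := by unfold mm; ring
    _ ≤ qq s ^ 2 * qq s * qq s ^ 2 := by
        refine Nat.mul_le_mul_right _ (Nat.mul_le_mul (by nlinarith) h.le)
    _ = _ := by ring

lemma card_II (s : ℕ) : Fintype.card (II s) ≤ qq s ^ qq s := by
  have h : Fintype.card (II s) = 9 ^ (s * mm s) := by
    simp only [Fintype.card_prod, Fintype.card_fun, Fintype.card_option, Fintype.card_bool,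
      Fintype.card_fin]
    rw [← mul_pow]; norm_num
  rw [h]
  calc 9 ^ (s * mm s) ≤ (2 ^ 5) ^ (s * mm s) := Nat.pow_le_pow_left (by norm_num) _
    _ = (2 ^ (5 * s * (5 * s))) ^ qq s := by
        rw [← pow_mul, ← pow_mul]; congr 1; unfold mm; ring
    _ = _ := rfl

lemma stage {s : ℕ} (hs : 1 ≤ s) : ∃ G : II s → SimpleGraph (VV s),
    (∀ A : List Bool → List Bool → Bool, ∃ i, ¬ ∃ ℓ : VV s → List Bool,
      (∀ v, (ℓ v).length ≤ s * mm s) ∧
        ∀ v w, v ≠ w → ((G i).Adj v w ↔ A (ℓ v) (ℓ w) = true)) ∧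
    (∀ k, 2 ≤ k → k * k ≤ qq s → ∀ i, ∀ φ : Fin k → VV s, Function.Injective φ →
      ∃ g : Fin (12 * k) → Fin k × Fin k, (G i).comap φ = lst g) ∧
    (∀ k, 2 ≤ k → qq s < k * k → ∃ T : Finset (SimpleGraph (Fin k)), #T ≤ k ^ (22 * k) ∧
      ∀ i, ∀ φ : Fin k → VV s, (G i).comap φ ∈ T) := by
  classical
  have hq := qq_gt s
  have hq1 : 1 ≤ qq s := by omega
  set E : ℕ → ℕ := fun k => if k * k ≤ qq s then 12 * k else 6 * (5 * s * (5 * s)) * k with hEdef
  obtain ⟨f, hf⟩ := host (L := Fin (mm s * mm s)) (D := Fin (5 * s * mm s)) hq1 (card_VV_le hs) E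
    (by
      intro k hk hkq
      simp only [hEdef]
      split_ifs with h
      · refine ⟨by omega, ?_⟩
        calc k ^ (12 * k) * qq s ^ (6 * k) = (k * k) ^ (6 * k) * qq s ^ (6 * k) := by ring
          _ ≤ qq s ^ (6 * k) * qq s ^ (6 * k) :=
              Nat.mul_le_mul_right _ (Nat.pow_le_pow_left h _)
          _ = _ := by ring
      · refine ⟨by nlinarith [Nat.mul_le_mul hs hs], ?_⟩
        have e : qq s ^ (6 * k) = 2 ^ (6 * (5 * s * (5 * s)) * k) := by
          unfold qq; rw [← pow_mul]; congr 1; ring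
        rw [e, ← mul_pow]
        exact Nat.pow_le_pow_left (by omega) _)
  have hm : 1 ≤ mm s := by unfold mm; nlinarith
  obtain ⟨F, hF⟩ := decoder (Λ := Fin (s * mm s) → Option Bool) (gr f) (gr_inj f) (by
    rw [card_VV, Fintype.card_finset, Fintype.card_fun]
    simp only [Fintype.card_prod, Fintype.card_option, Fintype.card_bool, Fintype.card_fin]
    calc 2 * ((2 + 1) ^ (s * mm s)) ^ (2 * (mm s * mm s))
        ≤ 2 * ((2 ^ 2) ^ (s * mm s)) ^ (2 * (mm s * mm s)) :=
          Nat.mul_le_mul_left _ (Nat.pow_le_pow_left (Nat.pow_le_pow_left (by norm_num) _) _)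
      _ = 2 ^ (4 * (s * mm s * (mm s * mm s)) + 1) := by
          rw [← pow_mul, ← pow_mul, pow_succ, mul_comm]; congr 2; ring
      _ < _ := by
          refine Nat.pow_lt_pow_right (by norm_num) ?_
          have h5 : 5 ≤ mm s := by unfold mm; nlinarith
          have : 5 ≤ s * mm s * (mm s * mm s) := by
            calc 5 ≤ 1 * 5 * (1 * 1) := by norm_num
              _ ≤ _ := Nat.mul_le_mul (Nat.mul_le_mul hs h5) (Nat.mul_le_mul hm hm)
          nlinarith)
  refine ⟨fun i => gr f (F i), fun A => ?_, fun k hk hkq i φ hφ => ?_, fun k hk hkq => ?_⟩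
  · obtain ⟨e, d, hed⟩ := enc (s * mm s)
    obtain ⟨i, hi⟩ := hF fun x y => A (d x) (d y)
    refine ⟨i, ?_⟩
    rintro ⟨ℓ, h1, h2⟩
    refine hi ⟨fun v => e (ℓ v), fun v w hvw => ?_⟩
    rw [h2 v w hvw, hed _ (h1 v), hed _ (h1 w)]
  · refine small (by omega) f (F i) φ hφ ?_
    have := hf k (by omega) (by nlinarith) φ
    simp only [hEdef, if_pos hkq] at this
    omega
  · have hV : Fintype.card (Fin k → VV s) ≤ qq s ^ (5 * k) := by
      rw [Fintype.card_fun, Fintype.card_fin, pow_mul]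
      exact Nat.pow_le_pow_left (card_VV_le hs) k
    have hfin : qq s ^ (11 * k) ≤ k ^ (22 * k) := by
      calc _ ≤ (k * k) ^ (11 * k) := Nat.pow_le_pow_left hkq.le _
        _ = _ := by ring
    by_cases h2 : 2 * k ≤ qq s
    · refine ⟨(univ : Finset (Fin k → VV s)).biUnion fun φ =>
        (slots f φ).powerset.image fun B => (gr f B).comap φ, ?_, fun i φ => ?_⟩
      · calc _ ≤ ∑ φ : Fin k → VV s,
              #((slots f φ).powerset.image fun B => (gr f B).comap φ) := card_biUnion_le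
          _ ≤ ∑ _φ : Fin k → VV s, qq s ^ (6 * k) := by
              refine sum_le_sum fun φ _ => card_image_le.trans ?_
              rw [card_powerset]
              have := hf k (by omega) h2 φ
              simp only [hEdef, if_neg (not_le.2 hkq)] at this
              have e : qq s ^ (6 * k) = 2 ^ (6 * (5 * s * (5 * s)) * k) := by
                unfold qq; rw [← pow_mul]; congr 1; ring
              rw [e]
              exact Nat.pow_le_pow_right (by norm_num) this.le
          _ = Fintype.card (Fin k → VV s) * qq s ^ (6 * k) := by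
              rw [sum_const, card_univ, smul_eq_mul]
          _ ≤ qq s ^ (5 * k) * qq s ^ (6 * k) := Nat.mul_le_mul_right _ hV
          _ = qq s ^ (11 * k) := by ring
          _ ≤ _ := hfin
      · refine mem_biUnion.2 ⟨φ, mem_univ _, mem_image.2 ⟨F i ∩ slots f φ, ?_, ?_⟩⟩
        · exact mem_powerset.2 inter_subset_right
        · exact (comap_slots f (F i) φ).symm
    · refine ⟨(univ : Finset (II s × (Fin k → VV s))).image fun x => (gr f (F x.1)).comap x.2,
        ?_, fun i φ => mem_image.2 ⟨(i, φ), mem_univ _, rfl⟩⟩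
      calc _ ≤ #(univ : Finset (II s × (Fin k → VV s))) := card_image_le
        _ = Fintype.card (II s) * Fintype.card (Fin k → VV s) := by
            rw [card_univ, Fintype.card_prod]
        _ ≤ qq s ^ qq s * qq s ^ (5 * k) := Nat.mul_le_mul (card_II s) hV
        _ = qq s ^ (qq s + 5 * k) := by ring
        _ ≤ qq s ^ (11 * k) := Nat.pow_le_pow_right hq1 (by omega)
        _ ≤ _ := hfin

theorem main : ∃ P : (n : ℕ) → SimpleGraph (Fin n) → Prop,
    (∀ n k (G : SimpleGraph (Fin n)) (φ : Fin k → Fin n), Function.Injective φ → P n G →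
      P k (G.comap φ)) ∧
    (∀ n, 2 ≤ n → Nat.card {G : SimpleGraph (Fin n) // P n G} ≤ n ^ (25 * n)) ∧
    ∀ (c : ℝ) (A : List Bool → List Bool → Bool), ∃ n, 2 ≤ n ∧ ∃ G, P n G ∧
      ¬ ∃ ℓ : Fin n → List Bool, (∀ v, ((ℓ v).length : ℝ) ≤ c * Real.sqrt n) ∧
        ∀ v w, v ≠ w → (G.Adj v w ↔ A (ℓ v) (ℓ w) = true) := by
  classical
  have hst := fun s : ℕ => stage (s := s + 1) (by omega)
  choose G hH hS hM using hst
  refine ⟨fun k H => ∃ s i, ∃ φ : Fin k → VV (s + 1), Function.Injective φ ∧ H = (G s i).comap φ,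
    ?_, ?_, ?_⟩
  · rintro n k H ψ hψ ⟨s, i, φ, hφ, rfl⟩
    exact ⟨s, i, φ ∘ ψ, hφ.comp hψ, rfl⟩
  · intro k hk
    have hM' : ∀ s, ∃ T : Finset (SimpleGraph (Fin k)), #T ≤ k ^ (22 * k) ∧
        (qq (s + 1) < k * k → ∀ i, ∀ φ : Fin k → VV (s + 1), (G s i).comap φ ∈ T) := by
      intro s
      by_cases h : qq (s + 1) < k * k
      · obtain ⟨T, h1, h2⟩ := hM s k hk h
        exact ⟨T, h1, fun _ => h2⟩
      · exact ⟨∅, by simp, fun h' => absurd h' h⟩
    choose T hT1 hT2 using hM'
    set U : Finset (SimpleGraph (Fin k)) :=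
      ((univ : Finset (Fin (12 * k) → Fin k × Fin k)).image lst) ∪ (range (k * k)).biUnion T with hU
    have hsub : ∀ H : SimpleGraph (Fin k), (∃ s i, ∃ φ : Fin k → VV (s + 1),
        Function.Injective φ ∧ H = (G s i).comap φ) → H ∈ U := by
      rintro H ⟨s, i, φ, hφ, rfl⟩
      by_cases h : qq (s + 1) < k * k
      · refine mem_union_right _ (mem_biUnion.2 ⟨s, mem_range.2 ?_, hT2 s h i φ⟩)
        have := qq_gt (s + 1)
        nlinarith
      · obtain ⟨g, hg⟩ := hS s k hk (not_lt.1 h) i φ hφ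
        exact mem_union_left _ (mem_image.2 ⟨g, mem_univ _, hg.symm⟩)
    have hUc : #U ≤ k ^ (25 * k) := by
      have a1 : #((univ : Finset (Fin (12 * k) → Fin k × Fin k)).image lst) ≤ k ^ (24 * k) := by
        refine card_image_le.trans ?_
        rw [card_univ, Fintype.card_fun, Fintype.card_prod, Fintype.card_fin, Fintype.card_fin]
        apply le_of_eq; ring
      have a2 : #((range (k * k)).biUnion T) ≤ k ^ (24 * k) := by
        calc _ ≤ ∑ s ∈ range (k * k), #(T s) := card_biUnion_le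
          _ ≤ ∑ _s ∈ range (k * k), k ^ (22 * k) := sum_le_sum fun s _ => hT1 s
          _ = k ^ (22 * k + 2) := by rw [sum_const, card_range, smul_eq_mul]; ring
          _ ≤ _ := Nat.pow_le_pow_right (by omega) (by omega)
      calc #U ≤ k ^ (24 * k) + k ^ (24 * k) := (card_union_le _ _).trans (add_le_add a1 a2)
        _ = 2 * k ^ (24 * k) := by ring
        _ ≤ k ^ k * k ^ (24 * k) :=
            Nat.mul_le_mul_right _ (hk.trans (Nat.le_self_pow (by omega) k))
        _ = _ := by ring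
    refine le_trans ?_ hUc
    rw [← Fintype.card_coe U, ← Nat.card_eq_fintype_card]
    exact Nat.card_le_card_of_injective (fun x => (⟨x.1, hsub x.1 x.2⟩ : U))
      (fun a b h => Subtype.ext (congrArg (fun y : U => y.1) h))
  · intro c A
    obtain ⟨s, hs⟩ := exists_nat_ge (2 * |c|)
    obtain ⟨i, hi⟩ := hH s A
    set n := Fintype.card (VV (s + 1)) with hn
    have hn' : n = 2 * (mm (s + 1) * mm (s + 1)) := card_VV _
    have hm : 1 ≤ mm (s + 1) := by
      have := qq_gt (s + 1)
      unfold mm; nlinarith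
    set e := (Fintype.equivFin (VV (s + 1))) with he
    refine ⟨n, by nlinarith, (G s i).comap e.symm, ⟨s, i, e.symm, e.symm.injective, rfl⟩, ?_⟩
    rintro ⟨ℓ, h1, h2⟩
    refine hi ⟨fun v => ℓ (e v), fun v => ?_, fun v w hvw => ?_⟩
    · have hsq : Real.sqrt n ≤ 2 * (mm (s + 1) : ℝ) := by
        rw [Real.sqrt_le_left (by positivity), hn']
        push_cast
        nlinarith [sq_nonneg (mm (s + 1) : ℝ)]
      have h3 : c * Real.sqrt n ≤ ((s + 1 : ℕ) : ℝ) * (mm (s + 1) : ℝ) := by
        calc c * Real.sqrt n ≤ |c| * Real.sqrt n :=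
              mul_le_mul_of_nonneg_right (le_abs_self c) (Real.sqrt_nonneg _)
          _ ≤ |c| * (2 * (mm (s + 1) : ℝ)) := mul_le_mul_of_nonneg_left hsq (abs_nonneg c)
          _ = (2 * |c|) * (mm (s + 1) : ℝ) := by ring
          _ ≤ _ := mul_le_mul_of_nonneg_right (by push_cast; linarith) (by positivity)
      have := (h1 (e v)).trans h3
      exact_mod_cast this
    · rw [← h2 (e v) (e w) (fun h => hvw (e.injective h))]
      simp

end Pool.Agent.H24.Lab
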