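import Mathlib

/-! Laman-sparse edge sets and good orderings. -/

namespace Pool.Agent.H24.Lam

open Finset

variable {V : Type*} [DecidableEq V]

def ins (L : Finset (Sym2 V)) (X : Finset V) : Finset (Sym2 V) := L.filter (fun e => e ∈ X.sym2)

def Sp (L : Finset (Sym2 V)) : Prop := ∀ X : Finset V, 2 ≤ X.card → (ins L X).card + 3 ≤ 2 * X.card

def ND (L : Finset (Sym2 V)) : Prop := ∀ e ∈ L, ¬ e.IsDiag

def Tight (L : Finset (Sym2 V)) (X : Finset V) : Prop :=
  2 ≤ X.card ∧ 2 * X.card ≤ (ins L X).card + 3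

lemma mem_ins {L : Finset (Sym2 V)} {X : Finset V} {e : Sym2 V} :
    e ∈ ins L X ↔ e ∈ L ∧ ∀ a ∈ e, a ∈ X := by
  simp [ins, Finset.mem_sym2_iff]

lemma ins_mono {L L' : Finset (Sym2 V)} {X Y : Finset V} (h : L ⊆ L') (h' : X ⊆ Y) :
    ins L X ⊆ ins L' Y := by
  intro e he
  rw [mem_ins] at he ⊢
  exact ⟨h he.1, fun a ha => h' (he.2 a ha)⟩

lemma ins_inter (L : Finset (Sym2 V)) (X Y : Finset V) : ins L X ∩ ins L Y = ins L (X ∩ Y) := by
  ext e
  simp only [mem_inter, mem_ins]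
  constructor
  · rintro ⟨⟨h1, h2⟩, _, h3⟩
    exact ⟨h1, fun a ha => ⟨h2 a ha, h3 a ha⟩⟩
  · rintro ⟨h1, h2⟩
    exact ⟨⟨h1, fun a ha => (h2 a ha).1⟩, h1, fun a ha => (h2 a ha).2⟩

lemma supermod (L : Finset (Sym2 V)) (X Y : Finset V) :
    (ins L X).card + (ins L Y).card ≤ (ins L (X ∪ Y)).card + (ins L (X ∩ Y)).card := by
  have h1 := Finset.card_union_add_card_inter (ins L X) (ins L Y)
  rw [ins_inter] at h1
  have h2 : ins L X ∪ ins L Y ⊆ ins L (X ∪ Y) :=
    union_subset (ins_mono Subset.rfl subset_union_left) (ins_mono Subset.rfl subset_union_right)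
  have := card_le_card h2
  omega

lemma ins_small {L : Finset (Sym2 V)} (h : ND L) {X : Finset V} (hX : X.card ≤ 1) :
    ins L X = ∅ := by
  rw [Finset.eq_empty_iff_forall_notMem]
  intro e he
  rw [mem_ins] at he
  induction e using Sym2.ind with
  | _ a b =>
    have h1 := h _ he.1
    rw [Sym2.mk_isDiag_iff] at h1
    exact h1 (Finset.card_le_one.mp hX a (he.2 a (by simp)) b (he.2 b (by simp)))

lemma tight_union {L : Finset (Sym2 V)} (h : Sp L) {X Y : Finset V} (hX : Tight L X)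
    (hY : Tight L Y) (hc : 2 ≤ (X ∩ Y).card) : Tight L (X ∪ Y) := by
  have h1 := supermod L X Y
  have h2 := h _ hc
  have h3 := Finset.card_union_add_card_inter X Y
  have h4 : X.card ≤ (X ∪ Y).card := card_le_card subset_union_left
  obtain ⟨a1, a2⟩ := hX
  obtain ⟨b1, b2⟩ := hY
  constructor <;> omega

omit [DecidableEq V] in
lemma two_le {X : Finset V} {a b : V} (ha : a ∈ X) (hb : b ∈ X) (hab : a ≠ b) : 2 ≤ X.card :=
  Finset.one_lt_card.mpr ⟨a, ha, b, hb, hab⟩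

lemma tight_pair {L : Finset (Sym2 V)} {a b : V} (hab : a ≠ b) (h : s(a, b) ∈ L) :
    Tight L {a, b} := by
  have hc : ({a, b} : Finset V).card = 2 := card_pair hab
  refine ⟨by omega, ?_⟩
  have : s(a, b) ∈ ins L {a, b} := by
    rw [mem_ins]
    refine ⟨h, fun x hx => ?_⟩
    simpa using hx
  have := Finset.card_pos.mpr ⟨_, this⟩
  omega

/-- an edge not inside a tight set can be added -/
lemma sp_insert {L : Finset (Sym2 V)} (h : Sp L) {a b : V}
    (hn : ∀ X, a ∈ X → b ∈ X → ¬ Tight L X) : Sp (insert s(a, b) L) := by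
  intro X hX
  have h1 := h X hX
  by_cases hab : a ∈ X ∧ b ∈ X
  · have h2 := hn X hab.1 hab.2
    have h3 : ins (insert s(a, b) L) X ⊆ insert s(a, b) (ins L X) := by
      intro e he
      rw [mem_ins, mem_insert] at he
      rw [mem_insert, mem_ins]
      tauto
    have h4 := (card_le_card h3).trans (card_insert_le _ _)
    unfold Tight at h2
    omega
  · have h3 : ins (insert s(a, b) L) X ⊆ ins L X := by
      intro e he
      rw [mem_ins, mem_insert] at he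
      rw [mem_ins]
      rcases he with ⟨rfl | h5, h6⟩
      · exact absurd ⟨h6 a (by simp), h6 b (by simp)⟩ hab
      · exact ⟨h5, h6⟩
    have := card_le_card h3
    omega

lemma three_tight {L : Finset (Sym2 V)} (h : Sp L) (hd : ND L) {a b c : V}
    (hbc : b ≠ c) {X Y Z : Finset V} (hX : Tight L X) (hY : Tight L Y)
    (hZ : Tight L Z) (h1 : a ∈ X) (h2 : b ∈ X) (h3 : a ∈ Y) (h4 : c ∈ Y) (h5 : b ∈ Z)
    (h6 : c ∈ Z) : ∃ U, U ⊆ X ∪ Y ∪ Z ∧ a ∈ U ∧ b ∈ U ∧ c ∈ U ∧ Tight L U := by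
  by_cases k1 : 2 ≤ (X ∩ Y).card
  · exact ⟨X ∪ Y, subset_union_left, by simp [h1], by simp [h2], by simp [h4],
      tight_union h hX hY k1⟩
  by_cases k2 : 2 ≤ (X ∩ Z).card
  · refine ⟨X ∪ Z, ?_, by simp [h1], by simp [h2], by simp [h6], tight_union h hX hZ k2⟩
    intro x hx
    simp only [mem_union] at hx ⊢
    tauto
  by_cases k3 : 2 ≤ (Y ∩ Z).card
  · refine ⟨Y ∪ Z, ?_, by simp [h3], by simp [h5], by simp [h6], tight_union h hY hZ k3⟩
    intro x hx
    simp only [mem_union] at hx ⊢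
    tauto
  refine ⟨X ∪ Y ∪ Z, Subset.rfl, by simp [h1], by simp [h2], by simp [h6], ?_⟩
  have e1 : ins L X ∩ ins L Y = ∅ := by rw [ins_inter]; exact ins_small hd (by omega)
  have e2 : ins L X ∩ ins L Z = ∅ := by rw [ins_inter]; exact ins_small hd (by omega)
  have e3 : ins L Y ∩ ins L Z = ∅ := by rw [ins_inter]; exact ins_small hd (by omega)
  have c1 := Finset.card_union_add_card_inter (ins L X) (ins L Y)
  have c2 := Finset.card_union_add_card_inter (ins L X ∪ ins L Y) (ins L Z)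
  rw [Finset.union_inter_distrib_right, e2, e3] at c2
  rw [e1] at c1
  simp only [card_empty, union_empty] at c1 c2
  have c3 : ins L X ∪ ins L Y ∪ ins L Z ⊆ ins L (X ∪ Y ∪ Z) := by
    refine union_subset (union_subset ?_ ?_) ?_
    · exact ins_mono Subset.rfl (subset_union_left.trans subset_union_left)
    · exact ins_mono Subset.rfl (subset_union_right.trans subset_union_left)
    · exact ins_mono Subset.rfl subset_union_right
  have c4 := card_le_card c3
  have d1 := Finset.card_union_add_card_inter X Y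
  have d2 := Finset.card_union_add_card_inter (X ∪ Y) Z
  have d3 : 0 < (X ∩ Y).card := card_pos.mpr ⟨a, by simp [h1, h3]⟩
  have d4 : 2 ≤ ((X ∪ Y) ∩ Z).card :=
    two_le (a := b) (b := c) (by simp [h2, h5]) (by simp [h4, h6]) hbc
  have d5 : Z.card ≤ (X ∪ Y ∪ Z).card := card_le_card subset_union_right
  obtain ⟨a1, a2⟩ := hX
  obtain ⟨b1, b2⟩ := hY
  obtain ⟨g1, g2⟩ := hZ
  constructor <;> omega

/-- the data of a good ordering on `W` with out-edges `EO` and in-edges `EI` -/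
def GoodD (W : Finset V) (EO EI : Multiset (Sym2 V)) (f : V → ℚ) (s t : V) : Prop :=
  Set.InjOn f W ∧ (∀ v ∈ W, v ≠ s → ∃ u ∈ W, s(u, v) ∈ EO ∧ f u < f v) ∧
    (∀ v ∈ W, v ≠ t → ∃ u ∈ W, s(u, v) ∈ EI ∧ f v < f u)

def Good (W : Finset V) (M : Multiset (Sym2 V)) (s t : V) : Prop :=
  ∃ EO EI f, EO + EI = M ∧ GoodD W EO EI f s t

omit [DecidableEq V] in
lemma GoodD.swap {W : Finset V} {EO EI : Multiset (Sym2 V)} {f : V → ℚ} {s t : V}
    (h : GoodD W EO EI f s t) : GoodD W EI EO (fun x => - f x) t s := by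
  obtain ⟨h1, h2, h3⟩ := h
  refine ⟨fun x hx y hy hxy => h1 hx hy (neg_injective hxy), fun v hv hs => ?_, fun v hv hs => ?_⟩
  · obtain ⟨u, hu, k1, k2⟩ := h3 v hv hs
    exact ⟨u, hu, k1, by simpa using k2⟩
  · obtain ⟨u, hu, k1, k2⟩ := h2 v hv hs
    exact ⟨u, hu, k1, by simpa using k2⟩

omit [DecidableEq V] in
lemma Good.swap {W : Finset V} {M : Multiset (Sym2 V)} {s t : V} (h : Good W M s t) :
    Good W M t s := by
  obtain ⟨EO, EI, f, h1, h2⟩ := h
  exact ⟨EI, EO, _, by rw [add_comm, h1], h2.swap⟩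

/-- place a new vertex at a fresh value between two given values -/
lemma place {W : Finset V} {EI EO' EI' : Multiset (Sym2 V)} {f : V → ℚ} {s t v x y : V}
    (hv : v ∉ W) (hf : Set.InjOn f W) (hx : x ∈ W) (hy : y ∈ W) {lo hi : ℚ} (hlt : lo < hi)
    (hxl : f x ≤ lo) (hyh : hi ≤ f y) (hxO : s(x, v) ∈ EO') (hyI : s(y, v) ∈ EI')
    (hO : ∀ w ∈ W, w ≠ s → (∃ u ∈ W, s(u, w) ∈ EO' ∧ f u < f w) ∨ (s(v, w) ∈ EO' ∧ hi ≤ f w))
    (hI : ∀ w ∈ W, w ≠ t → ∃ u ∈ W, s(u, w) ∈ EI ∧ f w < f u) (hII : ∀ e ∈ EI, e ∈ EI') :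
    ∃ g, GoodD (insert v W) EO' EI' g s t := by
  obtain ⟨r, hr, hr2⟩ := (Set.Ioo_infinite hlt).exists_notMem_finset (W.image f)
  have hne : ∀ w ∈ W, w ≠ v := fun w hw h => hv (h ▸ hw)
  have hg : ∀ w ∈ W, Function.update f v r w = f w := fun w hw => Function.update_of_ne (hne w hw) _ _
  have hgv : Function.update f v r v = r := Function.update_self _ _ _
  refine ⟨Function.update f v r, ?_, ?_, ?_⟩
  · intro a ha b hb hab
    simp only [coe_insert, Set.mem_insert_iff, mem_coe] at ha hb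
    rcases ha with rfl | ha <;> rcases hb with rfl | hb
    · rfl
    · rw [hgv, hg b hb] at hab
      exact absurd (mem_image.mpr ⟨b, hb, hab.symm⟩) hr2
    · rw [hgv, hg a ha] at hab
      exact absurd (mem_image.mpr ⟨a, ha, hab⟩) hr2
    · rw [hg a ha, hg b hb] at hab
      exact hf ha hb hab
  · intro w hw hs
    rcases mem_insert.mp hw with rfl | hw
    · exact ⟨x, mem_insert_of_mem hx, hxO, by rw [hgv, hg x hx]; exact lt_of_le_of_lt hxl hr.1⟩
    · rcases hO w hw hs with ⟨u, hu, k1, k2⟩ | ⟨k1, k2⟩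
      · exact ⟨u, mem_insert_of_mem hu, k1, by rw [hg u hu, hg w hw]; exact k2⟩
      · exact ⟨v, mem_insert_self _ _, k1, by rw [hgv, hg w hw]; exact lt_of_lt_of_le hr.2 k2⟩
  · intro w hw hs
    rcases mem_insert.mp hw with rfl | hw
    · exact ⟨y, mem_insert_of_mem hy, hyI, by rw [hgv, hg y hy]; exact lt_of_lt_of_le hr.2 hyh⟩
    · obtain ⟨u, hu, k1, k2⟩ := hI w hw hs
      exact ⟨u, mem_insert_of_mem hu, hII _ k1, by rw [hg u hu, hg w hw]; exact k2⟩

lemma ext0 {W : Finset V} {M : Multiset (Sym2 V)} {s t v a b : V} (h : Good W M s t)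
    (hv : v ∉ W) (ha : a ∈ W) (hb : b ∈ W) (hab : a ≠ b) :
    Good (insert v W) (s(a, v) ::ₘ s(b, v) ::ₘ M) s t := by
  obtain ⟨EO, EI, f, hM, h1, h2, h3⟩ := h
  wlog hlt : f a < f b generalizing a b
  · have k : f b < f a := lt_of_le_of_ne (not_lt.mp hlt) (fun h => hab (h1 hb ha h).symm)
    rw [Multiset.cons_swap]
    exact this hb ha hab.symm k
  obtain ⟨g, hg⟩ := place (EO' := s(a, v) ::ₘ EO) (EI' := s(b, v) ::ₘ EI) (s := s) hv h1
    ha hb hlt le_rfl le_rfl (by simp) (by simp) (fun w hw hs => by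
      obtain ⟨u, hu, k1, k2⟩ := h2 w hw hs
      exact Or.inl ⟨u, hu, Multiset.mem_cons_of_mem k1, k2⟩) h3
      (fun e he => Multiset.mem_cons_of_mem he)
  refine ⟨_, _, g, ?_, hg⟩
  rw [← hM]
  simp only [← Multiset.singleton_add]
  abel

lemma ext1_core {W : Finset V} {EO EI : Multiset (Sym2 V)} {f : V → ℚ} {s t v a b c : V}
    (h : GoodD W (s(a, b) ::ₘ EO) EI f s t) (hv : v ∉ W) (ha : a ∈ W) (hb : b ∈ W) (hc : c ∈ W)
    (hab : f a < f b) (hac : a ≠ c) :
    Good (insert v W) (s(a, v) ::ₘ s(b, v) ::ₘ s(c, v) ::ₘ (EO + EI)) s t := by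
  obtain ⟨h1, h2, h3⟩ := h
  have key : ∀ (x : V) (hi : ℚ), hi ≤ f b → ∀ w ∈ W, w ≠ s →
      (∃ u ∈ W, s(u, w) ∈ s(x, v) ::ₘ s(b, v) ::ₘ EO ∧ f u < f w) ∨
        (s(v, w) ∈ s(x, v) ::ₘ s(b, v) ::ₘ EO ∧ hi ≤ f w) := by
    intro x hi hh w hw hs
    obtain ⟨u, hu, k1, k2⟩ := h2 w hw hs
    rcases Multiset.mem_cons.mp k1 with k | k
    · rcases Sym2.eq_iff.mp k with ⟨rfl, rfl⟩ | ⟨rfl, rfl⟩
      · exact Or.inr ⟨by rw [Sym2.eq_swap]; simp, hh⟩
      · exact absurd (k2.trans hab) (lt_irrefl _)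
    · exact Or.inl ⟨u, hu, Multiset.mem_cons_of_mem (Multiset.mem_cons_of_mem k), k2⟩
  rcases lt_or_gt_of_ne (fun h => hac (h1 ha hc h)) with hl | hl
  · obtain ⟨g, hg⟩ := place (EO' := s(a, v) ::ₘ s(b, v) ::ₘ EO) (EI' := s(c, v) ::ₘ EI)
      (s := s) hv h1 ha hc (lt_min hab hl) le_rfl (min_le_right _ _) (by simp) (by simp)
      (key a _ (min_le_left _ _)) h3 (fun e he => Multiset.mem_cons_of_mem he)
    refine ⟨_, _, g, ?_, hg⟩
    simp only [← Multiset.singleton_add]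
    abel
  · obtain ⟨g, hg⟩ := place (EO' := s(c, v) ::ₘ s(b, v) ::ₘ EO) (EI' := s(a, v) ::ₘ EI)
      (s := s) hv h1 hc ha hl le_rfl le_rfl (by simp) (by simp)
      (key c _ hab.le) h3 (fun e he => Multiset.mem_cons_of_mem he)
    refine ⟨_, _, g, ?_, hg⟩
    simp only [← Multiset.singleton_add]
    abel

lemma ext1_mid {W : Finset V} {EO EI : Multiset (Sym2 V)} {f : V → ℚ} {s t v a b c : V}
    (h : GoodD W (s(a, b) ::ₘ EO) EI f s t) (hv : v ∉ W) (ha : a ∈ W) (hb : b ∈ W) (hc : c ∈ W)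
    (hab : a ≠ b) (hac : a ≠ c) (hbc : b ≠ c) :
    Good (insert v W) (s(a, v) ::ₘ s(b, v) ::ₘ s(c, v) ::ₘ (EO + EI)) s t := by
  rcases lt_or_gt_of_ne (fun k => hab (h.1 ha hb k)) with hl | hl
  · exact ext1_core h hv ha hb hc hl hac
  · rw [Multiset.cons_swap]
    rw [Sym2.eq_swap] at h
    exact ext1_core h hv hb ha hc hl hbc

lemma ext1 {W : Finset V} {M : Multiset (Sym2 V)} {s t v a b c : V}
    (h : Good W (s(a, b) ::ₘ M) s t) (hv : v ∉ W) (ha : a ∈ W) (hb : b ∈ W) (hc : c ∈ W)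
    (hab : a ≠ b) (hac : a ≠ c) (hbc : b ≠ c) :
    Good (insert v W) (s(a, v) ::ₘ s(b, v) ::ₘ s(c, v) ::ₘ M) s t := by
  obtain ⟨EO, EI, f, hM, h⟩ := h
  have : s(a, b) ∈ EO + EI := by rw [hM]; simp
  rcases Multiset.mem_add.mp this with k | k
  · obtain ⟨E, rfl⟩ := Multiset.exists_cons_of_mem k
    rw [Multiset.cons_add, Multiset.cons_inj_right] at hM
    rw [← hM]
    exact ext1_mid h hv ha hb hc hab hac hbc
  · obtain ⟨E, rfl⟩ := Multiset.exists_cons_of_mem k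
    rw [Multiset.add_cons, Multiset.cons_inj_right] at hM
    rw [← hM, add_comm]
    exact (ext1_mid h.swap hv ha hb hc hab hac hbc).swap

end Pool.Agent.H24.Lam
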