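import Pool.Agent.H24.Lam1

/-! Henneberg reduction: a Laman graph plus one edge `st` has a good ordering from `s` to `t`. -/

namespace Pool.Agent.H24.Lam

open Finset

variable {V : Type*} [DecidableEq V]

def nb (L : Finset (Sym2 V)) (W : Finset V) (v : V) : Finset V := W.filter (fun u => s(u, v) ∈ L)

def del (L : Finset (Sym2 V)) (v : V) : Finset (Sym2 V) := L.filter (fun e => v ∉ e)

lemma split {L : Finset (Sym2 V)} {W : Finset V} (hL : ∀ e ∈ L, ∀ a ∈ e, a ∈ W) (v : V) :
    L.val = ((nb L W v).val.map (fun u => s(u, v))) + (del L v).val := by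
  have hinj : Function.Injective (fun u => s(u, v)) := by
    intro a b h
    exact Sym2.congr_left.mp h
  have h1 : L.filter (fun e => v ∈ e) = (nb L W v).map ⟨_, hinj⟩ := by
    ext e
    simp only [mem_filter, mem_map, nb, Function.Embedding.coeFn_mk]
    constructor
    · rintro ⟨h1, h2⟩
      obtain ⟨u, rfl⟩ := Sym2.mem_iff_exists.mp h2
      exact ⟨u, ⟨hL _ h1 u (by simp), by rwa [Sym2.eq_swap]⟩, Sym2.eq_swap⟩
    · rintro ⟨u, ⟨_, h2⟩, rfl⟩
      exact ⟨h2, by simp⟩
  have h2 := congrArg Finset.val h1
  simp only [Finset.map_val, Function.Embedding.coeFn_mk, Finset.filter_val] at h2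
  rw [← h2, del, Finset.filter_val, Multiset.filter_add_not]

lemma card_split {L : Finset (Sym2 V)} {W : Finset V} (hL : ∀ e ∈ L, ∀ a ∈ e, a ∈ W) (v : V) :
    L.card = (nb L W v).card + (del L v).card := by
  have := congrArg Multiset.card (split hL v)
  simpa using this

lemma deg_sum {L : Finset (Sym2 V)} {W : Finset V} (hL : ∀ e ∈ L, ∀ a ∈ e, a ∈ W) (hd : ND L) :
    ∑ v ∈ W, (nb L W v).card = 2 * L.card := by
  have h1 : ∀ v ∈ W, (nb L W v).card = ∑ e ∈ L, if v ∈ e then 1 else 0 := by
    intro v _
    have h2 := card_split hL v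
    have h3 := Finset.card_filter_add_card_filter_not (s := L) (fun e => v ∈ e)
    rw [← Finset.card_filter]
    unfold del at h2
    omega
  rw [Finset.sum_congr rfl h1, Finset.sum_comm, mul_comm, ← smul_eq_mul, ← Finset.sum_const]
  refine Finset.sum_congr rfl (fun e he => ?_)
  rw [← Finset.card_filter]
  induction e using Sym2.ind with
  | _ a b =>
    have hab : a ≠ b := fun h => hd _ he (by simp [h])
    rw [← card_pair hab]
    congr 1
    ext x
    simp only [mem_filter, Sym2.mem_iff, mem_insert, mem_singleton]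
    constructor
    · exact fun h => h.2
    · rintro (rfl | rfl)
      · exact ⟨hL _ he _ (by simp), Or.inl rfl⟩
      · exact ⟨hL _ he _ (by simp), Or.inr rfl⟩

lemma del_sub (L : Finset (Sym2 V)) (v : V) : del L v ⊆ L := filter_subset _ _

lemma Sp.mono {L L' : Finset (Sym2 V)} (h : Sp L) (hs : L' ⊆ L) : Sp L' := fun X hX =>
  le_trans (Nat.add_le_add_right (card_le_card (ins_mono hs Subset.rfl)) 3) (h X hX)

lemma del_in {L : Finset (Sym2 V)} {W : Finset V} (hL : ∀ e ∈ L, ∀ a ∈ e, a ∈ W) (v : V) :
    ∀ e ∈ del L v, ∀ a ∈ e, a ∈ W.erase v := by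
  intro e he a ha
  rw [del, mem_filter] at he
  exact mem_erase.mpr ⟨fun h => he.2 (h ▸ ha), hL e he.1 a ha⟩

lemma card_le_of_in {L : Finset (Sym2 V)} {W : Finset V} (hL : ∀ e ∈ L, ∀ a ∈ e, a ∈ W)
    (h : Sp L) (hW : 2 ≤ W.card) : L.card + 3 ≤ 2 * W.card := by
  have h1 := h W hW
  have h2 : L ⊆ ins L W := fun e he => mem_ins.mpr ⟨he, hL e he⟩
  have := card_le_card h2
  omega

lemma addable {L : Finset (Sym2 V)} (h : Sp L) (hd : ND L) {v a b c : V} (hab : a ≠ b)
    (hac : a ≠ c) (hbc : b ≠ c) (ha : s(a, v) ∈ L) (hb : s(b, v) ∈ L) (hc : s(c, v) ∈ L) :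
    (∀ X, a ∈ X → b ∈ X → ¬ Tight (del L v) X) ∨ (∀ X, a ∈ X → c ∈ X → ¬ Tight (del L v) X) ∨
      (∀ X, b ∈ X → c ∈ X → ¬ Tight (del L v) X) := by
  by_contra hcon
  push Not at hcon
  obtain ⟨⟨X, x1, x2, x3⟩, ⟨Y, y1, y2, y3⟩, Z, z1, z2, z3⟩ := hcon
  obtain ⟨U, -, u1, u2, u3, u4, u5⟩ := three_tight (h.mono (del_sub L v))
    (fun e he => hd e (del_sub L v he)) hbc x3 y3 z3 x1 x2 y1 y2 z1 z2
  have hav : a ≠ v := fun k => hd _ ha (by simp [k])
  have hbv : b ≠ v := fun k => hd _ hb (by simp [k])
  have hcv : c ≠ v := fun k => hd _ hc (by simp [k])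
  have k1 := h (insert v U) (le_trans u4 (card_le_card (subset_insert _ _)))
  have hin : ∀ e ∈ ins L (insert v U), ∀ x ∈ e, x ∈ insert v U := fun e he => (mem_ins.mp he).2
  have k2 := card_split hin v
  have k3 : ({a, b, c} : Finset V) ⊆ nb (ins L (insert v U)) (insert v U) v := by
    intro x hx
    simp only [mem_insert, mem_singleton] at hx
    rw [nb, mem_filter, mem_ins]
    rcases hx with rfl | rfl | rfl
    · exact ⟨by simp [u1], ha, by simp [u1]⟩
    · exact ⟨by simp [u2], hb, by simp [u2]⟩
    · exact ⟨by simp [u3], hc, by simp [u3]⟩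
  have k4 := card_le_card k3
  rw [card_eq_three.mpr ⟨a, b, c, hab, hac, hbc, rfl⟩] at k4
  have k5 : ins (del L v) U ⊆ del (ins L (insert v U)) v := by
    intro e he
    rw [mem_ins, del, mem_filter] at he
    rw [del, mem_filter, mem_ins]
    exact ⟨⟨he.1.1, fun x hx => mem_insert_of_mem (he.2 x hx)⟩, he.1.2⟩
  have k6 := card_le_card k5
  by_cases hv : v ∈ U
  · have k7 := (h.mono (del_sub L v)) (U.erase v)
      (two_le (a := a) (b := b) (by simp [u1, hav]) (by simp [u2, hbv]) hab)
    have k8 : ins (del L v) U ⊆ ins (del L v) (U.erase v) := by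
      intro e he
      rw [mem_ins] at he ⊢
      refine ⟨he.1, fun x hx => mem_erase.mpr ⟨?_, he.2 x hx⟩⟩
      rintro rfl
      exact (mem_filter.mp he.1).2 hx
    have k9 := card_le_card k8
    rw [card_erase_of_mem hv] at k7
    omega
  · rw [card_insert_of_notMem hv] at k1
    omega

theorem laman_good {s t : V} (hst : s ≠ t) (n : ℕ) : ∀ (W : Finset V) (L : Finset (Sym2 V)),
    W.card = n + 2 → s ∈ W → t ∈ W → (∀ e ∈ L, ∀ a ∈ e, a ∈ W) → ND L → Sp L →
    L.card + 3 = 2 * W.card → Good W (s(s, t) ::ₘ L.val) s t := by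
  induction n with
  | zero =>
    intro W L hW hs ht hL hd _ hc
    have hW2 : W = {s, t} := by
      symm
      apply Finset.eq_of_subset_of_card_le
      · intro x hx
        simp only [mem_insert, mem_singleton] at hx
        rcases hx with rfl | rfl <;> assumption
      · rw [card_pair hst]; omega
    obtain ⟨e, rfl⟩ := card_eq_one.mp (show L.card = 1 by omega)
    have he : e = s(s, t) := by
      induction e using Sym2.ind with
      | _ a b =>
        have hab : a ≠ b := fun h => hd _ (mem_singleton_self _) (by simp [h])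
        have h1 := hL _ (mem_singleton_self _) a (by simp)
        have h2 := hL _ (mem_singleton_self _) b (by simp)
        rw [hW2] at h1 h2
        simp only [mem_insert, mem_singleton] at h1 h2
        rcases h1 with rfl | rfl <;> rcases h2 with rfl | rfl
        · exact absurd rfl hab
        · rfl
        · exact Sym2.eq_swap
        · exact absurd rfl hab
    subst he
    refine ⟨{s(s, t)}, {s(s, t)}, fun x => if x = s then 0 else 1, by simp, ?_, ?_, ?_⟩
    · intro x hx y hy hxy
      rw [hW2] at hx hy
      simp only [coe_insert, coe_singleton, Set.mem_insert_iff, Set.mem_singleton_iff] at hx hy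
      rcases hx with rfl | rfl <;> rcases hy with rfl | rfl <;> simp_all [hst.symm]
    · intro v hv hvs
      rw [hW2] at hv
      simp only [mem_insert, mem_singleton] at hv
      rcases hv with rfl | rfl
      · exact absurd rfl hvs
      · exact ⟨s, hs, by simp, by simp [hvs]⟩
    · intro v hv hvs
      rw [hW2] at hv
      simp only [mem_insert, mem_singleton] at hv
      rcases hv with rfl | rfl
      · exact ⟨t, ht, by simp [Sym2.eq_swap], by simp [hst.symm]⟩
      · exact absurd rfl hvs
  | succ n ih =>
    intro W L hW hs ht hL hd hsp hc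
    have hmin : ∀ v ∈ W, 2 ≤ (nb L W v).card := by
      intro v hv
      have h1 := card_split hL v
      have h2 := card_le_of_in (del_in hL v) (hsp.mono (del_sub L v))
        (by rw [card_erase_of_mem hv]; omega)
      rw [card_erase_of_mem hv] at h2
      omega
    have hex : ∃ v ∈ W, v ≠ s ∧ v ≠ t ∧ (nb L W v).card ≤ 3 := by
      by_contra hcon
      push Not at hcon
      have h1 := deg_sum hL hd
      have ht' : t ∈ W.erase s := mem_erase.mpr ⟨hst.symm, ht⟩
      rw [← Finset.add_sum_erase _ _ hs, ← Finset.add_sum_erase _ _ ht'] at h1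
      have h2 : ((W.erase s).erase t).card • 4 ≤ ∑ v ∈ (W.erase s).erase t, (nb L W v).card := by
        apply Finset.card_nsmul_le_sum
        intro v hv
        simp only [mem_erase] at hv
        exact hcon v hv.2.2 hv.2.1 hv.1
      rw [card_erase_of_mem ht', card_erase_of_mem hs, smul_eq_mul] at h2
      have := hmin s hs
      have := hmin t ht
      omega
    obtain ⟨v, hv, hvs, hvt, hdeg⟩ := hex
    have hsp' := hsp.mono (del_sub L v)
    have hd' : ND (del L v) := fun e he => hd e (del_sub L v he)
    have hcs := card_split hL v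
    have hWe : (W.erase v).card = n + 2 := by rw [card_erase_of_mem hv]; omega
    have hs' : s ∈ W.erase v := mem_erase.mpr ⟨hvs.symm, hs⟩
    have ht' : t ∈ W.erase v := mem_erase.mpr ⟨hvt.symm, ht⟩
    have hnb : ∀ x ∈ nb L W v, x ∈ W.erase v ∧ s(x, v) ∈ L := by
      intro x hx
      rw [nb, mem_filter] at hx
      exact ⟨mem_erase.mpr ⟨fun k => hd _ hx.2 (by simp [k]), hx.1⟩, hx.2⟩
    have hsplit := split hL v
    have hW' : W = insert v (W.erase v) := (insert_erase hv).symm
    have three : ∀ a b c, a ≠ b → a ≠ c → b ≠ c → nb L W v = {a, b, c} →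
        (∀ X, a ∈ X → b ∈ X → ¬ Tight (del L v) X) → Good W (s(s, t) ::ₘ L.val) s t := by
      intro a b c hab hac hbc hN hX
      have ha := hnb a (by simp [hN])
      have hb := hnb b (by simp [hN])
      have hc' := hnb c (by simp [hN])
      have hnot : s(a, b) ∉ del L v := fun k => hX {a, b} (by simp) (by simp) (tight_pair hab k)
      have h3 : (nb L W v).card = 3 := card_eq_three.mpr ⟨a, b, c, hab, hac, hbc, hN⟩
      have g := ih (W.erase v) (insert s(a, b) (del L v)) hWe hs' ht' (by
          intro e he x hx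
          rcases mem_insert.mp he with rfl | he
          · rcases Sym2.mem_iff.mp hx with rfl | rfl
            · exact ha.1
            · exact hb.1
          · exact del_in hL v e he x hx) (by
          intro e he
          rcases mem_insert.mp he with rfl | he
          · simpa using hab
          · exact hd' e he) (sp_insert hsp' hX) (by rw [card_insert_of_notMem hnot]; omega)
      rw [Finset.insert_val_of_notMem hnot, Multiset.cons_swap] at g
      have g2 := ext1 g (notMem_erase v W) ha.1 hb.1 hc'.1 hab hac hbc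
      rw [← hW'] at g2
      convert g2 using 1
      rw [hsplit, hN, Finset.insert_val_of_notMem (by simp [hab, hac]),
        Finset.insert_val_of_notMem (by simp [hbc])]
      simp only [Multiset.map_add, singleton_val, Multiset.map_singleton, ← Multiset.singleton_add]
      abel
    have := hmin v hv
    rcases (show (nb L W v).card = 2 ∨ (nb L W v).card = 3 by omega) with h2 | h3
    · obtain ⟨a, b, hab, hN⟩ := card_eq_two.mp h2
      have ha := hnb a (by simp [hN])
      have hb := hnb b (by simp [hN])
      have g := ih (W.erase v) (del L v) hWe hs' ht' (del_in hL v) hd' hsp' (by omega)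
      have g2 := ext0 g (notMem_erase v W) ha.1 hb.1 hab
      rw [← hW'] at g2
      convert g2 using 1
      rw [hsplit, hN, Finset.insert_val_of_notMem (by simp [hab])]
      simp only [Multiset.map_add, singleton_val, Multiset.map_singleton, ← Multiset.singleton_add]
      abel
    · obtain ⟨a, b, c, hab, hac, hbc, hN⟩ := card_eq_three.mp h3
      have ha := hnb a (by simp [hN])
      have hb := hnb b (by simp [hN])
      have hc' := hnb c (by simp [hN])
      rcases addable hsp hd hab hac hbc ha.2 hb.2 hc'.2 with k | k | k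
      · exact three a b c hab hac hbc hN k
      · exact three a c b hac hab hbc.symm (by rw [hN, pair_comm b c]) k
      · refine three b c a hbc hab.symm hac.symm ?_ k
        rw [hN]
        ext x
        simp only [mem_insert, mem_singleton]
        tauto

end Pool.Agent.H24.Lam
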