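import Pool.Agent.H24.Lam2

/-! Six-connected graphs minus an edge contain a spanning Laman graph (Lovasz-Yemini). -/

namespace Pool.Agent.H24.Lam

open Finset

variable {V : Type*} [DecidableEq V] [Fintype V]

def Conn6 (G : SimpleGraph V) : Prop :=
  7 ≤ Fintype.card V ∧ ∀ S : Finset V, S.card < 6 → (G.induce ((S : Set V)ᶜ)).Connected

lemma closed {G : SimpleGraph V} (h : Conn6 G) {S P : Finset V} (hS : S.card < 6) {u w : V}
    (hu : u ∈ P) (huS : u ∉ S) (hw : w ∉ S) (hP : ∀ a ∈ P, a ∉ S → ∀ b, G.Adj a b → b ∉ S → b ∈ P) :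
    w ∈ P := by
  have h1 := (h.2 S hS).preconnected ⟨u, by simpa using huS⟩ ⟨w, by simpa using hw⟩
  obtain ⟨p⟩ := h1
  have : ∀ (x y : ((S : Set V)ᶜ : Set V)) (_ : (G.induce ((S : Set V)ᶜ)).Walk x y),
      x.1 ∈ P → y.1 ∈ P := by
    intro x y q
    induction q with
    | nil => exact id
    | @cons a b c hab _ ih =>
      intro ha
      exact ih (hP a.1 ha (fun k => a.2 k) b.1 hab (fun k => b.2 k))
  exact this _ _ p hu

lemma big_nb {G : SimpleGraph V} (h : Conn6 G) (v : V) (S : Finset V)
    (hS : ∀ b, G.Adj v b → b ∈ S) : 6 ≤ (S.erase v).card := by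
  by_contra hc
  have h1 : (insert v (S.erase v)).card < Fintype.card V :=
    lt_of_le_of_lt (card_insert_le _ _) (by have := h.1; omega)
  obtain ⟨w, hw⟩ : ∃ w, w ∉ insert v (S.erase v) := by
    by_contra hcon
    push Not at hcon
    have := card_le_card (fun x _ => hcon x : univ ⊆ insert v (S.erase v))
    rw [card_univ] at this
    omega
  have h2 := closed h (S := S.erase v) (P := {v}) (by omega) (mem_singleton_self v)
    (notMem_erase v S) (w := w) (fun k => hw (mem_insert_of_mem k)) (by
      intro a ha _ b hab hb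
      rw [mem_singleton] at ha
      subst ha
      exact absurd (mem_erase.mpr ⟨hab.ne', hS b hab⟩) hb)
  rw [mem_singleton] at h2
  exact hw (h2 ▸ mem_insert_self _ _)

theorem discharge {G : SimpleGraph V} (h : Conn6 G) (F : Finset (Finset V))
    (h2 : ∀ X ∈ F, 2 ≤ X.card) (hne : ∀ X ∈ F, X ≠ univ)
    (hcov : ∀ a b, G.Adj a b → ∃ X ∈ F, a ∈ X ∧ b ∈ X) :
    2 * Fintype.card V + 3 * F.card ≤ 2 * ∑ X ∈ F, X.card := by
  classical
  let sh : V → Prop := fun v => 2 ≤ (F.filter (fun X => v ∈ X)).card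
  let c : Finset V → ℕ := fun X =>
    if 6 ≤ (X.filter sh).card then 3 else if X.card = 2 then 1 else 2
  let w : Finset V → V → ℕ := fun X v => if sh v then c X else 4
  have hall : ∀ X ∈ F, (X.filter sh).card < 6 → X.filter sh = X := by
    intro X hX hlt
    by_contra hcon
    obtain ⟨u, hu, hu2⟩ : ∃ u ∈ X, ¬ sh u := by
      by_contra k
      push Not at k
      exact hcon (filter_eq_self.mpr k)
    obtain ⟨z, hz⟩ : ∃ z, z ∉ X := by
      by_contra k
      push Not at k
      exact hne X hX (eq_univ_iff_forall.mpr k)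
    refine hz (closed h hlt (P := X) hu (by simp [hu2]) (w := z) (by simp [hz]) ?_)
    intro a ha haS b hab _
    obtain ⟨Y, hY, y1, y2⟩ := hcov a b hab
    by_cases hXY : X = Y
    · exact hXY ▸ y2
    · exact absurd (mem_filter.mpr ⟨ha, two_le (a := X) (b := Y) (by simp [hX, ha])
        (by simp [hY, y1]) hXY⟩) haS
  have hup : ∀ X ∈ F, ∑ v ∈ X, w X v + 6 ≤ 4 * X.card := by
    intro X hX
    have e1 : ∑ v ∈ X, w X v =
        (X.filter sh).card * c X + (X.filter (fun v => ¬ sh v)).card * 4 := by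
      simp only [w]
      rw [Finset.sum_ite]
      simp
    have e2 := Finset.card_filter_add_card_filter_not (s := X) sh
    have e3 := h2 X hX
    rw [e1]
    simp only [c]
    split_ifs with k1 k2
    · omega
    · have := congrArg card (hall X hX (by omega))
      omega
    · have := congrArg card (hall X hX (by omega))
      omega
  have hlow : ∀ v, 4 ≤ ∑ X ∈ F.filter (fun X => v ∈ X), w X v := by
    intro v
    set A := F.filter (fun X => v ∈ X) with hA
    have hdeg : 6 ≤ ∑ X ∈ A, (X.card - 1) := by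
      have k1 := big_nb h v (A.biUnion (fun X => X.erase v)) (by
        intro b hb
        obtain ⟨X, hX, x1, x2⟩ := hcov v b hb
        exact mem_biUnion.mpr ⟨X, mem_filter.mpr ⟨hX, x1⟩, mem_erase.mpr ⟨hb.ne', x2⟩⟩)
      refine k1.trans ((card_erase_le).trans (card_biUnion_le.trans (le_of_eq ?_)))
      exact sum_congr rfl (fun X hX => card_erase_of_mem (mem_filter.mp hX).2)
    by_cases hs : sh v
    · have e1 : ∑ X ∈ A, w X v = ∑ X ∈ A, c X := sum_congr rfl (fun X _ => by simp [w, hs])
      rw [e1]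
      have hA2 : 2 ≤ A.card := hs
      have hc1 : ∀ X, 1 ≤ c X := fun X => by simp only [c]; split_ifs <;> omega
      by_cases hb : ∃ X ∈ A, 6 ≤ (X.filter sh).card
      · obtain ⟨X, hX, hX6⟩ := hb
        rw [← Finset.add_sum_erase _ _ hX]
        have k1 : c X = 3 := by simp [c, hX6]
        have k2 : (A.erase X).card • 1 ≤ ∑ Y ∈ A.erase X, c Y :=
          Finset.card_nsmul_le_sum _ _ _ (fun Y _ => hc1 Y)
        rw [card_erase_of_mem hX, smul_eq_mul] at k2
        omega
      · push Not at hb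
        have k1 : ∑ X ∈ A, ((X.card - 1) + 2) ≤ ∑ X ∈ A, 3 * c X := by
          refine sum_le_sum (fun X hX => ?_)
          have a1 := hb X hX
          have a2 := congrArg card (hall X (mem_filter.mp hX).1 a1)
          simp only [c]
          split_ifs <;> omega
        rw [sum_add_distrib, ← mul_sum, sum_const, smul_eq_mul] at k1
        omega
    · have e1 : ∑ X ∈ A, w X v = ∑ X ∈ A, 4 := sum_congr rfl (fun X _ => by simp [w, hs])
      rw [e1, sum_const, smul_eq_mul]
      have : A.card ≠ 0 := by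
        intro k
        rw [card_eq_zero] at k
        simp [k] at hdeg
      omega
  have t1 : ∑ v : V, ∑ X ∈ F.filter (fun X => v ∈ X), w X v = ∑ X ∈ F, ∑ v ∈ X, w X v := by
    simp only [Finset.sum_filter]
    rw [Finset.sum_comm]
    refine sum_congr rfl (fun X _ => ?_)
    rw [← Finset.sum_filter]
    simp
  have t2 : (univ : Finset V).card • 4 ≤ ∑ v : V, ∑ X ∈ F.filter (fun X => v ∈ X), w X v :=
    Finset.card_nsmul_le_sum _ _ _ (fun v _ => hlow v)
  have t3 := Finset.sum_le_sum hup
  rw [sum_add_distrib, ← mul_sum, sum_const, smul_eq_mul] at t3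
  rw [card_univ, smul_eq_mul] at t2
  omega

theorem exists_laman {G : SimpleGraph V} (h : Conn6 G) {s t : V} (hst : s ≠ t) :
    ∃ L : Finset (Sym2 V), (∀ e ∈ L, e ∈ G.edgeSet ∧ e ≠ s(s, t)) ∧ Sp L ∧
      L.card + 3 = 2 * Fintype.card V := by
  classical
  let A : Finset (Finset (Sym2 V)) :=
    univ.filter (fun L => (∀ e ∈ L, e ∈ G.edgeSet ∧ e ≠ s(s, t)) ∧ Sp L)
  have hA : A.Nonempty := ⟨∅, by
    simp only [A, mem_filter, mem_univ, true_and, notMem_empty, IsEmpty.forall_iff, implies_true]
    intro X hX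
    simp only [ins, filter_empty, card_empty]
    omega⟩
  obtain ⟨L, hL, hmax⟩ := Finset.exists_max_image A card hA
  simp only [A, mem_filter, mem_univ, true_and] at hL hmax
  obtain ⟨hL1, hsp⟩ := hL
  have hd : ND L := fun e he => G.not_isDiag_of_mem_edgeSet (hL1 e he).1
  have h7 := h.1
  have hle : L.card + 3 ≤ 2 * Fintype.card V := by
    have := card_le_of_in (W := univ) (fun _ _ _ _ => mem_univ _) hsp (by rw [card_univ]; omega)
    rwa [card_univ] at this
  refine ⟨L, hL1, hsp, ?_⟩
  by_contra hne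
  have hcov : ∀ a b, G.Adj a b → s(a, b) ≠ s(s, t) → ∃ X, a ∈ X ∧ b ∈ X ∧ Tight L X := by
    intro a b hab hne
    by_contra hcon
    push Not at hcon
    have k1 : s(a, b) ∉ L := fun k => hcon {a, b} (by simp) (by simp) (tight_pair hab.ne k)
    have k2 := hmax (insert s(a, b) L) ⟨by
      intro e he
      rcases mem_insert.mp he with rfl | he
      · exact ⟨hab, hne⟩
      · exact hL1 e he, sp_insert hsp hcon⟩
    rw [card_insert_of_notMem k1] at k2
    omega
  let M : Finset (Finset V) := univ.filter (fun X => Maximal (Tight L) X)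
  have hM : ∀ X, Tight L X → ∃ Y ∈ M, X ⊆ Y := by
    intro X hX
    obtain ⟨Y, h1, h2⟩ := Finite.exists_le_maximal hX
    exact ⟨Y, by simp [M, h2], h1⟩
  have hMt : ∀ X ∈ M, Maximal (Tight L) X := fun X hX => (mem_filter.mp hX).2
  have hdis : ∀ X ∈ M, ∀ Y ∈ M, X ≠ Y → Disjoint (ins L X) (ins L Y) := by
    intro X hX Y hY hXY
    rw [disjoint_iff_inter_eq_empty, ins_inter]
    apply ins_small hd
    by_contra k
    have k1 := tight_union hsp (hMt X hX).prop (hMt Y hY).prop (by omega)
    have k2 := (hMt X hX).le_of_ge k1 subset_union_left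
    have k3 := (hMt Y hY).le_of_ge k1 subset_union_right
    exact hXY (Subset.antisymm (subset_union_left.trans k3) (subset_union_right.trans k2))
  have hsum : ∑ X ∈ M, (ins L X).card ≤ L.card := by
    rw [← card_biUnion hdis]
    exact card_le_card (biUnion_subset.mpr (fun X _ => filter_subset _ _))
  have hsum2 : ∑ X ∈ M, 2 * X.card ≤ ∑ X ∈ M, ((ins L X).card + 3) :=
    sum_le_sum (fun X hX => (hMt X hX).prop.2)
  rw [sum_add_distrib, ← mul_sum, sum_const, smul_eq_mul] at hsum2
  have hp : ({s, t} : Finset V).card = 2 := card_pair hst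
  have hd2 := discharge h (insert {s, t} M) (by
      intro X hX
      rcases mem_insert.mp hX with rfl | hX
      · omega
      · exact (hMt X hX).prop.1) (by
      intro X hX hXu
      rcases mem_insert.mp hX with rfl | hX
      · rw [hXu, card_univ] at hp
        omega
      · have k1 := (hMt X hX).prop.2
        have k2 : (ins L X).card ≤ L.card := card_le_card (filter_subset _ _)
        rw [hXu, card_univ] at k1
        rw [hXu] at k2
        omega) (by
      intro a b hab
      by_cases k : s(a, b) = s(s, t)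
      · refine ⟨{s, t}, mem_insert_self _ _, ?_⟩
        rcases Sym2.eq_iff.mp k with ⟨rfl, rfl⟩ | ⟨rfl, rfl⟩ <;> simp
      · obtain ⟨X, x1, x2, x3⟩ := hcov a b hab k
        obtain ⟨Y, y1, y2⟩ := hM X x3
        exact ⟨Y, mem_insert_of_mem y1, y2 x1, y2 x2⟩)
  by_cases k : ({s, t} : Finset V) ∈ M
  · rw [insert_eq_of_mem k] at hd2
    omega
  · rw [card_insert_of_notMem k, sum_insert k] at hd2
    omega

omit [DecidableEq V] in
/-- parent pointers that decrease `f` form a spanning tree -/
theorem parent_tree (f : V → ℚ) (s : V) (p : V → V) (hp : ∀ v, v ≠ s → f (p v) < f v) :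
    (SimpleGraph.fromEdgeSet ((fun v => s(p v, v)) '' {v | v ≠ s})).IsTree := by
  classical
  set T := SimpleGraph.fromEdgeSet ((fun v => s(p v, v)) '' {v | v ≠ s}) with hT
  have hadj : ∀ v, v ≠ s → T.Adj (p v) v := by
    intro v hv
    rw [hT, SimpleGraph.fromEdgeSet_adj]
    exact ⟨⟨v, hv, rfl⟩, fun k => by have := hp v hv; rw [k] at this; exact lt_irrefl _ this⟩
  have hreach : ∀ n, ∀ v, (univ.filter (fun u => f u < f v)).card ≤ n → T.Reachable s v := by
    intro n
    induction n using Nat.strong_induction_on with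
    | _ n ih =>
      intro v hv
      by_cases k : v = s
      · rw [k]
      · have h1 : (univ.filter (fun u => f u < f (p v))).card <
            (univ.filter (fun u => f u < f v)).card := by
          apply card_lt_card
          rw [Finset.ssubset_iff_of_subset]
          · exact ⟨p v, by simp [hp v k], by simp⟩
          · intro u hu
            simp only [mem_filter, mem_univ, true_and] at hu ⊢
            exact hu.trans (hp v k)
        exact (ih _ (lt_of_lt_of_le h1 hv) (p v) le_rfl).trans (hadj v k).reachable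
  rw [SimpleGraph.isTree_iff_connected_and_card]
  have : Nonempty V := ⟨s⟩
  refine ⟨⟨fun a b => (hreach _ a le_rfl).symm.trans (hreach _ b le_rfl)⟩, ?_⟩
  have e1 : T.edgeSet = (fun v => s(p v, v)) '' {v | v ≠ s} := by
    rw [hT, SimpleGraph.edgeSet_fromEdgeSet]
    apply sdiff_eq_left.mpr
    rw [Set.disjoint_left]
    rintro _ ⟨v, hv, rfl⟩ k
    exact (hadj v hv).ne (by simpa using k)
  rw [e1, Nat.card_image_of_injOn]
  · have : ({v | v ≠ s} : Set V) = ↑(univ.erase s) := by ext; simp
    rw [this]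
    simp only [coe_sort_coe, Nat.card_eq_fintype_card, Fintype.card_coe]
    rw [card_erase_of_mem (mem_univ s), card_univ]
    have : 0 < Fintype.card V := Fintype.card_pos
    omega
  · intro a ha b hb hab
    rcases Sym2.eq_iff.mp hab with ⟨_, k⟩ | ⟨k1, k2⟩
    · exact k
    · have a1 := hp a ha
      have a2 := hp b hb
      rw [k1] at a1
      rw [← k2] at a2
      exact absurd (a1.trans a2) (lt_irrefl _)

theorem main {G : SimpleGraph V} (h : Conn6 G) {s t : V} (hst : G.Adj s t) :
    ∃ (f : V → ℚ) (p q : V → V), Function.Injective f ∧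
      (∀ v, v ≠ s → G.Adj (p v) v ∧ f (p v) < f v) ∧ (∀ v, v ≠ t → G.Adj (q v) v ∧ f v < f (q v)) ∧
      ∀ v w, v ≠ s → w ≠ t → s(p v, v) ≠ s(q w, w) := by
  obtain ⟨L, h1, h2, h3⟩ := exists_laman h hst.ne
  have h7 := h.1
  obtain ⟨EO, EI, f, hM, g1, g2, g3⟩ := laman_good hst.ne (Fintype.card V - 2) univ L
    (by rw [card_univ]; omega) (mem_univ _) (mem_univ _) (fun _ _ _ _ => mem_univ _)
    (fun e he => G.not_isDiag_of_mem_edgeSet (h1 e he).1) h2 (by rw [card_univ]; exact h3)
  have hnd : (EO + EI).Nodup := by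
    rw [hM, Multiset.nodup_cons]
    exact ⟨fun k => (h1 _ k).2 rfl, L.nodup⟩
  have hG : ∀ e ∈ EO + EI, e ∈ G.edgeSet := by
    intro e he
    rw [hM] at he
    rcases Multiset.mem_cons.mp he with rfl | he
    · exact hst
    · exact (h1 e he).1
  have hp : ∀ v, ∃ u, v ≠ s → s(u, v) ∈ EO ∧ f u < f v := by
    intro v
    by_cases k : v = s
    · exact ⟨v, fun k2 => absurd k k2⟩
    · obtain ⟨u, _, hu⟩ := g2 v (mem_univ _) k
      exact ⟨u, fun _ => hu⟩
  have hq : ∀ v, ∃ u, v ≠ t → s(u, v) ∈ EI ∧ f v < f u := by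
    intro v
    by_cases k : v = t
    · exact ⟨v, fun k2 => absurd k k2⟩
    · obtain ⟨u, _, hu⟩ := g3 v (mem_univ _) k
      exact ⟨u, fun _ => hu⟩
  choose p hp using hp
  choose q hq using hq
  refine ⟨f, p, q, fun a b k => g1 (by simp) (by simp) k,
    fun v hv => ⟨hG _ (Multiset.mem_add.mpr (Or.inl (hp v hv).1)), (hp v hv).2⟩,
    fun v hv => ⟨hG _ (Multiset.mem_add.mpr (Or.inr (hq v hv).1)), (hq v hv).2⟩, ?_⟩
  intro v w hv hw k
  have := (Multiset.nodup_add.mp hnd).2.2
  exact Multiset.disjoint_left.mp this (hp v hv).1 (k ▸ (hq w hw).1)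

end Pool.Agent.H24.Lam
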