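import Pool.Agent.H24.LgDefs

set_option autoImplicit false

namespace Pool.Agent.H24.Lg

def par (n : ℕ) : ℕ := if (n % 28 - 1) % 9 = 0 then n - n % 28 else n - 1

def rel (u v : ℕ) : Prop :=
  u % 28 ≠ 0 ∧ (par u = v ∨ ((u % 28 - 1) % 9 = 8 ∧ v + 7 = u))

instance : DecidableRel rel := fun a b => by unfold rel; infer_instance

/-- two copies of a tree of three 8-cycles -/
def G : SimpleGraph (Fin 56) := SimpleGraph.fromRel fun a b => rel a.1 b.1

instance : DecidableRel G.Adj := fun a b => by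
  unfold G; simp only [SimpleGraph.fromRel_adj]; infer_instance

lemma meet_iff (x y a b x' y' a' b' : ℝ) :
    (bendSet x y a b ∩ bendSet x' y' a' b').Nonempty ↔
    ((y = y' ∧ min x a ≤ max x' a' ∧ min x' a' ≤ max x a) ∨
     (min x a ≤ x' ∧ x' ≤ max x a ∧ min y' b' ≤ y ∧ y ≤ max y' b') ∨
     (min x' a' ≤ x ∧ x ≤ max x' a' ∧ min y b ≤ y' ∧ y' ≤ max y b) ∨
     (x = x' ∧ min y b ≤ max y' b' ∧ min y' b' ≤ max y b)) := by
  have e1 : min x a ≤ max x a := min_le_max
  have e2 : min y b ≤ max y b := min_le_max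
  have e3 : min x' a' ≤ max x' a' := min_le_max
  have e4 : min y' b' ≤ max y' b' := min_le_max
  simp only [bendSet, Set.uIcc, Set.mem_Icc]
  generalize min x a = x0, max x a = x1, min y b = y0, max y b = y1, min x' a' = x0',
    max x' a' = x1', min y' b' = y0', max y' b' = y1' at *
  constructor
  · rintro ⟨⟨p, q⟩, ⟨h1, h2, h3⟩ | ⟨h1, h2, h3⟩, ⟨h4, h5, h6⟩ | ⟨h4, h5, h6⟩⟩ <;>
      simp only at h1 h2 h3 h4 h5 h6
    · exact Or.inl ⟨by linarith, by linarith, by linarith⟩
    · exact Or.inr (Or.inl ⟨by linarith, by linarith, by linarith, by linarith⟩)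
    · exact Or.inr (Or.inr (Or.inl ⟨by linarith, by linarith, by linarith, by linarith⟩))
    · exact Or.inr (Or.inr (Or.inr ⟨by linarith, by linarith, by linarith⟩))
  · rintro (⟨h1, h2, h3⟩ | ⟨h1, h2, h3, h4⟩ | ⟨h1, h2, h3, h4⟩ | ⟨h1, h2, h3⟩)
    · exact ⟨(max x0 x0', y), Or.inl ⟨rfl, le_max_left _ _, max_le e1 h3⟩,
        Or.inl ⟨h1, le_max_right _ _, max_le h2 e3⟩⟩
    · exact ⟨(x', y), Or.inl ⟨rfl, h1, h2⟩, Or.inr ⟨rfl, h3, h4⟩⟩
    · exact ⟨(x, y'), Or.inr ⟨rfl, h3, h4⟩, Or.inl ⟨rfl, h1, h2⟩⟩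
    · exact ⟨(x, max y0 y0'), Or.inr ⟨rfl, le_max_left _ _, max_le e2 h3⟩,
        Or.inr ⟨h1, le_max_right _ _, max_le h2 e4⟩⟩

def sX : List ℤ := [0, 13194139533312, 13193065791488, 13193066053632, 13193066053627, 
  13193066053628, 13193066053623, 13193066053624, 13193066053619, 13193066053620, 8796093022208, 
  8795019280384, 8795019542528, 8795019542523, 8795019542524, 8795019542519, 8795019542520, 
  8795019542515, 8795019542516, 4398046511104, 4396972769280, 4396973031424, 4396973031419, 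
  4396973031420, 4396973031415, 4396973031416, 4396973031411, 4396973031412, 72057594037927936, 
  72070788177461248, 72070787103719424, 72070787103981568, 72070787103981563, 72070787103981564, 
  72070787103981559, 72070787103981560, 72070787103981555, 72070787103981556, 72066390130950144, 
  72066389057208320, 72066389057470464, 72066389057470459, 72066389057470460, 72066389057470455, 
  72066389057470456, 72066389057470451, 72066389057470452, 72061992084439040, 72061991010697216, 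
  72061991010959360, 72061991010959355, 72061991010959356, 72061991010959351, 72061991010959352, 
  72061991010959347, 72061991010959348]

def sY : List ℤ := [35184372088832, 17660905521152, 17592454479872, 17592186830848, 
  17592186896384, 17592186568704, 17592186634240, 17592186306560, 17592186372096, 17592186044416, 
  8864812498944, 8796361457664, 8796093808640, 8796093874176, 8796093546496, 8796093612032, 
  8796093284352, 8796093349888, 8796093022208, 68719476736, 268435456, 786432, 851968, 524288, 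
  589824, 262144, 327680, 0, -4468415255281664, -4485938721849344, -4486007172890624, 
  -4486007440539648, -4486007440474112, -4486007440801792, -4486007440736256, -4486007441063936, 
  -4486007440998400, -4486007441326080, -4494734814871552, -4494803265912832, -4494803533561856, 
  -4494803533496320, -4494803533824000, -4494803533758464, -4494803534086144, -4494803534020608, 
  -4494803534348288, -4503530907893760, -4503599358935040, -4503599626584064, -4503599626518528, 
  -4503599626846208, -4503599626780672, -4503599627108352, -4503599627042816, -4503599627370496]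

def sm : List ℤ := [-9, -1, -1024, -2, -1021, -1023, -1022, -1024, -1023, -2, -1, -1024, -4, 
  -1021, -1023, -1022, -1024, -1023, -4, -1, -1024, -9, -1021, -1023, -1022, -1024, -1023, -9, -9, 
  -1, -1024, -2, -1021, -1023, -1022, -1024, -1023, -2, -1, -1024, -4, -1021, -1023, -1022, -1024, 
  -1023, -4, -1, -1024, -9, -1021, -1023, -1022, -1024, -1023, -9]

def sM : List ℤ := [0, 65, 3, 65536, 196608, 65536, 196608, 196608, 65536, 196608, 65, 3, 
  65536, 196608, 65536, 196608, 196608, 65536, 196608, 65, 3, 65536, 196608, 65536, 196608, 196608, 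
  65536, 196608, 0, 65, 3, 65536, 196608, 65536, 196608, 196608, 65536, 196608, 65, 3, 65536, 
  196608, 65536, 196608, 196608, 65536, 196608, 65, 3, 65536, 196608, 65536, 196608, 196608, 65536, 
  196608]

def bX : List ℤ := [-395, -400, 1, -368, -363, -364, -359, -360, -355, -356, -398, 2, -338, 
  -333, -334, -329, -330, -325, -326, -396, 3, -308, -303, -304, -299, -300, -295, -296, -275, 
  -280, 4, -248, -243, -244, -239, -240, -235, -236, -278, 5, -218, -213, -214, -209, -210, -205, 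
  -206, -276, 6, -188, -183, -184, -179, -180, -175, -176]

def bY : List ℤ := [-19, -20, 6, -52, -51, -56, -55, -60, -59, -64, -22, 5, -82, -81, -86, -85, 
  -90, -89, -94, -24, 4, -112, -111, -116, -115, -120, -119, -124, -139, -140, 3, -172, -171, -176, 
  -175, -180, -179, -184, -142, 2, -202, -201, -206, -205, -210, -209, -214, -144, 1, -232, -231, 
  -236, -235, -240, -239, -244]

def bA : List ℤ := [6, 0, -1000, 0, 6, 6, 6, 6, 6, 0, 1, -1000, 1, 6, 6, 6, 6, 6, 1, 2, -1000, 
  2, 6, 6, 6, 6, 6, 2, 6, 3, -1000, 3, 6, 6, 6, 6, 6, 3, 4, -1000, 4, 6, 6, 6, 6, 6, 4, 5, -1000, 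
  5, 6, 6, 6, 6, 6, 5]

def bB : List ℤ := [6, 5, -1000, 5, 6, 6, 6, 6, 6, 5, 4, -1000, 4, 6, 6, 6, 6, 6, 4, 3, -1000, 
  3, 6, 6, 6, 6, 6, 3, 6, 2, -1000, 2, 6, 6, 6, 6, 6, 2, 1, -1000, 1, 6, 6, 6, 6, 6, 1, 0, -1000, 
  0, 6, 6, 6, 6, 6, 0]

def g (l : List ℤ) (v : Fin 56) : ℤ := l.getD v.1 0

def meetZ (x y a b x' y' a' b' : ℤ) : Prop :=
    ((y = y' ∧ min x a ≤ max x' a' ∧ min x' a' ≤ max x a) ∨
     (min x a ≤ x' ∧ x' ≤ max x a ∧ min y' b' ≤ y ∧ y ≤ max y' b') ∨
     (min x' a' ≤ x ∧ x ≤ max x' a' ∧ min y b ≤ y' ∧ y' ≤ max y b) ∨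
     (x = x' ∧ min y b ≤ max y' b' ∧ min y' b' ≤ max y b))

instance (x y a b x' y' a' b' : ℤ) : Decidable (meetZ x y a b x' y' a' b') := by
  unfold meetZ; infer_instance

lemma chkB : ∀ u v : Fin 56, u ≠ v → (¬ G.Adj u v ↔
    meetZ (g bX u) (g bY u) (g bA u) (g bB u) (g bX v) (g bY v) (g bA v) (g bB v)) := by
  decide +kernel

theorem isB1 : IsB1 Gᶜ := by
  refine ⟨g bX, g bY, g bA, g bB, by decide +kernel, fun u v huv => ?_⟩
  rw [meet_iff, SimpleGraph.compl_adj, and_iff_right huv, chkB u v huv, meetZ]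
  norm_cast

def inZ (X Y m M X' Y' : ℤ) : Prop :=
  (X' < X ∧ m * (X - X') ≤ Y - Y' ∧ Y - Y' ≤ M * (X - X')) ∨
  (X < X' ∧ m * (X' - X) ≤ Y' - Y ∧ Y' - Y ≤ M * (X' - X))

instance (X Y m M X' Y' : ℤ) : Decidable (inZ X Y m M X' Y') := by
  unfold inZ; infer_instance

lemma chkS : ∀ u v : Fin 56, u ≠ v → g sX u ≠ g sX v ∧ (¬ G.Adj u v ↔
    (inZ (g sX u) (g sY u) (g sm u) (g sM u) (g sX v) (g sY v) ∧
     inZ (g sX v) (g sY v) (g sm v) (g sM v) (g sX u) (g sY u))) := by
  decide +kernel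

lemma chkm : ∀ u : Fin 56, g sm u < g sM u := by decide +kernel

lemma mem_seg {X Y m M : ℝ} (h : m < M) (p : ℝ × ℝ) :
    p ∈ segment ℝ ((m, X * m - Y) : ℝ × ℝ) (M, X * M - Y) ↔
      m ≤ p.1 ∧ p.1 ≤ M ∧ p.2 = X * p.1 - Y := by
  constructor
  · rintro ⟨s, t, hs, ht, hst, rfl⟩
    obtain rfl : s = 1 - t := by linarith
    simp only [Prod.fst_add, Prod.snd_add, Prod.smul_fst, Prod.smul_snd, smul_eq_mul]
    refine ⟨by nlinarith, by nlinarith, by ring⟩
  · rintro ⟨h1, h2, h3⟩
    have hd : 0 < M - m := by linarith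
    refine ⟨(M - p.1) / (M - m), (p.1 - m) / (M - m), div_nonneg (by linarith) hd.le,
      div_nonneg (by linarith) hd.le, by field_simp; ring, ?_⟩
    ext
    · simp only [Prod.fst_add, Prod.smul_fst, smul_eq_mul]; field_simp; ring
    · simp only [Prod.snd_add, Prod.smul_snd, smul_eq_mul, h3]; field_simp; ring

lemma seg_meet {X Y m M X' Y' m' M' : ℝ} (h : m < M) (h' : m' < M') (hX : X' < X) :
    (segment ℝ ((m, X * m - Y) : ℝ × ℝ) (M, X * M - Y) ∩
      segment ℝ ((m', X' * m' - Y') : ℝ × ℝ) (M', X' * M' - Y')).Nonempty ↔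
    (m * (X - X') ≤ Y - Y' ∧ Y - Y' ≤ M * (X - X')) ∧
      (m' * (X - X') ≤ Y - Y' ∧ Y - Y' ≤ M' * (X - X')) := by
  have hd : 0 < X - X' := by linarith
  constructor
  · rintro ⟨p, h1, h2⟩
    obtain ⟨a1, a2, a3⟩ := (mem_seg h p).1 h1
    obtain ⟨b1, b2, b3⟩ := (mem_seg h' p).1 h2
    have e : Y - Y' = p.1 * (X - X') := by linarith
    rw [e]
    exact ⟨⟨by gcongr, by gcongr⟩, by gcongr, by gcongr⟩
  · rintro ⟨⟨a1, a2⟩, b1, b2⟩
    refine ⟨((Y - Y') / (X - X'), X * ((Y - Y') / (X - X')) - Y), (mem_seg h _).2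
      ⟨(le_div_iff₀ hd).2 a1, (div_le_iff₀ hd).2 a2, rfl⟩, (mem_seg h' _).2
      ⟨(le_div_iff₀ hd).2 b1, (div_le_iff₀ hd).2 b2, ?_⟩⟩
    simp only
    field_simp
    ring

theorem isSEG : IsSEG Gᶜ := by
  refine ⟨fun v => ((g sm v : ℝ), (g sX v : ℝ) * (g sm v : ℝ) - (g sY v : ℝ)),
    fun v => ((g sM v : ℝ), (g sX v : ℝ) * (g sM v : ℝ) - (g sY v : ℝ)), fun v h => ?_,
    fun u v huv => ?_⟩
  · have h1 := congrArg Prod.fst h
    simp only [Int.cast_inj] at h1
    exact (chkm v).ne h1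
  · obtain ⟨h1, h2⟩ := chkS u v huv
    have hu : (g sm u : ℝ) < g sM u := by exact_mod_cast chkm u
    have hv : (g sm v : ℝ) < g sM v := by exact_mod_cast chkm v
    rw [SimpleGraph.compl_adj, and_iff_right huv, h2]
    rcases lt_or_gt_of_ne h1 with h | h
    · rw [Set.inter_comm, seg_meet hv hu (by exact_mod_cast h)]
      simp only [inZ, h, h.not_gt, false_and, true_and, false_or, or_false]
      norm_cast
      tauto
    · rw [seg_meet hu hv (by exact_mod_cast h)]
      simp only [inZ, h, h.not_gt, false_and, true_and, false_or, or_false]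
      norm_cast

end Pool.Agent.H24.Lg
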