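import Pool.Agent.H24.Lg1

set_option autoImplicit false

namespace Pool.Agent.H24.Lg

def C (i j : Fin 8) : Prop := i + 1 = j ∨ j + 1 = i

instance : DecidableRel C := fun a b => by unfold C; infer_instance

set_option synthInstance.maxSize 2000 in
lemma cutA : ∀ P : Fin 8 → Bool, (∃ a, P a = true ∧ ∃ b, a ≠ b ∧ P b = true) →
    (∃ a, P a = false ∧ ∃ b, a ≠ b ∧ P b = false) →
    ∃ u1, P u1 = true ∧ ∃ v1, (P v1 = false ∧ C u1 v1) ∧ ∃ u2, (P u2 = true ∧ ¬ C u2 v1) ∧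
      ∃ v2, P v2 = false ∧ C u2 v2 ∧ ¬ C u1 v2 := by decide +kernel

set_option synthInstance.maxSize 2000 in
lemma tieA : ∀ a b : Fin 8, ∃ p, (p ≠ a ∧ p ≠ b) ∧ ∃ q, (q ≠ a ∧ q ≠ b ∧ C p q) ∧
    ∃ r, (r ≠ a ∧ r ≠ b ∧ ¬ C p r ∧ ¬ C q r ∧ p ≠ r ∧ q ≠ r) ∧
    ∃ s, s ≠ a ∧ s ≠ b ∧ C r s ∧ ¬ C p s ∧ ¬ C q s ∧ p ≠ s ∧ q ≠ s := by decide +kernel

lemma one {Q : Fin 8 → Prop} (h : ¬ ∃ a, Q a ∧ ∃ b, a ≠ b ∧ Q b) : ∃ a, ∀ i, Q i → i = a := by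
  by_cases h1 : ∃ a, Q a
  · obtain ⟨a, ha⟩ := h1
    exact ⟨a, fun i hi => by_contra fun hne => h ⟨i, hi, a, hne, ha⟩⟩
  · exact ⟨0, fun i hi => (h1 ⟨i, hi⟩).elim⟩

lemma cyc_cut (x : Fin 8 → ℝ) (hT : ∀ p q r s, C p q → C r s → ¬ C p r → ¬ C q r → ¬ C p s →
    ¬ C q s → p ≠ r → q ≠ r → p ≠ s → q ≠ s → x p = x q → x p = x r → x p = x s → False) :
    ∃ c u1 v1 u2 v2, x u1 ≤ c ∧ x u2 ≤ c ∧ c < x v1 ∧ c < x v2 ∧ C u1 v1 ∧ C u2 v2 ∧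
      ¬ C u1 v2 ∧ ¬ C u2 v1 := by
  classical
  have hne : (Finset.univ.filter fun i => ∃ j, j ≠ i ∧ x j ≤ x i).Nonempty := by
    rcases le_total (x 0) (x 1) with h | h
    · exact ⟨1, by simpa using ⟨0, by decide, h⟩⟩
    · exact ⟨0, by simpa using ⟨1, by decide, h⟩⟩
  obtain ⟨i0, hi0, hmin⟩ := Finset.exists_min_image _ x hne
  obtain ⟨j0, hj0, hj1⟩ := (Finset.mem_filter.1 hi0).2
  have hmin' : ∀ i j, j ≠ i → x j ≤ x i → x i0 ≤ x i := fun i j h1 h2 =>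
    hmin i (Finset.mem_filter.2 ⟨Finset.mem_univ _, j, h1, h2⟩)
  by_cases hup : ∃ a, x i0 < x a ∧ ∃ b, a ≠ b ∧ x i0 < x b
  · obtain ⟨u1, h1, v1, ⟨h2, h3⟩, u2, ⟨h4, h5⟩, v2, h6, h7, h8⟩ :=
      cutA (fun i => decide (x i ≤ x i0)) ⟨j0, by simpa using hj1, i0, hj0, by simp⟩
        (by simpa using hup)
    exact ⟨x i0, u1, v1, u2, v2, by simpa using h1, by simpa using h4, by simpa using h2,
      by simpa using h6, h3, h7, h8, h5⟩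
  · exfalso
    obtain ⟨b, hb⟩ := one hup
    obtain ⟨a, ha⟩ := one (Q := fun i => x i < x i0) (by
      rintro ⟨k, hk, l, hkl, hl⟩
      rcases le_total (x k) (x l) with h | h
      · exact (hmin' l k hkl h).not_gt hl
      · exact (hmin' k l hkl.symm h).not_gt hk)
    have eq : ∀ i, i ≠ a → i ≠ b → x i = x i0 := fun i h1 h2 =>
      le_antisymm (not_lt.1 fun h => h2 (hb i h)) (not_lt.1 fun h => h1 (ha i h))
    obtain ⟨p, ⟨p1, p2⟩, q, ⟨q1, q2, q3⟩, r, ⟨r1, r2, r3, r4, r5, r6⟩, s, s1, s2, s3, s4, s5,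
      s6, s7⟩ := tieA a b
    exact hT p q r s q3 s3 r3 r4 s4 s5 r5 r6 s6 s7 (by rw [eq p p1 p2, eq q q1 q2])
      (by rw [eq p p1 p2, eq r r1 r2]) (by rw [eq p p1 p2, eq s s1 s2])

lemma m3 {y1 y2 y3 l1 l2 l3 h1 h2 h3 : ℝ} (a1 : ¬ (l1 ≤ y1 ∧ y1 ≤ h1))
    (a2 : ¬ (l2 ≤ y2 ∧ y2 ≤ h2)) (a3 : ¬ (l3 ≤ y3 ∧ y3 ≤ h3))
    (b12 : l2 ≤ y1 ∧ y1 ≤ h2) (b13 : l3 ≤ y1 ∧ y1 ≤ h3) (b21 : l1 ≤ y2 ∧ y2 ≤ h1)
    (b23 : l3 ≤ y2 ∧ y2 ≤ h3) (b31 : l1 ≤ y3 ∧ y3 ≤ h1) (b32 : l2 ≤ y3 ∧ y3 ≤ h2) : False := by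
  rw [not_and_or, not_le, not_le] at a1 a2 a3
  rcases a1 with a1 | a1 <;> rcases a2 with a2 | a2 <;> rcases a3 with a3 | a3 <;>
    linarith [b12.1, b12.2, b13.1, b13.2, b21.1, b21.2, b23.1, b23.2, b31.1, b31.2, b32.1, b32.2]

lemma k2 {lp hp lq hq lr hr ls hs : ℝ} (a1 : ¬ (lp ≤ hq ∧ lq ≤ hp)) (a2 : ¬ (lr ≤ hs ∧ ls ≤ hr))
    (b1 : lp ≤ hr ∧ lr ≤ hp) (b2 : lq ≤ hr ∧ lr ≤ hq) (b3 : lp ≤ hs ∧ ls ≤ hp)
    (b4 : lq ≤ hs ∧ ls ≤ hq) : False := by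
  rw [not_and_or, not_le, not_le] at a1 a2
  rcases a1 with a1 | a1 <;> rcases a2 with a2 | a2 <;>
    linarith [b1.1, b1.2, b2.1, b2.2, b3.1, b3.2, b4.1, b4.2]

def cyc (j : Fin 2) (k : Fin 3) (i : Fin 8) : Fin 56 :=
  ⟨28 * j.1 + 2 + 9 * k.1 + i.1, by omega⟩

def S (j : Fin 2) (k : Fin 3) (v : Fin 56) : Prop :=
  v.1 / 28 = j.1 ∧ ¬ (28 * j.1 + 1 + 9 * k.1 ≤ v.1 ∧ v.1 < 28 * j.1 + 10 + 9 * k.1)

instance (j : Fin 2) (k : Fin 3) : DecidablePred (S j k) := fun v => by unfold S; infer_instance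

lemma parS : ∀ j k v, S j k v → v.1 = 28 * j.1 ∨ ∃ w, w < v ∧ S j k w ∧ G.Adj v w := by
  decide +kernel

lemma sepS : ∀ j k v, S j k v → ∀ i, ¬ G.Adj v (cyc j k i) := by decide +kernel

lemma inS : ∀ j k k' i, k ≠ k' → S j k (cyc j k' i) := by decide +kernel

lemma cycAdj : ∀ j k i i', G.Adj (cyc j k i) (cyc j k i') ↔ C i i' := by decide +kernel

lemma cycCp : ∀ j k i, (cyc j k i).1 / 28 = j.1 := by decide +kernel

lemma cycInj : ∀ j k i i', i ≠ i' → cyc j k i ≠ cyc j k i' := by decide +kernel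

lemma adjCp : ∀ u v, G.Adj u v → u.1 / 28 = v.1 / 28 := by decide +kernel

lemma cross (x : Fin 56 → ℝ) (c : ℝ) (j : Fin 2) (k : Fin 3) {s t : Fin 56} (hs : S j k s)
    (ht : S j k t) (h1 : x s ≤ c) (h2 : c < x t) :
    ∃ u v, S j k u ∧ S j k v ∧ G.Adj u v ∧ x u ≤ c ∧ c < x v := by
  by_contra hn
  have key : ∀ n, ∀ v : Fin 56, v.1 = n → S j k v →
      (x v ≤ c ↔ x ⟨28 * j.1, by omega⟩ ≤ c) := by
    intro n
    induction n using Nat.strong_induction_on with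
    | _ n ih =>
      intro v hv hS
      rcases parS j k v hS with h | ⟨w, hw, hSw, ha⟩
      · rw [show v = ⟨28 * j.1, by omega⟩ from Fin.ext h]
      · rw [← ih w.1 (hv ▸ hw) w rfl hSw]
        constructor
        · intro h; exact not_lt.1 fun h' => hn ⟨v, w, hS, hSw, ha, h, h'⟩
        · intro h; exact not_lt.1 fun h' => hn ⟨w, v, hSw, hS, ha.symm, h, h'⟩
  exact h2.not_ge ((key _ t rfl ht).2 ((key _ s rfl hs).1 h1))

lemma mid (c : Fin 3 → ℝ) : ∃ k k1 k3, k ≠ k1 ∧ k ≠ k3 ∧ c k1 ≤ c k ∧ c k ≤ c k3 := by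
  rcases le_total (c 0) (c 1) with h1 | h1 <;> rcases le_total (c 1) (c 2) with h2 | h2 <;>
    rcases le_total (c 0) (c 2) with h3 | h3
  · exact ⟨1, 0, 2, by decide, by decide, h1, h2⟩
  · exact ⟨1, 0, 2, by decide, by decide, h1, h2⟩
  · exact ⟨2, 0, 1, by decide, by decide, h3, h2⟩
  · exact ⟨0, 2, 1, by decide, by decide, h3, h1⟩
  · exact ⟨0, 1, 2, by decide, by decide, h1, h3⟩
  · exact ⟨2, 1, 0, by decide, by decide, h2, h3⟩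
  · exact ⟨1, 2, 0, by decide, by decide, h2, h1⟩
  · exact ⟨1, 2, 0, by decide, by decide, h2, h1⟩

theorem notLG : ¬ IsLGamma Gᶜ := by
  rintro ⟨x, y, a, b, hpos, hadj⟩
  have hM : ∀ u v, u ≠ v → (¬ G.Adj u v ↔
      ((y u = y v ∧ x u ≤ a v ∧ x v ≤ a u) ∨
      (x u ≤ x v ∧ x v ≤ a u ∧ min (y v) (b v) ≤ y u ∧ y u ≤ max (y v) (b v)) ∨
      (x v ≤ x u ∧ x u ≤ a v ∧ min (y u) (b u) ≤ y v ∧ y v ≤ max (y u) (b u)) ∨
      (x u = x v ∧ min (y u) (b u) ≤ max (y v) (b v) ∧ min (y v) (b v) ≤ max (y u) (b u)))) := by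
    intro u v huv
    have := hadj u v huv
    rwa [meet_iff, SimpleGraph.compl_adj, and_iff_right huv, min_eq_left (hpos u).1.le,
      max_eq_right (hpos u).1.le, min_eq_left (hpos v).1.le, max_eq_right (hpos v).1.le] at this
  have e1 : ∀ v, min (y v) (b v) ≤ y v := fun v => min_le_left _ _
  have e2 : ∀ v, y v ≤ max (y v) (b v) := fun v => le_max_left _ _
  generalize hlo : (fun v => min (y v) (b v)) = lo at *
  have hlo' : ∀ v, min (y v) (b v) = lo v := fun v => congrFun hlo v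
  generalize hhi : (fun v => max (y v) (b v)) = hi at *
  have hhi' : ∀ v, max (y v) (b v) = hi v := fun v => congrFun hhi v
  simp only [hlo', hhi'] at hM e1 e2
  obtain ⟨z, hz⟩ := Finite.exists_max x
  obtain ⟨j, hj⟩ : ∃ j : Fin 2, z.1 / 28 ≠ j.1 := by
    by_cases h : z.1 / 28 = 0
    · exact ⟨1, by simp [h]⟩
    · exact ⟨0, h⟩
  have long : ∀ u v : Fin 56, u.1 / 28 = j.1 → x v ≤ a u := by
    intro u v hu
    refine (hz v).trans ?_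
    have := (hpos u).1
    rcases (hM u z (fun e => hj (e ▸ hu))).1 (fun h => hj ((adjCp _ _ h).symm.trans hu)) with
      h | h | h | h
    · exact h.2.2
    · exact h.2.1
    · linarith [h.1]
    · linarith [h.1]
  have F1 : ∀ u v : Fin 56, u.1 / 28 = j.1 → x u < x v →
      (¬ G.Adj u v ↔ (lo v ≤ y u ∧ y u ≤ hi v)) := by
    intro u v hu hx
    rw [hM u v (fun e => hx.ne (by rw [e]))]
    constructor
    · rintro (h | h | h | h)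
      · rw [h.1]; exact ⟨e1 v, e2 v⟩
      · exact h.2.2
      · linarith [h.1]
      · linarith [h.1]
    · intro h
      exact Or.inr (Or.inl ⟨hx.le, long u v hu, h⟩)
  have F2 : ∀ u v : Fin 56, u ≠ v → x u = x v →
      (¬ G.Adj u v ↔ (lo u ≤ hi v ∧ lo v ≤ hi u)) := by
    intro u v huv hx
    rw [hM u v huv]
    have := e1 u
    have := e1 v
    have := e2 u
    have := e2 v
    constructor
    · rintro (h | h | h | h)
      · constructor <;> linarith [h.1]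
      · constructor <;> linarith [h.2.2.1, h.2.2.2]
      · constructor <;> linarith [h.2.2.1, h.2.2.2]
      · exact h.2
    · intro h
      exact Or.inr (Or.inr (Or.inr ⟨hx, h⟩))
  have cuts : ∀ k : Fin 3, ∃ c u1 v1 u2 v2, x (cyc j k u1) ≤ c ∧ x (cyc j k u2) ≤ c ∧
      c < x (cyc j k v1) ∧ c < x (cyc j k v2) ∧ C u1 v1 ∧ C u2 v2 ∧ ¬ C u1 v2 ∧ ¬ C u2 v1 := by
    intro k
    refine cyc_cut (fun i => x (cyc j k i)) ?_
    intro p q r s c1 c2 n1 n2 n3 n4 d1 d2 d3 d4 x1 x2 x3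
    have A : ∀ p q, C p q → x (cyc j k p) = x (cyc j k q) →
        ¬ (lo (cyc j k p) ≤ hi (cyc j k q) ∧ lo (cyc j k q) ≤ hi (cyc j k p)) := by
      intro p q h hx hh
      have ha := (cycAdj j k p q).2 h
      exact (F2 _ _ ha.ne hx).2 hh ha
    have B : ∀ p q, ¬ C p q → p ≠ q → x (cyc j k p) = x (cyc j k q) →
        (lo (cyc j k p) ≤ hi (cyc j k q) ∧ lo (cyc j k q) ≤ hi (cyc j k p)) :=
      fun p q h hne hx => (F2 _ _ (cycInj j k p q hne) hx).1 fun ha => h ((cycAdj j k p q).1 ha)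
    exact k2 (A p q c1 x1) (A r s c2 (x2.symm.trans x3)) (B p r n1 d1 x2)
      (B q r n2 d2 (x1.symm.trans x2)) (B p s n3 d3 x3) (B q s n4 d4 (x1.symm.trans x3))
  choose c u1 v1 u2 v2 h1 h2 h3 h4 h5 h6 h7 h8 using cuts
  obtain ⟨k, k1, k3, n1, n3, l1, l3⟩ := mid c
  obtain ⟨u, v, hu, hv, ha, xu, xv⟩ := cross x (c k) j k (inS j k k1 (u1 k1) n1)
    (inS j k k3 (v1 k3) n3) ((h1 k1).trans l1) (l3.trans_lt (h3 k3))
  have cp := cycCp j k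
  exact m3
    (fun h => (F1 _ _ (cp _) ((h1 k).trans_lt (h3 k))).2 h ((cycAdj j k _ _).2 (h5 k)))
    (fun h => (F1 _ _ (cp _) ((h2 k).trans_lt (h4 k))).2 h ((cycAdj j k _ _).2 (h6 k)))
    (fun h => (F1 u v hu.1 (xu.trans_lt xv)).2 h ha)
    ((F1 _ _ (cp _) ((h1 k).trans_lt (h4 k))).1 fun h => h7 k ((cycAdj j k _ _).1 h))
    ((F1 _ v (cp _) ((h1 k).trans_lt xv)).1 fun h => sepS j k v hv _ h.symm)
    ((F1 _ _ (cp _) ((h2 k).trans_lt (h3 k))).1 fun h => h8 k ((cycAdj j k _ _).1 h))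
    ((F1 _ v (cp _) ((h2 k).trans_lt xv)).1 fun h => sepS j k v hv _ h.symm)
    ((F1 u _ hu.1 (xu.trans_lt (h3 k))).1 (sepS j k u hu _))
    ((F1 u _ hu.1 (xu.trans_lt (h4 k))).1 (sepS j k u hu _))

end Pool.Agent.H24.Lg
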