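import Mathlib

set_option autoImplicit false

namespace Pool.Agent.H24.Lg

/-- Intersection graphs of straight-line segments. -/
def IsSEG {W : Type} (H : SimpleGraph W) : Prop :=
  ∃ p q : W → ℝ × ℝ, (∀ v, p v ≠ q v) ∧ ∀ u v, u ≠ v →
    (H.Adj u v ↔ (segment ℝ (p u) (q u) ∩ segment ℝ (p v) (q v)).Nonempty)

/-- The path from `(a, y)` horizontally to `(x, y)` and then vertically to `(x, b)`, as a subset
of the plane. -/
def bendSet (x y a b : ℝ) : Set (ℝ × ℝ) :=
  {p | p.2 = y ∧ p.1 ∈ Set.uIcc x a} ∪ {p | p.1 = x ∧ p.2 ∈ Set.uIcc y b}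

/-- Intersection graphs of grid paths with at most one bend (ends and bend at integer points,
not a single point). -/
def IsB1 {W : Type} (H : SimpleGraph W) : Prop :=
  ∃ x y a b : W → ℤ, (∀ v, a v ≠ x v ∨ b v ≠ y v) ∧ ∀ u v, u ≠ v →
    (H.Adj u v ↔ (bendSet (x u) (y u) (a u) (b u) ∩ bendSet (x v) (y v) (a v) (b v)).Nonempty)

/-- Intersection graphs of L-shapes and Gamma-shapes: the horizontal segment goes right from the
corner `(x, y)` to `(a, y)`, the vertical one goes up (L) or down (Gamma) to `(x, b)`. -/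
def IsLGamma {W : Type} (H : SimpleGraph W) : Prop :=
  ∃ x y a b : W → ℝ, (∀ v, x v < a v ∧ b v ≠ y v) ∧ ∀ u v, u ≠ v →
    (H.Adj u v ↔ (bendSet (x u) (y u) (a u) (b u) ∩ bendSet (x v) (y v) (a v) (b v)).Nonempty)

end Pool.Agent.H24.Lg
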