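import Pool.Agent.H24.LshDefs

set_option autoImplicit false

namespace Pool.Agent.H24.Lsh

lemma AA {x y r t x' y' r' t' : ℤ} (h1 : x < 0) (h2 : y < 0) (h3 : x' < 0) (h4 : y' < 0)
    (h5 : 0 ≤ r) (h6 : 0 ≤ t) (h7 : 0 ≤ r') (h8 : 0 ≤ t') :
    (bendPath x y r t ∩ bendPath x' y' r' t').Nonempty ↔
      ¬ ((x < x' ∧ y < y') ∨ (x' < x ∧ y' < y)) := by
  constructor
  · rintro ⟨⟨p, q⟩, ha, hb⟩
    simp only [bendPath, Set.mem_union, Set.mem_setOf_eq, Set.mem_uIcc] at ha hb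
    omega
  · intro h
    refine ⟨(max x x', max y y'), ?_, ?_⟩ <;>
    simp only [bendPath, Set.mem_union, Set.mem_setOf_eq, Set.mem_uIcc] <;> omega

lemma AC {x y r t X Y B : ℤ} (h1 : x < 0) (h2 : y < 0) (h3 : B ≤ x) (h4 : B ≤ y)
    (h5 : 0 ≤ r) (h6 : 0 ≤ t) (h7 : 0 < X) (h8 : 0 < Y) :
    (bendPath x y r t ∩ bendPath X Y B B).Nonempty ↔ (X ≤ r ∨ Y ≤ t) := by
  constructor
  · rintro ⟨⟨p, q⟩, ha, hb⟩
    simp only [bendPath, Set.mem_union, Set.mem_setOf_eq, Set.mem_uIcc] at ha hb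
    omega
  · rintro (h | h)
    · refine ⟨(X, y), ?_, ?_⟩ <;>
      simp only [bendPath, Set.mem_union, Set.mem_setOf_eq, Set.mem_uIcc, true_and] <;> omega
    · refine ⟨(x, Y), ?_, ?_⟩ <;>
      simp only [bendPath, Set.mem_union, Set.mem_setOf_eq, Set.mem_uIcc, true_and] <;> omega

lemma CC {X Y X' Y' B : ℤ} (h1 : B ≤ 0) (h2 : 0 < X) (h3 : 0 < Y) (h4 : 0 < X') (h5 : 0 < Y')
    (h6 : X + Y = X' + Y') :
    (bendPath X Y B B ∩ bendPath X' Y' B B).Nonempty := by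
  refine ⟨(min X X', min Y Y'), ?_, ?_⟩ <;>
  simp only [bendPath, Set.mem_union, Set.mem_setOf_eq, Set.mem_uIcc] <;> omega

section one
variable {n : ℕ} (G : SimpleGraph (Fin n))

/-- the end of the edge next to a new vertex -/
def fe (e : Edge G) (i : Fin (2 * 1)) : Fin n := if i.1 = 0 then e.1.1 else e.1.2

lemma rel_iff (x y : SubV G (fun _ => 1)) :
    (∃ e i, i ≤ 2 * 1 ∧ x = pt G (fun _ => 1) e i ∧ y = pt G (fun _ => 1) e (i + 1)) ↔
    ∃ e : Edge G, (x = Sum.inl e.1.1 ∧ y = Sum.inr ⟨e, ⟨0, by norm_num⟩⟩) ∨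
      (x = Sum.inr ⟨e, ⟨0, by norm_num⟩⟩ ∧ y = Sum.inr ⟨e, ⟨1, by norm_num⟩⟩) ∨
      (x = Sum.inr ⟨e, ⟨1, by norm_num⟩⟩ ∧ y = Sum.inl e.1.2) := by
  constructor
  · rintro ⟨e, i, hi, rfl, rfl⟩
    refine ⟨e, ?_⟩
    obtain rfl | rfl | rfl : i = 0 ∨ i = 1 ∨ i = 2 := by omega
    · left; simp [pt]
    · right; left; simp [pt]
    · right; right; simp [pt]
  · rintro ⟨e, ⟨rfl, rfl⟩ | ⟨rfl, rfl⟩ | ⟨rfl, rfl⟩⟩
    · exact ⟨e, 0, by norm_num, by simp [pt], by simp [pt]⟩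
    · exact ⟨e, 1, by norm_num, by simp [pt], by simp [pt]⟩
    · exact ⟨e, 2, by norm_num, by simp [pt], by simp [pt]⟩

lemma adj_ll (u v : Fin n) : ¬ (evenSub G (fun _ => 1)).Adj (Sum.inl u) (Sum.inl v) := by
  simp only [evenSub, SimpleGraph.fromRel_adj, rel_iff]
  simp

lemma adj_rl (e : Edge G) (i : Fin (2 * 1)) (v : Fin n) :
    (evenSub G (fun _ => 1)).Adj (Sum.inr ⟨e, i⟩) (Sum.inl v) ↔ v = fe G e i := by
  simp only [evenSub, SimpleGraph.fromRel_adj, rel_iff]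
  obtain ⟨i, hi⟩ := i
  obtain rfl | rfl : i = 0 ∨ i = 1 := by omega
  · constructor
    · rintro ⟨-, ⟨e', h | h | h⟩ | ⟨e', h | h | h⟩⟩
      · simp at h
      · simp at h
      · obtain ⟨h1, h2⟩ := h
        have := Sum.inr.inj h1
        obtain ⟨rfl, h3⟩ := Sigma.mk.inj_iff.1 this
        simp at h3
      · obtain ⟨h1, h2⟩ := h
        have := Sum.inr.inj h2
        obtain ⟨rfl, h3⟩ := Sigma.mk.inj_iff.1 this
        simpa [fe] using h1
      · simp at h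
      · simp at h
    · rintro rfl
      exact ⟨by simp, Or.inr ⟨e, Or.inl ⟨by simp [fe], rfl⟩⟩⟩
  · constructor
    · rintro ⟨-, ⟨e', h | h | h⟩ | ⟨e', h | h | h⟩⟩
      · simp at h
      · simp at h
      · obtain ⟨h1, h2⟩ := h
        have := Sum.inr.inj h1
        obtain ⟨rfl, h3⟩ := Sigma.mk.inj_iff.1 this
        simpa [fe] using h2
      · obtain ⟨h1, h2⟩ := h
        have := Sum.inr.inj h2
        obtain ⟨rfl, h3⟩ := Sigma.mk.inj_iff.1 this
        simp at h3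
      · simp at h
      · simp at h
    · rintro rfl
      exact ⟨by simp, Or.inl ⟨e, Or.inr (Or.inr ⟨rfl, by simp [fe]⟩)⟩⟩

lemma adj_rr (e e' : Edge G) (i j : Fin (2 * 1)) :
    (evenSub G (fun _ => 1)).Adj (Sum.inr ⟨e, i⟩) (Sum.inr ⟨e', j⟩) ↔ e = e' ∧ i.1 ≠ j.1 := by
  simp only [evenSub, SimpleGraph.fromRel_adj, rel_iff]
  constructor
  · rintro ⟨-, ⟨f, h | h | h⟩ | ⟨f, h | h | h⟩⟩
    · simp at h
    · obtain ⟨h1, h2⟩ := h
      obtain ⟨rfl, h3⟩ := Sigma.mk.inj_iff.1 (Sum.inr.inj h1)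
      obtain ⟨rfl, h4⟩ := Sigma.mk.inj_iff.1 (Sum.inr.inj h2)
      obtain rfl := eq_of_heq h3
      obtain rfl := eq_of_heq h4
      simp
    · simp at h
    · simp at h
    · obtain ⟨h1, h2⟩ := h
      obtain ⟨rfl, h3⟩ := Sigma.mk.inj_iff.1 (Sum.inr.inj h1)
      obtain ⟨rfl, h4⟩ := Sigma.mk.inj_iff.1 (Sum.inr.inj h2)
      obtain rfl := eq_of_heq h3
      obtain rfl := eq_of_heq h4
      simp
    · simp at h
  · rintro ⟨rfl, h⟩
    obtain ⟨i, hi⟩ := i
    obtain ⟨j, hj⟩ := j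
    simp only at h
    refine ⟨?_, ?_⟩
    · intro h1
      obtain ⟨-, h3⟩ := Sigma.mk.inj_iff.1 (Sum.inr.inj h1)
      exact h (by simpa using h3)
    · obtain ⟨rfl, rfl⟩ | ⟨rfl, rfl⟩ : (i = 0 ∧ j = 1) ∨ (i = 1 ∧ j = 0) := by omega
      · exact Or.inl ⟨e, Or.inr (Or.inl ⟨rfl, rfl⟩)⟩
      · exact Or.inr ⟨e, Or.inr (Or.inl ⟨rfl, rfl⟩)⟩

theorem b1 : IsB1VPG (evenSub G (fun _ => 1))ᶜ := by
  obtain ⟨m, ⟨q⟩⟩ := Finite.exists_equiv_fin (Edge G)
  refine ⟨Sum.elim (fun j => (j : ℤ) + 1) (fun s => 2 * (q s.1 : ℤ) + (s.2 : ℕ) - (2 * m + 2)),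
    Sum.elim (fun j => (n : ℤ) - j) (fun s => -2 * (q s.1 : ℤ) + (s.2 : ℕ) - 2),
    Sum.elim (fun _ => -(2 * m + 2)) (fun s => (fe G s.1 s.2 : ℤ)),
    Sum.elim (fun _ => -(2 * m + 2)) (fun s => (n : ℤ) - (fe G s.1 s.2 : ℤ) - 1), ?_, ?_⟩
  · rintro (j | ⟨e, i⟩)
    · left; simp only [Sum.elim_inl]; omega
    · left; simp only [Sum.elim_inr]
      have := (q e).2
      have : i.1 < 2 := i.2
      omega
  · have key : ∀ (e : Edge G) (i : Fin (2 * 1)) (v : Fin n),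
        ((evenSub G (fun _ => 1))ᶜ.Adj (Sum.inr ⟨e, i⟩) (Sum.inl v) ↔
        (bendPath (2 * (q e : ℤ) + (i : ℕ) - (2 * m + 2)) (-2 * (q e : ℤ) + (i : ℕ) - 2)
          (fe G e i : ℤ) ((n : ℤ) - (fe G e i : ℤ) - 1) ∩
          bendPath ((v : ℤ) + 1) ((n : ℤ) - v) (-(2 * m + 2)) (-(2 * m + 2))).Nonempty) := by
      intro e i v
      have := (q e).2
      have : i.1 < 2 := i.2
      have := v.2
      have := (fe G e i).2
      rw [SimpleGraph.compl_adj, adj_rl, AC (by omega) (by omega) (by omega) (by omega)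
        (by omega) (by omega) (by omega) (by omega), Fin.ext_iff]
      simp only [ne_eq, reduceCtorEq, not_false_eq_true, true_and]
      omega
    rintro (u | ⟨e, i⟩) (v | ⟨e', j⟩) huv
    · simp only [Sum.elim_inl]
      have := u.2
      have := v.2
      refine iff_of_true ?_ (CC (by omega) (by omega) (by omega) (by omega) (by omega) (by omega))
      exact (SimpleGraph.compl_adj _ _ _).2 ⟨huv, adj_ll G u v⟩
    · simp only [Sum.elim_inl, Sum.elim_inr]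
      rw [SimpleGraph.adj_comm, Set.inter_comm]
      exact key e' j u
    · simp only [Sum.elim_inl, Sum.elim_inr]
      exact key e i v
    · simp only [Sum.elim_inr]
      have := (q e).2
      have := (q e').2
      have : i.1 < 2 := i.2
      have : j.1 < 2 := j.2
      have := (fe G e i).2
      have := (fe G e' j).2
      rw [SimpleGraph.compl_adj, adj_rr, AA (by omega) (by omega) (by omega) (by omega)
        (by omega) (by omega) (by omega) (by omega)]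
      by_cases he : e = e'
      · subst he
        have hij : i.1 ≠ j.1 := fun h => huv (by rw [Fin.ext h])
        simp only [ne_eq, true_and]
        constructor
        · rintro ⟨-, h⟩; exact (h hij).elim
        · intro h; exfalso; apply h; omega
      · have hq : (q e).1 ≠ (q e').1 := fun h => he (q.injective (Fin.ext h))
        constructor
        · rintro -; omega
        · intro _; exact ⟨huv, fun h => he h.1⟩

end one

end Pool.Agent.H24.Lsh
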