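import Pool.Agent.H24.LshDefs

set_option autoImplicit false

namespace Pool.Agent.H24.Lsh

/-- three disjoint pentagons -/
def P3 : SimpleGraph (Fin 15) := SimpleGraph.fromRel fun a b =>
  a.1 / 5 = b.1 / 5 ∧ (a.1 + 1) % 5 = b.1 % 5

instance : DecidableRel P3.Adj := fun a b => by
  unfold P3; simp only [SimpleGraph.fromRel_adj]; infer_instance

def cr (a b c : Fin 15) : ℤ :=
  ((b : ℤ) - a) * ((c : ℤ) ^ 2 - (a : ℤ) ^ 2) - ((b : ℤ) ^ 2 - (a : ℤ) ^ 2) * ((c : ℤ) - a)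

lemma chk : ∀ a b, P3.Adj a b → ∀ c d, P3.Adj c d → ((a = c ∧ b = d) ∨ (a = d ∧ b = c)) ∨
    0 < cr a b c * cr a b d ∨
    ((c = a ∨ c = b) ∧ cr a b c = 0 ∧ cr a b d ≠ 0) ∨
    ((d = a ∨ d = b) ∧ cr a b d = 0 ∧ cr a b c ≠ 0) := by decide +kernel

lemma chk2 : ∀ a b, P3.Adj a b → ∀ v, cr a b v = 0 → v = a ∨ v = b := by decide +kernel

def pp (v : Fin 15) : ℝ × ℝ := (((v : ℤ) : ℝ), ((v : ℤ) : ℝ) ^ 2)

lemma seg {a b c d : Fin 15} {x : ℝ × ℝ} (h1 : x ∈ segment ℝ (pp a) (pp b)) {s t : ℝ}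
    (hst : s + t = 1) (h2 : s • pp c + t • pp d = x) : s * cr a b c + t * cr a b d = 0 := by
  obtain ⟨u, v, -, -, huv, h3⟩ := h1
  rw [← h3] at h2
  obtain ⟨h4, h5⟩ := Prod.ext_iff.1 h2
  simp only [pp, Prod.fst_add, Prod.snd_add, Prod.smul_fst, Prod.smul_snd, smul_eq_mul] at h4 h5
  simp only [cr]
  obtain rfl : s = 1 - t := by linarith
  obtain rfl : u = 1 - v := by linarith
  rw [Int.cast_sub, Int.cast_sub, Int.cast_mul, Int.cast_mul, Int.cast_mul, Int.cast_mul]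
  simp only [Int.cast_sub, Int.cast_pow]
  linear_combination ((((b : ℤ) : ℝ)) - ((a : ℤ) : ℝ)) * h5 -
    (((b : ℤ) : ℝ) ^ 2 - ((a : ℤ) : ℝ) ^ 2) * h4

lemma sep {s t e f : ℝ} (hs : 0 ≤ s) (ht : 0 ≤ t) (hst : s + t = 1) (h : s * e + t * f = 0)
    (h1 : 0 < e * f) : False := by
  rcases mul_pos_iff.1 h1 with ⟨h2, h3⟩ | ⟨h2, h3⟩ <;> rcases hs.eq_or_lt with rfl | h4 <;>
    nlinarith

lemma planar : PlaneDrawn P3 := by
  refine ⟨pp, fun a b h => ?_, fun a b v h1 h2 => ?_, fun a b c d h1 h2 x h3 h4 => ?_⟩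
  · obtain ⟨h1, -⟩ := Prod.ext_iff.1 h
    simp only [pp, Int.cast_inj] at h1
    exact Fin.ext (by exact_mod_cast h1)
  · have h7 := seg (c := v) (d := v) h2 (s := 1) (t := 0) (by norm_num) (by simp)
    exact chk2 a b h1 v (by simpa using h7)
  · have ⟨s, t, hs, ht, hst, h5⟩ := h4
    have h7 := seg h3 hst h5
    rcases chk a b h1 c d h2 with h | h | ⟨h, h9, h10⟩ | ⟨h, h9, h10⟩
    · exact Or.inl (Sym2.eq_iff.2 h)
    · exact (sep hs ht hst h7 (by exact_mod_cast h)).elim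
    · have : t = 0 := by simpa [h9, h10] using h7
      obtain rfl : s = 1 := by linarith
      exact Or.inr ⟨c, h, Or.inl rfl, by simp [← h5, this]⟩
    · have : s = 0 := by simpa [h9, h10] using h7
      obtain rfl : t = 1 := by linarith
      exact Or.inr ⟨d, h, Or.inr rfl, by simp [← h5, this]⟩

section hom
variable {n : ℕ} (G : SimpleGraph (Fin n)) (k : Edge G → ℕ)

/-- folding the subdivision onto the graph -/
def fold : SubV G k → Fin n :=
  Sum.elim id fun s => if s.2.1 % 2 = 0 then s.1.1.2 else s.1.1.1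

lemma fold_pt (e : Edge G) (i : ℕ) (hi : i ≤ 2 * k e + 1) :
    fold G k (pt G k e i) = if i % 2 = 0 then e.1.1 else e.1.2 := by
  unfold pt
  split_ifs with h1 h2 h3 h4 h5 h6
  · rfl
  · omega
  · simp only [fold, Sum.elim_inr]; rw [if_neg (by omega)]
  · simp only [fold, Sum.elim_inr]; rw [if_pos (by omega)]
  · omega
  · rfl

lemma fold_step (e : Edge G) (i : ℕ) (hi : i ≤ 2 * k e) :
    G.Adj (fold G k (pt G k e i)) (fold G k (pt G k e (i + 1))) := by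
  rw [fold_pt G k e i (by omega), fold_pt G k e (i + 1) (by omega)]
  by_cases h : i % 2 = 0
  · rw [if_pos h, if_neg (by omega)]; exact e.2.2
  · rw [if_neg h, if_pos (by omega)]; exact e.2.2.symm

lemma fold_adj {x y : SubV G k} (h : (evenSub G k).Adj x y) : G.Adj (fold G k x) (fold G k y) := by
  simp only [evenSub, SimpleGraph.fromRel_adj] at h
  obtain ⟨-, ⟨e, i, hi, rfl, rfl⟩ | ⟨e, i, hi, rfl, rfl⟩⟩ := h
  · exact fold_step G k e i hi
  · exact (fold_step G k e i hi).symm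

lemma adj_step (e : Edge G) (i : ℕ) (hi : i ≤ 2 * k e) :
    (evenSub G k).Adj (pt G k e i) (pt G k e (i + 1)) := by
  simp only [evenSub, SimpleGraph.fromRel_adj]
  refine ⟨fun h => ?_, Or.inl ⟨e, i, hi, rfl, rfl⟩⟩
  have := fold_step G k e i hi
  rw [h] at this
  exact this.ne rfl

end hom

lemma P3_comp : ∀ a b, P3.Adj a b → a.1 / 5 = b.1 / 5 := by decide +kernel

lemma P3_tri : ∀ a b, P3.Adj a b → ∀ c, P3.Adj b c → ¬ P3.Adj a c := by decide +kernel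

lemma L_meet {x y h w x' y' h' w' : ℝ} (h1 : x' ≤ x + w) (h2 : y' ≤ y + h) (h3 : x ≤ x' + w')
    (h4 : y ≤ y' + h') (h5 : 0 < h) (h6 : 0 < w) (h7 : 0 < h') (h8 : 0 < w') :
    (lShape x y h w ∩ lShape x' y' h' w').Nonempty ↔
      ¬ ((x < x' ∧ y < y') ∨ (x' < x ∧ y' < y)) := by
  constructor
  · rintro ⟨⟨p, q⟩, ha, hb⟩
    simp only [lShape, Set.mem_union, Set.mem_setOf_eq] at ha hb
    rintro (⟨a1, a2⟩ | ⟨a1, a2⟩) <;> rcases ha with ⟨b1, b2, b3⟩ | ⟨b1, b2, b3⟩ <;>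
      rcases hb with ⟨c1, c2, c3⟩ | ⟨c1, c2, c3⟩ <;> linarith
  · intro hn
    push Not at hn
    obtain ⟨a1, a2⟩ := hn
    refine ⟨(max x x', max y y'), ?_, ?_⟩ <;>
      simp only [lShape, Set.mem_union, Set.mem_setOf_eq]
    · rcases lt_or_ge x x' with b | b
      · right
        rw [max_eq_left (a1 b), max_eq_right b.le]
        exact ⟨rfl, b.le, h1⟩
      · left
        rw [max_eq_left b]
        exact ⟨rfl, le_max_left _ _, max_le (by linarith) h2⟩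
    · rcases lt_or_ge x' x with b | b
      · right
        rw [max_eq_right (a2 b), max_eq_left b.le]
        exact ⟨rfl, b.le, h3⟩
      · left
        rw [max_eq_right b]
        exact ⟨rfl, le_max_right _ _, max_le h4 (by linarith)⟩

lemma L_reach {x y h w x' y' h' w' : ℝ} (h6 : 0 < w) (h5 : 0 < h)
    (hm : (lShape x y h w ∩ lShape x' y' h' w').Nonempty) : x' ≤ x + w ∧ y' ≤ y + h := by
  obtain ⟨⟨p, q⟩, ha, hb⟩ := hm
  simp only [lShape, Set.mem_union, Set.mem_setOf_eq] at ha hb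
  rcases ha with ⟨b1, b2, b3⟩ | ⟨b1, b2, b3⟩ <;>
    rcases hb with ⟨c1, c2, c3⟩ | ⟨c1, c2, c3⟩ <;> constructor <;> linarith

lemma odd5 : ∀ j : Fin 3, ∃ a b c d e : Fin 15, a.1 / 5 = j ∧ b.1 / 5 = j ∧ c.1 / 5 = j ∧
    d.1 / 5 = j ∧ a < b ∧ b < c ∧ c < d ∧ d < e ∧ a < e ∧ P3.Adj a b ∧ P3.Adj b c ∧ P3.Adj c d ∧
    P3.Adj d e ∧ P3.Adj a e := by
  intro j
  fin_cases j
  · exact ⟨0, 1, 2, 3, 4, by decide⟩
  · exact ⟨5, 6, 7, 8, 9, by decide⟩
  · exact ⟨10, 11, 12, 13, 14, by decide⟩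

lemma pr1 {a b c d e : Prop} (h1 : a ↔ (c ↔ d)) (h2 : a ↔ ¬ b) (h3 : e ↔ ¬ d) :
    b ↔ (c ↔ e) := by tauto

lemma pr2 {a b d : Prop} (h1 : b ↔ (a ↔ d)) (h3 : ¬ d) : a ↔ ¬ b := by tauto

lemma pr3 {a b c d e : Prop} (h1 : a ↔ ¬ b) (h2 : b ↔ ¬ c) (h3 : c ↔ ¬ d) (h4 : d ↔ ¬ e)
    (h5 : a ↔ ¬ e) : False := by tauto

theorem notL (k : Edge P3 → ℕ) : ¬ IsLGraph (evenSub P3 k)ᶜ := by
  rintro ⟨x, y, h, w, hpos, hadj⟩
  obtain ⟨z, hz⟩ := Finite.exists_max x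
  obtain ⟨z', hz'⟩ := Finite.exists_max y
  let cp : SubV P3 k → ℕ := fun v => (fold P3 k v).1 / 5
  obtain ⟨j, hj1, hj2⟩ : ∃ j : Fin 3, cp z ≠ j ∧ cp z' ≠ j := by
    by_cases a0 : cp z ≠ 0 ∧ cp z' ≠ 0
    · exact ⟨0, a0⟩
    by_cases a1 : cp z ≠ 1 ∧ cp z' ≠ 1
    · exact ⟨1, a1⟩
    refine ⟨2, ?_⟩
    simp only [Fin.val_two]
    omega
  have far : ∀ v u, cp v = j → cp u ≠ j → x u ≤ x v + w v ∧ y u ≤ y v + h v := by
    intro v u hv hu
    have hne : v ≠ u := fun e => hu (e ▸ hv)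
    refine L_reach (hpos v).2 (hpos v).1 ((hadj v u hne).1 ((SimpleGraph.compl_adj _ _ _).2
      ⟨hne, fun ha => hu ?_⟩))
    rw [← hv]
    exact (P3_comp _ _ (fold_adj P3 k ha)).symm
  have long : ∀ v u, cp v = j → x u ≤ x v + w v ∧ y u ≤ y v + h v := fun v u hv =>
    ⟨(hz u).trans (far v z hv hj1).1, (hz' u).trans (far v z' hv hj2).2⟩
  have dom : ∀ u v, cp u = j → cp v = j → ((evenSub P3 k).Adj u v ↔
      ((x u < x v ∧ y u < y v) ∨ (x v < x u ∧ y v < y u))) := by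
    intro u v hu hv
    by_cases hne : u = v
    · subst hne; simp
    have := hadj u v hne
    rw [L_meet (long u v hu).1 (long u v hu).2 (long v u hv).1 (long v u hv).2 (hpos u).1
      (hpos u).2 (hpos v).1 (hpos v).2, SimpleGraph.compl_adj] at this
    tauto
  let col : SubV P3 k → Prop := fun v => ∃ u, cp u = j ∧ x v < x u ∧ y v < y u
  have half : ∀ u v, cp u = j → cp v = j → x u < x v → y u < y v → col u ∧ ¬ col v := by
    intro u v hu hv h1 h2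
    refine ⟨⟨v, hv, h1, h2⟩, ?_⟩
    rintro ⟨t, ht, h3, h4⟩
    exact P3_tri _ _ (fold_adj P3 k ((dom u v hu hv).2 (Or.inl ⟨h1, h2⟩))) _
      (fold_adj P3 k ((dom v t hv ht).2 (Or.inl ⟨h3, h4⟩)))
      (fold_adj P3 k ((dom u t hu ht).2 (Or.inl ⟨h1.trans h3, h2.trans h4⟩)))
  have proper : ∀ u v, cp u = j → cp v = j → (evenSub P3 k).Adj u v → (col u ↔ ¬ col v) := by
    intro u v hu hv ha
    rcases (dom u v hu hv).1 ha with ⟨h1, h2⟩ | ⟨h1, h2⟩
    · exact iff_of_true (half u v hu hv h1 h2).1 (half u v hu hv h1 h2).2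
    · exact iff_of_false (half v u hv hu h1 h2).2 (not_not.2 (half v u hv hu h1 h2).1)
  have edge : ∀ a b : Fin 15, a.1 / 5 = j → a < b → P3.Adj a b →
      (col (Sum.inl a) ↔ ¬ col (Sum.inl b)) := by
    intro a b ha hab hA
    let e : Edge P3 := ⟨(a, b), hab, hA⟩
    have hc : ∀ i, i ≤ 2 * k e + 1 → cp (pt P3 k e i) = j := by
      intro i hi
      simp only [cp]
      rw [fold_pt P3 k e i hi]
      split_ifs
      · exact ha
      · exact (P3_comp _ _ hA).symm.trans ha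
    have ind : ∀ i, i ≤ 2 * k e + 1 → (col (pt P3 k e i) ↔ (col (Sum.inl a) ↔ i % 2 = 0)) := by
      intro i
      induction i with
      | zero => intro _; simp [pt, e]
      | succ i ih =>
        intro hi
        have h1 := ih (by omega)
        have h2 := proper _ _ (hc i (by omega)) (hc (i + 1) hi) (adj_step P3 k e i (by omega))
        have h3 : (i + 1) % 2 = 0 ↔ ¬ i % 2 = 0 := by omega
        exact pr1 h1 h2 h3
    have h1 := ind (2 * k e + 1) le_rfl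
    have h2 : pt P3 k e (2 * k e + 1) = Sum.inl b := by simp [pt, e]
    have h3 : ¬ (2 * k e + 1) % 2 = 0 := by omega
    rw [h2] at h1
    exact pr2 h1 h3
  obtain ⟨a, b, c, d, e, ha, hb, hc, hd, l1, l2, l3, l4, l5, e1, e2, e3, e4, e5⟩ := odd5 j
  exact pr3 (edge a b ha l1 e1) (edge b c hb l2 e2) (edge c d hc l3 e3) (edge d e hd l4 e4)
    (edge a e ha l5 e5)

end Pool.Agent.H24.Lsh
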