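import Mathlib

set_option autoImplicit false

namespace Pool.Agent.H24.Lsh

/-- A straight-line plane drawing: distinct points for the vertices, no vertex on an edge other
than its ends, and the segments of two different edges meet only at a common end vertex. -/
def PlaneDrawn {n : ℕ} (G : SimpleGraph (Fin n)) : Prop :=
  ∃ p : Fin n → ℝ × ℝ, Function.Injective p ∧
    (∀ a b v, G.Adj a b → p v ∈ segment ℝ (p a) (p b) → v = a ∨ v = b) ∧
    ∀ a b c d, G.Adj a b → G.Adj c d →
      ∀ x ∈ segment ℝ (p a) (p b), x ∈ segment ℝ (p c) (p d) →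
        s(a, b) = s(c, d) ∨ ∃ v, (v = a ∨ v = b) ∧ (v = c ∨ v = d) ∧ x = p v

/-- The edges of `G`, each written once as a pair `(u, v)` with `u < v`. -/
abbrev Edge {n : ℕ} (G : SimpleGraph (Fin n)) : Type :=
  {e : Fin n × Fin n // e.1 < e.2 ∧ G.Adj e.1 e.2}

/-- The vertices of the subdivision with `2 * k e` new vertices on the edge `e`. -/
abbrev SubV {n : ℕ} (G : SimpleGraph (Fin n)) (k : Edge G → ℕ) : Type :=
  Fin n ⊕ (Σ e : Edge G, Fin (2 * k e))

/-- The `i`-th vertex, `0 ≤ i ≤ 2 * k e + 1`, of the path that replaces the edge `e = (u, v)`: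
it starts at `u`, runs through the new vertices of `e` in order and ends at `v`. -/
def pt {n : ℕ} (G : SimpleGraph (Fin n)) (k : Edge G → ℕ) (e : Edge G) (i : ℕ) : SubV G k :=
  if i = 0 then Sum.inl e.1.1
  else if h : i - 1 < 2 * k e then Sum.inr ⟨e, ⟨i - 1, h⟩⟩ else Sum.inl e.1.2

/-- The even subdivision of `G` in which the edge `e` gets `2 * k e` new vertices. -/
def evenSub {n : ℕ} (G : SimpleGraph (Fin n)) (k : Edge G → ℕ) : SimpleGraph (SubV G k) :=
  SimpleGraph.fromRel fun x y => ∃ e i, i ≤ 2 * k e ∧ x = pt G k e i ∧ y = pt G k e (i + 1)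

/-- The L-shape with corner `(x, y)`, vertical arm of length `h` going up and horizontal arm of
length `w` going right. -/
def lShape (x y h w : ℝ) : Set (ℝ × ℝ) :=
  {p | p.1 = x ∧ y ≤ p.2 ∧ p.2 ≤ y + h} ∪ {p | p.2 = y ∧ x ≤ p.1 ∧ p.1 ≤ x + w}

/-- Intersection graphs of L-shapes. -/
def IsLGraph {W : Type} (H : SimpleGraph W) : Prop :=
  ∃ x y h w : W → ℝ, (∀ v, 0 < h v ∧ 0 < w v) ∧ ∀ u v, u ≠ v →
    (H.Adj u v ↔ (lShape (x u) (y u) (h u) (w u) ∩ lShape (x v) (y v) (h v) (w v)).Nonempty)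

/-- The grid points of the grid path from `(a, y)` horizontally to `(x, y)` and then vertically
to `(x, b)`. -/
def bendPath (x y a b : ℤ) : Set (ℤ × ℤ) :=
  {p | p.2 = y ∧ p.1 ∈ Set.uIcc x a} ∪ {p | p.1 = x ∧ p.2 ∈ Set.uIcc y b}

/-- Graphs of grid paths with at most one bend (and at least one grid edge), two vertices being
adjacent exactly when their paths share a grid point. -/
def IsB1VPG {W : Type} (H : SimpleGraph W) : Prop :=
  ∃ x y a b : W → ℤ, (∀ v, a v ≠ x v ∨ b v ≠ y v) ∧ ∀ u v, u ≠ v →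
    (H.Adj u v ↔ (bendPath (x u) (y u) (a u) (b u) ∩ bendPath (x v) (y v) (a v) (b v)).Nonempty)

end Pool.Agent.H24.Lsh
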