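import Mathlib

set_option autoImplicit false

namespace Pool.Agent.H24.Mod

/-- Types of rank `k` of binary words. -/
def Ty : ℕ → Type
  | 0 => Option Bool
  | k + 1 => Set (Ty k × Ty k)

instance instFinTy : ∀ k, Finite (Ty k)
  | 0 => (inferInstance : Finite (Option Bool))
  | k + 1 => by
    have := instFinTy k
    exact (inferInstance : Finite (Set (Ty k × Ty k)))

def tp : ∀ k, List Bool → Ty k
  | 0, w => w.head?
  | k + 1, w => ({z | ∃ a b, w = a ++ b ∧ z = (tp k a, tp k b)} : Set (Ty k × Ty k))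

lemma tp_split {k : ℕ} {w w' : List Bool} (h : tp (k + 1) w = tp (k + 1) w') {a b : List Bool}
    (e : w = a ++ b) : ∃ a' b', w' = a' ++ b' ∧ tp k a = tp k a' ∧ tp k b = tp k b' := by
  have h' : ({z | ∃ a b, w = a ++ b ∧ z = (tp k a, tp k b)} : Set (Ty k × Ty k)) =
      {z | ∃ a b, w' = a ++ b ∧ z = (tp k a, tp k b)} := h
  have : (tp k a, tp k b) ∈ ({z | ∃ a b, w = a ++ b ∧ z = (tp k a, tp k b)} : Set (Ty k × Ty k)) :=
    ⟨a, b, e, rfl⟩
  rw [h'] at this
  obtain ⟨a', b', e', hz⟩ := this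
  exact ⟨a', b', e', congrArg Prod.fst hz, congrArg Prod.snd hz⟩

lemma tp_ext {k : ℕ} {w w' : List Bool}
    (h1 : ∀ a b, w = a ++ b → ∃ a' b', w' = a' ++ b' ∧ tp k a = tp k a' ∧ tp k b = tp k b')
    (h2 : ∀ a b, w' = a ++ b → ∃ a' b', w = a' ++ b' ∧ tp k a = tp k a' ∧ tp k b = tp k b') :
    tp (k + 1) w = tp (k + 1) w' := by
  show ({z | ∃ a b, w = a ++ b ∧ z = (tp k a, tp k b)} : Set (Ty k × Ty k)) =
      {z | ∃ a b, w' = a ++ b ∧ z = (tp k a, tp k b)}
  ext z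
  constructor
  · rintro ⟨a, b, e, rfl⟩
    obtain ⟨a', b', e', p, q⟩ := h1 a b e
    exact ⟨a', b', e', by rw [p, q]⟩
  · rintro ⟨a, b, e, rfl⟩
    obtain ⟨a', b', e', p, q⟩ := h2 a b e
    exact ⟨a', b', e', by rw [p, q]⟩

lemma tp_nil : ∀ {k : ℕ} {w : List Bool}, tp k w = tp k [] → w = []
  | 0, w, h => by
    have : w.head? = none := h
    simpa using this
  | k + 1, w, h => by
    obtain ⟨a', b', e, -, q⟩ := tp_split h (a := []) (b := w) rfl
    have : b' = [] := by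
      have := congrArg List.length e
      simp at this
      exact List.length_eq_zero_iff.1 (by omega)
    subst this
    exact tp_nil q

lemma tp_succ {k : ℕ} {w w' : List Bool} (h : tp (k + 1) w = tp (k + 1) w') : tp k w = tp k w' := by
  obtain ⟨a', b', e, p, q⟩ := tp_split h (a := w) (b := []) (by simp)
  have := tp_nil q.symm
  subst this
  simp at e
  rw [p, e]

lemma tp_head : ∀ {k : ℕ} {w w' : List Bool}, tp k w = tp k w' → w.head? = w'.head?
  | 0, _, _, h => h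
  | _ + 1, _, _, h => tp_head (tp_succ h)

lemma tp_append : ∀ {k : ℕ} {a a' b b' : List Bool}, tp k a = tp k a' → tp k b = tp k b' →
    tp k (a ++ b) = tp k (a' ++ b')
  | 0, a, a', b, b', h1, h2 => by
    have h1 : a.head? = a'.head? := h1
    have h2 : b.head? = b'.head? := h2
    show (a ++ b).head? = (a' ++ b').head?
    simp [List.head?_append, h1, h2]
  | k + 1, a, a', b, b', h1, h2 => by
    have key : ∀ {a a' b b' : List Bool}, tp (k + 1) a = tp (k + 1) a' →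
        tp (k + 1) b = tp (k + 1) b' → ∀ c d, a ++ b = c ++ d →
        ∃ c' d', a' ++ b' = c' ++ d' ∧ tp k c = tp k c' ∧ tp k d = tp k d' := by
      intro a a' b b' h1 h2 c d e
      rcases List.append_eq_append_iff.1 e with ⟨m, e1, e2⟩ | ⟨m, e1, e2⟩
      · obtain ⟨m', d', e3, p, q⟩ := tp_split h2 e2
        refine ⟨a' ++ m', d', by rw [e3, List.append_assoc], ?_, q⟩
        rw [e1]; exact tp_append (tp_succ h1) p
      · obtain ⟨c', m', e3, p, q⟩ := tp_split h1 e1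
        refine ⟨c', m' ++ b', by rw [e3, List.append_assoc], p, ?_⟩
        rw [e2]; exact tp_append q (tp_succ h2)
    exact tp_ext (key h1 h2) (key h1.symm h2.symm)

def st (k : ℕ) : Setoid (List Bool) := Setoid.ker (tp k)

/-- The finite monoid of rank `k` types. -/
def M (k : ℕ) : Type := Quotient (st k)

def mk (k : ℕ) (w : List Bool) : M k := Quotient.mk (st k) w

lemma mk_eq {k : ℕ} {w w' : List Bool} : mk k w = mk k w' ↔ tp k w = tp k w' :=
  Quotient.eq (r := st k)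

lemma mk_surj {k : ℕ} (m : M k) : ∃ w, mk k w = m := Quotient.exists_rep m

instance (k : ℕ) : Finite (M k) :=
  Finite.of_injective (Quotient.lift (s := st k) (tp k) (fun _ _ h => h)) (by
    intro x y
    obtain ⟨a, rfl⟩ := mk_surj x
    obtain ⟨b, rfl⟩ := mk_surj y
    exact fun h => mk_eq.2 h)

instance (k : ℕ) : Mul (M k) :=
  ⟨Quotient.map₂ (sa := st k) (sb := st k) (sc := st k) (· ++ ·) (fun _ _ h _ _ h' => tp_append h h')⟩

instance (k : ℕ) : One (M k) := ⟨mk k []⟩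

lemma mk_append (k : ℕ) (a b : List Bool) : mk k (a ++ b) = mk k a * mk k b := rfl
lemma mk_nil (k : ℕ) : mk k [] = 1 := rfl

instance (k : ℕ) : Monoid (M k) where
  mul_assoc x y z := by
    obtain ⟨a, rfl⟩ := mk_surj x
    obtain ⟨b, rfl⟩ := mk_surj y
    obtain ⟨c, rfl⟩ := mk_surj z
    simp only [← mk_append, List.append_assoc]
  one_mul x := by
    obtain ⟨a, rfl⟩ := mk_surj x
    rw [← mk_nil, ← mk_append, List.nil_append]
  mul_one x := by
    obtain ⟨a, rfl⟩ := mk_surj x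
    rw [← mk_nil, ← mk_append, List.append_nil]

def pr {k : ℕ} : M (k + 1) → M k :=
  Quotient.map (sa := st (k + 1)) (sb := st k) id (fun _ _ h => tp_succ h)

lemma pr_mk (k : ℕ) (w : List Bool) : pr (mk (k + 1) w) = mk k w := rfl

lemma pr_mul {k : ℕ} (x y : M (k + 1)) : pr (x * y) = pr x * pr y := by
  obtain ⟨a, rfl⟩ := mk_surj x
  obtain ⟨b, rfl⟩ := mk_surj y
  rfl

lemma mk_eq_one {k : ℕ} {w : List Bool} : mk k w = 1 ↔ w = [] :=
  ⟨fun h => tp_nil (mk_eq.1 h), fun h => h ▸ rfl⟩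

lemma one_of_mul {k : ℕ} {x y : M k} (h : x * y = 1) : x = 1 ∧ y = 1 := by
  obtain ⟨a, rfl⟩ := mk_surj x
  obtain ⟨b, rfl⟩ := mk_surj y
  rw [← mk_append, mk_eq_one] at h
  simp at h
  exact ⟨mk_eq_one.2 h.1, mk_eq_one.2 h.2⟩

def hd {k : ℕ} : M k → Option Bool :=
  Quotient.lift (s := st k) List.head? (fun _ _ h => tp_head h)

lemma hd_mk (k : ℕ) (w : List Bool) : hd (mk k w) = w.head? := rfl

lemma hd_pr {k : ℕ} (x : M (k + 1)) : hd (pr x) = hd x := by
  obtain ⟨a, rfl⟩ := mk_surj x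
  rfl

def Dec (k : ℕ) (h : M (k + 1)) (p q : M k) : Prop :=
  ∃ a b, mk (k + 1) (a ++ b) = h ∧ mk k a = p ∧ mk k b = q

lemma dec_mk {k : ℕ} {w : List Bool} {p q : M k} (h : Dec k (mk (k + 1) w) p q) :
    ∃ a b, w = a ++ b ∧ mk k a = p ∧ mk k b = q := by
  obtain ⟨a, b, e, rfl, rfl⟩ := h
  obtain ⟨a', b', e', h1, h2⟩ := tp_split (mk_eq.1 e) rfl
  exact ⟨a', b', e', mk_eq.2 h1.symm, mk_eq.2 h2.symm⟩

lemma dec_pr {k : ℕ} (x y : M (k + 1)) : Dec k (x * y) (pr x) (pr y) := by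
  obtain ⟨a, rfl⟩ := mk_surj x
  obtain ⟨b, rfl⟩ := mk_surj y
  exact ⟨a, b, rfl, rfl, rfl⟩

lemma dec_mul {k : ℕ} {x y : M (k + 1)} {p q : M k} (h : Dec k (x * y) p q) :
    (∃ q1, Dec k x p q1 ∧ q = q1 * pr y) ∨ (∃ p1, Dec k y p1 q ∧ p = pr x * p1) := by
  obtain ⟨a, rfl⟩ := mk_surj x
  obtain ⟨b, rfl⟩ := mk_surj y
  rw [← mk_append] at h
  obtain ⟨c, d, e, rfl, rfl⟩ := dec_mk h
  rcases List.append_eq_append_iff.1 e with ⟨m, e1, e2⟩ | ⟨m, e1, e2⟩
  · right
    exact ⟨mk k m, ⟨m, d, by rw [e2], rfl, rfl⟩, by rw [e1]; rfl⟩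
  · left
    exact ⟨mk k m, ⟨c, m, by rw [e1], rfl, rfl⟩, by rw [e2]; rfl⟩

lemma dec_right {k : ℕ} {x : M (k + 1)} (y : M (k + 1)) {p q : M k} (h : Dec k x p q) :
    Dec k (x * y) p (q * pr y) := by
  obtain ⟨b, rfl⟩ := mk_surj y
  obtain ⟨c, d, rfl, rfl, rfl⟩ := h
  exact ⟨c, d ++ b, by rw [← List.append_assoc]; rfl, rfl, rfl⟩

lemma dec_left {k : ℕ} {y : M (k + 1)} (x : M (k + 1)) {p q : M k} (h : Dec k y p q) :
    Dec k (x * y) (pr x * p) q := by
  obtain ⟨a, rfl⟩ := mk_surj x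
  obtain ⟨c, d, rfl, rfl, rfl⟩ := h
  exact ⟨a ++ c, d, by rw [List.append_assoc]; rfl, rfl, rfl⟩

lemma stabR {N : Type} [Monoid N] [Finite N] {a p b q : N} (h : a = p * a * (b * q)) :
    ∃ r, a = a * b * r := by
  have h1 : ∀ n : ℕ, a = p ^ n * a * (b * q) ^ n := by
    intro n
    induction n with
    | zero => simp
    | succ n ih =>
      calc a = p * a * (b * q) := h
        _ = p * (p ^ n * a * (b * q) ^ n) * (b * q) := by rw [← ih]
        _ = _ := by rw [pow_succ' p, pow_succ (b * q)]; simp only [mul_assoc]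
  have key : ∀ i j : ℕ, i < j → (b * q) ^ i = (b * q) ^ j → ∃ r, a = a * b * r := by
    intro i j hij e
    obtain ⟨d, rfl⟩ := Nat.exists_eq_add_of_lt hij
    refine ⟨q * (b * q) ^ d, ?_⟩
    calc a = p ^ i * a * (b * q) ^ i := h1 i
      _ = p ^ i * a * (b * q) ^ i * (b * q) ^ (d + 1) := by
        rw [mul_assoc (p ^ i * a), ← pow_add, ← add_assoc, ← e]
      _ = a * (b * q) ^ (d + 1) := by rw [← h1 i]
      _ = _ := by rw [pow_succ']; simp only [mul_assoc]
  obtain ⟨i, j, hne, e⟩ := Finite.exists_ne_map_eq_of_infinite (fun n : ℕ => (b * q) ^ n)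
  rcases lt_or_gt_of_ne hne with h | h
  · exact key i j h e
  · exact key j i h e.symm

lemma stabL {N : Type} [Monoid N] [Finite N] {a p b q : N} (h : a = (p * b) * a * q) :
    ∃ l, a = l * b * a := by
  have : Finite Nᵐᵒᵖ := Finite.of_equiv N MulOpposite.opEquiv
  have := stabR (N := Nᵐᵒᵖ) (a := MulOpposite.op a) (p := MulOpposite.op q) (b := MulOpposite.op b)
    (q := MulOpposite.op p) (by
      simp only [← MulOpposite.op_mul]
      congr 1
      rw [← mul_assoc]; exact h)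
  obtain ⟨r, hr⟩ := this
  refine ⟨r.unop, ?_⟩
  have := congrArg MulOpposite.unop hr
  simpa [mul_assoc] using this

end Pool.Agent.H24.Mod
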