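import Pool.Agent.H24.Mod1

set_option autoImplicit false

namespace Pool.Agent.H24.Mod
open FirstOrder FirstOrder.Language

/-- A rich system: a linear order of cuts with prescribed types of segments. -/
structure RS (P : Type) where
  le : P → P → Prop
  bot : P
  top : P
  θ : ∀ k, P → P → M k
  total : ∀ x y, le x y ∨ le y x
  trans : ∀ x y z, le x y → le y z → le x z
  anti : ∀ x y, le x y → le y x → x = y
  bot_le : ∀ x, le bot x
  le_top : ∀ x, le x top
  compat : ∀ k x y, le x y → pr (θ (k + 1) x y) = θ k x y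
  mul : ∀ k x y z, le x y → le y z → θ k x z = θ k x y * θ k y z
  refl : ∀ k x, θ k x x = 1
  ne : ∀ k x y, le x y → θ k x y = 1 → x = y
  rich : ∀ k x z p q, le x z → Dec k (θ (k + 1) x z) p q →
    ∃ y, le x y ∧ le y z ∧ θ k x y = p ∧ θ k y z = q

lemma RS.rfl' {P : Type} (S : RS P) (x : P) : S.le x x := (S.total x x).elim id id

def Good {P P' : Type} (S : RS P) (S' : RS P') (k : ℕ) (R : Set (P × P')) : Prop :=
  ∀ a ∈ R, ∀ b ∈ R, (S.le a.1 b.1 ↔ S'.le a.2 b.2) ∧ (S.le a.1 b.1 → S.θ k a.1 b.1 = S'.θ k a.2 b.2)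

lemma Good.down {P P' : Type} {S : RS P} {S' : RS P'} {k : ℕ} {R : Set (P × P')}
    (h : Good S S' (k + 1) R) : Good S S' k R := by
  intro a ha b hb
  obtain ⟨h1, h2⟩ := h a ha b hb
  refine ⟨h1, fun hl => ?_⟩
  rw [← S.compat k _ _ hl, ← S'.compat k _ _ (h1.1 hl), h2 hl]

lemma Good.mono {P P' : Type} {S : RS P} {S' : RS P'} {k j : ℕ} {R : Set (P × P')}
    (h : Good S S' k R) (hj : j ≤ k) : Good S S' j R := by
  induction hj with
  | refl => exact h
  | step _ ih => exact ih h.down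

lemma Good.swap {P P' : Type} {S : RS P} {S' : RS P'} {k : ℕ} {R : Set (P × P')}
    (h : Good S S' k R) : Good S' S k (Prod.swap '' R) := by
  rintro _ ⟨a, ha, rfl⟩ _ ⟨b, hb, rfl⟩
  obtain ⟨h1, h2⟩ := h a ha b hb
  exact ⟨h1.symm, fun hl => (h2 (h1.2 hl)).symm⟩

lemma exists_max {α P : Type} (S : RS P) (f : α → P) {R : Set α} (hR : R.Finite) (hne : R.Nonempty) :
    ∃ a ∈ R, ∀ b ∈ R, S.le (f b) (f a) := by
  induction R, hR using Set.Finite.induction_on with
  | empty => exact absurd hne (by simp)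
  | @insert c R _ _ ih =>
    rcases R.eq_empty_or_nonempty with rfl | hn
    · exact ⟨c, by simp, by simp [S.rfl']⟩
    · obtain ⟨a, ha, hm⟩ := ih hn
      rcases S.total (f c) (f a) with h | h
      · refine ⟨a, by simp [ha], ?_⟩
        rintro b (rfl | hb)
        exacts [h, hm b hb]
      · refine ⟨c, by simp, ?_⟩
        rintro b (rfl | hb)
        exacts [S.rfl' _, S.trans _ _ _ (hm b hb) h]

lemma exists_min {α P : Type} (S : RS P) (f : α → P) {R : Set α} (hR : R.Finite) (hne : R.Nonempty) :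
    ∃ a ∈ R, ∀ b ∈ R, S.le (f a) (f b) := by
  induction R, hR using Set.Finite.induction_on with
  | empty => exact absurd hne (by simp)
  | @insert c R _ _ ih =>
    rcases R.eq_empty_or_nonempty with rfl | hn
    · exact ⟨c, by simp, by simp [S.rfl']⟩
    · obtain ⟨a, ha, hm⟩ := ih hn
      rcases S.total (f a) (f c) with h | h
      · refine ⟨a, by simp [ha], ?_⟩
        rintro b (rfl | hb)
        exacts [h, hm b hb]
      · refine ⟨c, by simp, ?_⟩
        rintro b (rfl | hb)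
        exacts [S.rfl' _, S.trans _ _ _ h (hm b hb)]

lemma Good.ext {P P' : Type} {S : RS P} {S' : RS P'} {k : ℕ} {R : Set (P × P')}
    (h : Good S S' (k + 1) R) (hR : R.Finite) (hb : (S.bot, S'.bot) ∈ R) (ht : (S.top, S'.top) ∈ R)
    (u : P) : ∃ u', Good S S' k (insert (u, u') R) := by
  obtain ⟨a, ⟨ha, hau⟩, hamax⟩ := exists_max S Prod.fst (R := {a ∈ R | S.le a.1 u})
    (hR.subset (fun _ h => h.1)) ⟨_, hb, S.bot_le _⟩
  obtain ⟨b, ⟨hb', hub⟩, hbmin⟩ := exists_min S Prod.fst (R := {a ∈ R | S.le u a.1})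
    (hR.subset (fun _ h => h.1)) ⟨_, ht, S.le_top _⟩
  have hab := S.trans _ _ _ hau hub
  have hd : Dec k (S.θ (k + 1) a.1 b.1) (S.θ k a.1 u) (S.θ k u b.1) := by
    rw [S.mul _ _ _ _ hau hub, ← S.compat k _ _ hau, ← S.compat k _ _ hub]
    exact dec_pr _ _
  rw [(h a ha b hb').2 hab] at hd
  obtain ⟨u', h1, h2, h3, h4⟩ := S'.rich k _ _ _ _ ((h a ha b hb').1.1 hab) hd
  have g := h.down
  have A : ∀ c ∈ R, S.le c.1 u → S'.le c.2 u' ∧ S.θ k c.1 u = S'.θ k c.2 u' := by
    intro c hc hl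
    have e := hamax c ⟨hc, hl⟩
    have e' := (g c hc a ha).1.1 e
    refine ⟨S'.trans _ _ _ e' h1, ?_⟩
    rw [S.mul _ _ _ _ e hau, S'.mul _ _ _ _ e' h1, h3, (g c hc a ha).2 e]
  have B : ∀ c ∈ R, S.le u c.1 → S'.le u' c.2 ∧ S.θ k u c.1 = S'.θ k u' c.2 := by
    intro c hc hl
    have e := hbmin c ⟨hc, hl⟩
    have e' := (g b hb' c hc).1.1 e
    refine ⟨S'.trans _ _ _ h2 e', ?_⟩
    rw [S.mul _ _ _ _ hub e, S'.mul _ _ _ _ h2 e', h4, (g b hb' c hc).2 e]
  refine ⟨u', ?_⟩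
  rintro c (rfl | hc) d (rfl | hd')
  · exact ⟨⟨fun _ => S'.rfl' _, fun _ => S.rfl' _⟩, fun _ => by simp [S.refl, S'.refl]⟩
  · refine ⟨⟨fun hl => (B d hd' hl).1, fun hl => ?_⟩, fun hl => (B d hd' hl).2⟩
    rcases S.total u d.1 with e | e
    · exact e
    · obtain ⟨e1, e2⟩ := A d hd' e
      have := S'.anti _ _ hl e1
      simp only at this
      rw [← this, S'.refl] at e2
      rw [S.ne _ _ _ e e2]; exact S.rfl' _
  · refine ⟨⟨fun hl => (A c hc hl).1, fun hl => ?_⟩, fun hl => (A c hc hl).2⟩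
    rcases S.total c.1 u with e | e
    · exact e
    · obtain ⟨e1, e2⟩ := B c hc e
      have := S'.anti _ _ hl e1
      simp only at this
      rw [this, S'.refl] at e2
      rw [← S.ne _ _ _ e e2]; exact S.rfl' _
  · exact g c hc d hd'

section
variable {L : FirstOrder.Language.{0, 0}} (lt : L.Relations 2) (col : L.Relations 1)

structure Fits {P : Type} (S : RS P) {X : Type} [L.Structure X] (ι : X → P) : Prop where
  inj : Function.Injective ι
  surj : ∀ u, u ≠ S.top ↔ ∃ x, ι x = u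
  lt : ∀ x y, Structure.RelMap lt ![x, y] ↔ (S.le (ι x) (ι y) ∧ ¬ S.le (ι y) (ι x))
  col : ∀ x, Structure.RelMap col ![x] ↔ hd (S.θ 0 (ι x) S.top) = some true

structure Sig : Prop where
  hf : ∀ n, IsEmpty (L.Functions n)
  h2 : ∀ r : L.Relations 2, r = lt
  h1 : ∀ r : L.Relations 1, r = col
  hr : ∀ n, n ≠ 1 → n ≠ 2 → IsEmpty (L.Relations n)

variable {lt col}

lemma term_var (hs : Sig lt col) {β : Type} (t : L.Term β) : ∃ i, t = Term.var i := by
  cases t with
  | var i => exact ⟨i, rfl⟩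
  | func f _ => exact ((hs.hf _).false f).elim

theorem inv (hs : Sig lt col) {α : Type} {n : ℕ} (φ : L.BoundedFormula α n) :
    ∃ k, ∀ (P P' X X' : Type) [L.Structure X] [L.Structure X'] (S : RS P) (S' : RS P')
      (ι : X → P) (ι' : X' → P'), Fits lt col S ι → Fits lt col S' ι' →
      ∀ (R : Set (P × P')), R.Finite → (S.bot, S'.bot) ∈ R → (S.top, S'.top) ∈ R → Good S S' k R →
      ∀ (v : α → X) (v' : α → X') (xs : Fin n → X) (xs' : Fin n → X'),
      (∀ i, (ι (v i), ι' (v' i)) ∈ R) → (∀ i, (ι (xs i), ι' (xs' i)) ∈ R) →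
      (φ.Realize v xs ↔ φ.Realize v' xs') := by
  induction φ with
  | falsum => exact ⟨0, fun _ _ _ _ _ _ _ _ _ _ _ _ _ _ _ _ _ _ _ _ _ _ _ => Iff.rfl⟩
  | equal t1 t2 =>
    refine ⟨0, ?_⟩
    intro P P' X X' _ _ S S' ι ι' F F' R _ _ _ g v v' xs xs' hv hx
    obtain ⟨i, rfl⟩ := term_var hs t1
    obtain ⟨j, rfl⟩ := term_var hs t2
    have hm : ∀ i, (ι (Sum.elim v xs i), ι' (Sum.elim v' xs' i)) ∈ R := by
      rintro (i | i)
      exacts [hv i, hx i]
    show Sum.elim v xs i = Sum.elim v xs j ↔ Sum.elim v' xs' i = Sum.elim v' xs' j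
    have h1 := (g _ (hm i) _ (hm j)).1
    have h2 := (g _ (hm j) _ (hm i)).1
    simp only at h1 h2
    constructor
    · intro e
      rw [e] at h1 h2
      exact F'.inj (S'.anti _ _ (h1.1 (S.rfl' _)) (h2.1 (S.rfl' _)))
    · intro e
      rw [e] at h1 h2
      exact F.inj (S.anti _ _ (h1.2 (S'.rfl' _)) (h2.2 (S'.rfl' _)))
  | @rel n l r ts =>
    refine ⟨0, ?_⟩
    intro P P' X X' _ _ S S' ι ι' F F' R _ _ ht g v v' xs xs' hv hx
    have hm : ∀ i, (ι (Sum.elim v xs i), ι' (Sum.elim v' xs' i)) ∈ R := by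
      rintro (i | i)
      exacts [hv i, hx i]
    choose f hf using fun i => term_var hs (ts i)
    have e : ts = fun i => Term.var (f i) := funext hf
    subst e
    show Structure.RelMap r (fun i => Sum.elim v xs (f i)) ↔
      Structure.RelMap r (fun i => Sum.elim v' xs' (f i))
    by_cases h1 : l = 1
    · subst h1
      rw [hs.h1 r]
      have e1 : (fun i => Sum.elim v xs (f i)) = ![Sum.elim v xs (f 0)] := by
        funext i; fin_cases i; rfl
      have e2 : (fun i => Sum.elim v' xs' (f i)) = ![Sum.elim v' xs' (f 0)] := by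
        funext i; fin_cases i; rfl
      rw [e1, e2, F.col, F'.col]
      have := (g _ (hm (f 0)) _ ht).2 (S.le_top _)
      simp only at this
      rw [this]
    by_cases h2 : l = 2
    · subst h2
      rw [hs.h2 r]
      have e1 : (fun i => Sum.elim v xs (f i)) = ![Sum.elim v xs (f 0), Sum.elim v xs (f 1)] := by
        funext i; fin_cases i <;> rfl
      have e2 : (fun i => Sum.elim v' xs' (f i)) =
          ![Sum.elim v' xs' (f 0), Sum.elim v' xs' (f 1)] := by
        funext i; fin_cases i <;> rfl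
      rw [e1, e2, F.lt, F'.lt]
      have a1 := (g _ (hm (f 0)) _ (hm (f 1))).1
      have a2 := (g _ (hm (f 1)) _ (hm (f 0))).1
      simp only at a1 a2
      rw [a1, a2]
    exact ((hs.hr l h1 h2).false r).elim
  | imp φ ψ ih1 ih2 =>
    obtain ⟨k1, h1⟩ := ih1
    obtain ⟨k2, h2⟩ := ih2
    refine ⟨max k1 k2, ?_⟩
    intro P P' X X' _ _ S S' ι ι' F F' R hR hb ht g v v' xs xs' hv hx
    rw [BoundedFormula.realize_imp, BoundedFormula.realize_imp,
      h1 P P' X X' S S' ι ι' F F' R hR hb ht (g.mono (le_max_left _ _)) v v' xs xs' hv hx,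
      h2 P P' X X' S S' ι ι' F F' R hR hb ht (g.mono (le_max_right _ _)) v v' xs xs' hv hx]
  | @all n φ ih =>
    obtain ⟨k, h⟩ := ih
    refine ⟨k + 1, ?_⟩
    have key : ∀ (P P' X X' : Type) [L.Structure X] [L.Structure X'] (S : RS P) (S' : RS P')
      (ι : X → P) (ι' : X' → P'), Fits lt col S ι → Fits lt col S' ι' →
      ∀ (R : Set (P × P')), R.Finite → (S.bot, S'.bot) ∈ R → (S.top, S'.top) ∈ R →
      Good S S' (k + 1) R →
      ∀ (v : α → X) (v' : α → X') (xs : Fin n → X) (xs' : Fin n → X'),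
      (∀ i, (ι (v i), ι' (v' i)) ∈ R) → (∀ i, (ι (xs i), ι' (xs' i)) ∈ R) →
      (φ.all.Realize v' xs' → φ.all.Realize v xs) := by
      intro P P' X X' _ _ S S' ι ι' F F' R hR hb ht g v v' xs xs' hv hx H
      rw [BoundedFormula.realize_all] at H ⊢
      intro a
      obtain ⟨u', g'⟩ := g.ext hR hb ht (ι a)
      have hu : u' ≠ S'.top := by
        rintro rfl
        have := (g' _ (Or.inr ht) _ (Or.inl rfl)).1.2 (S'.rfl' _)
        exact ((F.surj (ι a)).2 ⟨a, rfl⟩) (S.anti _ _ (S.le_top _) this)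
      obtain ⟨a', rfl⟩ := (F'.surj u').1 hu
      refine (h P P' X X' S S' ι ι' F F' _ (hR.insert _) (Or.inr hb) (Or.inr ht) g' v v'
        (Fin.snoc xs a) (Fin.snoc xs' a') (fun i => Or.inr (hv i)) ?_).2 (H a')
      intro i
      refine Fin.lastCases ?_ (fun i => ?_) i
      · simp
      · simp [hx i]
    intro P P' X X' _ _ S S' ι ι' F F' R hR hb ht g v v' xs xs' hv hx
    refine ⟨key P' P X' X S' S ι' ι F' F _ (hR.image _) ⟨_, hb, rfl⟩ ⟨_, ht, rfl⟩ g.swap v' v xs' xs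
      (fun i => ⟨_, hv i, rfl⟩) (fun i => ⟨_, hx i, rfl⟩),
      key P P' X X' S S' ι ι' F F' R hR hb ht g v v' xs xs' hv hx⟩

theorem inv' (hs : Sig lt col) {α : Type} (φ : L.Formula α) :
    ∃ k, ∀ (P P' X X' : Type) [L.Structure X] [L.Structure X'] (S : RS P) (S' : RS P')
      (ι : X → P) (ι' : X' → P'), Fits lt col S ι → Fits lt col S' ι' →
      ∀ (R : Set (P × P')), R.Finite → (S.bot, S'.bot) ∈ R → (S.top, S'.top) ∈ R → Good S S' k R →
      ∀ (v : α → X) (v' : α → X'), (∀ i, (ι (v i), ι' (v' i)) ∈ R) →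
      (φ.Realize v ↔ φ.Realize v') := by
  obtain ⟨k, h⟩ := inv hs φ
  exact ⟨k, fun P P' X X' _ _ S S' ι ι' F F' R hR hb ht g v v' hv =>
    h P P' X X' S S' ι ι' F F' R hR hb ht g v v' default default hv (fun i => i.elim0)⟩

end

end Pool.Agent.H24.Mod
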