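import Pool.Agent.H24.Mod2

set_option autoImplicit false

namespace Pool.Agent.H24.Mod

inductive T : Type
  | x : T
  | g : ℕ → ℕ → T
  | lo : ℕ → List Bool → List Bool → T → T → T
  | hi : ℕ → List Bool → List Bool → T → T → T
  deriving Countable

def cl : T → Prop
  | .x => False
  | .g _ _ => True
  | .lo _ _ _ s t => cl s ∧ cl t
  | .hi _ _ _ s t => cl s ∧ cl t

abbrev T.bot : T := T.g 1 0
abbrev T.top : T := T.g 1 1

abbrev Ξ : Type := (T × T → Bool) × ((c : ℕ × T × T) → M c.1)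

def le (ω : Ξ) (s t : T) : Prop := ω.1 (s, t) = true
def th (ω : Ξ) (k : ℕ) (s t : T) : M k := ω.2 (k, s, t)

structure OK (ω : Ξ) : Prop where
  total : ∀ s t, le ω s t ∨ le ω t s
  trans : ∀ s t u, le ω s t → le ω t u → le ω s u
  bot_le : ∀ s, le ω T.bot s
  le_top : ∀ s, le ω s T.top
  x_lt : ¬ le ω T.top T.x
  compat : ∀ k s t, le ω s t → pr (th ω (k + 1) s t) = th ω k s t
  mul : ∀ k s t u, le ω s t → le ω t u → th ω k s u = th ω k s t * th ω k t u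
  one_iff : ∀ k s t, le ω s t → (th ω k s t = 1 ↔ le ω t s)
  lo_spec : ∀ k a b s t, le ω s t → Dec k (th ω (k + 1) s t) (mk k a) (mk k b) →
    le ω s (.lo k a b s t) ∧ le ω (.lo k a b s t) t ∧ th ω k s (.lo k a b s t) = mk k a ∧
      th ω k (.lo k a b s t) t = mk k b
  lo_min : ∀ k a b s t u, le ω s u → le ω u t → th ω k s u = mk k a → th ω k u t = mk k b →
    le ω (.lo k a b s t) u
  hi_spec : ∀ k a b s t, le ω s t → Dec k (th ω (k + 1) s t) (mk k a) (mk k b) →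
    le ω s (.hi k a b s t) ∧ le ω (.hi k a b s t) t ∧ th ω k s (.hi k a b s t) = mk k a ∧
      th ω k (.hi k a b s t) t = mk k b
  hi_max : ∀ k a b s t u, le ω s u → le ω u t → th ω k s u = mk k a → th ω k u t = mk k b →
    le ω u (.hi k a b s t)
  g_zero : ∀ m, le ω (.g m 0) T.bot
  g_top : ∀ m, le ω T.top (.g (m + 1) (m + 1))

lemma OK.rfl' {ω : Ξ} (h : OK ω) (s : T) : le ω s s := (h.total s s).elim id id

lemma OK.dec {ω : Ξ} (h : OK ω) (k : ℕ) {s t u : T} (h1 : le ω s t) (h2 : le ω t u) :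
    Dec k (th ω (k + 1) s u) (th ω k s t) (th ω k t u) := by
  rw [h.mul _ _ _ _ h1 h2, ← h.compat k _ _ h1, ← h.compat k _ _ h2]
  exact dec_pr _ _

lemma OK.thL {ω : Ξ} (h : OK ω) (k : ℕ) {s s' t : T} (h1 : le ω s s') (h2 : le ω s' s)
    (h3 : le ω s' t) : th ω k s t = th ω k s' t := by
  rw [h.mul _ _ _ _ h1 h3, (h.one_iff k _ _ h1).2 h2, one_mul]

lemma OK.thR {ω : Ξ} (h : OK ω) (k : ℕ) {s t t' : T} (h1 : le ω t t') (h2 : le ω t' t)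
    (h3 : le ω s t) : th ω k s t' = th ω k s t := by
  rw [h.mul _ _ _ _ h3 h1, (h.one_iff k _ _ h1).2 h2, mul_one]

structure OK1 (ω0 ω : Ξ) : Prop extends OK ω where
  ale : ∀ s t, cl s → cl t → (le ω s t ↔ le ω0 s t)
  ath : ∀ k s t, cl s → cl t → th ω k s t = th ω0 k s t

def Cut (ω : Ξ) (s : T) : T → Prop := fun g => cl g ∧ le ω g s

def J {k : ℕ} (a b : M k) : Prop := ∃ u v, a = u * b * v

def St (ω0 : Ξ) (k : ℕ) (C : T → Prop) (g h : T) : Prop :=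
  C g ∧ cl h ∧ ¬ C h ∧ ∀ g' h', C g' → cl h' → ¬ C h' → le ω0 g g' → le ω0 h' h →
    J (th ω0 k g' h') (th ω0 k g h)

def GoodCut (ω0 : Ξ) (C : T → Prop) : Prop :=
  ∀ k g h, St ω0 k C g h → (∃ g', C g' ∧ le ω0 g g' ∧ J (th ω0 k g g') (th ω0 k g h)) ∧
    (∃ h', cl h' ∧ ¬ C h' ∧ le ω0 h' h ∧ J (th ω0 k h' h) (th ω0 k g h))

section cuts
variable {ω0 ω : Ξ}

lemma OK1.cut_le (H : OK1 ω0 ω) {s g h : T} (hg : Cut ω s g) (hh : cl h) (hn : ¬ Cut ω s h) :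
    le ω0 g h ∧ ¬ le ω0 h g := by
  have h1 : ¬ le ω h s := fun e => hn ⟨hh, e⟩
  have h2 : le ω s h := (H.total s h).resolve_right h1
  rw [← H.ale _ _ hg.1 hh, ← H.ale _ _ hh hg.1]
  exact ⟨H.trans _ _ _ hg.2 h2, fun e => h1 (H.trans _ _ _ e hg.2)⟩

lemma OK1.cut_down (H : OK1 ω0 ω) {s g g' : T} (hg : Cut ω s g) (hh : cl g') (hl : le ω0 g' g) :
    Cut ω s g' := ⟨hh, H.trans _ _ _ ((H.ale _ _ hh hg.1).2 hl) hg.2⟩

lemma OK1.le_of_not (H : OK1 ω0 ω) {s h : T} (hh : cl h) (hn : ¬ Cut ω s h) : le ω s h :=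
  (H.total s h).resolve_right (fun e => hn ⟨hh, e⟩)

lemma OK1.AB (H : OK1 ω0 ω) (k : ℕ) {s g h : T} (hg : Cut ω s g) (hh : cl h) (hn : le ω s h) :
    th ω k g s * th ω k s h = th ω0 k g h := by
  rw [← H.mul _ _ _ _ hg.2 hn, H.ath _ _ _ hg.1 hh]

lemma OK1.Ain (H : OK1 ω0 ω) (k : ℕ) {s g g' : T} (hg : cl g) (hg' : Cut ω s g') (hl : le ω0 g g') :
    th ω k g s = th ω0 k g g' * th ω k g' s := by
  rw [← H.ath _ _ _ hg hg'.1, ← H.mul _ _ _ _ ((H.ale _ _ hg hg'.1).2 hl) hg'.2]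

lemma OK1.Bin (H : OK1 ω0 ω) (k : ℕ) {s h h' : T} (hh : cl h) (hh' : cl h') (hn : le ω s h')
    (hl : le ω0 h' h) : th ω k s h = th ω k s h' * th ω0 k h' h := by
  rw [← H.ath _ _ _ hh' hh, ← H.mul _ _ _ _ hn ((H.ale _ _ hh' hh).2 hl)]

lemma St.inner (H0 : OK ω0) (H : OK1 ω0 ω) {k : ℕ} {s g h g' h' : T} (hs : St ω0 k (Cut ω s) g h)
    (hg : Cut ω s g') (hh : cl h') (hn : ¬ Cut ω s h') (l1 : le ω0 g g') (l2 : le ω0 h' h) :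
    St ω0 k (Cut ω s) g' h' := by
  refine ⟨hg, hh, hn, fun g'' h'' a b c d e => ?_⟩
  obtain ⟨u, v, E⟩ := hs.2.2.2 g'' h'' a b c (H0.trans _ _ _ l1 d) (H0.trans _ _ _ e l2)
  have l3 := (H.cut_le hg hh hn).1
  rw [H0.mul k _ _ _ l1 (H0.trans _ _ _ l3 l2), H0.mul k _ _ _ l3 l2] at E
  exact ⟨u * th ω0 k g g', th ω0 k h' h * v, by rw [E]; simp only [mul_assoc]⟩

lemma St.down (H0 : OK ω0) (H : OK1 ω0 ω) {k : ℕ} {s g h : T} (hs : St ω0 (k + 1) (Cut ω s) g h) :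
    St ω0 k (Cut ω s) g h := by
  refine ⟨hs.1, hs.2.1, hs.2.2.1, fun g' h' a b c d e => ?_⟩
  obtain ⟨u, v, E⟩ := hs.2.2.2 g' h' a b c d e
  refine ⟨pr u, pr v, ?_⟩
  rw [← H0.compat k _ _ (H.cut_le a b c).1, ← H0.compat k _ _ (H.cut_le hs.1 hs.2.1 hs.2.2.1).1, E,
    pr_mul, pr_mul]

lemma St.exists (H0 : OK ω0) (H : OK1 ω0 ω) (k : ℕ) {s : T} (hs : ¬ le ω T.top s) :
    ∃ g h, St ω0 k (Cut ω s) g h := by
  classical
  let f : T × T → ℕ := fun z => Set.ncard {m | J m (th ω0 k z.1 z.2)}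
  let A : Set (T × T) := {z | Cut ω s z.1 ∧ cl z.2 ∧ ¬ Cut ω s z.2}
  have hne : (f '' A).Nonempty :=
    ⟨_, (T.bot, T.top), ⟨⟨trivial, H.bot_le _⟩, trivial, fun e => hs e.2⟩, rfl⟩
  have hb : BddAbove (f '' A) := by
    refine ⟨Set.ncard (Set.univ : Set (M k)), ?_⟩
    rintro _ ⟨z, -, rfl⟩
    exact Set.ncard_le_ncard (Set.subset_univ _)
  obtain ⟨⟨g, h⟩, ⟨a, b, c⟩, e⟩ := Nat.sSup_mem hne hb
  refine ⟨g, h, a, b, c, fun g' h' a' b' c' l1 l2 => ?_⟩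
  have hle : f (g', h') ≤ f (g, h) := e ▸ le_csSup hb ⟨(g', h'), ⟨a', b', c'⟩, rfl⟩
  have l3 := (H.cut_le a' b' c').1
  have hsub : {m | J m (th ω0 k g h)} ⊆ {m | J m (th ω0 k g' h')} := by
    rintro m ⟨u, v, E⟩
    rw [H0.mul k _ _ _ l1 (H0.trans _ _ _ l3 l2), H0.mul k _ _ _ l3 l2] at E
    exact ⟨u * th ω0 k g g', th ω0 k h' h * v, by rw [E]; simp only [mul_assoc]⟩
  have := Set.eq_of_subset_of_ncard_le hsub hle
  have h1 : th ω0 k g' h' ∈ {m | J m (th ω0 k g' h')} := ⟨1, 1, by simp⟩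
  rw [← this] at h1
  exact h1

lemma St.exists' (H0 : OK ω0) (H : OK1 ω0 ω) (k : ℕ) {s g h : T} (hg : Cut ω s g) (hh : cl h)
    (hn : ¬ Cut ω s h) : ∃ g' h', St ω0 k (Cut ω s) g' h' ∧ le ω0 g g' ∧ le ω0 h' h := by
  have ht : ¬ le ω T.top s := fun e => hn ⟨hh, H.trans _ _ _ (H.le_top _) e⟩
  obtain ⟨g1, h1, hs⟩ := St.exists H0 H k ht
  have : ∃ g', Cut ω s g' ∧ le ω0 g g' ∧ le ω0 g1 g' := by
    rcases H0.total g g1 with e | e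
    exacts [⟨g1, hs.1, e, H0.rfl' _⟩, ⟨g, hg, H0.rfl' _, e⟩]
  obtain ⟨g', a, b, c⟩ := this
  have : ∃ h', cl h' ∧ ¬ Cut ω s h' ∧ le ω0 h' h ∧ le ω0 h' h1 := by
    rcases H0.total h h1 with e | e
    exacts [⟨h, hh, hn, H0.rfl' _, e⟩, ⟨h1, hs.2.1, hs.2.2.1, e, H0.rfl' _⟩]
  obtain ⟨h', a', b', c', d'⟩ := this
  exact ⟨g', h', hs.inner H0 H a a' b' c d', b, c'⟩

lemma K1A (H : OK1 ω0 ω) {k : ℕ} {s g h : T} (G : GoodCut ω0 (Cut ω s))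
    (hs : St ω0 k (Cut ω s) g h) : ∃ r, th ω k g s = th ω0 k g h * r := by
  obtain ⟨⟨g', a, b, u, v, E⟩, -⟩ := G k g h hs
  have e1 := H.AB k hs.1 hs.2.1 (H.le_of_not hs.2.1 hs.2.2.1)
  have e2 := H.Ain k hs.1.1 a b
  rw [E, ← e1] at e2
  obtain ⟨r, hr⟩ := stabR (a := th ω k g s) (p := u) (b := th ω k s h) (q := v * th ω k g' s)
    (by simpa only [mul_assoc] using e2)
  exact ⟨r, by rw [← e1]; exact hr⟩

lemma K1B (H : OK1 ω0 ω) {k : ℕ} {s g h : T} (G : GoodCut ω0 (Cut ω s))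
    (hs : St ω0 k (Cut ω s) g h) : ∃ l, th ω k s h = l * th ω0 k g h := by
  obtain ⟨-, ⟨h', a, b, c, u, v, E⟩⟩ := G k g h hs
  have e1 := H.AB k hs.1 hs.2.1 (H.le_of_not hs.2.1 hs.2.2.1)
  have e2 := H.Bin k hs.2.1 a (H.le_of_not a b) c
  rw [E, ← e1] at e2
  obtain ⟨l, hl⟩ := stabL (a := th ω k s h) (p := th ω k s h' * u) (b := th ω k g s) (q := v)
    (by simpa only [mul_assoc] using e2)
  exact ⟨l, by rw [← e1, ← mul_assoc]; exact hl⟩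

lemma J.ne_one {k : ℕ} {a b : M k} (h : J a b) (hb : b ≠ 1) : a ≠ 1 := by
  obtain ⟨u, v, rfl⟩ := h
  exact fun e => hb (one_of_mul (one_of_mul e).1).2

lemma noMin (H0 : OK ω0) (H : OK1 ω0 ω) {s h : T} (G : GoodCut ω0 (Cut ω s)) (hh : cl h)
    (hn : ¬ Cut ω s h) : ∃ h', cl h' ∧ ¬ Cut ω s h' ∧ le ω0 h' h ∧ ¬ le ω0 h h' := by
  obtain ⟨g1, h1, hs, -, l⟩ := St.exists' H0 H 0 (g := T.bot) ⟨trivial, H.bot_le _⟩ hh hn
  obtain ⟨-, ⟨h', a, b, c, E⟩⟩ := G 0 g1 h1 hs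
  have l1 := H.cut_le hs.1 hs.2.1 hs.2.2.1
  have := E.ne_one (fun e => l1.2 ((H0.one_iff 0 _ _ l1.1).1 e))
  exact ⟨h', a, b, H0.trans _ _ _ c l,
    fun e => this ((H0.one_iff 0 _ _ c).2 (H0.trans _ _ _ l e))⟩

lemma noMax (H0 : OK ω0) (H : OK1 ω0 ω) {s g : T} (G : GoodCut ω0 (Cut ω s)) (ht : ¬ le ω T.top s)
    (hg : Cut ω s g) : ∃ g', Cut ω s g' ∧ le ω0 g g' ∧ ¬ le ω0 g' g := by
  obtain ⟨g1, h1, hs, l, -⟩ := St.exists' H0 H 0 (h := T.top) hg trivial (fun e => ht e.2)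
  obtain ⟨⟨g', a, b, E⟩, -⟩ := G 0 g1 h1 hs
  have l1 := H.cut_le hs.1 hs.2.1 hs.2.2.1
  have := E.ne_one (fun e => l1.2 ((H0.one_iff 0 _ _ l1.1).1 e))
  exact ⟨g', a, H0.trans _ _ _ l b,
    fun e => this ((H0.one_iff 0 _ _ b).2 (H0.trans _ _ _ e l))⟩

lemma K2 (H0 : OK ω0) (H : OK1 ω0 ω) {ω' : Ξ} (H' : OK1 ω0 ω') {k : ℕ} {s s' g h g' h' : T}
    (G : GoodCut ω0 (Cut ω s)) (hC : Cut ω s = Cut ω' s') (hs : St ω0 k (Cut ω s) g h)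
    (hg : Cut ω s g') (hh : cl h') (hn : ¬ Cut ω s h') (l1 : le ω0 g g') (l2 : le ω0 h' h)
    {r r' : M k} (e : th ω' k g s' = th ω0 k g h * r) (e' : th ω' k g' s' = th ω0 k g' h' * r') :
    th ω k s h * r = th ω k s h' * r' := by
  have l3 := (H.cut_le hg hh hn).1
  have c1 : th ω0 k g h = th ω0 k g g' * th ω0 k g' h' * th ω0 k h' h := by
    rw [H0.mul k _ _ _ l1 (H0.trans _ _ _ l3 l2), H0.mul k _ _ _ l3 l2, mul_assoc]
  obtain ⟨u, v, E⟩ := hs.2.2.2 g' h' hg hh hn l1 l2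
  obtain ⟨u', hu⟩ := stabL (a := th ω0 k g' h') (p := u) (b := th ω0 k g g')
    (q := th ω0 k h' h * v) (by rw [c1] at E; simpa only [mul_assoc] using E)
  obtain ⟨l, hl⟩ := K1B H G (hs.inner H0 H hg hh hn l1 l2)
  have e2 := H'.Ain k hs.1.1 (hC ▸ hg) l1
  rw [e, e', c1] at e2
  have e3 : th ω0 k g' h' * th ω0 k h' h * r = th ω0 k g' h' * r' := by
    have := congrArg (u' * ·) e2
    simp only [← mul_assoc] at this
    rw [← hu] at this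
    exact this
  rw [H.Bin k hs.2.1 hh (H.le_of_not hh hn) l2, hl]
  simp only [mul_assoc] at e3 ⊢
  rw [e3]

lemma K3 (H0 : OK ω0) (H : OK1 ω0 ω) {ω' : Ξ} (H' : OK1 ω0 ω') {k : ℕ} {s s' g h g' h' : T}
    (G : GoodCut ω0 (Cut ω s)) (hC : Cut ω s = Cut ω' s') (hs : St ω0 k (Cut ω s) g h)
    (hs' : St ω0 k (Cut ω s) g' h')
    {r r' : M k} (e : th ω' k g s' = th ω0 k g h * r) (e' : th ω' k g' s' = th ω0 k g' h' * r') :
    th ω k s h * r = th ω k s h' * r' := by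
  have : ∃ g2, Cut ω s g2 ∧ le ω0 g g2 ∧ le ω0 g' g2 := by
    rcases H0.total g g' with e | e
    exacts [⟨g', hs'.1, e, H0.rfl' _⟩, ⟨g, hs.1, H0.rfl' _, e⟩]
  obtain ⟨g2, a, b, c⟩ := this
  have : ∃ h2, cl h2 ∧ ¬ Cut ω s h2 ∧ le ω0 h2 h ∧ le ω0 h2 h' := by
    rcases H0.total h h' with e | e
    exacts [⟨h, hs.2.1, hs.2.2.1, H0.rfl' _, e⟩, ⟨h', hs'.2.1, hs'.2.2.1, e, H0.rfl' _⟩]
  obtain ⟨h2, a', b', c', d'⟩ := this
  have s2 := hs.inner H0 H a a' b' b c'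
  obtain ⟨r2, e2⟩ := K1A H' (hC ▸ G) (hC ▸ s2)
  rw [K2 H0 H H' G hC hs a a' b' b c' e e2, K2 H0 H H' G hC hs' a a' b' c d' e' e2]

end cuts

end Pool.Agent.H24.Mod
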