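import Pool.Agent.H24.Mod3

set_option autoImplicit false

namespace Pool.Agent.H24.Mod

structure Ctx where
  ω0 : Ξ
  O : Set Ξ
  e : Ξ → ℝ
  cd : T → ℕ
  H0 : OK ω0
  hO : ∀ ω ∈ O, OK1 ω0 ω ∧ GoodCut ω0 (Cut ω T.x)
  einj : Function.Injective e
  cdinj : Function.Injective cd
  cdx : cd T.x = 0

namespace Ctx
variable (c : Ctx)

def W (ω : Ξ) (s : T) : Prop := ω ∈ c.O ∧ Cut ω s = Cut ω T.x

def IsPt (y : Ξ × T) : Prop :=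
  (y.1 = c.ω0 ∧ cl y.2 ∧ ∀ s, cl s → le c.ω0 s y.2 → le c.ω0 y.2 s → c.cd y.2 ≤ c.cd s) ∨
  (c.W y.1 y.2 ∧ ∀ s, le y.1 s y.2 → le y.1 y.2 s → c.cd y.2 ≤ c.cd s)

def Sep (y z : Ξ × T) (g : T) : Prop := ¬ Cut y.1 y.2 g ∧ Cut z.1 z.2 g

def LE (y z : Ξ × T) : Prop :=
  (∃ g, Sep y z g) ∨ (Cut y.1 y.2 = Cut z.1 z.2 ∧ (c.e y.1 < c.e z.1 ∨ (y.1 = z.1 ∧ le y.1 y.2 z.2)))

def Th (k : ℕ) (y z : Ξ × T) (p : M k) : Prop :=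
  (∃ g, Sep y z g ∧ p = th y.1 k y.2 g * th z.1 k g z.2) ∨
  (Cut y.1 y.2 = Cut z.1 z.2 ∧ y.1 = z.1 ∧ p = th y.1 k y.2 z.2) ∨
  (Cut y.1 y.2 = Cut z.1 z.2 ∧ y.1 ≠ z.1 ∧ ∃ g h r, St c.ω0 k (Cut y.1 y.2) g h ∧
    th z.1 k g z.2 = th c.ω0 k g h * r ∧ p = th y.1 k y.2 h * r)

open Classical in
noncomputable def θ (k : ℕ) (y z : Ξ × T) : M k :=
  if h : ∃ p, c.Th k y z p then h.choose else 1

variable {c}

lemma H00 : OK1 c.ω0 c.ω0 := ⟨c.H0, fun _ _ _ _ => Iff.rfl, fun _ _ _ _ _ => rfl⟩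

lemma W.ok {ω : Ξ} {s : T} (h : c.W ω s) : OK1 c.ω0 ω := (c.hO ω h.1).1

lemma W.good {ω : Ξ} {s : T} (h : c.W ω s) : GoodCut c.ω0 (Cut ω s) := h.2 ▸ (c.hO ω h.1).2

lemma W.ntop {ω : Ξ} {s : T} (h : c.W ω s) : ¬ le ω T.top s := by
  intro e
  have : Cut ω s T.top := ⟨trivial, e⟩
  rw [h.2] at this
  exact h.ok.x_lt this.2

lemma W.not_cl {ω ω' : Ξ} {s s' : T} (h : c.W ω s) (H' : OK1 c.ω0 ω') (hs : cl s')
    (e : Cut ω s = Cut ω' s') : False := by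
  have h1 : Cut ω s s' := e ▸ ⟨hs, H'.rfl' _⟩
  obtain ⟨g', a, -, b⟩ := noMax c.H0 h.ok h.good h.ntop h1
  rw [e] at a
  exact b ((H'.ale _ _ a.1 hs).1 a.2)

lemma IsPt.ok {y : Ξ × T} (h : c.IsPt y) : OK1 c.ω0 y.1 := by
  rcases h with h | h
  · rw [h.1]; exact H00
  · exact h.1.ok

lemma IsPt.both {y z : Ξ × T} (hy : c.IsPt y) (hz : c.IsPt z) (e : Cut y.1 y.2 = Cut z.1 z.2)
    (hne : y.1 ≠ z.1) : c.W y.1 y.2 ∧ c.W z.1 z.2 := by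
  have oy := hy.ok
  have oz := hz.ok
  rcases hy with hy' | hy' <;> rcases hz with hz' | hz'
  · exact absurd (hy'.1.trans hz'.1.symm) hne
  · exact (hz'.1.not_cl oy hy'.2.1 e.symm).elim
  · exact (hy'.1.not_cl oz hz'.2.1 e).elim
  · exact ⟨hy'.1, hz'.1⟩

lemma IsPt.eq {y z : Ξ × T} (hy : c.IsPt y) (hz : c.IsPt z) (e : y.1 = z.1)
    (h1 : le y.1 y.2 z.2) (h2 : le y.1 z.2 y.2) : y = z := by
  obtain ⟨ω, s⟩ := y
  obtain ⟨ω', t⟩ := z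
  simp only at e h1 h2
  subst e
  have H := hy.ok
  have hC : Cut ω s = Cut ω t := by
    funext g
    exact propext ⟨fun a => ⟨a.1, H.trans _ _ _ a.2 h1⟩, fun a => ⟨a.1, H.trans _ _ _ a.2 h2⟩⟩
  congr 1
  apply c.cdinj
  rcases hy with hy' | hy' <;> rcases hz with hz' | hz'
  · obtain ⟨rfl, a, b⟩ := hy'
    exact le_antisymm (b _ hz'.2.1 h2 h1) (hz'.2.2 _ a h1 h2)
  · exact (hz'.1.not_cl H hy'.2.1 hC.symm).elim
  · exact (hy'.1.not_cl H hz'.2.1 hC).elim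
  · exact le_antisymm (hy'.2 _ h2 h1) (hz'.2 _ h1 h2)

lemma Sep.ne {y z : Ξ × T} {g : T} (h : Sep y z g) : Cut y.1 y.2 ≠ Cut z.1 z.2 :=
  fun e => h.1 (e ▸ h.2)

lemma Th.uniq {k : ℕ} {y z : Ξ × T} (hy : c.IsPt y) (hz : c.IsPt z) {p p' : M k}
    (h : c.Th k y z p) (h' : c.Th k y z p') : p = p' := by
  have key : ∀ g g', Sep y z g → Sep y z g' → le c.ω0 g g' →
      th y.1 k y.2 g * th z.1 k g z.2 = th y.1 k y.2 g' * th z.1 k g' z.2 := by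
    intro g g' a b l
    rw [hz.ok.Ain k a.2.1 b.2 l, hy.ok.Bin k b.2.1 a.2.1 (hy.ok.le_of_not a.2.1 a.1) l, mul_assoc]
  rcases h with ⟨g, a, rfl⟩ | ⟨a, b, rfl⟩ | ⟨a, b, g, h, r, s, e, rfl⟩ <;>
    rcases h' with ⟨g', a', rfl⟩ | ⟨a', b', rfl⟩ | ⟨a', b', g', h', r', s', e', rfl⟩
  · rcases c.H0.total g g' with l | l
    exacts [key _ _ a a' l, (key _ _ a' a l).symm]
  · exact absurd a' a.ne
  · exact absurd a' a.ne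
  · exact absurd a a'.ne
  · rfl
  · exact absurd b b'
  · exact absurd a a'.ne
  · exact absurd b' b
  · exact K3 c.H0 hy.ok hz.ok (hy.both hz a b).1.good a s s' e e'

lemma θ_eq {k : ℕ} {y z : Ξ × T} (hy : c.IsPt y) (hz : c.IsPt z) {p : M k} (h : c.Th k y z p) :
    c.θ k y z = p := by
  have : ∃ p, c.Th k y z p := ⟨p, h⟩
  rw [θ, dif_pos this]
  exact Th.uniq hy hz this.choose_spec h

lemma S1 {k : ℕ} {y z : Ξ × T} (hy : c.IsPt y) (hz : c.IsPt z) {g : T} (h : Sep y z g) :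
    c.θ k y z = th y.1 k y.2 g * th z.1 k g z.2 := θ_eq hy hz (Or.inl ⟨g, h, rfl⟩)

lemma S2 {k : ℕ} {y z : Ξ × T} (hy : c.IsPt y) (hz : c.IsPt z) (h : Cut y.1 y.2 = Cut z.1 z.2)
    (e : y.1 = z.1) : c.θ k y z = th y.1 k y.2 z.2 := θ_eq hy hz (Or.inr (Or.inl ⟨h, e, rfl⟩))

lemma S3 {k : ℕ} {y z : Ξ × T} (hy : c.IsPt y) (hz : c.IsPt z) (hC : Cut y.1 y.2 = Cut z.1 z.2)
    (e : y.1 ≠ z.1) {g h : T} {r : M k} (s : St c.ω0 k (Cut y.1 y.2) g h)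
    (hr : th z.1 k g z.2 = th c.ω0 k g h * r) : c.θ k y z = th y.1 k y.2 h * r :=
  θ_eq hy hz (Or.inr (Or.inr ⟨hC, e, g, h, r, s, hr, rfl⟩))

lemma LE.cases {y z : Ξ × T} (h : c.LE y z) : (∃ g, Sep y z g) ∨
    (Cut y.1 y.2 = Cut z.1 z.2 ∧ y.1 = z.1 ∧ le y.1 y.2 z.2) ∨
    (Cut y.1 y.2 = Cut z.1 z.2 ∧ y.1 ≠ z.1 ∧ c.e y.1 < c.e z.1) := by
  rcases h with h | ⟨a, h | h⟩
  · exact Or.inl h
  · exact Or.inr (Or.inr ⟨a, fun e => by rw [e] at h; exact lt_irrefl _ h, h⟩)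
  · exact Or.inr (Or.inl ⟨a, h⟩)

lemma LE.sub {y z : Ξ × T} (hy : c.IsPt y) (hz : c.IsPt z) (h : c.LE y z) {g : T}
    (hg : Cut y.1 y.2 g) : Cut z.1 z.2 g := by
  rcases h with ⟨g', a⟩ | ⟨a, -⟩
  · exact hz.ok.cut_down a.2 hg.1 (hy.ok.cut_le hg a.2.1 a.1).1
  · exact a ▸ hg

lemma AL {k : ℕ} {y z : Ξ × T} (hy : c.IsPt y) (hz : c.IsPt z) (h : c.LE y z) {g : T}
    (hg : Cut y.1 y.2 g) : th z.1 k g z.2 = th y.1 k g y.2 * c.θ k y z := by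
  rcases h.cases with ⟨g', a⟩ | ⟨a, b, l⟩ | ⟨a, b, -⟩
  · rw [S1 hy hz a, ← mul_assoc, hy.ok.AB k hg a.2.1 (hy.ok.le_of_not a.2.1 a.1),
      hz.ok.Ain k hg.1 a.2 (hy.ok.cut_le hg a.2.1 a.1).1]
  · rw [S2 hy hz a b, ← b, hy.ok.mul _ _ _ _ hg.2 l]
  · obtain ⟨wy, wz⟩ := hy.both hz a b
    obtain ⟨g', h', s, l1, -⟩ := St.exists' c.H0 hy.ok k (h := T.top) hg trivial
      (fun e => wy.ntop e.2)
    obtain ⟨r, hr⟩ := K1A hz.ok wz.good (a ▸ s)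
    rw [S3 hy hz a b s hr, hy.ok.Ain k hg.1 s.1 l1, hz.ok.Ain k hg.1 (a ▸ s.1) l1, hr,
      ← hy.ok.AB k s.1 s.2.1 (hy.ok.le_of_not s.2.1 s.2.2.1)]
    simp only [mul_assoc]

lemma BR {k : ℕ} {y z : Ξ × T} (hy : c.IsPt y) (hz : c.IsPt z) (h : c.LE y z) {g : T}
    (hc : cl g) (hg : ¬ Cut z.1 z.2 g) : th y.1 k y.2 g = c.θ k y z * th z.1 k z.2 g := by
  rcases h.cases with ⟨g', a⟩ | ⟨a, b, l⟩ | ⟨a, b, -⟩
  · rw [S1 hy hz a, mul_assoc, hz.ok.AB k a.2 hc (hz.ok.le_of_not hc hg),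
      hy.ok.Bin k hc a.2.1 (hy.ok.le_of_not a.2.1 a.1) (hz.ok.cut_le a.2 hc hg).1]
  · rw [S2 hy hz a b, ← b, hy.ok.mul _ _ _ _ l (b ▸ hz.ok.le_of_not hc hg)]
  · obtain ⟨wy, wz⟩ := hy.both hz a b
    obtain ⟨g', h', s, -, l1⟩ := St.exists' c.H0 hy.ok k (g := T.bot) ⟨trivial, hy.ok.bot_le _⟩ hc
      (a ▸ hg)
    obtain ⟨r, hr⟩ := K1A hz.ok wz.good (a ▸ s)
    obtain ⟨l, hl⟩ := K1B hy.ok wy.good s
    have hz' : le z.1 z.2 h' := hz.ok.le_of_not s.2.1 (a ▸ s.2.2.1)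
    have e1 := hz.ok.AB k (a ▸ s.1) s.2.1 hz'
    rw [S3 hy hz a b s hr, hy.ok.Bin k hc s.2.1 (hy.ok.le_of_not s.2.1 s.2.2.1) l1,
      hz.ok.Bin k hc s.2.1 hz' l1, hl]
    rw [hr] at e1
    calc l * th c.ω0 k g' h' * th c.ω0 k h' g
        = l * (th c.ω0 k g' h' * r * th z.1 k z.2 h') * th c.ω0 k h' g := by rw [e1]
      _ = _ := by simp only [mul_assoc]

lemma LE.trans {x y z : Ξ × T} (hx : c.IsPt x) (hy : c.IsPt y) (hz : c.IsPt z) (h1 : c.LE x y)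
    (h2 : c.LE y z) : c.LE x z := by
  rcases h1 with ⟨g, a⟩ | ⟨a, h1⟩
  · exact Or.inl ⟨g, a.1, h2.sub hy hz a.2⟩
  rcases h2 with ⟨g, b⟩ | ⟨b, h2⟩
  · exact Or.inl ⟨g, a ▸ b.1, b.2⟩
  refine Or.inr ⟨a.trans b, ?_⟩
  rcases h1 with h1 | ⟨e1, l1⟩ <;> rcases h2 with h2 | ⟨e2, l2⟩
  · exact Or.inl (h1.trans h2)
  · exact Or.inl (e2 ▸ h1)
  · exact Or.inl (e1 ▸ h2)
  · exact Or.inr ⟨e1.trans e2, hx.ok.trans _ _ _ l1 (e1 ▸ l2)⟩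

lemma LE.total {y z : Ξ × T} (hy : c.IsPt y) : c.LE y z ∨ c.LE z y := by
  by_cases a : Cut y.1 y.2 = Cut z.1 z.2
  · rcases lt_trichotomy (c.e y.1) (c.e z.1) with h | h | h
    · exact Or.inl (Or.inr ⟨a, Or.inl h⟩)
    · have e := c.einj h
      rcases hy.ok.total y.2 z.2 with l | l
      · exact Or.inl (Or.inr ⟨a, Or.inr ⟨e, l⟩⟩)
      · exact Or.inr (Or.inr ⟨a.symm, Or.inr ⟨e.symm, e ▸ l⟩⟩)
    · exact Or.inr (Or.inr ⟨a.symm, Or.inl h⟩)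
  · by_contra hn
    apply a
    funext g
    apply propext
    constructor
    · intro h
      by_contra h'
      exact hn (Or.inr (Or.inl ⟨g, h', h⟩))
    · intro h
      by_contra h'
      exact hn (Or.inl (Or.inl ⟨g, h', h⟩))

lemma LE.anti {y z : Ξ × T} (hy : c.IsPt y) (hz : c.IsPt z) (h1 : c.LE y z) (h2 : c.LE z y) :
    y = z := by
  rcases h1.cases with ⟨g, a⟩ | ⟨a, b, l⟩ | ⟨a, b, l⟩
  · exact absurd (h2.sub hz hy a.2) a.1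
  · rcases h2.cases with ⟨g, a'⟩ | ⟨a', b', l'⟩ | ⟨a', b', l'⟩
    · exact absurd a.symm a'.ne
    · exact hy.eq hz b l (b ▸ l')
    · exact absurd b.symm b'
  · rcases h2.cases with ⟨g, a'⟩ | ⟨a', b', l'⟩ | ⟨a', b', l'⟩
    · exact absurd a.symm a'.ne
    · exact absurd b'.symm b
    · exact absurd l (not_lt.2 l'.le)

lemma θ_mul {k : ℕ} {x y z : Ξ × T} (hx : c.IsPt x) (hy : c.IsPt y) (hz : c.IsPt z) (h1 : c.LE x y)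
    (h2 : c.LE y z) : c.θ k x z = c.θ k x y * c.θ k y z := by
  by_cases n1 : ∃ g, Sep x y g
  · obtain ⟨g, a⟩ := n1
    rw [S1 hx hz (g := g) ⟨a.1, h2.sub hy hz a.2⟩, S1 hx hy a, AL hy hz h2 a.2, mul_assoc]
  by_cases n2 : ∃ g, Sep y z g
  · obtain ⟨g, a⟩ := n2
    rw [S1 hx hz (g := g) ⟨fun e => a.1 (h1.sub hx hy e), a.2⟩, S1 hy hz a, BR hx hy h1 a.2.1 a.1,
      mul_assoc]
  have a := (h1.resolve_left n1).1
  have b := (h2.resolve_left n2).1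
  by_cases e2 : y.1 = z.1
  · by_cases e1 : x.1 = y.1
    · have l1 : le x.1 x.2 y.2 := by
        rcases h1.cases with h | h | h
        exacts [absurd h n1, h.2.2, absurd e1 h.2.1]
      have l2 : le y.1 y.2 z.2 := by
        rcases h2.cases with h | h | h
        exacts [absurd h n2, h.2.2, absurd e2 h.2.1]
      rw [S2 hx hz (a.trans b) (e1.trans e2), S2 hx hy a e1, S2 hy hz b e2, ← e1,
        hx.ok.mul _ _ _ _ l1 (e1 ▸ l2)]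
    · obtain ⟨wx, wy⟩ := hx.both hy a e1
      obtain ⟨g, h, s⟩ := St.exists c.H0 hx.ok k wx.ntop
      obtain ⟨r, hr⟩ := K1A hy.ok wy.good (a ▸ s)
      have := AL (k := k) hy hz h2 (a ▸ s.1)
      rw [hr, mul_assoc] at this
      rw [S3 hx hz (a.trans b) (e2 ▸ e1) s this, S3 hx hy a e1 s hr, mul_assoc]
  · obtain ⟨wy, wz⟩ := hy.both hz b e2
    have e3 : x.1 ≠ z.1 := by
      intro e3
      have l2 : c.e y.1 < c.e z.1 := by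
        rcases h2.cases with h | h | h
        exacts [absurd h n2, absurd h.2.1 e2, h.2.2]
      rcases h1.cases with h | h | h
      · exact n1 h
      · exact e2 (h.2.1.symm.trans e3)
      · rw [e3] at h; exact lt_asymm h.2.2 l2
    obtain ⟨g, h, s⟩ := St.exists c.H0 hy.ok k wy.ntop
    obtain ⟨r, hr⟩ := K1A hz.ok wz.good (b ▸ s)
    rw [S3 hx hz (a.trans b) e3 (a ▸ s) hr, S3 hy hz b e2 s hr, BR hx hy h1 s.2.1 s.2.2.1, mul_assoc]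

lemma θ_compat {k : ℕ} {y z : Ξ × T} (hy : c.IsPt y) (hz : c.IsPt z) (h : c.LE y z) :
    pr (c.θ (k + 1) y z) = c.θ k y z := by
  rcases h.cases with ⟨g, a⟩ | ⟨a, b, l⟩ | ⟨a, b, -⟩
  · rw [S1 hy hz a, S1 hy hz a, pr_mul, hy.ok.compat _ _ _ (hy.ok.le_of_not a.2.1 a.1),
      hz.ok.compat _ _ _ a.2.2]
  · rw [S2 hy hz a b, S2 hy hz a b, hy.ok.compat _ _ _ l]
  · obtain ⟨wy, wz⟩ := hy.both hz a b
    obtain ⟨g, h, s⟩ := St.exists c.H0 hy.ok (k + 1) wy.ntop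
    obtain ⟨r, hr⟩ := K1A hz.ok wz.good (a ▸ s)
    have hr' := congrArg pr hr
    rw [pr_mul, hz.ok.compat _ _ _ (a ▸ s.1 : Cut z.1 z.2 g).2,
      c.H0.compat _ _ _ (hy.ok.cut_le s.1 s.2.1 s.2.2.1).1] at hr'
    rw [S3 hy hz a b s hr, S3 hy hz a b (s.down c.H0 hy.ok) hr', pr_mul,
      hy.ok.compat _ _ _ (hy.ok.le_of_not s.2.1 s.2.2.1)]

lemma θ_refl {k : ℕ} {y : Ξ × T} (hy : c.IsPt y) : c.θ k y y = 1 := by
  rw [S2 hy hy rfl rfl]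
  exact (hy.ok.one_iff k _ _ (hy.ok.rfl' _)).2 (hy.ok.rfl' _)

lemma θ_ne {k : ℕ} {y z : Ξ × T} (hy : c.IsPt y) (hz : c.IsPt z) (h : c.LE y z)
    (e : c.θ k y z = 1) : y = z := by
  rcases h.cases with ⟨g, a⟩ | ⟨a, b, l⟩ | ⟨a, b, -⟩
  · rw [S1 hy hz a] at e
    exact absurd ⟨a.2.1, (hy.ok.one_iff k _ _ (hy.ok.le_of_not a.2.1 a.1)).1 (one_of_mul e).1⟩ a.1
  · rw [S2 hy hz a b] at e
    exact hy.eq hz b l ((hy.ok.one_iff k _ _ l).1 e)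
  · obtain ⟨wy, wz⟩ := hy.both hz a b
    obtain ⟨g, h, s⟩ := St.exists c.H0 hy.ok k wy.ntop
    obtain ⟨r, hr⟩ := K1A hz.ok wz.good (a ▸ s)
    rw [S3 hy hz a b s hr] at e
    exact absurd ⟨s.2.1, (hy.ok.one_iff k _ _ (hy.ok.le_of_not s.2.1 s.2.2.1)).1 (one_of_mul e).1⟩
      s.2.2.1

end Ctx

end Pool.Agent.H24.Mod
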