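import Pool.Agent.H24.Mod4

set_option autoImplicit false

namespace Pool.Agent.H24.Mod

namespace Ctx
variable {c : Ctx}

def Rep (ω : Ξ) (s : T) (y : Ξ × T) : Prop := le ω y.2 s ∧ le ω s y.2 ∧ (y.1 = ω ∨ cl y.2)

def Adm (c : Ctx) (ω : Ξ) (s : T) : Prop := cl s ∨ c.W ω s

lemma cut_congr {ω : Ξ} (H : OK ω) {s t : T} (h1 : le ω s t) (h2 : le ω t s) : Cut ω s = Cut ω t := by
  funext g
  exact propext ⟨fun a => ⟨a.1, H.trans _ _ _ a.2 h1⟩, fun a => ⟨a.1, H.trans _ _ _ a.2 h2⟩⟩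

lemma Rep.cut {ω : Ξ} {s : T} {y : Ξ × T} (H : OK1 c.ω0 ω) (hy : c.IsPt y) (h : Rep ω s y) :
    Cut y.1 y.2 = Cut ω s := by
  rw [← cut_congr H.toOK h.1 h.2.1]
  rcases h.2.2 with e | e
  · rw [e]
  · funext g
    exact propext ⟨fun a => ⟨a.1, (H.ale _ _ a.1 e).2 ((hy.ok.ale _ _ a.1 e).1 a.2)⟩,
      fun a => ⟨a.1, (hy.ok.ale _ _ a.1 e).2 ((H.ale _ _ a.1 e).1 a.2)⟩⟩

lemma Rep.A {ω : Ξ} {s : T} {y : Ξ × T} (H : OK1 c.ω0 ω) (hy : c.IsPt y) (h : Rep ω s y) (k : ℕ)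
    {g : T} (hg : Cut ω s g) : th y.1 k g y.2 = th ω k g s := by
  rw [← H.thR k h.2.1 h.1 hg.2]
  rcases h.2.2 with e | e
  · rw [e]
  · rw [hy.ok.ath _ _ _ hg.1 e, H.ath _ _ _ hg.1 e]

lemma Rep.B {ω : Ξ} {s : T} {y : Ξ × T} (H : OK1 c.ω0 ω) (hy : c.IsPt y) (h : Rep ω s y) (k : ℕ)
    {g : T} (hg : cl g) (hl : le ω s g) : th y.1 k y.2 g = th ω k s g := by
  rw [← H.thL k h.1 h.2.1 hl]
  rcases h.2.2 with e | e
  · rw [e]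
  · rw [hy.ok.ath _ _ _ e hg, H.ath _ _ _ e hg]

lemma EMB {ω : Ξ} {s t : T} {y z : Ξ × T} (H : OK1 c.ω0 ω) (hy : c.IsPt y) (hz : c.IsPt z)
    (h : Rep ω s y) (h' : Rep ω t z) (l : le ω s t) :
    c.LE y z ∧ ∀ k, c.θ k y z = th ω k s t := by
  have cy := h.cut H hy
  have cz := h'.cut H hz
  by_cases n : ∃ g, Sep y z g
  · obtain ⟨g, a⟩ := n
    refine ⟨Or.inl ⟨g, a⟩, fun k => ?_⟩
    have l1 := H.le_of_not a.2.1 (cy ▸ a.1)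
    have l2 : Cut ω t g := cz ▸ a.2
    rw [S1 hy hz a, h.B H hy k a.2.1 l1, h'.A H hz k l2, ← H.mul _ _ _ _ l1 l2.2]
  have hC : Cut y.1 y.2 = Cut z.1 z.2 := by
    funext g
    refine propext ⟨fun a => ?_, fun a => by_contra fun b => n ⟨g, b, a⟩⟩
    rw [cy] at a
    rw [cz]
    exact ⟨a.1, H.trans _ _ _ a.2 l⟩
  have e : y.1 = z.1 := by
    by_contra e
    obtain ⟨wy, wz⟩ := hy.both hz hC e
    have e1 := h.2.2.resolve_right (fun a => wy.not_cl hy.ok a rfl)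
    have e2 := h'.2.2.resolve_right (fun a => wz.not_cl hz.ok a rfl)
    exact e (e1.trans e2.symm)
  have l' : le ω y.2 z.2 := H.trans _ _ _ h.1 (H.trans _ _ _ l h'.2.1)
  have t' : ∀ k, th ω k y.2 z.2 = th ω k s t := fun k => by
    rw [H.thL k h.1 h.2.1 (H.trans _ _ _ l h'.2.1), H.thR k h'.2.1 h'.1 l]
  by_cases e1 : y.1 = ω
  · exact ⟨Or.inr ⟨hC, Or.inr ⟨e, e1 ▸ l'⟩⟩, fun k => by rw [S2 hy hz hC e, e1, t']⟩
  · have a := h.2.2.resolve_left e1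
    have b := h'.2.2.resolve_left (e ▸ e1)
    exact ⟨Or.inr ⟨hC, Or.inr ⟨e, (hy.ok.ale _ _ a b).2 ((H.ale _ _ a b).1 l')⟩⟩,
      fun k => by rw [S2 hy hz hC e, hy.ok.ath _ _ _ a b, ← H.ath _ _ _ a b, t']⟩

lemma EMB' {ω : Ξ} {s t : T} {y z : Ξ × T} (H : OK1 c.ω0 ω) (hy : c.IsPt y) (hz : c.IsPt z)
    (h : Rep ω s y) (h' : Rep ω t z) : c.LE y z ↔ le ω s t := by
  refine ⟨fun l => ?_, fun l => (EMB H hy hz h h' l).1⟩
  rcases H.total s t with e | e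
  · exact e
  · have := LE.anti hy hz l (EMB H hz hy h' h e).1
    subst this
    exact H.trans _ _ _ h.2.1 h'.1

lemma rep_exists {ω : Ξ} {s : T} (H : OK1 c.ω0 ω) (h : c.Adm ω s) : ∃ y, c.IsPt y ∧ Rep ω s y := by
  rcases h with h | h
  · obtain ⟨t, ⟨a, b, d⟩, hm⟩ := (InvImage.wf c.cd wellFounded_lt).has_min
      {t | cl t ∧ le c.ω0 t s ∧ le c.ω0 s t} ⟨s, h, c.H0.rfl' _, c.H0.rfl' _⟩
    refine ⟨(c.ω0, t), Or.inl ⟨rfl, a, fun u hu l1 l2 => ?_⟩,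
      (H.ale _ _ a h).2 b, (H.ale _ _ h a).2 d, Or.inr a⟩
    exact not_lt.1 (hm u ⟨hu, c.H0.trans _ _ _ l1 b, c.H0.trans _ _ _ d l2⟩)
  · obtain ⟨t, ⟨b, d⟩, hm⟩ := (InvImage.wf c.cd wellFounded_lt).has_min
      {t | le ω t s ∧ le ω s t} ⟨s, H.rfl' _, H.rfl' _⟩
    refine ⟨(ω, t), Or.inr ⟨⟨h.1, (cut_congr H.toOK b d).trans h.2⟩, fun u l1 l2 => ?_⟩,
      b, d, Or.inl rfl⟩
    exact not_lt.1 (hm u ⟨H.trans _ _ _ l1 b, H.trans _ _ _ d l2⟩)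

lemma IsPt.adm {y : Ξ × T} (hy : c.IsPt y) : c.Adm y.1 y.2 := by
  rcases hy with h | h
  exacts [Or.inl h.2.1, Or.inr h.1]

lemma IsPt.rep {y : Ξ × T} (hy : c.IsPt y) : Rep y.1 y.2 y :=
  ⟨hy.ok.rfl' _, hy.ok.rfl' _, Or.inl rfl⟩

lemma wit {ω : Ξ} (H : OK ω) {k : ℕ} {s t : T} (l : le ω s t) {p q : M k}
    (d : Dec k (th ω (k + 1) s t) p q) : ∃ u, (cl s → cl t → cl u) ∧ le ω s u ∧ le ω u t ∧
      th ω k s u = p ∧ th ω k u t = q := by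
  obtain ⟨a, rfl⟩ := mk_surj p
  obtain ⟨b, rfl⟩ := mk_surj q
  exact ⟨.lo k a b s t, fun h1 h2 => ⟨h1, h2⟩, H.lo_spec k a b s t l d⟩

lemma adm_wit {ω : Ξ} (H : OK1 c.ω0 ω) {k : ℕ} {s t : T} (hs : c.Adm ω s) (ht : c.Adm ω t)
    (l : le ω s t) {p q : M k} (d : Dec k (th ω (k + 1) s t) p q) :
    ∃ u, c.Adm ω u ∧ le ω s u ∧ le ω u t ∧ th ω k s u = p ∧ th ω k u t = q := by
  obtain ⟨u, hc, l1, l2, e1, e2⟩ := wit H.toOK l d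
  by_cases hcl : cl s ∧ cl t
  · exact ⟨u, Or.inl (hc hcl.1 hcl.2), l1, l2, e1, e2⟩
  have hO : ω ∈ c.O := by
    rcases hs with hs | hs
    · rcases ht with ht | ht
      exacts [absurd ⟨hs, ht⟩ hcl, ht.1]
    · exact hs.1
  by_cases hC : Cut ω u = Cut ω T.x
  · exact ⟨u, Or.inr ⟨hO, hC⟩, l1, l2, e1, e2⟩
  have : ∃ g, (Cut ω u g ∧ ¬ Cut ω T.x g) ∨ (Cut ω T.x g ∧ ¬ Cut ω u g) := by
    by_contra hn
    apply hC
    funext g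
    exact propext ⟨fun a => by_contra fun b => hn ⟨g, Or.inl ⟨a, b⟩⟩,
      fun a => by_contra fun b => hn ⟨g, Or.inr ⟨a, b⟩⟩⟩
  obtain ⟨g, ⟨a, b⟩ | ⟨a, b⟩⟩ := this
  · have ct : cl t := ht.resolve_right (fun w => b (w.2 ▸ ⟨a.1, H.trans _ _ _ a.2 l2⟩))
    have ws : c.W ω s := hs.resolve_left (fun h => hcl ⟨h, ct⟩)
    have l3 : le ω s g := H.le_of_not a.1 (ws.2 ▸ b)
    obtain ⟨u', hc', m1, m2, f1, f2⟩ := wit H.toOK (H.trans _ _ _ a.2 l2) (H.dec k a.2 l2)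
    refine ⟨u', Or.inl (hc' a.1 ct), H.trans _ _ _ l3 m1, m2, ?_, f2.trans e2⟩
    rw [H.mul _ _ _ _ l3 m1, f1, ← H.mul _ _ _ _ l3 a.2, e1]
  · have cs : cl s := hs.resolve_right (fun w => by
      have := w.2 ▸ a
      exact b ⟨a.1, H.trans _ _ _ this.2 l1⟩)
    have wt : c.W ω t := ht.resolve_left (fun h => hcl ⟨cs, h⟩)
    have l3 : le ω g t := (wt.2 ▸ a : Cut ω t g).2
    have l4 : le ω u g := H.le_of_not a.1 b
    obtain ⟨u', hc', m1, m2, f1, f2⟩ := wit H.toOK (H.trans _ _ _ l1 l4) (H.dec k l1 l4)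
    refine ⟨u', Or.inl (hc' cs a.1), m1, H.trans _ _ _ m2 l3, f1.trans e1, ?_⟩
    rw [H.mul _ _ _ _ m2 l3, f2, ← H.mul _ _ _ _ l4 l3, e2]

lemma rich_loc {ω : Ξ} {s t : T} {y z : Ξ × T} (H : OK1 c.ω0 ω) (hy : c.IsPt y) (hz : c.IsPt z)
    (h : Rep ω s y) (h' : Rep ω t z) (hs : c.Adm ω s) (ht : c.Adm ω t) (l : le ω s t) {k : ℕ}
    {p q : M k} (d : Dec k (c.θ (k + 1) y z) p q) :
    ∃ u, c.IsPt u ∧ c.LE y u ∧ c.LE u z ∧ c.θ k y u = p ∧ c.θ k u z = q := by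
  rw [(EMB H hy hz h h' l).2] at d
  obtain ⟨u, au, l1, l2, e1, e2⟩ := adm_wit H hs ht l d
  obtain ⟨v, hv, rv⟩ := rep_exists H au
  have a := EMB H hy hv h rv l1
  have b := EMB H hv hz rv h' l2
  exact ⟨v, hv, a.1, b.1, (a.2 k).trans e1, (b.2 k).trans e2⟩

lemma Rep.closed {ω ω' : Ξ} {g : T} {y : Ξ × T} (H : OK1 c.ω0 ω) (H' : OK1 c.ω0 ω') (hy : c.IsPt y)
    (hg : cl g) (h : Rep ω g y) : Rep ω' g y := by
  have a : cl y.2 := by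
    rcases hy with e | e
    · exact e.2.1
    · exact (e.1.not_cl H hg (h.cut H (Or.inr e))).elim
  exact ⟨(H'.ale _ _ a hg).2 ((H.ale _ _ a hg).1 h.1), (H'.ale _ _ hg a).2 ((H.ale _ _ hg a).1 h.2.1),
    Or.inr a⟩

theorem rich {k : ℕ} {y z : Ξ × T} (hy : c.IsPt y) (hz : c.IsPt z) (h : c.LE y z) {p q : M k}
    (d : Dec k (c.θ (k + 1) y z) p q) :
    ∃ u, c.IsPt u ∧ c.LE y u ∧ c.LE u z ∧ c.θ k y u = p ∧ c.θ k u z = q := by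
  rcases h.cases with ⟨g, a⟩ | ⟨a, b, l⟩ | ⟨a, b, lt⟩
  · obtain ⟨v, hv, rv⟩ := rep_exists hy.ok (Or.inl a.2.1)
    have rv' := rv.closed hy.ok hz.ok hv a.2.1
    have l1 := hy.ok.le_of_not a.2.1 a.1
    have m1 := (EMB hy.ok hy hv hy.rep rv l1).1
    have m2 := (EMB hz.ok hv hz rv' hz.rep a.2.2).1
    rw [θ_mul hy hv hz m1 m2] at d
    rcases dec_mul d with ⟨q1, d1, rfl⟩ | ⟨p1, d1, rfl⟩
    · obtain ⟨u, hu, n1, n2, e1, e2⟩ := rich_loc hy.ok hy hv hy.rep rv hy.adm (Or.inl a.2.1) l1 d1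
      exact ⟨u, hu, n1, n2.trans hu hv hz m2, e1, by
        rw [θ_mul hu hv hz n2 m2, e2, θ_compat hv hz m2]⟩
    · obtain ⟨u, hu, n1, n2, e1, e2⟩ := rich_loc hz.ok hv hz rv' hz.rep (Or.inl a.2.1) hz.adm a.2.2 d1
      exact ⟨u, hu, m1.trans hy hv hu n1, n2, by
        rw [θ_mul hy hv hu m1 n1, e1, θ_compat hy hv m1], e2⟩
  · exact rich_loc hy.ok hy hz hy.rep (b ▸ hz.rep) hy.adm (b ▸ hz.adm) l d
  obtain ⟨wy, wz⟩ := hy.both hz a b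
  obtain ⟨g, h', s⟩ := St.exists c.H0 hy.ok (k + 1) wy.ntop
  have s' := s.down c.H0 hy.ok
  obtain ⟨r, hr⟩ := K1A hz.ok wz.good (a ▸ s)
  obtain ⟨l', hl'⟩ := K1B hz.ok wz.good (a ▸ s)
  have gz : Cut z.1 z.2 g := a ▸ s.1
  have nz : ¬ Cut z.1 z.2 h' := a ▸ s.2.2.1
  have zh := hz.ok.le_of_not s.2.1 nz
  have yh := hy.ok.le_of_not s.2.1 s.2.2.1
  have gh := (hy.ok.cut_le s.1 s.2.1 s.2.2.1).1
  have ab := hz.ok.AB (k + 1) gz s.2.1 zh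
  have hr2 : th z.1 (k + 1) g z.2 = th c.ω0 (k + 1) g h' * (r * l' * th z.1 (k + 1) g z.2) := by
    have e1 : th c.ω0 (k + 1) g h' = th c.ω0 (k + 1) g h' * r * (l' * th c.ω0 (k + 1) g h') := by
      rw [← hr, ← hl', ab]
    calc th z.1 (k + 1) g z.2 = th c.ω0 (k + 1) g h' * r := hr
      _ = th c.ω0 (k + 1) g h' * r * (l' * th c.ω0 (k + 1) g h') * r := by rw [← e1]
      _ = th c.ω0 (k + 1) g h' * (r * l' * (th c.ω0 (k + 1) g h' * r)) := by simp only [mul_assoc]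
      _ = _ := by rw [← hr]
  have hr3 := congrArg pr hr2
  rw [pr_mul, hz.ok.compat _ _ _ gz.2, c.H0.compat _ _ _ gh] at hr3
  have d' := d
  rw [S3 hy hz a b s hr2] at d'
  rcases dec_mul d' with ⟨q1, -, hq⟩ | ⟨p1, -, hp⟩
  · obtain ⟨wa, rfl⟩ := mk_surj p
    obtain ⟨wb, hb⟩ := mk_surj (q * th z.1 k z.2 h')
    have D : ∀ h2, cl h2 → ¬ Cut y.1 y.2 h2 →
        Dec k (th y.1 (k + 1) y.2 h2) (Mod.mk k wa) (q * th z.1 k z.2 h2) := by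
      intro h2 c2 n2
      have n2' : ¬ Cut z.1 z.2 h2 := a ▸ n2
      rw [BR hy hz h c2 n2', ← hz.ok.compat k _ _ (hz.ok.le_of_not c2 n2')]
      exact dec_right _ d
    obtain ⟨u1, u2, u3, u4⟩ := hy.ok.lo_spec k wa wb y.2 h' yh (hb ▸ D h' s.2.1 s.2.2.1)
    have hC : Cut y.1 (.lo k wa wb y.2 h') = Cut y.1 y.2 := by
      funext h2
      refine propext ⟨fun e => by_contra fun n2 => ?_, fun e => ⟨e.1, hy.ok.trans _ _ _ e.2 u1⟩⟩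
      obtain ⟨h3, c3, n3, l3, l4⟩ := noMin c.H0 hy.ok wy.good e.1 n2
      have l5 : le c.ω0 h3 h' := c.H0.trans _ _ _ l3
        ((hy.ok.ale _ _ e.1 s.2.1).1 (hy.ok.trans _ _ _ e.2 u2))
      obtain ⟨u', -, v1, v2, v3, v4⟩ := wit hy.ok.toOK (hy.ok.le_of_not c3 n3) (D h3 c3 n3)
      have l6 := (hy.ok.ale _ _ c3 s.2.1).2 l5
      have := hy.ok.lo_min k wa wb y.2 h' u' v1 (hy.ok.trans _ _ _ v2 l6) v3 (by
        rw [hy.ok.mul _ _ _ _ v2 l6, v4, hb, hy.ok.ath _ _ _ c3 s.2.1,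
          hz.ok.Bin k s.2.1 c3 (hz.ok.le_of_not c3 (a ▸ n3)) l5, mul_assoc])
      exact l4 ((hy.ok.ale _ _ e.1 c3).1 (hy.ok.trans _ _ _ e.2 (hy.ok.trans _ _ _ this v2)))
    obtain ⟨v, hv, rv⟩ := rep_exists hy.ok (s := .lo k wa wb y.2 h') (Or.inr ⟨wy.1, hC.trans wy.2⟩)
    have cv := (rv.cut hy.ok hv).trans hC
    have ev : v.1 = y.1 := rv.2.2.resolve_right (fun e => wy.not_cl hv.ok e cv.symm)
    have m := EMB hy.ok hy hv hy.rep rv u1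
    refine ⟨v, hv, m.1, Or.inr ⟨cv.trans a, Or.inl (ev ▸ lt)⟩, (m.2 k).trans u3, ?_⟩
    rw [S3 hv hz (cv.trans a) (ev ▸ b) (cv ▸ s') hr3, rv.B hy.ok hv k s.2.1 u2, u4, hb]
    have ab' := hz.ok.AB k gz s.2.1 zh
    rw [pr_mul, hz.ok.compat _ _ _ gz.2] at hq hr3
    calc q * th z.1 k z.2 h' * pr (r * l' * th z.1 (k + 1) g z.2)
        = q1 * pr (r * l') * (th z.1 k g z.2 * th z.1 k z.2 h' * (pr (r * l') * th z.1 k g z.2)) := by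
          rw [hq, pr_mul (r * l'), hz.ok.compat _ _ _ gz.2]; simp only [mul_assoc]
      _ = q := by rw [ab', ← hr3, hq, mul_assoc]
  · obtain ⟨wb, rfl⟩ := mk_surj q
    obtain ⟨wa, ha⟩ := mk_surj (th y.1 k g y.2 * p)
    have D : ∀ g2, Cut y.1 y.2 g2 →
        Dec k (th z.1 (k + 1) g2 z.2) (th y.1 k g2 y.2 * p) (Mod.mk k wb) := by
      intro g2 c2
      rw [AL hy hz h c2, ← hy.ok.compat k _ _ c2.2]
      exact dec_left _ d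
    obtain ⟨u1, u2, u3, u4⟩ := hz.ok.hi_spec k wa wb g z.2 gz.2 (ha ▸ D g s.1)
    have hC : Cut z.1 (.hi k wa wb g z.2) = Cut z.1 z.2 := by
      funext g2
      refine propext ⟨fun e => ⟨e.1, hz.ok.trans _ _ _ e.2 u2⟩, fun e => by_contra fun n2 => ?_⟩
      have l0 := hz.ok.le_of_not e.1 n2
      have l5 : le c.ω0 g g2 := (hz.ok.ale _ _ s.1.1 e.1).1 (hz.ok.trans _ _ _ u1 l0)
      have c3 : Cut y.1 y.2 g2 := a ▸ e
      obtain ⟨u', -, v1, v2, v3, v4⟩ := wit hz.ok.toOK e.2 (D g2 c3)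
      have l6 := (hz.ok.ale _ _ s.1.1 e.1).2 l5
      have := hz.ok.hi_max k wa wb g z.2 u' (hz.ok.trans _ _ _ l6 v1) v2 (by
        rw [hz.ok.mul _ _ _ _ l6 v1, v3, ha, hz.ok.ath _ _ _ s.1.1 e.1,
          hy.ok.Ain k s.1.1 c3 l5, mul_assoc]) v4
      exact n2 ⟨e.1, hz.ok.trans _ _ _ v1 this⟩
    obtain ⟨v, hv, rv⟩ := rep_exists hz.ok (s := .hi k wa wb g z.2) (Or.inr ⟨wz.1, hC.trans wz.2⟩)
    have cv := (rv.cut hz.ok hv).trans hC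
    have ev : v.1 = z.1 := rv.2.2.resolve_right (fun e => wz.not_cl hv.ok e cv.symm)
    have m := EMB hz.ok hv hz rv hz.rep u2
    refine ⟨v, hv, Or.inr ⟨a.trans cv.symm, Or.inl (ev ▸ lt)⟩, m.1, ?_, (m.2 k).trans u4⟩
    have gv : Cut z.1 (.hi k wa wb g z.2) g := hC ▸ gz
    rw [hy.ok.compat _ _ _ yh] at hp
    have e1 : th v.1 k g v.2 = th c.ω0 k g h' * p1 := by
      rw [rv.A hz.ok hv k gv, u3, ha, hp, ← mul_assoc, hy.ok.AB k s.1 s.2.1 yh]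
    rw [S3 hy hv (a.trans cv.symm) (ev ▸ b) s' e1, hp]

def Pt (c : Ctx) : Type := {y : Ξ × T // c.IsPt y}

noncomputable def cp (c : Ctx) (g : T) (hg : cl g) : c.Pt :=
  ⟨(rep_exists (c := c) H00 (Or.inl hg)).choose, (rep_exists (c := c) H00 (Or.inl hg)).choose_spec.1⟩

lemma cp_rep {ω : Ξ} (H : OK1 c.ω0 ω) (g : T) (hg : cl g) : Rep ω g (c.cp g hg).1 :=
  Rep.closed H00 H (c.cp g hg).2 hg (rep_exists (c := c) H00 (Or.inl hg)).choose_spec.2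

noncomputable def rs (c : Ctx) : RS c.Pt where
  le y z := c.LE y.1 z.1
  bot := c.cp T.bot trivial
  top := c.cp T.top trivial
  θ k y z := c.θ k y.1 z.1
  total y _ := LE.total y.2
  trans x y z := LE.trans x.2 y.2 z.2
  anti y z h1 h2 := Subtype.ext (LE.anti y.2 z.2 h1 h2)
  bot_le y := (EMB y.2.ok (c.cp _ _).2 y.2 (cp_rep y.2.ok _ _) y.2.rep (y.2.ok.bot_le _)).1
  le_top y := (EMB y.2.ok y.2 (c.cp _ _).2 y.2.rep (cp_rep y.2.ok _ _) (y.2.ok.le_top _)).1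
  compat _ y z := θ_compat y.2 z.2
  mul _ x y z := θ_mul x.2 y.2 z.2
  refl _ y := θ_refl y.2
  ne _ y z h e := Subtype.ext (θ_ne y.2 z.2 h e)
  rich k y z p q h d := by
    obtain ⟨u, hu, a⟩ := rich y.2 z.2 h d
    exact ⟨⟨u, hu⟩, a⟩

lemma x_pt {ω : Ξ} (h : ω ∈ c.O) : c.IsPt (ω, T.x) :=
  Or.inr ⟨⟨h, rfl⟩, fun _ _ _ => by simp [c.cdx]⟩

end Ctx

end Pool.Agent.H24.Mod
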