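import Pool.Agent.H24.Mod5

set_option autoImplicit false

namespace Pool.Agent.H24.Mod
open FirstOrder FirstOrder.Language

def seg (w : List Bool) (i j : ℕ) : List Bool := (w.take j).drop i

lemma seg_length (w : List Bool) {i j : ℕ} (hj : j ≤ w.length) : (seg w i j).length = j - i := by
  simp [seg, min_eq_left hj]

lemma seg_append (w : List Bool) {i j l : ℕ} (h1 : i ≤ j) (h2 : j ≤ l) (h3 : l ≤ w.length) :
    seg w i l = seg w i j ++ seg w j l := by
  apply List.ext_getElem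
  · simp [seg_length w h3, seg_length w (h2.trans h3)]; omega
  · intro n a b
    simp only [seg, List.getElem_append, List.getElem_drop, List.getElem_take, List.length_drop,
      List.length_take]
    split_ifs with h
    · rfl
    · congr 1
      rw [min_eq_left (h2.trans h3)] at h ⊢
      omega

lemma seg_rich (w : List Bool) {i l : ℕ} (h1 : i ≤ l) (h3 : l ≤ w.length) {a b : List Bool}
    (e : seg w i l = a ++ b) : ∃ j, i ≤ j ∧ j ≤ l ∧ seg w i j = a ∧ seg w j l = b := by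
  have hl := congrArg List.length e
  rw [seg_length w h3, List.length_append] at hl
  have h4 : i + a.length ≤ l := by omega
  rw [seg_append w (Nat.le_add_right i a.length) h4 h3] at e
  have := List.append_inj e (by rw [seg_length w (h4.trans h3)]; omega)
  exact ⟨i + a.length, by omega, h4, this.1, this.2⟩

lemma seg_one (w : List Bool) (k : ℕ) {i j : ℕ} (hj : j ≤ w.length) :
    mk k (seg w i j) = 1 ↔ j ≤ i := by
  rw [mk_eq_one, ← List.length_eq_zero_iff, seg_length w hj]; omega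

lemma seg_dec (w : List Bool) {k i l : ℕ} (h1 : i ≤ l) (h3 : l ≤ w.length) {p q : M k}
    (d : Dec k (mk (k + 1) (seg w i l)) p q) :
    ∃ j, i ≤ j ∧ j ≤ l ∧ mk k (seg w i j) = p ∧ mk k (seg w j l) = q := by
  obtain ⟨a, b, e, rfl, rfl⟩ := dec_mk d
  obtain ⟨j, a1, a2, a3, a4⟩ := seg_rich w h1 h3 e
  exact ⟨j, a1, a2, by rw [a3], by rw [a4]⟩

def wrs (w : List Bool) : RS (Fin (w.length + 1)) where
  le i j := i.1 ≤ j.1
  bot := 0
  top := Fin.last _
  θ k i j := mk k (seg w i j)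
  total i j := le_total _ _
  trans _ _ _ := le_trans
  anti _ _ h1 h2 := Fin.ext (le_antisymm h1 h2)
  bot_le _ := Nat.zero_le _
  le_top i := Fin.le_last i
  compat _ _ _ _ := rfl
  mul k _ _ z h1 h2 := by rw [seg_append w h1 h2 (Nat.lt_succ_iff.1 z.2), mk_append]
  refl k i := (seg_one w k (Nat.lt_succ_iff.1 i.2)).2 le_rfl
  ne k i j h e := Fin.ext (le_antisymm h ((seg_one w k (Nat.lt_succ_iff.1 j.2)).1 e))
  rich k i l p q h d := by
    obtain ⟨j, a1, a2, a3, a4⟩ := seg_dec w h (Nat.lt_succ_iff.1 l.2) d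
    exact ⟨⟨j, lt_of_le_of_lt a2 l.2⟩, a1, a2, a3, a4⟩

def ws (w : List Bool) (k : ℕ) (a b : List Bool) (i l : ℕ) : Set ℕ :=
  {j | i ≤ j ∧ j ≤ l ∧ mk k (seg w i j) = mk k a ∧ mk k (seg w j l) = mk k b}

noncomputable def ev (w : List Bool) (y : ℕ) : T → ℕ
  | .x => y
  | .g m i => min w.length (i * w.length / m)
  | .lo k a b s t => sInf (ws w k a b (ev w y s) (ev w y t))
  | .hi k a b s t => sSup (ws w k a b (ev w y s) (ev w y t))

lemma ws_bdd (w : List Bool) (k : ℕ) (a b : List Bool) (i l : ℕ) : BddAbove (ws w k a b i l) :=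
  ⟨l, fun _ h => h.2.1⟩

lemma ev_le (w : List Bool) {y : ℕ} (hy : y ≤ w.length) : ∀ s, ev w y s ≤ w.length
  | .x => hy
  | .g _ _ => min_le_left _ _
  | .lo k a b s t => by
    rcases (ws w k a b (ev w y s) (ev w y t)).eq_empty_or_nonempty with h | h
    · simp [ev, h]
    · exact (Nat.sInf_mem h).2.1.trans (ev_le w hy t)
  | .hi k a b s t => by
    rcases (ws w k a b (ev w y s) (ev w y t)).eq_empty_or_nonempty with h | h
    · simp [ev, h]
    · exact (Nat.sSup_mem h (ws_bdd _ _ _ _ _ _)).2.1.trans (ev_le w hy t)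

lemma ev_cl (w : List Bool) (y y' : ℕ) : ∀ s, cl s → ev w y s = ev w y' s
  | .x, h => h.elim
  | .g _ _, _ => rfl
  | .lo k a b s t, h => by simp only [ev, ev_cl w y y' s h.1, ev_cl w y y' t h.2]
  | .hi k a b s t, h => by simp only [ev, ev_cl w y y' s h.1, ev_cl w y y' t h.2]

noncomputable def D (w : List Bool) (y : ℕ) : Ξ :=
  (fun z => decide (ev w y z.1 ≤ ev w y z.2), fun c => mk c.1 (seg w (ev w y c.2.1) (ev w y c.2.2)))

lemma D_le (w : List Bool) (y : ℕ) (s t : T) : le (D w y) s t ↔ ev w y s ≤ ev w y t := by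
  simp [le, D]

lemma D_th (w : List Bool) (y k : ℕ) (s t : T) :
    th (D w y) k s t = mk k (seg w (ev w y s) (ev w y t)) := rfl

lemma D_ok (w : List Bool) {y : ℕ} (hy : y < w.length) : OK (D w y) := by
  have h := ev_le w hy.le
  constructor <;> simp only [D_le, D_th]
  · exact fun _ _ => le_total _ _
  · exact fun _ _ _ => le_trans
  · intro s; simp [ev]
  · intro s; simpa [ev] using h s
  · simpa [ev] using hy
  · exact fun _ _ _ _ => rfl
  · intro k s t u h1 h2
    rw [seg_append w h1 h2 (h u), mk_append]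
  · exact fun k s t _ => seg_one w k (h t)
  · intro k a b s t l d
    exact Nat.sInf_mem (s := ws w k a b (ev w y s) (ev w y t)) (seg_dec w l (h t) d)
  · intro k a b s t u h1 h2 h3 h4
    exact Nat.sInf_le (s := ws w k a b (ev w y s) (ev w y t)) ⟨h1, h2, h3, h4⟩
  · intro k a b s t l d
    exact Nat.sSup_mem (s := ws w k a b (ev w y s) (ev w y t)) (seg_dec w l (h t) d)
      (ws_bdd _ _ _ _ _ _)
  · intro k a b s t u h1 h2 h3 h4
    exact le_csSup (ws_bdd w k a b (ev w y s) (ev w y t)) ⟨h1, h2, h3, h4⟩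
  · intro m; simp [ev]
  · intro m; simp [ev]

instance (k : ℕ) : TopologicalSpace (M k) := ⊥
instance (k : ℕ) : DiscreteTopology (M k) := ⟨rfl⟩
instance (k : ℕ) : MeasurableSpace (M k) := ⊤
instance (k : ℕ) : DiscreteMeasurableSpace (M k) := ⟨fun _ => trivial⟩
instance : MeasurableSpace T := ⊤
instance : DiscreteMeasurableSpace T := ⟨fun _ => trivial⟩

lemma near {S : Set Ξ} {ω : Ξ} (h : ω ∈ closure S) (F : List T) (k : ℕ) : ∃ ω' ∈ S,
    (∀ s ∈ F, ∀ t ∈ F, (le ω s t ↔ le ω' s t)) ∧ (∀ s ∈ F, ∀ t ∈ F, th ω k s t = th ω' k s t) ∧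
    (∀ s ∈ F, ∀ t ∈ F, th ω (k + 1) s t = th ω' (k + 1) s t) := by
  let f : Ξ → (T × T → Bool × M k × M (k + 1)) := fun ω z => (ω.1 z, ω.2 (k, z), ω.2 (k + 1, z))
  have ho : IsOpen (⋂ z ∈ {z : T × T | z.1 ∈ F ∧ z.2 ∈ F}, {ω' | f ω' z = f ω z}) := by
    refine Set.Finite.isOpen_biInter ((List.finite_toSet F).prod (List.finite_toSet F)) ?_
    intro z _
    have : Continuous (fun ω' => f ω' z) := by fun_prop
    exact (isOpen_discrete {f ω z}).preimage this
  obtain ⟨ω', h1, h2⟩ := mem_closure_iff.1 h _ ho (by simp)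
  simp only [Set.mem_iInter, Set.mem_setOf_eq] at h1
  refine ⟨ω', h2, fun s hs t ht => ?_, fun s hs t ht => ?_, fun s hs t ht => ?_⟩
  · have := congrArg Prod.fst (h1 (s, t) ⟨hs, ht⟩)
    simp only [f] at this
    simp only [le, this]
  · exact (congrArg (fun z => z.2.1) (h1 (s, t) ⟨hs, ht⟩)).symm
  · exact (congrArg (fun z => z.2.2) (h1 (s, t) ⟨hs, ht⟩)).symm

lemma ok_closed : IsClosed {ω | OK ω} := by
  refine isClosed_of_closure_subset (fun ω h => ?_)
  constructor
  · intro s t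
    obtain ⟨ω', H, a, b, c⟩ := near h [s, t] 0
    simp (disch := simp) only [a]
    exact H.total s t
  · intro s t u
    obtain ⟨ω', H, a, b, c⟩ := near h [s, t, u] 0
    simp (disch := simp) only [a]
    exact H.trans s t u
  · intro s
    obtain ⟨ω', H, a, b, c⟩ := near h [s, T.bot] 0
    simp (disch := simp) only [a]
    exact H.bot_le s
  · intro s
    obtain ⟨ω', H, a, b, c⟩ := near h [s, T.top] 0
    simp (disch := simp) only [a]
    exact H.le_top s
  · obtain ⟨ω', H, a, b, c⟩ := near h [T.x, T.top] 0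
    simp (disch := simp) only [a]
    exact H.x_lt
  · intro k s t
    obtain ⟨ω', H, a, b, c⟩ := near h [s, t] k
    simp (disch := simp) only [a, b, c]
    exact H.compat k s t
  · intro k s t u
    obtain ⟨ω', H, a, b, c⟩ := near h [s, t, u] k
    simp (disch := simp) only [a, b, c]
    exact H.mul k s t u
  · intro k s t
    obtain ⟨ω', H, a, b, c⟩ := near h [s, t] k
    simp (disch := simp) only [a, b, c]
    exact H.one_iff k s t
  · intro k x y s t
    obtain ⟨ω', H, a, b, c⟩ := near h [s, t, .lo k x y s t] k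
    simp (disch := simp) only [a, b, c]
    exact H.lo_spec k x y s t
  · intro k x y s t u
    obtain ⟨ω', H, a, b, c⟩ := near h [s, t, u, .lo k x y s t] k
    simp (disch := simp) only [a, b, c]
    exact H.lo_min k x y s t u
  · intro k x y s t
    obtain ⟨ω', H, a, b, c⟩ := near h [s, t, .hi k x y s t] k
    simp (disch := simp) only [a, b, c]
    exact H.hi_spec k x y s t
  · intro k x y s t u
    obtain ⟨ω', H, a, b, c⟩ := near h [s, t, u, .hi k x y s t] k
    simp (disch := simp) only [a, b, c]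
    exact H.hi_max k x y s t u
  · intro m
    obtain ⟨ω', H, a, b, c⟩ := near h [.g m 0, T.bot] 0
    simp (disch := simp) only [a]
    exact H.g_zero m
  · intro m
    obtain ⟨ω', H, a, b, c⟩ := near h [.g (m + 1) (m + 1), T.top] 0
    simp (disch := simp) only [a]
    exact H.g_top m

def tm (m : ℕ) : Option (Fin (m + 2)) → T
  | none => T.x
  | some a => T.g (m + 1) a

abbrev Λ (m k : ℕ) : Type := Option (Fin (m + 2)) × Option (Fin (m + 2)) → Bool × M k

def ρ (m k : ℕ) (ω : Ξ) : Λ m k := fun z => (ω.1 (tm m z.1, tm m z.2), ω.2 (k, tm m z.1, tm m z.2))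

def Match {P : Type} (S : RS P) {m k : ℕ} (c : Fin (m + 2) → P) (u : P) (l : Λ m k) : Prop :=
  ∀ i j : Option (Fin (m + 2)), (S.le (i.elim u c) (j.elim u c) ↔ (l (i, j)).1 = true) ∧
    (S.le (i.elim u c) (j.elim u c) → S.θ k (i.elim u c) (j.elim u c) = (l (i, j)).2)

def Grid {P : Type} (S : RS P) {m : ℕ} (k : ℕ) (c : Fin (m + 2) → P) (ω0 : Ξ) : Prop :=
  c 0 = S.bot ∧ c (Fin.last _) = S.top ∧ ∀ a b : Fin (m + 2),
    (S.le (c a) (c b) ↔ le ω0 (.g (m + 1) a) (.g (m + 1) b)) ∧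
    (S.le (c a) (c b) → S.θ k (c a) (c b) = th ω0 k (.g (m + 1) a) (.g (m + 1) b))

def SepL {m k p : ℕ} (l : Fin p → Λ m k) : Prop :=
  ∀ i j, i ≠ j → ∃ a, (l i (some a, none)).1 ≠ (l j (some a, none)).1

lemma good_of_match {P P' : Type} {S : RS P} {S' : RS P'} {m k p : ℕ} {c : Fin (m + 2) → P}
    {c' : Fin (m + 2) → P'} {ω0 : Ξ} (G : Grid S k c ω0) (G' : Grid S' k c' ω0) {u : Fin p → P}
    {u' : Fin p → P'} {l : Fin p → Λ m k} (h : ∀ i, Match S c (u i) (l i))
    (h' : ∀ i, Match S' c' (u' i) (l i)) (hs : SepL l) :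
    Good S S' k (Set.range (fun i => (u i, u' i)) ∪ Set.range (fun a => (c a, c' a))) := by
  have key : ∀ i j a, (l i (some a, none)).1 = false → (l j (some a, none)).1 = true →
      (S.le (u i) (u j) ∧ S'.le (u' i) (u' j) ∧ S.θ k (u i) (u j) = S'.θ k (u' i) (u' j)) ∧
      ¬ S.le (u j) (u i) ∧ ¬ S'.le (u' j) (u' i) := by
    intro i j a e1 e2
    have n1 : ¬ S.le (c a) (u i) := fun e => by simpa [e1] using (h i (some a) none).1.1 e
    have n2 : ¬ S'.le (c' a) (u' i) := fun e => by simpa [e1] using (h' i (some a) none).1.1 e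
    have p1 : S.le (c a) (u j) := (h j (some a) none).1.2 e2
    have p2 : S'.le (c' a) (u' j) := (h' j (some a) none).1.2 e2
    have q1 := (S.total _ _).resolve_left n1
    have q2 := (S'.total _ _).resolve_left n2
    refine ⟨⟨S.trans _ _ _ q1 p1, S'.trans _ _ _ q2 p2, ?_⟩, fun e => n1 (S.trans _ _ _ p1 e),
      fun e => n2 (S'.trans _ _ _ p2 e)⟩
    rw [S.mul _ _ _ _ q1 p1, S'.mul _ _ _ _ q2 p2]
    have a1 := (h i none (some a)).2 q1
    have a2 := (h' i none (some a)).2 q2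
    have a3 := (h j (some a) none).2 p1
    have a4 := (h' j (some a) none).2 p2
    simp only [Option.elim] at a1 a2 a3 a4
    rw [a1, a2, a3, a4]
  rintro _ (⟨i, rfl⟩ | ⟨a, rfl⟩) _ (⟨j, rfl⟩ | ⟨b, rfl⟩)
  · by_cases e : i = j
    · subst e
      exact ⟨⟨fun _ => S'.rfl' _, fun _ => S.rfl' _⟩, fun _ => by simp [S.refl, S'.refl]⟩
    · obtain ⟨a, ha⟩ := hs i j e
      cases e1 : (l i (some a, none)).1 <;> cases e2 : (l j (some a, none)).1
      · exact absurd (e1.trans e2.symm) ha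
      · obtain ⟨⟨a1, a2, a3⟩, -⟩ := key i j a e1 e2
        exact ⟨⟨fun _ => a2, fun _ => a1⟩, fun _ => a3⟩
      · obtain ⟨-, a1, a2⟩ := key j i a e2 e1
        exact ⟨⟨fun e => absurd e a1, fun e => absurd e a2⟩, fun e => absurd e a1⟩
      · exact absurd (e1.trans e2.symm) ha
  · have a1 := h i none (some b)
    have a2 := h' i none (some b)
    exact ⟨a1.1.trans a2.1.symm, fun e => (a1.2 e).trans (a2.2 (a2.1.2 (a1.1.1 e))).symm⟩
  · have a1 := h j (some a) none
    have a2 := h' j (some a) none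
    exact ⟨a1.1.trans a2.1.symm, fun e => (a1.2 e).trans (a2.2 (a2.1.2 (a1.1.1 e))).symm⟩
  · have a1 := G.2.2 a b
    have a2 := G'.2.2 a b
    exact ⟨a1.1.trans a2.1.symm, fun e => (a1.2 e).trans (a2.2 (a2.1.2 (a1.1.1 e))).symm⟩

section
variable {L : FirstOrder.Language.{0, 0}} {lt : L.Relations 2} {col : L.Relations 1}

theorem transfer (hs : Sig lt col) {p : ℕ} (φ : L.Formula (Fin p)) : ∃ k, ∀ (m : ℕ) (ω0 : Ξ),
    ∃ Φ : Set (Fin p → Λ m k), ∀ (P X : Type) [L.Structure X] (S : RS P) (ι : X → P),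
      Fits lt col S ι → ∀ c : Fin (m + 2) → P, Grid S k c ω0 → ∀ (v : Fin p → X) (l : Fin p → Λ m k),
      (∀ i, Match S c (ι (v i)) (l i)) → SepL l → (φ.Realize v ↔ l ∈ Φ) := by
  obtain ⟨k, h⟩ := inv' hs φ
  refine ⟨k, fun m ω0 => ⟨{l | ∃ (P X : Type) (_ : L.Structure X) (S : RS P) (ι : X → P),
      Fits lt col S ι ∧ ∃ c : Fin (m + 2) → P, Grid S k c ω0 ∧ ∃ (v : Fin p → X),
      (∀ i, Match S c (ι (v i)) (l i)) ∧ φ.Realize v}, ?_⟩⟩
  intro P X _ S ι F c G v l hm sp
  refine ⟨fun r => ⟨P, X, _, S, ι, F, c, G, v, hm, r⟩, ?_⟩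
  rintro ⟨P', X', _, S', ι', F', c', G', v', hm', r⟩
  refine (h P P' X X' S S' ι ι' F F' _ ((Set.finite_range _).union (Set.finite_range _))
    (Or.inr ⟨0, ?_⟩) (Or.inr ⟨Fin.last _, ?_⟩) (good_of_match G G' hm hm' sp) v v'
    (fun i => Or.inl ⟨i, rfl⟩)).2 r
  · simp only [G.1, G'.1]
  · simp only [G.2.1, G'.2.1]

end

end Pool.Agent.H24.Mod
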