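import Pool.Agent.H24.Mod6

set_option autoImplicit false

namespace Pool.Agent.H24.Mod
open MeasureTheory Filter Topology ProbabilityTheory

section meas
variable {Z : Type} [MeasurableSpace Z]

lemma mle {f : Z → Ξ} {s t : Z → T} (hf : Measurable f) (hs : Measurable s) (ht : Measurable t) :
    Measurable (fun z => le (f z) (s z) (t z)) := by
  have : Measurable (fun y : Ξ × (T × T) => le y.1 y.2.1 y.2.2) :=
    measurable_from_prod_countable_left (fun y => by unfold le; dsimp only; fun_prop)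
  exact this.comp (hf.prodMk (hs.prodMk ht))

lemma mth (k : ℕ) {f : Z → Ξ} {s t : Z → T} (hf : Measurable f) (hs : Measurable s)
    (ht : Measurable t) : Measurable (fun z => th (f z) k (s z) (t z)) := by
  have : Measurable (fun y : Ξ × (T × T) => th y.1 k y.2.1 y.2.2) :=
    measurable_from_prod_countable_left (fun y => by unfold th; dsimp only; fun_prop)
  exact this.comp (hf.prodMk (hs.prodMk ht))

lemma mcut {f : Z → Ξ} {s : Z → T} (hf : Measurable f) (hs : Measurable s) (g : T) :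
    Measurable (fun z => Cut (f z) (s z) g) :=
  measurable_const.and (mle hf measurable_const hs)

lemma mcuteq {f f' : Z → Ξ} {s s' : Z → T} (hf : Measurable f) (hs : Measurable s)
    (hf' : Measurable f') (hs' : Measurable s') :
    Measurable (fun z => Cut (f z) (s z) = Cut (f' z) (s' z)) := by
  simp only [funext_iff, eq_iff_iff]
  exact Measurable.forall (fun g => (mcut hf hs g).iff (mcut hf' hs' g))

lemma mmul {k : ℕ} {f g : Z → M k} (hf : Measurable f) (hg : Measurable g) :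
    Measurable (fun z => f z * g z) :=
  (measurable_of_countable (fun y : M k × M k => y.1 * y.2)).comp (hf.prodMk hg)

lemma mst (ω0 : Ξ) (k : ℕ) {f : Z → Ξ} {s : Z → T} (hf : Measurable f) (hs : Measurable s) (g h : T) :
    Measurable (fun z => St ω0 k (Cut (f z) (s z)) g h) :=
  (mcut hf hs g).and (measurable_const.and ((mcut hf hs h).not.and
    (Measurable.forall fun g' => Measurable.forall fun h' => (mcut hf hs g').imp
      (measurable_const.imp ((mcut hf hs h').not.imp measurable_const)))))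

namespace Ctx
variable {c : Ctx}

lemma mpt (hO : MeasurableSet c.O) : MeasurableSet {y | c.IsPt y} := by
  rw [measurableSet_setOfPred]
  have h1 : Measurable (fun y : Ξ × T => y.1) := measurable_fst
  have h2 : Measurable (fun y : Ξ × T => y.2) := measurable_snd
  have h3 : ∀ s, Measurable (fun y : Ξ × T => c.cd y.2 ≤ c.cd s) := fun s =>
    (measurable_of_countable (fun t : T => c.cd t ≤ c.cd s)).comp h2
  refine Measurable.or ((h1.eq measurable_const).and (((measurable_of_countable cl).comp h2).and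
    (Measurable.forall fun s => measurable_const.imp ((mle measurable_const measurable_const h2).imp
      ((mle measurable_const h2 measurable_const).imp (h3 s))))))
    (Measurable.and (Measurable.and ?_ (mcuteq h1 h2 h1 measurable_const))
      (Measurable.forall fun s => (mle h1 measurable_const h2).imp
        ((mle h1 h2 measurable_const).imp (h3 s))))
  exact measurableSet_setOfPred.1 (h1 hO)

lemma msep {f g : Z → Ξ × T} (hf : Measurable f) (hg : Measurable g) (a : T) :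
    Measurable (fun z => Sep (f z) (g z) a) :=
  (mcut hf.fst hf.snd a).not.and (mcut hg.fst hg.snd a)

lemma mLE (he : Measurable c.e) {f g : Z → Ξ × T} (hf : Measurable f) (hg : Measurable g) :
    Measurable (fun z => c.LE (f z) (g z)) :=
  (Measurable.exists fun a => msep hf hg a).or ((mcuteq hf.fst hf.snd hg.fst hg.snd).and
    ((measurableSet_setOfPred.1 (measurableSet_lt (he.comp hf.fst) (he.comp hg.fst))).or
      ((hf.fst.eq hg.fst).and (mle hf.fst hf.snd hg.snd))))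

lemma mTh (k : ℕ) {f g : Z → Ξ × T} (hf : Measurable f) (hg : Measurable g) (p : M k) :
    Measurable (fun z => c.Th k (f z) (g z) p) :=
  (Measurable.exists fun a => (msep hf hg a).and (measurable_const.eq
    (mmul (mth k hf.fst hf.snd measurable_const) (mth k hg.fst measurable_const hg.snd)))).or
  (((mcuteq hf.fst hf.snd hg.fst hg.snd).and ((hf.fst.eq hg.fst).and
    (measurable_const.eq (mth k hf.fst hf.snd hg.snd)))).or
  ((mcuteq hf.fst hf.snd hg.fst hg.snd).and ((hf.fst.eq hg.fst).not.and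
    (Measurable.exists fun a => Measurable.exists fun b => Measurable.exists fun _ =>
      (mst c.ω0 k hf.fst hf.snd a b).and (((mth k hg.fst measurable_const hg.snd).eq
        measurable_const).and (measurable_const.eq
          (mmul (mth k hf.fst hf.snd measurable_const) measurable_const)))))))

lemma mθ (k : ℕ) {f g : Z → Ξ × T} (hf : Measurable f) (hg : Measurable g)
    (pf : ∀ z, c.IsPt (f z)) (pg : ∀ z, c.IsPt (g z)) :
    Measurable (fun z => c.θ k (f z) (g z)) := by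
  refine measurable_to_countable' (fun p => ?_)
  have : (fun z => c.θ k (f z) (g z)) ⁻¹' {p} =
      {z | c.Th k (f z) (g z) p ∨ ((¬ ∃ q, c.Th k (f z) (g z) q) ∧ p = 1)} := by
    ext z
    simp only [Set.mem_preimage, Set.mem_singleton_iff, Set.mem_ofPred_eq]
    by_cases h : ∃ q, c.Th k (f z) (g z) q
    · obtain ⟨q, hq⟩ := h
      rw [θ_eq (pf z) (pg z) hq]
      exact ⟨fun e => Or.inl (e ▸ hq), fun e => e.elim (fun e => Th.uniq (pf z) (pg z) hq e)
        (fun e => absurd ⟨q, hq⟩ e.1)⟩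
    · rw [θ, dif_neg h]
      exact ⟨fun e => Or.inr ⟨h, e.symm⟩, fun e => e.elim (fun e => absurd ⟨p, e⟩ h) (fun e => e.2.symm)⟩
  rw [this, measurableSet_setOfPred]
  exact (mTh k hf hg p).or ((Measurable.exists fun q => mTh k hf hg q).not.and measurable_const)

end Ctx
end meas

def cell (m a : ℕ) : Set Ξ := {ω | le ω (.g (m + 1) a) T.x ∧ ¬ le ω (.g (m + 1) (a + 1)) T.x}

lemma cell_clopen (m a : ℕ) : IsClopen (cell m a) := by
  have : Continuous (fun ω : Ξ => (ω.1 (.g (m + 1) a, T.x), ω.1 (.g (m + 1) (a + 1), T.x))) := by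
    fun_prop
  exact (isClopen_discrete {z : Bool × Bool | z.1 = true ∧ ¬ z.2 = true}).preimage this

lemma mem_cell {ω : Ξ} (H : OK ω) (m : ℕ) : ∃ a, a < m + 1 ∧ ω ∈ cell m a := by
  by_contra hn
  have : ∀ a, a ≤ m + 1 → le ω (.g (m + 1) a) T.x := by
    intro a
    induction a with
    | zero => exact fun _ => H.trans _ _ _ (H.g_zero _) (H.bot_le _)
    | succ a ih => exact fun h => by_contra fun e => hn ⟨a, h, ih (by omega), e⟩
  exact H.x_lt (H.trans _ _ _ (H.g_top m) (this _ le_rfl))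

lemma null_of_cut {ν : Measure Ξ} (hν : ∀ m a, ν (cell m a) ≤ ENNReal.ofReal (1 / (m + 1)))
    {S : Set Ξ} (h1 : ∀ ω ∈ S, OK ω) (h2 : ∀ ω ∈ S, ∀ ω' ∈ S, Cut ω T.x = Cut ω' T.x) : ν S = 0 := by
  rcases S.eq_empty_or_nonempty with rfl | ⟨ω, hω⟩
  · simp
  have : ∀ m : ℕ, ν S ≤ ENNReal.ofReal (1 / (m + 1)) := by
    intro m
    obtain ⟨a, -, ha⟩ := mem_cell (h1 ω hω) m
    refine le_trans (measure_mono fun ω' h' => ?_) (hν m a)
    have e := h2 ω hω ω' h'
    have e1 : Cut ω T.x (.g (m + 1) a) := ⟨trivial, ha.1⟩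
    exact ⟨(e ▸ e1 : Cut ω' T.x _).2, fun l => ha.2 (e ▸ ⟨trivial, l⟩ : Cut ω T.x _).2⟩
  have t : Tendsto (fun m : ℕ => ENNReal.ofReal (1 / ((m : ℝ) + 1))) atTop (𝓝 0) := by
    simpa using ENNReal.tendsto_ofReal tendsto_one_div_add_atTop_nhds_zero_nat
  exact le_antisymm (ge_of_tendsto' t this) zero_le

lemma ae_good {ν : Measure Ξ} (hν : ∀ m a, ν (cell m a) ≤ ENNReal.ofReal (1 / (m + 1))) {ω0 : Ξ}
    (h : ∀ᵐ ω ∂ν, OK1 ω0 ω) : ∀ᵐ ω ∂ν, OK1 ω0 ω ∧ GoodCut ω0 (Cut ω T.x) := by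
  have ex : ∀ ω ω' : Ξ, Cut ω T.x ≠ Cut ω' T.x →
      ∃ d, (Cut ω T.x d ∧ ¬ Cut ω' T.x d) ∨ (Cut ω' T.x d ∧ ¬ Cut ω T.x d) := by
    intro ω ω' hC
    by_contra hn
    apply hC
    funext g
    exact propext ⟨fun a => by_contra fun b => hn ⟨g, Or.inl ⟨a, b⟩⟩,
      fun a => by_contra fun b => hn ⟨g, Or.inr ⟨a, b⟩⟩⟩
  have A : ∀ k g h, ∀ᵐ ω ∂ν, ¬ (OK1 ω0 ω ∧ St ω0 k (Cut ω T.x) g h ∧
      ¬ ∃ g', Cut ω T.x g' ∧ le ω0 g g' ∧ J (th ω0 k g g') (th ω0 k g h)) := by
    intro k g h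
    rw [ae_iff]
    simp only [not_not]
    refine null_of_cut hν (fun ω a => a.1.toOK) ?_
    have key : ∀ ω ω' d, OK1 ω0 ω → OK1 ω0 ω' → St ω0 k (Cut ω T.x) g h → St ω0 k (Cut ω' T.x) g h →
        Cut ω' T.x d → ¬ Cut ω T.x d →
        ∃ g', Cut ω' T.x g' ∧ le ω0 g g' ∧ J (th ω0 k g g') (th ω0 k g h) := by
      intro ω ω' d H H' s s' a b
      refine ⟨d, a, (H.cut_le s.1 a.1 b).1, s.2.2.2 g d s.1 a.1 b ?_ (H'.cut_le a s'.2.1 s'.2.2.1).1⟩
      exact (H.ale _ _ s.1.1 s.1.1).1 (H.rfl' _)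
    rintro ω ⟨H, s, n⟩ ω' ⟨H', s', n'⟩
    by_contra hC
    obtain ⟨d, ⟨a, b⟩ | ⟨a, b⟩⟩ := ex ω ω' hC
    exacts [n (key ω' ω d H' H s' s a b), n' (key ω ω' d H H' s s' a b)]
  have B : ∀ k g h, ∀ᵐ ω ∂ν, ¬ (OK1 ω0 ω ∧ St ω0 k (Cut ω T.x) g h ∧
      ¬ ∃ h', cl h' ∧ ¬ Cut ω T.x h' ∧ le ω0 h' h ∧ J (th ω0 k h' h) (th ω0 k g h)) := by
    intro k g h
    rw [ae_iff]
    simp only [not_not]
    refine null_of_cut hν (fun ω a => a.1.toOK) ?_
    have key : ∀ ω ω' d, OK1 ω0 ω → OK1 ω0 ω' → St ω0 k (Cut ω T.x) g h → St ω0 k (Cut ω' T.x) g h →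
        Cut ω' T.x d → ¬ Cut ω T.x d →
        ∃ h', cl h' ∧ ¬ Cut ω T.x h' ∧ le ω0 h' h ∧ J (th ω0 k h' h) (th ω0 k g h) := by
      intro ω ω' d H H' s s' a b
      refine ⟨d, a.1, b, (H'.cut_le a s'.2.1 s'.2.2.1).1,
        s'.2.2.2 d h a s'.2.1 s'.2.2.1 (H.cut_le s.1 a.1 b).1 ?_⟩
      exact (H.ale _ _ s.2.1 s.2.1).1 (H.rfl' _)
    rintro ω ⟨H, s, n⟩ ω' ⟨H', s', n'⟩
    by_contra hC
    obtain ⟨d, ⟨a, b⟩ | ⟨a, b⟩⟩ := ex ω ω' hC
    exacts [n' (key ω' ω d H' H s' s a b), n (key ω ω' d H H' s s' a b)]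
  simp only [← ae_all_iff] at A B
  filter_upwards [h, A, B] with ω H a b
  exact ⟨H, fun k g h s => ⟨by_contra fun n => a k g h ⟨H, s, n⟩, by_contra fun n => b k g h ⟨H, s, n⟩⟩⟩

def NS (m k p : ℕ) : Set (Fin p → Ξ) := {v | ¬ SepL (fun i => ρ m k (v i))}

lemma rho_clopen (m k p : ℕ) (Φ : Set (Fin p → Λ m k)) :
    IsClopen {v : Fin p → Ξ | (fun i => ρ m k (v i)) ∈ Φ} := by
  have : Continuous (fun v : Fin p → Ξ => (fun i => ρ m k (v i))) := by
    unfold ρ; fun_prop
  exact (isClopen_discrete Φ).preimage this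

lemma NS_le {ν : Measure Ξ} [IsProbabilityMeasure ν]
    (hν : ∀ m a, ν (cell m a) ≤ ENNReal.ofReal (1 / (m + 1))) (h : ∀ᵐ ω ∂ν, OK ω) (m k p : ℕ) :
    (Measure.pi fun _ : Fin p => ν).real (NS m k p) ≤ (p : ℝ) ^ 2 / (m + 1) := by
  classical
  let B : Fin p × Fin p × Fin (m + 1) → Set (Fin p → Ξ) := fun z =>
    if z.1 = z.2.1 then ∅ else Set.univ.pi fun l => if l = z.1 ∨ l = z.2.1 then cell m z.2.2 else Set.univ
  have h1 : ∀ᵐ v ∂(Measure.pi fun _ : Fin p => ν), ∀ i, OK (v i) :=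
    ae_all_iff.2 fun i => (Measure.tendsto_eval_ae_ae (μ := fun _ : Fin p => ν) (i := i)).eventually h
  have h2 : NS m k p ≤ᵐ[Measure.pi fun _ : Fin p => ν] (⋃ z, B z : Set (Fin p → Ξ)) := by
    filter_upwards [h1] with v hv hn
    have hn' : ¬ SepL (fun i => ρ m k (v i)) := hn
    simp only [SepL, not_forall, not_exists, not_not] at hn'
    obtain ⟨i, j, hij, e⟩ := hn'
    obtain ⟨a, ha, hc⟩ := mem_cell (hv i) m
    refine Set.mem_iUnion.2 ⟨(i, j, ⟨a, ha⟩), ?_⟩
    simp only [B, if_neg hij]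
    intro l _
    dsimp only
    split_ifs with hl
    · rcases hl with rfl | rfl
      · exact hc
      · have e1 := e ⟨a, by omega⟩
        have e2 := e ⟨a + 1, by omega⟩
        simp only [ρ, tm] at e1 e2
        simp only [cell, le, Set.mem_ofPred_eq] at hc ⊢
        rw [← e1, ← e2]; exact hc
    · trivial
  have h3 : ∀ z, (Measure.pi fun _ : Fin p => ν).real (B z) ≤ (1 / (m + 1)) ^ 2 := by
    rintro ⟨i, j, a⟩
    simp only [B]
    split_ifs with hij
    · simp only [measureReal_empty]; positivity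
    · rw [Measure.real, Measure.pi_pi]
      have : ∏ l, ν (if l = i ∨ l = j then cell m a else Set.univ) = ν (cell m a) ^ 2 := by
        rw [← Finset.prod_subset (Finset.subset_univ {i, j})]
        · rw [Finset.prod_pair hij]; simp [sq]
        · intro l _ hl
          simp only [Finset.mem_insert, Finset.mem_singleton] at hl
          simp [hl]
      rw [this, ENNReal.toReal_pow]
      refine pow_le_pow_left₀ ENNReal.toReal_nonneg ?_ 2
      exact ENNReal.toReal_le_of_le_ofReal (by positivity) (hν m a)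
  calc _ ≤ (Measure.pi fun _ : Fin p => ν).real (⋃ z, B z) :=
        ENNReal.toReal_mono (measure_ne_top _ _) (measure_mono_ae h2)
    _ ≤ ∑ z, (Measure.pi fun _ : Fin p => ν).real (B z) := measureReal_iUnion_fintype_le _
    _ ≤ ∑ _z : Fin p × Fin p × Fin (m + 1), (1 / ((m : ℝ) + 1)) ^ 2 := Finset.sum_le_sum fun z _ => h3 z
    _ = _ := by
      simp only [Finset.sum_const, Finset.card_univ, Fintype.card_prod, Fintype.card_fin, nsmul_eq_mul]
      push_cast
      field_simp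

lemma sandwich {Z : Type} [MeasurableSpace Z] (P : Measure Z) [IsProbabilityMeasure P] {E C N : Set Z}
    (h : ∀ᵐ z ∂P, z ∉ N → (z ∈ E ↔ z ∈ C)) : |P.real E - P.real C| ≤ P.real N := by
  have key : ∀ {E C : Set Z}, (∀ᵐ z ∂P, z ∉ N → (z ∈ E → z ∈ C)) → P.real E ≤ P.real C + P.real N := by
    intro E C h
    refine le_trans (ENNReal.toReal_mono (measure_ne_top _ _) (measure_mono_ae (t := C ∪ N) ?_))
      (measureReal_union_le C N)
    filter_upwards [h] with z hz he
    by_cases n : z ∈ N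
    exacts [Or.inr n, Or.inl (hz n he)]
  have a := key (h.mono fun z hz n => (hz n).1)
  have b := key (h.mono fun z hz n => (hz n).2)
  rw [abs_le]
  constructor <;> linarith

end Pool.Agent.H24.Mod
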