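import Pool.Agent.H24.Mod7

set_option autoImplicit false

namespace Pool.Agent.H24.Mod
open MeasureTheory Filter Topology ProbabilityTheory FirstOrder FirstOrder.Language

lemma unif_real {X : Type} [Finite X] [MeasurableSpace X] [DiscreteMeasurableSpace X] (E : Set X) :
    (uniformOn (Set.univ : Set X)).real E = (Nat.card {v // v ∈ E} : ℝ) / Nat.card X := by
  have := Fintype.ofFinite X
  rw [Measure.real, uniformOn_univ, Measure.count_apply_finite _ (Set.toFinite E), ENNReal.toReal_div]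
  simp only [ENNReal.toReal_natCast, Nat.card_eq_fintype_card (α := X)]
  congr 2
  rw [← Set.ncard_eq_toFinset_card E]
  rfl

lemma unif_pi {X : Type} [Finite X] [MeasurableSpace X] [DiscreteMeasurableSpace X] (p : ℕ)
    (E : Set (Fin p → X)) : (Measure.pi fun _ : Fin p => uniformOn (Set.univ : Set X)).real E =
      (Nat.card {v // v ∈ E} : ℝ) / (Nat.card X : ℝ) ^ p := by
  rw [← uniformOn_pi, Set.pi_univ, unif_real]
  simp [Nat.card_fun]

section
variable {L : FirstOrder.Language.{0, 0}} {lt : L.Relations 2} {col : L.Relations 1}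

def Xc (c : Ctx) : Type := {y : Ξ × T // c.IsPt y ∧ y ≠ c.rs.top.1}

instance (c : Ctx) : MeasurableSpace (Xc c) := Subtype.instMeasurableSpace

def ιc (c : Ctx) (x : Xc c) : c.Pt := ⟨x.1, x.2.1⟩

def relc (c : Ctx) : ∀ n : ℕ, (Fin n → Xc c) → Prop
  | 1, v => hd (c.rs.θ 0 (ιc c (v 0)) c.rs.top) = some true
  | 2, v => c.rs.le (ιc c (v 0)) (ιc c (v 1)) ∧ ¬ c.rs.le (ιc c (v 1)) (ιc c (v 0))
  | _, _ => False

def strc (hs : Sig lt col) (c : Ctx) : L.Structure (Xc c) where
  funMap f _ := ((hs.hf _).false f).elim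
  RelMap {n} _ v := relc c n v

lemma fitsc (hs : Sig lt col) (c : Ctx) : @Fits L lt col _ c.rs _ (strc hs c) (ιc c) := by
  letI := strc hs c
  refine ⟨fun x y e => Subtype.ext (congrArg (fun u : c.Pt => u.1) e), fun u => ⟨fun h => ?_, ?_⟩,
    fun x y => Iff.rfl, fun x => Iff.rfl⟩
  · exact ⟨⟨u.1, u.2, fun e => h (Subtype.ext e)⟩, rfl⟩
  · rintro ⟨x, rfl⟩ e
    exact x.2.2 (congrArg Subtype.val e)

lemma measc (hs : Sig lt col) (c : Ctx) (he : Measurable c.e) {p : ℕ} (φ : L.Formula (Fin p)) :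
    MeasurableSet {v : Fin p → Xc c | @Formula.Realize L _ (strc hs c) _ φ v} := by
  letI := strc hs c
  obtain ⟨k, h⟩ := inv' hs φ
  let pt : (Fin p → Xc c) → Fin p ⊕ Bool → c.Pt := fun v =>
    Sum.elim (fun i => ιc c (v i)) (fun b => cond b c.rs.top c.rs.bot)
  let pat : (Fin p → Xc c) → ((Fin p ⊕ Bool) × (Fin p ⊕ Bool) → Prop × M k) := fun v z =>
    (c.rs.le (pt v z.1) (pt v z.2), c.rs.θ k (pt v z.1) (pt v z.2))
  have m1 : ∀ i, Measurable (fun v => (pt v i).1) := by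
    rintro (i | b)
    · show Measurable (fun v : Fin p → Xc c => (v i).1)
      exact measurable_subtype_coe.comp (measurable_pi_apply i)
    · show Measurable (fun _ : Fin p → Xc c => (cond b c.rs.top c.rs.bot).1)
      exact measurable_const
  have m2 : Measurable pat := measurable_pi_lambda _ fun z =>
    (Ctx.mLE he (m1 z.1) (m1 z.2)).prodMk
      (Ctx.mθ k (m1 z.1) (m1 z.2) (fun v => (pt v z.1).2) (fun v => (pt v z.2).2))
  have : {v : Fin p → Xc c | φ.Realize v} = pat ⁻¹' (pat '' {v | φ.Realize v}) := by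
    ext v
    refine ⟨fun hv => ⟨v, hv, rfl⟩, ?_⟩
    rintro ⟨v', hv', e⟩
    refine (h _ _ _ _ c.rs c.rs _ _ (fitsc hs c) (fitsc hs c) (Set.range fun i => (pt v' i, pt v i))
      (Set.finite_range _) ⟨Sum.inr false, rfl⟩ ⟨Sum.inr true, rfl⟩ ?_ v' v
      (fun i => ⟨Sum.inl i, rfl⟩)).1 hv'
    rintro _ ⟨i, rfl⟩ _ ⟨j, rfl⟩
    have := congrFun e (i, j)
    exact ⟨iff_of_eq (congrArg Prod.fst this), fun _ => congrArg Prod.snd this⟩
  rw [this]
  exact m2 (Set.toFinite _).measurableSet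

lemma gridc (c : Ctx) (m k : ℕ) :
    Grid c.rs k (fun a : Fin (m + 2) => c.cp (.g (m + 1) a) trivial) c.ω0 := by
  have r := fun g hg => Ctx.cp_rep (c := c) Ctx.H00 g hg
  refine ⟨c.rs.anti _ _ ?_ (c.rs.bot_le _), c.rs.anti _ _ (c.rs.le_top _) ?_, fun a b => ?_⟩
  · exact (Ctx.EMB Ctx.H00 (c.cp _ _).2 (c.cp _ _).2 (r (.g _ _) trivial) (r (.g _ _) trivial) (c.H0.g_zero _)).1
  · exact (Ctx.EMB Ctx.H00 (c.cp _ _).2 (c.cp _ _).2 (r (.g _ _) trivial) (r (.g _ _) trivial) (c.H0.g_top _)).1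
  · have := Ctx.EMB' Ctx.H00 (c.cp (.g (m + 1) a) trivial).2 (c.cp (.g (m + 1) b) trivial).2
      (r _ _) (r _ _)
    exact ⟨this, fun l => (Ctx.EMB Ctx.H00 (c.cp _ _).2 (c.cp _ _).2 (r _ _) (r _ _) (this.1 l)).2 k⟩

lemma matchc (c : Ctx) (m k : ℕ) {ω : Ξ} (h : ω ∈ c.O) (u : c.Pt) (hu : u.1 = (ω, T.x)) :
    Match c.rs (fun a : Fin (m + 2) => c.cp (.g (m + 1) a) trivial) u (ρ m k ω) := by
  have H := (c.hO ω h).1
  have r : ∀ i : Option (Fin (m + 2)), Ctx.Rep ω (tm m i)
      (i.elim u (fun a : Fin (m + 2) => c.cp (.g (m + 1) a) trivial)).1 := by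
    rintro (_ | a)
    · have := u.2.rep
      simp only [Option.elim, tm]
      rw [hu] at this ⊢
      exact this
    · exact Ctx.cp_rep H (.g _ _) trivial
  intro i j
  have := Ctx.EMB' H (Subtype.property _) (Subtype.property _) (r i) (r j)
  exact ⟨this, fun l => (Ctx.EMB H (Subtype.property _) (Subtype.property _) (r i) (r j) (this.1 l)).2 k⟩

noncomputable def gw (w : List Bool) (m : ℕ) (a : Fin (m + 2)) : Fin (w.length + 1) :=
  ⟨ev w 0 (.g (m + 1) a), Nat.lt_succ_of_le (ev_le w (Nat.zero_le _) _)⟩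

lemma matchw (w : List Bool) (m k : ℕ) (u : Fin (w.length + 1)) :
    Match (wrs w) (gw w m) u (ρ m k (D w u)) := by
  have r : ∀ i : Option (Fin (m + 2)), ((i.elim u (gw w m) : Fin _) : ℕ) = ev w u (tm m i) := by
    rintro (_ | a) <;> rfl
  intro i j
  refine ⟨?_, fun _ => ?_⟩
  · simp only [wrs, ρ, D, r, decide_eq_true_eq]
  · simp only [wrs, ρ, D, r]

lemma gridw (w : List Bool) (m k : ℕ) (ω0 : Ξ) (h : ∀ a b : Fin (m + 2),
    (D w 0).1 (.g (m + 1) a, .g (m + 1) b) = ω0.1 (.g (m + 1) a, .g (m + 1) b) ∧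
    (D w 0).2 (k, .g (m + 1) a, .g (m + 1) b) = ω0.2 (k, .g (m + 1) a, .g (m + 1) b)) :
    Grid (wrs w) k (gw w m) ω0 := by
  refine ⟨Fin.ext (by simp [gw, ev, wrs]), Fin.ext (by simp [gw, ev, wrs]), fun a b => ⟨?_, fun _ => ?_⟩⟩
  · unfold le
    rw [← (h a b).1]
    exact (D_le w 0 _ _).symm
  · unfold th
    rw [← (h a b).2]
    rfl

lemma cell_count {X : Type} [Finite X] (w : List Bool) (ι : X → Fin (w.length + 1))
    (hi : Function.Injective ι) (m a : ℕ) :
    Nat.card {x // x ∈ (fun x => D w (ι x)) ⁻¹' cell m a} ≤ w.length / (m + 1) + 1 := by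
  let f : {x // x ∈ (fun x => D w (ι x)) ⁻¹' cell m a} →
      Finset.Ico (a * w.length / (m + 1)) (a * w.length / (m + 1) + (w.length / (m + 1) + 1)) :=
    fun x => ⟨ι x.1, by
      have h := x.2
      simp only [Set.mem_preimage, cell, Set.mem_ofPred_eq, D_le, ev] at h
      have h1 : (a + 1) * w.length / (m + 1) ≤ a * w.length / (m + 1) + (w.length / (m + 1) + 1) := by
        rw [add_mul, one_mul, ← add_assoc]
        exact Nat.add_div_le_div_add_div_add_one _ _ _
      rw [Finset.mem_Ico]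
      omega⟩
  have := Nat.card_le_card_of_injective f (fun x y e =>
    Subtype.ext (hi (Fin.ext (congrArg Subtype.val e))))
  rw [Nat.card_eq_fintype_card (α := Finset.Ico _ _), Fintype.card_coe, Nat.card_Ico, Nat.add_sub_cancel_left] at this
  exact this

instance (p : ℕ) : OpensMeasurableSpace (Fin p → Ξ) := inferInstance

lemma tpi {ν : ℕ → ProbabilityMeasure Ξ} {ν0 : ProbabilityMeasure Ξ} {U : Filter ℕ}
    (hν : Tendsto ν U (𝓝 ν0)) (p : ℕ) (C : Set (Fin p → Ξ)) (hC : IsClopen C) :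
    Tendsto (fun n => (Measure.pi fun _ : Fin p => (ν n : Measure Ξ)).real C) U
      (𝓝 ((Measure.pi fun _ : Fin p => (ν0 : Measure Ξ)).real C)) := by
  have tp : Tendsto (fun n => ProbabilityMeasure.pi fun _ : Fin p => ν n) U
      (𝓝 (ProbabilityMeasure.pi fun _ : Fin p => ν0)) :=
    (ProbabilityMeasure.continuous_pi.tendsto _).comp (tendsto_pi_nhds.2 fun _ => hν)
  exact NNReal.tendsto_coe.2 (ProbabilityMeasure.tendsto_measure_of_isClopen_of_tendsto tp hC)

theorem limit (hs : Sig lt col) (A : ℕ → Type) [∀ n, Finite (A n)] [∀ n, Nonempty (A n)]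
    [∀ n, L.Structure (A n)] (w : ℕ → List Bool) (ι : ∀ n, A n → Fin ((w n).length + 1))
    (F : ∀ n, Fits lt col (wrs (w n)) (ι n)) (hc : ∀ n, Nat.card (A n) = (w n).length)
    (U : Ultrafilter ℕ) (hU : Tendsto (fun n => (w n).length) U atTop) :
    ∃ (M : Type) (_ : MeasurableSpace M) (_ : StandardBorelSpace M) (_ : L.Structure M)
      (μ : Measure M) (_ : IsProbabilityMeasure μ),
      (∀ (p : ℕ) (φ : L.Formula (Fin p)), MeasurableSet {v : Fin p → M | φ.Realize v}) ∧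
      ∀ (p : ℕ) (φ : L.Formula (Fin p)),
        Tendsto (fun n : ℕ => (Nat.card {v : Fin p → A n // φ.Realize v} : ℝ) /
          (Nat.card (A n) : ℝ) ^ p) U
          (𝓝 ((Measure.pi (fun _ : Fin p => μ)) {v : Fin p → M | φ.Realize v}).toReal) := by
  classical
  letI : ∀ n, MeasurableSpace (A n) := fun _ => ⊤
  have : ∀ n, DiscreteMeasurableSpace (A n) := fun _ => ⟨fun _ => trivial⟩
  have hlt : ∀ n x, (ι n x : ℕ) < (w n).length := fun n x =>
    Fin.val_lt_last (((F n).surj _).2 ⟨x, rfl⟩)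
  have hpos : ∀ n, 0 < (w n).length := fun n => hc n ▸ Nat.card_pos
  let f : ∀ n, A n → Ξ := fun n x => D (w n) (ι n x)
  have mf : ∀ n, Measurable (f n) := fun n => measurable_of_countable _
  let ν : ℕ → ProbabilityMeasure Ξ := fun n =>
    ⟨(uniformOn Set.univ).map (f n), Measure.isProbabilityMeasure_map (mf n).aemeasurable⟩
  obtain ⟨ν0, hν⟩ : ∃ ν0, Tendsto ν U (𝓝 ν0) := ⟨_, (U.map ν).le_nhds_lim⟩
  obtain ⟨ω0, hω⟩ : ∃ ω0, Tendsto (fun n => D (w n) 0) U (𝓝 ω0) :=
    ⟨_, (U.map fun n => D (w n) 0).le_nhds_lim⟩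
  have H0 : OK ω0 := ok_closed.mem_of_tendsto hω (Eventually.of_forall fun n => D_ok _ (hpos n))
  have e1 : ∀ z, ∀ᶠ n in U, (D (w n) 0).1 z = ω0.1 z := fun z =>
    tendsto_pure.1 (nhds_discrete Bool ▸
      ((show Continuous (fun ω : Ξ => ω.1 z) by fun_prop).tendsto ω0).comp hω)
  have e2 : ∀ z, ∀ᶠ n in U, (D (w n) 0).2 z = ω0.2 z := fun z =>
    tendsto_pure.1 (nhds_discrete (M z.1) ▸
      ((show Continuous (fun ω : Ξ => ω.2 z) by fun_prop).tendsto ω0).comp hω)
  have full : ∀ C : Set Ξ, IsClosed C → (∀ᶠ n in U, ∀ x, f n x ∈ C) → ∀ᵐ ω ∂(ν0 : Measure Ξ), ω ∈ C := by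
    intro C hC h
    have := ProbabilityMeasure.limsup_measure_closed_le_of_tendsto hν hC
    have h1 : (fun n => (ν n : Measure Ξ) C) =ᶠ[U] fun _ => 1 := by
      filter_upwards [h] with n hn
      show ((uniformOn Set.univ).map (f n)) C = 1
      rw [Measure.map_apply (mf n) hC.measurableSet, Set.eq_univ_of_forall (s := f n ⁻¹' C) hn]
      exact measure_univ
    rw [limsup_congr h1, limsup_const] at this
    exact (mem_ae_iff_prob_eq_one hC.measurableSet).2 (le_antisymm prob_le_one this)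
  have aeok : ∀ᵐ ω ∂(ν0 : Measure Ξ), OK ω :=
    full _ ok_closed (Eventually.of_forall fun n x => D_ok _ (hlt n x))
  have ae1 : ∀ᵐ ω ∂(ν0 : Measure Ξ), OK1 ω0 ω := by
    have a : ∀ s t, ∀ᵐ ω ∂(ν0 : Measure Ξ), cl s → cl t → ω.1 (s, t) = ω0.1 (s, t) := by
      intro s t
      by_cases h : cl s ∧ cl t
      · refine (full {ω | ω.1 (s, t) = ω0.1 (s, t)} (isClosed_eq (by fun_prop) continuous_const)
          ?_).mono fun ω a _ _ => a
        filter_upwards [e1 (s, t)] with n hn x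
        show (D (w n) (ι n x)).1 (s, t) = _
        rw [← hn]
        simp only [D, ev_cl (w n) (ι n x) 0 s h.1, ev_cl (w n) (ι n x) 0 t h.2]
      · exact Eventually.of_forall fun ω a b => absurd ⟨a, b⟩ h
    have b : ∀ k s t, ∀ᵐ ω ∂(ν0 : Measure Ξ), cl s → cl t → ω.2 (k, s, t) = ω0.2 (k, s, t) := by
      intro k s t
      by_cases h : cl s ∧ cl t
      · refine (full {ω | ω.2 (k, s, t) = ω0.2 (k, s, t)} (isClosed_eq (by fun_prop) continuous_const)
          ?_).mono fun ω a _ _ => a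
        filter_upwards [e2 (k, s, t)] with n hn x
        show (D (w n) (ι n x)).2 (k, s, t) = _
        rw [← hn]
        simp only [D, ev_cl (w n) (ι n x) 0 s h.1, ev_cl (w n) (ι n x) 0 t h.2]
      · exact Eventually.of_forall fun ω a b => absurd ⟨a, b⟩ h
    simp only [← ae_all_iff] at a b
    filter_upwards [aeok, a, b] with ω h a b
    exact ⟨h, fun s t hs ht => by unfold le; rw [a s t hs ht], b⟩
  have hcell : ∀ m a, (ν0 : Measure Ξ) (cell m a) ≤ ENNReal.ofReal (1 / (m + 1)) := by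
    intro m a
    have t1 := ProbabilityMeasure.tendsto_measure_of_isClopen_of_tendsto hν (cell_clopen m a)
    have t2 : Tendsto (fun n => (1 : ℝ) / (m + 1) + 1 / ((w n).length : ℝ)) U (𝓝 (1 / (m + 1) + 0)) :=
      tendsto_const_nhds.add (tendsto_one_div_atTop_nhds_zero_nat.comp hU)
    have t3 := le_of_tendsto_of_tendsto' (NNReal.tendsto_coe.2 t1) t2 (fun n => by
      have : ((ν n) (cell m a) : ℝ) = (uniformOn Set.univ).real (f n ⁻¹' cell m a) := by
        rw [← map_measureReal_apply (mf n) (cell_clopen m a).isClosed.measurableSet]; rfl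
      rw [this, unif_real, hc n]
      have h1 := cell_count (w n) (ι n) (F n).inj m a
      have h2 : (0 : ℝ) < (w n).length := by exact_mod_cast hpos n
      have h3 : (((w n).length / (m + 1) : ℕ) : ℝ) ≤ (w n).length / ((m + 1 : ℕ) : ℝ) := Nat.cast_div_le
      have h4 : (Nat.card {x // x ∈ f n ⁻¹' cell m a} : ℝ) ≤ (((w n).length / (m + 1) : ℕ) : ℝ) + 1 := by
        exact_mod_cast h1
      rw [div_le_iff₀ h2, add_mul, one_div_mul_cancel h2.ne', one_div, ← div_eq_inv_mul]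
      push_cast at h3
      linarith)
    rw [add_zero] at t3
    rw [← ENNReal.ofReal_toReal (measure_ne_top (ν0 : Measure Ξ) (cell m a))]
    exact ENNReal.ofReal_le_ofReal t3
  have aeg := ae_good hcell ae1
  obtain ⟨cd0, hcd⟩ := exists_injective_nat T
  let B : Set Ξ := toMeasurable ν0 {ω | ¬ (OK1 ω0 ω ∧ GoodCut ω0 (Cut ω T.x))}
  let c : Ctx := ⟨ω0, Bᶜ, embeddingReal Ξ, fun s => if s = T.x then 0 else cd0 s + 1, H0,
    fun ω h => by_contra fun n => h (subset_toMeasurable _ _ n),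
    (measurableEmbedding_embeddingReal Ξ).injective, by
      intro s t e
      dsimp only at e
      split_ifs at e with a b b
      · rw [a, b]
      · exact hcd (by omega), by simp⟩
  have mO : MeasurableSet c.O := (measurableSet_toMeasurable _ _).compl
  have aeO : ∀ᵐ ω ∂(ν0 : Measure Ξ), ω ∈ c.O := by
    rw [ae_iff]
    simp only [c, Set.mem_compl_iff, not_not, Set.ofPred_mem_eq, B, measure_toMeasurable]
    exact ae_iff.1 aeg
  have mX : MeasurableSet {y : Ξ × T | c.IsPt y ∧ y ≠ c.rs.top.1} :=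
    (Ctx.mpt mO).inter (measurableSet_singleton _).compl
  have xt : ∀ ω, ω ∈ c.O → (ω, T.x) ≠ c.rs.top.1 := by
    intro ω h e
    have H := (c.hO ω h).1
    have := (Ctx.cp_rep (c := c) H T.top trivial).2.1
    have e' : (c.cp T.top trivial).1 = (ω, T.x) := e.symm
    rw [e'] at this
    exact H.x_lt this
  have bt : c.rs.bot.1 ≠ c.rs.top.1 := by
    intro e
    have a := (Ctx.cp_rep (c := c) Ctx.H00 T.top trivial).2.1
    have b := (Ctx.cp_rep (c := c) Ctx.H00 T.bot trivial).1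
    have e' : (c.cp T.top trivial).1 = (c.cp T.bot trivial).1 := e.symm
    rw [e'] at a
    exact H0.x_lt (H0.trans _ _ _ a (H0.trans _ _ _ b (H0.bot_le _)))
  let e : Ξ → Xc c := fun ω => ⟨if ω ∈ c.O then (ω, T.x) else c.rs.bot.1, by
    split_ifs with h
    exacts [⟨Ctx.x_pt h, xt ω h⟩, ⟨c.rs.bot.2, bt⟩]⟩
  have me : Measurable e :=
    Measurable.subtype_mk (Measurable.ite mO (measurable_id.prodMk measurable_const) measurable_const)
  letI := strc hs c
  have : IsProbabilityMeasure ((ν0 : Measure Ξ).map e) := Measure.isProbabilityMeasure_map me.aemeasurable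
  have mφ := fun p φ => measc hs c (measurable_embeddingReal Ξ) (p := p) φ
  refine ⟨Xc c, inferInstance, mX.standardBorel, strc hs c, (ν0 : Measure Ξ).map e, this, mφ, ?_⟩
  intro p φ
  obtain ⟨k, hk⟩ := transfer hs φ
  have tc : ∀ C : Set (Fin p → Ξ), IsClopen C →
      Tendsto (fun n => (Measure.pi fun _ : Fin p => uniformOn (Set.univ : Set (A n))).real
        ((fun v i => f n (v i)) ⁻¹' C)) U (𝓝 ((Measure.pi fun _ : Fin p => (ν0 : Measure Ξ)).real C)) := by
    intro C hC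
    refine (tpi hν p C hC).congr fun n => ?_
    rw [← map_measureReal_apply (measurable_of_countable _) hC.isClosed.measurableSet,
      Measure.pi_map_pi (fun _ => (mf n).aemeasurable)]
    rfl
  have me' : Measurable (fun (x : Fin p → Ξ) i => e (x i)) :=
    measurable_pi_lambda _ fun i => me.comp (measurable_pi_apply i)
  rw [← Measure.pi_map_pi (fun _ => me.aemeasurable), Measure.map_apply me' (mφ p φ)]
  refine Metric.tendsto_nhds.2 fun ε hε => ?_
  obtain ⟨m, hm⟩ : ∃ m : ℕ, (p : ℝ) ^ 2 / (m + 1) < ε / 4 := by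
    obtain ⟨m, hm⟩ := exists_nat_gt ((p : ℝ) ^ 2 / (ε / 4))
    refine ⟨m, ?_⟩
    rw [div_lt_iff₀ (by positivity)] at hm ⊢
    nlinarith
  obtain ⟨Φ, hΦ⟩ := hk m ω0
  have hN := NS_le hcell aeok m k p
  have cN : IsClopen (NS m k p) := rho_clopen m k p {l | ¬ SepL l}
  have s1 := sandwich (Measure.pi fun _ : Fin p => (ν0 : Measure Ξ))
    (E := (fun x i => e (x i)) ⁻¹' {v : Fin p → Xc c | φ.Realize v})
    (C := {v | (fun i => ρ m k (v i)) ∈ Φ}) (N := NS m k p) (by
      have h1 : ∀ᵐ v ∂(Measure.pi fun _ : Fin p => (ν0 : Measure Ξ)), ∀ i, v i ∈ c.O :=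
        ae_all_iff.2 fun i =>
          (Measure.tendsto_eval_ae_ae (μ := fun _ : Fin p => (ν0 : Measure Ξ)) (i := i)).eventually aeO
      filter_upwards [h1] with v hv hn
      exact hΦ _ _ c.rs (ιc c) (fitsc hs c) _ (gridc c m k) _ _
        (fun i => matchc c m k (hv i) _ (if_pos (hv i))) (not_not.1 hn))
  have g : ∀ᶠ n in U, Grid (wrs (w n)) k (gw (w n) m) ω0 := by
    have : ∀ᶠ n in U, ∀ a b : Fin (m + 2),
        (D (w n) 0).1 (.g (m + 1) a, .g (m + 1) b) = ω0.1 (.g (m + 1) a, .g (m + 1) b) ∧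
        (D (w n) 0).2 (k, .g (m + 1) a, .g (m + 1) b) = ω0.2 (k, .g (m + 1) a, .g (m + 1) b) :=
      eventually_all.2 fun a => eventually_all.2 fun b => (e1 _).and (e2 _)
    exact this.mono fun n h => gridw _ m k ω0 h
  filter_upwards [g, Metric.tendsto_nhds.1 (tc _ (rho_clopen m k p Φ)) (ε / 4) (by positivity),
    Metric.tendsto_nhds.1 (tc _ cN) (ε / 4) (by positivity)] with n g1 g2 g3
  have s2 := sandwich (Measure.pi fun _ : Fin p => uniformOn (Set.univ : Set (A n)))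
    (E := {v | φ.Realize v})
    (C := (fun v i => f n (v i)) ⁻¹' {v | (fun i => ρ m k (v i)) ∈ Φ})
    (N := (fun v i => f n (v i)) ⁻¹' NS m k p) (Eventually.of_forall fun v hn =>
      hΦ _ _ (wrs (w n)) (ι n) (F n) _ g1 v _ (fun i => matchw _ m k _) (not_not.1 hn))
  rw [unif_pi p {v | φ.Realize v}] at s2
  rw [Real.dist_eq, abs_lt] at g2 g3 ⊢
  rw [abs_le] at s1 s2
  simp only [Measure.real, Set.mem_ofPred_eq] at *
  constructor <;> linarith [s1.1, s1.2, s2.1, s2.2, g2.1, g2.2, g3.1, g3.2]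

end

end Pool.Agent.H24.Mod
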