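import Pool.Agent.H24.Mod8

set_option autoImplicit false

namespace Pool.Agent.H24.Mod
open MeasureTheory Filter Topology ProbabilityTheory FirstOrder FirstOrder.Language

variable {L : FirstOrder.Language.{0, 0}} {lt : L.Relations 2} {col : L.Relations 1}

lemma to_word (X : Type) [Finite X] [L.Structure X]
    (h1 : ∀ x : X, ¬ Structure.RelMap lt ![x, x])
    (h2 : ∀ x y z : X, Structure.RelMap lt ![x, y] → Structure.RelMap lt ![y, z] →
      Structure.RelMap lt ![x, z])
    (h3 : ∀ x y : X, x ≠ y → Structure.RelMap lt ![x, y] ∨ Structure.RelMap lt ![y, x]) :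
    ∃ (w : List Bool) (ι : X → Fin (w.length + 1)), Fits lt col (wrs w) ι ∧ Nat.card X = w.length := by
  classical
  have := Fintype.ofFinite X
  let r : X → X → Prop := fun x y => Structure.RelMap lt ![x, y]
  have : IsStrictTotalOrder X r :=
    { irrefl := h1, trans := h2
      trichotomous := fun a b n1 n2 => by_contra fun e => (h3 a b e).elim n1 n2 }
  letI := linearOrderOfSTO r
  let e := monoEquivOfFin X rfl
  let w := List.ofFn fun i => decide (Structure.RelMap col ![e i])
  have hw : w.length = Fintype.card X := List.length_ofFn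
  refine ⟨w, fun x => ⟨e.symm x, by rw [hw]; exact Nat.lt_succ_of_lt (e.symm x).2⟩, ⟨?_, ?_, ?_, ?_⟩,
    by rw [hw, Nat.card_eq_fintype_card]⟩
  · intro x y h
    exact e.symm.injective (Fin.ext (by simpa using h))
  · intro u
    constructor
    · intro h
      have : (u : ℕ) < Fintype.card X := hw ▸ Fin.val_lt_last h
      exact ⟨e ⟨u, this⟩, Fin.ext (by simp)⟩
    · rintro ⟨x, rfl⟩ h
      have := congrArg Fin.val h
      have h2 := (e.symm x).2
      simp only [wrs, Fin.val_last] at this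
      omega
  · intro x y
    show x < y ↔ _
    rw [← e.symm.lt_iff_lt, lt_iff_le_not_ge]
    rfl
  · intro x
    show _ ↔ hd (mk 0 (seg w (e.symm x) w.length)) = some true
    rw [hd_mk, seg, List.take_length, List.head?_drop]
    simp [w]

theorem main (hs : Sig lt col) (A : ℕ → Type) [∀ n, Finite (A n)] [∀ n, Nonempty (A n)]
    [∀ n, L.Structure (A n)] (w : ℕ → List Bool) (ι : ∀ n, A n → Fin ((w n).length + 1))
    (F : ∀ n, Fits lt col (wrs (w n)) (ι n)) (hc : ∀ n, Nat.card (A n) = (w n).length) :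
    ∃ U : Ultrafilter ℕ, (U : Filter ℕ) ≤ atTop ∧
    ∃ (M : Type) (_ : MeasurableSpace M) (_ : StandardBorelSpace M) (_ : L.Structure M)
      (μ : Measure M) (_ : IsProbabilityMeasure μ),
      (∀ (p : ℕ) (φ : L.Formula (Fin p)), MeasurableSet {v : Fin p → M | φ.Realize v}) ∧
      ∀ (p : ℕ) (φ : L.Formula (Fin p)),
        Tendsto (fun n : ℕ => (Nat.card {v : Fin p → A n // φ.Realize v} : ℝ) /
          (Nat.card (A n) : ℝ) ^ p) U
          (𝓝 ((Measure.pi (fun _ : Fin p => μ)) {v : Fin p → M | φ.Realize v}).toReal) := by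
  let U := hyperfilter ℕ
  have hU : (U : Filter ℕ) ≤ atTop := Nat.hyperfilter_le_atTop
  refine ⟨U, hU, ?_⟩
  by_cases h : Tendsto (fun n => (w n).length) U atTop
  · exact limit hs A w ι F hc U h
  rw [tendsto_atTop] at h
  obtain ⟨N, hN⟩ := not_forall.1 h
  have h1 : ∀ᶠ n in U, ∃ u ∈ {l : List Bool | l.length ≤ N}, w n = u := by
    filter_upwards [Ultrafilter.eventually_not.2 hN] with n hn
    exact ⟨w n, (not_le.1 hn).le, rfl⟩
  obtain ⟨u, -, hu⟩ := (Ultrafilter.eventually_exists_mem_iff (List.finite_length_le Bool N)).1 h1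
  obtain ⟨n0, h0⟩ := hu.exists
  letI : MeasurableSpace (A n0) := ⊤
  have : DiscreteMeasurableSpace (A n0) := ⟨fun _ => trivial⟩
  refine ⟨A n0, inferInstance, inferInstance, inferInstance, uniformOn Set.univ, inferInstance,
    fun p φ => (Set.toFinite _).measurableSet, fun p φ => ?_⟩
  have key : ∀ (X Y : Type) [L.Structure X] [L.Structure Y] (a b : List Bool)
      (i : X → Fin (a.length + 1)) (j : Y → Fin (b.length + 1)), a = b → Fits lt col (wrs a) i →
      Fits lt col (wrs b) j →
      Nat.card {v : Fin p → X // φ.Realize v} = Nat.card {v : Fin p → Y // φ.Realize v} := by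
    intro X Y _ _ a b i j e G G'
    subst e
    choose s hs' using fun x => (G'.surj (i x)).1 ((G.surj _).2 ⟨x, rfl⟩)
    have bij : Function.Bijective s := ⟨fun x y e => G.inj (by rw [← hs', ← hs', e]), fun y => by
      obtain ⟨x, hx⟩ := (G.surj (j y)).1 ((G'.surj _).2 ⟨y, rfl⟩)
      exact ⟨x, G'.inj (by rw [hs', hx])⟩⟩
    obtain ⟨k, hk⟩ := inv' hs φ
    refine Nat.card_congr ((Equiv.arrowCongr (Equiv.refl _) (Equiv.ofBijective s bij)).subtypeEquiv
      fun v => ?_)
    refine hk _ _ _ _ _ _ i j G G' (Set.range fun u => (u, u)) (Set.finite_range _) ⟨_, rfl⟩ ⟨_, rfl⟩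
      ?_ v _ (fun l => ⟨i (v l), by simp [hs']⟩)
    rintro _ ⟨x, rfl⟩ _ ⟨y, rfl⟩
    exact ⟨Iff.rfl, fun _ => rfl⟩
  have e := unif_pi p {v : Fin p → A n0 | φ.Realize v}
  rw [Measure.real] at e
  rw [e]
  refine tendsto_const_nhds.congr' (hu.mono fun n hn => ?_)
  have e1 := key _ _ _ _ _ _ (hn.trans h0.symm) (F n) (F n0)
  simp only [Set.mem_ofPred_eq]
  rw [e1, hc, hc, hn, h0]

end Pool.Agent.H24.Mod
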