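import Mathlib

set_option autoImplicit false

namespace Pool.Agent.H24.Mono

open Finset

variable {α : Type} [DecidableEq α]

def Cyc (R : α → α → Prop) (l : List α) : Prop :=
  ∀ x t, l = x :: t → t ≠ [] → List.IsChain R (x :: (t ++ [x]))

def Cov (E : ℕ → α → α → Prop) (S : Finset α) (M : ℕ) : Prop :=
  ∃ P : List (ℕ × List α), P.length ≤ M ∧ (∀ q ∈ P, Cyc (E q.1) q.2) ∧
    (P.flatMap (·.2)).Nodup ∧ ∀ v, v ∈ P.flatMap (·.2) ↔ v ∈ S

variable {E : ℕ → α → α → Prop}

omit [DecidableEq α] in
theorem Cov.mono {S : Finset α} {M M' : ℕ} (h : Cov E S M) (hM : M ≤ M') : Cov E S M' := by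
  obtain ⟨P, h1, h2⟩ := h
  exact ⟨P, h1.trans hM, h2⟩

omit [DecidableEq α] in
theorem Cov.empty (M : ℕ) : Cov E (∅ : Finset α) M :=
  ⟨[], by simp, by simp, by simp, by simp⟩

theorem Cov.one {l : List α} (χ : ℕ) (hl : l.Nodup) (hc : Cyc (E χ) l) : Cov E l.toFinset 1 :=
  ⟨[(χ, l)], by simp, by simpa using hc, by simpa using hl, by simp⟩

omit [DecidableEq α] in
theorem cyc_single (R : α → α → Prop) (v : α) : Cyc R [v] := by
  intro x t h ht
  simp at h
  exact absurd h.2 ht

theorem Cov.single (v : α) : Cov E {v} 1 := by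
  have := Cov.one (E := E) (l := [v]) 0 (by simp) (cyc_single _ v)
  simpa using this

theorem Cov.union {S S' : Finset α} {M M' : ℕ} (h : Cov E S M) (h' : Cov E S' M')
    (hd : Disjoint S S') : Cov E (S ∪ S') (M + M') := by
  obtain ⟨P, h1, h2, h3, h4⟩ := h
  obtain ⟨P', h1', h2', h3', h4'⟩ := h'
  refine ⟨P ++ P', by simp; omega, ?_, ?_, ?_⟩
  · intro q hq
    rcases List.mem_append.1 hq with hq | hq
    · exact h2 q hq
    · exact h2' q hq
  · rw [List.flatMap_append, List.nodup_append]
    refine ⟨h3, h3', ?_⟩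
    intro a ha b hb hab
    subst hab
    exact Finset.disjoint_left.1 hd ((h4 a).1 ha) ((h4' a).1 hb)
  · intro v
    rw [List.flatMap_append, List.mem_append, h4, h4', Finset.mem_union]

theorem Cov.biUnion {ι : Type} [DecidableEq ι] (J : Finset ι) (F : ι → Finset α) (M : ℕ)
    (h : ∀ j ∈ J, Cov E (F j) M) (hd : ∀ i ∈ J, ∀ j ∈ J, i ≠ j → Disjoint (F i) (F j)) :
    Cov E (J.biUnion F) (J.card * M) := by
  induction J using Finset.induction_on with
  | empty => simpa using Cov.empty 0
  | insert a J ha ih =>
    rw [Finset.biUnion_insert, Finset.card_insert_of_notMem ha, add_mul, one_mul, add_comm]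
    refine Cov.union (h a (by simp)) (ih (fun j hj => h j (by simp [hj]))
      (fun i hi j hj => hd i (by simp [hi]) j (by simp [hj]))) ?_
    rw [Finset.disjoint_biUnion_right]
    intro j hj
    exact hd a (by simp) j (by simp [hj]) (by rintro rfl; exact ha hj)

theorem exists_next (R : α → α → Prop) (z : α) : ∀ l : List α, l.Nodup → List.IsChain R (l ++ [z]) →
    ∃ g : α → α, l.map g = (l ++ [z]).tail ∧ (∀ b ∈ l, R b (g b)) ∧
      ∀ (R' : α → α → Prop) (f : α → α), (∀ b ∈ l, R' b (f b) ∧ R' (f b) (g b)) →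
        List.IsChain R' (l.flatMap (fun b => [b, f b]) ++ [z]) := by
  intro l
  induction l with
  | nil => intro _ _; exact ⟨id, by simp, by simp, by simp⟩
  | cons x l ih =>
    intro hn hc
    have hx : x ∉ l := (List.nodup_cons.1 hn).1
    rw [List.cons_append] at hc
    obtain ⟨g, h1, h2, h3⟩ := ih (List.nodup_cons.1 hn).2 hc.tail
    obtain ⟨y, u, hy⟩ : ∃ y u, l ++ [z] = y :: u := by
      cases l with
      | nil => exact ⟨z, [], rfl⟩
      | cons a l => exact ⟨a, l ++ [z], rfl⟩
    have hg : ∀ b ∈ l, Function.update g x y b = g b := fun b hb =>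
      Function.update_of_ne (by rintro rfl; exact hx hb) _ _
    refine ⟨Function.update g x y, ?_, ?_, ?_⟩
    · rw [List.map_cons, List.map_congr_left hg, h1, List.cons_append, List.tail_cons, hy]
      simp
    · intro b hb
      rcases List.mem_cons.1 hb with rfl | hb
      · rw [hy] at hc
        simpa using (List.isChain_cons_cons.1 hc).1
      · rw [hg b hb]; exact h2 b hb
    · intro R' f hf
      have h4 := h3 R' f (fun b hb => by
        have := hf b (List.mem_cons_of_mem _ hb)
        rwa [hg b hb] at this)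
      have h5 := hf x (by simp)
      rw [Function.update_self] at h5
      obtain ⟨u', hu'⟩ : ∃ u', l.flatMap (fun b => [b, f b]) ++ [z] = y :: u' := by
        cases l with
        | nil => simp at hy; exact ⟨[], by simp [hy.1]⟩
        | cons a l => simp at hy; exact ⟨_, by rw [← hy.1]; simp; rfl⟩
      rw [List.flatMap_cons, List.append_assoc, hu']
      rw [hu'] at h4
      exact List.isChain_cons_cons.2 ⟨h5.1, List.isChain_cons_cons.2 ⟨h5.2, h4⟩⟩

omit [DecidableEq α] in
theorem nodup_interleave (f : α → α) : ∀ l : List α, l.Nodup → (∀ a ∈ l, ∀ b ∈ l, f a = f b → a = b) →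
    (∀ a ∈ l, f a ∉ l) → (l.flatMap (fun b => [b, f b])).Nodup := by
  intro l hl hf hn
  rw [List.nodup_flatMap]
  refine ⟨?_, ?_⟩
  · intro b hb
    simp only [List.nodup_cons, List.mem_singleton, List.not_mem_nil, not_false_eq_true,
      List.nodup_nil, and_true]
    intro h
    exact hn b hb (h ▸ hb)
  · refine List.Pairwise.imp_of_mem ?_ hl
    intro a b ha hb hab
    simp only [Function.onFun, List.disjoint_cons_left, List.mem_cons, List.not_mem_nil, or_false,
      not_or, List.disjoint_nil_left, and_true]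
    refine ⟨⟨hab, ?_⟩, ?_, ?_⟩
    · intro h; exact hn b hb (h ▸ ha)
    · intro h; exact hn a ha (h ▸ hb)
    · intro h; exact hab (hf a ha b hb h)

theorem lift_aux (E' E : ℕ → α → α → Prop) : ∀ P : List (ℕ × List α),
    (∀ q ∈ P, Cyc (E' q.1) q.2) → (P.flatMap (·.2)).Nodup →
    ∃ (nx : α → α) (cl : α → ℕ) (B0 : Finset α),
      (∀ b ∈ B0, b ∈ P.flatMap (·.2) ∧ nx b ∈ B0 ∧ E' (cl b) b (nx b)) ∧
      (∀ a ∈ B0, ∀ b ∈ B0, nx a = nx b → a = b) ∧
      ∀ f : α → α, (∀ a ∈ B0, ∀ b ∈ B0, f a = f b → a = b) →
        (∀ b ∈ B0, f b ∉ P.flatMap (·.2) ∧ E (cl b) b (f b) ∧ E (cl b) (f b) (nx b)) →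
        Cov E ((P.flatMap (·.2)).toFinset ∪ B0.image f) P.length := by
  intro P
  induction P with
  | nil => intro _ _; exact ⟨id, fun _ => 0, ∅, by simp, by simp, by simpa using fun _ => Cov.empty 0⟩
  | cons q P ih =>
    intro hc hn
    rw [List.flatMap_cons, List.nodup_append] at hn
    obtain ⟨hn1, hn2, hn3⟩ := hn
    obtain ⟨nx, cl, B0, h1, h2, h3⟩ := ih (fun q hq => hc q (List.mem_cons_of_mem _ hq)) hn2
    obtain ⟨χ, l⟩ := q
    have hcq : Cyc (E' χ) l := hc (χ, l) (by simp)
    simp only at hn1 hn3
    by_cases hl : ∃ x t, l = x :: t ∧ t ≠ []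
    · obtain ⟨x, t, hl, ht⟩ := hl
      have hch := hcq x t hl ht
      rw [← List.cons_append, ← hl] at hch
      obtain ⟨g, g1, g2, g3⟩ := exists_next (E' χ) x l hn1 hch
      have hperm : (l.map g).Perm l := by
        rw [g1, hl, List.cons_append, List.tail_cons]
        exact List.perm_append_singleton x t
      have gmem : ∀ b ∈ l, g b ∈ l := fun b hb => hperm.subset (List.mem_map_of_mem hb)
      have ginj : ∀ a ∈ l, ∀ b ∈ l, g a = g b → a = b :=
        (List.nodup_map_iff_inj_on hn1).1 (hperm.nodup_iff.2 hn1)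
      have hB0 : ∀ b ∈ B0, b ∉ l := fun b hb hbl => hn3 b hbl b (h1 b hb).1 rfl
      refine ⟨fun b => if b ∈ l then g b else nx b, fun b => if b ∈ l then χ else cl b,
        l.toFinset ∪ B0, ?_, ?_, ?_⟩
      · intro b hb
        rw [List.flatMap_cons]
        by_cases hbl : b ∈ l
        · simp only [hbl, if_true]
          exact ⟨List.mem_append_left _ hbl, by simp [gmem b hbl], g2 b hbl⟩
        · have hb' : b ∈ B0 := by simpa [hbl] using hb
          simp only [hbl, if_false]
          exact ⟨List.mem_append_right _ (h1 b hb').1, by simp [(h1 b hb').2.1], (h1 b hb').2.2⟩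
      · intro a ha b hb hab
        by_cases hal : a ∈ l <;> by_cases hbl : b ∈ l <;> simp only [hal, hbl, if_true, if_false] at hab
        · exact ginj a hal b hbl hab
        · have hb' : b ∈ B0 := by simpa [hbl] using hb
          exact absurd (hab ▸ gmem a hal) (hB0 _ (h1 b hb').2.1)
        · have ha' : a ∈ B0 := by simpa [hal] using ha
          exact absurd (hab ▸ gmem b hbl) (hB0 _ (h1 a ha').2.1)
        · exact h2 a (by simpa [hal] using ha) b (by simpa [hbl] using hb) hab
      · intro f f1 f2
        have k1 := h3 f (fun a ha b hb => f1 a (by simp [ha]) b (by simp [hb])) (fun b hb => by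
          have := f2 b (by simp [hb])
          simp only [hB0 b hb, if_false, List.flatMap_cons, List.mem_append, not_or] at this
          exact ⟨this.1.2, this.2⟩)
        have f3 : ∀ b ∈ l, (f b ∉ l ∧ f b ∉ P.flatMap (·.2)) ∧ E χ b (f b) ∧ E χ (f b) (g b) := by
          intro b hb
          have := f2 b (by simp [hb])
          simpa only [hb, if_true, List.flatMap_cons, List.mem_append, not_or] using this
        have k2 := g3 (E χ) f (fun b hb => (f3 b hb).2)
        have k3 := nodup_interleave f l hn1 (fun a ha b hb => f1 a (by simp [ha]) b (by simp [hb]))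
          (fun b hb => (f3 b hb).1.1)
        have k4 : Cyc (E χ) (l.flatMap (fun b => [b, f b])) := by
          intro x' t' h _
          have : x' = x := by rw [hl] at h; simp at h; exact h.1.symm
          rw [← List.cons_append, ← h, this]
          exact k2
        have k5 := (Cov.one χ k3 k4).union k1 (by
          rw [Finset.disjoint_left]
          intro v hv hv'
          simp only [List.mem_toFinset, List.mem_flatMap, List.mem_cons, List.not_mem_nil,
            or_false] at hv
          obtain ⟨b, hb, hv⟩ := hv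
          rcases Finset.mem_union.1 hv' with hv' | hv'
          · rw [List.mem_toFinset] at hv'
            rcases hv with rfl | rfl
            · exact hn3 v hb v hv' rfl
            · exact (f3 b hb).1.2 hv'
          · obtain ⟨b', hb', hv'⟩ := Finset.mem_image.1 hv'
            rcases hv with rfl | rfl
            · have := (f2 b' (by simp [hb'])).1
              rw [hv', List.flatMap_cons] at this
              exact this (List.mem_append_left _ hb)
            · have := f1 b' (by simp [hb']) b (by simp [hb]) hv'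
              exact hB0 b' hb' (this ▸ hb))
        rw [List.length_cons, add_comm]
        convert k5 using 1
        ext v
        simp only [List.flatMap_cons, List.toFinset_append, Finset.mem_union, List.mem_toFinset,
          Finset.mem_image, List.mem_flatMap, List.mem_cons, List.not_mem_nil, or_false]
        constructor
        · rintro ((h | h) | ⟨b, hb | hb, rfl⟩)
          · exact Or.inl ⟨v, h, Or.inl rfl⟩
          · exact Or.inr (Or.inl h)
          · exact Or.inl ⟨b, hb, Or.inr rfl⟩
          · exact Or.inr (Or.inr ⟨b, hb, rfl⟩)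
        · rintro (⟨b, hb, rfl | rfl⟩ | h | ⟨b, hb, rfl⟩)
          · exact Or.inl (Or.inl hb)
          · exact Or.inr ⟨b, Or.inl hb, rfl⟩
          · exact Or.inl (Or.inr h)
          · exact Or.inr ⟨b, Or.inr hb, rfl⟩
    · refine ⟨nx, cl, B0, ?_, h2, ?_⟩
      · intro b hb
        rw [List.flatMap_cons]
        exact ⟨List.mem_append_right _ (h1 b hb).1, (h1 b hb).2⟩
      · intro f f1 f2
        have k1 := h3 f f1 (fun b hb => by
          have := f2 b hb
          simp only [List.flatMap_cons, List.mem_append, not_or] at this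
          exact ⟨this.1.2, this.2⟩)
        have k4 : Cyc (E χ) l := fun x t h ht => absurd ⟨x, t, h, ht⟩ hl
        have k5 := (Cov.one χ hn1 k4).union k1 (by
          rw [Finset.disjoint_left]
          intro v hv hv'
          rw [List.mem_toFinset] at hv
          rcases Finset.mem_union.1 hv' with hv' | hv'
          · exact hn3 v hv v (List.mem_toFinset.1 hv') rfl
          · obtain ⟨b', hb', hv'⟩ := Finset.mem_image.1 hv'
            have := (f2 b' hb').1
            rw [hv', List.flatMap_cons] at this
            exact this (List.mem_append_left _ hv))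
        rw [List.length_cons, add_comm]
        convert k5 using 1
        simp [Finset.union_assoc]

open Classical in
theorem lift (E' E : ℕ → α → α → Prop) (hs : ∀ χ u v, E χ u v → E χ v u) (A B : Finset α)
    (hAB : Disjoint A B) (x : α → ℕ) (hx : ∀ t, 2 * (B.filter (fun b => x b ≤ t)).card ≤ t)
    (hE : ∀ χ, ∀ b ∈ B, ∀ b' ∈ B, E' χ b b' →
      min (x b) (x b') ≤ (A.filter (fun a => E χ a b ∧ E χ a b')).card)
    {M : ℕ} (hc : Cov E' B M) : ∃ A' ⊆ A, A'.card ≤ B.card ∧ Cov E (B ∪ A') M := by
  obtain ⟨P, h1, h2, h3, h4⟩ := hc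
  obtain ⟨nx, cl, B0, g1, g2, g3⟩ := lift_aux E' E P h2 h3
  have hB0 : ∀ b ∈ B0, b ∈ B := fun b hb => (h4 b).1 (g1 b hb).1
  let N : B0 → Finset α := fun b => A.filter (fun a => E (cl b) a b ∧ E (cl b) a (nx b))
  have hall : ∀ Y : Finset B0, Y.card ≤ (Y.biUnion N).card := by
    intro Y
    rcases Y.eq_empty_or_nonempty with rfl | hY
    · simp
    obtain ⟨b, hb, hmax⟩ := Y.exists_max_image (fun b : B0 => min (x b) (x (nx b))) hY
    set t := min (x b) (x (nx b)) with ht
    have e1 : t ≤ (Y.biUnion N).card :=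
      (hE (cl b) b (hB0 b b.2) (nx b) (hB0 _ (g1 b b.2).2.1) (g1 b b.2).2.2).trans
        (Finset.card_le_card (Finset.subset_biUnion_of_mem N hb))
    have e2 : (Y.filter (fun b : B0 => x b ≤ t)).card ≤ (B.filter (fun b => x b ≤ t)).card := by
      refine Finset.card_le_card_of_injOn (fun b => b.1) ?_ ?_
      · intro b hb
        simp only [Finset.coe_filter, Set.mem_ofPred_eq] at hb ⊢
        exact ⟨hB0 b b.2, hb.2⟩
      · intro a _ b _ hab
        exact Subtype.ext hab
    have e3 : (Y.filter (fun b : B0 => ¬ x b ≤ t)).card ≤ (B.filter (fun b => x b ≤ t)).card := by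
      refine Finset.card_le_card_of_injOn (fun b => nx b.1) ?_ ?_
      · intro b hb
        simp only [Finset.coe_filter, Set.mem_ofPred_eq] at hb ⊢
        refine ⟨hB0 _ (g1 b b.2).2.1, ?_⟩
        have := hmax b hb.1
        omega
      · intro a _ b _ hab
        exact Subtype.ext (g2 a a.2 b b.2 hab)
    have e4 := Finset.card_filter_add_card_filter_not (s := Y) (fun b : B0 => x b ≤ t)
    have := hx t
    omega
  obtain ⟨f, f1, f2⟩ := (Finset.all_card_le_biUnion_card_iff_exists_injective N).1 hall
  let F : α → α := fun b => if h : b ∈ B0 then f ⟨b, h⟩ else b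
  have hF : ∀ b (h : b ∈ B0), F b = f ⟨b, h⟩ := fun b h => dif_pos h
  have hFA : ∀ b ∈ B0, F b ∈ A ∧ E (cl b) (F b) b ∧ E (cl b) (F b) (nx b) := by
    intro b hb
    rw [hF b hb]
    exact Finset.mem_filter.1 (f2 ⟨b, hb⟩)
  refine ⟨B0.image F, ?_, ?_, ?_⟩
  · intro v hv
    obtain ⟨b, hb, rfl⟩ := Finset.mem_image.1 hv
    exact (hFA b hb).1
  · exact Finset.card_image_le.trans (Finset.card_le_card hB0)
  · have := g3 F (fun a ha b hb hab => by
      rw [hF a ha, hF b hb] at hab
      exact congrArg Subtype.val (f1 hab)) (fun b hb => ⟨fun h =>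
        Finset.disjoint_left.1 hAB (hFA b hb).1 ((h4 _).1 h), hs _ _ _ (hFA b hb).2.1, (hFA b hb).2.2⟩)
    have e : (P.flatMap (·.2)).toFinset = B := by ext v; rw [List.mem_toFinset, h4]
    rw [e] at this
    exact this.mono h1

omit [DecidableEq α] in
theorem split_last (q : α → Prop) : ∀ t : List α, ∃ t1 t2, t = t1 ++ t2 ∧ (∀ y ∈ t2, ¬ q y) ∧
    (t1 = [] ∨ ∃ t0 y, t1 = t0 ++ [y] ∧ q y) := by
  intro t
  induction t using List.reverseRecOn with
  | nil => exact ⟨[], [], rfl, by simp, Or.inl rfl⟩
  | append_singleton t y ih =>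
    by_cases hy : q y
    · exact ⟨t ++ [y], [], by simp, by simp, Or.inr ⟨t, y, rfl, hy⟩⟩
    · obtain ⟨t1, t2, h1, h2, h3⟩ := ih
      refine ⟨t1, t2 ++ [y], by simp [h1], ?_, h3⟩
      intro z hz
      rcases List.mem_append.1 hz with hz | hz
      · exact h2 z hz
      · rw [List.mem_singleton.1 hz]; exact hy

theorem max_path (R : α → α → Prop) (hs : ∀ u v, R u v → R v u) (U : Finset α) (hU : U.Nonempty) :
    ∃ v t, (v :: t).Nodup ∧ (∀ y ∈ v :: t, y ∈ U) ∧ List.IsChain R (v :: t) ∧
      ∀ y ∈ U, R v y → y ∈ v :: t := by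
  by_contra hcon
  push Not at hcon
  have key : ∀ k : ℕ, ∃ v t, (v :: t).Nodup ∧ (∀ y ∈ v :: t, y ∈ U) ∧ List.IsChain R (v :: t) ∧
      t.length = k := by
    intro k
    induction k with
    | zero => obtain ⟨v, hv⟩ := hU; exact ⟨v, [], by simp, by simpa using hv, by simp, rfl⟩
    | succ k ih =>
      obtain ⟨v, t, h1, h2, h3, h4⟩ := ih
      obtain ⟨y, hy, hR, hn⟩ := hcon v t h1 h2 h3
      refine ⟨y, v :: t, List.nodup_cons.2 ⟨hn, h1⟩, ?_, List.isChain_cons_cons.2 ⟨hs _ _ hR, h3⟩,
        by simp [h4]⟩
      intro z hz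
      rcases List.mem_cons.1 hz with rfl | hz
      · exact hy
      · exact h2 z hz
  obtain ⟨v, t, h1, h2, _, h4⟩ := key U.card
  have : (v :: t).toFinset.card ≤ U.card := Finset.card_le_card (fun y hy => h2 y (List.mem_toFinset.1 hy))
  rw [List.toFinset_card_of_nodup h1] at this
  simp at this
  omega

theorem posa (χ : ℕ) (hs : ∀ u v, E χ u v → E χ v u) : ∀ (a : ℕ) (U : Finset α),
    (∀ I ⊆ U, (∀ x ∈ I, ∀ y ∈ I, x ≠ y → ¬ E χ x y) → I.card ≤ a) → Cov E U a := by
  intro a
  induction a with
  | zero =>
    intro U h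
    rcases U.eq_empty_or_nonempty with rfl | ⟨v, hv⟩
    · exact Cov.empty 0
    · have := h {v} (by simpa using hv) (by simp)
      simp at this
  | succ a ih =>
    intro U h
    rcases U.eq_empty_or_nonempty with rfl | hU
    · exact Cov.empty _
    obtain ⟨v, t, h1, h2, h3, h4⟩ := max_path (E χ) hs U hU
    obtain ⟨t1, t2, rfl, k2, k3⟩ := split_last (E χ v) t
    have n1 : (v :: t1).Nodup := by
      rw [← List.cons_append] at h1
      exact (List.nodup_append.1 h1).1
    have c1 : List.IsChain (E χ) (v :: t1) := by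
      rw [← List.cons_append] at h3
      exact (List.isChain_append.1 h3).1
    have c2 : Cyc (E χ) (v :: t1) := by
      intro x t h ht
      obtain ⟨rfl, rfl⟩ := List.cons.inj h
      rcases k3 with k3 | ⟨t0, y, k3, hy⟩
      · exact absurd k3 ht
      · rw [← List.cons_append, List.isChain_append]
        refine ⟨c1, by simp, ?_⟩
        intro p hp q hq
        rw [k3, ← List.cons_append, List.getLast?_append] at hp
        simp at hp hq
        rw [← hp, ← hq]
        exact hs _ _ hy
    have hsub : (v :: t1).toFinset ⊆ U := by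
      intro y hy
      apply h2
      rw [← List.cons_append]
      exact List.mem_append_left _ (List.mem_toFinset.1 hy)
    have c3 := ih (U \ (v :: t1).toFinset) (by
      intro I hI hind
      have hv : v ∉ I := fun hv => (Finset.mem_sdiff.1 (hI hv)).2 (by simp)
      have hn : ∀ y ∈ I, ¬ E χ v y := by
        intro y hy hR
        have hy' := Finset.mem_sdiff.1 (hI hy)
        have := h4 y hy'.1 hR
        rw [← List.cons_append] at this
        rcases List.mem_append.1 this with h | h
        · exact hy'.2 (List.mem_toFinset.2 h)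
        · exact k2 y h hR
      have := h (insert v I) (by
        intro y hy
        rcases Finset.mem_insert.1 hy with rfl | hy
        · exact h2 _ (by simp)
        · exact (Finset.mem_sdiff.1 (hI hy)).1) (by
        intro x hx y hy hxy
        rcases Finset.mem_insert.1 hx with rfl | hx' <;> rcases Finset.mem_insert.1 hy with rfl | hy'
        · exact absurd rfl hxy
        · exact hn y hy'
        · exact fun h => hn x hx' (hs _ _ h)
        · exact hind x hx' y hy' hxy)
      rw [Finset.card_insert_of_notMem hv] at this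
      omega)
    have := c3.union (Cov.one χ n1 c2) Finset.sdiff_disjoint
    rwa [Finset.sdiff_union_of_subset hsub] at this

theorem greedy (V : Finset α) (n K D : ℕ) (hK : 0 < K) (hV : V.card ≤ n)
    (h : ∀ W ⊆ V, n ≤ D * W.card → ∃ T ⊆ W, n ≤ K * T.card ∧ Cov E T 1) :
    ∃ B ⊆ V, D * B.card ≤ n ∧ Cov E (V \ B) K := by
  have key : ∀ j, ∃ B ⊆ V, Cov E (V \ B) j ∧ (D * B.card ≤ n ∨ K * B.card + j * n ≤ K * V.card) := by
    intro j
    induction j with
    | zero => exact ⟨V, subset_rfl, by simpa using Cov.empty 0, Or.inr (by simp)⟩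
    | succ j ih =>
      obtain ⟨B, h1, h2, h3⟩ := ih
      by_cases h4 : D * B.card ≤ n
      · exact ⟨B, h1, h2.mono (by omega), Or.inl h4⟩
      obtain ⟨T, t1, t2, t3⟩ := h B h1 (by omega)
      refine ⟨B \ T, Finset.sdiff_subset.trans h1, ?_, Or.inr ?_⟩
      · have := h2.union t3 (Finset.disjoint_of_subset_right t1 Finset.sdiff_disjoint)
        convert this using 1
        ext v
        simp only [Finset.mem_sdiff, Finset.mem_union]
        have := @t1 v
        have := @h1 v
        tauto
      · have e := Finset.card_sdiff_add_card_eq_card t1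
        have h5 := h3.resolve_left h4
        rw [← e, mul_add] at h5
        rw [add_mul]
        omega
  obtain ⟨B, h1, h2, h3⟩ := key K
  refine ⟨B, h1, ?_, h2⟩
  rcases h3 with h3 | h3
  · exact h3
  · have : K * V.card ≤ K * n := Nat.mul_le_mul_left _ hV
    have : K * B.card = 0 := by omega
    have : B.card = 0 := by
      rcases Nat.mul_eq_zero.1 this with h | h
      · omega
      · exact h
    simp [this]

theorem outer {V T A B A' : Finset α} {K M : ℕ} (hA : A ⊆ T) (hT : T ⊆ V)
    (habs : ∀ A' ⊆ A, Cov E (T \ A') 1) (hB : B ⊆ V \ T) (h1 : Cov E ((V \ T) \ B) K)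
    (hA' : A' ⊆ A) (h2 : Cov E (B ∪ A') M) : Cov E V (K + M + 1) := by
  have := (h1.union h2 (by
    rw [Finset.disjoint_left]
    intro v hv hv'
    simp only [Finset.mem_sdiff, Finset.mem_union] at hv hv'
    have := @hA' v
    have := @hA v
    tauto)).union (habs A' hA') (by
    rw [Finset.disjoint_left]
    intro v hv hv'
    have := @hB v
    simp only [Finset.mem_sdiff, Finset.mem_union] at hv hv' this
    tauto)
  convert this using 1
  ext v
  have := @hB v
  have := @hA' v
  have := @hA v
  have := @hT v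
  simp only [Finset.mem_sdiff, Finset.mem_union] at *
  tauto

end Pool.Agent.H24.Mono
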