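import Pool.Agent.H24.Mono1

set_option autoImplicit false

namespace Pool.Agent.H24.Mono

open Finset Classical

section
variable {α : Type} [DecidableEq α]

noncomputable def ed (R : α → α → Prop) (U : Finset α) : ℕ := ∑ v ∈ U, (U.filter (R v)).card

noncomputable def tri (R : α → α → Prop) (W : Finset α) : ℕ := ∑ z ∈ W, ed R (W.filter (R z))

def Bad (E : ℕ → α → α → Prop) (S : α → Finset ℕ) (v w : α) : Prop :=
  v ≠ w ∧ ¬ ∃ χ ∈ S v, χ ∈ S w ∧ E χ v w

omit [DecidableEq α] in
theorem ed_mono (R : α → α → Prop) {U W : Finset α} (h : U ⊆ W) : ed R U ≤ ed R W :=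
  (Finset.sum_le_sum (fun _ _ => Finset.card_le_card (Finset.filter_subset_filter _ h))).trans
    (Finset.sum_le_sum_of_subset h)

omit [DecidableEq α] in
theorem tri_mono (R : α → α → Prop) {U W : Finset α} (h : U ⊆ W) : tri R U ≤ tri R W :=
  (Finset.sum_le_sum (fun _ _ => ed_mono R (Finset.filter_subset_filter _ h))).trans
    (Finset.sum_le_sum_of_subset h)

theorem long_path (H : α → α → Prop) (hs : ∀ u v, H u v → H v u) (hi : ∀ v, ¬ H v v) (k : ℕ) :
    ∀ (m : ℕ) (U : Finset α), U.card = m → 2 * k * U.card < ed H U →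
      ∃ l : List α, l.Nodup ∧ (∀ y ∈ l, y ∈ U) ∧ List.IsChain H l ∧ l.length = k + 1 := by
  intro m
  induction m with
  | zero =>
    intro U hU h
    rw [Finset.card_eq_zero.1 hU] at h
    simp [ed] at h
  | succ m ih =>
    intro U hU h
    by_cases hv : ∃ v ∈ U, (U.filter (H v)).card ≤ k
    · obtain ⟨v, hv, hk⟩ := hv
      have hc : (U.erase v).card = m := by rw [Finset.card_erase_of_mem hv]; omega
      have e1 : ed H U = (U.filter (H v)).card + ∑ w ∈ U.erase v, (U.filter (H w)).card :=
        (Finset.add_sum_erase U (fun v => (U.filter (H v)).card) hv).symm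
      have e2 : ∀ w ∈ U.erase v, (U.filter (H w)).card ≤
          ((U.erase v).filter (H w)).card + (if H v w then 1 else 0) := by
        intro w _
        split_ifs with hvw
        · refine (Finset.card_le_card (t := insert v ((U.erase v).filter (H w))) ?_).trans
            (Finset.card_insert_le _ _)
          intro y hy
          by_cases hyv : y = v
          · simp [hyv]
          · simp only [Finset.mem_filter, Finset.mem_insert, Finset.mem_erase] at hy ⊢
            tauto
        · refine Finset.card_le_card ?_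
          intro y hy
          simp only [Finset.mem_filter, Finset.mem_erase] at hy ⊢
          refine ⟨⟨?_, hy.1⟩, hy.2⟩
          rintro rfl
          exact hvw (hs _ _ hy.2)
      have e3 := Finset.sum_le_sum e2
      rw [Finset.sum_add_distrib, ← Finset.card_filter] at e3
      change _ ≤ _ + ((U.erase v).filter (H v)).card at e3
      have e4 : ((U.erase v).filter (H v)).card ≤ (U.filter (H v)).card :=
        Finset.card_le_card (Finset.filter_subset_filter _ (Finset.erase_subset _ _))
      obtain ⟨l, l1, l2, l3⟩ := ih (U.erase v) hc (by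
        unfold ed
        rw [hc]
        rw [hU, mul_add] at h
        omega)
      exact ⟨l, l1, fun y hy => Finset.mem_of_mem_erase (l2 y hy), l3⟩
    · push Not at hv
      obtain ⟨v, t, h1, h2, h3, h4⟩ := max_path H hs U (Finset.card_pos.1 (by omega))
      have e1 : (U.filter (H v)).card ≤ t.toFinset.card := by
        refine Finset.card_le_card ?_
        intro y hy
        rw [Finset.mem_filter] at hy
        rcases List.mem_cons.1 (h4 y hy.1 hy.2) with rfl | h
        · exact absurd hy.2 (hi _)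
        · exact List.mem_toFinset.2 h
      have e2 := List.toFinset_card_le t
      have e3 := hv v (h2 v (by simp))
      refine ⟨(v :: t).take (k + 1), h1.sublist (List.take_sublist _ _),
        fun y hy => h2 y (List.mem_of_mem_take hy), h3.take _, ?_⟩
      rw [List.length_take, List.length_cons]
      omega

theorem apex (R : α → α → Prop) (hs : ∀ u v, R u v → R v u) (W F : Finset α) (z : α) (h : ℕ) :
    ∀ (p : List α) (x : α), (x :: p).Nodup → (∀ y ∈ x :: p, y ∈ F ∧ R y z) →
      List.IsChain (fun a b => R a b ∧ h ≤ (W.filter (fun y => R a y ∧ R b y)).card) (x :: p) →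
      F.card + p.length ≤ h →
      ∃ (l : List α) (A : Finset α), (x :: l).Nodup ∧ A.card = p.length ∧ A ⊆ W ∧ Disjoint A F ∧
        (∀ y, y ∈ x :: l ↔ y ∈ x :: p ∨ y ∈ A) ∧
        ∀ A' ⊆ A, List.IsChain R (x :: (l.filter (fun y => y ∉ A') ++ [z])) := by
  intro p
  induction p with
  | nil =>
    intro x _ h2 _ _
    exact ⟨[], ∅, by simp, by simp, by simp, by simp, by simp, fun _ _ => by
      simpa using (h2 x (by simp)).2⟩
  | cons y p ih =>
    intro x h1 h2 h3 h4
    rw [List.length_cons] at h4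
    obtain ⟨h5, h6⟩ := List.isChain_cons_cons.1 h3
    obtain ⟨l, A, g1, g2, g3, g4, g5, g6⟩ := ih y (List.nodup_cons.1 h1).2
      (fun w hw => h2 w (List.mem_cons_of_mem _ hw)) h6 (by omega)
    obtain ⟨a, ha, ha'⟩ : ∃ a ∈ W.filter (fun w => R x w ∧ R y w), a ∉ F ∪ A := by
      apply Finset.exists_mem_notMem_of_card_lt_card
      have := Finset.card_union_le F A
      omega
    rw [Finset.mem_filter] at ha
    rw [Finset.mem_union, not_or] at ha'
    have hxF : x ∈ F := (h2 x (by simp)).1
    have hyA : y ∉ insert a A := by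
      have hyF : y ∈ F := (h2 y (by simp)).1
      rw [Finset.mem_insert, not_or]
      exact ⟨fun h => ha'.1 (h ▸ hyF), fun h => Finset.disjoint_left.1 g4 h hyF⟩
    refine ⟨a :: y :: l, insert a A, ?_, ?_, ?_, ?_, ?_, ?_⟩
    · refine List.nodup_cons.2 ⟨?_, List.nodup_cons.2 ⟨?_, g1⟩⟩
      · intro h
        rcases List.mem_cons.1 h with h | h
        · exact ha'.1 (h ▸ hxF)
        · rcases (g5 x).1 h with h | h
          · exact (List.nodup_cons.1 h1).1 h
          · exact Finset.disjoint_left.1 g4 h hxF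
      · intro h
        rcases (g5 a).1 h with h | h
        · exact ha'.1 (h2 a (List.mem_cons_of_mem _ h)).1
        · exact ha'.2 h
    · rw [Finset.card_insert_of_notMem ha'.2, g2, List.length_cons]
    · exact Finset.insert_subset ha.1 g3
    · exact Finset.disjoint_insert_left.2 ⟨ha'.1, g4⟩
    · intro w
      have := g5 w
      simp only [List.mem_cons, Finset.mem_insert] at this ⊢
      tauto
    · intro A' hA'
      have hy : y ∉ A' := fun h => hyA (hA' h)
      have k1 := g6 (A'.erase a) (by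
        intro w hw
        rw [Finset.mem_erase] at hw
        exact (Finset.mem_insert.1 (hA' hw.2)).resolve_left hw.1)
      have k2 : l.filter (fun w => w ∉ A'.erase a) = l.filter (fun w => w ∉ A') := by
        apply List.filter_congr
        intro w hw
        have : w ≠ a := by
          rintro rfl
          rcases (g5 w).1 (List.mem_cons_of_mem _ hw) with h | h
          · exact ha'.1 (h2 w (List.mem_cons_of_mem _ h)).1
          · exact ha'.2 h
        simp [this]
      rw [k2] at k1
      by_cases haA : a ∈ A'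
      · rw [List.filter_cons_of_neg (by simpa using haA), List.filter_cons_of_pos (by simpa using hy)]
        exact List.isChain_cons_cons.2 ⟨h5.1, k1⟩
      · rw [List.filter_cons_of_pos (by simpa using haA), List.filter_cons_of_pos (by simpa using hy)]
        exact List.isChain_cons_cons.2 ⟨ha.2.1, List.isChain_cons_cons.2 ⟨hs _ _ ha.2.2, k1⟩⟩

theorem absorber_of_tri {E : ℕ → α → α → Prop} (χ : ℕ) (hs : ∀ u v, E χ u v → E χ v u)
    (hi : ∀ v, ¬ E χ v v) (W : Finset α) (K : ℕ) (hK : 0 < K) (hW : 16 * K ≤ W.card)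
    (ht : W.card ^ 3 ≤ K * tri (E χ) W) :
    ∃ A T : Finset α, A ⊆ T ∧ T ⊆ W ∧ W.card ≤ 16 * K * A.card ∧ ∀ A' ⊆ A, Cov E (T \ A') 1 := by
  set u := W.card with hu
  obtain ⟨k, k1, k2, k3⟩ : ∃ k, 8 * K * k ≤ u ∧ u < 8 * K * (k + 1) ∧ 2 ≤ k :=
    ⟨u / (8 * K), Nat.mul_div_le u (8 * K), Nat.lt_mul_div_succ u (by omega), by
      rw [Nat.le_div_iff_mul_le (by omega)]; omega⟩
  obtain ⟨H, hH⟩ : ∃ H : α → α → Prop, ∀ a b, H a b ↔
    E χ a b ∧ 4 * k ≤ (W.filter (fun y => E χ a y ∧ E χ b y)).card := ⟨_, fun _ _ => Iff.rfl⟩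
  obtain ⟨L, hL⟩ : ∃ L : α → α → Prop, ∀ a b, L a b ↔
    (W.filter (fun y => E χ a y ∧ E χ b y)).card < 4 * k := ⟨_, fun _ _ => Iff.rfl⟩
  have Hs : ∀ a b, H a b → H b a := by
    intro a b h
    rw [hH] at h ⊢
    refine ⟨hs _ _ h.1, ?_⟩
    have := h.2
    simpa only [and_comm] using this
  have e1 : ∀ z ∈ W, ed (E χ) (W.filter (E χ z)) ≤ ed H (W.filter (E χ z)) +
      ∑ a ∈ W, ∑ b ∈ W, if L a b ∧ E χ a z ∧ E χ b z then 1 else 0 := by
    intro z _
    have : ∀ a ∈ W.filter (E χ z), ((W.filter (E χ z)).filter (E χ a)).card ≤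
        ((W.filter (E χ z)).filter (H a)).card +
          ∑ b ∈ W, if L a b ∧ E χ a z ∧ E χ b z then 1 else 0 := by
      intro a ha
      rw [← Finset.card_filter]
      refine le_trans (Finset.card_le_card ?_) (Finset.card_union_le _ _)
      intro b hb
      simp only [Finset.mem_filter, Finset.mem_union] at ha hb ⊢
      by_cases hl : L a b
      · exact Or.inr ⟨hb.1.1, hl, hs _ _ ha.2, hs _ _ hb.1.2⟩
      · exact Or.inl ⟨hb.1, (hH _ _).2 ⟨hb.2, not_lt.1 (fun h => hl ((hL _ _).2 h))⟩⟩
    refine (Finset.sum_le_sum this).trans ?_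
    rw [Finset.sum_add_distrib]
    unfold ed
    exact Nat.add_le_add_left (Finset.sum_le_sum_of_subset (Finset.filter_subset (E χ z) W)) _
  have e2 : (∑ z ∈ W, ∑ a ∈ W, ∑ b ∈ W, if L a b ∧ E χ a z ∧ E χ b z then 1 else 0) ≤
      u * (u * (4 * k)) := by
    rw [Finset.sum_comm]
    refine (Finset.sum_le_card_nsmul _ _ (u * (4 * k)) ?_).trans (by simp [hu])
    intro a _
    rw [Finset.sum_comm]
    refine (Finset.sum_le_card_nsmul _ _ (4 * k) ?_).trans (by simp [hu])
    intro b _
    rw [← Finset.card_filter]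
    by_cases hl : L a b
    · simp only [hl, true_and]
      exact le_of_lt ((hL _ _).1 hl)
    · simp [hl]
  have e3 := Finset.sum_le_sum e1
  rw [Finset.sum_add_distrib] at e3
  obtain ⟨z, hz, hz'⟩ : ∃ z ∈ W, 2 * k * u < ed H (W.filter (E χ z)) := by
    by_contra hcon
    have e4 := Finset.sum_le_card_nsmul W (fun z => ed H (W.filter (E χ z))) (2 * k * u)
      (fun z hz => not_lt.1 (fun h => hcon ⟨z, hz, h⟩))
    rw [smul_eq_mul, ← hu] at e4
    have e5 : tri (E χ) W ≤ u * (2 * k * u) + u * (u * (4 * k)) := by unfold tri; omega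
    have e6 : K * tri (E χ) W ≤ K * (u * (2 * k * u) + u * (u * (4 * k))) := Nat.mul_le_mul_left _ e5
    have e7 : u * u * (8 * K * k) ≤ u * u * u := Nat.mul_le_mul_left _ k1
    have e8 : 0 < u * u * (K * k) :=
      Nat.mul_pos (Nat.mul_pos (by omega) (by omega)) (Nat.mul_pos hK (by omega))
    have e9 : K * (u * (2 * k * u) + u * (u * (4 * k))) = 6 * (u * u * (K * k)) := by ring
    have e10 : u * u * (8 * K * k) = 8 * (u * u * (K * k)) := by ring
    have e11 : u ^ 3 = u * u * u := by ring
    omega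
  obtain ⟨p, p1, p2, p3, p4⟩ := long_path H Hs (fun v h => hi v ((hH _ _).1 h).1) k _ (W.filter (E χ z)) rfl
    (lt_of_le_of_lt (Nat.mul_le_mul_left _ (Finset.card_filter_le _ _)) hz')
  obtain ⟨x, p, rfl⟩ : ∃ x q, p = x :: q := by
    cases p with
    | nil => simp at p4
    | cons x q => exact ⟨x, q, rfl⟩
  have hzp : z ∉ x :: p := fun h => hi z (Finset.mem_filter.1 (p2 z h)).2
  have pl : p.length = k := by simpa using p4
  obtain ⟨l, A, g1, g2, g3, g4, g5, g6⟩ := apex (E χ) hs W (insert z (x :: p).toFinset) z (4 * k) p x p1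
    (fun y hy => ⟨Finset.mem_insert_of_mem (List.mem_toFinset.2 hy),
      hs _ _ (Finset.mem_filter.1 (p2 y hy)).2⟩) (p3.imp (fun a b h => (hH a b).1 h)) (by
      have := Finset.card_insert_le z (x :: p).toFinset
      have := List.toFinset_card_le (x :: p)
      omega)
  have hzA : z ∉ A := fun h => Finset.disjoint_left.1 g4 h (by simp)
  have hxA : x ∉ A := fun h => Finset.disjoint_left.1 g4 h (by simp)
  have n1 : (z :: x :: l).Nodup := List.nodup_cons.2 ⟨fun h => ((g5 z).1 h).elim hzp hzA, g1⟩
  refine ⟨A, (z :: x :: l).toFinset, ?_, ?_, ?_, ?_⟩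
  · intro y hy
    exact List.mem_toFinset.2 (List.mem_cons_of_mem _ ((g5 y).2 (Or.inr hy)))
  · intro y hy
    rcases List.mem_cons.1 (List.mem_toFinset.1 hy) with rfl | hy
    · exact hz
    · rcases (g5 y).1 hy with h | h
      · exact (Finset.mem_filter.1 (p2 y h)).1
      · exact g3 h
  · rw [g2, pl]
    have : 8 * K * (k + 1) ≤ 8 * K * (2 * k) := Nat.mul_le_mul_left _ (by omega)
    have : 8 * K * (2 * k) = 16 * K * k := by ring
    omega
  · intro A' hA'
    have hz' : z ∉ A' := fun h => hzA (hA' h)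
    have hx' : x ∉ A' := fun h => hxA (hA' h)
    have f1 : (z :: x :: l).filter (fun y => y ∉ A') = z :: x :: l.filter (fun y => y ∉ A') := by
      rw [List.filter_cons_of_pos (by simpa using hz'), List.filter_cons_of_pos (by simpa using hx')]
    have := Cov.one (E := E) χ (n1.filter (fun y => y ∉ A')) (by
      intro a t h _
      rw [f1] at h
      obtain ⟨rfl, rfl⟩ := List.cons.inj h
      exact List.isChain_cons_cons.2 ⟨(Finset.mem_filter.1 (p2 x (by simp))).2, g6 A' hA'⟩)
    convert this using 1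
    ext y
    simp only [Finset.mem_sdiff, List.mem_toFinset, List.mem_filter, decide_eq_true_eq]

end

theorem many_tri (t : ℕ) : ∃ D K N : ℕ, 0 < D ∧ 0 < K ∧ ∀ (α : Type) [DecidableEq α]
    (E : ℕ → α → α → Prop) (W : Finset α) (S : α → Finset ℕ), N ≤ W.card →
    (∀ v ∈ W, (S v).card ≤ t) → D * ed (Bad E S) W ≤ W.card ^ 2 →
    ∃ χ, W.card ^ 3 ≤ K * tri (E χ) W := by
  induction t with
  | zero =>
    refine ⟨2, 1, 3, by omega, by omega, ?_⟩
    intro α _ E W S hN hS h
    exfalso
    have : ∀ v ∈ W, W.card - 1 ≤ (W.filter (Bad E S v)).card := by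
      intro v hv
      rw [← Finset.card_erase_of_mem hv]
      refine Finset.card_le_card ?_
      intro w hw
      rw [Finset.mem_erase] at hw
      refine Finset.mem_filter.2 ⟨hw.2, hw.1.symm, ?_⟩
      rw [Finset.card_eq_zero.1 (Nat.le_zero.1 (hS v hv))]
      simp
    have e := Finset.card_nsmul_le_sum _ _ _ this
    rw [smul_eq_mul] at e
    unfold ed at h
    obtain ⟨m, hm⟩ : ∃ m, W.card = m + 1 := ⟨W.card - 1, by omega⟩
    rw [hm] at e h hN
    simp only [Nat.add_sub_cancel] at e
    nlinarith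
  | succ t ih =>
    obtain ⟨D, K, N, hD, hK, ih⟩ := ih
    refine ⟨8 * (t + 1) ^ 2 * D, 8 * (t + 1) ^ 3 * K + 4 * (t + 1) ^ 2 * (8 * (t + 1) ^ 2 * D),
      2 * (t + 1) * N + 4, by positivity, by positivity, ?_⟩
    intro α _ E W S hN hS h
    set u := W.card with hu
    set D' := 8 * (t + 1) ^ 2 * D with hD'
    have hD8 : 8 ≤ D' := by
      have : 1 ≤ (t + 1) ^ 2 * D := Nat.succ_le_of_lt (by positivity)
      rw [hD', mul_assoc]; omega
    have hu4 : 4 ≤ u := by omega
    let W0 := W.filter (fun v => 4 * (W.filter (Bad E S v)).card ≤ u)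
    have w1 : u ≤ 2 * W0.card := by
      have a1 := Finset.card_filter_add_card_filter_not (s := W)
        (fun v => 4 * (W.filter (Bad E S v)).card ≤ u)
      have a2 := Finset.card_nsmul_le_sum
        (W.filter (fun v => ¬ 4 * (W.filter (Bad E S v)).card ≤ u))
        (fun v => 4 * (W.filter (Bad E S v)).card) u (fun v hv => by
          have := (Finset.mem_filter.1 hv).2
          omega)
      have a3 : ∑ v ∈ W.filter (fun v => ¬ 4 * (W.filter (Bad E S v)).card ≤ u),
          4 * (W.filter (Bad E S v)).card ≤ 4 * ed (Bad E S) W := by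
        unfold ed
        rw [Finset.mul_sum]
        exact Finset.sum_le_sum_of_subset (Finset.filter_subset _ _)
      rw [smul_eq_mul] at a2
      have a4 : 8 * ed (Bad E S) W ≤ u ^ 2 := (Nat.mul_le_mul_right _ hD8).trans h
      have a5 : 2 * (W.filter (fun v => ¬ 4 * (W.filter (Bad E S v)).card ≤ u)).card * u ≤ u * u := by
        nlinarith
      have a6 := Nat.le_of_mul_le_mul_right a5 (by omega)
      change u ≤ 2 * (W.filter _).card
      omega
    let U : α → ℕ → Finset α := fun v χ => W.filter (fun x => χ ∈ S x ∧ E χ v x)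
    have w2 : ∀ v ∈ W0, ∃ χ, u ≤ 2 * (t + 1) * (U v χ).card := by
      intro v hv
      obtain ⟨hv, hv'⟩ := Finset.mem_filter.1 hv
      by_contra hcon
      push Not at hcon
      have a1 : W ⊆ insert v (W.filter (Bad E S v) ∪ (S v).biUnion (U v)) := by
        intro x hx
        by_cases hxv : x = v
        · simp [hxv]
        refine Finset.mem_insert_of_mem (Finset.mem_union.2 ?_)
        by_cases hb : Bad E S v x
        · exact Or.inl (Finset.mem_filter.2 ⟨hx, hb⟩)
        · have : ∃ χ ∈ S v, χ ∈ S x ∧ E χ v x := by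
            by_contra h'
            exact hb ⟨Ne.symm hxv, h'⟩
          obtain ⟨χ, c1, c2⟩ := this
          exact Or.inr (Finset.mem_biUnion.2 ⟨χ, c1, Finset.mem_filter.2 ⟨hx, c2⟩⟩)
      have a2 := (Finset.card_le_card a1).trans (Finset.card_insert_le _ _)
      have a3 := Finset.card_union_le (W.filter (Bad E S v)) ((S v).biUnion (U v))
      have a4 := Finset.card_biUnion_le (s := S v) (t := U v)
      have a5 := Finset.sum_le_card_nsmul (S v) (fun χ => 2 * (t + 1) * (U v χ).card) (u - 1)
        (fun χ _ => by have := hcon χ; omega)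
      rw [← Finset.mul_sum, smul_eq_mul] at a5
      have a6 : (S v).card * (u - 1) ≤ (t + 1) * (u - 1) := Nat.mul_le_mul_right _ (hS v hv)
      have a7 : (t + 1) * (2 * ∑ χ ∈ S v, (U v χ).card) ≤ (t + 1) * (u - 1) := by
        calc _ = 2 * (t + 1) * ∑ χ ∈ S v, (U v χ).card := by ring
          _ ≤ _ := a5.trans a6
      have a8 := Nat.le_of_mul_le_mul_left a7 (by omega)
      omega
    choose! cv hcv using w2
    by_cases hc : ∃ v ∈ W0, D' * ed (E (cv v)) (U v (cv v)) ≤ u ^ 2
    · obtain ⟨v, hv, hv'⟩ := hc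
      have b1 := hcv v hv
      set χ := cv v
      set U' := U v χ with hU'
      have b0 : U' ⊆ W := Finset.filter_subset _ _
      obtain ⟨χ', b2⟩ := ih α E U' (fun x => (S x).erase χ) (by
        have : 2 * (t + 1) * N ≤ 2 * (t + 1) * U'.card := by omega
        exact Nat.le_of_mul_le_mul_left this (by omega)) (by
        intro x hx
        obtain ⟨hx, hx', _⟩ := Finset.mem_filter.1 hx
        have := hS x hx
        rw [Finset.card_erase_of_mem hx']
        omega) (by
        have c1 : ed (Bad E (fun x => (S x).erase χ)) U' ≤ ed (Bad E S) U' + ed (E χ) U' := by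
          unfold ed
          rw [← Finset.sum_add_distrib]
          refine Finset.sum_le_sum (fun x _ => ?_)
          refine le_trans (Finset.card_le_card ?_) (Finset.card_union_le _ _)
          intro y hy
          simp only [Finset.mem_filter, Finset.mem_union] at hy ⊢
          by_cases hE : E χ x y
          · exact Or.inr ⟨hy.1, hE⟩
          · refine Or.inl ⟨hy.1, hy.2.1, ?_⟩
            rintro ⟨ψ, d1, d2, d3⟩
            have : ψ ≠ χ := by rintro rfl; exact hE d3
            exact hy.2.2 ⟨ψ, Finset.mem_erase.2 ⟨this, d1⟩, Finset.mem_erase.2 ⟨this, d2⟩, d3⟩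
        have c2 := ed_mono (Bad E S) b0
        have c3 : D' * ed (Bad E (fun x => (S x).erase χ)) U' ≤ 2 * u ^ 2 := by
          calc _ ≤ D' * (ed (Bad E S) W + ed (E χ) U') := Nat.mul_le_mul_left _ (by omega)
            _ ≤ _ := by rw [mul_add]; omega
        have c4 : u ^ 2 ≤ (2 * (t + 1) * U'.card) ^ 2 := Nat.pow_le_pow_left b1 2
        have c5 : 8 * (t + 1) ^ 2 * (D * ed (Bad E (fun x => (S x).erase χ)) U') ≤
            8 * (t + 1) ^ 2 * U'.card ^ 2 := by
          calc _ = D' * ed (Bad E (fun x => (S x).erase χ)) U' := by rw [hD']; ring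
            _ ≤ 2 * (2 * (t + 1) * U'.card) ^ 2 := by omega
            _ = _ := by ring
        exact Nat.le_of_mul_le_mul_left c5 (by positivity))
      refine ⟨χ', ?_⟩
      have c1 := tri_mono (E χ') b0
      calc u ^ 3 ≤ (2 * (t + 1) * U'.card) ^ 3 := Nat.pow_le_pow_left b1 3
        _ = 8 * (t + 1) ^ 3 * U'.card ^ 3 := by ring
        _ ≤ 8 * (t + 1) ^ 3 * (K * tri (E χ') W) :=
          Nat.mul_le_mul_left _ (b2.trans (Nat.mul_le_mul_left _ c1))
        _ ≤ _ := by rw [add_mul, mul_assoc _ K]; omega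
    · push Not at hc
      let X := W0.image cv
      have x1 : X.card ≤ 2 * (t + 1) ^ 2 := by
        have a1 := Finset.card_nsmul_le_sum X
          (fun χ => 2 * (t + 1) * (W.filter (fun x => χ ∈ S x)).card) u (by
            intro χ hχ
            obtain ⟨v, hv, rfl⟩ := Finset.mem_image.1 hχ
            refine (hcv v hv).trans (Nat.mul_le_mul_left _ (Finset.card_le_card ?_))
            intro x hx
            exact Finset.mem_filter.2 ⟨(Finset.mem_filter.1 hx).1, (Finset.mem_filter.1 hx).2.1⟩)
        rw [← Finset.mul_sum, smul_eq_mul] at a1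
        have a2 : ∑ χ ∈ X, (W.filter (fun x => χ ∈ S x)).card ≤ u * (t + 1) := by
          simp only [Finset.card_filter]
          rw [Finset.sum_comm]
          refine (Finset.sum_le_card_nsmul _ _ (t + 1) ?_).trans (by simp [hu])
          intro x hx
          rw [← Finset.card_filter]
          exact (Finset.card_le_card (fun χ hχ => (Finset.mem_filter.1 hχ).2)).trans (hS x hx)
        have a3 : X.card * u ≤ 2 * (t + 1) ^ 2 * u := by
          calc _ ≤ 2 * (t + 1) * (u * (t + 1)) := a1.trans (Nat.mul_le_mul_left _ a2)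
            _ = _ := by ring
        exact Nat.le_of_mul_le_mul_right a3 (by omega)
      obtain ⟨χ, _, hχ⟩ := X.exists_max_image (fun χ => tri (E χ) W)
        ((Finset.card_pos.1 (by omega : 0 < W0.card)).image cv)
      refine ⟨χ, ?_⟩
      have a1 := Finset.card_nsmul_le_sum W0
        (fun v => D' * ed (E (cv v)) (W.filter (E (cv v) v))) (u ^ 2) (by
          intro v hv
          refine (hc v hv).le.trans (Nat.mul_le_mul_left _ (ed_mono _ ?_))
          intro x hx
          exact Finset.mem_filter.2 ⟨(Finset.mem_filter.1 hx).1, (Finset.mem_filter.1 hx).2.2⟩)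
      rw [← Finset.mul_sum, smul_eq_mul,
        ← Finset.sum_fiberwise_of_maps_to (t := X) (g := cv) (fun v hv => Finset.mem_image_of_mem cv hv)] at a1
      have a2 : ∑ ψ ∈ X, ∑ v ∈ W0 with cv v = ψ, ed (E (cv v)) (W.filter (E (cv v) v)) ≤
          X.card * tri (E χ) W := by
        refine (Finset.sum_le_card_nsmul _ _ (tri (E χ) W) ?_).trans (by simp)
        intro ψ hψ
        refine le_trans ?_ (hχ ψ hψ)
        calc _ = ∑ v ∈ W0 with cv v = ψ, ed (E ψ) (W.filter (E ψ v)) :=
              Finset.sum_congr rfl (fun v hv => by rw [(Finset.mem_filter.1 hv).2])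
          _ ≤ _ := Finset.sum_le_sum_of_subset
              ((Finset.filter_subset _ _).trans (Finset.filter_subset _ _))
      calc u ^ 3 = u * u ^ 2 := by ring
        _ ≤ 2 * W0.card * u ^ 2 := Nat.mul_le_mul_right _ w1
        _ = 2 * (W0.card * u ^ 2) := by ring
        _ ≤ 2 * (D' * (2 * (t + 1) ^ 2 * tri (E χ) W)) := Nat.mul_le_mul_left _
            (a1.trans (Nat.mul_le_mul_left _ (a2.trans (Nat.mul_le_mul_right _ x1))))
        _ = 4 * (t + 1) ^ 2 * D' * tri (E χ) W := by ring
        _ ≤ _ := by rw [add_mul]; omega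

theorem absorber (t : ℕ) : ∃ D K : ℕ, 0 < D ∧ 0 < K ∧ ∀ (α : Type) [DecidableEq α]
    (E : ℕ → α → α → Prop), (∀ χ u v, E χ u v → E χ v u) → (∀ χ v, ¬ E χ v v) →
    ∀ (W : Finset α) (S : α → Finset ℕ),
    (∀ v ∈ W, (S v).card ≤ t) → D * ed (Bad E S) W ≤ W.card ^ 2 →
    ∃ A T : Finset α, A ⊆ T ∧ T ⊆ W ∧ W.card ≤ K * A.card ∧ ∀ A' ⊆ A, Cov E (T \ A') 1 := by
  obtain ⟨D, K, N, hD, hK, h⟩ := many_tri t
  refine ⟨D, 16 * K + N, hD, by omega, ?_⟩
  intro α _ E hs hi W S hS hW
  by_cases hbig : 16 * K + N ≤ W.card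
  · obtain ⟨χ, hχ⟩ := h α E W S (by omega) hS hW
    obtain ⟨A, T, h1, h2, h3, h4⟩ := absorber_of_tri χ (hs χ) (hi χ) W K hK (by omega) hχ
    exact ⟨A, T, h1, h2, h3.trans (Nat.mul_le_mul_right _ (by omega)), h4⟩
  · rcases W.eq_empty_or_nonempty with rfl | ⟨v, hv⟩
    · exact ⟨∅, ∅, subset_rfl, subset_rfl, by simp, fun A' _ => by simpa using Cov.empty 1⟩
    · refine ⟨{v}, {v}, subset_rfl, by simpa using hv, by simp; omega, ?_⟩
      intro A' hA'
      rcases Finset.subset_singleton_iff.1 hA' with rfl | rfl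
      · simpa using Cov.single v
      · simpa using Cov.empty 1

end Pool.Agent.H24.Mono
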