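import Pool.Agent.H24.Mono2

set_option autoImplicit false

namespace Pool.Agent.H24.Mono

open Finset Classical

section
variable {α : Type} [DecidableEq α]

theorem bonf (N : α → Finset α) (q : ℕ) (J : Finset α)
    (h : ∀ x ∈ J, ∀ y ∈ J, x ≠ y → (N x ∩ N y).card ≤ q) :
    ∑ x ∈ J, (N x).card ≤ (J.biUnion N).card + J.card ^ 2 * q := by
  induction J using Finset.induction_on with
  | empty => simp
  | insert a J ha ih =>
    have e1 := ih (fun x hx y hy => h x (by simp [hx]) y (by simp [hy]))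
    rw [Finset.sum_insert ha, Finset.biUnion_insert, Finset.card_insert_of_notMem ha]
    have e2 := Finset.card_union_add_card_inter (N a) (J.biUnion N)
    have e3 : (N a ∩ J.biUnion N).card ≤ J.card * q := by
      rw [Finset.inter_biUnion]
      refine Finset.card_biUnion_le.trans ((Finset.sum_le_card_nsmul _ _ q ?_).trans (by simp))
      intro y hy
      exact h a (by simp) y (by simp [hy]) (by rintro rfl; exact ha hy)
    have e4 : (J.card + 1) ^ 2 * q = J.card ^ 2 * q + 2 * (J.card * q) + q := by ring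
    omega

theorem absorb_few {E : ℕ → α → α → Prop} (hs : ∀ χ u v, E χ u v → E χ v u) (T : Finset ℕ)
    (hT : T.card ≤ 2) (A B : Finset α) (hAB : Disjoint A B) (h1 : 129 * B.card ≤ A.card)
    (h2 : ∀ b ∈ B, 2 * (A.filter (Bad E (fun _ => T) b)).card ≤ A.card) :
    ∃ A' ⊆ A, Cov E (B ∪ A') 16 := by
  rcases B.eq_empty_or_nonempty with rfl | hB
  · exact ⟨∅, by simp, by simpa using Cov.empty 16⟩
  have hB' := Finset.card_pos.2 hB
  let N : ℕ → α → Finset α := fun χ b => A.filter (fun a => E χ a b)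
  have w2 : ∀ b ∈ B, ∃ χ, χ ∈ T ∧ A.card ≤ 4 * (N χ b).card := by
    intro b hb
    by_contra hcon
    push Not at hcon
    have a1 : A ⊆ A.filter (Bad E (fun _ => T) b) ∪ T.biUnion (fun χ => N χ b) := by
      intro x hx
      refine Finset.mem_union.2 ?_
      by_cases hbad : Bad E (fun _ => T) b x
      · exact Or.inl (Finset.mem_filter.2 ⟨hx, hbad⟩)
      · have : ∃ χ ∈ T, χ ∈ T ∧ E χ b x := by
          by_contra h'
          exact hbad ⟨by rintro rfl; exact Finset.disjoint_left.1 hAB hx hb, h'⟩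
        obtain ⟨χ, c1, c2⟩ := this
        exact Or.inr (Finset.mem_biUnion.2 ⟨χ, c1, Finset.mem_filter.2 ⟨hx, hs _ _ _ c2.2⟩⟩)
    have a2 := (Finset.card_le_card a1).trans (Finset.card_union_le _ _)
    have a4 := Finset.card_biUnion_le (s := T) (t := fun χ => N χ b)
    have a5 := Finset.sum_le_card_nsmul T (fun χ => 4 * (N χ b).card) (A.card - 1)
      (fun χ hχ => by have := hcon χ hχ; omega)
    rw [← Finset.mul_sum, smul_eq_mul] at a5
    have a6 : T.card * (A.card - 1) ≤ 2 * (A.card - 1) := Nat.mul_le_mul_right _ hT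
    have := h2 b hb
    omega
  choose! cv hcv using w2
  let E' : ℕ → α → α → Prop := fun χ b b' =>
    2 * B.card ≤ (A.filter (fun a => E χ a b ∧ E χ a b')).card
  have c1 : Cov E' (T.biUnion (fun χ => B.filter (fun b => cv b = χ))) (T.card * 8) := by
    refine Cov.biUnion _ _ _ ?_ ?_
    · intro χ _
      refine posa χ ?_ _ _ ?_
      · intro u v h
        simpa only [E', and_comm] using h
      · intro I hI hind
        by_contra hcon
        obtain ⟨J, hJ, hJ'⟩ := Finset.exists_subset_card_eq (s := I) (n := 8) (by omega)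
        have b1 := bonf (N χ) (2 * B.card) J (by
          intro x hx y hy hxy
          have := hind x (hJ hx) y (hJ hy) hxy
          simp only [E', not_le] at this
          simp only [N, ← Finset.filter_and]
          exact this.le)
        have b2 : (J.biUnion (N χ)).card ≤ A.card :=
          Finset.card_le_card (Finset.biUnion_subset.2 (fun _ _ => Finset.filter_subset _ _))
        have b3 := Finset.card_nsmul_le_sum J (fun b => 4 * (N χ b).card) A.card (by
          intro b hb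
          obtain ⟨hb1, hb2⟩ := Finset.mem_filter.1 (hI (hJ hb))
          exact hb2 ▸ (hcv b hb1).2)
        rw [← Finset.mul_sum, smul_eq_mul] at b3
        rw [hJ'] at b1 b3
        omega
    · intro i _ j _ hij
      rw [Finset.disjoint_filter]
      rintro x _ rfl h
      exact hij h
  have c2 : T.biUnion (fun χ => B.filter (fun b => cv b = χ)) = B := by
    ext b
    simp only [Finset.mem_biUnion, Finset.mem_filter]
    exact ⟨fun ⟨_, _, h, _⟩ => h, fun h => ⟨_, (hcv b h).1, h, rfl⟩⟩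
  rw [c2] at c1
  obtain ⟨A', g1, _, g3⟩ := lift E' E hs A B hAB (fun _ => 2 * B.card) (by
    intro t
    by_cases ht : 2 * B.card ≤ t
    · have := Finset.card_filter_le B (fun _ => 2 * B.card ≤ t)
      omega
    · simp [ht]) (by
    intro χ b _ b' _ h
    simpa using h) c1
  exact ⟨A', g1, g3.mono (by omega)⟩

end

theorem near_complete : ∃ D M : ℕ, 0 < D ∧ ∀ (α : Type) [DecidableEq α]
    (E : ℕ → α → α → Prop), (∀ χ u v, E χ u v → E χ v u) → (∀ χ v, ¬ E χ v v) →
    ∀ (T : Finset ℕ) (V : Finset α), T.card ≤ 2 →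
    (∀ v ∈ V, D * (V.filter (Bad E (fun _ => T) v)).card ≤ V.card) → Cov E V M := by
  obtain ⟨D, K, hD, hK, h⟩ := absorber 2
  refine ⟨D * (K * 129), K * 129 * K + 16 + 1, by positivity, ?_⟩
  intro α _ E hs hi T V hT hV
  have key : ∀ W ⊆ V, V.card ≤ K * 129 * W.card →
      ∃ A T : Finset α, A ⊆ T ∧ T ⊆ W ∧ W.card ≤ K * A.card ∧ ∀ A' ⊆ A, Cov E (T \ A') 1 := by
    intro W hW hW'
    refine h α E hs hi W (fun _ => T) (fun _ _ => hT) ?_
    have a1 := Finset.sum_le_card_nsmul W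
      (fun v => D * (K * 129) * (W.filter (Bad E (fun _ => T) v)).card) V.card (fun v hv =>
        (Nat.mul_le_mul_left _ (Finset.card_le_card (Finset.filter_subset_filter _ hW))).trans
          (hV v (hW hv)))
    rw [← Finset.mul_sum, smul_eq_mul] at a1
    have a2 : K * 129 * (D * ed (Bad E (fun _ => T)) W) ≤ K * 129 * W.card ^ 2 := by
      calc _ = D * (K * 129) * ed (Bad E (fun _ => T)) W := by ring
        _ ≤ W.card * (K * 129 * W.card) := a1.trans (Nat.mul_le_mul_left _ hW')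
        _ = _ := by ring
    exact Nat.le_of_mul_le_mul_left a2 (by positivity)
  obtain ⟨A, T0, h1, h2, h3, h4⟩ := key V subset_rfl (Nat.le_mul_of_pos_left _ (by positivity))
  obtain ⟨B, b1, b2, b3⟩ := greedy (E := E) (V \ T0) V.card (K * 129 * K) (K * 129) (by positivity)
    (Finset.card_le_card Finset.sdiff_subset) (by
      intro W hW hW'
      obtain ⟨A', T', g1, g2, g3, g4⟩ := key W (hW.trans Finset.sdiff_subset) hW'
      refine ⟨T', g2, ?_, by simpa using g4 ∅ (by simp)⟩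
      rw [mul_assoc (K * 129)]
      exact hW'.trans (Nat.mul_le_mul_left _ (g3.trans (Nat.mul_le_mul_left _ (Finset.card_le_card g1)))))
  obtain ⟨A', c1, c2⟩ := absorb_few hs T hT A B (by
      rw [Finset.disjoint_left]
      intro a ha hb
      exact (Finset.mem_sdiff.1 (b1 hb)).2 (h1 ha)) (by
      have : K * (129 * B.card) ≤ K * A.card := by rw [← mul_assoc]; exact b2.trans h3
      exact Nat.le_of_mul_le_mul_left this hK) (by
      intro b hb
      have e1 := hV b (Finset.mem_sdiff.1 (b1 hb)).1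
      have e2 : (A.filter (Bad E (fun _ => T) b)).card ≤ (V.filter (Bad E (fun _ => T) b)).card :=
        Finset.card_le_card (Finset.filter_subset_filter _ (h1.trans h2))
      have : K * (2 * (A.filter (Bad E (fun _ => T) b)).card) ≤ K * A.card := by
        calc _ = 1 * (K * 2) * (A.filter (Bad E (fun _ => T) b)).card := by ring
          _ ≤ D * (K * 129) * (V.filter (Bad E (fun _ => T) b)).card := by gcongr <;> omega
          _ ≤ _ := e1.trans h3
      exact Nat.le_of_mul_le_mul_left this hK)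
  exact outer h1 h2 h4 b1 b3 c1 c2

def Ec {α : Type} (c : α → α → ℕ) (χ : ℕ) (u v : α) : Prop := u ≠ v ∧ c u v = χ

theorem sum_inv_le {α : Type} (A : Finset α) (f : α → ℕ) (g : ℕ → ℕ)
    (h : ∀ χ, (A.filter (fun a => f a = χ)).card ≤ g χ) :
    ∑ a ∈ A, (1 : ℚ) / g (f a) ≤ (A.image f).card := by
  rw [← Finset.sum_fiberwise_of_maps_to (t := A.image f) (g := f)
    (fun a ha => Finset.mem_image_of_mem f ha)]
  refine (Finset.sum_le_card_nsmul _ _ 1 ?_).trans (by simp)
  intro χ _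
  rw [Finset.sum_congr rfl (g := fun _ => (1 : ℚ) / g χ)
    (fun a ha => by rw [(Finset.mem_filter.1 ha).2]), Finset.sum_const, nsmul_eq_mul, mul_one_div]
  exact div_le_one_of_le₀ (by exact_mod_cast h χ) (by positivity)

theorem absorb_mean (s : ℕ) : ∃ D M : ℕ, 0 < D ∧ ∀ (α : Type) [DecidableEq α]
    (c : α → α → ℕ), (∀ u v, c u v = c v u) → ∀ (A B : Finset α), A.Nonempty → Disjoint A B →
    (∀ a ∈ A, (B.image (c a)).card ≤ s) → D * ∑ b ∈ B, (A.image (c b)).card ≤ A.card →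
    ∃ A' ⊆ A, A'.card ≤ B.card ∧ Cov (Ec c) (B ∪ A') M := by
  obtain ⟨DA, M, hDA, hA⟩ := near_complete
  obtain ⟨S0, hS0, hS1⟩ : ∃ S0 : ℕ, 0 < S0 ∧ s * s ≤ S0 := ⟨s * s + 1, by omega, by omega⟩
  refine ⟨2 * S0 * DA, S0 * M, by positivity, ?_⟩
  intro α _ c hc A B hne hAB hs hsum
  obtain ⟨D, hD⟩ : ∃ D, D = 2 * S0 * DA := ⟨_, rfl⟩
  rw [← hD] at hsum
  have hD0 : 0 < D := by rw [hD]; positivity
  obtain ⟨I, hI⟩ : ∃ I : ℕ → α → α → ℕ, ∀ χ b b',
    I χ b b' = (A.filter (fun a => Ec c χ a b ∧ Ec c χ a b')).card := ⟨_, fun _ _ _ => rfl⟩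
  have Is : ∀ χ b b', I χ b b' = I χ b' b := by
    intro χ b b'; simp only [hI, and_comm]
  obtain ⟨w, hw⟩ : ∃ w : α → α → α → ℚ, ∀ a b b',
    w a b b' = if c a b = c a b' then 1 / (I (c a b) b b' : ℚ) else 0 := ⟨_, fun _ _ _ => rfl⟩
  have w0 : ∀ a b b', 0 ≤ w a b b' := by
    intro a b b'; rw [hw]; split_ifs <;> positivity
  have ws : ∀ a b b', w a b b' = w a b' b := by
    intro a b b'
    rw [hw, hw]
    by_cases h : c a b = c a b'
    · rw [if_pos h, if_pos h.symm, h, Is]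
    · rw [if_neg h, if_neg (Ne.symm h)]
  have hne' : ∀ a ∈ A, ∀ b ∈ B, a ≠ b := by
    rintro a ha b hb rfl; exact Finset.disjoint_left.1 hAB ha hb
  have w1 : ∀ b ∈ B, ∀ b' ∈ B, ∑ a ∈ A, w a b b' ≤ (A.image (c b)).card := by
    intro b hb b' hb'
    simp only [hw]
    rw [← Finset.sum_filter]
    refine (sum_inv_le (A.filter (fun a => c a b = c a b')) (fun a => c a b) (fun χ => I χ b b') ?_).trans ?_
    · intro χ
      rw [hI]
      refine Finset.card_le_card ?_
      intro a ha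
      simp only [Finset.mem_filter] at ha ⊢
      exact ⟨ha.1.1, ⟨hne' a ha.1.1 b hb, ha.2⟩, hne' a ha.1.1 b' hb', ha.1.2 ▸ ha.2⟩
    · refine Nat.cast_le.2 (Finset.card_le_card ?_)
      intro χ hχ
      obtain ⟨a, ha, rfl⟩ := Finset.mem_image.1 hχ
      exact Finset.mem_image.2 ⟨a, (Finset.mem_filter.1 ha).1, hc _ _⟩
  obtain ⟨⟨a1, a2⟩, hp, hΦ⟩ : ∃ p ∈ A ×ˢ A,
      (D : ℚ) ^ 2 * ∑ b ∈ B, ∑ b' ∈ B, w p.1 b b' * w p.2 b b' ≤ 1 := by
    refine Finset.exists_le_of_sum_le (hne.product hne) ?_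
    have e1 : ∑ p ∈ A ×ˢ A, ∑ b ∈ B, ∑ b' ∈ B, w p.1 b b' * w p.2 b b' =
        ∑ b ∈ B, ∑ b' ∈ B, (∑ a ∈ A, w a b b') * (∑ a ∈ A, w a b b') := by
      rw [Finset.sum_comm]
      refine Finset.sum_congr rfl (fun b _ => ?_)
      rw [Finset.sum_comm]
      refine Finset.sum_congr rfl (fun b' _ => ?_)
      rw [Finset.sum_product, Finset.sum_mul_sum]
    have e2 : ∑ b ∈ B, ∑ b' ∈ B, (∑ a ∈ A, w a b b') * (∑ a ∈ A, w a b b') ≤
        ∑ b ∈ B, ∑ b' ∈ B, ((A.image (c b)).card : ℚ) * ((A.image (c b')).card : ℚ) := by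
      refine Finset.sum_le_sum (fun b hb => Finset.sum_le_sum (fun b' hb' => ?_))
      refine mul_le_mul (w1 b hb b' hb') ?_ (Finset.sum_nonneg (fun _ _ => w0 _ _ _)) (by positivity)
      simp only [ws _ b b']
      exact w1 b' hb' b hb
    rw [← Finset.sum_mul_sum] at e2
    have e3 : (D : ℚ) * ∑ b ∈ B, ((A.image (c b)).card : ℚ) ≤ A.card := by exact_mod_cast hsum
    have e4 : (0 : ℚ) ≤ (D : ℚ) * ∑ b ∈ B, ((A.image (c b)).card : ℚ) :=
      mul_nonneg (Nat.cast_nonneg _) (Finset.sum_nonneg (fun _ _ => Nat.cast_nonneg _))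
    rw [← Finset.mul_sum, e1, Finset.sum_const, Finset.card_product, nsmul_eq_mul, mul_one, Nat.cast_mul]
    calc _ ≤ (D : ℚ) ^ 2 * ((∑ b ∈ B, ((A.image (c b)).card : ℚ)) *
          ∑ b ∈ B, ((A.image (c b)).card : ℚ)) := mul_le_mul_of_nonneg_left e2 (by positivity)
      _ = ((D : ℚ) * ∑ b ∈ B, ((A.image (c b)).card : ℚ)) *
          ((D : ℚ) * ∑ b ∈ B, ((A.image (c b)).card : ℚ)) := by ring
      _ ≤ _ := mul_le_mul e3 e3 e4 (by positivity)
  obtain ⟨ha1, ha2⟩ := Finset.mem_product.1 hp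
  simp only at ha1 ha2 hΦ
  obtain ⟨F, hF⟩ : ∃ F : ℕ × ℕ → Finset α, ∀ j b, b ∈ F j ↔ b ∈ B ∧ (c a1 b, c a2 b) = j :=
    ⟨fun j => B.filter (fun b => (c a1 b, c a2 b) = j), fun _ _ => Finset.mem_filter⟩
  obtain ⟨bad, hbad⟩ : ∃ bad : ℕ × ℕ → α → ℕ → Finset α, ∀ j b y b', b' ∈ bad j b y ↔
      b' ∈ F j ∧ I j.1 b b' < y ∧ I j.2 b b' < y :=
    ⟨fun j b y => (F j).filter (fun b' => I j.1 b b' < y ∧ I j.2 b b' < y), fun _ _ _ _ =>
      Finset.mem_filter⟩
  obtain ⟨x, hx1, hx2⟩ : ∃ x : α → ℕ, (∀ j, ∀ b ∈ F j, DA * (bad j b (x b)).card ≤ (F j).card) ∧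
      ∀ j, ∀ b ∈ F j, ∀ y, x b < y → y ≤ 2 * S0 * (F j).card → (F j).card < DA * (bad j b y).card := by
    refine ⟨fun b => Nat.findGreatest (fun y => DA * (bad (c a1 b, c a2 b) b y).card ≤
      (F (c a1 b, c a2 b)).card) (2 * S0 * (F (c a1 b, c a2 b)).card), ?_, ?_⟩
    · intro j b hb
      obtain ⟨_, rfl⟩ := (hF j b).1 hb
      refine Nat.findGreatest_spec (P := fun y => DA * (bad (c a1 b, c a2 b) b y).card ≤
        (F (c a1 b, c a2 b)).card) (Nat.zero_le _) ?_
      have : bad (c a1 b, c a2 b) b 0 = ∅ := by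
        ext b'; simp [hbad]
      simp [this]
    · intro j b hb y hy hy'
      obtain ⟨_, rfl⟩ := (hF j b).1 hb
      exact not_le.1 (Nat.findGreatest_is_greatest (P := fun y =>
        DA * (bad (c a1 b, c a2 b) b y).card ≤ (F (c a1 b, c a2 b)).card) hy hy')
  let J := B.image (c a1) ×ˢ B.image (c a2)
  have hJ : J.card ≤ S0 := by
    rw [Finset.card_product]
    exact (Nat.mul_le_mul (hs a1 ha1) (hs a2 ha2)).trans hS1
  have hJB : ∀ b ∈ B, (c a1 b, c a2 b) ∈ J := fun b hb =>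
    Finset.mem_product.2 ⟨Finset.mem_image_of_mem _ hb, Finset.mem_image_of_mem _ hb⟩
  let E' : ℕ → α → α → Prop := fun χ b b' => b ≠ b' ∧ min (x b) (x b') ≤ I χ b b'
  have c1 : Cov E' (J.biUnion F) (J.card * M) := by
    refine Cov.biUnion _ _ _ ?_ ?_
    · intro j _
      refine hA α E' ?_ (fun χ v h => h.1 rfl) {j.1, j.2} (F j) Finset.card_le_two ?_
      · intro χ u v h
        exact ⟨h.1.symm, by rw [min_comm, Is]; exact h.2⟩
      · intro b hb
        refine le_trans (Nat.mul_le_mul_left _ (Finset.card_le_card ?_)) (hx1 j b hb)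
        intro b' hb'
        obtain ⟨h1, h2, h3⟩ := Finset.mem_filter.1 hb'
        rw [hbad]
        refine ⟨h1, ?_, ?_⟩
        · by_contra h
          exact h3 ⟨j.1, by simp, by simp, h2, (min_le_left _ _).trans (not_lt.1 h)⟩
        · by_contra h
          exact h3 ⟨j.2, by simp, by simp, h2, (min_le_left _ _).trans (not_lt.1 h)⟩
    · intro i _ j _ hij
      rw [Finset.disjoint_left]
      intro b h1 h2
      exact hij (((hF i b).1 h1).2.symm.trans ((hF j b).1 h2).2)
  have c2 : J.biUnion F = B := by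
    ext b
    simp only [Finset.mem_biUnion, hF]
    exact ⟨fun ⟨_, _, h, _⟩ => h, fun h => ⟨_, hJB b h, h, rfl⟩⟩
  rw [c2] at c1
  have c3 : ∀ t j, 2 * S0 * ((F j).filter (fun b => x b ≤ t)).card ≤ t := by
    intro t j
    by_cases ht : 2 * S0 * (F j).card ≤ t
    · exact (Nat.mul_le_mul_left _ (Finset.card_filter_le _ _)).trans ht
    rw [not_le] at ht
    set Y := (F j).filter (fun b => x b ≤ t) with hY
    have hκ : 0 < (F j).card := by
      rcases Nat.eq_zero_or_pos (F j).card with h | h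
      · rw [h] at ht; simp at ht
      · exact h
    have d1 : ∀ b ∈ Y, ((F j).card : ℚ) ≤ DA * ((t : ℚ) ^ 2 * ∑ b' ∈ B, w a1 b b' * w a2 b b') := by
      intro b hb
      obtain ⟨hb, hb'⟩ := Finset.mem_filter.1 hb
      have d2 : ((F j).card : ℚ) ≤ DA * (bad j b (t + 1)).card := by
        exact_mod_cast (hx2 j b hb (t + 1) (by omega) ht).le
      refine d2.trans (mul_le_mul_of_nonneg_left ?_ (by positivity))
      have d3 : bad j b (t + 1) ⊆ B := fun b' h => ((hF j b').1 ((hbad _ _ _ _).1 h).1).1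
      rw [Finset.mul_sum]
      refine le_trans ?_ (Finset.sum_le_sum_of_subset_of_nonneg d3 (fun b' _ _ =>
        mul_nonneg (by positivity) (mul_nonneg (w0 _ _ _) (w0 _ _ _))))
      refine le_trans (by simp) (Finset.card_nsmul_le_sum _ _ (1 : ℚ) ?_)
      intro b' h
      obtain ⟨k1, k2, k3⟩ := (hbad _ _ _ _).1 h
      obtain ⟨k4, k5⟩ := (hF _ _).1 k1
      obtain ⟨k6, rfl⟩ := (hF _ _).1 hb
      obtain ⟨k7, k8⟩ := Prod.mk.inj k5
      simp only at k2 k3
      have k : ∀ a ∈ A, c a b' = c a b → I (c a b) b b' < t + 1 → 1 ≤ (t : ℚ) * w a b b' := by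
        intro a ha h1 h2
        have h3 : 0 < I (c a b) b b' := by
          rw [hI]
          exact Finset.card_pos.2 ⟨a, Finset.mem_filter.2 ⟨ha, ⟨hne' a ha b k6, rfl⟩, hne' a ha b' k4, h1⟩⟩
        rw [hw, if_pos h1.symm, mul_one_div, one_le_div (by exact_mod_cast h3)]
        exact_mod_cast Nat.lt_succ_iff.1 h2
      calc (1 : ℚ) = 1 * 1 := by ring
        _ ≤ ((t : ℚ) * w a1 b b') * ((t : ℚ) * w a2 b b') :=
          mul_le_mul (k a1 ha1 k7 k2) (k a2 ha2 k8 k3) zero_le_one (mul_nonneg (by positivity) (w0 _ _ _))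
        _ = _ := by ring
    have d2 := Finset.card_nsmul_le_sum _ _ _ d1
    rw [← Finset.mul_sum, ← Finset.mul_sum, nsmul_eq_mul] at d2
    have d3 : ∑ b ∈ Y, ∑ b' ∈ B, w a1 b b' * w a2 b b' ≤ ∑ b ∈ B, ∑ b' ∈ B, w a1 b b' * w a2 b b' :=
      Finset.sum_le_sum_of_subset_of_nonneg
        (fun b hb => ((hF j b).1 (Finset.mem_filter.1 hb).1).1)
        (fun _ _ _ => Finset.sum_nonneg (fun _ _ => mul_nonneg (w0 _ _ _) (w0 _ _ _)))
    have d4 : (D : ℚ) ^ 2 * (Y.card * (F j).card) ≤ DA * (t : ℚ) ^ 2 := by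
      calc _ ≤ (D : ℚ) ^ 2 * (DA * ((t : ℚ) ^ 2 * ∑ b ∈ B, ∑ b' ∈ B, w a1 b b' * w a2 b b')) := by
            refine mul_le_mul_of_nonneg_left (d2.trans ?_) (by positivity)
            gcongr
        _ = DA * (t : ℚ) ^ 2 * ((D : ℚ) ^ 2 * ∑ b ∈ B, ∑ b' ∈ B, w a1 b b' * w a2 b b') := by ring
        _ ≤ DA * (t : ℚ) ^ 2 * 1 := mul_le_mul_of_nonneg_left hΦ (by positivity)
        _ = _ := mul_one _
    have d5 : D ^ 2 * (Y.card * (F j).card) ≤ DA * t ^ 2 := by exact_mod_cast d4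
    have d6 : D * (F j).card * (D * Y.card) ≤ D * (F j).card * t := by
      calc _ = D ^ 2 * (Y.card * (F j).card) := by ring
        _ ≤ DA * t * t := by rw [mul_assoc, ← pow_two]; exact d5
        _ ≤ DA * (2 * S0 * (F j).card) * t := by gcongr
        _ = _ := by rw [hD]; ring
    have d7 := Nat.le_of_mul_le_mul_left d6 (by positivity)
    refine le_trans (Nat.mul_le_mul_right _ ?_) d7
    rw [hD]
    exact Nat.le_mul_of_pos_right _ hDA
  obtain ⟨A', g1, g2, g3⟩ := lift E' (Ec c) (fun χ u v h => ⟨h.1.symm, (hc _ _).trans h.2⟩) A B hAB x (by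
    intro t
    have e1 : (B.filter (fun b => x b ≤ t)).card ≤ ∑ j ∈ J, ((F j).filter (fun b => x b ≤ t)).card := by
      refine le_trans (Finset.card_le_card ?_) Finset.card_biUnion_le
      intro b hb
      obtain ⟨h1, h2⟩ := Finset.mem_filter.1 hb
      exact Finset.mem_biUnion.2 ⟨_, hJB b h1, Finset.mem_filter.2 ⟨(hF _ _).2 ⟨h1, rfl⟩, h2⟩⟩
    have e2 := Finset.sum_le_card_nsmul J (fun j => 2 * S0 * ((F j).filter (fun b => x b ≤ t)).card) t
      (fun j _ => c3 t j)
    rw [← Finset.mul_sum, smul_eq_mul] at e2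
    have e3 : S0 * (2 * (B.filter (fun b => x b ≤ t)).card) ≤ S0 * t := by
      calc _ = 2 * S0 * (B.filter (fun b => x b ≤ t)).card := by ring
        _ ≤ J.card * t := (Nat.mul_le_mul_left _ e1).trans e2
        _ ≤ _ := Nat.mul_le_mul_right _ hJ
    exact Nat.le_of_mul_le_mul_left e3 hS0) (by
    intro χ b _ b' _ h
    have := h.2
    rw [hI] at this
    convert this) c1
  exact ⟨A', g1, g2, g3.mono (Nat.mul_le_mul_right _ hJ)⟩

end Pool.Agent.H24.Mono
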