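import Pool.Agent.H24.Mono3

set_option autoImplicit false

namespace Pool.Agent.H24.Mono

open Finset Classical

theorem split_w {α : Type} [DecidableEq α] (w : α → ℕ) (β : ℕ) (B : Finset α) :
    ∑ b ∈ B, w b ≤ β ∨ ∃ B1 ⊆ B, ∃ b ∈ B, b ∉ B1 ∧ ∑ b ∈ B1, w b ≤ β ∧ β < ∑ b ∈ B1, w b + w b := by
  induction B using Finset.induction_on with
  | empty => simp
  | insert a B ha ih =>
    rcases ih with ih | ⟨B1, h1, b, h2, h3⟩
    · by_cases h : ∑ b ∈ insert a B, w b ≤ β
      · exact Or.inl h
      · rw [Finset.sum_insert ha] at h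
        exact Or.inr ⟨B, Finset.subset_insert _ _, a, by simp, ha, ih, by omega⟩
    · exact Or.inr ⟨B1, h1.trans (Finset.subset_insert _ _), b, by simp [h2], h3⟩

theorem absorb_seq (s : ℕ) : ∃ D M : ℕ, ∀ (α : Type) [DecidableEq α]
    (c : α → α → ℕ), (∀ u v, c u v = c v u) → ∀ (A0 : Finset α), A0.Nonempty → ∀ (j : ℕ)
    (A B : Finset α), A ⊆ A0 → Disjoint A0 B → (∀ a ∈ A0, (B.image (c a)).card ≤ s) →
    ∑ b ∈ B, D * (A0.image (c b)).card ≤ j * A0.card → A0.card + 2 * B.card ≤ 2 * A.card →
    ∃ A' ⊆ A, Cov (Ec c) (B ∪ A') ((j + 1) * M) := by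
  obtain ⟨D, M, _, h⟩ := absorb_mean s
  refine ⟨2 * D, M + 1, ?_⟩
  intro α _ c hc A0 hne
  have h0 := Finset.card_pos.2 hne
  have base : ∀ A B : Finset α, A ⊆ A0 → Disjoint A0 B → (∀ a ∈ A0, (B.image (c a)).card ≤ s) →
      ∑ b ∈ B, 2 * D * (A0.image (c b)).card ≤ A0.card → A0.card ≤ 2 * A.card →
      ∃ A' ⊆ A, A'.card ≤ B.card ∧ Cov (Ec c) (B ∪ A') M := by
    intro A B h1 h2 h3 h4 h5
    refine h α c hc A B (Finset.card_pos.1 (by omega)) (Finset.disjoint_of_subset_left h1 h2)
      (fun a ha => h3 a (h1 ha)) ?_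
    have : ∑ b ∈ B, (A.image (c b)).card ≤ ∑ b ∈ B, (A0.image (c b)).card :=
      Finset.sum_le_sum (fun b _ => Finset.card_le_card (Finset.image_subset_image h1))
    have := Nat.mul_le_mul_left D this
    rw [← Finset.mul_sum, mul_assoc] at h4
    omega
  intro j
  induction j with
  | zero =>
    intro A B h1 h2 h3 h4 h5
    obtain ⟨A', g1, _, g3⟩ := base A B h1 h2 h3 (by omega) (by omega)
    exact ⟨A', g1, g3.mono (by omega)⟩
  | succ j ih =>
    intro A B h1 h2 h3 h4 h5
    rcases split_w (fun b => 2 * D * (A0.image (c b)).card) A0.card B with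
      k | ⟨B1, k1, b, k2, k3, k4, k5⟩
    · obtain ⟨A', g1, _, g3⟩ := base A B h1 h2 h3 k (by omega)
      exact ⟨A', g1, g3.mono (by nlinarith)⟩
    have hsub : insert b B1 ⊆ B := Finset.insert_subset k2 k1
    obtain ⟨A1, g1, g2, g3⟩ := base A B1 h1 (Finset.disjoint_of_subset_right k1 h2)
      (fun a ha => (Finset.card_le_card (Finset.image_subset_image k1)).trans (h3 a ha)) k4 (by omega)
    obtain ⟨A2, f1, f2⟩ := ih (A \ A1) (B \ insert b B1) (Finset.sdiff_subset.trans h1)
      (Finset.disjoint_of_subset_right Finset.sdiff_subset h2)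
      (fun a ha => (Finset.card_le_card (Finset.image_subset_image Finset.sdiff_subset)).trans (h3 a ha))
      (by
        have := Finset.sum_sdiff (f := fun b => 2 * D * (A0.image (c b)).card) hsub
        rw [Finset.sum_insert k3] at this
        rw [add_mul] at h4
        omega) (by
        have e1 := Finset.card_sdiff_add_card_eq_card hsub
        have e2 := Finset.card_sdiff_add_card_eq_card g1
        rw [Finset.card_insert_of_notMem k3] at e1
        omega)
    have hd : ∀ v, v ∈ A0 → v ∉ B := fun v hv => Finset.disjoint_left.1 h2 hv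
    refine ⟨A1 ∪ A2, Finset.union_subset g1 (f1.trans Finset.sdiff_subset), ?_⟩
    have := (f2.union g3 (by
      rw [Finset.disjoint_left]
      intro v hv hv'
      have := @f1 v
      have := @g1 v
      have := @h1 v
      have := @k1 v
      have := hd v
      simp only [Finset.mem_sdiff, Finset.mem_union, Finset.mem_insert] at *
      tauto)).union (Cov.single b) (by
      rw [Finset.disjoint_singleton_right]
      have := @f1 b
      have := @g1 b
      have := @h1 b
      have := hd b
      simp only [Finset.mem_sdiff, Finset.mem_union, Finset.mem_insert] at *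
      tauto)
    refine Cov.mono ?_ (le_of_eq (by ring : (j + 1) * (M + 1) + M + 1 = (j + 1 + 1) * (M + 1)))
    convert this using 1
    ext v
    have := @k1 v
    have : v = b → v ∈ B := fun h => h ▸ k2
    simp only [Finset.mem_sdiff, Finset.mem_union, Finset.mem_insert, Finset.mem_singleton]
    tauto

theorem low_part {α : Type} (W : Finset α) (w : α → ℕ) (t : ℕ) (h : ∑ v ∈ W, w v ≤ t * W.card) :
    W.card ≤ 2 * (W.filter (fun v => w v ≤ 2 * t)).card := by
  have a1 := Finset.card_filter_add_card_filter_not (s := W) (fun v => w v ≤ 2 * t)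
  have a2 := Finset.card_nsmul_le_sum (W.filter (fun v => ¬ w v ≤ 2 * t)) w (2 * t + 1)
    (fun v hv => by have := (Finset.mem_filter.1 hv).2; omega)
  have a3 : ∑ v ∈ W.filter (fun v => ¬ w v ≤ 2 * t), w v ≤ ∑ v ∈ W, w v :=
    Finset.sum_le_sum_of_subset (Finset.filter_subset _ _)
  rw [smul_eq_mul] at a2
  by_contra hcon
  have : W.card ≤ 2 * (W.filter (fun v => ¬ w v ≤ 2 * t)).card := by omega
  have := Nat.mul_le_mul_left t this
  have : 0 < (W.filter (fun v => ¬ w v ≤ 2 * t)).card := by omega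
  nlinarith

theorem mean_cover (r : ℕ) : ∃ M : ℕ, ∀ (α : Type) [DecidableEq α] (V : Finset α)
    (c : α → α → ℕ), (∀ u v, c u v = c v u) →
    ∑ v ∈ V, ((V.erase v).image (c v)).card ≤ r * V.card → Cov (Ec c) V M := by
  obtain ⟨D0, K0, _, hK0, h0⟩ := absorber (2 * r)
  obtain ⟨D2, K2, _, hK2, h2⟩ := absorber (2 * (r * (4 * K0)))
  obtain ⟨D, M, h3⟩ := absorb_seq (2 * r)
  refine ⟨4 * K0 * (2 * K2) + (D * r * (2 * K0) + 1) * M + 1, ?_⟩
  intro α _ V c hc hV
  let S : α → Finset ℕ := fun v => (V.erase v).image (c v)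
  have hs : ∀ χ u v, Ec c χ u v → Ec c χ v u := fun χ u v h => ⟨h.1.symm, (hc _ _).trans h.2⟩
  have hi : ∀ χ v, ¬ Ec c χ v v := fun χ v h => h.1 rfl
  have hz : ∀ W ⊆ V, ed (Bad (Ec c) S) W = 0 := by
    intro W hW
    refine Finset.sum_eq_zero (fun v hv => ?_)
    rw [Finset.card_eq_zero, Finset.filter_eq_empty_iff]
    rintro w hw ⟨h1, h2⟩
    exact h2 ⟨c v w, Finset.mem_image_of_mem _ (Finset.mem_erase.2 ⟨h1.symm, hW hw⟩),
      Finset.mem_image.2 ⟨v, Finset.mem_erase.2 ⟨h1, hW hv⟩, hc _ _⟩, h1, rfl⟩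
  have l1 := low_part V (fun v => (S v).card) r hV
  obtain ⟨A, T, a1, a2, a3, a4⟩ := h0 α (Ec c) hs hi (V.filter (fun v => (S v).card ≤ 2 * r)) S
    (fun v hv => (Finset.mem_filter.1 hv).2) (by rw [hz _ (Finset.filter_subset _ _)]; simp)
  have a5 : V.card ≤ 2 * K0 * A.card := by rw [mul_assoc]; omega
  have hT : T ⊆ V := a2.trans (Finset.filter_subset _ _)
  rcases A.eq_empty_or_nonempty with rfl | hA
  · have : V = ∅ := by simpa using a5
    rw [this]
    exact Cov.empty _
  obtain ⟨B, b1, b2, b3⟩ := greedy (E := Ec c) (V \ T) V.card (4 * K0 * (2 * K2)) (4 * K0)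
    (by positivity) (Finset.card_le_card Finset.sdiff_subset) (by
      intro W hW hW'
      have hWV : W ⊆ V := hW.trans Finset.sdiff_subset
      have l2 := low_part W (fun v => (S v).card) (r * (4 * K0)) (by
        refine (Finset.sum_le_sum_of_subset hWV).trans (hV.trans ?_)
        rw [mul_assoc]
        exact Nat.mul_le_mul_left _ hW')
      obtain ⟨A', T', g1, g2, g3, g4⟩ := h2 α (Ec c) hs hi
        (W.filter (fun v => (S v).card ≤ 2 * (r * (4 * K0)))) S
        (fun v hv => (Finset.mem_filter.1 hv).2)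
        (by rw [hz _ ((Finset.filter_subset _ _).trans hWV)]; simp)
      refine ⟨T', g2.trans (Finset.filter_subset _ _), ?_, by simpa using g4 ∅ (by simp)⟩
      rw [mul_assoc (4 * K0), mul_assoc 2]
      exact hW'.trans (Nat.mul_le_mul_left _ (l2.trans (Nat.mul_le_mul_left _
        (g3.trans (Nat.mul_le_mul_left _ (Finset.card_le_card g1)))))))
  have hAB : Disjoint A B := by
    rw [Finset.disjoint_left]
    intro a ha hb
    exact (Finset.mem_sdiff.1 (b1 hb)).2 (a1 ha)
  have hBV : B ⊆ V := b1.trans Finset.sdiff_subset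
  obtain ⟨A', c1, c2⟩ := h3 α c hc A hA (D * r * (2 * K0)) A B subset_rfl hAB (by
      intro a ha
      refine le_trans (Finset.card_le_card (Finset.image_subset_image ?_))
        (Finset.mem_filter.1 (a2 (a1 ha))).2
      intro b hb
      exact Finset.mem_erase.2 ⟨by rintro rfl; exact Finset.disjoint_left.1 hAB ha hb, hBV hb⟩) (by
      rw [← Finset.mul_sum, mul_assoc, mul_assoc]
      refine Nat.mul_le_mul_left _ (le_trans ?_ (hV.trans (Nat.mul_le_mul_left _ a5)))
      refine le_trans (Finset.sum_le_sum (fun b hb => Finset.card_le_card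
        (Finset.image_subset_image ?_))) (Finset.sum_le_sum_of_subset hBV)
      intro a ha
      exact Finset.mem_erase.2 ⟨by rintro rfl; exact Finset.disjoint_left.1 hAB ha hb, hT (a1 ha)⟩) (by
      have : 2 * K0 * (2 * B.card) ≤ 2 * K0 * A.card := by
        calc _ = 4 * K0 * B.card := by ring
          _ ≤ _ := b2.trans a5
      have := Nat.le_of_mul_le_mul_left this (by omega)
      omega)
  exact outer a1 hT a4 b1 b3 c1 c2

theorem cyc_index {α : Type} {R : α → α → Prop} {l : List α} (h : Cyc R l) (i : ℕ) (a b : α)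
    (ha : l[i]? = some a) (hb : l[(i + 1) % l.length]? = some b) (hab : a ≠ b) : R a b := by
  obtain ⟨hi, rfl⟩ := List.getElem?_eq_some_iff.1 ha
  obtain ⟨hj, rfl⟩ := List.getElem?_eq_some_iff.1 hb
  cases l with
  | nil => simp at hi
  | cons x t =>
    by_cases ht : t = []
    · subst ht
      simp at hab
    have hc := h x t rfl ht
    rw [← List.cons_append, List.isChain_iff_getElem] at hc
    have := hc i (by simp at hi ⊢; omega)
    rw [List.getElem_append_left hi] at this
    convert this using 1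
    by_cases h1 : i + 1 < (x :: t).length
    · rw [List.getElem_append_left h1]
      simp only [Nat.mod_eq_of_lt h1]
    · have e : i + 1 = (x :: t).length := by omega
      rw [List.getElem_append_right (by omega)]
      simp [e]

end Pool.Agent.H24.Mono
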