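import Mathlib

namespace Pool.Agent.H24.OddInd

/-- The hypercube `Q_d`: binary words of length `d`, adjacent iff they differ in exactly one
coordinate. -/
def cube (d : ℕ) : SimpleGraph (Fin d → ZMod 2) where
  Adj x y := hammingDist x y = 1
  symm := ⟨fun x y h => by rwa [hammingDist_comm]⟩
  loopless := ⟨fun x h => by simp at h⟩

/-- `S` is independent and every vertex outside `S` has no neighbour or an odd number of
neighbours in `S`. -/
def IsOddIndep {V : Type} (G : SimpleGraph V) (S : Set V) : Prop :=
  G.IsIndepSet S ∧ ∀ v ∉ S, G.neighborSet v ∩ S = ∅ ∨ Odd (G.neighborSet v ∩ S).ncard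

/-- The odd independence number. -/
noncomputable def alphaOd {V : Type} (G : SimpleGraph V) : ℕ :=
  sSup {k : ℕ | ∃ S : Set V, IsOddIndep G S ∧ S.ncard = k}

end Pool.Agent.H24.OddInd
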