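import Mathlib
import Pool.Agent.H24.OddIndDefs

namespace Pool.Agent.H24.OddInd

open Finset

variable {d : ℕ}

abbrev e (i : Fin d) : Fin d → ZMod 2 := Pi.single i 1

theorem e_add (i : Fin d) : e i + e i = 0 := by
  ext j
  simp only [Pi.add_apply, Pi.zero_apply]
  generalize e i j = a
  revert a
  decide

theorem e_inj : Function.Injective (e : Fin d → _) := by
  intro i j h
  by_contra hne
  have := congrFun h i
  simp [Pi.single_apply, hne] at this

theorem adj_iff (x y : Fin d → ZMod 2) : (cube d).Adj x y ↔ ∃ i, y = x + e i := by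
  have z : ∀ a b : ZMod 2, a ≠ b → b = a + 1 := by decide
  have z' : ∀ a : ZMod 2, a ≠ a + 1 := by decide
  simp only [cube, hammingDist, card_eq_one]
  constructor
  · rintro ⟨i, hi⟩
    refine ⟨i, funext fun j => ?_⟩
    have := congrArg (j ∈ ·) hi
    simp only [mem_filter, mem_univ, true_and, mem_singleton, eq_iff_iff] at this
    by_cases h : j = i
    · subst h
      simpa using z _ _ (this.2 rfl)
    · have h2 : x j = y j := by
        by_contra h3
        exact h (this.1 h3)
      simp [Pi.single_apply, h, h2]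
  · rintro ⟨i, rfl⟩
    refine ⟨i, ?_⟩
    ext j
    by_cases h : j = i
    · subst h
      simpa using z' _
    · simp [Pi.single_apply, h]

theorem ncard_nb (S : Set (Fin d → ZMod 2)) [DecidablePred (· ∈ S)] (v : Fin d → ZMod 2) :
    ((cube d).neighborSet v ∩ S).ncard = (univ.filter fun i => v + e i ∈ S).card := by
  have : (cube d).neighborSet v ∩ S =
      (fun i => v + e i) '' (univ.filter fun i => v + e i ∈ S : Finset _) := by
    ext y
    simp only [Set.mem_inter_iff, SimpleGraph.mem_neighborSet, adj_iff, coe_filter, mem_univ,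
      true_and, Set.mem_image, Set.mem_ofPred_eq]
    constructor
    · rintro ⟨⟨i, rfl⟩, h⟩
      exact ⟨i, h, rfl⟩
    · rintro ⟨i, h, rfl⟩
      exact ⟨⟨i, rfl⟩, h⟩
  rw [this, Set.ncard_image_of_injective _ (fun i j h => e_inj (add_left_cancel h)),
    Set.ncard_coe_finset]

theorem sum_shift (f : (Fin d → ZMod 2) → Fin d → ℤ) :
    ∑ v, ∑ i, f v i = ∑ v, ∑ i, f (v + e i) i := by
  rw [sum_comm, sum_comm (f := fun v i => f (v + e i) i)]
  refine sum_congr rfl fun i _ => ?_
  exact (Equiv.sum_comp (Equiv.addRight (e i)) fun v => f v i).symm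

theorem upper_aux (hd : Even d) (h0 : 0 < d) (S : Set (Fin d → ZMod 2))
    (hS : IsOddIndep (cube d) S) : 2 * d * S.ncard + 2 ^ d ≤ d * 2 ^ d := by
  classical
  let w : (Fin d → ZMod 2) → ℤ := fun v => if v ∈ S then 0 else 1
  let a : (Fin d → ZMod 2) → ℤ := fun v => ∑ i, w (v + e i)
  have w01 : ∀ v, w v = 0 ∨ w v = 1 := fun v => by by_cases h : v ∈ S <;> simp [w, h]
  have hadj : ∀ v i, 1 ≤ w v + w (v + e i) := by
    intro v i
    by_cases h1 : v ∈ S <;> by_cases h2 : v + e i ∈ S <;> simp [w, h1, h2]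
    have ha := (adj_iff v (v + e i)).2 ⟨i, rfl⟩
    exact hS.1 h1 h2 ha.ne ha
  have ale : ∀ v, a v ≤ d := fun v => by
    have : a v ≤ ∑ _i : Fin d, (1 : ℤ) :=
      sum_le_sum fun i _ => by rcases w01 (v + e i) with h | h <;> omega
    simpa using this
  have age : ∀ v, v ∉ S → 1 ≤ a v := by
    intro v hv
    by_contra hlt
    have hall : ∀ i, v + e i ∈ S := by
      intro i
      by_contra hi
      apply hlt
      have : w (v + e i) ≤ a v := single_le_sum (f := fun i => w (v + e i))
        (fun j _ => by rcases w01 (v + e j) with h | h <;> omega) (mem_univ i)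
      simpa [w, hi] using this
    rcases hS.2 v hv with h | h
    · have : v + e ⟨0, h0⟩ ∈ (cube d).neighborSet v ∩ S :=
        ⟨(adj_iff _ _).2 ⟨_, rfl⟩, hall _⟩
      rw [h] at this
      exact this
    · rw [ncard_nb] at h
      simp [hall] at h
      exact (Nat.not_odd_iff_even.2 hd) h
  have hedge : ∀ v i, w v * w (v + e i) * (d + 1) ≤ w v * w (v + e i) * (a v + a (v + e i)) := by
    intro v i
    rcases w01 v with h1 | h1
    · simp [h1]
    rcases w01 (v + e i) with h2 | h2
    · simp [h2]
    simp only [h1, h2, one_mul, a]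
    rw [← sum_add_distrib]
    have : ∑ j : Fin d, ((1 : ℤ) + if j = i then 1 else 0) ≤
        ∑ j, (w (v + e j) + w (v + e i + e j)) := by
      refine sum_le_sum fun j _ => ?_
      split_ifs with h
      · subst h
        rw [add_assoc, e_add, add_zero, h1, h2]
      · have := hadj (v + e j) i
        rw [add_right_comm] at this
        omega
    simpa [sum_add_distrib] using this
  have s1 : ∑ v, ∑ i, w v * w (v + e i) * a v = ∑ v, ∑ i, w v * w (v + e i) * a (v + e i) := by
    rw [sum_shift]
    refine sum_congr rfl fun v _ => sum_congr rfl fun i _ => ?_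
    rw [add_assoc, e_add, add_zero]
    ring
  have s2 : ∑ v, ∑ i, w v * w (v + e i) * a v = ∑ v, w v * a v * a v :=
    sum_congr rfl fun v _ => by rw [← sum_mul, ← mul_sum]
  have s3 : (d + 1) * ∑ v, w v * a v ≤ 2 * ∑ v, w v * a v * a v := by
    have h := sum_le_sum (s := univ) fun v _ => sum_le_sum (s := univ) fun i _ => hedge v i
    simp only [mul_add (w _ * w _) (a _), sum_add_distrib] at h
    rw [← s1, s2] at h
    have : ∑ v, ∑ i, w v * w (v + e i) * (d + 1) = (d + 1) * ∑ v, w v * a v := by
      rw [mul_sum]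
      refine sum_congr rfl fun v _ => ?_
      rw [← sum_mul, ← mul_sum]
      ring
    linarith
  have s4 : d * ∑ v, w v + ∑ v, w v * a v * a v ≤ (d + 1) * ∑ v, w v * a v := by
    rw [mul_sum, mul_sum, ← sum_add_distrib]
    refine sum_le_sum fun v _ => ?_
    by_cases hv : v ∈ S
    · simp [w, hv]
    · have h1 := age v hv
      have h2 := ale v
      have : w v = 1 := by simp [w, hv]
      rw [this]
      nlinarith [mul_nonneg (sub_nonneg.2 h1) (sub_nonneg.2 h2)]
  have s5 : ∑ v, a v = d * ∑ v, w v := by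
    have := sum_shift (d := d) fun v _ => w v
    simp only [sum_const, card_univ, Fintype.card_fin, nsmul_eq_mul] at this
    rw [mul_sum, this]
  have s6 : ∑ v, w v * a v + d * ∑ v, (1 - w v) = ∑ v, a v := by
    rw [mul_sum, ← sum_add_distrib]
    refine sum_congr rfl fun v _ => ?_
    by_cases hv : v ∈ S
    · have h1 : w v = 0 := by simp [w, hv]
      have : ∑ _i : Fin d, (1 : ℤ) ≤ a v := sum_le_sum fun i _ => by
        have := hadj v i
        omega
      have h2 := ale v
      simp at this
      rw [h1]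
      linarith
    · have : w v = 1 := by simp [w, hv]
      rw [this]
      ring
  have s7 : ∑ v, (1 - w v) = (S.ncard : ℤ) := by
    rw [Set.ncard_eq_toFinset_card', card_eq_sum_ones, ← sum_filter_add_sum_filter_not univ (· ∈ S)]
    have e1 : ∑ v ∈ univ.filter (· ∉ S), (1 - w v) = 0 :=
      sum_eq_zero fun v hv => by simp at hv; simp [w, hv]
    have e2 : ∑ v ∈ univ.filter (· ∈ S), (1 - w v) = ∑ v ∈ univ.filter (· ∈ S), 1 :=
      sum_congr rfl fun v hv => by simp at hv; simp [w, hv]
    rw [e1, e2]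
    simp
  have s8 : ∑ v, w v + S.ncard = 2 ^ d := by
    rw [← s7, ← sum_add_distrib]
    simp
  rw [s7, s5] at s6
  have hd0 : (0 : ℤ) < d := by exact_mod_cast h0
  generalize ∑ v, w v * a v * a v = Q at *
  generalize ∑ v, w v * a v = A at *
  generalize ∑ v, w v = W at *
  have hA : A = d * (W - S.ncard) := by linarith
  have h1 : (d : ℤ) * (2 * W) ≤ d * ((d + 1) * (W - S.ncard)) := by
    rw [hA] at s3 s4
    nlinarith
  have h2 := le_of_mul_le_mul_left h1 hd0
  have : 2 * (d : ℤ) * S.ncard + 2 ^ d ≤ d * 2 ^ d := by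
    rw [← s8]
    nlinarith
  exact_mod_cast this

theorem bdd (d : ℕ) : BddAbove {k : ℕ | ∃ S, IsOddIndep (cube d) S ∧ S.ncard = k} :=
  ⟨Nat.card (Fin d → ZMod 2), by
    rintro _ ⟨S, -, rfl⟩
    exact Set.ncard_le_card S⟩

theorem upper (hd : Even d) (h0 : 0 < d) :
    2 * d * alphaOd (cube d) + 2 ^ d ≤ d * 2 ^ d := by
  have : alphaOd (cube d) ∈ {k : ℕ | ∃ S, IsOddIndep (cube d) S ∧ S.ncard = k} :=
    Nat.sSup_mem ⟨0, ∅, ⟨by simp [SimpleGraph.IsIndepSet], by simp⟩, by simp⟩ (bdd d)
  obtain ⟨S, hS, h⟩ := this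
  rw [← h]
  exact upper_aux hd h0 S hS

theorem exists_h (hd : Even d) {m : ℕ} (hm : 1 ≤ m) (hmd : 2 ^ m ≤ d) :
    ∃ h : Fin d → (Fin m → ZMod 2), ∀ s, Odd (univ.filter fun i => h i = s).card := by
  have φ : Fin (2 ^ m) ≃ (Fin m → ZMod 2) := Fintype.equivOfCardEq (by simp)
  obtain ⟨r, rfl⟩ := Nat.exists_eq_add_of_le hmd
  have hr : Even r := by
    have : Even (2 ^ m) := (Nat.even_pow' (by omega)).2 (by decide)
    exact (Nat.even_add.1 hd).1 this
  refine ⟨Fin.addCases φ fun _ => 0, fun s => ?_⟩
  rw [card_filter, Fin.sum_univ_add]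
  simp only [Fin.addCases_left, Fin.addCases_right]
  have : ∑ i : Fin (2 ^ m), (if φ i = s then 1 else 0) = 1 := by
    rw [φ.sum_comp fun t => if t = s then 1 else 0]
    simp
  rw [this]
  split_ifs
  · simpa using Odd.add_even odd_one hr
  · simp

theorem lower (hd : Even d) {m : ℕ} (hm : 1 ≤ m) (hmd : 2 ^ m ≤ d) :
    2 ^ m * 2 ^ d ≤ 2 ^ (m + 1) * alphaOd (cube d) + 2 ^ d := by
  classical
  obtain ⟨h, hh⟩ := exists_h hd hm hmd
  let L : (Fin d → ZMod 2) →+ ZMod 2 × (Fin m → ZMod 2) :=
    { toFun := fun x => (∑ i, x i, ∑ i, x i • h i)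
      map_zero' := by simp
      map_add' := fun x y => by simp [sum_add_distrib, add_smul] }
  have Le : ∀ i, L (e i) = (1, h i) := by
    intro i
    simp [L, Pi.single_apply]
  have hex : ∀ s, ∃ i, h i = s := fun s => by
    obtain ⟨i, hi⟩ := card_pos.1 (hh s).pos
    exact ⟨i, by simpa using hi⟩
  have hsurj : Function.Surjective L := by
    rintro ⟨p, s⟩
    obtain ⟨i, hi⟩ := hex s
    obtain ⟨j, hj⟩ := hex 0
    have : p = 0 ∨ p = 1 := by revert p; decide
    rcases this with rfl | rfl
    · refine ⟨e i + e j, ?_⟩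
      rw [map_add, Le, Le, hi, hj]
      simp only [Prod.mk_add_mk, add_zero, Prod.mk.injEq, and_true]
      decide
    · exact ⟨e i, by rw [Le, hi]⟩
  let S : Set (Fin d → ZMod 2) := {x | (L x).1 = 0 ∧ (L x).2 ≠ 0}
  have hS : IsOddIndep (cube d) S := by
    constructor
    · intro x hx y hy _ hxy
      obtain ⟨i, rfl⟩ := (adj_iff _ _).1 hxy
      have := hy.1
      rw [map_add, Le, Prod.fst_add, hx.1] at this
      exact absurd this (show (0 : ZMod 2) + 1 ≠ 0 by decide)
    · intro v _
      have : (L v).1 = 0 ∨ (L v).1 = 1 := by generalize (L v).1 = p; revert p; decide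
      rcases this with h1 | h1
      · left
        ext y
        simp only [Set.mem_inter_iff, SimpleGraph.mem_neighborSet, adj_iff, Set.mem_empty_iff_false,
          iff_false]
        rintro ⟨⟨i, rfl⟩, hy⟩
        have := hy.1
        rw [map_add, Le, Prod.fst_add, h1] at this
        exact absurd this (show (0 : ZMod 2) + 1 ≠ 0 by decide)
      · right
        rw [ncard_nb]
        have e1 : (univ.filter fun i => v + e i ∈ S) = univ.filter fun i => ¬ h i = -(L v).2 := by
          ext i
          simp only [mem_filter, mem_univ, true_and, S, Set.mem_ofPred_eq, map_add, Le, Prod.fst_add,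
            h1, Prod.snd_add]
          rw [and_iff_right (show (1 : ZMod 2) + 1 = 0 by decide), Ne, add_comm, add_eq_zero_iff_eq_neg]
        have e2 := card_filter_add_card_filter_not (s := univ) fun i => h i = -(L v).2
        rw [e1]
        have e3 := hh (-(L v).2)
        simp only [card_univ, Fintype.card_fin] at e2
        rw [← e2, Nat.even_add'] at hd
        exact hd.1 e3
  have hle : S.ncard ≤ alphaOd (cube d) := le_csSup (bdd d) ⟨S, hS, rfl⟩
  let c := (univ.filter fun x => L x = 0).card
  have hfib : ∀ y, (univ.filter fun x => L x = y).card = c := fun y =>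
    AddMonoidHom.card_fiber_eq_of_mem_range L (hsurj y) (hsurj 0)
  have t1 : 2 ^ d = 2 * 2 ^ m * c := by
    have := card_eq_sum_card_fiberwise (f := L) (s := univ) (t := univ) (by simp)
    simpa [hfib] using this
  have t2 : S.ncard + c = 2 ^ m * c := by
    rw [Set.ncard_eq_toFinset_card']
    have := card_eq_sum_card_fiberwise (f := fun x => (L x).2) (s := S.toFinset)
      (t := univ.erase 0) (by intro x hx; simpa using (Set.mem_toFinset.1 hx).2)
    rw [this, sum_congr rfl (g := fun _ => c)]
    · have h2 : 1 ≤ 2 ^ m := Nat.one_le_two_pow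
      simp only [sum_const, card_erase_of_mem (mem_univ _), card_univ, Fintype.card_pi, ZMod.card,
        prod_const, Fintype.card_fin, smul_eq_mul]
      obtain ⟨k, hk⟩ := Nat.exists_eq_add_of_le h2
      rw [hk]
      simp
      ring
    · intro s hs
      rw [← hfib (0, s)]
      congr 1
      ext x
      simp only [mem_filter, Set.mem_toFinset, S, Set.mem_ofPred_eq, mem_univ, true_and,
        Prod.ext_iff]
      constructor
      · rintro ⟨⟨h1, -⟩, h2⟩
        exact ⟨h1, h2⟩
      · rintro ⟨h1, h2⟩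
        exact ⟨⟨h1, h2 ▸ (mem_erase.1 hs).1⟩, h2⟩
  rw [t1, pow_succ]
  nlinarith [Nat.mul_le_mul_left (2 ^ m * 2) hle]

end Pool.Agent.H24.OddInd
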