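import Mathlib

/-! Walks built from lists of vertices. -/

namespace Pool.Agent.H24.PathList

open SimpleGraph

variable {V : Type*} {G : SimpleGraph V}

theorem walk_of_chain : ∀ (l : List V) (u v : V), List.IsChain G.Adj (u :: l) →
    (u :: l).getLast? = some v → ∃ p : G.Walk u v, p.support = u :: l
  | [], u, v, _, h => by
    have : u = v := by simpa using h
    subst this
    exact ⟨Walk.nil, rfl⟩
  | w :: l, u, v, hc, h => by
    rw [List.isChain_cons_cons] at hc
    obtain ⟨p, hp⟩ := walk_of_chain l w v hc.2 (by simpa [List.getLast?_cons_cons] using h)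
    exact ⟨Walk.cons hc.1 p, by simp [hp]⟩

theorem path_of_chain (l : List V) (u v : V) (hc : List.IsChain G.Adj (u :: l))
    (h : (u :: l).getLast? = some v) (hn : (u :: l).Nodup) :
    ∃ p : G.Walk u v, p.IsPath ∧ p.support = u :: l ∧ p.length = l.length := by
  obtain ⟨p, hp⟩ := walk_of_chain l u v hc h
  refine ⟨p, ?_, hp, ?_⟩
  · rw [Walk.isPath_def, hp]; exact hn
  · have := p.length_support
    rw [hp] at this
    simpa using this.symm

theorem chain_of_walk {u v : V} (p : G.Walk u v) :
    List.IsChain G.Adj p.support ∧ p.support.head? = some u ∧ p.support.getLast? = some v := by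
  refine ⟨p.isChain_adj_support, ?_, ?_⟩
  · cases p <;> simp
  · rw [List.getLast?_eq_some_getLast (by simp)]
    simp

end Pool.Agent.H24.PathList
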