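import Pool.Agent.H24.PcgDefs

namespace Pool.Agent.H24.Pcg1
open SimpleGraph Pool.Agent.H24.PcgDefs

section tree
variable {N : Type} {T : SimpleGraph N}

noncomputable def pth (hT : T.IsTree) (u v : N) : T.Walk u v := (hT.existsUnique_path u v).choose

lemma pth_isPath (hT : T.IsTree) (u v : N) : (pth hT u v).IsPath :=
  (hT.existsUnique_path u v).choose_spec.1

lemma pth_eq (hT : T.IsTree) {u v : N} (p : T.Walk u v) (hp : p.IsPath) : p = pth hT u v :=
  (hT.existsUnique_path u v).choose_spec.2 p hp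

lemma mem_iff (hT : T.IsTree) (e : Sym2 N) (u v : N) :
    e ∈ (pth hT u v).edges ↔ ¬ (T.deleteEdges {e}).Reachable u v := by
  classical
  constructor
  · rintro he ⟨q⟩
    have hq : ∀ f ∈ q.edges, f ∈ T.edgeSet := fun f hf => by
      have := q.edges_subset_edgeSet hf
      rw [edgeSet_deleteEdges] at this
      exact this.1
    have h1 := pth_eq hT (q.transfer T hq).bypass (Walk.bypass_isPath _)
    rw [← h1] at he
    have h2 := (q.transfer T hq).edges_bypass_subset he
    rw [Walk.edges_transfer] at h2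
    have := q.edges_subset_edgeSet h2
    rw [edgeSet_deleteEdges] at this
    exact this.2 rfl
  · intro h
    by_contra he
    exact h ⟨(pth hT u v).toDeleteEdges {e} fun f hf hfe => he (by rwa [← hfe])⟩

lemma reach_end {e : Sym2 N} {u v a b : N} (p : T.Walk u v) (he : e ∉ p.edges)
    (hab : s(a, b) ∈ p.edges) : (T.deleteEdges {e}).Reachable u a := by
  classical
  have ha := p.fst_mem_support_of_mem_edges hab
  refine ⟨(p.takeUntil a ha).toDeleteEdges {e} fun f hf hfe => he ?_⟩
  rw [← hfe]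
  exact p.edges_takeUntil_subset ha hf

lemma two_cls {a b x : N} (p : T.Walk x a) :
    (T.deleteEdges {s(a, b)}).Reachable x a ∨ (T.deleteEdges {s(a, b)}).Reachable x b := by
  suffices h : ∀ {x y : N} (_ : T.Walk x y), y = a →
      (T.deleteEdges {s(a, b)}).Reachable x a ∨ (T.deleteEdges {s(a, b)}).Reachable x b from
    h p rfl
  intro x y q
  induction q with
  | nil => rintro rfl; exact Or.inl (Reachable.refl _)
  | @cons x x' y hadj q ih =>
    intro hy
    by_cases h : s(x, x') = s(a, b)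
    · rcases Sym2.eq_iff.1 h with ⟨rfl, -⟩ | ⟨rfl, -⟩
      · exact Or.inl (Reachable.refl _)
      · exact Or.inr (Reachable.refl _)
    · have h' : (T.deleteEdges {s(a, b)}).Adj x x' := by
        rw [deleteEdges_adj]; exact ⟨hadj, h⟩
      exact (ih hy).imp h'.reachable.trans h'.reachable.trans

lemma three (hT : T.IsTree) (e : Sym2 N) (x y z : N) :
    (T.deleteEdges {e}).Reachable x y ∨ (T.deleteEdges {e}).Reachable x z ∨
      (T.deleteEdges {e}).Reachable y z := by
  induction e using Sym2.ind with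
  | _ a b =>
    rcases two_cls (b := b) (pth hT x a) with h1 | h1 <;>
    rcases two_cls (b := b) (pth hT y a) with h2 | h2 <;>
    rcases two_cls (b := b) (pth hT z a) with h3 | h3
    all_goals first
      | exact Or.inl (h1.trans h2.symm)
      | exact Or.inr (Or.inl (h1.trans h3.symm))
      | exact Or.inr (Or.inr (h2.trans h3.symm))

lemma viol (hT : T.IsTree) (e : Sym2 N) (x y z w : N) [DecidableEq N]
    (h : ¬ ((if e ∈ (pth hT x y).edges then (1 : ℝ) else 0) +
      (if e ∈ (pth hT z w).edges then 1 else 0) ≤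
      (if e ∈ (pth hT x z).edges then (1 : ℝ) else 0) +
      (if e ∈ (pth hT y w).edges then 1 else 0))) :
    (T.deleteEdges {e}).Reachable x z ∧ (T.deleteEdges {e}).Reachable y w ∧
      ¬ (T.deleteEdges {e}).Reachable x y := by
  classical
  simp only [mem_iff] at h
  have t1 := three hT e x y z
  have t2 := three hT e x y w
  have t3 := three hT e x z w
  have t4 := three hT e y z w
  by_cases a1 : (T.deleteEdges {e}).Reachable x y <;>
  by_cases a2 : (T.deleteEdges {e}).Reachable z w <;>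
  by_cases a3 : (T.deleteEdges {e}).Reachable x z <;>
  by_cases a4 : (T.deleteEdges {e}).Reachable y w <;>
  simp only [a1, a2, a3, a4, not_true_eq_false, not_false_eq_true, if_true, if_false] at h <;>
  first
    | exact ⟨a3, a4, a1⟩
    | (exfalso; apply h; norm_num; done)
    | exact absurd (a3.symm.trans (a1.trans a4)) a2
    | exact absurd (a3.trans (a2.trans a4.symm)) a1
    | skip
  · rcases t4 with t | t | t
    · exact absurd (a3.trans t.symm) a1
    · exact absurd t a4
    · exact absurd t a2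
  · rcases t3 with t | t | t
    · exact absurd t a3
    · exact absurd (t.trans a4.symm) a1
    · exact absurd t a2

noncomputable def dst (hT : T.IsTree) (w : Sym2 N → ℝ) (u v : N) : ℝ :=
  ((pth hT u v).edges.map w).sum

lemma dst_eq [Fintype N] [DecidableEq N] (hT : T.IsTree) (w : Sym2 N → ℝ) (u v : N) :
    dst hT w u v = ∑ e, w e * (if e ∈ (pth hT u v).edges then (1 : ℝ) else 0) := by
  have hn := (pth_isPath hT u v).isTrail.edges_nodup
  rw [dst, ← List.sum_toFinset _ hn]
  simp only [mul_ite, mul_one, mul_zero, ← List.mem_toFinset]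
  rw [Finset.sum_ite_mem, Finset.univ_inter]

lemma four [Finite N] (hT : T.IsTree) (w : Sym2 N → ℝ) (hw : ∀ e, 0 ≤ w e) (x y z t : N) :
    dst hT w x y + dst hT w z t ≤ dst hT w x z + dst hT w y t ∨
    dst hT w x y + dst hT w z t ≤ dst hT w x t + dst hT w y z := by
  classical
  have := Fintype.ofFinite N
  simp only [dst_eq, ← Finset.sum_add_distrib, ← mul_add]
  by_contra hc
  rw [not_or] at hc
  obtain ⟨h1, h2⟩ := hc
  have g1 : ∃ e, (T.deleteEdges {e}).Reachable x z ∧ (T.deleteEdges {e}).Reachable y t ∧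
      ¬ (T.deleteEdges {e}).Reachable x y := by
    by_contra hn
    refine h1 (Finset.sum_le_sum fun e _ => mul_le_mul_of_nonneg_left ?_ (hw e))
    by_contra hv
    exact hn ⟨e, viol hT e x y z t hv⟩
  have g2 : ∃ e, (T.deleteEdges {e}).Reachable x t ∧ (T.deleteEdges {e}).Reachable y z ∧
      ¬ (T.deleteEdges {e}).Reachable x y := by
    by_contra hn
    refine h2 (Finset.sum_le_sum fun e _ => mul_le_mul_of_nonneg_left ?_ (hw e))
    by_contra hv
    refine hn ⟨e, viol hT e x y t z ?_⟩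
    have : e ∈ (pth hT t z).edges ↔ e ∈ (pth hT z t).edges := by
      rw [mem_iff, mem_iff, reachable_comm]
    simpa only [this] using hv
  obtain ⟨e1, a1, a2, a3⟩ := g1
  obtain ⟨e2, b1, b2, b3⟩ := g2
  induction e2 using Sym2.ind with
  | _ a b =>
    have c1 : s(a, b) ∈ (pth hT x z).edges := (mem_iff hT _ _ _).2 fun h => b3 (h.trans b2.symm)
    have c2 : s(a, b) ∈ (pth hT y t).edges := (mem_iff hT _ _ _).2 fun h => b3 (b1.trans h.symm)
    have d1 := reach_end (e := e1) _ (fun h => (mem_iff hT _ _ _).1 h a1) c1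
    have d2 := reach_end (e := e1) _ (fun h => (mem_iff hT _ _ _).1 h a2) c2
    exact a3 (d1.trans d2.symm)

end tree

lemma abstr {V : Type} {H : SimpleGraph V} (h : IsPCG H) : ∃ (D : V → V → ℝ) (I : Set ℝ),
    I.OrdConnected ∧ (∀ x y z t, D x y + D z t ≤ D x z + D y t ∨ D x y + D z t ≤ D x t + D y z) ∧
    ∀ u v, u ≠ v → (H.Adj u v ↔ D u v ∈ I) := by
  obtain ⟨N, hN, T, w, ι, I, hT, hw, -, -, hI, -, hadj⟩ := h
  exact ⟨fun u v => dst hT w (ι u) (ι v), I, hI, fun x y z t => four hT w hw _ _ _ _,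
    fun u v huv => hadj u v huv _ (pth_isPath hT _ _)⟩

lemma hilo {I : Set ℝ} (hI : I.OrdConnected) {r : ℝ} (h : r ∉ I) :
    (∀ t ∈ I, t < r) ∨ ∀ t ∈ I, r < t := by
  by_contra hc
  push Not at hc
  obtain ⟨⟨a, ha, h1⟩, ⟨b, hb, h2⟩⟩ := hc
  exact h (hI.out hb ha ⟨h2, h1⟩)

abbrev V := Fin 3 × (Fin 3 ⊕ Fin 9)

/-- `H` misses a four-cycle inside copy `i` -/
def Miss (H : SimpleGraph V) (i : Fin 3) : Prop :=
  ∃ a1 a2 : Fin 3, ∃ b1 b2 : Fin 9, a1 ≠ a2 ∧ b1 ≠ b2 ∧
    ¬ H.Adj (i, .inl a1) (i, .inr b1) ∧ ¬ H.Adj (i, .inl a1) (i, .inr b2) ∧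
    ¬ H.Adj (i, .inl a2) (i, .inr b1) ∧ ¬ H.Adj (i, .inl a2) (i, .inr b2)

lemma not_two {H : SimpleGraph V} (h : IsPCG H) (hle : exᶜ ≤ H) {i j : Fin 3} (hij : i ≠ j)
    (hi : Miss H i) (hj : Miss H j) : False := by
  obtain ⟨D, I, hI, h4, hadj⟩ := abstr h
  have mem : ∀ u v, u ≠ v → ¬ ex.Adj u v → D u v ∈ I := fun u v huv hn =>
    (hadj u v huv).1 (hle ((compl_adj _ _ _).2 ⟨huv, hn⟩))
  have high : ∀ i, Miss H i → ∃ a b, ∀ t ∈ I, t < D (i, a) (i, b) := by
    rintro i ⟨a1, a2, b1, b2, ha, hb, n1, n2, n3, n4⟩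
    rw [hadj _ _ (by simp)] at n1 n2 n3 n4
    rcases hilo hI n1 with m1 | m1
    · exact ⟨_, _, m1⟩
    rcases hilo hI n2 with m2 | m2
    · exact ⟨_, _, m2⟩
    rcases hilo hI n3 with m3 | m3
    · exact ⟨_, _, m3⟩
    rcases hilo hI n4 with m4 | m4
    · exact ⟨_, _, m4⟩
    exfalso
    have p1 := mem (i, .inl a1) (i, .inl a2) (by simpa using ha) (by simp [ex])
    have p2 := mem (i, .inr b1) (i, .inr b2) (by simpa using hb) (by simp [ex])
    rcases h4 (i, .inl a1) (i, .inl a2) (i, .inr b1) (i, .inr b2) with q | q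
    · linarith [m1 _ p1, m4 _ p2]
    · linarith [m2 _ p1, m3 _ p2]
  obtain ⟨a, b, m1⟩ := high i hi
  obtain ⟨c, d, m2⟩ := high j hj
  have cr : ∀ x y, D (i, x) (j, y) ∈ I := fun x y =>
    mem _ _ (fun e => hij (Prod.mk.inj e).1) (fun e => hij e.1)
  rcases h4 (i, a) (i, b) (j, c) (j, d) with q | q
  · linarith [m1 _ (cr a c), m2 _ (cr b d)]
  · linarith [m1 _ (cr a d), m2 _ (cr b c)]

lemma ramsey (c : Fin 9 → Fin 3 → Bool) : ∃ a1 a2 : Fin 3, ∃ b1 b2 : Fin 9, a1 ≠ a2 ∧ b1 ≠ b2 ∧
    c b1 = c b2 ∧ c b1 a1 = c b1 a2 := by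
  obtain ⟨b1, b2, hb, hc⟩ := Fintype.exists_ne_map_eq_of_card_lt c (by simp)
  obtain ⟨a1, a2, ha, hc'⟩ := Fintype.exists_ne_map_eq_of_card_lt (c b1) (by simp)
  exact ⟨a1, a2, b1, b2, ha, hb, hc, hc'⟩

theorem not_and : ¬ ∃ G1 G2 : SimpleGraph V, IsPCG G1 ∧ IsPCG G2 ∧ exᶜ = G1 ⊓ G2 := by
  classical
  rintro ⟨G1, G2, h1, h2, he⟩
  have hm : ∀ i, Miss G1 i ∨ Miss G2 i := by
    intro i
    obtain ⟨a1, a2, b1, b2, ha, hb, e1, e2⟩ :=
      ramsey fun b a => decide (G1.Adj (i, .inl a) (i, .inr b))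
    have f1 := congrFun e1 a1
    have f2 := congrFun e1 a2
    simp only [decide_eq_decide] at f1 f2 e2
    have k : ∀ a b, G1.Adj (i, .inl a) (i, .inr b) → ¬ G2.Adj (i, .inl a) (i, .inr b) := by
      intro a b x y
      have : (exᶜ).Adj (i, .inl a) (i, .inr b) := by rw [he]; exact ⟨x, y⟩
      exact ((compl_adj _ _ _).1 this).2 (by simp [ex])
    by_cases hh : G1.Adj (i, .inl a1) (i, .inr b1)
    · exact Or.inr ⟨a1, a2, b1, b2, ha, hb, k _ _ hh, k _ _ (f1.1 hh), k _ _ (e2.1 hh),
        k _ _ (f2.1 (e2.1 hh))⟩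
    · exact Or.inl ⟨a1, a2, b1, b2, ha, hb, hh, fun x => hh (f1.2 x), fun x => hh (e2.2 x),
        fun x => hh (e2.2 (f2.2 x))⟩
  have l1 : exᶜ ≤ G1 := by rw [he]; exact inf_le_left
  have l2 : exᶜ ≤ G2 := by rw [he]; exact inf_le_right
  rcases hm 0 with a | a <;> rcases hm 1 with b | b <;> rcases hm 2 with c | c
  all_goals first
    | exact not_two h1 l1 (by decide) a b
    | exact not_two h1 l1 (by decide) a c
    | exact not_two h1 l1 (by decide) b c
    | exact not_two h2 l2 (by decide) a b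
    | exact not_two h2 l2 (by decide) a c
    | exact not_two h2 l2 (by decide) b c

def cw : Option V → ℝ
  | none => 0
  | some (i, .inl _) => (i : ℕ)
  | some (i, .inr _) => 100 - (i : ℕ)

lemma cw_nonneg (x : Option V) : 0 ≤ cw x := by
  rcases x with _ | ⟨i, a | b⟩
  · simp [cw]
  · simp [cw]
  · have : ((i : ℕ) : ℝ) ≤ 3 := by exact_mod_cast i.2.le
    simp only [cw]; linarith

theorem ex_pcg : IsPCG ex := by
  classical
  refine ⟨Option V, inferInstance, starGraph none,
    Sym2.lift ⟨fun x y => cw x + cw y, fun _ _ => add_comm _ _⟩, some, {100},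
    isTree_starGraph _, ?_, Option.some_injective _, ?_, Set.ordConnected_singleton, by simp, ?_⟩
  · intro e
    induction e using Sym2.ind with
    | _ a b => simpa using add_nonneg (cw_nonneg a) (cw_nonneg b)
  · intro x
    rcases x with _ | v
    · have : (starGraph (none : Option V)).neighborSet none = Set.range some := by
        ext y; cases y <;> simp
      rw [this, Set.ncard_range_of_injective (Option.some_injective _)]
      simp
    · have : (starGraph (none : Option V)).neighborSet (some v) = {none} := by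
        ext y; cases y <;> simp
      rw [this]; simp
  · intro u v huv p hp
    have h1 : (starGraph (none : Option V)).Adj (some u) none := by simp
    have h2 : (starGraph (none : Option V)).Adj none (some v) := by simp
    have hq : (Walk.cons h1 (Walk.cons h2 Walk.nil)).IsPath := by simp [huv]
    rw [pth_eq (isTree_starGraph _) p hp, ← pth_eq (isTree_starGraph _) _ hq]
    rcases u with ⟨i, a | a⟩ <;> rcases v with ⟨j, b | b⟩ <;>
      fin_cases i <;> fin_cases j <;> simp [ex, cw] <;> norm_num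

end Pool.Agent.H24.Pcg1
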