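import Mathlib

namespace Pool.Agent.H24.PcgDefs

/-- pairwise compatibility graph: the vertices are the leaves of a finite tree with nonnegative
edge weights, adjacency means that the weight of the path lies in the interval `I` -/
def IsPCG {V : Type} (G : SimpleGraph V) : Prop :=
  ∃ (N : Type) (_ : Finite N) (T : SimpleGraph N) (w : Sym2 N → ℝ) (ι : V → N) (I : Set ℝ),
    T.IsTree ∧ (∀ e, 0 ≤ w e) ∧ Function.Injective ι ∧
    (∀ x, x ∈ Set.range ι ↔ (T.neighborSet x).ncard = 1) ∧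
    I.OrdConnected ∧ I ⊆ Set.Ici 0 ∧
    ∀ u v, u ≠ v → ∀ p : T.Walk (ι u) (ι v), p.IsPath → (G.Adj u v ↔ (p.edges.map w).sum ∈ I)

/-- three disjoint copies of the complete bipartite graph with sides 3 and 9 -/
def ex : SimpleGraph (Fin 3 × (Fin 3 ⊕ Fin 9)) where
  Adj x y := x.1 = y.1 ∧ x.2.isLeft ≠ y.2.isLeft
  symm := ⟨fun _ _ h => ⟨h.1.symm, h.2.symm⟩⟩
  loopless := ⟨fun _ h => h.2 rfl⟩

end Pool.Agent.H24.PcgDefs
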