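import Mathlib

namespace Pool.Agent.H24.Rainbow

variable {V W : Type}

/-- A proper edge colouring: edges sharing an endpoint get different colours. -/
def Proper (G : SimpleGraph V) (c : Sym2 V → ℕ) : Prop :=
  ∀ u v w, G.Adj u v → G.Adj u w → v ≠ w → c s(u, v) ≠ c s(u, w)

/-- The number of colours used on the edges of `G`. -/
noncomputable def numColours (G : SimpleGraph V) (c : Sym2 V → ℕ) : ℕ :=
  (c '' G.edgeSet).ncard

/-- The chromatic index. -/
noncomputable def chromIndex (G : SimpleGraph V) : ℕ :=
  sInf {m : ℕ | ∃ c, Proper G c ∧ numColours G c = m}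

/-- `G` contains a copy of `H` (as a subgraph) whose edges have pairwise distinct colours. -/
def HasRainbow (H : SimpleGraph W) (G : SimpleGraph V) (c : Sym2 V → ℕ) : Prop :=
  ∃ f : H →g G, Function.Injective f ∧ Set.InjOn (fun e => c (e.map f)) H.edgeSet

end Pool.Agent.H24.Rainbow
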