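import Mathlib
import Pool.Agent.H24.RainbowDefs

namespace Pool.Agent.H24.Rainbow

open SimpleGraph

theorem c4_edges : ∀ e ∈ (cycleGraph 4).edgeSet,
    e = s(0, 1) ∨ e = s(1, 2) ∨ e = s(2, 3) ∨ e = s(3, 0) := by
  intro e
  induction e using Sym2.ind with
  | _ a b => revert a b; simp only [mem_edgeSet]; decide

theorem opp {V : Type} {G : SimpleGraph V} {c : Sym2 V → ℕ} (hp : Proper G c)
    (hn : ¬ HasRainbow (cycleGraph 4) G c) (p q r s : V) (h1 : G.Adj p q) (h2 : G.Adj q r)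
    (h3 : G.Adj r s) (h4 : G.Adj s p) (h5 : p ≠ r) (h6 : q ≠ s) :
    c s(p, q) = c s(r, s) ∨ c s(q, r) = c s(s, p) := by
  by_contra hno
  push Not at hno
  apply hn
  have a1 := hp q p r h1.symm h2 h5
  have a2 := hp r q s h2.symm h3 h6
  have a3 := hp s r p h3.symm h4 h5.symm
  have a4 := hp p s q h4.symm h1 h6.symm
  rw [Sym2.eq_swap (a := q) (b := p)] at a1
  rw [Sym2.eq_swap (a := r) (b := q)] at a2
  rw [Sym2.eq_swap (a := s) (b := r)] at a3
  rw [Sym2.eq_swap (a := p) (b := s)] at a4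
  have n1 := h1.ne
  have n2 := h2.ne
  have n3 := h3.ne
  have n4 := h4.ne
  refine ⟨⟨![p, q, r, s], ?_⟩, ?_, ?_⟩
  · intro a b hab
    fin_cases a <;> fin_cases b <;>
      first
        | exact absurd hab (by decide)
        | simp [h1, h2, h3, h4, h1.symm, h2.symm, h3.symm, h4.symm]
  · intro a b hab
    fin_cases a <;> fin_cases b <;> simp_all
  · intro e he e' he' h
    rcases c4_edges e he with rfl | rfl | rfl | rfl <;>
      rcases c4_edges e' he' with rfl | rfl | rfl | rfl <;>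
      first
        | rfl
        | (exfalso; simp at h; omega)

abbrev VV (μ : ℕ) := Fin 3 ⊕ (Fin 3 × Fin μ × Fin 4)

def adj {μ : ℕ} : VV μ → VV μ → Prop
  | .inl _, .inl _ => False
  | .inl h, .inr x => h = if x.2.2.val < 2 then x.1 else x.1 + 1
  | .inr x, .inl h => h = if x.2.2.val < 2 then x.1 else x.1 + 1
  | .inr x, .inr y => x.1 = y.1 ∧ x.2.1 = y.2.1 ∧ (x.2.2.val < 2 ↔ ¬ y.2.2.val < 2)

def GG (μ : ℕ) : SimpleGraph (VV μ) where
  Adj := adj
  symm := ⟨by
    rintro (a | a) (b | b) h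
    · exact h
    · exact h
    · exact h
    · exact ⟨h.1.symm, h.2.1.symm, by have := h.2.2; tauto⟩⟩
  loopless := ⟨by
    rintro (a | a) h
    · exact h
    · have := h.2.2; tauto⟩

theorem force {μ : ℕ} {c : Sym2 (VV μ) → ℕ} (hp : Proper (GG μ) c)
    (hn : ¬ HasRainbow (cycleGraph 4) (GG μ) c) (j : Fin 3) (i : Fin μ) (s : Fin 4)
    (hs : s.val < 2) :
    c s(.inl j, .inr (j, i, s)) = c s(.inl (j + 1), .inr (j, i, 2)) ∨
    c s(.inl j, .inr (j, i, s)) = c s(.inl (j + 1), .inr (j, i, 3)) := by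
  set t : VV μ := .inl j with ht
  set z : VV μ := .inl (j + 1) with hz
  set a : VV μ := .inr (j, i, 0) with ha
  set b : VV μ := .inr (j, i, 1) with hb
  set x : VV μ := .inr (j, i, 2) with hx
  set y : VV μ := .inr (j, i, 3) with hy
  have ta : (GG μ).Adj t a := by simp [GG, adj, ht, ha]
  have tb : (GG μ).Adj t b := by simp [GG, adj, ht, hb]
  have zx : (GG μ).Adj z x := by simp [GG, adj, hz, hx]
  have zy : (GG μ).Adj z y := by simp [GG, adj, hz, hy]
  have xa : (GG μ).Adj x a := by simp [GG, adj, hx, ha]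
  have xb : (GG μ).Adj x b := by simp [GG, adj, hx, hb]
  have ya : (GG μ).Adj y a := by simp [GG, adj, hy, ha]
  have yb : (GG μ).Adj y b := by simp [GG, adj, hy, hb]
  have nab : a ≠ b := by simp [ha, hb]
  have nxy : x ≠ y := by simp [hx, hy]
  have naz : a ≠ z := by simp [ha, hz]
  have nbz : b ≠ z := by simp [hb, hz]
  have nxt : x ≠ t := by simp [hx, ht]
  have nyt : y ≠ t := by simp [hy, ht]
  have o1 := opp hp hn x a y b xa ya.symm yb xb.symm nxy nab
  have o2 := opp hp hn x a y z xa ya.symm zy.symm zx nxy naz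
  have o3 := opp hp hn x b y z xb yb.symm zy.symm zx nxy nbz
  have o4 := opp hp hn x a t b xa ta.symm tb xb.symm nxt nab
  have o5 := opp hp hn y a t b ya ta.symm tb yb.symm nyt nab
  have p1 := hp x a b xa xb nab
  have p2 := hp x a z xa zx.symm naz
  have p3 := hp x b z xb zx.symm nbz
  have p4 := hp y a b ya yb nab
  have p5 := hp y a z ya zy.symm naz
  have p6 := hp y b z yb zy.symm nbz
  have p7 := hp a x y xa.symm ya.symm nxy
  have p8 := hp a x t xa.symm ta.symm nxt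
  have p9 := hp a y t ya.symm ta.symm nyt
  have q1 := hp b x y xb.symm yb.symm nxy
  have q2 := hp b x t xb.symm tb.symm nxt
  have q3 := hp b y t yb.symm tb.symm nyt
  simp only [Sym2.eq_swap (a := a) (b := x), Sym2.eq_swap (a := a) (b := y),
    Sym2.eq_swap (a := a) (b := t), Sym2.eq_swap (a := b) (b := x),
    Sym2.eq_swap (a := b) (b := y), Sym2.eq_swap (a := b) (b := t),
    Sym2.eq_swap (a := x) (b := z), Sym2.eq_swap (a := y) (b := z)] at *
  have hs' : s = 0 ∨ s = 1 := by omega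
  rcases hs' with rfl | rfl
  · rw [← ha]; omega
  · rw [← hb]; omega

theorem many {μ : ℕ} {c : Sym2 (VV μ) → ℕ} (hp : Proper (GG μ) c)
    (hn : ¬ HasRainbow (cycleGraph 4) (GG μ) c) : 6 * μ ≤ numColours (GG μ) c := by
  let φ : Fin 3 × Fin μ × Fin 2 → ℕ := fun x =>
    c s(.inl x.1, .inr (x.1, x.2.1, x.2.2.castLE (by norm_num)))
  have hadj : ∀ x : Fin 3 × Fin μ × Fin 2,
      (GG μ).Adj (.inl x.1) (.inr (x.1, x.2.1, x.2.2.castLE (by norm_num))) := by
    intro x
    have := x.2.2.2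
    simp [GG, adj, this]
  have hstep : ∀ x y : Fin 3 × Fin μ × Fin 2, y.1 = x.1 + 1 → φ x ≠ φ y := by
    intro x y h e
    have hne : x.1 ≠ y.1 := by rw [h]; generalize x.1 = u; revert u; decide
    rcases force hp hn x.1 x.2.1 (x.2.2.castLE (by norm_num)) x.2.2.2 with h1 | h1
    · refine hp (.inl y.1) (.inr (x.1, x.2.1, 2)) _ ?_ (hadj y) ?_ ?_
      · simp [GG, adj, h]
      · simp [hne]
      · rw [h, ← h1, ← h]; exact e
    · refine hp (.inl y.1) (.inr (x.1, x.2.1, 3)) _ ?_ (hadj y) ?_ ?_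
      · simp [GG, adj, h]
      · simp [hne]
      · rw [h, ← h1, ← h]; exact e
  have hinj : Function.Injective φ := by
    intro x y e
    by_contra hne
    have h3 : ∀ u v : Fin 3, u = v ∨ v = u + 1 ∨ u = v + 1 := by decide
    rcases h3 x.1 y.1 with h | h | h
    · obtain ⟨x1, x2, x3⟩ := x
      obtain ⟨y1, y2, y3⟩ := y
      simp only at h
      subst h
      refine hp (.inl x1) _ _ (hadj (x1, x2, x3)) (hadj (x1, y2, y3)) ?_ e
      simpa using hne
    · exact hstep x y h e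
    · exact hstep y x h e.symm
  have hsub : Set.range φ ⊆ c '' (GG μ).edgeSet := by
    rintro _ ⟨x, rfl⟩
    exact ⟨_, hadj x, rfl⟩
  have h1 := Set.ncard_le_ncard hsub ((Set.toFinite _).image c)
  rw [← Set.image_univ, Set.ncard_image_of_injective _ hinj, Set.ncard_univ] at h1
  simp only [Nat.card_eq_fintype_card, Fintype.card_prod, Fintype.card_fin] at h1
  unfold numColours
  omega

def f1 {μ : ℕ} : VV μ → VV μ → ℕ
  | .inl _, .inl _ => 0
  | .inl _, .inr x => 4 * x.2.1.val + x.2.2.val + 2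
  | .inr x, .inl _ => 4 * x.2.1.val + x.2.2.val + 2
  | .inr x, .inr y => (x.2.2.val + y.2.2.val) % 2

def c1 (μ : ℕ) : Sym2 (VV μ) → ℕ := Sym2.lift ⟨f1, by
  rintro (a | a) (b | b) <;> simp [f1, add_comm]⟩

theorem c1_proper (μ : ℕ) : Proper (GG μ) (c1 μ) := by
  have h3 : ∀ u v : Fin 3, u + 1 = v + 1 → u = v := by decide
  rintro (u | ⟨u1, u2, u3⟩) (v | ⟨v1, v2, v3⟩) (w | ⟨w1, w2, w3⟩) h1 h2 hne e <;>
    simp only [GG, adj, c1, f1, Sym2.lift_mk] at h1 h2 e
  · have e2 : v2 = w2 := by omega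
    have e3 : v3 = w3 := by omega
    subst e2 e3
    apply hne
    split_ifs at h1 h2
    · rw [← h1, ← h2]
    · rw [h3 v1 w1 (h1.symm.trans h2)]
  · exact hne (by rw [h1, h2])
  · omega
  · omega
  · obtain ⟨rfl, rfl, h1⟩ := h1
    obtain ⟨rfl, rfl, h2⟩ := h2
    apply hne
    have : v3 = w3 := by omega
    rw [this]

theorem chi_le (μ : ℕ) : chromIndex (GG μ) ≤ 4 * μ + 2 := by
  have h0 : chromIndex (GG μ) ≤ numColours (GG μ) (c1 μ) :=
    Nat.sInf_le ⟨c1 μ, c1_proper μ, rfl⟩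
  refine h0.trans ?_
  have hsub : c1 μ '' (GG μ).edgeSet ⊆ (Finset.range (4 * μ + 2) : Set ℕ) := by
    rintro _ ⟨e, -, rfl⟩
    induction e using Sym2.ind with
    | _ a b =>
      rcases a with a | ⟨a1, a2, a3⟩ <;> rcases b with b | ⟨b1, b2, b3⟩ <;>
        simp only [c1, f1, Sym2.lift_mk, Finset.coe_range, Set.mem_Iio] <;> omega
  have := Set.ncard_le_ncard hsub (Finset.finite_toSet _)
  simpa [numColours] using this

def f2 {μ : ℕ} : VV μ → VV μ → ℕ
  | .inl _, .inl _ => 0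
  | .inl _, .inr x => 9 * x.2.1.val + 3 * x.1.val + (x.2.2.val % 2 + 2) % 3
  | .inr x, .inl _ => 9 * x.2.1.val + 3 * x.1.val + (x.2.2.val % 2 + 2) % 3
  | .inr x, .inr y => 9 * min x.2.1.val y.2.1.val + 3 * min x.1.val y.1.val +
      (x.2.2.val % 2 + y.2.2.val % 2)

def c2 (μ : ℕ) : Sym2 (VV μ) → ℕ := Sym2.lift ⟨f2, by
  rintro (a | a) (b | b) <;> simp [f2, add_comm, min_comm]⟩

theorem c2_proper (μ : ℕ) : Proper (GG μ) (c2 μ) := by
  have h3 : ∀ u : Fin 3, u + 1 ≠ u := by decide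
  rintro (u | ⟨u1, u2, u3⟩) (v | ⟨v1, v2, v3⟩) (w | ⟨w1, w2, w3⟩) h1 h2 hne e <;>
    simp only [GG, adj, c2, f2, Sym2.lift_mk] at h1 h2 e
  · have e2 : v2 = w2 := by omega
    have e1 : v1 = w1 := by omega
    subst e2 e1
    apply hne
    split_ifs at h1 h2
    · have : v3 = w3 := by omega
      rw [this]
    · exact absurd (h2.symm.trans h1) (h3 _)
    · exact absurd (h1.symm.trans h2) (h3 _)
    · have : v3 = w3 := by omega
      rw [this]
  · exact hne (by rw [h1, h2])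
  · obtain ⟨rfl, rfl, h2⟩ := h2
    omega
  · obtain ⟨rfl, rfl, h1⟩ := h1
    omega
  · obtain ⟨rfl, rfl, h1⟩ := h1
    obtain ⟨rfl, rfl, h2⟩ := h2
    apply hne
    have : v3 = w3 := by omega
    rw [this]

theorem c2_free (μ : ℕ) : ¬ HasRainbow (cycleGraph 4) (GG μ) (c2 μ) := by
  rintro ⟨f, hf, hi⟩
  have a01 : (cycleGraph 4).Adj 0 1 := by decide
  have a12 : (cycleGraph 4).Adj 1 2 := by decide
  have a23 : (cycleGraph 4).Adj 2 3 := by decide
  have a30 : (cycleGraph 4).Adj 3 0 := by decide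
  have n1 := (hi.ne_iff (x := s(0, 1)) (y := s(1, 2)) a01 a12).2 (by decide)
  have n2 := (hi.ne_iff (x := s(0, 1)) (y := s(2, 3)) a01 a23).2 (by decide)
  have n3 := (hi.ne_iff (x := s(0, 1)) (y := s(3, 0)) a01 a30).2 (by decide)
  have n4 := (hi.ne_iff (x := s(1, 2)) (y := s(2, 3)) a12 a23).2 (by decide)
  have n5 := (hi.ne_iff (x := s(1, 2)) (y := s(3, 0)) a12 a30).2 (by decide)
  have n6 := (hi.ne_iff (x := s(2, 3)) (y := s(3, 0)) a23 a30).2 (by decide)
  have b01 := f.map_adj a01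
  have b12 := f.map_adj a12
  have b23 := f.map_adj a23
  have b30 := f.map_adj a30
  have d02 : f 0 ≠ f 2 := hf.ne (by decide)
  have d13 : f 1 ≠ f 3 := hf.ne (by decide)
  simp only [Sym2.map_mk] at n1 n2 n3 n4 n5 n6
  generalize f 0 = p at *
  generalize f 1 = q at *
  generalize f 2 = r at *
  generalize f 3 = s at *
  rcases p with p | ⟨p1, p2, p3⟩ <;> rcases q with q | ⟨q1, q2, q3⟩ <;>
    rcases r with r | ⟨r1, r2, r3⟩ <;> rcases s with s | ⟨s1, s2, s3⟩ <;>
    simp only [GG, adj, c2, f2, Sym2.lift_mk] at b01 b12 b23 b30 n1 n2 n3 n4 n5 n6 <;>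
    first
      | exact d02 (by rw [b01, b12])
      | exact d13 (by rw [b12, b23])
      | omega

theorem main (k : ℕ) : (∀ c, Proper (GG (k + 2)) c →
      numColours (GG (k + 2)) c ≤ chromIndex (GG (k + 2)) + k →
      HasRainbow (cycleGraph 4) (GG (k + 2)) c) ∧
    ∃ c, Proper (GG (k + 2)) c ∧ ¬ HasRainbow (cycleGraph 4) (GG (k + 2)) c := by
  refine ⟨fun c hp hc => ?_, c2 _, c2_proper _, c2_free _⟩
  by_contra hn
  have := many hp hn
  have := chi_le (k + 2)
  omega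

end Pool.Agent.H24.Rainbow
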