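import Mathlib

namespace Pool.Agent.H24.Recomb

variable {n : ℕ}

/-- Connected, at least three vertices, no cut vertex. -/
def Biconnected (G : SimpleGraph (Fin n)) : Prop :=
  G.Connected ∧ 3 ≤ n ∧ ∀ v : Fin n, (G.induce {v}ᶜ).Connected

/-- A connected `k`-partition balanced with slack `s`. -/
def IsBCP (G : SimpleGraph (Fin n)) (k : ℕ) (s : ℝ)
    (P : Finpartition (Finset.univ : Finset (Fin n))) : Prop :=
  P.parts.card = k ∧ ∀ U ∈ P.parts,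
    (G.induce (U : Set (Fin n))).Connected ∧ |(U.card : ℝ) - (n : ℝ) / k| ≤ s

/-- Two districts are merged and split again; all other districts are unchanged. -/
def Recomb (P Q : Finpartition (Finset.univ : Finset (Fin n))) : Prop :=
  P ≠ Q ∧ ∃ V₁ ∈ P.parts, ∃ V₂ ∈ P.parts, ∃ W₁ ∈ Q.parts, ∃ W₂ ∈ Q.parts,
    V₁ ≠ V₂ ∧ W₁ ≠ W₂ ∧ V₁ ∪ V₂ = W₁ ∪ W₂ ∧ P.parts \ {V₁, V₂} = Q.parts \ {W₁, W₂}

end Pool.Agent.H24.Recomb
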