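import Mathlib
import Pool.Agent.H24.RecombDefs

namespace Pool.Agent.H24.Recomb

open SimpleGraph Finset

theorem conn_of_rank {V : Type} (G : SimpleGraph V) (U : Set V) (ρ : V) (hρ : ρ ∈ U)
    (rk : V → ℕ) (h : ∀ x ∈ U, x = ρ ∨ ∃ y ∈ U, G.Adj x y ∧ rk y < rk x) :
    (G.induce U).Connected := by
  have key : ∀ m, ∀ x (hx : x ∈ U), rk x < m → (G.induce U).Reachable ⟨x, hx⟩ ⟨ρ, hρ⟩ := by
    intro m
    induction m with
    | zero => intro x _ h; omega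
    | succ m ih =>
      intro x hx hm
      rcases h x hx with rfl | ⟨y, hy, h1, h2⟩
      · rfl
      · exact (Adj.reachable (G := G.induce U) (u := ⟨x, hx⟩) (v := ⟨y, hy⟩) h1).trans
          (ih y hy (by omega))
  have : Nonempty U := ⟨⟨ρ, hρ⟩⟩
  exact ⟨fun u v => (key _ u.1 u.2 (Nat.lt_succ_self _)).trans
    (key _ v.1 v.2 (Nat.lt_succ_self _)).symm⟩

theorem cut {V : Type} {G : SimpleGraph V} {U : Set V} (h : (G.induce U).Connected)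
    (T : V → Prop) {x y : V} (hx : x ∈ U) (hy : y ∈ U) (tx : T x) (ty : ¬ T y) :
    ∃ a ∈ U, ∃ b ∈ U, T a ∧ ¬ T b ∧ G.Adj a b := by
  obtain ⟨p⟩ := h.preconnected ⟨x, hx⟩ ⟨y, hy⟩
  obtain ⟨d, -, h1, h2⟩ := p.exists_boundary_dart {z | T z.1} tx ty
  exact ⟨d.fst.1, d.fst.2, d.snd.1, d.snd.2, h1, h2, d.adj⟩

def adj0 (u v : Fin 30) : Bool :=
  (u.val < 12 && v.val == (u.val + 1) % 12) || (u.val == 0 && v.val == 12) ||
  (u.val == 6 && v.val == 13) || ((u.val == 12 || u.val == 13) && 14 ≤ v.val)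

def G0 : SimpleGraph (Fin 30) where
  Adj u v := (adj0 u v || adj0 v u) = true
  symm := ⟨by decide +kernel⟩
  loopless := ⟨by decide +kernel⟩

instance : DecidableRel G0.Adj :=
  fun u v => inferInstanceAs (Decidable ((adj0 u v || adj0 v u) = true))

def tab : List (List ℕ) :=
  [[0,8,7,6,5,4,3,4,5,6,7,8,0,2,1,1,1,1,1,1,1,1,1,1,1,1,1,1,1,1],
   [1,0,7,6,5,4,3,4,5,4,3,2,0,2,1,1,1,1,1,1,1,1,1,1,1,1,1,1,1,1],
   [1,2,0,6,5,4,3,4,5,4,3,2,0,2,1,1,1,1,1,1,1,1,1,1,1,1,1,1,1,1],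
   [1,2,3,0,5,4,3,4,5,4,3,2,0,2,1,1,1,1,1,1,1,1,1,1,1,1,1,1,1,1],
   [1,2,3,4,0,4,3,4,5,4,3,2,0,2,1,1,1,1,1,1,1,1,1,1,1,1,1,1,1,1],
   [1,2,3,4,5,0,3,4,5,4,3,2,0,2,1,1,1,1,1,1,1,1,1,1,1,1,1,1,1,1],
   [1,2,3,4,5,6,0,6,5,4,3,2,0,2,1,1,1,1,1,1,1,1,1,1,1,1,1,1,1,1],
   [1,2,3,4,5,4,3,0,5,4,3,2,0,2,1,1,1,1,1,1,1,1,1,1,1,1,1,1,1,1],
   [1,2,3,4,5,4,3,4,0,4,3,2,0,2,1,1,1,1,1,1,1,1,1,1,1,1,1,1,1,1],
   [1,2,3,4,5,4,3,4,5,0,3,2,0,2,1,1,1,1,1,1,1,1,1,1,1,1,1,1,1,1],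
   [1,2,3,4,5,4,3,4,5,6,0,2,0,2,1,1,1,1,1,1,1,1,1,1,1,1,1,1,1,1],
   [1,2,3,4,5,4,3,4,5,6,7,0,0,2,1,1,1,1,1,1,1,1,1,1,1,1,1,1,1,1],
   [7,6,5,4,3,2,1,2,3,4,5,6,0,0,1,1,1,1,1,1,1,1,1,1,1,1,1,1,1,1],
   [1,2,3,4,5,6,7,6,5,4,3,2,0,0,1,1,1,1,1,1,1,1,1,1,1,1,1,1,1,1],
   [1,2,3,4,5,4,3,4,5,4,3,2,0,2,0,1,1,1,1,1,1,1,1,1,1,1,1,1,1,1],
   [1,2,3,4,5,4,3,4,5,4,3,2,0,2,1,0,1,1,1,1,1,1,1,1,1,1,1,1,1,1],
   [1,2,3,4,5,4,3,4,5,4,3,2,0,2,1,1,0,1,1,1,1,1,1,1,1,1,1,1,1,1],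
   [1,2,3,4,5,4,3,4,5,4,3,2,0,2,1,1,1,0,1,1,1,1,1,1,1,1,1,1,1,1],
   [1,2,3,4,5,4,3,4,5,4,3,2,0,2,1,1,1,1,0,1,1,1,1,1,1,1,1,1,1,1],
   [1,2,3,4,5,4,3,4,5,4,3,2,0,2,1,1,1,1,1,0,1,1,1,1,1,1,1,1,1,1],
   [1,2,3,4,5,4,3,4,5,4,3,2,0,2,1,1,1,1,1,1,0,1,1,1,1,1,1,1,1,1],
   [1,2,3,4,5,4,3,4,5,4,3,2,0,2,1,1,1,1,1,1,1,0,1,1,1,1,1,1,1,1],
   [1,2,3,4,5,4,3,4,5,4,3,2,0,2,1,1,1,1,1,1,1,1,0,1,1,1,1,1,1,1],
   [1,2,3,4,5,4,3,4,5,4,3,2,0,2,1,1,1,1,1,1,1,1,1,0,1,1,1,1,1,1],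
   [1,2,3,4,5,4,3,4,5,4,3,2,0,2,1,1,1,1,1,1,1,1,1,1,0,1,1,1,1,1],
   [1,2,3,4,5,4,3,4,5,4,3,2,0,2,1,1,1,1,1,1,1,1,1,1,1,0,1,1,1,1],
   [1,2,3,4,5,4,3,4,5,4,3,2,0,2,1,1,1,1,1,1,1,1,1,1,1,1,0,1,1,1],
   [1,2,3,4,5,4,3,4,5,4,3,2,0,2,1,1,1,1,1,1,1,1,1,1,1,1,1,0,1,1],
   [1,2,3,4,5,4,3,4,5,4,3,2,0,2,1,1,1,1,1,1,1,1,1,1,1,1,1,1,0,1],
   [1,2,3,4,5,4,3,4,5,4,3,2,0,2,1,1,1,1,1,1,1,1,1,1,1,1,1,1,1,0]]

def rk (v x : Fin 30) : ℕ := (tab.getD v.val []).getD x.val 0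

theorem bicon : Biconnected G0 := by
  have key : ∀ v x : Fin 30, x ≠ v → x = (if v = 12 then 13 else 12) ∨
      ∃ y, y ≠ v ∧ G0.Adj x y ∧ rk v y < rk v x := by decide +kernel
  have h : ∀ v : Fin 30, (G0.induce {v}ᶜ).Connected := by
    intro v
    refine conn_of_rank G0 _ (if v = 12 then 13 else 12) ?_ (rk v) ?_
    · revert v; simp only [Set.mem_compl_iff, Set.mem_singleton_iff]; decide
    · simpa using key v
  refine ⟨?_, by norm_num, h⟩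
  have k2 : ∀ x : Fin 30, x = 12 ∨ ∃ y, G0.Adj x y ∧
      (if y = 29 then 1 else rk 29 y) < (if x = 29 then 1 else rk 29 x) := by decide +kernel
  have := conn_of_rank G0 Set.univ 12 trivial (fun x => if x = 29 then 1 else rk 29 x)
    (by simpa using k2)
  exact (induceUnivIso G0).connected_iff.1 this

def cls {n k : ℕ} (lab : Fin n → Fin k) (i : Fin k) : Finset (Fin n) :=
  univ.filter fun x => lab x = i

theorem mem_cls {n k : ℕ} (lab : Fin n → Fin k) (i : Fin k) (x : Fin n) :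
    x ∈ cls lab i ↔ lab x = i := by simp [cls]

def ofLab {n k : ℕ} (lab : Fin n → Fin k) (hs : Function.Surjective lab) :
    Finpartition (univ : Finset (Fin n)) :=
  Finpartition.ofExistsUnique (univ.image (cls lab)) (fun _ _ => subset_univ _)
    (fun a _ => ⟨cls lab (lab a), ⟨mem_image_of_mem _ (mem_univ _), (mem_cls _ _ _).2 rfl⟩, by
      rintro t ⟨ht, ha⟩
      obtain ⟨i, -, rfl⟩ := mem_image.1 ht
      rw [(mem_cls _ _ _).1 ha]⟩)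
    (by
      intro h
      obtain ⟨i, -, hi⟩ := mem_image.1 h
      obtain ⟨x, hx⟩ := hs i
      have := (mem_cls lab i x).2 hx
      rw [hi] at this
      simp at this)

theorem ofLab_mem {n k : ℕ} (lab : Fin n → Fin k) (hs : Function.Surjective lab)
    (U : Finset (Fin n)) : U ∈ (ofLab lab hs).parts ↔ ∃ i, cls lab i = U := by
  simp [ofLab, Finpartition.ofExistsUnique]

theorem ofLab_card {n k : ℕ} (lab : Fin n → Fin k) (hs : Function.Surjective lab) :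
    (ofLab lab hs).parts.card = k := by
  have : Function.Injective (cls lab) := by
    intro i j h
    obtain ⟨x, hx⟩ := hs i
    have := (mem_cls lab i x).2 hx
    rw [h, mem_cls] at this
    rw [← hx, this]
  simp [ofLab, Finpartition.ofExistsUnique, card_image_of_injective _ this]

def labP (x : Fin 30) : Fin 15 :=
  [0,0,0,0,1,1,1,1,2,2,2,2,3,4,3,3,3,4,4,4,5,6,7,8,9,10,11,12,13,14].getD x.val 0

def labQ (x : Fin 30) : Fin 15 :=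
  [2,0,0,0,0,1,1,1,1,2,2,2,3,4,3,3,3,4,4,4,5,6,7,8,9,10,11,12,13,14].getD x.val 0

def P0 : Finpartition (univ : Finset (Fin 30)) := ofLab labP (by decide +kernel)

def Q0 : Finpartition (univ : Finset (Fin 30)) := ofLab labQ (by decide +kernel)

def arc (i : Fin 3) : Finset (Fin 30) := univ.filter fun x => x.val / 4 = i.val

def arcs : Set (Finset (Fin 30)) := Set.range arc

theorem bal (m : ℕ) : |(m : ℝ) - ((30 : ℕ) : ℝ) / (15 : ℕ)| ≤ 2 ↔ m ≤ 4 := by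
  rw [abs_le]
  have : (0 : ℝ) ≤ m := Nat.cast_nonneg m
  constructor
  · intro h
    have : (m : ℝ) ≤ 4 := by have := h.2; push_cast at this; linarith
    exact_mod_cast this
  · intro h
    have : (m : ℝ) ≤ 4 := by exact_mod_cast h
    push_cast
    constructor <;> linarith

theorem bcpP : IsBCP G0 15 2 P0 := by
  have key : ∀ i, (cls labP i).card ≤ 4 ∧ ∃ ρ, labP ρ = i ∧ ∀ x, labP x = i → x = ρ ∨
      ∃ y, labP y = i ∧ G0.Adj x y ∧ y.val < x.val := by decide +kernel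
  refine ⟨ofLab_card _ _, fun U hU => ?_⟩
  obtain ⟨i, rfl⟩ := (ofLab_mem _ _ _).1 hU
  obtain ⟨h1, ρ, h2, h3⟩ := key i
  exact ⟨conn_of_rank G0 _ ρ (by simpa [mem_cls] using h2) Fin.val (by simpa [mem_cls] using h3),
    (bal _).2 h1⟩

theorem bcpQ : IsBCP G0 15 2 Q0 := by
  have key : ∀ i, (cls labQ i).card ≤ 4 ∧ ∃ ρ, labQ ρ = i ∧ ∀ x, labQ x = i → x = ρ ∨
      ∃ y, labQ y = i ∧ G0.Adj x y ∧
        (if y = 0 then 12 else y.val) < (if x = 0 then 12 else x.val) := by decide +kernel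
  refine ⟨ofLab_card _ _, fun U hU => ?_⟩
  obtain ⟨i, rfl⟩ := (ofLab_mem _ _ _).1 hU
  obtain ⟨h1, ρ, h2, h3⟩ := key i
  exact ⟨conn_of_rank G0 _ ρ (by simpa [mem_cls] using h2)
    (fun x => if x = 0 then 12 else x.val)
    (by simpa only [mem_coe, mem_cls] using h3), (bal _).2 h1⟩

/-- the shape of a district outside the cycle -/
def Out (U : Finset (Fin 30)) : Prop :=
  (∀ x ∈ U, 12 ≤ x.val) ∧ ((12 ∈ U ∨ 13 ∈ U) → U.card = 4) ∧ ¬ (12 ∈ U ∧ 13 ∈ U)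

def Ok (U : Finset (Fin 30)) : Prop :=
  (G0.induce (U : Set (Fin 30))).Connected ∧ 1 ≤ U.card ∧ U.card ≤ 4

theorem single {U : Finset (Fin 30)} (h : Ok U) (h1 : 12 ∉ U) (h2 : 13 ∉ U) {x : Fin 30}
    (hx : x ∈ U) (hx' : 12 ≤ x.val) : U = {x} := by
  have key : ∀ a b : Fin 30, 12 ≤ a.val → G0.Adj a b → a = 12 ∨ a = 13 ∨ b = 12 ∨ b = 13 := by
    decide +kernel
  rw [eq_singleton_iff_unique_mem]
  refine ⟨hx, fun y hy => ?_⟩
  by_contra hne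
  obtain ⟨a, ha, b, hb, rfl, -, hab⟩ := cut h.1 (fun z => z = x) hx hy rfl hne
  rcases key a b hx' hab with rfl | rfl | rfl | rfl
  · exact h1 ha
  · exact h2 ha
  · exact h1 hb
  · exact h2 hb

theorem mem_arc (i : Fin 3) (x : Fin 30) : x ∈ arc i ↔ x.val / 4 = i.val := by simp [arc]

theorem arcs_fact : ∀ A ∈ arcs, A.card = 4 ∧ ∀ x ∈ A, x.val < 12 := by
  rintro _ ⟨i, rfl⟩
  have : ∀ i, (arc i).card = 4 := by decide +kernel
  refine ⟨this i, fun x hx => ?_⟩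
  rw [mem_arc] at hx
  omega

def pos (i : Fin 3) (x : Fin 30) : ℕ := (x.val + 12 - 4 * i.val) % 12

def pt (i : Fin 3) (t : ℕ) : Fin 30 := ⟨(4 * i.val + t) % 12, by omega⟩

theorem first_arc (i : Fin 3) {Z : Finset (Fin 30)} (hZ : Ok Z) (hs : Z ⊆ arc i ∪ arc (i + 1))
    (h0 : pt i 0 ∈ Z) : Z ⊆ arc i := by
  have k1 : ∀ (i : Fin 3) (x : Fin 30), (x.val / 4 = i.val ∨ x.val / 4 = (i + 1).val) →
      x.val < 12 ∧ pos i x < 8 ∧ x = pt i (pos i x) ∧ (pos i x < 4 → x.val / 4 = i.val) := by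
    decide +kernel
  have k2 : ∀ (i : Fin 3) (a b : Fin 30), a.val < 12 → b.val < 12 → pos i b < 8 → G0.Adj a b →
      pos i b ≤ pos i a + 1 := by decide +kernel
  have k3 : ∀ i : Fin 3, pos i (pt i 0) = 0 ∧
      ({pt i 0, pt i 1, pt i 2, pt i 3, pt i 4} : Finset (Fin 30)).card = 5 := by decide +kernel
  have hin : ∀ x ∈ Z, x.val < 12 ∧ pos i x < 8 ∧ x = pt i (pos i x) ∧
      (pos i x < 4 → x.val / 4 = i.val) := fun x hx => k1 i x (by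
    simpa only [mem_union, mem_arc] using hs hx)
  intro x hx
  rw [mem_arc]
  apply (hin x hx).2.2.2
  by_contra hge
  have conv : ∀ t, 1 ≤ t → t ≤ 4 → pt i t ∈ Z := by
    intro t h1 h4
    obtain ⟨a, ha, b, hb, h3, h5, h6⟩ := cut hZ.1 (fun z => pos i z < t) h0 hx
      (by simp only [(k3 i).1]; omega) (by omega)
    have := k2 i a b (hin a ha).1 (hin b hb).1 (hin b hb).2.1 h6
    have e : pos i b = t := by omega
    rw [← e, ← (hin b hb).2.2.1]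
    exact hb
  have hsub : ({pt i 0, pt i 1, pt i 2, pt i 3, pt i 4} : Finset (Fin 30)) ⊆ Z := by
    intro y hy
    simp only [mem_insert, mem_singleton] at hy
    rcases hy with rfl | rfl | rfl | rfl | rfl
    · exact h0
    all_goals exact conv _ (by norm_num) (by norm_num)
  have := card_le_card hsub
  rw [(k3 i).2] at this
  have := hZ.2.2
  omega

theorem two_arcs' (i : Fin 3) {W W' : Finset (Fin 30)}
    (hW : Ok W) (hW' : Ok W') (hd : Disjoint W W') (hu : arc i ∪ arc (i + 1) = W ∪ W') :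
    W ∈ arcs := by
  have hd0 : Disjoint (arc i) (arc (i + 1)) := disjoint_left.2 fun x h1 h2 => by
    rw [mem_arc] at h1 h2
    have : ∀ i : Fin 3, i.val ≠ (i + 1).val := by decide
    exact this i (h1.symm.trans h2)
  have hc := card_union_of_disjoint hd
  have c1 := (arcs_fact _ ⟨i, rfl⟩).1
  have c2 := (arcs_fact _ ⟨i + 1, rfl⟩).1
  rw [← hu, card_union_of_disjoint hd0] at hc
  have h1 := hW.2.2
  have h2 := hW'.2.2
  have h0 : pt i 0 ∈ W ∪ W' := by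
    rw [← hu, mem_union, mem_arc]
    left
    simp only [pt]
    omega
  rcases mem_union.1 h0 with h | h
  · exact ⟨i, (eq_of_subset_of_card_le (first_arc i hW (hu ▸ subset_union_left) h)
      (by omega)).symm⟩
  · have e : W' = arc i :=
      eq_of_subset_of_card_le (first_arc i hW' (hu ▸ subset_union_right) h) (by omega)
    refine ⟨i + 1, ?_⟩
    rw [← union_sdiff_cancel_right hd, ← hu, e, union_sdiff_cancel_left hd0]

theorem two_arcs {A B W W' : Finset (Fin 30)} (hA : A ∈ arcs) (hB : B ∈ arcs) (hAB : A ≠ B)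
    (hW : Ok W) (hW' : Ok W') (hd : Disjoint W W') (hu : A ∪ B = W ∪ W') : W ∈ arcs := by
  obtain ⟨i, rfl⟩ := hA
  obtain ⟨j, rfl⟩ := hB
  have : ∀ i j : Fin 3, i = j ∨ j = i + 1 ∨ i = j + 1 := by decide
  rcases this i j with rfl | rfl | rfl
  · exact absurd rfl hAB
  · exact two_arcs' i hW hW' hd hu
  · exact two_arcs' j hW hW' hd ((union_comm _ _).trans hu)

theorem prop1 {a2 a3 d2 d3 w2 w3 v2 v3 : Prop} (m2 : a2 ∨ d2 ↔ w2 ∨ v2) (m3 : a3 ∨ d3 ↔ w3 ∨ v3)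
    (n2 : ¬ a2) (n3 : ¬ a3) (e2 : w2 → ¬ v2) (e3 : w3 → ¬ v3) (hno : ¬ (d2 ∧ d3)) :
    (¬ d2 → ¬ d3 → ¬ w2 ∧ ¬ w3 ∧ ¬ v2 ∧ ¬ v3) ∧ ((¬ w2 ∧ ¬ w3) ∨ (¬ v2 ∧ ¬ v3)) := by
  tauto

theorem prop2 {c2 c3 d2 d3 w2 w3 v2 v3 C D : Prop} (m2 : c2 ∨ d2 ↔ w2 ∨ v2)
    (m3 : c3 ∨ d3 ↔ w3 ∨ v3) (c1 : c2 ∨ c3 → C) (c0 : ¬ (c2 ∧ c3)) (e1 : d2 ∨ d3 → D)
    (e0 : ¬ (d2 ∧ d3)) (e2 : w2 → ¬ v2) (e3 : w3 → ¬ v3) :
    (w2 ∨ w3 → C ∨ D) ∧ (w2 ∨ w3 → ¬ (¬ v2 ∧ ¬ v3) → C ∧ D) ∧ (w2 ∧ w3 → C ∧ D) := by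
  tauto

theorem arc_out {A D W W' : Finset (Fin 30)} (hA : A ∈ arcs) (hD : Out D) (hDo : Ok D)
    (hW : Ok W) (hW' : Ok W') (hd : Disjoint W W') (hu : A ∪ D = W ∪ W') :
    W ∈ arcs ∨ Out W := by
  obtain ⟨hA4, hA12⟩ := arcs_fact A hA
  have hAD : Disjoint A D := disjoint_left.2 fun x h1 h2 => by
    have := hA12 x h1; have := hD.1 x h2; omega
  have hc := card_union_of_disjoint hd
  have hc' := card_union_of_disjoint hAD
  rw [hu, hc] at hc'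
  have mem : ∀ x, x ∈ A ∨ x ∈ D ↔ x ∈ W ∨ x ∈ W' := fun x => by
    rw [← mem_union, ← mem_union, hu]
  have n12 : (12 : Fin 30) ∉ A := fun h => absurd (hA12 _ h) (by decide)
  have n13 : (13 : Fin 30) ∉ A := fun h => absurd (hA12 _ h) (by decide)
  have nohub : ∀ Z Z' : Finset (Fin 30), Ok Z → Ok Z' → Disjoint Z Z' → A ∪ D = Z ∪ Z' →
      12 ∉ Z → 13 ∉ Z → (Z = A ∧ Z' = D) ∨ (Z' = A ∧ Z = D) ∨
        (Z ⊆ A ∧ 12 ∉ D ∧ 13 ∉ D) := by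
    intro Z Z' hZ hZ' hdd huu h12 h13
    have hcc := card_union_of_disjoint hdd
    rw [← huu, card_union_of_disjoint hAD] at hcc
    have z1 := hZ.2.2
    have z2 := hZ'.2.2
    by_cases hx : ∃ x ∈ Z, 12 ≤ x.val
    · obtain ⟨x, hx, hx'⟩ := hx
      have e := single hZ h12 h13 hx hx'
      have hsub : A ⊆ Z' := by
        intro y hy
        have : y ∈ Z ∪ Z' := huu ▸ mem_union_left _ hy
        rcases mem_union.1 this with h | h
        · rw [e, mem_singleton] at h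
          have := hA12 y hy
          rw [h] at this
          omega
        · exact h
      have e2 : A = Z' := eq_of_subset_of_card_le hsub (by omega)
      refine Or.inr (Or.inl ⟨e2.symm, ?_⟩)
      rw [← union_sdiff_cancel_right hdd, ← huu, ← e2, union_sdiff_cancel_left hAD]
    · push Not at hx
      have hsub : Z ⊆ A := by
        intro y hy
        have : y ∈ A ∪ D := huu ▸ mem_union_left _ hy
        rcases mem_union.1 this with h | h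
        · exact h
        · have := hD.1 y h; have := hx y hy; omega
      by_cases hh : 12 ∈ D ∨ 13 ∈ D
      · have := hD.2.1 hh
        have e2 : Z = A := eq_of_subset_of_card_le hsub (by omega)
        refine Or.inl ⟨e2, ?_⟩
        rw [← union_sdiff_cancel_left hdd, ← huu, e2, union_sdiff_cancel_left hAD]
      · exact Or.inr (Or.inr ⟨hsub, fun h => hh (Or.inl h), fun h => hh (Or.inr h)⟩)
  have d12 : 12 ∈ W → 12 ∉ W' := fun h => disjoint_left.1 hd h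
  have d13 : 13 ∈ W → 13 ∉ W' := fun h => disjoint_left.1 hd h
  have pp := prop1 (mem 12) (mem 13) n12 n13 d12 d13 hD.2.2
  by_cases hw : 12 ∉ W' ∧ 13 ∉ W'
  · rcases nohub W' W hW' hW hd.symm (hu.trans (union_comm _ _)) hw.1 hw.2 with
      ⟨-, rfl⟩ | ⟨rfl, -⟩ | ⟨h1, h2, h3⟩
    · exact Or.inr hD
    · exact Or.inl hA
    · rcases nohub W W' hW hW' hd hu (pp.1 h2 h3).1 (pp.1 h2 h3).2.1 with
        ⟨rfl, -⟩ | ⟨-, rfl⟩ | ⟨h4, -⟩
      · exact Or.inl hA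
      · exact Or.inr hD
      · obtain ⟨x, hx⟩ := card_pos.1 hDo.2.1
        rcases (mem x).1 (Or.inr hx) with h | h
        · exact absurd hx (disjoint_left.1 hAD (h4 h))
        · exact absurd hx (disjoint_left.1 hAD (h1 h))
  · by_cases hw2 : 12 ∉ W ∧ 13 ∉ W
    · rcases nohub W W' hW hW' hd hu hw2.1 hw2.2 with ⟨rfl, -⟩ | ⟨-, rfl⟩ | ⟨-, h4, h5⟩
      · exact Or.inl hA
      · exact Or.inr hD
      · exact absurd (pp.1 h4 h5).2.2 hw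
    · exact absurd pp.2 (not_or.2 ⟨hw2, hw⟩)

theorem out_out {C D W W' : Finset (Fin 30)} (hC : Out C) (hCo : Ok C) (hD : Out D) (hDo : Ok D)
    (hCD : Disjoint C D) (hW : Ok W) (hW' : Ok W') (hd : Disjoint W W')
    (hu : C ∪ D = W ∪ W') : Out W := by
  have hc := card_union_of_disjoint hd
  rw [← hu, card_union_of_disjoint hCD] at hc
  have mem : ∀ x, x ∈ C ∨ x ∈ D ↔ x ∈ W ∨ x ∈ W' := fun x => by
    rw [← mem_union, ← mem_union, hu]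
  have ge : ∀ x, x ∈ W ∨ x ∈ W' → 12 ≤ x.val := fun x hx => by
    rcases (mem x).2 hx with h | h
    · exact hC.1 x h
    · exact hD.1 x h
  have one : 12 ∉ W' → 13 ∉ W' → W'.card = 1 := fun h1 h2 => by
    obtain ⟨x, hx⟩ := card_pos.1 hW'.2.1
    rw [single hW' h1 h2 hx (ge x (Or.inr hx)), card_singleton]
  have d12 : 12 ∈ W → 12 ∉ W' := fun h => disjoint_left.1 hd h
  have d13 : 13 ∈ W → 13 ∉ W' := fun h => disjoint_left.1 hd h
  have pp := prop2 (mem 12) (mem 13) hC.2.1 hC.2.2 hD.2.1 hD.2.2 d12 d13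
  obtain ⟨-, a1, a2⟩ := hCo
  obtain ⟨-, a3, a4⟩ := hDo
  obtain ⟨-, a5, a6⟩ := hW
  obtain ⟨-, a7, a8⟩ := hW'
  refine ⟨fun x hx => ge x (Or.inl hx), ?_, ?_⟩
  · intro h
    by_cases hw : 12 ∉ W' ∧ 13 ∉ W'
    · have := one hw.1 hw.2
      have := pp.1 h
      omega
    · have := pp.2.1 h hw
      omega
  · intro h
    have := one (d12 h.1) (d13 h.2)
    have := pp.2.2 h
    omega

def Inv (P : Finpartition (univ : Finset (Fin 30))) : Prop := ∀ U ∈ P.parts, U ∈ arcs ∨ Out U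

theorem ok_of {P : Finpartition (univ : Finset (Fin 30))} (h : IsBCP G0 15 2 P)
    {U : Finset (Fin 30)} (hU : U ∈ P.parts) : Ok U :=
  ⟨(h.2 U hU).1, card_pos.2 (P.nonempty_of_mem_parts hU), (bal _).1 (h.2 U hU).2⟩

theorem step {V₁ V₂ W W' : Finset (Fin 30)} (h1 : V₁ ∈ arcs ∨ Out V₁) (h2 : V₂ ∈ arcs ∨ Out V₂)
    (o1 : Ok V₁) (o2 : Ok V₂) (hne : V₁ ≠ V₂) (hV : Disjoint V₁ V₂) (hW : Ok W) (hW' : Ok W')
    (hd : Disjoint W W') (hu : V₁ ∪ V₂ = W ∪ W') : W ∈ arcs ∨ Out W := by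
  rcases h1 with h1 | h1 <;> rcases h2 with h2 | h2
  · exact Or.inl (two_arcs h1 h2 hne hW hW' hd hu)
  · exact arc_out h1 h2 o2 hW hW' hd hu
  · exact arc_out h2 h1 o1 hW hW' hd ((union_comm _ _).trans hu)
  · exact Or.inr (out_out h1 o1 h2 o2 hV hW hW' hd hu)

theorem inv_step {P Q : Finpartition (univ : Finset (Fin 30))} (hP : IsBCP G0 15 2 P)
    (hQ : IsBCP G0 15 2 Q) (h : Recomb P Q) (hI : Inv P) : Inv Q := by
  obtain ⟨-, V₁, v1, V₂, v2, W₁, w1, W₂, w2, hV, hW, hu, hr⟩ := h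
  have dV : Disjoint V₁ V₂ := P.disjoint v1 v2 hV
  have dW : Disjoint W₁ W₂ := Q.disjoint w1 w2 hW
  intro U hU
  by_cases e1 : U = W₁
  · rw [e1]
    exact step (hI _ v1) (hI _ v2) (ok_of hP v1) (ok_of hP v2) hV dV (ok_of hQ w1) (ok_of hQ w2)
      dW hu
  by_cases e2 : U = W₂
  · rw [e2]
    exact step (hI _ v1) (hI _ v2) (ok_of hP v1) (ok_of hP v2) hV dV (ok_of hQ w2) (ok_of hQ w1)
      dW.symm (hu.trans (union_comm _ _))
  have : U ∈ Q.parts \ {W₁, W₂} := by simp [hU, e1, e2]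
  rw [← hr] at this
  exact hI U (mem_sdiff.1 this).1

theorem main : ¬ Relation.ReflTransGen
    (fun A B => IsBCP G0 15 2 A ∧ IsBCP G0 15 2 B ∧ Recomb A B) P0 Q0 := by
  intro h
  have h0 : Inv P0 := by
    have key : ∀ i, (∃ j : Fin 3, ∀ x, x.val / 4 = j.val ↔ labP x = i) ∨
        ((∀ x, labP x = i → 12 ≤ x.val) ∧ ((labP 12 = i ∨ labP 13 = i) → (cls labP i).card = 4) ∧
          ¬ (labP 12 = i ∧ labP 13 = i)) := by
      set_option synthInstance.maxSize 4000 in decide +kernel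
    intro U hU
    obtain ⟨i, rfl⟩ := (ofLab_mem _ _ _).1 hU
    rcases key i with ⟨j, hj⟩ | h
    · exact Or.inl ⟨j, by ext x; rw [mem_arc, mem_cls]; exact hj x⟩
    · exact Or.inr (by simpa only [Out, mem_cls] using h)
  have h1 : ∀ Q, Relation.ReflTransGen
      (fun A B => IsBCP G0 15 2 A ∧ IsBCP G0 15 2 B ∧ Recomb A B) P0 Q → Inv Q := by
    intro Q hQ
    induction hQ with
    | refl => exact h0
    | tail _ hs ih => exact inv_step hs.1 hs.2.1 hs.2.2 ih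
  have m1 : (1 : Fin 30) ∈ cls labQ 0 := (mem_cls _ _ _).2 (by decide)
  have m4 : (4 : Fin 30) ∈ cls labQ 0 := (mem_cls _ _ _).2 (by decide)
  rcases h1 Q0 h _ ((ofLab_mem _ _ _).2 ⟨0, rfl⟩) with ⟨j, h⟩ | h
  · rw [← h, mem_arc] at m1 m4
    exact absurd (m1.trans m4.symm) (by decide)
  · exact absurd (h.1 1 m1) (by decide)

end Pool.Agent.H24.Recomb
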