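import Mathlib
import Pool.Agent.H24.BallDefs

namespace Pool.Agent.H24.SofDefs

open Pool.Agent.H24.BallDefs

/-- Vertex-transitivity. -/
def VT {V : Type} (G : SimpleGraph V) : Prop := ∀ u v : V, ∃ f : G ≃g G, f u = v

/-- `H` and `G` have the same `r`-ball: some rooted `r`-ball of `H` is isomorphic to some rooted
`r`-ball of `G` (for vertex-transitive graphs the roots do not matter). -/
def SameBall {W V : Type} (H : SimpleGraph W) (G : SimpleGraph V) (r : ℕ) : Prop :=
  ∃ (v : W) (o : V), BallIso H v G o r

/-- `D_G(r)`: the least diameter of a finite connected vertex-transitive graph with the same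
`r`-ball as `G` (`⊤` if there is none). -/
noncomputable def sofD {V : Type} (G : SimpleGraph V) (r : ℕ) : ℕ∞ :=
  ⨅ (W : Type) (H : SimpleGraph W) (_ : Finite W ∧ H.Connected ∧ VT H ∧ SameBall H G r), H.ediam

end Pool.Agent.H24.SofDefs
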