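import Mathlib
import Pool.Agent.H24.BallC
import Pool.Agent.H24.SofDefs

namespace Pool.Agent.H24.Sof1

open Pool.Agent.H24.BallDefs Pool.Agent.H24.BallA Pool.Agent.H24.BallB Pool.Agent.H24.BallC
open Pool.Agent.H24.SofDefs SimpleGraph Equiv

theorem ballIso_trans {U V W : Type} {G : SimpleGraph U} {H : SimpleGraph V} {K : SimpleGraph W}
    {o : U} {v : V} {w : W} {r : ℕ} (h1 : BallIso H v G o r) (h2 : BallIso K w H v r) :
    BallIso K w G o r := by
  obtain ⟨f, hf⟩ := h1
  obtain ⟨g, hg⟩ := h2
  exact ⟨f.trans g, by simp [hf, hg]⟩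

theorem ballIso_symm {U V : Type} {G : SimpleGraph U} {H : SimpleGraph V}
    {o : U} {v : V} {r : ℕ} (h1 : BallIso H v G o r) : BallIso G o H v r := by
  obtain ⟨f, hf⟩ := h1
  exact ⟨f.symm, by rw [← hf]; simp⟩

theorem all_of_same {V W : Type} {G : SimpleGraph V} {H : SimpleGraph W} {r : ℕ}
    (hG : VT G) (hH : VT H) (h : SameBall H G r) (v : W) (o : V) : BallIso H v G o r := by
  obtain ⟨v', o', h⟩ := h
  obtain ⟨f, hf⟩ := hG o o'
  obtain ⟨g, hg⟩ := hH v' v
  have a := ballIso_of_iso f o r
  have b := ballIso_of_iso g v' r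
  rw [hf] at a
  rw [hg] at b
  exact ballIso_trans (ballIso_trans a h) b

section gen
variable {ι Γ Γ' : Type} [Group Γ] [Group Γ']

theorem vt (D : Data ι Γ) : VT D.graph := by
  intro u v
  refine ⟨D.shift (v * u⁻¹), ?_⟩
  show v * u⁻¹ * u = v
  simp

theorem nbr_eq (D : Data ι Γ) (x : Γ) :
    D.graph.neighborSet x = (fun t => x * D.gen t) '' Set.univ := by
  ext y
  constructor
  · rintro ⟨t, rfl⟩
    exact ⟨t, trivial, rfl⟩
  · rintro ⟨t, -, rfl⟩
    exact ⟨t, rfl⟩

theorem nbr_card [Fintype ι] (D : Data ι Γ) (x : Γ) :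
    (D.graph.neighborSet x).ncard = Fintype.card ι := by
  rw [nbr_eq, Set.ncard_image_of_injective, Set.ncard_univ, Nat.card_eq_fintype_card]
  intro p q h
  exact D.inj (mul_left_cancel h)

theorem ev_snoc (D : Data ι Γ) (w : List ι) (t : ι) :
    ev D id (w ++ [t]) = ev D id w * D.gen t := by simp [ev]

theorem edist_ev (D : Data ι Γ) (w : List ι) : D.graph.edist 1 (ev D id w) ≤ (w.length : ℕ) := by
  induction w using List.reverseRecOn with
  | nil => simp [ev]
  | append_singleton w s ih =>
    have := edist_adj ih (y := ev D id (w ++ [s])) ⟨s, ev_snoc D w s⟩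
    simpa using this

theorem walk_word (D : Data ι Γ) {x y : Γ} (p : D.graph.Walk x y) :
    ∃ w : List ι, w.length = p.length ∧ y = x * ev D id w := by
  induction p with
  | nil => exact ⟨[], rfl, by simp [ev]⟩
  | cons h p ih =>
    obtain ⟨w, hw, e⟩ := ih
    obtain ⟨t, rfl⟩ := h
    refine ⟨t :: w, by simp [hw], ?_⟩
    rw [e]; simp [ev, mul_assoc]

theorem mem_cball (D : Data ι Γ) (r : ℕ) (x : Γ) :
    x ∈ cball D.graph 1 r ↔ ∃ w : List ι, w.length ≤ r ∧ ev D id w = x := by
  constructor
  · intro hx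
    have hx' : D.graph.edist 1 x ≤ r := hx
    have hne : D.graph.edist 1 x ≠ ⊤ := by
      intro h
      rw [h] at hx'
      exact absurd hx' (by simp)
    obtain ⟨p, hp⟩ := exists_walk_of_edist_ne_top hne
    obtain ⟨w, hw, e⟩ := walk_word D p
    refine ⟨w, ?_, by rw [e, one_mul]⟩
    rw [← hp] at hx'
    rw [hw]; exact_mod_cast hx'
  · rintro ⟨w, hw, rfl⟩
    exact (edist_ev D w).trans (by exact_mod_cast hw)

theorem ballIso_of_words (D : Data ι Γ) (D' : Data ι Γ') (r : ℕ)
    (h : ∀ w w' : List ι, w.length ≤ r + 1 → w'.length ≤ r + 1 →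
      (ev D id w = ev D id w' ↔ ev D' id w = ev D' id w')) :
    BallIso D'.graph 1 D.graph 1 r := by
  have hw := fun x : cball D.graph 1 r => (mem_cball D r x).1 x.2
  choose wd hl he using hw
  let f : cball D.graph 1 r → cball D'.graph 1 r := fun x =>
    ⟨ev D' id (wd x), (mem_cball D' r _).2 ⟨wd x, hl x, rfl⟩⟩
  have hf : Function.Bijective f := by
    constructor
    · intro x y hxy
      have : ev D' id (wd x) = ev D' id (wd y) := congrArg Subtype.val hxy
      rw [← h _ _ (by have := hl x; omega) (by have := hl y; omega), he, he] at this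
      exact Subtype.ext this
    · intro y
      obtain ⟨w, hw, e⟩ := (mem_cball D' r y).1 y.2
      refine ⟨⟨ev D id w, (mem_cball D r _).2 ⟨w, hw, rfl⟩⟩, Subtype.ext ?_⟩
      show ev D' id (wd _) = y
      rw [← e, ← h _ _ (by exact (hl _).trans (by omega)) (by omega), he]
  refine ⟨⟨Equiv.ofBijective f hf, ?_⟩, ?_⟩
  · intro x y
    show (∃ t, ev D' id (wd y) = ev D' id (wd x) * D'.gen t) ↔ ∃ t, (y : Γ) = x * D.gen t
    refine exists_congr fun t => ?_
    rw [← ev_snoc, ← h _ _ (by have := hl y; omega) (by have := hl x; simp; omega), ev_snoc, he, he]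
  · apply Subtype.ext
    show ev D' id (wd _) = 1
    have : ev D' id [] = 1 := rfl
    rw [← this, ← h _ _ (by exact (hl _).trans (by omega)) (by simp), he]
    rfl

end gen

/-- the integer permutation of a word -/
def P (w : List (Fin 13)) (x : ℤ) : ℤ := (ev (data 0) id w).1 x

def bz (c : Fin 4) (x : ℤ) : ℤ := base 0 c x

theorem ev_cons (n : ℕ) (t : Fin 13) (w : List (Fin 13)) (x : ZMod n) :
    (ev (data n) id (t :: w)).1 x = base n (cls t) ((ev (data n) id w).1 x) := by
  simp [ev, data]

theorem P_cons (t : Fin 13) (w : List (Fin 13)) (x : ℤ) : P (t :: w) x = bz (cls t) (P w x) :=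
  ev_cons 0 t w x

theorem bz_eq (c : Fin 4) (x : ℤ) : bz c x =
    if c = 0 then x else if c = 1 then (if x = 0 then 1 else if x = 1 then 0 else x)
    else if c = 2 then -x else 1 - x := by
  fin_cases c
  · rfl
  · show swap (0 : ℤ) 1 x = _
    simp [swap_apply_def]
  · rfl
  · rfl

theorem bz_abs (c : Fin 4) (y : ℤ) : |bz c y| ≤ |y| + 1 ∧ |y| ≤ |bz c y| + 1 := by
  rw [bz_eq]
  rcases abs_cases y with h | h <;> rcases abs_cases (1 - y) with h' | h' <;>
    split_ifs <;> (try simp only [abs_neg, abs_one, abs_zero]) <;> omega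

theorem P_abs (w : List (Fin 13)) (x : ℤ) :
    |P w x| ≤ |x| + w.length ∧ |x| ≤ |P w x| + w.length := by
  induction w with
  | nil => exact ⟨by simp [P, ev], by simp [P, ev]⟩
  | cons t w ih =>
    rw [P_cons, bz_eq]
    simp only [List.length_cons]
    push_cast
    obtain ⟨h1, h2⟩ := ih
    have h3 := bz_abs (cls t) (P w x)
    rw [bz_eq] at h3
    omega

theorem P_aff (w : List (Fin 13)) : ∃ e c : ℤ, ∀ x : ℤ, (w.length : ℤ) + 1 < |x| →
    P w x = e * x + c := by
  induction w with
  | nil => exact ⟨1, 0, fun x _ => by simp [P, ev]⟩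
  | cons t w ih =>
    obtain ⟨e, c, h⟩ := ih
    have key : ∀ x : ℤ, ((t :: w).length : ℤ) + 1 < |x| → P w x = e * x + c ∧ P w x ≠ 0 ∧ P w x ≠ 1 := by
      intro x hx
      simp only [List.length_cons] at hx
      push_cast at hx
      have := (P_abs w x).2
      refine ⟨h x (by omega), ?_, ?_⟩
      · intro h0; rw [h0] at this; simp at this; omega
      · intro h0; rw [h0] at this; simp at this; omega
    by_cases h0 : cls t = 0
    · refine ⟨e, c, fun x hx => ?_⟩
      rw [P_cons, bz_eq, if_pos h0, (key x hx).1]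
    by_cases h1 : cls t = 1
    · refine ⟨e, c, fun x hx => ?_⟩
      rw [P_cons, bz_eq, if_neg h0, if_pos h1, if_neg (key x hx).2.1, if_neg (key x hx).2.2,
        (key x hx).1]
    by_cases h2 : cls t = 2
    · refine ⟨-e, -c, fun x hx => ?_⟩
      rw [P_cons, bz_eq, if_neg h0, if_neg h1, if_pos h2, (key x hx).1]; ring
    · refine ⟨-e, 1 - c, fun x hx => ?_⟩
      rw [P_cons, bz_eq, if_neg h0, if_neg h1, if_neg h2, (key x hx).1]; ring

theorem cast_inj {n : ℕ} {x y : ℤ} (h : (x : ZMod n) = (y : ZMod n)) (hxy : |x - y| < n) :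
    x = y := by
  rw [ZMod.intCast_eq_intCast_iff_dvd_sub] at h
  have := Int.eq_zero_of_abs_lt_dvd h (by rw [abs_sub_comm]; exact hxy)
  omega

theorem base_cast (n : ℕ) (c : Fin 4) (x : ℤ) (hx : |x| + 1 < n) :
    base n c (x : ZMod n) = (bz c x : ℤ) := by
  rw [bz_eq]
  fin_cases c
  · simp [base]
  · have h0 : (x : ZMod n) = 0 ↔ x = 0 := by
      constructor
      · intro h
        exact cast_inj (n := n) (y := 0) (by simpa using h) (by simp; omega)
      · rintro rfl; simp
    have h1 : (x : ZMod n) = 1 ↔ x = 1 := by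
      constructor
      · intro h
        refine cast_inj (n := n) (y := 1) (by simpa using h) ?_
        rcases abs_cases x with h | h <;> rcases abs_cases (x - 1) with h' | h' <;> omega
      · rintro rfl; simp
    show swap (0 : ZMod n) 1 x = _
    simp only [swap_apply_def, h0, h1]
    simp only [Fin.mk_one, one_ne_zero, if_false, if_true]
    split_ifs <;> simp
  · simp [base]
  · simp [base]

theorem P_cast (n : ℕ) (w : List (Fin 13)) (x : ℤ) (hx : |x| + w.length < n) :
    (ev (data n) id w).1 (x : ZMod n) = (P w x : ℤ) := by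
  induction w with
  | nil => simp [P, ev]
  | cons t w ih =>
    simp only [List.length_cons] at hx
    push_cast at hx
    have := (P_abs w x).1
    rw [ev_cons, ih (by omega), P_cons, base_cast n _ _ (by omega)]

theorem ev_snd (n : ℕ) (w : List (Fin 13)) : (ev (data n) id w).2 = (ev (data 0) id w).2 := by
  induction w with
  | nil => rfl
  | cons t w ih =>
    have e : ∀ m, ev (data m) id (t :: w) = (data m).gen t * ev (data m) id w := fun m => by
      simp [ev]
    rw [e, e, Prod.snd_mul, Prod.snd_mul, ih]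
    rfl

theorem words_iff (L n : ℕ) (hn : 4 * L + 10 ≤ n) (w w' : List (Fin 13)) (hw : w.length ≤ L)
    (hw' : w'.length ≤ L) :
    ev (data 0) id w = ev (data 0) id w' ↔ ev (data n) id w = ev (data n) id w' := by
  have : NeZero n := ⟨by omega⟩
  constructor
  · intro h
    refine Prod.ext ?_ (by rw [ev_snd, h, ← ev_snd])
    ext y
    have h1 : ((y.valMinAbs : ℤ) : ZMod n) = y := ZMod.coe_valMinAbs y
    have h2 : y.valMinAbs.natAbs ≤ n / 2 := ZMod.natAbs_valMinAbs_le y
    have h3 : |y.valMinAbs| = (y.valMinAbs.natAbs : ℤ) := (Int.natCast_natAbs _).symm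
    rw [← h1, P_cast n w _ (by omega), P_cast n w' _ (by omega)]
    unfold P
    rw [h]
  · intro h
    refine Prod.ext ?_ (by rw [← ev_snd n, h, ev_snd])
    have small : ∀ x : ℤ, |x| ≤ L + 3 → P w x = P w' x := by
      intro x hx
      have e : ((P w x : ℤ) : ZMod n) = (P w' x : ℤ) := by
        rw [← P_cast n w x (by omega), ← P_cast n w' x (by omega), h]
      refine cast_inj e ?_
      have a := (P_abs w x).1
      have b := (P_abs w' x).1
      have c := abs_sub (P w x) (P w' x)
      omega
    obtain ⟨e, c, he⟩ := P_aff w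
    obtain ⟨e', c', he'⟩ := P_aff w'
    have a2 : |(L : ℤ) + 2| = L + 2 := abs_of_nonneg (by omega)
    have a3 : |(L : ℤ) + 3| = L + 3 := abs_of_nonneg (by omega)
    have s2 := small (L + 2) (by omega)
    have s3 := small (L + 3) (by omega)
    rw [he _ (by omega), he' _ (by omega)] at s2 s3
    have ee : e = e' := by linarith
    have cc : c = c' := by subst ee; linarith
    refine Equiv.ext fun x : ℤ => ?_
    show P w x = P w' x
    by_cases hx : |x| ≤ L + 3
    · exact small x hx
    · rw [he _ (by omega), he' _ (by omega), ee, cc]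

theorem ball_eq (r : ℕ) :
    BallIso (lift (data (4 * r + 14))).graph 1 (lift (data 0)).graph 1 r := by
  apply ballIso_of_words
  intro w w' hw hw'
  rw [Subtype.ext_iff, Subtype.ext_iff, lift_ev, lift_ev, lift_ev, lift_ev]
  exact words_iff (r + 1) _ (by omega) w w' hw hw'

end Pool.Agent.H24.Sof1
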