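import Mathlib
import Pool.Agent.H24.Sof1

namespace Pool.Agent.H24.Sof2

open Pool.Agent.H24.BallDefs Pool.Agent.H24.BallA Pool.Agent.H24.BallB Pool.Agent.H24.BallC
open Pool.Agent.H24.SofDefs Pool.Agent.H24.Sof1 SimpleGraph Equiv

def pz (i j : ℤ) : Grp 0 := (swap i j, fa)

theorem conjz (g : Grp 0) (i j : ℤ) : g * pz i j * g⁻¹ = pz (g.1 i) (g.1 j) := conj 0 g i j

theorem pz_inv (i j : ℤ) : (pz i j)⁻¹ = pz i j := pair_inv 0 i j

theorem pz_comm (i j : ℤ) : pz i j = pz j i := by unfold pz; rw [swap_comm]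

theorem pz_fst (i j x : ℤ) : (pz i j).1 x = swap i j x := rfl

theorem wordz0 (k : ℕ) :
    ∃ w : List (Fin 3), w.length ≤ 6 * k + 1 ∧ ev (data 0) key w = pz 0 (k + 1) := by
  induction k with
  | zero => exact ⟨[0], by simp, by simp [ev, data, key, cls, base, fa, pz]; rfl⟩
  | succ k ih =>
    obtain ⟨w, hw, e⟩ := ih
    refine ⟨[0, 2, 1] ++ w ++ [1, 2, 0], by simp; omega, ?_⟩
    rw [ev_append, ev_append, e]
    have e1 : ev (data 0) key [1, 2, 0] = (ev (data 0) key [0, 2, 1])⁻¹ := by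
      symm
      apply inv_eq_of_mul_eq_one_right
      simp only [ev, List.map, List.prod_cons, List.prod_nil, mul_one]
      rw [mul_assoc, mul_assoc, ← mul_assoc ((data 0).gen (key 1)), (data 0).sq, one_mul,
        ← mul_assoc ((data 0).gen (key 2)), (data 0).sq, one_mul, (data 0).sq]
    rw [e1, conjz]
    have e2 : ∀ x : ℤ, (ev (data 0) key [0, 2, 1]).1 x = swap (0 : ℤ) 1 (x + 1) := by
      intro x
      show swap (0 : ℤ) 1 (1 - (-x)) = _
      congr 1
      ring
    rw [e2, e2, zero_add, swap_apply_right, swap_apply_of_ne_of_ne (by omega) (by omega)]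
    push_cast
    rfl

theorem wordz1 (m j : ℕ) (hj : j ≠ 0) (hm : j < m) :
    ∃ w : List (Fin 3), w.length ≤ 6 * m ∧ ev (data 0) key w = pz 0 j := by
  obtain ⟨w, hw, e⟩ := wordz0 (j - 1)
  refine ⟨w, by omega, ?_⟩
  rw [e]
  congr 1
  omega

def tz (m : ℕ) (i j : Fin m) : Grp 0 := if i = j then 1 else pz (i : ℕ) (j : ℕ)

theorem wordz2 (m : ℕ) (i j : Fin m) :
    ∃ w : List (Fin 3), w.length ≤ 18 * m ∧ ev (data 0) key w = tz m i j := by
  unfold tz
  split_ifs with h
  · exact ⟨[], by simp, rfl⟩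
  · have h' : (i : ℕ) ≠ j := fun e => h (Fin.ext e)
    by_cases hi : (i : ℕ) = 0
    · obtain ⟨w, hw, e⟩ := wordz1 m j (by omega) j.2
      exact ⟨w, by omega, by rw [e, hi]; rfl⟩
    · obtain ⟨w, hw, e⟩ := wordz1 m i hi i.2
      by_cases hj : (j : ℕ) = 0
      · exact ⟨w, by omega, by rw [e, hj, pz_comm]; rfl⟩
      · obtain ⟨w', hw', e'⟩ := wordz1 m j hj j.2
        refine ⟨w ++ w' ++ w, by simp; omega, ?_⟩
        rw [ev_append, ev_append, e, e']
        have := conjz (pz 0 (i : ℕ)) 0 (j : ℕ)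
        rw [pz_inv] at this
        rw [this, pz_fst, pz_fst, swap_apply_left,
          swap_apply_of_ne_of_ne (by omega) (by omega)]

theorem emb_inj (m : ℕ) : Function.Injective fun i : Fin m => ((i : ℕ) : ℤ) := by
  intro i j h
  apply Fin.ext
  simpa using h

theorem tz_conj (m : ℕ) (i j k l : Fin m) :
    tz m i j * tz m k l * tz m i j = tz m (swap i j k) (swap i j l) := by
  by_cases h : i = j
  · subst h
    simp [tz]
  · have e : tz m i j = pz (i : ℕ) (j : ℕ) := if_neg h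
    by_cases h' : k = l
    · subst h'
      have e' : ∀ x, tz m x x = 1 := fun x => if_pos rfl
      rw [e', e', mul_one, e]
      conv_lhs => enter [1]; rw [← pz_inv]
      exact inv_mul_cancel _
    · have e' : tz m k l = pz (k : ℕ) (l : ℕ) := if_neg h'
      have e'' : tz m (swap i j k) (swap i j l) = pz (swap i j k : ℕ) (swap i j l : ℕ) :=
        if_neg fun h => h' ((swap i j).injective h)
      have := conjz (pz (i : ℕ) (j : ℕ)) (k : ℕ) (l : ℕ)
      rw [pz_inv] at this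
      rw [e, e', e'', this, pz_fst, pz_fst]
      have s := fun x => (emb_inj m).swap_apply i j x
      rw [s k, s l]

theorem tz_ne (m : ℕ) (a b c : Fin m) (hab : a ≠ b) (hac : a ≠ c) (hbc : b ≠ c) :
    tz m a b * tz m a c ≠ 1 := by
  intro h
  have e : tz m a b = pz (a : ℕ) (b : ℕ) := if_neg hab
  have e' : tz m a c = pz (a : ℕ) (c : ℕ) := if_neg hac
  rw [e, e'] at h
  have h1 : swap ((a : ℕ) : ℤ) (b : ℕ) (swap ((a : ℕ) : ℤ) (c : ℕ) (a : ℕ)) = (a : ℕ) :=
    congrArg (fun g : Grp 0 => g.1 ((a : ℕ) : ℤ)) h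
  have h2 : (a : ℕ) ≠ c := fun e => hac (Fin.ext e)
  have h3 : (b : ℕ) ≠ c := fun e => hbc (Fin.ext e)
  rw [swap_apply_left, swap_apply_of_ne_of_ne (by omega) (by omega)] at h1
  omega

abbrev GG := (lift (data 0)).graph

theorem lower (C : ℕ) : ∃ R : ℕ, 1 ≤ R ∧ ∀ r ≥ R, ∀ (W : Type) (H : SimpleGraph W),
    H.Connected → (∀ v, BallIso H v GG 1 r) → ((C * r : ℕ) : ℕ∞) < H.ediam := by
  obtain ⟨M, hM⟩ := Filter.eventually_atTop.1
    (Nat.eventually_mul_pow_lt_factorial_sub (14 ^ (54 * C)) (14 ^ (108 * C)) 0)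
  refine ⟨54 * (2 * M + 2), by omega, fun r hr W H hc hH => ?_⟩
  have hr0 : 0 < r := by omega
  by_contra hk
  rw [not_lt] at hk
  obtain ⟨v⟩ := hc.nonempty
  obtain ⟨m, hm1, hm2⟩ := main_lift (data 0) hr0 hH (key := key) (data_cnt _)
    (tz (r / 54)) (18 * (r / 54)) (by omega) (wordz2 _) (fun i => if_pos rfl)
    (fun i j => by
      unfold tz
      by_cases h : i = j
      · simp [h]
      · rw [if_neg h, if_neg (Ne.symm h), pz_comm])
    (tz_conj _) (tz_ne _) v _ hk
  rw [Fintype.card_fin] at hm1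
  rw [Fintype.card_fin] at hm2
  have h1 := hM m (by omega)
  rw [Nat.sub_zero, ← pow_mul, ← pow_add] at h1
  have h2 : C * r ≤ 54 * C + 108 * C * m := by
    have : r ≤ 54 + 108 * m := by omega
    nlinarith
  have h3 : (13 + 1) ^ (C * r) ≤ 14 ^ (54 * C + 108 * C * m) :=
    Nat.pow_le_pow_right (by norm_num) h2
  omega

theorem inf : Infinite (Subgroup.closure (Set.range (data 0).gen)) := by
  choose wd _ he using wordz0
  refine Infinite.of_injective (fun k => ev (lift (data 0)) key (wd k)) fun k l h => ?_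
  have h1 := congrArg Subtype.val h
  simp only [lift_ev, he] at h1
  have h2 : swap (0 : ℤ) (k + 1) 0 = swap (0 : ℤ) (l + 1) 0 :=
    congrArg (fun g : Grp 0 => g.1 (0 : ℤ)) h1
  rw [swap_apply_left, swap_apply_left] at h2
  omega

theorem q1 : ∃ (V : Type) (G : SimpleGraph V), Infinite V ∧ G.Connected ∧
    (∀ v, (G.neighborSet v).Finite) ∧ VT G ∧ (∀ r, sofD G r < ⊤) ∧
    ∀ C : ℕ, ∃ R : ℕ, 1 ≤ R ∧ ∀ r : ℕ, R ≤ r → ((C * r : ℕ) : ℕ∞) < sofD G r := by
  refine ⟨_, GG, inf, (lift (data 0)).connected (lift_top _), fun v => ?_, vt _, fun r => ?_,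
    fun C => ?_⟩
  · rw [nbr_eq]; exact Set.finite_univ.image _
  · have : NeZero (4 * r + 14) := ⟨by omega⟩
    have hc := (lift (data (4 * r + 14))).connected (lift_top _)
    have : sofD GG r ≤ (lift (data (4 * r + 14))).graph.ediam := by
      unfold sofD
      refine iInf_le_of_le _ (iInf_le_of_le _ (iInf_le_of_le ?_ le_rfl))
      exact ⟨inferInstance, hc, vt _, 1, 1, ball_eq r⟩
    refine this.trans_lt ?_
    have : Nonempty (Subgroup.closure (Set.range (data (4 * r + 14)).gen)) := ⟨1⟩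
    exact lt_top_iff_ne_top.2 (connected_iff_ediam_ne_top.1 hc)
  · obtain ⟨R, h1, h⟩ := lower C
    refine ⟨R, h1, fun r hr => ?_⟩
    have : ((C * r + 1 : ℕ) : ℕ∞) ≤ sofD GG r := by
      unfold sofD
      refine le_iInf fun W => le_iInf fun H => le_iInf fun hH => ?_
      have := h r hr W H hH.2.1 fun v => all_of_same (vt _) hH.2.2.1 hH.2.2.2 v 1
      push_cast at this ⊢
      exact Order.add_one_le_of_lt this
    exact lt_of_lt_of_le (by exact_mod_cast Nat.lt_succ_self _) this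

theorem q2 (C : ℕ) : ∃ (V : Type) (H : SimpleGraph V) (r : ℕ), Finite V ∧ H.Connected ∧
    (∀ v, (H.neighborSet v).ncard = 13) ∧ VT H ∧ 1 ≤ r ∧
    ∀ (W : Type) (K : SimpleGraph W), Finite W → K.Connected → VT K → SameBall K H r →
      ((C * r : ℕ) : ℕ∞) < K.ediam := by
  obtain ⟨R, h1, h⟩ := lower C
  have : NeZero (4 * R + 14) := ⟨by omega⟩
  refine ⟨_, (lift (data (4 * R + 14))).graph, R, inferInstance,
    (lift (data _)).connected (lift_top _), fun v => ?_, vt _, h1, fun W K _ hc hv hs => ?_⟩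
  · rw [nbr_card, Fintype.card_fin]
  · exact h R le_rfl W K hc fun v =>
      ballIso_trans (ball_eq R) (all_of_same (vt _) hv hs v 1)

end Pool.Agent.H24.Sof2
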