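import Pool.Agent.H24.SpdDefs

set_option autoImplicit false

namespace Pool.Agent.H24.Spd

/-- The context-free languages over `σ`: the languages of ordinary pushdown automata (the turn
state and the relation `R` play no role). -/
def CF (σ : Type) : Set (Set (List σ)) :=
  {L | ∃ M : SPDA σ, L = {w | ∃ f ∈ M.F, ∃ μ, Comp M.δ [M.Z0] M.q0 w μ f}}

/-- The words `u₀ # u₁ # ⋯ uₙ #` with `|u₀| = ⋯ = |uₙ|` and `uⱼ` over `τ`; `#` is `none`. -/
def Blocks (n : ℕ) (τ : Type) : Set (List (Option τ)) :=
  {x | ∃ (k : ℕ) (us : List (List τ)), us.length = n + 1 ∧ (∀ u ∈ us, u.length = k) ∧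
    x = (us.map fun u => u.map some ++ [none]).flatten}

/-- `Der P X k w`: with the right-linear rules `P` (a rule `(X, w, some Y)` is `X → w Y` and a rule
`(X, w, none)` is `X → w`), `X` derives the terminal word `w` in exactly `k` steps. -/
inductive Der {N τ : Type} (P : Set (N × List τ × Option N)) : Option N → ℕ → List τ → Prop
  | done : Der P none 0 []
  | step (X : N) (w : List τ) (Y : Option N) (k : ℕ) (v : List τ) :
      (X, w, Y) ∈ P → Der P Y k v → Der P (some X) (k + 1) (w ++ v)

/-- The languages of `m`-parallel right-linear grammars: a start rule `S → X₁ ⋯ X_m` is followed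
by parallel rewriting, so all `X_i` derive their words in the same number of steps. -/
def PRL (m : ℕ) (τ : Type) : Set (Set (List τ)) :=
  {L | ∃ (N : Type) (_ : Finite N) (S : Set (List N)) (P : Set (N × List τ × Option N)),
    P.Finite ∧ (∀ Xs ∈ S, Xs.length = m) ∧
    L = {w | ∃ Xs ∈ S, ∃ (k : ℕ) (ws : List (List τ)),
      List.Forall₂ (fun X v => Der P (some X) k v) Xs ws ∧ w = ws.flatten}}

end Pool.Agent.H24.Spd
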