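import Pool.Agent.H24.Spd3
import Pool.Agent.H24.SpcDefs

set_option autoImplicit false

namespace Pool.Agent.H24.Spd

section rt
variable {I A : Type}

inductive Pr (X : I → List A → Prop) : List I → List A → Prop
  | nil : Pr X [] []
  | cons (i : I) (γ : List I) (u v : List A) : X i u → Pr X γ v → Pr X (i :: γ) (u ++ v)

inductive RT (P : I × A × List I → Prop) : List I → List (I × A × List I) → Prop
  | nil : RT P [] []
  | cons (t : I × A × List I) (β : List I) (ts : List (I × A × List I)) :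
      P t → RT P (t.2.2 ++ β) ts → RT P (t.1 :: β) (t :: ts)

lemma Pr.append {X : I → List A → Prop} {γ β : List I} {u v : List A} (h : Pr X γ u)
    (h' : Pr X β v) : Pr X (γ ++ β) (u ++ v) := by
  induction h with
  | nil => exact h'
  | cons i γ u w a _ ih => rw [List.append_assoc]; exact Pr.cons i _ u _ a ih

lemma Pr.inv {X : I → List A → Prop} {α : List I} {w : List A} (h : Pr X α w) :
    (α = [] ∧ w = []) ∨ ∃ i γ u v, α = i :: γ ∧ w = u ++ v ∧ X i u ∧ Pr X γ v := by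
  cases h with
  | nil => exact Or.inl ⟨rfl, rfl⟩
  | cons i γ u v a b => exact Or.inr ⟨i, γ, u, v, rfl, rfl, a, b⟩

lemma Pr.inv' {X : I → List A → Prop} {i : I} {γ : List I} {w : List A} (h : Pr X (i :: γ) w) :
    ∃ u v, w = u ++ v ∧ X i u ∧ Pr X γ v := by
  rcases h.inv with ⟨a, -⟩ | ⟨j, γ', u, v, a, b, c, d⟩
  · simp at a
  · obtain ⟨rfl, rfl⟩ := List.cons.inj a
    exact ⟨u, v, b, c, d⟩

lemma Pr.inv0 {X : I → List A → Prop} {w : List A} (h : Pr X [] w) : w = [] := by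
  rcases h.inv with ⟨-, a⟩ | ⟨j, γ', u, v, a, -⟩
  · exact a
  · simp at a

lemma Pr.split {X : I → List A → Prop} (γ : List I) : ∀ {β : List I} {w : List A},
    Pr X (γ ++ β) w → ∃ u v, w = u ++ v ∧ Pr X γ u ∧ Pr X β v := by
  induction γ with
  | nil => exact fun h => ⟨[], _, rfl, Pr.nil, h⟩
  | cons i γ ih =>
    intro β w h
    obtain ⟨u, v, rfl, a, b⟩ := Pr.inv' h
    obtain ⟨v1, v2, rfl, c, d⟩ := ih b
    exact ⟨u ++ v1, v2, by simp, Pr.cons i γ u v1 a c, d⟩

def pos (X : I → List A → Prop) (i : I) (u : List A) : Prop := X i u ∧ u ≠ []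

lemma Pr.filt {X : I → List A → Prop} {γ0 : List I} {u : List A} (h : Pr X γ0 u) :
    ∃ γ, γ.length ≤ γ0.length ∧ Pr (pos X) γ u ∧ ∀ v, Pr (pos X) γ v → Pr X γ0 v := by
  induction h with
  | nil => exact ⟨[], le_rfl, Pr.nil, fun v hv => hv.inv0 ▸ Pr.nil⟩
  | cons i γ u w a _ ih =>
    obtain ⟨γ', b, c, d⟩ := ih
    by_cases hu : u = []
    · subst hu
      exact ⟨γ', by simp; omega, c, fun v hv => Pr.cons i γ [] v a (d v hv)⟩
    · refine ⟨i :: γ', by simpa using b, Pr.cons i _ u w ⟨a, hu⟩ c, fun v hv => ?_⟩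
      obtain ⟨v1, v2, rfl, e, f⟩ := hv.inv'
      exact Pr.cons i γ v1 v2 e.1 (d _ f)

def PP (X : I → List A → Prop) (l : ℕ) (t : I × A × List I) : Prop :=
  t.2.2.length ≤ l ∧ ∀ v, Pr (pos X) t.2.2 v → X t.1 (t.2.1 :: v)

lemma rt_sound {X : I → List A → Prop} {l : ℕ} {α : List I} {ts : List (I × A × List I)}
    (h : RT (PP X l) α ts) : Pr (pos X) α (ts.map (·.2.1)) := by
  induction h with
  | nil => exact Pr.nil
  | cons t β ts a _ ih =>
    obtain ⟨u, v, e, b, c⟩ := Pr.split _ ih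
    rw [List.map_cons, e]
    exact Pr.cons t.1 β (t.2.1 :: u) v ⟨a.2 u b, by simp⟩ c

lemma rt_complete {X : I → List A → Prop} {l : ℕ}
    (H : ∀ i a v, X i (a :: v) → ∃ γ : List I, γ.length ≤ l ∧ Pr X γ v ∧
      ∀ v', Pr X γ v' → X i (a :: v')) (w : List A) :
    ∀ α, Pr (pos X) α w → ∃ ts, RT (PP X l) α ts ∧ ts.map (·.2.1) = w := by
  induction w with
  | nil =>
    intro α h
    rcases h.inv with ⟨rfl, -⟩ | ⟨i, γ, u, v, -, b, c, -⟩
    · exact ⟨[], RT.nil, rfl⟩
    · exact absurd (List.append_eq_nil_iff.1 b.symm).1 c.2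
  | cons a w ih =>
    intro α h
    rcases h.inv with ⟨-, b⟩ | ⟨i, β, u, v, rfl, b, c, d⟩
    · simp at b
    · cases u with
      | nil => exact absurd rfl c.2
      | cons a' u =>
        obtain ⟨rfl, rfl⟩ := List.cons.inj b
        obtain ⟨γ0, e1, e2, e3⟩ := H i a u c.1
        obtain ⟨γ, f1, f2, f3⟩ := e2.filt
        obtain ⟨ts, g1, g2⟩ := ih _ (f2.append d)
        exact ⟨(i, a, γ) :: ts, RT.cons (i, a, γ) β ts ⟨f1.trans e1, fun v hv => e3 v (f3 v hv)⟩ g1,
          by simp [g2]⟩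

end rt

section gr
variable {N A : Type} (lf : N → Prop) (nd : N → List A → N → N → Prop)

inductive LL : N → List A → Prop
  | leaf (a : N) : lf a → LL a []
  | node (a : N) (x : List A) (b c : N) (u v : List A) : nd a x b c → LL b u → LL c v →
      LL a (x ++ (u ++ v))

inductive Qd : N → N → List A → Prop
  | refl (a : N) : Qd a a []
  | left (a b c d : N) (u v : List A) : nd a [] b c → Qd b d u → LL lf nd c v → Qd a d (u ++ v)
  | right (a b c d : N) (u : List A) : nd a [] b c → LL lf nd b [] → Qd c d u → Qd a d u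

variable {lf nd}

lemma QL {a d : N} {w u : List A} (h : Qd lf nd a d w) (h' : LL lf nd d u) :
    LL lf nd a (u ++ w) := by
  induction h with
  | refl a => simpa using h'
  | left a b c d w v p _ q ih => simpa using LL.node a [] b c _ _ p (ih h') q
  | right a b c d w p q _ ih => simpa using LL.node a [] b c _ _ p q (ih h')

lemma QQ {a d e : N} {w u : List A} (h : Qd lf nd a d w) (h' : Qd lf nd d e u) :
    Qd lf nd a e (u ++ w) := by
  induction h with
  | refl a => simpa using h'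
  | left a b c d w v p _ q ih => simpa using Qd.left a b c e _ _ p (ih h') q
  | right a b c d w p q _ ih => exact Qd.right a b c e _ p q (ih h')

lemma C1 {a : N} {w : List A} (h : LL lf nd a w) : ∀ s v, w = s :: v →
    ∃ d x b c u1 u2 y, nd d (s :: x) b c ∧ LL lf nd b u1 ∧ LL lf nd c u2 ∧ Qd lf nd a d y ∧
      v = x ++ (u1 ++ (u2 ++ y)) := by
  induction h with
  | leaf a _ => intro s v h; simp at h
  | node a x b c u v p q r ih1 ih2 =>
    intro s v' h
    cases x with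
    | cons s' x =>
      obtain ⟨rfl, rfl⟩ := List.cons.inj h
      exact ⟨a, x, b, c, u, v, [], p, q, r, Qd.refl a, by simp⟩
    | nil =>
      cases u with
      | nil =>
        obtain ⟨d, x, b', c', u1, u2, y, e1, e2, e3, e4, e5⟩ := ih2 s v' h
        exact ⟨d, x, b', c', u1, u2, y, e1, e2, e3, Qd.right a b c d y p q e4, e5⟩
      | cons s' u =>
        obtain ⟨rfl, rfl⟩ := List.cons.inj h
        obtain ⟨d, x, b', c', u1, u2, y, e1, e2, e3, e4, rfl⟩ := ih1 s' u rfl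
        exact ⟨d, x, b', c', u1, u2, y ++ v, e1, e2, e3, Qd.left a b c d y v p e4 r, by simp⟩

lemma C2 {a d : N} {w : List A} (h : Qd lf nd a d w) : ∀ s v, w = s :: v →
    ∃ b' b c v1 v2, nd b' [] b c ∧ Qd lf nd b d [] ∧ LL lf nd c (s :: v1) ∧ Qd lf nd a b' v2 ∧
      v = v1 ++ v2 := by
  induction h with
  | refl a => intro s v h; simp at h
  | left a b c d u v p q r ih =>
    intro s v' h
    cases u with
    | nil =>
      obtain rfl : v = s :: v' := h
      exact ⟨a, b, c, v', [], p, q, r, Qd.refl a, by simp⟩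
    | cons s' u =>
      obtain ⟨rfl, rfl⟩ := List.cons.inj h
      obtain ⟨b', b1, c1, v1, v2, e1, e2, e3, e4, rfl⟩ := ih s' u rfl
      exact ⟨b', b1, c1, v1, v2 ++ v, e1, e2, e3, Qd.left a b c b' v2 v p e4 r, by simp⟩
  | right a b c d u p q _ ih =>
    intro s v' h
    obtain ⟨b', b1, c1, v1, v2, e1, e2, e3, e4, e5⟩ := ih s v' h
    exact ⟨b', b1, c1, v1, v2, e1, e2, e3, Qd.right a b c b' v2 p q e4, e5⟩

variable (lf nd)

def fam : N ⊕ (N × N) ⊕ A → List A → Prop
  | .inl a => LL lf nd a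
  | .inr (.inl p) => Qd lf nd p.1 p.2
  | .inr (.inr s) => fun u => u = [s]

variable {lf nd}

lemma pr_word (x : List A) : ∀ v, Pr (fam lf nd) (x.map fun s => .inr (.inr s)) v ↔ v = x := by
  induction x with
  | nil => exact fun v => ⟨fun h => h.inv0, fun h => by rw [h]; exact Pr.nil⟩
  | cons s x ih =>
    refine fun v => ⟨fun h => ?_, fun h => ?_⟩
    · obtain ⟨u, w, rfl, a, b⟩ := Pr.inv' h
      obtain rfl : u = [s] := a
      rw [(ih w).1 b]; rfl
    · subst h
      exact Pr.cons _ _ [s] x rfl ((ih x).2 rfl)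

lemma famL {l : ℕ} (hl : ∀ a x b c, nd a x b c → x.length ≤ l) (a : N) (s : A) (v : List A)
    (h : LL lf nd a (s :: v)) : ∃ γ, γ.length ≤ l + 3 ∧ Pr (fam lf nd) γ v ∧
      ∀ v', Pr (fam lf nd) γ v' → LL lf nd a (s :: v') := by
  obtain ⟨d, x, b, c, u1, u2, y, e1, e2, e3, e4, rfl⟩ := C1 h s v rfl
  refine ⟨(x.map fun s => .inr (.inr s)) ++ [.inl b, .inl c, .inr (.inl (a, d))], ?_, ?_, ?_⟩
  · have := hl _ _ _ _ e1
    simp at this ⊢
    omega
  · refine Pr.append ((pr_word x x).2 rfl) (Pr.cons _ _ _ _ e2 (Pr.cons _ _ _ _ e3 ?_))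
    simpa using Pr.cons (X := fam lf nd) (.inr (.inl (a, d))) [] y [] e4 Pr.nil
  · intro v' hv
    obtain ⟨x', w, rfl, f1, f2⟩ := Pr.split _ hv
    obtain rfl := (pr_word x x').1 f1
    obtain ⟨w1, w, rfl, g1, f2⟩ := f2.inv'
    obtain ⟨w2, w, rfl, g2, f2⟩ := f2.inv'
    obtain ⟨w3, w, rfl, g3, f2⟩ := f2.inv'
    obtain rfl := f2.inv0
    simpa using QL g3 (LL.node d _ b c w1 w2 e1 g1 g2)

lemma famH {l : ℕ} (hl : ∀ a x b c, nd a x b c → x.length ≤ l) :
    ∀ i s v, fam lf nd i (s :: v) → ∃ γ, γ.length ≤ l + 4 ∧ Pr (fam lf nd) γ v ∧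
      ∀ v', Pr (fam lf nd) γ v' → fam lf nd i (s :: v') := by
  rintro (a | ⟨a, d⟩ | s') s v h
  · obtain ⟨γ, e1, e2⟩ := famL hl a s v h
    exact ⟨γ, by omega, e2⟩
  · obtain ⟨b', b, c, v1, v2, e1, e2, e3, e4, rfl⟩ := C2 h s v rfl
    obtain ⟨γ, f1, f2, f3⟩ := famL hl c s v1 e3
    refine ⟨γ ++ [.inr (.inl (a, b'))], by simp; omega, f2.append ?_, fun v' hv => ?_⟩
    · simpa using Pr.cons (X := fam lf nd) (.inr (.inl (a, b'))) [] v2 [] e4 Pr.nil
    · obtain ⟨w1, w, rfl, g1, g2⟩ := Pr.split _ hv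
      obtain ⟨w3, w, rfl, g3, g2⟩ := g2.inv'
      obtain rfl := g2.inv0
      have := QQ g3 (Qd.left b' b c d [] _ e1 e2 (f3 w1 g1))
      show Qd lf nd a d _
      simpa using this
  · obtain ⟨rfl, rfl⟩ := List.cons.inj (show s :: v = [s'] from h)
    exact ⟨[], by simp, Pr.nil, fun v' hv => by rw [hv.inv0]; rfl⟩

end gr

end Pool.Agent.H24.Spd
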