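import Pool.Agent.H24.Spc1

set_option autoImplicit false

namespace Pool.Agent.H24.Spd

section pda
variable {A Q Γ : Type} {δ : Set (Rule A Q Γ)}

lemma Comp.app {γ β : List Γ} {q s p : Q} {u v : List A} {μ ν : List (Rule A Q Γ)}
    (h : Comp δ γ q u μ s) (h' : Comp δ β s v ν p) : Comp δ (γ ++ β) q (u ++ v) (μ ++ ν) p := by
  induction h with
  | nil f => exact h'
  | cons r γ u μ f a _ ih =>
    rw [List.append_assoc]
    exact Comp.cons r (γ ++ β) _ _ _ a (by simpa using ih h')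

lemma Comp.inv0 {α : List Γ} {q p : Q} {w : List A} (h : Comp δ α q w [] p) :
    α = [] ∧ w = [] ∧ q = p := by
  cases h
  exact ⟨rfl, rfl, rfl⟩

lemma Comp.spl (μ : List (Rule A Q Γ)) : ∀ (γ β : List Γ) (q p : Q) (w : List A),
    Comp δ (γ ++ β) q w μ p → ∃ s u v μ1 μ2, Comp δ γ q u μ1 s ∧ Comp δ β s v μ2 p ∧
      w = u ++ v ∧ μ.length = μ1.length + μ2.length := by
  induction μ with
  | nil =>
    intro γ β q p w h
    obtain ⟨a, rfl, rfl⟩ := h.inv0
    obtain ⟨rfl, rfl⟩ := List.append_eq_nil_iff.1 a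
    exact ⟨q, [], [], [], [], Comp.nil _, Comp.nil _, rfl, rfl⟩
  | cons r μ ih =>
    intro γ β q p w h
    cases γ with
    | nil => exact ⟨q, [], w, [], r :: μ, Comp.nil _, h, rfl, by simp⟩
    | cons Z γ =>
      obtain ⟨a, β', v, b, rfl, rfl, c⟩ := Comp.inv h
      obtain ⟨rfl, rfl⟩ := List.cons.inj b
      obtain ⟨s, u, v', μ1, μ2, d, e, rfl, f⟩ := ih (r.push ++ γ) β _ _ _ (by simpa using c)
      exact ⟨s, r.inp ++ u, v', r :: μ1, μ2, Comp.cons r γ u μ1 s a d, e, by simp,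
        by simp; omega⟩

end pda

section conv
variable {A : Type} (M : SPDA A) (l : ℕ)

abbrev NT : Type := Option (M.Q × {α : List M.Γ // α.length ≤ l + 1} × M.Q)

def lfM : NT M l → Prop
  | none => False
  | some t => t.2.1.1 = [] ∧ t.1 = t.2.2

def ndM : NT M l → List A → NT M l → NT M l → Prop
  | none, x, some b, some c => x = [] ∧ b.1 = M.q0 ∧ b.2.1.1 = [M.Z0] ∧ b.2.2 ∈ M.F ∧
      c.2.1.1 = [] ∧ c.1 = c.2.2
  | some a, x, some b, some c => ∃ r ∈ M.δ, a.2.1.1 = r.top :: c.2.1.1 ∧ a.1 = r.src ∧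
      x = r.inp ∧ b.2.1.1 = r.push ∧ b.1 = r.dst ∧ b.2.2 = c.1 ∧ c.2.2 = a.2.2
  | _, _, _, _ => False

def sem : NT M l → List A → Prop
  | none, w => ∃ f ∈ M.F, ∃ μ, Comp M.δ [M.Z0] M.q0 w μ f
  | some t, w => ∃ μ, Comp M.δ t.2.1.1 t.1 w μ t.2.2

lemma sem_of {a : NT M l} {w : List A} (h : LL (lfM M l) (ndM M l) a w) : sem M l a w := by
  induction h with
  | leaf a h =>
    cases a with
    | none => exact h.elim
    | some t => exact ⟨[], by rw [h.1, h.2]; exact Comp.nil _⟩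
  | node a x b c u v p _ _ ih1 ih2 =>
    cases b with
    | none => cases a <;> exact p.elim
    | some b =>
      cases c with
      | none => cases a <;> exact p.elim
      | some c =>
        obtain ⟨μ, h1⟩ := ih1
        obtain ⟨ν, h2⟩ := ih2
        cases a with
        | none =>
          obtain ⟨rfl, p1, p2, p3, p4, p5⟩ := p
          rw [p1, p2] at h1
          rw [p4] at h2
          cases ν with
          | nil =>
            obtain ⟨-, rfl, -⟩ := h2.inv0
            exact ⟨_, p3, μ, by simpa using h1⟩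
          | cons r ν =>
            obtain ⟨-, β, v', e, -⟩ := Comp.inv h2
            simp at e
        | some a =>
          obtain ⟨r, p0, p1, p2, rfl, p3, p4, p5, p6⟩ := p
          rw [p3, p4, p5] at h1
          rw [p6] at h2
          refine ⟨r :: (μ ++ ν), ?_⟩
          rw [p1, p2]
          exact Comp.cons r _ _ _ _ p0 (h1.app h2)

lemma of_comp (hl : ∀ r ∈ M.δ, r.push.length ≤ l + 1) (k : ℕ) :
    ∀ (μ : List (Rule A M.Q M.Γ)) (α : {α : List M.Γ // α.length ≤ l + 1}) q p w,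
      μ.length < k → Comp M.δ α.1 q w μ p → LL (lfM M l) (ndM M l) (some (q, α, p)) w := by
  induction k with
  | zero => intro μ α q p w h; omega
  | succ k ih =>
    intro μ α q p w hk h
    cases μ with
    | nil =>
      obtain ⟨a, rfl, rfl⟩ := h.inv0
      exact LL.leaf _ ⟨a, rfl⟩
    | cons r μ =>
      obtain ⟨a, β, v, b, rfl, rfl, c⟩ := Comp.inv h
      obtain ⟨s, u, v', μ1, μ2, d, e, rfl, f⟩ := Comp.spl μ _ _ _ _ _ c
      have hβ : β.length ≤ l + 1 := by
        have := α.2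
        rw [b] at this
        simp at this
        omega
      simp only [List.length_cons] at hk
      exact LL.node _ _ (some (r.dst, ⟨r.push, hl r a⟩, s)) (some (s, ⟨β, hβ⟩, p)) u v'
        ⟨r, a, b, rfl, rfl, rfl, rfl, rfl, rfl⟩ (ih μ1 _ _ _ _ (by omega) d)
        (ih μ2 _ _ _ _ (by omega) e)

end conv

theorem realtime {A : Type} [Finite A] {K : Set (List A)} (hK : K ∈ CF A) :
    ∃ (I : Type) (_ : Finite I) (P : I × A × List I → Prop) (i0 : I), {t | P t}.Finite ∧
      ∀ w, w ≠ [] → (w ∈ K ↔ ∃ ts, RT P [i0] ts ∧ ts.map (·.2.1) = w) := by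
  obtain ⟨M, rfl⟩ := hK
  have := M.finQ
  have := M.finΓ
  obtain ⟨l, hl⟩ := (M.finδ.image fun r => r.inp.length + r.push.length).bddAbove
  have hl' : ∀ r ∈ M.δ, r.inp.length + r.push.length ≤ l := fun r hr => hl ⟨r, hr, rfl⟩
  have : Finite {α : List M.Γ // α.length ≤ l + 1} := (List.finite_length_le M.Γ (l + 1)).to_subtype
  refine ⟨NT M l ⊕ (NT M l × NT M l) ⊕ A, inferInstance, PP (fam (lfM M l) (ndM M l)) (l + 4),
    .inl none, ?_, fun w hw => ⟨?_, ?_⟩⟩
  · exact (Set.finite_univ.prod (Set.finite_univ.prod (List.finite_length_le _ (l + 4)))).subset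
      fun t ht => ⟨trivial, trivial, ht.1⟩
  · rintro ⟨f, hf, μ, h⟩
    refine rt_complete (famH ?_) w _ ?_
    · rintro (_ | a) x (_ | b) (_ | c) p <;> try exact p.elim
      · simp [p.1]
      · obtain ⟨r, p0, -, -, rfl, -⟩ := p
        have := hl' r p0
        omega
    · have h1 := of_comp M l (fun r hr => by have := hl' r hr; omega) _ μ ⟨[M.Z0], by simp⟩ _ _ _
        (Nat.lt_succ_self _) h
      have h2 := LL.node (lf := lfM M l) (nd := ndM M l) none []
        (some (M.q0, ⟨[M.Z0], by simp⟩, f)) (some (f, ⟨[], by simp⟩, f)) w []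
        ⟨rfl, rfl, rfl, hf, rfl, rfl⟩ h1 (LL.leaf _ ⟨rfl, rfl⟩)
      simpa using Pr.cons (X := pos (fam (lfM M l) (ndM M l))) (.inl none) [] w []
        ⟨show LL (lfM M l) (ndM M l) none w by simpa using h2, hw⟩ Pr.nil
  · rintro ⟨ts, h, rfl⟩
    obtain ⟨u, v, e, a, b⟩ := (rt_sound h).inv'
    obtain rfl := b.inv0
    rw [e, List.append_nil]
    exact sem_of M l a.1

end Pool.Agent.H24.Spd
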