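import Pool.Agent.H24.Spc2

set_option autoImplicit false

namespace Pool.Agent.H24.Spd

def enc {τ : Type} (us : List (List τ)) : List (Option τ) :=
  (us.map fun u => u.map some ++ [none]).flatten

section two
variable {σ τ I : Type} (n : ℕ) (h : Option τ → List σ) (P : I × Option τ × List I → Prop)

abbrev SS : Type := Fin (n + 3) × Bool

def nxs (s : SS n) (a : Option τ) : SS n :=
  (⟨min (s.1.1 + if a.isNone then 1 else 0) (n + 2), by omega⟩, a.isNone)

def lf2 (t : I × Option τ × List I) (s : SS n) : Rule σ (SS n) I :=
  ⟨t.1, s, h t.2.1, t.2.2, nxs n s t.2.1⟩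

def lL : SS n → List (I × Option τ × List I) → List (Rule σ (SS n) I)
  | _, [] => []
  | s, t :: ts => lf2 n h t s :: lL (nxs n s t.2.1) ts

def en (s : SS n) (ts : List (I × Option τ × List I)) : SS n :=
  (ts.map (·.2.1)).foldl (nxs n) s

def lB : SS n → List (List (I × Option τ × List I)) → List (List (Rule σ (SS n) I))
  | _, [] => []
  | s, b :: bs => lL n h s b :: lB (en n s b) bs

def δ2 : Set (Rule σ (SS n) I) := Set.image2 (lf2 n h) {t | P t} Set.univ

def R2 (ρ ρ' : Rule σ (SS n) I) : Prop := ρ'.src.1.1 = ρ.src.1.1 + 1 ∧ ρ'.src.2 = true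

variable {n h P}

lemma up2 {α : List I} {ts : List (I × Option τ × List I)} (c : RT P α ts) :
    ∀ s, Comp (δ2 n h P) α s ((ts.map (·.2.1)).flatMap h) (lL n h s ts) (en n s ts) := by
  induction c with
  | nil => exact fun s => Comp.nil _
  | cons t β ts a _ ih =>
    exact fun s => Comp.cons (lf2 n h t s) β _ _ _ ⟨t, a, s, trivial, rfl⟩ (ih _)

lemma down2 {α : List I} {s f : SS n} {w : List σ} {μ : List (Rule σ (SS n) I)}
    (c : Comp (δ2 n h P) α s w μ f) : ∃ ts, RT P α ts ∧ μ = lL n h s ts ∧ f = en n s ts ∧
      w = (ts.map (·.2.1)).flatMap h := by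
  induction c with
  | nil f => exact ⟨[], RT.nil, rfl, rfl, rfl⟩
  | cons ρ β v μ f a _ ih =>
    obtain ⟨t, a, s, -, rfl⟩ := a
    obtain ⟨ts, b, rfl, rfl, rfl⟩ := ih
    exact ⟨t :: ts, RT.cons t β ts a b, rfl, rfl, rfl⟩

lemma en_app (s : SS n) (a b : List (I × Option τ × List I)) :
    en n s (a ++ b) = en n (en n s a) b := by simp [en]

lemma lL_app (a b : List (I × Option τ × List I)) :
    ∀ s, lL n h s (a ++ b) = lL n h s a ++ lL n h (en n s a) b := by
  induction a with
  | nil => exact fun p => rfl
  | cons r a ih => intro p; simp [lL, en, ih]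

lemma lL_len (a : List (I × Option τ × List I)) : ∀ s, (lL n h s a).length = a.length := by
  induction a with
  | nil => exact fun p => rfl
  | cons r a ih => intro p; simp [lL, ih]

lemma lL_split (a b : List (Rule σ (SS n) I)) : ∀ s ts,
    a ++ b = lL n h s ts → ∃ t1 t2, ts = t1 ++ t2 ∧ a = lL n h s t1 ∧
      b = lL n h (en n s t1) t2 := by
  induction a with
  | nil => exact fun p μ h => ⟨[], μ, rfl, rfl, h⟩
  | cons ρ a ih =>
    intro p μ e
    cases μ with
    | nil => simp [lL] at e
    | cons r μ =>
      obtain ⟨rfl, h'⟩ := List.cons.inj e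
      obtain ⟨μ1, μ2, rfl, rfl, rfl⟩ := ih _ _ h'
      exact ⟨r :: μ1, μ2, rfl, rfl, rfl⟩

lemma lB_flat (bs : List (List (I × Option τ × List I))) :
    ∀ s, (lB n h s bs).flatten = lL n h s bs.flatten := by
  induction bs with
  | nil => exact fun p => rfl
  | cons b bs ih => intro p; simp [lB, lL_app, ih]

lemma lB_len (bs : List (List (I × Option τ × List I))) : ∀ s,
    (lB n h s bs).map List.length = bs.map List.length := by
  induction bs with
  | nil => exact fun p => rfl
  | cons b bs ih => intro p; simp [lB, lL_len, ih]

lemma lB_split (bs' : List (List (Rule σ (SS n) I))) : ∀ s ts,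
    bs'.flatten = lL n h s ts → ∃ bs, bs' = lB n h s bs ∧ ts = bs.flatten := by
  induction bs' with
  | nil =>
    intro p μ e
    cases μ with
    | nil => exact ⟨[], rfl, rfl⟩
    | cons r μ => simp [lL] at e
  | cons b bs' ih =>
    intro p μ e
    obtain ⟨μ1, μ2, rfl, rfl, h'⟩ := lL_split b bs'.flatten p μ e
    obtain ⟨bs, rfl, rfl⟩ := ih _ _ h'
    exact ⟨μ1 :: bs, rfl, rfl⟩

lemma fold_mono (x : List (Option τ)) : ∀ s : SS n, s.1.1 ≤ (x.foldl (nxs n) s).1.1 := by
  induction x with
  | nil => exact fun s => le_rfl
  | cons a x ih =>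
    intro s
    have := ih (nxs n s a)
    have h2 := s.1.2
    simp only [nxs] at this
    rw [List.foldl_cons]
    refine le_trans ?_ this
    split_ifs <;> omega

lemma fold_same (x : List (Option τ)) : ∀ s : SS n, s.1.1 ≤ n + 1 →
    (x.foldl (nxs n) s).1.1 = s.1.1 → (x.foldl (nxs n) s).2 = true → x = [] ∧ s.2 = true := by
  induction x with
  | nil => exact fun s _ _ h => ⟨rfl, h⟩
  | cons a x ih =>
    intro s h1 h2 h3
    rw [List.foldl_cons] at h2 h3
    have hm := fold_mono x (nxs n s a)
    cases a with
    | none => simp only [nxs, Option.isNone_none, if_true] at hm h2; omega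
    | some a =>
      have e : (nxs n s (some a)).1.1 = s.1.1 := by simp [nxs]; omega
      have := (ih _ (by omega) (by omega) h3).2
      simp [nxs] at this

lemma fold_one (x : List (Option τ)) : ∀ s : SS n, s.1.1 ≤ n →
    (x.foldl (nxs n) s).1.1 = s.1.1 + 1 → (x.foldl (nxs n) s).2 = true →
    ∃ u : List τ, x = u.map some ++ [none] := by
  induction x with
  | nil => intro s _ h; simp at h
  | cons a x ih =>
    intro s h1 h2 h3
    rw [List.foldl_cons] at h2 h3
    cases a with
    | none =>
      have e : (nxs n s (none : Option τ)).1.1 = s.1.1 + 1 := by simp [nxs]; omega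
      exact ⟨[], by rw [(fold_same x _ (by omega) (by omega) h3).1]; rfl⟩
    | some a =>
      have e : (nxs n s (some a)).1.1 = s.1.1 := by simp [nxs]; omega
      obtain ⟨u, rfl⟩ := ih _ (by omega) (by omega) h3
      exact ⟨a :: u, rfl⟩

lemma fold_some (u : List τ) : ∀ s : SS n, ((u.map some).foldl (nxs n) s).1.1 = s.1.1 := by
  induction u with
  | nil => exact fun s => rfl
  | cons a u ih =>
    intro s
    have := s.1.2
    rw [List.map_cons, List.foldl_cons, ih]
    simp [nxs]; omega

lemma fold_blk (u : List τ) (s : SS n) (hs : s.1.1 ≤ n + 1) :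
    ((u.map some ++ [none]).foldl (nxs n) s).1.1 = s.1.1 + 1 ∧
      ((u.map some ++ [none]).foldl (nxs n) s).2 = true := by
  have := fold_some (n := n) u s
  rw [List.foldl_append]
  simp only [List.foldl_cons, List.foldl_nil, nxs, Option.isNone_none, if_true, this]
  exact ⟨by omega, trivial⟩

lemma head_src {s : SS n} {b : List (I × Option τ × List I)} {ρ : Rule σ (SS n) I}
    (e : (lL n h s b).head? = some ρ) : ρ.src = s := by
  cases b with
  | nil => simp [lL] at e
  | cons t b =>
    obtain rfl : lf2 n h t s = ρ := by simpa [lL] using e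
    rfl

lemma sound2 (bs : List (List (I × Option τ × List I))) : ∀ b (s : SS n),
    List.IsChain (hrel (R2 n)) (lB n h s (b :: bs)) → s.1.1 + bs.length = n →
    (en n s (b :: bs).flatten).1.1 = n + 1 → (en n s (b :: bs).flatten).2 = true →
    ∃ us : List (List τ), (b :: bs).map (List.map (·.2.1)) =
      us.map fun u => u.map some ++ [none] := by
  induction bs with
  | nil =>
    intro b s _ h1 h2 h3
    simp only [List.flatten_cons, List.flatten_nil, List.append_nil, List.length_nil] at h1 h2 h3
    obtain ⟨u, e⟩ := fold_one (τ := τ) (b.map fun t : I × Option τ × List I => t.2.1) s (by omega)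
      (by unfold en at h2; omega) h3
    exact ⟨[u], by simp [e]⟩
  | cons b' bs ih =>
    intro b s hc h1 h2 h3
    obtain ⟨⟨ρ, ρ', e1, e2, e3, e4⟩, hc'⟩ := List.isChain_cons_cons.1 hc
    rw [head_src e1, head_src e2] at e3
    rw [head_src e2] at e4
    simp only [List.length_cons] at h1
    rw [List.flatten_cons, en_app] at h2 h3
    obtain ⟨us, e⟩ := ih b' (en n s b) hc' (by omega) h2 h3
    obtain ⟨u, e'⟩ := fold_one (τ := τ) (b.map fun t : I × Option τ × List I => t.2.1) s (by omega) e3 e4
    exact ⟨u :: us, by rw [List.map_cons, e, e']; rfl⟩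

lemma compl2 (us : List (List τ)) : ∀ (ts : List (I × Option τ × List I)) (s : SS n),
    ts.map (·.2.1) = enc us → s.1.1 + us.length ≤ n + 2 →
    ∃ bs, ts = bs.flatten ∧ bs.map (List.map (·.2.1)) = (us.map fun u => u.map some ++ [none]) ∧
      List.IsChain (hrel (R2 n)) (lB n h s bs) ∧ (en n s ts).1.1 = s.1.1 + us.length ∧
      (us ≠ [] → (en n s ts).2 = true) := by
  induction us with
  | nil =>
    intro ts s e _
    obtain rfl : ts = [] := by simpa [enc] using e
    exact ⟨[], rfl, rfl, by simp [lB], rfl, by simp⟩
  | cons u us ih =>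
    intro ts s e hs
    obtain ⟨t1, t2, rfl, e1, e2⟩ := List.map_eq_append_iff.1
      (show ts.map (·.2.1) = (u.map some ++ [none]) ++ enc us from e)
    simp only [List.length_cons] at hs ⊢
    have f := fold_blk u s (by omega)
    rw [← e1] at f
    have f1 : (en n s t1).1.1 = s.1.1 + 1 := f.1
    have f2 : (en n s t1).2 = true := f.2
    obtain ⟨bs, rfl, g1, g2, g3, g4⟩ := ih t2 (en n s t1) e2 (by omega)
    refine ⟨t1 :: bs, rfl, by rw [List.map_cons, g1, e1]; rfl, ?_, by rw [en_app]; omega,
      fun _ => ?_⟩
    · cases bs with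
      | nil => simp [lB]
      | cons b bs =>
        refine List.isChain_cons_cons.2 ⟨?_, g2⟩
        cases t1 with
        | nil => simp at e1
        | cons t t1 =>
          cases b with
          | nil =>
            cases us with
            | nil => simp at g1
            | cons u' us => simp at g1
          | cons t' b => exact ⟨_, _, rfl, rfl, f1, f2⟩
    · rw [en_app]
      cases us with
      | nil =>
        obtain rfl : bs = [] := by simpa using g1
        exact f2
      | cons u' us => exact g4 (by simp)

lemma first2 (c : List (I × Option τ × List I)) : ∀ (u : List τ) (s : SS n),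
    c.map (·.2.1) = u.map some → ∀ ρ ∈ lL n h s c, ρ.dst.2 = false := by
  induction c with
  | nil => intro u s _ ρ hρ; simp [lL] at hρ
  | cons t c ih =>
    intro u s e ρ hρ
    cases u with
    | nil => simp at e
    | cons a u =>
      obtain ⟨e1, e2⟩ := List.cons.inj e
      rcases List.mem_cons.1 hρ with rfl | hρ
      · simp only [lf2, nxs]
        rw [show t.2.1 = some a from e1]
        rfl
      · exact ih u _ e2 ρ hρ

end two

theorem dir2 {σ τ : Type} [Finite τ] (n : ℕ) {K : Set (List (Option τ))} (hK : K ∈ CF (Option τ))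
    (h : Option τ → List σ) : (fun x => x.flatMap h) '' (K ∩ Blocks n τ) ∈ FSPDA n σ := by
  obtain ⟨I, hI, P, i0, hP, H⟩ := realtime hK
  refine ⟨⟨SS n, I, inferInstance, hI, δ2 n h P, hP.image2 _ Set.finite_univ, (0, false),
    (⟨1, by omega⟩, true), i0, {(⟨n + 1, by omega⟩, true)}, R2 n⟩, ?_⟩
  ext w
  constructor
  · rintro ⟨f, rfl, c, r, bs', h1, h2, h3, -, -, h6⟩
    obtain ⟨ts, a, b, e, rfl⟩ := down2 h1
    obtain ⟨bs0, e1, rfl⟩ := lB_split ((c ++ [r]) :: bs') _ ts b
    have hl := lB_len (n := n) (h := h) bs0 (0, false)
    rw [← e1] at hl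
    rw [e1] at h6
    cases bs0 with
    | nil => simp at hl
    | cons b0 bs =>
      have hl2 : bs.length = n := by
        have := congrArg List.length hl
        simp only [List.length_map, List.length_cons] at this
        omega
      obtain ⟨us, g⟩ := sound2 bs b0 (0, false) h6 (by simpa using hl2) (by rw [← e])
        (by rw [← e])
      have g2 : ((b0 :: bs).flatten.map (·.2.1)) = enc us := by
        rw [List.map_flatten, g]; rfl
      have g3 : us.length = n + 1 := by
        have := congrArg List.length g
        simp only [List.length_map, List.length_cons] at this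
        omega
      refine ⟨_, ⟨(H _ ?_).2 ⟨_, a, rfl⟩, c.length, us, g3, fun u hu => ?_, g2⟩, rfl⟩
      · rw [g2]
        cases us with
        | nil => simp at g3
        | cons u us => simp [enc]
      · have k1 : u.map some ++ [none] ∈ (b0 :: bs).map (List.map (·.2.1)) :=
          g ▸ List.mem_map_of_mem (f := fun u : List τ => u.map some ++ [none]) hu
        obtain ⟨b1, k2, k3⟩ := List.mem_map.1 k1
        have k4 : b1.length ∈ (b0 :: bs).map List.length := List.mem_map_of_mem k2
        rw [← hl] at k4
        obtain ⟨b2, k5, k6⟩ := List.mem_map.1 k4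
        have k7 := congrArg List.length k3
        simp only [List.length_map, List.length_append, List.length_singleton] at k7
        rcases List.mem_cons.1 k5 with rfl | k5
        · simp only [List.length_append, List.length_singleton] at k6
          omega
        · have := h3 b2 k5
          omega
  · rintro ⟨x, ⟨hx, k, us, g3, g4, rfl⟩, rfl⟩
    cases us with
    | nil => simp at g3
    | cons u us =>
      obtain ⟨ts, a, b⟩ := (H _ (by simp)).1 hx
      obtain ⟨bs, rfl, g1, g2, g5, g6⟩ := compl2 (n := n) (h := h) (u :: us) ts (0, false) b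
        (by simp at g3 ⊢; omega)
      cases bs with
      | nil => simp at g1
      | cons b0 bs =>
        obtain ⟨e1, e2⟩ := List.cons.inj g1
        beta_reduce at e1
        obtain ⟨c, t, rfl, e3, e4⟩ := List.map_eq_append_iff.1 e1
        obtain ⟨t, rfl, e5⟩ := List.map_eq_singleton_iff.1 e4
        have f := fold_blk u ((0, false) : SS n) (by simp)
        rw [← e1] at f
        have hc := up2 (n := n) (h := h) a (0, false)
        rw [← lB_flat] at hc
        have e6 : lL n h (0, false) (c ++ [t]) =
            lL n h (0, false) c ++ [lf2 n h t (en n (0, false) c)] := lL_app _ _ _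
        have hl := lB_len (n := n) (h := h) bs (en n (0, false) (c ++ [t]))
        have hk : c.length = k := by
          have := congrArg List.length e3
          simp only [List.length_map] at this
          rw [this, g4 u (by simp)]
        refine ⟨_, rfl, lL n h (0, false) c, lf2 n h t (en n (0, false) c),
          lB n h (en n (0, false) (c ++ [t])) bs, ?_, ?_, ?_, ?_, ?_, ?_⟩
        · rw [← e6, ← b]
          have e8 : en n (0, false) ((c ++ [t]) :: bs).flatten = (⟨n + 1, by omega⟩, true) :=
            Prod.ext (Fin.ext (g5.trans (by rw [g3]; simp))) (g6 (by simp))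
          rw [e8] at hc
          exact hc
        · have := congrArg List.length hl
          have h9 := congrArg List.length e2
          simp only [List.length_map, List.length_cons] at this h9 g3
          omega
        · intro b1 hb
          have k4 : b1.length ∈ (lB n h (en n (0, false) (c ++ [t])) bs).map List.length :=
            List.mem_map_of_mem hb
          rw [hl] at k4
          obtain ⟨b2, k5, k6⟩ := List.mem_map.1 k4
          have k1 : b2.map (·.2.1) ∈ us.map fun u => u.map some ++ [none] :=
            e2 ▸ List.mem_map_of_mem k5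
          obtain ⟨u', k2, k3⟩ := List.mem_map.1 k1
          have k7 := congrArg List.length k3
          have := g4 u' (by simp [k2])
          simp only [List.length_map, List.length_append, List.length_singleton] at k7
          rw [lL_len]
          omega
        · intro ρ hρ e
          have := first2 c u _ e3 ρ hρ
          rw [e] at this
          exact absurd this (by simp)
        · have e7 : (lf2 n h t (en n (0, false) c)).dst = en n (0, false) (c ++ [t]) := by
            simp [lf2, en]
          rw [e7]
          exact Prod.ext (Fin.ext f.1) f.2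
        · rw [← e6]
          exact g2

end Pool.Agent.H24.Spd
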