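import Pool.Agent.H24.Spc3

set_option autoImplicit false

namespace Pool.Agent.H24.Spd

section one
variable {σ : Type} (M : SPDA σ)

abbrev CC : Type := Option M.δ × Bool × Fin 3

def hm : Option M.δ → List σ
  | none => []
  | some r => r.1.inp

def red : List (Option M.δ) → List (Rule σ M.Q M.Γ)
  | [] => []
  | none :: x => red x
  | some r :: x => r.1 :: red x

def ok (s : CC M) : Option M.δ → Prop
  | none => s.2.1 = false ∧ s.2.2 ≠ 0
  | some r => s.2.2 ≠ 1 ∧ (s.2.1 = true → ∀ r0, s.1 = some r0 → M.R r0.1 r.1)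

open Classical in
noncomputable def ph (q : M.Q) : Fin 3 := if q = M.qt then 1 else 0

noncomputable def nxc (s : CC M) : Option M.δ → CC M
  | none => (s.1, true, 2)
  | some r => (if s.2.1 then some r else s.1, false, if s.2.2 = 0 then ph M r.1.dst else 2)

def okrun : CC M → List (Option M.δ) → Prop
  | _, [] => True
  | s, a :: x => ok M s a ∧ okrun (nxc M s a) x

noncomputable def r1 (r : M.δ) (s : CC M) : Rule (Option M.δ) (M.Q × CC M) M.Γ :=
  ⟨r.1.top, (r.1.src, s), [some r], r.1.push, (r.1.dst, nxc M s (some r))⟩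

noncomputable def r2 (r : M.δ) (s : CC M) : Rule (Option M.δ) (M.Q × CC M) M.Γ :=
  ⟨r.1.top, (r.1.src, s), [some r, none], r.1.push, (r.1.dst, nxc M (nxc M s (some r)) none)⟩

def δ1 : Set (Rule (Option M.δ) (M.Q × CC M) M.Γ) :=
  {ρ | ∃ r s, ok M s (some r) ∧ (ρ = r1 M r s ∨ ok M (nxc M s (some r)) none ∧ ρ = r2 M r s)}

variable {M}

lemma down1 {α : List M.Γ} {q f : M.Q × CC M} {x : List (Option M.δ)}
    {μ : List (Rule (Option M.δ) (M.Q × CC M) M.Γ)} (c : Comp (δ1 M) α q x μ f) :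
    Comp M.δ α q.1 (x.flatMap (hm M)) (red M x) f.1 ∧ okrun M q.2 x := by
  induction c with
  | nil f => exact ⟨Comp.nil _, trivial⟩
  | cons ρ β v μ f a _ ih =>
    obtain ⟨r, s, a, rfl | ⟨b, rfl⟩⟩ := a
    · exact ⟨Comp.cons r.1 β _ _ _ r.2 ih.1, a, ih.2⟩
    · exact ⟨Comp.cons r.1 β _ _ _ r.2 ih.1, a, b, ih.2⟩

lemma up1 {α : List M.Γ} {q f : M.Q} {w : List σ} {μ : List (Rule σ M.Q M.Γ)}
    (c : Comp M.δ α q w μ f) : ∀ x s, red M x = μ → okrun M s x → x.head? ≠ some none →
      (∃ μ' s', Comp (δ1 M) α (q, s) x μ' (f, s')) ∧ w = x.flatMap (hm M) := by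
  induction c with
  | nil f =>
    rintro (_ | ⟨_ | r, x⟩) s e _ h
    · exact ⟨⟨[], s, Comp.nil _⟩, rfl⟩
    · simp at h
    · simp [red] at e
  | cons r β v μ f a _ ih =>
    rintro (_ | ⟨_ | r', x⟩) s e h1 h
    · simp [red] at e
    · simp at h
    · obtain ⟨rfl, e'⟩ := List.cons.inj e
      by_cases hx : x.head? = some none
      · obtain ⟨y, rfl⟩ : ∃ y, x = none :: y := by
          cases x with
          | nil => simp at hx
          | cons b y => exact ⟨y, by simpa using hx⟩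
        obtain ⟨⟨μ', s', c⟩, rfl⟩ := ih y _ e' h1.2.2 (by
          rcases y with _ | ⟨_ | b, y⟩
          · simp
          · exact absurd h1.2.2.1.1 (by simp [nxc])
          · simp)
        exact ⟨⟨_, s', Comp.cons (r2 M r' s) β y μ' _ ⟨r', s, h1.1, Or.inr ⟨h1.2.1, rfl⟩⟩ c⟩, rfl⟩
      · obtain ⟨⟨μ', s', c⟩, rfl⟩ := ih x _ e' h1.2 hx
        exact ⟨⟨_, s', Comp.cons (r1 M r' s) β x μ' _ ⟨r', s, h1.1, Or.inl rfl⟩ c⟩, rfl⟩

lemma inb (fr : Option M.δ) (y : List (Option M.δ)) (u : List M.δ) :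
    okrun M (fr, false, 2) (u.map some ++ none :: y) ↔ okrun M (fr, true, 2) y := by
  induction u with
  | nil => simp [okrun, ok, nxc]
  | cons r u ih => simpa [okrun, ok, nxc] using ih

lemma blk0 (fr : Option M.δ) (y : List (Option M.δ)) (c : List M.δ) : ∀ q,
    okrun M (fr, false, ph M q) (c.map some ++ none :: y) ↔
      T0 M.qt q (c.map (·.1)) ∧ okrun M (fr, true, 2) y := by
  induction c with
  | nil => intro q; by_cases h : q = M.qt <;> simp [okrun, ok, nxc, ph, T0, h]
  | cons r c ih =>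
    intro q
    by_cases h : q = M.qt
    · simp [okrun, ok, ph, T0, h]
    · have e : ph M q = 0 := by simp [ph, h]
      have := ih r.1.dst
      simp only [List.map_cons, List.cons_append, okrun, ok, nxc, e, T0]
      simp [this, h]

lemma enc_cons {τ : Type} (u : List τ) (us : List (List τ)) :
    enc (u :: us) = u.map some ++ none :: enc us := by simp [enc]

lemma rest (us : List (List M.δ)) : ∀ (r0 : M.δ) c, okrun M (some r0, true, 2) (enc us) ↔
    List.IsChain (hrel M.R) ((r0.1 :: c) :: us.map (List.map (·.1))) := by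
  induction us with
  | nil => intro r0 c; simp [enc, okrun]
  | cons u us ih =>
    intro r0 c
    rw [enc_cons, List.map_cons, List.isChain_cons_cons]
    cases u with
    | nil => simp [okrun, ok, hrel]
    | cons r u =>
      have h1 := inb (some r) (enc us) u
      have h2 := ih r (u.map (·.1))
      simp only [List.map_cons, List.cons_append, okrun, ok, nxc]
      simp [h1, h2, hrel]

lemma red_enc (us : List (List M.δ)) : red M (enc us) = (us.map (List.map (·.1))).flatten := by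
  induction us with
  | nil => rfl
  | cons u us ih =>
    rw [enc_cons, List.map_cons, List.flatten_cons, ← ih]
    induction u with
    | nil => rfl
    | cons r u ih2 => exact congrArg (r.1 :: ·) ih2

lemma start (r : M.δ) (c : List M.δ) (us : List (List M.δ)) :
    okrun M (none, true, 0) (enc ((r :: c) :: us)) ↔ T0 M.qt r.1.dst (c.map (·.1)) ∧
      List.IsChain (hrel M.R) ((r.1 :: c.map (·.1)) :: us.map (List.map (·.1))) := by
  rw [enc_cons, ← rest, ← blk0]
  simp [okrun, ok, nxc]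

lemma Comp.mem {Q Γ : Type} {δ : Set (Rule σ Q Γ)} {α : List Γ} {q f : Q} {w : List σ}
    {μ : List (Rule σ Q Γ)} (c : Comp δ α q w μ f) : ∀ r ∈ μ, r ∈ δ := by
  induction c with
  | nil f => simp
  | cons r β v μ f a _ ih => simpa using ⟨a, ih⟩

end one

theorem dir1 {σ : Type} (n : ℕ) (M : SPDA σ) : ∃ (τ : Type) (_ : Finite τ), ∃ K ∈ CF (Option τ),
    ∃ h : Option τ → List σ, M.lang n = (fun x => x.flatMap h) '' (K ∩ Blocks n τ) := by
  have := M.finQ
  have : Finite M.δ := M.finδ.to_subtype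
  refine ⟨M.δ, inferInstance, _, ⟨⟨M.Q × CC M, M.Γ, inferInstance, M.finΓ, δ1 M, ?_,
    (M.q0, none, true, 0), (M.q0, none, true, 0), M.Z0, {p | p.1 ∈ M.F}, fun _ _ => True⟩, rfl⟩,
    hm M, ?_⟩
  · refine ((Set.finite_range fun p : M.δ × CC M => r1 M p.1 p.2).union
      (Set.finite_range fun p : M.δ × CC M => r2 M p.1 p.2)).subset ?_
    rintro ρ ⟨r, s, -, rfl | ⟨-, rfl⟩⟩
    · exact Or.inl ⟨(r, s), rfl⟩
    · exact Or.inr ⟨(r, s), rfl⟩
  ext w
  rw [mem_lang]
  constructor
  · rintro ⟨f, hf, r, c, bs, h1, h2, h3, h4, h5⟩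
    have hm' := h1.mem
    lift r to M.δ using hm' r (by simp)
    lift c to List M.δ using fun s hs => hm' s (by simp [hs])
    lift bs to List (List M.δ) using fun b hb s hs =>
      hm' s (List.mem_cons_of_mem _ (List.mem_append_right _ (List.mem_flatten.2 ⟨b, hb, hs⟩)))
    obtain ⟨⟨μ', s', e⟩, rfl⟩ := up1 h1 (enc ((r :: c) :: bs)) (none, true, 0)
      (by rw [red_enc]; rfl) ((start r c bs).2 ⟨h4, h5⟩) (by simp [enc])
    refine ⟨_, ⟨⟨(f, s'), hf, μ', e⟩, c.length + 1, (r :: c) :: bs, by simpa using h2, ?_, rfl⟩, rfl⟩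
    intro u hu
    rcases List.mem_cons.1 hu with rfl | hu
    · rfl
    · simpa using h3 _ (List.mem_map_of_mem hu)
  · rintro ⟨x, ⟨⟨f, hf, μ, e⟩, k, us, g1, g2, rfl⟩, rfl⟩
    obtain ⟨e1, e2⟩ := down1 e
    rcases us with _ | ⟨_ | ⟨r, c⟩, us⟩
    · simp at g1
    · exact absurd e2.1.1 (by simp)
    · obtain ⟨e3, e4⟩ := (start r c us).1 e2
      have e5 := red_enc ((r :: c) :: us)
      refine ⟨f.1, hf, r.1, c.map (·.1), us.map (List.map (·.1)), ?_, by simpa using g1, ?_, e3, e4⟩
      · have e6 : Comp M.δ [M.Z0] M.q0 _ (red M (enc ((r :: c) :: us))) f.1 := e1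
        rw [e5] at e6
        exact e6
      · intro b hb
        obtain ⟨u, hu, rfl⟩ := List.mem_map.1 hb
        have k1 := g2 u (by simp [hu])
        have k2 := g2 (r :: c) (by simp)
        simp only [List.length_map, List.length_cons] at k2 ⊢
        omega

theorem charac (n : ℕ) (σ : Type) : FSPDA n σ = {L | ∃ (τ : Type) (_ : Finite τ),
    ∃ K ∈ CF (Option τ), ∃ h : Option τ → List σ,
      L = (fun x => x.flatMap h) '' (K ∩ Blocks n τ)} := by
  ext L
  constructor
  · rintro ⟨M, rfl⟩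
    exact dir1 n M
  · rintro ⟨τ, _, K, hK, h, rfl⟩
    exact dir2 n hK h

end Pool.Agent.H24.Spd
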