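import Pool.Agent.H24.Spc4

set_option autoImplicit false

namespace Pool.Agent.H24.Spd

inductive Path {C A : Type} (st : C → A → C → Prop) : C → List A → C → Prop
  | nil (c : C) : Path st c [] c
  | cons (c c1 c' : C) (a : A) (x : List A) : st c a c1 → Path st c1 x c' → Path st c (a :: x) c'

lemma Path.inv {C A : Type} {st : C → A → C → Prop} {c c' : C} {a : A} {x : List A}
    (h : Path st c (a :: x) c') : ∃ c1, st c a c1 ∧ Path st c1 x c' := by
  cases h with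
  | cons _ c1 _ _ _ p q => exact ⟨c1, p, q⟩

lemma RT.inv {I A : Type} {P : I × A × List I → Prop} {α : List I} {t : I × A × List I}
    {ts : List (I × A × List I)} (h : RT P α (t :: ts)) :
    P t ∧ ∃ β, α = t.1 :: β ∧ RT P (t.2.2 ++ β) ts := by
  cases h with
  | cons _ β _ p q => exact ⟨p, β, rfl, q⟩

lemma RT.inv0 {I A : Type} {P : I × A × List I → Prop} {α : List I} (h : RT P α []) : α = [] := by
  cases h; rfl

lemma Comp.invn {σ Q Γ : Type} {δ : Set (Rule σ Q Γ)} {q f : Q} {w : List σ}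
    {μ : List (Rule σ Q Γ)} (h : Comp δ [] q w μ f) : w = [] ∧ q = f := by
  cases μ with
  | nil => exact h.inv0.2
  | cons r μ =>
    obtain ⟨-, β, v, e, -⟩ := Comp.inv h
    simp at e

section clo
variable {τ A C I : Type} (l : ℕ) (g : A → List τ) (hg : ∀ a, (g a).length ≤ l)
  (P : I × τ × List I → Prop) (S0 : Set (List I)) (C0 : Set C) (st : C → A → C → Prop)

abbrev BB (τ : Type) (l : ℕ) : Type := {b : List τ // b.length ≤ l}

def nb : BB τ l := ⟨[], Nat.zero_le _⟩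

def ri (p : List I × C) : Rule A (Option (C × BB τ l)) (Option I) :=
  ⟨none, none, [], p.1.map some ++ [none], some (p.2, nb l)⟩

def rr (p : Option I × C × A × C) : Rule A (Option (C × BB τ l)) (Option I) :=
  ⟨p.1, some (p.2.1, nb l), [p.2.2.1], [p.1], some (p.2.2.2, ⟨g p.2.2.1, hg _⟩)⟩

def rs (p : (I × τ × List I) × C × BB τ l × BB τ l) : Rule A (Option (C × BB τ l)) (Option I) :=
  ⟨some p.1.1, some (p.2.1, p.2.2.1), [], p.1.2.2.map some, some (p.2.1, p.2.2.2)⟩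

def rf (c : C) : Rule A (Option (C × BB τ l)) (Option I) :=
  ⟨none, some (c, nb l), [], [], some (c, nb l)⟩

def δ3 : Set (Rule A (Option (C × BB τ l)) (Option I)) :=
  {ρ | (∃ p, (p.1 ∈ S0 ∧ p.2 ∈ C0) ∧ ri l p = ρ) ∨
    (∃ p, st p.2.1 p.2.2.1 p.2.2.2 ∧ rr l g hg p = ρ) ∨
    (∃ p, (P p.1 ∧ p.2.2.1.1 = p.1.2.1 :: p.2.2.2.1) ∧ rs l p = ρ) ∨ ∃ c, rf l c = ρ}

variable {l g hg P S0 C0 st}

lemma down3 {α' : List (Option I)} {q f : Option (C × BB τ l)} {x : List A}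
    {μ : List (Rule A (Option (C × BB τ l)) (Option I))}
    (h : Comp (δ3 l g hg P S0 C0 st) α' q x μ f) : ∀ (α : List I) c b,
    α' = α.map some ++ [none] → q = some (c, b) → ∃ ts c', RT P α ts ∧
      ts.map (·.2.1) = b.1 ++ x.flatMap g ∧ Path st c x c' ∧ f = some (c', nb l) := by
  induction h with
  | nil f => intro α c b e; simp at e
  | cons ρ β v μ f a hc ih =>
    intro α c b e1 e2
    rcases a with ⟨p, -, rfl⟩ | ⟨p, a, rfl⟩ | ⟨p, ⟨a, a'⟩, rfl⟩ | ⟨c1, rfl⟩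
    · simp [ri] at e2
    · simp only [rr, Option.some.injEq, Prod.mk.injEq] at e2
      obtain ⟨rfl, rfl⟩ := e2
      obtain ⟨ts, c', d1, d2, d3, d4⟩ := ih α _ _ e1 rfl
      exact ⟨ts, c', d1, d2, Path.cons _ _ _ _ _ a d3, d4⟩
    · simp only [rs, Option.some.injEq, Prod.mk.injEq] at e2
      obtain ⟨rfl, rfl⟩ := e2
      cases α with
      | nil => simp [rs] at e1
      | cons i α =>
        obtain ⟨e3, rfl⟩ := List.cons.inj e1
        obtain rfl : p.1.1 = i := Option.some.inj e3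
        obtain ⟨ts, c', d1, d2, d3, d4⟩ := ih (p.1.2.2 ++ α) _ _ (by simp [rs]) rfl
        exact ⟨p.1 :: ts, c', RT.cons p.1 α ts a d1, by rw [List.map_cons, d2, a']; rfl, d3, d4⟩
    · simp only [rf, Option.some.injEq, Prod.mk.injEq] at e2
      obtain ⟨rfl, rfl⟩ := e2
      cases α with
      | nil =>
        obtain ⟨-, rfl⟩ := List.cons.inj e1
        obtain ⟨rfl, rfl⟩ := Comp.invn hc
        exact ⟨[], c1, RT.nil, rfl, Path.nil _, rfl⟩
      | cons i α => simp [rf] at e1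

lemma drain {c : C} {x : List A} {f : Option (C × BB τ l)} {y : List τ}
    (H : ∀ α ts, RT P α ts → ts.map (·.2.1) = y → ∃ μ, Comp (δ3 l g hg P S0 C0 st)
      (α.map some ++ [none]) (some (c, nb l)) x μ f) (b : List τ) :
    ∀ hb α ts, RT P α ts → ts.map (·.2.1) = b ++ y → ∃ μ, Comp (δ3 l g hg P S0 C0 st)
      (α.map some ++ [none]) (some (c, ⟨b, hb⟩)) x μ f := by
  induction b with
  | nil => exact fun _ => H
  | cons s b ih =>
    intro hb α ts h e
    cases ts with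
    | nil => simp at e
    | cons t ts =>
      obtain ⟨e1, e2⟩ := List.cons.inj e
      obtain ⟨a, β, rfl, h'⟩ := h.inv
      have hb' : b.length ≤ l := by simp at hb; omega
      obtain ⟨μ, d⟩ := ih hb' _ ts h' e2
      rw [List.map_append, List.append_assoc] at d
      exact ⟨_, Comp.cons (rs l (t, c, ⟨s :: b, hb⟩, ⟨b, hb'⟩)) _ x μ f
        (Or.inr (Or.inr (Or.inl ⟨_, ⟨a, by rw [← e1]⟩, rfl⟩))) d⟩

lemma up3 {c c' : C} {x : List A} (h : Path st c x c') : ∀ α ts, RT P α ts →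
    ts.map (·.2.1) = x.flatMap g → ∃ μ, Comp (δ3 l g hg P S0 C0 st)
      (α.map some ++ [none]) (some (c, nb l)) x μ (some (c', nb l)) := by
  induction h with
  | nil c =>
    intro α ts h e
    obtain rfl : ts = [] := by simpa using e
    obtain rfl := h.inv0
    exact ⟨_, Comp.cons (rf l c) [] [] [] _ (Or.inr (Or.inr (Or.inr ⟨c, rfl⟩))) (Comp.nil _)⟩
  | cons c c1 c' a x p _ ih =>
    intro α ts h e
    obtain ⟨μ, d⟩ := drain ih (g a) (hg a) α ts h e
    obtain ⟨Z, β, e'⟩ : ∃ Z β, α.map some ++ [none] = Z :: β := by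
      cases α with
      | nil => exact ⟨_, _, rfl⟩
      | cons i α => exact ⟨_, _, rfl⟩
    rw [e'] at d ⊢
    exact ⟨_, Comp.cons (rr l g hg (Z, c, a, c1)) β x μ _ (Or.inr (Or.inl ⟨_, p, rfl⟩)) d⟩

end clo

theorem closure {τ A C : Type} [Finite τ] [Finite A] [Finite C] {K : Set (List τ)} (hK : K ∈ CF τ)
    (g : A → List τ) (C0 : Set C) (st : C → A → C → Prop) :
    {x | x.flatMap g ∈ K ∧ ∃ c ∈ C0, ∃ c', Path st c x c'} ∈ CF A := by
  obtain ⟨I, hI, P, i0, hP, H⟩ := realtime hK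
  obtain ⟨l, hl⟩ := (Set.finite_range fun a => (g a).length).bddAbove
  have hg : ∀ a, (g a).length ≤ l := fun a => hl ⟨a, rfl⟩
  have : Finite (BB τ l) := (List.finite_length_le τ l).to_subtype
  set S0 : Set (List I) := {α | α = [i0] ∨ α = [] ∧ [] ∈ K} with hS
  have H' : ∀ w, w ∈ K ↔ ∃ α ∈ S0, ∃ ts, RT P α ts ∧ ts.map (·.2.1) = w := by
    intro w
    constructor
    · intro hw
      by_cases e : w = []
      · exact ⟨[], Or.inr ⟨rfl, e ▸ hw⟩, [], RT.nil, e.symm⟩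
      · exact ⟨_, Or.inl rfl, (H w e).1 hw⟩
    · rintro ⟨α, rfl | ⟨rfl, h⟩, ts, a, rfl⟩
      · refine (H _ ?_).2 ⟨ts, a, rfl⟩
        cases ts with
        | nil => exact absurd a.inv0 (by simp)
        | cons t ts => simp
      · cases ts with
        | nil => exact h
        | cons t ts =>
          obtain ⟨-, β, e, -⟩ := a.inv
          simp at e
  refine ⟨⟨Option (C × BB τ l), Option I, inferInstance, inferInstance, δ3 l g hg P S0 C0 st, ?_,
    none, none, none, Set.univ, fun _ _ => True⟩, ?_⟩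
  · have h0 : S0.Finite := (Set.toFinite {[i0], []}).subset (by
      rintro α (rfl | ⟨rfl, -⟩) <;> simp)
    refine (((h0.prod (Set.toFinite C0)).image (ri l)).union ((Set.finite_range (rr l g hg)).union
      (((hP.prod Set.finite_univ).image (rs l)).union (Set.finite_range (rf l))))).subset ?_
    rintro ρ (⟨p, a, rfl⟩ | ⟨p, -, rfl⟩ | ⟨p, a, rfl⟩ | ⟨c, rfl⟩)
    · exact Or.inl ⟨p, a, rfl⟩
    · exact Or.inr (Or.inl ⟨p, rfl⟩)
    · exact Or.inr (Or.inr (Or.inl ⟨p, ⟨a.1, trivial⟩, rfl⟩))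
    · exact Or.inr (Or.inr (Or.inr ⟨c, rfl⟩))
  ext x
  constructor
  · rintro ⟨h1, c, hc, c', h2⟩
    obtain ⟨α, a, ts, b, e⟩ := (H' _).1 h1
    obtain ⟨μ, d⟩ := up3 (hg := hg) (S0 := S0) (C0 := C0) h2 α ts b e
    exact ⟨_, trivial, _, Comp.cons (ri l (α, c)) [] x μ _ (Or.inl ⟨_, ⟨a, hc⟩, rfl⟩)
      (by simpa [ri] using d)⟩
  · rintro ⟨f, -, μ, h⟩
    cases μ with
    | nil => exact absurd h.inv0.1 (by simp)
    | cons ρ μ =>
      obtain ⟨a, β, v, e1, e2, rfl, d⟩ := Comp.inv h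
      obtain ⟨-, rfl⟩ := List.cons.inj e1
      rcases a with ⟨p, a, rfl⟩ | ⟨p, a, rfl⟩ | ⟨p, ⟨a, a'⟩, rfl⟩ | ⟨c1, rfl⟩
      · obtain ⟨ts, c', d1, d2, d3, -⟩ := down3 d p.1 p.2 _ (by simp [ri]) rfl
        exact ⟨(H' _).2 ⟨_, a.1, ts, d1, d2⟩, p.2, a.2, c', d3⟩
      · simp [rr] at e2
      · simp [rs] at e2
      · simp [rf] at e2

end Pool.Agent.H24.Spd
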