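import Pool.Agent.H24.Spc5

set_option autoImplicit false

namespace Pool.Agent.H24.Spd

section prl
variable {N τ : Type} (P : Set (N × List τ × Option N)) (m : ℕ)

abbrev CP (N : Type) (m : ℕ) : Type := Option N × BB N m

def gP : Option P → List τ
  | none => []
  | some p => p.1.2.1

def stP (c : CP N m) : Option P → CP N m → Prop
  | none, c' => c.1 = none ∧ c'.1 = c.2.1.head? ∧ c'.2.1 = c.2.1.tail
  | some p, c' => c.1 = some p.1.1 ∧ c'.1 = p.1.2.2 ∧ c'.2.1 = c.2.1

def ev (u : List P) : List τ := (u.map some).flatMap (gP P)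

variable {P m}

lemma ev_enc (us : List (List P)) : (enc us).flatMap (gP P) = (us.map (ev P)).flatten := by
  induction us with
  | nil => rfl
  | cons u us ih => rw [enc_cons]; simp [ev, gP, ih]

lemma blkD {y : List (Option P)} {c' : CP N m} (u : List P) : ∀ c : CP N m,
    Path (stP P m) c (u.map some ++ none :: y) c' → ∃ c1 : CP N m, Der P c.1 u.length (ev P u) ∧
      c1.1 = c.2.1.head? ∧ c1.2.1 = c.2.1.tail ∧ Path (stP P m) c1 y c' := by
  induction u with
  | nil =>
    intro c h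
    obtain ⟨c1, ⟨a, b, d⟩, e⟩ := h.inv
    exact ⟨c1, by rw [a]; exact Der.done, b, d, e⟩
  | cons p u ih =>
    intro c h
    obtain ⟨c1, ⟨a, b, d⟩, e⟩ := Path.inv h
    obtain ⟨c2, f1, f2, f3, f4⟩ := ih c1 e
    rw [b] at f1
    rw [d] at f2 f3
    exact ⟨c2, by rw [a]; exact Der.step _ _ _ _ _ p.2 f1, f2, f3, f4⟩

lemma blkU {o : Option N} {k : ℕ} {w : List τ} (h : Der P o k w) : ∃ u : List P, u.length = k ∧
    w = ev P u ∧ ∀ (c c1 c' : CP N m) y, c.1 = o → c1.1 = c.2.1.head? → c1.2.1 = c.2.1.tail →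
      Path (stP P m) c1 y c' → Path (stP P m) c (u.map some ++ none :: y) c' := by
  induction h with
  | done => exact ⟨[], rfl, rfl, fun c c1 c' y a b d e => Path.cons _ c1 _ _ _ ⟨a, b, d⟩ e⟩
  | step X w Y k v a _ ih =>
    obtain ⟨u, rfl, rfl, b⟩ := ih
    exact ⟨⟨_, a⟩ :: u, rfl, rfl, fun c c1 c' y d e f g =>
      Path.cons _ (Y, c.2) _ _ _ ⟨d, rfl, rfl⟩ (b _ c1 c' y rfl e f g)⟩

lemma allD {k : ℕ} {c' : CP N m} (us : List (List P)) : ∀ (Xs : List N) (c : CP N m),
    c.1 = Xs.head? → c.2.1 = Xs.tail → Xs.length = us.length → (∀ u ∈ us, u.length = k) →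
    Path (stP P m) c (enc us) c' →
    List.Forall₂ (fun X v => Der P (some X) k v) Xs (us.map (ev P)) := by
  induction us with
  | nil =>
    intro Xs c _ _ h _ _
    obtain rfl : Xs = [] := by simpa using h
    exact List.Forall₂.nil
  | cons u us ih =>
    intro Xs c h1 h2 h3 h4 h5
    cases Xs with
    | nil => simp at h3
    | cons X Xs =>
      rw [enc_cons] at h5
      obtain ⟨c1, f1, f2, f3, f4⟩ := blkD u c h5
      rw [h1, h4 u (by simp)] at f1
      rw [h2] at f2 f3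
      exact List.Forall₂.cons f1 (ih Xs c1 f2 f3 (by simpa using h3)
        (fun u hu => h4 u (by simp [hu])) f4)

lemma allU {k : ℕ} {Xs : List N} {ws : List (List τ)}
    (h : List.Forall₂ (fun X v => Der P (some X) k v) Xs ws) : ∃ us : List (List P),
    us.map (ev P) = ws ∧ (∀ u ∈ us, u.length = k) ∧ ∀ c : CP N m, c.1 = Xs.head? →
      c.2.1 = Xs.tail → ∃ c', Path (stP P m) c (enc us) c' := by
  induction h with
  | nil => exact ⟨[], rfl, by simp, fun c _ _ => ⟨c, Path.nil c⟩⟩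
  | @cons X v Xs ws a _ ih =>
    obtain ⟨us, rfl, b, d⟩ := ih
    obtain ⟨u, e1, rfl, e2⟩ := blkU (m := m) a
    refine ⟨u :: us, rfl, by simpa using ⟨e1, b⟩, fun c h1 h2 => ?_⟩
    have h3 : c.2.1 = Xs := h2
    have hl : Xs.tail.length ≤ m := by
      have := c.2.2
      rw [h3] at this
      simp
      omega
    obtain ⟨c', f⟩ := d (Xs.head?, ⟨Xs.tail, hl⟩) rfl rfl
    exact ⟨c', enc_cons u us ▸ e2 c _ c' _ h1 (by rw [h3]) (by rw [h3]) f⟩

end prl

def PB (τ : Type) : Set (Unit × List (Option τ) × Option Unit) :=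
  {p | p = ((), [none], none) ∨ ∃ a, p = ((), [some a], some ())}

lemma der_blk {τ : Type} (k : ℕ) (w : List (Option τ)) :
    Der (PB τ) (some ()) k w ↔
      ∃ u : List τ, u.length + 1 = k ∧ w = u.map some ++ [none] := by
  constructor
  · intro h
    generalize e : (some () : Option Unit) = o at h
    induction h with
    | done => simp at e
    | step X w Y k v a b ih =>
      rcases a with a | ⟨s, a⟩
      · simp only [Prod.mk.injEq] at a
        obtain ⟨-, rfl, rfl⟩ := a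
        cases b
        exact ⟨[], rfl, rfl⟩
      · simp only [Prod.mk.injEq] at a
        obtain ⟨-, rfl, rfl⟩ := a
        obtain ⟨u, rfl, rfl⟩ := ih rfl
        exact ⟨s :: u, rfl, rfl⟩
  · rintro ⟨u, rfl, rfl⟩
    induction u with
    | nil => exact Der.step () [none] none 0 [] (Or.inl rfl) Der.done
    | cons s u ih => exact Der.step () [some s] (some ()) _ _ (Or.inr ⟨s, rfl⟩) ih

lemma blocks_prl (n : ℕ) (τ : Type) [Finite τ] : Blocks n τ ∈ PRL (n + 1) (Option τ) := by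
  refine ⟨Unit, inferInstance, {List.replicate (n + 1) ()},
    PB τ, ?_, by simp, ?_⟩
  · refine ((Set.finite_range fun a : τ => (((), [some a], some ()) :
      Unit × List (Option τ) × Option Unit)).insert ((), [none], none)).subset ?_
    rintro p (rfl | ⟨a, rfl⟩)
    · exact Or.inl rfl
    · exact Or.inr ⟨a, rfl⟩
  ext x
  constructor
  · rintro ⟨k, us, h1, h2, rfl⟩
    refine ⟨_, rfl, k + 1, _, ?_, rfl⟩
    rw [← h1]
    clear h1
    induction us with
    | nil => exact List.Forall₂.nil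
    | cons u us ih =>
      exact List.Forall₂.cons ((der_blk _ _).2 ⟨u, by rw [h2 u (by simp)], rfl⟩)
        (ih fun u hu => h2 u (by simp [hu]))
  · rintro ⟨Xs, e, k, ws, h, rfl⟩
    have hl : Xs.length = n + 1 := by rw [e]; simp
    rw [h.length_eq] at hl
    clear e
    suffices ∃ us : List (List τ), (∀ u ∈ us, u.length = k - 1) ∧
        ws = us.map fun u => u.map some ++ [none] by
      obtain ⟨us, a, rfl⟩ := this
      exact ⟨k - 1, us, by simpa using hl, a, rfl⟩
    clear hl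
    induction h with
    | nil => exact ⟨[], by simp, rfl⟩
    | cons a _ ih =>
      obtain ⟨us, b, rfl⟩ := ih
      obtain ⟨u, rfl, rfl⟩ := (der_blk _ _).1 a
      exact ⟨u :: us, by simpa using b, rfl⟩

theorem dir3 {σ τ : Type} [Finite τ] (n : ℕ) {K R : Set (List τ)} (hK : K ∈ CF τ)
    (hR : R ∈ PRL (n + 1) τ) (h : τ → List σ) :
    (fun x => x.flatMap h) '' (K ∩ R) ∈ FSPDA n σ := by
  obtain ⟨N, hN, S, P, hP, hS, rfl⟩ := hR
  have : Finite P := hP.to_subtype
  have : Finite (BB N (n + 1)) := (List.finite_length_le N (n + 1)).to_subtype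
  have h1 := dir2 n (closure hK (gP P)
    {c : CP N (n + 1) | ∃ Xs ∈ S, c.1 = Xs.head? ∧ c.2.1 = Xs.tail} (stP P (n + 1)))
    (fun a => (gP P a).flatMap h)
  convert h1 using 1
  ext w
  constructor
  · rintro ⟨x, ⟨a, Xs, b, k, ws, c, rfl⟩, rfl⟩
    obtain ⟨us, rfl, d, e⟩ := allU (m := n + 1) c
    have hl := hS Xs b
    obtain ⟨c', f⟩ := e (Xs.head?, ⟨Xs.tail, by simp; omega⟩) rfl rfl
    refine ⟨enc us, ⟨⟨by rwa [ev_enc], _, ⟨Xs, b, rfl, rfl⟩, c', f⟩, k, us, ?_, d, rfl⟩, ?_⟩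
    · have := c.length_eq
      simp only [List.length_map] at this
      omega
    · show (enc us).flatMap _ = _
      rw [← List.flatMap_assoc, ev_enc]
  · rintro ⟨x, ⟨⟨a, c, ⟨Xs, b, d, e⟩, c', f⟩, k, us, g1, g2, rfl⟩, rfl⟩
    refine ⟨(enc us).flatMap (gP P), ⟨a, Xs, b, k, _,
      allD us Xs c d e (by rw [hS Xs b, g1]) g2 f, ev_enc us⟩, ?_⟩
    exact List.flatMap_assoc

theorem charac2 (n : ℕ) (σ : Type) : FSPDA n σ = {L | ∃ (τ : Type) (_ : Finite τ),
    ∃ K ∈ CF τ, ∃ R ∈ PRL (n + 1) τ, ∃ h : τ → List σ,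
      L = (fun x => x.flatMap h) '' (K ∩ R)} := by
  ext L
  constructor
  · rintro ⟨M, rfl⟩
    obtain ⟨τ, _, K, hK, h, e⟩ := dir1 n M
    exact ⟨Option τ, inferInstance, K, hK, _, blocks_prl n τ, h, e⟩
  · rintro ⟨τ, _, K, hK, R, hR, h, rfl⟩
    exact dir3 n hK hR h

end Pool.Agent.H24.Spd
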