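import Mathlib

set_option autoImplicit false

namespace Pool.Agent.H24.Spd

section parikh
variable {T W : Type} [DecidableEq T] [AddCommMonoid W] (lf : T → Prop)
  (nd : T → W → T → T → Prop)

inductive D : T → Finset T → W → ℕ → Prop
  | leaf (t : T) : lf t → D t {t} 0 0
  | node (t : T) (w : W) (l r : T) (S1 S2 : Finset T) (e1 e2 : W) (n1 n2 : ℕ) :
      nd t w l r → D l S1 e1 n1 → D r S2 e2 n2 →
      D t (insert t (S1 ∪ S2)) (w + e1 + e2) (n1 + n2 + 1)

inductive C : T → T → Finset T → W → ℕ → Prop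
  | hole (t : T) : C t t ∅ 0 0
  | left (t : T) (w : W) (l r h : T) (S1 S2 : Finset T) (e1 e2 : W) (n1 n2 : ℕ) :
      nd t w l r → C l h S1 e1 n1 → D lf nd r S2 e2 n2 →
      C t h (insert t (S1 ∪ S2)) (w + e1 + e2) (n1 + n2 + 1)
  | right (t : T) (w : W) (l r h : T) (S1 S2 : Finset T) (e1 e2 : W) (n1 n2 : ℕ) :
      nd t w l r → D lf nd l S1 e1 n1 → C r h S2 e2 n2 →
      C t h (insert t (S1 ∪ S2)) (w + e1 + e2) (n1 + n2 + 1)

variable {lf nd}

lemma D.cast {t : T} {S S' : Finset T} {e e' : W} {n n' : ℕ} (h : D lf nd t S e n) (h1 : S = S')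
    (h2 : e = e') (h3 : n = n') : D lf nd t S' e' n' := h1 ▸ h2 ▸ h3 ▸ h

lemma C.cast {t g : T} {S S' : Finset T} {e e' : W} {n n' : ℕ} (h : C lf nd t g S e n)
    (h1 : S = S') (h2 : e = e') (h3 : n = n') : C lf nd t g S' e' n' := h1 ▸ h2 ▸ h3 ▸ h

lemma D.mem {t : T} {S : Finset T} {e : W} {n : ℕ} (h : D lf nd t S e n) : t ∈ S := by
  cases h <;> simp

lemma plug {t h : T} {S S' : Finset T} {e e' : W} {n n' : ℕ} (h1 : C lf nd t h S e n)
    (h2 : D lf nd h S' e' n') : D lf nd t (S ∪ S') (e + e') (n + n') := by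
  induction h1 with
  | hole t => simpa using h2
  | left t w l r h S1 S2 e1 e2 n1 n2 a _ c ih =>
    exact (D.node t w l r _ _ _ _ _ _ a (ih h2) c).cast (by ext; simp; tauto) (by abel) (by omega)
  | right t w l r h S1 S2 e1 e2 n1 n2 a b _ ih =>
    exact (D.node t w l r _ _ _ _ _ _ a b (ih h2)).cast (by ext; simp) (by abel) (by omega)

/-- a subtree of type `h` -/
def Sub (t h : T) (S : Finset T) (e : W) (n n2 : ℕ) : Prop :=
  ∃ S1 e1 n1 S2 e2, C lf nd t h S1 e1 n1 ∧ D lf nd h S2 e2 n2 ∧ S = S1 ∪ S2 ∧ e = e1 + e2 ∧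
    n = n1 + n2

lemma Sub.refl {t : T} {S : Finset T} {e : W} {n : ℕ} (h : D lf nd t S e n) :
    Sub (lf := lf) (nd := nd) t t S e n n :=
  ⟨∅, 0, 0, S, e, C.hole t, h, by simp, by simp, by simp⟩

lemma Sub.left {t l r h : T} {w : W} {S1 S2 : Finset T} {e1 e2 : W} {n1 n2 m : ℕ}
    (a : nd t w l r) (b : Sub (lf := lf) (nd := nd) l h S1 e1 n1 m) (c : D lf nd r S2 e2 n2) :
    Sub (lf := lf) (nd := nd) t h (insert t (S1 ∪ S2)) (w + e1 + e2) (n1 + n2 + 1) m := by
  obtain ⟨U1, f1, k1, U2, f2, p, q, rfl, rfl, rfl⟩ := b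
  exact ⟨_, _, _, U2, f2, C.left t w l r h _ _ _ _ _ _ a p c, q, by ext; simp; tauto, by abel,
    by omega⟩

lemma Sub.right {t l r h : T} {w : W} {S1 S2 : Finset T} {e1 e2 : W} {n1 n2 m : ℕ}
    (a : nd t w l r) (b : D lf nd l S1 e1 n1) (c : Sub (lf := lf) (nd := nd) r h S2 e2 n2 m) :
    Sub (lf := lf) (nd := nd) t h (insert t (S1 ∪ S2)) (w + e1 + e2) (n1 + n2 + 1) m := by
  obtain ⟨U1, f1, k1, U2, f2, p, q, rfl, rfl, rfl⟩ := c
  exact ⟨_, _, _, U2, f2, C.right t w l r h _ _ _ _ _ _ a b p, q, by ext; simp, by abel,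
    by omega⟩

lemma find {t h : T} {S : Finset T} {e : W} {n : ℕ} (h1 : D lf nd t S e n) (hh : h ∈ S) :
    ∃ m, Sub (lf := lf) (nd := nd) t h S e n m := by
  induction h1 with
  | leaf t a =>
    obtain rfl : h = t := by simpa using hh
    exact ⟨0, Sub.refl (D.leaf h a)⟩
  | node t w l r S1 S2 e1 e2 n1 n2 a b c ih1 ih2 =>
    simp only [Finset.mem_insert, Finset.mem_union] at hh
    rcases hh with rfl | hh | hh
    · exact ⟨_, Sub.refl (D.node h w l r _ _ _ _ _ _ a b c)⟩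
    · obtain ⟨m, hm⟩ := ih1 hh; exact ⟨m, Sub.left a hm c⟩
    · obtain ⟨m, hm⟩ := ih2 hh; exact ⟨m, Sub.right a b hm⟩

lemma midsub (B : ℕ) {t : T} {S : Finset T} {e : W} {n : ℕ} (h1 : D lf nd t S e n)
    (hn : B ≤ n) : ∃ h m, B ≤ m ∧ m ≤ 2 * B ∧ Sub (lf := lf) (nd := nd) t h S e n m := by
  induction h1 with
  | leaf t a => exact ⟨t, 0, hn, by omega, Sub.refl (D.leaf t a)⟩
  | node t w l r S1 S2 e1 e2 n1 n2 a b c ih1 ih2 =>
    by_cases p1 : B ≤ n1
    · obtain ⟨h, m, x, y, z⟩ := ih1 p1; exact ⟨h, m, x, y, Sub.left a z c⟩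
    by_cases p2 : B ≤ n2
    · obtain ⟨h, m, x, y, z⟩ := ih2 p2; exact ⟨h, m, x, y, Sub.right a b z⟩
    exact ⟨t, _, hn, by omega, Sub.refl (D.node t w l r _ _ _ _ _ _ a b c)⟩

/-- a pump of size at most `B` can be cut out -/
def Cut (t : T) (S : Finset T) (e : W) (n B : ℕ) : Prop :=
  ∃ h S1 e1 n1 S2 e2 n2, D lf nd t S1 e1 n1 ∧ h ∈ S1 ∧ C lf nd h h S2 e2 n2 ∧ 1 ≤ n2 ∧ n2 ≤ B ∧
    S = S1 ∪ S2 ∧ e = e1 + e2 ∧ n = n1 + n2

lemma Cut.ext {t g : T} {S S' : Finset T} {e e' : W} {n n' B B' : ℕ} (a : C lf nd t g S e n)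
    (b : Cut (lf := lf) (nd := nd) g S' e' n' B) (hB : B ≤ B') :
    Cut (lf := lf) (nd := nd) t (S ∪ S') (e + e') (n + n') B' := by
  obtain ⟨h, S1, e1, n1, S2, e2, n2, p, q, r, s, u, rfl, rfl, rfl⟩ := b
  exact ⟨h, _, _, _, S2, e2, n2, plug a p, by simp [q], r, s, by omega, by ext; simp,
    by abel, by omega⟩

lemma rep (A : Finset T) {t : T} {S : Finset T} {e : W} {n : ℕ} (h1 : D lf nd t S e n)
    (hS : S ⊆ A) : ∀ U : Finset T, 2 ^ (A \ U).card ≤ n →
    Cut (lf := lf) (nd := nd) t S e n n ∨ ∃ h ∈ U, ∃ m, Sub (lf := lf) (nd := nd) t h S e n m := by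
  induction h1 with
  | leaf t a => intro U hU; exact absurd hU (by simp)
  | node t w l r S1 S2 e1 e2 n1 n2 a b c ih1 ih2 =>
    intro U hU
    by_cases ht : t ∈ U
    · exact Or.inr ⟨t, ht, _, Sub.refl (D.node t w l r _ _ _ _ _ _ a b c)⟩
    have hA : t ∈ A := hS (by simp)
    have hc : (A \ U).card = (A \ insert t U).card + 1 := by
      rw [Finset.sdiff_insert, Finset.card_erase_add_one (by simp [hA, ht])]
    rw [hc, pow_succ] at hU
    have fin : ∀ h ∈ insert t U, ∀ m, m ≤ n1 + n2 → Sub (lf := lf) (nd := nd) t h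
        (insert t (S1 ∪ S2)) (w + e1 + e2) (n1 + n2 + 1) m →
        Cut (lf := lf) (nd := nd) t (insert t (S1 ∪ S2)) (w + e1 + e2) (n1 + n2 + 1)
          (n1 + n2 + 1) ∨ ∃ h ∈ U, ∃ m, Sub (lf := lf) (nd := nd) t h
        (insert t (S1 ∪ S2)) (w + e1 + e2) (n1 + n2 + 1) m := by
      intro h hh m hm hs
      rcases Finset.mem_insert.1 hh with rfl | hh
      · obtain ⟨U1, f1, k1, U2, f2, p, q, x, y, z⟩ := hs
        exact Or.inl ⟨h, U2, f2, m, U1, f1, k1, q, q.mem, p, by omega, by omega,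
          by rw [x, Finset.union_comm], by rw [y, add_comm], by omega⟩
      · exact Or.inr ⟨h, hh, m, hs⟩
    by_cases p1 : 2 ^ (A \ insert t U).card ≤ n1
    · rcases ih1 (fun x hx => hS (by simp [hx])) _ p1 with g | ⟨h, hh, m, g⟩
      · have := Cut.ext (C.left t w l r l _ _ _ _ _ _ a (C.hole l) c) g
          (B' := n1 + n2 + 1) (by omega)
        refine Or.inl ?_
        convert this using 1
        · ext; simp; tauto
        · abel
        · omega
      · exact fin h hh m (by obtain ⟨_, _, _, _, _, _, _, _, _, z⟩ := g; omega) (Sub.left a g c)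
    · rcases ih2 (fun x hx => hS (by simp [hx])) (insert t U) (by omega) with g | ⟨h, hh, m, g⟩
      · have := Cut.ext (C.right t w l r r _ _ _ _ _ _ a b (C.hole r)) g
          (B' := n1 + n2 + 1) (by omega)
        refine Or.inl ?_
        convert this using 1
        · ext; simp
        · abel
        · omega
      · exact fin h hh m (by obtain ⟨_, _, _, _, _, _, _, _, _, z⟩ := g; omega) (Sub.right a b g)

lemma cut (A : Finset T) {t : T} {S : Finset T} {e : W} {n : ℕ} (h1 : D lf nd t S e n)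
    (hS : S ⊆ A) (hn : 2 ^ A.card ≤ n) : Cut (lf := lf) (nd := nd) t S e n (2 * 2 ^ A.card) := by
  obtain ⟨h, m, x, y, U1, f1, k1, U2, f2, p, q, rfl, rfl, rfl⟩ := midsub (2 ^ A.card) h1 hn
  rcases rep A q (fun z hz => hS (by simp [hz])) ∅ (by simpa using x) with g | ⟨_, g, _⟩
  · exact Cut.ext p g y
  · simp at g

def Good (S : Finset T) (B : ℕ) (p : W) : Prop :=
  ∃ h ∈ S, ∃ S' n', C lf nd h h S' p n' ∧ n' ≤ B

lemma ins {t h : T} {S S' : Finset T} {e e' : W} {n n' : ℕ} (h1 : D lf nd t S e n) (hh : h ∈ S)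
    (h2 : C lf nd h h S' e' n') : D lf nd t (S ∪ S') (e + e') (n + n') := by
  obtain ⟨m, U1, f1, k1, U2, f2, p, q, rfl, rfl, rfl⟩ := find h1 hh
  exact (plug p (plug h2 q)).cast (by ext; simp; tauto) (by abel) (by omega)

lemma insAll {t : T} {S : Finset T} {e : W} {n B : ℕ} (h1 : D lf nd t S e n) (P : Multiset W)
    (hP : ∀ p ∈ P, Good (lf := lf) (nd := nd) S B p) :
    ∃ S' n', S ⊆ S' ∧ D lf nd t S' (e + P.sum) n' := by
  induction P using Multiset.induction_on with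
  | empty => exact ⟨S, n, le_rfl, by simpa using h1⟩
  | cons p P ih =>
    obtain ⟨S', n', a, b⟩ := ih fun q hq => hP q (by simp [hq])
    obtain ⟨h, hh, U, m, c, -⟩ := hP p (by simp)
    exact ⟨_, _, a.trans Finset.subset_union_left,
      (ins b (a hh) c).cast rfl (by simp only [Multiset.sum_cons]; abel) rfl⟩

theorem parikh (A : Finset T) {t : T} : ∀ (n : ℕ) {S : Finset T} {e : W}, D lf nd t S e n →
    S ⊆ A → ∃ e0 n0, ∃ P : Multiset W, D lf nd t S e0 n0 ∧
      n0 ≤ 2 ^ A.card + S.card * (2 * 2 ^ A.card) ∧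
      (∀ p ∈ P, Good (lf := lf) (nd := nd) S (2 * 2 ^ A.card) p) ∧ e = e0 + P.sum := by
  intro n
  induction n using Nat.strong_induction_on with
  | _ n ih =>
    intro S e h1 hS
    by_cases hn : 2 ^ A.card ≤ n
    · obtain ⟨h, S1, e1, n1, S2, e2, n2, p, q, r, s, u, rfl, rfl, rfl⟩ := cut A h1 hS hn
      obtain ⟨e0, n0, P, a, b, c, rfl⟩ := ih n1 (by omega) p
        (Finset.subset_union_left.trans hS)
      have mono : ∀ p ∈ P, Good (lf := lf) (nd := nd) (S1 ∪ S2) (2 * 2 ^ A.card) p := by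
        intro p hp
        obtain ⟨g, hg, z⟩ := c p hp
        exact ⟨g, by simp [hg], z⟩
      by_cases hU : S1 ∪ S2 = S1
      · refine ⟨e0, n0, e2 ::ₘ P, hU.symm ▸ a, hU.symm ▸ b, ?_,
          by simp only [Multiset.sum_cons]; abel⟩
        intro p hp
        rcases Multiset.mem_cons.1 hp with rfl | hp
        · exact ⟨h, by simp [q], S2, n2, r, u⟩
        · exact mono p hp
      · have : S1.card < (S1 ∪ S2).card :=
          Finset.card_lt_card (Finset.ssubset_iff_subset_ne.2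
            ⟨Finset.subset_union_left, fun h => hU h.symm⟩)
        refine ⟨e0 + e2, n0 + n2, P, ins a q r, ?_, mono, by abel⟩
        have := Nat.mul_le_mul_right (2 * 2 ^ A.card) (Nat.succ_le_of_lt this)
        rw [Nat.succ_mul] at this
        omega
    · exact ⟨e, n, 0, h1, by omega, by simp, by simp⟩

end parikh

end Pool.Agent.H24.Spd
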