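import Pool.Agent.H24.Spd1

set_option autoImplicit false

namespace Pool.Agent.H24.Spd

lemma unif (a b K : ℕ) (hab : a < b) (ha : 0 < a) : ∃ M : ℕ, ∀ A : Fin a → Fin b → ℤ,
    (∀ i j, |A i j| ≤ K) → ∃ t : Fin b → ℤ, t ≠ 0 ∧ (∀ i, ∑ j, A i j * t j = 0) ∧
      ∀ j, (t j).natAbs ≤ M := by
  have ex : ∀ A : Fin a → Fin b → ℤ, ∃ t : Fin b → ℤ, t ≠ 0 ∧ ∀ i, ∑ j, A i j * t j = 0 := by
    intro A
    obtain ⟨t, h1, h2, -⟩ := Int.Matrix.exists_ne_zero_int_vec_norm_le (Matrix.of A)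
      (by simpa using hab) (by simpa using ha)
    exact ⟨t, h1, fun i => congrFun h2 i⟩
  choose t h1 h2 using ex
  have hf : {A : Fin a → Fin b → ℤ | ∀ i, A i ∈ {v : Fin b → ℤ | ∀ j, v j ∈ Set.Icc (-(K : ℤ)) K}
      }.Finite := Set.Finite.pi' fun _ => Set.Finite.pi' fun _ => Set.finite_Icc _ _
  obtain ⟨M, hM⟩ := (hf.image fun A => ∑ j, (t A j).natAbs).bddAbove
  refine ⟨M, fun A hA => ⟨t A, h1 A, h2 A, fun j => ?_⟩⟩
  refine le_trans (Finset.single_le_sum (f := fun j => (t A j).natAbs) (fun _ _ => Nat.zero_le _)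
    (Finset.mem_univ j)) (hM ⟨A, fun i j => abs_le.1 (hA i j), rfl⟩)

abbrev Wt (n : ℕ) : Type := Fin (2 * n + 4) ⊕ Fin (n + 1) → ℕ

lemma final (n K K0 : ℕ) : ∃ m0 : ℕ, ∀ (G : Wt n → Prop) (e0 : Wt n) (P : Multiset (Wt n)),
    (∀ p, G p → ∀ c, p c ≤ K) →
    (∀ p, G p → ∃ i1 i2, ∀ a, p (Sum.inl a) ≠ 0 → a = i1 ∨ a = i2) →
    (∀ c, e0 c ≤ K0) → (∀ p ∈ P, G p) →
    (∀ a, m0 ≤ (e0 + P.sum) (Sum.inl a)) →
    (∀ j, (e0 + P.sum) (Sum.inr j) = (e0 + P.sum) (Sum.inr 0)) →
    (∀ P' : Multiset (Wt n), (∀ p ∈ P', G p) →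
      (∀ j, (e0 + P'.sum) (Sum.inr j) = (e0 + P'.sum) (Sum.inr 0)) →
      ∀ a, (e0 + P'.sum) (Sum.inl a) = (e0 + P'.sum) (Sum.inl 0)) → False := by
  classical
  obtain ⟨M, hM⟩ := unif (n + 1) (n + 2) K (by omega) (by omega)
  set Box : Finset (Wt n) := Fintype.piFinset fun _ => Finset.range (K + 1) with hBox
  refine ⟨K0 + Box.card * ((n + 2) * M * K) + 1, ?_⟩
  intro G e0 P hK hsupp h0 hP hbig hblk hall
  have heavy : ∀ a, ∃ p, (n + 2) * M ≤ P.count p ∧ p ∈ P ∧ p (Sum.inl a) ≠ 0 := by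
    intro a
    by_contra hn
    push Not at hn
    have h1 := hbig a
    have h2 : P.sum (Sum.inl a) ≤ Box.card * ((n + 2) * M * K) := by
      rw [Finset.sum_multiset_count_of_subset P Box (fun p hp => by
        simp only [hBox, Fintype.mem_piFinset, Finset.mem_range]
        exact fun c => Nat.lt_succ_of_le (hK p (hP p (Multiset.mem_toFinset.1 hp)) c)),
        Finset.sum_apply]
      refine (Finset.sum_le_card_nsmul _ _ ((n + 2) * M * K) fun p _ => ?_).trans (by simp)
      simp only [Pi.smul_apply, smul_eq_mul]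
      by_cases hp : p ∈ P
      · by_cases hc : (n + 2) * M ≤ P.count p
        · rw [hn p hc hp]; simp
        · exact Nat.mul_le_mul (by omega) (hK p (hP p hp) _)
      · simp [Multiset.count_eq_zero_of_notMem hp]
    have := h0 (Sum.inl a)
    simp only [Pi.add_apply] at h1
    omega
  choose! i1 i2 hi using hsupp
  have tri : ∀ t, t ≤ n + 2 → ∃ (p : ℕ → Wt n) (a : ℕ → Fin (2 * n + 4)), ∀ s < t,
      ((n + 2) * M ≤ P.count (p s) ∧ p s ∈ P) ∧ p s (Sum.inl (a s)) ≠ 0 ∧
        ∀ s' < s, p s' (Sum.inl (a s)) = 0 := by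
    intro t
    induction t with
    | zero => exact fun _ => ⟨fun _ => 0, fun _ => 0, by simp⟩
    | succ t ih =>
      intro ht
      obtain ⟨p, a, h⟩ := ih (by omega)
      obtain ⟨x, -, hx⟩ := Finset.exists_mem_notMem_of_card_lt_card
        (s := (Finset.range t).image (fun s => i1 (p s)) ∪
          (Finset.range t).image (fun s => i2 (p s))) (t := Finset.univ) (by
          have h1 := Finset.card_union_le ((Finset.range t).image (fun s => i1 (p s)))
            ((Finset.range t).image (fun s => i2 (p s)))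
          have h2 := Finset.card_image_le (s := Finset.range t) (f := fun s => i1 (p s))
          have h3 := Finset.card_image_le (s := Finset.range t) (f := fun s => i2 (p s))
          simp only [Finset.card_range, Finset.card_univ, Fintype.card_fin] at *
          omega)
      obtain ⟨y, y1, y2, y3⟩ := heavy x
      refine ⟨fun s => if s = t then y else p s, fun s => if s = t then x else a s, ?_⟩
      intro s hs
      by_cases hst : s = t
      · subst hst
        simp only [if_true]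
        refine ⟨⟨y1, y2⟩, y3, fun s' hs' => ?_⟩
        rw [if_neg hs'.ne]
        by_contra hne
        apply hx
        simp only [Finset.mem_union, Finset.mem_image, Finset.mem_range]
        rcases hi _ (hP _ (h s' hs').1.2) x hne with e | e
        · exact Or.inl ⟨s', hs', e.symm⟩
        · exact Or.inr ⟨s', hs', e.symm⟩
      · simp only [if_neg hst]
        obtain ⟨z1, z2, z3⟩ := h s (by omega)
        exact ⟨z1, z2, fun s' hs' => by rw [if_neg (by omega)]; exact z3 s' hs'⟩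
  obtain ⟨p, a, h⟩ := tri (n + 2) le_rfl
  have hG : ∀ s : Fin (n + 2), G (p s) := fun s => hP _ (h s s.2).1.2
  obtain ⟨t, t0, t1, t2⟩ := hM (fun j s => if j = 0 then (p s (Sum.inl 0) : ℤ) else
      (p s (Sum.inr j) : ℤ) - p s (Sum.inr 0)) (by
    intro j s
    have := hK _ (hG s) (Sum.inl 0)
    have := hK _ (hG s) (Sum.inr j)
    have := hK _ (hG s) (Sum.inr 0)
    rw [abs_le]
    split_ifs <;> constructor <;> omega)
  set N : Multiset (Wt n) := ∑ s : Fin (n + 2), Multiset.replicate (-t s).toNat (p s) with hN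
  set Pp : Multiset (Wt n) := ∑ s : Fin (n + 2), Multiset.replicate (t s).toNat (p s) with hPp
  have hNP : N ≤ P := by
    rw [Multiset.le_iff_count]
    intro x
    by_cases hx : ∃ s : Fin (n + 2), p s = x
    · obtain ⟨s, rfl⟩ := hx
      refine le_trans ?_ (h s s.2).1.1
      rw [hN, Multiset.count_sum']
      refine (Finset.sum_le_card_nsmul _ _ M fun s' _ => ?_).trans (by simp)
      rw [Multiset.count_replicate]
      have := t2 s'
      split_ifs <;> omega
    · rw [hN, Multiset.count_sum', Finset.sum_eq_zero]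
      · exact Nat.zero_le _
      · intro s' _
        rw [Multiset.count_replicate, if_neg fun e => hx ⟨s', e⟩]
  have key : ∀ c, ((e0 + (P - N + Pp).sum) c : ℤ) =
      (e0 + P.sum) c + ∑ s : Fin (n + 2), (p s c : ℤ) * t s := by
    intro c
    have e1 : (P - N).sum + N.sum = P.sum := by
      rw [← Multiset.sum_add, Multiset.sub_add_cancel hNP]
    have e2 : ∀ f : Fin (n + 2) → ℕ, ((∑ s : Fin (n + 2), Multiset.replicate (f s) (p s)).sum c
        : ℤ) = ∑ s : Fin (n + 2), (p s c : ℤ) * f s := by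
      intro f
      rw [Multiset.sum_sum, Finset.sum_apply]
      push_cast
      exact Finset.sum_congr rfl fun s _ => by simp [mul_comm]
    have e3 := congrFun e1 c
    have e4 := e2 fun s => (-t s).toNat
    have e5 := e2 fun s => (t s).toNat
    rw [← hN] at e4
    rw [← hPp] at e5
    have e6 : ∑ s : Fin (n + 2), (p s c : ℤ) * t s =
        ∑ s : Fin (n + 2), (p s c : ℤ) * ((t s).toNat : ℕ) -
          ∑ s : Fin (n + 2), (p s c : ℤ) * ((-t s).toNat : ℕ) := by
      rw [← Finset.sum_sub_distrib]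
      exact Finset.sum_congr rfl fun s _ => by rw [← mul_sub, Int.toNat_sub_toNat_neg]
    simp only [Multiset.sum_add, Pi.add_apply] at e3 ⊢
    push_cast
    omega
  have hc := hall (P - N + Pp) (by
    intro x hx
    rcases Multiset.mem_add.1 hx with hx | hx
    · exact hP x (Multiset.mem_of_le (Multiset.sub_le_self _ _) hx)
    · rw [hPp, Multiset.mem_sum] at hx
      obtain ⟨s, -, hs⟩ := hx
      rw [Multiset.eq_of_mem_replicate hs]
      exact hG s) (by
    intro j
    by_cases hj : j = 0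
    · rw [hj]
    have k1 := key (Sum.inr j)
    have k2 := key (Sum.inr 0)
    have k3 := t1 j
    have k4 := hblk j
    simp only [if_neg hj, sub_mul, Finset.sum_sub_distrib] at k3
    omega)
  have hc0 := hall P hP hblk
  have zero : ∀ x, ∑ s : Fin (n + 2), (p s (Sum.inl x) : ℤ) * t s = 0 := by
    intro x
    have k1 := key (Sum.inl x)
    have k2 := key (Sum.inl 0)
    have k3 := t1 0
    have k4 := hc x
    have k5 := hc0 x
    simp only [if_true] at k3
    omega
  obtain ⟨s, hs, hmax⟩ := Finset.exists_max_image (Finset.univ.filter fun s => t s ≠ 0) id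
    ((Function.ne_iff.1 t0).imp fun s hs => by simpa using hs)
  have hz := zero (a s)
  rw [Finset.sum_eq_single s] at hz
  · rcases mul_eq_zero.1 hz with e | e
    · exact (h s s.2).2.1 (by exact_mod_cast e)
    · exact (Finset.mem_filter.1 hs).2 e
  · intro s' _ hne
    by_cases ht : t s' = 0
    · simp [ht]
    · have : s' ≤ s := hmax s' (by simpa using ht)
      rw [(h s s.2).2.2 s' (lt_of_le_of_ne this fun e => hne (Fin.ext e))]
      simp
  · simp

lemma D.inv {T W : Type} [DecidableEq T] [AddCommMonoid W] {lf : T → Prop}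
    {nd : T → W → T → T → Prop} {t : T} {S : Finset T} {e : W} {n : ℕ} (h : D lf nd t S e n) :
    (lf t ∧ e = 0) ∨ ∃ w l r S1 S2 e1 e2 n1 n2, nd t w l r ∧ D lf nd l S1 e1 n1 ∧
      D lf nd r S2 e2 n2 ∧ e = w + e1 + e2 := by
  induction h with
  | leaf t a => exact Or.inl ⟨a, rfl⟩
  | node t w l r S1 S2 e1 e2 n1 n2 a b c _ _ =>
    exact Or.inr ⟨w, l, r, S1, S2, e1, e2, n1, n2, a, b, c, rfl⟩

section seq
variable {X Γ W : Type} [DecidableEq (X × List Γ × X)] [AddCommMonoid W]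
  (st : X → Γ → List Γ → X → W → Prop)

inductive Seq : X → List Γ → W → X → Prop
  | nil (x : X) : Seq x [] 0 x
  | cons (x x1 y : X) (Z : Γ) (γ β : List Γ) (w e : W) : st x Z γ x1 w → Seq x1 (γ ++ β) e y →
      Seq x (Z :: β) (w + e) y

def lf (t : X × List Γ × X) : Prop := t.2.1 = [] ∧ t.1 = t.2.2

def nd (t : X × List Γ × X) (w : W) (l r : X × List Γ × X) : Prop :=
  ∃ Z, t.2.1 = Z :: r.2.1 ∧ st t.1 Z l.2.1 l.1 w ∧ l.2.2 = r.1 ∧ r.2.2 = t.2.2

variable {st}

lemma toSeq {t : X × List Γ × X} {S : Finset (X × List Γ × X)} {e : W} {n : ℕ}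
    (h : D lf (nd st) t S e n) : ∀ β e' z, Seq st t.2.2 β e' z →
    Seq st t.1 (t.2.1 ++ β) (e + e') z := by
  induction h with
  | leaf t a => intro β e' z hz; rw [a.1, a.2]; simpa using hz
  | node t w l r S1 S2 e1 e2 n1 n2 a _ _ ih1 ih2 =>
    intro β e' z hz
    obtain ⟨Z, a1, a2, a3, a4⟩ := a
    have := Seq.cons _ _ _ Z _ _ _ _ a2 (ih1 _ _ _ (a3 ▸ ih2 β e' z (a4 ▸ hz)))
    rw [a1, show w + e1 + e2 + e' = w + (e1 + (e2 + e')) by abel]
    exact this

def Tr (x : X) (α : List Γ) (e : W) (y : X) : Prop := ∃ S n, D lf (nd st) (x, α, y) S e n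

lemma split (γ : List Γ) : ∀ (β : List Γ) (x z : X) (e : W), Tr (st := st) x (γ ++ β) e z →
    ∃ y e1 e2, Tr (st := st) x γ e1 y ∧ Tr (st := st) y β e2 z ∧ e = e1 + e2 := by
  induction γ with
  | nil => exact fun β x z e h => ⟨x, 0, e, ⟨_, _, D.leaf _ ⟨rfl, rfl⟩⟩, h, by simp⟩
  | cons Z γ ih =>
    rintro β x z e ⟨S, n, h⟩
    rcases D.inv h with ⟨a, -⟩ | ⟨w, l, r, S1, S2, e1, e2, n1, n2, a, b, c, rfl⟩
    · exact absurd a.1 (by simp)
    · obtain ⟨Z', a1, a2, a3, a4⟩ := a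
      obtain ⟨y1, α, y2⟩ := r
      simp only [List.cons_append, List.cons.injEq] at a1 a2 a3 a4
      obtain ⟨rfl, rfl⟩ := a1
      subst a4
      obtain ⟨y, f1, f2, ⟨U, k, p⟩, q, rfl⟩ := ih β y1 y2 e2 ⟨_, _, c⟩
      exact ⟨y, w + e1 + f1, f2, ⟨_, _, D.node (x, Z :: γ, y) w l (y1, γ, y) _ _ _ _ _ _
        ⟨Z, rfl, a2, a3, rfl⟩ b p⟩, q, by abel⟩

lemma toTr {x y : X} {α : List Γ} {e : W} (h : Seq st x α e y) : Tr (st := st) x α e y := by
  induction h with
  | nil x => exact ⟨_, _, D.leaf _ ⟨rfl, rfl⟩⟩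
  | cons x x1 y Z γ β w e a _ ih =>
    obtain ⟨z, e1, e2, ⟨S1, n1, p⟩, ⟨S2, n2, q⟩, rfl⟩ := split γ β x1 y e ih
    exact ⟨_, _, (D.node (x, Z :: β, y) w (x1, γ, z) (z, β, y) _ _ _ _ _ _
      ⟨Z, rfl, a, rfl, rfl⟩ p q).cast rfl (by abel) rfl⟩

end seq

end Pool.Agent.H24.Spd
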