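import Mathlib

set_option autoImplicit false

namespace Pool.Agent.H24.Spd

/-- A rule `Z q x → γ p`: top symbol `Z`, state `q`, input `x`, pushed string `γ` (written with
the new top first) and next state `p`. -/
structure Rule (σ Q Γ : Type) where
  top : Γ
  src : Q
  inp : List σ
  push : List Γ
  dst : Q

/-- A self-regulating pushdown automaton; each rule is its own label. -/
structure SPDA (σ : Type) where
  Q : Type
  Γ : Type
  finQ : Finite Q
  finΓ : Finite Γ
  δ : Set (Rule σ Q Γ)
  finδ : δ.Finite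
  q0 : Q
  qt : Q
  Z0 : Γ
  F : Set Q
  R : Rule σ Q Γ → Rule σ Q Γ → Prop

/-- `Comp δ α q w μ f`: from pushdown `α` (top first), state `q` and unread input `w`, the rules
`μ` apply in turn and lead to the empty pushdown, the state `f` and the empty input. -/
inductive Comp {σ Q Γ : Type} (δ : Set (Rule σ Q Γ)) :
    List Γ → Q → List σ → List (Rule σ Q Γ) → Q → Prop
  | nil (f : Q) : Comp δ [] f [] [] f
  | cons (r : Rule σ Q Γ) (β : List Γ) (v : List σ) (μ : List (Rule σ Q Γ)) (f : Q) :
      r ∈ δ → Comp δ (r.push ++ β) r.dst v μ f →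
      Comp δ (r.top :: β) r.src (r.inp ++ v) (r :: μ) f

/-- The words accepted in the `n`-turn first-move way: the rule sequence is a concatenation of
`n + 1` blocks of the same length, the first block `c ++ [r]` ends with the first rule entering
the turn state, and the first rules of consecutive blocks are `R`-related. -/
def SPDA.lang {σ : Type} (M : SPDA σ) (n : ℕ) : Set (List σ) :=
  {w | ∃ f ∈ M.F, ∃ (c : List (Rule σ M.Q M.Γ)) (r : Rule σ M.Q M.Γ)
    (bs : List (List (Rule σ M.Q M.Γ))),
    Comp M.δ [M.Z0] M.q0 w ((c ++ [r]) ++ bs.flatten) f ∧ bs.length = n ∧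
    (∀ b ∈ bs, b.length = c.length + 1) ∧ (∀ s ∈ c, s.dst ≠ M.qt) ∧ r.dst = M.qt ∧
    List.IsChain (fun b b' => ∃ s s', b.head? = some s ∧ b'.head? = some s' ∧ M.R s s')
      ((c ++ [r]) :: bs)}

/-- The family `FSPDA n` over the alphabet `σ`. -/
def FSPDA (n : ℕ) (σ : Type) : Set (Set (List σ)) := {L | ∃ M : SPDA σ, M.lang n = L}

end Pool.Agent.H24.Spd
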