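import Pool.Agent.H24.Spd2
import Pool.Agent.H24.SpdDefs

set_option autoImplicit false

namespace Pool.Agent.H24.Spd

def T0 {σ Q Γ : Type} (qt : Q) : Q → List (Rule σ Q Γ) → Prop
  | q, [] => q = qt
  | q, r :: c => q ≠ qt ∧ T0 qt r.dst c

lemma T0_of {σ Q Γ : Type} (qt : Q) (c : List (Rule σ Q Γ)) : ∀ r : Rule σ Q Γ, T0 qt r.dst c →
    ∃ c' r', r :: c = c' ++ [r'] ∧ (∀ s ∈ c', s.dst ≠ qt) ∧ r'.dst = qt := by
  induction c with
  | nil => exact fun r h => ⟨[], r, rfl, by simp, h⟩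
  | cons s c ih =>
    rintro r ⟨h1, h2⟩
    obtain ⟨c', r', a, b, d⟩ := ih s h2
    exact ⟨r :: c', r', by rw [a]; rfl, by simpa using ⟨h1, b⟩, d⟩

lemma of_T0 {σ Q Γ : Type} (qt : Q) (c' : List (Rule σ Q Γ)) (r' : Rule σ Q Γ) :
    (∀ s ∈ c', s.dst ≠ qt) → r'.dst = qt → ∃ r c, c' ++ [r'] = r :: c ∧ T0 qt r.dst c := by
  induction c' with
  | nil => exact fun _ h => ⟨r', [], rfl, h⟩
  | cons s c' ih =>
    intro h1 h2
    obtain ⟨r, c, a, b⟩ := ih (fun x hx => h1 x (by simp [hx])) h2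
    exact ⟨s, r :: c, by rw [← a]; rfl, h1 s (by simp), b⟩

abbrev hrel {α : Type} (R : α → α → Prop) (b b' : List α) : Prop :=
  ∃ s s', b.head? = some s ∧ b'.head? = some s' ∧ R s s'

lemma mem_lang {σ : Type} (M : SPDA σ) (n : ℕ) (w : List σ) : w ∈ M.lang n ↔
    ∃ f ∈ M.F, ∃ r c, ∃ bs : List (List (Rule σ M.Q M.Γ)),
      Comp M.δ [M.Z0] M.q0 w (r :: (c ++ bs.flatten)) f ∧ bs.length = n ∧
      (∀ b ∈ bs, b.length = c.length + 1) ∧ T0 M.qt r.dst c ∧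
      List.IsChain (hrel M.R) ((r :: c) :: bs) := by
  constructor
  · rintro ⟨f, hf, c', r', bs, h1, h2, h3, h4, h5, h6⟩
    obtain ⟨r, c, a, b⟩ := of_T0 M.qt c' r' h4 h5
    have hl : c'.length = c.length := by simpa using congrArg List.length a
    rw [a] at h1 h6
    exact ⟨f, hf, r, c, bs, h1, h2, hl ▸ h3, b, h6⟩
  · rintro ⟨f, hf, r, c, bs, h1, h2, h3, h4, h6⟩
    obtain ⟨c', r', a, b, d⟩ := T0_of M.qt c r h4
    have hl : c.length = c'.length := by simpa using congrArg List.length a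
    exact ⟨f, hf, c', r', bs, a ▸ h1, h2, hl ▸ h3, b, d, a ▸ h6⟩

lemma Comp.inv {σ Q Γ : Type} {δ : Set (Rule σ Q Γ)} {α : List Γ} {q f : Q} {w : List σ}
    {r : Rule σ Q Γ} {μ : List (Rule σ Q Γ)} (h : Comp δ α q w (r :: μ) f) :
    r ∈ δ ∧ ∃ β v, α = r.top :: β ∧ q = r.src ∧ w = r.inp ++ v ∧
      Comp δ (r.push ++ β) r.dst v μ f := by
  cases h with
  | cons _ β v _ _ a b => exact ⟨a, β, v, rfl, rfl, rfl, b⟩

lemma between {ι : Type} [LinearOrder ι] (x v : List ι) : ∀ i, (x ++ v).Pairwise (· ≤ ·) →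
    (∀ a ∈ x ++ v, i ≤ a) → ∃ i', i ≤ i' ∧ (∀ a ∈ x, a ≤ i') ∧ ∀ a ∈ v, i' ≤ a := by
  induction x with
  | nil => exact fun i _ h => ⟨i, le_rfl, by simp, by simpa using h⟩
  | cons a x ih =>
    intro i h1 h2
    rw [List.cons_append, List.pairwise_cons] at h1
    obtain ⟨i', b, c, d⟩ := ih a h1.2 h1.1
    exact ⟨i', (h2 a (by simp)).trans b, by simpa using ⟨b, c⟩, d⟩

lemma Seq.inv {X Γ W : Type} [AddCommMonoid W] {st : X → Γ → List Γ → X → W → Prop} {x y : X}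
    {Z : Γ} {β : List Γ} {e : W} (h : Seq st x (Z :: β) e y) :
    ∃ x1 γ w e', st x Z γ x1 w ∧ Seq st x1 (γ ++ β) e' y ∧ e = w + e' := by
  generalize hα : Z :: β = α at h
  cases h with
  | nil => simp at hα
  | cons =>
    obtain ⟨rfl, rfl⟩ := List.cons.inj hα
    exact ⟨_, _, _, _, ‹_›, ‹_›, rfl⟩

section low
variable {n : ℕ} (M : SPDA (Fin (2 * n + 4)))

abbrev XX : Type := M.Q × Fin (n + 1) × Option M.δ × Fin (2 * n + 4)

def wt (x : List (Fin (2 * n + 4))) (j : Fin (n + 1)) : Wt n :=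
  Sum.elim (fun a => x.count a) fun j' => if j' = j then 1 else 0

def st (x : XX M) (Z : M.Γ) (γ : List M.Γ) (x' : XX M) (w : Wt n) : Prop :=
  ∃ r : M.δ, r.1.top = Z ∧ r.1.push = γ ∧ r.1.src = x.1 ∧ r.1.dst = x'.1 ∧
    x.2.2.2 ≤ x'.2.2.2 ∧ (∀ a ∈ r.1.inp, x.2.2.2 ≤ a ∧ a ≤ x'.2.2.2) ∧ w = wt r.1.inp x'.2.1 ∧
    ((x.2.2.1 = none ∧ x'.2.1 = 0 ∧ x'.2.2.1 = some r) ∨
     (x.2.2.1 ≠ none ∧ x'.2.1 = x.2.1 ∧ x'.2.2.1 = x.2.2.1 ∧ (x.2.1.1 = 0 → x.1 ≠ M.qt)) ∨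
     (∃ s, x.2.2.1 = some s ∧ x'.2.1.1 = x.2.1.1 + 1 ∧ x'.2.2.1 = some r ∧ M.R s.1 r.1 ∧
       (x.2.1.1 = 0 → x.1 = M.qt)))

lemma sound {x y : XX M} {α : List M.Γ} {e : Wt n} (h : Seq (st M) x α e y) (hy : y.2.1.1 = n)
    (hq : n = 0 → y.1 = M.qt) : ∀ s, x.2.2.1 = some s →
    ∃ w c, ∃ bs : List (List (Rule _ M.Q M.Γ)), Comp M.δ α x.1 w (c ++ bs.flatten) y.1 ∧
      bs.length + x.2.1.1 = n ∧ (∀ a, e (Sum.inl a) = w.count a) ∧
      e (Sum.inr x.2.1) = c.length ∧ (∀ j, j < x.2.1 → e (Sum.inr j) = 0) ∧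
      (∀ k, (∀ j, x.2.1 < j → e (Sum.inr j) = k) → ∀ b ∈ bs, b.length = k) ∧
      (x.2.1.1 = 0 → T0 M.qt x.1 c) ∧ ∀ c0, List.IsChain (hrel M.R) ((s.1 :: c0) :: bs) := by
  induction h with
  | nil x =>
    exact fun s _ => ⟨[], [], [], Comp.nil _, by simpa using hy, by simp, by simp, by simp,
      by simp, fun h => hq (by omega), by simp⟩
  | cons x x1 y Z γ β w e a _ ih =>
    intro s hs
    obtain ⟨r, rfl, rfl, a3, a4, -, -, rfl, a8⟩ := a
    rcases a8 with ⟨b, -⟩ | ⟨-, b2, b3, b4⟩ | ⟨s', b1, b2, b3, b4, b5⟩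
    · simp [hs] at b
    · obtain ⟨v, c, bs, c1, c2, c3, c4, c5, c6, c7, c8⟩ := ih hy hq s (b3.trans hs)
      rw [b2] at c2 c4 c5 c6 c7
      refine ⟨r.1.inp ++ v, r.1 :: c, bs, a3 ▸ Comp.cons r.1 β v _ _ r.2 (a4 ▸ c1), c2, ?_, ?_,
        ?_, ?_, fun h => ⟨b4 h, a4 ▸ c7 h⟩, c8⟩
      · intro a; simp [wt, c3]
      · simp [wt, b2, c4, add_comm]
      · intro j hj; simp [wt, b2, c5 j hj, hj.ne]
      · intro k hk
        exact c6 k fun j hj => by simpa [wt, b2, hj.ne'] using hk j hj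
    · obtain ⟨v, c, bs, c1, c2, c3, c4, c5, c6, c7, c8⟩ := ih hy hq r b3
      obtain rfl : s = s' := by simpa [hs] using b1
      have hlt : x.2.1 < x1.2.1 := by rw [Fin.lt_def]; omega
      refine ⟨r.1.inp ++ v, [], (r.1 :: c) :: bs,
        a3 ▸ Comp.cons r.1 β v _ _ r.2 (a4 ▸ c1), by simp; omega, ?_, ?_, ?_, ?_, b5, ?_⟩
      · intro a; simp [wt, c3]
      · simp [wt, hlt.ne, c5 _ hlt]
      · intro j hj; simp [wt, (hj.trans hlt).ne, c5 j (hj.trans hlt)]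
      · intro k hk b hb
        rcases List.mem_cons.1 hb with rfl | hb
        · simpa [wt, c4, add_comm] using hk _ hlt
        · exact c6 k (fun j hj => by simpa [wt, hj.ne'] using hk j (hlt.trans hj)) b hb
      · exact fun c0 => List.isChain_cons_cons.2 ⟨⟨_, _, rfl, rfl, b4⟩, c8 c⟩

lemma complete (k : ℕ) {α : List M.Γ} {q f : M.Q} {w : List (Fin (2 * n + 4))}
    {μ : List (Rule _ M.Q M.Γ)} (h : Comp M.δ α q w μ f) :
    ∀ (c : List (Rule _ M.Q M.Γ)) (bs : List (List (Rule _ M.Q M.Γ))) (j : Fin (n + 1)) (s : M.δ)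
      (i : Fin (2 * n + 4)) (c0 : List (Rule _ M.Q M.Γ)), μ = c ++ bs.flatten →
      w.Pairwise (· ≤ ·) → (∀ a ∈ w, i ≤ a) → bs.length + j.1 = n → (∀ b ∈ bs, b.length = k) →
      (j.1 = 0 → T0 M.qt q c) → List.IsChain (hrel M.R) ((s.1 :: c0) :: bs) →
      ∃ e y, Seq (st M) (q, j, some s, i) α e y ∧ y.1 = f ∧ y.2.1.1 = n ∧ (n = 0 → f = M.qt) ∧
        (∀ a, e (Sum.inl a) = w.count a) ∧ e (Sum.inr j) = c.length ∧
        (∀ j', j' < j → e (Sum.inr j') = 0) ∧ ∀ j', j < j' → e (Sum.inr j') = k := by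
  induction h with
  | nil f =>
    intro c bs j s i c0 h1 _ _ h4 _ h6 h7
    obtain ⟨rfl, h1'⟩ := List.append_eq_nil_iff.1 h1.symm
    obtain rfl : bs = [] := by
      cases bs with
      | nil => rfl
      | cons b bs =>
        obtain ⟨_, s', -, e, -⟩ := (List.isChain_cons_cons.1 h7).1
        cases b with
        | nil => simp at e
        | cons _ _ => simp at h1'
    simp only [List.length_nil, zero_add] at h4
    exact ⟨0, _, Seq.nil _, rfl, h4, fun h => h6 (by omega), by simp, by simp, by simp,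
      fun j' hj => by have := j'.2; rw [Fin.lt_def] at hj; omega⟩
  | cons r β v μ f a _ ih =>
    intro c bs j s i c0 h1 h2 h3 h4 h5 h6 h7
    obtain ⟨i', d1, d2, d3⟩ := between r.inp v i h2 h3
    have h2' := (List.pairwise_append.1 h2).2.1
    have d4 : ∀ a ∈ r.inp, i ≤ a ∧ a ≤ i' := fun a ha => ⟨h3 a (by simp [ha]), d2 a ha⟩
    cases c with
    | cons r' c =>
      obtain ⟨rfl, h1'⟩ := List.cons.inj h1
      obtain ⟨e, y, c1, c2, c3, c4, c5, c6, c7, c8⟩ := ih c bs j s i' c0 h1' h2' d3 h4 h5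
        (fun h => (h6 h).2) h7
      refine ⟨_, y, Seq.cons _ (r.dst, j, some s, i') y _ _ _ (wt r.inp j) e
        ⟨⟨r, a⟩, rfl, rfl, rfl, rfl, d1, d4, rfl,
          Or.inr (Or.inl ⟨by simp, rfl, rfl, fun h => (h6 h).1⟩)⟩ c1, c2, c3, c4, ?_, ?_, ?_, ?_⟩
      · intro a; simp [wt, c5]
      · simp [wt, c6, add_comm]
      · intro j' hj; simp [wt, c7 j' hj, hj.ne]
      · intro j' hj; simp [wt, c8 j' hj, hj.ne']
    | nil =>
      cases bs with
      | nil => simp at h1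
      | cons b bs =>
        obtain ⟨⟨s1, s2, e1, e2, e3⟩, h7'⟩ := List.isChain_cons_cons.1 h7
        cases b with
        | nil => simp at e2
        | cons r' c =>
          obtain ⟨rfl, h1'⟩ := List.cons.inj h1
          obtain rfl : s.1 = s1 := by simpa using e1
          obtain rfl : r = s2 := by simpa using e2
          simp only [List.length_cons] at h4
          have hk : c.length + 1 = k := h5 (r :: c) (by simp)
          obtain ⟨e, y, c1, c2, c3, c4, c5, c6, c7, c8⟩ := ih c bs ⟨j.1 + 1, by omega⟩ ⟨r, a⟩ i' c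
            h1' h2' d3 (by simp only; omega) (fun b hb => h5 b (by simp [hb])) (by simp) h7'
          have hlt : j < ⟨j.1 + 1, by omega⟩ := by rw [Fin.lt_def]; simp
          refine ⟨_, y, Seq.cons _ (r.dst, ⟨j.1 + 1, by omega⟩, some ⟨r, a⟩, i') y _ _ _
            (wt r.inp ⟨j.1 + 1, by omega⟩) e ⟨⟨r, a⟩, rfl, rfl, rfl, rfl, d1, d4, rfl,
              Or.inr (Or.inr ⟨s, rfl, rfl, rfl, e3, h6⟩)⟩ c1, c2, c3, c4, ?_, ?_, ?_, ?_⟩
          · intro a; simp [wt, c5]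
          · simp [wt, hlt.ne, c7 _ hlt]
          · intro j' hj; simp [wt, (hj.trans hlt).ne, c7 j' (hj.trans hlt)]
          · intro j' hj
            by_cases he : j' = ⟨j.1 + 1, by omega⟩
            · rw [he]; simp [wt, c6]; omega
            · have : (⟨j.1 + 1, by omega⟩ : Fin (n + 1)) < j' := by
                rw [Fin.lt_def] at hj ⊢
                rw [Fin.ext_iff] at he
                simp only at he ⊢
                omega
              simp [wt, he, c8 j' this]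

variable [DecidableEq (XX M × List M.Γ × XX M)]

lemma suppD {t : XX M × List M.Γ × XX M} {S : Finset _} {e : Wt n} {m : ℕ}
    (h : D lf (nd (st M)) t S e m) : t.1.2.2.2 ≤ t.2.2.2.2.2 ∧
      ∀ a, e (Sum.inl a) ≠ 0 → t.1.2.2.2 ≤ a ∧ a ≤ t.2.2.2.2.2 := by
  induction h with
  | leaf t a => exact ⟨by rw [a.2], by simp⟩
  | node t w l r S1 S2 e1 e2 n1 n2 a _ _ ih1 ih2 =>
    obtain ⟨Z, -, ⟨ρ, -, -, -, -, b1, b2, rfl, -⟩, a3, a4⟩ := a
    rw [a3] at ih1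
    rw [a4] at ih2
    refine ⟨(b1.trans ih1.1).trans ih2.1, fun x hx => ?_⟩
    simp only [Pi.add_apply, wt, Sum.elim_inl, ne_eq, Nat.add_eq_zero_iff, not_and_or] at hx
    rcases hx with (hx | hx) | hx
    · have := b2 x (List.count_pos_iff.1 (by omega))
      exact ⟨this.1, (this.2.trans ih1.1).trans ih2.1⟩
    · exact ⟨b1.trans (ih1.2 x hx).1, (ih1.2 x hx).2.trans ih2.1⟩
    · exact ⟨(b1.trans ih1.1).trans (ih2.2 x hx).1, (ih2.2 x hx).2⟩

lemma suppC {t g : XX M × List M.Γ × XX M} {S : Finset _} {e : Wt n} {m : ℕ}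
    (h : C lf (nd (st M)) t g S e m) : t.1.2.2.2 ≤ g.1.2.2.2 ∧ g.2.2.2.2.2 ≤ t.2.2.2.2.2 ∧
      ∀ a, e (Sum.inl a) ≠ 0 → (t.1.2.2.2 ≤ a ∧ a ≤ g.1.2.2.2) ∨
        (g.2.2.2.2.2 ≤ a ∧ a ≤ t.2.2.2.2.2) := by
  induction h with
  | hole t => exact ⟨le_rfl, le_rfl, by simp⟩
  | left t w l r g S1 S2 e1 e2 n1 n2 a _ c ih1 =>
    have ih2 := suppD M c
    obtain ⟨Z, -, ⟨ρ, -, -, -, -, b1, b2, rfl, -⟩, a3, a4⟩ := a
    rw [a3] at ih1
    rw [a4] at ih2
    refine ⟨b1.trans ih1.1, ih1.2.1.trans ih2.1, fun x hx => ?_⟩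
    simp only [Pi.add_apply, wt, Sum.elim_inl, ne_eq, Nat.add_eq_zero_iff, not_and_or] at hx
    rcases hx with (hx | hx) | hx
    · have := b2 x (List.count_pos_iff.1 (by omega))
      exact Or.inl ⟨this.1, this.2.trans ih1.1⟩
    · exact (ih1.2.2 x hx).imp (fun h => ⟨b1.trans h.1, h.2⟩) fun h => ⟨h.1, h.2.trans ih2.1⟩
    · exact Or.inr ⟨ih1.2.1.trans (ih2.2 x hx).1, (ih2.2 x hx).2⟩
  | right t w l r g S1 S2 e1 e2 n1 n2 a b _ ih2 =>
    have ih1 := suppD M b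
    obtain ⟨Z, -, ⟨ρ, -, -, -, -, b1, b2, rfl, -⟩, a3, a4⟩ := a
    rw [a3] at ih1
    rw [a4] at ih2
    refine ⟨(b1.trans ih1.1).trans ih2.1, ih2.2.1, fun x hx => ?_⟩
    simp only [Pi.add_apply, wt, Sum.elim_inl, ne_eq, Nat.add_eq_zero_iff, not_and_or] at hx
    rcases hx with (hx | hx) | hx
    · have := b2 x (List.count_pos_iff.1 (by omega))
      exact Or.inl ⟨this.1, (this.2.trans ih1.1).trans ih2.1⟩
    · exact Or.inl ⟨b1.trans (ih1.2 x hx).1, (ih1.2 x hx).2.trans ih2.1⟩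
    · exact (ih2.2.2 x hx).imp (fun h => ⟨(b1.trans ih1.1).trans h.1, h.2⟩) id

omit [DecidableEq (XX M × List M.Γ × XX M)] in
lemma wt_le {L : ℕ} (hL : ∀ r ∈ M.δ, r.inp.length ≤ L) {t l r : XX M × List M.Γ × XX M}
    {w : Wt n} (a : nd (st M) t w l r) (c : _) : w c ≤ L + 1 := by
  obtain ⟨Z, -, ⟨ρ, -, -, -, -, -, -, rfl, -⟩, -⟩ := a
  rcases c with c | c
  · exact (List.count_le_length.trans (hL _ ρ.2)).trans (Nat.le_succ _)
  · simp only [wt, Sum.elim_inr]; split_ifs <;> omega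

lemma bdD {L : ℕ} (hL : ∀ r ∈ M.δ, r.inp.length ≤ L) {t : XX M × List M.Γ × XX M} {S : Finset _}
    {e : Wt n} {m : ℕ} (h : D lf (nd (st M)) t S e m) (c : _) : e c ≤ (L + 1) * m := by
  induction h with
  | leaf t a => simp
  | node t w l r S1 S2 e1 e2 n1 n2 a _ _ ih1 ih2 =>
    have := wt_le M hL a c
    simp only [Pi.add_apply, mul_add, mul_one]
    omega

lemma bdC {L : ℕ} (hL : ∀ r ∈ M.δ, r.inp.length ≤ L) {t g : XX M × List M.Γ × XX M}
    {S : Finset _} {e : Wt n} {m : ℕ} (h : C lf (nd (st M)) t g S e m) (c : _) :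
    e c ≤ (L + 1) * m := by
  induction h with
  | hole t => simp
  | left t w l r g S1 S2 e1 e2 n1 n2 a _ b ih1 =>
    have := wt_le M hL a c
    have := bdD M hL b c
    simp only [Pi.add_apply, mul_add, mul_one]
    omega
  | right t w l r g S1 S2 e1 e2 n1 n2 a b _ ih1 =>
    have := wt_le M hL a c
    have := bdD M hL b c
    simp only [Pi.add_apply, mul_add, mul_one]
    omega

omit [DecidableEq (XX M × List M.Γ × XX M)] in
def Suf : Set (List M.Γ) := ⋃ γ ∈ insert [M.Z0] (Rule.push '' M.δ), {α | α ∈ γ.tails}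

omit [DecidableEq (XX M × List M.Γ × XX M)] in
lemma Suf_fin : (Suf M).Finite :=
  ((M.finδ.image _).insert _).biUnion fun γ _ => List.finite_toSet _

lemma inSuf {t : XX M × List M.Γ × XX M} {S : Finset _} {e : Wt n} {m : ℕ}
    (h : D lf (nd (st M)) t S e m) : t.2.1 ∈ Suf M → ∀ u ∈ S, u.2.1 ∈ Suf M := by
  induction h with
  | leaf t a => simp
  | node t w l r S1 S2 e1 e2 n1 n2 a _ _ ih1 ih2 =>
    intro ht u hu
    obtain ⟨Z, a1, ⟨ρ, -, a2, -⟩, -⟩ := a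
    simp only [Finset.mem_insert, Finset.mem_union] at hu
    rcases hu with rfl | hu | hu
    · exact ht
    · refine ih1 ?_ u hu
      exact Set.mem_biUnion (Or.inr ⟨ρ.1, ρ.2, a2⟩) (by simp)
    · refine ih2 ?_ u hu
      simp only [Suf, Set.mem_iUnion, Set.mem_setOf_eq, List.mem_tails] at ht ⊢
      obtain ⟨γ, h1, h2⟩ := ht
      exact ⟨γ, h1, (List.suffix_cons Z _).trans (a1 ▸ h2)⟩

omit [DecidableEq (XX M × List M.Γ × XX M)] in
theorem lower (h1 : ∀ w ∈ M.lang n, ∀ a, w.count a = w.count 0)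
    (h2 : ∀ m, ∃ w ∈ M.lang n, w.Pairwise (· ≤ ·) ∧ ∀ a, m ≤ w.count a) : False := by
  classical
  haveI := M.finQ
  haveI := M.finδ.to_subtype
  obtain ⟨L, hL⟩ := (M.finδ.image fun r => r.inp.length).bddAbove
  have hL' : ∀ r ∈ M.δ, r.inp.length ≤ L := fun r hr => hL ⟨r, hr, rfl⟩
  have hA : {t : XX M × List M.Γ × XX M | t.2.1 ∈ Suf M}.Finite :=
    (Set.finite_univ.prod ((Suf_fin M).prod Set.finite_univ)).subset fun t ht =>
      ⟨trivial, ht, trivial⟩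
  set A := hA.toFinset with hAd
  obtain ⟨m0, hm0⟩ := final n ((L + 1) * (2 * 2 ^ A.card))
    ((L + 1) * (2 ^ A.card + A.card * (2 * 2 ^ A.card)))
  obtain ⟨w, hw, hs, hm⟩ := h2 m0
  obtain ⟨f, hf, r, c, bs, c1, c2, c3, c4, c5⟩ := (mem_lang M n w).1 hw
  obtain ⟨hr, β, v, e1, e2, rfl, c1⟩ := c1.inv
  obtain ⟨e3, rfl⟩ := List.cons.inj e1
  obtain ⟨i', d1, d2, d3⟩ := between r.inp v 0 hs (fun a _ => Fin.zero_le a)
  obtain ⟨e, y, g1, g2, g3, g4, g5, g6, -, g8⟩ := complete M (c.length + 1) c1 c bs 0 ⟨r, hr⟩ i' c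
    rfl (List.pairwise_append.1 hs).2.1 d3 (by simpa using c2) c3 (fun _ => c4) c5
  have g0 := Seq.cons (st := st M) (M.q0, 0, none, 0) (r.dst, 0, some ⟨r, hr⟩, i') y M.Z0 r.push
    [] (wt r.inp 0) e ⟨⟨r, hr⟩, e3.symm, rfl, e2.symm, rfl, d1,
      fun a ha => ⟨Fin.zero_le a, d2 a ha⟩, rfl, Or.inl ⟨rfl, rfl, rfl⟩⟩ g1
  obtain ⟨S, m, hD⟩ := toTr g0
  have hSA : S ⊆ A := fun u hu => hA.mem_toFinset.2
    (inSuf M hD (Set.mem_biUnion (Or.inl rfl) (by simp)) u hu)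
  obtain ⟨e0, n0, P, p1, p2, p3, p4⟩ := parikh A m hD hSA
  refine hm0 (Good (lf := lf) (nd := nd (st M)) S (2 * 2 ^ A.card)) e0 P ?_ ?_ ?_ p3 ?_ ?_ ?_
  · rintro p ⟨g, -, S', n', a, b⟩ x
    exact (bdC M hL' a x).trans (Nat.mul_le_mul_left _ b)
  · rintro p ⟨g, -, S', n', a, -⟩
    exact ⟨g.1.2.2.2, g.2.2.2.2.2, fun x hx => ((suppC M a).2.2 x hx).imp
      (fun h => le_antisymm h.2 h.1) fun h => le_antisymm h.2 h.1⟩
  · intro x
    refine (bdD M hL' p1 x).trans (Nat.mul_le_mul_left _ (p2.trans ?_))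
    have := Finset.card_le_card hSA
    gcongr
  · intro a
    rw [← p4]
    simpa [wt, g5] using hm a
  · intro j
    rw [← p4]
    by_cases hj : j = 0
    · rw [hj]
    · simp [wt, hj, g6, g8 j (Fin.pos_iff_ne_zero.2 hj), add_comm]
  · intro P' hP' hb
    obtain ⟨S', n', -, q⟩ := insAll p1 P' hP'
    have q1 := toSeq q [] 0 y (Seq.nil y)
    simp only [List.append_nil, add_zero] at q1
    generalize e0 + P'.sum = E at q1 hb
    obtain ⟨x1, γ, w', e', a, b, rfl⟩ := q1.inv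
    · obtain ⟨ρ, a1, rfl, a3, a4, -, -, rfl, a8⟩ := a
      rcases a8 with ⟨-, b2, b3⟩ | ⟨b, -⟩ | ⟨s', b1, -⟩
      · obtain ⟨u, c', bs', k1, k2, k3, k4, -, k6, k7, k8⟩ := sound M b g3
          (fun h => g2.trans (g4 h)) ρ b3
        rw [b2] at k2 k4 k6 k7 hb
        have hu : ρ.1.inp ++ u ∈ M.lang n := (mem_lang M n _).2 ⟨f, hf, ρ.1, c', bs', by
          have := Comp.cons ρ.1 [] u _ _ ρ.2 (a4 ▸ k1)
          rw [a1, a3, g2] at this
          exact this, by simpa using k2, k6 _ (fun j hj => by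
            simpa [wt, hj.ne', k4, add_comm] using hb j), a4 ▸ k7 rfl, k8 c'⟩
        intro a
        simpa [wt, k3] using h1 _ hu a
      · simp at b
      · simp at b1

end low

end Pool.Agent.H24.Spd
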