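import Pool.Agent.H24.Spd3

set_option autoImplicit false

namespace Pool.Agent.H24.Spd

section up
variable {σ : Type} (M : SPDA σ)

open Classical in
noncomputable def nx (p : Fin 3) (r : Rule σ M.Q M.Γ) : Fin 3 :=
  if p = 0 then (if r.dst = M.qt then 1 else 0) else 2

noncomputable def lift (r : Rule σ M.Q M.Γ) (p : Fin 3) : Rule σ (Option (M.Q × Fin 3)) M.Γ :=
  ⟨r.top, some (r.src, p), r.inp, r.push, some (r.dst, nx M p r)⟩

def id1 : Rule σ (Option (M.Q × Fin 3)) M.Γ := ⟨M.Z0, none, [], [M.Z0], none⟩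

def id2 : Rule σ (Option (M.Q × Fin 3)) M.Γ := ⟨M.Z0, none, [], [M.Z0], some (M.q0, 0)⟩

def δ' : Set (Rule σ (Option (M.Q × Fin 3)) M.Γ) :=
  insert (id1 M) (insert (id2 M) (Set.image2 (lift M) M.δ Set.univ))

def R' (ρ ρ' : Rule σ (Option (M.Q × Fin 3)) M.Γ) : Prop :=
  ρ.src = none ∨ ∃ r s p p', ρ = lift M r p ∧ ρ' = lift M s p' ∧ M.R r s ∧ (p = 0 → p' = 1)

def up (n : ℕ) : SPDA σ where
  Q := Option (M.Q × Fin 3)
  Γ := M.Γ
  finQ := by haveI := M.finQ; infer_instance
  finΓ := M.finΓ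
  δ := δ' M
  finδ := ((M.finδ.image2 _ Set.finite_univ).insert _).insert _
  q0 := none
  qt := some (M.q0, 0)
  Z0 := M.Z0
  F := {x | ∃ f ∈ M.F, ∃ p, x = some (f, p) ∧ (n = 0 → p = 1)}
  R := R' M

noncomputable def liftL : Fin 3 → List (Rule σ M.Q M.Γ) → List (Rule σ (Option (M.Q × Fin 3)) M.Γ)
  | _, [] => []
  | p, r :: μ => lift M r p :: liftL (nx M p r) μ

noncomputable def endp : Fin 3 → List (Rule σ M.Q M.Γ) → Fin 3
  | p, [] => p
  | p, r :: μ => endp (nx M p r) μ

noncomputable def liftB : Fin 3 → List (List (Rule σ M.Q M.Γ)) →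
    List (List (Rule σ (Option (M.Q × Fin 3)) M.Γ))
  | _, [] => []
  | p, b :: bs => liftL M p b :: liftB (endp M p b) bs

lemma lift_inj {r s : Rule σ M.Q M.Γ} {p p' : Fin 3} (h : lift M r p = lift M s p') :
    r = s ∧ p = p' := by
  cases r; cases s
  simp only [lift, Rule.mk.injEq, Option.some.injEq, Prod.mk.injEq] at h ⊢
  tauto

lemma comp_up {α : List M.Γ} {q f : M.Q} {w : List σ} {μ : List (Rule σ M.Q M.Γ)}
    (h : Comp M.δ α q w μ f) :
    ∀ p, Comp (δ' M) α (some (q, p)) w (liftL M p μ) (some (f, endp M p μ)) := by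
  induction h with
  | nil f => exact fun p => Comp.nil _
  | cons r β v μ f a _ ih =>
    exact fun p => Comp.cons (lift M r p) β v _ _ (Or.inr (Or.inr ⟨r, a, p, trivial, rfl⟩)) (ih _)

lemma comp_down {α : List M.Γ} {q' f' : Option (M.Q × Fin 3)} {w : List σ}
    {μ' : List (Rule σ (Option (M.Q × Fin 3)) M.Γ)} (h : Comp (δ' M) α q' w μ' f') :
    ∀ q p, q' = some (q, p) → ∃ μ f, μ' = liftL M p μ ∧ f' = some (f, endp M p μ) ∧
      Comp M.δ α q w μ f := by
  induction h with
  | nil f => exact fun q p h => ⟨[], q, rfl, h, Comp.nil _⟩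
  | cons ρ β v μ f a _ ih =>
    intro q p h
    rcases a with rfl | rfl | ⟨r, a, p', -, rfl⟩
    · simp [id1] at h
    · simp [id2] at h
    · simp only [lift, Option.some.injEq, Prod.mk.injEq] at h
      obtain ⟨rfl, rfl⟩ := h
      obtain ⟨μ, f, rfl, rfl, c⟩ := ih _ _ rfl
      exact ⟨r :: μ, f, rfl, rfl, Comp.cons r β v μ f a c⟩

lemma liftL_append (a b : List (Rule σ M.Q M.Γ)) :
    ∀ p, liftL M p (a ++ b) = liftL M p a ++ liftL M (endp M p a) b := by
  induction a with
  | nil => exact fun p => rfl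
  | cons r a ih => intro p; simp [liftL, endp, ih]

lemma liftL_length (a : List (Rule σ M.Q M.Γ)) : ∀ p, (liftL M p a).length = a.length := by
  induction a with
  | nil => exact fun p => rfl
  | cons r a ih => intro p; simp [liftL, ih]

lemma liftL_split (a b : List (Rule σ (Option (M.Q × Fin 3)) M.Γ)) : ∀ p μ,
    a ++ b = liftL M p μ → ∃ μ1 μ2, μ = μ1 ++ μ2 ∧ a = liftL M p μ1 ∧
      b = liftL M (endp M p μ1) μ2 := by
  induction a with
  | nil => exact fun p μ h => ⟨[], μ, rfl, rfl, h⟩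
  | cons ρ a ih =>
    intro p μ h
    cases μ with
    | nil => simp [liftL] at h
    | cons r μ =>
      obtain ⟨rfl, h'⟩ := List.cons.inj h
      obtain ⟨μ1, μ2, rfl, rfl, rfl⟩ := ih _ _ h'
      exact ⟨r :: μ1, μ2, rfl, rfl, rfl⟩

lemma liftB_flat (bs : List (List (Rule σ M.Q M.Γ))) :
    ∀ p, (liftB M p bs).flatten = liftL M p bs.flatten := by
  induction bs with
  | nil => exact fun p => rfl
  | cons b bs ih => intro p; simp [liftB, liftL_append, ih]

lemma liftB_len (bs : List (List (Rule σ M.Q M.Γ))) : ∀ p,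
    (liftB M p bs).map List.length = bs.map List.length := by
  induction bs with
  | nil => exact fun p => rfl
  | cons b bs ih => intro p; simp [liftB, liftL_length, ih]

lemma liftB_split (bs' : List (List (Rule σ (Option (M.Q × Fin 3)) M.Γ))) : ∀ p μ,
    bs'.flatten = liftL M p μ → ∃ bs, bs' = liftB M p bs ∧ μ = bs.flatten := by
  induction bs' with
  | nil =>
    intro p μ h
    cases μ with
    | nil => exact ⟨[], rfl, rfl⟩
    | cons r μ => simp [liftL] at h
  | cons b bs' ih =>
    intro p μ h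
    obtain ⟨μ1, μ2, rfl, rfl, h'⟩ := liftL_split M b bs'.flatten p μ h
    obtain ⟨bs, rfl, rfl⟩ := ih _ _ h'
    exact ⟨μ1 :: bs, rfl, rfl⟩

lemma endp_two (c : List (Rule σ M.Q M.Γ)) : endp M 2 c = 2 := by
  induction c with
  | nil => rfl
  | cons r c ih => simpa [endp, nx] using ih

lemma endp_ne (c : List (Rule σ M.Q M.Γ)) (p : Fin 3) (hp : p ≠ 0) : endp M p c ≠ 0 := by
  cases c with
  | nil => exact hp
  | cons r c => simp [endp, nx, hp, endp_two]

lemma T0_iff (c : List (Rule σ M.Q M.Γ)) : ∀ r : Rule σ M.Q M.Γ,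
    T0 M.qt r.dst c ↔ endp M 0 (r :: c) = 1 := by
  induction c with
  | nil => intro r; by_cases h : r.dst = M.qt <;> simp [T0, endp, nx, h]
  | cons s c ih =>
    intro r
    by_cases h : r.dst = M.qt
    · simp [T0, endp, nx, h, endp_two]
    · have := ih s
      simp only [endp] at this
      simp [T0, endp, h, this, show nx M 0 r = 0 by simp [nx, h]]

lemma hrel_iff (b b' : List (Rule σ M.Q M.Γ)) (p p' : Fin 3) :
    hrel (R' M) (liftL M p b) (liftL M p' b') ↔ hrel M.R b b' ∧ (p = 0 → p' = 1) := by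
  cases b with
  | nil => simp [hrel, liftL]
  | cons r b =>
    cases b' with
    | nil => simp [hrel, liftL]
    | cons s b' =>
      simp only [hrel, liftL, List.head?_cons, Option.some.injEq, exists_and_left,
        exists_eq_left']
      constructor
      · rintro (h | ⟨r', s', u, u', h1, h2, h3, h4⟩)
        · simp [lift] at h
        · obtain ⟨rfl, rfl⟩ := lift_inj M h1
          obtain ⟨rfl, rfl⟩ := lift_inj M h2
          exact ⟨h3, h4⟩
      · exact fun h => Or.inr ⟨r, s, p, p', rfl, rfl, h.1, h.2⟩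

lemma chain_iff (bs : List (List (Rule σ M.Q M.Γ))) : ∀ b p,
    List.IsChain (hrel (R' M)) (liftB M p (b :: bs)) ↔
      List.IsChain (hrel M.R) (b :: bs) ∧ (p = 0 → bs ≠ [] → endp M p b = 1) := by
  induction bs with
  | nil => intro b p; simp [liftB]
  | cons b' bs ih =>
    intro b p
    have := ih b' (endp M p b)
    simp only [liftB] at this ⊢
    rw [List.isChain_cons_cons, List.isChain_cons_cons, hrel_iff, this]
    constructor
    · rintro ⟨⟨h1, h2⟩, h3, -⟩
      exact ⟨⟨h1, h3⟩, fun h _ => h2 h⟩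
    · rintro ⟨⟨h1, h3⟩, h2⟩
      refine ⟨⟨h1, fun h => h2 h (by simp)⟩, h3, fun h => ?_⟩
      by_cases hp : p = 0
      · rw [h2 hp (by simp)] at h; exact absurd h (by decide)
      · exact absurd h (endp_ne M b p hp)

lemma idle_up {w : List σ} {μ : List (Rule σ (Option (M.Q × Fin 3)) M.Γ)}
    {f : Option (M.Q × Fin 3)} (h : Comp (δ' M) [M.Z0] (some (M.q0, 0)) w μ f) (k : ℕ) :
    Comp (δ' M) [M.Z0] none w ((List.replicate k (id1 M) ++ [id2 M]) ++ μ) f := by
  induction k with
  | zero => exact Comp.cons (id2 M) [] w _ _ (Or.inr (Or.inl rfl)) h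
  | succ k ih => exact Comp.cons (id1 M) [] w _ _ (Or.inl rfl) ih

lemma idle_down {w : List σ} {μ : List (Rule σ (Option (M.Q × Fin 3)) M.Γ)}
    {f : Option (M.Q × Fin 3)} {r : Rule σ (Option (M.Q × Fin 3)) M.Γ}
    (hr : r.dst = some (M.q0, 0)) (c : List (Rule σ (Option (M.Q × Fin 3)) M.Γ)) :
    (∀ s ∈ c, s.dst ≠ some (M.q0, 0)) → Comp (δ' M) [M.Z0] none w ((c ++ [r]) ++ μ) f →
      Comp (δ' M) [M.Z0] (some (M.q0, 0)) w μ f := by
  induction c with
  | nil =>
    intro _ h
    obtain ⟨a, β, v, h1, h2, rfl, h3⟩ := Comp.inv h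
    obtain ⟨-, rfl⟩ := List.cons.inj h1
    rcases a with rfl | rfl | ⟨r, a, p', -, rfl⟩
    · simp [id1] at hr
    · exact h3
    · simp [lift] at h2
  | cons s c ih =>
    intro hc h
    obtain ⟨a, β, v, h1, h2, rfl, h3⟩ := Comp.inv h
    obtain ⟨-, rfl⟩ := List.cons.inj h1
    rcases a with rfl | rfl | ⟨r, a, p', -, rfl⟩
    · exact ih (fun x hx => hc x (by simp [hx])) h3
    · exact absurd rfl (hc (id2 M) (by simp))
    · simp [lift] at h2

theorem up_lang (n : ℕ) : (up M n).lang (n + 1) = M.lang n := by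
  ext w
  rw [mem_lang M]
  constructor
  · rintro ⟨f', ⟨f, hf, p, rfl, hp⟩, c', r', bs', h1, h2, h3, h4, h5, h6⟩
    obtain ⟨μ, g, e1, e2, h7⟩ := comp_down M (idle_down M h5 c' h4 h1) _ _ rfl
    obtain ⟨bs0, rfl, rfl⟩ := liftB_split M bs' 0 μ e1
    simp only [Option.some.injEq, Prod.mk.injEq] at e2
    obtain ⟨rfl, rfl⟩ := e2
    have hl := liftB_len M bs0 0
    have hl2 : bs0.length = n + 1 := by
      have h8 := congrArg List.length hl
      rw [List.length_map, List.length_map] at h8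
      exact h8.symm.trans h2
    have hl3 : ∀ b ∈ bs0, b.length = c'.length + 1 := by
      intro b hb
      have : b.length ∈ bs0.map List.length := List.mem_map_of_mem hb
      rw [← hl] at this
      obtain ⟨b', h8, h9⟩ := List.mem_map.1 this
      exact h9 ▸ h3 b' h8
    cases bs0 with
    | nil => simp at hl2
    | cons b bs =>
      have h8 := (chain_iff M bs b 0).1 h6.tail
      cases b with
      | nil => simpa using hl3 [] (by simp)
      | cons r c =>
        have h9 : c.length = c'.length := by simpa using hl3 (r :: c) (by simp)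
        refine ⟨f, hf, r, c, bs, h7, by simpa using hl2,
          fun b hb => h9 ▸ hl3 b (by simp [hb]), (T0_iff M c r).2 ?_, h8.1⟩
        by_cases hb : bs = []
        · subst hb
          simpa using hp (by simpa using hl2.symm)
        · exact h8.2 rfl hb
  · rintro ⟨f, hf, r, c, bs, h1, h2, h3, h4, h5⟩
    have h6 := (T0_iff M c r).1 h4
    have hl := liftB_len M ((r :: c) :: bs) 0
    refine ⟨some (f, endp M 0 (r :: (c ++ bs.flatten))), ⟨f, hf, _, rfl, fun h => ?_⟩,
      List.replicate c.length (id1 M), id2 M, liftB M 0 ((r :: c) :: bs), ?_, ?_, ?_, ?_, rfl, ?_⟩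
    · obtain rfl : bs = [] := List.length_eq_zero_iff.1 (h2.trans h)
      simpa using h6
    · have h8 := comp_up M h1 0
      rw [show r :: (c ++ bs.flatten) = ((r :: c) :: bs).flatten from rfl, ← liftB_flat] at h8
      exact idle_up M h8 _
    · have h8 := congrArg List.length hl
      rw [List.length_map, List.length_map, List.length_cons, h2] at h8
      exact h8
    · intro b hb
      have : b.length ∈ (liftB M 0 ((r :: c) :: bs)).map List.length := List.mem_map_of_mem hb
      rw [hl] at this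
      obtain ⟨b', h8, h9⟩ := List.mem_map.1 this
      rw [← h9, List.length_replicate]
      rcases List.mem_cons.1 h8 with rfl | h8
      · rfl
      · exact h3 b' h8
    · intro s hs
      rw [List.eq_of_mem_replicate hs]
      simp [id1, up]
    · have h7 := (chain_iff M bs (r :: c) 0).2 ⟨h5, fun _ _ => h6⟩
      refine List.isChain_cons_cons.2 ⟨?_, h7⟩
      cases c.length with
      | zero => exact ⟨id2 M, _, rfl, rfl, Or.inl rfl⟩
      | succ k => exact ⟨id1 M, _, rfl, rfl, Or.inl rfl⟩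

end up

end Pool.Agent.H24.Spd
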