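import Pool.Agent.H24.Spd4

set_option autoImplicit false

namespace Pool.Agent.H24.Spd

section ex
variable {n : ℕ}

abbrev RR (n : ℕ) : Type := Rule (Fin (2 * n + 4)) (Fin (n + 3) × Fin 3) Bool

def la (j : Fin (n + 2)) : Fin (2 * n + 4) := ⟨2 * j.1, by omega⟩
def lb (j : Fin (n + 2)) : Fin (2 * n + 4) := ⟨2 * j.1 + 1, by omega⟩
def stk (j : Fin (n + 3)) : List Bool := if j.1 = n + 2 then [] else [false]
def stR (j : Fin (n + 2)) : RR n := ⟨false, (j.castSucc, 0), [], [false], (j.castSucc, 1)⟩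
def upR (j : Fin (n + 2)) (Y : Bool) : RR n :=
  ⟨Y, (j.castSucc, 1), [la j], [true, Y], (j.castSucc, 1)⟩
def swR (j : Fin (n + 2)) (Y : Bool) : RR n := ⟨Y, (j.castSucc, 1), [], [Y], (j.castSucc, 2)⟩
def dnR (j : Fin (n + 2)) : RR n := ⟨true, (j.castSucc, 2), [lb j], [], (j.castSucc, 2)⟩
def enR (j : Fin (n + 2)) : RR n := ⟨false, (j.castSucc, 2), [], stk j.succ, (j.succ, 0)⟩

def δ0 (n : ℕ) : Set (RR n) :=
  ⋃ j : Fin (n + 2), ⋃ Y : Bool, {stR j, upR j Y, swR j Y, dnR j, enR j}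

lemma mem0 {ρ : RR n} : ρ ∈ δ0 n ↔ ∃ j Y, ρ = stR j ∨ ρ = upR j Y ∨ ρ = swR j Y ∨ ρ = dnR j ∨
    ρ = enR j := by simp only [δ0, Set.mem_iUnion, Set.mem_insert_iff, Set.mem_singleton_iff]

def R0 (ρ ρ' : RR n) : Prop := ρ'.src.1.1 = ρ.src.1.1 + 1 ∧ ρ'.src.2 = 0

def M0 (n : ℕ) : SPDA (Fin (2 * n + 4)) where
  Q := Fin (n + 3) × Fin 3
  Γ := Bool
  finQ := inferInstance
  finΓ := inferInstance
  δ := δ0 n
  finδ := Set.finite_iUnion fun _ => Set.finite_iUnion fun _ => Set.toFinite _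
  q0 := (0, 0)
  qt := (1, 0)
  Z0 := false
  F := {(Fin.last _, 0)}
  R := R0

lemma dn {j : Fin (n + 2)} {β : List Bool} {v : List (Fin (2 * n + 4))} {μ : List (RR n)}
    {f : Fin (n + 3) × Fin 3} (h : Comp (δ0 n) β (j.castSucc, 2) v μ f) (g : ℕ) :
    Comp (δ0 n) (List.replicate g true ++ β) (j.castSucc, 2) (List.replicate g (lb j) ++ v)
      (List.replicate g (dnR j) ++ μ) f := by
  induction g with
  | zero => exact h
  | succ g ih =>
    exact Comp.cons (dnR j) _ _ _ _ (mem0.2 ⟨j, true, by simp⟩) ih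

lemma upp {j : Fin (n + 2)} {v : List (Fin (2 * n + 4))} {μ : List (RR n)}
    {f : Fin (n + 3) × Fin 3} (g : ℕ) : ∀ Y β,
    Comp (δ0 n) (List.replicate g true ++ Y :: β) (j.castSucc, 1) v μ f →
    ∃ U : List (RR n), U.length = g ∧ (∀ ρ ∈ U, ρ.dst = (j.castSucc, 1)) ∧
      Comp (δ0 n) (Y :: β) (j.castSucc, 1) (List.replicate g (la j) ++ v) (U ++ μ) f := by
  induction g with
  | zero => exact fun Y β h => ⟨[], rfl, by simp, h⟩
  | succ g ih =>
    intro Y β h
    rw [List.replicate_succ', List.append_assoc] at h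
    obtain ⟨U, a, b, c⟩ := ih true (Y :: β) h
    exact ⟨upR j Y :: U, by simp [a], by simpa using ⟨rfl, b⟩,
      Comp.cons (upR j Y) _ _ _ _ (mem0.2 ⟨j, Y, by simp⟩) c⟩

lemma block (m : ℕ) {j : Fin (n + 2)} {v : List (Fin (2 * n + 4))} {μ : List (RR n)}
    {f : Fin (n + 3) × Fin 3} (h : Comp (δ0 n) (stk j.succ) (j.succ, 0) v μ f) :
    ∃ c : List (RR n), c.length = 2 * m + 1 ∧ (∀ ρ ∈ c, ρ.dst.2 ≠ 0) ∧
      Comp (δ0 n) [false] (j.castSucc, 0)
        (List.replicate m (la j) ++ (List.replicate m (lb j) ++ v))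
        (((stR j :: c) ++ [enR j]) ++ μ) f := by
  have h1 := dn (Comp.cons (enR j) [] v μ f (mem0.2 ⟨j, true, by simp⟩)
    (by simpa [enR] using h)) m
  obtain ⟨Y, β, e⟩ : ∃ Y β, List.replicate m true ++ [false] = Y :: β := by
    cases m with
    | zero => exact ⟨_, _, rfl⟩
    | succ m => exact ⟨_, _, rfl⟩
  have h2 := Comp.cons (swR j Y) β _ _ f (mem0.2 ⟨j, Y, by simp⟩) (by
    have e' : (swR j Y).push ++ β = List.replicate m true ++ [false] := e.symm
    rw [e']; exact h1)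
  have h3 : Comp (δ0 n) (List.replicate m true ++ false :: []) (j.castSucc, 1)
      (List.replicate m (lb j) ++ v) (swR j Y :: (List.replicate m (dnR j) ++ enR j :: μ)) f := by
    rw [e]; exact h2
  obtain ⟨U, a, b, c⟩ := upp m false [] h3
  refine ⟨U ++ swR j Y :: List.replicate m (dnR j), by simp [a]; omega, ?_, ?_⟩
  · intro ρ hρ
    simp only [List.mem_append, List.mem_cons, List.mem_replicate] at hρ
    rcases hρ with hρ | rfl | ⟨-, rfl⟩
    · simp [b ρ hρ]
    · simp [swR]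
    · simp [dnR]
  · have := Comp.cons (stR j) [] _ _ f (mem0.2 ⟨j, Y, by simp⟩) c
    simpa [stR] using this

lemma sorted (m : ℕ) (j : Fin (n + 2)) (v : List (Fin (2 * n + 4))) (h1 : v.Pairwise (· ≤ ·))
    (h2 : ∀ a ∈ v, 2 * (j.1 + 1) ≤ a.1) (h3 : ∀ a, 2 * (j.1 + 1) ≤ a.1 → m ≤ v.count a) :
    (List.replicate m (la j) ++ (List.replicate m (lb j) ++ v)).Pairwise (· ≤ ·) ∧
    (∀ a ∈ List.replicate m (la j) ++ (List.replicate m (lb j) ++ v), 2 * j.1 ≤ a.1) ∧
    ∀ a, 2 * j.1 ≤ a.1 →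
      m ≤ (List.replicate m (la j) ++ (List.replicate m (lb j) ++ v)).count a := by
  refine ⟨?_, ?_, ?_⟩
  · simp only [List.pairwise_append, List.pairwise_replicate, le_refl, or_true, h1, true_and,
      List.mem_append, List.mem_replicate]
    refine ⟨?_, ?_⟩
    · rintro a ⟨-, rfl⟩ b hb
      have := h2 b hb
      simp only [lb, Fin.le_def]; omega
    · rintro a ⟨-, rfl⟩ b (⟨-, rfl⟩ | hb)
      · simp [la, lb, Fin.le_def]
      · have := h2 b hb
        simp only [la, Fin.le_def]; omega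
  · intro a ha
    simp only [List.mem_append, List.mem_replicate] at ha
    rcases ha with ⟨-, rfl⟩ | ⟨-, rfl⟩ | ha
    · simp [la]
    · simp [lb]
    · have := h2 a ha; omega
  · intro a ha
    simp only [List.count_append, List.count_replicate, beq_iff_eq, Fin.ext_iff, la, lb]
    by_cases e1 : 2 * j.1 = a.1
    · simp [e1]
    by_cases e2 : 2 * j.1 + 1 = a.1
    · simp [e1, e2]
    have := h3 a (by omega)
    omega

lemma build (m : ℕ) : ∀ t (j : Fin (n + 3)), j.1 + t = n + 2 →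
    ∃ v, ∃ bs : List (List (RR n)), Comp (δ0 n) (stk j) (j, 0) v bs.flatten (Fin.last _, 0) ∧
      bs.length = t ∧ (∀ b ∈ bs, b.length = 2 * m + 3) ∧
      (∀ (ρ : RR n) c, ρ.src.1.1 + 1 = j.1 → List.IsChain (hrel R0) ((ρ :: c) :: bs)) ∧
      v.Pairwise (· ≤ ·) ∧ (∀ a ∈ v, 2 * j.1 ≤ a.1) ∧ ∀ a, 2 * j.1 ≤ a.1 → m ≤ v.count a := by
  intro t
  induction t with
  | zero =>
    intro j hj
    obtain rfl : j = Fin.last _ := Fin.ext (by simpa using hj)
    refine ⟨[], [], by simpa [stk] using Comp.nil _, rfl, by simp, by simp, by simp, by simp,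
      fun a ha => ?_⟩
    have := a.2
    simp at ha
    omega
  | succ t ih =>
    intro j hj
    obtain ⟨j, rfl⟩ : ∃ j' : Fin (n + 2), j = j'.castSucc := ⟨⟨j.1, by omega⟩, rfl⟩
    simp only [Fin.val_castSucc] at hj ⊢
    obtain ⟨v, bs, h1, h2, h3, h4, h5, h6, h7⟩ := ih j.succ (by simp; omega)
    obtain ⟨c, c1, -, c3⟩ := block m h1
    obtain ⟨s1, s2, s3⟩ := sorted m j v h5 h6 h7
    refine ⟨_, ((stR j :: c) ++ [enR j]) :: bs, ?_, by simp [h2], ?_, ?_, s1, s2, s3⟩
    · rw [show stk j.castSucc = [false] from if_neg (by simp; omega)]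
      exact c3
    · intro b hb
      rcases List.mem_cons.1 hb with rfl | hb
      · simp [c1]
      · exact h3 b hb
    · intro ρ c' hρ
      exact List.isChain_cons_cons.2 ⟨⟨ρ, stR j, rfl, rfl, hρ.symm, rfl⟩,
        h4 (stR j) _ (by simp [stR])⟩

theorem big (m : ℕ) : ∃ w ∈ (M0 n).lang (n + 1), w.Pairwise (· ≤ ·) ∧ ∀ a, m ≤ w.count a := by
  obtain ⟨v, bs, h1, h2, h3, h4, h5, h6, h7⟩ := build (n := n) m (n + 1) (0 : Fin (n + 2)).succ
    (by simp; omega)
  obtain ⟨c, c1, c2, c3⟩ := block m h1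
  obtain ⟨s1, -, s3⟩ := sorted m 0 v h5 h6 h7
  refine ⟨_, ⟨(Fin.last _, 0), rfl, stR 0 :: c, enR 0, bs, c3, h2, ?_, ?_, rfl,
    h4 (stR 0) _ (by simp [stR])⟩, s1, fun a => s3 a (by simp)⟩
  · intro b hb
    exact (h3 b hb).trans (congrArg (· + 2) c1.symm)
  · intro s hs e
    rcases List.mem_cons.1 hs with rfl | hs
    · exact absurd (congrArg Prod.snd e) (by simp [stR, M0])
    · exact c2 s hs (congrArg Prod.snd e)

def rk (q : Fin (n + 3) × Fin 3) : ℕ := 3 * q.1.1 + q.2.1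

lemma rk_le {ρ : RR n} (h : ρ ∈ δ0 n) : rk ρ.src ≤ rk ρ.dst ∧
    (ρ.src.2 = 0 → rk ρ.src < rk ρ.dst) := by
  obtain ⟨j, Y, rfl | rfl | rfl | rfl | rfl⟩ := mem0.1 h <;>
    simp [rk, stR, upR, swR, dnR, enR]
  omega

lemma mono {α : List Bool} {q f : Fin (n + 3) × Fin 3} {w : List (Fin (2 * n + 4))}
    {μ : List (RR n)} (h : Comp (δ0 n) α q w μ f) :
    rk q ≤ rk f ∧ ∀ ρ ∈ μ, rk q ≤ rk ρ.src := by
  induction h with
  | nil f => simp
  | cons r β v μ f a _ ih =>
    have := (rk_le a).1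
    refine ⟨this.trans ih.1, fun ρ hρ => ?_⟩
    rcases List.mem_cons.1 hρ with rfl | hρ
    · exact le_rfl
    · exact this.trans (ih.2 ρ hρ)

def Stop (μ : List (RR n)) (f s : Fin (n + 3) × Fin 3) : Prop :=
  (μ = [] ∧ f = s) ∨ ∃ ρ μ', μ = ρ :: μ' ∧ ρ.src = s

lemma Stop.eq {α : List Bool} {q f s : Fin (n + 3) × Fin 3} {w : List (Fin (2 * n + 4))}
    {μ : List (RR n)} (hs : Stop μ f s) (h : Comp (δ0 n) α q w μ f) : q = s := by
  rcases hs with ⟨rfl, rfl⟩ | ⟨ρ, μ', rfl, rfl⟩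
  · cases h; rfl
  · obtain ⟨-, β, v, -, e, -⟩ := h.inv; exact e

lemma seg0 {α : List Bool} {f s : Fin (n + 3) × Fin 3} {w : List (Fin (2 * n + 4))}
    {μ b : List (RR n)} (hs : Stop μ f s) (h0 : s.2 = 0) (h : Comp (δ0 n) α s w (b ++ μ) f) :
    b = [] := by
  cases b with
  | nil => rfl
  | cons ρ b =>
    obtain ⟨a, β, v, -, rfl, -, h1⟩ := Comp.inv h
    have h2 := (rk_le a).2 h0
    have h3 := mono h1
    rcases hs with ⟨rfl, rfl⟩ | ⟨ρ', μ', rfl, e⟩
    · omega
    · have := h3.2 ρ' (by simp)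
      rw [e] at this
      omega

lemma seg2 {j : Fin (n + 2)} {f : Fin (n + 3) × Fin 3} {μ : List (RR n)}
    (hs : Stop μ f (j.succ, 0)) (b : List (RR n)) : ∀ (g : ℕ) (w : List (Fin (2 * n + 4))),
    Comp (δ0 n) (List.replicate g true ++ [false]) (j.castSucc, 2) w (b ++ μ) f →
    ∃ v, w = List.replicate g (lb j) ++ v ∧ b.length = g + 1 ∧
      Comp (δ0 n) (stk j.succ) (j.succ, 0) v μ f := by
  induction b with
  | nil => intro g w h; simpa using hs.eq h
  | cons ρ b ih =>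
    intro g w h
    obtain ⟨a, β, v, e1, e2, rfl, h1⟩ := Comp.inv h
    obtain ⟨j', Y, rfl | rfl | rfl | rfl | rfl⟩ := mem0.1 a
    · simp [stR] at e2
    · simp [upR] at e2
    · simp [swR] at e2
    · obtain rfl : j = j' := by simpa [dnR] using e2
      cases g with
      | zero => simp [dnR] at e1
      | succ g =>
        obtain ⟨-, rfl⟩ := List.cons.inj e1
        obtain ⟨v', rfl, c2, c3⟩ := ih g v h1
        exact ⟨v', rfl, by simp [c2], c3⟩
    · obtain rfl : j = j' := by simpa [enR] using e2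
      cases g with
      | succ g => simp [enR, List.replicate_succ] at e1
      | zero =>
        obtain ⟨-, rfl⟩ := List.cons.inj e1
        obtain rfl := seg0 hs rfl h1
        exact ⟨v, rfl, rfl, by simpa [enR] using h1⟩

lemma seg1 {j : Fin (n + 2)} {f : Fin (n + 3) × Fin 3} {μ : List (RR n)}
    (hs : Stop μ f (j.succ, 0)) (b : List (RR n)) : ∀ (g : ℕ) (w : List (Fin (2 * n + 4))),
    Comp (δ0 n) (List.replicate g true ++ [false]) (j.castSucc, 1) w (b ++ μ) f →
    ∃ u v, w = List.replicate u (la j) ++ (List.replicate (g + u) (lb j) ++ v) ∧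
      b.length = g + 2 * u + 2 ∧ Comp (δ0 n) (stk j.succ) (j.succ, 0) v μ f := by
  induction b with
  | nil => intro g w h; simpa using hs.eq h
  | cons ρ b ih =>
    intro g w h
    obtain ⟨a, β, v, e1, e2, rfl, h1⟩ := Comp.inv h
    obtain ⟨j', Y, rfl | rfl | rfl | rfl | rfl⟩ := mem0.1 a
    · simp [stR] at e2
    · obtain rfl : j = j' := by simpa [upR] using e2
      obtain ⟨u, v', rfl, c2, c3⟩ := ih (g + 1) v (by
        rw [List.replicate_succ, List.cons_append, e1]; exact h1)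
      exact ⟨u + 1, v', by rw [show g + (u + 1) = g + 1 + u by omega]; rfl,
        by simp [c2]; omega, c3⟩
    · obtain rfl : j = j' := by simpa [swR] using e2
      obtain ⟨v', rfl, c2, c3⟩ := seg2 hs b g v (by rw [e1]; exact h1)
      exact ⟨0, v', rfl, by simp [c2], c3⟩
    · simp [dnR] at e2
    · simp [enR] at e2

lemma allb (k : ℕ) (bs : List (List (RR n))) : ∀ (j : Fin (n + 3)) (w : List (Fin (2 * n + 4))),
    Comp (δ0 n) (stk j) (j, 0) w bs.flatten (Fin.last _, 0) → bs.length + j.1 = n + 2 →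
    (∀ b ∈ bs, b.length = k) → 1 ≤ k → List.IsChain (hrel R0) bs →
    ∀ a, w.count a = if 2 * j.1 ≤ a.1 then (k - 3) / 2 else 0 := by
  induction bs with
  | nil =>
    intro j w h hj _ _ _ a
    have := a.2
    simp only [List.length_nil] at hj
    rw [if_neg (by omega)]
    generalize stk j = α at h
    generalize (j, (0 : Fin 3)) = q at h
    cases h
    rfl
  | cons b bs ih =>
    intro j w h hj hk h1 hc a
    simp only [List.length_cons] at hj
    obtain ⟨j, rfl⟩ : ∃ j' : Fin (n + 2), j = j'.castSucc := ⟨⟨j.1, by omega⟩, rfl⟩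
    simp only [Fin.val_castSucc] at hj ⊢
    have hb := hk b (by simp)
    cases b with
    | nil => simp at hb; omega
    | cons ρ b =>
      obtain ⟨a0, β, v, e1, e2, rfl, h2⟩ := Comp.inv h
      have hs : Stop bs.flatten (Fin.last _, 0) (j.succ, 0) := by
        cases bs with
        | nil => exact Or.inl ⟨rfl, by simp [Fin.ext_iff] at hj ⊢; omega⟩
        | cons b' bs =>
          obtain ⟨s1, s2, f1, f2, f3, f4⟩ := (List.isChain_cons_cons.1 hc).1
          obtain rfl : ρ = s1 := by simpa using f1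
          cases b' with
          | nil => simp at f2
          | cons r' b' =>
            obtain rfl : r' = s2 := by simpa using f2
            refine Or.inr ⟨r', _, rfl, Prod.ext (Fin.ext ?_) f4⟩
            rw [f3, ← e2]
            simp
      rw [show stk j.castSucc = [false] from if_neg (by simp; omega)] at e1
      obtain ⟨-, rfl⟩ := List.cons.inj e1
      obtain ⟨j', Y, rfl | rfl | rfl | rfl | rfl⟩ := mem0.1 a0
      · obtain rfl : j = j' := by simpa [stR] using e2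
        obtain ⟨u, v', rfl, c2, c3⟩ := seg1 hs b 0 v h2
        have := ih j.succ v' c3 (by simp; omega) (fun b hb => hk b (by simp [hb])) h1 hc.tail a
        simp only [List.length_cons] at hb
        simp only [stR, List.nil_append, List.count_append, List.count_replicate, beq_iff_eq,
          Fin.ext_iff, la, lb, this, Fin.val_succ]
        split_ifs <;> omega
      · simp [upR] at e2
      · simp [swR] at e2
      · simp [dnR] at e2
      · simp [enR] at e2

theorem const : ∀ w ∈ (M0 n).lang (n + 1), ∀ a, w.count a = w.count 0 := by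
  rintro w ⟨f, rfl, c, r, bs, h1, h2, h3, -, -, h6⟩ a
  have := allb (n := n) (c.length + 1) ((c ++ [r]) :: bs) 0 w h1
    (congrArg (· + 1) h2) (by
    intro b hb
    rcases List.mem_cons.1 hb with rfl | hb
    · exact List.length_append
    · exact h3 b hb) (by omega) h6
  rw [this a, this 0]
  simp

end ex

theorem main (n : ℕ) : (∀ σ : Type, FSPDA n σ ⊆ FSPDA (n + 1) σ) ∧
    FSPDA n (Fin (2 * n + 4)) ⊂ FSPDA (n + 1) (Fin (2 * n + 4)) := by
  have h : ∀ σ : Type, FSPDA n σ ⊆ FSPDA (n + 1) σ := by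
    rintro σ L ⟨M, rfl⟩
    exact ⟨up M n, up_lang M n⟩
  refine ⟨h, h _, fun hh => ?_⟩
  obtain ⟨M, hM⟩ := hh ⟨M0 n, rfl⟩
  exact lower M (hM ▸ const) (hM ▸ big)

end Pool.Agent.H24.Spd
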