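import Pool.Agent.H24.SplDefs

namespace Pool.Agent.H24.Spl1
open Pool.Agent.H24.SplDefs

/-- letter keys: value order (`true`) and position order (`false`) -/
def K (b : Bool) (x : ℕ) : ℤ ×ₗ ℤ :=
  if b then toLex (0, x) else toLex (((x % 2 : ℕ) : ℤ), -(x : ℤ))

lemma K_true {x y : ℕ} : K true x < K true y ↔ x < y := by
  simp [K, Prod.Lex.toLex_lt_toLex]

lemma K_false {x y : ℕ} : K false x < K false y ↔ x % 2 < y % 2 ∨ (x % 2 = y % 2 ∧ y < x) := by
  simp only [K, Bool.false_eq_true, if_false, Prod.Lex.toLex_lt_toLex]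
  omega

lemma K_inj (b : Bool) : Function.Injective (K b) := by
  intro x y h
  cases b
  · simp only [K, Bool.false_eq_true, if_false, EmbeddingLike.apply_eq_iff_eq, Prod.mk.injEq] at h
    omega
  · simpa [K] using h

def lt (b : Bool) (v w : List ℕ) : Prop := v.map (K b) < w.map (K b)

lemma lt_cons {b : Bool} {x y : ℕ} {v w : List ℕ} :
    lt b (x :: v) (y :: w) ↔ K b x < K b y ∨ (x = y ∧ lt b v w) := by
  simp only [lt, List.map_cons, List.cons_lt_cons_iff, (K_inj b).eq_iff]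

lemma lt_irrefl' (b : Bool) (v : List ℕ) : ¬ lt b v v := _root_.lt_irrefl _

def W : ℕ → ℕ → List ℕ → Prop
  | 0, _, _ => False
  | d + 1, M, w => (∃ i < M, w = [2 * i + 1]) ∨ ∃ i < M, ∃ v, W d M v ∧ w = 2 * i :: v

lemma W_mono : ∀ {d d' M M' : ℕ} {w : List ℕ}, d ≤ d' → M ≤ M' → W d M w → W d' M' w
  | 0, _, _, _, _, _, _, h => h.elim
  | _ + 1, 0, _, _, _, h, _, _ => by omega
  | d + 1, d' + 1, M, M', w, h1, h2, h => by
    rcases h with ⟨i, hi, rfl⟩ | ⟨i, hi, v, hv, rfl⟩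
    · exact Or.inl ⟨i, by omega, rfl⟩
    · exact Or.inr ⟨i, by omega, v, W_mono (by omega) h2 hv, rfl⟩

lemma W_finite (d M : ℕ) : {w | W d M w}.Finite := by
  induction d with
  | zero => simp [W]
  | succ d ih =>
    refine (((Set.finite_Iio M).image fun i => [2 * i + 1]).union
      (((Set.finite_Iio M).prod ih).image fun p => 2 * p.1 :: p.2)).subset ?_
    rintro w (⟨i, hi, rfl⟩ | ⟨i, hi, v, hv, rfl⟩)
    · exact Or.inl ⟨i, hi, rfl⟩
    · exact Or.inr ⟨(i, v), ⟨hi, hv⟩, rfl⟩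

def Col (M : ℕ) (t : Bool) (a D : ℕ) (c : List ℕ → Bool) : Prop :=
  ∃ e : List ℕ → List ℕ, (∀ w, W a M w → W D (2 * M) (e w) ∧ c (e w) = t) ∧
    ∀ b v w, W a M v → W a M w → lt b v w → lt b (e v) (e w)

lemma lift {M a D j : ℕ} {t : Bool} {c : List ℕ → Bool} (hj : j < 2 * M)
    (h : Col M t a D fun v => c (2 * j :: v)) : Col M t a (D + 1) c := by
  obtain ⟨e, h1, h2⟩ := h
  refine ⟨fun w => 2 * j :: e w, fun w hw => ⟨Or.inr ⟨j, hj, _, (h1 w hw).1, rfl⟩, (h1 w hw).2⟩,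
    fun b v w hv hw hl => lt_cons.2 (Or.inr ⟨rfl, h2 b v w hv hw hl⟩)⟩

lemma build {M a D : ℕ} {t : Bool} {c : List ℕ → Bool} (h : ℕ → ℕ)
    (hm : ∀ i j, i < j → j < M → h i < h j) (hb : ∀ i < M, h i < 2 * M)
    (hc : ∀ i < M, c [2 * h i + 1] = t)
    (H : ∀ j < 2 * M, Col M t a D fun v => c (2 * j :: v)) : Col M t (a + 1) (D + 1) c := by
  have H' : ∀ j, ∃ e : List ℕ → List ℕ, j < 2 * M →
      (∀ w, W a M w → W D (2 * M) (e w) ∧ c (2 * j :: e w) = t) ∧
      ∀ b v w, W a M v → W a M w → lt b v w → lt b (e v) (e w) := by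
    intro j
    by_cases hj : j < 2 * M
    · obtain ⟨e, he⟩ := H j hj
      exact ⟨e, fun _ => he⟩
    · exact ⟨id, fun h => absurd h hj⟩
  choose e he using H'
  let E : List ℕ → List ℕ := fun w => match w with
    | [] => []
    | x :: v => (2 * h (x / 2) + x % 2) :: (if x % 2 = 0 then e (h (x / 2)) v else [])
  have E1 : ∀ i, E [2 * i + 1] = [2 * h i + 1] := by
    intro i
    have a1 : (2 * i + 1) / 2 = i := by omega
    have a2 : (2 * i + 1) % 2 = 1 := by omega
    simp [E, a1, a2]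
  have E2 : ∀ i v, E (2 * i :: v) = 2 * h i :: e (h i) v := by
    intro i v
    simp [E]
  have key : ∀ b x y i j r s, i < M → j < M → r < 2 → s < 2 → x = 2 * i + r → y = 2 * j + s →
      K b x < K b y → K b (2 * h i + r) < K b (2 * h j + s) := by
    intro b x y i j r s hi hj hr hs hx hy hl
    have m1 := hm i j
    have m2 := hm j i
    cases b
    · rw [K_false] at hl ⊢
      rcases lt_trichotomy i j with q | q | q
      · have := m1 q hj; omega
      · subst q; omega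
      · have := m2 q hi; omega
    · rw [K_true] at hl ⊢
      rcases lt_trichotomy i j with q | q | q
      · have := m1 q hj; omega
      · subst q; omega
      · have := m2 q hi; omega
  refine ⟨E, ?_, ?_⟩
  · rintro w (⟨i, hi, rfl⟩ | ⟨i, hi, v, hv, rfl⟩)
    · rw [E1]; exact ⟨Or.inl ⟨_, hb i hi, rfl⟩, hc i hi⟩
    · rw [E2]
      have := (he _ (hb i hi)).1 v hv
      exact ⟨Or.inr ⟨_, hb i hi, _, this.1, rfl⟩, this.2⟩
  · rintro b v w (⟨i, hi, rfl⟩ | ⟨i, hi, v, hv, rfl⟩) (⟨j, hj, rfl⟩ | ⟨j, hj, w, hw, rfl⟩) hl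
    · rw [E1, E1]
      rcases lt_cons.1 hl with q | ⟨-, q⟩
      · exact lt_cons.2 (Or.inl (key b _ _ i j 1 1 hi hj (by omega) (by omega) rfl rfl q))
      · exact absurd q (lt_irrefl' _ _)
    · rw [E1, E2]
      rcases lt_cons.1 hl with q | ⟨q, -⟩
      · exact lt_cons.2 (Or.inl (key b _ _ i j 1 0 hi hj (by omega) (by omega) rfl rfl q))
      · omega
    · rw [E1, E2]
      rcases lt_cons.1 hl with q | ⟨q, -⟩
      · exact lt_cons.2 (Or.inl (key b _ _ i j 0 1 hi hj (by omega) (by omega) rfl rfl q))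
      · omega
    · rw [E2, E2]
      rcases lt_cons.1 hl with q | ⟨q, q'⟩
      · exact lt_cons.2 (Or.inl (key b _ _ i j 0 0 hi hj (by omega) (by omega) rfl rfl q))
      · obtain rfl : i = j := by omega
        exact lt_cons.2 (Or.inr ⟨rfl, (he _ (hb i hi)).2 b v w hv hw q'⟩)

lemma enum {M N : ℕ} (s : Finset ℕ) (hs : M ≤ s.card) (hN : ∀ x ∈ s, x < N) :
    ∃ h : ℕ → ℕ, (∀ i j, i < j → j < M → h i < h j) ∧ (∀ i < M, h i < N) ∧ ∀ i < M, h i ∈ s := by
  refine ⟨fun i => if hi : i < s.card then s.orderEmbOfFin rfl ⟨i, hi⟩ else 0, ?_, ?_, ?_⟩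
  · intro i j hij hj
    simp only [dif_pos (by omega : i < s.card), dif_pos (by omega : j < s.card)]
    exact (s.orderEmbOfFin rfl).strictMono hij
  · intro i hi
    simp only [dif_pos (by omega : i < s.card)]
    exact hN _ (s.orderEmbOfFin_mem _ _)
  · intro i hi
    simp only [dif_pos (by omega : i < s.card)]
    exact s.orderEmbOfFin_mem _ _

lemma ramsey (M : ℕ) : ∀ D a b, a + b = D → ∀ c : List ℕ → Bool,
    Col M true a D c ∨ Col M false b D c := by
  intro D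
  induction D with
  | zero =>
    intro a b h c
    obtain rfl : a = 0 := by omega
    exact Or.inl ⟨id, fun _ h => h.elim, fun _ _ _ h => h.elim⟩
  | succ D ih =>
    intro a b h c
    rcases a with _ | a
    · exact Or.inl ⟨id, fun _ h => h.elim, fun _ _ _ h => h.elim⟩
    rcases b with _ | b
    · exact Or.inr ⟨id, fun _ h => h.elim, fun _ _ _ h => h.elim⟩
    by_cases h1 : ∃ j < 2 * M, Col M true (a + 1) D fun v => c (2 * j :: v)
    · obtain ⟨j, hj, h1⟩ := h1
      exact Or.inl (lift hj h1)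
    by_cases h2 : ∃ j < 2 * M, Col M false (b + 1) D fun v => c (2 * j :: v)
    · obtain ⟨j, hj, h2⟩ := h2
      exact Or.inr (lift hj h2)
    have g1 : ∀ j < 2 * M, Col M true a D fun v => c (2 * j :: v) := fun j hj =>
      (ih a (b + 1) (by omega) _).resolve_right fun h => h2 ⟨j, hj, h⟩
    have g2 : ∀ j < 2 * M, Col M false b D fun v => c (2 * j :: v) := fun j hj =>
      (ih (a + 1) b (by omega) _).resolve_left fun h => h1 ⟨j, hj, h⟩
    have hc := Finset.card_filter_add_card_filter_not (s := Finset.range (2 * M))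
      (fun j => c [2 * j + 1] = true)
    rw [Finset.card_range] at hc
    by_cases h3 : M ≤ ((Finset.range (2 * M)).filter fun j => c [2 * j + 1] = true).card
    · obtain ⟨h, p1, p2, p3⟩ := enum _ h3 (N := 2 * M)
        (fun x hx => Finset.mem_range.1 (Finset.mem_filter.1 hx).1)
      exact Or.inl (build h p1 p2 (fun i hi => (Finset.mem_filter.1 (p3 i hi)).2) g1)
    · obtain ⟨h, p1, p2, p3⟩ := enum (M := M)
        ((Finset.range (2 * M)).filter fun j => ¬ c [2 * j + 1] = true) (by omega) (N := 2 * M)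
        (fun x hx => Finset.mem_range.1 (Finset.mem_filter.1 hx).1)
      exact Or.inr (build h p1 p2 (fun i hi => by simpa using (Finset.mem_filter.1 (p3 i hi)).2) g2)

lemma avoid : ∀ (d M : ℕ) (p q r s : List ℕ), W d M p → W d M q → W d M r → W d M s →
    lt false p q → lt false q r → lt false r s → lt true p s → lt true s q → lt true q r → False
  | 0, _, _, _, _, _, h, _, _, _, _, _, _, _, _, _ => h
  | d + 1, M, p, q, r, s, hp, hq, hr, hs, a1, a2, a3, b1, b2, b3 => by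
    rcases hp with ⟨i, -, rfl⟩ | ⟨i, -, p, hp, rfl⟩ <;>
    rcases hq with ⟨j, -, rfl⟩ | ⟨j, -, q, hq, rfl⟩ <;>
    rcases hr with ⟨k, -, rfl⟩ | ⟨k, -, r, hr, rfl⟩ <;>
    rcases hs with ⟨l, -, rfl⟩ | ⟨l, -, s, hs, rfl⟩ <;>
    simp only [lt_cons, K_true, K_false, lt_irrefl', and_false, or_false] at a1 a2 a3 b1 b2 b3 <;>
    try omega
    have e1 : i = j := by omega
    have e2 : j = k := by omega
    have e3 : k = l := by omega
    subst e1 e2 e3
    refine avoid d M p q r s hp hq hr hs ?_ ?_ ?_ ?_ ?_ ?_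
    · exact (a1.resolve_left (by omega)).2
    · exact (a2.resolve_left (by omega)).2
    · exact (a3.resolve_left (by omega)).2
    · exact (b1.resolve_left (by omega)).2
    · exact (b2.resolve_left (by omega)).2
    · exact (b3.resolve_left (by omega)).2

/-- a finite set with two injective keys gives a permutation -/
lemma perm_of {α β γ : Type} [LinearOrder β] [LinearOrder γ] (S : Finset α) (k1 : α → β)
    (k2 : α → γ) (h1 : Set.InjOn k1 S) (h2 : Set.InjOn k2 S) :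
    ∃ (τ : Pm) (g : Fin τ.1 → α), (∀ i, g i ∈ S) ∧ (∀ x ∈ S, ∃ i, g i = x) ∧
      (∀ i j, i < j ↔ k1 (g i) < k1 (g j)) ∧ ∀ i j, τ.2 i < τ.2 j ↔ k2 (g i) < k2 (g j) := by
  classical
  have key : ∀ {δ : Type} [LinearOrder δ] (k : α → δ), Set.InjOn k S →
      ∃ e : Fin S.card ≃ S, ∀ i j, i < j ↔ k (e i) < k (e j) := by
    intro δ _ k hk
    letI : LinearOrder S := LinearOrder.lift' (fun x : S => k x)
      (fun x y h => Subtype.ext (hk x.2 y.2 h))
    let e := monoEquivOfFin S (Fintype.card_coe S)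
    exact ⟨e.toEquiv, fun i j => (e.lt_iff_lt (x := i) (y := j)).symm⟩
  obtain ⟨e1, he1⟩ := key k1 h1
  obtain ⟨e2, he2⟩ := key k2 h2
  refine ⟨⟨S.card, e1.trans e2.symm⟩, fun i => e1 i, fun i => (e1 i).2,
    fun x hx => ⟨e1.symm ⟨x, hx⟩, by simp⟩, he1, fun i j => ?_⟩
  rw [he2]
  simp

def C : Set Pm := {π | ∃ (d M : ℕ) (g : Fin π.1 → List ℕ), (∀ i, W d M (g i)) ∧
  (∀ i j, i < j ↔ lt false (g i) (g j)) ∧ ∀ i j, π.2 i < π.2 j ↔ lt true (g i) (g j)}

lemma C_class : IsClass C := by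
  rintro τ ⟨d, M, g, h1, h2, h3⟩ σ ⟨f, hf1, hf2⟩
  exact ⟨d, M, g ∘ f, fun i => h1 _, fun i j => by rw [← hf1.lt_iff_lt, h2]; rfl,
    fun i j => by rw [hf2, h3]; rfl⟩

lemma occ_of {σ τ : Pm} {f : Fin σ.1 → Fin τ.1} (h1 : ∀ i j, i < j → f i < f j)
    (h2 : ∀ i j, σ.2 i < σ.2 j → τ.2 (f i) < τ.2 (f j)) : Occ σ τ f := by
  refine ⟨fun i j h => h1 i j h, fun i j => ⟨h2 i j, fun h => ?_⟩⟩
  rcases lt_trichotomy (σ.2 i) (σ.2 j) with q | q | q
  · exact q
  · rw [σ.2.injective q] at h; exact absurd h (lt_irrefl _)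
  · exact absurd (h2 j i q) (not_lt.2 h.le)

lemma C_unsplit : Unsplittable C := by
  classical
  rintro σ ⟨a, M1, g1, p1, p2, p3⟩ π ⟨b, M2, g2, q1, q2, q3⟩
  set M := max M1 M2
  obtain ⟨τ, g, t1, t2, t3, t4⟩ := perm_of (W_finite (a + b) (2 * M)).toFinset
    (fun w => w.map (K false)) (fun w => w.map (K true))
    (List.map_injective_iff.2 (K_inj _)).injOn (List.map_injective_iff.2 (K_inj _)).injOn
  refine ⟨τ, ⟨a + b, 2 * M, g, fun i => by simpa using t1 i, t3, t4⟩, fun c => ?_⟩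
  have hg : Function.Injective g := by
    intro i j h
    rcases lt_trichotomy i j with q | q | q
    · have := (t3 i j).1 q; rw [h] at this; exact absurd this (lt_irrefl _)
    · exact q
    · have := (t3 j i).1 q; rw [h] at this; exact absurd this (lt_irrefl _)
  have fin : ∀ (t : Bool) (ρ : Pm) (a' : ℕ) (g' : Fin ρ.1 → List ℕ), (∀ i, W a' M (g' i)) →
      (∀ i j, i < j ↔ lt false (g' i) (g' j)) → (∀ i j, ρ.2 i < ρ.2 j ↔ lt true (g' i) (g' j)) →
      Col M t a' (a + b) (Function.extend g c fun _ => true) →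
      ∃ f, Occ ρ τ f ∧ ∀ i, c (f i) = t := by
    rintro t ρ a' g' r1 r2 r3 ⟨e, e1, e2⟩
    have : ∀ i, ∃ k, g k = e (g' i) := fun i => t2 _ (by simpa using (e1 _ (r1 i)).1)
    choose f hf using this
    refine ⟨f, occ_of (fun i j h => ?_) (fun i j h => ?_), fun i => ?_⟩
    · rw [t3, hf, hf]; exact e2 _ _ _ (r1 i) (r1 j) ((r2 i j).1 h)
    · rw [t4, hf, hf]; exact e2 _ _ _ (r1 i) (r1 j) ((r3 i j).1 h)
    · have := (e1 _ (r1 i)).2
      rwa [← hf, hg.extend_apply] at this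
  rcases ramsey M (a + b) a b rfl (Function.extend g c fun _ => true) with h | h
  · exact Or.inl (fin _ σ a g1 (fun i => W_mono le_rfl (le_max_left _ _) (p1 i)) p2 p3 h)
  · exact Or.inr (fin _ π b g2 (fun i => W_mono le_rfl (le_max_right _ _) (q1 i)) q2 q3 h)

lemma mem3142 : p3142 ∈ C := by
  refine ⟨2, 10, ![[6, 1], [2, 1], [9], [5]], ?_, ?_, ?_⟩
  · intro i
    fin_cases i
    · exact Or.inr ⟨3, by norm_num, [1], Or.inl ⟨0, by norm_num, rfl⟩, rfl⟩
    · exact Or.inr ⟨1, by norm_num, [1], Or.inl ⟨0, by norm_num, rfl⟩, rfl⟩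
    · exact Or.inl ⟨4, by norm_num, rfl⟩
    · exact Or.inl ⟨2, by norm_num, rfl⟩
  · unfold lt
    decide +kernel
  · unfold lt
    decide +kernel

lemma not1342 : p1342 ∉ C := by
  rintro ⟨d, M, g, h1, h2, h3⟩
  exact avoid d M (g (0 : Fin 4)) (g (1 : Fin 4)) (g (2 : Fin 4)) (g (3 : Fin 4))
    (h1 _) (h1 _) (h1 _) (h1 _)
    ((h2 _ _).1 (by decide)) ((h2 _ _).1 (by decide)) ((h2 _ _).1 (by decide))
    ((h3 _ _).1 (by decide)) ((h3 _ _).1 (by decide)) ((h3 _ _).1 (by decide))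

lemma sep1342 : p1342 ∈ Separ := by
  constructor
  · rintro ⟨f, h1, h2⟩
    revert f
    unfold StrictMono
    decide +kernel
  · rintro ⟨f, h1, h2⟩
    revert f
    unfold StrictMono
    decide +kernel

theorem main : ∃ C : Set Pm, IsClass C ∧ Unsplittable C ∧ ¬ Separ ⊆ C ∧ ¬ C ⊆ Separ :=
  ⟨C, C_class, C_unsplit, fun h => not1342 (h sep1342),
    fun h => (h mem3142).2 ⟨id, strictMono_id, fun _ _ => Iff.rfl⟩⟩

end Pool.Agent.H24.Spl1
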