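import Pool.Agent.H24.SplDefs2
import Pool.Agent.H24.Spl1

namespace Pool.Agent.H24.Spl2
open Pool.Agent.H24.SplDefs Pool.Agent.H24.Spl1

variable {n : ℕ} (ρ : Equiv.Perm (Fin n))

def q (y : Fin n) : Fin n :=
  (Finset.univ.filter fun u => ρ u ≤ ρ y).min' ⟨y, by simp⟩

lemma q_le {u y : Fin n} (h : ρ u ≤ ρ y) : q ρ y ≤ u := Finset.min'_le _ _ (by simpa using h)

lemma q_val (y : Fin n) : ρ (q ρ y) ≤ ρ y := by
  have := Finset.min'_mem (Finset.univ.filter fun u => ρ u ≤ ρ y) ⟨y, by simp⟩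
  exact (Finset.mem_filter.1 this).2

abbrev Pt (n : ℕ) := Fin n × Fin 4 × Fin n

def P (t : Pt n) : ℕ ×ₗ ℕ ×ₗ ℕ ×ₗ ℕ ×ₗ ℕ :=
  if t.2.1.1 % 2 = 0 then
    toLex ((q ρ t.1 : ℕ), toLex (0, toLex (n - ρ t.1, toLex (3 - t.2.1, t.2.2))))
  else toLex ((t.1 : ℕ), toLex (1, toLex (0, toLex (3 - t.2.1, t.2.2))))

def V (t : Pt n) : ℕ ×ₗ ℕ ×ₗ ℕ :=
  toLex ((ρ t.1 : ℕ), toLex ((t.2.1 : ℕ), if t.2.1.1 % 2 = 0 then (ρ t.2.2 : ℕ) else n - t.2.2))

lemma rinj {a b : Fin n} (h : (ρ a : ℕ) = ρ b) : a = b := ρ.injective (Fin.ext h)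

lemma P_inj : Function.Injective (P ρ) := by
  rintro ⟨y, j, i⟩ ⟨y', j', i'⟩ h
  have := j.2; have := j'.2; have := (ρ y).2; have := (ρ y').2
  simp only [P] at h
  split_ifs at h <;> simp only [EmbeddingLike.apply_eq_iff_eq, Prod.mk.injEq] at h
  · rw [rinj ρ (by omega : (ρ y : ℕ) = ρ y'), Fin.ext (by omega : (j : ℕ) = j'),
      Fin.ext (by omega : (i : ℕ) = i')]
  · omega
  · omega
  · rw [Fin.ext (by omega : (y : ℕ) = y'), Fin.ext (by omega : (j : ℕ) = j'),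
      Fin.ext (by omega : (i : ℕ) = i')]

lemma V_inj : Function.Injective (V ρ) := by
  rintro ⟨y, j, i⟩ ⟨y', j', i'⟩ h
  have := i.2; have := i'.2
  simp only [V, EmbeddingLike.apply_eq_iff_eq, Prod.mk.injEq] at h
  obtain ⟨h1, h2, h3⟩ := h
  obtain rfl := rinj ρ h1
  obtain rfl : j = j' := Fin.ext h2
  split_ifs at h3
  · rw [rinj ρ h3]
  · rw [Fin.ext (by omega : (i : ℕ) = i')]

/-- same block -/
def Sm (t u : Pt n) : Prop := t.1 = u.1 ∧ t.2.1 = u.2.1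

lemma V_le {t u : Pt n} (h : V ρ t < V ρ u) : ρ t.1 ≤ ρ u.1 := by
  simp only [V, Prod.Lex.toLex_lt_toLex] at h
  rw [Fin.le_def]; omega

lemma L1 {t u : Pt n} (ht : t.2.1.1 % 2 = 0) (h1 : P ρ u < P ρ t) (h2 : V ρ u < V ρ t) :
    Sm u t := by
  have a1 := Fin.le_def.1 (q_le ρ (V_le ρ h2))
  have a2 := Fin.le_def.1 (q_le ρ ((q_val ρ u.1).trans (V_le ρ h2)))
  have := t.2.1.2; have := u.2.1.2; have := (ρ t.1).2; have := (ρ u.1).2
  simp only [V, Prod.Lex.toLex_lt_toLex] at h2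
  simp only [P, if_pos ht] at h1
  split_ifs at h1 <;> simp only [Prod.Lex.toLex_lt_toLex] at h1
  · exact ⟨rinj ρ (by omega), Fin.ext (by omega)⟩
  · omega

lemma L2 {t u w : Pt n} (h : Sm t w) (h1 : V ρ t < V ρ u) (h2 : V ρ u < V ρ w) : Sm u w := by
  obtain ⟨e1, e2⟩ := h
  simp only [V, Prod.Lex.toLex_lt_toLex, e1, e2] at h1 h2
  exact ⟨rinj ρ (by omega), Fin.ext (by omega)⟩

lemma L3 {t u w : Pt n} (hw : w.2.1.1 % 2 = 0) (h : Sm t w) (h1 : P ρ t < P ρ u)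
    (h2 : P ρ u < P ρ w) : Sm u w := by
  obtain ⟨e1, e2⟩ := h
  have := w.2.1.2; have := u.2.1.2; have := (ρ w.1).2; have := (ρ u.1).2
  simp only [P, e1, e2, if_pos hw] at h1 h2
  split_ifs at h1 h2 <;> simp only [Prod.Lex.toLex_lt_toLex] at h1 h2
  · exact ⟨rinj ρ (by omega), Fin.ext (by omega)⟩
  · omega

lemma L4 {t u w : Pt n} (hw : w.2.1.1 % 2 = 0) (h : Sm t w) (h' : Sm u w) :
    (P ρ t < P ρ u → t.2.2 < u.2.2) ∧ (V ρ t < V ρ u → ρ t.2.2 < ρ u.2.2) := by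
  obtain ⟨e1, e2⟩ := h
  obtain ⟨f1, f2⟩ := h'
  simp only [P, V, e1, e2, f1, f2, if_pos hw, Prod.Lex.toLex_lt_toLex, Fin.lt_def]
  omega

def base (u : Pt n) : Fin n := if u.2.1.1 % 2 = 0 then q ρ u.1 else u.1

lemma L5 {t u : Pt n} (ht : ¬ t.2.1.1 % 2 = 0) (h : P ρ u < P ρ t) : base ρ u ≤ t.1 := by
  simp only [P, if_neg ht] at h
  simp only [base, Fin.le_def]
  split_ifs at h ⊢ <;> simp only [Prod.Lex.toLex_lt_toLex] at h <;> omega

lemma L5' (u : Pt n) : ρ (base ρ u) ≤ ρ u.1 := by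
  simp only [base]
  split_ifs
  · exact q_val ρ _
  · exact le_rfl

lemma L6 {t u : Pt n} (ht : ¬ t.2.1.1 % 2 = 0) (hu : ¬ u.2.1.1 % 2 = 0) (h1 : P ρ t < P ρ u)
    (h2 : V ρ t < V ρ u) : t.1 < u.1 ∧ ρ t.1 < ρ u.1 := by
  have := t.2.1.2; have := u.2.1.2; have := t.2.2.2; have := u.2.2.2
  have hne : t.1 ≠ u.1 := by
    intro e
    simp only [P, V, if_neg ht, if_neg hu, Prod.Lex.toLex_lt_toLex, e] at h1 h2
    omega
  refine ⟨lt_of_le_of_ne ?_ hne, lt_of_le_of_ne (V_le ρ h2) fun e => hne (ρ.injective e)⟩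
  simpa [base, ht] using L5 ρ hu h1

lemma symm' {t u : Pt n} (h : Sm t u) : Sm u t := ⟨h.1.symm, h.2.symm⟩
lemma trans' {t u w : Pt n} (h : Sm t u) (h' : Sm u w) : Sm t w := ⟨h.1.trans h'.1, h.2.trans h'.2⟩

lemma av1342 (H : ∀ a b c d : Fin n, a < b → b < c → c < d → ρ a < ρ d → ρ d < ρ b → ρ b < ρ c →
      False) (a b c d : Pt n) (p1 : P ρ a < P ρ b) (p2 : P ρ b < P ρ c) (p3 : P ρ c < P ρ d)
    (v1 : V ρ a < V ρ d) (v2 : V ρ d < V ρ b) (v3 : V ρ b < V ρ c) : False := by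
  have hb : ¬ b.2.1.1 % 2 = 0 := by
    intro hb
    have sa := L1 ρ hb p1 (v1.trans v2)
    have sd := L2 ρ sa v1 v2
    have sb : Sm b b := ⟨rfl, rfl⟩
    have sc : Sm c b := trans' (L3 ρ (by rw [sd.2]; exact hb) (symm' sd) p2 p3) sd
    exact H _ _ _ _ ((L4 ρ hb sa sb).1 p1) ((L4 ρ hb sb sc).1 p2) ((L4 ρ hb sc sd).1 p3)
      ((L4 ρ hb sa sd).2 v1) ((L4 ρ hb sd sb).2 v2) ((L4 ρ hb sb sc).2 v3)
  have hc : ¬ c.2.1.1 % 2 = 0 := fun hc => hb (by rw [(L1 ρ hc p2 v3).2]; exact hc)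
  have hd : ¬ d.2.1.1 % 2 = 0 := fun hd =>
    hb (by rw [(L3 ρ hd (L1 ρ hd (p1.trans (p2.trans p3)) v1) p1 (p2.trans p3)).2]; exact hd)
  obtain ⟨e1, e2⟩ := L6 ρ hb hc p2 v3
  have e3 : c.1 ≤ d.1 := by simpa [base, hc] using L5 ρ hd p3
  have e4 := V_le ρ v2
  have e5 := L5 ρ hb p1
  have e6 := (L5' ρ a).trans (V_le ρ v1)
  have f3 : c.1 < d.1 := lt_of_le_of_ne e3 fun e => by rw [← e] at e4; exact absurd e2 (not_lt.2 e4)
  have f4 : ρ d.1 < ρ b.1 := lt_of_le_of_ne e4 fun e => by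
    rw [ρ.injective e] at f3; exact absurd (e1.trans f3) (lt_irrefl _)
  have f5 : base ρ a < b.1 := lt_of_le_of_ne e5 fun e => by
    rw [e] at e6; exact absurd f4 (not_lt.2 e6)
  have f6 : ρ (base ρ a) < ρ d.1 := lt_of_le_of_ne e6 fun e => by
    rw [ρ.injective e] at f5; exact absurd (f5.trans (e1.trans f3)) (lt_irrefl _)
  exact H _ _ _ _ f5 e1 f3 f6 f4 e2

lemma av1423 (H : ∀ a b c d : Fin n, a < b → b < c → c < d → ρ a < ρ c → ρ c < ρ d → ρ d < ρ b →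
      False) (a b c d : Pt n) (p1 : P ρ a < P ρ b) (p2 : P ρ b < P ρ c) (p3 : P ρ c < P ρ d)
    (v1 : V ρ a < V ρ c) (v2 : V ρ c < V ρ d) (v3 : V ρ d < V ρ b) : False := by
  have hb : ¬ b.2.1.1 % 2 = 0 := by
    intro hb
    have sa := L1 ρ hb p1 (v1.trans (v2.trans v3))
    have sc := L2 ρ sa v1 (v2.trans v3)
    have sd := L2 ρ sa (v1.trans v2) v3
    have sb : Sm b b := ⟨rfl, rfl⟩
    exact H _ _ _ _ ((L4 ρ hb sa sb).1 p1) ((L4 ρ hb sb sc).1 p2) ((L4 ρ hb sc sd).1 p3)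
      ((L4 ρ hb sa sc).2 v1) ((L4 ρ hb sc sd).2 v2) ((L4 ρ hb sd sb).2 v3)
  have hc : ¬ c.2.1.1 % 2 = 0 := fun hc =>
    hb (by rw [(L3 ρ hc (L1 ρ hc (p1.trans p2) v1) p1 p2).2]; exact hc)
  have hd : ¬ d.2.1.1 % 2 = 0 := fun hd => hc (by rw [(L1 ρ hd p3 v2).2]; exact hd)
  obtain ⟨e1, e2⟩ := L6 ρ hc hd p3 v2
  have e3 : b.1 ≤ c.1 := by simpa [base, hb] using L5 ρ hc p2
  have e4 := V_le ρ v3
  have e5 := L5 ρ hb p1
  have e6 := (L5' ρ a).trans (V_le ρ v1)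
  have f3 : b.1 < c.1 := lt_of_le_of_ne e3 fun e => by rw [e] at e4; exact absurd e2 (not_lt.2 e4)
  have f4 : ρ d.1 < ρ b.1 := lt_of_le_of_ne e4 fun e => by
    rw [ρ.injective e] at e1; exact absurd (e1.trans f3) (lt_irrefl _)
  have f5 : base ρ a < b.1 := lt_of_le_of_ne e5 fun e => by
    rw [e] at e6; exact absurd (e2.trans f4) (not_lt.2 e6)
  have f6 : ρ (base ρ a) < ρ c.1 := lt_of_le_of_ne e6 fun e => by
    rw [ρ.injective e] at f5; exact absurd (f5.trans f3) (lt_irrefl _)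
  exact H _ _ _ _ f5 f3 e1 f6 e2 f4

lemma arrow (c : Pt n → Bool) :
    (∃ f : Fin 4 → Pt n, (∀ i j, i < j → P ρ (f i) < P ρ (f j)) ∧
      (∀ i j, p3142.2 i < p3142.2 j → V ρ (f i) < V ρ (f j)) ∧ ∀ i, c (f i) = true) ∨
    (∃ f : Fin n → Pt n, (∀ i j, i < j → P ρ (f i) < P ρ (f j)) ∧
      (∀ i j, ρ i < ρ j → V ρ (f i) < V ρ (f j)) ∧ ∀ i, c (f i) = false) := by
  by_cases h1 : ∃ (y : Fin n) (j : Fin 4), j.1 % 2 = 0 ∧ ∀ i, c (y, j, i) = false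
  · obtain ⟨y, j, hj, h1⟩ := h1
    refine Or.inr ⟨fun i => (y, j, i), fun a b hab => ?_, fun a b hab => ?_, h1⟩
    · simp only [P, if_pos hj, Prod.Lex.toLex_lt_toLex, true_and, lt_self_iff_false, false_or]
      exact hab
    · simp only [V, if_pos hj, Prod.Lex.toLex_lt_toLex, true_and, lt_self_iff_false, false_or]
      exact hab
  by_cases h2 : ∀ y : Fin n, ∃ j : Fin 4, ¬ j.1 % 2 = 0 ∧ c (y, j, y) = false
  · choose j hj h2 using h2
    refine Or.inr ⟨fun y => (y, j y, y), fun a b hab => ?_, fun a b hab => ?_, h2⟩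
    · simp only [P, if_neg (hj _), Prod.Lex.toLex_lt_toLex]
      have := Fin.lt_def.1 hab; omega
    · simp only [V, Prod.Lex.toLex_lt_toLex]
      have := Fin.lt_def.1 hab; omega
  push Not at h1 h2
  obtain ⟨y, hy⟩ := h2
  obtain ⟨i2, g2⟩ := h1 y 2 rfl
  obtain ⟨i0, g0⟩ := h1 y 0 rfl
  have hq := Fin.le_def.1 (q_le ρ (le_refl (ρ y)))
  refine Or.inl ⟨![(y, 2, i2), (y, 0, i0), (y, 3, y), (y, 1, y)], ?_, ?_, ?_⟩
  · intro a b hab
    fin_cases a <;> fin_cases b <;>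
      first
        | exact absurd hab (by decide)
        | (simp [P, Prod.Lex.toLex_lt_toLex]; try omega)
  · have key : ∀ (j j' : Fin 4) (i i' : Fin n), j < j' → V ρ (y, j, i) < V ρ (y, j', i') := by
      intro j j' i i' h
      simp only [V, Prod.Lex.toLex_lt_toLex, true_and, lt_self_iff_false, false_or]
      exact Or.inl h
    intro a b hab
    fin_cases a <;> fin_cases b <;>
      first
        | exact absurd hab (by decide)
        | exact key _ _ _ _ (by decide)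
  · intro a
    fin_cases a
    · simpa using g2
    · simpa using g0
    · simpa using hy 3 (by decide)
    · simpa using hy 1 (by decide)

lemma cons (ρ : Pm) : ∃ τ : Pm, Arrows τ p3142 ρ ∧ (ρ ∈ Av p1342 → τ ∈ Av p1342) ∧
    (ρ ∈ Av p1423 → τ ∈ Av p1423) := by
  classical
  obtain ⟨n, ρ⟩ := ρ
  obtain ⟨τ, g, -, t2, t3, t4⟩ := perm_of (Finset.univ : Finset (Pt n)) (P ρ) (V ρ)
    (P_inj ρ).injOn (V_inj ρ).injOn
  choose s hs using fun x => t2 x (Finset.mem_univ x)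
  refine ⟨τ, fun c => ?_, fun h => ?_, fun h => ?_⟩
  · rcases arrow ρ (c ∘ s) with ⟨f, h1, h2, h3⟩ | ⟨f, h1, h2, h3⟩
    · refine Or.inl ⟨s ∘ f, occ_of (fun i j h => ?_) (fun i j h => ?_), h3⟩
      · simp only [Function.comp, t3, hs]; exact h1 i j h
      · simp only [Function.comp, t4, hs]; exact h2 i j h
    · refine Or.inr ⟨s ∘ f, occ_of (fun i j h => ?_) (fun i j h => ?_), h3⟩
      · simp only [Function.comp, t3, hs]; exact h1 i j h
      · simp only [Function.comp, t4, hs]; exact h2 i j h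
  · rintro ⟨f, h1, h2⟩
    refine av1342 ρ (fun a b c d p1 p2 p3 v1 v2 v3 => h ⟨![a, b, c, d], occ_of ?_ ?_⟩)
      (g (f (0 : Fin 4))) (g (f (1 : Fin 4))) (g (f (2 : Fin 4))) (g (f (3 : Fin 4)))
      ((t3 _ _).1 (h1 (by decide))) ((t3 _ _).1 (h1 (by decide))) ((t3 _ _).1 (h1 (by decide)))
      ((t4 _ _).1 ((h2 _ _).1 (by decide))) ((t4 _ _).1 ((h2 _ _).1 (by decide)))
      ((t4 _ _).1 ((h2 _ _).1 (by decide)))
    · intro i j hij
      fin_cases i <;> fin_cases j <;>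
        first
          | exact absurd hij (by decide)
          | exact p1 | exact p2 | exact p3 | exact p1.trans p2 | exact p2.trans p3
          | exact p1.trans (p2.trans p3)
    · intro i j hij
      fin_cases i <;> fin_cases j <;>
        first
          | exact absurd hij (by decide)
          | exact v1 | exact v2 | exact v3 | exact v1.trans v2 | exact v2.trans v3
          | exact v1.trans (v2.trans v3)
  · rintro ⟨f, h1, h2⟩
    refine av1423 ρ (fun a b c d p1 p2 p3 v1 v2 v3 => h ⟨![a, b, c, d], occ_of ?_ ?_⟩)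
      (g (f (0 : Fin 4))) (g (f (1 : Fin 4))) (g (f (2 : Fin 4))) (g (f (3 : Fin 4)))
      ((t3 _ _).1 (h1 (by decide))) ((t3 _ _).1 (h1 (by decide))) ((t3 _ _).1 (h1 (by decide)))
      ((t4 _ _).1 ((h2 _ _).1 (by decide))) ((t4 _ _).1 ((h2 _ _).1 (by decide)))
      ((t4 _ _).1 ((h2 _ _).1 (by decide)))
    · intro i j hij
      fin_cases i <;> fin_cases j <;>
        first
          | exact absurd hij (by decide)
          | exact p1 | exact p2 | exact p3 | exact p1.trans p2 | exact p2.trans p3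
          | exact p1.trans (p2.trans p3)
    · intro i j hij
      fin_cases i <;> fin_cases j <;>
        first
          | exact absurd hij (by decide)
          | exact v1 | exact v2 | exact v3 | exact v1.trans v2 | exact v2.trans v3
          | exact v1.trans (v2.trans v3)

def inv (σ : Pm) : Pm := ⟨σ.1, σ.2.symm⟩

lemma occ_inv {σ τ : Pm} {f : Fin σ.1 → Fin τ.1} (h : Occ σ τ f) :
    Occ (inv σ) (inv τ) (τ.2 ∘ f ∘ σ.2.symm) := by
  refine ⟨fun (i j : Fin σ.1) (hij : i < j) => ?_, fun (i j : Fin σ.1) => ?_⟩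
  · exact (h.2 _ _).1 (by simpa using hij)
  · show σ.2.symm i < σ.2.symm j ↔
      τ.2.symm (τ.2 (f (σ.2.symm i))) < τ.2.symm (τ.2 (f (σ.2.symm j)))
    rw [Equiv.symm_apply_apply, Equiv.symm_apply_apply]
    exact h.1.lt_iff_lt.symm

lemma arrows_inv {τ σ π : Pm} (h : Arrows τ σ π) : Arrows (inv τ) (inv σ) (inv π) := by
  intro c
  rcases h (c ∘ τ.2) with ⟨f, h1, h2⟩ | ⟨f, h1, h2⟩
  · exact Or.inl ⟨_, occ_inv h1, fun i => h2 _⟩
  · exact Or.inr ⟨_, occ_inv h1, fun i => h2 _⟩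

theorem main : Unavoidable (Av p1423) p2413 ∧ Unavoidable (Av p1423) p3142 := by
  refine ⟨⟨?_, fun ρ hρ => ?_⟩, ⟨?_, fun ρ hρ => ?_⟩⟩
  · rintro ⟨f, h1, h2⟩
    revert f
    unfold StrictMono
    decide +kernel
  · obtain ⟨τ, h1, h2, -⟩ := cons (inv ρ)
    refine ⟨inv τ, fun ⟨f, hf⟩ => h2 (fun ⟨f', hf'⟩ => hρ ⟨_, occ_inv hf'⟩) ⟨_, occ_inv hf⟩,
      arrows_inv h1⟩
  · rintro ⟨f, h1, h2⟩
    revert f
    unfold StrictMono
    decide +kernel
  · obtain ⟨τ, h1, -, h2⟩ := cons ρ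
    exact ⟨τ, h2 hρ, h1⟩

end Pool.Agent.H24.Spl2
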