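import Mathlib

namespace Pool.Agent.H24.SplDefs

/-- finite permutations -/
abbrev Pm : Type := Σ n : ℕ, Equiv.Perm (Fin n)

/-- `f` is an occurrence of the pattern `σ` in `τ` -/
def Occ (σ τ : Pm) (f : Fin σ.1 → Fin τ.1) : Prop :=
  StrictMono f ∧ ∀ i j, σ.2 i < σ.2 j ↔ τ.2 (f i) < τ.2 (f j)

def Contains (τ σ : Pm) : Prop := ∃ f, Occ σ τ f

def IsClass (C : Set Pm) : Prop := ∀ τ ∈ C, ∀ σ, Contains τ σ → σ ∈ C

/-- every red-blue colouring of `τ` has a red copy of `σ` or a blue copy of `π` -/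
def Arrows (τ σ π : Pm) : Prop :=
  ∀ c : Fin τ.1 → Bool, (∃ f, Occ σ τ f ∧ ∀ i, c (f i) = true) ∨
    (∃ f, Occ π τ f ∧ ∀ i, c (f i) = false)

def Unsplittable (C : Set Pm) : Prop := ∀ σ ∈ C, ∀ π ∈ C, ∃ τ ∈ C, Arrows τ σ π

def p2413 : Pm := ⟨4, ⟨![1, 3, 0, 2], ![2, 0, 3, 1], by decide, by decide⟩⟩
def p3142 : Pm := ⟨4, ⟨![2, 0, 3, 1], ![1, 3, 0, 2], by decide, by decide⟩⟩
def p1342 : Pm := ⟨4, ⟨![0, 2, 3, 1], ![0, 3, 1, 2], by decide, by decide⟩⟩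
def p1423 : Pm := ⟨4, ⟨![0, 3, 1, 2], ![0, 2, 3, 1], by decide, by decide⟩⟩

def Separ : Set Pm := {τ | ¬ Contains τ p2413 ∧ ¬ Contains τ p3142}

end Pool.Agent.H24.SplDefs
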