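import Pool.Agent.H24.SplDefs

namespace Pool.Agent.H24.SplDefs

/-- the class of permutations avoiding `σ` -/
def Av (σ : Pm) : Set Pm := {τ | ¬ Contains τ σ}

/-- `π` is unavoidable in the class `D` -/
def Unavoidable (D : Set Pm) (π : Pm) : Prop := π ∈ D ∧ ∀ ρ ∈ D, ∃ τ ∈ D, Arrows τ π ρ

end Pool.Agent.H24.SplDefs
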