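import Mathlib

set_option autoImplicit false

namespace Pool.Agent.H24.Sum4

def ok (m : ℕ) : Bool :=
  decide (m < 4700) && m != 6 && m != 24 && m != 120 && m != 336 && m != 1320 && m != 2184

theorem key0 : (List.range 31).all (fun a => (List.range 31).all (fun b => (List.range 31).all
    (fun c => ok (a * b * c * (33 - a - b - c))))) = true := by
  decide +kernel

theorem ok_spec (m : ℕ) (h : ok m = true) :
    m < 4700 ∧ m ≠ 6 ∧ m ≠ 24 ∧ m ≠ 120 ∧ m ≠ 336 ∧ m ≠ 1320 ∧ m ≠ 2184 := by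
  simp only [ok, Bool.and_eq_true, decide_eq_true_eq, bne_iff_ne, ne_eq] at h
  obtain ⟨⟨⟨⟨⟨⟨h0, h1⟩, h2⟩, h3⟩, h4⟩, h5⟩, h6⟩ := h
  exact ⟨h0, h1, h2, h3, h4, h5, h6⟩

theorem key (a : ℕ) (ha : a < 31) (b : ℕ) (hb : b < 31) (c : ℕ) (hc : c < 31) :
    ok (a * b * c * (33 - a - b - c)) = true :=
  List.all_eq_true.1 (List.all_eq_true.1 (List.all_eq_true.1 key0 a (List.mem_range.2 ha))
    b (List.mem_range.2 hb)) c (List.mem_range.2 hc)

theorem main :
    ∃ n : ℕ, 8 < n ∧ ∀ p : ℕ, p.Prime → ∀ a b c d : ℕ, 0 < a → 0 < b → 0 < c → 0 < d →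
      a + b + c + d = n → ((a : ℤ) * b * c * d ≠ (p : ℤ) ^ 3 - p) := by
  refine ⟨33, by norm_num, ?_⟩
  intro p hp a b c d ha hb hc hd hs h
  have hd' : d = 33 - a - b - c := by omega
  have k := key a (by omega) b (by omega) c (by omega)
  rw [← hd'] at k
  have h2 : a * b * c * d + p = p ^ 3 := by
    have : ((a * b * c * d + p : ℕ) : ℤ) = ((p ^ 3 : ℕ) : ℤ) := by push_cast; linarith
    exact_mod_cast this
  generalize a * b * c * d = m at k h2
  obtain ⟨k0, k1, k2, k3, k4, k5, k6⟩ := ok_spec m k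
  have hlt : p < 17 := by
    by_contra hge
    have h17 : 17 ≤ p := by omega
    have h3 : 289 * p ≤ p ^ 3 := by
      have : 17 * 17 ≤ p * p := Nat.mul_le_mul h17 h17
      calc 289 * p ≤ p * p * p := Nat.mul_le_mul_right p (by omega)
        _ = p ^ 3 := by ring
    omega
  interval_cases p <;> first | omega | (revert hp; norm_num)

end Pool.Agent.H24.Sum4
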