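import Mathlib

namespace Pool.Agent.H24.Susp

open Finset

variable {V ι : Type*} [Fintype V] [DecidableEq V] [DecidableEq ι]

def Inv (O B : Finset V) (I : Finset ι) (l : ι → ℝ) : Prop :=
  ∃ w : V → V → ℝ, (∀ i j, w i j = w j i) ∧ (∀ i j, 0 ≤ w i j) ∧
    (∀ i j, w i j ≠ 0 → i ≠ j ∧ i ∈ B ∧ j ∈ B ∧ ¬ (i ∈ O ∧ j ∈ O)) ∧
    ∀ t ∈ I, ∃ u : V → ℝ, u ≠ 0 ∧ (∀ i, i ∉ B → u i = 0) ∧ ∑ i, u i = 0 ∧
      ∀ i, ∑ j, w i j * (u i - u j) = l t * u i

lemma ext2 (O B : Finset V) (w : V → V → ℝ) (a v : V) (c x : ℝ) (ha : a ∉ B) (hv : v ∉ B)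
    (hs : ∀ i j, w i j ≠ 0 → i ∈ B ∧ j ∈ B) (u : V → ℝ) (i : V) (hav : a ≠ v ∨ x = 0) :
    ∑ j, (w i j + ((if i ∈ B ∧ j = a ∨ i = a ∧ j ∈ B then c else 0) +
      (if i = a ∧ j = v ∨ i = v ∧ j = a then x else 0))) * (u i - u j) =
    ∑ j, w i j * (u i - u j) + ((if i ∈ B then c * (u i - u a) else 0) +
      (if i = a then c * (B.card * u a - ∑ j ∈ B, u j) + x * (u a - u v) else 0) +
      (if i = v then x * (u v - u a) else 0)) := by
  simp only [add_mul, sum_add_distrib, add_right_inj, ite_mul, zero_mul]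
  by_cases h1 : i ∈ B
  · have h2 : i ≠ a := fun h => ha (h ▸ h1)
    have h3 : i ≠ v := fun h => hv (h ▸ h1)
    simp [h1, h2, h3]
  · by_cases h2 : i = a
    · subst h2
      rcases hav with h | h
      · simp [h1, h, mul_sub, sum_sub_distrib, mul_sum]
        ring
      · simp [h1, h, mul_sub, sum_sub_distrib, mul_sum]
        ring
    · by_cases h3 : i = v
      · subst h3
        simp [h1, h2]
      · simp [h1, h2, h3]

lemma step (O B : Finset V) (I J : Finset ι) (l : ι → ℝ) (a v : V) (c x : ℝ) (ha : a ∉ B)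
    (hv : v ∉ B) (haO : a ∉ O) (hc : 0 ≤ c) (hx : 0 ≤ x) (hav : a ≠ v ∨ x = 0)
    (h : Inv O B I (fun t => l t - c))
    (hJ : ∀ t ∈ J, ∃ p q r : ℝ, (q ≠ 0 ∨ (a ≠ v ∧ r ≠ 0) ∨ (B.Nonempty ∧ p ≠ 0)) ∧ (a = v → r = 0) ∧
      B.card * p + q + r = 0 ∧ c * (p - q) = l t * p ∧
      c * (B.card * q - B.card * p) + x * (q - r) = l t * q ∧ x * (r - q) = l t * r) :
    Inv O (insert a (insert v B)) (I ∪ J) l := by
  obtain ⟨w, h1, h2, h3, h4⟩ := h
  have hs : ∀ i j, w i j ≠ 0 → i ∈ B ∧ j ∈ B := fun i j h => ⟨(h3 i j h).2.1, (h3 i j h).2.2.1⟩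
  refine ⟨fun i j => w i j + ((if i ∈ B ∧ j = a ∨ i = a ∧ j ∈ B then c else 0) +
      (if i = a ∧ j = v ∨ i = v ∧ j = a then x else 0)), fun i j => ?_, fun i j => ?_,
      fun i j h => ?_, fun t ht => ?_⟩
  · simp only [h1 i j, and_comm, or_comm]
  · have := h2 i j
    beta_reduce
    split_ifs <;> positivity
  · by_cases k1 : w i j = 0
    · by_cases k2 : i ∈ B ∧ j = a ∨ i = a ∧ j ∈ B
      · rcases k2 with ⟨k, rfl⟩ | ⟨rfl, k⟩
        · exact ⟨fun e => ha (e ▸ k), by simp [k], by simp, fun e => haO e.2⟩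
        · exact ⟨fun e => ha (e ▸ k), by simp, by simp [k], fun e => haO e.1⟩
      · by_cases k3 : i = a ∧ j = v ∨ i = v ∧ j = a
        · have hx0 : x ≠ 0 := by
            rintro rfl
            simp [k1, k2] at h
          have := hav.resolve_right hx0
          rcases k3 with ⟨rfl, rfl⟩ | ⟨rfl, rfl⟩
          · exact ⟨this, by simp, by simp, fun e => haO e.1⟩
          · exact ⟨this.symm, by simp, by simp, fun e => haO e.2⟩
        · simp [k1, k2, k3] at h
    · obtain ⟨k2, k3, k4, k5⟩ := h3 i j k1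
      exact ⟨k2, by simp [k3], by simp [k4], k5⟩
  · rcases mem_union.1 ht with ht | ht
    · obtain ⟨u, k1, k2, k3, k4⟩ := h4 t ht
      refine ⟨u, k1, fun i hi => k2 i fun h => hi (by simp [h]), k3, fun i => ?_⟩
      have k5 : ∑ j ∈ B, u j = 0 := by
        rw [← k3]
        exact sum_subset (subset_univ _) fun i _ hi => k2 i hi
      rw [ext2 O B w a v c x ha hv hs u i hav, k4, k2 a ha, k2 v hv, k5]
      by_cases hi : i ∈ B
      · simp [hi]; ring
      · simp [hi, k2 i hi]
    · obtain ⟨p, q, r, k0, k1, k2, k3, k4, k5⟩ := hJ t ht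
      let u : V → ℝ := fun i => if i ∈ B then p else if i = a then q else if i = v then r else 0
      have ua : u a = q := by simp [u, ha]
      have uB : ∀ i ∈ B, u i = p := fun i hi => by simp [u, hi]
      have uv : a ≠ v → u v = r := fun h => by simp [u, hv, h.symm]
      have sB : ∑ j ∈ B, u j = B.card * p := by
        rw [sum_congr rfl uB]; simp
      have u0 : ∀ i, i ∉ insert a (insert v B) → u i = 0 := by
        intro i hi
        simp only [mem_insert, not_or] at hi
        simp [u, hi]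
      refine ⟨u, fun e => ?_, u0, ?_, fun i => ?_⟩
      · rcases k0 with k | k | ⟨⟨i, hi⟩, k⟩
        · exact k (by rw [← ua, e]; rfl)
        · exact k.2 (by rw [← uv k.1, e]; rfl)
        · exact k (by rw [← uB i hi, e]; rfl)
      · rw [← sum_subset (subset_univ _) fun i _ hi => u0 i hi]
        by_cases e : a = v
        · subst e
          rw [insert_idem, sum_insert ha, ua, sB]
          linarith [k1 rfl]
        · rw [sum_insert (by simp [e, ha]), sum_insert hv, ua, uv e, sB]
          linarith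
      · have k6 : ∑ j, w i j * (u i - u j) = 0 := by
          refine sum_eq_zero fun j _ => ?_
          by_cases e : w i j = 0
          · simp [e]
          · rw [uB i (hs i j e).1, uB j (hs i j e).2]; simp
        rw [ext2 O B w a v c x ha hv hs u i hav, k6, ua, sB]
        by_cases hi : i ∈ B
        · have e2 : i ≠ a := fun h => ha (h ▸ hi)
          have e3 : i ≠ v := fun h => hv (h ▸ hi)
          simp [hi, e2, e3, uB i hi, k3]
        · by_cases e2 : i = a
          · subst e2
            by_cases e : i = v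
            · have hx0 := hav.resolve_left (not_not.2 e)
              subst hx0
              simp only [hi, if_false, if_true, ua]
              simp at k4 ⊢
              linarith
            · simp only [hi, e, if_false, if_true, ua, uv e]
              linarith
          · by_cases e3 : i = v
            · subst e3
              simp only [hi, e2, if_false, if_true, uv (Ne.symm e2)]
              linarith
            · simp [hi, e2, e3, u]

lemma base (O : Finset V) (n : ℕ) : ∀ (I : Finset ι) (B : Finset V) (l : ι → ℝ), I.card = n →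
    B.card = n + 1 → Disjoint B O → (∀ t ∈ I, 0 ≤ l t) → Inv O B I l := by
  induction n with
  | zero =>
    intro I B l hI _ _ _
    rw [card_eq_zero.1 hI]
    exact ⟨0, by simp, by simp, by simp, by simp⟩
  | succ n ih =>
    intro I B l hI hB hO hl
    obtain ⟨t, ht, hm⟩ := exists_min_image I l (card_pos.1 (by omega))
    obtain ⟨a, ha⟩ : B.Nonempty := card_pos.1 (by omega)
    have hc : ((B.erase a).card : ℝ) = n + 1 := by
      rw [card_erase_of_mem ha, hB]; simp
    have h0 := hl t ht
    have hn : (0 : ℝ) ≤ n := Nat.cast_nonneg n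
    have hle : l t / (n + 2) ≤ l t := div_le_self h0 (by linarith)
    have := step O (B.erase a) (I.erase t) {t} l a a (l t / (n + 2)) 0 (notMem_erase _ _)
      (notMem_erase _ _) (disjoint_left.1 hO ha) (by positivity) le_rfl (Or.inr rfl)
      (ih _ _ _ (by rw [card_erase_of_mem ht]; omega) (by rw [card_erase_of_mem ha]; omega)
        (hO.mono_left (erase_subset _ _)) (fun s hs => by
          have := hm s (mem_of_mem_erase hs); linarith))
      (fun s hs => by
        rw [mem_singleton.1 hs, hc]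
        refine ⟨1, -(n + 1), 0, Or.inl (by linarith), fun _ => rfl, by ring, ?_, ?_, by ring⟩ <;>
          field_simp <;> ring)
    rwa [insert_idem, insert_erase ha, union_comm, ← insert_eq, insert_erase ht] at this

lemma solve (α β b : ℝ) (hβ : 0 < β) (hα : 6 * β ≤ α) (hb : 3 ≤ b) :
    ∃ c x : ℝ, 0 < c ∧ c < β ∧ c < x ∧ (b + 1) * c + 2 * x = α + β ∧ (b + 2) * c * x = α * β := by
  have hk : 0 ≤ 4 * β / (b + 2) := by positivity
  have h1 : (b + 2) * (4 * β / (b + 2)) = 4 * β := by field_simp
  have := intermediate_value_Icc hk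
    (f := fun c => (b + 2) * c * ((α + β - (b + 1) * c) / 2)) (by fun_prop)
  obtain ⟨c, ⟨k1, k2⟩, k3⟩ := this (show α * β ∈ _ from ⟨by nlinarith, by
    rw [h1]
    nlinarith [mul_nonneg hβ.le hk]⟩)
  simp only at k3
  have k4 : (b + 2) * c ≤ 4 * β := h1 ▸ mul_le_mul_of_nonneg_left k2 (by linarith)
  have k5 : c ≠ 0 := by
    rintro rfl
    nlinarith
  refine ⟨c, _, lt_of_le_of_ne k1 k5.symm, by nlinarith, by nlinarith, by ring, k3⟩

lemma main (O : Finset V) (m : ℕ) : ∀ (I T : Finset ι) (B : Finset V) (l : ι → ℝ) (τ : ℝ),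
    T ⊆ I → T.card = m → (∀ t ∈ T, 6 * τ ≤ l t) → m ≤ ((I \ T).filter (fun i => l i ≤ τ)).card →
    (∀ t ∈ I, 0 < l t) → 2 * m + 2 ≤ I.card → B.card = I.card + 1 → (B ∩ O).card = m →
    Inv O B I l := by
  induction m with
  | zero =>
    intro I T B l τ _ _ _ _ hl _ hB hO
    exact base O _ I B l rfl hB (disjoint_iff_inter_eq_empty.2 (card_eq_zero.1 hO))
      fun t ht => (hl t ht).le
  | succ m ih =>
    intro I T B l τ hT hTc hτ hS hl hI hB hO
    obtain ⟨s1, hs1⟩ : ((I \ T).filter (fun i => l i ≤ τ)).Nonempty := card_pos.1 (by omega)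
    obtain ⟨s, hs, hm⟩ := exists_min_image (I \ T) l ⟨s1, (mem_filter.1 hs1).1⟩
    have hsτ : l s ≤ τ := (hm s1 (mem_filter.1 hs1).1).trans (mem_filter.1 hs1).2
    obtain ⟨t, ht⟩ : T.Nonempty := card_pos.1 (by omega)
    obtain ⟨v, hv⟩ : (B ∩ O).Nonempty := card_pos.1 (by omega)
    obtain ⟨a, ha⟩ : (B \ O).Nonempty := by
      have := card_sdiff_add_card_inter B O
      exact card_pos.1 (by omega)
    obtain ⟨hvB, hvO⟩ := mem_inter.1 hv
    obtain ⟨haB, haO⟩ := mem_sdiff.1 ha
    obtain ⟨hsI, hsT⟩ := mem_sdiff.1 hs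
    have hav : a ≠ v := fun e => haO (e ▸ hvO)
    have hst : s ≠ t := fun e => hsT (e ▸ ht)
    have hvB' : v ∈ B.erase a := mem_erase.2 ⟨hav.symm, hvB⟩
    have hsI' : s ∈ I.erase t := mem_erase.2 ⟨hst, hsI⟩
    have cB : ((B.erase a).erase v).card + 2 = B.card := by
      rw [card_erase_of_mem hvB', card_erase_of_mem haB]; omega
    have cI : ((I.erase t).erase s).card + 2 = I.card := by
      rw [card_erase_of_mem hsI', card_erase_of_mem (hT ht)]; omega
    have hs0 := hl s hsI
    obtain ⟨c, x, k1, k2, k3, k4, k5⟩ := solve (l t) (l s) ((B.erase a).erase v).card hs0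
      (by linarith [hτ t ht]) (by exact_mod_cast (by omega))
    have := step O ((B.erase a).erase v) ((I.erase t).erase s) {t, s} l a v c x (by simp)
      (by simp) haO k1.le (by linarith) (Or.inl hav)
      (ih _ (T.erase t) _ _ (τ - c) ?_ (by rw [card_erase_of_mem ht]; omega) ?_ ?_ ?_ (by omega)
        (by omega) ?_) ?_
    · rw [insert_erase hvB', insert_erase haB] at this
      convert this using 1
      ext i
      simp only [mem_union, mem_erase, mem_insert, mem_singleton]
      constructor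
      · tauto
      · rintro (h | rfl | rfl)
        · exact h.2.2
        · exact hT ht
        · exact hsI
    · intro i hi
      obtain ⟨h1, h2⟩ := mem_erase.1 hi
      exact mem_erase.2 ⟨fun e => hsT (e ▸ h2), mem_erase.2 ⟨h1, hT h2⟩⟩
    · intro i hi
      have := hτ i (mem_of_mem_erase hi)
      linarith
    · have : ((I \ T).filter (fun i => l i ≤ τ)).erase s ⊆
          ((((I.erase t).erase s) \ T.erase t).filter (fun i => l i - c ≤ τ - c)) := by
        intro i hi
        simp only [mem_erase, mem_filter, mem_sdiff] at hi ⊢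
        refine ⟨⟨⟨hi.1, fun e => hi.2.1.2 (e ▸ ht), hi.2.1.1⟩, fun e => hi.2.1.2 e.2⟩, by
          linarith [hi.2.2]⟩
      have h1 := card_le_card this
      have h2 := pred_card_le_card_erase (s := (I \ T).filter (fun i => l i ≤ τ)) (a := s)
      omega
    · intro i hi
      have hiI := mem_of_mem_erase (mem_of_mem_erase hi)
      by_cases e : i ∈ T
      · have := hτ i e
        linarith
      · have := hm i (mem_sdiff.2 ⟨hiI, e⟩)
        linarith
    · have : ((B.erase a).erase v) ∩ O = (B ∩ O).erase v := by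
        ext i
        simp only [mem_inter, mem_erase]
        constructor
        · tauto
        · exact fun h => ⟨⟨h.1, fun e => haO (e ▸ h.2.2), h.2.1⟩, h.2.2⟩
      rw [this, card_erase_of_mem hv]; omega
    · intro i hi
      have hq : l i ^ 2 - (l t + l s) * l i + l t * l s = 0 := by
        simp only [mem_insert, mem_singleton] at hi
        rcases hi with rfl | rfl <;> ring
      rw [← k4, ← k5] at hq
      refine ⟨c * (x - l i), (c - l i) * (x - l i), x * (c - l i), ?_, fun e => absurd e hav,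
        by linear_combination hq, by ring, by linear_combination (-l i) * hq, by ring⟩
      by_cases e : l i = c
      · exact Or.inr (Or.inr ⟨card_pos.1 (by omega), mul_ne_zero k1.ne' (by linarith)⟩)
      · exact Or.inr (Or.inl ⟨hav, mul_ne_zero (by linarith) (sub_ne_zero.2 (Ne.symm e))⟩)

lemma roots_eq (M : Matrix V V ℝ) (s : Multiset ℝ) (hs : s.Nodup) (hc : s.card = Fintype.card V)
    (h : ∀ μ ∈ s, ∃ u : V → ℝ, u ≠ 0 ∧ M.mulVec u = μ • u) : M.charpoly.roots = s := by
  symm
  refine Multiset.eq_of_le_of_card_le ((Multiset.le_iff_subset hs).2 fun μ hμ => ?_) ?_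
  · obtain ⟨u, h1, h2⟩ := h μ hμ
    rw [Polynomial.mem_roots M.charpoly_monic.ne_zero, Polynomial.IsRoot, Matrix.eval_charpoly,
      ← Matrix.exists_mulVec_eq_zero_iff]
    refine ⟨u, h1, ?_⟩
    rw [Matrix.sub_mulVec, h2]
    ext i
    simp
  · rw [hc, ← M.charpoly_natDegree_eq_dim]
    exact Polynomial.card_roots' _

end Pool.Agent.H24.Susp
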