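import Pool.Agent.H24.TipDefs

namespace Pool.Agent.H24.Tip

open Classical

variable {V : Type} {G : SimpleGraph V} [G.LocallyFinite]

theorem avg_le {u : V} {f g : V → ℝ} (h : ∀ w, G.Adj u w → f w ≤ g w) : avg G u f ≤ avg G u g := by
  unfold avg
  gcongr with w hw
  exact h w (by simpa using hw)

theorem avg_const {u : V} (hu : 0 < G.degree u) (a : ℝ) : avg G u (fun _ => a) = a := by
  have : (G.degree u : ℝ) ≠ 0 := by exact_mod_cast hu.ne'
  simp [avg, SimpleGraph.card_neighborFinset_eq_degree]; field_simp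

theorem avg_add (u : V) (f g : V → ℝ) :
    avg G u (fun w => f w + g w) = avg G u f + avg G u g := by
  simp [avg, Finset.sum_add_distrib, add_div]

theorem avg_mul (u : V) (a : ℝ) (f : V → ℝ) : avg G u (fun w => a * f w) = a * avg G u f := by
  simp [avg, ← Finset.mul_sum, mul_div_assoc]

theorem avg_sub {u : V} (hu : 0 < G.degree u) (f : V → ℝ) :
    avg G u (fun w => 1 - f w) = 1 - avg G u f := by
  have := avg_add (G := G) u (fun w => 1 - f w) f
  simp only [sub_add_cancel, avg_const hu] at this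
  linarith

variable {c r t : ℝ} {cs rs : ℕ → V → V → V}

theorem capt_le (hd : ∀ u, 0 < G.degree u) (hc : 0 ≤ c) (hr : 0 ≤ r) (ht : 0 ≤ t)
    (hs : c + r + t = 1) (e : V → V → ℝ) (P : V → Prop) (hP : ∀ s u v, P v → P (rs s u v))
    (h0 : ∀ u v, P v → 0 ≤ e u v) (h1 : ∀ v, P v → 1 ≤ e v v)
    (h : ∀ s u v, P v → u ≠ v → c * e (cs s u v) v + r * e u (rs s u v) +
      t * avg G u (fun w => e w v) ≤ e u v) (n : ℕ) :
    ∀ s u v, P v → capt G c r t 0 cs rs n s u v ≤ e u v := by
  induction n with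
  | zero =>
    intro s u v hv
    simp only [capt]; split_ifs with h
    · exact h ▸ h1 _ (h ▸ hv)
    · exact h0 _ _ hv
  | succ n ih =>
    intro s u v hv
    simp only [capt]; split_ifs with huv
    · exact huv ▸ h1 _ (huv ▸ hv)
    · refine le_trans ?_ (h s u v hv huv)
      have a1 := ih (s + 1) (cs s u v) v hv
      have a2 := ih (s + 1) u _ (hP s u v hv)
      have a3 := avg_le (G := G) (u := u) fun w _ => ih (s + 1) w v hv
      rw [zero_mul, add_zero]
      gcongr

theorem capt_le_one (hd : ∀ u, 0 < G.degree u) (hc : 0 ≤ c) (hr : 0 ≤ r) (ht : 0 ≤ t)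
    (hs : c + r + t = 1) (n s : ℕ) (u v : V) : capt G c r t 0 cs rs n s u v ≤ 1 :=
  capt_le hd hc hr ht hs (fun _ _ => 1) (fun _ => True) (by simp) (by simp) (by simp)
    (fun s u v _ _ => by rw [avg_const (hd u)]; linarith) n s u v trivial

theorem capt_mono (hd : ∀ u, 0 < G.degree u) (hc : 0 ≤ c) (hr : 0 ≤ r) (ht : 0 ≤ t)
    (n : ℕ) : ∀ s u v, 0 ≤ capt G c r t 0 cs rs n s u v ∧
      capt G c r t 0 cs rs n s u v ≤ capt G c r t 0 cs rs (n + 1) s u v := by
  induction n with
  | zero =>
    intro s u v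
    have k : ∀ s u v, 0 ≤ capt G c r t 0 cs rs 0 s u v := by
      intro s u v; simp only [capt]; split_ifs <;> norm_num
    refine ⟨k _ _ _, ?_⟩
    rw [capt, capt]; split_ifs
    · exact le_rfl
    · have a1 := k (s + 1) (cs s u v) v
      have a2 := k (s + 1) u (rs s u v)
      have a3 := avg_le (G := G) (u := u) fun w _ => k (s + 1) w v
      rw [avg_const (hd u)] at a3
      rw [zero_mul, add_zero]
      positivity
  | succ n ih =>
    intro s u v
    refine ⟨(ih s u v).1.trans (ih s u v).2, ?_⟩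
    rw [capt, capt]; split_ifs
    · exact le_rfl
    · have a1 := (ih (s + 1) (cs s u v) v).2
      have a2 := (ih (s + 1) u (rs s u v)).2
      have a3 := avg_le (G := G) (u := u) fun w _ => (ih (s + 1) w v).2
      rw [zero_mul, add_zero, zero_mul, add_zero]
      gcongr

theorem capt_sum (hd : ∀ u, 0 < G.degree u) (hc : 0 ≤ c) (hr : 0 ≤ r) (ht : 0 ≤ t)
    (hs : c + r + t = 1) (W : V → V → ℝ) (h0 : ∀ u v, 0 ≤ W u v)
    (h : ∀ s u v, u ≠ v → c * W (cs s u v) v + r * W u (rs s u v) +
      t * avg G u (fun w => W w v) + 1 ≤ W u v) (n : ℕ) :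
    ∀ s u v, ∑ k ∈ Finset.range n, (1 - capt G c r t 0 cs rs k s u v) ≤ W u v := by
  induction n with
  | zero => intro s u v; simpa using h0 u v
  | succ n ih =>
    intro s u v
    by_cases huv : u = v
    · refine le_trans (le_of_eq (Finset.sum_eq_zero fun k _ => ?_)) (h0 u v)
      cases k <;> simp [capt, huv]
    · refine le_trans ?_ (h s u v huv)
      have a1 := ih (s + 1) (cs s u v) v
      have a2 := ih (s + 1) u (rs s u v)
      have a3 := avg_le (G := G) (u := u) fun w _ => ih (s + 1) w v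
      have a4 : avg G u (fun w => ∑ k ∈ Finset.range n, (1 - capt G c r t 0 cs rs k (s + 1) w v)) =
          ∑ k ∈ Finset.range n, (1 - avg G u fun w => capt G c r t 0 cs rs k (s + 1) w v) := by
        simp only [← avg_sub (hd u)]
        simp only [avg]
        rw [Finset.sum_comm, Finset.sum_div]
      rw [a4] at a3
      rw [Finset.sum_range_succ']
      simp only [capt, huv, if_false, zero_mul, add_zero, sub_zero]
      have e : ∀ a b d : ℝ, 1 - (c * a + r * b + t * d) = c * (1 - a) + r * (1 - b) + t * (1 - d) := by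
        intro a b d; linear_combination -hs
      simp only [e, Finset.sum_add_distrib, ← Finset.mul_sum]
      gcongr

theorem tendsto_of (hd : ∀ u, 0 < G.degree u) (hc : 0 ≤ c) (hr : 0 ≤ r) (ht : 0 ≤ t)
    (hs : c + r + t = 1) (W : V → V → ℝ) (h0 : ∀ u v, 0 ≤ W u v)
    (h : ∀ s u v, u ≠ v → c * W (cs s u v) v + r * W u (rs s u v) +
      t * avg G u (fun w => W w v) + 1 ≤ W u v) (u v : V) :
    Filter.Tendsto (fun n => capt G c r t 0 cs rs n 0 u v) Filter.atTop (nhds 1) := by
  have hsum : Summable fun k => 1 - capt G c r t 0 cs rs k 0 u v :=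
    summable_of_sum_range_le (fun k => sub_nonneg.2 (capt_le_one hd hc hr ht hs _ _ _ _))
      fun n => capt_sum hd hc hr ht hs W h0 h n 0 u v
  have := hsum.tendsto_atTop_zero.const_sub 1
  simpa using this

end Pool.Agent.H24.Tip
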