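import Pool.Agent.H24.Tip1

namespace Pool.Agent.H24.Tip

open Classical

@[irreducible] def m (n : ℕ) : ℕ := 1000 ^ (n + 1)

theorem m_eq (n : ℕ) : m n = 1000 ^ (n + 1) := by unfold m; rfl

theorem m_pos (n : ℕ) : 0 < m n := by rw [m_eq]; positivity

inductive Vx
  | H (n : ℕ)
  | M (n : ℕ) (i : Fin (m n))
  | S (k : ℕ)

open Vx

inductive E : Vx → Vx → Prop
  | hm (n i) : E (H n) (M n i)
  | mh (n i) : E (M n i) (H (n + 1))
  | hs (n) : E (H n) (S (2 * n))
  | ss (k) : E (S k) (S (k + 1))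

def φ : Vx → ℕ
  | H n => 2 * n
  | M n _ => 2 * n + 1
  | S k => k + 1

theorem E.phi {a b : Vx} (h : E a b) : φ b = φ a + 1 := by cases h <;> simp [φ] <;> ring

def G0 : SimpleGraph Vx where
  Adj a b := E a b ∨ E b a
  symm := ⟨fun _ _ h => h.symm⟩
  loopless := ⟨fun a h => by have := (h.elim id id).phi; omega⟩

theorem adj_phi {a b : Vx} (h : G0.Adj a b) : φ b = φ a + 1 ∨ φ a = φ b + 1 :=
  h.imp E.phi E.phi

def layer (n : ℕ) : Finset Vx := Finset.univ.map ⟨M n, fun _ _ h => by simpa using h⟩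

@[simp] theorem mem_layer {n : ℕ} {w : Vx} : w ∈ layer n ↔ ∃ i, M n i = w := by simp [layer]

theorem adjH0 {w : Vx} : G0.Adj (H 0) w ↔ w = S 0 ∨ ∃ i, M 0 i = w := by
  constructor
  · rintro (h | h) <;> cases h <;> simp
  · rintro (rfl | ⟨i, rfl⟩)
    · exact Or.inl (E.hs 0)
    · exact Or.inl (E.hm 0 i)

theorem adjH {n : ℕ} {w : Vx} :
    G0.Adj (H (n + 1)) w ↔ w = S (2 * (n + 1)) ∨ (∃ i, M (n + 1) i = w) ∨ ∃ i, M n i = w := by
  constructor
  · rintro (h | h) <;> cases h <;> simp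
  · rintro (rfl | ⟨i, rfl⟩ | ⟨i, rfl⟩)
    · exact Or.inl (E.hs _)
    · exact Or.inl (E.hm _ i)
    · exact Or.inr (E.mh _ i)

theorem adjM {n : ℕ} {i} {w : Vx} : G0.Adj (M n i) w ↔ w = H n ∨ w = H (n + 1) := by
  constructor
  · rintro (h | h) <;> cases h <;> simp
  · rintro (rfl | rfl)
    · exact Or.inr (E.hm _ i)
    · exact Or.inl (E.mh _ i)

theorem adjS {k : ℕ} {w : Vx} :
    G0.Adj (S k) w ↔ w = S (k + 1) ∨ (∃ j, k = j + 1 ∧ w = S j) ∨ ∃ n, k = 2 * n ∧ w = H n := by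
  constructor
  · rintro (h | h)
    · cases h; simp
    · generalize e : S k = x at h
      cases h <;> simp_all
  · rintro (rfl | ⟨j, rfl, rfl⟩ | ⟨n, rfl, rfl⟩)
    · exact Or.inl (E.ss _)
    · exact Or.inr (E.ss _)
    · exact Or.inr (E.hs _)

theorem nb_fin (u : Vx) : (G0.neighborSet u).Finite := by
  cases u with
  | H n =>
    refine ((insert (S (2 * n)) (layer n ∪ layer (n - 1))).finite_toSet).subset fun w hw => ?_
    cases n with
    | zero => have := adjH0.1 hw; simp; tauto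
    | succ n => have := adjH.1 hw; simp; tauto
  | M n i => exact (Set.toFinite {H n, H (n + 1)}).subset fun w hw => adjM.1 hw
  | S k =>
    refine (Set.toFinite {S (k + 1), S (k - 1), H (k / 2)}).subset fun w hw => ?_
    rcases adjS.1 hw with rfl | ⟨j, rfl, rfl⟩ | ⟨n, rfl, rfl⟩ <;> simp

noncomputable instance : G0.LocallyFinite := fun u => (nb_fin u).fintype

theorem avg_eq {u : Vx} (s : Finset Vx) (h : ∀ w, G0.Adj u w ↔ w ∈ s) (f : Vx → ℝ) :
    avg G0 u f = (∑ w ∈ s, f w) / s.card := by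
  have : G0.neighborFinset u = s := by ext w; simp [h]
  rw [avg, ← SimpleGraph.card_neighborFinset_eq_degree, this]

theorem avgM (n i) (f : Vx → ℝ) : avg G0 (M n i) f = (f (H n) + f (H (n + 1))) / 2 := by
  rw [avg_eq {H n, H (n + 1)} (by simp [adjM])]; simp

theorem avgS0 (f : Vx → ℝ) : avg G0 (S 0) f = (f (S 1) + f (H 0)) / 2 := by
  rw [avg_eq {S 1, H 0} (by simp [adjS])]; simp

theorem avgS1 (n) (f : Vx → ℝ) :
    avg G0 (S (2 * n + 1)) f = (f (S (2 * n + 2)) + f (S (2 * n))) / 2 := by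
  rw [avg_eq {S (2 * n + 2), S (2 * n)} (by
    intro w; simp only [adjS, Finset.mem_insert, Finset.mem_singleton]
    constructor
    · rintro (h | ⟨j, h1, h2⟩ | ⟨j, h1, h2⟩)
      · exact Or.inl h
      · right; rw [h2]; congr 1; omega
      · omega
    · rintro (h | h)
      · exact Or.inl h
      · exact Or.inr (Or.inl ⟨_, rfl, h⟩))]
  simp

theorem avgS2 (n) (f : Vx → ℝ) : avg G0 (S (2 * n + 2)) f =
    (f (S (2 * n + 3)) + f (S (2 * n + 1)) + f (H (n + 1))) / 3 := by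
  rw [avg_eq {S (2 * n + 3), S (2 * n + 1), H (n + 1)} (by
    intro w; simp only [adjS, Finset.mem_insert, Finset.mem_singleton]
    constructor
    · rintro (h | ⟨j, h1, h2⟩ | ⟨j, h1, h2⟩)
      · exact Or.inl h
      · right; left; rw [h2]; congr 1; omega
      · right; right; rw [h2]; congr 1; omega
    · rintro (h | h | h)
      · exact Or.inl h
      · exact Or.inr (Or.inl ⟨_, rfl, h⟩)
      · exact Or.inr (Or.inr ⟨_, by ring, h⟩))]
  rw [Finset.card_eq_three.2 ⟨_, _, _, by simp, by simp, by simp, rfl⟩]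
  simp [add_assoc]

theorem avgH (n) (f : Vx → ℝ) (a b : ℝ) (ha : ∀ i, f (M (n + 1) i) = a) (hb : ∀ i, f (M n i) = b) :
    avg G0 (H (n + 1)) f =
      (f (S (2 * (n + 1))) + 1000 * m n * a + m n * b) / (1 + 1001 * m n) := by
  have d : Disjoint (layer (n + 1)) (layer n) := by
    simp [Finset.disjoint_left]
  rw [avg_eq (insert (S (2 * (n + 1))) (layer (n + 1) ∪ layer n)) (by simp [adjH, eq_comm]),
    Finset.sum_insert (by simp), Finset.card_insert_of_notMem (by simp), Finset.sum_union d,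
    Finset.card_union_of_disjoint d]
  simp only [layer, Finset.sum_map, Function.Embedding.coeFn_mk, ha, hb, Finset.sum_const,
    Finset.card_map, Finset.card_univ, Fintype.card_fin, nsmul_eq_mul]
  have : (m (n + 1) : ℝ) = 1000 * m n := by simp [m_eq]; ring
  push_cast
  rw [this]; congr 1 <;> ring

def z (n : ℕ) : Fin (m n) := ⟨0, m_pos n⟩

def up : Vx → Vx
  | H n => M n (z n)
  | M n _ => H (n + 1)
  | S k => S (k + 1)

theorem up_E (u : Vx) : E u (up u) := by cases u <;> constructor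

theorem deg_pos (u : Vx) : 0 < G0.degree u :=
  (G0.degree_pos_iff_exists_adj u).2 ⟨_, Or.inl (up_E u)⟩

theorem exists_down (u : Vx) (h : u ≠ H 0) : ∃ w, E w u := by
  rcases u with (_ | n) | ⟨n, i⟩ | (_ | k)
  · exact absurd rfl h
  · exact ⟨_, E.mh n (z n)⟩
  · exact ⟨_, E.hm n i⟩
  · exact ⟨_, E.hs 0⟩
  · exact ⟨_, E.ss k⟩

theorem walk0 : ∀ (k : ℕ) (u : Vx), φ u = k → ∃ p : G0.Walk u (H 0), p.length = k := by
  intro k
  induction k with
  | zero =>
    intro u h
    rcases u with (_ | n) | ⟨n, i⟩ | k <;> simp [φ] at h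
    exact ⟨.nil, rfl⟩
  | succ k ih =>
    intro u h
    obtain ⟨w, hw⟩ := exists_down u (by rintro rfl; simp [φ] at h)
    obtain ⟨p, hp⟩ := ih w (by have := hw.phi; omega)
    exact ⟨.cons (Or.inr hw) p, by simp [hp]⟩

theorem conn : G0.Connected := by
  have : Nonempty Vx := ⟨H 0⟩
  refine ⟨fun u v => ?_⟩
  obtain ⟨p, -⟩ := walk0 _ u rfl
  obtain ⟨q, -⟩ := walk0 _ v rfl
  exact p.reachable.trans q.reachable.symm

theorem dist_adj {u w : Vx} (h : G0.Adj u w) (v : Vx) : G0.dist w v ≤ G0.dist u v + 1 := by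
  have := conn.dist_triangle (u := w) (v := u) (w := v)
  rw [SimpleGraph.dist_eq_one_iff_adj.2 h.symm] at this
  omega

theorem lip_le (f : Vx → ℕ) (hf : ∀ a b, G0.Adj a b → f a ≤ f b + 1) (u v : Vx) :
    f u ≤ f v + G0.dist u v := by
  obtain ⟨p, hp⟩ := conn.exists_walk_length_eq_dist u v
  rw [← hp]
  clear hp
  induction p with
  | nil => simp
  | cons h p ih => have := hf _ _ h; simp; omega

theorem exists_closer {u v : Vx} (h : u ≠ v) : ∃ w, G0.Adj u w ∧ G0.dist w v + 1 = G0.dist u v := by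
  obtain ⟨p, hp⟩ := conn.exists_walk_length_eq_dist u v
  cases p with
  | nil => exact absurd rfl h
  | cons a p =>
    refine ⟨_, a, le_antisymm ?_ (dist_adj a.symm v)⟩
    have := SimpleGraph.dist_le p
    simp at hp; omega

theorem dist_hub (u : Vx) : G0.dist u (H (φ u / 2)) ≤ 2 := by
  rcases u with n | ⟨n, i⟩ | k
  · simp [φ]
  · have := dist_adj (u := H n) (w := M n i) (Or.inl (E.hm n i)) (H n)
    rw [show φ (M n i) / 2 = n by simp [φ]; omega]
    simp at this; omega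
  · have k1 : ∀ n, G0.dist (S (2 * n)) (H n) ≤ 1 := fun n => by
      simpa using dist_adj (u := H n) (Or.inl (E.hs n)) (H n)
    obtain ⟨n, rfl | rfl⟩ := Nat.even_or_odd' k
    · rw [show φ (S (2 * n)) / 2 = n by simp [φ]; omega]
      have := k1 n; omega
    · rw [show φ (S (2 * n + 1)) / 2 = n + 1 by simp [φ]; omega]
      have := k1 (n + 1)
      have := dist_adj (u := S (2 * (n + 1))) (w := S (2 * n + 1)) (Or.inr (E.ss _)) (H (n + 1))
      omega

theorem dist_HH (n : ℕ) : G0.dist (H (n + 1)) (H n) ≤ 2 := by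
  have a := dist_adj (u := H n) (Or.inl (E.hm n (z n))) (H n)
  have b := dist_adj (u := M n (z n)) (Or.inl (E.mh n (z n))) (H n)
  simp at a; omega

theorem near {u v : Vx} (h1 : φ u ≤ φ v + 2) (h2 : φ v ≤ φ u + 2) : G0.dist u v ≤ 6 := by
  have a := dist_hub u
  have b := dist_hub v
  have c : G0.dist (H (φ u / 2)) (H (φ v / 2)) ≤ 2 := by
    rcases (by omega : φ u / 2 = φ v / 2 ∨ φ u / 2 = φ v / 2 + 1 ∨ φ v / 2 = φ u / 2 + 1) with
      h | h | h <;> rw [h]
    · simp
    · exact dist_HH _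
    · rw [SimpleGraph.dist_comm]; exact dist_HH _
  have d := conn.dist_triangle (u := u) (v := H (φ u / 2)) (w := v)
  have e := conn.dist_triangle (u := H (φ u / 2)) (v := H (φ v / 2)) (w := v)
  rw [SimpleGraph.dist_comm] at b
  omega

end Pool.Agent.H24.Tip
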