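import Pool.Agent.H24.Tip2

namespace Pool.Agent.H24.Tip

open Classical Vx

def down : Vx → Vx
  | H n => S (2 * n)
  | M n _ => H n
  | S 0 => H 0
  | S (k + 1) => S k

theorem down_adj (u : Vx) : G0.Adj u (down u) := by
  rcases u with n | ⟨n, i⟩ | (_ | k)
  · exact Or.inl (E.hs n)
  · exact Or.inr (E.hm n i)
  · exact Or.inr (E.hs 0)
  · exact Or.inr (E.ss k)

noncomputable def A : Vx → ℝ
  | H n => 2 * n + 29 / 10
  | M n _ => 2 * n + 1 + 53 / 20
  | S k => k + 1 - if k % 2 = 1 then 1 / 4 else 0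

theorem A_bd (u : Vx) : (φ u : ℝ) - 1 / 4 ≤ A u ∧ A u ≤ φ u + 29 / 10 := by
  rcases u with n | ⟨n, i⟩ | k <;> simp only [A, φ] <;> push_cast
  · constructor <;> linarith
  · constructor <;> linarith
  · split_ifs <;> constructor <;> linarith

theorem A_drift (u : Vx) (h : 3 ≤ φ u) :
    3 / 10 * A (down u) + 69 / 100 * avg G0 u A ≤ 99 / 100 * A u - 1 / 20 := by
  rcases u with (_ | n) | ⟨n, i⟩ | (_ | k)
  · simp [φ] at h
  · have : avg G0 (H (n + 1)) A ≤ 2 * (n + 1) + 1 + 53 / 20 := by
      rw [← avg_const (deg_pos (H (n + 1))) (2 * (n + 1) + 1 + 53 / 20)]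
      refine avg_le fun w hw => ?_
      rcases adjH.1 hw with rfl | ⟨i, rfl⟩ | ⟨i, rfl⟩ <;> simp [A] <;> linarith
    simp [A, down] at *; linarith
  · rw [avgM]; simp [A, down]; linarith
  · simp [φ] at h
  · obtain ⟨n, rfl | rfl⟩ := Nat.even_or_odd' k
    · rw [avgS1]; simp [A, down, Nat.add_mod]; linarith
    · rw [avgS2]; simp [A, down, Nat.add_mod]; linarith

theorem phi_drift (u : Vx) : 99 / 100 * (φ u : ℝ) + 1 / 20 ≤
    3 / 10 * φ (up u) + 69 / 100 * avg G0 u (fun w => φ w) := by
  rw [(up_E u).phi]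
  rcases u with (_ | n) | ⟨n, i⟩ | (_ | k)
  · have : (0 : ℝ) ≤ avg G0 (H 0) (fun w => φ w) := by
      rw [← avg_const (deg_pos (H 0)) 0]
      exact avg_le fun w _ => by positivity
    simp [φ] at *; linarith
  · rw [avgH n _ (2 * (n + 1) + 1) (2 * n + 1) (by simp [φ]) (by simp [φ])]
    have : (2 * (n + 1) : ℝ) ≤ ((φ (S (2 * (n + 1))) : ℝ) + 1000 * m n * (2 * (n + 1) + 1) +
        m n * (2 * n + 1)) / (1 + 1001 * m n) := by
      rw [le_div_iff₀ (by positivity)]
      have : (0 : ℝ) ≤ m n := by positivity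
      simp [φ]; nlinarith
    simp only [φ] at *; push_cast at *; linarith
  · rw [avgM]; simp [φ]; linarith
  · rw [avgS0]; simp [φ]; linarith
  · obtain ⟨n, rfl | rfl⟩ := Nat.even_or_odd' k
    · rw [avgS1]; simp [φ]; linarith
    · rw [avgS2]; simp [φ]; linarith

noncomputable def W (u v : Vx) : ℝ := max (A u - φ v) (φ v - φ u) + 1

theorem adj_phi' {a b : Vx} (h : G0.Adj a b) : (φ b : ℝ) ≤ φ a + 1 ∧ (φ a : ℝ) ≤ φ b + 1 := by
  rcases adj_phi h with h | h <;> rw [h] <;> push_cast <;> constructor <;> linarith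

theorem W_nn (u v : Vx) : 0 ≤ W u v := by
  have := A_bd u
  have := le_max_left (A u - φ v) (φ v - φ u)
  have := le_max_right (A u - φ v) (φ v - φ u)
  unfold W; linarith

theorem W_l {u w : Vx} (h : G0.Adj u w) (v : Vx) : W w v ≤ W u v + 5 := by
  have := A_bd u
  have := A_bd w
  have := adj_phi' h
  have := le_max_left (A u - φ v) (φ v - φ u)
  have := le_max_right (A u - φ v) (φ v - φ u)
  have : max (A w - φ v) (φ v - φ w) ≤ max (A u - φ v) (φ v - φ u) + 5 :=
    max_le (by linarith) (by linarith)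
  unfold W; linarith

theorem W_r {v w : Vx} (h : G0.Adj v w) (u : Vx) : W u w ≤ W u v + 1 := by
  have := adj_phi' h
  have := le_max_left (A u - φ v) (φ v - φ u)
  have := le_max_right (A u - φ v) (φ v - φ u)
  have : max (A u - φ w) (φ w - φ u) ≤ max (A u - φ v) (φ v - φ u) + 1 :=
    max_le (by linarith) (by linarith)
  unfold W; linarith

theorem W_hi {u v : Vx} (h : (φ v : ℝ) + 2 ≤ φ u) : W u v = A u + (1 - φ v) := by
  have := A_bd u
  unfold W; rw [max_eq_left (by linarith)]; ring

theorem W_lo {u v : Vx} (h : (φ u : ℝ) + 2 ≤ φ v) : W u v = (φ v + 1) + (-1) * φ u := by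
  have := A_bd u
  unfold W; rw [max_eq_right (by linarith)]; ring

noncomputable def cs0 (_ : ℕ) (u v : Vx) : Vx :=
  if h : u = v then u else if G0.dist u v ≤ 6 then (exists_closer h).choose
  else if φ v ≤ φ u then down u else up u

theorem cs0_strat : CopStrat G0 cs0 := by
  intro s u v
  unfold cs0
  split_ifs with h1 h2 h3
  · exact Or.inl rfl
  · exact Or.inr (exists_closer h1).choose_spec.1
  · exact Or.inr (down_adj u)
  · exact Or.inr (Or.inl (up_E u))

theorem W_drift {u v x : Vx} (s : ℕ) (h : ¬ G0.dist u v ≤ 6) (hx : G0.Adj v x) :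
    3 / 10 * W (cs0 s u v) v + 1 / 100 * W u x + 69 / 100 * avg G0 u (fun w => W w v) ≤
      W u v - 1 / 25 := by
  have huv : u ≠ v := by rintro rfl; simp at h
  have a := W_r hx u
  have far : φ v + 3 ≤ φ u ∨ φ u + 3 ≤ φ v := by
    by_contra hc
    exact h (near (by omega) (by omega))
  simp only [cs0, huv, h, dite_false, if_false]
  rcases far with f | f
  · have f' : (φ v : ℝ) + 3 ≤ φ u := by exact_mod_cast f
    have b := A_drift u (by omega)
    have e : avg G0 u (fun w => W w v) ≤ avg G0 u A + (1 - φ v) := by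
      rw [← avg_const (deg_pos u) (1 - φ v), ← avg_add]
      exact avg_le fun w hw => (W_hi (by have := adj_phi' hw; linarith)).le
    rw [if_pos (by omega), W_hi (u := down u) (by have := adj_phi' (down_adj u); linarith)]
    rw [W_hi (u := u) (v := v) (by linarith)] at a ⊢
    linarith
  · have f' : (φ u : ℝ) + 3 ≤ φ v := by exact_mod_cast f
    have b := phi_drift u
    have e : avg G0 u (fun w => W w v) ≤ (φ v + 1) + (-1) * avg G0 u (fun w => φ w) := by
      rw [← avg_const (deg_pos u) (φ v + 1), ← avg_mul, ← avg_add]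
      exact avg_le fun w hw => (W_lo (by have := adj_phi' hw; linarith)).le
    rw [if_neg (by omega), W_lo (u := up u) (by
      have := adj_phi' (a := u) (Or.inl (up_E u)); linarith)]
    rw [W_lo (u := u) (v := v) (by linarith)] at a ⊢
    linarith

noncomputable def Gf (d : ℕ) : ℝ := 1 - (1 / 10) ^ (min d 7)

theorem Gf_le {d e : ℕ} (h : min d 7 ≤ e) : Gf d ≤ 1 - (1 / 10) ^ e := by
  unfold Gf
  have := pow_le_pow_of_le_one (a := (1 / 10 : ℝ)) (by norm_num) (by norm_num) h
  linarith

theorem cs0_win (u0 v0 : Vx) : Winning G0 (3 / 10) (1 / 100) (69 / 100) 0 cs0 u0 v0 := by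
  intro rs hrs
  refine tendsto_of deg_pos (by norm_num) (by norm_num) (by norm_num) (by norm_num)
    (fun u v => 25 * W u v + 10 ^ 8 * Gf (G0.dist u v)) (fun u v => ?_) (fun s u v h => ?_) u0 v0
  · have := W_nn u v
    have : 0 ≤ Gf (G0.dist u v) := sub_nonneg.2 (pow_le_one₀ (by norm_num) (by norm_num))
    positivity
  · simp only [avg_add, avg_mul]
    by_cases hd : G0.dist u v ≤ 6
    · obtain ⟨a1, a2⟩ := (exists_closer h).choose_spec
      have e : cs0 s u v = (exists_closer h).choose := by simp [cs0, h, hd]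
      rw [← e] at a1 a2
      generalize hd' : G0.dist (cs0 s u v) v = d at a2
      have b1 := W_l a1 v
      have b2 := W_r (hrs s u v) u
      have b3 : avg G0 u (fun w => W w v) ≤ W u v + 5 := by
        rw [← avg_const (deg_pos u) (W u v + 5)]
        exact avg_le fun w hw => W_l hw v
      have c1 : Gf d ≤ 1 - (1 / 10) ^ d := Gf_le (by omega)
      have c2 : Gf (G0.dist u (rs s u v)) ≤ 1 - (1 / 10) ^ (d + 2) := Gf_le (by
        have := dist_adj (hrs s u v) u
        rw [SimpleGraph.dist_comm, SimpleGraph.dist_comm (u := v)] at this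
        omega)
      have c3 : avg G0 u (fun w => Gf (G0.dist w v)) ≤ 1 - (1 / 10) ^ (d + 2) := by
        rw [← avg_const (deg_pos u) (1 - (1 / 10) ^ (d + 2))]
        exact avg_le fun w hw => Gf_le (by have := dist_adj hw v; omega)
      have c4 : Gf (G0.dist u v) = 1 - (1 / 10) ^ (d + 1) := by
        rw [Gf, min_eq_left (by omega), a2]
      have c5 := pow_le_pow_of_le_one (a := (1 / 10 : ℝ)) (by norm_num) (by norm_num)
        (show d ≤ 5 by omega)
      rw [c4]
      simp only [pow_succ] at *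
      linarith
    · have a := W_drift s hd (hrs s u v)
      have c1 : ∀ d, Gf d ≤ 1 - (1 / 10) ^ 7 := fun d => Gf_le (by omega)
      have c3 : avg G0 u (fun w => Gf (G0.dist w v)) ≤ 1 - (1 / 10) ^ 7 := by
        rw [← avg_const (deg_pos u) (1 - (1 / 10) ^ 7)]
        exact avg_le fun w _ => c1 _
      have c4 : Gf (G0.dist u v) = 1 - (1 / 10) ^ 7 := by rw [Gf, min_eq_right (by omega)]
      have := c1 (G0.dist (cs0 s u v) v)
      have := c1 (G0.dist u (rs s u v))
      rw [c4]
      linarith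

end Pool.Agent.H24.Tip
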