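import Pool.Agent.H24.Tip3

namespace Pool.Agent.H24.Tip

open Classical Vx

noncomputable def rs0 (_ : ℕ) (_ v : Vx) : Vx := if v = M 0 (z 0) then H 0 else up v

theorem rs0_strat : RobStrat G0 rs0 := by
  intro s u v
  unfold rs0
  split_ifs with h
  · exact h ▸ Or.inr (E.hm 0 _)
  · exact Or.inl (up_E v)

def P (v : Vx) : Prop := v = H 0 ∨ v = M 0 (z 0)

theorem distH (n : ℕ) {v : Vx} (hv : P v) : G0.dist (H (n + 1)) v + φ v ≤ 2 * (n + 1) := by
  rcases hv with rfl | rfl
  · obtain ⟨p, hp⟩ := walk0 _ (H (n + 1)) rfl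
    have := SimpleGraph.dist_le p
    simp only [φ] at *; omega
  · induction n with
    | zero =>
      have := dist_adj (u := M 0 (z 0)) (Or.inl (E.mh 0 _)) (M 0 (z 0))
      simp [φ] at *; omega
    | succ n ih =>
      have := dist_HH (n + 1)
      have := conn.dist_triangle (u := H (n + 1 + 1)) (v := H (n + 1)) (w := M 0 (z 0))
      omega

noncomputable def ee : Vx → ℝ
  | H 0 => 1
  | H (n + 1) => 259 / 250 * (9 / 10) ^ (n + 1)
  | M n _ => (9 / 10) ^ n
  | S _ => 1

theorem ee_bd (u : Vx) : 0 ≤ ee u ∧ ee u ≤ 1 := by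
  have k : ∀ n : ℕ, (9 / 10 : ℝ) ^ n ≤ 1 := fun n => pow_le_one₀ (by norm_num) (by norm_num)
  rcases u with (_ | n) | ⟨n, i⟩ | k <;> simp only [ee]
  · norm_num
  · have := k n
    exact ⟨by positivity, by rw [pow_succ]; linarith⟩
  · exact ⟨by positivity, k n⟩
  · norm_num

theorem mono_fail {cs : ℕ → Vx → Vx → Vx} (h1 : CopStrat G0 cs) (h2 : Mono G0 cs) :
    ¬ Winning G0 (3 / 10) (1 / 100) (69 / 100) 0 cs (H 1) (H 0) := by
  intro hw
  have key := fun n => capt_le (G := G0) (cs := cs) (rs := rs0) (c := 3 / 10) (r := 1 / 100)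
    (t := 69 / 100) deg_pos (by norm_num) (by norm_num) (by norm_num) (by norm_num)
    (fun u _ => ee u) P (fun s u v hv => by
      rcases hv with rfl | rfl
      · right; simp [rs0, up]
      · left; simp [rs0]) (fun u _ _ => (ee_bd u).1)
    (fun v hv => by rcases hv with rfl | rfl <;> simp [ee]) (fun s u v hv _ => ?_) n 0 (H 1) (H 0)
    (Or.inl rfl)
  · have := le_of_tendsto' (hw rs0 rs0_strat) key
    norm_num [ee] at this
  have triv : ee u = 1 → 3 / 10 * ee (cs s u v) + 1 / 100 * ee u + 69 / 100 * avg G0 u ee ≤ ee u := by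
    intro h
    have a := (ee_bd (cs s u v)).2
    have b : avg G0 u ee ≤ 1 := by
      rw [← avg_const (deg_pos u) 1]; exact avg_le fun w _ => (ee_bd w).2
    linarith
  have lo := lip_le φ (fun a b h => by have := adj_phi h; omega) (cs s u v) v
  have mo := h2 s u v
  show 3 / 10 * ee (cs s u v) + 1 / 100 * ee u + 69 / 100 * avg G0 u ee ≤ ee u
  rcases u with (_ | n) | ⟨_ | n, i⟩ | k
  · exact triv rfl
  · have d := distH n hv
    have y0 : (0 : ℝ) < (9 / 10) ^ n := by positivity
    have a : ee (cs s (H (n + 1)) v) ≤ (9 / 10) ^ n := by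
      rcases h1 s (H (n + 1)) v with e | e
      · rw [e, ee, pow_succ]; linarith
      · rcases adjH.1 e with e | ⟨i, e⟩ | ⟨i, e⟩
        · rw [e] at lo mo; simp only [φ] at lo d; omega
        · rw [← e] at lo mo; simp only [φ] at lo d; omega
        · rw [← e, ee]
    have b : avg G0 (H (n + 1)) ee ≤ (9 / 10 + 2 / 1000) * (9 / 10) ^ n := by
      rw [avgH n _ ((9 / 10) ^ (n + 1)) ((9 / 10) ^ n) (fun _ => rfl) (fun _ => rfl),
        div_le_iff₀ (by positivity)]
      have c : 1 ≤ (m n : ℝ) * (9 / 10) ^ n := by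
        rw [m_eq]; push_cast
        rw [pow_succ, mul_right_comm, ← mul_pow]
        have : (1 : ℝ) ≤ (1000 * (9 / 10)) ^ n := one_le_pow₀ (by norm_num)
        linarith
      simp only [ee, pow_succ]
      nlinarith
    simp only [ee, pow_succ] at *
    linarith
  · exact triv (by simp [ee])
  · have d := distH n hv
    have d' := dist_adj (u := H (n + 1)) (Or.inl (E.hm _ i)) v
    have y0 : (0 : ℝ) < (9 / 10) ^ n := by positivity
    have a : ee (cs s (M (n + 1) i) v) ≤ 259 / 250 * (9 / 10) ^ (n + 1) := by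
      rcases h1 s (M (n + 1) i) v with e | e
      · rw [e, ee, pow_succ]; linarith
      · rcases adjM.1 e with e | e
        · rw [e, ee]
        · rw [e] at lo mo; simp only [φ] at lo d; omega
    rw [avgM]
    simp only [ee, pow_succ] at *
    linarith
  · exact triv rfl

end Pool.Agent.H24.Tip
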