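import Mathlib

/-! The tipsy cop and robber game: capture probabilities, winning and monotone strategies. -/

namespace Pool.Agent.H24.Tip

open Classical

variable {V : Type} (G : SimpleGraph V) [G.LocallyFinite]

/-- Average of `f` over a uniformly random neighbour of `u`. -/
noncomputable def avg (u : V) (f : V → ℝ) : ℝ := (∑ w ∈ G.neighborFinset u, f w) / G.degree u

/-- `capt G c r tc tr cs rs n s u v`: the probability that cop and robber, standing at `u` and `v`
at time `s`, occupy the same vertex at some time among `s, s+1, …, s+n`. -/
noncomputable def capt (c r tc tr : ℝ) (cs rs : ℕ → V → V → V) : ℕ → ℕ → V → V → ℝ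
  | 0, _, u, v => if u = v then 1 else 0
  | n + 1, s, u, v => if u = v then 1 else
      c * capt c r tc tr cs rs n (s + 1) (cs s u v) v +
      r * capt c r tc tr cs rs n (s + 1) u (rs s u v) +
      tc * avg G u (fun w => capt c r tc tr cs rs n (s + 1) w v) +
      tr * avg G v (fun w => capt c r tc tr cs rs n (s + 1) u w)

omit [G.LocallyFinite] in
/-- Cop strategy: stay or move to a neighbour. -/
def CopStrat (cs : ℕ → V → V → V) : Prop := ∀ s u v, cs s u v = u ∨ G.Adj u (cs s u v)

omit [G.LocallyFinite] in
/-- Robber strategy: move to a neighbour. -/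
def RobStrat (rs : ℕ → V → V → V) : Prop := ∀ s u v, G.Adj v (rs s u v)

omit [G.LocallyFinite] in
/-- Sober cop moves never increase the distance to the robber. -/
def Mono (cs : ℕ → V → V → V) : Prop := ∀ s u v, G.dist (cs s u v) v ≤ G.dist u v

/-- Against every robber strategy the capture probability within `n` steps tends to `1`. -/
def Winning (c r tc tr : ℝ) (cs : ℕ → V → V → V) (u0 v0 : V) : Prop :=
  ∀ rs, RobStrat G rs →
    Filter.Tendsto (fun n => capt G c r tc tr cs rs n 0 u0 v0) Filter.atTop (nhds 1)

end Pool.Agent.H24.Tip
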