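import Mathlib

/-! Directed st-numberings of two-out digraphs, and good orderings of 2T-multigraphs. -/

namespace Pool.Agent.H24.Ts

open Finset

variable {V : Type*} [DecidableEq V]

def Cond (W : Finset V) (o : V → Bool → V) : Prop :=
  ∀ X ⊆ W, X.Nonempty → ∀ w, ∃ x ∈ X, ∃ b, o x b ∉ X ∧ o x b ≠ w

def Btw (a v b : ℚ) : Prop := (a < v ∧ v < b) ∨ (b < v ∧ v < a)

lemma near (D : Finset ℚ) {x z : ℚ} (hxz : x ≠ z) (hz : z ∈ D) :
    ∃ r, (∀ d ∈ D, d < x → d < r) ∧ (∀ d ∈ D, x < d → r < d) ∧ Btw x r z := by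
  rcases lt_or_gt_of_ne hxz with h | h
  · obtain ⟨m, hm, hmin⟩ := Finset.exists_min_image (D.filter (x < ·)) id ⟨z, by simp [hz, h]⟩
    simp only [mem_filter, id] at hm hmin
    have := hmin z ⟨hz, h⟩
    refine ⟨(x + m) / 2, fun d _ k => by linarith [hm.2], fun d hd k => ?_,
      Or.inl ⟨by linarith [hm.2], by linarith [hm.2]⟩⟩
    linarith [hmin d ⟨hd, k⟩, hm.2]
  · obtain ⟨m, hm, hmin⟩ := Finset.exists_max_image (D.filter (· < x)) id ⟨z, by simp [hz, h]⟩
    simp only [mem_filter, id] at hm hmin
    have := hmin z ⟨hz, h⟩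
    refine ⟨(x + m) / 2, fun d hd k => ?_, fun d _ k => by linarith [hm.2],
      Or.inr ⟨by linarith [hm.2], by linarith [hm.2]⟩⟩
    linarith [hmin d ⟨hd, k⟩, hm.2]

lemma redirect {W : Finset V} {o : V → Bool → V} (h : Cond W o) {v : V} (hv : v ∈ W)
    (h1 : ∀ x ∈ W, ∀ y ∈ W, ∀ b c, o x b = v → o y c = v → x = y) :
    ∃ c, Cond (W.erase v) (fun x b => if o x b = v then o v c else o x b) := by
  by_contra hcon
  push Not at hcon
  have key : ∀ c, ∃ X ⊆ W, ∃ w, v ∉ X ∧ (∃ u ∈ X, ∃ b, o u b = v) ∧ (o v c ∈ X ∨ o v c = w) ∧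
      ∀ x ∈ X, ∀ b, o x b ∈ X ∨ o x b = w ∨ o x b = v := by
    intro c
    have k := hcon c
    unfold Cond at k
    push Not at k
    obtain ⟨X, hX, hne, w, hw⟩ := k
    have hXW : X ⊆ W := hX.trans (erase_subset _ _)
    obtain ⟨u, hu, b, k1, k2⟩ := h X hXW hne w
    have k3 : o u b = v := by
      by_contra k3
      have := hw u hu b
      simp only [if_neg k3] at this
      exact k2 (this k1)
    refine ⟨X, hXW, w, fun k => by simpa using hX k, ⟨u, hu, b, k3⟩, ?_, fun x hx b => ?_⟩
    · have := hw u hu b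
      simp only [if_pos k3] at this
      tauto
    · by_cases k4 : o x b = v
      · exact Or.inr (Or.inr k4)
      · have := hw x hx b
        simp only [if_neg k4] at this
        tauto
  obtain ⟨X, x1, w, x2, ⟨u, x3, b, x4⟩, x5, x6⟩ := key false
  obtain ⟨Y, y1, z, y2, ⟨u', y3, b', y4⟩, y5, y6⟩ := key true
  have huu := h1 u (x1 x3) u' (y1 y3) b b' x4 y4
  subst huu
  obtain ⟨x, hx, c, k1, k2⟩ := h (X ∩ Y) (inter_subset_left.trans x1) ⟨u, mem_inter.mpr ⟨x3, y3⟩⟩ v
  have hU : insert v (X ∪ Y) ⊆ W := insert_subset hv (union_subset x1 y1)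
  rw [mem_inter] at hx k1
  have k3 := x6 x hx.1 c
  have k4 := y6 x hx.2 c
  have k5 : (w ∈ Y ∨ w = z) ∨ (z ∈ X ∨ z = w) := by grind
  rcases k5 with k5 | k5
  · obtain ⟨y, hy, d, m1, m2⟩ := h _ hU (insert_nonempty _ _) z
    simp only [mem_insert, mem_union, not_or] at hy m1
    rcases hy with rfl | hy | hy
    · cases d <;> grind
    · have := x6 y hy d
      grind
    · have := y6 y hy d
      grind
  · obtain ⟨y, hy, d, m1, m2⟩ := h _ hU (insert_nonempty _ _) w
    simp only [mem_insert, mem_union, not_or] at hy m1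
    rcases hy with rfl | hy | hy
    · cases d <;> grind
    · have := x6 y hy d
      grind
    · have := y6 y hy d
      grind

theorem number {s t : V} (hst : s ≠ t) (n : ℕ) : ∀ (W : Finset V) (o : V → Bool → V),
    W.card = n → s ∉ W → t ∉ W → (∀ v ∈ W, ∀ b, o v b ∈ insert s (insert t W)) → Cond W o →
    ∃ f : V → ℚ, Set.InjOn f (insert s (insert t W) : Finset V) ∧ f s < f t ∧
      ∀ v ∈ W, f s < f v ∧ f v < f t ∧ Btw (f (o v false)) (f v) (f (o v true)) := by
  induction n with
  | zero =>
    intro W o hW _ _ _ _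
    rw [card_eq_zero] at hW
    subst hW
    refine ⟨fun x => if x = s then 0 else 1, ?_, by simp [hst.symm], by simp⟩
    intro x hx y hy hxy
    simp only [insert_empty_eq, coe_insert, coe_singleton, Set.mem_insert_iff,
      Set.mem_singleton_iff] at hx hy
    rcases hx with rfl | rfl <;> rcases hy with rfl | rfl <;> simp_all [hst.symm]
  | succ n ih =>
    intro W o hW hs ht ho hc
    have hne : W.Nonempty := card_pos.mp (by omega)
    obtain ⟨v, hv, hdeg⟩ : ∃ v ∈ W,
        ((W ×ˢ (univ : Finset Bool)).filter (fun p => o p.1 p.2 = v)).card ≤ 1 := by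
      by_contra hcon
      push Not at hcon
      obtain ⟨x, hx, b, k, -⟩ := hc W Subset.rfl hne s
      have e1 := Finset.sum_card_fiberwise_eq_card_filter (W ×ˢ (univ : Finset Bool)) W
        (fun p => o p.1 p.2)
      have e2 : W.card • 2 ≤ ∑ v ∈ W,
          ((W ×ˢ (univ : Finset Bool)).filter (fun p => o p.1 p.2 = v)).card :=
        Finset.card_nsmul_le_sum _ _ _ (fun v hv => hcon v hv)
      have e3 : ((W ×ˢ (univ : Finset Bool)).filter (fun p => o p.1 p.2 ∈ W)).card <
          (W ×ˢ (univ : Finset Bool)).card :=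
        card_lt_card (filter_ssubset.mpr ⟨(x, b), by simp [hx], k⟩)
      rw [card_product, card_univ, Fintype.card_bool] at e3
      rw [smul_eq_mul] at e2
      omega
    have h1 : ∀ x ∈ W, ∀ y ∈ W, ∀ b c, o x b = v → o y c = v → (x, b) = (y, c) :=
      fun x hx y hy b c k1 k2 => card_le_one.mp hdeg _ (by simp [hx, k1]) _ (by simp [hy, k2])
    obtain ⟨c, hc'⟩ := redirect hc hv
      (fun x hx y hy b c k1 k2 => congrArg Prod.fst (h1 x hx y hy b c k1 k2))
    have hvv : ∀ d, o v d ≠ v ∧ o v d ≠ o v (!d) := by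
      intro d
      obtain ⟨x, hx, b, k1, k2⟩ := hc {v} (by simpa using hv) (singleton_nonempty v) (o v (!d))
      rw [mem_singleton] at hx k1
      subst hx
      have : b = d := by cases b <;> cases d <;> simp_all
      subst this
      exact ⟨k1, k2⟩
    have hsv : s ≠ v := fun k => hs (k ▸ hv)
    have htv : t ≠ v := fun k => ht (k ▸ hv)
    have hmem : ∀ y, y ∈ insert s (insert t W) → y ≠ v → y ∈ insert s (insert t (W.erase v)) := by
      intro y hy k
      simp only [mem_insert, mem_erase] at hy ⊢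
      tauto
    have hmem2 : ∀ y, y ∈ insert s (insert t (W.erase v)) → y ≠ v := by
      intro y hy
      simp only [mem_insert, mem_erase] at hy
      rcases hy with rfl | rfl | hy
      · exact hsv
      · exact htv
      · exact hy.1
    obtain ⟨f, f1, f2, f3⟩ := ih (W.erase v) _ (by rw [card_erase_of_mem hv]; omega)
      (fun k => hs (mem_of_mem_erase k)) (fun k => ht (mem_of_mem_erase k)) (by
        intro x hx b
        split_ifs with k
        · exact hmem _ (ho v hv c) (hvv c).1
        · exact hmem _ (ho x (mem_of_mem_erase hx) b) k) hc'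
    have ha := hmem _ (ho v hv c) (hvv c).1
    have hb := hmem _ (ho v hv (!c)) (hvv (!c)).1
    obtain ⟨r, r1, r2, r3⟩ := near ((insert s (insert t (W.erase v))).image f)
      (x := f (o v c)) (z := f (o v (!c))) (fun k => (hvv c).2 (f1 ha hb k))
      (mem_image_of_mem f hb)
    have hrange : ∀ y ∈ insert s (insert t (W.erase v)), f s ≤ f y ∧ f y ≤ f t := by
      intro y hy
      simp only [mem_insert] at hy
      rcases hy with rfl | rfl | hy
      · exact ⟨le_rfl, f2.le⟩
      · exact ⟨f2.le, le_rfl⟩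
      · exact ⟨(f3 y hy).1.le, (f3 y hy).2.1.le⟩
    have hr : ∀ y ∈ insert s (insert t (W.erase v)), f y ≠ r := by
      intro y hy k
      rcases lt_trichotomy (f y) (f (o v c)) with l | l | l
      · exact absurd (r1 _ (mem_image_of_mem f hy) l) (by rw [k]; exact lt_irrefl _)
      · rcases r3 with m | m <;> linarith [m.1, m.2]
      · exact absurd (r2 _ (mem_image_of_mem f hy) l) (by rw [k]; exact lt_irrefl _)
    have g1 : ∀ y, y ≠ v → Function.update f v r y = f y := fun y k => Function.update_of_ne k _ _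
    have g2 : Function.update f v r v = r := Function.update_self _ _ _
    refine ⟨Function.update f v r, ?_, by rw [g1 s hsv, g1 t htv]; exact f2, ?_⟩
    · intro x hx y hy hxy
      by_cases k1 : x = v <;> by_cases k2 : y = v
      · rw [k1, k2]
      · rw [k1, g2, g1 y k2] at hxy
        exact absurd hxy.symm (hr y (hmem y hy k2))
      · rw [k2, g2, g1 x k1] at hxy
        exact absurd hxy (hr x (hmem x hx k1))
      · rw [g1 x k1, g1 y k2] at hxy
        exact f1 (hmem x hx k1) (hmem y hy k2) hxy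
    · intro x hx
      rw [g1 s hsv, g1 t htv]
      by_cases k : x = v
      · subst k
        rw [g2, g1 _ (hvv false).1, g1 _ (hvv true).1]
        have a1 := hrange _ ha
        have a2 := hrange _ hb
        refine ⟨?_, ?_, ?_⟩
        · rcases r3 with m | m <;> linarith [m.1, m.2, a1.1, a2.1]
        · rcases r3 with m | m <;> linarith [m.1, m.2, a1.2, a2.2]
        · cases c
          · exact r3
          · exact r3.symm
      · have hx' : x ∈ W.erase v := mem_erase.mpr ⟨k, hx⟩
        obtain ⟨b1, b2, b3⟩ := f3 x hx'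
        rw [g1 x k]
        refine ⟨b1, b2, ?_⟩
        have hxi : f x ∈ (insert s (insert t (W.erase v))).image f :=
          mem_image_of_mem f (by simp [hx'])
        have s1 := r1 _ hxi
        have s2 := r2 _ hxi
        by_cases k1 : o x false = v <;> by_cases k2 : o x true = v
        · simpa using h1 x hx x hx _ _ k1 k2
        · simp only [if_pos k1, if_neg k2] at b3
          rw [k1, g2, g1 _ k2]
          rcases b3 with m | m
          · exact Or.inl ⟨s2 m.1, m.2⟩
          · exact Or.inr ⟨m.1, s1 m.2⟩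
        · simp only [if_neg k1, if_pos k2] at b3
          rw [k2, g2, g1 _ k1]
          rcases b3 with m | m
          · exact Or.inl ⟨m.1, s1 m.2⟩
          · exact Or.inr ⟨s2 m.1, m.2⟩
        · simp only [if_neg k1, if_neg k2] at b3
          rw [g1 _ k1, g1 _ k2]
          exact b3

end Pool.Agent.H24.Ts
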