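import Pool.Agent.H24.Ts1
import Pool.Agent.H24.Lam3

/-! Good orderings of (2,2)-sparse multigraphs are slot assignments hitting all tight sets. -/

namespace Pool.Agent.H24.Ts

open Finset

variable {V E : Type*} [DecidableEq V] [Fintype V] [DecidableEq E] [Fintype E]

def ins (ends : E → Sym2 V) (X : Finset V) : Finset E := univ.filter (fun e => ends e ∈ X.sym2)

def Sp (ends : E → Sym2 V) : Prop := ∀ X : Finset V, X.Nonempty → (ins ends X).card + 2 ≤ 2 * X.card

def Tight (ends : E → Sym2 V) (X : Finset V) : Prop := 2 * X.card ≤ (ins ends X).card + 2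

def Used (s t v : V) (b : Bool) : Prop := b = false ∨ (v ≠ s ∧ v ≠ t)

def Slots (ends : E → Sym2 V) (s t : V) (φ : V → Bool → E) : Prop :=
  (∀ v b, Used s t v b → v ∈ ends (φ v b)) ∧
  (∀ v b v' b', Used s t v b → Used s t v' b' → φ v b = φ v' b' → v = v' ∧ b = b') ∧
  ∀ Y, Tight ends Y → 2 ≤ Y.card → ∀ w ∈ Y, ∃ b, Used s t w b ∧ φ w b ∈ ins ends Y

def GoodE (ends : E → Sym2 V) (s t : V) : Prop :=
  ∃ (f : V → ℚ) (p q : V → E), Function.Injective f ∧
    (∀ v, v ≠ s → ∃ u, ends (p v) = s(u, v) ∧ f u < f v) ∧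
    (∀ v, v ≠ t → ∃ u, ends (q v) = s(u, v) ∧ f v < f u) ∧
    ∀ v w, v ≠ s → w ≠ t → p v ≠ q w

omit [Fintype V] [DecidableEq E] in
lemma mem_ins {ends : E → Sym2 V} {X : Finset V} {e : E} :
    e ∈ ins ends X ↔ ∀ a ∈ ends e, a ∈ X := by
  simp [ins, Finset.mem_sym2_iff]

omit [Fintype V] in
lemma ins_inter (ends : E → Sym2 V) (X Y : Finset V) :
    ins ends X ∩ ins ends Y = ins ends (X ∩ Y) := by
  ext e
  simp only [mem_inter, mem_ins]
  exact ⟨fun h a ha => ⟨h.1 a ha, h.2 a ha⟩, fun h => ⟨fun a ha => (h a ha).1, fun a ha => (h a ha).2⟩⟩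

omit [Fintype V] in
lemma tight_inter {ends : E → Sym2 V} (h : Sp ends) {X Y : Finset V} (hX : Tight ends X)
    (hY : Tight ends Y) (hne : (X ∩ Y).Nonempty) : Tight ends (X ∩ Y) := by
  have h1 := Finset.card_union_add_card_inter (ins ends X) (ins ends Y)
  rw [ins_inter] at h1
  have h2 : ins ends X ∪ ins ends Y ⊆ ins ends (X ∪ Y) := by
    intro e he
    rw [mem_union, mem_ins, mem_ins] at he
    rw [mem_ins]
    intro a ha
    rcases he with he | he
    · exact mem_union_left _ (he a ha)
    · exact mem_union_right _ (he a ha)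
  have h3 := card_le_card h2
  have h4 := Finset.card_union_add_card_inter X Y
  have h5 := h (X ∪ Y) (hne.mono (inter_subset_left.trans subset_union_left))
  unfold Tight at *
  omega

theorem good_of_slots {ends : E → Sym2 V} (hsp : Sp ends) (hl : ∀ e, ¬ (ends e).IsDiag) {s t : V}
    (hst : s ≠ t) {φ : V → Bool → E} (h : Slots ends s t φ) : GoodE ends s t := by
  obtain ⟨h1, h2, h3⟩ := h
  have ho : ∀ v b, ∃ u, Used s t v b → ends (φ v b) = s(u, v) ∧ u ≠ v := by
    intro v b
    by_cases k : Used s t v b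
    · obtain ⟨u, hu⟩ := Sym2.mem_iff_exists.mp (h1 v b k)
      refine ⟨u, fun _ => ⟨by rw [hu, Sym2.eq_swap], fun m => hl (φ v b) ?_⟩⟩
      rw [hu, m]
      simp
    · exact ⟨v, fun m => absurd m k⟩
  choose o ho using ho
  let W := (univ.erase t).erase s
  have hW : ∀ v, v ∈ W ↔ v ≠ s ∧ v ≠ t := by simp [W]
  have hU : ∀ v, v ∈ insert s (insert t W) := by
    intro v
    simp only [mem_insert, hW]
    tauto
  have hc : Cond W o := by
    intro X hX hne w
    by_contra hcon
    push Not at hcon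
    have hu : ∀ x ∈ X, ∀ b, Used s t x b := fun x hx b => Or.inr ((hW x).mp (hX hx))
    let A := (X ×ˢ (univ : Finset Bool)).image (fun p => φ p.1 p.2)
    have hA : A.card = 2 * X.card := by
      rw [card_image_of_injOn, card_product, card_univ, Fintype.card_bool, mul_comm]
      rintro ⟨x, b⟩ hx ⟨y, c⟩ hy k
      simp only [coe_product, Set.mem_prod, mem_coe] at hx hy
      obtain ⟨k1, k2⟩ := h2 x b y c (hu x hx.1 b) (hu y hy.1 c) k
      rw [k1, k2]
    have hA2 : A ⊆ ins ends (insert w X) := by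
      intro e he
      obtain ⟨⟨x, b⟩, hx, rfl⟩ := mem_image.mp he
      have hx' : x ∈ X := (mem_product.mp hx).1
      rw [mem_ins, (ho x b (hu x hx' b)).1]
      intro a ha
      rcases Sym2.mem_iff.mp ha with rfl | rfl
      · by_cases k : o x b ∈ X
        · exact mem_insert_of_mem k
        · rw [hcon x hx' b k]
          exact mem_insert_self _ _
      · exact mem_insert_of_mem hx'
    have k1 := hsp (insert w X) (insert_nonempty _ _)
    have k2 := card_le_card hA2
    have k3 := card_pos.mpr hne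
    by_cases hw : w ∈ X
    · rw [insert_eq_of_mem hw] at k1 k2
      omega
    · have k4 := card_insert_of_notMem hw
      obtain ⟨b, m1, m2⟩ := h3 (insert w X) (by unfold Tight; omega) (by omega) w (mem_insert_self _ _)
      have k5 : φ w b ∉ A := by
        intro k
        obtain ⟨⟨x, c⟩, hx, k⟩ := mem_image.mp k
        have hx' : x ∈ X := (mem_product.mp hx).1
        exact hw ((h2 x c w b (hu x hx' c) m1 k).1 ▸ hx')
      have k6 := card_le_card (insert_subset m2 hA2)
      rw [card_insert_of_notMem k5] at k6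
      omega
  obtain ⟨f, f1, f2, f3⟩ := number hst _ W o rfl (by simp [hW]) (by simp [hW]) (fun v _ b => hU _) hc
  have hinj : Function.Injective f := fun a b k => f1 (hU a) (hU b) k
  have hlo : ∀ v, v ≠ s → f s < f v := by
    intro v k
    by_cases k2 : v = t
    · rw [k2]; exact f2
    · exact (f3 v ((hW v).mpr ⟨k, k2⟩)).1
  have hhi : ∀ v, v ≠ t → f v < f t := by
    intro v k
    by_cases k2 : v = s
    · rw [k2]; exact f2
    · exact (f3 v ((hW v).mpr ⟨k2, k⟩)).2.1
  let c : V → Bool := fun v => decide (f (o v false) < f v)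
  have hp : ∀ v, v ≠ s → Used s t v (!c v) ∧ f (o v (!c v)) < f v := by
    intro v k
    by_cases k2 : v = t
    · subst k2
      have := hhi _ (ho v false (Or.inl rfl)).2
      simp [c, this, Used]
    · refine ⟨Or.inr ⟨k, k2⟩, ?_⟩
      rcases (f3 v ((hW v).mpr ⟨k, k2⟩)).2.2 with m | m
      · simp [c, m.1]
      · simp [c, m.1, not_lt.mpr m.2.le]
  have hq : ∀ v, v ≠ t → Used s t v (c v) ∧ f v < f (o v (c v)) := by
    intro v k
    by_cases k2 : v = s
    · subst k2
      have := hlo _ (ho v false (Or.inl rfl)).2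
      simp [c, this, not_lt.mpr this.le, Used]
    · refine ⟨Or.inr ⟨k2, k⟩, ?_⟩
      rcases (f3 v ((hW v).mpr ⟨k2, k⟩)).2.2 with m | m
      · simp [c, m.1, m.2]
      · simp [c, m.2, not_lt.mpr m.2.le]
  refine ⟨f, fun v => φ v (!c v), fun v => φ v (c v), hinj,
    fun v k => ⟨_, (ho v _ (hp v k).1).1, (hp v k).2⟩,
    fun v k => ⟨_, (ho v _ (hq v k).1).1, (hq v k).2⟩, fun v w k1 k2 k => ?_⟩
  obtain ⟨m1, m2⟩ := h2 _ _ _ _ (hp v k1).1 (hq w k2).1 k
  subst m1
  simp at m2

omit [DecidableEq V] [Fintype V] [DecidableEq E] [Fintype E] in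
lemma par_inj {ends : E → Sym2 V} {f : V → ℚ} {p : V → E} {s : V}
    (hp : ∀ v, v ≠ s → ∃ u, ends (p v) = s(u, v) ∧ f u < f v) {v w : V} (hv : v ≠ s) (hw : w ≠ s)
    (h : ends (p v) = ends (p w)) : v = w := by
  obtain ⟨a, a1, a2⟩ := hp v hv
  obtain ⟨b, b1, b2⟩ := hp w hw
  rw [a1, b1] at h
  rcases Sym2.eq_iff.mp h with ⟨_, k⟩ | ⟨k1, k2⟩
  · exact k
  · rw [k1] at a2
    rw [← k2] at b2
    exact absurd (a2.trans b2) (lt_irrefl _)

theorem slots_of_good {ends : E → Sym2 V} (hE : Fintype.card E + 2 ≤ 2 * Fintype.card V) {s t : V}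
    (hst : s ≠ t) (h : GoodE ends s t) : ∃ φ, Slots ends s t φ := by
  obtain ⟨f, p, q, hf, hp, hq, hd⟩ := h
  have ip : ∀ v w, v ≠ s → w ≠ s → p v = p w → v = w :=
    fun v w k1 k2 k => par_inj hp k1 k2 (by rw [k])
  have iq : ∀ v w, v ≠ t → w ≠ t → q v = q w → v = w :=
    fun v w k1 k2 k => par_inj (f := fun x => - f x) (fun v hv => by simpa using hq v hv) k1 k2
      (by rw [k])
  have hsurj : ∀ e, (∃ v, v ≠ s ∧ p v = e) ∨ ∃ v, v ≠ t ∧ q v = e := by
    intro e
    have k1 : ((univ.erase s).image p).card = Fintype.card V - 1 := by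
      rw [card_image_of_injOn (fun a ha b hb k => ip a b (by simpa using ha) (by simpa using hb) k),
        card_erase_of_mem (mem_univ _), card_univ]
    have k2 : ((univ.erase t).image q).card = Fintype.card V - 1 := by
      rw [card_image_of_injOn (fun a ha b hb k => iq a b (by simpa using ha) (by simpa using hb) k),
        card_erase_of_mem (mem_univ _), card_univ]
    have k3 : Disjoint ((univ.erase s).image p) ((univ.erase t).image q) := by
      rw [disjoint_left]
      intro x h1 h2
      obtain ⟨a, ha, rfl⟩ := mem_image.mp h1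
      obtain ⟨b, hb, k⟩ := mem_image.mp h2
      exact hd a b (by simpa using ha) (by simpa using hb) k.symm
    have k4 : (univ.erase s).image p ∪ (univ.erase t).image q = univ := by
      apply eq_univ_of_card
      apply le_antisymm (card_le_univ _)
      rw [card_union_of_disjoint k3]
      omega
    have : e ∈ (univ.erase s).image p ∪ (univ.erase t).image q := by rw [k4]; exact mem_univ _
    simpa using this
  refine ⟨fun v b => if b = true ∨ v = s then q v else p v, ?_, ?_, ?_⟩
  · intro v b hu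
    beta_reduce
    split_ifs with k
    · have : v ≠ t := by unfold Used at hu; grind
      obtain ⟨u, m, _⟩ := hq v this
      rw [m]; simp
    · obtain ⟨u, m, _⟩ := hp v (by grind)
      rw [m]; simp
  · intro v b v' b' h1 h2 k
    unfold Used at h1 h2
    beta_reduce at k
    split_ifs at k with k1 k2 k2
    · have := iq v v' (by grind) (by grind) k
      grind
    · exact absurd k.symm (hd v' v (by grind) (by grind))
    · exact absurd k (hd v v' (by grind) (by grind))
    · have := ip v v' (by grind) (by grind) k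
      grind
  · intro Y hY h2 w hw
    by_contra hcon
    push Not at hcon
    have n1 : w ≠ s → p w ∉ ins ends Y := fun k => by simpa [k] using hcon false (Or.inl rfl)
    have n2 : w ≠ t → q w ∉ ins ends Y := fun k => by
      by_cases k2 : w = s
      · simpa [k2] using hcon false (Or.inl rfl)
      · simpa using hcon true (Or.inr ⟨k2, k⟩)
    obtain ⟨lo, l1, l2⟩ := exists_min_image Y f ⟨w, hw⟩
    obtain ⟨hi, u1, u2⟩ := exists_max_image Y f ⟨w, hw⟩
    have hsub : ins ends Y ⊆ ((Y.erase lo).erase w).image p ∪ ((Y.erase hi).erase w).image q := by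
      intro e he
      rcases hsurj e with ⟨v, hv, rfl⟩ | ⟨v, hv, rfl⟩
      · obtain ⟨u, m1, m2⟩ := hp v hv
        have m3 := mem_ins.mp he
        rw [m1] at m3
        refine mem_union_left _ (mem_image_of_mem _ (mem_erase.mpr ⟨?_, mem_erase.mpr ⟨?_, m3 v (by simp)⟩⟩))
        · rintro rfl
          exact n1 hv he
        · rintro rfl
          exact absurd (l2 u (m3 u (by simp))) (not_le.mpr m2)
      · obtain ⟨u, m1, m2⟩ := hq v hv
        have m3 := mem_ins.mp he
        rw [m1] at m3
        refine mem_union_right _ (mem_image_of_mem _ (mem_erase.mpr ⟨?_, mem_erase.mpr ⟨?_, m3 v (by simp)⟩⟩))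
        · rintro rfl
          exact n2 hv he
        · rintro rfl
          exact absurd (u2 u (m3 u (by simp))) (not_le.mpr m2)
    have c1 := (card_le_card hsub).trans (card_union_le _ _)
    have c2 : (((Y.erase lo).erase w).image p).card ≤ ((Y.erase lo).erase w).card := card_image_le
    have c3 : (((Y.erase hi).erase w).image q).card ≤ ((Y.erase hi).erase w).card := card_image_le
    have c4 : ((Y.erase lo).erase w).card ≤ (Y.erase lo).card := card_erase_le
    have c5 : ((Y.erase hi).erase w).card ≤ (Y.erase hi).card := card_erase_le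
    have c6 := card_erase_of_mem l1
    have c7 := card_erase_of_mem u1
    unfold Tight at hY
    have hne : lo ≠ hi := by
      rintro rfl
      obtain ⟨a, ha, b, hb, hab⟩ := one_lt_card.mp h2
      exact hab (hf (le_antisymm ((u2 a ha).trans (l2 b hb)) ((u2 b hb).trans (l2 a ha))))
    by_cases k : w = lo
    · have := card_erase_of_mem (mem_erase.mpr ⟨k ▸ hne, hw⟩ : w ∈ Y.erase hi)
      omega
    · have := card_erase_of_mem (mem_erase.mpr ⟨k, hw⟩ : w ∈ Y.erase lo)
      omega

/-! Spanning trees of multigraphs. -/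

def IsSpTree (ends : E → Sym2 V) (T : Set E) : Prop :=
  Set.InjOn ends T ∧ (SimpleGraph.fromEdgeSet (ends '' T)).IsTree

omit [DecidableEq V] [DecidableEq E] in
lemma IsSpTree.card {ends : E → Sym2 V} (hl : ∀ e, ¬ (ends e).IsDiag) {T : Set E}
    (h : IsSpTree ends T) : T.ncard + 1 = Fintype.card V := by
  have h1 := (SimpleGraph.isTree_iff_connected_and_card.mp h.2).2
  rw [SimpleGraph.edgeSet_fromEdgeSet, sdiff_eq_left.mpr (by
    rw [Set.disjoint_left]
    rintro _ ⟨e, _, rfl⟩ k
    exact hl e k), Nat.card_coe_set_eq, Set.InjOn.ncard_image h.1, Nat.card_eq_fintype_card] at h1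
  exact h1

omit [DecidableEq E] in
lemma IsSpTree.forest {ends : E → Sym2 V} (hl : ∀ e, ¬ (ends e).IsDiag) {T : Set E}
    (h : IsSpTree ends T) {X : Finset V} (hX : X.Nonempty) :
    (T ∩ ins ends X).ncard + 1 ≤ X.card := by
  classical
  have : Nonempty (X : Set V) := ⟨⟨hX.choose, hX.choose_spec⟩⟩
  have h1 := h.2.isAcyclic.induce (X : Set V)
  obtain ⟨F, f1, -, f2⟩ := SimpleGraph.connected_top.exists_isTree_le_of_le_of_isAcyclic le_top h1
  have h2 := (SimpleGraph.isTree_iff_connected_and_card.mp f2).2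
  have h3 : ends '' (T ∩ ins ends X) ⊆ Sym2.map Subtype.val '' F.edgeSet := by
    rintro _ ⟨e, ⟨he1, he2⟩, rfl⟩
    have m := mem_ins.mp he2
    have m2 := hl e
    have m3 : ends e ∈ ends '' T := ⟨e, he1, rfl⟩
    generalize ends e = z at m m2 m3
    induction z using Sym2.ind with
    | _ a b =>
      refine ⟨s(⟨a, m a (by simp)⟩, ⟨b, m b (by simp)⟩), f1 ?_, rfl⟩
      simp only [SimpleGraph.comap_adj, Function.Embedding.subtype_apply,
        SimpleGraph.fromEdgeSet_adj]
      exact ⟨m3, by simpa using m2⟩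
  have h4 := Set.ncard_le_ncard h3
  rw [Set.InjOn.ncard_image (h.1.mono Set.inter_subset_left)] at h4
  have h5 := Set.ncard_image_le (s := F.edgeSet) (f := Sym2.map (Subtype.val : ↥(X : Set V) → V))
  rw [Nat.card_coe_set_eq, Nat.card_coe_set_eq, Set.ncard_coe_finset] at h2
  omega

def TwoT (ends : E → Sym2 V) : Prop :=
  ∃ T₁ T₂ : Set E, IsSpTree ends T₁ ∧ IsSpTree ends T₂ ∧ Disjoint T₁ T₂ ∧ T₁ ∪ T₂ = Set.univ

omit [DecidableEq E] in
lemma TwoT.sp {ends : E → Sym2 V} (hl : ∀ e, ¬ (ends e).IsDiag) (h : TwoT ends) : Sp ends := by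
  obtain ⟨A, B, h1, h2, -, h4⟩ := h
  intro X hX
  have k1 := h1.forest hl hX
  have k2 := h2.forest hl hX
  have k3 := Set.ncard_union_le (A ∩ ins ends X) (B ∩ ins ends X)
  rw [← Set.union_inter_distrib_right, h4, Set.univ_inter, Set.ncard_coe_finset] at k3
  omega

omit [DecidableEq V] [DecidableEq E] in
lemma TwoT.card {ends : E → Sym2 V} (hl : ∀ e, ¬ (ends e).IsDiag) (h : TwoT ends) :
    Fintype.card E + 2 = 2 * Fintype.card V := by
  obtain ⟨A, B, h1, h2, h3, h4⟩ := h
  have k1 := h1.card hl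
  have k2 := h2.card hl
  have k3 := Set.ncard_union_eq h3
  rw [h4, Set.ncard_univ, Nat.card_eq_fintype_card] at k3
  omega

end Pool.Agent.H24.Ts
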