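import Pool.Agent.H24.Ts2

/-! Quartics: slot assignments exist. -/

namespace Pool.Agent.H24.Ts

open Finset

variable {V E : Type*} [DecidableEq V] [Fintype V] [DecidableEq E] [Fintype E]

def star (ends : E → Sym2 V) (w : V) : Finset E := univ.filter (fun e => w ∈ ends e)

omit [Fintype V] in
lemma class_two {ends : E → Sym2 V} (h : Sp ends) {Y : Finset V} (hY : Tight ends Y)
    (h2 : 2 ≤ Y.card) {w : V} (hw : w ∈ Y) : 2 ≤ (star ends w ∩ ins ends Y).card := by
  have k1 := h (Y.erase w) (card_pos.mp (by rw [card_erase_of_mem hw]; omega))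
  have k2 : ins ends Y ⊆ (star ends w ∩ ins ends Y) ∪ ins ends (Y.erase w) := by
    intro e he
    by_cases k : w ∈ ends e
    · exact mem_union_left _ (mem_inter.mpr ⟨by simp [star, k], he⟩)
    · refine mem_union_right _ (mem_ins.mpr (fun a ha => mem_erase.mpr ⟨?_, mem_ins.mp he a ha⟩))
      rintro rfl
      exact k ha
  have k3 := (card_le_card k2).trans (card_union_le _ _)
  rw [card_erase_of_mem hw] at k1
  unfold Tight at hY
  omega

omit [Fintype V] [DecidableEq E] in
lemma two_of_mem {ends : E → Sym2 V} (hl : ∀ e, ¬ (ends e).IsDiag) {Y : Finset V} {e : E}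
    (he : e ∈ ins ends Y) : 2 ≤ Y.card := by
  have m := mem_ins.mp he
  have m2 := hl e
  generalize ends e = z at m m2
  induction z using Sym2.ind with
  | _ a b => exact one_lt_card.mpr ⟨a, m a (by simp), b, m b (by simp), by simpa using m2⟩

lemma exists_min_class {ends : E → Sym2 V} (h : Sp ends) (hl : ∀ e, ¬ (ends e).IsDiag)
    (hE : 2 * Fintype.card V ≤ Fintype.card E + 2) (hV : 2 ≤ Fintype.card V) (w : V) :
    ∃ Y₀, Tight ends Y₀ ∧ 2 ≤ Y₀.card ∧ w ∈ Y₀ ∧ ∀ Y, Tight ends Y → w ∈ Y →
      star ends w ∩ ins ends Y₀ ⊆ ins ends Y ∨ Disjoint (star ends w ∩ ins ends Y₀) (ins ends Y) := by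
  classical
  obtain ⟨Y₀, h0, hmin⟩ := exists_min_image
    (univ.filter (fun Y : Finset V => Tight ends Y ∧ 2 ≤ Y.card ∧ w ∈ Y))
    (fun Y => (star ends w ∩ ins ends Y).card) ⟨univ, by
      have : ins ends univ = univ := by ext e; simp [mem_ins]
      simp [Tight, this, hE, hV]⟩
  simp only [mem_filter, mem_univ, true_and] at h0 hmin
  refine ⟨Y₀, h0.1, h0.2.1, h0.2.2, fun Y hY hw => ?_⟩
  by_cases k : Disjoint (star ends w ∩ ins ends Y₀) (ins ends Y)
  · exact Or.inr k
  · left
    obtain ⟨e, e1, e2⟩ := not_disjoint_iff.mp k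
    have e3 : e ∈ ins ends (Y₀ ∩ Y) := by
      rw [← ins_inter]
      exact mem_inter.mpr ⟨(mem_inter.mp e1).2, e2⟩
    have hw' : w ∈ Y₀ ∩ Y := mem_inter.mpr ⟨h0.2.2, hw⟩
    have k1 := hmin (Y₀ ∩ Y) ⟨tight_inter h h0.1 hY ⟨w, hw'⟩, two_of_mem hl e3, hw'⟩
    rw [← ins_inter] at k1
    have k2 := eq_of_subset_of_card_le
      (inter_subset_inter Subset.rfl inter_subset_left :
        star ends w ∩ (ins ends Y₀ ∩ ins ends Y) ⊆ star ends w ∩ ins ends Y₀) k1
    rw [← k2]
    exact inter_subset_right.trans inter_subset_right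

theorem quartic_slots {ends : E → Sym2 V} (h : Sp ends) (hl : ∀ e, ¬ (ends e).IsDiag)
    (hE : Fintype.card E + 2 = 2 * Fintype.card V) (hV : 2 ≤ Fintype.card V)
    (hd : ∀ w, (star ends w).card = 3 ∨ (star ends w).card = 4) (χ : V → Bool)
    (hχ : ∀ c, (univ.filter (fun w => (star ends w).card = 3 ∧ χ w = c)).card ≤ 2) :
    ∃ s t φ, (star ends s).card = 3 ∧ χ s = false ∧ (star ends t).card = 3 ∧ χ t = true ∧
      Slots ends s t φ := by
  have ha : ∀ w, ∃ a : Finset E, a ⊆ star ends w ∧ a.card = 2 ∧ ∀ Y, Tight ends Y → w ∈ Y →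
      a ⊆ ins ends Y ∨ Disjoint a (ins ends Y) := by
    intro w
    obtain ⟨Y₀, y1, y2, y3, y4⟩ := exists_min_class h hl hE.ge hV w
    obtain ⟨a, a1, a2⟩ := exists_subset_card_eq (class_two h y1 y2 y3)
    refine ⟨a, a1.trans inter_subset_left, a2, fun Y hY hw => ?_⟩
    rcases y4 Y hY hw with k | k
    · exact Or.inl (a1.trans k)
    · exact Or.inr (k.mono_left a1)
  choose a a1 a2 a3 using ha
  let r : V × Bool → E ⊕ Bool → Prop := fun σ x =>
    match x with
    | .inl e => e ∈ star ends σ.1 ∧ (e ∈ a σ.1 ↔ σ.2 = false)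
    | .inr c => σ.2 = true ∧ (star ends σ.1).card = 3 ∧ χ σ.1 = c
  classical
  let P : V × Bool → Finset (E ⊕ Bool) := fun σ => univ.filter (r σ)
  have hP : ∀ σ, 2 ≤ (P σ).card := by
    rintro ⟨w, b⟩
    cases b
    · rw [← a2 w, ← card_map (Function.Embedding.inl (β := Bool))]
      apply card_le_card
      intro x hx
      obtain ⟨e, he, rfl⟩ := mem_map.mp hx
      simp [P, r, he, a1 w he]
    · have k1 := card_sdiff_of_subset (a1 w)
      rw [a2] at k1
      have k2 : (star ends w \ a w).map (Function.Embedding.inl (β := Bool)) ⊆ P (w, true) := by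
        intro x hx
        obtain ⟨e, he, rfl⟩ := mem_map.mp hx
        simpa [P, r] using he
      rcases hd w with k | k
      · have k3 := card_le_card (insert_subset (a := Sum.inr (χ w)) (by simp [P, r, k]) k2)
        rw [card_insert_of_notMem (by simp), card_map] at k3
        omega
      · have k3 := card_le_card k2
        rw [card_map] at k3
        omega
  have hQ : ∀ x, (univ.filter (fun σ => r σ x)).card ≤ 2 := by
    rintro (e | c)
    · have k1 : (univ.filter (fun w => w ∈ ends e)).card ≤ 2 := by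
        induction ends e using Sym2.ind with
        | _ u v =>
          refine le_trans (card_le_card (fun x hx => ?_)) (card_le_two (a := u) (b := v))
          simpa using hx
      refine le_trans (card_le_card_of_injOn Prod.fst (fun σ hσ => ?_) ?_) k1
      · simp only [r, star, coe_filter, mem_filter, mem_univ, true_and, Set.mem_ofPred_eq] at hσ ⊢
        exact hσ.1
      · rintro ⟨w, b⟩ h1 ⟨w', b'⟩ h2 k
        simp only [r, coe_filter, mem_univ, true_and, Set.mem_ofPred_eq] at h1 h2 k
        subst k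
        cases b <;> cases b' <;> simp_all
    · refine le_trans (card_le_card_of_injOn Prod.fst (fun σ hσ => ?_) ?_) (hχ c)
      · simp only [r, coe_filter, mem_univ, true_and, Set.mem_ofPred_eq] at hσ ⊢
        exact hσ.2
      · rintro ⟨w, b⟩ h1 ⟨w', b'⟩ h2 k
        simp only [r, coe_filter, mem_univ, true_and, Set.mem_ofPred_eq] at h1 h2 k
        rw [k, h1.1, h2.1]
  obtain ⟨g, g1, g2⟩ := (all_card_le_biUnion_card_iff_exists_injective P).mp (by
    intro S
    have := Finset.card_mul_le_card_mul (s := S) (t := S.biUnion P) r (m := 2) (n := 2)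
      (fun σ hσ => le_trans (hP σ) (card_le_card (fun x hx => by
        rw [mem_bipartiteAbove]
        exact ⟨mem_biUnion.mpr ⟨σ, hσ, hx⟩, (mem_filter.mp hx).2⟩)))
      (fun x _ => le_trans (card_le_card (fun σ hσ => by
        rw [mem_bipartiteBelow] at hσ
        exact mem_filter.mpr ⟨mem_univ _, hσ.2⟩)) (hQ x))
    omega)
  have g3 : ∀ σ, r σ (g σ) := fun σ => (mem_filter.mp (g2 σ)).2
  have hb : Function.Bijective g := (Fintype.bijective_iff_injective_and_card g).mpr
    ⟨g1, by simp; omega⟩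
  obtain ⟨⟨s, bs⟩, hs⟩ := hb.2 (.inr false)
  obtain ⟨⟨t, bt⟩, ht⟩ := hb.2 (.inr true)
  have s1 := g3 (s, bs)
  have t1 := g3 (t, bt)
  rw [hs] at s1
  rw [ht] at t1
  simp only [r] at s1 t1
  obtain ⟨rfl, s2, s3⟩ := s1
  obtain ⟨rfl, t2, t3⟩ := t1
  have : Nonempty E := Fintype.card_pos_iff.mp (by omega)
  have hφ : ∀ v b, ∃ e, Used s t v b → g (v, b) = .inl e := by
    intro v b
    rcases k : g (v, b) with e | c
    · exact ⟨e, fun _ => rfl⟩
    · refine ⟨Classical.arbitrary E, fun hu => ?_⟩
      unfold Used at hu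
      cases c
      · have := g1 (k.trans hs.symm)
        simp_all
      · have := g1 (k.trans ht.symm)
        simp_all
  choose φ hφ using hφ
  have hr : ∀ v b, Used s t v b → φ v b ∈ star ends v ∧ (φ v b ∈ a v ↔ b = false) := by
    intro v b hu
    have := g3 (v, b)
    rw [hφ v b hu] at this
    exact this
  refine ⟨s, t, φ, s2, s3, t2, t3, fun v b hu => by simpa [star] using (hr v b hu).1, ?_, ?_⟩
  · intro v b v' b' h1 h2 k
    have := g1 ((hφ v b h1).trans (k ▸ (hφ v' b' h2).symm))
    simpa using this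
  · intro Y hY h2 w hw
    rcases a3 w Y hY hw with k | k
    · exact ⟨false, Or.inl rfl, k ((hr w false (Or.inl rfl)).2.mpr rfl)⟩
    · have k1 := class_two h hY h2 hw
      have k2 : star ends w ∩ ins ends Y ⊆ star ends w \ a w := by
        intro e he
        rw [mem_inter] at he
        exact mem_sdiff.mpr ⟨he.1, fun m => disjoint_left.mp k m he.2⟩
      have k3 := card_sdiff_of_subset (a1 w)
      rw [a2] at k3
      have k4 := card_le_card k2
      have k5 : (star ends w).card = 4 := by have := hd w; omega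
      have hu : Used s t w true := Or.inr ⟨by rintro rfl; omega, by rintro rfl; omega⟩
      have k6 := eq_of_subset_of_card_le k2 (by omega)
      have k7 : φ w true ∈ star ends w \ a w :=
        mem_sdiff.mpr ⟨(hr w true hu).1, by simpa using (hr w true hu).2⟩
      rw [← k6] at k7
      exact ⟨true, hu, (mem_inter.mp k7).2⟩

end Pool.Agent.H24.Ts
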