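import Pool.Agent.H24.Ts3
import Pool.Agent.H24.BM

/-! Slot assignments and tight sets as bipartite matching problems. -/

namespace Pool.Agent.H24.Ts

open Finset

theorem mat_iff {Lt S : Type} {m : ℕ} {A : List (ℕ × ℕ)} (cl : Lt → ℕ) (c : S → ℕ)
    (hcl : Function.Injective cl) (hlt : ∀ l, cl l < m) (hs : ∀ i < m, ∃ l, cl l = i)
    (hc : Function.Injective c) (R : Lt → S → Prop)
    (hA : ∀ l r, (cl l, r) ∈ A ↔ ∃ σ, c σ = r ∧ R l σ) :
    BM.Mat m A ↔ ∃ g : Lt → S, Function.Injective g ∧ ∀ l, R l (g l) := by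
  constructor
  · rintro ⟨g, g1, g2⟩
    choose G hG using fun l => (hA l _).mp (g1 _ (hlt l))
    exact ⟨G, fun a b k => hcl (g2 _ (hlt a) _ (hlt b) (by rw [← (hG a).1, ← (hG b).1, k])),
      fun l => (hG l).2⟩
  · rintro ⟨g, g1, g2⟩
    choose d hd using hs
    refine ⟨fun i => if h : i < m then c (g (d i h)) else 0, fun i hi => ?_, fun i hi j hj k => ?_⟩
    · simp only [dif_pos hi]
      have := (hA (d i hi) _).mpr ⟨_, rfl, g2 _⟩
      rwa [hd] at this
    · simp only [dif_pos hi, dif_pos hj] at k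
      rw [← hd i hi, ← hd j hj, g1 (hc k)]

variable {V E : Type*} [DecidableEq V] [Fintype V] [DecidableEq E] [Fintype E]

def R1 (ends : E → Sym2 V) (w u x : V) (e : E) : (V × Bool) ⊕ E → Prop
  | .inl σ => x ∉ ends e ∧ σ.1 ∈ ends e ∧ σ.1 ≠ w ∧ (σ.2 = true → σ.1 ≠ u)
  | .inr e' => x ∈ ends e ∧ e' = e

theorem r1_iff {ends : E → Sym2 V} (h : Sp ends) {w u : V} (hwu : w ≠ u) (x : V) :
    (∃ g : E → (V × Bool) ⊕ E, Function.Injective g ∧ ∀ e, R1 ends w u x e (g e)) ↔
      ∀ Y, Tight ends Y → w ∈ Y → u ∈ Y → x ∈ Y := by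
  classical
  let T : Finset V → Finset (V × Bool) := fun X => ((X.erase w) ×ˢ univ).erase (u, true)
  have hT : ∀ X σ, σ ∈ T X ↔ σ.1 ∈ X ∧ σ.1 ≠ w ∧ (σ.2 = true → σ.1 ≠ u) := by
    rintro X ⟨a, b⟩
    simp only [T, mem_erase, mem_product, mem_univ, and_true, ne_eq, Prod.mk.injEq]
    tauto
  have hc : ∀ X : Finset V, ((X.erase w) ×ˢ (univ : Finset Bool)).card = 2 * (X.erase w).card := by
    intro X
    rw [card_product, card_univ, Fintype.card_bool, mul_comm]
  constructor
  · rintro ⟨g, g1, g2⟩ Y hY hw hu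
    by_contra hx
    have k1 : (ins ends Y).card ≤ ((T Y).map Function.Embedding.inl (β := (V × Bool) ⊕ E)).card := by
      refine card_le_card_of_injOn g (fun e he => ?_) g1.injOn
      have m := mem_ins.mp he
      have m2 := g2 e
      rcases k : g e with σ | e'
      · rw [k] at m2
        exact mem_coe.mpr (mem_map_of_mem _ ((hT Y σ).mpr ⟨m _ m2.2.1, m2.2.2⟩))
      · rw [k] at m2
        exact absurd (m x m2.1) hx
    rw [card_map, card_erase_of_mem (by simp [hu, hwu.symm]), hc, card_erase_of_mem hw] at k1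
    have : 2 ≤ Y.card := one_lt_card.mpr ⟨w, hw, u, hu, hwu⟩
    unfold Tight at hY
    omega
  · intro hY
    obtain ⟨g, g1, g2⟩ := (all_card_le_biUnion_card_iff_exists_injective
      (fun e => univ.filter (R1 ends w u x e))).mp (by
      intro S
      let X : Finset V := univ.filter (fun a => ∃ e ∈ S, x ∉ ends e ∧ a ∈ ends e)
      have k1 := card_filter_add_card_filter_not (s := S) (fun e => x ∈ ends e)
      have k2 : S.filter (fun e => x ∉ ends e) ⊆ ins ends X := by
        intro e he
        rw [mem_filter] at he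
        exact mem_ins.mpr (fun a ha => mem_filter.mpr ⟨mem_univ _, e, he.1, he.2, ha⟩)
      have k3 : (T X).disjSum (S.filter (fun e => x ∈ ends e)) ⊆
          S.biUnion (fun e => univ.filter (R1 ends w u x e)) := by
        rintro (σ | e) hσ
        · rw [inl_mem_disjSum, hT] at hσ
          obtain ⟨e, e1, e2, e3⟩ := (mem_filter.mp hσ.1).2
          exact mem_biUnion.mpr ⟨e, e1, mem_filter.mpr ⟨mem_univ _, e2, e3, hσ.2⟩⟩
        · rw [inr_mem_disjSum, mem_filter] at hσ
          exact mem_biUnion.mpr ⟨e, hσ.1, mem_filter.mpr ⟨mem_univ _, hσ.2, rfl⟩⟩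
      have k4 := card_le_card k3
      have k5 := card_le_card k2
      rw [card_disjSum] at k4
      have k6 : (ins ends X).card ≤ (T X).card := by
        rcases X.eq_empty_or_nonempty with e | e
        · rw [e]
          have : ins ends ∅ = ∅ := by
            rw [eq_empty_iff_forall_notMem]
            intro e he
            exact notMem_empty _ (mem_ins.mp he _ (ends e).out_fst_mem)
          simp [this]
        · have m1 := h X e
          have m2 := hc X
          have m3 : (X.erase w ×ˢ (univ : Finset Bool)).card - 1 ≤ (T X).card := pred_card_le_card_erase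
          have m4 : X.card - 1 ≤ (X.erase w).card := pred_card_le_card_erase
          by_cases hw : w ∈ X
          · by_cases hu : u ∈ X
            · have m5 : ¬ Tight ends X := fun m => by
                obtain ⟨e, -, e2, e3⟩ := (mem_filter.mp (hY X m hw hu)).2
                exact e2 e3
              unfold Tight at m5
              omega
            · have : T X = X.erase w ×ˢ univ := erase_eq_of_notMem (by simp [hu])
              rw [this]
              omega
          · rw [erase_eq_of_notMem hw] at m2 m3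
            omega
      omega)
    exact ⟨g, g1, fun e => (mem_filter.mp (g2 e)).2⟩

def Le (ends : E → Sym2 V) (e e' : E) : Prop :=
  ∀ Y, Tight ends Y → e ∈ ins ends Y → e' ∈ ins ends Y

def MinAt (ends : E → Sym2 V) (w : V) (e : E) : Prop :=
  w ∈ ends e ∧ ∀ e', w ∈ ends e' → Le ends e e' → Le ends e' e

lemma exists_span {ends : E → Sym2 V} (h : Sp ends)
    (hE : 2 * Fintype.card V ≤ Fintype.card E + 2) (e : E) :
    ∃ Y, Tight ends Y ∧ ∀ e', e' ∈ ins ends Y ↔ Le ends e e' := by
  classical
  obtain ⟨Y₀, h0, hmin⟩ := exists_min_image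
    (univ.filter (fun Y : Finset V => Tight ends Y ∧ e ∈ ins ends Y)) card ⟨univ, by
      have : ins ends univ = univ := by ext e; simp [mem_ins]
      simp [Tight, this, hE]⟩
  simp only [mem_filter, mem_univ, true_and] at h0 hmin
  refine ⟨Y₀, h0.1, fun e' => ⟨fun k Y hY he => ?_, fun k => k Y₀ h0.1 h0.2⟩⟩
  have e3 : e ∈ ins ends (Y₀ ∩ Y) := by rw [← ins_inter]; exact mem_inter.mpr ⟨h0.2, he⟩
  have k1 := hmin (Y₀ ∩ Y)
    ⟨tight_inter h h0.1 hY ⟨_, mem_ins.mp e3 _ (ends e).out_fst_mem⟩, e3⟩
  have k2 := eq_of_subset_of_card_le (inter_subset_left : Y₀ ∩ Y ⊆ Y₀) k1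
  rw [← k2, ← ins_inter] at k
  exact (mem_inter.mp k).2

lemma exists_minAt {ends : E → Sym2 V} (h : Sp ends)
    (hE : 2 * Fintype.card V ≤ Fintype.card E + 2) (hV : 2 ≤ Fintype.card V) (w : V) :
    ∃ e, MinAt ends w e := by
  classical
  have k := class_two h (Y := univ) (by
      have : ins ends univ = univ := by ext e; simp [mem_ins]
      simp [Tight, this, hE]) (by simpa using hV) (mem_univ w)
  obtain ⟨e, he, hmin⟩ := exists_min_image (star ends w)
    (fun e => (univ.filter (Le ends e)).card)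
    ((card_pos.mp (by omega : 0 < (star ends w ∩ ins ends univ).card)).mono inter_subset_left)
  refine ⟨e, by simpa [star] using he, fun e' k1 k2 => ?_⟩
  have k3 : univ.filter (Le ends e') ⊆ univ.filter (Le ends e) := by
    intro x hx
    simp only [mem_filter, mem_univ, true_and] at hx ⊢
    exact fun Y a b => hx Y a (k2 Y a b)
  have k4 := eq_of_subset_of_card_le k3 (hmin e' (by simpa [star] using k1))
  have : e ∈ univ.filter (Le ends e) := by simp [Le]
  rw [← k4] at this
  simpa using this

def Allowed (ends : E → Sym2 V) (e₁ : V → E) (s t w : V) (b : Bool) (e' : E) : Prop :=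
  w ∈ ends e' ∧ (if w = s ∨ w = t then ∀ e, w ∈ ends e → Le ends e e'
    else if b = false then Le ends (e₁ w) e'
    else ∀ e, w ∈ ends e → (∀ x, w ∈ ends x → Le ends (e₁ w) x → ¬ Le ends e x) → Le ends e e')

def R2 (ends : E → Sym2 V) (e₁ : V → E) (s t : V) (σ : V × Bool) : E ⊕ V → Prop
  | .inl e' => Used s t σ.1 σ.2 ∧ Allowed ends e₁ s t σ.1 σ.2 e'
  | .inr w => ¬ Used s t σ.1 σ.2 ∧ w = σ.1

theorem r2_iff {ends : E → Sym2 V} (h : Sp ends) (hl : ∀ e, ¬ (ends e).IsDiag)
    (hE : 2 * Fintype.card V ≤ Fintype.card E + 2) {e₁ : V → E} (h1 : ∀ w, MinAt ends w (e₁ w))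
    (s t : V) : (∃ g : V × Bool → E ⊕ V, Function.Injective g ∧ ∀ σ, R2 ends e₁ s t σ (g σ)) ↔
      ∃ φ, Slots ends s t φ := by
  classical
  constructor
  · rintro ⟨g, g1, g2⟩
    have hφ : ∀ v b, ∃ e, Used s t v b → g (v, b) = .inl e ∧ Allowed ends e₁ s t v b e := by
      intro v b
      have m := g2 (v, b)
      rcases k : g (v, b) with e | c
      · rw [k] at m
        exact ⟨e, fun _ => ⟨rfl, m.2⟩⟩
      · rw [k] at m
        exact ⟨e₁ v, fun hu => absurd hu m.1⟩
    choose φ hφ using hφ
    refine ⟨φ, fun v b hu => (hφ v b hu).2.1, fun v b v' b' a1 a2 k => ?_, fun Y hY h2 w hw => ?_⟩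
    · exact Prod.ext_iff.mp (g1 ((hφ v b a1).1.trans (k ▸ (hφ v' b' a2).1.symm)))
    · obtain ⟨e, he⟩ := card_pos.mp (lt_of_lt_of_le (by omega : 0 < 2) (class_two h hY h2 hw))
      rw [mem_inter] at he
      have e1 : w ∈ ends e := by simpa [star] using he.1
      have m1 := (hφ w false (Or.inl rfl)).2.2
      by_cases k : w = s ∨ w = t
      · rw [if_pos k] at m1
        exact ⟨false, Or.inl rfl, m1 e e1 Y hY he.2⟩
      · have hu : Used s t w true := Or.inr (not_or.mp k)
        have m2 := (hφ w true hu).2.2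
        rw [if_neg k, if_pos rfl] at m1
        rw [if_neg k, if_neg (by simp)] at m2
        by_cases k2 : ∀ x, w ∈ ends x → Le ends (e₁ w) x → ¬ Le ends e x
        · exact ⟨true, hu, m2 e e1 k2 Y hY he.2⟩
        · push Not at k2
          obtain ⟨x, x1, x2, x3⟩ := k2
          exact ⟨false, Or.inl rfl, m1 Y hY ((h1 w).2 x x1 x2 Y hY (x3 Y hY he.2))⟩
  · rintro ⟨φ, a1, a2, a3⟩
    have hit : ∀ w e, w ∈ ends e → ∃ b, Used s t w b ∧ Le ends e (φ w b) := by
      intro w e he
      obtain ⟨Y, y1, y2⟩ := exists_span h hE e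
      have y3 := (y2 e).mpr (fun _ _ k => k)
      obtain ⟨b, b1, b2⟩ := a3 Y y1 (two_of_mem hl y3) w (mem_ins.mp y3 w he)
      exact ⟨b, b1, (y2 _).mp b2⟩
    choose c c1 c2 using fun w => hit w _ (h1 w).1
    have hu : ∀ w b, Used s t w b → Used s t w (xor b (c w)) := by
      intro w b k
      have := c1 w
      unfold Used at *
      cases b <;> simp_all
    refine ⟨fun σ => if Used s t σ.1 σ.2 then .inl (φ σ.1 (xor σ.2 (c σ.1))) else .inr σ.1, ?_, ?_⟩
    · rintro ⟨v, b⟩ ⟨v', b'⟩ k
      simp only at k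
      split_ifs at k with k1 k2 k2
      · obtain ⟨rfl, m⟩ := a2 _ _ _ _ (hu _ _ k1) (hu _ _ k2) (Sum.inl.inj k)
        simpa using m
      · obtain rfl := Sum.inr.inj k
        unfold Used at k1 k2
        cases b <;> cases b' <;> simp_all
    · rintro ⟨w, b⟩
      by_cases k : Used s t w b
      · simp only [if_pos k]
        refine ⟨k, a1 _ _ (hu _ _ k), ?_⟩
        split_ifs with k1 k2
        · intro e he
          obtain ⟨d, d1, d2⟩ := hit w e he
          have m := hu _ _ k
          have : xor b (c w) = d := by unfold Used at d1 m; grind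
          rw [this]
          exact d2
        · simp only at k2
          subst k2
          simpa using c2 w
        · intro e he hx
          obtain ⟨d, d1, d2⟩ := hit w e he
          have m : d ≠ c w := by
            rintro rfl
            exact hx _ (a1 _ _ d1) (c2 w) d2
          have : xor b (c w) = d := by
            simp only at k2
            revert m k2
            cases b <;> cases d <;> cases c w <;> simp
          rw [this]
          exact d2
      · simp only [if_neg k]
        exact ⟨k, rfl⟩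

end Pool.Agent.H24.Ts
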