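import Pool.Agent.H24.Ts4

/-! The polynomial-time test for good orderings of 2T-graphs. -/

namespace Pool.Agent.H24.Ts

open Finset Pool.Agent.H38.NP Pool.Agent.H24.BM

abbrev EL := List (ℕ × ℕ)

def inc (L : EL) (v i : ℕ) : Bool := (L.getD i (0, 0)).1 == v || (L.getD i (0, 0)).2 == v

def a1 (n : ℕ) (L : EL) (w u x : ℕ) : EL :=
  (List.range L.length).flatMap fun i => ((List.range (2 * n + L.length)).filter fun r =>
    if r < 2 * n then !inc L x i && inc L (r / 2) i && r / 2 != w && (r % 2 == 0 || r / 2 != u)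
    else inc L x i && r == 2 * n + i).map fun r => (i, r)

def leB (n : ℕ) (L : EL) (i j : ℕ) : Bool := (List.range n).all fun x => !inc L x j ||
  bm L.length (a1 n L (L.getD i (0, 0)).1 (L.getD i (0, 0)).2 x)

def minB (n : ℕ) (L : EL) (w i : ℕ) : Bool :=
  inc L w i && (List.range L.length).all fun j => !inc L w j || !leB n L i j || leB n L j i

def e1 (n : ℕ) (L : EL) (w : ℕ) : ℕ := ((List.range L.length).find? fun i => minB n L w i).getD 0

def alw (n : ℕ) (L : EL) (s t w b j : ℕ) : Bool :=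
  inc L w j && (if w = s ∨ w = t then (List.range L.length).all fun i => !inc L w i || leB n L i j
    else if b = 0 then leB n L (e1 n L w) j
    else (List.range L.length).all fun i => !inc L w i ||
      !((List.range L.length).all fun x => !inc L w x || !leB n L (e1 n L w) x || !leB n L i x) ||
      leB n L i j)

def a2 (n : ℕ) (L : EL) (s t : ℕ) : EL :=
  (List.range (2 * n)).flatMap fun l => ((List.range (L.length + n)).filter fun r =>
    if l % 2 = 0 ∨ (l / 2 ≠ s ∧ l / 2 ≠ t) then decide (r < L.length) && alw n L s t (l / 2) (l % 2) r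
    else r == L.length + l / 2).map fun r => (l, r)

def algo (n : ℕ) (L : EL) : Bool := n == 1 || (List.range n).any fun s =>
  (List.range n).any fun t => s != t && bm (2 * n) (a2 n L s t)

section
variable {α : Type} [Enc α] {n : α → ℕ} {L : α → EL} {w u x i j s t b : α → ℕ}

@[fun_prop] theorem pt_inc (hL : PT L) (h1 : PT w) (h2 : PT i) :
    PT fun a => inc (L a) (w a) (i a) := by unfold inc; fun_prop

@[fun_prop] theorem pt_a1 (hn : PT n) (hL : PT L) (h1 : PT w) (h2 : PT u) (h3 : PT x) :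
    PT fun a => a1 (n a) (L a) (w a) (u a) (x a) := by unfold a1; fun_prop

@[fun_prop] theorem pt_leB (hn : PT n) (hL : PT L) (h1 : PT i) (h2 : PT j) :
    PT fun a => leB (n a) (L a) (i a) (j a) := by unfold leB; fun_prop

@[fun_prop] theorem pt_minB (hn : PT n) (hL : PT L) (h1 : PT w) (h2 : PT i) :
    PT fun a => minB (n a) (L a) (w a) (i a) := by unfold minB; fun_prop

@[fun_prop] theorem pt_e1 (hn : PT n) (hL : PT L) (h1 : PT w) :
    PT fun a => e1 (n a) (L a) (w a) := by unfold e1; fun_prop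

@[fun_prop] theorem pt_alw (hn : PT n) (hL : PT L) (h1 : PT s) (h2 : PT t) (h3 : PT w) (h4 : PT b)
    (h5 : PT j) : PT fun a => alw (n a) (L a) (s a) (t a) (w a) (b a) (j a) := by
  unfold alw; fun_prop

@[fun_prop] theorem pt_a2 (hn : PT n) (hL : PT L) (h1 : PT s) (h2 : PT t) :
    PT fun a => a2 (n a) (L a) (s a) (t a) := by unfold a2; fun_prop

theorem pt_algo (hn : PT n) (hL : PT L) : PT fun a => algo (n a) (L a) := by
  unfold algo; fun_prop

end

def Codes (n : ℕ) (L : EL) (ends : Fin L.length → Sym2 (Fin n)) : Prop :=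
  ∀ i, (ends i).map Fin.val = s((L.get i).1, (L.get i).2)

variable {n : ℕ} {L : EL} {ends : Fin L.length → Sym2 (Fin n)}

lemma codes_ends (h : Codes n L ends) (e : Fin L.length) : ∃ w u : Fin n, ends e = s(w, u) ∧
    (L.getD e (0, 0)).1 = w ∧ (L.getD e (0, 0)).2 = u := by
  have k := h e
  have k2 : L.getD e (0, 0) = L.get e := by simp
  rw [k2]
  generalize ends e = z at k
  induction z using Sym2.ind with
  | _ a b =>
    rcases Sym2.eq_iff.mp k with ⟨k1, k2⟩ | ⟨k1, k2⟩
    · exact ⟨a, b, rfl, k1.symm, k2.symm⟩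
    · exact ⟨b, a, Sym2.eq_swap, k2.symm, k1.symm⟩

lemma inc_iff (h : Codes n L ends) (v : Fin n) (e : Fin L.length) :
    inc L v e = true ↔ v ∈ ends e := by
  obtain ⟨w, u, k1, k2, k3⟩ := codes_ends h e
  simp only [inc, k1, k2, k3, Bool.or_eq_true, beq_iff_eq, Sym2.mem_iff, Fin.val_inj]
  tauto

lemma inc_lt (h : Codes n L ends) {v : ℕ} (e : Fin L.length) (k : inc L v e = true) : v < n := by
  obtain ⟨w, u, -, k2, k3⟩ := codes_ends h e
  simp only [inc, k2, k3, Bool.or_eq_true, beq_iff_eq] at k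
  have := w.2
  have := u.2
  omega

lemma all_fin {m : ℕ} {p : ℕ → Bool} :
    (List.range m).all p = true ↔ ∀ i : Fin m, p i = true := by
  simp only [List.all_eq_true, List.mem_range]
  exact ⟨fun h i => h i i.2, fun h i hi => h ⟨i, hi⟩⟩

lemma a1_iff (h : Codes n L ends) (hsp : Sp ends) {w u : Fin n} (hwu : w ≠ u) (x : Fin n) :
    bm L.length (a1 n L w u x) = true ↔ ∀ Y, Tight ends Y → w ∈ Y → u ∈ Y → x ∈ Y := by
  rw [bm_iff, ← r1_iff hsp hwu]
  refine mat_iff Fin.val (Sum.elim (fun σ : Fin n × Bool => 2 * σ.1.1 + σ.2.toNat)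
    (fun e : Fin L.length => 2 * n + e.1)) Fin.val_injective (fun l => l.2)
    (fun i hi => ⟨⟨i, hi⟩, rfl⟩) ?_ _ ?_
  · rintro (⟨a, b⟩ | a) (⟨c, d⟩ | c) k <;> simp only [Sum.elim_inl, Sum.elim_inr] at k
    · have : a = c := Fin.ext (by cases b <;> cases d <;> simp at k <;> omega)
      subst this
      cases b <;> cases d <;> simp at k ⊢
    · have := a.2
      cases b <;> simp at k <;> omega
    · have := c.2
      cases d <;> simp at k <;> omega
    · rw [Fin.ext (by omega : a.1 = c.1)]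
  · intro e r
    simp only [a1, List.mem_flatMap, List.mem_range, List.mem_map, List.mem_filter, Prod.mk.injEq]
    constructor
    · rintro ⟨i, -, r', ⟨k1, k2⟩, rfl, rfl⟩
      split_ifs at k2 with k
      · simp only [Bool.and_eq_true, Bool.not_eq_true', bne_iff_ne, Bool.or_eq_true, beq_iff_eq] at k2
        obtain ⟨⟨⟨m1, m2⟩, m3⟩, m4⟩ := k2
        refine ⟨.inl (⟨r' / 2, by omega⟩, decide (r' % 2 = 1)), ?_, ?_, (inc_iff h _ e).mp m2,
          fun m => m3 (congrArg Fin.val m), fun m m' => ?_⟩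
        · rcases Nat.mod_two_eq_zero_or_one r' with m | m <;> simp [m] <;> omega
        · rw [← inc_iff h, m1]; simp
        · have := congrArg Fin.val m'
          simp only [decide_eq_true_eq] at m this
          omega
      · simp only [Bool.and_eq_true, beq_iff_eq] at k2
        exact ⟨.inr e, k2.2.symm, (inc_iff h _ e).mp k2.1, rfl⟩
    · rintro ⟨⟨a, b⟩ | e', rfl, k⟩
      · obtain ⟨k1, k2, k3, k4⟩ := k
        have := a.2
        have b1 : b.toNat < 2 := by cases b <;> simp
        have d1 : (2 * a.1 + b.toNat) / 2 = a.1 := by omega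
        refine ⟨e, e.2, _, ⟨by simp only [Sum.elim_inl]; omega, ?_⟩, rfl, rfl⟩
        simp only [Sum.elim_inl]
        rw [if_pos (by omega), d1, (inc_iff h a e).mpr k2,
          Bool.eq_false_iff.mpr (fun m => k1 ((inc_iff h x e).mp m))]
        cases b
        · simpa [Fin.val_inj] using k3
        · simpa [Fin.val_inj] using ⟨k3, k4 rfl⟩
      · obtain ⟨k1, rfl⟩ := k
        refine ⟨e', e'.2, _, ⟨by simp, ?_⟩, rfl, rfl⟩
        simp [(inc_iff h x e').mpr k1]

lemma leB_iff (h : Codes n L ends) (hsp : Sp ends) (hl : ∀ e, ¬ (ends e).IsDiag)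
    (e e' : Fin L.length) : leB n L e e' = true ↔ Le ends e e' := by
  obtain ⟨w, u, k1, k2, k3⟩ := codes_ends h e
  have hwu : w ≠ u := fun m => hl e (by simp [k1, m])
  rw [leB, all_fin, k2, k3]
  simp only [Bool.or_eq_true, Bool.not_eq_true', a1_iff h hsp hwu, ← Bool.not_eq_true, inc_iff h,
    Le, mem_ins, k1, Sym2.mem_iff, forall_eq_or_imp, forall_eq]
  constructor
  · intro k Y hY m a ha
    exact ((k a).resolve_left (not_not.mpr ha)) Y hY m.1 m.2
  · intro k a
    by_cases ha : a ∈ ends e'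
    · exact Or.inr (fun Y hY m1 m2 => k Y hY ⟨m1, m2⟩ a ha)
    · exact Or.inl ha

lemma minB_iff (h : Codes n L ends) (hsp : Sp ends) (hl : ∀ e, ¬ (ends e).IsDiag) (w : Fin n)
    (e : Fin L.length) : minB n L w e = true ↔ MinAt ends w e := by
  rw [minB, Bool.and_eq_true, all_fin]
  simp only [Bool.or_eq_true, Bool.not_eq_true', ← Bool.not_eq_true, inc_iff h, leB_iff h hsp hl,
    MinAt]
  refine and_congr Iff.rfl (forall_congr' fun j => ?_)
  tauto

lemma e1_spec (h : Codes n L ends) (hsp : Sp ends) (hl : ∀ e, ¬ (ends e).IsDiag)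
    (hE : 2 * n ≤ L.length + 2) (hn : 2 ≤ n) (w : Fin n) :
    ∃ e : Fin L.length, e.1 = e1 n L w ∧ MinAt ends w e := by
  obtain ⟨e, he⟩ := exists_minAt hsp (by simpa using hE) (by simpa using hn) w
  rcases k : (List.range L.length).find? fun i => minB n L w i with _ | i
  · exact absurd ((minB_iff h hsp hl w e).mpr he)
      (List.find?_eq_none.mp k e (List.mem_range.mpr e.2))
  · have k1 := List.mem_range.mp (List.mem_of_find?_eq_some k)
    exact ⟨⟨i, k1⟩, by simp [e1, k], (minB_iff h hsp hl w ⟨i, k1⟩).mp (List.find?_some k)⟩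

lemma a2_iff (h : Codes n L ends) (hsp : Sp ends) (hl : ∀ e, ¬ (ends e).IsDiag)
    (hE : 2 * n ≤ L.length + 2) (hn : 2 ≤ n) (s t : Fin n) :
    bm (2 * n) (a2 n L s t) = true ↔ ∃ φ, Slots ends s t φ := by
  choose e₁ c1 c2 using e1_spec h hsp hl hE hn
  rw [bm_iff, ← r2_iff hsp hl (by simpa using hE) c2]
  have hal : ∀ (w : Fin n) (b : Bool) (j : Fin L.length),
      alw n L s t w b.toNat j = true ↔ Allowed ends e₁ s t w b j := by
    intro w b j
    rw [alw, Allowed, Bool.and_eq_true, inc_iff h, ← c1 w]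
    refine and_congr Iff.rfl ?_
    have q1 : (w.1 = s.1 ∨ w.1 = t.1) ↔ (w = s ∨ w = t) := by simp [Fin.val_inj]
    have q2 : b.toNat = 0 ↔ b = false := by cases b <;> simp
    simp only [q1, q2]
    split_ifs
    · rw [all_fin]
      simp only [Bool.or_eq_true, Bool.not_eq_true', ← Bool.not_eq_true, inc_iff h,
        leB_iff h hsp hl]
      exact forall_congr' fun j => by tauto
    · exact leB_iff h hsp hl _ _
    · rw [all_fin]
      simp only [Bool.or_eq_true, Bool.not_eq_true', ← Bool.not_eq_true, inc_iff h,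
        leB_iff h hsp hl, all_fin]
      refine forall_congr' fun j => ?_
      have : (∀ x : Fin L.length, (¬w ∈ ends x ∨ ¬Le ends (e₁ w) x) ∨ ¬Le ends j x) ↔
          ∀ x, w ∈ ends x → Le ends (e₁ w) x → ¬ Le ends j x := forall_congr' fun x => by tauto
      rw [this]
      tauto
  refine mat_iff (fun σ : Fin n × Bool => 2 * σ.1.1 + σ.2.toNat)
    (Sum.elim (fun e : Fin L.length => e.1) (fun w : Fin n => L.length + w.1)) ?_ ?_ ?_ ?_ _ ?_
  · rintro ⟨a, b⟩ ⟨c, d⟩ k
    have : a = c := Fin.ext (by cases b <;> cases d <;> simp at k <;> omega)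
    subst this
    cases b <;> cases d <;> simp at k ⊢
  · rintro ⟨a, b⟩
    have := a.2
    cases b <;> simp <;> omega
  · intro i hi
    refine ⟨(⟨i / 2, by omega⟩, decide (i % 2 = 1)), ?_⟩
    rcases Nat.mod_two_eq_zero_or_one i with m | m <;> simp [m] <;> omega
  · rintro (a | a) (c | c) k <;> simp only [Sum.elim_inl, Sum.elim_inr] at k
    · rw [Fin.ext k]
    · have := a.2; omega
    · have := c.2; omega
    · rw [Fin.ext (by omega : a.1 = c.1)]
  · rintro ⟨a, b⟩ r
    have := a.2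
    have b1 : b.toNat < 2 := by cases b <;> simp
    have d1 : (2 * a.1 + b.toNat) / 2 = a.1 := by omega
    have d2 : (2 * a.1 + b.toNat) % 2 = b.toNat := by omega
    have q : (b.toNat = 0 ∨ (a.1 ≠ s.1 ∧ a.1 ≠ t.1)) ↔ Used s t a b := by
      cases b <;> simp [Used, Fin.val_inj]
    simp only [a2, List.mem_flatMap, List.mem_range, List.mem_map, List.mem_filter, Prod.mk.injEq]
    constructor
    · rintro ⟨i, -, r', ⟨k1, k2⟩, rfl, rfl⟩
      rw [d1, d2] at k2
      split_ifs at k2 with k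
      · simp only [Bool.and_eq_true, decide_eq_true_eq] at k2
        exact ⟨.inl ⟨r', k2.1⟩, rfl, q.mp k, (hal a b ⟨r', k2.1⟩).mp k2.2⟩
      · exact ⟨.inr a, (beq_iff_eq.mp k2).symm, fun m => k (q.mpr m), rfl⟩
    · rintro ⟨e | w, rfl, k1, k2⟩
      · have := e.2
        refine ⟨_, by omega, _, ⟨by simp only [Sum.elim_inl]; omega, ?_⟩, rfl, rfl⟩
        rw [d1, d2, if_pos (q.mpr k1)]
        simpa using (hal a b e).mpr k2
      · simp only at k2
        subst k2
        refine ⟨_, by omega, _, ⟨by simp, ?_⟩, rfl, rfl⟩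
        rw [d1, d2, if_neg (fun m => k1 (q.mp m))]
        simp

theorem algo_iff (h : Codes n L ends) (hl : ∀ e, ¬ (ends e).IsDiag) (h2 : TwoT ends) :
    algo n L = true ↔ n = 1 ∨ ∃ s t, s ≠ t ∧ GoodE ends s t := by
  have hsp := h2.sp hl
  have hE := h2.card hl
  simp only [Fintype.card_fin] at hE
  by_cases hn : n = 1
  · simp [algo, hn]
  simp only [algo, hn, Bool.or_eq_true, beq_iff_eq, false_or, List.any_eq_true, List.mem_range,
    Bool.and_eq_true, bne_iff_ne]
  constructor
  · rintro ⟨s, hs, t, ht, k1, k2⟩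
    have hst : (⟨s, hs⟩ : Fin n) ≠ ⟨t, ht⟩ := by simpa using k1
    obtain ⟨φ, hφ⟩ := (a2_iff h hsp hl hE.ge (by omega) ⟨s, hs⟩ ⟨t, ht⟩).mp k2
    exact ⟨_, _, hst, good_of_slots hsp hl hst hφ⟩
  · rintro ⟨s, t, hst, k⟩
    exact ⟨s, s.2, t, t.2, fun m => hst (Fin.ext m), (a2_iff h hsp hl hE.ge (by omega) s t).mpr
      (slots_of_good (by simp [hE]) hst k)⟩

end Pool.Agent.H24.Ts
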