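import Pool.Agent.H24.IndepGF

set_option autoImplicit false

namespace Pool.Agent.H24.VWC

open Finset Pool.Agent.H24.IndepGF

/-- bipartite graph of a relation -/
def relG {P : Type} (R : P → P → Prop) : SimpleGraph (P × Bool) where
  Adj u v := (u.2 = false ∧ v.2 = true ∧ R u.1 v.1) ∨ (u.2 = true ∧ v.2 = false ∧ R v.1 u.1)
  symm := ⟨by
    intro u v h
    rcases h with h | h
    · exact Or.inr ⟨h.2.1, h.1, h.2.2⟩
    · exact Or.inl ⟨h.2.1, h.1, h.2.2⟩⟩
  loopless := ⟨by
    intro u h
    rcases h with h | h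
    · exact absurd (h.1.symm.trans h.2.1) (by simp)
    · exact absurd (h.1.symm.trans h.2.1) (by simp)⟩

lemma relG_noiso {P : Type} (R : P → P → Prop) (hr : ∀ i, R i i) (v : P × Bool) :
    ∃ w, (relG R).Adj v w := by
  obtain ⟨i, s⟩ := v
  cases s
  · exact ⟨(i, true), Or.inl ⟨rfl, rfl, hr i⟩⟩
  · exact ⟨(i, false), Or.inr ⟨rfl, rfl, hr i⟩⟩

lemma exists_nbr {V : Type} (G : SimpleGraph V) (s : Set V) (hs : G.IsIndepSet s) (v : V)
    (h : ¬ G.IsIndepSet (insert v s)) : ∃ w ∈ s, G.Adj v w := by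
  by_contra hc
  push Not at hc
  apply h
  intro x hx y hy hxy
  rcases hx with rfl | hx <;> rcases hy with rfl | hy
  · exact absurd rfl hxy
  · exact hc y hy
  · exact fun ha => hc x hx ha.symm
  · exact hs hx hy hxy

lemma relG_card {P : Type} [Fintype P] (R : P → P → Prop) (hr : ∀ i, R i i)
    (ht : ∀ i j k, R i j → R j k → R i k) (s : Finset (P × Bool))
    (hs : (relG R).IsIndepSet (s : Set (P × Bool)))
    (hm : ∀ v, v ∉ s → ¬ (relG R).IsIndepSet (insert v (s : Set (P × Bool)))) :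
    s.card = Fintype.card P := by
  classical
  rw [← Finset.card_univ]
  apply Finset.card_bij (fun v _ => v.1)
  · intro _ _; exact mem_univ _
  · rintro ⟨i, x⟩ hx ⟨j, y⟩ hy h
    simp only at h
    subst h
    by_contra hne
    apply hs hx hy hne
    cases x <;> cases y
    · exact absurd rfl hne
    · exact Or.inl ⟨rfl, rfl, hr i⟩
    · exact Or.inr ⟨rfl, rfl, hr i⟩
    · exact absurd rfl hne
  · intro i _
    by_cases h0 : (i, false) ∈ s
    · exact ⟨_, h0, rfl⟩
    by_cases h1 : (i, true) ∈ s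
    · exact ⟨_, h1, rfl⟩
    exfalso
    obtain ⟨w, hw, ha⟩ := exists_nbr _ _ hs _ (hm _ h0)
    obtain ⟨u, hu, hb⟩ := exists_nbr _ _ hs _ (hm _ h1)
    rcases ha with ha | ha
    · rcases hb with hb | hb
      · simp at hb
      · have hadj : (relG R).Adj u w := Or.inl ⟨hb.2.1, ha.2.1, ht _ _ _ hb.2.2 ha.2.2⟩
        exact hs hu hw hadj.ne hadj
    · simp at ha

/-- ordinal sum of an antichain and a disjoint union of blocks -/
def Rel (a b m : ℕ) : (Fin a ⊕ (Fin b × Fin m)) → (Fin a ⊕ (Fin b × Fin m)) → Prop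
  | Sum.inl i, Sum.inl j => i = j
  | Sum.inl _, Sum.inr _ => True
  | Sum.inr _, Sum.inl _ => False
  | Sum.inr p, Sum.inr q => p.1 = q.1

lemma Rel_refl (a b m : ℕ) (i) : Rel a b m i i := by
  cases i <;> simp [Rel]

lemma Rel_trans (a b m : ℕ) (i j k) : Rel a b m i j → Rel a b m j k → Rel a b m i k := by
  cases i <;> cases j <;> cases k <;> simp [Rel] <;> intro h1 h2 <;> exact h1.trans h2

abbrev W (a b m : ℕ) := (Fin a ⊕ (Fin b × Fin m)) × Bool

def side1 (a b m : ℕ) (x : Bool) : Finset (W a b m) := univ.image (fun i : Fin a => (Sum.inl i, x))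
def side2 (a b m : ℕ) (x : Bool) : Finset (W a b m) :=
  univ.image (fun p : Fin b × Fin m => (Sum.inr p, x))
def half (a b m : ℕ) (p : Fin b) (x : Bool) : Finset (W a b m) :=
  univ.image (fun q : Fin m => (Sum.inr (p, q), x))
def blk (a b m : ℕ) (p : Fin b) : Finset (W a b m) := half a b m p false ∪ half a b m p true
def pr (a b m : ℕ) (i : Fin a) : Finset (W a b m) := {(Sum.inl i, false), (Sum.inl i, true)}

lemma card_side1 (a b m : ℕ) (x : Bool) : (side1 a b m x).card = a := by
  unfold side1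
  rw [card_image_of_injective _ (by intro i j h; simpa using h)]; simp

lemma card_side2 (a b m : ℕ) (x : Bool) : (side2 a b m x).card = b * m := by
  unfold side2
  rw [card_image_of_injective _ (by intro i j h; simpa using h)]; simp

lemma card_half (a b m : ℕ) (p : Fin b) (x : Bool) : (half a b m p x).card = m := by
  unfold half
  rw [card_image_of_injective _ (by intro i j h; simpa using h)]; simp

lemma indep_of_side {P : Type} (R : P → P → Prop) (s : Finset (P × Bool)) (x : Bool)
    (h : ∀ v ∈ s, v.2 = x) : (relG R).IsIndepSet (s : Set (P × Bool)) := by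
  intro u hu v hv _ hadj
  have h1 := h u hu
  have h2 := h v hv
  rcases hadj with ha | ha <;> simp_all

variable (a b m T : ℕ)

lemma z_side1 (x : Bool) : z (relG (Rel a b m)) T (side1 a b m x) = (1 + T) ^ a := by
  rw [z_indep _ _ (indep_of_side _ _ x (by simp [side1])), card_side1]

lemma z_side2 (x : Bool) : z (relG (Rel a b m)) T (side2 a b m x) = (1 + T) ^ (b * m) := by
  rw [z_indep _ _ (indep_of_side _ _ x (by simp [side2])), card_side2]

lemma z_half (p : Fin b) (x : Bool) : z (relG (Rel a b m)) T (half a b m p x) = (1 + T) ^ m := by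
  rw [z_indep _ _ (indep_of_side _ _ x (by simp [half])), card_half]

lemma z_blk (p : Fin b) : z (relG (Rel a b m)) T (blk a b m p) = 2 * (1 + T) ^ m - 1 := by
  have h := z_join (relG (Rel a b m)) T (blk a b m p) (half a b m p false) (half a b m p true)
    (by
      intro x hx y hy
      simp only [half, mem_image, mem_univ, true_and] at hx hy
      obtain ⟨q, rfl⟩ := hx
      obtain ⟨r, rfl⟩ := hy
      exact Or.inl ⟨rfl, rfl, rfl⟩)
  have e1 : blk a b m p \ half a b m p false = half a b m p true := by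
    ext ⟨i, x⟩; cases x <;> simp [blk, half]
  have e2 : blk a b m p \ half a b m p true = half a b m p false := by
    ext ⟨i, x⟩; cases x <;> simp [blk, half]
  rw [e1, e2, sdiff_self, bot_eq_empty, z_empty, z_half, z_half] at h
  omega

lemma z_pr (i : Fin a) : z (relG (Rel a b m)) T (pr a b m i) = 1 + 2 * T := by
  have h := z_join (relG (Rel a b m)) T (pr a b m i) {(Sum.inl i, false)} {(Sum.inl i, true)}
    (by
      intro x hx y hy
      simp only [mem_singleton] at hx hy
      subst hx hy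
      exact Or.inl ⟨rfl, rfl, rfl⟩)
  have e1 : pr a b m i \ {(Sum.inl i, false)} = {(Sum.inl i, true)} := by
    ext ⟨j, x⟩; cases x <;> simp [pr]
  have e2 : pr a b m i \ {(Sum.inl i, true)} = {(Sum.inl i, false)} := by
    ext ⟨j, x⟩; cases x <;> simp [pr]
  rw [e1, e2, sdiff_self, bot_eq_empty, z_empty,
    z_indep _ _ (indep_of_side (Rel a b m) {(Sum.inl i, true)} true (by simp)),
    z_indep _ _ (indep_of_side (Rel a b m) {(Sum.inl i, false)} false (by simp))] at h
  simp only [card_singleton, pow_one] at h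
  omega

lemma z_blks : z (relG (Rel a b m)) T (univ.biUnion (blk a b m)) = (2 * (1 + T) ^ m - 1) ^ b := by
  rw [z_biUnion]
  · simp [z_blk]
  · intro i j hij
    rw [Finset.disjoint_left]
    intro v h1 h2
    simp only [blk, half, mem_union, mem_image, mem_univ, true_and] at h1 h2
    rcases h1 with ⟨q, rfl⟩ | ⟨q, rfl⟩ <;> simp [hij.symm] at h2
  · intro i j hij u h1 w h2 hadj
    simp only [blk, half, mem_union, mem_image, mem_univ, true_and] at h1 h2
    rcases h1 with ⟨q, rfl⟩ | ⟨q, rfl⟩ <;> rcases h2 with ⟨r, rfl⟩ | ⟨r, rfl⟩ <;>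
      simp [relG, Rel, hij, hij.symm] at hadj

lemma z_prs : z (relG (Rel a b m)) T (univ.biUnion (pr a b m)) = (1 + 2 * T) ^ a := by
  rw [z_biUnion]
  · simp [z_pr]
  · intro i j hij
    rw [Finset.disjoint_left]
    intro v h1 h2
    simp only [pr, mem_insert, mem_singleton] at h1 h2
    rcases h1 with rfl | rfl <;> simp [hij] at h2
  · intro i j hij u h1 w h2 hadj
    simp only [pr, mem_insert, mem_singleton] at h1 h2
    rcases h1 with rfl | rfl <;> rcases h2 with rfl | rfl <;>
      simp [relG, Rel, hij, hij.symm] at hadj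

lemma z_total : z (relG (Rel a b m)) T univ =
    (1 + T) ^ a * (2 * (1 + T) ^ m - 1) ^ b + (1 + 2 * T) ^ a * (1 + T) ^ (b * m)
      - (1 + T) ^ a * (1 + T) ^ (b * m) := by
  have h := z_join (relG (Rel a b m)) T univ (side1 a b m false) (side2 a b m true)
    (by
      intro x hx y hy
      simp only [side1, side2, mem_image, mem_univ, true_and] at hx hy
      obtain ⟨q, rfl⟩ := hx
      obtain ⟨r, rfl⟩ := hy
      exact Or.inl ⟨rfl, rfl, trivial⟩)
  have e1 : univ \ side1 a b m false = side1 a b m true ∪ univ.biUnion (blk a b m) := by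
    ext ⟨i, x⟩
    rcases i with i | ⟨p, q⟩ <;> cases x <;> simp [side1, blk, half]
  have e2 : univ \ side2 a b m true = univ.biUnion (pr a b m) ∪ side2 a b m false := by
    ext ⟨i, x⟩
    rcases i with i | ⟨p, q⟩ <;> cases x <;> simp [side2, pr]
  have e3 : (univ \ side1 a b m false) \ side2 a b m true
      = side1 a b m true ∪ side2 a b m false := by
    ext ⟨i, x⟩
    rcases i with i | ⟨p, q⟩ <;> cases x <;> simp [side1, side2]
  rw [e3, e1, e2, z_union, z_union, z_union, z_side1, z_side2, z_blks, z_prs] at h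
  · omega
  · rw [Finset.disjoint_left]
    rintro ⟨i, x⟩
    rcases i with i | ⟨p, q⟩ <;> cases x <;> simp [side2, pr]
  · rintro ⟨i, x⟩ h1 ⟨j, y⟩ h2 hadj
    rcases i with i | ⟨p, q⟩ <;> rcases j with j | ⟨p', q'⟩ <;> cases x <;> cases y <;>
      simp [side2, pr, relG, Rel] at h1 h2 hadj
  · rw [Finset.disjoint_left]
    rintro ⟨i, x⟩
    rcases i with i | ⟨p, q⟩ <;> cases x <;> simp [side1, blk, half]
  · rintro ⟨i, x⟩ h1 ⟨j, y⟩ h2 hadj
    rcases i with i | ⟨p, q⟩ <;> rcases j with j | ⟨p', q'⟩ <;> cases x <;> cases y <;>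
      simp [side1, blk, half, relG, Rel] at h1 h2 hadj
  · rw [Finset.disjoint_left]
    rintro ⟨i, x⟩
    rcases i with i | ⟨p, q⟩ <;> cases x <;> simp [side1, side2]
  · rintro ⟨i, x⟩ h1 ⟨j, y⟩ h2 hadj
    rcases i with i | ⟨p, q⟩ <;> rcases j with j | ⟨p', q'⟩ <;> cases x <;> cases y <;>
      simp [side1, side2, relG, Rel] at h1 h2 hadj

/-- the closed form, evaluated -/
def val (a b m T k : ℕ) : ℕ :=
  ((1 + T) ^ a * (2 * (1 + T) ^ m - 1) ^ b + (1 + 2 * T) ^ a * (1 + T) ^ (b * m)
      - (1 + T) ^ a * (1 + T) ^ (b * m)) / T ^ k % T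

lemma card_W : Fintype.card (W a b m) = 2 * (a + b * m) := by
  simp [W]; ring

lemma cnt_eq (k : ℕ) (hk : k ≤ 2 * (a + b * m)) :
    cnt (relG (Rel a b m)) k = val a b m (2 ^ (2 * (a + b * m) + 1)) k := by
  rw [cnt_eq_digit _ (2 ^ (2 * (a + b * m) + 1)) (by
    rw [card_W]; exact Nat.pow_lt_pow_right (by norm_num) (by omega)) k (by rw [card_W]; exact hk),
    z_total]
  rfl

lemma num1 : val 222 136 4 (2 ^ (2 * (222 + 136 * 4) + 1)) 404
    < val 222 136 4 (2 ^ (2 * (222 + 136 * 4) + 1)) 403 := by decide +kernel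

lemma num2 : val 222 136 4 (2 ^ (2 * (222 + 136 * 4) + 1)) 404
    < val 222 136 4 (2 ^ (2 * (222 + 136 * 4) + 1)) 405 := by decide +kernel

theorem valley : cnt (relG (Rel 222 136 4)) 404 < cnt (relG (Rel 222 136 4)) 403 ∧
    cnt (relG (Rel 222 136 4)) 404 < cnt (relG (Rel 222 136 4)) 405 := by
  rw [cnt_eq _ _ _ _ (by norm_num), cnt_eq _ _ _ _ (by norm_num), cnt_eq _ _ _ _ (by norm_num)]
  exact ⟨num1, num2⟩

end Pool.Agent.H24.VWC
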