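import Pool.Agent.H24.VassDefs

namespace Pool.Agent.H24.Vass

variable {Q A : Type} {d : ℕ}

def eff (s : List (Tr Q A d)) : Fin d → ℤ := (s.map Tr.upd).sum

@[simp] theorem eff_nil : eff ([] : List (Tr Q A d)) = 0 := rfl
@[simp] theorem eff_cons (t : Tr Q A d) (s : List (Tr Q A d)) : eff (t :: s) = t.upd + eff s := by
  simp [eff]
@[simp] theorem eff_append (s s' : List (Tr Q A d)) : eff (s ++ s') = eff s + eff s' := by
  simp [eff]

theorem last_append (q : Q) (s s' : List (Tr Q A d)) : last q (s ++ s') = last (last q s) s' := by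
  induction s generalizing q with
  | nil => rfl
  | cons t s ih => exact ih _

theorem valid_append {q : Q} {v : Fin d → ℤ} {s s' : List (Tr Q A d)} :
    Valid q v (s ++ s') ↔ Valid q v s ∧ Valid (last q s) (v + eff s) s' := by
  induction s generalizing q v with
  | nil => simp [Valid, last]
  | cons t s ih => simp [Valid, last, ih, add_assoc, and_assoc]

theorem Valid.mono {q : Q} {v v' : Fin d → ℤ} {s : List (Tr Q A d)} (h : Valid q v s)
    (hv : v ≤ v') : Valid q v' s := by
  induction s generalizing q v v' with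
  | nil => trivial
  | cons t s ih => exact ⟨h.1, h.2.1.trans (by gcongr), ih h.2.2 (by gcongr)⟩

theorem Valid.mid {q : Q} {v v1 v2 : Fin d → ℤ} {s : List (Tr Q A d)} (h1 : Valid q v1 s)
    (h2 : Valid q v2 s) (e : v + v = v1 + v2) : Valid q v s := by
  induction s generalizing q v v1 v2 with
  | nil => trivial
  | cons t s ih =>
    refine ⟨h1.1, fun i => ?_, ih h1.2.2 h2.2.2 (by linear_combination e)⟩
    have a := h1.2.1 i
    have b := h2.2.1 i
    have c := congrFun e i
    simp only [Pi.add_apply, Pi.zero_apply] at *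
    omega

theorem Valid.nonneg {q : Q} {v : Fin d → ℤ} {s : List (Tr Q A d)} (h : Valid q v s)
    (hv : 0 ≤ v) : 0 ≤ v + eff s := by
  induction s generalizing q v with
  | nil => simpa using hv
  | cons t s ih => simpa [add_assoc] using ih h.2.2 h.2.1

def rp (i : ℕ) (g : List (Tr Q A d)) : List (Tr Q A d) := (List.replicate i g).flatten

theorem rp_succ (i : ℕ) (g : List (Tr Q A d)) : rp (i + 1) g = rp i g ++ g := by
  simp [rp, List.replicate_succ']

theorem rp_last {q : Q} {g : List (Tr Q A d)} (h : last q g = q) (i : ℕ) : last q (rp i g) = q := by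
  induction i with
  | zero => rfl
  | succ i ih => rw [rp_succ, last_append, ih, h]

theorem rp_eff {g : List (Tr Q A d)} (h : 0 ≤ eff g) (i : ℕ) : 0 ≤ eff (rp i g) := by
  induction i with
  | zero => simp [rp]
  | succ i ih => rw [rp_succ, eff_append]; exact add_nonneg ih h

theorem rp_valid {q : Q} {v : Fin d → ℤ} {g : List (Tr Q A d)} (h : last q g = q) (h' : 0 ≤ eff g)
    (hv : Valid q v g) (i : ℕ) : Valid q v (rp i g) := by
  induction i with
  | zero => trivial
  | succ i ih =>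
    rw [rp_succ, valid_append, rp_last h]
    exact ⟨ih, hv.mono (le_add_of_nonneg_right (rp_eff h' i))⟩

/-- uniform Dickson bound -/
theorem dickson [Finite Q] (C B : ℕ) : ∃ n, ∀ f : ℕ → Q × (Fin d → ℤ),
    (∀ k ≤ n, ∀ i, 0 ≤ (f k).2 i ∧ (f k).2 i ≤ B + k * C) →
      ∃ p q, p < q ∧ q ≤ n ∧ (f p).1 = (f q).1 ∧ (f p).2 ≤ (f q).2 := by
  by_contra hc
  push Not at hc
  choose f hf1 hf2 using hc
  let U := Filter.hyperfilter ℕ
  have big : ∀ k, ∀ᶠ n in (U : Filter ℕ), k ≤ n := fun k =>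
    Nat.hyperfilter_le_atTop (Filter.eventually_ge_atTop k)
  have lim : ∀ k, ∃ x, ∀ᶠ n in (U : Filter ℕ), f n k = x := by
    intro k
    have fin : (Set.univ ×ˢ Set.Icc (0 : Fin d → ℤ) (fun _ => B + k * C) :
        Set (Q × (Fin d → ℤ))).Finite := Set.finite_univ.prod (Set.finite_Icc _ _)
    have : ∀ᶠ n in (U : Filter ℕ), ∃ x ∈ (Set.univ ×ˢ Set.Icc (0 : Fin d → ℤ)
        (fun _ => B + k * C) : Set (Q × (Fin d → ℤ))), f n k = x :=
      (big k).mono fun n hn => ⟨_, ⟨trivial, fun i => (hf1 n k hn i).1,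
        fun i => (hf1 n k hn i).2⟩, rfl⟩
    obtain ⟨x, -, hx⟩ := (Ultrafilter.eventually_exists_mem_iff fin).1 this
    exact ⟨x, hx⟩
  choose x hx using lim
  have nn : ∀ k i, 0 ≤ (x k).2 i := by
    intro k i
    obtain ⟨n, h1, h2⟩ := ((big k).and (hx k)).exists
    exact h2 ▸ (hf1 n k h1 i).1
  obtain ⟨s, hs⟩ := Finite.exists_infinite_fiber fun k => (x k).1
  have hinf : ((fun k => (x k).1) ⁻¹' {s}).Infinite := Set.infinite_coe_iff.1 hs
  let e := Nat.nth fun k => k ∈ (fun k => (x k).1) ⁻¹' {s}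
  obtain ⟨a, b, hab, h⟩ := wellQuasiOrdered_le (α := Fin d → ℕ)
    fun k i => ((x (e k)).2 i).toNat
  obtain ⟨n, h1, h2, h3⟩ := ((big (e b)).and ((hx (e a)).and (hx (e b)))).exists
  refine hf2 n (e a) (e b) (Nat.nth_strictMono hinf hab) h1 ?_ ?_
  · rw [h2, h3]
    exact (Nat.nth_mem_of_infinite hinf a).trans (Nat.nth_mem_of_infinite hinf b).symm
  · rw [h2, h3]
    intro i
    have := h i
    have := nn (e a) i
    have := nn (e b) i
    simp only at *
    omega

theorem eff_le {C : ℕ} {s : List (Tr Q A d)} (h : ∀ t ∈ s, ∀ i, t.upd i ≤ C) (i : Fin d) :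
    eff s i ≤ s.length * C := by
  induction s with
  | nil => simp
  | cons t s ih =>
    have a := h t (by simp) i
    have b := ih fun u hu => h u (by simp [hu])
    simp only [eff_cons, Pi.add_apply, List.length_cons]
    push_cast
    linarith

def Pmp (Q A : Type) (d C B n : ℕ) : Prop := ∀ (q : Q) (v : Fin d → ℤ) (s : List (Tr Q A d)),
  0 ≤ v → (∀ i, v i ≤ B) → (∀ t ∈ s, ∀ i, t.upd i ≤ C) → Valid q v s → s.length = n →
    ∃ x g y, s = x ++ g ++ y ∧ g ≠ [] ∧ last (last q x) g = last q x ∧ 0 ≤ eff g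

theorem exists_pmp [Finite Q] (C B : ℕ) : ∃ n, Pmp Q A d C B n := by
  obtain ⟨n, hn⟩ := dickson (Q := Q) (d := d) C B
  refine ⟨n, fun q v s h0 hB hC hv hl => ?_⟩
  obtain ⟨p, r, h1, h2, h3, h4⟩ := hn (fun k => (last q (s.take k), v + eff (s.take k))) (by
    intro k hk i
    constructor
    · rw [← List.take_append_drop k s, valid_append] at hv
      exact hv.1.nonneg h0 i
    · have a := eff_le (C := C) (s := s.take k) (fun t ht => hC t (List.mem_of_mem_take ht)) i
      rw [List.length_take, min_eq_left (by omega)] at a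
      have := hB i
      simp only [Pi.add_apply]; linarith)
  have e : s.take r = s.take p ++ (s.take r).drop p := by
    conv_lhs => rw [← List.take_append_drop p (s.take r)]
    rw [List.take_take, min_eq_left h1.le]
  refine ⟨s.take p, (s.take r).drop p, s.drop r, by rw [← e]; simp, ?_, ?_, ?_⟩
  · intro h
    have := congrArg List.length h
    simp at this; omega
  · simp only at h3
    rw [← last_append, ← e, h3]
  · simp only at h4
    rw [e, eff_append, ← add_assoc] at h4
    simpa using h4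

structure Seg (Q A : Type) (d : ℕ) where
  x : List (Tr Q A d)
  g : List (Tr Q A d)
  y : List (Tr Q A d)
  K : ℕ

def Seg.run (s : Seg Q A d) (r : ℕ) : List (Tr Q A d) := s.x ++ s.g ++ rp (s.K - r) s.g ++ s.y

variable {ι : Type}

def SegOK (S : ι → Prop) (q : Q) (p : ι × ℕ × ℕ) (s : Seg Q (ι × Bool) d) : Prop :=
  last (last q s.x) s.g = last q s.x ∧ 0 ≤ eff s.g ∧ 2 ≤ s.K ∧ (S p.1 → s.g ≠ []) ∧
  ∀ r ≤ s.K, ∃ m, m + r * s.g.length = p.2.2 ∧ (s.run r).map Tr.lab =
    List.replicate m (p.1, true) ++ List.replicate p.2.2 (p.1, false)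

inductive Ch (T : Set (Tr Q (ι × Bool) d)) (S : ι → Prop) :
    Q → (Fin d → ℤ) → List (ι × ℕ × ℕ) → List (Seg Q (ι × Bool) d) → Q → Prop
  | nil (q v) : Ch T S q v [] [] q
  | cons {q v p s ps ss q'} : SegOK S q p s → Valid q v (s.x ++ s.g ++ s.y) →
      (∀ t ∈ s.x ++ s.g ++ s.y, t ∈ T) →
      Ch T S (last q (s.x ++ s.g ++ s.y)) (v + eff (s.x ++ s.g ++ s.y)) ps ss q' →
      Ch T S q v (p :: ps) (s :: ss) q'

theorem SegOK.run {S : ι → Prop} {q : Q} {p : ι × ℕ × ℕ} {s : Seg Q (ι × Bool) d}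
    (h : SegOK S q p s) {v : Fin d → ℤ} (hv : Valid q v (s.x ++ s.g ++ s.y)) (r : ℕ) :
    Valid q v (s.run r) ∧ last q (s.run r) = last q (s.x ++ s.g ++ s.y) ∧
      eff (s.x ++ s.g ++ s.y) ≤ eff (s.run r) := by
  obtain ⟨h1, h2, -⟩ := h
  have e := rp_eff h2 (s.K - r)
  simp only [Seg.run, valid_append, last_append, h1, rp_last h1, eff_append] at hv ⊢
  refine ⟨⟨⟨hv.1, (rp_valid h1 h2 hv.1.2 _).mono (by gcongr; simpa using h2)⟩, hv.2.mono ?_⟩,
    trivial, ?_⟩
  · intro i; have := e i; simp only [Pi.add_apply, Pi.zero_apply] at *; omega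
  · intro i; have := e i; simp only [Pi.add_apply, Pi.zero_apply] at *; omega

theorem run_mem {T : Set (Tr Q (ι × Bool) d)} {s : Seg Q (ι × Bool) d}
    (h : ∀ t ∈ s.x ++ s.g ++ s.y, t ∈ T) (r : ℕ) : ∀ t ∈ s.run r, t ∈ T := by
  intro t ht
  simp only [Seg.run, List.mem_append, rp, List.mem_flatten, List.mem_replicate] at ht h
  rcases ht with (h1 | ⟨l, ⟨-, rfl⟩, h1⟩) | h1
  · exact h t (Or.inl h1)
  · exact h t (Or.inl (Or.inr h1))
  · exact h t (Or.inr h1)

def full (ss : List (Seg Q (ι × Bool) d)) : List (Tr Q (ι × Bool) d) := ss.flatMap fun s => s.run 0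

open Classical in
noncomputable def word (S : ι → Prop) (ps : List (ι × ℕ × ℕ)) : List (ι × Bool) :=
  ps.flatMap fun p => List.replicate (if S p.1 then p.2.1 else p.2.2) (p.1, true) ++
    List.replicate p.2.2 (p.1, false)

theorem Ch.full {T : Set (Tr Q (ι × Bool) d)} {S : ι → Prop} {q q' : Q} {v : Fin d → ℤ}
    {ps : List (ι × ℕ × ℕ)} {ss : List (Seg Q (ι × Bool) d)} (h : Ch T S q v ps ss q') :
    ∀ w, v ≤ w → (∀ t ∈ full ss, t ∈ T) ∧ Valid q w (full ss) ∧
      (full ss).map Tr.lab = word (fun _ => False) ps ∧ last q (full ss) = q' := by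
  induction h with
  | nil q v => intro w _; simp [Vass.full, word, Valid, last]
  | @cons q v p s ps ss q' h1 h2 h3 _ ih =>
    intro w hw
    obtain ⟨a1, a2, a3⟩ := h1.run (h2.mono hw) 0
    obtain ⟨b1, b2, b3, b4⟩ := ih (w + eff (s.run 0)) (by gcongr)
    obtain ⟨m, c1, c2⟩ := h1.2.2.2.2 0 (by omega)
    simp only [Vass.full, List.flatMap_cons, word] at *
    refine ⟨fun t ht => (List.mem_append.1 ht).elim (run_mem h3 0 t) (b1 t), ?_, ?_, ?_⟩
    · rw [valid_append, a2]; exact ⟨a1, b2⟩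
    · rw [List.map_append, c2, b3]; simp at c1; simp [c1]
    · rw [last_append, a2, b4]

def Good (Q A : Type) (d C : ℕ) : ℕ → List (ι × ℕ × ℕ) → Prop
  | _, [] => True
  | B, p :: ps => Pmp Q A d C B p.2.1 ∧ p.2.2 = p.2.1 + 2 * p.2.1.factorial ∧
      Good Q A d C (B + 2 * p.2.2 * C) ps

theorem exists_good [Finite Q] (C : ℕ) (l : List ι) : ∀ B, ∃ ps : List (ι × ℕ × ℕ),
    ps.map Prod.fst = l ∧ Good Q A d C B ps := by
  induction l with
  | nil => intro B; exact ⟨[], rfl, trivial⟩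
  | cons t l ih =>
    intro B
    obtain ⟨n, hn⟩ := exists_pmp (Q := Q) (A := A) (d := d) C B
    obtain ⟨ps, h1, h2⟩ := ih (B + 2 * (n + 2 * n.factorial) * C)
    exact ⟨(t, n, n + 2 * n.factorial) :: ps, by simp [h1], hn, rfl, h2⟩

theorem map_rp {g : List (Tr Q A d)} {a : A} (h : g.map Tr.lab = List.replicate g.length a)
    (i : ℕ) : (rp i g).map Tr.lab = List.replicate (i * g.length) a := by
  induction i with
  | zero => simp [rp]
  | succ i ih => rw [rp_succ, List.map_append, ih, h, Nat.succ_mul, List.replicate_add]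

theorem exists_ch {T : Set (Tr Q (ι × Bool) d)} {C : ℕ} (hC : ∀ t ∈ T, ∀ i, t.upd i ≤ C)
    (S : ι → Prop) (ps : List (ι × ℕ × ℕ)) : ∀ (B : ℕ) (q : Q) (v : Fin d → ℤ)
    (s : List (Tr Q (ι × Bool) d)), Good Q (ι × Bool) d C B ps → 0 ≤ v → (∀ i, v i ≤ B) →
    (∀ t ∈ s, t ∈ T) → Valid q v s → s.map Tr.lab = word S ps →
      ∃ ss, Ch T S q v ps ss (last q s) := by
  induction ps with
  | nil =>
    intro B q v s _ _ _ _ _ h
    obtain rfl : s = [] := by simpa [word] using h
    exact ⟨[], Ch.nil _ _⟩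
  | cons p ps ih =>
    rintro B q v s ⟨g1, g2, g3⟩ h0 hB hT hv h
    simp only [word, List.flatMap_cons] at h
    obtain ⟨s1, s2, rfl, e1, e2⟩ := List.map_eq_append_iff.1 h
    rw [valid_append] at hv
    have hl : s1.length ≤ 2 * p.2.2 := by
      have := congrArg List.length e1
      simp only [List.length_map, List.length_append, List.length_replicate] at this
      split_ifs at this <;> omega
    obtain ⟨ss, hss⟩ := ih _ _ _ s2 g3 (hv.1.nonneg h0) (by
      intro i
      have a := eff_le (C := C) (s := s1) (fun t ht => hC t (hT t (by simp [ht]))) i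
      have b := hB i
      have c : (s1.length : ℤ) * C ≤ 2 * p.2.2 * C := by
        have : (s1.length : ℤ) ≤ 2 * p.2.2 := by exact_mod_cast hl
        gcongr
      simp only [Pi.add_apply]; push_cast; linarith) (fun t ht => hT t (by simp [ht])) hv.2 e2
    rw [last_append]
    have hT1 : ∀ t ∈ s1, t ∈ T := fun t ht => hT t (by simp [ht])
    by_cases hS : S p.1
    · rw [if_pos hS] at e1
      obtain ⟨sa, sb, rfl, e3, e4⟩ := List.map_eq_append_iff.1 e1
      have hl' : sa.length = p.2.1 := by simpa using congrArg List.length e3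
      obtain ⟨x, g, y, rfl, a1, a2, a3⟩ := g1 q v sa h0 hB
        (fun t ht => hC t (hT1 t (by simp [ht]))) (valid_append.1 hv.1).1 hl'
      have gp : 0 < g.length := List.length_pos_iff.2 a1
      simp only [List.length_append] at hl'
      obtain ⟨c, hc⟩ := Nat.dvd_factorial gp (show g.length ≤ p.2.1 by omega)
      have cp : 0 < c := by
        have := p.2.1.factorial_pos
        rcases c with _ | c <;> simp_all
      have lab : ∀ u : List (Tr Q (ι × Bool) d), (∀ t ∈ u, t ∈ x ++ g ++ y) →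
          u.map Tr.lab = List.replicate u.length (p.1, true) := by
        intro u hu
        rw [List.eq_replicate_iff]
        refine ⟨by simp, fun b hb => ?_⟩
        obtain ⟨t, ht, rfl⟩ := List.mem_map.1 hb
        have := List.mem_map_of_mem (f := Tr.lab) (hu t ht)
        rw [e3] at this
        exact (List.mem_replicate.1 this).2
      refine ⟨⟨x, g, y ++ sb, 2 * c⟩ :: ss, Ch.cons ⟨a2, a3, by simp; omega, fun _ => a1, ?_⟩
        (by simpa using hv.1) (by simpa using hT1) (by simpa using hss)⟩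
      intro r hr
      obtain ⟨k, hk⟩ := Nat.exists_eq_add_of_le hr
      simp only at hk
      refine ⟨p.2.1 + k * g.length, by simp only; rw [g2, hc]; nlinarith, ?_⟩
      simp only [Seg.run, List.map_append, e4, show 2 * c - r = k by omega]
      rw [map_rp (lab g (by simp; tauto)), lab x (by simp; tauto), lab g (by simp; tauto),
        lab y (by simp; tauto), ← List.append_assoc]
      simp only [← List.replicate_add]
      congr 2; omega
    · rw [if_neg hS] at e1
      refine ⟨⟨s1, [], [], 2⟩ :: ss, Ch.cons ⟨rfl, by simp, le_rfl, fun h => absurd h hS, ?_⟩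
        (by simpa using hv.1) (by simpa using hT1) (by simpa using hss)⟩
      intro r _
      exact ⟨p.2.2, by simp, by simpa [Seg.run, rp] using e1⟩

theorem SegOK.mid {S : ι → Prop} {q : Q} {p : ι × ℕ × ℕ} {s : Seg Q (ι × Bool) d}
    (h : SegOK S q p s) {w w1 w2 : Fin d → ℤ} (h1 : Valid q w1 (s.run 2))
    (h2 : Valid q w2 (s.run 0)) (e : w + w = w1 + w2) : Valid q w (s.run 1) ∧
      eff (s.run 1) + eff (s.run 1) = eff (s.run 2) + eff (s.run 0) := by
  obtain ⟨a1, a2, a3, -⟩ := h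
  obtain ⟨k, hk⟩ := Nat.exists_eq_add_of_le' a3
  simp only [Seg.run, hk, show k + 2 - 2 = k from rfl, show k + 2 - 1 = k + 1 from rfl,
    show k + 2 - 0 = k + 1 + 1 from rfl, rp_succ, valid_append, last_append, a1, rp_last a1,
    eff_append] at h1 h2 ⊢
  refine ⟨⟨⟨⟨h1.1.1.1.mid h2.1.1.1 e, h1.1.1.2.mid h2.1.1.2 (by linear_combination e)⟩,
    h1.1.2.mid h2.1.2.1.1 (by linear_combination e), ?_⟩,
    h1.2.mid h2.2 (by linear_combination e)⟩, by abel⟩
  refine (h1.1.1.2.mid h2.1.1.2 (v := w + eff s.x) (by linear_combination e)).mono ?_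
  have := rp_eff a2 k
  intro i
  have := this i
  have := a2 i
  simp only [Pi.add_apply, Pi.zero_apply] at *
  omega

theorem Ch.mid [DecidableEq ι] {T : Set (Tr Q (ι × Bool) d)} {S1 S2 : ι → Prop} (i : ι)
    {q q1 : Q} {v1 : Fin d → ℤ} {ps : List (ι × ℕ × ℕ)} {ss1 : List (Seg Q (ι × Bool) d)}
    (P : ι → Prop) (h : Ch T S1 q v1 ps ss1 q1) : ∀ {q2 v2 ss2}, Ch T S2 q v2 ps ss2 q2 →
    Vass.full ss1 = Vass.full ss2 → ∀ w w1 w2, v1 ≤ w1 → v2 ≤ w2 → w + w = w1 + w2 →
    ∃ σ, (∀ t ∈ σ, t ∈ T) ∧ Valid q w σ ∧ last q σ = q1 ∧ ∀ t,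
      (σ.map Tr.lab).count (t, true) ≤ (σ.map Tr.lab).count (t, false) ∧
      (t ∈ ps.map Prod.fst → P t → (if t = i then S2 t else S1 t) →
        (σ.map Tr.lab).count (t, true) < (σ.map Tr.lab).count (t, false)) := by
  induction h with
  | nil q v => intro _ _ _ _ _ w _ _ _ _ _; exact ⟨[], by simp, trivial, rfl, by simp⟩
  | @cons q v p s ps ss q' h1 h2 h3 _ ih =>
    intro q2 v2 ss2 h' ef w w1 w2 l1 l2 e
    cases h' with
    | @cons _ _ _ s' _ ss' _ h1' h2' h3' h4' =>
    simp only [Vass.full, List.flatMap_cons] at ef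
    obtain ⟨e0, ef⟩ := List.append_inj ef (by
      obtain ⟨m, c1, c2⟩ := h1.2.2.2.2 0 (by omega)
      obtain ⟨m', c3, c4⟩ := h1'.2.2.2.2 0 (by omega)
      have a := congrArg List.length c2
      have b := congrArg List.length c4
      simp at *; omega)
    have el : last q (s'.x ++ s'.g ++ s'.y) = last q (s.x ++ s.g ++ s.y) := by
      rw [← (h1.run h2 0).2.1, ← (h1'.run h2' 0).2.1, e0]
    rw [el] at h4'
    have key : ∃ σ u1 u2 m, (∀ t ∈ σ, t ∈ T) ∧ Valid q w σ ∧
        last q σ = last q (s.x ++ s.g ++ s.y) ∧ eff (s.x ++ s.g ++ s.y) ≤ u1 ∧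
        eff (s'.x ++ s'.g ++ s'.y) ≤ u2 ∧ eff σ + eff σ = u1 + u2 ∧
        σ.map Tr.lab = List.replicate m (p.1, true) ++ List.replicate p.2.2 (p.1, false) ∧
        m ≤ p.2.2 ∧ (P p.1 → (if p.1 = i then S2 p.1 else S1 p.1) → m < p.2.2) := by
      have a0 := h1.run (h2.mono l1)
      have b0 := h1'.run (h2'.mono l2)
      by_cases hi : p.1 = i
      · obtain ⟨m, c1, c2⟩ := h1'.2.2.2.2 1 (by have := h1'.2.2.1; omega)
        obtain ⟨f1, f2⟩ := h1'.mid (w := w) (b0 2).1 (e0 ▸ (a0 0).1) (by rw [e, add_comm])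
        refine ⟨s'.run 1, eff (s.run 0), eff (s'.run 2), m, run_mem h3' 1, f1,
          (b0 1).2.1.trans el, (a0 0).2.2, (b0 2).2.2, by rw [f2, e0, add_comm], c2, by omega,
          fun _ h => ?_⟩
        rw [if_pos hi] at h
        have := List.length_pos_iff.2 (h1'.2.2.2.1 h)
        omega
      · obtain ⟨m, c1, c2⟩ := h1.2.2.2.2 1 (by have := h1.2.2.1; omega)
        obtain ⟨f1, f2⟩ := h1.mid (w := w) (a0 2).1 (e0 ▸ (b0 0).1) e
        refine ⟨s.run 1, eff (s.run 2), eff (s'.run 0), m, run_mem h3 1, f1,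
          (a0 1).2.1, (a0 2).2.2, (b0 0).2.2, by rw [f2, e0], c2, by omega, fun _ h => ?_⟩
        rw [if_neg hi] at h
        have := List.length_pos_iff.2 (h1.2.2.2.1 h)
        omega
    obtain ⟨σ, u1, u2, m, k1, k2, k3, k4, k5, k6, k7, k8, k9⟩ := key
    obtain ⟨τ, j1, j2, j3, j4⟩ := ih h4' ef (w + eff σ) (w1 + u1) (w2 + u2) (by gcongr)
      (by gcongr) (by linear_combination e + k6)
    refine ⟨σ ++ τ, fun t ht => (List.mem_append.1 ht).elim (k1 t) (j1 t), ?_, ?_, fun t => ?_⟩
    · rw [valid_append, k3]; exact ⟨k2, j2⟩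
    · rw [last_append, k3, j3]
    · obtain ⟨j5, j6⟩ := j4 t
      simp only [List.map_append, k7, List.count_append, List.count_replicate, List.map_cons,
        List.mem_cons]
      by_cases ht : p.1 = t
      · subst ht
        simp only [beq_self_eq_true, if_true, beq_iff_eq, Prod.mk.injEq, Bool.false_eq_true,
          Bool.true_eq_false, and_false, if_false]
        exact ⟨by omega, fun _ a b => by have := k9 a b; omega⟩
      · simp only [beq_iff_eq, Prod.mk.injEq, ht, false_and, if_false]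
        exact ⟨by omega, fun a b c => by
          have := j6 (a.resolve_left fun h => ht h.symm) b c; omega⟩

end Pool.Agent.H24.Vass
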