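import Pool.Agent.H24.Vass1

namespace Pool.Agent.H24.Vass

variable {ι : Type} [DecidableEq ι]

def dl (g : ι) (a : ι × Bool) : Fin 1 → ℤ := fun _ => if a.1 = g then (if a.2 then 1 else -1) else 0

def tr (q : Option ι) (g : ι) (a : ι × Bool) : Tr (Option ι) (ι × Bool) 1 := ⟨q, a, dl g a, some g⟩

def gv [Finite ι] (G : Finset ι) : VASS (ι × Bool) where
  d := 1
  Q := Option ι
  fin := inferInstance
  T := {t | ∃ g ∈ G, ∃ a, t = tr none g a ∨ t = tr (some g) g a}
  Tfin := by
    refine (((Set.finite_range fun x : ι × (ι × Bool) => tr none x.1 x.2)).union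
      (Set.finite_range fun x : ι × (ι × Bool) => tr (some x.1) x.1 x.2)).subset ?_
    rintro t ⟨g, -, a, rfl | rfl⟩
    · exact Or.inl ⟨(g, a), rfl⟩
    · exact Or.inr ⟨(g, a), rfl⟩
  q0 := none
  c0 := 0
  F := Set.univ

def canon (g : ι) : List (ι × Bool) → List (Tr (Option ι) (ι × Bool) 1)
  | [] => []
  | a :: w => tr none g a :: w.map (tr (some g) g)

theorem det_some [Finite ι] {G : Finset ι} {g : ι} {s : List (Tr (Option ι) (ι × Bool) 1)}
    (h : ∀ t ∈ s, t ∈ (gv G).T) {v : Fin 1 → ℤ} (hv : Valid (some g) v s) :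
    s = (s.map Tr.lab).map (tr (some g) g) := by
  induction s generalizing v with
  | nil => rfl
  | cons t s ih =>
    obtain ⟨g', -, a, rfl | rfl⟩ := h t (by simp)
    · exact absurd hv.1 (by simp [tr])
    · obtain rfl : g' = g := by simpa [tr] using hv.1
      rw [List.map_cons, List.map_cons, ← ih (fun u hu => h u (by simp [hu])) hv.2.2]
      rfl

theorem det_none [Finite ι] {G : Finset ι} (hG : G.Nonempty) {w : List (ι × Bool)}
    {s : List (Tr (Option ι) (ι × Bool) 1)} (h : s ∈ (gv G).runs w) : ∃ g ∈ G, s = canon g w := by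
  obtain ⟨h1, h2, rfl, -⟩ := h
  cases s with
  | nil => obtain ⟨g, hg⟩ := hG; exact ⟨g, hg, rfl⟩
  | cons t s =>
    obtain ⟨g, hg, a, rfl | rfl⟩ := h1 t List.mem_cons_self
    · refine ⟨g, hg, ?_⟩
      have := det_some (G := G) (fun u hu => h1 u (List.mem_cons_of_mem _ hu)) h2.2.2
      exact congrArg (tr none g a :: ·) this
    · exact absurd h2.1 (by simp [tr, gv])

theorem gv_amb [Finite ι] {G : Finset ι} (hG : G.Nonempty) : (gv G).Amb G.card := by
  intro w
  have : (gv G).runs w ⊆ (fun g => canon g w) '' (G : Set ι) := fun s hs => by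
    obtain ⟨g, a, b⟩ := det_none hG hs
    exact ⟨g, a, b.symm⟩
  refine (Set.encard_le_encard this).trans ((Set.encard_image_le _ _).trans ?_)
  simp

theorem eff_tr (q : Option ι) (g : ι) (w : List (ι × Bool)) (i : Fin 1) :
    eff (w.map (tr q g)) i = (w.count (g, true) : ℤ) - w.count (g, false) := by
  induction w with
  | nil => simp
  | cons a w ih =>
    obtain ⟨a, b⟩ := a
    simp only [List.map_cons, eff_cons, Pi.add_apply, ih, List.count_cons, tr, dl]
    by_cases h : a = g <;> cases b <;> simp [h] <;> ring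

theorem valid_canon {g : ι} {w : List (ι × Bool)} {v : Fin 1 → ℤ} :
    Valid none v (canon g w) ↔ Valid (some g) v (w.map (tr (some g) g)) := by
  cases w <;> simp [canon, Valid, tr]

theorem gv_count [Finite ι] {G : Finset ι} (hG : G.Nonempty) {w : List (ι × Bool)}
    (h : w ∈ (gv G).lang) : ∃ g ∈ G, w.count (g, false) ≤ w.count (g, true) := by
  obtain ⟨s, hs⟩ := h
  obtain ⟨g, hg, rfl⟩ := det_none hG hs
  have := (valid_canon.1 hs.2.1).nonneg (fun i => by simp [gv]) 0
  simp only [Pi.add_apply, eff_tr, gv, Pi.zero_apply] at this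
  exact ⟨g, hg, by omega⟩

theorem last_tr (g : ι) (w : List (ι × Bool)) : last (some g) (w.map (tr (some g) g)) = some g := by
  induction w with
  | nil => rfl
  | cons a w ih => exact ih

theorem valid_rep (g t : ι) (b : Bool) (m : ℕ) (v : Fin 1 → ℤ) (h0 : 0 ≤ v 0)
    (h : t = g → b = false → (m : ℤ) ≤ v 0) :
    Valid (some g) v ((List.replicate m (t, b)).map (tr (some g) g)) := by
  induction m generalizing v with
  | zero => trivial
  | succ m ih =>
    have k : 0 ≤ (v + dl g (t, b)) 0 ∧ (t = g → b = false → (m : ℤ) ≤ (v + dl g (t, b)) 0) := by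
      simp only [Pi.add_apply, dl]
      by_cases ht : t = g <;> cases b <;> simp [ht] at h ⊢ <;> omega
    exact ⟨rfl, fun i => by rw [Subsingleton.elim i 0]; exact k.1, ih _ k.1 k.2⟩

theorem valid_word {S : ι → Prop} {g : ι} (hg : ¬ S g) (ps : List (ι × ℕ × ℕ)) :
    ∀ v : Fin 1 → ℤ, 0 ≤ v 0 → Valid (some g) v ((word S ps).map (tr (some g) g)) := by
  induction ps with
  | nil => intro v _; trivial
  | cons p ps ih =>
    intro v hv
    simp only [word, List.flatMap_cons, List.map_append, valid_append, last_append, last_tr]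
    refine ⟨⟨valid_rep _ _ _ _ _ hv (by simp), valid_rep _ _ _ _ _ ?_ ?_⟩, ih _ ?_⟩
    · simp only [Pi.add_apply, eff_tr, List.count_replicate]; simp; positivity
    · rintro rfl -
      simp only [Pi.add_apply, eff_tr, List.count_replicate]; simp [hg, hv]
    · simp only [Pi.add_apply, eff_tr, eff_append, List.count_replicate]
      by_cases h : p.1 = g
      · subst h; simp [hg, hv]
      · simp [h, hv]

theorem canon_lab (g : ι) (w : List (ι × Bool)) : (canon g w).map Tr.lab = w := by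
  cases w with
  | nil => rfl
  | cons a w => simp [canon, tr, Function.comp_def]

theorem canon_mem (g : ι) (w : List (ι × Bool)) : ∀ t ∈ canon g w,
    ∃ a, t = tr none g a ∨ t = tr (some g) g a := by
  cases w with
  | nil => simp [canon]
  | cons a w =>
    intro t ht
    simp only [canon, List.mem_cons, List.mem_map] at ht
    rcases ht with rfl | ⟨b, -, rfl⟩
    · exact ⟨a, Or.inl rfl⟩
    · exact ⟨b, Or.inr rfl⟩

theorem word_mem [Finite ι] {G : Finset ι} {S : ι → Prop} {g : ι} (hG : g ∈ G) (hg : ¬ S g)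
    (ps : List (ι × ℕ × ℕ)) : word S ps ∈ (gv G).lang :=
  ⟨canon g (word S ps), fun t ht => ⟨g, hG, canon_mem g _ t ht⟩,
    valid_canon.2 (valid_word hg ps _ (by simp [gv])), canon_lab _ _, trivial⟩

theorem lower [Fintype ι] {G H : Finset ι} (hG : G.Nonempty) (hH : H.Nonempty) (hd : Disjoint G H)
    (V : VASS (ι × Bool)) (hV : V.lang = (gv G).lang ∩ (gv H).lang) {n : ℕ} (hn : V.Amb n) :
    G.card * H.card ≤ n := by
  have := V.fin
  obtain ⟨C, hC⟩ : ∃ C : ℕ, ∀ t ∈ V.T, ∀ i, t.upd i ≤ C := by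
    obtain ⟨C, hC⟩ := ((V.Tfin.prod (Set.finite_univ (α := Fin V.d))).image
      fun x => (x.1.upd x.2).toNat).bddAbove
    refine ⟨C, fun t ht i => ?_⟩
    have := hC ⟨(t, i), ⟨ht, trivial⟩, rfl⟩
    simp only at this
    omega
  obtain ⟨B, hB⟩ : ∃ B : ℕ, ∀ i, (V.c0 i : ℤ) ≤ B :=
    ⟨Finset.univ.sup V.c0, fun i => by exact_mod_cast Finset.le_sup (Finset.mem_univ i)⟩
  obtain ⟨ps, h1, h2⟩ := exists_good (Q := V.Q) (A := ι × Bool) (d := V.d) C
    (Finset.univ : Finset ι).toList B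
  have ex : ∀ x : G × H, ∃ ss q, q ∈ V.F ∧ Ch V.T (fun t => t ≠ x.1.1 ∧ t ≠ x.2.1) V.q0
      (fun i => (V.c0 i : ℤ)) ps ss q := by
    rintro ⟨⟨i, hi⟩, ⟨j, hj⟩⟩
    have : word (fun t => t ≠ i ∧ t ≠ j) ps ∈ V.lang := by
      rw [hV]; exact ⟨word_mem hi (by simp) ps, word_mem hj (by simp) ps⟩
    obtain ⟨s, a1, a2, a3, a4⟩ := this
    obtain ⟨ss, hss⟩ := exists_ch hC _ ps B _ _ s h2 (fun i => by simp) hB a1 a2 a3
    exact ⟨ss, _, a4, hss⟩
  choose ss q hq hch using ex
  have inj : Function.Injective fun x => full (ss x) := by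
    intro x y e
    by_contra hne
    have hm : ∀ t, t ∈ ps.map Prod.fst := by simp [h1]
    by_cases hx : x.1 = y.1
    · have hy : x.2.1 ≠ y.2.1 := fun h => hne (Prod.ext hx (Subtype.ext h))
      obtain ⟨σ, a1, a2, a3, a4⟩ := (hch x).mid x.2.1 (· ∈ H) (hch y) e _ _ _ le_rfl le_rfl rfl
      have : σ.map Tr.lab ∈ V.lang := ⟨σ, a1, a2, rfl, a3 ▸ hq x⟩
      rw [hV] at this
      obtain ⟨g, hg, b⟩ := gv_count hH this.2
      refine absurd ((a4 g).2 (hm g) hg ?_) (not_lt.2 b)
      have nG : ∀ z : G, g ≠ z.1 := fun z h => Finset.disjoint_left.1 hd z.2 (h ▸ hg)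
      split_ifs with h
      · exact ⟨nG _, h ▸ hy⟩
      · exact ⟨nG _, h⟩
    · have hy : x.1.1 ≠ y.1.1 := fun h => hx (Subtype.ext h)
      obtain ⟨σ, a1, a2, a3, a4⟩ := (hch x).mid x.1.1 (· ∈ G) (hch y) e _ _ _ le_rfl le_rfl rfl
      have : σ.map Tr.lab ∈ V.lang := ⟨σ, a1, a2, rfl, a3 ▸ hq x⟩
      rw [hV] at this
      obtain ⟨g, hg, b⟩ := gv_count hG this.1
      refine absurd ((a4 g).2 (hm g) hg ?_) (not_lt.2 b)
      have nH : ∀ z : H, g ≠ z.1 := fun z h => Finset.disjoint_left.1 hd hg (h ▸ z.2)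
      split_ifs with h
      · exact ⟨h ▸ hy, nH _⟩
      · exact ⟨h, nH _⟩
  have sub : Set.range (fun x => full (ss x)) ⊆ V.runs (word (fun _ => False) ps) := by
    rintro _ ⟨x, rfl⟩
    obtain ⟨a1, a2, a3, a4⟩ := (hch x).full _ le_rfl
    exact ⟨a1, a2, a3, a4.symm ▸ hq x⟩
  have := (Set.encard_le_encard sub).trans (hn _)
  rw [← Set.image_univ, inj.encard_image] at this
  simp only [Set.encard_univ, ENat.card_eq_coe_fintype_card, Fintype.card_prod,
    Fintype.card_coe] at this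
  exact_mod_cast this

end Pool.Agent.H24.Vass
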