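import Mathlib

/-! Vector addition systems with states, acceptance by states, ambiguity. -/

namespace Pool.Agent.H24.Vass

/-- A transition `(q, a, u, q')`. -/
structure Tr (Q A : Type) (d : ℕ) where
  src : Q
  lab : A
  upd : Fin d → ℤ
  dst : Q

/-- A VASS over the alphabet `A`. -/
structure VASS (A : Type) where
  d : ℕ
  Q : Type
  fin : Finite Q
  T : Set (Tr Q A d)
  Tfin : T.Finite
  q0 : Q
  c0 : Fin d → ℕ
  F : Set Q

variable {Q A : Type} {d : ℕ}

/-- The transitions can be fired in turn from the configuration `q(v)`; counters stay `≥ 0`. -/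
def Valid : Q → (Fin d → ℤ) → List (Tr Q A d) → Prop
  | _, _, [] => True
  | q, v, t :: s => t.src = q ∧ 0 ≤ v + t.upd ∧ Valid t.dst (v + t.upd) s

/-- The state reached from `q` after a sequence of transitions. -/
def last : Q → List (Tr Q A d) → Q
  | q, [] => q
  | _, t :: s => last t.dst s

/-- The accepting runs on the word `w`. -/
def VASS.runs (V : VASS A) (w : List A) : Set (List (Tr V.Q A V.d)) :=
  {s | (∀ t ∈ s, t ∈ V.T) ∧ Valid V.q0 (fun i => (V.c0 i : ℤ)) s ∧ s.map Tr.lab = w ∧
    last V.q0 s ∈ V.F}

/-- The language: words having an accepting run. -/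
def VASS.lang (V : VASS A) : Set (List A) := {w | (V.runs w).Nonempty}

/-- `k`-ambiguous: every word has at most `k` accepting runs. -/
def VASS.Amb (V : VASS A) (k : ℕ) : Prop := ∀ w, (V.runs w).encard ≤ k

end Pool.Agent.H24.Vass
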