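import Mathlib

namespace Pool.Agent.H24.WdDefs
open MeasureTheory

/-! A bigraph is given by finite types `V1`, `V2` and its edge relation `E : V1 → V2 → Prop`. -/

open Classical in
/-- The density `t(G, W)`. -/
noncomputable def dens {V1 V2 X Y : Type} [Fintype V1] [Fintype V2] [MeasurableSpace X]
    [MeasurableSpace Y] (E : V1 → V2 → Prop) (μ : Measure X) (ν : Measure Y) (W : X → Y → ℝ) : ℝ :=
  ∫ p : (V1 → X) × (V2 → Y), ∏ v, ∏ w, (if E v w then W (p.1 v) (p.2 w) else 1)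
    ∂((Measure.pi fun _ => μ).prod (Measure.pi fun _ => ν))

/-- `t(ρ, W)` for the one-edge bigraph `ρ`. -/
noncomputable def rho {X Y : Type} [MeasurableSpace X] [MeasurableSpace Y] (μ : Measure X)
    (ν : Measure Y) (W : X → Y → ℝ) : ℝ :=
  dens (fun (_ : Fin 1) (_ : Fin 1) => True) μ ν W

/-- The number of edges. -/
noncomputable def ecount {V1 V2 : Type} (E : V1 → V2 → Prop) : ℕ :=
  {p : V1 × V2 | E p.1 p.2}.ncard

/-- `W` is a non-zero biregular bigraphon on the probability spaces `(X, μ)`, `(Y, ν)`. -/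
structure Admissible {X Y : Type} [MeasurableSpace X] [MeasurableSpace Y] (μ : Measure X)
    (ν : Measure Y) (W : X → Y → ℝ) : Prop where
  prob1 : IsProbabilityMeasure μ
  prob2 : IsProbabilityMeasure ν
  meas : Measurable (Function.uncurry W)
  bdd : ∃ C : ℝ, ∀ x y, 0 ≤ W x y ∧ W x y ≤ C
  nonzero : ¬ (Function.uncurry W =ᵐ[μ.prod ν] 0)
  reg1 : ∀ᵐ x ∂μ, ∫ y, W x y ∂ν = rho μ ν W
  reg2 : ∀ᵐ y ∂ν, ∫ x, W x y ∂μ = rho μ ν W

/-- The bigraph `E` weakly dominates the bigraph `F`. -/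
def WeakDom {V1 V2 U1 U2 : Type} [Fintype V1] [Fintype V2] [Fintype U1] [Fintype U2]
    (E : V1 → V2 → Prop) (F : U1 → U2 → Prop) : Prop :=
  ∀ (X Y : Type) [MeasurableSpace X] [MeasurableSpace Y] (μ : Measure X) (ν : Measure Y)
    (W : X → Y → ℝ), Admissible μ ν W →
      dens F μ ν W / rho μ ν W ^ ecount F ≤ dens E μ ν W / rho μ ν W ^ ecount E

/-- The sub-bigraph induced on `U`. -/
def ind {V1 V2 : Type} (E : V1 → V2 → Prop) (U : Finset (V1 ⊕ V2)) :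
    {v // Sum.inl v ∈ U} → {w // Sum.inr w ∈ U} → Prop := fun v w => E v.1 w.1

/-- Adjacency on `V(G) = V1 ⊕ V2`. -/
def badj {V1 V2 : Type} (E : V1 → V2 → Prop) : V1 ⊕ V2 → V1 ⊕ V2 → Prop
  | Sum.inl a, Sum.inr b => E a b
  | Sum.inr b, Sum.inl a => E a b
  | Sum.inl _, Sum.inl _ => False
  | Sum.inr _, Sum.inr _ => False

/-- `G` is connected. -/
def Conn {V1 V2 : Type} (E : V1 → V2 → Prop) : Prop :=
  ∀ u v : V1 ⊕ V2, Relation.ReflTransGen (badj E) u v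

/-- Deleting from `U` one vertex outside `S` that has fewer than two neighbours in `U`. -/
def Step {V1 V2 : Type} [DecidableEq V1] [DecidableEq V2] (E : V1 → V2 → Prop)
    (S U U' : Finset (V1 ⊕ V2)) : Prop :=
  ∃ v ∈ U, v ∉ S ∧ (∀ a ∈ U, ∀ b ∈ U, badj E v a → badj E v b → a = b) ∧ U' = U.erase v

/-- `C` is the vertex set of the 2-core relative to `S` of `G|_U` (`S = ∅`: the 2-core). -/
def IsCore {V1 V2 : Type} [DecidableEq V1] [DecidableEq V2] (E : V1 → V2 → Prop)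
    (S U C : Finset (V1 ⊕ V2)) : Prop :=
  Relation.ReflTransGen (Step E S) U C ∧ ∀ C', ¬ Step E S C C'

/-- `(T, bag)` is a reflective tree decomposition. -/
structure Reflective {V1 V2 ι : Type} [DecidableEq V1] [DecidableEq V2] (E : V1 → V2 → Prop)
    (T : SimpleGraph ι) (bag : ι → Finset (V1 ⊕ V2)) : Prop where
  inj : Function.Injective bag
  tree : T.IsTree
  cover : ∀ v, ∃ t, v ∈ bag t
  edge : ∀ a b, E a b → ∃ t, Sum.inl a ∈ bag t ∧ Sum.inr b ∈ bag t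
  path : ∀ t1 t2 (p : T.Walk t1 t2), p.IsPath → ∀ t3 ∈ p.support, bag t1 ∩ bag t2 ⊆ bag t3
  refl : ∀ s t, T.Adj s t → ∃ C1 C2, IsCore E (bag s ∩ bag t) (bag s) C1 ∧
    IsCore E (bag s ∩ bag t) (bag t) C2 ∧ ∃ φ : V1 ⊕ V2 → V1 ⊕ V2,
      (∀ v ∈ C1, φ v ∈ C2) ∧ (∀ u ∈ C1, ∀ v ∈ C1, φ u = φ v → u = v) ∧
      (∀ w ∈ C2, ∃ v ∈ C1, φ v = w) ∧ (∀ v ∈ C1, (φ v).isLeft = v.isLeft) ∧
      (∀ v ∈ bag s ∩ bag t, φ v = v) ∧ ∀ u ∈ C1, ∀ v ∈ C1, (badj E (φ u) (φ v) ↔ badj E u v)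

end Pool.Agent.H24.WdDefs
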