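import Mathlib
import Pool.Agent.H24.WdDefs

namespace Pool.Agent.H24.Wd1
open Finset MeasureTheory Pool.Agent.H24.WdDefs

section Sums
variable {X : Type} [Fintype X]

theorem sum_cons {n : ℕ} (f : (Fin (n + 1) → X) → ℝ) :
    ∑ x, f x = ∑ a, ∑ y : Fin n → X, f (Fin.cons a y) := by
  rw [← (Fin.consEquiv (fun _ : Fin (n + 1) => X)).sum_comp, Fintype.sum_prod_type]
  rfl

theorem sum1 (f : (Fin 1 → X) → ℝ) : ∑ x, f x = ∑ a, f ![a] := by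
  rw [sum_cons]
  refine sum_congr rfl fun a _ => ?_
  rw [Fintype.sum_unique]
  congr 1

theorem sum3 (f : (Fin 3 → X) → ℝ) : ∑ x, f x = ∑ a, ∑ b, ∑ c, f ![a, b, c] := by
  rw [sum_cons]
  refine sum_congr rfl fun a _ => ?_
  rw [sum_cons]
  refine sum_congr rfl fun b _ => ?_
  rw [sum1]
  rfl

theorem sum4 (f : (Fin 4 → X) → ℝ) : ∑ x, f x = ∑ a, ∑ b, ∑ c, ∑ d, f ![a, b, c, d] := by
  rw [sum_cons]
  refine sum_congr rfl fun a _ => ?_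
  rw [sum3]
  rfl

theorem rot3 (f : X → X → X → ℝ) : ∑ a, ∑ b, ∑ c, f a b c = ∑ c, ∑ a, ∑ b, f a b c := by
  rw [sum_congr rfl (fun a _ => sum_comm), sum_comm]

theorem rot4 (f : X → X → X → X → ℝ) :
    ∑ a, ∑ b, ∑ c, ∑ d, f a b c d = ∑ d, ∑ a, ∑ b, ∑ c, f a b c d := by
  rw [sum_congr rfl (fun a _ => rot3 (f a)), sum_comm]

def c2 (A : X → X → ℝ) (a a' : X) : ℝ := ∑ b, A a b * A a' b
def p3 (A : X → X → ℝ) (a b : X) : ℝ := ∑ a', c2 A a a' * A a' b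
def p5 (A : X → X → ℝ) (a b : X) : ℝ := ∑ a', c2 A a a' * p3 A a' b

theorem big (A : X → X → ℝ) :
    ∑ a0, ∑ a1, ∑ a2, ∑ a3, ∑ b0, ∑ b1, ∑ b2, ∑ b3, A a0 b0 * A a0 b2 * (A a1 b0 * A a1 b1 *
      A a1 b2) * (A a2 b1 * A a2 b3) * (A a3 b0 * A a3 b3) =
      ∑ a, ∑ b, A a b * p3 A a b * p5 A a b := by
  have h1 : ∀ a0 a1 a2 a3 b0, ∑ b1, ∑ b2, ∑ b3, A a0 b0 * A a0 b2 * (A a1 b0 * A a1 b1 *
      A a1 b2) * (A a2 b1 * A a2 b3) * (A a3 b0 * A a3 b3) =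
      A a1 b0 * (c2 A a1 a0 * A a0 b0) * (c2 A a1 a2 * (c2 A a2 a3 * A a3 b0)) := by
    intro a0 a1 a2 a3 b0
    have : ∀ b1 b2 b3, A a0 b0 * A a0 b2 * (A a1 b0 * A a1 b1 *
      A a1 b2) * (A a2 b1 * A a2 b3) * (A a3 b0 * A a3 b3) = (A a0 b0 * A a1 b0 * A a3 b0) *
      (A a1 b1 * A a2 b1) * (A a1 b2 * A a0 b2) * (A a2 b3 * A a3 b3) := fun _ _ _ => by ring
    simp only [this, ← mul_sum, ← sum_mul, c2]
    ring
  simp only [h1]
  rw [sum_comm]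
  refine sum_congr rfl fun a1 _ => ?_
  rw [rot4]
  refine sum_congr rfl fun b0 _ => ?_
  simp only [← mul_sum, ← sum_mul, p3, p5]

theorem small (A : X → X → ℝ) (r : ℝ) (h1 : ∀ a, ∑ b, A a b = r) (h2 : ∀ b, ∑ a, A a b = r) :
    ∑ a0, ∑ a1, ∑ a2, ∑ b0, ∑ b1, ∑ b2, A a0 b0 * A a0 b2 * (A a1 b0 * A a1 b1 *
      A a1 b2) * A a2 b1 = (∑ a, ∑ b, A a b * p3 A a b) * r ^ 2 := by
  have h3 : ∀ a0 a1 a2 b0, ∑ b1, ∑ b2, A a0 b0 * A a0 b2 * (A a1 b0 * A a1 b1 *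
      A a1 b2) * A a2 b1 = A a1 b0 * (c2 A a1 a0 * A a0 b0) * c2 A a1 a2 := by
    intro a0 a1 a2 b0
    have : ∀ b1 b2, A a0 b0 * A a0 b2 * (A a1 b0 * A a1 b1 *
      A a1 b2) * A a2 b1 = (A a0 b0 * A a1 b0) *
      (A a1 b1 * A a2 b1) * (A a1 b2 * A a0 b2) := fun _ _ => by ring
    simp only [this, ← mul_sum, ← sum_mul, c2]
    ring
  have h4 : ∀ a1, ∑ a2, c2 A a1 a2 = r ^ 2 := by
    intro a1
    simp only [c2]
    rw [sum_comm]
    simp only [← mul_sum, h2, ← sum_mul, h1, sq]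
  simp only [h3]
  rw [sum_comm, sum_mul]
  refine sum_congr rfl fun a1 _ => ?_
  rw [rot3, sum_mul]
  refine sum_congr rfl fun b0 _ => ?_
  simp only [← mul_sum, ← sum_mul, p3, h4]

end Sums

section Conv
variable {N : ℕ}

noncomputable def K (s1 s2 t1 t2 : ℝ) (x y : Bool × Fin N) : ℝ :=
  if x.1 = y.1 then s1 + (if x.2 = y.2 then s2 else 0) else t1 + (if x.2 = y.2 then t2 else 0)

theorem conv (u1 u2 v1 v2 : ℝ) (i j : Fin N) :
    ∑ k, (u1 + (if i = k then u2 else 0)) * (v1 + (if k = j then v2 else 0)) =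
      N * u1 * v1 + u1 * v2 + u2 * v1 + (if i = j then u2 * v2 else 0) := by
  simp only [add_mul, mul_add, sum_add_distrib, ite_mul, mul_ite, zero_mul, mul_zero]
  simp
  ring

theorem K_symm (s1 s2 t1 t2 : ℝ) (x y : Bool × Fin N) : K s1 s2 t1 t2 x y = K s1 s2 t1 t2 y x := by
  simp only [K, eq_comm]

theorem comp (s1 s2 t1 t2 u1 u2 v1 v2 : ℝ) (x y : Bool × Fin N) :
    ∑ z, K s1 s2 t1 t2 x z * K u1 u2 v1 v2 z y =
      K (N * s1 * u1 + s1 * u2 + s2 * u1 + (N * t1 * v1 + t1 * v2 + t2 * v1)) (s2 * u2 + t2 * v2)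
        (N * s1 * v1 + s1 * v2 + s2 * v1 + (N * t1 * u1 + t1 * u2 + t2 * u1)) (s2 * v2 + t2 * u2)
        x y := by
  obtain ⟨a, i⟩ := x
  obtain ⟨b, j⟩ := y
  rw [Fintype.sum_prod_type, Fintype.sum_bool]
  cases a <;> cases b <;>
    simp only [K, if_true, Bool.false_eq_true, Bool.true_eq_false, if_false, conv] <;>
    split_ifs <;> ring

theorem tot (g : ℝ → ℝ → ℝ → ℝ) (s1 s2 t1 t2 u1 u2 v1 v2 w1 w2 z1 z2 : ℝ) (x : Bool × Fin N) :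
    ∑ y, g (K s1 s2 t1 t2 x y) (K u1 u2 v1 v2 x y) (K w1 w2 z1 z2 x y) =
      g (s1 + s2) (u1 + u2) (w1 + w2) + (N - 1) * g s1 u1 w1 +
      (g (t1 + t2) (v1 + v2) (z1 + z2) + (N - 1) * g t1 v1 z1) := by
  obtain ⟨a, i⟩ := x
  have key : ∀ a1 a2 b1 b2 c1 c2 : ℝ, ∑ k, g (a1 + (if i = k then a2 else 0))
      (b1 + (if i = k then b2 else 0)) (c1 + (if i = k then c2 else 0)) =
      g (a1 + a2) (b1 + b2) (c1 + c2) + (N - 1) * g a1 b1 c1 := by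
    intro a1 a2 b1 b2 c1 c2
    have : ∀ k, g (a1 + (if i = k then a2 else 0))
      (b1 + (if i = k then b2 else 0)) (c1 + (if i = k then c2 else 0)) = g a1 b1 c1 +
        (if i = k then g (a1 + a2) (b1 + b2) (c1 + c2) - g a1 b1 c1 else 0) := by
      intro k
      split_ifs <;> simp
    simp only [this, sum_add_distrib]
    simp
    ring
  rw [Fintype.sum_prod_type, Fintype.sum_bool]
  cases a <;> simp only [K, if_true, Bool.false_eq_true, Bool.true_eq_false, if_false, key] <;> ring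

noncomputable def A (β : ℝ) : Bool × Fin N → Bool × Fin N → ℝ := K 1 0 0 β

theorem row (β : ℝ) (x : Bool × Fin N) : ∑ y, A β x y = N + β := by
  have := tot (fun a _ _ => a) 1 0 0 β 0 0 0 0 0 0 0 0 x
  simp only [A, this]
  ring

theorem col (β : ℝ) (y : Bool × Fin N) : ∑ x, A β x y = N + β := by
  rw [← row β y]
  exact sum_congr rfl fun x _ => K_symm _ _ _ _ _ _

theorem c2_eq (β : ℝ) : c2 (A (N := N) β) = K N (β ^ 2) (2 * β) 0 := by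
  funext x y
  have : ∀ z, A β x z * A β y z = K 1 0 0 β x z * K 1 0 0 β z y := fun z => by
    rw [A, K_symm 1 0 0 β y z]
  simp only [c2, this, comp]
  congr 1 <;> ring

theorem p3_eq (β : ℝ) : p3 (A (N := N) β) = K (N ^ 2 + 3 * β ^ 2) 0 (3 * N * β) (β ^ 3) := by
  funext x y
  simp only [p3, c2_eq]
  simp only [A, comp]
  congr 1 <;> ring

theorem p5_eq (β : ℝ) : p5 (A (N := N) β) = K (N ^ 4 + 10 * N ^ 2 * β ^ 2 + 5 * β ^ 4) 0
    (5 * N ^ 3 * β + 10 * N * β ^ 3) (β ^ 5) := by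
  funext x y
  simp only [p5, c2_eq, p3_eq, comp]
  congr 1 <;> ring

theorem S1 (β : ℝ) : ∑ a : Bool × Fin N, ∑ b, A β a b * p3 (A β) a b * p5 (A β) a b =
    2 * N * (N * (N ^ 2 + 3 * β ^ 2) * (N ^ 4 + 10 * N ^ 2 * β ^ 2 + 5 * β ^ 4) +
      β * (3 * N * β + β ^ 3) * (5 * N ^ 3 * β + 10 * N * β ^ 3 + β ^ 5)) := by
  simp only [p3_eq, p5_eq]
  simp only [A, tot (fun a b c => a * b * c)]
  simp
  ring

theorem S2 (β : ℝ) : ∑ a : Bool × Fin N, ∑ b, A β a b * p3 (A β) a b =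
    2 * N * (N * (N ^ 2 + 3 * β ^ 2) + β * (3 * N * β + β ^ 3)) := by
  simp only [p3_eq]
  have := tot (N := N) (fun a b _ => a * b) 1 0 0 β (N ^ 2 + 3 * β ^ 2) 0 (3 * N * β) (β ^ 3) 0 0 0 0
  simp only [A, this]
  simp
  ring

end Conv

end Pool.Agent.H24.Wd1
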