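import Mathlib
import Pool.Agent.H24.Wd1

namespace Pool.Agent.H24.Wd2
open Finset MeasureTheory ProbabilityTheory Pool.Agent.H24.WdDefs Pool.Agent.H24.Wd1

section Fin
variable {X : Type} [Fintype X] [Nonempty X] [MeasurableSpace X] [DiscreteMeasurableSpace X]

theorem unif (x : X) : (uniformOn (Set.univ : Set X)).real {x} = 1 / Fintype.card X := by
  simp [Measure.real, uniformOn_univ]

open Classical in
theorem dens_fin {V1 V2 : Type} [Fintype V1] [Fintype V2] {n m : ℕ} (e1 : Fin n ≃ V1)
    (e2 : Fin m ≃ V2) (E : V1 → V2 → Prop) (W : X → X → ℝ) :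
    dens E (uniformOn Set.univ) (uniformOn Set.univ) W =
      (∑ x : Fin n → X, ∑ y : Fin m → X, ∏ v, ∏ w, (if E (e1 v) (e2 w) then W (x v) (y w) else 1)) /
        (Fintype.card X : ℝ) ^ (n + m) := by
  have hn : Fintype.card V1 = n := by rw [← Fintype.card_congr e1, Fintype.card_fin]
  have hm : Fintype.card V2 = m := by rw [← Fintype.card_congr e2, Fintype.card_fin]
  have h1 : ∀ p : (V1 → X) × (V2 → X), ((Measure.pi fun _ : V1 => uniformOn (Set.univ : Set X)).prod
      (Measure.pi fun _ : V2 => uniformOn (Set.univ : Set X))).real {p} =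
      1 / (Fintype.card X : ℝ) ^ (n + m) := by
    rintro ⟨a, b⟩
    rw [← Set.singleton_prod_singleton, Measure.real, Measure.prod_prod, Measure.pi_singleton,
      Measure.pi_singleton, ENNReal.toReal_mul, ENNReal.toReal_prod, ENNReal.toReal_prod]
    have := fun x : X => unif x
    simp only [Measure.real] at this
    simp only [this, prod_const, card_univ, hn, hm]
    rw [← pow_add, one_div_pow]
  rw [WdDefs.dens, integral_fintype Integrable.of_finite]
  simp only [h1, smul_eq_mul]
  rw [← mul_sum, Fintype.sum_prod_type, one_div, mul_comm, ← div_eq_mul_inv]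
  congr 1
  rw [← (e1.arrowCongr (Equiv.refl X)).sum_comp]
  refine sum_congr rfl fun x _ => ?_
  rw [← (e2.arrowCongr (Equiv.refl X)).sum_comp]
  refine sum_congr rfl fun y _ => ?_
  rw [← e1.prod_comp]
  refine prod_congr rfl fun v _ => ?_
  rw [← e2.prod_comp]
  simp

end Fin

theorem dens_empty {V1 V2 X Y : Type} [Fintype V1] [Fintype V2] [MeasurableSpace X]
    [MeasurableSpace Y] (E : V1 → V2 → Prop) (h : ∀ a b, ¬ E a b) (μ : Measure X) (ν : Measure Y)
    [IsProbabilityMeasure μ] [IsProbabilityMeasure ν] (W : X → Y → ℝ) : dens E μ ν W = 1 := by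
  simp [WdDefs.dens, h]

theorem ecount_empty {V1 V2 : Type} (E : V1 → V2 → Prop) (h : ∀ a b, ¬ E a b) : ecount E = 0 := by
  simp [ecount, h]

theorem dom_empty {V1 V2 U1 U2 : Type} [Fintype V1] [Fintype V2] [Fintype U1] [Fintype U2]
    (E : V1 → V2 → Prop) (F : U1 → U2 → Prop) (h : ∀ a b, ¬ E a b) (h' : ∀ a b, ¬ F a b) :
    WeakDom E F := by
  intro X Y _ _ μ ν W hW
  have := hW.prob1
  have := hW.prob2
  rw [dens_empty E h, dens_empty F h', ecount_empty E h, ecount_empty F h']

def Eb : Fin 4 → Fin 4 → Bool :=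
  ![![true, false, true, false], ![true, true, true, false], ![false, true, false, true],
    ![true, false, false, true]]

def E (a b : Fin 4) : Prop := Eb a b = true

instance : DecidableRel E := fun a b => inferInstanceAs (Decidable (Eb a b = true))

instance : DecidableRel (badj E) := fun u v => by
  cases u <;> cases v <;> unfold badj <;> infer_instance

def bag : Fin 3 → Finset (Fin 4 ⊕ Fin 4) :=
  ![{.inl 0, .inr 2, .inl 1}, {.inl 0, .inr 0, .inl 1, .inr 1, .inl 2},
    {.inr 0, .inl 3, .inr 3, .inl 2}]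

def U : Finset (Fin 4 ⊕ Fin 4) := ({0, 1} : Finset (Fin 3)).biUnion bag

def e1 : Fin 3 ≃ {v : Fin 4 // Sum.inl v ∈ U} where
  toFun i := ⟨i.castSucc, by revert i; decide⟩
  invFun v := ![0, 1, 2, 0] v.1
  left_inv := by decide
  right_inv := by decide

def e2 : Fin 3 ≃ {v : Fin 4 // Sum.inr v ∈ U} where
  toFun i := ⟨i.castSucc, by revert i; decide⟩
  invFun v := ![0, 1, 2, 0] v.1
  left_inv := by decide
  right_inv := by decide

theorem ec1 : ecount E = 9 := by
  rw [ecount, Set.ncard_eq_toFinset_card']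
  decide

instance : DecidableRel (ind E U) := fun a b => inferInstanceAs (Decidable (E a.1 b.1))

theorem ec2 : ecount (ind E U) = 6 := by
  rw [ecount, Set.ncard_eq_toFinset_card']
  decide

theorem not_dom : ¬ WeakDom E (ind E U) := by
  intro h
  obtain ⟨N, hN⟩ : ∃ N : ℕ, N = 1000000 := ⟨_, rfl⟩
  have hN' : (N : ℝ) = 1000000 := by rw [hN]; norm_num
  have : Nonempty (Fin N) := ⟨⟨0, by omega⟩⟩
  letI : MeasurableSpace (Bool × Fin N) := ⊤
  have : DiscreteMeasurableSpace (Bool × Fin N) := ⟨fun _ => trivial⟩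
  have hc : (Fintype.card (Bool × Fin N) : ℝ) = 2 * N := by simp
  have hrho : rho (uniformOn Set.univ) (uniformOn Set.univ) (A (N := N) 40000) =
      (N + 40000) / (2 * N) := by
    rw [rho, dens_fin (Equiv.refl _) (Equiv.refl _), sum1]
    simp only [sum1, Fin.prod_univ_one, if_true, Matrix.cons_val_zero, row, sum_const, card_univ,
      nsmul_eq_mul, hc, hN']
    norm_num
  have hA : ∀ x y : Bool × Fin N, 0 ≤ A 40000 x y ∧ A 40000 x y ≤ 40000 := by
    intro x y
    simp only [A, K]
    split_ifs <;> norm_num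
  have hadm : Admissible (uniformOn Set.univ) (uniformOn Set.univ) (A (N := N) 40000) := by
    refine ⟨inferInstance, inferInstance, Measurable.of_discrete, ⟨_, hA⟩, ?_, ?_, ?_⟩
    · intro h0
      obtain ⟨x⟩ : Nonempty (Bool × Fin N) := inferInstance
      have h1 := measure_mono_null (s := {(x, x)}) (by
        rintro _ rfl
        simp [A, K]) (ae_iff.1 h0)
      rw [← Set.singleton_prod_singleton, Measure.prod_prod, mul_self_eq_zero] at h1
      have h2 := unif x
      rw [Measure.real, h1, hc, hN'] at h2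
      norm_num at h2
    · refine Filter.Eventually.of_forall fun x => ?_
      rw [integral_fintype Integrable.of_finite, hrho]
      simp only [unif, smul_eq_mul, ← mul_sum, row, hc]
      ring
    · refine Filter.Eventually.of_forall fun x => ?_
      rw [integral_fintype Integrable.of_finite, hrho]
      simp only [unif, smul_eq_mul, ← mul_sum, col, hc]
      ring
  have h1 := h _ _ _ _ _ hadm
  rw [ec1, ec2, hrho, dens_fin (Equiv.refl _) (Equiv.refl _), dens_fin e1 e2, sum4, sum3] at h1
  simp only [sum4, sum3, Fin.prod_univ_four, Fin.prod_univ_three, ind, E, Eb, e1, e2] at h1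
  simp at h1
  rw [big, small _ _ (row _) (col _), S1, S2, hN'] at h1
  norm_num at h1

def T : SimpleGraph (Fin 3) := SimpleGraph.pathGraph 3

theorem T_adj (s t : Fin 3) : T.Adj s t ↔ (s.1 + 1 = t.1 ∨ t.1 + 1 = s.1) :=
  SimpleGraph.pathGraph_adj

instance : DecidableRel T.Adj := fun s t => decidable_of_iff _ (T_adj s t).symm

theorem T_tree : T.IsTree := by
  rw [SimpleGraph.isTree_iff_connected_and_card]
  refine ⟨SimpleGraph.pathGraph_connected 2, ?_⟩
  rw [Nat.card_eq_fintype_card, Nat.card_eq_fintype_card, ← SimpleGraph.edgeFinset_card]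
  decide

def Low1 (C : Finset (Fin 4 ⊕ Fin 4)) (v a : Fin 4 ⊕ Fin 4) : Prop :=
  ∀ b ∈ C, badj E v a → badj E v b → a = b

instance (C : Finset (Fin 4 ⊕ Fin 4)) (v a : Fin 4 ⊕ Fin 4) : Decidable (Low1 C v a) := by
  unfold Low1; infer_instance

def Low (C : Finset (Fin 4 ⊕ Fin 4)) (v : Fin 4 ⊕ Fin 4) : Prop := ∀ a ∈ C, Low1 C v a

instance (C : Finset (Fin 4 ⊕ Fin 4)) (v : Fin 4 ⊕ Fin 4) : Decidable (Low C v) := by
  unfold Low; infer_instance

instance (S C C' : Finset (Fin 4 ⊕ Fin 4)) : Decidable (Step E S C C') :=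
  inferInstanceAs (Decidable (∃ v ∈ C, v ∉ S ∧ Low C v ∧ C' = C.erase v))

theorem noStep {S C : Finset (Fin 4 ⊕ Fin 4)} (h : ∀ v ∈ C, v ∉ S → ¬ Low C v) :
    ∀ C', ¬ Step E S C C' :=
  fun _ ⟨v, h1, h2, h3, _⟩ => h v h1 h2 h3

theorem conn : Conn E := by
  have h : ∀ u v, badj E u v → badj E v u := by decide
  have h0 : ∀ v, Relation.ReflTransGen (badj E) (.inl 1) v := by
    have a0 : Relation.ReflTransGen (badj E) (.inl 1) (.inr 0) := .single (by decide)
    have a1 : Relation.ReflTransGen (badj E) (.inl 1) (.inr 1) := .single (by decide)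
    have a2 : Relation.ReflTransGen (badj E) (.inl 1) (.inl 2) := a1.tail (by decide)
    rintro (v | v) <;> fin_cases v
    · exact a0.tail (by decide)
    · exact .refl
    · exact a2
    · exact a0.tail (by decide)
    · exact a0
    · exact a1
    · exact .single (by decide)
    · exact a2.tail (by decide)
  intro u v
  refine .trans ?_ (h0 v)
  have := h0 u
  induction this with
  | refl => exact .refl
  | tail _ hb ih => exact .head (h _ _ hb) ih

theorem core_sub {S U C : Finset (Fin 4 ⊕ Fin 4)} (h : Relation.ReflTransGen (Step E S) U C) :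
    C ⊆ U := by
  induction h with
  | refl => exact Subset.refl _
  | tail _ hb ih =>
    obtain ⟨v, -, -, -, rfl⟩ := hb
    exact (erase_subset _ _).trans ih

theorem core_empty (t : Fin 3) (C : Finset (Fin 4 ⊕ Fin 4)) (h : IsCore E ∅ (bag t) C) :
    C = ∅ := by
  have key : ∀ t, ∀ C ∈ (bag t).powerset, C = ∅ ∨
      ∃ v ∈ C, Low C v := by decide +kernel
  rcases key t C (mem_powerset.2 (core_sub h.1)) with h1 | ⟨v, h1, h2⟩
  · exact h1
  · exact absurd ⟨v, h1, notMem_empty v, h2, rfl⟩ (h.2 _)

theorem core0 (t : Fin 3) : IsCore E ∅ (bag t) ∅ := by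
  refine ⟨?_, noStep (by simp)⟩
  fin_cases t
  · exact .head (b := {.inr 2, .inl 1}) (by decide) (.head (b := {.inl 1}) (by decide)
      (.single (by decide)))
  · exact .head (b := {.inr 0, .inl 1, .inr 1, .inl 2}) (by decide)
      (.head (b := {.inl 1, .inr 1, .inl 2}) (by decide) (.head (b := {.inr 1, .inl 2}) (by decide)
      (.head (b := {.inl 2}) (by decide) (.single (by decide)))))
  · exact .head (b := {.inl 3, .inr 3, .inl 2}) (by decide)
      (.head (b := {.inr 3, .inl 2}) (by decide) (.head (b := {.inl 2}) (by decide)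
      (.single (by decide))))

theorem refl : Reflective E T bag := by
  have c0 : IsCore E (bag 0 ∩ bag 1) (bag 0) (bag 0) := ⟨.refl, noStep (by decide)⟩
  have c1 : IsCore E (bag 0 ∩ bag 1) (bag 1) {.inl 0, .inr 0, .inl 1} :=
    ⟨.head (b := {.inl 0, .inr 0, .inl 1, .inr 1}) (by decide) (.single (by decide)),
      noStep (by decide)⟩
  have c2 : IsCore E (bag 1 ∩ bag 2) (bag 1) {.inr 0, .inl 1, .inr 1, .inl 2} :=
    ⟨.single (by decide), noStep (by decide)⟩
  have c3 : IsCore E (bag 1 ∩ bag 2) (bag 2) (bag 2) := ⟨.refl, noStep (by decide)⟩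
  refine ⟨by decide, T_tree, by decide, by decide, ?_, ?_⟩
  · intro t1 t2 p hp t3 h3
    by_cases h12 : t1 = t2
    · subst h12
      rw [SimpleGraph.Walk.isPath_iff_eq_nil.1 hp] at h3
      simp only [SimpleGraph.Walk.support_nil, List.mem_singleton] at h3
      rw [h3, inter_self]
    · by_cases ha : T.Adj t1 t2
      · have := T_tree.isAcyclic.path_unique ⟨p, hp⟩ (SimpleGraph.Path.singleton ha)
        have h4 : p = (SimpleGraph.Path.singleton ha).1 := congrArg Subtype.val this
        rw [h4] at h3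
        simp [SimpleGraph.Path.singleton] at h3
        rcases h3 with rfl | rfl
        · exact inter_subset_left
        · exact inter_subset_right
      · have : ∀ t1 t2, t1 ≠ t2 → ¬ T.Adj t1 t2 → bag t1 ∩ bag t2 = ∅ := by decide
        rw [this t1 t2 h12 ha]
        exact empty_subset _
  · intro s t hst
    have : (s = 0 ∧ t = 1) ∨ (s = 1 ∧ t = 0) ∨ (s = 1 ∧ t = 2) ∨ (s = 2 ∧ t = 1) := by
      revert s t; decide
    rcases this with ⟨rfl, rfl⟩ | ⟨rfl, rfl⟩ | ⟨rfl, rfl⟩ | ⟨rfl, rfl⟩
    · exact ⟨_, _, c0, c1, Sum.map id ![2, 1, 0, 3],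
        by decide, by decide, by decide, by decide, by decide, by decide⟩
    · rw [inter_comm]
      exact ⟨_, _, c1, c0, Sum.map id ![2, 1, 0, 3],
        by decide, by decide, by decide, by decide, by decide, by decide⟩
    · exact ⟨_, _, c2, c3, Sum.map ![0, 3, 2, 1] ![0, 3, 2, 1],
        by decide, by decide, by decide, by decide, by decide, by decide⟩
    · rw [inter_comm]
      exact ⟨_, _, c3, c2, Sum.map ![0, 3, 2, 1] ![0, 3, 2, 1],
        by decide, by decide, by decide, by decide, by decide, by decide⟩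

theorem hyp (t : Fin 3) (C : Finset (Fin 4 ⊕ Fin 4)) (h : IsCore E ∅ (bag t) C) (s s' : Fin 3)
    (hs : T.Adj s s') : WeakDom (ind E C) (ind E (bag s ∩ bag s')) := by
  apply dom_empty
  · rintro ⟨a, ha⟩
    rw [core_empty t C h] at ha
    exact absurd ha (notMem_empty _)
  · rintro ⟨a, ha⟩ ⟨b, hb⟩
    have : ∀ s s', T.Adj s s' → ∀ a b, Sum.inl a ∈ bag s ∩ bag s' → Sum.inr b ∈ bag s ∩ bag s' →
      ¬ E a b := by decide
    exact this s s' hs a b ha hb

end Pool.Agent.H24.Wd2
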