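import Mathlib

namespace Pool.Agent.H24.Word

variable {V : Type*} [DecidableEq V]

/-- next expected letter is `a`, the other is `b` -/
def E : V → V → List V → Prop
  | _, _, [] => True
  | a, b, x :: w => if x = a then E b a w else if x = b then False else E a b w

def D (a b : V) (w : List V) : Prop :=
  ∀ k, (w.take k).count b ≤ (w.take k).count a ∧ (w.take k).count a ≤ (w.take k).count b + 1

lemma E_iff_D (w : List V) : ∀ a b : V, a ≠ b → (E a b w ↔ D a b w) := by
  induction w with
  | nil => intro a b _; simp [E, D]
  | cons x w ih =>
    intro a b hab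
    unfold E
    split_ifs with h1 h2
    · subst h1
      rw [ih b x hab.symm]
      constructor
      · intro h k
        cases k with
        | zero => simp
        | succ k =>
          have := h k
          simp only [List.take_succ_cons, List.count_cons_self, List.count_cons_of_ne hab]
          omega
      · intro h k
        have := h (k + 1)
        simp only [List.take_succ_cons, List.count_cons_self, List.count_cons_of_ne hab] at this
        omega
    · subst h2
      refine ⟨False.elim, fun h => ?_⟩
      have := (h 1).1
      simp [List.count_cons_of_ne h1] at this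
    · rw [ih a b hab]
      constructor
      · intro h k
        cases k with
        | zero => simp
        | succ k =>
          have := h k
          simp only [List.take_succ_cons, List.count_cons_of_ne h1, List.count_cons_of_ne h2]
          omega
      · intro h k
        have := h (k + 1)
        simp only [List.take_succ_cons, List.count_cons_of_ne h1, List.count_cons_of_ne h2] at this
        omega

lemma chain_cons (w : List V) : ∀ a b : V, a ≠ b →
    ((b :: w.filter (fun x => x = a ∨ x = b)).IsChain (· ≠ ·) ↔ E a b w) := by
  induction w with
  | nil => intro a b _; simp [E]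
  | cons x w ih =>
    intro a b hab
    unfold E
    split_ifs with h1 h2
    · subst h1
      rw [List.filter_cons_of_pos (by simp), List.isChain_cons_cons, ← ih b x hab.symm]
      simp only [or_comm, and_iff_right_iff_imp]
      exact fun _ => hab.symm
    · subst h2
      rw [List.filter_cons_of_pos (by simp), List.isChain_cons_cons]
      simp
    · rw [List.filter_cons_of_neg (by simp [h1, h2])]
      exact ih a b hab

lemma chain_iff (w : List V) (a b : V) (hab : a ≠ b) :
    (w.filter (fun x => x = a ∨ x = b)).IsChain (· ≠ ·) ↔ E a b w ∨ E b a w := by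
  induction w with
  | nil => simp [E]
  | cons x w ih =>
    by_cases h1 : x = a
    · subst h1
      rw [List.filter_cons_of_pos (by simp)]
      have := chain_cons w b x hab.symm
      simp only [or_comm] at this ⊢
      rw [this]
      simp [E, hab]
    · by_cases h2 : x = b
      · subst h2
        rw [List.filter_cons_of_pos (by simp), chain_cons w a x hab]
        simp [E, h1]
      · rw [List.filter_cons_of_neg (by simp [h1, h2]), ih]
        simp [E, h1, h2]

lemma chain_iff_D (w : List V) (a b : V) (hab : a ≠ b) :
    (w.filter (fun x => x = a ∨ x = b)).IsChain (· ≠ ·) ↔ D a b w ∨ D b a w := by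
  rw [chain_iff w a b hab, E_iff_D w a b hab, E_iff_D w b a hab.symm]

lemma E_filterMap (l : List (Option V)) : ∀ a b : V,
    (E a b (l.filterMap id) ↔ E (some a) (some b) l) := by
  induction l with
  | nil => intro a b; simp [E]
  | cons x l ih =>
    intro a b
    cases x with
    | none => simpa [E] using ih a b
    | some x =>
      simp only [List.filterMap_cons, id, E, Option.some.injEq]
      split_ifs
      · exact ih b a
      · rfl
      · exact ih a b

/-- prefix counts always dominate -/
def Le (w : List V) (a b : V) : Prop := ∀ k, (w.take k).count b ≤ (w.take k).count a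

lemma Le.refl (w : List V) (a : V) : Le w a a := fun _ => le_rfl

lemma Le.trans {w : List V} {a b c : V} (h1 : Le w a b) (h2 : Le w b c) : Le w a c :=
  fun k => (h2 k).trans (h1 k)

lemma Le.anti {w : List V} {a b : V} (ha : a ∈ w) (h1 : Le w a b) (h2 : Le w b a) : a = b := by
  induction w with
  | nil => simp at ha
  | cons x w ih =>
    by_contra hab
    by_cases hx : x = a
    · subst hx
      have := h2 1
      simp [List.count_cons_of_ne hab] at this
    · by_cases hy : x = b
      · subst hy
        have := h1 1
        simp [List.count_cons_of_ne hx] at this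
      · refine hab (ih ((List.mem_cons.1 ha).resolve_left (Ne.symm hx)) (fun k => ?_) (fun k => ?_))
        · simpa [List.count_cons_of_ne hx, List.count_cons_of_ne hy] using h1 (k + 1)
        · simpa [List.count_cons_of_ne hx, List.count_cons_of_ne hy] using h2 (k + 1)

/-- The structure carried by a representing word. -/
lemma struct (G : SimpleGraph V) (w : List V) (hw : ∀ v, v ∈ w)
    (h : ∀ a b, a ≠ b → (G.Adj a b ↔ (w.filter (fun x => x = a ∨ x = b)).IsChain (· ≠ ·))) :
    (∀ a b, G.Adj a b → Le w a b ∨ Le w b a) ∧
    (∀ a b x y, G.Adj a b → Le w a x → Le w x y → Le w y b → x = y ∨ G.Adj x y) := by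
  constructor
  · intro a b hab
    rcases (chain_iff_D w a b hab.ne).1 ((h a b hab.ne).1 hab) with h | h
    · exact Or.inl fun k => (h k).1
    · exact Or.inr fun k => (h k).1
  · intro a b x y hab h1 h2 h3
    by_cases hxy : x = y
    · exact Or.inl hxy
    right
    rcases (chain_iff_D w a b hab.ne).1 ((h a b hab.ne).1 hab) with h4 | h4
    · refine (h x y hxy).2 ((chain_iff_D w x y hxy).2 (Or.inl fun k => ⟨h2 k, ?_⟩))
      have := h1 k
      have := h3 k
      have := h4 k
      omega
    · exact absurd (Le.anti (hw a) (h1.trans (h2.trans h3)) (fun k => (h4 k).1)) hab.ne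

/-- A word from a schedule `g`: at time `t` the letter `g t` (if any) is written. -/
lemma sched (g : ℕ → Option V) (M : ℕ) (a b : V) (hab : a ≠ b) :
    (((List.range M).filterMap g).filter (fun x => x = a ∨ x = b)).IsChain (· ≠ ·) ↔
    (∀ t ≤ M, Nat.count (fun s => g s = some b) t ≤ Nat.count (fun s => g s = some a) t ∧
      Nat.count (fun s => g s = some a) t ≤ Nat.count (fun s => g s = some b) t + 1) ∨
    (∀ t ≤ M, Nat.count (fun s => g s = some a) t ≤ Nat.count (fun s => g s = some b) t ∧
      Nat.count (fun s => g s = some b) t ≤ Nat.count (fun s => g s = some a) t + 1) := by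
  have hc : ∀ t (v : V), @List.count _ instBEqOfDecidableEq (some v) ((List.range t).map g)
      = Nat.count (fun s => g s = some v) t := by
    intro t v
    induction t with
    | zero => simp
    | succ t ih =>
      rw [List.range_succ, List.map_append, @List.count_append _ instBEqOfDecidableEq, ih,
        Nat.count_succ]
      by_cases h : g t = some v <;> simp [h]
  have key : ∀ a b : V, a ≠ b → (E a b ((List.range M).filterMap g) ↔
      ∀ t ≤ M, Nat.count (fun s => g s = some b) t ≤ Nat.count (fun s => g s = some a) t ∧
      Nat.count (fun s => g s = some a) t ≤ Nat.count (fun s => g s = some b) t + 1) := by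
    intro a b hab
    have : (List.range M).filterMap g = ((List.range M).map g).filterMap id := by
      rw [List.filterMap_map]; rfl
    rw [this, E_filterMap, E_iff_D _ _ _ (by simpa using hab)]
    unfold D
    simp only [← List.map_take, List.take_range, hc]
    constructor
    · intro h t ht
      simpa [min_eq_left ht] using h t
    · intro h k
      exact h _ (min_le_right _ _)
  rw [chain_iff _ a b hab, key a b hab, key b a hab.symm]

lemma num (a c b d M : ℕ) (h1 : a < c) (h2 : b < d) (h3 : c < M) (h4 : d < M) (h5 : a ≠ b)
    (h6 : c ≠ d) (h7 : b ≠ c) : (a < b ∧ b < c ∧ c < d) ↔ ∀ t ≤ M,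
      (if b < t then 1 else 0) + (if d < t then 1 else 0) ≤
        (if a < t then 1 else 0) + (if c < t then 1 else 0) ∧
      (if a < t then 1 else 0) + (if c < t then 1 else 0) ≤
        (if b < t then 1 else 0) + (if d < t then 1 else 0) + 1 := by
  constructor
  · intro h t _
    split_ifs <;> omega
  · intro h
    have k1 := (h (b + 1) (by omega)).1
    have k2 := (h (c + 1) (by omega)).2
    have k3 := (h (d + 1) (by omega)).1
    refine ⟨?_, ?_, ?_⟩
    · split_ifs at k1 <;> omega
    · split_ifs at k2 <;> omega
    · split_ifs at k3 <;> omega

/-- Chord diagrams: every vertex has two positions `p v < q v`, all positions distinct. -/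
lemma chords [Fintype V] (G : SimpleGraph V) (p q : V → ℕ) (hpq : ∀ v, p v < q v)
    (hp : ∀ a b, p a = p b → a = b) (hq : ∀ a b, q a = q b → a = b) (hne : ∀ a b, p a ≠ q b)
    (h : ∀ a b, a ≠ b → (G.Adj a b ↔ (p a < p b ∧ p b < q a ∧ q a < q b) ∨
      (p b < p a ∧ p a < q b ∧ q b < q a))) :
    ∃ w : List V, (∀ v, v ∈ w) ∧
      ∀ a b, a ≠ b → (G.Adj a b ↔ (w.filter (fun x => x = a ∨ x = b)).IsChain (· ≠ ·)) := by
  classical
  let g : ℕ → Option V := fun s => if h : ∃ v, p v = s ∨ q v = s then some h.choose else none
  have hg : ∀ s v, g s = some v ↔ p v = s ∨ q v = s := by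
    intro s v
    simp only [g]
    split_ifs with h
    · have := h.choose_spec
      simp only [Option.some.injEq]
      constructor
      · rintro rfl; exact this
      · rintro (h1 | h1) <;> rcases this with h2 | h2
        · exact hp _ _ (h2.trans h1.symm)
        · exact absurd (h1.trans h2.symm) (hne _ _)
        · exact absurd (h2.trans h1.symm) (hne _ _)
        · exact hq _ _ (h2.trans h1.symm)
    · simp only [false_iff]
      exact fun h' => h ⟨v, h'⟩
  obtain ⟨M, hM⟩ : ∃ M, ∀ v, q v < M :=
    ⟨Finset.univ.sup q + 1, fun v => Nat.lt_succ_of_le (Finset.le_sup (f := q) (Finset.mem_univ v))⟩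
  have hc : ∀ t v, Nat.count (fun s => g s = some v) t
      = (if p v < t then 1 else 0) + (if q v < t then 1 else 0) := by
    intro t v
    induction t with
    | zero => simp
    | succ t ih =>
      rw [Nat.count_succ, ih]
      simp only [hg]
      have := hpq v
      split_ifs <;> omega
  refine ⟨(List.range M).filterMap g, fun v => ?_, fun a b hab => ?_⟩
  · exact List.mem_filterMap.2 ⟨p v, List.mem_range.2 ((hpq v).trans (hM v)), (hg _ _).2 (Or.inl rfl)⟩
  · rw [sched g M a b hab, h a b hab]
    simp only [hc]
    have key : ∀ a b : V, a ≠ b → ((p a < p b ∧ p b < q a ∧ q a < q b) ↔ ∀ t ≤ M,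
        (if p b < t then 1 else 0) + (if q b < t then 1 else 0) ≤
          (if p a < t then 1 else 0) + (if q a < t then 1 else 0) ∧
        (if p a < t then 1 else 0) + (if q a < t then 1 else 0) ≤
          (if p b < t then 1 else 0) + (if q b < t then 1 else 0) + 1) := by
      intro a b hab
      exact num _ _ _ _ M (hpq a) (hpq b) (hM a) (hM b) (fun h => hab (hp _ _ h))
        (fun h => hab (hq _ _ h)) (hne b a)
    rw [key a b hab, key b a hab.symm]

end Pool.Agent.H24.Word
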