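import Mathlib

namespace Pool.Agent.H24.Word

structure Ax {A : Type*} (adj Le : A → A → Prop) : Prop where
  refl : ∀ a, Le a a
  trans : ∀ {a b c}, Le a b → Le b c → Le a c
  anti : ∀ {a b}, Le a b → Le b a → a = b
  symm : ∀ {a b}, adj a b → adj b a
  tot : ∀ {a b}, adj a b → Le a b ∨ Le b a
  sc : ∀ {a b x y}, adj a b → Le a x → Le x y → Le y b → x = y ∨ adj x y

structure Wh {A : Type*} (adj : A → A → Prop) (n : ℕ) (s r : ℕ → A) : Prop where
  ss : ∀ i < n, ∀ j < n, i ≠ j → adj (s i) (s j)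
  sinj : ∀ i < n, ∀ j < n, s i = s j → i = j
  ne : ∀ i < n, ∀ j < n, r i ≠ s j
  rs : ∀ i < n, ∀ j < n, adj (r i) (s j) ↔ (j = i ∨ j = i + 1 ∨ (i + 1 = n ∧ j = 0))
  rinj : ∀ i < n, ∀ j < n, r i = r j → i = j
  rr : ∀ i < n, ∀ j < n, adj (r i) (r j) ↔
    (j = i + 1 ∨ i = j + 1 ∨ (i + 1 = n ∧ j = 0) ∨ (j + 1 = n ∧ i = 0))

variable {A : Type*} {adj Le : A → A → Prop} {n : ℕ} {s r : ℕ → A}

lemma Wh.rot (W : Wh adj n s r) (c : ℕ) (hc : c < n) :
    Wh adj n (fun i => s (if i + c < n then i + c else i + c - n))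
      (fun i => r (if i + c < n then i + c else i + c - n)) := by
  have hl : ∀ i < n, (if i + c < n then i + c else i + c - n) < n := by
    intro i hi; split_ifs <;> omega
  refine ⟨fun i hi j hj h => W.ss _ (hl i hi) _ (hl j hj) ?_, fun i hi j hj h => ?_,
    fun i hi j hj => W.ne _ (hl i hi) _ (hl j hj), fun i hi j hj => ?_, fun i hi j hj h => ?_,
    fun i hi j hj => ?_⟩
  · split_ifs <;> omega
  · have := W.sinj _ (hl i hi) _ (hl j hj) h
    split_ifs at this <;> omega
  · rw [W.rs _ (hl i hi) _ (hl j hj)]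
    split_ifs <;> omega
  · have := W.rinj _ (hl i hi) _ (hl j hj) h
    split_ifs at this <;> omega
  · rw [W.rr _ (hl i hi) _ (hl j hj)]
    split_ifs <;> omega

lemma Wh.refl (W : Wh adj n s r) :
    Wh adj n (fun i => s (if i = 0 then 0 else n - i)) (fun i => r (n - 1 - i)) := by
  have hl : ∀ i < n, (if i = 0 then 0 else n - i) < n := by
    intro i hi; split_ifs <;> omega
  have hl' : ∀ i < n, n - 1 - i < n := by intro i hi; omega
  refine ⟨fun i hi j hj h => W.ss _ (hl i hi) _ (hl j hj) ?_, fun i hi j hj h => ?_,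
    fun i hi j hj => W.ne _ (hl' i hi) _ (hl j hj), fun i hi j hj => ?_, fun i hi j hj h => ?_,
    fun i hi j hj => ?_⟩
  · split_ifs <;> omega
  · have := W.sinj _ (hl i hi) _ (hl j hj) h
    split_ifs at this <;> omega
  · rw [W.rs _ (hl' i hi) _ (hl j hj)]
    by_cases h : j = 0
    · rw [if_pos h]; omega
    · rw [if_neg h]; omega
  · have := W.rinj _ (hl' i hi) _ (hl' j hj) h
    omega
  · rw [W.rr _ (hl' i hi) _ (hl' j hj)]
    omega

lemma btw (X : Ax adj Le) (W : Wh adj n s r) (i a b : ℕ) (hi : i < n) (ha : a < n) (hb : b < n)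
    (h : ∀ j < n, adj (r i) (s j) ↔ j = a ∨ j = b) (hab : Le (s a) (s b)) :
    ((Le (r i) (s a) ∨ Le (s b) (r i)) ∧
      ∀ t < n, t ≠ a → t ≠ b → Le (s a) (s t) → ¬ Le (s t) (s b)) ∨
    (Le (s a) (r i) ∧ Le (r i) (s b) ∧ ∀ t < n, Le (s a) (s t) ∧ Le (s t) (s b)) := by
  have h1 := (h a ha).2 (Or.inl rfl)
  have h2 := (h b hb).2 (Or.inr rfl)
  have bad : ∀ t < n, t ≠ a → t ≠ b → ¬ (r i = s t ∨ adj (r i) (s t)) := by
    rintro t ht h3 h4 (h5 | h5)
    · exact W.ne i hi t ht h5
    · have := (h t ht).1 h5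
      omega
  have bad' : ∀ t < n, t ≠ a → t ≠ b → ¬ (s t = r i ∨ adj (s t) (r i)) :=
    fun t ht h3 h4 h5 => bad t ht h3 h4 (h5.imp Eq.symm X.symm)
  rcases X.tot h1 with k1 | k1
  · exact Or.inl ⟨Or.inl k1, fun t ht h3 h4 h5 h6 =>
      bad t ht h3 h4 (X.sc h2 (X.refl _) (X.trans k1 h5) h6)⟩
  rcases X.tot h2 with k2 | k2
  swap
  · exact Or.inl ⟨Or.inr k2, fun t ht h3 h4 h5 h6 =>
      bad' t ht h3 h4 (X.sc (X.symm h1) h5 (X.trans h6 k2) (X.refl _))⟩
  refine Or.inr ⟨k1, k2, fun t ht => ?_⟩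
  by_cases h3 : t = a
  · subst h3; exact ⟨X.refl _, hab⟩
  by_cases h4 : t = b
  · subst h4; exact ⟨hab, X.refl _⟩
  constructor
  · refine (X.tot (W.ss t ht a ha h3)).resolve_left fun k => ?_
    exact bad' t ht h3 h4 (X.sc (W.ss t ht b hb h4) (X.refl _) (X.trans k k1) k2)
  · refine (X.tot (W.ss t ht b hb h4)).resolve_right fun k => ?_
    exact bad t ht h3 h4 (X.sc (W.ss a ha t ht (Ne.symm h3)) k1 (X.trans k2 k) (X.refl _))

lemma ordered (X : Ax adj Le) (m : ℕ) (hm : 3 ≤ m) (W : Wh adj (m + 1) s r)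
    (top : ∀ j < m + 1, Le (s 0) (s j)) (bot : ∀ j < m + 1, Le (s j) (s m)) : False := by
  have stot : ∀ i < m + 1, ∀ j < m + 1, Le (s i) (s j) ∨ Le (s j) (s i) := by
    intro i hi j hj
    by_cases h : i = j
    · subst h; exact Or.inl (X.refl _)
    · exact X.tot (W.ss i hi j hj h)
  have B := fun i (hi : i < m) => btw X W i i (i + 1) (by omega) (by omega) (by omega)
    (fun j hj => by rw [W.rs i (by omega) j hj]; omega)
  have ord : ∀ k, k < m + 1 → ∀ j < m + 1, k ≤ j → Le (s k) (s j) := by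
    intro k
    induction k with
    | zero => exact fun _ j hj _ => top j hj
    | succ k ih =>
      intro hk j hj hkj
      by_cases he : j = k + 1
      · subst he; exact X.refl _
      refine (stot _ hk j hj).resolve_right fun h => ?_
      rcases B k (by omega) (ih (by omega) _ hk (by omega)) with h1 | h1
      · exact h1.2 j hj (by omega) he (ih (by omega) j hj (by omega)) h
      · have := W.sinj _ hk m (by omega) (X.anti (bot _ hk) (h1.2.2 m (by omega)).2)
        omega
  have ud : ∀ i < m, Le (r i) (s i) ∨ Le (s (i + 1)) (r i) := by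
    intro i hi
    rcases B i hi (ord i (by omega) _ (by omega) (by omega)) with h1 | h1
    · exact h1.1
    · have e1 := W.sinj (i + 1) (by omega) m (by omega)
        (X.anti (bot _ (by omega)) (h1.2.2 m (by omega)).2)
      have e2 := W.sinj 0 (by omega) i (by omega)
        (X.anti (top _ (by omega)) (h1.2.2 0 (by omega)).1)
      omega
  obtain ⟨m1, m2⟩ : Le (s 0) (r m) ∧ Le (r m) (s m) := by
    rcases btw X W m 0 m (by omega) (by omega) (by omega)
      (fun j hj => by rw [W.rs m (by omega) j hj]; omega) (top m (by omega)) with h1 | h1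
    · exact absurd (bot 1 (by omega)) (h1.2 1 (by omega) (by omega) (by omega) (top 1 (by omega)))
    · exact ⟨h1.1, h1.2.1⟩
  have bad : ∀ i < m + 1, ∀ t < m + 1, ¬ (t = i ∨ t = i + 1 ∨ (i = m ∧ t = 0)) →
      ¬ (r i = s t ∨ adj (r i) (s t)) := by
    rintro i hi t ht h3 (h5 | h5)
    · exact W.ne i hi t ht h5
    · have := (W.rs i hi t ht).1 h5
      omega
  have bad' : ∀ i < m + 1, ∀ t < m + 1, ¬ (t = i ∨ t = i + 1 ∨ (i = m ∧ t = 0)) →
      ¬ (s t = r i ∨ adj (s t) (r i)) :=
    fun i hi t ht h3 h5 => bad i hi t ht h3 (h5.imp Eq.symm X.symm)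
  have a1 : ∀ i < m + 1, adj (r i) (s i) := fun i hi => (W.rs i hi i hi).2 (Or.inl rfl)
  have a2 : ∀ i < m, adj (r i) (s (i + 1)) :=
    fun i hi => (W.rs i (by omega) _ (by omega)).2 (Or.inr (Or.inl rfl))
  have a3 : ∀ i < m, adj (r i) (r (i + 1)) :=
    fun i hi => (W.rr i (by omega) _ (by omega)).2 (Or.inl rfl)
  have o1 : ∀ i < m, Le (s i) (s (i + 1)) := fun i hi => ord i (by omega) _ (by omega) (by omega)
  have F1 : ∀ i, i + 1 < m → Le (r i) (s i) → Le (r i) (r (i + 1)) := by
    intro i hi u1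
    refine (X.tot (a3 i (by omega))).resolve_right fun k => ?_
    exact bad (i + 1) (by omega) i (by omega) (by omega)
      (X.sc (a1 (i + 1) (by omega)) (X.refl _) (X.trans k u1) (o1 i (by omega)))
  have F2 : ∀ i, i + 1 < m → Le (s (i + 1 + 1)) (r (i + 1)) → Le (r i) (r (i + 1)) := by
    intro i hi d2
    refine (X.tot (a3 i (by omega))).resolve_right fun k => ?_
    exact bad' i (by omega) (i + 1 + 1) (by omega) (by omega)
      (X.sc (X.symm (a2 i (by omega))) (o1 (i + 1) hi) (X.trans d2 k) (X.refl _))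
  have F3 : ∀ i, i + 1 < m → Le (r i) (s i) → Le (r (i + 1)) (s (i + 1)) := by
    intro i hi u1
    refine (ud (i + 1) hi).resolve_right fun d2 => ?_
    exact bad' (i + 1) (by omega) i (by omega) (by omega)
      (X.sc (a3 i (by omega)) u1 (X.trans (o1 i (by omega)) (X.trans (o1 (i + 1) hi) d2)) (X.refl _))
  have a4 : adj (r 0) (r m) := (W.rr 0 (by omega) m (by omega)).2 (by omega)
  obtain ⟨l, rfl⟩ : ∃ l, m = l + 1 := ⟨m - 1, by omega⟩
  have F6 : Le (r l) (s l) → Le (r l) (r (l + 1)) := by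
    intro u
    refine (X.tot (a3 l (by omega))).resolve_right fun k => ?_
    exact bad' l (by omega) 0 (by omega) (by omega)
      (X.sc (W.ss 0 (by omega) l (by omega) (by omega)) (X.refl _) (X.trans m1 k) u)
  have nadj : ¬ (r 0 = r l ∨ adj (r 0) (r l)) := by
    rintro (h | h)
    · have := W.rinj 0 (by omega) l (by omega) h
      omega
    · have := (W.rr 0 (by omega) l (by omega)).1 h
      omega
  rcases ud 0 (by omega) with u0 | d0
  · have : ∀ k, k < l + 1 → Le (r k) (s k) ∧ Le (r 0) (r k) := by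
      intro k
      induction k with
      | zero => exact fun _ => ⟨u0, X.refl _⟩
      | succ k ih =>
        intro hk
        obtain ⟨h1, h2⟩ := ih (by omega)
        exact ⟨F3 k hk h1, X.trans h2 (F1 k hk h1)⟩
    obtain ⟨h1, h2⟩ := this l (by omega)
    exact nadj (X.sc a4 (X.refl _) h2 (F6 h1))
  · have F5 : Le (r (l + 1)) (r 0) := by
      refine (X.tot a4).resolve_left fun k => ?_
      exact bad' (l + 1) (by omega) 1 (by omega) (by omega)
        (X.sc (X.symm ((W.rs (l + 1) (by omega) 0 (by omega)).2 (by omega))) (top 1 (by omega))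
          (X.trans d0 k) (X.refl _))
    have : ∀ k, k < l + 1 → Le (r 0) (r k) ∧ Le (s (k + 1)) (r k) ∨
        ∃ i, i < l ∧ Le (r 0) (r i) ∧ Le (r k) (s k) ∧ Le (r (i + 1)) (r k) := by
      intro k
      induction k with
      | zero => exact fun _ => Or.inl ⟨X.refl _, d0⟩
      | succ k ih =>
        intro hk
        rcases ih (by omega) with ⟨h1, h2⟩ | ⟨i, hi, h1, h2, h3⟩
        · rcases ud (k + 1) hk with u | d
          · exact Or.inr ⟨k, by omega, h1, u, X.refl _⟩
          · exact Or.inl ⟨X.trans h1 (F2 k hk d), d⟩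
        · exact Or.inr ⟨i, hi, h1, F3 k hk h2, X.trans h3 (F1 k hk h2)⟩
    rcases this l (by omega) with ⟨h1, -⟩ | ⟨i, hi, h1, h2, h3⟩
    · exact nadj (X.sc (X.symm (a3 l (by omega))) F5 h1 (X.refl _))
    · exact nadj ((X.sc (X.symm (a3 i (by omega))) h3 (X.trans (F6 h2) F5) h1).imp Eq.symm X.symm)

lemma topped (X : Ax adj Le) (m : ℕ) (hm : 3 ≤ m) (W : Wh adj (m + 1) s r)
    (top : ∀ j < m + 1, Le (s 0) (s j)) : False := by
  rcases btw X W m 0 m (by omega) (by omega) (by omega)
    (fun j hj => by rw [W.rs m (by omega) j hj]; omega) (top m (by omega)) with h1 | h1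
  swap
  · exact ordered X m hm W top (fun j hj => (h1.2.2 j hj).2)
  rcases btw X W 0 0 1 (by omega) (by omega) (by omega)
    (fun j hj => by rw [W.rs 0 (by omega) j hj]; omega) (top 1 (by omega)) with h2 | h2
  · rcases X.tot (W.ss 1 (by omega) m (by omega) (by omega)) with k | k
    · exact h1.2 1 (by omega) (by omega) (by omega) (top 1 (by omega)) k
    · exact h2.2 m (by omega) (by omega) (by omega) (top m (by omega)) k
  · refine ordered X m hm W.refl (fun j hj => ?_) (fun j hj => ?_)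
    · simp only [if_true]
      exact top _ (by split_ifs <;> omega)
    · have : (if m = 0 then 0 else m + 1 - m) = 1 := by split_ifs <;> omega
      simp only [this]
      exact (h2.2.2 _ (by split_ifs <;> omega)).2

theorem no_wheel (X : Ax adj Le) (m : ℕ) (hm : 3 ≤ m) (W : Wh adj (m + 1) s r) : False := by
  have : ∀ k, k < m + 1 → ∃ c, c ≤ k ∧ ∀ j ≤ k, Le (s c) (s j) := by
    intro k
    induction k with
    | zero =>
      refine fun _ => ⟨0, le_rfl, fun j hj => ?_⟩
      obtain rfl : j = 0 := by omega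
      exact X.refl _
    | succ k ih =>
      intro hk
      obtain ⟨c, hc, h⟩ := ih (by omega)
      rcases X.tot (W.ss c (by omega) (k + 1) hk (by omega)) with h1 | h1
      · refine ⟨c, by omega, fun j hj => ?_⟩
        by_cases e : j = k + 1
        · subst e; exact h1
        · exact h j (by omega)
      · refine ⟨k + 1, le_rfl, fun j hj => ?_⟩
        by_cases e : j = k + 1
        · subst e; exact X.refl _
        · exact X.trans h1 (h j (by omega))
  obtain ⟨c, hc, h⟩ := this m (by omega)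
  refine topped X m hm (W.rot c (by omega)) (fun j hj => ?_)
  have : (if 0 + c < m + 1 then 0 + c else 0 + c - (m + 1)) = c := by split_ifs <;> omega
  simp only [this]
  exact h _ (by split_ifs <;> omega)

end Pool.Agent.H24.Word
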