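import Pool.Agent.H24.Word1
import Pool.Agent.H24.Word2

namespace Pool.Agent.H24.Word

variable {V : Type*} [DecidableEq V]

lemma D_append {a b : V} {u w : List V} (h : u.count a = u.count b) :
    D a b (u ++ w) ↔ D a b u ∧ D a b w := by
  constructor
  · intro H
    refine ⟨fun k => ?_, fun k => ?_⟩
    · have := H (min k u.length)
      rw [List.take_append_of_le_length (min_le_right _ _), ← List.take_take,
        List.take_of_length_le (l := u) le_rfl] at this
      exact this
    · have := H (u.length + k)
      rw [List.take_length_add_append, List.count_append, List.count_append] at this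
      omega
  · rintro ⟨h1, h2⟩ k
    rcases le_total k u.length with hk | hk
    · rw [List.take_append_of_le_length hk]
      exact h1 k
    · obtain ⟨j, rfl⟩ := Nat.exists_eq_add_of_le hk
      rw [List.take_length_add_append, List.count_append, List.count_append]
      have := h2 j
      omega

lemma D_flatten {a b : V} (L : List (List V)) (h : ∀ u ∈ L, u.count a = u.count b) :
    D a b L.flatten ↔ ∀ u ∈ L, D a b u := by
  induction L with
  | nil => simp [D]
  | cons u L ih =>
    rw [List.flatten_cons, D_append (h u (by simp)), ih (fun v hv => h v (by simp [hv]))]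
    simp

lemma block [Fintype V] (p q : V → ℕ) (hpq : ∀ v, p v < q v)
    (hp : ∀ a b, p a = p b → a = b) (hq : ∀ a b, q a = q b → a = b) (hne : ∀ a b, p a ≠ q b) :
    ∃ w : List V, (∀ v, w.count v = 2) ∧
      ∀ a b, a ≠ b → (D a b w ↔ p a < p b ∧ p b < q a ∧ q a < q b) := by
  classical
  let g : ℕ → Option V := fun s => if h : ∃ v, p v = s ∨ q v = s then some h.choose else none
  have hg : ∀ s v, g s = some v ↔ p v = s ∨ q v = s := by
    intro s v
    simp only [g]
    split_ifs with h
    · have := h.choose_spec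
      simp only [Option.some.injEq]
      constructor
      · rintro rfl; exact this
      · rintro (h1 | h1) <;> rcases this with h2 | h2
        · exact hp _ _ (h2.trans h1.symm)
        · exact absurd (h1.trans h2.symm) (hne _ _)
        · exact absurd (h2.trans h1.symm) (hne _ _)
        · exact hq _ _ (h2.trans h1.symm)
    · simp only [false_iff]
      exact fun h' => h ⟨v, h'⟩
  obtain ⟨M, hM⟩ : ∃ M, ∀ v, q v < M :=
    ⟨Finset.univ.sup q + 1, fun v => Nat.lt_succ_of_le (Finset.le_sup (f := q) (Finset.mem_univ v))⟩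
  have hc : ∀ t v, ((List.range t).filterMap g).count v
      = (if p v < t then 1 else 0) + (if q v < t then 1 else 0) := by
    intro t v
    induction t with
    | zero => simp
    | succ t ih =>
      rw [List.range_succ, List.filterMap_append, List.count_append, ih]
      have h1 := hg t v
      have := hpq v
      have h2 : (List.filterMap g [t]).count v = if p v = t ∨ q v = t then 1 else 0 := by
        simp only [← h1]
        cases h : g t with
        | none => simp [h]
        | some y => by_cases e : y = v <;> simp [h, e]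
      rw [h2]
      split_ifs <;> omega
  have hc2 : ∀ t (v : V), @List.count _ instBEqOfDecidableEq (some v) ((List.range t).map g)
      = ((List.range t).filterMap g).count v := by
    intro t v
    induction t with
    | zero => simp
    | succ t ih =>
      rw [List.range_succ, List.map_append, @List.count_append _ instBEqOfDecidableEq, ih,
        List.filterMap_append, List.count_append]
      cases h : g t with
      | none => simp [h]
      | some y => by_cases e : y = v <;> simp [h, e]
  refine ⟨(List.range M).filterMap g, fun v => ?_, fun a b hab => ?_⟩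
  · rw [hc, if_pos ((hpq v).trans (hM v)), if_pos (hM v)]
  · rw [num _ _ _ _ M (hpq a) (hpq b) (hM a) (hM b) (fun h => hab (hp _ _ h))
      (fun h => hab (hq _ _ h)) (hne b a), ← E_iff_D _ _ _ hab]
    have : (List.range M).filterMap g = ((List.range M).map g).filterMap id := by
      rw [List.filterMap_map]; rfl
    rw [this, E_filterMap, E_iff_D _ _ _ (by simpa using hab)]
    unfold D
    simp only [← List.map_take, List.take_range, hc2, hc]
    constructor
    · intro h t ht
      simpa only [min_eq_left ht] using h t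
    · intro h k
      exact h _ (min_le_right _ _)

/-- Halldórsson–Kitaev–Pyatkin: a semi-transitive orientation gives a representing word. -/
theorem hkp [Fintype V] (G : SimpleGraph V) (Le : V → V → Prop) (X : Ax G.Adj Le) :
    ∃ w : List V, (∀ v, v ∈ w) ∧
      ∀ a b, a ≠ b → (G.Adj a b ↔ (w.filter (fun x => x = a ∨ x = b)).IsChain (· ≠ ·)) := by
  classical
  obtain ⟨M, ρ, hρM, hρ, hmono⟩ : ∃ (M : ℕ) (ρ : V → ℕ), (∀ v, ρ v < M) ∧
      (∀ a b, ρ a = ρ b → a = b) ∧ ∀ a b, Le a b → a ≠ b → ρ a < ρ b := by
    let e := Fintype.equivFin V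
    let d : V → ℕ := fun v => (Finset.univ.filter (fun u => Le u v)).card
    have hd : ∀ a b, Le a b → a ≠ b → d a < d b := by
      intro a b h hab
      refine Finset.card_lt_card ⟨fun u hu => ?_, fun hs => hab (X.anti h ?_)⟩
      · simp only [Finset.mem_filter, Finset.mem_univ, true_and] at hu ⊢
        exact X.trans hu h
      · have := hs (Finset.mem_filter.2 ⟨Finset.mem_univ b, X.refl b⟩)
        exact (Finset.mem_filter.1 this).2
    have hd' : ∀ v, d v ≤ Fintype.card V := fun v => Finset.card_le_univ _
    refine ⟨(Fintype.card V + 1) * Fintype.card V, fun v => d v * Fintype.card V + (e v).1,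
      fun v => ?_, fun a b h => ?_, fun a b h hab => ?_⟩
    · have := (e v).2
      have := Nat.mul_le_mul_right (Fintype.card V) (hd' v)
      nlinarith
    · have h1 := congrArg (· % Fintype.card V) h
      simp only [Nat.mul_add_mod_self_right, Nat.mod_eq_of_lt (e a).2, Nat.mod_eq_of_lt (e b).2]
        at h1
      exact e.injective (Fin.ext h1)
    · have := (e a).2
      have := Nat.mul_le_mul_right (Fintype.card V) (Nat.succ_le_of_lt (hd a b h hab))
      simp only
      nlinarith
  have key : ∀ v : V, ∃ w : List V, (∀ u, w.count u = 2) ∧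
      (∀ a b, G.Adj a b → Le a b → D a b w) ∧
      ∀ u, u ≠ v → ¬ G.Adj u v → ¬ D u v w ∧ ¬ D v u w := by
    intro v
    have ex : ∀ u, ∃ κ p q : ℕ, (Le u v ↔ κ = 0 ∨ κ = 1 ∨ κ = 3) ∧ (Le v u ↔ κ = 3 ∨ κ = 4 ∨ κ = 5) ∧
        (G.Adj u v ↔ κ = 1 ∨ κ = 4) ∧ (u = v ↔ κ = 3) ∧
        ((κ = 3 ∧ p = 4 * M + ρ u ∧ q = 7 * M + ρ u) ∨ (κ = 1 ∧ p = M + ρ u ∧ q = 6 * M + ρ u) ∨
        (κ = 0 ∧ p = ρ u ∧ q = 3 * M + ρ u) ∨ (κ = 4 ∧ p = 5 * M + ρ u ∧ q = 10 * M + ρ u) ∨
        (κ = 5 ∧ p = 8 * M + ρ u ∧ q = 11 * M + ρ u) ∨
        (κ = 2 ∧ p = 2 * M + ρ u ∧ q = 9 * M + ρ u)) := by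
      intro u
      by_cases e : u = v
      · subst e
        exact ⟨3, _, _, by simp [X.refl], by simp [X.refl], by simp, by simp, Or.inl ⟨rfl, rfl, rfl⟩⟩
      by_cases l : Le u v
      · have r : ¬ Le v u := fun r => e (X.anti l r)
        by_cases a : G.Adj u v
        · exact ⟨1, _, _, by simp [l], by simp [r], by simp [a], by simp [e],
            Or.inr (Or.inl ⟨rfl, rfl, rfl⟩)⟩
        · exact ⟨0, _, _, by simp [l], by simp [r], by simp [a], by simp [e],
            Or.inr (Or.inr (Or.inl ⟨rfl, rfl, rfl⟩))⟩
      by_cases r : Le v u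
      · by_cases a : G.Adj u v
        · exact ⟨4, _, _, by simp [l], by simp [r], by simp [a], by simp [e],
            Or.inr (Or.inr (Or.inr (Or.inl ⟨rfl, rfl, rfl⟩)))⟩
        · exact ⟨5, _, _, by simp [l], by simp [r], by simp [a], by simp [e],
            Or.inr (Or.inr (Or.inr (Or.inr (Or.inl ⟨rfl, rfl, rfl⟩))))⟩
      · have a : ¬ G.Adj u v := fun a => (X.tot a).elim l r
        exact ⟨2, _, _, by simp [l], by simp [r], by simp [a], by simp [e],
          Or.inr (Or.inr (Or.inr (Or.inr (Or.inr ⟨rfl, rfl, rfl⟩))))⟩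
    choose κ p q hL hR hA hE nm using ex
    obtain ⟨w, h2, hw⟩ := block p q
      (fun u => by have := nm u; have := hρM u; omega)
      (fun a b h => hρ a b (by have := nm a; have := nm b; have := hρM a; have := hρM b; omega))
      (fun a b h => hρ a b (by have := nm a; have := nm b; have := hρM a; have := hρM b; omega))
      (fun a b => by have := nm a; have := nm b; have := hρM a; have := hρM b; omega)
    refine ⟨w, h2, fun a b hab hl => ?_, fun u huv hn => ?_⟩
    · rw [hw a b hab.ne]
      have m1 := hmono a b hl hab.ne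
      have := hρM a
      have := hρM b
      have s1 : Le a v → Le v b → a = v ∨ G.Adj a v := fun h1 h2 => X.sc hab (X.refl a) h1 h2
      have s2 : Le a v → Le v b → b = v ∨ G.Adj b v :=
        fun h1 h2 => (X.sc hab h1 h2 (X.refl b)).imp Eq.symm (fun h => h.symm)
      have s3 : G.Adj a v → Le b v → b = v ∨ G.Adj b v := fun h1 h2 => X.sc h1 hl h2 (X.refl v)
      have s4 : G.Adj b v → Le v a → a = v ∨ G.Adj a v :=
        fun h1 h2 => (X.sc h1.symm (X.refl v) h2 hl).imp Eq.symm (fun h => h.symm)
      have t1 : Le b v → Le a v := X.trans hl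
      have t2 : Le v a → Le v b := fun h => X.trans h hl
      have t3 : ¬ Le b v ∨ ¬ Le v a := by
        by_contra hc
        push Not at hc
        exact hab.ne (X.anti hl (X.trans hc.1 hc.2))
      have t4 : b = v → G.Adj a v := fun h => h ▸ hab
      have t5 : a = v → G.Adj b v := fun h => h ▸ hab.symm
      simp only [hL, hR, hA, hE] at s1 s2 s3 s4 t1 t2 t3 t4 t5
      have na := nm a
      have nb := nm b
      omega
    · rw [hw u v huv, hw v u huv.symm]
      have := hρM u
      have := hρM v
      have t4 := (hE v).1 rfl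
      rw [Ne, hE] at huv
      rw [hA] at hn
      have na := nm u
      have nb := nm v
      omega
  choose f hf2 hfa hfn using key
  let L := (Finset.univ : Finset V).toList.map f
  have hL : ∀ v, f v ∈ L := fun v => List.mem_map.2 ⟨v, by simp, rfl⟩
  have hD : ∀ a b, D a b L.flatten ↔ ∀ v, D a b (f v) := by
    intro a b
    rw [D_flatten L]
    · exact ⟨fun h v => h _ (hL v), fun h u hu => by
        obtain ⟨v, -, rfl⟩ := List.mem_map.1 hu
        exact h v⟩
    · intro u hu
      obtain ⟨v, -, rfl⟩ := List.mem_map.1 hu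
      rw [hf2, hf2]
  refine ⟨L.flatten, fun v => List.mem_flatten.2 ⟨f v, hL v, ?_⟩, fun a b hab => ?_⟩
  · rw [← List.count_pos_iff, hf2]; omega
  · rw [chain_iff_D _ a b hab, hD, hD]
    constructor
    · intro h
      exact (X.tot h).imp (fun k v => hfa v a b h k) (fun k v => hfa v b a h.symm k)
    · intro h
      by_contra hn
      rcases h with h | h
      · exact (hfn b a hab hn).1 (h b)
      · exact (hfn b a hab hn).2 (h b)

omit [DecidableEq V] in
/-- Circular colourings of ratio at most 4 whose tight 2-paths close up. -/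
lemma circ (G : SimpleGraph V) (c : V → ℕ) (q : ℕ) (hq : 0 < q)
    (h1 : ∀ u v, G.Adj u v → (c u + q ≤ c v ∧ c v ≤ c u + 3 * q) ∨ (c v + q ≤ c u ∧ c u ≤ c v + 3 * q))
    (h2 : ∀ u v w, G.Adj u v → G.Adj v w → c v = c u + q → c w = c v + q → G.Adj u w) :
    Ax G.Adj (fun u v => u = v ∨ (c u + q ≤ c v ∧ (G.Adj u v ∨ c u + 2 * q < c v))) := by
  refine ⟨fun a => Or.inl rfl, ?_, ?_, fun h => h.symm, ?_, ?_⟩
  · rintro a b d (rfl | ⟨k1, k2⟩) k
    · exact k
    rcases k with rfl | ⟨k3, k4⟩
    · exact Or.inr ⟨k1, k2⟩
    refine Or.inr ⟨by omega, ?_⟩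
    by_cases e : c a + 2 * q < c d
    · exact Or.inr e
    · exact Or.inl (h2 a b d (k2.resolve_right (by omega)) (k4.resolve_right (by omega))
        (by omega) (by omega))
  · rintro a b (rfl | ⟨k1, -⟩) k
    · rfl
    rcases k with rfl | ⟨k3, -⟩
    · rfl
    omega
  · intro a b h
    rcases h1 a b h with k | k
    · exact Or.inl (Or.inr ⟨k.1, Or.inl h⟩)
    · exact Or.inr (Or.inr ⟨k.1, Or.inl h.symm⟩)
  · rintro a b x y h k1 (rfl | ⟨k2, k3 | k3⟩) k4
    · exact Or.inl rfl
    · exact Or.inr k3
    have := h1 a b h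
    rcases k1 with rfl | ⟨k1, -⟩ <;> rcases k4 with rfl | ⟨k4, -⟩
    · exact Or.inr h
    all_goals omega

end Pool.Agent.H24.Word
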